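import Pool.Agent.Helper25.PFMain

/-!
# Maximal power-free words over small alphabets: definitions

Words are stored with the most recent letter first; letters are the numbers below `q + 2`, and any
`q + 1` consecutive letters are different. `e p` is the largest allowed match length at distance
`p`.
-/

set_option autoImplicit false

namespace Pool.Agent.Helper49.TF

open Pool.Agent.Helper25.PF

/-! ### Packing of events -/

/-- First time of the interval of an event of level `n`, depth `d`, time `t`, pivot `Z`. -/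
def cs (Z n d t : ℕ) : ℕ := if Z ≤ 2 * n then t + d else t + (Z - 2 * n) + d

/-- End of this interval. -/
def ce (Z n t : ℕ) : ℕ := if Z ≤ 2 * n then t + (Z - n) else t + n

/-- Length of this interval, `0` if the event does not belong to the clique `(X, Z)`. -/
def cl (X Z n d : ℕ) : ℕ :=
  if n ≤ X ∧ X + d < 2 * n then (if Z ≤ 2 * n then Z - n - d else 3 * n - Z - d) else 0

/-- The pair rule for events at the times of `Ev` with levels `n` and depths `d`. -/
def PairRule (Ev : Finset ℕ) (n d : ℕ → ℕ) : Prop :=
  ∀ t ∈ Ev, ∀ s ∈ Ev, t < s →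
    (n t ≤ n s → 2 * n t ≤ n s + d t ∨ n t ≤ (s - t) + d s) ∧
    (n s < n t → 2 * n s ≤ (s - t) + n t + d s)

/-- The rewards `w` of events of level at least `N0` have density at most `lam - 1`. -/
def Pack (N0 : ℕ) (w : ℕ → ℕ) (lam : ℕ) : Prop :=
  ∃ C : ℕ, ∀ (T L : ℕ) (Ev : Finset ℕ) (n d : ℕ → ℕ), Ev ⊆ Finset.range T → PairRule Ev n d →
    (∀ t ∈ Ev, N0 ≤ n t ∧ n t ≤ T + L ∧ 1 ≤ d t) →
    ∑ t ∈ Ev, w (d t) + T ≤ lam * T + C * (Nat.log 2 (T + L) + 1)

/-! ### Short repetitions -/

/-- The letter `c` is blocked after `v` by a match at a distance below `P`. -/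
def Sb (e : ℕ → ℕ) (P : ℕ) (v : List ℕ) (c : ℕ) : Prop :=
  ∃ p, 1 ≤ p ∧ p < P ∧ e p ≤ sp v p ∧ v[p - 1]? = some c

/-- No repetition at a distance below `P` is too long. -/
def KFs (e : ℕ → ℕ) (P : ℕ) (v : List ℕ) : Prop :=
  ∀ p, 1 ≤ p → p < P → ∀ s, sp (v.drop s) p ≤ e p

/-- A word with all letters (below `N`) blocked can be reached in `k` steps without short
repetitions. -/
def DP (e : ℕ → ℕ) (P N : ℕ) : ℕ → List ℕ → Prop
  | 0, v => ∀ c, c < N → Sb e P v c
  | k + 1, v => ∃ c, c < N ∧ ¬ Sb e P v c ∧ DP e P N k (c :: v)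

/-! ### Tables -/

/-- Trees of suffixes. -/
inductive T
  | l (f d : ℕ) : T
  | b (p : ℕ) : T
  | n (t0 t1 : T) : T

/-- The letter below `q + 2` that is missing among the first `q + 1` letters. -/
def ms (q : ℕ) (u : List ℕ) : ℕ := (q + 1) * (q + 2) / 2 - (u.take (q + 1)).sum

/-- The entry of a table for a word `v`; `w` is `v` without its first `q + 1` letters: the first
letter is compared with the letter at distance `q + 1`. -/
noncomputable def lk (t : T) : List ℕ → List ℕ → Option (ℕ × ℕ) :=
  T.rec (motive := fun _ => List ℕ → List ℕ → Option (ℕ × ℕ)) (fun f d _ _ => some (f, d))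
    (fun _ _ _ => none)
    (fun _ _ i0 i1 v w => List.rec (motive := fun _ => Option (ℕ × ℕ)) none
      (fun a v' _ => List.rec (motive := fun _ => Option (ℕ × ℕ)) none
        (fun c w' _ => Bool.rec (motive := fun _ => Option (ℕ × ℕ)) (i1 v' w') (i0 v' w')
          (Nat.beq a c)) w) v) t

theorem lk_l (f d : ℕ) (v w : List ℕ) : lk (.l f d) v w = some (f, d) := rfl

theorem lk_b (p : ℕ) (v w : List ℕ) : lk (.b p) v w = none := rfl

theorem lk_n_nil (t0 t1 : T) (w : List ℕ) : lk (.n t0 t1) [] w = none := rfl

theorem lk_n_cons_nil (t0 t1 : T) (a : ℕ) (v : List ℕ) : lk (.n t0 t1) (a :: v) [] = none := rfl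

theorem lk_n (t0 t1 : T) (a c : ℕ) (v w : List ℕ) :
    lk (.n t0 t1) (a :: v) (c :: w) = bif Nat.beq a c then lk t0 v w else lk t1 v w := by
  cases h : Nat.beq a c <;> simp only [lk, h, cond]

/-- The entry of a table for a word. -/
noncomputable def look (q : ℕ) (t : T) (v : List ℕ) : Option (ℕ × ℕ) := lk t v (v.drop (q + 1))

/-- The first `k` letters of the two words exist and agree. -/
noncomputable def mt (l : List ℕ) : ℕ → List ℕ → Bool :=
  List.rec (motive := fun _ => ℕ → List ℕ → Bool) (fun k _ => Nat.beq k 0)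
    (fun a _ ih k m => Nat.rec (motive := fun _ => Bool) true
      (fun k' _ => List.rec (motive := fun _ => Bool) false
        (fun b m' _ => Bool.rec (motive := fun _ => Bool) false (ih k' m') (Nat.beq a b)) m) k) l

theorem mt_nil (k : ℕ) (m : List ℕ) : mt [] k m = Nat.beq k 0 := rfl

theorem mt_zero (a : ℕ) (l m : List ℕ) : mt (a :: l) 0 m = true := rfl

theorem mt_cons_nil (a k : ℕ) (l : List ℕ) : mt (a :: l) (k + 1) [] = false := rfl

theorem mt_cons (a b k : ℕ) (l m : List ℕ) :
    mt (a :: l) (k + 1) (b :: m) = (Nat.beq a b && mt l k m) := by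
  cases h : Nat.beq a b <;> simp only [mt, h, Bool.true_and, Bool.false_and]

/-- Among the first `k` letters of the two words there is a visible difference. -/
noncomputable def mm (l : List ℕ) : ℕ → List ℕ → Bool :=
  List.rec (motive := fun _ => ℕ → List ℕ → Bool) (fun _ _ => false)
    (fun a _ ih k m => Nat.rec (motive := fun _ => Bool) false
      (fun k' _ => List.rec (motive := fun _ => Bool) false
        (fun b m' _ => Bool.rec (motive := fun _ => Bool) true (ih k' m') (Nat.beq a b)) m) k) l

theorem mm_nil (k : ℕ) (m : List ℕ) : mm [] k m = false := rfl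

theorem mm_zero (a : ℕ) (l m : List ℕ) : mm (a :: l) 0 m = false := rfl

theorem mm_cons_nil (a k : ℕ) (l : List ℕ) : mm (a :: l) (k + 1) [] = false := rfl

theorem mm_cons (a b k : ℕ) (l m : List ℕ) :
    mm (a :: l) (k + 1) (b :: m) = (!(Nat.beq a b) || mm l k m) := by
  cases h : Nat.beq a b <;> simp only [mm, h, Bool.not_true, Bool.not_false, Bool.true_or,
    Bool.false_or]

/-- `r` begins with a forbidden repetition of period `p`. -/
noncomputable def rep (es : List ℕ) (p : ℕ) (r : List ℕ) : Bool :=
  Nat.ble 1 p && Nat.ble p es.length && mt r (es.getD (p - 1) 0 + 1) (r.drop p)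

/-- The letter `c` is visibly blocked after `u`; `es` and `m` are followed together. -/
noncomputable def fl (u : List ℕ) (c : ℕ) (es : List ℕ) : List ℕ → Bool :=
  List.rec (motive := fun _ => List ℕ → Bool) (fun _ => false)
    (fun e _ ih m => List.rec (motive := fun _ => Bool) false
      (fun x m' _ => Bool.rec (motive := fun _ => Bool) (ih m')
        (Bool.rec (motive := fun _ => Bool) (ih m') true (mt u e m')) (Nat.beq x c)) m) es

theorem fl_nil (u : List ℕ) (c : ℕ) (m : List ℕ) : fl u c [] m = false := rfl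

theorem fl_cons_nil (u : List ℕ) (c e : ℕ) (es : List ℕ) : fl u c (e :: es) [] = false := rfl

theorem fl_cons (u : List ℕ) (c e x : ℕ) (es m : List ℕ) :
    fl u c (e :: es) (x :: m) = ((Nat.beq x c && mt u e m) || fl u c es m) := by
  cases h : Nat.beq x c <;> cases h' : mt u e m <;> simp only [fl, h, h', Bool.true_and,
    Bool.false_and, Bool.true_or, Bool.false_or]

/-- The letter `c` is visibly not blocked after `u`. -/
noncomputable def ub (u : List ℕ) (c : ℕ) (es : List ℕ) : List ℕ → Bool :=
  List.rec (motive := fun _ => List ℕ → Bool) (fun _ => true)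
    (fun e _ ih m => List.rec (motive := fun _ => Bool) false
      (fun x m' _ => Bool.rec (motive := fun _ => Bool) (ih m')
        (Bool.rec (motive := fun _ => Bool) false (ih m') (mm u e m')) (Nat.beq x c)) m) es

theorem ub_nil (u : List ℕ) (c : ℕ) (m : List ℕ) : ub u c [] m = true := rfl

theorem ub_cons_nil (u : List ℕ) (c e : ℕ) (es : List ℕ) : ub u c (e :: es) [] = false := rfl

theorem ub_cons (u : List ℕ) (c e x : ℕ) (es m : List ℕ) :
    ub u c (e :: es) (x :: m) = ((!(Nat.beq x c) || mm u e m) && ub u c es m) := by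
  cases h : Nat.beq x c <;> cases h' : mm u e m <;> simp only [ub, h, h', Bool.true_and,
    Bool.false_and, Bool.true_or, Bool.false_or, Bool.not_true, Bool.not_false]

/-- The inequalities at a leaf: `b0`, `b1` say that a letter is visibly blocked, `u0`, `u1` that
it is visibly not blocked, `r0`, `r1` are the entries of the two child words. -/
def lres (ws : List ℕ) (lam f d : ℕ) (r0 r1 : Option (ℕ × ℕ)) : Bool → Bool → Bool → Bool → Bool
  | true, true, _, _ => Nat.beq d 0 || Nat.ble 50 d
  | true, false, _, u1 =>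
    match r1 with
    | some (f1, d1) => Nat.ble (f + lam) f1 && (Nat.ble 50 d || (Nat.beq (d1 + 1) d && u1))
    | none => false
  | false, true, u0, _ =>
    match r0 with
    | some (f0, d0) => Nat.ble (f + lam) f0 && (Nat.ble 50 d || (Nat.beq (d0 + 1) d && u0))
    | none => false
  | false, false, u0, u1 =>
    match r0, r1 with
    | some (f0, d0), some (f1, d1) =>
      (Nat.ble (f + lam) (f0 + (bif u1 then ws.getD d1 0 else 0)) ||
        Nat.ble (f + lam) (f1 + (bif u0 then ws.getD d0 0 else 0))) &&
      Nat.ble (f + lam) (f1 + (bif u0 then ws.getD 0 0 else 0)) &&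
      Nat.ble (f + lam) (f0 + (bif u1 then ws.getD 0 0 else 0)) &&
      (Nat.ble 50 d || (Nat.beq (d0 + 1) d && u0) || (Nat.beq (d1 + 1) d && u1))
    | _, _ => false

/-- The check at a leaf, given which of the letters `c0`, `c1` are visibly blocked. The lists `es`
and `el` are upper and lower bounds for the values of `e`. -/
noncomputable def lchk1 (q : ℕ) (el ws : List ℕ) (lam : ℕ) (T0 : T) (f d : ℕ) (u : List ℕ) (c0 c1 : ℕ) :
    Bool → Bool → Bool
  | true, true => lres ws lam f d none none true true true true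
  | true, false => lres ws lam f d none (look q T0 (c1 :: u)) true false true (ub u c1 el u)
  | false, true => lres ws lam f d (look q T0 (c0 :: u)) none false true (ub u c0 el u) true
  | false, false =>
    match ub u c0 el u, ub u c1 el u with
    | true, true =>
      lres ws lam f d (look q T0 (c0 :: u)) (look q T0 (c1 :: u)) false false true true
    | true, false =>
      lres ws lam f d (look q T0 (c0 :: u)) (look q T0 (c1 :: u)) false false true false
    | false, true =>
      lres ws lam f d (look q T0 (c0 :: u)) (look q T0 (c1 :: u)) false false false true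
    | false, false =>
      lres ws lam f d (look q T0 (c0 :: u)) (look q T0 (c1 :: u)) false false false false

/-- The check at a leaf with entries `f`, `d` for the known suffix `u` and letters `c0`, `c1`. -/
noncomputable def lchk (q : ℕ) (es el ws : List ℕ) (lam : ℕ) (T0 : T) (f d : ℕ) (u : List ℕ) (c0 c1 : ℕ) : Bool :=
  lchk1 q el ws lam T0 f d u c0 c1 (fl u c0 es u) (fl u c1 es u)

/-- Evaluation of a letter (below `5`) before it is used. -/
def fz (x : ℕ) (k : ℕ → Bool) : Bool :=
  match x with
  | 0 => k 0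
  | 1 => k 1
  | 2 => k 2
  | 3 => k 3
  | 4 => k 4
  | _ => false

/-- The check at a leaf, the candidates being computed. -/
noncomputable def lf (q : ℕ) (es el ws : List ℕ) (lam : ℕ) (T0 : T) (f d : ℕ) (u : List ℕ) : Bool :=
  fz (u.getD q 0) fun c0 => fz (ms q u) fun c1 => lchk q es el ws lam T0 f d u c0 c1

/-- The check of a tree; `r` is the known suffix, oldest letter first. -/
noncomputable def chk (q : ℕ) (es el ws : List ℕ) (lam : ℕ) (T0 : T) (t : T) : List ℕ → Bool :=
  T.rec (motive := fun _ => List ℕ → Bool) (fun f d r => lf q es el ws lam T0 f d r.reverse)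
    (fun p r => rep es p r)
    (fun _ _ i0 i1 r => Bool.rec (motive := fun _ => Bool) false
      (fz (ms q r) (fun c1 => i1 (c1 :: r))) (fz (r.getD q 0) (fun c0 => i0 (c0 :: r)))) t

theorem chk_l (q : ℕ) (es el ws : List ℕ) (lam : ℕ) (T0 : T) (f d : ℕ) (r : List ℕ) :
    chk q es el ws lam T0 (.l f d) r = lf q es el ws lam T0 f d r.reverse := rfl

theorem chk_b (q : ℕ) (es el ws : List ℕ) (lam : ℕ) (T0 : T) (p : ℕ) (r : List ℕ) :
    chk q es el ws lam T0 (.b p) r = rep es p r := rfl

theorem chk_n (q : ℕ) (es el ws : List ℕ) (lam : ℕ) (T0 t0 t1 : T) (r : List ℕ) :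
    chk q es el ws lam T0 (.n t0 t1) r =
      (fz (r.getD q 0) (fun c0 => chk q es el ws lam T0 t0 (c0 :: r)) &&
        fz (ms q r) (fun c1 => chk q es el ws lam T0 t1 (c1 :: r))) := by
  cases h : fz (r.getD q 0) (fun c0 => chk q es el ws lam T0 t0 (c0 :: r))
  · simp only [chk, Bool.false_and] at h ⊢
    rw [h]
  · simp only [chk, Bool.true_and] at h ⊢
    rw [h]

/-- The starting suffix, oldest letter first. -/
def st : ℕ → List ℕ
  | 0 => [0]
  | q + 1 => (q + 1) :: st q

/-- Depth of a tree. -/
def dep : T → ℕ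
  | .l _ _ => 0
  | .b _ => 0
  | .n t0 t1 => max (dep t0) (dep t1) + 1

/-- Largest first entry of a tree. -/
def top : T → ℕ
  | .l f _ => f
  | .b _ => 0
  | .n t0 t1 => max (top t0) (top t1)

/-- What the check of a table gives for a word `v`; the candidates are the letter at distance
`q + 1` and the missing letter. -/
def Lq (q : ℕ) (e : ℕ → ℕ) (P : ℕ) (ws : List ℕ) (lam : ℕ) (T0 : T) (v : List ℕ) : Prop :=
  ∃ (f d : ℕ) (b0 b1 u0 u1 : Bool), look q T0 v = some (f, d) ∧
    (b0 = true → Sb e P v (v.getD q 0)) ∧ (b1 = true → Sb e P v (ms q v)) ∧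
    (u0 = true → b0 = false → ¬ Sb e P v (v.getD q 0)) ∧
    (u1 = true → b1 = false → ¬ Sb e P v (ms q v)) ∧
    lres ws lam f d (look q T0 (v.getD q 0 :: v)) (look q T0 (ms q v :: v)) b0 b1 u0 u1 = true

end Pool.Agent.Helper49.TF
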