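import Pool.Agent.Helper49.TF.St

/-!
# One interval of exponents
-/

set_option autoImplicit false

namespace Pool.Agent.Helper49.TF

open Pool.Agent.Helper25.PF

/-- Every word over `m` letters without too long repetitions ends (on the left side of the list)
in a dead end. -/
def Con (m : ℕ) (κ : ℝ) : Prop :=
  ∀ w : List ℕ, KF (ee κ) w → (∀ c ∈ w, c < m) →
    ∃ u, KF (ee κ) u ∧ (∀ c ∈ u, c < m) ∧ w <:+ u ∧ ∀ a, a < m → ¬ KF (ee κ) (a :: u)

theorem con_of (hstp : S_STP) (hrng : S_RNG) (q P N0 lam a b c d : ℕ) (es el ws : List ℕ) (tb : T)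
    (hpack : Pack N0 (fun δ => ws.getD (δ - 1) 0) lam)
    (hq : 1 ≤ q) (hq5 : q + 2 ≤ 5) (hqP : q < P) (hb : 0 < b) (hd : 0 < d) (ha : 0 < a)
    (hes : es = (List.range (P - 1)).map (fun i => (c * (i + 1) + d - 1) / d - 1))
    (hel : el = (List.range (P - 1)).map (fun i => a * (i + 1) / b))
    (h0 : (c * q + d - 1) / d - 1 = 0) (hN : (N0 - 1) * b ≤ a * P)
    (hl1 : ws.length < N0) (hl2 : ws.length < 50)
    (hchk : chk q es el ws lam tb tb (st q) = true) (κ : ℝ) (h1 : (a : ℝ) < κ * b)
    (h2 : κ * d ≤ c) : Con (q + 2) κ := by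
  have hb' : (0 : ℝ) < b := by exact_mod_cast hb
  have ha' : (0 : ℝ) < a := by exact_mod_cast ha
  have hκ : 0 < κ := by
    by_contra hcon
    push Not at hcon
    nlinarith
  have he := hrng κ a b c d ha hb hd h1 h2
  have hgetD : ∀ p, 1 ≤ p → p < P → el.getD (p - 1) 0 ≤ ee κ p ∧ ee κ p ≤ es.getD (p - 1) 0 := by
    intro p hp hpP
    have h3 := he p hp
    rw [hes, hel, List.getD_eq_getElem?_getD, List.getD_eq_getElem?_getD, List.getElem?_map,
      List.getElem?_map, List.getElem?_range (by omega)]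
    simp only [Option.map_some, Option.getD_some]
    rw [show p - 1 + 1 = p by omega]
    exact h3
  have hlen : es.length = P - 1 := by
    rw [hes, List.length_map, List.length_range]
  have hlen' : el.length = P - 1 := by
    rw [hel, List.length_map, List.length_range]
  have hN0 : N0 ≤ ee κ P + 1 := by
    have h3 : N0 - 1 ≤ ee κ P := by
      rw [le_ee_iff hκ (by omega)]
      have h4 : (((N0 - 1 : ℕ) : ℝ)) * b ≤ a * P := by exact_mod_cast hN
      have hP : (0 : ℝ) < P := by exact_mod_cast (by omega : 0 < P)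
      have h5 : (a : ℝ) * P < κ * b * P := by nlinarith
      have h6 : (((N0 - 1 : ℕ) : ℝ)) * b < κ * P * b := by nlinarith
      exact lt_of_mul_lt_mul_right h6 hb'.le
    omega
  have hq0 : ee κ q = 0 := by
    have := (he q hq).2
    omega
  exact hstp κ q P N0 lam es el ws tb hκ hq hq5 hqP hlen hlen' hgetD hq0 hN0 hl1 hl2 hpack hchk

end Pool.Agent.Helper49.TF
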