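import Pool.Agent.Helper49.TF.Gen

/-!
# From words of natural numbers to words over a finite alphabet
-/

set_option autoImplicit false

namespace Pool.Agent.Helper49.TF

open Pool.Agent.Helper25.PF

/-- Injective renamings do not change repetitions. -/
theorem KF_map {α β : Type} (φ : α → β) (hφ : Function.Injective φ) (e : ℕ → ℕ) (u : List α) :
    KF e (u.map φ) ↔ KF e u := by
  have hinj : ∀ i j : ℕ, (u.map φ)[i]? = (u.map φ)[j]? ↔ u[i]? = u[j]? := by
    intro i j
    rw [List.getElem?_map, List.getElem?_map]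
    exact (Option.map_injective hφ).eq_iff
  unfold KF
  simp only [List.length_map, ne_eq, hinj]

theorem exists_map {α : Type} {m : ℕ} (σ : α ≃ Fin m) (v : List ℕ) (hv : ∀ c ∈ v, c < m) :
    ∃ u : List α, u.map (fun a => (σ a : ℕ)) = v := by
  induction v with
  | nil => exact ⟨[], rfl⟩
  | cons c v ih =>
    obtain ⟨u, hu⟩ := ih (fun x hx => hv x (List.mem_cons_of_mem c hx))
    refine ⟨σ.symm ⟨c, hv c (List.mem_cons_self)⟩ :: u, ?_⟩
    rw [List.map_cons, hu]
    simp

/-- One interval of exponents, for an arbitrary alphabet. -/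
theorem fin_of {α : Type} [Fintype α] (m : ℕ) (hcard : Fintype.card α = m) (k : ℝ) (hk : 1 < k)
    (h : Con m (k - 1)) (w : List α) (hw : PowerFree k w) :
    ∃ u : List α, MaximalPowerFree k u ∧ w <+: u ∧ ∀ b, ¬ PowerFree k (u ++ [b]) := by
  classical
  rw [powerFree_iff hk] at hw
  set σ : α ≃ Fin m := Fintype.equivFinOfCardEq hcard with hσ
  set φ : α → ℕ := fun a => (σ a : ℕ) with hφd
  have hφ : Function.Injective φ := by
    intro a b hab
    exact σ.injective (Fin.ext hab)
  have h1 : KF (ee (k - 1)) (w.reverse.map φ) := (KF_map φ hφ _ _).2 hw.reverse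
  have h2 : ∀ c ∈ w.reverse.map φ, c < m := by
    intro c hc
    obtain ⟨a, -, rfl⟩ := List.mem_map.1 hc
    exact (σ a).2
  obtain ⟨u', hu1, hu2, hu3, hu4⟩ := h _ h1 h2
  obtain ⟨u, hu⟩ := exists_map σ u' hu2
  have hmapu : u.map φ = u' := hu
  have hend : ∀ b, ¬ PowerFree k (u.reverse ++ [b]) := by
    intro b hb
    rw [powerFree_iff hk] at hb
    apply hu4 (φ b) (σ b).2
    rw [← hmapu, ← List.map_cons]
    rw [KF_map φ hφ]
    have := hb.reverse
    simpa using this
  refine ⟨u.reverse, ⟨?_, ?_⟩, ?_, hend⟩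
  · rw [powerFree_iff hk, KF_reverse_iff, ← KF_map φ hφ, hmapu]
    exact hu1
  · intro a b hab
    apply hend b
    rw [powerFree_iff hk] at hab ⊢
    exact hab.of_infix (List.suffix_cons a _).isInfix
  · rw [← List.reverse_suffix, List.reverse_reverse]
    obtain ⟨t, ht⟩ := hu3
    have ht' : t ++ w.reverse.map φ = u.map φ := by rw [ht, hmapu]
    refine ⟨u.take t.length, ?_⟩
    have h5 : (u.map φ).drop t.length = w.reverse.map φ := by
      rw [← ht', List.drop_left]
    have h6 : u.drop t.length = w.reverse := by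
      rw [← List.map_drop] at h5
      exact List.map_injective_iff.2 hφ h5
    rw [← h6, List.take_append_drop]

/-- Exponent one: only the empty word. -/
theorem fin_one {α : Type} (k : ℝ) (hk : k ≤ 1) (w : List α) (hw : PowerFree k w) :
    ∃ u : List α, MaximalPowerFree k u ∧ w <+: u ∧ ∀ b, ¬ PowerFree k (u ++ [b]) := by
  have hexp : ∀ u : List α, u ≠ [] → 1 ≤ exponent u := by
    intro u hu
    obtain ⟨h1, h2⟩ := sInf_period u hu
    have h3 : sInf {p | IsPeriod u p} ≤ u.length := by
      apply h2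
      exact ⟨List.length_pos_iff.2 hu, fun i hi => by omega⟩
    have h4 : (1 : ℝ) ≤ ((sInf {p | IsPeriod u p} : ℕ) : ℝ) := by exact_mod_cast h1.1
    have h5 : ((sInf {p | IsPeriod u p} : ℕ) : ℝ) ≤ u.length := by exact_mod_cast h3
    unfold exponent
    rw [le_div_iff₀ (by linarith)]
    linarith
  have hne : ∀ u : List α, u ≠ [] → ¬ PowerFree k u := by
    intro u hu hp
    have := hp u hu (List.infix_refl u)
    have := hexp u hu
    linarith
  have hw0 : w = [] := by
    by_contra hcon
    exact hne w hcon hw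
  subst hw0
  refine ⟨[], ⟨hw, fun a b => hne _ (by simp)⟩, List.prefix_rfl, fun b => hne _ (by simp)⟩

end Pool.Agent.Helper49.TF
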