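import Pool.Agent.Helper49.TF.Defs

/-!
# Assembly of the checks of subtrees
-/

set_option autoImplicit false

namespace Pool.Agent.Helper49.TF

theorem fz_lt (x : ℕ) (k : ℕ → Bool) (h : x < 5) : fz x k = k x := by
  interval_cases x <;> rfl

/-- The check of a tree from the checks of its two subtrees. -/
theorem gn (q : ℕ) (es el ws : List ℕ) (lam : ℕ) (T0 t0 t1 : T) (r : List ℕ) (c0 c1 : ℕ)
    (h0 : r.getD q 0 = c0) (h1 : ms q r = c1) (hc0 : c0 < 5) (hc1 : c1 < 5)
    (ha : chk q es el ws lam T0 t0 (c0 :: r) = true)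
    (hb : chk q es el ws lam T0 t1 (c1 :: r) = true) :
    chk q es el ws lam T0 (.n t0 t1) r = true := by
  rw [chk_n, h0, h1, fz_lt _ _ hc0, fz_lt _ _ hc1, ha, hb]
  rfl

end Pool.Agent.Helper49.TF
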