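import Pool.Agent.Helper49.TF.St

/-! # Project TF, module CHN: pair rule of events and contradiction of a growing potential -/

set_option autoImplicit false

namespace Pool.Agent.Helper49.TF

open Pool.Agent.Helper25.PF

private lemma drop_sp_CHN (u : List ℕ) (q m g : ℕ) (h : m ≤ sp u q) : m - g ≤ sp (u.drop g) q := by
  rw [le_sp_iff] at h ⊢
  obtain ⟨h1, h2⟩ := h
  rw [List.length_drop]
  refine ⟨by omega, fun i hi => ?_⟩
  rw [List.getElem?_drop, List.getElem?_drop, h2 (g + i) (by omega)]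
  congr 1
  omega

/-- the sequence of words -/
private lemma seq_CHN {κ : ℝ} {P N0 lam : ℕ} {w : ℕ → ℕ} {E : Set (List ℕ)} {F : List ℕ → ℕ}
    (hE : E.Nonempty)
    (h : ∀ v ∈ E, ∃ a, a :: v ∈ E ∧ ∃ r, F v + lam ≤ F (a :: v) + r ∧
      (r = 0 ∨ ∃ p δ, P ≤ p ∧ 1 ≤ δ ∧ δ < N0 ∧ r ≤ w δ ∧ ee κ p + 1 ≤ sp v p + δ ∧
        sp (a :: v) p = 0)) :
    ∃ (v : ℕ → List ℕ) (r p δ : ℕ → ℕ), (∀ t, v t ∈ E) ∧ (∀ t, ∃ a, v (t + 1) = a :: v t) ∧
      (∀ t, F (v t) + lam ≤ F (v (t + 1)) + r t) ∧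
      ∀ t, r t ≠ 0 → P ≤ p t ∧ 1 ≤ δ t ∧ δ t < N0 ∧ r t ≤ w (δ t) ∧
        ee κ (p t) + 1 ≤ sp (v t) (p t) + δ t ∧ sp (v (t + 1)) (p t) = 0 := by
  have h' : ∀ x : {v // v ∈ E}, ∃ y : {v // v ∈ E}, ∃ r p δ : ℕ, (∃ a, y.1 = a :: x.1) ∧
      F x.1 + lam ≤ F y.1 + r ∧ (r ≠ 0 → P ≤ p ∧ 1 ≤ δ ∧ δ < N0 ∧ r ≤ w δ ∧
        ee κ p + 1 ≤ sp x.1 p + δ ∧ sp y.1 p = 0) := by
    rintro ⟨v, hv⟩
    obtain ⟨a, ha, r, hr, h0 | ⟨p, δ, hp⟩⟩ := h v hv
    · exact ⟨⟨a :: v, ha⟩, r, 0, 0, ⟨a, rfl⟩, hr, fun h1 => absurd h0 h1⟩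
    · exact ⟨⟨a :: v, ha⟩, r, p, δ, ⟨a, rfl⟩, hr, fun _ => hp⟩
  choose Y r p δ h1 h2 h3 using h'
  obtain ⟨v0, hv0⟩ := hE
  let V : ℕ → {v // v ∈ E} := fun t => Nat.rec ⟨v0, hv0⟩ (fun _ x => Y x) t
  have hV : ∀ t, V (t + 1) = Y (V t) := fun _ => rfl
  refine ⟨fun t => (V t).1, fun t => r (V t), fun t => p (V t), fun t => δ (V t), fun t => (V t).2,
    fun t => ?_, fun t => ?_, fun t ht => ?_⟩
  · dsimp only
    rw [hV]
    exact h1 (V t)
  · dsimp only
    rw [hV]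
    exact h2 (V t)
  · dsimp only
    rw [hV]
    exact h3 (V t) ht

private lemma drop_CHN {v : ℕ → List ℕ} (h : ∀ t, ∃ a, v (t + 1) = a :: v t) (t g : ℕ) :
    (v (t + g)).drop g = v t := by
  induction g with
  | zero => simp
  | succ g ih =>
    obtain ⟨a, ha⟩ := h (t + g)
    rw [show t + (g + 1) = t + g + 1 by omega, ha, List.drop_succ_cons, ih]

private lemma length_CHN {v : ℕ → List ℕ} (h : ∀ t, ∃ a, v (t + 1) = a :: v t) (t : ℕ) :
    (v t).length = (v 0).length + t := by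
  induction t with
  | zero => simp
  | succ t ih =>
    obtain ⟨a, ha⟩ := h t
    rw [ha, List.length_cons, ih]
    omega

private lemma pair_CHN {κ : ℝ} (hκ : 0 < κ) {P N0 : ℕ} (hP : N0 ≤ ee κ P + 1) {v : ℕ → List ℕ}
    (hv : ∀ t, ∃ a, v (t + 1) = a :: v t) (hKF : ∀ t, KF (ee κ) (v t)) {t g p q dt ds : ℕ}
    (hg : 1 ≤ g) (hPq : P ≤ q) (hdt : dt < N0) (h1 : ee κ p + 1 ≤ sp (v t) p + dt)
    (h2 : sp (v (t + 1)) p = 0) (h3 : ee κ q + 1 ≤ sp (v (t + g)) q + ds) :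
    (ee κ p + 1 ≤ ee κ q + 1 → 2 * (ee κ p + 1) ≤ ee κ q + 1 + dt ∨ ee κ p + 1 ≤ g + ds) ∧
      (ee κ q + 1 < ee κ p + 1 → 2 * (ee κ q + 1) ≤ g + (ee κ p + 1) + ds) := by
  have hd := drop_CHN hv t g
  have hd1 : (v (t + g)).drop (g - 1) = v (t + 1) := by
    have := drop_CHN hv (t + 1) (g - 1)
    rwa [show t + 1 + (g - 1) = t + g by omega] at this
  set m := sp (v (t + g)) q with hm
  rcases le_or_gt m g with hmg | hmg
  · constructor
    · intro h; right; omega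
    · intro h; omega
  · have h4 : m - g ≤ sp (v t) q := by rw [← hd]; exact drop_sp_CHN _ _ _ _ le_rfl
    have hne : q ≠ p := by
      rintro rfl
      have h5 : m - (g - 1) ≤ sp (v (t + 1)) q := by
        rw [← hd1]; exact drop_sp_CHN _ _ _ _ le_rfl
      omega
    have hk1 : min (sp (v t) p) (m - g) ≤ sp (v t) p := min_le_left _ _
    have hk2 : min (sp (v t) p) (m - g) ≤ sp (v t) q := (min_le_right _ _).trans h4
    rcases lt_or_gt_of_ne hne with hlt | hlt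
    · -- `q < p`
      have h5 := sp_gap (hKF t) hlt hk2 hk1
      have h6 := ee_sup hκ q (p - q)
      rw [Nat.add_sub_cancel' hlt.le] at h6
      have h7 := ee_mono hκ P q hPq
      rcases le_total (sp (v t) p) (m - g) with h8 | h8
      · rw [min_eq_left h8] at h5
        omega
      · rw [min_eq_right h8] at h5
        constructor
        · intro h; right; omega
        · intro h; omega
    · -- `p < q`
      have h5 := sp_gap (hKF t) hlt hk1 hk2
      have h6 := ee_sup hκ p (q - p)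
      rw [Nat.add_sub_cancel' hlt.le] at h6
      have h7 := ee_mono hκ p q hlt.le
      rcases le_total (sp (v t) p) (m - g) with h8 | h8
      · rw [min_eq_left h8] at h5
        constructor
        · intro h; left; omega
        · intro h; omega
      · rw [min_eq_right h8] at h5
        constructor
        · intro h; right; omega
        · intro h; omega

private lemma large_CHN (M C L : ℕ) : ∃ T : ℕ, M + C * (Nat.log 2 (T + L) + 1) < T := by
  set i := M + 2 * C + L with hi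
  refine ⟨2 ^ (2 * i), ?_⟩
  have h1 : i < 2 ^ i := Nat.lt_two_pow_self
  have h2 : 2 ^ (2 * i) = 2 ^ i * 2 ^ i := by rw [two_mul, pow_add]
  have h3 : (i + 1) * (i + 1) ≤ 2 ^ (2 * i) := by
    rw [h2]; exact Nat.mul_le_mul (by omega) (by omega)
  have h4 : L ≤ 2 ^ (2 * i) := by nlinarith
  have h5 : Nat.log 2 (2 ^ (2 * i) + L) ≤ 2 * i + 1 := by
    calc Nat.log 2 (2 ^ (2 * i) + L) ≤ Nat.log 2 (2 ^ (2 * i + 1)) :=
          Nat.log_mono_right (by rw [pow_succ]; omega)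
      _ = 2 * i + 1 := Nat.log_pow (by norm_num) _
  have h6 : C * (Nat.log 2 (2 ^ (2 * i) + L) + 1) ≤ C * (2 * i + 2) :=
    Nat.mul_le_mul_left _ (by omega)
  have h7 : M + C * (2 * i + 2) < (i + 1) * (i + 1) := by
    have h8 : (i + 1) * (i + 1) = (i + 1) * (M + 2 * C + L + 1) := by rw [← hi]
    rw [h8]
    nlinarith
  omega

theorem p_CHN : S_CHN := by
  intro κ P N0 M lam w E F hκ hPack hP hE hKF hF hstep
  obtain ⟨v, r, p, δ, hvE, hv, hpot, hev⟩ := seq_CHN hE hstep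
  obtain ⟨C, hC⟩ := hPack
  obtain ⟨T, hT⟩ := large_CHN M C ((v 0).length + N0)
  set Ev := (Finset.range T).filter (fun t => r t ≠ 0) with hEv
  have hmem : ∀ t ∈ Ev, t < T ∧ r t ≠ 0 := fun t ht => by
    rw [hEv, Finset.mem_filter, Finset.mem_range] at ht
    exact ht
  have hpack := hC T ((v 0).length + N0) Ev (fun t => ee κ (p t) + 1) δ
    (Finset.filter_subset _ _) (fun t ht s hs hts => by
      obtain ⟨-, h1⟩ := hmem t ht
      obtain ⟨-, h2⟩ := hmem s hs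
      obtain ⟨a1, a2, a3, a4, a5, a6⟩ := hev t h1
      obtain ⟨b1, b2, b3, b4, b5, b6⟩ := hev s h2
      have hs' : t + (s - t) = s := by omega
      have := pair_CHN hκ hP hv (fun t => hKF _ (hvE t)) (t := t) (g := s - t) (p := p t)
        (q := p s) (dt := δ t) (ds := δ s) (by omega) b1 a3 a5 a6 (by rw [hs']; exact b5)
      exact this)
    (fun t ht => by
      obtain ⟨h0, h1⟩ := hmem t ht
      obtain ⟨a1, a2, a3, a4, a5, a6⟩ := hev t h1
      have h2 := ee_mono hκ P (p t) a1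
      have h3 : sp (v t) (p t) ≤ (v t).length := by
        have := ((le_sp_iff (v t) (p t) _).1 le_rfl).1
        omega
      rw [length_CHN hv] at h3
      refine ⟨by omega, by omega, a2⟩)
  have hsum : ∀ T : ℕ, F (v 0) + lam * T ≤ F (v T) + ∑ t ∈ Finset.range T, r t := by
    intro T
    induction T with
    | zero => simp
    | succ T ih =>
      rw [Finset.sum_range_succ]
      have := hpot T
      have h : lam * (T + 1) = lam * T + lam := by ring
      omega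
  have h1 := hsum T
  have h2 := hF _ (hvE T)
  have h3 : ∑ t ∈ Finset.range T, r t = ∑ t ∈ Ev, r t := by
    rw [hEv, Finset.sum_filter_ne_zero]
  have h4 : ∑ t ∈ Ev, r t ≤ ∑ t ∈ Ev, w (δ t) :=
    Finset.sum_le_sum fun t ht => (hev t (hmem t ht).2).2.2.2.1
  omega

end Pool.Agent.Helper49.TF
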