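import Pool.Agent.Helper49.TF.St

/-! Module CLQ of project TF (helper3). -/

set_option autoImplicit false

namespace Pool.Agent.Helper49.TF

open Pool.Agent.Helper25.PF

private theorem card_CLQ (X Z n d t : ℕ) :
    (if n ≤ X ∧ X + d < 2 * n then (Finset.Ico (cs Z n d t) (ce Z n t)).card else 0) =
      cl X Z n d := by
  unfold cl cs ce
  rw [Nat.card_Ico]
  split_ifs <;> omega

private theorem order_CLQ (X Z n d n' d' t s : ℕ) (hts : t < s)
    (h1 : n ≤ n' → 2 * n ≤ n' + d ∨ n ≤ (s - t) + d')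
    (h2 : n' < n → 2 * n' ≤ (s - t) + n + d') (_ : n ≤ X) (hb : X + d < 2 * n)
    (ha' : n' ≤ X) : ce Z n t ≤ cs Z n' d' s := by
  unfold cs ce
  by_cases h : n ≤ n'
  · have h3 := h1 h
    split_ifs <;> omega
  · have h3 := h2 (by omega)
    split_ifs <;> omega

theorem p_CLQ : S_CLQ := by
  intro T X Z Ev n d hEv hP
  classical
  have e1 : ∑ t ∈ Ev, cl X Z (n t) (d t) =
      ∑ t ∈ Ev.filter (fun t => n t ≤ X ∧ X + d t < 2 * n t),
        (Finset.Ico (cs Z (n t) (d t) t) (ce Z (n t) t)).card := by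
    rw [Finset.sum_filter]
    exact Finset.sum_congr rfl fun t _ => (card_CLQ X Z (n t) (d t) t).symm
  have hdis : ((Ev.filter (fun t => n t ≤ X ∧ X + d t < 2 * n t) : Finset ℕ) : Set ℕ).PairwiseDisjoint
      (fun t => Finset.Ico (cs Z (n t) (d t) t) (ce Z (n t) t)) := by
    have key : ∀ t ∈ Ev.filter (fun t => n t ≤ X ∧ X + d t < 2 * n t),
        ∀ s ∈ Ev.filter (fun t => n t ≤ X ∧ X + d t < 2 * n t), t < s →
        Disjoint (Finset.Ico (cs Z (n t) (d t) t) (ce Z (n t) t))
          (Finset.Ico (cs Z (n s) (d s) s) (ce Z (n s) s)) := by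
      intro t ht s hs hts
      rw [Finset.mem_filter] at ht hs
      have h := hP t ht.1 s hs.1 hts
      have h3 := order_CLQ X Z (n t) (d t) (n s) (d s) t s hts h.1 h.2 ht.2.1 ht.2.2 hs.2.1
      rw [Finset.disjoint_left]
      intro x hx hx'
      rw [Finset.mem_Ico] at hx hx'
      omega
    intro t ht s hs hne
    rcases lt_or_gt_of_ne hne with h | h
    · exact key t ht s hs h
    · exact (key s hs t ht h).symm
  rw [e1, ← Finset.card_biUnion hdis]
  refine (Finset.card_le_card (t := Finset.range (T + X)) ?_).trans (by rw [Finset.card_range])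
  intro x hx
  rw [Finset.mem_biUnion] at hx
  obtain ⟨t, ht, hx⟩ := hx
  rw [Finset.mem_filter] at ht
  have hT := Finset.mem_range.1 (hEv ht.1)
  rw [Finset.mem_Ico] at hx
  have h4 : ce Z (n t) t ≤ t + n t := by
    unfold ce
    split_ifs <;> omega
  rw [Finset.mem_range]
  omega

end Pool.Agent.Helper49.TF
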