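import Pool.Agent.Helper49.TF.St

set_option autoImplicit false

namespace Pool.Agent.Helper49.TF

open Pool.Agent.Helper25.PF

theorem p_EVT : S_EVT := by
  intro e P N K v c E hmono hKP hP hKF hlf hcl hcv hDP
  have key : ∀ (k : ℕ) (z : List ℕ), z.length + k = K → (z ++ c :: v) ∈ E →
      DP e P N k (z ++ c :: v) →
      ∃ p, P ≤ p ∧ e p + 1 ≤ sp v p + (1 + K) ∧ v[p - 1]? = some c := by
    intro k
    induction k with
    | zero =>
      intro z _ hzE hdp
      obtain ⟨a, haN, haE⟩ := hlf _ hzE
      obtain ⟨p, hp1, _, hpe, hpa⟩ := hdp a haN
      have h1 := (hKF _ haE).sp_le hp1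
      rw [sp_cons _ _ _ hp1, if_pos hpa] at h1
      omega
    | succ k ih =>
      intro z hzk hzE hdp
      obtain ⟨c', hc'N, hnsb, hdp'⟩ := hdp
      by_cases hin : (c' :: (z ++ c :: v)) ∈ E
      · exact ih (c' :: z) (by simp only [List.length_cons]; omega)
          (by simpa using hin) (by simpa using hdp')
      · have hnk : ¬ KF e (c' :: (z ++ c :: v)) := fun h => hin (hcl _ hzE c' hc'N h)
        rw [KF_cons_iff] at hnk
        have h1 : ¬ ∀ p, 1 ≤ p → sp (c' :: (z ++ c :: v)) p ≤ e p :=
          fun h => hnk ⟨h, hKF _ hzE⟩
        push Not at h1
        obtain ⟨p, hp1, hp2⟩ := h1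
        rw [sp_cons _ _ _ hp1] at hp2
        split_ifs at hp2 with hc
        · have hep : e p ≤ sp (z ++ c :: v) p := by omega
          have hPp : P ≤ p := by
            by_contra hlt
            exact hnsb ⟨p, hp1, by omega, hep, hc⟩
          have hePp := hmono P p hPp
          rw [le_sp_iff] at hep
          obtain ⟨hlen, hall⟩ := hep
          have hlen' : (z ++ c :: v).length = z.length + 1 + v.length := by
            simp only [List.length_append, List.length_cons]
            omega
          rw [hlen'] at hlen
          have hget : ∀ j, (z ++ c :: v)[z.length + 1 + j]? = v[j]? := by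
            intro j
            rw [List.getElem?_append_right (by omega)]
            rw [show z.length + 1 + j - z.length = j + 1 by omega]
            simp
          refine ⟨p, hPp, ?_, ?_⟩
          · have h2 : e p - (z.length + 1) ≤ sp v p := by
              rw [le_sp_iff]
              refine ⟨by omega, ?_⟩
              intro i hi
              have h3 := hall (z.length + 1 + i) (by omega)
              rw [hget, show p + (z.length + 1 + i) = z.length + 1 + (p + i) by omega,
                hget] at h3
              exact h3
            omega
          · have h3 := hall z.length (by omega)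
            rw [show p + z.length = z.length + 1 + (p - 1) by omega, hget] at h3
            rw [← h3]
            rw [List.getElem?_append_right le_rfl]
            simp
        · omega
  exact key K [] (by simp) (by simpa using hcv) (by simpa using hDP)

end Pool.Agent.Helper49.TF
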