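import Pool.Agent.Helper49.TF.St

/-!
# Module FIN: assembly for at most three letters
-/

set_option autoImplicit false

namespace Pool.Agent.Helper49.TF

open Pool.Agent.Helper25.PF

private lemma map_iff_FIN {α β : Type} (f : α → β) (hf : Function.Injective f) (e : ℕ → ℕ)
    (u : List α) : KF e (u.map f) ↔ KF e u := by
  have key : ∀ (x y : Option α), x.map f = y.map f ↔ x = y := fun x y =>
    (Option.map_injective hf).eq_iff
  unfold KF
  simp only [List.length_map, List.getElem?_map, ne_eq, key]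

private lemma ext_FIN (κ : ℝ) (m B : ℕ)
    (hB : ∀ u : List ℕ, KF (ee κ) u → (∀ c ∈ u, c < m) → u.length ≤ B)
    (w : List ℕ) (hw : KF (ee κ) w) (hl : ∀ c ∈ w, c < m) :
    ∃ u, KF (ee κ) u ∧ (∀ c ∈ u, c < m) ∧ w <:+ u ∧ ∀ a, a < m → ¬ KF (ee κ) (a :: u) := by
  by_contra hcon
  push Not at hcon
  have hall : ∀ n, ∃ u, KF (ee κ) u ∧ (∀ c ∈ u, c < m) ∧ w <:+ u ∧ n ≤ u.length := by
    intro n
    induction n with
    | zero => exact ⟨w, hw, hl, List.suffix_rfl, Nat.zero_le _⟩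
    | succ n ih =>
      obtain ⟨u, h1, h2, h3, h4⟩ := ih
      obtain ⟨a, ha, hk⟩ := hcon u h1 h2 h3
      refine ⟨a :: u, hk, ?_, h3.trans (List.suffix_cons a u), ?_⟩
      · intro c hc
        rcases List.mem_cons.1 hc with rfl | hc
        · exact ha
        · exact h2 c hc
      · rw [List.length_cons]
        omega
  obtain ⟨u, h1, h2, _, h4⟩ := hall (B + 1)
  have := hB u h1 h2
  omega

private lemma all_FIN (hS : S_SML)
    (h3 : ∀ (κ : ℝ), 3 / 4 < κ → κ ≤ 1 → ∀ w : List ℕ, KF (ee κ) w → (∀ c ∈ w, c < 3) →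
      ∃ u, KF (ee κ) u ∧ (∀ c ∈ u, c < 3) ∧ w <:+ u ∧ ∀ a, a < 3 → ¬ KF (ee κ) (a :: u))
    (κ : ℝ) (h0 : 0 < κ) (h1 : κ ≤ 1) (m : ℕ) (hm : m ≤ 3) (w : List ℕ) (hw : KF (ee κ) w)
    (hl : ∀ c ∈ w, c < m) :
    ∃ u, KF (ee κ) u ∧ (∀ c ∈ u, c < m) ∧ w <:+ u ∧ ∀ a, a < m → ¬ KF (ee κ) (a :: u) := by
  rcases Nat.lt_or_ge 2 m with h | h
  · obtain rfl : m = 3 := by omega
    rcases lt_or_ge (3 / 4 : ℝ) κ with h4 | h4
    · exact h3 κ h4 h1 w hw hl
    · exact ext_FIN κ 3 38 (fun u hu hc => hS.1 κ u h0 h4 hu hc) w hw hl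
  · refine ext_FIN κ m 3 (fun u hu hc => hS.2 κ u h0 h1 hu ?_) w hw hl
    intro c hcu
    have := hc c hcu
    omega

private lemma one_FIN {α : Type} (w : List α) (hw : PowerFree 1 w) : w = [] := by
  by_contra hne
  have h1 := hw w hne (List.infix_rfl)
  obtain ⟨h2, h3⟩ := sInf_period w hne
  have h4 : sInf {p | IsPeriod w p} ≤ w.length := by
    apply h3
    refine ⟨List.length_pos_iff.2 hne, ?_⟩
    intro i hi
    omega
  have h5 : (1 : ℝ) ≤ (sInf {p | IsPeriod w p} : ℕ) := by exact_mod_cast h2.1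
  have h6 : ((sInf {p | IsPeriod w p} : ℕ) : ℝ) ≤ w.length := by exact_mod_cast h4
  unfold exponent at h1
  rw [div_lt_iff₀ (by linarith)] at h1
  linarith

/-- At most three letters. -/
theorem p_FIN : S_SML → S_FIN := by
  intro hS h3 α _ k hα hk1 hk2 w hw
  rcases eq_or_lt_of_le hk1 with hk | hk
  · subst hk
    have hw0 : w = [] := one_FIN w hw
    subst hw0
    refine ⟨[], ⟨hw, ?_⟩, List.prefix_rfl, ?_⟩
    · intro a b hab
      have := one_FIN _ hab
      simp at this
    · intro b hb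
      have := one_FIN _ hb
      simp at this
  · have h0 : (0 : ℝ) < k - 1 := by linarith
    have h1 : k - 1 ≤ 1 := by linarith
    set f : α → ℕ := fun a => (Fintype.equivFin α a : ℕ) with hf
    have hfi : Function.Injective f := fun a b hab =>
      (Fintype.equivFin α).injective (Fin.ext hab)
    have hfl : ∀ a, f a < Fintype.card α := fun a => (Fintype.equivFin α a).2
    have hw1 : KF (ee (k - 1)) (w.reverse.map f) := by
      rw [map_iff_FIN f hfi, KF_reverse_iff]
      exact (powerFree_iff hk w).1 hw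
    have hw2 : ∀ c ∈ w.reverse.map f, c < Fintype.card α := by
      intro c hc
      obtain ⟨a, _, rfl⟩ := List.mem_map.1 hc
      exact hfl a
    obtain ⟨u, hu1, hu2, hu3, hu4⟩ := all_FIN hS h3 (k - 1) h0 h1 (Fintype.card α) hα _ hw1 hw2
    have hu5 : u ∈ Set.range (List.map f) := by
      rw [Set.range_list_map]
      intro c hc
      have hc' := hu2 c hc
      exact ⟨(Fintype.equivFin α).symm ⟨c, hc'⟩, by simp [hf]⟩
    obtain ⟨v, rfl⟩ := hu5
    rw [map_iff_FIN f hfi] at hu1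
    have hno : ∀ b : α, ¬ PowerFree k (v.reverse ++ [b]) := by
      intro b hb
      rw [powerFree_iff hk, show v.reverse ++ [b] = (b :: v).reverse by simp, KF_reverse_iff,
        ← map_iff_FIN f hfi, List.map_cons] at hb
      exact hu4 (f b) (hfl b) hb
    refine ⟨v.reverse, ⟨?_, ?_⟩, ?_, hno⟩
    · rw [powerFree_iff hk, KF_reverse_iff]
      exact hu1
    · intro a b hab
      apply hno b
      rw [powerFree_iff hk] at hab ⊢
      exact hab.of_infix (List.suffix_cons a _).isInfix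
    · obtain ⟨t, ht⟩ := hu3
      obtain ⟨l1, l2, h5, _, h7⟩ := List.map_eq_append_iff.1 ht.symm
      have h8 : l2 = w.reverse := (List.map_injective_iff.2 hfi) h7
      rw [← List.reverse_suffix, List.reverse_reverse]
      exact ⟨l1, by rw [h5, h8]⟩

end Pool.Agent.Helper49.TF
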