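import Pool.Agent.Helper49.TF.St

set_option autoImplicit false

namespace Pool.Agent.Helper49.TF

open Pool.Agent.Helper25.PF

private theorem covA_PKI (s n d : ℕ) (hs : 1 ≤ s) (h1 : 17 * s ≤ n) (h2 : n < 2 * (17 * s))
    (hd : 1 ≤ d) :
    2 * (wA.getD (d - 1) 0) * s ≤ 2 * 4 * cl (22 * s) (35 * s) n d + 2 * 3 * cl (32 * s) (45 * s) n d +
        4 * cl (22 * (2 * s)) (35 * (2 * s)) n d + 3 * cl (32 * (2 * s)) (45 * (2 * s)) n d := by
  rcases Nat.lt_or_ge 11 d with h | h
  · have : wA.getD (d - 1) 0 = 0 := by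
      apply List.getD_eq_default
      show 11 ≤ d - 1
      omega
    rw [this]; omega
  · unfold cl
    interval_cases d <;>
      simp only [wA, List.getD_cons_zero, List.getD_cons_succ, Nat.reduceSub] <;>
      split_ifs <;> omega

private theorem covB_PKI (s n d : ℕ) (hs : 1 ≤ s) (h1 : 18 * s ≤ n) (h2 : n < 2 * (18 * s))
    (hd : 1 ≤ d) :
    2 * (wB.getD (d - 1) 0) * s ≤ 2 * 7 * cl (25 * s) (35 * s) n d + 2 * 5 * cl (34 * s) (48 * s) n d +
        7 * cl (25 * (2 * s)) (35 * (2 * s)) n d + 5 * cl (34 * (2 * s)) (48 * (2 * s)) n d := by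
  rcases Nat.lt_or_ge 10 d with h | h
  · have : wB.getD (d - 1) 0 = 0 := by
      apply List.getD_eq_default
      show 10 ≤ d - 1
      omega
    rw [this]; omega
  · unfold cl
    interval_cases d <;>
      simp only [wB, List.getD_cons_zero, List.getD_cons_succ, Nat.reduceSub] <;>
      split_ifs <;> omega

private theorem covC_PKI (s n d : ℕ) (hs : 1 ≤ s) (h1 : 19 * s ≤ n) (h2 : n < 2 * (19 * s))
    (hd : 1 ≤ d) :
    2 * (wC.getD (d - 1) 0) * s ≤ 2 * 6 * cl (26 * s) (39 * s) n d + 2 * 4 * cl (36 * s) (52 * s) n d +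
        6 * cl (26 * (2 * s)) (39 * (2 * s)) n d + 4 * cl (36 * (2 * s)) (52 * (2 * s)) n d := by
  rcases Nat.lt_or_ge 11 d with h | h
  · have : wC.getD (d - 1) 0 = 0 := by
      apply List.getD_eq_default
      show 11 ≤ d - 1
      omega
    rw [this]; omega
  · unfold cl
    interval_cases d <;>
      simp only [wC, List.getD_cons_zero, List.getD_cons_succ, Nat.reduceSub] <;>
      split_ifs <;> omega

theorem p_PKI : S_PKO → S_PKI := by
  intro h
  refine ⟨?_, ?_, ?_⟩
  · exact h 17 22 35 4 32 45 3 15 _ (by norm_num) (by norm_num)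
      (fun s n d hs h1 h2 hd => covA_PKI s n d hs h1 h2 hd)
  · exact h 18 25 35 7 34 48 5 25 _ (by norm_num) (by norm_num)
      (fun s n d hs h1 h2 hd => covB_PKI s n d hs h1 h2 hd)
  · exact h 19 26 39 6 36 52 4 21 _ (by norm_num) (by norm_num)
      (fun s n d hs h1 h2 hd => covC_PKI s n d hs h1 h2 hd)

end Pool.Agent.Helper49.TF
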