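import Pool.Agent.Helper49.TF.St

/-! Module PKO of project TF (helper3). -/

set_option autoImplicit false

namespace Pool.Agent.Helper49.TF

open Pool.Agent.Helper25.PF

private theorem geom_PKO (I : ℕ) : ∑ i ∈ Finset.range (I + 1), 2 ^ (I - i) ≤ 2 ^ (I + 1) := by
  have h : ∀ I : ℕ, ∑ i ∈ Finset.range (I + 1), 2 ^ (I - i) + 1 = 2 ^ (I + 1) := by
    intro I
    induction I with
    | zero => simp
    | succ I ih =>
      rw [Finset.sum_range_succ']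
      have e : ∑ k ∈ Finset.range (I + 1), 2 ^ (I + 1 - (k + 1)) =
          ∑ k ∈ Finset.range (I + 1), 2 ^ (I - k) :=
        Finset.sum_congr rfl fun k _ => by rw [Nat.add_sub_add_right]
      rw [e, Nat.sub_zero]
      rw [pow_succ 2 (I + 1), ← ih]
      ring
  have := h I
  omega

private theorem scale_PKO (N0 n I : ℕ) (h0 : 1 ≤ N0) (hn : N0 ≤ n) (hI : n < 2 ^ I) :
    ∃ i, i < I ∧ N0 * 2 ^ i ≤ n ∧ n < 2 * (N0 * 2 ^ i) := by
  refine ⟨Nat.log 2 (n / N0), ?_, ?_, ?_⟩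
  · have h1 : n / N0 ≠ 0 := (Nat.div_pos hn h0).ne'
    have h2 : 2 ^ Nat.log 2 (n / N0) ≤ n / N0 := Nat.pow_log_le_self 2 h1
    have h3 : n / N0 ≤ n := Nat.div_le_self _ _
    exact (Nat.pow_lt_pow_iff_right (by norm_num : 1 < 2)).1 (lt_of_le_of_lt (h2.trans h3) hI)
  · have h1 : n / N0 ≠ 0 := (Nat.div_pos hn h0).ne'
    have h2 : 2 ^ Nat.log 2 (n / N0) ≤ n / N0 := Nat.pow_log_le_self 2 h1
    calc N0 * 2 ^ Nat.log 2 (n / N0) ≤ N0 * (n / N0) := Nat.mul_le_mul_left _ h2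
      _ ≤ n := Nat.mul_div_le n N0
  · have h2 : n / N0 < 2 ^ (Nat.log 2 (n / N0) + 1) := Nat.lt_pow_succ_log_self (by norm_num) _
    have h3 : n < 2 ^ (Nat.log 2 (n / N0) + 1) * N0 := (Nat.div_lt_iff_lt_mul h0).1 h2
    calc n < 2 ^ (Nat.log 2 (n / N0) + 1) * N0 := h3
      _ = 2 * (N0 * 2 ^ Nat.log 2 (n / N0)) := by rw [pow_succ]; ring

theorem p_PKO : S_CLQ → S_PKO := by
  intro hC N0 X1 Z1 c1 X2 Z2 c2 lam w hN0 hlam hcov
  refine ⟨2 * (c1 * X1 + c2 * X2), fun T L Ev n d hEv hP hev => ?_⟩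
  obtain ⟨I, hI⟩ : ∃ I, I = Nat.log 2 (T + L) + 1 := ⟨_, rfl⟩
  have hTL : T + L < 2 ^ I := by
    rw [hI]
    exact Nat.lt_pow_succ_log_self (by norm_num) _
  -- one event
  have hone : ∀ t ∈ Ev, 2 ^ I * w (d t) ≤ ∑ i ∈ Finset.range (I + 1), 2 ^ (I - i) *
      (c1 * cl (X1 * 2 ^ i) (Z1 * 2 ^ i) (n t) (d t) +
        c2 * cl (X2 * 2 ^ i) (Z2 * 2 ^ i) (n t) (d t)) := by
    intro t ht
    obtain ⟨h1, h2, h3⟩ := hev t ht
    obtain ⟨i, hi, h4, h5⟩ := scale_PKO N0 (n t) I hN0 h1 (lt_of_le_of_lt h2 hTL)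
    have h6 := hcov (2 ^ i) (n t) (d t) Nat.one_le_two_pow h4 h5 h3
    have hsub : ({i, i + 1} : Finset ℕ) ⊆ Finset.range (I + 1) := by
      intro j hj
      rw [Finset.mem_insert, Finset.mem_singleton] at hj
      rw [Finset.mem_range]
      omega
    refine le_trans ?_ (Finset.sum_le_sum_of_subset hsub)
    rw [Finset.sum_pair (by omega)]
    obtain ⟨m, hm⟩ : ∃ m, I = i + 1 + m := ⟨I - (i + 1), by omega⟩
    have e1 : I - i = m + 1 := by omega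
    have e2 : I - (i + 1) = m := by omega
    have e3 : (2 : ℕ) ^ I = 2 ^ m * (2 * 2 ^ i) := by
      rw [hm, pow_add, pow_succ]
      ring
    have e4 : (2 : ℕ) ^ (i + 1) = 2 * 2 ^ i := by
      rw [pow_succ]
      ring
    rw [e1, e2, e3, e4]
    calc 2 ^ m * (2 * 2 ^ i) * w (d t) = 2 ^ m * (2 * w (d t) * 2 ^ i) := by ring
      _ ≤ 2 ^ m * (2 * c1 * cl (X1 * 2 ^ i) (Z1 * 2 ^ i) (n t) (d t) +
            2 * c2 * cl (X2 * 2 ^ i) (Z2 * 2 ^ i) (n t) (d t) +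
            c1 * cl (X1 * (2 * 2 ^ i)) (Z1 * (2 * 2 ^ i)) (n t) (d t) +
            c2 * cl (X2 * (2 * 2 ^ i)) (Z2 * (2 * 2 ^ i)) (n t) (d t)) :=
          Nat.mul_le_mul_left _ h6
      _ = _ := by rw [pow_succ]; ring
  -- the sum over the events
  have hsum : 2 ^ I * ∑ t ∈ Ev, w (d t) ≤ ∑ i ∈ Finset.range (I + 1), 2 ^ (I - i) *
      (c1 * (T + X1 * 2 ^ i) + c2 * (T + X2 * 2 ^ i)) := by
    rw [Finset.mul_sum]
    refine (Finset.sum_le_sum hone).trans ?_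
    rw [Finset.sum_comm]
    refine Finset.sum_le_sum fun i _ => ?_
    rw [← Finset.mul_sum, Finset.sum_add_distrib, ← Finset.mul_sum, ← Finset.mul_sum]
    exact Nat.mul_le_mul_left _ (Nat.add_le_add
      (Nat.mul_le_mul_left _ (hC T (X1 * 2 ^ i) (Z1 * 2 ^ i) Ev n d hEv hP))
      (Nat.mul_le_mul_left _ (hC T (X2 * 2 ^ i) (Z2 * 2 ^ i) Ev n d hEv hP)))
  have hsum2 : ∑ i ∈ Finset.range (I + 1), 2 ^ (I - i) *
      (c1 * (T + X1 * 2 ^ i) + c2 * (T + X2 * 2 ^ i)) ≤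
      2 ^ I * (2 * (c1 + c2) * T + (I + 1) * (c1 * X1 + c2 * X2)) := by
    have e1 : ∀ i ∈ Finset.range (I + 1), 2 ^ (I - i) *
        (c1 * (T + X1 * 2 ^ i) + c2 * (T + X2 * 2 ^ i)) =
        2 ^ (I - i) * ((c1 + c2) * T) + 2 ^ I * (c1 * X1 + c2 * X2) := by
      intro i hi
      have hi' : i ≤ I := Nat.lt_succ_iff.1 (Finset.mem_range.1 hi)
      have e2 : (2 : ℕ) ^ I = 2 ^ (I - i) * 2 ^ i := by
        rw [← pow_add, Nat.sub_add_cancel hi']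
      rw [e2]
      ring
    rw [Finset.sum_congr rfl e1, Finset.sum_add_distrib, ← Finset.sum_mul, Finset.sum_const,
      Finset.card_range, smul_eq_mul]
    calc (∑ i ∈ Finset.range (I + 1), 2 ^ (I - i)) * ((c1 + c2) * T) +
          (I + 1) * (2 ^ I * (c1 * X1 + c2 * X2)) ≤
          2 ^ (I + 1) * ((c1 + c2) * T) + (I + 1) * (2 ^ I * (c1 * X1 + c2 * X2)) :=
        Nat.add_le_add_right (Nat.mul_le_mul_right _ (geom_PKO I)) _
      _ = _ := by rw [pow_succ]; ring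
  have h7 : ∑ t ∈ Ev, w (d t) ≤ 2 * (c1 + c2) * T + (I + 1) * (c1 * X1 + c2 * X2) :=
    Nat.le_of_mul_le_mul_left (hsum.trans hsum2) (by positivity)
  have h8 : (I + 1) * (c1 * X1 + c2 * X2) ≤
      2 * (c1 * X1 + c2 * X2) * (Nat.log 2 (T + L) + 1) := by
    rw [← hI]
    have hI1 : 1 ≤ I := by omega
    calc (I + 1) * (c1 * X1 + c2 * X2) ≤ (2 * I) * (c1 * X1 + c2 * X2) :=
          Nat.mul_le_mul_right _ (by omega)
      _ = _ := by ring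
  have h9 : (2 * (c1 + c2) + 1) * T ≤ lam * T := Nat.mul_le_mul_right _ hlam
  calc ∑ t ∈ Ev, w (d t) + T ≤ 2 * (c1 + c2) * T + (I + 1) * (c1 * X1 + c2 * X2) + T :=
        Nat.add_le_add_right h7 _
    _ = (2 * (c1 + c2) + 1) * T + (I + 1) * (c1 * X1 + c2 * X2) := by ring
    _ ≤ _ := Nat.add_le_add h9 h8

end Pool.Agent.Helper49.TF
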