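import Pool.Agent.Helper49.TF.St

set_option autoImplicit false

namespace Pool.Agent.Helper49.TF

open Pool.Agent.Helper25.PF

theorem p_RNG : S_RNG := by
  intro κ a b c d ha hb hd hab hcd p hp1
  have hbR : (0 : ℝ) < b := by exact_mod_cast hb
  have hdR : (0 : ℝ) < d := by exact_mod_cast hd
  have hpR : (0 : ℝ) < p := by exact_mod_cast hp1
  have haR : (0 : ℝ) < a := by exact_mod_cast ha
  have hκ : 0 < κ := by
    by_contra h
    have h1 : κ ≤ 0 := not_lt.1 h
    nlinarith
  have hm : 1 ≤ (c * p + d - 1) / d := by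
    have hc : 0 < c := by
      rcases Nat.eq_zero_or_pos c with h | h
      · rw [h] at hcd
        push_cast at hcd
        nlinarith
      · exact h
    have h1 : 1 ≤ c * p := Nat.mul_pos hc hp1
    rw [Nat.le_div_iff_mul_le hd]
    omega
  constructor
  · rw [le_ee_iff hκ hp1]
    have h1 : (((a * p / b : ℕ) : ℝ)) * b ≤ a * p := by exact_mod_cast Nat.div_mul_le_self (a * p) b
    have h2 : (a : ℝ) * p < κ * b * p := mul_lt_mul_of_pos_right hab hpR
    have h3 : (((a * p / b : ℕ) : ℝ)) * b < (κ * p) * b := by nlinarith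
    exact lt_of_mul_lt_mul_right h3 hbR.le
  · by_contra hlt
    have h1 : (c * p + d - 1) / d ≤ ee κ p := by omega
    rw [le_ee_iff hκ hp1] at h1
    have h2 : c * p ≤ d * ((c * p + d - 1) / d) := by
      have h3 := Nat.div_add_mod (c * p + d - 1) d
      have h4 := Nat.mod_lt (c * p + d - 1) hd
      omega
    have h3 : (c : ℝ) * p ≤ d * (((c * p + d - 1) / d : ℕ) : ℝ) := by exact_mod_cast h2
    have h4 : κ * d * p ≤ c * p := mul_le_mul_of_nonneg_right hcd hpR.le
    have h5 : (d : ℝ) * (((c * p + d - 1) / d : ℕ) : ℝ) < d * (κ * p) :=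
      mul_lt_mul_of_pos_left h1 hdR
    nlinarith

end Pool.Agent.Helper49.TF
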