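import Pool.Agent.Helper49.TF.St

/-!
# Module SML: finite languages
-/

set_option autoImplicit false

namespace Pool.Agent.Helper49.TF

open Pool.Agent.Helper25.PF

/-- Search with fuel: every extension of `u` by letters below `N` contains a visible repetition. -/
noncomputable def srch_SML (N : ℕ) (es : List ℕ) : ℕ → List ℕ → Bool
  | 0, _ => false
  | k + 1, u => (List.range N).all fun c => fl u c es u || srch_SML N es k (c :: u)

lemma mt_lcp_SML (l : List ℕ) : ∀ (k : ℕ) (m : List ℕ), mt l k m = true → k ≤ lcp l m := by
  induction l with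
  | nil =>
    intro k m h
    rw [mt_nil] at h
    have : k = 0 := Nat.eq_of_beq_eq_true h
    omega
  | cons a l ih =>
    intro k m h
    cases k with
    | zero => exact Nat.zero_le _
    | succ k =>
      cases m with
      | nil => rw [mt_cons_nil] at h; exact absurd h (by simp)
      | cons b m =>
        rw [mt_cons, Bool.and_eq_true] at h
        have hab : a = b := Nat.eq_of_beq_eq_true h.1
        rw [lcp_cons, if_pos hab]
        have := ih k m h.2
        omega

lemma fl_SML (u : List ℕ) (c : ℕ) (e : ℕ → ℕ) (es : List ℕ) : ∀ (j : ℕ),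
    (∀ i, i < es.length → es.getD i 0 = e (j + 1 + i)) → fl u c es (u.drop j) = true →
    ∃ p, 1 ≤ p ∧ u[p - 1]? = some c ∧ e p ≤ sp u p := by
  induction es with
  | nil =>
    intro j _ h
    rw [fl_nil] at h
    exact absurd h (by simp)
  | cons e0 es ih =>
    intro j hes h
    by_cases hj : j < u.length
    · rw [List.drop_eq_getElem_cons hj, fl_cons, Bool.or_eq_true, Bool.and_eq_true] at h
      rcases h with ⟨h1, h2⟩ | h
      · refine ⟨j + 1, by omega, ?_, ?_⟩
        · rw [Nat.add_sub_cancel, List.getElem?_eq_getElem hj, Nat.eq_of_beq_eq_true h1]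
        · have h3 := hes 0 (by simp)
          simp only [List.getD_cons_zero, Nat.add_zero] at h3
          rw [← h3]
          exact mt_lcp_SML _ _ _ h2
      · refine ih (j + 1) ?_ h
        intro i hi
        have h3 := hes (i + 1) (by simpa using hi)
        rw [List.getD_cons_succ] at h3
        rw [h3]
        congr 1
        omega
    · rw [List.drop_eq_nil_of_le (by omega), fl_cons_nil] at h
      exact absurd h (by simp)

lemma srch_sound_SML (N : ℕ) (e : ℕ → ℕ) (es : List ℕ)
    (hes : ∀ i, i < es.length → es.getD i 0 = e (i + 1)) : ∀ (k : ℕ) (u w : List ℕ),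
    srch_SML N es k u = true → KF e (w ++ u) → (∀ c ∈ w, c < N) → w.length < k := by
  intro k
  induction k with
  | zero =>
    intro u w h
    exact absurd h (by simp [srch_SML])
  | succ k ih =>
    intro u w h hK hw
    rcases List.eq_nil_or_concat w with rfl | ⟨w', c, rfl⟩
    · simp
    · rw [List.concat_eq_append] at hK hw ⊢
      have hc : c < N := hw c (by simp)
      rw [srch_SML, List.all_eq_true] at h
      have h1 := h c (List.mem_range.2 hc)
      rw [Bool.or_eq_true] at h1
      have hK' : KF e (w' ++ (c :: u)) := by
        rw [List.append_assoc] at hK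
        exact hK
      rcases h1 with h1 | h1
      · exfalso
        obtain ⟨p, hp1, hp2, hp3⟩ := fl_SML u c e es 0 (fun i hi => by
          rw [hes i hi]; congr 1; omega) (by simpa using h1)
        have h2 : KF e (c :: u) := by
          have := hK'.drop w'.length
          rwa [List.drop_left] at this
        have h3 := (KF_cons_iff.1 h2).1 p hp1
        rw [sp_cons c u p hp1, if_pos hp2] at h3
        omega
      · have h2 := ih (c :: u) w' h1 hK' (fun x hx => hw x (by simp [hx]))
        simp only [List.length_append, List.length_cons, List.length_nil]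
        omega

lemma KF_mono_SML {e e' : ℕ → ℕ} {u : List ℕ} (h : KF e u) (he : ∀ p, 1 ≤ p → e p ≤ e' p) : KF e' u := by
  rw [KF_iff_sp] at h ⊢
  intro s p hp
  exact (h s p hp).trans (he p hp)

theorem p_SML : S_SML := by
  constructor
  · intro κ u hκ hκ1 hK hu
    have hK' : KF (fun p => (3 * p + 3) / 4 - 1) u := by
      refine KF_mono_SML hK fun p hp => ?_
      have h1 := (le_ee_iff hκ hp (ee κ p)).1 le_rfl
      have hp' : (0 : ℝ) < p := by exact_mod_cast hp
      have h2 : (ee κ p : ℝ) < 3 / 4 * p := lt_of_lt_of_le h1 (mul_le_mul_of_nonneg_right hκ1 hp'.le)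
      have h3 : ((4 * ee κ p : ℕ) : ℝ) < ((3 * p : ℕ) : ℝ) := by push_cast; linarith
      have h4 : 4 * ee κ p < 3 * p := by exact_mod_cast h3
      omega
    have hs : srch_SML 3 ((List.range 22).map fun i => (3 * (i + 1) + 3) / 4 - 1) 39 [] = true := by
      decide +kernel
    have h5 := srch_sound_SML 3 (fun p => (3 * p + 3) / 4 - 1)
      ((List.range 22).map fun i => (3 * (i + 1) + 3) / 4 - 1) (by
        intro i hi
        rw [List.length_map, List.length_range] at hi
        rw [List.getD_eq_getElem?_getD, List.getElem?_map, List.getElem?_range hi]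
        simp) 39 [] u hs (by simpa using hK') hu
    omega
  · intro κ u hκ hκ1 hK hu
    have hK' : KF (fun p => p - 1) u := by
      refine KF_mono_SML hK fun p hp => ?_
      have h1 := (le_ee_iff hκ hp (ee κ p)).1 le_rfl
      have hp' : (0 : ℝ) < p := by exact_mod_cast hp
      have h2 : (ee κ p : ℝ) < 1 * p := lt_of_lt_of_le h1 (mul_le_mul_of_nonneg_right hκ1 hp'.le)
      have h3 : (ee κ p : ℝ) < (p : ℝ) := by linarith
      have h4 : ee κ p < p := by exact_mod_cast h3
      omega
    have hs : srch_SML 2 ((List.range 2).map fun i => i + 1 - 1) 4 [] = true := by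
      decide +kernel
    have h5 := srch_sound_SML 2 (fun p => p - 1)
      ((List.range 2).map fun i => i + 1 - 1) (by
        intro i hi
        rw [List.length_map, List.length_range] at hi
        rw [List.getD_eq_getElem?_getD, List.getElem?_map, List.getElem?_range hi]
        simp) 4 [] u hs (by simpa using hK') hu
    omega

end Pool.Agent.Helper49.TF
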