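import Pool.Agent.Helper49.TF.St

/-!
# Soundness of the table check
-/

set_option autoImplicit false

namespace Pool.Agent.Helper49.TF

open Pool.Agent.Helper25.PF

/-- The letters of `u` are those of `v` up to the renaming `σ`. -/
private def KN (σ : ℕ → ℕ) (u v : List ℕ) : Prop :=
  ∀ (i a : ℕ), u[i]? = some a → v[i]? = some (σ a)

/-- The first `q + 1` letters exist, are below `q + 2` and different. -/
private def DQ (q : ℕ) (m : List ℕ) : Prop :=
  q + 1 ≤ m.length ∧ (∀ (i a : ℕ), i ≤ q → m[i]? = some a → a < q + 2) ∧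
    (∀ (i j : ℕ), i < j → j ≤ q → m[i]? ≠ m[j]?)

private lemma mt_true (l : List ℕ) (k : ℕ) (m : List ℕ) (h : mt l k m = true) :
    ∀ i, i < k → ∃ a, l[i]? = some a ∧ m[i]? = some a := by
  induction l generalizing k m with
  | nil =>
    rw [mt_nil] at h
    have := Nat.eq_of_beq_eq_true h
    intro i hi; omega
  | cons a l ih =>
    cases k with
    | zero => intro i hi; omega
    | succ k =>
      cases m with
      | nil => rw [mt_cons_nil] at h; exact absurd h (by decide)
      | cons b m =>
        rw [mt_cons, Bool.and_eq_true] at h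
        have hab := Nat.eq_of_beq_eq_true h.1
        intro i hi
        cases i with
        | zero => exact ⟨a, by simp, by simp [hab]⟩
        | succ i =>
          obtain ⟨x, h1, h2⟩ := ih k m h.2 i (by omega)
          exact ⟨x, by simpa using h1, by simpa using h2⟩

private lemma mm_true (l : List ℕ) (k : ℕ) (m : List ℕ) (h : mm l k m = true) :
    ∃ i, i < k ∧ ∃ a b, l[i]? = some a ∧ m[i]? = some b ∧ a ≠ b := by
  induction l generalizing k m with
  | nil => rw [mm_nil] at h; exact absurd h (by decide)
  | cons a l ih =>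
    cases k with
    | zero => rw [mm_zero] at h; exact absurd h (by decide)
    | succ k =>
      cases m with
      | nil => rw [mm_cons_nil] at h; exact absurd h (by decide)
      | cons b m =>
        rw [mm_cons, Bool.or_eq_true] at h
        by_cases hab : a = b
        · rcases h with h | h
          · rw [hab] at h; simp at h
          · obtain ⟨i, hi, x, y, h1, h2, h3⟩ := ih k m h
            exact ⟨i + 1, by omega, x, y, by simpa using h1, by simpa using h2, h3⟩
        · exact ⟨0, by omega, a, b, by simp, by simp, hab⟩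

private lemma fl_true (u : List ℕ) (c : ℕ) (es m : List ℕ) (h : fl u c es m = true) :
    ∃ j, j < es.length ∧ m[j]? = some c ∧ mt u (es.getD j 0) (m.drop (j + 1)) = true := by
  induction es generalizing m with
  | nil => rw [fl_nil] at h; exact absurd h (by decide)
  | cons e es ih =>
    cases m with
    | nil => rw [fl_cons_nil] at h; exact absurd h (by decide)
    | cons x m =>
      rw [fl_cons, Bool.or_eq_true, Bool.and_eq_true] at h
      rcases h with ⟨h1, h2⟩ | h
      · exact ⟨0, by simp, by simp [Nat.eq_of_beq_eq_true h1], by simpa using h2⟩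
      · obtain ⟨j, h1, h2, h3⟩ := ih m h
        exact ⟨j + 1, by simpa using h1, by simpa using h2, by simpa using h3⟩

private lemma ub_true (u : List ℕ) (c : ℕ) (es m : List ℕ) (h : ub u c es m = true) :
    ∀ j, j < es.length → ∃ x, m[j]? = some x ∧
      (x ≠ c ∨ mm u (es.getD j 0) (m.drop (j + 1)) = true) := by
  induction es generalizing m with
  | nil => intro j hj; simp at hj
  | cons e es ih =>
    cases m with
    | nil => rw [ub_cons_nil] at h; exact absurd h (by decide)
    | cons x m =>
      rw [ub_cons, Bool.and_eq_true, Bool.or_eq_true] at h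
      obtain ⟨h1, h2⟩ := h
      intro j hj
      cases j with
      | zero =>
        refine ⟨x, by simp, ?_⟩
        by_cases hx : x = c
        · right
          rcases h1 with h1 | h1
          · rw [hx] at h1; simp at h1
          · simpa using h1
        · exact Or.inl hx
      | succ j =>
        obtain ⟨y, h3, h4⟩ := ih m h2 j (by simpa using hj)
        exact ⟨y, by simpa using h3, by simpa using h4⟩

private lemma fl_Sb (e : ℕ → ℕ) (P : ℕ) (es : List ℕ) (hes : es.length = P - 1)
    (he : ∀ p, 1 ≤ p → p < P → e p ≤ es.getD (p - 1) 0) (σ : ℕ → ℕ) (u v : List ℕ)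
    (hk : KN σ u v) (c : ℕ) (h : fl u c es u = true) : Sb e P v (σ c) := by
  obtain ⟨j, h1, h2, h3⟩ := fl_true u c es u h
  refine ⟨j + 1, by omega, by omega, ?_, ?_⟩
  · refine le_trans (he (j + 1) (by omega) (by omega)) ?_
    rw [Nat.add_sub_cancel]
    have h4 := mt_true _ _ _ h3
    rw [le_sp_iff]
    have h5 : ∀ i, i < es.getD j 0 → ∃ a, v[i]? = some a ∧ v[j + 1 + i]? = some a := by
      intro i hi
      obtain ⟨a, h6, h7⟩ := h4 i hi
      rw [List.getElem?_drop] at h7
      exact ⟨σ a, hk i a h6, hk _ a h7⟩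
    refine ⟨?_, ?_⟩
    · rcases Nat.eq_zero_or_pos (es.getD j 0) with h0 | h0
      · omega
      · obtain ⟨a, -, h7⟩ := h5 (es.getD j 0 - 1) (by omega)
        have := (List.getElem?_eq_some_iff.mp h7).1
        omega
    · intro i hi
      obtain ⟨a, h6, h7⟩ := h5 i hi
      rw [h6, h7]
  · exact hk j c h2

private lemma ub_Sb (q : ℕ) (e : ℕ → ℕ) (P : ℕ) (el : List ℕ) (hel : el.length = P - 1)
    (he : ∀ p, 1 ≤ p → p < P → el.getD (p - 1) 0 ≤ e p) (σ : ℕ → ℕ)
    (hσ : ∀ a b, a < q + 2 → b < q + 2 → σ a = σ b → a = b) (u v : List ℕ)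
    (hu : ∀ a ∈ u, a < q + 2) (hk : KN σ u v) (c : ℕ) (hc : c < q + 2)
    (h : ub u c el u = true) : ¬ Sb e P v (σ c) := by
  rintro ⟨p, hp1, hpP, h1, h2⟩
  obtain ⟨x, h3, h4⟩ := ub_true u c el u h (p - 1) (by omega)
  have h5 := hk _ _ h3
  rw [h2] at h5
  have h6 := Option.some.inj h5
  have hx : x < q + 2 := hu x (List.mem_of_getElem? h3)
  have h7 : c = x := hσ _ _ hc hx h6
  rcases h4 with h4 | h4
  · exact h4 h7.symm
  · obtain ⟨i, hi, a, b, h8, h9, h10⟩ := mm_true _ _ _ h4
    rw [List.getElem?_drop] at h9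
    have h11 := hk _ _ h8
    have h12 := hk _ _ h9
    have h13 := ((le_sp_iff v p (e p)).mp h1).2 i (lt_of_lt_of_le hi (he p hp1 hpP))
    have h14 : p - 1 + 1 + i = p + i := by omega
    rw [h14] at h12
    rw [h11, h12] at h13
    exact h10 (hσ _ _ (hu _ (List.mem_of_getElem? h8)) (hu _ (List.mem_of_getElem? h9))
      (Option.some.inj h13))

private lemma KN_tail {σ : ℕ → ℕ} {a b : ℕ} {m m' : List ℕ} (h : KN σ (a :: m) (b :: m')) :
    KN σ m m' := by
  intro i x hx
  have := h (i + 1) x (by simpa using hx)
  simpa using this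

private lemma KN_head {σ : ℕ → ℕ} {a : ℕ} {m m' : List ℕ} (h : KN σ (a :: m) m') :
    ∃ m1, m' = σ a :: m1 := by
  have h1 := h 0 a (by simp)
  cases m' with
  | nil => simp at h1
  | cons x m1 => exact ⟨m1, by simpa using h1⟩

private lemma lk_KN (q : ℕ) (σ : ℕ → ℕ) (hσ : ∀ a b, a < q + 2 → b < q + 2 → σ a = σ b → a = b)
    (t : T) (m w m' w' : List ℕ) (r : ℕ × ℕ)
    (hm : ∀ a ∈ m, a < q + 2) (hw : ∀ a ∈ w, a < q + 2) (h1 : KN σ m m') (h2 : KN σ w w')
    (h : lk t m w = some r) : lk t m' w' = some r := by
  induction t generalizing m w m' w' with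
  | l f d => rw [lk_l] at h ⊢; exact h
  | b p => rw [lk_b] at h; exact absurd h (by simp)
  | n t0 t1 ih0 ih1 =>
    cases m with
    | nil => rw [lk_n_nil] at h; simp at h
    | cons a m =>
      cases w with
      | nil => rw [lk_n_cons_nil] at h; simp at h
      | cons c w =>
        obtain ⟨m1, rfl⟩ := KN_head h1
        obtain ⟨w1, rfl⟩ := KN_head h2
        have hbeq : Nat.beq (σ a) (σ c) = Nat.beq a c := by
          by_cases hac : a = c
          · rw [hac]; simp
          · have : σ a ≠ σ c := fun h' => hac (hσ _ _ (hm a (by simp)) (hw c (by simp)) h')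
            have e1 : Nat.beq a c = false := by
              cases h' : Nat.beq a c
              · rfl
              · exact absurd (Nat.eq_of_beq_eq_true h') hac
            have e2 : Nat.beq (σ a) (σ c) = false := by
              cases h' : Nat.beq (σ a) (σ c)
              · rfl
              · exact absurd (Nat.eq_of_beq_eq_true h') this
            rw [e1, e2]
        rw [lk_n] at h ⊢
        rw [hbeq]
        have hm1 : ∀ a ∈ m, a < q + 2 := fun x hx => hm x (by simp [hx])
        have hw1 : ∀ a ∈ w, a < q + 2 := fun x hx => hw x (by simp [hx])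
        cases hb : Nat.beq a c
        · rw [hb] at h
          exact ih1 m w m1 w1 hm1 hw1 (KN_tail h1) (KN_tail h2) h
        · rw [hb] at h
          exact ih0 m w m1 w1 hm1 hw1 (KN_tail h1) (KN_tail h2) h

private lemma KN_drop {σ : ℕ → ℕ} {m m' : List ℕ} (h : KN σ m m') (s : ℕ) :
    KN σ (m.drop s) (m'.drop s) := by
  intro i x hx
  rw [List.getElem?_drop] at hx ⊢
  exact h _ _ hx

private lemma KN_cons {σ : ℕ → ℕ} {m m' : List ℕ} (h : KN σ m m') (c : ℕ) :
    KN σ (c :: m) (σ c :: m') := by
  intro i x hx
  cases i with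
  | zero => simp at hx; simp [hx]
  | succ i =>
    have := h i x (by simpa using hx)
    simpa using this

private lemma look_KN (q : ℕ) (σ : ℕ → ℕ) (hσ : ∀ a b, a < q + 2 → b < q + 2 → σ a = σ b → a = b)
    (t : T) (u v : List ℕ) (hu : ∀ a ∈ u, a < q + 2) (hk : KN σ u v) (c : ℕ) (hc : c < q + 2)
    (r : ℕ × ℕ) (h : look q t (c :: u) = some r) : look q t (σ c :: v) = some r := by
  unfold look at h ⊢
  have hcu : ∀ a ∈ c :: u, a < q + 2 := by
    intro a ha
    rcases List.mem_cons.mp ha with rfl | ha
    · exact hc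
    · exact hu a ha
  exact lk_KN q σ hσ t _ _ _ _ r hcu (fun a ha => hcu a (List.mem_of_mem_drop ha))
    (KN_cons hk c) (KN_drop (KN_cons hk c) _) h

private lemma fz_true (x : ℕ) (k : ℕ → Bool) (h : fz x k = true) : k x = true := by
  unfold fz at h
  split at h <;> first | exact h | exact absurd h (by decide)

private lemma ms_eq (q z : ℕ) (m : List ℕ) (hD : DQ q m) (hz : z < q + 2)
    (hzm : ∀ i, i ≤ q → m[i]? ≠ some z) : ms q m = z := by
  obtain ⟨hlen, hlt, hnd⟩ := hD
  have hl : (m.take (q + 1)).length = q + 1 := by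
    rw [List.length_take]; omega
  have hget : ∀ i, i ≤ q → (m.take (q + 1))[i]? = m[i]? := by
    intro i hi
    rw [List.getElem?_take, if_pos (by omega)]
  have hmem : ∀ a ∈ m.take (q + 1), ∃ i, i ≤ q ∧ m[i]? = some a := by
    intro a ha
    obtain ⟨i, hi⟩ := List.mem_iff_getElem?.mp ha
    have hi' : i < q + 1 := by
      have := (List.getElem?_eq_some_iff.mp hi).1
      omega
    exact ⟨i, by omega, by rw [← hget i (by omega)]; exact hi⟩
  have hnodup : (z :: m.take (q + 1)).Nodup := by
    rw [List.nodup_cons]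
    constructor
    · intro hz'
      obtain ⟨i, hi, h1⟩ := hmem z hz'
      exact hzm i hi h1
    · rw [List.nodup_iff_getElem?_ne_getElem?]
      intro i j hij hj
      rw [hget i (by omega), hget j (by omega)]
      exact hnd i j hij (by omega)
  have hfs : (z :: m.take (q + 1)).toFinset = Finset.range (q + 2) := by
    apply Finset.eq_of_subset_of_card_le
    · intro a ha
      rw [List.mem_toFinset] at ha
      rw [Finset.mem_range]
      rcases List.mem_cons.mp ha with rfl | ha
      · exact hz
      · obtain ⟨i, hi, h1⟩ := hmem a ha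
        exact hlt i a hi h1
    · rw [Finset.card_range, List.toFinset_card_of_nodup hnodup, List.length_cons, hl]
  have hsum := List.sum_toFinset (fun x : ℕ => x) hnodup
  rw [hfs] at hsum
  simp only [List.map_id', List.sum_cons] at hsum
  have hr := Finset.sum_range_id (q + 2)
  unfold ms
  have h1 : (q + 1) * (q + 2) / 2 = z + (m.take (q + 1)).sum := by
    rw [← hsum, hr]
    congr 1
    rw [Nat.mul_comm]
    congr 1
  omega

private lemma ms_spec (q : ℕ) (m : List ℕ) (hD : DQ q m) :
    ms q m < q + 2 ∧ ∀ i, i ≤ q → m[i]? ≠ some (ms q m) := by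
  obtain ⟨z, hz1, hz2⟩ : ∃ z ∈ Finset.range (q + 2), z ∉ (m.take (q + 1)).toFinset := by
    apply Finset.exists_mem_notMem_of_card_lt_card
    rw [Finset.card_range]
    have := List.toFinset_card_le (m.take (q + 1))
    rw [List.length_take] at this
    omega
  have hz3 : ∀ i, i ≤ q → m[i]? ≠ some z := by
    intro i hi h
    apply hz2
    rw [List.mem_toFinset]
    apply List.mem_iff_getElem?.mpr
    exact ⟨i, by rw [List.getElem?_take, if_pos (by omega)]; exact h⟩
  have h := ms_eq q z m hD (Finset.mem_range.mp hz1) hz3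
  rw [h]
  exact ⟨Finset.mem_range.mp hz1, hz3⟩

private lemma DQ_of_KN {q : ℕ} {σ : ℕ → ℕ} {m m' : List ℕ} (hk : KN σ m m')
    (hm : ∀ a ∈ m, a < q + 2) (hl : q + 1 ≤ m.length) (h : DQ q m') : DQ q m := by
  refine ⟨hl, fun i a hi ha => hm a (List.mem_of_getElem? ha), ?_⟩
  intro i j hij hj heq
  have hj' : j < m.length := by omega
  have hjj : m[j]? = some m[j] := List.getElem?_eq_getElem hj'
  have h1 := hk j _ hjj
  have h2 := hk i m[j] (by rw [heq, hjj])
  exact h.2.2 i j hij hj (by rw [h1, h2])

private lemma ms_KN {q : ℕ} {σ : ℕ → ℕ}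
    (hσ : ∀ a b, a < q + 2 → b < q + 2 → σ a = σ b → a = b) (hσ' : ∀ a, a < q + 2 → σ a < q + 2)
    {m m' : List ℕ} (hk : KN σ m m') (hm : ∀ a ∈ m, a < q + 2) (hl : q + 1 ≤ m.length)
    (h : DQ q m') : ms q m' = σ (ms q m) := by
  have hD := DQ_of_KN hk hm hl h
  obtain ⟨h1, h2⟩ := ms_spec q m hD
  apply ms_eq q _ m' h (hσ' _ h1)
  intro i hi heq
  have hi' : i < m.length := by omega
  have hii : m[i]? = some m[i] := List.getElem?_eq_getElem hi'
  have h3 := hk i _ hii
  rw [heq] at h3
  have h4 := hσ _ _ h1 (hm _ (List.getElem_mem hi')) (Option.some.inj h3)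
  exact h2 i hi (by rw [hii, h4])

private lemma KFs_ne {q : ℕ} {e : ℕ → ℕ} {P : ℕ} {v : List ℕ} (hv : KFs e P v) (hqP : q < P)
    (he : ∀ p, p ≤ q → e p = 0) (s p : ℕ) (hp : 1 ≤ p) (hpq : p ≤ q) (hs : s + p < v.length) :
    v[s]? ≠ v[s + p]? := by
  intro heq
  have h1 := hv p hp (by omega) s
  rw [he p hpq] at h1
  have h2 : 1 ≤ sp (v.drop s) p := by
    rw [le_sp_iff]
    refine ⟨by rw [List.length_drop]; omega, ?_⟩
    intro i hi
    have : i = 0 := by omega
    subst this
    rw [List.getElem?_drop, List.getElem?_drop]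
    simpa using heq
  omega

private lemma DQ_KFs {q : ℕ} {e : ℕ → ℕ} {P : ℕ} {v : List ℕ} (hv : KFs e P v) (hqP : q < P)
    (he : ∀ p, p ≤ q → e p = 0) (hvl : ∀ c ∈ v, c < q + 2) (hl : q + 1 ≤ v.length) : DQ q v := by
  refine ⟨hl, fun i a _ ha => hvl a (List.mem_of_getElem? ha), ?_⟩
  intro i j hij hj
  have := KFs_ne hv hqP he i (j - i) (by omega) (by omega) (by omega)
  rwa [show i + (j - i) = j by omega] at this

private lemma lres_mono (ws : List ℕ) (lam f d : ℕ) (r0 r1 r0' r1' : Option (ℕ × ℕ))
    (b0 b1 u0 u1 : Bool) (h0 : ∀ x, r0 = some x → r0' = some x)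
    (h1 : ∀ x, r1 = some x → r1' = some x)
    (h : lres ws lam f d r0 r1 b0 b1 u0 u1 = true) :
    lres ws lam f d r0' r1' b0 b1 u0 u1 = true := by
  cases b0 <;> cases b1
  · cases r0 with
    | none => cases r1 <;> exact absurd h (by simp [lres])
    | some x =>
      cases r1 with
      | none => exact absurd h (by simp [lres])
      | some y =>
        rw [h0 x rfl, h1 y rfl]
        exact h
  · cases r0 with
    | none => exact absurd h (by simp [lres])
    | some x =>
      rw [h0 x rfl]
      exact h
  · cases r1 with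
    | none => exact absurd h (by simp [lres])
    | some y =>
      rw [h1 y rfl]
      exact h
  · exact h

private lemma lchk_lres (q : ℕ) (es el ws : List ℕ) (lam : ℕ) (T0 : T) (f d : ℕ) (u : List ℕ)
    (c0 c1 : ℕ) (h : lchk q es el ws lam T0 f d u c0 c1 = true) :
    lres ws lam f d (look q T0 (c0 :: u)) (look q T0 (c1 :: u)) (fl u c0 es u) (fl u c1 es u)
      (ub u c0 el u) (ub u c1 el u) = true := by
  unfold lchk at h
  cases h0 : fl u c0 es u <;> cases h1 : fl u c1 es u <;> cases h2 : ub u c0 el u <;>
    cases h3 : ub u c1 el u <;> rw [h0, h1] at h <;> simp only [lchk1, h2, h3] at h <;> exact h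

/-- The data of the check of a table. -/
private structure Dat (q : ℕ) (e : ℕ → ℕ) (P : ℕ) (es el : List ℕ) (v : List ℕ) (σ : ℕ → ℕ) :
    Prop where
  hqP : q < P
  hes : es.length = P - 1
  hel : el.length = P - 1
  he : ∀ p, 1 ≤ p → p < P → el.getD (p - 1) 0 ≤ e p ∧ e p ≤ es.getD (p - 1) 0
  he0 : ∀ p, p ≤ q → e p = 0
  hv : KFs e P v
  hvl : ∀ c ∈ v, c < q + 2
  hσ : ∀ a b, a < q + 2 → b < q + 2 → σ a = σ b → a = b
  hσ' : ∀ a, a < q + 2 → σ a < q + 2

private lemma leaf {q : ℕ} {e : ℕ → ℕ} {P : ℕ} {es el : List ℕ} {v : List ℕ} {σ : ℕ → ℕ}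
    (D : Dat q e P es el v σ) (ws : List ℕ) (lam : ℕ) (T0 : T) (f d : ℕ) (u : List ℕ)
    (hul : q + 1 ≤ u.length) (hu : ∀ a ∈ u, a < q + 2) (hk : KN σ u v)
    (hlk : look q T0 v = some (f, d)) (h : lf q es el ws lam T0 f d u = true) :
    Lq q e P ws lam T0 v := by
  have h1 := fz_true _ _ (fz_true _ _ h)
  have h2 := lchk_lres _ _ _ _ _ _ _ _ _ _ _ h1
  have hq : u[q]? = some u[q] := List.getElem?_eq_getElem (by omega)
  have hc0 : u.getD q 0 = u[q] := by
    rw [List.getD_eq_getElem?_getD, hq]; rfl
  have hv0 := hk q _ hq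
  have hvq : v.getD q 0 = σ (u.getD q 0) := by
    rw [List.getD_eq_getElem?_getD, hv0, hc0]; rfl
  have hvlen : q + 1 ≤ v.length := by
    have := (List.getElem?_eq_some_iff.mp hv0).1
    omega
  have hDv := DQ_KFs D.hv D.hqP D.he0 D.hvl hvlen
  have hDu := DQ_of_KN hk hu hul hDv
  have hms := ms_KN D.hσ D.hσ' hk hu hul hDv
  have hms2 := (ms_spec q u hDu).1
  have hc0lt : u.getD q 0 < q + 2 := by
    rw [hc0]; exact hu _ (List.getElem_mem _)
  refine ⟨f, d, fl u (u.getD q 0) es u, fl u (ms q u) es u, ub u (u.getD q 0) el u,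
    ub u (ms q u) el u, hlk, ?_, ?_, ?_, ?_, ?_⟩
  · intro hb
    rw [hvq]
    exact fl_Sb e P es D.hes (fun p h1 h2 => (D.he p h1 h2).2) σ u v hk _ hb
  · intro hb
    rw [hms]
    exact fl_Sb e P es D.hes (fun p h1 h2 => (D.he p h1 h2).2) σ u v hk _ hb
  · intro hb _
    rw [hvq]
    exact ub_Sb q e P el D.hel (fun p h1 h2 => (D.he p h1 h2).1) σ D.hσ u v hu hk _ hc0lt hb
  · intro hb _
    rw [hms]
    exact ub_Sb q e P el D.hel (fun p h1 h2 => (D.he p h1 h2).1) σ D.hσ u v hu hk _ hms2 hb
  · rw [hvq, hms]
    exact lres_mono ws lam f d _ _ _ _ _ _ _ _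
      (fun x hx => look_KN q σ D.hσ T0 u v hu hk _ hc0lt x hx)
      (fun x hx => look_KN q σ D.hσ T0 u v hu hk _ hms2 x hx) h2

private lemma bcase {q : ℕ} {e : ℕ → ℕ} {P : ℕ} {es el : List ℕ} {v : List ℕ} {σ : ℕ → ℕ}
    (D : Dat q e P es el v σ) (p : ℕ) (r : List ℕ) (hk : KN σ r.reverse v)
    (h : rep es p r = true) : False := by
  unfold rep at h
  rw [Bool.and_eq_true, Bool.and_eq_true] at h
  obtain ⟨⟨h1, h2⟩, h3⟩ := h
  have hp1 := Nat.le_of_ble_eq_true h1
  have hp2 := Nat.le_of_ble_eq_true h2
  have hes := D.hes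
  have h4 := mt_true _ _ _ h3
  have hE := (D.he p hp1 (by omega)).2
  obtain ⟨E, hEE⟩ : ∃ E, E = es.getD (p - 1) 0 := ⟨_, rfl⟩
  rw [← hEE] at h4 hE
  have hL : p + E < r.length := by
    obtain ⟨a, -, h6⟩ := h4 E (by omega)
    rw [List.getElem?_drop] at h6
    exact (List.getElem?_eq_some_iff.mp h6).1
  have hrev : ∀ i a, r[i]? = some a → v[r.length - 1 - i]? = some (σ a) := by
    intro i a hi
    have hi' := (List.getElem?_eq_some_iff.mp hi).1
    apply hk
    rw [List.getElem?_reverse (by omega)]
    rw [show r.length - 1 - (r.length - 1 - i) = i by omega]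
    exact hi
  obtain ⟨s, hs⟩ : ∃ s, s = r.length - 1 - E - p := ⟨_, rfl⟩
  have h7 := D.hv p hp1 (by omega) s
  have h8 : E + 1 ≤ sp (v.drop s) p := by
    rw [le_sp_iff]
    have hvl : r.length ≤ v.length := by
      obtain ⟨a, h5, -⟩ := h4 0 (by omega)
      have := (List.getElem?_eq_some_iff.mp (hrev 0 a h5)).1
      omega
    refine ⟨by rw [List.length_drop]; omega, ?_⟩
    intro i hi
    rw [List.getElem?_drop, List.getElem?_drop]
    obtain ⟨a, h5, h6⟩ := h4 (E - i) (by omega)
    rw [List.getElem?_drop] at h6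
    have h9 := hrev _ _ h5
    have h10 := hrev _ _ h6
    rw [show r.length - 1 - (E - i) = s + (p + i) by omega] at h9
    rw [show r.length - 1 - (p + (E - i)) = s + i by omega] at h10
    rw [h9, h10]
  omega

private lemma mainInd {q : ℕ} {e : ℕ → ℕ} {P : ℕ} {es el : List ℕ} {v : List ℕ} {σ : ℕ → ℕ}
    (D : Dat q e P es el v σ) (ws : List ℕ) (lam : ℕ) (T0 : T) :
    ∀ (t : T) (r : List ℕ), q + 1 ≤ r.length → (∀ a ∈ r, a < q + 2) → KN σ r.reverse v →
      r.length + dep t ≤ v.length → chk q es el ws lam T0 t r = true →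
      look q T0 v = lk t (v.drop (r.length - (q + 1))) (v.drop r.length) →
      Lq q e P ws lam T0 v := by
  intro t
  induction t with
  | l f d =>
    intro r hr hrl hk _ hc hlk
    rw [chk_l] at hc
    rw [lk_l] at hlk
    exact leaf D ws lam T0 f d r.reverse (by simpa using hr) (by simpa using hrl) hk hlk hc
  | b p =>
    intro r _ _ hk _ hc _
    rw [chk_b] at hc
    exact (bcase D p r hk hc).elim
  | n t0 t1 ih0 ih1 =>
    intro r hr hrl hk hdep hc hlk
    rw [chk_n, Bool.and_eq_true] at hc
    have hc0 := fz_true _ _ hc.1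
    have hc1 := fz_true _ _ hc.2
    have hdep' : dep (T.n t0 t1) = max (dep t0) (dep t1) + 1 := rfl
    rw [hdep'] at hdep
    have hm0 : dep t0 ≤ max (dep t0) (dep t1) := le_max_left _ _
    have hm1 : dep t1 ≤ max (dep t0) (dep t1) := le_max_right _ _
    have hLv : r.length < v.length := by omega
    have hrev : ∀ i a, r[i]? = some a → v[r.length - 1 - i]? = some (σ a) := by
      intro i a hi
      have hi' := (List.getElem?_eq_some_iff.mp hi).1
      apply hk
      rw [List.getElem?_reverse (by omega)]
      rw [show r.length - 1 - (r.length - 1 - i) = i by omega]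
      exact hi
    have hrq : r[q]? = some (r.getD q 0) := by
      rw [List.getD_eq_getElem?_getD, List.getElem?_eq_getElem (by omega)]; rfl
    have ha : r.getD q 0 < q + 2 := hrl _ (List.mem_of_getElem? hrq)
    have hva := hrev _ _ hrq
    obtain ⟨x, hx⟩ : ∃ x, v[r.length]? = some x := ⟨_, List.getElem?_eq_getElem hLv⟩
    have hxlt : x < q + 2 := D.hvl x (List.mem_of_getElem? hx)
    have hd1 : v.drop (r.length - (q + 1)) = σ (r.getD q 0) :: v.drop (r.length - q) := by
      rw [List.drop_eq_getElem_cons (by omega)]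
      have h1 : v[r.length - (q + 1)]? = some (σ (r.getD q 0)) := by
        rw [show r.length - (q + 1) = r.length - 1 - q by omega]; exact hva
      have h2 := (List.getElem?_eq_some_iff.mp h1).2
      rw [h2, show r.length - (q + 1) + 1 = r.length - q by omega]
    have hd2 : v.drop r.length = x :: v.drop (r.length + 1) := by
      rw [List.drop_eq_getElem_cons hLv]
      have h2 := (List.getElem?_eq_some_iff.mp hx).2
      rw [h2]
    rw [hd1, hd2, lk_n] at hlk
    have hKNc : ∀ c, σ c = x → KN σ (c :: r).reverse v := by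
      intro c hcx i a hi
      rw [List.reverse_cons] at hi
      by_cases hi' : i < r.reverse.length
      · rw [List.getElem?_append_left hi'] at hi
        exact hk i a hi
      · have hi2 : i = r.length := by
          have := (List.getElem?_eq_some_iff.mp hi).1
          simp at this hi'
          omega
        subst hi2
        rw [List.getElem?_append_right (by simp)] at hi
        simp at hi
        rw [hx, ← hi, hcx]
    have hcons : ∀ c, c < q + 2 → ∀ a ∈ c :: r, a < q + 2 := by
      intro c hc a ha
      rcases List.mem_cons.mp ha with rfl | ha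
      · exact hc
      · exact hrl a ha
    cases hb : Nat.beq (σ (r.getD q 0)) x
    · rw [hb] at hlk
      have hne : σ (r.getD q 0) ≠ x := by
        intro h'
        rw [h'] at hb
        simp at hb
      have hDr : DQ q r := by
        refine ⟨hr, fun i a _ h => hrl a (List.mem_of_getElem? h), ?_⟩
        intro i j hij hj heq
        have hjj : r[j]? = some r[j] := List.getElem?_eq_getElem (by omega)
        have h1 := hrev j _ hjj
        have h2 := hrev i r[j] (by rw [heq, hjj])
        have h3 := KFs_ne D.hv D.hqP D.he0 (r.length - 1 - j) (j - i) (by omega) (by omega)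
          (by omega)
        rw [show r.length - 1 - j + (j - i) = r.length - 1 - i by omega, h1, h2] at h3
        exact h3 rfl
      obtain ⟨y, hy, hyx⟩ : ∃ y, y < q + 2 ∧ σ y = x := by
        have himg : (Finset.range (q + 2)).image σ = Finset.range (q + 2) := by
          apply Finset.eq_of_subset_of_card_le
          · intro a ha
            obtain ⟨b, hb, rfl⟩ := Finset.mem_image.mp ha
            exact Finset.mem_range.mpr (D.hσ' b (Finset.mem_range.mp hb))
          · rw [Finset.card_image_of_injOn]
            intro a ha b hb hab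
            exact D.hσ a b (Finset.mem_range.mp ha) (Finset.mem_range.mp hb) hab
        have hx' : x ∈ (Finset.range (q + 2)).image σ := by
          rw [himg]; exact Finset.mem_range.mpr hxlt
        obtain ⟨b, hb, hbx⟩ := Finset.mem_image.mp hx'
        exact ⟨b, Finset.mem_range.mp hb, hbx⟩
      have hms : ms q r = y := by
        apply ms_eq q y r hDr hy
        intro i hi heq
        have h1 := hrev i y heq
        rcases Nat.lt_or_ge i q with hiq | hiq
        · have h3 := KFs_ne D.hv D.hqP D.he0 (r.length - 1 - i) (i + 1) (by omega) (by omega)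
            (by omega)
          rw [show r.length - 1 - i + (i + 1) = r.length by omega, h1, hx, hyx] at h3
          exact h3 rfl
        · have : i = q := by omega
          subst this
          rw [hrq] at heq
          exact hne (by rw [Option.some.inj heq, hyx])
      have hy2 : ms q r < q + 2 := by rw [hms]; exact hy
      refine ih1 (ms q r :: r) (by rw [List.length_cons]; omega) (hcons _ hy2)
        (hKNc _ (by rw [hms, hyx])) (by rw [List.length_cons]; omega) hc1 ?_
      rw [List.length_cons, show r.length + 1 - (q + 1) = r.length - q by omega]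
      exact hlk
    · rw [hb] at hlk
      have heq := Nat.eq_of_beq_eq_true hb
      refine ih0 (r.getD q 0 :: r) (by rw [List.length_cons]; omega) (hcons _ ha)
        (hKNc _ heq) (by rw [List.length_cons]; omega) hc0 ?_
      rw [List.length_cons, show r.length + 1 - (q + 1) = r.length - q by omega]
      exact hlk

private lemma st_length (q : ℕ) : (st q).length = q + 1 := by
  induction q with
  | zero => rfl
  | succ q ih => simp [st, ih]

private lemma st_get (q i : ℕ) (hi : i ≤ q) : (st q).reverse[i]? = some i := by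
  induction q with
  | zero =>
    have : i = 0 := by omega
    subst this
    rfl
  | succ q ih =>
    rw [st, List.reverse_cons]
    rcases Nat.lt_or_ge i (q + 1) with h | h
    · rw [List.getElem?_append_left (by rw [List.length_reverse, st_length]; omega)]
      exact ih (by omega)
    · have : i = q + 1 := by omega
      subst this
      rw [List.getElem?_append_right (by rw [List.length_reverse, st_length])]
      rw [List.length_reverse, st_length]
      simp

theorem p_SND : S_SND := by
  intro q e P es el ws lam T0 hqP _ _ hes hel he he0 hchk v hv hvl hlen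
  have hvlen : q + 1 ≤ v.length := by omega
  have hDv := DQ_KFs hv hqP he0 hvl hvlen
  obtain ⟨hm1, hm2⟩ := ms_spec q v hDv
  let σ : ℕ → ℕ := fun i => if i ≤ q then v.getD i 0 else ms q v
  have hget : ∀ i, i ≤ q → v[i]? = some (v.getD i 0) := by
    intro i hi
    rw [List.getD_eq_getElem?_getD, List.getElem?_eq_getElem (by omega)]; rfl
  have hσ1 : ∀ i, i ≤ q → σ i = v.getD i 0 := fun i hi => if_pos hi
  have hσ2 : ∀ i, q < i → σ i = ms q v := fun i hi => if_neg (by omega)
  have hD : Dat q e P es el v σ := by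
    refine ⟨hqP, hes, hel, he, he0, hv, hvl, ?_, ?_⟩
    · have key : ∀ a b, a < b → b < q + 2 → σ a ≠ σ b := by
        intro a b hab hb heq
        rcases Nat.lt_or_ge q b with hqb | hqb
        · rw [hσ1 a (by omega), hσ2 b hqb] at heq
          exact hm2 a (by omega) (by rw [hget a (by omega), heq])
        · rw [hσ1 a (by omega), hσ1 b hqb] at heq
          exact hDv.2.2 a b hab hqb (by rw [hget a (by omega), hget b hqb, heq])
      intro a b ha hb heq
      rcases Nat.lt_trichotomy a b with h | h | h
      · exact absurd heq (key a b h hb)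
      · exact h
      · exact absurd heq.symm (key b a h ha)
    · intro a _
      rcases Nat.lt_or_ge q a with h | h
      · rw [hσ2 a h]; exact hm1
      · rw [hσ1 a h]; exact hvl _ (List.mem_of_getElem? (hget a h))
  refine mainInd hD ws lam T0 T0 (st q) (by rw [st_length]) ?_ ?_ (by rw [st_length]; omega)
    hchk ?_
  · intro a ha
    obtain ⟨i, hi⟩ := List.mem_iff_getElem?.mp (List.mem_reverse.mpr ha)
    have hi' : i < q + 1 := by
      have := (List.getElem?_eq_some_iff.mp hi).1
      rw [List.length_reverse, st_length] at this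
      exact this
    rw [st_get q i (by omega)] at hi
    have := Option.some.inj hi
    omega
  · intro i a hi
    have hi' : i < q + 1 := by
      have := (List.getElem?_eq_some_iff.mp hi).1
      rw [List.length_reverse, st_length] at this
      exact this
    rw [st_get q i (by omega)] at hi
    have h1 := Option.some.inj hi
    rw [← h1, hσ1 i (by omega), hget i (by omega)]
  · rw [st_length, Nat.sub_self, List.drop_zero]
    rfl

end Pool.Agent.Helper49.TF
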