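import Pool.Agent.Helper49.TF.St

/-!
# Packing instance for five letters
-/

set_option autoImplicit false

namespace Pool.Agent.Helper49.TF

open Pool.Agent.Helper25.PF

/-- Rewards, five letters. -/
def wE : List ℕ := [72, 60, 54, 48, 36, 30, 18]

private theorem covE (s n d : ℕ) (hs : 1 ≤ s) (h1 : 13 * s ≤ n) (h2 : n < 2 * (13 * s))
    (hd : 1 ≤ d) :
    2 * (wE.getD (d - 1) 0) * s ≤ 2 * 6 * cl (18 * s) (26 * s) n d + 2 * 4 * cl (25 * s) (36 * s) n d +
        6 * cl (18 * (2 * s)) (26 * (2 * s)) n d + 4 * cl (25 * (2 * s)) (36 * (2 * s)) n d := by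
  rcases Nat.lt_or_ge 7 d with h | h
  · have : wE.getD (d - 1) 0 = 0 := by
      apply List.getD_eq_default
      show 7 ≤ d - 1
      omega
    rw [this]; omega
  · unfold cl
    interval_cases d <;>
      simp only [wE, List.getD_cons_zero, List.getD_cons_succ, Nat.reduceSub] <;>
      split_ifs <;> omega

theorem packE (h : S_PKO) : Pack 13 (fun d => wE.getD (d - 1) 0) 21 :=
  h 13 18 26 6 25 36 4 21 _ (by norm_num) (by norm_num)
    (fun s n d hs h1 h2 hd => covE s n d hs h1 h2 hd)

end Pool.Agent.Helper49.TF
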