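import Pool.Agent.Helper49.TF.TabE0D

/-!
# Table E0: kernel check, part 2
-/

set_option autoImplicit false
set_option maxRecDepth 100000

namespace Pool.Agent.Helper49.TF.E0

theorem hs11 : chk 3 es el ws 21 tb s11
  [0, 2, 3, 1, 4, 0, 3, 2, 1, 0] = true := by decide +kernel

theorem hs12 : chk 3 es el ws 21 tb s12
  [2, 1, 4, 0, 3, 2, 1, 0] = true := by decide +kernel

theorem hs13 : chk 3 es el ws 21 tb s13
  [2, 1, 4, 3, 2, 1, 0] = true := by decide +kernel

theorem hs14 : chk 3 es el ws 21 tb s14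
  [4, 3, 0, 1, 4, 3, 2, 1, 0] = true := by decide +kernel

theorem hs15 : chk 3 es el ws 21 tb s15
  [0, 1, 2, 3, 0, 1, 4, 3, 2, 1, 0] = true := by decide +kernel

theorem hs16 : chk 3 es el ws 21 tb s16
  [3, 4, 1, 2, 3, 0, 1, 4, 3, 2, 1, 0] = true := by decide +kernel

end Pool.Agent.Helper49.TF.E0
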