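import Pool.Agent.Helper49.TF.TabE0D

/-!
# Table E0: kernel check, part 4
-/

set_option autoImplicit false
set_option maxRecDepth 100000

namespace Pool.Agent.Helper49.TF.E0

theorem hs21 : chk 3 es el ws 21 tb s21
  [1, 3, 4, 2, 0, 1, 4, 3, 2, 1, 0] = true := by decide +kernel

theorem hs22 : chk 3 es el ws 21 tb s22
  [3, 2, 0, 1, 4, 3, 2, 1, 0] = true := by decide +kernel

theorem hs23 : chk 3 es el ws 21 tb s23
  [3, 2, 0, 4, 3, 2, 1, 0] = true := by decide +kernel

theorem hs24 : chk 3 es el ws 21 tb s24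
  [0, 4, 1, 2, 0, 4, 3, 2, 1, 0] = true := by decide +kernel

theorem hs25 : chk 3 es el ws 21 tb s25
  [2, 3, 4, 1, 2, 0, 4, 3, 2, 1, 0] = true := by decide +kernel

end Pool.Agent.Helper49.TF.E0
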