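import Pool.Agent.Helper49.TF.Glue
import Pool.Agent.Helper49.TF.TabE0P0
import Pool.Agent.Helper49.TF.TabE0P1
import Pool.Agent.Helper49.TF.TabE0P2
import Pool.Agent.Helper49.TF.TabE0P3
import Pool.Agent.Helper49.TF.TabE0P4
import Pool.Agent.Helper49.TF.TabE0P5

/-!
# Table E0: assembly of the kernel checks
-/

set_option autoImplicit false
set_option maxRecDepth 100000

namespace Pool.Agent.Helper49.TF.E0

theorem hu0 : chk 3 es el ws 21 tb u0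
  [3, 0, 1, 2, 4, 0, 3, 2, 1, 0] = true :=
  gn _ _ _ _ _ _ s3 s4 _ 2 4 rfl rfl (by decide) (by decide) hs3 hs4

theorem hu1 : chk 3 es el ws 21 tb u1
  [0, 1, 2, 4, 0, 3, 2, 1, 0] = true :=
  gn _ _ _ _ _ _ s2 u0 _ 4 3 rfl rfl (by decide) (by decide) hs2 hu0

theorem hu2 : chk 3 es el ws 21 tb u2
  [0, 4, 3, 1, 2, 4, 0, 3, 2, 1, 0] = true :=
  gn _ _ _ _ _ _ s6 s7 _ 1 2 rfl rfl (by decide) (by decide) hs6 hs7

theorem hu3 : chk 3 es el ws 21 tb u3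
  [4, 3, 1, 2, 4, 0, 3, 2, 1, 0] = true :=
  gn _ _ _ _ _ _ s5 u2 _ 2 0 rfl rfl (by decide) (by decide) hs5 hu2

theorem hu4 : chk 3 es el ws 21 tb u4
  [3, 1, 2, 4, 0, 3, 2, 1, 0] = true :=
  gn _ _ _ _ _ _ u3 s8 _ 4 0 rfl rfl (by decide) (by decide) hu3 hs8

theorem hu5 : chk 3 es el ws 21 tb u5
  [1, 2, 4, 0, 3, 2, 1, 0] = true :=
  gn _ _ _ _ _ _ u1 u4 _ 0 3 rfl rfl (by decide) (by decide) hu1 hu4

theorem hu6 : chk 3 es el ws 21 tb u6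
  [2, 4, 0, 3, 2, 1, 0] = true :=
  gn _ _ _ _ _ _ s1 u5 _ 3 1 rfl rfl (by decide) (by decide) hs1 hu5

theorem hu7 : chk 3 es el ws 21 tb u7
  [2, 3, 1, 4, 0, 3, 2, 1, 0] = true :=
  gn _ _ _ _ _ _ s10 s11 _ 4 0 rfl rfl (by decide) (by decide) hs10 hs11

theorem hu8 : chk 3 es el ws 21 tb u8
  [3, 1, 4, 0, 3, 2, 1, 0] = true :=
  gn _ _ _ _ _ _ s9 u7 _ 0 2 rfl rfl (by decide) (by decide) hs9 hu7

theorem hu9 : chk 3 es el ws 21 tb u9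
  [1, 4, 0, 3, 2, 1, 0] = true :=
  gn _ _ _ _ _ _ u8 s12 _ 3 2 rfl rfl (by decide) (by decide) hu8 hs12

theorem hu10 : chk 3 es el ws 21 tb u10
  [4, 0, 3, 2, 1, 0] = true :=
  gn _ _ _ _ _ _ u6 u9 _ 2 1 rfl rfl (by decide) (by decide) hu6 hu9

theorem hu11 : chk 3 es el ws 21 tb u11
  [0, 3, 2, 1, 0] = true :=
  gn _ _ _ _ _ _ s0 u10 _ 1 4 rfl rfl (by decide) (by decide) hs0 hu10

theorem hu12 : chk 3 es el ws 21 tb u12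
  [4, 1, 2, 3, 0, 1, 4, 3, 2, 1, 0] = true :=
  gn _ _ _ _ _ _ s16 s17 _ 3 0 rfl rfl (by decide) (by decide) hs16 hs17

theorem hu13 : chk 3 es el ws 21 tb u13
  [1, 2, 3, 0, 1, 4, 3, 2, 1, 0] = true :=
  gn _ _ _ _ _ _ s15 u12 _ 0 4 rfl rfl (by decide) (by decide) hs15 hu12

theorem hu14 : chk 3 es el ws 21 tb u14
  [2, 3, 0, 1, 4, 3, 2, 1, 0] = true :=
  gn _ _ _ _ _ _ u13 s18 _ 1 4 rfl rfl (by decide) (by decide) hu13 hs18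

theorem hu15 : chk 3 es el ws 21 tb u15
  [3, 0, 1, 4, 3, 2, 1, 0] = true :=
  gn _ _ _ _ _ _ s14 u14 _ 4 2 rfl rfl (by decide) (by decide) hs14 hu14

theorem hu16 : chk 3 es el ws 21 tb u16
  [3, 4, 2, 0, 1, 4, 3, 2, 1, 0] = true :=
  gn _ _ _ _ _ _ s20 s21 _ 0 1 rfl rfl (by decide) (by decide) hs20 hs21

theorem hu17 : chk 3 es el ws 21 tb u17
  [4, 2, 0, 1, 4, 3, 2, 1, 0] = true :=
  gn _ _ _ _ _ _ s19 u16 _ 1 3 rfl rfl (by decide) (by decide) hs19 hu16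

theorem hu18 : chk 3 es el ws 21 tb u18
  [2, 0, 1, 4, 3, 2, 1, 0] = true :=
  gn _ _ _ _ _ _ u17 s22 _ 4 3 rfl rfl (by decide) (by decide) hu17 hs22

theorem hu19 : chk 3 es el ws 21 tb u19
  [0, 1, 4, 3, 2, 1, 0] = true :=
  gn _ _ _ _ _ _ u15 u18 _ 3 2 rfl rfl (by decide) (by decide) hu15 hu18

theorem hu20 : chk 3 es el ws 21 tb u20
  [1, 4, 3, 2, 1, 0] = true :=
  gn _ _ _ _ _ _ s13 u19 _ 2 0 rfl rfl (by decide) (by decide) hs13 hu19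

theorem hu21 : chk 3 es el ws 21 tb u21
  [3, 4, 1, 2, 0, 4, 3, 2, 1, 0] = true :=
  gn _ _ _ _ _ _ s25 s26 _ 2 0 rfl rfl (by decide) (by decide) hs25 hs26

theorem hu22 : chk 3 es el ws 21 tb u22
  [4, 1, 2, 0, 4, 3, 2, 1, 0] = true :=
  gn _ _ _ _ _ _ s24 u21 _ 0 3 rfl rfl (by decide) (by decide) hs24 hu21

theorem hu23 : chk 3 es el ws 21 tb u23
  [4, 0, 3, 1, 2, 0, 4, 3, 2, 1, 0] = true :=
  gn _ _ _ _ _ _ s28 s29 _ 1 2 rfl rfl (by decide) (by decide) hs28 hs29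

theorem hu24 : chk 3 es el ws 21 tb u24
  [0, 3, 1, 2, 0, 4, 3, 2, 1, 0] = true :=
  gn _ _ _ _ _ _ s27 u23 _ 2 4 rfl rfl (by decide) (by decide) hs27 hu23

theorem hu25 : chk 3 es el ws 21 tb u25
  [3, 1, 2, 0, 4, 3, 2, 1, 0] = true :=
  gn _ _ _ _ _ _ u24 s30 _ 0 4 rfl rfl (by decide) (by decide) hu24 hs30

theorem hu26 : chk 3 es el ws 21 tb u26
  [1, 2, 0, 4, 3, 2, 1, 0] = true :=
  gn _ _ _ _ _ _ u22 u25 _ 4 3 rfl rfl (by decide) (by decide) hu22 hu25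

theorem hu27 : chk 3 es el ws 21 tb u27
  [2, 0, 4, 3, 2, 1, 0] = true :=
  gn _ _ _ _ _ _ s23 u26 _ 3 1 rfl rfl (by decide) (by decide) hs23 hu26

theorem hu28 : chk 3 es el ws 21 tb u28
  [0, 4, 3, 2, 1, 0] = true :=
  gn _ _ _ _ _ _ u27 s31 _ 2 1 rfl rfl (by decide) (by decide) hu27 hs31

theorem hu29 : chk 3 es el ws 21 tb u29
  [4, 3, 2, 1, 0] = true :=
  gn _ _ _ _ _ _ u20 u28 _ 1 0 rfl rfl (by decide) (by decide) hu20 hu28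

theorem hu30 : chk 3 es el ws 21 tb u30
  [3, 2, 1, 0] = true :=
  gn _ _ _ _ _ _ u11 u29 _ 0 4 rfl rfl (by decide) (by decide) hu11 hu29

theorem ok : chk 3 es el ws 21 tb tb (st 3) = true := hu30

end Pool.Agent.Helper49.TF.E0
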