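import Pool.Agent.Helper49.TF.MainThree
import Pool.Agent.Helper49.TF.PkE
import Pool.Agent.Helper49.TF.TabE0

/-!
# Five letters, `3/10 < κ ≤ 1/3`
-/

set_option autoImplicit false

namespace Pool.Agent.Helper49.TF

open Pool.Agent.Helper25.PF

theorem quint (hstp : S_STP) (hrng : S_RNG) (hpko : S_PKO) (κ : ℝ) (h1 : (3 : ℝ) / 10 < κ)
    (h2 : κ ≤ (1 : ℝ) / 3) : Con 5 κ := by
  have hp : Pack 13 (fun δ => E0.ws.getD (δ - 1) 0) 21 := packE hpko
  refine con_of hstp hrng 3 40 13 21 3 10 1 3 E0.es E0.el E0.ws E0.tb hp (by norm_num)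
    (by norm_num) (by norm_num) (by norm_num) (by norm_num) (by norm_num) (by decide) (by decide)
    (by norm_num) (by norm_num) (by decide) (by decide) E0.ok κ ?_ ?_
  · push_cast
    linarith [(div_lt_iff₀ (by norm_num : (0 : ℝ) < 10)).1 h1]
  · push_cast
    linarith [(le_div_iff₀ (by norm_num : (0 : ℝ) < 3)).1 h2]

theorem main_five : ∀ (α : Type) [Fintype α] (k : ℝ), Fintype.card α = 5 → 13 / 10 < k →
    k ≤ 4 / 3 → ∀ w : List α, PowerFree k w →
      ∃ u : List α, MaximalPowerFree k u ∧ w <+: u ∧ ∀ b : α, ¬ PowerFree k (u ++ [b]) := by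
  intro α _ k hc h1 h2 w hw
  exact fin_of 5 hc k (by linarith)
    (quint hstp p_RNG hpko (k - 1) (by linarith) (by linarith)) w hw

end Pool.Agent.Helper49.TF
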