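import Pool.Agent.Helper49.TF.ThreeFin
import Pool.Agent.Helper49.TF.M_CLQ
import Pool.Agent.Helper49.TF.M_PKO
import Pool.Agent.Helper49.TF.M_PKI
import Pool.Agent.Helper49.TF.M_CHN
import Pool.Agent.Helper49.TF.M_EVT
import Pool.Agent.Helper49.TF.M_SND
import Pool.Agent.Helper49.TF.M_RNG
import Pool.Agent.Helper75.TF.M_STP

/-!
# Main theorems for three and four letters
-/

set_option autoImplicit false

namespace Pool.Agent.Helper49.TF

open Pool.Agent.Helper25.PF

theorem hstp : S_STP := Pool.Agent.Helper75.TF.p_STP p_CHN p_EVT p_SND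

theorem hpko : S_PKO := p_PKO p_CLQ

theorem main_three : ∀ (α : Type) [Fintype α] (k : ℝ), Fintype.card α ≤ 3 → 1 ≤ k → k ≤ 2 →
    ∀ w : List α, PowerFree k w →
      ∃ u : List α, MaximalPowerFree k u ∧ w <+: u ∧ ∀ b : α, ¬ PowerFree k (u ++ [b]) := by
  intro α _ k hc h1 h2 w hw
  rcases eq_or_lt_of_le h1 with h | h
  · exact fin_one k h.ge w hw
  · exact fin_of _ rfl k h
      (three_con hstp p_RNG (p_PKI hpko) p_SML _ hc (k - 1) (by linarith) (by linarith)) w hw

theorem main_four : ∀ (α : Type) [Fintype α] (k : ℝ), Fintype.card α = 4 → 1 ≤ k → k ≤ 3 / 2 →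
    ∀ w : List α, PowerFree k w →
      ∃ u : List α, MaximalPowerFree k u ∧ w <+: u ∧ ∀ b : α, ¬ PowerFree k (u ++ [b]) := by
  intro α _ k hc h1 h2 w hw
  rcases eq_or_lt_of_le h1 with h | h
  · exact fin_one k h.ge w hw
  · exact fin_of 4 hc k h
      (quat hstp p_RNG hpko p_SND (k - 1) (by linarith) (by linarith)) w hw

end Pool.Agent.Helper49.TF
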