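import Pool.Agent.Helper49.TF.St

/-!
# Packing instance for four letters
-/

set_option autoImplicit false

namespace Pool.Agent.Helper49.TF

open Pool.Agent.Helper25.PF

/-- Rewards, four letters. -/
def wD : List ℕ := [104, 69, 66, 60, 57, 51, 48, 40, 36, 28, 24]

private theorem covD (s n d : ℕ) (hs : 1 ≤ s) (h1 : 23 * s ≤ n) (h2 : n < 2 * (23 * s))
    (hd : 1 ≤ d) :
    2 * (wD.getD (d - 1) 0) * s ≤ 2 * 4 * cl (34 * s) (44 * s) n d + 2 * 3 * cl (44 * s) (60 * s) n d +
        4 * cl (34 * (2 * s)) (44 * (2 * s)) n d + 3 * cl (44 * (2 * s)) (60 * (2 * s)) n d := by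
  rcases Nat.lt_or_ge 11 d with h | h
  · have : wD.getD (d - 1) 0 = 0 := by
      apply List.getD_eq_default
      show 11 ≤ d - 1
      omega
    rw [this]; omega
  · unfold cl
    interval_cases d <;>
      simp only [wD, List.getD_cons_zero, List.getD_cons_succ, Nat.reduceSub] <;>
      split_ifs <;> omega

theorem packD (h : S_PKO) : Pack 23 (fun d => wD.getD (d - 1) 0) 15 :=
  h 23 34 44 4 44 60 3 15 _ (by norm_num) (by norm_num)
    (fun s n d hs h1 h2 hd => covD s n d hs h1 h2 hd)

end Pool.Agent.Helper49.TF
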