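import Pool.Agent.Helper49.TF.TabC0D

/-!
# Table C0: kernel check, part 0
-/

set_option autoImplicit false
set_option maxRecDepth 100000

namespace Pool.Agent.Helper49.TF.C0

theorem hs0 : chk 2 es el ws 15 tb s0
  [1, 0, 2, 1, 0] = true := by decide +kernel

theorem hs1 : chk 2 es el ws 15 tb s1
  [0, 2, 3, 0, 2, 1, 0] = true := by decide +kernel

theorem hs2 : chk 2 es el ws 15 tb s2
  [2, 3, 1, 2, 3, 0, 2, 1, 0] = true := by decide +kernel

theorem hs3 : chk 2 es el ws 15 tb s3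
  [1, 0, 3, 1, 2, 3, 0, 2, 1, 0] = true := by decide +kernel

theorem hs4 : chk 2 es el ws 15 tb s4
  [0, 3, 2, 0, 3, 1, 2, 3, 0, 2, 1, 0] = true := by decide +kernel

theorem hs5 : chk 2 es el ws 15 tb s5
  [2, 1, 3, 2, 0, 3, 1, 2, 3, 0, 2, 1, 0] = true := by decide +kernel

end Pool.Agent.Helper49.TF.C0
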