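import Pool.Agent.Helper49.TF.TabC0D

/-!
# Table C0: kernel check, part 3
-/

set_option autoImplicit false
set_option maxRecDepth 100000

namespace Pool.Agent.Helper49.TF.C0

theorem hs15 : chk 2 es el ws 15 tb s15
  [0, 3, 1, 2, 0, 1, 3, 0, 2, 1, 0] = true := by decide +kernel

theorem hs16 : chk 2 es el ws 15 tb s16
  [2, 0, 3, 2, 0, 1, 3, 0, 2, 1, 0] = true := by decide +kernel

theorem hs17 : chk 2 es el ws 15 tb s17
  [0, 3, 1, 0, 3, 2, 0, 1, 3, 0, 2, 1, 0] = true := by decide +kernel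

theorem hs18 : chk 2 es el ws 15 tb s18
  [1, 2, 3, 1, 0, 3, 2, 0, 1, 3, 0, 2, 1, 0] = true := by decide +kernel

theorem hs19 : chk 2 es el ws 15 tb s19
  [0, 2, 3, 1, 0, 3, 2, 0, 1, 3, 0, 2, 1, 0] = true := by decide +kernel

theorem hs20 : chk 2 es el ws 15 tb s20
  [2, 1, 0, 3, 2, 0, 1, 3, 0, 2, 1, 0] = true := by decide +kernel

theorem hs21 : chk 2 es el ws 15 tb s21
  [1, 3, 2, 0, 1, 3, 0, 2, 1, 0] = true := by decide +kernel

theorem hs22 : chk 2 es el ws 15 tb s22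
  [2, 1, 3, 0, 2, 1, 0] = true := by decide +kernel

theorem hs23 : chk 2 es el ws 15 tb s23
  [2, 1, 3, 2, 1, 0] = true := by decide +kernel

theorem hs24 : chk 2 es el ws 15 tb s24
  [1, 3, 0, 1, 3, 2, 1, 0] = true := by decide +kernel

theorem hs25 : chk 2 es el ws 15 tb s25
  [3, 0, 2, 3, 0, 1, 3, 2, 1, 0] = true := by decide +kernel

theorem hs26 : chk 2 es el ws 15 tb s26
  [2, 1, 0, 2, 3, 0, 1, 3, 2, 1, 0] = true := by decide +kernel

theorem hs27 : chk 2 es el ws 15 tb s27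
  [1, 0, 3, 1, 0, 2, 3, 0, 1, 3, 2, 1, 0] = true := by decide +kernel

end Pool.Agent.Helper49.TF.C0
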