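import Pool.Agent.Helper49.TF.TabC0D

/-!
# Table C0: kernel check, part 4
-/

set_option autoImplicit false
set_option maxRecDepth 100000

namespace Pool.Agent.Helper49.TF.C0

theorem hs28 : chk 2 es el ws 15 tb s28
  [3, 2, 0, 3, 1, 0, 2, 3, 0, 1, 3, 2, 1, 0] = true := by decide +kernel

theorem hs29 : chk 2 es el ws 15 tb s29
  [1, 2, 0, 3, 1, 0, 2, 3, 0, 1, 3, 2, 1, 0] = true := by decide +kernel

theorem hs30 : chk 2 es el ws 15 tb s30
  [2, 3, 1, 0, 2, 3, 0, 1, 3, 2, 1, 0] = true := by decide +kernel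

theorem hs31 : chk 2 es el ws 15 tb s31
  [2, 3, 1, 2, 3, 0, 1, 3, 2, 1, 0] = true := by decide +kernel

theorem hs32 : chk 2 es el ws 15 tb s32
  [1, 0, 3, 1, 2, 3, 0, 1, 3, 2, 1, 0] = true := by decide +kernel

end Pool.Agent.Helper49.TF.C0
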