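import Pool.Agent.Helper49.TF.TabC0D

/-!
# Table C0: kernel check, part 6
-/

set_option autoImplicit false
set_option maxRecDepth 100000

namespace Pool.Agent.Helper49.TF.C0

theorem hs38 : chk 2 es el ws 15 tb s38
  [1, 0, 2, 3, 1, 2, 0, 1, 3, 2, 1, 0] = true := by decide +kernel

theorem hs39 : chk 2 es el ws 15 tb s39
  [3, 1, 0, 3, 1, 2, 0, 1, 3, 2, 1, 0] = true := by decide +kernel

theorem hs40 : chk 2 es el ws 15 tb s40
  [1, 0, 2, 1, 0, 3, 1, 2, 0, 1, 3, 2, 1, 0] = true := by decide +kernel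

theorem hs41 : chk 2 es el ws 15 tb s41
  [2, 3, 0, 2, 1, 0, 3, 1, 2, 0, 1, 3, 2, 1, 0] = true := by decide +kernel

theorem hs42 : chk 2 es el ws 15 tb s42
  [1, 3, 0, 2, 1, 0, 3, 1, 2, 0, 1, 3, 2, 1, 0] = true := by decide +kernel

theorem hs43 : chk 2 es el ws 15 tb s43
  [3, 2, 1, 0, 3, 1, 2, 0, 1, 3, 2, 1, 0] = true := by decide +kernel

theorem hs44 : chk 2 es el ws 15 tb s44
  [2, 0, 3, 1, 2, 0, 1, 3, 2, 1, 0] = true := by decide +kernel

theorem hs45 : chk 2 es el ws 15 tb s45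
  [3, 2, 0, 1, 3, 2, 1, 0] = true := by decide +kernel

theorem hs46 : chk 2 es el ws 15 tb s46
  [3, 2, 0, 3, 2, 1, 0] = true := by decide +kernel

theorem hs47 : chk 2 es el ws 15 tb s47
  [2, 0, 1, 2, 0, 3, 2, 1, 0] = true := by decide +kernel

end Pool.Agent.Helper49.TF.C0
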