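import Pool.Agent.Helper49.TF.TabC0D

/-!
# Table C0: kernel check, part 9
-/

set_option autoImplicit false
set_option maxRecDepth 100000

namespace Pool.Agent.Helper49.TF.C0

theorem hs57 : chk 2 es el ws 15 tb s57
  [1, 0, 2, 3, 1, 2, 0, 3, 2, 1, 0] = true := by decide +kernel

theorem hs58 : chk 2 es el ws 15 tb s58
  [0, 3, 1, 2, 0, 3, 2, 1, 0] = true := by decide +kernel

theorem hs59 : chk 2 es el ws 15 tb s59
  [1, 0, 3, 2, 1, 0] = true := by decide +kernel

end Pool.Agent.Helper49.TF.C0
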