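import Pool.Agent.Helper49.TF.Glue
import Pool.Agent.Helper49.TF.TabC0P0
import Pool.Agent.Helper49.TF.TabC0P1
import Pool.Agent.Helper49.TF.TabC0P2
import Pool.Agent.Helper49.TF.TabC0P3
import Pool.Agent.Helper49.TF.TabC0P4
import Pool.Agent.Helper49.TF.TabC0P5
import Pool.Agent.Helper49.TF.TabC0P6
import Pool.Agent.Helper49.TF.TabC0P7
import Pool.Agent.Helper49.TF.TabC0P8
import Pool.Agent.Helper49.TF.TabC0P9

/-!
# Table C0: assembly of the kernel checks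
-/

set_option autoImplicit false
set_option maxRecDepth 100000

namespace Pool.Agent.Helper49.TF.C0

theorem hu0 : chk 2 es el ws 15 tb u0
  [1, 3, 2, 0, 3, 1, 2, 3, 0, 2, 1, 0] = true :=
  gn _ _ _ _ _ _ s5 s6 _ 2 0 rfl rfl (by decide) (by decide) hs5 hs6

theorem hu1 : chk 2 es el ws 15 tb u1
  [3, 2, 0, 3, 1, 2, 3, 0, 2, 1, 0] = true :=
  gn _ _ _ _ _ _ s4 u0 _ 0 1 rfl rfl (by decide) (by decide) hs4 hu0

theorem hu2 : chk 2 es el ws 15 tb u2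
  [2, 0, 3, 1, 2, 3, 0, 2, 1, 0] = true :=
  gn _ _ _ _ _ _ u1 s7 _ 3 1 rfl rfl (by decide) (by decide) hu1 hs7

theorem hu3 : chk 2 es el ws 15 tb u3
  [0, 3, 1, 2, 3, 0, 2, 1, 0] = true :=
  gn _ _ _ _ _ _ s3 u2 _ 1 2 rfl rfl (by decide) (by decide) hs3 hu2

theorem hu4 : chk 2 es el ws 15 tb u4
  [3, 1, 2, 3, 0, 2, 1, 0] = true :=
  gn _ _ _ _ _ _ s2 u3 _ 2 0 rfl rfl (by decide) (by decide) hs2 hu3

theorem hu5 : chk 2 es el ws 15 tb u5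
  [3, 2, 0, 1, 2, 3, 0, 2, 1, 0] = true :=
  gn _ _ _ _ _ _ s9 s10 _ 0 1 rfl rfl (by decide) (by decide) hs9 hs10

theorem hu6 : chk 2 es el ws 15 tb u6
  [2, 0, 1, 2, 3, 0, 2, 1, 0] = true :=
  gn _ _ _ _ _ _ s8 u5 _ 1 3 rfl rfl (by decide) (by decide) hs8 hu5

theorem hu7 : chk 2 es el ws 15 tb u7
  [0, 1, 2, 3, 0, 2, 1, 0] = true :=
  gn _ _ _ _ _ _ u6 s11 _ 2 3 rfl rfl (by decide) (by decide) hu6 hs11

theorem hu8 : chk 2 es el ws 15 tb u8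
  [1, 2, 3, 0, 2, 1, 0] = true :=
  gn _ _ _ _ _ _ u4 u7 _ 3 0 rfl rfl (by decide) (by decide) hu4 hu7

theorem hu9 : chk 2 es el ws 15 tb u9
  [2, 3, 0, 2, 1, 0] = true :=
  gn _ _ _ _ _ _ s1 u8 _ 0 1 rfl rfl (by decide) (by decide) hs1 hu8

theorem hu10 : chk 2 es el ws 15 tb u10
  [3, 1, 2, 0, 1, 3, 0, 2, 1, 0] = true :=
  gn _ _ _ _ _ _ s14 s15 _ 2 0 rfl rfl (by decide) (by decide) hs14 hs15

theorem hu11 : chk 2 es el ws 15 tb u11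
  [1, 2, 0, 1, 3, 0, 2, 1, 0] = true :=
  gn _ _ _ _ _ _ s13 u10 _ 0 3 rfl rfl (by decide) (by decide) hs13 hu10

theorem hu12 : chk 2 es el ws 15 tb u12
  [2, 3, 1, 0, 3, 2, 0, 1, 3, 0, 2, 1, 0] = true :=
  gn _ _ _ _ _ _ s18 s19 _ 1 0 rfl rfl (by decide) (by decide) hs18 hs19

theorem hu13 : chk 2 es el ws 15 tb u13
  [3, 1, 0, 3, 2, 0, 1, 3, 0, 2, 1, 0] = true :=
  gn _ _ _ _ _ _ s17 u12 _ 0 2 rfl rfl (by decide) (by decide) hs17 hu12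

theorem hu14 : chk 2 es el ws 15 tb u14
  [1, 0, 3, 2, 0, 1, 3, 0, 2, 1, 0] = true :=
  gn _ _ _ _ _ _ u13 s20 _ 3 2 rfl rfl (by decide) (by decide) hu13 hs20

theorem hu15 : chk 2 es el ws 15 tb u15
  [0, 3, 2, 0, 1, 3, 0, 2, 1, 0] = true :=
  gn _ _ _ _ _ _ s16 u14 _ 2 1 rfl rfl (by decide) (by decide) hs16 hu14

theorem hu16 : chk 2 es el ws 15 tb u16
  [3, 2, 0, 1, 3, 0, 2, 1, 0] = true :=
  gn _ _ _ _ _ _ u15 s21 _ 0 1 rfl rfl (by decide) (by decide) hu15 hs21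

theorem hu17 : chk 2 es el ws 15 tb u17
  [2, 0, 1, 3, 0, 2, 1, 0] = true :=
  gn _ _ _ _ _ _ u11 u16 _ 1 3 rfl rfl (by decide) (by decide) hu11 hu16

theorem hu18 : chk 2 es el ws 15 tb u18
  [0, 1, 3, 0, 2, 1, 0] = true :=
  gn _ _ _ _ _ _ s12 u17 _ 3 2 rfl rfl (by decide) (by decide) hs12 hu17

theorem hu19 : chk 2 es el ws 15 tb u19
  [1, 3, 0, 2, 1, 0] = true :=
  gn _ _ _ _ _ _ u18 s22 _ 0 2 rfl rfl (by decide) (by decide) hu18 hs22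

theorem hu20 : chk 2 es el ws 15 tb u20
  [3, 0, 2, 1, 0] = true :=
  gn _ _ _ _ _ _ u9 u19 _ 2 1 rfl rfl (by decide) (by decide) hu9 hu19

theorem hu21 : chk 2 es el ws 15 tb u21
  [0, 2, 1, 0] = true :=
  gn _ _ _ _ _ _ s0 u20 _ 1 3 rfl rfl (by decide) (by decide) hs0 hu20

theorem hu22 : chk 2 es el ws 15 tb u22
  [2, 0, 3, 1, 0, 2, 3, 0, 1, 3, 2, 1, 0] = true :=
  gn _ _ _ _ _ _ s28 s29 _ 3 1 rfl rfl (by decide) (by decide) hs28 hs29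

theorem hu23 : chk 2 es el ws 15 tb u23
  [0, 3, 1, 0, 2, 3, 0, 1, 3, 2, 1, 0] = true :=
  gn _ _ _ _ _ _ s27 u22 _ 1 2 rfl rfl (by decide) (by decide) hs27 hu22

theorem hu24 : chk 2 es el ws 15 tb u24
  [3, 1, 0, 2, 3, 0, 1, 3, 2, 1, 0] = true :=
  gn _ _ _ _ _ _ u23 s30 _ 0 2 rfl rfl (by decide) (by decide) hu23 hs30

theorem hu25 : chk 2 es el ws 15 tb u25
  [1, 0, 2, 3, 0, 1, 3, 2, 1, 0] = true :=
  gn _ _ _ _ _ _ s26 u24 _ 2 3 rfl rfl (by decide) (by decide) hs26 hu24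

theorem hu26 : chk 2 es el ws 15 tb u26
  [0, 2, 3, 0, 1, 3, 2, 1, 0] = true :=
  gn _ _ _ _ _ _ s25 u25 _ 3 1 rfl rfl (by decide) (by decide) hs25 hu25

theorem hu27 : chk 2 es el ws 15 tb u27
  [0, 3, 1, 2, 3, 0, 1, 3, 2, 1, 0] = true :=
  gn _ _ _ _ _ _ s32 s33 _ 1 2 rfl rfl (by decide) (by decide) hs32 hs33

theorem hu28 : chk 2 es el ws 15 tb u28
  [3, 1, 2, 3, 0, 1, 3, 2, 1, 0] = true :=
  gn _ _ _ _ _ _ s31 u27 _ 2 0 rfl rfl (by decide) (by decide) hs31 hu27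

theorem hu29 : chk 2 es el ws 15 tb u29
  [1, 2, 3, 0, 1, 3, 2, 1, 0] = true :=
  gn _ _ _ _ _ _ u28 s34 _ 3 0 rfl rfl (by decide) (by decide) hu28 hs34

theorem hu30 : chk 2 es el ws 15 tb u30
  [2, 3, 0, 1, 3, 2, 1, 0] = true :=
  gn _ _ _ _ _ _ u26 u29 _ 0 1 rfl rfl (by decide) (by decide) hu26 hu29

theorem hu31 : chk 2 es el ws 15 tb u31
  [3, 0, 1, 3, 2, 1, 0] = true :=
  gn _ _ _ _ _ _ s24 u30 _ 1 2 rfl rfl (by decide) (by decide) hs24 hu30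

theorem hu32 : chk 2 es el ws 15 tb u32
  [0, 2, 3, 1, 2, 0, 1, 3, 2, 1, 0] = true :=
  gn _ _ _ _ _ _ s37 s38 _ 3 1 rfl rfl (by decide) (by decide) hs37 hs38

theorem hu33 : chk 2 es el ws 15 tb u33
  [2, 3, 1, 2, 0, 1, 3, 2, 1, 0] = true :=
  gn _ _ _ _ _ _ s36 u32 _ 1 0 rfl rfl (by decide) (by decide) hs36 hu32

theorem hu34 : chk 2 es el ws 15 tb u34
  [3, 0, 2, 1, 0, 3, 1, 2, 0, 1, 3, 2, 1, 0] = true :=
  gn _ _ _ _ _ _ s41 s42 _ 2 1 rfl rfl (by decide) (by decide) hs41 hs42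

theorem hu35 : chk 2 es el ws 15 tb u35
  [0, 2, 1, 0, 3, 1, 2, 0, 1, 3, 2, 1, 0] = true :=
  gn _ _ _ _ _ _ s40 u34 _ 1 3 rfl rfl (by decide) (by decide) hs40 hu34

theorem hu36 : chk 2 es el ws 15 tb u36
  [2, 1, 0, 3, 1, 2, 0, 1, 3, 2, 1, 0] = true :=
  gn _ _ _ _ _ _ u35 s43 _ 0 3 rfl rfl (by decide) (by decide) hu35 hs43

theorem hu37 : chk 2 es el ws 15 tb u37
  [1, 0, 3, 1, 2, 0, 1, 3, 2, 1, 0] = true :=
  gn _ _ _ _ _ _ s39 u36 _ 3 2 rfl rfl (by decide) (by decide) hs39 hu36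

theorem hu38 : chk 2 es el ws 15 tb u38
  [0, 3, 1, 2, 0, 1, 3, 2, 1, 0] = true :=
  gn _ _ _ _ _ _ u37 s44 _ 1 2 rfl rfl (by decide) (by decide) hu37 hs44

theorem hu39 : chk 2 es el ws 15 tb u39
  [3, 1, 2, 0, 1, 3, 2, 1, 0] = true :=
  gn _ _ _ _ _ _ u33 u38 _ 2 0 rfl rfl (by decide) (by decide) hu33 hu38

theorem hu40 : chk 2 es el ws 15 tb u40
  [1, 2, 0, 1, 3, 2, 1, 0] = true :=
  gn _ _ _ _ _ _ s35 u39 _ 0 3 rfl rfl (by decide) (by decide) hs35 hu39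

theorem hu41 : chk 2 es el ws 15 tb u41
  [2, 0, 1, 3, 2, 1, 0] = true :=
  gn _ _ _ _ _ _ u40 s45 _ 1 3 rfl rfl (by decide) (by decide) hu40 hs45

theorem hu42 : chk 2 es el ws 15 tb u42
  [0, 1, 3, 2, 1, 0] = true :=
  gn _ _ _ _ _ _ u31 u41 _ 3 2 rfl rfl (by decide) (by decide) hu31 hu41

theorem hu43 : chk 2 es el ws 15 tb u43
  [1, 3, 2, 1, 0] = true :=
  gn _ _ _ _ _ _ s23 u42 _ 2 0 rfl rfl (by decide) (by decide) hs23 hu42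

theorem hu44 : chk 2 es el ws 15 tb u44
  [1, 0, 2, 3, 0, 1, 2, 0, 3, 2, 1, 0] = true :=
  gn _ _ _ _ _ _ s50 s51 _ 2 3 rfl rfl (by decide) (by decide) hs50 hs51

theorem hu45 : chk 2 es el ws 15 tb u45
  [0, 2, 3, 0, 1, 2, 0, 3, 2, 1, 0] = true :=
  gn _ _ _ _ _ _ s49 u44 _ 3 1 rfl rfl (by decide) (by decide) hs49 hu44

theorem hu46 : chk 2 es el ws 15 tb u46
  [2, 3, 0, 1, 2, 0, 3, 2, 1, 0] = true :=
  gn _ _ _ _ _ _ u45 s52 _ 0 1 rfl rfl (by decide) (by decide) hu45 hs52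

theorem hu47 : chk 2 es el ws 15 tb u47
  [3, 0, 1, 2, 0, 3, 2, 1, 0] = true :=
  gn _ _ _ _ _ _ s48 u46 _ 1 2 rfl rfl (by decide) (by decide) hs48 hu46

theorem hu48 : chk 2 es el ws 15 tb u48
  [0, 1, 2, 0, 3, 2, 1, 0] = true :=
  gn _ _ _ _ _ _ s47 u47 _ 2 3 rfl rfl (by decide) (by decide) hs47 hu47

theorem hu49 : chk 2 es el ws 15 tb u49
  [1, 3, 0, 2, 3, 1, 2, 0, 3, 2, 1, 0] = true :=
  gn _ _ _ _ _ _ s55 s56 _ 0 2 rfl rfl (by decide) (by decide) hs55 hs56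

theorem hu50 : chk 2 es el ws 15 tb u50
  [3, 0, 2, 3, 1, 2, 0, 3, 2, 1, 0] = true :=
  gn _ _ _ _ _ _ s54 u49 _ 2 1 rfl rfl (by decide) (by decide) hs54 hu49

theorem hu51 : chk 2 es el ws 15 tb u51
  [0, 2, 3, 1, 2, 0, 3, 2, 1, 0] = true :=
  gn _ _ _ _ _ _ u50 s57 _ 3 1 rfl rfl (by decide) (by decide) hu50 hs57

theorem hu52 : chk 2 es el ws 15 tb u52
  [2, 3, 1, 2, 0, 3, 2, 1, 0] = true :=
  gn _ _ _ _ _ _ s53 u51 _ 1 0 rfl rfl (by decide) (by decide) hs53 hu51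

theorem hu53 : chk 2 es el ws 15 tb u53
  [3, 1, 2, 0, 3, 2, 1, 0] = true :=
  gn _ _ _ _ _ _ u52 s58 _ 2 0 rfl rfl (by decide) (by decide) hu52 hs58

theorem hu54 : chk 2 es el ws 15 tb u54
  [1, 2, 0, 3, 2, 1, 0] = true :=
  gn _ _ _ _ _ _ u48 u53 _ 0 3 rfl rfl (by decide) (by decide) hu48 hu53

theorem hu55 : chk 2 es el ws 15 tb u55
  [2, 0, 3, 2, 1, 0] = true :=
  gn _ _ _ _ _ _ s46 u54 _ 3 1 rfl rfl (by decide) (by decide) hs46 hu54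

theorem hu56 : chk 2 es el ws 15 tb u56
  [0, 3, 2, 1, 0] = true :=
  gn _ _ _ _ _ _ u55 s59 _ 2 1 rfl rfl (by decide) (by decide) hu55 hs59

theorem hu57 : chk 2 es el ws 15 tb u57
  [3, 2, 1, 0] = true :=
  gn _ _ _ _ _ _ u43 u56 _ 1 0 rfl rfl (by decide) (by decide) hu43 hu56

theorem hu58 : chk 2 es el ws 15 tb u58
  [2, 1, 0] = true :=
  gn _ _ _ _ _ _ u21 u57 _ 0 3 rfl rfl (by decide) (by decide) hu21 hu57

theorem ok : chk 2 es el ws 15 tb tb (st 2) = true := hu58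

end Pool.Agent.Helper49.TF.C0
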