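import Pool.Agent.Helper49.TF.TabF4D

/-!
# Table F4: kernel check, part 3
-/

set_option autoImplicit false
set_option maxRecDepth 100000

namespace Pool.Agent.Helper49.TF.F4

theorem hs16 : chk 2 es el ws 0 tb s16
  [0, 1, 2, 0, 3, 2, 1, 0] = true := by decide +kernel

theorem hs17 : chk 2 es el ws 0 tb s17
  [3, 1, 2, 0, 3, 2, 1, 0] = true := by decide +kernel

theorem hs18 : chk 2 es el ws 0 tb s18
  [1, 0, 3, 2, 1, 0] = true := by decide +kernel

end Pool.Agent.Helper49.TF.F4
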