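import Pool.Agent.Helper49.TF.Glue
import Pool.Agent.Helper49.TF.TabF4P0
import Pool.Agent.Helper49.TF.TabF4P1
import Pool.Agent.Helper49.TF.TabF4P2
import Pool.Agent.Helper49.TF.TabF4P3

/-!
# Table F4: assembly of the kernel checks
-/

set_option autoImplicit false
set_option maxRecDepth 100000

namespace Pool.Agent.Helper49.TF.F4

theorem hu0 : chk 2 es el ws 0 tb u0
  [0, 3, 1, 2, 3, 0, 2, 1, 0] = true :=
  gn _ _ _ _ _ _ s3 s4 _ 1 2 rfl rfl (by decide) (by decide) hs3 hs4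

theorem hu1 : chk 2 es el ws 0 tb u1
  [3, 1, 2, 3, 0, 2, 1, 0] = true :=
  gn _ _ _ _ _ _ s2 u0 _ 2 0 rfl rfl (by decide) (by decide) hs2 hu0

theorem hu2 : chk 2 es el ws 0 tb u2
  [1, 2, 3, 0, 2, 1, 0] = true :=
  gn _ _ _ _ _ _ u1 s5 _ 3 0 rfl rfl (by decide) (by decide) hu1 hs5

theorem hu3 : chk 2 es el ws 0 tb u3
  [2, 3, 0, 2, 1, 0] = true :=
  gn _ _ _ _ _ _ s1 u2 _ 0 1 rfl rfl (by decide) (by decide) hs1 hu2

theorem hu4 : chk 2 es el ws 0 tb u4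
  [2, 0, 1, 3, 0, 2, 1, 0] = true :=
  gn _ _ _ _ _ _ s7 s8 _ 1 3 rfl rfl (by decide) (by decide) hs7 hs8

theorem hu5 : chk 2 es el ws 0 tb u5
  [0, 1, 3, 0, 2, 1, 0] = true :=
  gn _ _ _ _ _ _ s6 u4 _ 3 2 rfl rfl (by decide) (by decide) hs6 hu4

theorem hu6 : chk 2 es el ws 0 tb u6
  [1, 3, 0, 2, 1, 0] = true :=
  gn _ _ _ _ _ _ u5 s9 _ 0 2 rfl rfl (by decide) (by decide) hu5 hs9

theorem hu7 : chk 2 es el ws 0 tb u7
  [3, 0, 2, 1, 0] = true :=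
  gn _ _ _ _ _ _ u3 u6 _ 2 1 rfl rfl (by decide) (by decide) hu3 hu6

theorem hu8 : chk 2 es el ws 0 tb u8
  [0, 2, 1, 0] = true :=
  gn _ _ _ _ _ _ s0 u7 _ 1 3 rfl rfl (by decide) (by decide) hs0 hu7

theorem hu9 : chk 2 es el ws 0 tb u9
  [2, 3, 0, 1, 3, 2, 1, 0] = true :=
  gn _ _ _ _ _ _ s12 s13 _ 0 1 rfl rfl (by decide) (by decide) hs12 hs13

theorem hu10 : chk 2 es el ws 0 tb u10
  [3, 0, 1, 3, 2, 1, 0] = true :=
  gn _ _ _ _ _ _ s11 u9 _ 1 2 rfl rfl (by decide) (by decide) hs11 hu9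

theorem hu11 : chk 2 es el ws 0 tb u11
  [0, 1, 3, 2, 1, 0] = true :=
  gn _ _ _ _ _ _ u10 s14 _ 3 2 rfl rfl (by decide) (by decide) hu10 hs14

theorem hu12 : chk 2 es el ws 0 tb u12
  [1, 3, 2, 1, 0] = true :=
  gn _ _ _ _ _ _ s10 u11 _ 2 0 rfl rfl (by decide) (by decide) hs10 hu11

theorem hu13 : chk 2 es el ws 0 tb u13
  [1, 2, 0, 3, 2, 1, 0] = true :=
  gn _ _ _ _ _ _ s16 s17 _ 0 3 rfl rfl (by decide) (by decide) hs16 hs17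

theorem hu14 : chk 2 es el ws 0 tb u14
  [2, 0, 3, 2, 1, 0] = true :=
  gn _ _ _ _ _ _ s15 u13 _ 3 1 rfl rfl (by decide) (by decide) hs15 hu13

theorem hu15 : chk 2 es el ws 0 tb u15
  [0, 3, 2, 1, 0] = true :=
  gn _ _ _ _ _ _ u14 s18 _ 2 1 rfl rfl (by decide) (by decide) hu14 hs18

theorem hu16 : chk 2 es el ws 0 tb u16
  [3, 2, 1, 0] = true :=
  gn _ _ _ _ _ _ u12 u15 _ 1 0 rfl rfl (by decide) (by decide) hu12 hu15

theorem hu17 : chk 2 es el ws 0 tb u17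
  [2, 1, 0] = true :=
  gn _ _ _ _ _ _ u8 u16 _ 0 3 rfl rfl (by decide) (by decide) hu8 hu16

theorem ok : chk 2 es el ws 0 tb tb (st 2) = true := hu17

end Pool.Agent.Helper49.TF.F4
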