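import Pool.Agent.Helper49.TF.Gen
import Pool.Agent.Helper49.TF.PkD
import Pool.Agent.Helper49.TF.TabC0
import Pool.Agent.Helper49.TF.TabF4

/-!
# Four letters, `κ ≤ 1/2`
-/

set_option autoImplicit false

namespace Pool.Agent.Helper49.TF

open Pool.Agent.Helper25.PF

/-- No leaf. -/
def nl : T → Bool
  | .l _ _ => false
  | .b _ => true
  | .n t0 t1 => nl t0 && nl t1

theorem lk_none (t : T) (h : nl t = true) : ∀ v w : List ℕ, lk t v w = none := by
  induction t with
  | l f d => simp [nl] at h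
  | b p => intro v w; rfl
  | n t0 t1 ih0 ih1 =>
    simp only [nl, Bool.and_eq_true] at h
    intro v w
    cases v with
    | nil => rfl
    | cons a v =>
      cases w with
      | nil => rfl
      | cons c w =>
        rw [lk_n, ih0 h.1, ih1 h.2]
        cases Nat.beq a c <;> rfl

/-- A table without leaves bounds the length of the words. -/
theorem len_of (hsnd : S_SND) (q P : ℕ) (es el : List ℕ) (tb : T) (e : ℕ → ℕ) (hqP : q < P)
    (hq5 : q + 2 ≤ 5) (hq : 1 ≤ q) (h1 : es.length = P - 1) (h2 : el.length = P - 1)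
    (h3 : ∀ p, 1 ≤ p → p < P → el.getD (p - 1) 0 ≤ e p ∧ e p ≤ es.getD (p - 1) 0)
    (h4 : ∀ p, p ≤ q → e p = 0) (hchk : chk q es el [] 0 tb tb (st q) = true) (hnl : nl tb = true)
    (v : List ℕ) (hv : KF e v) (hv' : ∀ c ∈ v, c < q + 2) : v.length < dep tb + q + 1 := by
  by_contra hcon
  push Not at hcon
  have hs : KFs e P v := fun p hp _ s => (KF_iff_sp e v).1 hv s p hp
  obtain ⟨f, d, b0, b1, u0, u1, hlook, -⟩ :=
    hsnd q e P es el [] 0 tb hqP hq5 hq h1 h2 h3 h4 hchk v hs hv' hcon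
  rw [look, lk_none tb hnl] at hlook
  simp at hlook

theorem con_of_bound (m : ℕ) (κ : ℝ) (B : ℕ)
    (hB : ∀ v : List ℕ, KF (ee κ) v → (∀ c ∈ v, c < m) → v.length < B) : Con m κ := by
  have key : ∀ n : ℕ, ∀ w : List ℕ, B ≤ w.length + n → KF (ee κ) w → (∀ c ∈ w, c < m) →
      ∃ u, KF (ee κ) u ∧ (∀ c ∈ u, c < m) ∧ w <:+ u ∧ ∀ a, a < m → ¬ KF (ee κ) (a :: u) := by
    intro n
    induction n with
    | zero =>
      intro w hw h1 h2
      have := hB w h1 h2
      omega
    | succ n ih =>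
      intro w hw h1 h2
      by_cases hex : ∃ a, a < m ∧ KF (ee κ) (a :: w)
      · obtain ⟨a, ha, hk⟩ := hex
        obtain ⟨u, hu1, hu2, hu3, hu4⟩ := ih (a :: w) (by rw [List.length_cons]; omega) hk (by
          intro c hc
          rcases List.mem_cons.1 hc with rfl | hc
          · exact ha
          · exact h2 c hc)
        exact ⟨u, hu1, hu2, (List.suffix_cons a w).trans hu3, hu4⟩
      · push Not at hex
        exact ⟨w, h1, h2, List.suffix_rfl, hex⟩
  intro w h1 h2
  exact key B w (by omega) h1 h2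

theorem quat0 (hsnd : S_SND) (κ : ℝ) (h1 : 0 < κ) (h2 : κ ≤ 2 / 5) : Con 4 κ := by
  have he : ∀ p, 1 ≤ p → ee κ p ≤ (2 * p + 5 - 1) / 5 - 1 := by
    intro p hp
    by_contra hcon
    have h3 : (2 * p + 5 - 1) / 5 ≤ ee κ p := by omega
    rw [le_ee_iff h1 hp] at h3
    have h4 : 2 * p ≤ 5 * ((2 * p + 5 - 1) / 5) := by omega
    have h5 : (2 : ℝ) * p ≤ 5 * (((2 * p + 5 - 1) / 5 : ℕ) : ℝ) := by exact_mod_cast h4
    have hp' : (1 : ℝ) ≤ p := by exact_mod_cast hp
    nlinarith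
  apply con_of_bound 4 κ (dep F4.tb + 2 + 1)
  intro v hv hv'
  refine len_of hsnd 2 82 F4.es F4.el F4.tb (ee κ) (by norm_num) (by norm_num) (by norm_num)
    (by decide) (by decide) ?_ ?_ F4.ok (by decide +kernel) v hv hv'
  · intro p hp hpP
    have h6 := he p hp
    have h7 : F4.el.getD (p - 1) 0 = 0 := by
      interval_cases p <;> rfl
    have h8 : F4.es.getD (p - 1) 0 = (2 * p + 5 - 1) / 5 - 1 := by
      interval_cases p <;> rfl
    rw [h7, h8]
    exact ⟨Nat.zero_le _, h6⟩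
  · intro p hp
    interval_cases p
    · exact ee_zero κ
    · have := he 1 (by norm_num)
      omega
    · have := he 2 (by norm_num)
      omega

theorem quat1 (hstp : S_STP) (hrng : S_RNG) (hpko : S_PKO) (κ : ℝ) (h1 : (2 : ℝ) / 5 < κ)
    (h2 : κ ≤ (1 : ℝ) / 2) : Con 4 κ := by
  have hp : Pack 23 (fun δ => C0.ws.getD (δ - 1) 0) 15 := packD hpko
  refine con_of hstp hrng 2 56 23 15 2 5 1 2 C0.es C0.el C0.ws C0.tb hp (by norm_num)
    (by norm_num) (by norm_num) (by norm_num) (by norm_num) (by norm_num) (by decide) (by decide)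
    (by norm_num) (by norm_num) (by decide) (by decide) C0.ok κ ?_ ?_
  · push_cast
    linarith [(div_lt_iff₀ (by norm_num : (0 : ℝ) < 5)).1 h1]
  · push_cast
    linarith [(le_div_iff₀ (by norm_num : (0 : ℝ) < 2)).1 h2]

theorem quat (hstp : S_STP) (hrng : S_RNG) (hpko : S_PKO) (hsnd : S_SND) (κ : ℝ) (h1 : 0 < κ)
    (h2 : κ ≤ 1 / 2) : Con 4 κ := by
  rcases le_or_gt κ (2 / 5) with h | h
  · exact quat0 hsnd κ h1 h
  · exact quat1 hstp hrng hpko κ (by norm_num; linarith) (by norm_num; linarith)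

end Pool.Agent.Helper49.TF
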