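import Pool.Agent.Helper49.TF.Defs

/-!
# Statements of the modules (project TF: maximal power-free words over three letters)
-/

set_option autoImplicit false

namespace Pool.Agent.Helper49.TF

open Pool.Agent.Helper25.PF

/-- MODULE CLQ (file M_CLQ.lean, theorem p_CLQ : S_CLQ). The intervals of one clique are disjoint.
PROOF. Let `Ev'` be the events with `n ≤ X` and `X + d < 2 n`, and for `t` in `Ev'` put
`J t = Finset.Ico (cs Z (n t) (d t) t) (ce Z (n t) t)`; its card is `ce - cs`, which is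
`cl X Z (n t) (d t)`. All `J t` lie in `range (T + X)` (`ce ≤ t + n ≤ T + X`). For `t < s` in `Ev'`
we have `ce Z (n t) t ≤ cs Z (n s) (d s) s`: put `g = s - t`.
If `n t ≤ n s`: `n s ≤ X` and `X + d t < 2 n t` exclude the first alternative of the pair rule, so
`n t ≤ g + d s`, and `ce ≤ t + n t ≤ s + d s ≤ cs`. If `n s < n t`: `2 n s ≤ g + n t + d s`; if
`Z ≤ 2 n t`, `Z ≤ 2 n s`: `ce = t + Z - n t ≤ t + 2 n s - n t ≤ s + d s`; if `Z ≤ 2 n t`,
`2 n s < Z`: `ce = t + Z - n t ≤ s + (Z - 2 n s) + d s`; if `2 n t < Z` then also `2 n s < Z` and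
`cs ≥ t + Z - n t ≥ t + n t = ce`. All cases: omega after unfolding. So the `J t` are pairwise
disjoint and the sum of their cards is the card of their union, at most `T + X`
(Finset.card_biUnion). Events outside `Ev'` contribute `0`. -/
def S_CLQ : Prop :=
  ∀ (T X Z : ℕ) (Ev : Finset ℕ) (n d : ℕ → ℕ), Ev ⊆ Finset.range T → PairRule Ev n d →
    ∑ t ∈ Ev, cl X Z (n t) (d t) ≤ T + X

/-- MODULE PKO (file M_PKO.lean, theorem p_PKO : S_CLQ → S_PKO). From a covering inequality to
`Pack`. PROOF. Let `I` be `Nat.log 2 (T + L) + 1`, so that `T + L < 2 ^ I`, and every level `n` of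
an event (`1 ≤ N0 ≤ n ≤ T + L`) lies in `[N0 2^i, N0 2^(i+1))` for some `i < I` (take `i = Nat.log 2
(n / N0)`). Put `W t = ∑ i in range (I + 1), 2 ^ (I - i) * (c1 * cl (X1 * 2^i) (Z1 * 2^i) n d + c2 *
cl (X2 * 2^i) (Z2 * 2^i) n d)`. The terms `i` and `i + 1` alone give, by the hypothesis with
`s = 2 ^ i`, `W t ≥ 2 ^ (I - i - 1) * (2 * w d * 2 ^ i) = 2 ^ I * w (d t)`. Summing over `t` and
using S_CLQ for every `i` and both cliques: `2 ^ I * ∑ w ≤ ∑ i in range (I+1), 2 ^ (I - i) * (c1 *
(T + X1 * 2^i) + c2 * (T + X2 * 2^i)) ≤ 2 ^ (I + 1) * (c1 + c2) * T + (I + 1) * 2 ^ I * (c1 * X1 +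
c2 * X2)` (geometric sum). Divide by `2 ^ I`: `∑ w ≤ 2 (c1 + c2) T + (I + 1) (c1 X1 + c2 X2)`, and
`2 (c1 + c2) + 1 ≤ lam`, `I + 1 ≤ 2 (Nat.log 2 (T + L) + 1)`; take `C = 2 (c1 X1 + c2 X2)`. -/
def S_PKO : Prop :=
  ∀ (N0 X1 Z1 c1 X2 Z2 c2 lam : ℕ) (w : ℕ → ℕ), 1 ≤ N0 → 2 * (c1 + c2) + 1 ≤ lam →
    (∀ s n d : ℕ, 1 ≤ s → N0 * s ≤ n → n < 2 * (N0 * s) → 1 ≤ d →
      2 * (w d) * s ≤ 2 * c1 * cl (X1 * s) (Z1 * s) n d + 2 * c2 * cl (X2 * s) (Z2 * s) n d +
        c1 * cl (X1 * (2 * s)) (Z1 * (2 * s)) n d + c2 * cl (X2 * (2 * s)) (Z2 * (2 * s)) n d) →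
    Pack N0 w lam

/-- Rewards, small case. -/
def wA : List ℕ := [61, 52, 52, 48, 44, 40, 36, 28, 24, 16, 12]

/-- Rewards, middle case. -/
def wB : List ℕ := [127, 100, 95, 84, 77, 63, 56, 42, 35, 21]

/-- Rewards, large case. -/
def wC : List ℕ := [98, 90, 88, 80, 76, 68, 64, 54, 48, 36, 30]

/-- MODULE PKI (file M_PKI.lean, theorem p_PKI : S_PKO → S_PKI). Three instances of S_PKO:
A: `N0 = 17`, `(X1, Z1, c1) = (22, 35, 4)`, `(X2, Z2, c2) = (32, 45, 3)`;
B: `N0 = 18`, `(X1, Z1, c1) = (25, 35, 7)`, `(X2, Z2, c2) = (34, 48, 5)`;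
C: `N0 = 19`, `(X1, Z1, c1) = (26, 39, 6)`, `(X2, Z2, c2) = (36, 52, 4)`.
The covering inequality is linear in `s`, `n`, `d` on pieces: for `d` above the length of the list
the left side is `0`; for each of the finitely many other `d` unfold `cl`, split all conditions,
omega (checked numerically for all `s ≤ 200`). -/
def S_PKI : Prop :=
  Pack 17 (fun d => wA.getD (d - 1) 0) 15 ∧ Pack 18 (fun d => wB.getD (d - 1) 0) 25 ∧
    Pack 19 (fun d => wC.getD (d - 1) 0) 21

/-- MODULE CHN (file M_CHN.lean, theorem p_CHN : S_CHN). A world of words in which the potential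
`F` grows by `lam` at each step up to rewards is impossible.
PROOF. Choose `v 0` in `E` and, by the last hypothesis, `v (t + 1) = a t :: v t` in `E`, rewards
`r t`, and for `r t ≠ 0` the data `p t`, `δ t`. Let `Ev = {t < T | r t ≠ 0}`, `n t = ee κ (p t) + 1`,
`d t = δ t`. PAIR RULE for `t < s` in `Ev`, `g = s - t`, `p = p t`, `q = p s`: `v t` is
`(v s).drop g`. Put `m = sp (v s) q`, so `n s ≤ m + d s`. If `m ≤ g`: `n s ≤ g + d s`, both parts
follow. If `g < m`: `sp (v t) q ≥ m - g` (le_sp_iff and drop), and `q ≠ p`, since otherwise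
`sp (v (t+1)) p ≥ m - (g - 1) ≥ 1`, but it is `0`. Let `k = min (sp (v t) p) (m - g)`. If `p < q`:
`k ≤ ee κ (q - p)` (sp_gap with KF) `≤ ee κ q - ee κ p = n s - n t` (ee_sup); so `n t - d t ≤
n s - n t` or `n s - d s - g ≤ n s - n t`; here `n t ≤ n s` by ee_mono. If `q < p`: `k ≤ ee κ
(p - q) ≤ n t - n s`; the case `sp (v t) p ≤ n t - n s` is impossible, as it gives `n s ≤ d t < N0
≤ ee κ P + 1 ≤ n s`; so `n s - d s - g ≤ n t - n s`, which gives both parts.
`n t ≤ sp (v t) (p t) + d t ≤ length (v t) + N0 ≤ T + (length (v 0) + N0)`. Summing the potential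
inequality over `t < T`: `lam * T ≤ M + ∑ r t ≤ M + ∑ w (d t)`; Pack gives
`∑ w (d t) + T ≤ lam * T + C * (log 2 (T + L) + 1)`, hence `T ≤ M + C * (log 2 (T + L) + 1)` for
all `T` with fixed `M, C, L`: false for large `T`. -/
def S_CHN : Prop :=
  ∀ (κ : ℝ) (P N0 M lam : ℕ) (w : ℕ → ℕ) (E : Set (List ℕ)) (F : List ℕ → ℕ), 0 < κ →
    Pack N0 w lam → N0 ≤ ee κ P + 1 → E.Nonempty → (∀ v ∈ E, KF (ee κ) v) → (∀ v ∈ E, F v ≤ M) →
    (∀ v ∈ E, ∃ a, a :: v ∈ E ∧ ∃ r, F v + lam ≤ F (a :: v) + r ∧
      (r = 0 ∨ ∃ p δ, P ≤ p ∧ 1 ≤ δ ∧ δ < N0 ∧ r ≤ w δ ∧ ee κ p + 1 ≤ sp v p + δ ∧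
        sp (a :: v) p = 0)) → False

/-- MODULE EVT (file M_EVT.lean, theorem p_EVT : S_EVT). A dead end reachable without short
repetitions forces a long match. PROOF. Show by induction on `k` (generalizing the list `z`): if
`z ++ c :: v ∈ E`, `z.length + k = K`, `DP e P N k (z ++ c :: v)`, then the conclusion holds. Write
`u = z ++ c :: v`; it has `z.length + 1` letters after `v`. Case `k = 0`: by `hlf` some `a < N` has
`a :: u ∈ E`; `Sb e P u a` gives (sp_cons) `sp (a :: u) p = sp u p + 1 > e p`, contradiction with KF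
(KF.sp_le). Case `k + 1`: take the letter `c' < N` of DP with `¬ Sb e P u c'`. If `c' :: u ∈ E` use
the induction hypothesis for `c' :: z`. If not, `KF e (c' :: u)` fails (closure of `E`), so by
KF_cons_iff some `p ≥ 1` has `sp (c' :: u) p > e p`; by sp_cons `u[p-1]? = some c'` and `e p ≤ sp u
p`; `p < P` would be `Sb`; so `P ≤ p` and `z.length + 1 ≤ K < e P ≤ e p`. le_sp_iff at index
`z.length`: `u[z.length]? = u[p + z.length]?`, i.e. `some c = v[p-1]?`; and dropping the first
`z.length + 1` letters `e p - (z.length + 1) ≤ sp v p`, hence `e p + 1 ≤ sp v p + (1 + K)`. -/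
def S_EVT : Prop :=
  ∀ (e : ℕ → ℕ) (P N K : ℕ) (v : List ℕ) (c : ℕ) (E : Set (List ℕ)), (∀ a b, a ≤ b → e a ≤ e b) →
    K < e P → 1 ≤ P → (∀ u ∈ E, KF e u) → (∀ u ∈ E, ∃ a, a < N ∧ a :: u ∈ E) →
    (∀ u ∈ E, ∀ a, a < N → KF e (a :: u) → a :: u ∈ E) → c :: v ∈ E → DP e P N K (c :: v) →
    ∃ p, P ≤ p ∧ e p + 1 ≤ sp v p + (1 + K) ∧ v[p - 1]? = some c

/-- MODULE SND (file M_SND.lean, theorem p_SND : S_SND). Soundness of the table check. `es` and
`el` list upper and lower bounds for `e 1, …, e (P-1)`; `N = q + 2` letters. PROOF. Any `q + 1` consecutive letters of `v` are different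
(`e p = 0` for `1 ≤ p ≤ q`, `KFs`). A RENAMING is a map `σ : ℕ → ℕ` that is injective on `{0..q+1}`
with values in `{0..q+1}`; if the first `q + 1` letters of `u` are different and below `q + 2`, then
`ms q u < q + 2` is the missing letter and `ms q (u.map σ) = σ (ms q u)`. Say that `u` is KNOWN for
`v` if `v.take u.length = u.map σ` (letters of `u` below `q + 2`). Facts for known `u`: (1) `fl u c es
u = true` implies `Sb e P v (σ c)`: for some `p` the letter `u[p-1]` is `c` and the first `es_p ≥ e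
p` letters of `u` and `u.drop p` exist and agree (induction over `es` and the second list `u.drop
(p-1)`). (2) `ub u c el u = true` implies `¬ Sb e P v (σ c)` (a difference among the first `el_p ≤ e
p` letters). (3) `look q T0 (c :: u) = some r`
implies `look q T0 (σ c :: v) = some r` (induction on the tree for `lk`: equality tests are
invariant under `σ`, a longer word gives the same). (4) `rep es p r = true` for `r = u.reverse`
contradicts `KFs e P v` (the oldest `p + es_p + 1` letters of `u` have period `p`). Main induction on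
the tree `t` with hypotheses: `r` (oldest first), `q + 1 ≤ r.length`, letters of `r` below `q + 2`,
any `q + 1` consecutive ones different, `r.reverse` known for `v`, `r.length + dep t ≤ v.length`,
`chk q es el ws lam T0 t r = true`, `look q T0 v = lk t (v.drop (r.length - q - 1)) (v.drop r.length)`:
at `.n t0 t1` the next older letter of `v` differs from its `q` younger neighbours, so it is `σ` of
`r.getD q 0` or of `ms q r`; the comparison in `lk` goes to the same child; at `.b` contradiction by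
(4); at `.l f d` the leaf check for `u = r.reverse` (chk_l, lf, fz: the candidates are `c0 = u.getD q
0`, `c1 = ms q u`) gives `Lq` with the flags computed there, since `v.getD q 0 = σ c0`, `ms q v = σ
c1`. Start: `r = st q = [q, …, 1, 0]`, `σ i = v.getD i` for `i ≤ q`, `σ (q+1) = ms q v`, `t = T0`. -/
def S_SND : Prop :=
  ∀ (q : ℕ) (e : ℕ → ℕ) (P : ℕ) (es el ws : List ℕ) (lam : ℕ) (T0 : T), q < P → q + 2 ≤ 5 →
    1 ≤ q → es.length = P - 1 → el.length = P - 1 →
    (∀ p, 1 ≤ p → p < P → el.getD (p - 1) 0 ≤ e p ∧ e p ≤ es.getD (p - 1) 0) →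
    (∀ p, p ≤ q → e p = 0) → chk q es el ws lam T0 T0 (st q) = true →
    ∀ v : List ℕ, KFs e P v → (∀ c ∈ v, c < q + 2) → dep T0 + q + 1 ≤ v.length →
      Lq q e P ws lam T0 v

/-- MODULE STP (file M_STP.lean, theorem p_STP : S_CHN → S_EVT → S_SND → S_STP). A checked table
gives dead ends. PROOF. Suppose not. Let `E` be the set of all `u` with `KF (ee κ) u`, letters below
`q + 2`, `w <:+ u` and `dep T0 + q + 1 ≤ u.length`. Every word `u` with the first three properties
has `a < q + 2` with `a :: u` again such (else `u` is as wanted), so `E` is nonempty and closed under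
such an extension; `KF` implies `KFs` (KF_iff_sp). Let `F v` be the first entry of `look q T0 v` (`0`
for none); it is at most `top T0`. CAND: for `v` with `KFs`, letters below `q + 2`, long, and `c < q
+ 2` with `¬ Sb e P v c`: `c = v.getD q 0` or `c = ms q v` (the other letters are among the last `q`
letters, blocked by a period `p ≤ q`, `e p = 0`). DEAD: for such `v`, `look q T0 v = some (f, d)`, `d
< 50`: `DP e P (q + 2) d v`, by induction on `d` from `Lq`: either both letters are blocked and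
`d = 0`, or `d = d' + 1` with a letter `c` visibly not blocked and `look q T0 (c :: v) = some (_,
d')`; `c :: v` has `KFs` because `¬ Sb` and sp_cons. STEP for `v` in `E`, from `Lq`: `v.getD q 0` and
`ms q v` are the only candidates. If exactly one of them, `a`, has `a :: v ∈ E`: if for the other,
`b`, the `b` flag is false and the `u` flag true, then `b :: v` is not KF because of a match of
period `p ≥ P` with `sp v p ≥ ee κ p` and `v[p-1]? = some b` (KF_cons_iff, sp_cons), so the event `(p,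
1)` with reward `ws.getD 0 0` is available and `sp (a :: v) p = 0`; otherwise reward `0`. If both are
in `E`: both `b` flags are false (a short-blocked letter is not KF); take the letter `a` of the
inequality that holds; if its reward is `ws.getD d' 0`, nonzero, `d'` the entry of the other letter
`c`, whose flag `u` is true, then `d' < ws.length < N0` and `d' < 50`, DEAD gives `DP e P (q + 2) d'
(c :: v)` and EVT (`K = d'`) gives `p` with the event `(p, 1 + d')`; `sp (a :: v) p = 0` since
`v[p-1]? = some c`. Now S_CHN with `w = fun δ => ws.getD (δ - 1) 0` is a contradiction. -/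
def S_STP : Prop :=
  ∀ (κ : ℝ) (q P N0 lam : ℕ) (es el ws : List ℕ) (T0 : T), 0 < κ → 1 ≤ q → q + 2 ≤ 5 → q < P →
    es.length = P - 1 → el.length = P - 1 →
    (∀ p, 1 ≤ p → p < P → el.getD (p - 1) 0 ≤ ee κ p ∧ ee κ p ≤ es.getD (p - 1) 0) → ee κ q = 0 →
    N0 ≤ ee κ P + 1 → ws.length < N0 → ws.length < 50 →
    Pack N0 (fun δ => ws.getD (δ - 1) 0) lam → chk q es el ws lam T0 T0 (st q) = true →
    ∀ w : List ℕ, KF (ee κ) w → (∀ c ∈ w, c < q + 2) →
      ∃ u, KF (ee κ) u ∧ (∀ c ∈ u, c < q + 2) ∧ w <:+ u ∧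
        ∀ a, a < q + 2 → ¬ KF (ee κ) (a :: u)

/-- MODULE RNG (file M_RNG.lean, theorem p_RNG : S_RNG). Bounds for the values of `ee κ` for `κ` in
an interval `(a/b, c/d]`. PROOF. For `1 ≤ p`: `s ≤ ee κ p ↔ s < κ p` (le_ee_iff). `a p / b < κ p`
(floor), so `a p / b ≤ ee κ p`; and `κ p ≤ c p / d ≤ m + 1` for `m = (c p + d - 1) / d - 1`, so not
`m + 1 ≤ ee κ p`. -/
def S_RNG : Prop :=
  ∀ (κ : ℝ) (a b c d : ℕ), 0 < a → 0 < b → 0 < d → (a : ℝ) < κ * b → κ * d ≤ c →
    ∀ p, 1 ≤ p → a * p / b ≤ ee κ p ∧ ee κ p ≤ (c * p + d - 1) / d - 1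

/-- MODULE SML (file M_SML.lean, theorem p_SML : S_SML). Finite languages: over three letters with
`κ ≤ 3/4` words have at most `38` letters (Dejean); over two letters with `κ ≤ 1` at most `3`.
PROOF. For `κ ≤ 3/4`, `ee κ p ≤ ee (3/4) p = (3 p + 3) / 4 - 1`, so it is enough to take `κ = 3/4`.
A search (534 words up to renaming; start with the letters `0, 1`, i.e. `[1, 0]`) by a Bool function
with fuel 40 that extends a word at its head by all letters and stops at a repetition of period at
most 22 (`38 < 22 * 7 / 4`) returns true (decide +kernel); soundness by induction on the fuel and a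
renaming of the letters. Two letters: `e 1 = 0`, `e 2 ≤ 1`, so `x0 ≠ x1 ≠ x2 ≠ x3` and not
(`x0 = x2` and `x1 = x3`), impossible for four letters below 2. -/
def S_SML : Prop :=
  (∀ (κ : ℝ) (u : List ℕ), 0 < κ → κ ≤ 3 / 4 → KF (ee κ) u → (∀ c ∈ u, c < 3) → u.length ≤ 38) ∧
    (∀ (κ : ℝ) (u : List ℕ), 0 < κ → κ ≤ 1 → KF (ee κ) u → (∀ c ∈ u, c < 2) → u.length ≤ 3)

/-- MODULE FIN (file M_FIN.lean, theorem p_FIN : S_SML → S_FIN). Assembly for at most three
letters. The hypothesis is the case of three letters and `3/4 < κ ≤ 1` (from the tables). PROOF.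
Let `e = ee (k - 1)`. If `k ≤ 1` then `k = 1` and every nonempty word has exponent at least `1`, so
`w = []` and `u = []` works. If `1 < k`: `powerFree_iff`. Put the letters of `α` in bijection with
`Fin m`, `m ≤ 3`, and work with reversed words of natural numbers below `m` (KF is invariant under
reversal, KF_reverse_iff, and under injective maps of the letters). If `m = 3` and `k > 7/4` use the
hypothesis. Otherwise the lengths of all KF words are bounded (S_SML; `m ≤ 1` is a special case of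
two letters): take a longest KF word with suffix `w`. In all cases there is a KF word `u` with `w`
as a suffix (reversed words) and no letter `a` with `a :: u` KF; back in `α`: `w <+: u`, no `u ++
[b]` power-free, and so `a :: (u ++ [b])` is not power-free either (KF.of_infix). -/
def S_FIN : Prop :=
  (∀ (κ : ℝ), 3 / 4 < κ → κ ≤ 1 → ∀ w : List ℕ, KF (ee κ) w → (∀ c ∈ w, c < 3) →
      ∃ u, KF (ee κ) u ∧ (∀ c ∈ u, c < 3) ∧ w <:+ u ∧ ∀ a, a < 3 → ¬ KF (ee κ) (a :: u)) →
    ∀ (α : Type) [Fintype α] (k : ℝ), Fintype.card α ≤ 3 → 1 ≤ k → k ≤ 2 →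
      ∀ w : List α, PowerFree k w →
        ∃ u : List α, MaximalPowerFree k u ∧ w <+: u ∧ ∀ b : α, ¬ PowerFree k (u ++ [b])

end Pool.Agent.Helper49.TF
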