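import Pool.Agent.Helper49.TF.Glue
import Pool.Agent.Helper49.TF.TabB0P0
import Pool.Agent.Helper49.TF.TabB0P1
import Pool.Agent.Helper49.TF.TabB0P2
import Pool.Agent.Helper49.TF.TabB0P3

/-!
# Table B0: assembly of the kernel checks
-/

set_option autoImplicit false
set_option maxRecDepth 100000

namespace Pool.Agent.Helper49.TF.B0

theorem hu0 : chk 1 es el ws 15 tb u0
  [1, 2, 0, 1, 0] = true :=
  gn _ _ _ _ _ _ s2 s3 _ 2 0 rfl rfl (by decide) (by decide) hs2 hs3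

theorem hu1 : chk 1 es el ws 15 tb u1
  [2, 0, 1, 0] = true :=
  gn _ _ _ _ _ _ s1 u0 _ 0 1 rfl rfl (by decide) (by decide) hs1 hu0

theorem hu2 : chk 1 es el ws 15 tb u2
  [0, 1, 0] = true :=
  gn _ _ _ _ _ _ s0 u1 _ 1 2 rfl rfl (by decide) (by decide) hs0 hu1

theorem hu3 : chk 1 es el ws 15 tb u3
  [2, 0, 1, 2, 1, 0] = true :=
  gn _ _ _ _ _ _ s6 s7 _ 0 1 rfl rfl (by decide) (by decide) hs6 hs7

theorem hu4 : chk 1 es el ws 15 tb u4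
  [0, 1, 2, 1, 0] = true :=
  gn _ _ _ _ _ _ s5 u3 _ 1 2 rfl rfl (by decide) (by decide) hs5 hu3

theorem hu5 : chk 1 es el ws 15 tb u5
  [1, 2, 1, 0] = true :=
  gn _ _ _ _ _ _ s4 u4 _ 2 0 rfl rfl (by decide) (by decide) hs4 hu4

theorem hu6 : chk 1 es el ws 15 tb u6
  [1, 2, 0, 2, 1, 0] = true :=
  gn _ _ _ _ _ _ s9 s10 _ 2 0 rfl rfl (by decide) (by decide) hs9 hs10

theorem hu7 : chk 1 es el ws 15 tb u7
  [2, 0, 2, 1, 0] = true :=
  gn _ _ _ _ _ _ s8 u6 _ 0 1 rfl rfl (by decide) (by decide) hs8 hu6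

theorem hu8 : chk 1 es el ws 15 tb u8
  [0, 2, 1, 0] = true :=
  gn _ _ _ _ _ _ u7 s11 _ 2 1 rfl rfl (by decide) (by decide) hu7 hs11

theorem hu9 : chk 1 es el ws 15 tb u9
  [2, 1, 0] = true :=
  gn _ _ _ _ _ _ u5 u8 _ 1 0 rfl rfl (by decide) (by decide) hu5 hu8

theorem hu10 : chk 1 es el ws 15 tb u10
  [1, 0] = true :=
  gn _ _ _ _ _ _ u2 u9 _ 0 2 rfl rfl (by decide) (by decide) hu2 hu9

theorem ok : chk 1 es el ws 15 tb tb (st 1) = true := hu10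

end Pool.Agent.Helper49.TF.B0
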