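import Pool.Agent.Helper49.TF.Defs

set_option autoImplicit false
set_option maxRecDepth 100000

/-!
# Table B0: data
-/

namespace Pool.Agent.Helper49.TF.B0

/-- Upper bounds. -/
def es : List ℕ := [0, 1, 2, 3, 3, 4, 5, 6, 6, 7, 8, 9, 10, 10, 11, 12, 13, 13, 14, 15, 16]

/-- Lower bounds. -/
def el : List ℕ := [0, 1, 2, 3, 3, 4, 5, 6, 6, 7, 8, 9, 9, 10, 11, 12, 12, 13, 14, 15, 15]

/-- Rewards. -/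
def ws : List ℕ := [61, 52, 52, 48, 44, 40, 36, 28, 24, 16, 12]

/-- A subtree of the table. -/
def s0 : T :=
  (.b 2)

/-- A subtree of the table. -/
def s1 : T :=
  (.n (.b 2) (.n (.n (.b 2) (.b 4)) (.n (.n (.b 2) (.n (.n (.b 2) (.n (.b 4) (.n (.n (.b 2) (.n
  (.n (.b 2) (.n (.b 4) (.n (.n (.b 2) (.n (.n (.b 2) (.n (.b 4) (.n (.n (.b 2) (.n (.n (.b 2) (.l
  154 0)) (.l 51 7))) (.l 112 6)))) (.n (.n (.b 2) (.b 6)) (.l 98 6)))) (.n (.n (.b 2) (.n (.l 112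
  6) (.n (.n (.b 2) (.n (.n (.b 2) (.n (.b 4) (.l 112 6))) (.l 112 6))) (.l 112 6)))) (.b 3)))))
  (.n (.n (.b 2) (.b 6)) (.n (.n (.b 2) (.n (.n (.b 2) (.n (.b 4) (.l 112 6))) (.n (.n (.b 2) (.l
  112 6)) (.n (.n (.b 2) (.l 112 6)) (.b 3))))) (.b 3))))) (.n (.n (.b 2) (.n (.n (.b 2) (.n (.b
  4) (.n (.n (.b 2) (.b 11)) (.n (.n (.b 2) (.l 139 1)) (.b 3))))) (.n (.n (.b 2) (.n (.n (.b 2)
  (.n (.b 4) (.l 124 4))) (.n (.b 6) (.n (.l 124 4) (.b 3))))) (.n (.n (.b 2) (.n (.n (.b 2) (.l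
  124 4)) (.n (.n (.b 2) (.l 124 4)) (.b 8)))) (.b 3))))) (.b 3))))) (.n (.n (.b 2) (.b 6)) (.n
  (.n (.b 2) (.n (.n (.b 2) (.n (.b 4) (.n (.n (.b 2) (.n (.n (.b 2) (.n (.b 4) (.n (.n (.b 2) (.n
  (.n (.b 2) (.n (.b 4) (.l 97 6))) (.l 97 6))) (.l 97 6)))) (.n (.n (.b 2) (.b 6)) (.n (.n (.b 2)
  (.n (.n (.b 2) (.n (.b 4) (.n (.n (.b 2) (.n (.l 124 4) (.n (.l 124 3) (.n (.n (.b 2) (.l 154
  0)) (.b 3))))) (.l 70 6)))) (.l 113 6))) (.b 3))))) (.n (.n (.b 2) (.n (.n (.b 2) (.n (.b 4) (.l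
  85 6))) (.n (.l 85 6) (.n (.l 85 6) (.b 3))))) (.b 3))))) (.n (.n (.b 2) (.n (.n (.b 2) (.n (.b
  4) (.n (.n (.b 2) (.l 154 0)) (.n (.n (.b 2) (.l 30 12)) (.b 3))))) (.n (.b 6) (.n (.n (.b 2)
  (.n (.l 110 6) (.n (.l 110 6) (.n (.n (.b 2) (.n (.n (.b 2) (.n (.b 4) (.n (.n (.b 2) (.n (.l 75
  6) (.n (.l 59 6) (.n (.n (.b 2) (.n (.l 94 6) (.n (.l 154 0) (.l 139 1)))) (.b 3))))) (.l 120
  6)))) (.b 8))) (.b 3))))) (.b 3))))) (.n (.n (.b 2) (.n (.n (.b 2) (.n (.b 4) (.n (.n (.b 2) (.l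
  95 6)) (.n (.n (.b 2) (.n (.n (.b 2) (.n (.b 4) (.n (.n (.b 2) (.n (.l 55 6) (.n (.l 124 4) (.n
  (.n (.b 2) (.n (.l 139 1) (.l 154 0))) (.b 3))))) (.l 116 6)))) (.l 99 6))) (.b 3))))) (.b 8)))
  (.b 3))))) (.b 3))))) (.n (.n (.b 2) (.n (.n (.b 2) (.n (.b 4) (.n (.n (.b 2) (.n (.n (.b 2) (.n
  (.b 4) (.n (.n (.b 2) (.n (.l 139 1) (.n (.n (.b 2) (.b 6)) (.l 139 1)))) (.n (.b 11) (.b 3)))))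
  (.n (.n (.b 2) (.b 6)) (.n (.n (.b 2) (.n (.n (.b 2) (.l 87 6)) (.n (.n (.b 2) (.l 88 6)) (.n
  (.n (.b 2) (.n (.n (.b 2) (.n (.b 4) (.n (.l 108 6) (.n (.n (.b 2) (.n (.n (.b 2) (.n (.b 4) (.n
  (.l 154 0) (.l 139 1)))) (.l 108 4))) (.b 3))))) (.b 8))) (.b 3))))) (.b 3))))) (.n (.n (.b 2)
  (.n (.n (.b 2) (.n (.b 4) (.n (.n (.b 2) (.l 102 6)) (.n (.n (.b 2) (.n (.n (.b 2) (.n (.b 4)
  (.n (.l 115 6) (.n (.n (.b 2) (.n (.n (.b 2) (.n (.b 4) (.l 154 0))) (.l 124 3))) (.b 3))))) (.l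
  111 6))) (.b 3))))) (.n (.n (.b 2) (.n (.n (.b 2) (.n (.b 4) (.l 98 6))) (.n (.b 6) (.n (.l 98
  6) (.b 3))))) (.n (.n (.b 2) (.n (.n (.b 2) (.l 98 6)) (.n (.n (.b 2) (.n (.n (.b 2) (.n (.b 4)
  (.n (.l 98 6) (.n (.n (.b 2) (.n (.n (.b 2) (.n (.b 4) (.n (.l 139 1) (.l 154 0)))) (.l 85 6)))
  (.b 3))))) (.l 98 6))) (.b 8)))) (.b 3))))) (.b 3))))) (.n (.n (.b 2) (.n (.n (.b 2) (.n (.b 4)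
  (.n (.n (.b 2) (.n (.n (.b 2) (.n (.b 4) (.l 109 6))) (.n (.n (.b 2) (.b 6)) (.n (.n (.b 2) (.l
  109 6)) (.b 3))))) (.n (.n (.b 2) (.n (.n (.b 2) (.l 109 6)) (.n (.n (.b 2) (.n (.n (.b 2) (.n
  (.b 4) (.n (.l 110 6) (.n (.n (.b 2) (.n (.l 122 3) (.n (.n (.b 2) (.l 154 0)) (.l 61 12)))) (.b
  3))))) (.l 109 6))) (.n (.l 109 6) (.b 3))))) (.b 3))))) (.n (.b 6) (.n (.n (.b 2) (.n (.n (.b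
  2) (.n (.b 4) (.n (.l 84 6) (.n (.n (.b 2) (.l 154 0)) (.b 3))))) (.n (.n (.b 2) (.n (.n (.b 2)
  (.l 69 6)) (.n (.b 6) (.l 69 6)))) (.n (.n (.b 2) (.n (.l 69 6) (.b 8))) (.b 3))))) (.b 3)))))
  (.n (.n (.b 2) (.n (.n (.b 2) (.n (.b 4) (.n (.n (.b 2) (.n (.n (.b 2) (.l 98 6)) (.n (.n (.b 2)
  (.b 6)) (.n (.l 98 6) (.b 3))))) (.n (.n (.b 2) (.n (.l 85 6) (.n (.l 98 6) (.n (.n (.b 2) (.n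
  (.n (.b 2) (.n (.b 4) (.n (.l 121 6) (.n (.n (.b 2) (.n (.l 69 6) (.n (.l 124 4) (.n (.n (.b 2)
  (.n (.l 154 0) (.l 139 1))) (.b 3))))) (.b 3))))) (.l 109 6))) (.b 3))))) (.b 3))))) (.n (.n (.b
  2) (.n (.n (.b 2) (.n (.b 4) (.n (.n (.b 2) (.l 96 6)) (.n (.n (.b 2) (.n (.n (.b 2) (.n (.b 4)
  (.n (.l 121 6) (.n (.n (.b 2) (.n (.l 124 4) (.n (.l 124 3) (.n (.n (.b 2) (.l 154 0)) (.b
  3))))) (.b 3))))) (.l 96 6))) (.b 3))))) (.n (.b 6) (.n (.n (.b 2) (.n (.l 96 6) (.n (.n (.b 2)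
  (.n (.n (.b 2) (.n (.b 4) (.n (.l 96 6) (.n (.n (.b 2) (.n (.l 96 6) (.n (.l 71 9) (.n (.n (.b
  2) (.n (.l 139 1) (.l 154 0))) (.b 3))))) (.b 3))))) (.l 96 6))) (.l 96 6)))) (.b 3))))) (.b
  8)))) (.b 3))))) (.b 3)))))

/-- A subtree of the table. -/
def s2 : T :=
  (.n (.b 2) (.n (.n (.b 2) (.n (.b 4) (.n (.n (.b 2) (.n (.n (.b 2) (.n (.b 4) (.n (.n (.b 2) (.n
  (.n (.b 2) (.n (.b 4) (.n (.n (.b 2) (.n (.n (.b 2) (.n (.b 4) (.n (.l 154 0) (.l 124 3)))) (.n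
  (.n (.b 2) (.b 6)) (.l 82 3)))) (.l 139 3)))) (.n (.n (.b 2) (.b 6)) (.n (.n (.b 2) (.l 129 3))
  (.b 3))))) (.n (.n (.b 2) (.n (.n (.b 2) (.n (.b 4) (.b 11))) (.n (.n (.b 2) (.n (.n (.b 2) (.n
  (.b 4) (.l 139 3))) (.n (.b 6) (.l 139 3)))) (.n (.l 139 3) (.b 3))))) (.b 3))))) (.n (.n (.b 2)
  (.b 6)) (.n (.n (.b 2) (.n (.n (.b 2) (.n (.b 4) (.n (.n (.b 2) (.l 134 3)) (.n (.n (.b 2) (.l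
  134 3)) (.b 3))))) (.n (.n (.b 2) (.n (.n (.b 2) (.l 154 0)) (.n (.b 6) (.n (.l 139 3) (.b
  3))))) (.n (.n (.b 2) (.n (.l 139 3) (.b 8))) (.b 3))))) (.b 3))))) (.n (.n (.b 2) (.n (.n (.b
  2) (.n (.b 4) (.n (.n (.b 2) (.n (.n (.b 2) (.b 11)) (.n (.n (.b 2) (.b 6)) (.n (.l 92 3) (.b
  3))))) (.n (.n (.b 2) (.n (.n (.b 2) (.l 139 3)) (.n (.n (.b 2) (.l 139 3)) (.n (.n (.b 2) (.n
  (.l 139 3) (.n (.n (.b 2) (.n (.n (.b 2) (.n (.b 4) (.n (.l 139 3) (.n (.n (.b 2) (.n (.l 154 0)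
  (.l 109 3))) (.b 3))))) (.l 139 3))) (.b 8)))) (.b 3))))) (.b 3))))) (.n (.n (.b 2) (.n (.n (.b
  2) (.n (.b 4) (.n (.n (.b 2) (.l 129 3)) (.n (.n (.b 2) (.n (.l 129 3) (.n (.n (.b 2) (.n (.n
  (.b 2) (.n (.b 4) (.n (.l 139 3) (.n (.n (.b 2) (.l 154 0)) (.b 3))))) (.l 129 3))) (.l 105
  3)))) (.b 3))))) (.n (.b 6) (.n (.n (.b 2) (.n (.n (.b 2) (.l 129 3)) (.n (.n (.b 2) (.n (.l 129
  3) (.n (.b 6) (.l 129 3)))) (.l 129 3)))) (.b 3))))) (.n (.n (.b 2) (.n (.n (.b 2) (.n (.b 4)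
  (.n (.n (.b 2) (.n (.l 134 3) (.n (.n (.b 2) (.b 6)) (.l 134 3)))) (.n (.l 134 3) (.b 3))))) (.n
  (.n (.b 2) (.n (.l 139 3) (.n (.b 6) (.n (.n (.b 2) (.n (.l 139 3) (.n (.n (.b 2) (.n (.n (.b 2)
  (.n (.b 4) (.n (.l 139 3) (.n (.n (.b 2) (.n (.l 139 3) (.n (.l 94 6) (.l 154 0)))) (.b 3)))))
  (.l 129 3))) (.l 139 3)))) (.b 3))))) (.b 8)))) (.b 3))))) (.b 3))))) (.n (.n (.b 2) (.n (.n (.b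
  2) (.n (.b 4) (.n (.n (.b 2) (.n (.n (.b 2) (.n (.b 4) (.n (.n (.b 2) (.n (.l 154 0) (.l 154
  0))) (.n (.n (.b 2) (.l 154 0)) (.b 3))))) (.n (.n (.b 2) (.b 6)) (.n (.n (.b 2) (.n (.n (.b 2)
  (.l 154 0)) (.n (.l 154 0) (.l 154 0)))) (.b 3))))) (.n (.n (.b 2) (.n (.n (.b 2) (.n (.b 4) (.n
  (.n (.b 2) (.l 154 0)) (.n (.l 154 0) (.b 3))))) (.n (.n (.b 2) (.n (.n (.b 2) (.l 154 0)) (.n
  (.b 6) (.l 154 0)))) (.n (.n (.b 2) (.n (.l 154 0) (.l 154 0))) (.b 3))))) (.b 3))))) (.b 6)))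
  (.n (.n (.b 2) (.n (.n (.b 2) (.n (.b 4) (.n (.n (.b 2) (.n (.n (.b 2) (.n (.b 4) (.n (.n (.b 2)
  (.n (.n (.b 2) (.n (.b 4) (.l 79 8))) (.n (.n (.b 2) (.b 6)) (.l 79 8)))) (.n (.l 79 8) (.b
  3))))) (.n (.n (.b 2) (.b 6)) (.n (.n (.b 2) (.n (.n (.b 2) (.n (.b 4) (.n (.n (.b 2) (.n (.l 83
  6) (.n (.l 83 5) (.n (.n (.b 2) (.n (.n (.b 2) (.l 154 0)) (.l 83 2))) (.b 3))))) (.l 58 8))))
  (.n (.l 83 8) (.n (.l 83 8) (.b 3))))) (.b 3))))) (.n (.n (.b 2) (.n (.n (.b 2) (.n (.b 4) (.n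
  (.l 47 8) (.n (.l 47 8) (.b 3))))) (.n (.n (.b 2) (.n (.n (.b 2) (.l 116 8)) (.n (.b 6) (.n (.l
  154 0) (.b 3))))) (.n (.n (.b 2) (.n (.l 47 8) (.n (.l 47 8) (.b 8)))) (.b 3))))) (.b 3))))) (.n
  (.n (.b 2) (.n (.n (.b 2) (.n (.b 4) (.n (.n (.b 2) (.n (.n (.b 2) (.l 100 2)) (.n (.n (.b 2)
  (.b 6)) (.l 154 0)))) (.n (.n (.b 2) (.n (.l 39 12) (.n (.l 18 12) (.n (.n (.b 2) (.n (.l 40 11)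
  (.n (.n (.b 2) (.n (.l 40 8) (.n (.b 6) (.n (.n (.b 2) (.n (.l 61 4) (.n (.n (.b 2) (.n (.l 154
  0) (.l 0 14))) (.l 61 3)))) (.b 3))))) (.b 8)))) (.b 3))))) (.b 3))))) (.n (.b 6) (.n (.n (.b 2)
  (.n (.n (.b 2) (.n (.b 4) (.n (.n (.b 2) (.n (.l 75 8) (.n (.n (.b 2) (.b 6)) (.l 75 8)))) (.l
  75 8)))) (.n (.n (.b 2) (.n (.l 92 8) (.n (.b 6) (.n (.n (.b 2) (.n (.l 67 8) (.n (.n (.b 2) (.n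
  (.l 88 8) (.n (.b 6) (.n (.n (.b 2) (.n (.l 40 8) (.n (.n (.b 2) (.n (.l 80 8) (.n (.b 6) (.l
  154 0)))) (.l 130 8)))) (.b 3))))) (.l 92 8)))) (.b 3))))) (.n (.n (.b 2) (.n (.n (.b 2) (.n (.b
  4) (.n (.n (.b 2) (.n (.l 75 8) (.n (.l 75 8) (.n (.n (.b 2) (.n (.l 76 8) (.n (.n (.b 2) (.n
  (.l 39 12) (.l 154 0))) (.l 100 3)))) (.b 3))))) (.l 100 8)))) (.b 8))) (.b 3))))) (.b 3)))))
  (.n (.n (.b 2) (.n (.n (.b 2) (.n (.b 4) (.n (.n (.b 2) (.n (.l 77 8) (.n (.l 77 8) (.n (.n (.b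
  2) (.n (.l 77 8) (.n (.n (.b 2) (.n (.l 52 8) (.n (.b 6) (.n (.n (.b 2) (.n (.l 126 4) (.n (.l
  126 3) (.n (.n (.b 2) (.l 154 0)) (.b 3))))) (.b 3))))) (.l 89 8)))) (.b 3))))) (.n (.n (.b 2)
  (.n (.n (.b 2) (.n (.b 4) (.n (.n (.b 2) (.n (.l 76 8) (.n (.l 101 6) (.n (.n (.b 2) (.n (.l 101
  3) (.n (.l 101 2) (.n (.l 154 0) (.b 3))))) (.b 3))))) (.l 98 8)))) (.l 81 8))) (.b 3))))) (.b
  8))) (.b 3))))) (.b 3)))))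

/-- A subtree of the table. -/
def s3 : T :=
  (.n (.n (.b 2) (.n (.n (.b 2) (.n (.b 4) (.n (.n (.b 2) (.n (.n (.b 2) (.n (.b 4) (.n (.n (.b 2)
  (.n (.n (.b 2) (.n (.b 4) (.l 111 3))) (.n (.n (.b 2) (.b 6)) (.n (.l 111 3) (.b 3))))) (.n (.n
  (.b 2) (.n (.b 11) (.n (.l 154 0) (.l 154 0)))) (.b 3))))) (.n (.n (.b 2) (.b 6)) (.n (.n (.b 2)
  (.n (.n (.b 2) (.n (.b 4) (.n (.n (.b 2) (.n (.l 96 8) (.n (.l 100 8) (.n (.n (.b 2) (.n (.n (.b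
  2) (.n (.b 4) (.n (.n (.b 2) (.l 154 0)) (.l 69 8)))) (.l 112 5))) (.b 3))))) (.n (.l 84 8) (.b
  3))))) (.n (.n (.b 2) (.n (.l 90 8) (.n (.b 6) (.n (.n (.b 2) (.n (.l 117 8) (.n (.l 117 8) (.n
  (.n (.b 2) (.n (.n (.b 2) (.n (.b 4) (.n (.n (.b 2) (.n (.l 74 8) (.n (.l 58 8) (.l 154 0))))
  (.l 119 4)))) (.b 8))) (.b 3))))) (.b 3))))) (.n (.n (.b 2) (.n (.n (.b 2) (.n (.b 4) (.n (.l 94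
  8) (.n (.n (.b 2) (.n (.n (.b 2) (.n (.b 4) (.n (.n (.b 2) (.n (.l 54 11) (.l 154 0))) (.l 115
  3)))) (.l 98 6))) (.b 3))))) (.b 8))) (.b 3))))) (.b 3))))) (.n (.n (.b 2) (.n (.n (.b 2) (.n
  (.b 4) (.n (.n (.b 2) (.n (.n (.b 2) (.l 88 8)) (.n (.n (.b 2) (.b 6)) (.n (.n (.b 2) (.n (.l 99
  8) (.n (.l 100 8) (.n (.n (.b 2) (.n (.n (.b 2) (.n (.b 4) (.n (.l 124 3) (.n (.n (.b 2) (.l 154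
  0)) (.b 3))))) (.b 8))) (.b 3))))) (.b 3))))) (.n (.n (.b 2) (.n (.n (.b 2) (.n (.b 4) (.n (.l
  101 8) (.n (.n (.b 2) (.n (.n (.b 2) (.n (.b 4) (.n (.l 114 2) (.n (.l 154 0) (.b 3))))) (.l 110
  5))) (.b 3))))) (.n (.l 97 8) (.n (.l 97 8) (.b 3))))) (.b 3))))) (.n (.n (.b 2) (.n (.n (.b 2)
  (.n (.b 4) (.n (.l 121 8) (.n (.l 121 8) (.b 3))))) (.n (.b 6) (.n (.n (.b 2) (.n (.n (.b 2) (.l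
  154 0)) (.n (.l 68 8) (.n (.n (.b 2) (.n (.l 68 8) (.b 8))) (.b 3))))) (.b 3))))) (.n (.n (.b 2)
  (.n (.n (.b 2) (.n (.b 4) (.n (.l 97 8) (.n (.n (.b 2) (.n (.l 84 8) (.n (.l 97 8) (.n (.n (.b
  2) (.n (.n (.b 2) (.n (.b 4) (.n (.l 120 4) (.n (.n (.b 2) (.n (.l 68 8) (.l 154 0))) (.b 3)))))
  (.l 108 7))) (.b 3))))) (.b 3))))) (.n (.n (.b 2) (.n (.n (.b 2) (.n (.b 4) (.n (.l 95 8) (.n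
  (.n (.b 2) (.n (.n (.b 2) (.n (.b 4) (.n (.l 120 3) (.n (.n (.b 2) (.l 154 0)) (.b 3))))) (.l 95
  8))) (.b 3))))) (.l 95 8))) (.b 8)))) (.b 3))))) (.b 3))))) (.n (.n (.b 2) (.n (.n (.b 2) (.n
  (.b 4) (.n (.n (.b 2) (.n (.n (.b 2) (.n (.b 4) (.n (.n (.b 2) (.l 127 5)) (.n (.n (.b 2) (.l
  127 5)) (.b 3))))) (.n (.n (.b 2) (.b 6)) (.n (.n (.b 2) (.n (.l 79 8) (.l 154 0))) (.b 3)))))
  (.n (.n (.b 2) (.n (.n (.b 2) (.n (.b 4) (.n (.n (.b 2) (.l 91 8)) (.n (.n (.b 2) (.n (.l 95 8)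
  (.n (.l 95 8) (.n (.n (.b 2) (.n (.l 116 6) (.n (.n (.b 2) (.n (.n (.b 2) (.n (.b 4) (.l 154
  0))) (.l 116 3))) (.b 8)))) (.b 3))))) (.b 3))))) (.n (.n (.b 2) (.n (.n (.b 2) (.n (.b 4) (.n
  (.l 67 8) (.n (.n (.b 2) (.n (.l 67 5) (.n (.n (.b 2) (.n (.n (.b 2) (.l 154 0)) (.l 67 2))) (.l
  43 12)))) (.b 3))))) (.n (.b 6) (.n (.l 67 8) (.b 3))))) (.n (.n (.b 2) (.n (.l 72 8) (.n (.n
  (.b 2) (.n (.l 91 8) (.n (.b 6) (.n (.n (.b 2) (.n (.l 111 7) (.n (.n (.b 2) (.n (.n (.b 2) (.n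
  (.b 4) (.n (.l 79 8) (.l 154 0)))) (.l 67 8))) (.l 115 6)))) (.b 3))))) (.b 8)))) (.b 3))))) (.b
  3))))) (.n (.b 6) (.n (.n (.b 2) (.n (.n (.b 2) (.n (.b 4) (.n (.n (.b 2) (.n (.n (.b 2) (.l 82
  8)) (.n (.n (.b 2) (.b 6)) (.l 82 8)))) (.n (.n (.b 2) (.n (.l 46 11) (.n (.l 154 0) (.n (.n (.b
  2) (.n (.l 46 99) (.n (.l 46 99) (.b 8)))) (.b 3))))) (.b 3))))) (.n (.n (.b 2) (.n (.n (.b 2)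
  (.n (.b 4) (.n (.l 99 8) (.n (.n (.b 2) (.n (.l 99 8) (.n (.l 78 8) (.n (.n (.b 2) (.n (.l 100
  7) (.n (.n (.b 2) (.n (.l 100 4) (.n (.b 6) (.n (.n (.b 2) (.l 154 0)) (.b 3))))) (.b 8)))) (.b
  3))))) (.b 3))))) (.n (.b 6) (.n (.n (.b 2) (.n (.l 74 8) (.n (.n (.b 2) (.n (.l 95 8) (.n (.b
  6) (.n (.n (.b 2) (.n (.l 66 8) (.n (.n (.b 2) (.n (.l 87 8) (.n (.b 6) (.n (.n (.b 2) (.n (.l
  39 99) (.l 154 0))) (.b 3))))) (.l 100 8)))) (.b 3))))) (.l 99 8)))) (.b 3))))) (.n (.n (.b 2)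
  (.n (.n (.b 2) (.n (.b 4) (.n (.n (.b 2) (.n (.l 82 8) (.n (.l 82 8) (.n (.n (.b 2) (.n (.l 83
  8) (.n (.n (.b 2) (.n (.l 51 8) (.n (.b 6) (.n (.n (.b 2) (.l 154 0)) (.b 3))))) (.l 100 6))))
  (.b 3))))) (.l 100 8)))) (.b 8))) (.b 3))))) (.b 3))))) (.n (.n (.b 2) (.n (.n (.b 2) (.n (.b 4)
  (.n (.n (.b 2) (.n (.n (.b 2) (.n (.b 4) (.n (.n (.b 2) (.l 84 8)) (.n (.n (.b 2) (.b 11)) (.b
  3))))) (.n (.n (.b 2) (.b 6)) (.n (.n (.b 2) (.n (.l 84 8) (.n (.n (.b 2) (.n (.l 68 8) (.n (.b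
  6) (.n (.n (.b 2) (.n (.l 117 7) (.n (.l 117 6) (.n (.n (.b 2) (.n (.n (.b 2) (.n (.b 4) (.l 154
  0))) (.b 8))) (.b 3))))) (.b 3))))) (.l 84 8)))) (.b 3))))) (.n (.n (.b 2) (.n (.n (.b 2) (.n
  (.b 4) (.n (.n (.b 2) (.n (.l 71 8) (.n (.l 92 8) (.n (.n (.b 2) (.n (.l 99 6) (.n (.l 103 5)
  (.n (.n (.b 2) (.n (.n (.b 2) (.l 154 0)) (.b 8))) (.b 3))))) (.b 3))))) (.l 89 8)))) (.n (.n
  (.b 2) (.n (.l 84 8) (.n (.b 6) (.n (.n (.b 2) (.n (.b 13) (.n (.l 84 8) (.n (.n (.b 2) (.n (.l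
  84 8) (.b 8))) (.b 3))))) (.b 3))))) (.n (.n (.b 2) (.n (.n (.b 2) (.n (.b 4) (.n (.l 97 8) (.n
  (.n (.b 2) (.n (.l 72 8) (.n (.l 97 6) (.n (.n (.b 2) (.n (.n (.b 2) (.n (.b 4) (.l 154 0))) (.l
  97 3))) (.b 3))))) (.b 3))))) (.l 95 8))) (.b 3))))) (.b 3))))) (.n (.n (.b 2) (.n (.n (.b 2)
  (.n (.b 4) (.n (.n (.b 2) (.n (.l 66 8) (.n (.l 66 8) (.n (.n (.b 2) (.b 12)) (.b 3))))) (.n (.n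
  (.b 2) (.n (.n (.b 2) (.n (.b 4) (.n (.l 91 8) (.n (.n (.b 2) (.n (.l 94 6) (.n (.l 94 5) (.n
  (.n (.b 2) (.n (.l 124 2) (.n (.l 154 0) (.b 8)))) (.b 3))))) (.b 3))))) (.l 66 8))) (.b 3)))))
  (.n (.b 6) (.n (.n (.b 2) (.n (.n (.b 2) (.n (.b 4) (.n (.l 66 8) (.n (.n (.b 2) (.n (.l 66 8)
  (.n (.b 13) (.n (.n (.b 2) (.n (.l 66 8) (.n (.l 66 8) (.b 8)))) (.b 3))))) (.b 3))))) (.n (.n
  (.b 2) (.n (.n (.b 2) (.n (.b 4) (.n (.l 66 8) (.n (.n (.b 2) (.n (.l 66 8) (.n (.l 41 11) (.n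
  (.n (.b 2) (.n (.l 109 3) (.n (.n (.b 2) (.l 154 0)) (.b 8)))) (.b 3))))) (.b 3))))) (.l 66 8)))
  (.l 66 8)))) (.b 3))))) (.n (.b 8) (.b 3))))) (.b 3))))) (.b 3))

/-- A subtree of the table. -/
def s4 : T :=
  (.b 2)

/-- A subtree of the table. -/
def s5 : T :=
  (.n (.b 2) (.n (.b 4) (.n (.n (.b 2) (.n (.n (.b 2) (.n (.b 4) (.n (.n (.b 2) (.n (.n (.b 2) (.n
  (.b 4) (.n (.n (.b 2) (.n (.n (.b 2) (.n (.b 4) (.n (.n (.b 2) (.n (.l 154 0) (.l 66 6))) (.l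
  127 5)))) (.n (.n (.b 2) (.b 6)) (.l 113 5)))) (.n (.n (.b 2) (.l 127 5)) (.b 3))))) (.n (.n (.b
  2) (.b 6)) (.n (.n (.b 2) (.n (.n (.b 2) (.l 127 5)) (.n (.n (.b 2) (.l 127 5)) (.n (.l 127 5)
  (.b 3))))) (.b 3))))) (.n (.n (.b 2) (.n (.n (.b 2) (.n (.b 4) (.n (.b 11) (.n (.l 154 0) (.b
  3))))) (.n (.n (.b 2) (.n (.n (.b 2) (.n (.b 4) (.l 139 3))) (.n (.b 6) (.n (.l 139 3) (.b
  3))))) (.n (.n (.b 2) (.n (.n (.b 2) (.l 139 3)) (.n (.l 139 3) (.b 8)))) (.b 3))))) (.b 3)))))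
  (.n (.n (.b 2) (.b 6)) (.n (.n (.b 2) (.n (.n (.b 2) (.n (.b 4) (.n (.n (.b 2) (.n (.n (.b 2)
  (.l 112 5)) (.n (.l 116 5) (.n (.n (.b 2) (.n (.n (.b 2) (.n (.b 4) (.n (.n (.b 2) (.n (.l 139
  3) (.n (.l 139 2) (.n (.l 154 0) (.b 3))))) (.l 85 5)))) (.l 128 5))) (.b 3))))) (.n (.n (.b 2)
  (.n (.l 100 5) (.n (.l 100 5) (.n (.l 100 5) (.b 3))))) (.b 3))))) (.n (.n (.b 2) (.n (.n (.b 2)
  (.n (.b 4) (.n (.l 154 0) (.n (.l 45 11) (.b 3))))) (.n (.b 6) (.n (.n (.b 2) (.n (.l 125 5) (.n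
  (.l 125 5) (.n (.n (.b 2) (.n (.n (.b 2) (.n (.b 4) (.n (.n (.b 2) (.n (.l 90 5) (.n (.l 74 5)
  (.n (.n (.b 2) (.n (.l 109 5) (.l 154 0))) (.b 3))))) (.l 135 5)))) (.b 8))) (.b 3))))) (.b
  3))))) (.n (.n (.b 2) (.n (.n (.b 2) (.n (.b 4) (.n (.l 110 5) (.n (.n (.b 2) (.n (.n (.b 2) (.n
  (.b 4) (.n (.n (.b 2) (.n (.l 70 5) (.n (.l 139 3) (.n (.n (.b 2) (.l 154 0)) (.b 3))))) (.l 131
  5)))) (.l 114 5))) (.b 3))))) (.b 8))) (.b 3))))) (.b 3))))) (.n (.n (.b 2) (.n (.n (.b 2) (.n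
  (.b 4) (.n (.n (.b 2) (.n (.n (.b 2) (.n (.b 4) (.n (.n (.b 2) (.l 154 0)) (.b 11)))) (.n (.n
  (.b 2) (.b 6)) (.n (.n (.b 2) (.n (.n (.b 2) (.l 102 5)) (.n (.l 103 5) (.n (.n (.b 2) (.n (.n
  (.b 2) (.n (.b 4) (.n (.l 123 5) (.n (.n (.b 2) (.n (.n (.b 2) (.n (.b 4) (.l 154 0))) (.l 123
  3))) (.b 3))))) (.b 8))) (.b 3))))) (.b 3))))) (.n (.n (.b 2) (.n (.n (.b 2) (.n (.b 4) (.n (.l
  117 5) (.n (.n (.b 2) (.n (.n (.b 2) (.n (.b 4) (.n (.l 130 5) (.n (.n (.b 2) (.n (.n (.b 2) (.l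
  154 0)) (.l 139 2))) (.b 3))))) (.l 126 5))) (.b 3))))) (.n (.n (.b 2) (.n (.l 113 5) (.n (.b 6)
  (.n (.l 113 5) (.b 3))))) (.n (.n (.b 2) (.n (.l 113 5) (.n (.n (.b 2) (.n (.n (.b 2) (.n (.b 4)
  (.n (.l 113 5) (.n (.n (.b 2) (.n (.n (.b 2) (.n (.b 4) (.l 154 0))) (.l 100 5))) (.b 3))))) (.l
  113 5))) (.b 8)))) (.b 3))))) (.b 3))))) (.n (.n (.b 2) (.n (.n (.b 2) (.n (.b 4) (.n (.n (.b 2)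
  (.n (.n (.b 2) (.l 124 5)) (.n (.n (.b 2) (.b 6)) (.n (.l 124 5) (.b 3))))) (.n (.n (.b 2) (.n
  (.l 124 5) (.n (.n (.b 2) (.n (.n (.b 2) (.n (.b 4) (.n (.l 125 5) (.n (.n (.b 2) (.n (.l 137 2)
  (.n (.l 154 0) (.l 76 11)))) (.b 3))))) (.l 124 5))) (.n (.l 124 5) (.b 3))))) (.b 3))))) (.n
  (.b 6) (.n (.n (.b 2) (.n (.n (.b 2) (.n (.b 4) (.n (.l 99 5) (.n (.l 154 0) (.b 3))))) (.n (.n
  (.b 2) (.n (.l 84 5) (.n (.b 6) (.l 84 5)))) (.n (.n (.b 2) (.n (.l 84 5) (.b 8))) (.b 3)))))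
  (.b 3))))) (.n (.n (.b 2) (.n (.n (.b 2) (.n (.b 4) (.n (.n (.b 2) (.n (.l 113 5) (.n (.n (.b 2)
  (.b 6)) (.n (.l 113 5) (.b 3))))) (.n (.n (.b 2) (.n (.l 100 5) (.n (.l 113 5) (.n (.n (.b 2)
  (.n (.n (.b 2) (.n (.b 4) (.n (.l 136 5) (.n (.n (.b 2) (.n (.l 84 5) (.n (.l 139 3) (.n (.n (.b
  2) (.l 154 0)) (.b 3))))) (.b 3))))) (.l 124 5))) (.b 3))))) (.b 3))))) (.n (.n (.b 2) (.n (.n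
  (.b 2) (.n (.b 4) (.n (.l 111 5) (.n (.n (.b 2) (.n (.n (.b 2) (.n (.b 4) (.n (.l 136 5) (.n (.n
  (.b 2) (.n (.l 139 3) (.n (.l 139 2) (.n (.l 154 0) (.b 3))))) (.b 3))))) (.l 111 5))) (.b
  3))))) (.n (.b 6) (.n (.n (.b 2) (.n (.l 111 5) (.n (.n (.b 2) (.n (.n (.b 2) (.n (.b 4) (.n (.l
  111 5) (.n (.n (.b 2) (.n (.l 111 5) (.n (.l 86 8) (.n (.n (.b 2) (.l 154 0)) (.b 3))))) (.b
  3))))) (.l 111 5))) (.l 111 5)))) (.b 3))))) (.b 8)))) (.b 3))))) (.b 3)))))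

/-- A subtree of the table. -/
def s6 : T :=
  (.n (.b 2) (.n (.n (.b 2) (.n (.b 4) (.n (.n (.b 2) (.n (.n (.b 2) (.n (.b 4) (.n (.n (.b 2) (.n
  (.n (.b 2) (.n (.b 4) (.n (.n (.b 2) (.n (.n (.b 2) (.n (.b 4) (.l 139 2))) (.n (.n (.b 2) (.b
  6)) (.l 97 2)))) (.l 154 2)))) (.n (.n (.b 2) (.b 6)) (.n (.n (.b 2) (.l 144 2)) (.b 3))))) (.n
  (.n (.b 2) (.n (.n (.b 2) (.n (.b 4) (.b 11))) (.n (.n (.b 2) (.n (.n (.b 2) (.n (.b 4) (.l 154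
  2))) (.n (.b 6) (.l 154 2)))) (.n (.l 154 2) (.b 3))))) (.b 3))))) (.n (.n (.b 2) (.b 6)) (.n
  (.n (.b 2) (.n (.n (.b 2) (.n (.b 4) (.n (.n (.b 2) (.l 149 2)) (.n (.n (.b 2) (.l 149 2)) (.b
  3))))) (.n (.n (.b 2) (.n (.n (.b 2) (.b 12)) (.n (.b 6) (.n (.l 154 2) (.b 3))))) (.n (.n (.b
  2) (.n (.l 154 2) (.b 8))) (.b 3))))) (.b 3))))) (.n (.n (.b 2) (.n (.n (.b 2) (.n (.b 4) (.n
  (.n (.b 2) (.n (.b 11) (.n (.n (.b 2) (.b 6)) (.n (.l 107 2) (.b 3))))) (.n (.n (.b 2) (.n (.n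
  (.b 2) (.l 154 2)) (.n (.n (.b 2) (.l 154 2)) (.n (.n (.b 2) (.n (.l 154 2) (.n (.n (.b 2) (.n
  (.n (.b 2) (.n (.b 4) (.n (.l 154 2) (.n (.n (.b 2) (.l 124 2)) (.b 3))))) (.l 154 2))) (.b
  8)))) (.b 3))))) (.b 3))))) (.n (.n (.b 2) (.n (.n (.b 2) (.n (.b 4) (.n (.n (.b 2) (.l 144 2))
  (.n (.n (.b 2) (.n (.l 144 2) (.n (.n (.b 2) (.n (.n (.b 2) (.n (.b 4) (.n (.l 154 2) (.n (.l
  109 5) (.b 3))))) (.l 144 2))) (.l 120 2)))) (.b 3))))) (.n (.b 6) (.n (.n (.b 2) (.n (.n (.b 2)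
  (.l 144 2)) (.n (.n (.b 2) (.n (.l 144 2) (.n (.b 6) (.l 144 2)))) (.l 144 2)))) (.b 3))))) (.n
  (.n (.b 2) (.n (.n (.b 2) (.n (.b 4) (.n (.n (.b 2) (.n (.l 149 2) (.n (.n (.b 2) (.b 6)) (.l
  149 2)))) (.n (.l 149 2) (.b 3))))) (.n (.n (.b 2) (.n (.l 154 2) (.n (.b 6) (.n (.n (.b 2) (.n
  (.l 154 2) (.n (.n (.b 2) (.n (.n (.b 2) (.n (.b 4) (.n (.l 154 2) (.n (.n (.b 2) (.n (.l 154 2)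
  (.l 109 5))) (.b 3))))) (.l 144 2))) (.l 154 2)))) (.b 3))))) (.b 8)))) (.b 3))))) (.b 3)))))
  (.n (.n (.b 2) (.b 6)) (.n (.n (.b 2) (.n (.n (.b 2) (.n (.b 4) (.n (.n (.b 2) (.n (.n (.b 2)
  (.n (.b 4) (.n (.n (.b 2) (.n (.n (.b 2) (.n (.b 4) (.l 94 7))) (.n (.n (.b 2) (.b 6)) (.l 94
  7)))) (.n (.l 94 7) (.b 3))))) (.n (.n (.b 2) (.b 6)) (.n (.n (.b 2) (.n (.n (.b 2) (.n (.b 4)
  (.n (.n (.b 2) (.n (.l 98 5) (.n (.l 98 4) (.n (.n (.b 2) (.n (.l 37 11) (.l 98 1))) (.b 3)))))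
  (.l 73 7)))) (.n (.l 98 7) (.n (.l 98 7) (.b 3))))) (.b 3))))) (.n (.n (.b 2) (.n (.n (.b 2) (.n
  (.b 4) (.n (.l 62 7) (.n (.l 62 7) (.b 3))))) (.n (.n (.b 2) (.n (.n (.b 2) (.l 131 7)) (.n (.b
  6) (.l 70 7)))) (.n (.n (.b 2) (.n (.l 62 7) (.n (.l 62 7) (.b 8)))) (.b 3))))) (.b 3))))) (.n
  (.n (.b 2) (.n (.n (.b 2) (.n (.b 4) (.n (.n (.b 2) (.n (.n (.b 2) (.l 115 1)) (.n (.n (.b 2)
  (.b 6)) (.b 12)))) (.n (.n (.b 2) (.n (.l 54 11) (.n (.l 33 11) (.n (.n (.b 2) (.n (.l 55 10)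
  (.n (.n (.b 2) (.n (.l 55 7) (.n (.b 6) (.n (.n (.b 2) (.n (.l 76 3) (.n (.n (.b 2) (.l 15 13))
  (.l 76 2)))) (.b 3))))) (.b 8)))) (.b 3))))) (.b 3))))) (.n (.b 6) (.n (.n (.b 2) (.n (.n (.b 2)
  (.n (.b 4) (.n (.n (.b 2) (.n (.l 90 7) (.n (.n (.b 2) (.b 6)) (.l 90 7)))) (.l 90 7)))) (.n (.n
  (.b 2) (.n (.l 107 7) (.n (.b 6) (.n (.n (.b 2) (.n (.l 82 7) (.n (.n (.b 2) (.n (.l 103 7) (.n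
  (.b 6) (.n (.n (.b 2) (.n (.l 55 7) (.n (.n (.b 2) (.n (.l 95 7) (.l 95 7))) (.l 145 7)))) (.b
  3))))) (.l 107 7)))) (.b 3))))) (.n (.n (.b 2) (.n (.n (.b 2) (.n (.b 4) (.n (.n (.b 2) (.n (.l
  90 7) (.n (.l 90 7) (.n (.n (.b 2) (.n (.l 91 7) (.n (.n (.b 2) (.l 54 11)) (.l 115 2)))) (.b
  3))))) (.l 115 7)))) (.b 8))) (.b 3))))) (.b 3))))) (.n (.n (.b 2) (.n (.n (.b 2) (.n (.b 4) (.n
  (.n (.b 2) (.n (.l 92 7) (.n (.l 92 7) (.n (.n (.b 2) (.n (.l 92 7) (.n (.n (.b 2) (.n (.l 67 7)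
  (.n (.b 6) (.n (.n (.b 2) (.n (.l 141 3) (.n (.l 141 2) (.n (.l 80 7) (.b 3))))) (.b 3))))) (.l
  104 7)))) (.b 3))))) (.n (.n (.b 2) (.n (.n (.b 2) (.n (.b 4) (.n (.n (.b 2) (.n (.l 91 7) (.n
  (.l 116 5) (.n (.n (.b 2) (.n (.l 116 2) (.n (.l 116 1) (.l 55 11)))) (.b 3))))) (.l 113 7))))
  (.l 96 7))) (.b 3))))) (.b 8))) (.b 3))))) (.b 3)))))

/-- A subtree of the table. -/
def s7 : T :=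
  (.n (.n (.b 2) (.n (.n (.b 2) (.n (.b 4) (.n (.n (.b 2) (.n (.n (.b 2) (.n (.b 4) (.n (.n (.b 2)
  (.n (.n (.b 2) (.n (.b 4) (.l 126 2))) (.n (.n (.b 2) (.b 6)) (.n (.l 126 2) (.b 3))))) (.n (.n
  (.b 2) (.b 11)) (.b 3))))) (.n (.n (.b 2) (.b 6)) (.n (.n (.b 2) (.n (.n (.b 2) (.n (.b 4) (.n
  (.n (.b 2) (.n (.l 111 7) (.n (.l 115 7) (.n (.n (.b 2) (.n (.n (.b 2) (.n (.b 4) (.n (.l 72 7)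
  (.l 84 7)))) (.l 127 4))) (.b 3))))) (.n (.l 99 7) (.b 3))))) (.n (.n (.b 2) (.n (.l 105 7) (.n
  (.b 6) (.n (.n (.b 2) (.n (.l 132 7) (.n (.l 132 7) (.n (.n (.b 2) (.n (.n (.b 2) (.n (.b 4) (.n
  (.n (.b 2) (.n (.l 89 7) (.l 73 7))) (.l 134 3)))) (.b 8))) (.b 3))))) (.b 3))))) (.n (.n (.b 2)
  (.n (.n (.b 2) (.n (.b 4) (.n (.l 109 7) (.n (.n (.b 2) (.n (.n (.b 2) (.n (.b 4) (.n (.n (.b 2)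
  (.l 69 10)) (.l 130 2)))) (.l 113 5))) (.b 3))))) (.b 8))) (.b 3))))) (.b 3))))) (.n (.n (.b 2)
  (.n (.n (.b 2) (.n (.b 4) (.n (.n (.b 2) (.n (.n (.b 2) (.l 103 7)) (.n (.n (.b 2) (.b 6)) (.n
  (.n (.b 2) (.n (.l 114 7) (.n (.l 115 7) (.n (.n (.b 2) (.n (.n (.b 2) (.n (.b 4) (.n (.l 139 2)
  (.n (.l 87 7) (.b 3))))) (.b 8))) (.b 3))))) (.b 3))))) (.n (.n (.b 2) (.n (.n (.b 2) (.n (.b 4)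
  (.n (.l 116 7) (.n (.n (.b 2) (.n (.n (.b 2) (.n (.b 4) (.n (.l 129 1) (.l 68 10)))) (.l 125
  4))) (.b 3))))) (.n (.l 112 7) (.n (.l 112 7) (.b 3))))) (.b 3))))) (.n (.n (.b 2) (.n (.n (.b
  2) (.n (.b 4) (.n (.l 136 7) (.n (.l 136 7) (.b 3))))) (.n (.b 6) (.n (.n (.b 2) (.n (.l 83 7)
  (.n (.l 83 7) (.n (.n (.b 2) (.n (.l 83 7) (.b 8))) (.b 3))))) (.b 3))))) (.n (.n (.b 2) (.n (.n
  (.b 2) (.n (.b 4) (.n (.l 112 7) (.n (.n (.b 2) (.n (.l 99 7) (.n (.l 112 7) (.n (.n (.b 2) (.n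
  (.n (.b 2) (.n (.b 4) (.n (.l 135 3) (.n (.n (.b 2) (.l 83 7)) (.b 3))))) (.l 123 6))) (.b
  3))))) (.b 3))))) (.n (.n (.b 2) (.n (.n (.b 2) (.n (.b 4) (.n (.l 110 7) (.n (.n (.b 2) (.n (.n
  (.b 2) (.n (.b 4) (.n (.l 135 2) (.n (.l 74 10) (.b 3))))) (.l 110 7))) (.b 3))))) (.l 110 7)))
  (.b 8)))) (.b 3))))) (.b 3))))) (.n (.n (.b 2) (.n (.n (.b 2) (.n (.b 4) (.n (.n (.b 2) (.n (.n
  (.b 2) (.n (.b 4) (.n (.n (.b 2) (.l 142 4)) (.n (.n (.b 2) (.l 142 4)) (.b 3))))) (.n (.n (.b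
  2) (.b 6)) (.n (.n (.b 2) (.l 94 7)) (.b 3))))) (.n (.n (.b 2) (.n (.n (.b 2) (.n (.b 4) (.n (.n
  (.b 2) (.l 106 7)) (.n (.n (.b 2) (.n (.l 110 7) (.n (.l 110 7) (.n (.n (.b 2) (.n (.l 131 5)
  (.n (.n (.b 2) (.n (.n (.b 2) (.l 94 7)) (.l 131 2))) (.b 8)))) (.b 3))))) (.b 3))))) (.n (.n
  (.b 2) (.n (.n (.b 2) (.n (.b 4) (.n (.l 82 7) (.n (.n (.b 2) (.n (.l 82 4) (.n (.n (.b 2) (.n
  (.l 21 11) (.l 82 1))) (.l 58 11)))) (.b 3))))) (.n (.b 6) (.n (.l 82 7) (.b 3))))) (.n (.n (.b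
  2) (.n (.l 87 7) (.n (.n (.b 2) (.n (.l 106 7) (.n (.b 6) (.n (.n (.b 2) (.n (.l 126 6) (.n (.n
  (.b 2) (.n (.n (.b 2) (.n (.b 4) (.l 94 7))) (.l 82 7))) (.l 130 5)))) (.b 3))))) (.b 8)))) (.b
  3))))) (.b 3))))) (.n (.b 6) (.n (.n (.b 2) (.n (.n (.b 2) (.n (.b 4) (.n (.n (.b 2) (.n (.n (.b
  2) (.l 97 7)) (.n (.n (.b 2) (.b 6)) (.l 97 7)))) (.n (.n (.b 2) (.n (.l 61 10) (.n (.b 13) (.n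
  (.n (.b 2) (.n (.l 61 10) (.n (.l 61 10) (.b 8)))) (.b 3))))) (.b 3))))) (.n (.n (.b 2) (.n (.n
  (.b 2) (.n (.b 4) (.n (.l 114 7) (.n (.n (.b 2) (.n (.l 114 7) (.n (.l 93 7) (.n (.n (.b 2) (.n
  (.l 115 6) (.n (.n (.b 2) (.n (.l 115 3) (.n (.b 6) (.n (.l 54 7) (.b 3))))) (.b 8)))) (.b
  3))))) (.b 3))))) (.n (.b 6) (.n (.n (.b 2) (.n (.l 89 7) (.n (.n (.b 2) (.n (.l 110 7) (.n (.b
  6) (.n (.n (.b 2) (.n (.l 81 7) (.n (.n (.b 2) (.n (.l 102 7) (.n (.b 6) (.n (.n (.b 2) (.l 54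
  7)) (.b 3))))) (.l 115 7)))) (.b 3))))) (.l 114 7)))) (.b 3))))) (.n (.n (.b 2) (.n (.n (.b 2)
  (.n (.b 4) (.n (.n (.b 2) (.n (.l 97 7) (.n (.l 97 7) (.n (.n (.b 2) (.n (.l 98 7) (.n (.n (.b
  2) (.n (.l 66 7) (.n (.b 6) (.n (.l 54 7) (.b 3))))) (.l 115 5)))) (.b 3))))) (.l 115 7)))) (.b
  8))) (.b 3))))) (.b 3))))) (.n (.n (.b 2) (.n (.n (.b 2) (.n (.b 4) (.n (.n (.b 2) (.n (.n (.b
  2) (.n (.b 4) (.n (.n (.b 2) (.l 99 7)) (.n (.n (.b 2) (.b 11)) (.b 3))))) (.n (.n (.b 2) (.b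
  6)) (.n (.n (.b 2) (.n (.l 99 7) (.n (.n (.b 2) (.n (.l 83 7) (.n (.b 6) (.n (.n (.b 2) (.n (.l
  132 6) (.n (.l 132 5) (.n (.n (.b 2) (.n (.n (.b 2) (.l 83 7)) (.b 8))) (.b 3))))) (.b 3)))))
  (.l 99 7)))) (.b 3))))) (.n (.n (.b 2) (.n (.n (.b 2) (.n (.b 4) (.n (.n (.b 2) (.n (.l 86 7)
  (.n (.l 107 7) (.n (.n (.b 2) (.n (.l 114 5) (.n (.l 118 4) (.n (.n (.b 2) (.n (.l 70 7) (.b
  8))) (.b 3))))) (.b 3))))) (.l 104 7)))) (.n (.n (.b 2) (.n (.l 99 7) (.n (.b 6) (.n (.n (.b 2)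
  (.n (.b 13) (.n (.l 99 7) (.n (.n (.b 2) (.n (.l 99 7) (.b 8))) (.b 3))))) (.b 3))))) (.n (.n
  (.b 2) (.n (.n (.b 2) (.n (.b 4) (.n (.l 112 7) (.n (.n (.b 2) (.n (.l 87 7) (.n (.l 112 5) (.n
  (.n (.b 2) (.n (.n (.b 2) (.l 51 10)) (.l 112 2))) (.b 3))))) (.b 3))))) (.l 110 7))) (.b 3)))))
  (.b 3))))) (.n (.n (.b 2) (.n (.n (.b 2) (.n (.b 4) (.n (.n (.b 2) (.l 81 7)) (.n (.n (.b 2) (.n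
  (.n (.b 2) (.n (.b 4) (.n (.l 106 7) (.n (.n (.b 2) (.n (.l 109 5) (.n (.l 109 4) (.n (.n (.b 2)
  (.n (.l 139 1) (.l 154 0))) (.b 3))))) (.b 3))))) (.l 81 7))) (.b 3))))) (.n (.b 6) (.n (.n (.b
  2) (.n (.l 81 7) (.n (.n (.b 2) (.n (.n (.b 2) (.n (.b 4) (.n (.l 81 7) (.n (.n (.b 2) (.n (.l
  81 7) (.n (.l 56 10) (.n (.n (.b 2) (.n (.l 124 2) (.n (.l 154 0) (.b 8)))) (.b 3))))) (.b
  3))))) (.l 81 7))) (.l 81 7)))) (.b 3))))) (.b 8)))) (.b 3))))) (.b 3))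

/-- A subtree of the table. -/
def s8 : T :=
  (.b 2)

/-- A subtree of the table. -/
def s9 : T :=
  (.n (.b 2) (.n (.b 4) (.n (.n (.b 2) (.n (.n (.b 2) (.n (.b 4) (.n (.n (.b 2) (.n (.n (.b 2) (.n
  (.b 4) (.n (.n (.b 2) (.n (.n (.b 2) (.n (.b 4) (.n (.n (.b 2) (.l 81 5)) (.l 142 4)))) (.n (.n
  (.b 2) (.b 6)) (.l 128 4)))) (.n (.n (.b 2) (.l 142 4)) (.b 3))))) (.n (.n (.b 2) (.b 6)) (.n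
  (.n (.b 2) (.n (.n (.b 2) (.l 142 4)) (.n (.n (.b 2) (.l 142 4)) (.n (.l 142 4) (.b 3))))) (.b
  3))))) (.n (.n (.b 2) (.n (.n (.b 2) (.n (.b 4) (.b 11))) (.n (.n (.b 2) (.n (.n (.b 2) (.n (.b
  4) (.l 154 2))) (.n (.b 6) (.n (.l 154 2) (.b 3))))) (.n (.n (.b 2) (.n (.n (.b 2) (.l 154 2))
  (.n (.l 154 2) (.b 8)))) (.b 3))))) (.b 3))))) (.n (.n (.b 2) (.b 6)) (.n (.n (.b 2) (.n (.n (.b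
  2) (.n (.b 4) (.n (.n (.b 2) (.n (.n (.b 2) (.l 127 4)) (.n (.l 131 4) (.n (.n (.b 2) (.n (.n
  (.b 2) (.n (.b 4) (.n (.n (.b 2) (.n (.l 154 2) (.n (.l 154 1) (.l 119 4)))) (.l 100 4)))) (.l
  143 4))) (.b 3))))) (.n (.n (.b 2) (.n (.l 115 4) (.n (.l 115 4) (.n (.l 115 4) (.b 3))))) (.b
  3))))) (.n (.n (.b 2) (.n (.n (.b 2) (.n (.b 4) (.n (.b 12) (.n (.l 60 10) (.b 3))))) (.n (.b 6)
  (.n (.n (.b 2) (.n (.l 140 4) (.n (.l 140 4) (.n (.n (.b 2) (.n (.n (.b 2) (.n (.b 4) (.n (.n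
  (.b 2) (.n (.l 105 4) (.n (.l 89 4) (.n (.n (.b 2) (.l 124 4)) (.b 3))))) (.l 150 4)))) (.b 8)))
  (.b 3))))) (.b 3))))) (.n (.n (.b 2) (.n (.n (.b 2) (.n (.b 4) (.n (.l 125 4) (.n (.n (.b 2) (.n
  (.n (.b 2) (.n (.b 4) (.n (.n (.b 2) (.n (.l 85 4) (.n (.l 154 2) (.n (.l 124 4) (.b 3))))) (.l
  146 4)))) (.l 129 4))) (.b 3))))) (.b 8))) (.b 3))))) (.b 3))))) (.n (.n (.b 2) (.n (.n (.b 2)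
  (.n (.b 4) (.n (.n (.b 2) (.n (.n (.b 2) (.n (.b 4) (.b 11))) (.n (.n (.b 2) (.b 6)) (.n (.n (.b
  2) (.n (.n (.b 2) (.l 117 4)) (.n (.l 118 4) (.n (.n (.b 2) (.n (.n (.b 2) (.n (.b 4) (.n (.l
  138 4) (.n (.n (.b 2) (.n (.n (.b 2) (.l 77 4)) (.l 138 2))) (.b 3))))) (.b 8))) (.b 3))))) (.b
  3))))) (.n (.n (.b 2) (.n (.n (.b 2) (.n (.b 4) (.n (.l 132 4) (.n (.n (.b 2) (.n (.n (.b 2) (.n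
  (.b 4) (.n (.l 145 4) (.n (.n (.b 2) (.n (.l 124 4) (.l 154 1))) (.b 3))))) (.l 141 4))) (.b
  3))))) (.n (.n (.b 2) (.n (.l 128 4) (.n (.b 6) (.n (.l 128 4) (.b 3))))) (.n (.n (.b 2) (.n (.l
  128 4) (.n (.n (.b 2) (.n (.n (.b 2) (.n (.b 4) (.n (.l 128 4) (.n (.n (.b 2) (.n (.n (.b 2) (.l
  67 10)) (.l 115 4))) (.b 3))))) (.l 128 4))) (.b 8)))) (.b 3))))) (.b 3))))) (.n (.n (.b 2) (.n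
  (.n (.b 2) (.n (.b 4) (.n (.n (.b 2) (.n (.n (.b 2) (.l 139 4)) (.n (.n (.b 2) (.b 6)) (.n (.l
  139 4) (.b 3))))) (.n (.n (.b 2) (.n (.l 139 4) (.n (.n (.b 2) (.n (.n (.b 2) (.n (.b 4) (.n (.l
  140 4) (.n (.n (.b 2) (.n (.l 152 1) (.l 91 10))) (.b 3))))) (.l 139 4))) (.n (.l 139 4) (.b
  3))))) (.b 3))))) (.n (.b 6) (.n (.n (.b 2) (.n (.n (.b 2) (.n (.b 4) (.n (.l 114 4) (.l 114
  4)))) (.n (.n (.b 2) (.n (.l 99 4) (.n (.b 6) (.l 99 4)))) (.n (.n (.b 2) (.n (.l 99 4) (.b 8)))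
  (.b 3))))) (.b 3))))) (.n (.n (.b 2) (.n (.n (.b 2) (.n (.b 4) (.n (.n (.b 2) (.n (.l 128 4) (.n
  (.n (.b 2) (.b 6)) (.n (.l 128 4) (.b 3))))) (.n (.n (.b 2) (.n (.l 115 4) (.n (.l 128 4) (.n
  (.n (.b 2) (.n (.n (.b 2) (.n (.b 4) (.n (.l 151 4) (.n (.n (.b 2) (.n (.l 99 4) (.n (.l 154 2)
  (.n (.l 119 4) (.b 3))))) (.b 3))))) (.l 139 4))) (.b 3))))) (.b 3))))) (.n (.n (.b 2) (.n (.n
  (.b 2) (.n (.b 4) (.n (.l 126 4) (.n (.n (.b 2) (.n (.n (.b 2) (.n (.b 4) (.n (.l 151 4) (.n (.n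
  (.b 2) (.n (.l 154 2) (.n (.l 154 1) (.l 124 4)))) (.b 3))))) (.l 126 4))) (.b 3))))) (.n (.b 6)
  (.n (.n (.b 2) (.n (.l 126 4) (.n (.n (.b 2) (.n (.n (.b 2) (.n (.b 4) (.n (.l 126 4) (.n (.n
  (.b 2) (.n (.l 126 4) (.n (.l 101 7) (.n (.l 65 10) (.b 3))))) (.b 3))))) (.l 126 4))) (.l 126
  4)))) (.b 3))))) (.b 8)))) (.b 3))))) (.b 3)))))

/-- A subtree of the table. -/
def s10 : T :=
  (.n (.n (.b 2) (.n (.n (.b 2) (.n (.b 4) (.n (.n (.b 2) (.n (.n (.b 2) (.n (.b 4) (.n (.n (.b 2)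
  (.n (.n (.b 2) (.n (.b 4) (.n (.n (.b 2) (.n (.l 154 1) (.n (.n (.b 2) (.b 6)) (.l 154 1)))) (.l
  154 1)))) (.n (.n (.b 2) (.b 6)) (.n (.l 154 1) (.b 3))))) (.n (.n (.b 2) (.n (.n (.b 2) (.n (.b
  4) (.b 11))) (.n (.n (.b 2) (.n (.l 154 1) (.n (.b 6) (.l 154 1)))) (.n (.l 154 1) (.b 3)))))
  (.b 3))))) (.n (.n (.b 2) (.b 6)) (.n (.n (.b 2) (.n (.n (.b 2) (.n (.b 4) (.n (.n (.b 2) (.l
  110 1)) (.n (.l 110 1) (.b 3))))) (.n (.n (.b 2) (.n (.b 12) (.n (.b 6) (.l 139 1)))) (.n (.n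
  (.b 2) (.n (.l 154 1) (.b 8))) (.b 3))))) (.b 3))))) (.n (.n (.b 2) (.n (.n (.b 2) (.n (.b 4)
  (.n (.n (.b 2) (.n (.b 11) (.n (.n (.b 2) (.b 6)) (.n (.l 122 1) (.b 3))))) (.n (.n (.b 2) (.n
  (.n (.b 2) (.l 126 1)) (.n (.l 126 1) (.n (.n (.b 2) (.n (.l 147 1) (.n (.n (.b 2) (.n (.n (.b
  2) (.n (.b 4) (.n (.l 154 1) (.n (.l 139 1) (.b 3))))) (.l 147 1))) (.b 8)))) (.b 3))))) (.b
  3))))) (.n (.n (.b 2) (.n (.n (.b 2) (.n (.b 4) (.n (.l 98 1) (.n (.n (.b 2) (.n (.l 98 1) (.n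
  (.n (.b 2) (.n (.n (.b 2) (.n (.b 4) (.n (.l 154 1) (.l 139 1)))) (.l 98 1))) (.l 74 1)))) (.b
  3))))) (.n (.b 6) (.n (.n (.b 2) (.n (.l 98 1) (.n (.n (.b 2) (.n (.l 98 1) (.n (.b 6) (.l 98
  1)))) (.l 98 1)))) (.b 3))))) (.n (.n (.b 2) (.n (.n (.b 2) (.n (.b 4) (.n (.n (.b 2) (.n (.l
  103 1) (.n (.n (.b 2) (.b 6)) (.l 103 1)))) (.n (.l 103 1) (.b 3))))) (.n (.n (.b 2) (.n (.l 122
  1) (.n (.b 6) (.n (.n (.b 2) (.n (.l 142 1) (.n (.n (.b 2) (.n (.n (.b 2) (.n (.b 4) (.n (.l 110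
  1) (.n (.n (.b 2) (.l 139 1)) (.b 3))))) (.l 98 1))) (.l 146 1)))) (.b 3))))) (.b 8)))) (.b
  3))))) (.b 3))))) (.n (.b 6) (.n (.n (.b 2) (.n (.n (.b 2) (.n (.b 4) (.n (.n (.b 2) (.n (.n (.b
  2) (.n (.b 4) (.n (.l 52 10) (.n (.l 52 10) (.b 3))))) (.n (.n (.b 2) (.b 6)) (.n (.n (.b 2) (.n
  (.l 52 10) (.n (.l 52 10) (.n (.l 52 10) (.b 3))))) (.b 3))))) (.n (.n (.b 2) (.n (.n (.b 2) (.n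
  (.b 4) (.n (.l 16 13) (.n (.l 16 13) (.b 3))))) (.n (.n (.b 2) (.n (.l 139 99) (.l 154 0))) (.n
  (.n (.b 2) (.n (.l 16 99) (.n (.l 16 99) (.b 8)))) (.b 3))))) (.b 3))))) (.n (.n (.b 2) (.n (.n
  (.b 2) (.n (.b 4) (.n (.n (.b 2) (.n (.l 69 10) (.n (.l 69 10) (.b 12)))) (.n (.n (.b 2) (.n (.l
  69 10) (.n (.l 48 10) (.n (.n (.b 2) (.n (.l 70 9) (.n (.n (.b 2) (.n (.l 70 6) (.n (.b 6) (.n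
  (.n (.b 2) (.n (.l 124 2) (.n (.l 154 0) (.l 139 1)))) (.b 3))))) (.b 8)))) (.b 3))))) (.b
  3))))) (.n (.b 6) (.n (.n (.b 2) (.n (.l 44 10) (.n (.n (.b 2) (.n (.l 65 10) (.n (.b 6) (.n (.n
  (.b 2) (.n (.l 36 10) (.n (.n (.b 2) (.n (.l 57 10) (.n (.b 6) (.n (.n (.b 2) (.n (.l 9 99) (.n
  (.n (.b 2) (.l 154 0)) (.l 124 99)))) (.b 3))))) (.l 70 10)))) (.b 3))))) (.l 69 10)))) (.b
  3))))) (.n (.n (.b 2) (.n (.n (.b 2) (.n (.b 4) (.n (.n (.b 2) (.n (.l 52 10) (.n (.l 52 10) (.n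
  (.n (.b 2) (.n (.l 53 10) (.n (.n (.b 2) (.n (.l 21 10) (.n (.b 6) (.n (.n (.b 2) (.n (.l 124 2)
  (.n (.l 139 1) (.l 154 0)))) (.b 3))))) (.l 70 8)))) (.b 3))))) (.l 70 10)))) (.b 8))) (.b
  3))))) (.b 3))))) (.n (.n (.b 2) (.n (.n (.b 2) (.n (.b 4) (.n (.n (.b 2) (.n (.n (.b 2) (.n (.b
  4) (.n (.n (.b 2) (.n (.n (.b 2) (.n (.b 4) (.l 80 9))) (.n (.n (.b 2) (.b 6)) (.n (.l 80 9) (.b
  3))))) (.n (.n (.b 2) (.b 11)) (.b 3))))) (.n (.n (.b 2) (.b 6)) (.n (.n (.b 2) (.n (.n (.b 2)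
  (.n (.b 4) (.n (.n (.b 2) (.n (.l 90 7) (.n (.l 94 6) (.n (.n (.b 2) (.n (.n (.b 2) (.n (.b 4)
  (.l 54 10))) (.l 106 3))) (.b 3))))) (.n (.l 78 9) (.b 3))))) (.n (.n (.b 2) (.n (.l 84 9) (.n
  (.b 6) (.n (.n (.b 2) (.n (.l 111 9) (.n (.l 111 8) (.n (.n (.b 2) (.n (.n (.b 2) (.n (.b 4) (.n
  (.n (.b 2) (.l 68 9)) (.l 129 2)))) (.b 8))) (.b 3))))) (.b 3))))) (.n (.l 84 9) (.b 3))))) (.b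
  3))))) (.n (.n (.b 2) (.n (.n (.b 2) (.n (.b 4) (.n (.n (.b 2) (.n (.n (.b 2) (.l 65 9)) (.n (.l
  86 9) (.n (.n (.b 2) (.n (.l 93 8) (.n (.l 93 7) (.n (.n (.b 2) (.n (.n (.b 2) (.n (.b 4) (.n
  (.l 93 1) (.l 32 9)))) (.b 8))) (.b 3))))) (.b 3))))) (.n (.n (.b 2) (.n (.l 83 9) (.n (.l 83 9)
  (.n (.l 83 9) (.b 3))))) (.b 3))))) (.n (.n (.b 2) (.n (.n (.b 2) (.n (.b 4) (.n (.l 115 9) (.n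
  (.l 115 9) (.b 3))))) (.n (.b 6) (.n (.n (.b 2) (.n (.b 13) (.n (.l 54 10) (.n (.n (.b 2) (.n
  (.l 54 10) (.b 8))) (.b 3))))) (.b 3))))) (.n (.n (.b 2) (.n (.n (.b 2) (.n (.b 4) (.n (.l 91 9)
  (.n (.n (.b 2) (.n (.l 66 9) (.n (.l 91 8) (.n (.n (.b 2) (.n (.n (.b 2) (.n (.b 4) (.n (.l 93
  2) (.n (.l 32 9) (.b 3))))) (.l 91 5))) (.b 3))))) (.b 3))))) (.n (.l 89 9) (.b 8)))) (.b 3)))))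
  (.b 3))))) (.n (.n (.b 2) (.n (.n (.b 2) (.n (.b 4) (.n (.n (.b 2) (.n (.n (.b 2) (.n (.b 4) (.n
  (.n (.b 2) (.l 97 3)) (.n (.l 97 3) (.b 3))))) (.n (.n (.b 2) (.b 6)) (.n (.n (.b 2) (.b 12))
  (.b 3))))) (.n (.n (.b 2) (.n (.n (.b 2) (.n (.b 4) (.n (.l 61 10) (.n (.n (.b 2) (.n (.l 64 8)
  (.n (.l 64 7) (.n (.n (.b 2) (.n (.l 85 4) (.n (.n (.b 2) (.n (.l 24 13) (.l 85 1))) (.b 8))))
  (.b 3))))) (.b 3))))) (.n (.n (.b 2) (.n (.l 36 10) (.n (.b 6) (.n (.l 36 10) (.b 3))))) (.n (.n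
  (.b 2) (.n (.l 41 10) (.n (.n (.b 2) (.n (.l 60 9) (.n (.b 6) (.n (.n (.b 2) (.n (.l 80 5) (.n
  (.n (.b 2) (.n (.n (.b 2) (.l 36 10)) (.l 36 10))) (.l 84 4)))) (.b 3))))) (.b 8)))) (.b 3)))))
  (.b 3))))) (.n (.b 6) (.n (.n (.b 2) (.n (.n (.b 2) (.n (.b 4) (.n (.n (.b 2) (.n (.l 76 9) (.n
  (.n (.b 2) (.b 6)) (.l 76 9)))) (.n (.n (.b 2) (.n (.l 76 9) (.n (.b 13) (.n (.n (.b 2) (.n (.l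
  76 9) (.n (.l 76 9) (.b 8)))) (.b 3))))) (.b 3))))) (.n (.n (.b 2) (.n (.n (.b 2) (.n (.b 4) (.n
  (.l 93 9) (.n (.n (.b 2) (.n (.l 93 9) (.n (.l 72 9) (.n (.n (.b 2) (.n (.l 121 5) (.n (.n (.b
  2) (.n (.l 138 2) (.n (.b 6) (.l 77 9)))) (.b 8)))) (.b 3))))) (.b 3))))) (.n (.b 6) (.n (.n (.b
  2) (.n (.l 68 9) (.n (.n (.b 2) (.n (.l 89 9) (.n (.b 6) (.n (.n (.b 2) (.n (.l 60 9) (.n (.n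
  (.b 2) (.n (.l 81 9) (.n (.b 6) (.n (.l 36 10) (.b 3))))) (.l 97 9)))) (.b 3))))) (.l 93 9))))
  (.b 3))))) (.n (.n (.b 2) (.n (.n (.b 2) (.n (.b 4) (.n (.n (.b 2) (.n (.l 76 9) (.n (.l 76 9)
  (.n (.n (.b 2) (.n (.l 77 9) (.n (.n (.b 2) (.n (.l 40 10) (.n (.b 6) (.l 36 10)))) (.l 97 4))))
  (.b 3))))) (.l 97 9)))) (.b 8))) (.b 3))))) (.b 3))))) (.n (.n (.b 2) (.n (.n (.b 2) (.n (.b 4)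
  (.n (.n (.b 2) (.n (.n (.b 2) (.n (.b 4) (.l 62 9))) (.n (.l 62 9) (.n (.n (.b 2) (.n (.l 62 9)
  (.n (.n (.b 2) (.n (.l 37 9) (.n (.b 6) (.n (.n (.b 2) (.n (.l 111 5) (.n (.l 111 4) (.n (.n (.b
  2) (.n (.l 154 0) (.b 8))) (.b 3))))) (.b 3))))) (.l 74 9)))) (.b 3))))) (.n (.n (.b 2) (.n (.n
  (.b 2) (.n (.b 4) (.n (.n (.b 2) (.n (.l 61 9) (.n (.l 86 7) (.n (.n (.b 2) (.n (.l 86 4) (.n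
  (.l 86 3) (.n (.n (.b 2) (.l 154 0)) (.b 3))))) (.b 3))))) (.l 83 9)))) (.l 66 9))) (.b 3)))))
  (.b 8))) (.b 3))))) (.b 3)))

/-- A subtree of the table. -/
def s11 : T :=
  (.n (.n (.b 2) (.n (.n (.b 2) (.n (.b 4) (.n (.n (.b 2) (.n (.n (.b 2) (.n (.b 4) (.n (.n (.b 2)
  (.n (.n (.b 2) (.n (.b 4) (.n (.n (.b 2) (.l 96 4)) (.l 96 4)))) (.n (.n (.b 2) (.b 6)) (.n (.n
  (.b 2) (.n (.n (.b 2) (.l 96 4)) (.l 96 4))) (.b 3))))) (.n (.n (.b 2) (.n (.n (.b 2) (.b 11))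
  (.n (.n (.b 2) (.l 139 1)) (.n (.n (.b 2) (.n (.l 139 1) (.n (.l 139 1) (.b 8)))) (.b 3))))) (.b
  3))))) (.n (.n (.b 2) (.b 6)) (.n (.n (.b 2) (.n (.n (.b 2) (.n (.b 4) (.n (.n (.b 2) (.n (.l 81
  9) (.n (.l 85 9) (.n (.n (.b 2) (.n (.n (.b 2) (.n (.b 4) (.n (.n (.b 2) (.n (.l 139 1) (.l 154
  0))) (.l 54 9)))) (.l 97 6))) (.b 3))))) (.n (.l 69 9) (.b 3))))) (.n (.n (.b 2) (.n (.n (.b 2)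
  (.n (.b 4) (.l 75 9))) (.n (.b 6) (.n (.n (.b 2) (.n (.l 102 9) (.n (.l 102 9) (.n (.n (.b 2)
  (.n (.n (.b 2) (.n (.b 4) (.n (.n (.b 2) (.n (.l 59 9) (.n (.l 43 9) (.n (.l 154 0) (.b 3)))))
  (.l 104 5)))) (.b 8))) (.b 3))))) (.b 3))))) (.n (.n (.b 2) (.n (.n (.b 2) (.n (.b 4) (.n (.l 79
  9) (.n (.n (.b 2) (.n (.n (.b 2) (.n (.b 4) (.n (.n (.b 2) (.n (.l 39 12) (.n (.l 139 1) (.l 154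
  0)))) (.l 100 4)))) (.l 83 7))) (.b 3))))) (.b 8))) (.b 3))))) (.b 3))))) (.n (.n (.b 2) (.n (.n
  (.b 2) (.n (.b 4) (.n (.n (.b 2) (.n (.n (.b 2) (.n (.b 4) (.b 11))) (.n (.n (.b 2) (.b 6)) (.n
  (.n (.b 2) (.n (.l 84 9) (.n (.l 85 9) (.n (.n (.b 2) (.n (.n (.b 2) (.n (.b 4) (.n (.l 109 4)
  (.n (.n (.b 2) (.n (.l 154 0) (.l 139 1))) (.b 3))))) (.b 8))) (.b 3))))) (.b 3))))) (.n (.n (.b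
  2) (.n (.n (.b 2) (.n (.b 4) (.n (.l 86 9) (.n (.n (.b 2) (.n (.n (.b 2) (.n (.b 4) (.n (.l 99
  3) (.n (.n (.b 2) (.l 154 0)) (.b 3))))) (.l 95 6))) (.b 3))))) (.n (.l 82 9) (.n (.l 82 9) (.b
  3))))) (.b 3))))) (.n (.n (.b 2) (.n (.n (.b 2) (.n (.b 4) (.n (.n (.b 2) (.n (.n (.b 2) (.l 106
  9)) (.l 106 9))) (.n (.l 106 9) (.b 3))))) (.n (.b 6) (.n (.n (.b 2) (.n (.n (.b 2) (.n (.b 4)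
  (.l 154 0))) (.n (.l 53 9) (.n (.n (.b 2) (.n (.l 53 9) (.b 8))) (.b 3))))) (.b 3))))) (.n (.n
  (.b 2) (.n (.n (.b 2) (.n (.b 4) (.n (.l 82 9) (.n (.n (.b 2) (.n (.l 69 9) (.n (.l 82 9) (.n
  (.n (.b 2) (.n (.n (.b 2) (.n (.b 4) (.n (.l 105 5) (.n (.n (.b 2) (.n (.l 53 9) (.n (.l 139 1)
  (.l 154 0)))) (.b 3))))) (.l 93 8))) (.b 3))))) (.b 3))))) (.n (.n (.b 2) (.n (.n (.b 2) (.n (.b
  4) (.n (.l 80 9) (.n (.n (.b 2) (.n (.n (.b 2) (.n (.b 4) (.n (.l 105 4) (.n (.n (.b 2) (.n (.l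
  139 1) (.l 154 0))) (.b 3))))) (.l 80 9))) (.b 3))))) (.l 80 9))) (.b 8)))) (.b 3))))) (.b
  3))))) (.n (.n (.b 2) (.n (.n (.b 2) (.n (.b 4) (.n (.n (.b 2) (.n (.n (.b 2) (.n (.b 4) (.n (.n
  (.b 2) (.n (.n (.b 2) (.l 112 6)) (.l 112 6))) (.n (.n (.b 2) (.l 112 6)) (.b 3))))) (.n (.n (.b
  2) (.b 6)) (.n (.n (.b 2) (.n (.n (.b 2) (.n (.b 4) (.l 64 9))) (.n (.l 154 0) (.n (.n (.b 2)
  (.n (.l 139 1) (.b 8))) (.b 3))))) (.b 3))))) (.n (.n (.b 2) (.n (.n (.b 2) (.n (.b 4) (.n (.n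
  (.b 2) (.l 76 9)) (.n (.n (.b 2) (.n (.l 80 9) (.n (.l 80 9) (.n (.n (.b 2) (.n (.l 101 7) (.n
  (.n (.b 2) (.n (.n (.b 2) (.n (.b 4) (.n (.l 139 1) (.l 154 0)))) (.l 101 4))) (.b 8)))) (.b
  3))))) (.b 3))))) (.n (.n (.b 2) (.n (.n (.b 2) (.n (.b 4) (.n (.l 52 9) (.n (.n (.b 2) (.n (.l
  52 6) (.n (.n (.b 2) (.n (.n (.b 2) (.n (.b 4) (.l 154 0))) (.l 52 3))) (.l 28 13)))) (.b 3)))))
  (.n (.b 6) (.n (.l 52 9) (.b 3))))) (.n (.n (.b 2) (.n (.l 57 9) (.n (.n (.b 2) (.n (.l 76 9)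
  (.n (.b 6) (.n (.n (.b 2) (.n (.l 96 8) (.n (.n (.b 2) (.n (.n (.b 2) (.n (.b 4) (.n (.l 64 9)
  (.n (.l 154 0) (.b 3))))) (.l 52 9))) (.l 100 7)))) (.b 3))))) (.b 8)))) (.b 3))))) (.b 3)))))
  (.n (.b 6) (.n (.n (.b 2) (.n (.n (.b 2) (.n (.b 4) (.n (.n (.b 2) (.n (.n (.b 2) (.l 67 9)) (.n
  (.n (.b 2) (.b 6)) (.l 67 9)))) (.n (.n (.b 2) (.n (.l 31 12) (.n (.n (.b 2) (.l 154 0)) (.n (.n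
  (.b 2) (.n (.l 31 99) (.n (.l 31 99) (.b 8)))) (.b 3))))) (.b 3))))) (.n (.n (.b 2) (.n (.n (.b
  2) (.n (.b 4) (.n (.l 84 9) (.n (.n (.b 2) (.n (.l 84 9) (.n (.l 63 9) (.n (.n (.b 2) (.n (.l 85
  8) (.n (.n (.b 2) (.n (.l 85 5) (.n (.b 6) (.n (.n (.b 2) (.n (.l 139 1) (.l 154 0))) (.b 3)))))
  (.b 8)))) (.b 3))))) (.b 3))))) (.n (.b 6) (.n (.n (.b 2) (.n (.l 59 9) (.n (.n (.b 2) (.n (.l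
  80 9) (.n (.b 6) (.n (.n (.b 2) (.n (.l 51 9) (.n (.n (.b 2) (.n (.l 72 9) (.n (.b 6) (.n (.n
  (.b 2) (.n (.l 24 99) (.n (.l 154 0) (.l 139 99)))) (.b 3))))) (.l 85 9)))) (.b 3))))) (.l 84
  9)))) (.b 3))))) (.n (.n (.b 2) (.n (.n (.b 2) (.n (.b 4) (.n (.n (.b 2) (.n (.l 67 9) (.n (.l
  67 9) (.n (.n (.b 2) (.n (.l 68 9) (.n (.n (.b 2) (.n (.l 36 9) (.n (.b 6) (.n (.n (.b 2) (.n
  (.l 139 1) (.l 154 0))) (.b 3))))) (.l 85 7)))) (.b 3))))) (.l 85 9)))) (.b 8))) (.b 3))))) (.b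
  3))))) (.n (.n (.b 2) (.n (.n (.b 2) (.n (.b 4) (.n (.n (.b 2) (.n (.n (.b 2) (.n (.b 4) (.n (.n
  (.b 2) (.l 69 9)) (.n (.n (.b 2) (.b 11)) (.b 3))))) (.n (.n (.b 2) (.b 6)) (.n (.n (.b 2) (.n
  (.l 69 9) (.n (.n (.b 2) (.n (.l 53 9) (.n (.b 6) (.n (.n (.b 2) (.n (.l 102 8) (.n (.l 102 7)
  (.n (.n (.b 2) (.n (.n (.b 2) (.n (.b 4) (.n (.l 154 0) (.l 139 1)))) (.b 8))) (.b 3))))) (.b
  3))))) (.l 69 9)))) (.b 3))))) (.n (.n (.b 2) (.n (.n (.b 2) (.n (.b 4) (.n (.n (.b 2) (.n (.l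
  56 9) (.n (.l 77 9) (.n (.n (.b 2) (.n (.l 84 7) (.n (.l 88 6) (.n (.n (.b 2) (.n (.n (.b 2) (.n
  (.b 4) (.l 154 0))) (.b 8))) (.b 3))))) (.b 3))))) (.l 74 9)))) (.n (.n (.b 2) (.n (.l 69 9) (.n
  (.b 6) (.n (.n (.b 2) (.n (.b 13) (.n (.l 69 9) (.n (.n (.b 2) (.n (.l 69 9) (.b 8))) (.b 3)))))
  (.b 3))))) (.n (.n (.b 2) (.n (.n (.b 2) (.n (.b 4) (.n (.l 82 9) (.n (.n (.b 2) (.n (.l 57 9)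
  (.n (.l 82 7) (.n (.n (.b 2) (.n (.n (.b 2) (.n (.b 4) (.n (.l 139 1) (.l 154 0)))) (.l 82 4)))
  (.b 3))))) (.b 3))))) (.l 80 9))) (.b 3))))) (.b 3))))) (.n (.n (.b 2) (.n (.n (.b 2) (.n (.b 4)
  (.n (.n (.b 2) (.n (.n (.b 2) (.n (.b 4) (.l 51 9))) (.n (.l 51 9) (.n (.n (.b 2) (.b 12)) (.b
  3))))) (.n (.n (.b 2) (.n (.n (.b 2) (.n (.b 4) (.n (.l 76 9) (.n (.n (.b 2) (.n (.l 79 7) (.n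
  (.l 79 6) (.n (.n (.b 2) (.n (.l 109 3) (.n (.n (.b 2) (.l 154 0)) (.b 8)))) (.b 3))))) (.b
  3))))) (.l 51 9))) (.b 3))))) (.n (.b 6) (.n (.n (.b 2) (.n (.n (.b 2) (.n (.b 4) (.n (.l 51 9)
  (.n (.n (.b 2) (.n (.l 51 9) (.n (.b 13) (.n (.n (.b 2) (.n (.l 51 9) (.n (.l 51 9) (.b 8))))
  (.b 3))))) (.b 3))))) (.n (.n (.b 2) (.n (.n (.b 2) (.n (.b 4) (.n (.l 51 9) (.n (.n (.b 2) (.n
  (.l 51 9) (.n (.l 26 12) (.n (.n (.b 2) (.n (.l 94 4) (.n (.n (.b 2) (.n (.l 139 1) (.l 154 0)))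
  (.b 8)))) (.b 3))))) (.b 3))))) (.l 51 9))) (.n (.l 51 9) (.b 3))))) (.b 3))))) (.n (.n (.b 2)
  (.b 8)) (.b 3))))) (.b 3))))) (.b 3))

/-- A subtree of the table. -/
def u0 : T := .n s2 s3

/-- A subtree of the table. -/
def u1 : T := .n s1 u0

/-- A subtree of the table. -/
def u2 : T := .n s0 u1

/-- A subtree of the table. -/
def u3 : T := .n s6 s7

/-- A subtree of the table. -/
def u4 : T := .n s5 u3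

/-- A subtree of the table. -/
def u5 : T := .n s4 u4

/-- A subtree of the table. -/
def u6 : T := .n s9 s10

/-- A subtree of the table. -/
def u7 : T := .n s8 u6

/-- A subtree of the table. -/
def u8 : T := .n u7 s11

/-- A subtree of the table. -/
def u9 : T := .n u5 u8

/-- A subtree of the table. -/
def u10 : T := .n u2 u9

/-- The table. -/
def tb : T := u10

end Pool.Agent.Helper49.TF.B0
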