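import Pool.Agent.Helper49.TF.TabB1D

/-!
# Table B1: kernel check, part 3
-/

set_option autoImplicit false
set_option maxRecDepth 100000

namespace Pool.Agent.Helper49.TF.B1

theorem hs11 : chk 1 es el ws 25 tb s11
  [1, 0, 2, 1, 0] = true := by decide +kernel

end Pool.Agent.Helper49.TF.B1
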