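import Pool.Agent.Helper49.TF.Defs

set_option autoImplicit false
set_option maxRecDepth 100000

/-!
# Table B1: data
-/

namespace Pool.Agent.Helper49.TF.B1

/-- Upper bounds. -/
def es : List ℕ := [0, 1, 2, 3, 4, 4, 5, 6, 7, 8, 8, 9, 10, 11, 12, 13, 13, 14, 15, 16, 17]

/-- Lower bounds. -/
def el : List ℕ := [0, 1, 2, 3, 3, 4, 5, 6, 7, 7, 8, 9, 10, 10, 11, 12, 13, 14, 14, 15, 16]

/-- Rewards. -/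
def ws : List ℕ := [127, 100, 95, 84, 77, 63, 56, 42, 35, 21]

/-- A subtree of the table. -/
def s0 : T :=
  (.b 2)

/-- A subtree of the table. -/
def s1 : T :=
  (.n (.b 2) (.n (.n (.b 2) (.b 4)) (.n (.n (.b 2) (.n (.n (.b 2) (.n (.b 4) (.n (.n (.b 2) (.n
  (.n (.b 2) (.n (.b 4) (.n (.n (.b 2) (.n (.n (.b 2) (.n (.b 4) (.n (.n (.b 2) (.n (.n (.b 2) (.n
  (.b 4) (.l 263 0))) (.l 122 7))) (.l 213 6)))) (.n (.n (.b 2) (.b 6)) (.l 206 6)))) (.n (.n (.b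
  2) (.n (.l 213 6) (.n (.n (.b 2) (.n (.n (.b 2) (.n (.b 4) (.l 213 6))) (.l 213 6))) (.l 213
  6)))) (.b 3))))) (.n (.n (.b 2) (.b 6)) (.n (.n (.b 2) (.n (.n (.b 2) (.n (.b 4) (.l 213 6)))
  (.n (.n (.b 2) (.l 213 6)) (.n (.n (.b 2) (.l 213 6)) (.b 3))))) (.b 3))))) (.n (.n (.b 2) (.n
  (.n (.b 2) (.n (.b 4) (.n (.n (.b 2) (.b 11)) (.n (.n (.b 2) (.l 238 1)) (.b 3))))) (.n (.n (.b
  2) (.n (.n (.b 2) (.n (.b 4) (.l 213 4))) (.n (.b 6) (.n (.l 213 4) (.b 3))))) (.n (.n (.b 2)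
  (.n (.n (.b 2) (.l 213 4)) (.n (.n (.b 2) (.l 213 4)) (.b 8)))) (.b 3))))) (.b 3))))) (.n (.n
  (.b 2) (.b 6)) (.n (.n (.b 2) (.n (.n (.b 2) (.n (.b 4) (.n (.n (.b 2) (.n (.n (.b 2) (.n (.b 4)
  (.n (.n (.b 2) (.n (.n (.b 2) (.n (.b 4) (.l 184 6))) (.l 184 6))) (.l 184 6)))) (.n (.n (.b 2)
  (.b 6)) (.n (.n (.b 2) (.n (.n (.b 2) (.n (.b 4) (.n (.n (.b 2) (.n (.l 178 6) (.n (.l 213 4)
  (.n (.n (.b 2) (.n (.l 263 0) (.l 238 1))) (.b 3))))) (.l 213 6)))) (.l 212 6))) (.b 3))))) (.n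
  (.n (.b 2) (.n (.n (.b 2) (.n (.b 4) (.l 191 6))) (.n (.l 191 6) (.n (.l 191 6) (.b 3))))) (.b
  3))))) (.n (.n (.b 2) (.n (.n (.b 2) (.n (.b 4) (.n (.n (.b 2) (.l 263 0)) (.n (.n (.b 2) (.l
  106 12)) (.b 3))))) (.n (.b 6) (.n (.n (.b 2) (.n (.l 190 6) (.n (.l 190 6) (.n (.n (.b 2) (.n
  (.n (.b 2) (.n (.b 4) (.n (.n (.b 2) (.n (.l 184 6) (.n (.l 181 6) (.n (.n (.b 2) (.n (.l 163 6)
  (.n (.n (.b 2) (.l 263 0)) (.l 163 99)))) (.b 3))))) (.l 184 6)))) (.b 8))) (.b 3))))) (.b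
  3))))) (.n (.n (.b 2) (.n (.n (.b 2) (.n (.b 4) (.n (.n (.b 2) (.l 190 6)) (.n (.n (.b 2) (.n
  (.n (.b 2) (.n (.b 4) (.n (.n (.b 2) (.n (.l 163 6) (.n (.l 163 6) (.n (.n (.b 2) (.n (.l 163
  99) (.n (.l 238 99) (.l 263 0)))) (.b 3))))) (.l 163 6)))) (.l 190 6))) (.b 3))))) (.b 8))) (.b
  3))))) (.b 3))))) (.n (.n (.b 2) (.n (.n (.b 2) (.n (.b 4) (.n (.n (.b 2) (.n (.n (.b 2) (.n (.b
  4) (.n (.n (.b 2) (.n (.l 238 1) (.n (.n (.b 2) (.b 6)) (.l 238 1)))) (.n (.b 11) (.b 3))))) (.n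
  (.n (.b 2) (.b 6)) (.n (.n (.b 2) (.n (.n (.b 2) (.l 201 6)) (.n (.n (.b 2) (.l 204 6)) (.n (.n
  (.b 2) (.n (.n (.b 2) (.n (.b 4) (.n (.l 208 6) (.n (.n (.b 2) (.n (.n (.b 2) (.n (.b 4) (.n (.n
  (.b 2) (.l 263 0)) (.l 81 99)))) (.l 138 6))) (.b 3))))) (.b 8))) (.b 3))))) (.b 3))))) (.n (.n
  (.b 2) (.n (.n (.b 2) (.n (.b 4) (.n (.n (.b 2) (.l 204 6)) (.n (.n (.b 2) (.n (.n (.b 2) (.n
  (.b 4) (.n (.l 213 6) (.n (.n (.b 2) (.n (.n (.b 2) (.n (.b 4) (.n (.l 238 1) (.l 263 0)))) (.l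
  213 4))) (.b 3))))) (.l 213 6))) (.b 3))))) (.n (.n (.b 2) (.n (.n (.b 2) (.n (.b 4) (.l 204
  6))) (.n (.b 6) (.n (.l 204 6) (.b 3))))) (.n (.n (.b 2) (.n (.n (.b 2) (.l 204 6)) (.n (.n (.b
  2) (.n (.n (.b 2) (.n (.b 4) (.n (.l 204 6) (.n (.n (.b 2) (.n (.n (.b 2) (.n (.b 4) (.n (.l 120
  99) (.n (.l 263 0) (.b 3))))) (.l 204 6))) (.b 3))))) (.l 204 6))) (.b 8)))) (.b 3))))) (.b
  3))))) (.n (.n (.b 2) (.n (.n (.b 2) (.n (.b 4) (.n (.n (.b 2) (.n (.n (.b 2) (.n (.b 4) (.l 213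
  6))) (.n (.n (.b 2) (.b 6)) (.n (.n (.b 2) (.l 213 6)) (.b 3))))) (.n (.n (.b 2) (.n (.n (.b 2)
  (.l 213 6)) (.n (.n (.b 2) (.n (.n (.b 2) (.n (.b 4) (.n (.l 213 6) (.n (.n (.b 2) (.n (.l 194
  9) (.n (.n (.b 2) (.n (.l 263 0) (.l 238 1))) (.l 213 3)))) (.b 3))))) (.l 213 6))) (.n (.l 213
  6) (.b 3))))) (.b 3))))) (.n (.b 6) (.n (.n (.b 2) (.n (.n (.b 2) (.n (.b 4) (.n (.l 213 3) (.n
  (.n (.b 2) (.l 263 0)) (.b 3))))) (.n (.n (.b 2) (.n (.n (.b 2) (.l 181 6)) (.n (.b 6) (.l 181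
  6)))) (.n (.n (.b 2) (.n (.l 181 6) (.b 8))) (.b 3))))) (.b 3))))) (.n (.n (.b 2) (.n (.n (.b 2)
  (.n (.b 4) (.n (.n (.b 2) (.n (.n (.b 2) (.l 184 6)) (.n (.n (.b 2) (.b 6)) (.n (.l 184 6) (.b
  3))))) (.n (.n (.b 2) (.n (.l 184 6) (.n (.l 184 6) (.n (.n (.b 2) (.n (.n (.b 2) (.n (.b 4) (.n
  (.l 184 6) (.n (.n (.b 2) (.n (.l 181 6) (.n (.l 163 6) (.n (.n (.b 2) (.n (.n (.b 2) (.l 263
  0)) (.l 163 99))) (.b 3))))) (.b 3))))) (.l 184 6))) (.b 3))))) (.b 3))))) (.n (.n (.b 2) (.n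
  (.n (.b 2) (.n (.b 4) (.n (.n (.b 2) (.l 184 6)) (.n (.n (.b 2) (.n (.n (.b 2) (.n (.b 4) (.n
  (.l 118 6) (.n (.n (.b 2) (.n (.l 117 6) (.n (.l 213 6) (.n (.n (.b 2) (.n (.l 238 99) (.l 263
  0))) (.b 3))))) (.b 3))))) (.l 184 6))) (.b 3))))) (.n (.b 6) (.n (.n (.b 2) (.n (.l 184 6) (.n
  (.n (.b 2) (.n (.n (.b 2) (.n (.b 4) (.n (.l 184 6) (.n (.n (.b 2) (.n (.l 184 6) (.n (.l 131 9)
  (.n (.n (.b 2) (.n (.l 75 99) (.n (.l 263 0) (.b 8)))) (.b 3))))) (.b 3))))) (.l 184 6))) (.l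
  184 6)))) (.b 3))))) (.b 8)))) (.b 3))))) (.b 3)))))

/-- A subtree of the table. -/
def s2 : T :=
  (.n (.b 2) (.n (.n (.b 2) (.n (.b 4) (.n (.n (.b 2) (.n (.n (.b 2) (.n (.b 4) (.n (.n (.b 2) (.n
  (.n (.b 2) (.n (.b 4) (.n (.n (.b 2) (.n (.n (.b 2) (.n (.b 4) (.n (.n (.b 2) (.l 263 0)) (.l
  213 3)))) (.n (.n (.b 2) (.b 6)) (.l 199 3)))) (.l 238 3)))) (.n (.n (.b 2) (.b 6)) (.n (.n (.b
  2) (.l 238 3)) (.b 3))))) (.n (.n (.b 2) (.n (.n (.b 2) (.n (.b 4) (.b 11))) (.n (.n (.b 2) (.n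
  (.n (.b 2) (.n (.b 4) (.l 238 3))) (.n (.b 6) (.l 238 3)))) (.n (.l 238 3) (.b 3))))) (.b 3)))))
  (.n (.n (.b 2) (.b 6)) (.n (.n (.b 2) (.n (.n (.b 2) (.n (.b 4) (.n (.n (.b 2) (.l 238 3)) (.n
  (.n (.b 2) (.l 238 3)) (.b 3))))) (.n (.n (.b 2) (.n (.n (.b 2) (.l 263 0)) (.n (.b 6) (.n (.l
  238 3) (.b 3))))) (.n (.n (.b 2) (.n (.l 238 3) (.b 8))) (.b 3))))) (.b 3))))) (.n (.n (.b 2)
  (.n (.n (.b 2) (.n (.b 4) (.n (.n (.b 2) (.n (.n (.b 2) (.b 11)) (.n (.n (.b 2) (.b 6)) (.n (.l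
  156 3) (.b 3))))) (.n (.n (.b 2) (.n (.n (.b 2) (.l 238 3)) (.n (.n (.b 2) (.l 238 3)) (.n (.n
  (.b 2) (.n (.l 238 3) (.n (.n (.b 2) (.n (.n (.b 2) (.n (.b 4) (.n (.l 238 3) (.n (.n (.b 2) (.n
  (.n (.b 2) (.l 263 0)) (.l 188 3))) (.b 3))))) (.l 238 3))) (.b 8)))) (.b 3))))) (.b 3))))) (.n
  (.n (.b 2) (.n (.n (.b 2) (.n (.b 4) (.n (.n (.b 2) (.l 238 3)) (.n (.n (.b 2) (.n (.l 238 3)
  (.n (.n (.b 2) (.n (.n (.b 2) (.n (.b 4) (.n (.l 238 3) (.n (.n (.b 2) (.n (.l 163 6) (.l 263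
  0))) (.b 3))))) (.l 238 3))) (.l 238 3)))) (.b 3))))) (.n (.b 6) (.n (.n (.b 2) (.n (.n (.b 2)
  (.l 238 3)) (.n (.n (.b 2) (.n (.l 238 3) (.n (.b 6) (.l 238 3)))) (.l 238 3)))) (.b 3))))) (.n
  (.n (.b 2) (.n (.n (.b 2) (.n (.b 4) (.n (.n (.b 2) (.n (.l 238 3) (.n (.n (.b 2) (.b 6)) (.l
  238 3)))) (.n (.l 238 3) (.b 3))))) (.n (.n (.b 2) (.n (.l 238 3) (.n (.b 6) (.n (.n (.b 2) (.n
  (.l 238 3) (.n (.n (.b 2) (.n (.n (.b 2) (.n (.b 4) (.n (.l 238 3) (.n (.n (.b 2) (.n (.l 238 3)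
  (.n (.l 163 6) (.n (.l 263 0) (.b 3))))) (.b 3))))) (.l 238 3))) (.l 238 3)))) (.b 3))))) (.b
  8)))) (.b 3))))) (.b 3))))) (.n (.n (.b 2) (.n (.n (.b 2) (.n (.b 4) (.n (.n (.b 2) (.n (.n (.b
  2) (.n (.b 4) (.n (.n (.b 2) (.n (.l 263 0) (.l 263 0))) (.n (.n (.b 2) (.l 263 0)) (.b 3)))))
  (.n (.n (.b 2) (.b 6)) (.n (.n (.b 2) (.n (.n (.b 2) (.l 263 0)) (.n (.l 263 0) (.l 263 0))))
  (.b 3))))) (.n (.n (.b 2) (.n (.n (.b 2) (.n (.b 4) (.n (.n (.b 2) (.l 263 0)) (.n (.l 263 0)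
  (.b 3))))) (.n (.n (.b 2) (.n (.n (.b 2) (.l 263 0)) (.n (.b 6) (.l 263 0)))) (.n (.n (.b 2) (.n
  (.l 263 0) (.l 263 0))) (.b 3))))) (.b 3))))) (.b 6))) (.n (.n (.b 2) (.n (.n (.b 2) (.n (.b 4)
  (.n (.n (.b 2) (.n (.n (.b 2) (.n (.b 4) (.n (.n (.b 2) (.n (.n (.b 2) (.n (.b 4) (.l 176 8)))
  (.n (.n (.b 2) (.b 6)) (.l 176 8)))) (.n (.l 176 8) (.b 3))))) (.n (.n (.b 2) (.b 6)) (.n (.n
  (.b 2) (.n (.n (.b 2) (.n (.b 4) (.n (.n (.b 2) (.n (.l 170 8) (.n (.l 205 6) (.n (.n (.b 2) (.n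
  (.n (.b 2) (.n (.b 4) (.l 263 0))) (.l 211 3))) (.b 3))))) (.l 205 8)))) (.n (.l 204 8) (.n (.l
  204 8) (.b 3))))) (.b 3))))) (.n (.n (.b 2) (.n (.n (.b 2) (.n (.b 4) (.n (.l 218 6) (.n (.l 218
  6) (.b 3))))) (.n (.n (.b 2) (.n (.n (.b 2) (.l 238 3)) (.n (.b 6) (.n (.l 263 0) (.b 3))))) (.n
  (.n (.b 2) (.n (.l 113 8) (.n (.l 113 8) (.b 8)))) (.b 3))))) (.b 3))))) (.n (.n (.b 2) (.n (.n
  (.b 2) (.n (.b 4) (.n (.n (.b 2) (.n (.n (.b 2) (.l 179 2)) (.n (.n (.b 2) (.b 6)) (.l 263 0))))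
  (.n (.n (.b 2) (.n (.l 56 12) (.n (.l 56 12) (.n (.n (.b 2) (.n (.l 56 12) (.n (.n (.b 2) (.n
  (.l 129 12) (.n (.b 6) (.n (.n (.b 2) (.n (.l 56 14) (.n (.n (.b 2) (.n (.n (.b 2) (.l 263 0))
  (.l 56 14))) (.l 163 14)))) (.b 3))))) (.b 8)))) (.b 3))))) (.b 3))))) (.n (.b 6) (.n (.n (.b 2)
  (.n (.n (.b 2) (.n (.b 4) (.n (.n (.b 2) (.n (.l 140 8) (.n (.n (.b 2) (.b 6)) (.l 140 8)))) (.l
  140 8)))) (.n (.n (.b 2) (.n (.l 140 8) (.n (.b 6) (.n (.n (.b 2) (.n (.l 140 8) (.n (.n (.b 2)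
  (.n (.l 173 8) (.n (.b 6) (.n (.n (.b 2) (.n (.l 140 8) (.n (.n (.b 2) (.n (.l 238 8) (.n (.b 6)
  (.n (.l 263 0) (.b 3))))) (.l 140 8)))) (.b 3))))) (.l 140 8)))) (.b 3))))) (.n (.n (.b 2) (.n
  (.n (.b 2) (.n (.b 4) (.n (.n (.b 2) (.n (.l 134 8) (.n (.l 131 8) (.n (.n (.b 2) (.n (.l 113 8)
  (.n (.n (.b 2) (.n (.l 52 12) (.n (.b 6) (.l 263 0)))) (.l 113 12)))) (.b 3))))) (.l 134 8))))
  (.b 8))) (.b 3))))) (.b 3))))) (.n (.n (.b 2) (.n (.n (.b 2) (.n (.b 4) (.n (.n (.b 2) (.n (.l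
  140 8) (.n (.l 140 8) (.n (.n (.b 2) (.n (.l 140 8) (.n (.n (.b 2) (.n (.l 140 8) (.n (.b 6) (.n
  (.n (.b 2) (.n (.l 140 8) (.n (.l 219 8) (.n (.n (.b 2) (.n (.l 263 0) (.b 8))) (.b 3))))) (.b
  3))))) (.l 140 8)))) (.b 3))))) (.n (.n (.b 2) (.n (.n (.b 2) (.n (.b 4) (.n (.n (.b 2) (.n (.l
  113 8) (.n (.l 113 8) (.n (.n (.b 2) (.n (.l 113 12) (.n (.l 179 12) (.n (.n (.b 2) (.l 263 0))
  (.b 3))))) (.b 3))))) (.l 113 8)))) (.l 140 8))) (.b 3))))) (.b 8))) (.b 3))))) (.b 3)))))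

/-- A subtree of the table. -/
def s3 : T :=
  (.n (.n (.b 2) (.n (.n (.b 2) (.n (.b 4) (.n (.n (.b 2) (.n (.n (.b 2) (.n (.b 4) (.n (.n (.b 2)
  (.n (.n (.b 2) (.n (.b 4) (.l 222 3))) (.n (.n (.b 2) (.b 6)) (.n (.l 222 3) (.b 3))))) (.n (.n
  (.b 2) (.n (.b 11) (.n (.l 263 0) (.l 263 0)))) (.b 3))))) (.n (.n (.b 2) (.b 6)) (.n (.n (.b 2)
  (.n (.n (.b 2) (.n (.b 4) (.n (.n (.b 2) (.n (.l 172 8) (.n (.l 207 8) (.n (.n (.b 2) (.n (.n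
  (.b 2) (.n (.b 4) (.n (.n (.b 2) (.n (.l 151 8) (.l 263 0))) (.l 238 3)))) (.l 228 6))) (.b
  3))))) (.n (.l 207 8) (.b 3))))) (.n (.n (.b 2) (.n (.l 206 8) (.n (.b 6) (.n (.n (.b 2) (.n (.l
  206 8) (.n (.l 206 8) (.n (.n (.b 2) (.n (.n (.b 2) (.n (.b 4) (.n (.n (.b 2) (.n (.l 185 8) (.n
  (.l 154 8) (.n (.l 263 0) (.b 3))))) (.l 185 8)))) (.b 8))) (.b 3))))) (.b 3))))) (.n (.n (.b 2)
  (.n (.n (.b 2) (.n (.b 4) (.n (.l 206 8) (.n (.n (.b 2) (.n (.n (.b 2) (.n (.b 4) (.n (.n (.b 2)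
  (.n (.l 150 11) (.n (.l 150 99) (.l 263 0)))) (.l 150 11)))) (.l 206 8))) (.b 3))))) (.b 8)))
  (.b 3))))) (.b 3))))) (.n (.n (.b 2) (.n (.n (.b 2) (.n (.b 4) (.n (.n (.b 2) (.n (.n (.b 2) (.l
  220 8)) (.n (.n (.b 2) (.b 6)) (.n (.n (.b 2) (.n (.l 217 8) (.n (.l 220 8) (.n (.n (.b 2) (.n
  (.n (.b 2) (.n (.b 4) (.n (.l 238 8) (.n (.n (.b 2) (.n (.l 263 0) (.l 154 99))) (.b 3))))) (.b
  8))) (.b 3))))) (.b 3))))) (.n (.n (.b 2) (.n (.n (.b 2) (.n (.b 4) (.n (.l 220 8) (.n (.n (.b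
  2) (.n (.n (.b 2) (.n (.b 4) (.n (.l 238 3) (.n (.n (.b 2) (.l 263 0)) (.b 3))))) (.l 238 6)))
  (.b 3))))) (.n (.l 220 8) (.n (.l 220 8) (.b 3))))) (.b 3))))) (.n (.n (.b 2) (.n (.n (.b 2) (.n
  (.b 4) (.n (.l 238 6) (.n (.l 238 6) (.b 3))))) (.n (.b 6) (.n (.n (.b 2) (.n (.n (.b 2) (.l 263
  0)) (.n (.l 154 8) (.n (.n (.b 2) (.n (.l 154 8) (.b 8))) (.b 3))))) (.b 3))))) (.n (.n (.b 2)
  (.n (.n (.b 2) (.n (.b 4) (.n (.l 175 8) (.n (.n (.b 2) (.n (.l 175 8) (.n (.l 175 8) (.n (.n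
  (.b 2) (.n (.n (.b 2) (.n (.b 4) (.n (.l 165 8) (.n (.n (.b 2) (.n (.l 154 8) (.n (.l 154 99)
  (.l 263 0)))) (.b 3))))) (.l 175 8))) (.b 3))))) (.b 3))))) (.n (.n (.b 2) (.n (.n (.b 2) (.n
  (.b 4) (.n (.l 175 8) (.n (.n (.b 2) (.n (.n (.b 2) (.n (.b 4) (.n (.l 91 11) (.n (.n (.b 2) (.n
  (.l 90 99) (.l 263 0))) (.b 3))))) (.l 175 8))) (.b 3))))) (.l 175 8))) (.b 8)))) (.b 3))))) (.b
  3))))) (.n (.n (.b 2) (.n (.n (.b 2) (.n (.b 4) (.n (.n (.b 2) (.n (.n (.b 2) (.n (.b 4) (.n (.n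
  (.b 2) (.l 238 5)) (.n (.n (.b 2) (.l 238 5)) (.b 3))))) (.n (.n (.b 2) (.b 6)) (.n (.n (.b 2)
  (.n (.l 163 8) (.l 263 0))) (.b 3))))) (.n (.n (.b 2) (.n (.n (.b 2) (.n (.b 4) (.n (.n (.b 2)
  (.l 129 8)) (.n (.n (.b 2) (.n (.l 129 8) (.n (.l 163 8) (.n (.n (.b 2) (.n (.l 163 8) (.n (.n
  (.b 2) (.n (.n (.b 2) (.n (.b 4) (.n (.l 163 99) (.l 263 0)))) (.l 164 8))) (.b 8)))) (.b 3)))))
  (.b 3))))) (.n (.n (.b 2) (.n (.n (.b 2) (.n (.b 4) (.n (.l 161 8) (.n (.n (.b 2) (.n (.l 144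
  11) (.n (.n (.b 2) (.n (.n (.b 2) (.n (.b 4) (.l 263 0))) (.l 161 3))) (.l 161 5)))) (.b 3)))))
  (.n (.b 6) (.n (.l 161 8) (.b 3))))) (.n (.n (.b 2) (.n (.l 161 8) (.n (.n (.b 2) (.n (.l 163 8)
  (.n (.b 6) (.n (.n (.b 2) (.n (.l 161 8) (.n (.n (.b 2) (.n (.n (.b 2) (.n (.b 4) (.n (.l 161 8)
  (.n (.l 263 0) (.b 3))))) (.l 161 8))) (.l 165 8)))) (.b 3))))) (.b 8)))) (.b 3))))) (.b 3)))))
  (.n (.b 6) (.n (.n (.b 2) (.n (.n (.b 2) (.n (.b 4) (.n (.n (.b 2) (.n (.n (.b 2) (.l 184 5))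
  (.n (.n (.b 2) (.b 6)) (.l 184 5)))) (.n (.n (.b 2) (.n (.l 213 2) (.n (.l 263 0) (.n (.n (.b 2)
  (.n (.l 86 11) (.n (.l 86 11) (.b 8)))) (.b 3))))) (.b 3))))) (.n (.n (.b 2) (.n (.n (.b 2) (.n
  (.b 4) (.n (.l 152 8) (.n (.n (.b 2) (.n (.l 152 8) (.n (.l 152 8) (.n (.n (.b 2) (.n (.l 152 8)
  (.n (.n (.b 2) (.n (.l 229 8) (.n (.b 6) (.n (.n (.b 2) (.n (.l 131 99) (.l 263 0))) (.b 3)))))
  (.b 8)))) (.b 3))))) (.b 3))))) (.n (.b 6) (.n (.n (.b 2) (.n (.l 152 8) (.n (.n (.b 2) (.n (.l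
  175 8) (.n (.b 6) (.n (.n (.b 2) (.n (.l 152 8) (.n (.n (.b 2) (.n (.l 217 8) (.n (.b 6) (.n (.n
  (.b 2) (.n (.l 131 8) (.n (.l 263 0) (.l 131 99)))) (.b 3))))) (.l 152 8)))) (.b 3))))) (.l 152
  8)))) (.b 3))))) (.n (.n (.b 2) (.n (.n (.b 2) (.n (.b 4) (.n (.n (.b 2) (.n (.l 152 8) (.n (.l
  152 8) (.n (.n (.b 2) (.n (.l 152 8) (.n (.n (.b 2) (.n (.l 131 8) (.n (.b 6) (.n (.n (.b 2) (.n
  (.l 131 99) (.l 263 0))) (.b 3))))) (.l 131 8)))) (.b 3))))) (.l 152 8)))) (.b 8))) (.b 3)))))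
  (.b 3))))) (.n (.n (.b 2) (.n (.n (.b 2) (.n (.b 4) (.n (.n (.b 2) (.n (.n (.b 2) (.n (.b 4) (.n
  (.n (.b 2) (.l 155 8)) (.n (.n (.b 2) (.b 11)) (.b 3))))) (.n (.n (.b 2) (.b 6)) (.n (.n (.b 2)
  (.n (.l 155 8) (.n (.n (.b 2) (.n (.l 155 8) (.n (.b 6) (.n (.n (.b 2) (.n (.l 155 8) (.n (.l
  200 8) (.n (.n (.b 2) (.n (.n (.b 2) (.n (.b 4) (.n (.l 263 0) (.l 134 99)))) (.b 8))) (.b
  3))))) (.b 3))))) (.l 155 8)))) (.b 3))))) (.n (.n (.b 2) (.n (.n (.b 2) (.n (.b 4) (.n (.n (.b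
  2) (.n (.l 155 8) (.n (.l 155 8) (.n (.n (.b 2) (.n (.l 134 8) (.n (.l 160 8) (.n (.n (.b 2) (.n
  (.n (.b 2) (.n (.b 4) (.l 263 0))) (.b 8))) (.b 3))))) (.b 3))))) (.l 155 8)))) (.n (.n (.b 2)
  (.n (.l 155 8) (.n (.b 6) (.n (.n (.b 2) (.n (.b 13) (.n (.l 155 8) (.n (.n (.b 2) (.n (.l 155
  8) (.b 8))) (.b 3))))) (.b 3))))) (.n (.n (.b 2) (.n (.n (.b 2) (.n (.b 4) (.n (.l 155 8) (.n
  (.n (.b 2) (.n (.l 152 8) (.n (.l 134 8) (.n (.n (.b 2) (.n (.n (.b 2) (.n (.b 4) (.n (.l 65 99)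
  (.l 263 0)))) (.l 134 11))) (.b 3))))) (.b 3))))) (.l 155 8))) (.b 3))))) (.b 3))))) (.n (.n (.b
  2) (.n (.n (.b 2) (.n (.b 4) (.n (.n (.b 2) (.n (.l 134 8) (.n (.l 134 8) (.n (.n (.b 2) (.b
  12)) (.b 3))))) (.n (.n (.b 2) (.n (.n (.b 2) (.n (.b 4) (.n (.l 68 8) (.n (.n (.b 2) (.n (.l 67
  8) (.n (.l 163 8) (.n (.n (.b 2) (.n (.l 188 99) (.n (.n (.b 2) (.l 263 0)) (.b 8)))) (.b 3)))))
  (.b 3))))) (.l 134 8))) (.b 3))))) (.n (.b 6) (.n (.n (.b 2) (.n (.n (.b 2) (.n (.b 4) (.n (.l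
  134 8) (.n (.n (.b 2) (.n (.l 134 8) (.n (.b 13) (.n (.n (.b 2) (.n (.l 134 8) (.n (.l 134 8)
  (.b 8)))) (.b 3))))) (.b 3))))) (.n (.n (.b 2) (.n (.n (.b 2) (.n (.b 4) (.n (.l 134 8) (.n (.n
  (.b 2) (.n (.l 134 8) (.n (.l 81 11) (.n (.n (.b 2) (.n (.l 25 99) (.n (.n (.b 2) (.n (.l 238
  99) (.l 263 0))) (.b 8)))) (.b 3))))) (.b 3))))) (.l 134 8))) (.l 134 8)))) (.b 3))))) (.n (.b
  8) (.b 3))))) (.b 3))))) (.b 3))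

/-- A subtree of the table. -/
def s4 : T :=
  (.b 2)

/-- A subtree of the table. -/
def s5 : T :=
  (.n (.b 2) (.n (.b 4) (.n (.n (.b 2) (.n (.n (.b 2) (.n (.b 4) (.n (.n (.b 2) (.n (.n (.b 2) (.n
  (.b 4) (.n (.n (.b 2) (.n (.n (.b 2) (.n (.b 4) (.n (.n (.b 2) (.n (.n (.b 2) (.l 263 0)) (.l
  147 6))) (.l 238 5)))) (.n (.n (.b 2) (.b 6)) (.l 231 5)))) (.n (.n (.b 2) (.l 238 5)) (.b
  3))))) (.n (.n (.b 2) (.b 6)) (.n (.n (.b 2) (.n (.n (.b 2) (.l 238 5)) (.n (.n (.b 2) (.l 238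
  5)) (.n (.l 238 5) (.b 3))))) (.b 3))))) (.n (.n (.b 2) (.n (.n (.b 2) (.n (.b 4) (.n (.b 11)
  (.n (.l 263 0) (.b 3))))) (.n (.n (.b 2) (.n (.n (.b 2) (.n (.b 4) (.l 238 3))) (.n (.b 6) (.n
  (.l 238 3) (.b 3))))) (.n (.n (.b 2) (.n (.n (.b 2) (.l 238 3)) (.n (.l 238 3) (.b 8)))) (.b
  3))))) (.b 3))))) (.n (.n (.b 2) (.b 6)) (.n (.n (.b 2) (.n (.n (.b 2) (.n (.b 4) (.n (.n (.b 2)
  (.n (.n (.b 2) (.l 209 5)) (.n (.l 216 5) (.n (.n (.b 2) (.n (.n (.b 2) (.n (.b 4) (.n (.n (.b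
  2) (.n (.l 203 5) (.n (.l 238 3) (.n (.n (.b 2) (.l 263 0)) (.b 3))))) (.l 238 5)))) (.l 237
  5))) (.b 3))))) (.n (.n (.b 2) (.n (.l 216 5) (.n (.l 216 5) (.n (.l 216 5) (.b 3))))) (.b
  3))))) (.n (.n (.b 2) (.n (.n (.b 2) (.n (.b 4) (.n (.l 263 0) (.n (.l 131 11) (.b 3))))) (.n
  (.b 6) (.n (.n (.b 2) (.n (.l 215 5) (.n (.l 215 5) (.n (.n (.b 2) (.n (.n (.b 2) (.n (.b 4) (.n
  (.n (.b 2) (.n (.l 209 5) (.n (.l 206 5) (.n (.n (.b 2) (.n (.l 188 5) (.n (.l 263 0) (.l 188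
  99)))) (.b 3))))) (.l 209 5)))) (.b 8))) (.b 3))))) (.b 3))))) (.n (.n (.b 2) (.n (.n (.b 2) (.n
  (.b 4) (.n (.l 215 5) (.n (.n (.b 2) (.n (.n (.b 2) (.n (.b 4) (.n (.n (.b 2) (.n (.l 188 5) (.n
  (.l 188 5) (.n (.n (.b 2) (.n (.l 188 99) (.l 263 0))) (.b 3))))) (.l 188 5)))) (.l 215 5))) (.b
  3))))) (.b 8))) (.b 3))))) (.b 3))))) (.n (.n (.b 2) (.n (.n (.b 2) (.n (.b 4) (.n (.n (.b 2)
  (.n (.n (.b 2) (.n (.b 4) (.n (.n (.b 2) (.l 263 0)) (.b 11)))) (.n (.n (.b 2) (.b 6)) (.n (.n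
  (.b 2) (.n (.n (.b 2) (.l 226 5)) (.n (.l 229 5) (.n (.n (.b 2) (.n (.n (.b 2) (.n (.b 4) (.n
  (.l 233 5) (.n (.n (.b 2) (.n (.n (.b 2) (.n (.b 4) (.n (.l 263 0) (.l 106 99)))) (.l 163 5)))
  (.b 3))))) (.b 8))) (.b 3))))) (.b 3))))) (.n (.n (.b 2) (.n (.n (.b 2) (.n (.b 4) (.n (.l 229
  5) (.n (.n (.b 2) (.n (.n (.b 2) (.n (.b 4) (.n (.l 238 5) (.n (.n (.b 2) (.n (.n (.b 2) (.n (.b
  4) (.l 263 0))) (.l 238 3))) (.b 3))))) (.l 238 5))) (.b 3))))) (.n (.n (.b 2) (.n (.l 229 5)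
  (.n (.b 6) (.n (.l 229 5) (.b 3))))) (.n (.n (.b 2) (.n (.l 229 5) (.n (.n (.b 2) (.n (.n (.b 2)
  (.n (.b 4) (.n (.l 229 5) (.n (.n (.b 2) (.n (.n (.b 2) (.n (.b 4) (.n (.l 145 99) (.l 263 0))))
  (.l 229 5))) (.b 3))))) (.l 229 5))) (.b 8)))) (.b 3))))) (.b 3))))) (.n (.n (.b 2) (.n (.n (.b
  2) (.n (.b 4) (.n (.n (.b 2) (.n (.n (.b 2) (.l 238 5)) (.n (.n (.b 2) (.b 6)) (.n (.l 238 5)
  (.b 3))))) (.n (.n (.b 2) (.n (.l 238 5) (.n (.n (.b 2) (.n (.n (.b 2) (.n (.b 4) (.n (.l 238 5)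
  (.n (.n (.b 2) (.n (.l 219 8) (.n (.n (.b 2) (.l 263 0)) (.l 238 2)))) (.b 3))))) (.l 238 5)))
  (.n (.l 238 5) (.b 3))))) (.b 3))))) (.n (.b 6) (.n (.n (.b 2) (.n (.n (.b 2) (.n (.b 4) (.n (.l
  238 2) (.n (.l 263 0) (.b 3))))) (.n (.n (.b 2) (.n (.l 206 5) (.n (.b 6) (.l 206 5)))) (.n (.n
  (.b 2) (.n (.l 206 5) (.b 8))) (.b 3))))) (.b 3))))) (.n (.n (.b 2) (.n (.n (.b 2) (.n (.b 4)
  (.n (.n (.b 2) (.n (.l 209 5) (.n (.n (.b 2) (.b 6)) (.n (.l 209 5) (.b 3))))) (.n (.n (.b 2)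
  (.n (.l 209 5) (.n (.l 209 5) (.n (.n (.b 2) (.n (.n (.b 2) (.n (.b 4) (.n (.l 209 5) (.n (.n
  (.b 2) (.n (.l 206 5) (.n (.l 188 5) (.n (.n (.b 2) (.n (.l 263 0) (.l 188 99))) (.b 3))))) (.b
  3))))) (.l 209 5))) (.b 3))))) (.b 3))))) (.n (.n (.b 2) (.n (.n (.b 2) (.n (.b 4) (.n (.l 209
  5) (.n (.n (.b 2) (.n (.n (.b 2) (.n (.b 4) (.n (.l 143 5) (.n (.n (.b 2) (.n (.l 142 5) (.n (.l
  238 5) (.n (.n (.b 2) (.l 263 0)) (.b 3))))) (.b 3))))) (.l 209 5))) (.b 3))))) (.n (.b 6) (.n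
  (.n (.b 2) (.n (.l 209 5) (.n (.n (.b 2) (.n (.n (.b 2) (.n (.b 4) (.n (.l 209 5) (.n (.n (.b 2)
  (.n (.l 209 5) (.n (.l 156 8) (.n (.n (.b 2) (.n (.l 100 99) (.l 263 0))) (.b 3))))) (.b 3)))))
  (.l 209 5))) (.l 209 5)))) (.b 3))))) (.b 8)))) (.b 3))))) (.b 3)))))

/-- A subtree of the table. -/
def s6 : T :=
  (.n (.b 2) (.n (.n (.b 2) (.n (.b 4) (.n (.n (.b 2) (.n (.n (.b 2) (.n (.b 4) (.n (.n (.b 2) (.n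
  (.n (.b 2) (.n (.b 4) (.n (.n (.b 2) (.n (.n (.b 2) (.n (.b 4) (.n (.l 238 2) (.l 238 2)))) (.n
  (.n (.b 2) (.b 6)) (.l 224 2)))) (.l 263 2)))) (.n (.n (.b 2) (.b 6)) (.n (.n (.b 2) (.l 263 2))
  (.b 3))))) (.n (.n (.b 2) (.n (.n (.b 2) (.n (.b 4) (.b 11))) (.n (.n (.b 2) (.n (.n (.b 2) (.n
  (.b 4) (.l 263 2))) (.n (.b 6) (.l 263 2)))) (.n (.l 263 2) (.b 3))))) (.b 3))))) (.n (.n (.b 2)
  (.b 6)) (.n (.n (.b 2) (.n (.n (.b 2) (.n (.b 4) (.n (.n (.b 2) (.l 263 2)) (.n (.n (.b 2) (.l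
  263 2)) (.b 3))))) (.n (.n (.b 2) (.n (.n (.b 2) (.b 12)) (.n (.b 6) (.n (.l 263 2) (.b 3)))))
  (.n (.n (.b 2) (.n (.l 263 2) (.b 8))) (.b 3))))) (.b 3))))) (.n (.n (.b 2) (.n (.n (.b 2) (.n
  (.b 4) (.n (.n (.b 2) (.n (.b 11) (.n (.n (.b 2) (.b 6)) (.n (.l 181 2) (.b 3))))) (.n (.n (.b
  2) (.n (.n (.b 2) (.l 263 2)) (.n (.n (.b 2) (.l 263 2)) (.n (.n (.b 2) (.n (.l 263 2) (.n (.n
  (.b 2) (.n (.n (.b 2) (.n (.b 4) (.n (.l 263 2) (.n (.n (.b 2) (.n (.l 213 2) (.l 213 2))) (.b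
  3))))) (.l 263 2))) (.b 8)))) (.b 3))))) (.b 3))))) (.n (.n (.b 2) (.n (.n (.b 2) (.n (.b 4) (.n
  (.n (.b 2) (.l 263 2)) (.n (.n (.b 2) (.n (.l 263 2) (.n (.n (.b 2) (.n (.n (.b 2) (.n (.b 4)
  (.n (.l 263 2) (.n (.n (.b 2) (.l 188 5)) (.b 3))))) (.l 263 2))) (.l 263 2)))) (.b 3))))) (.n
  (.b 6) (.n (.n (.b 2) (.n (.n (.b 2) (.l 263 2)) (.n (.n (.b 2) (.n (.l 263 2) (.n (.b 6) (.l
  263 2)))) (.l 263 2)))) (.b 3))))) (.n (.n (.b 2) (.n (.n (.b 2) (.n (.b 4) (.n (.n (.b 2) (.n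
  (.l 263 2) (.n (.n (.b 2) (.b 6)) (.l 263 2)))) (.n (.l 263 2) (.b 3))))) (.n (.n (.b 2) (.n (.l
  263 2) (.n (.b 6) (.n (.n (.b 2) (.n (.l 263 2) (.n (.n (.b 2) (.n (.n (.b 2) (.n (.b 4) (.n (.l
  263 2) (.n (.n (.b 2) (.n (.l 263 2) (.n (.l 188 5) (.l 188 5)))) (.b 3))))) (.l 263 2))) (.l
  263 2)))) (.b 3))))) (.b 8)))) (.b 3))))) (.b 3))))) (.n (.n (.b 2) (.b 6)) (.n (.n (.b 2) (.n
  (.n (.b 2) (.n (.b 4) (.n (.n (.b 2) (.n (.n (.b 2) (.n (.b 4) (.n (.n (.b 2) (.n (.n (.b 2) (.n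
  (.b 4) (.l 201 7))) (.n (.n (.b 2) (.b 6)) (.l 201 7)))) (.n (.l 201 7) (.b 3))))) (.n (.n (.b
  2) (.b 6)) (.n (.n (.b 2) (.n (.n (.b 2) (.n (.b 4) (.n (.n (.b 2) (.n (.l 195 7) (.n (.l 230 5)
  (.n (.n (.b 2) (.n (.n (.b 2) (.l 109 8)) (.l 236 2))) (.b 3))))) (.l 230 7)))) (.n (.l 229 7)
  (.n (.l 229 7) (.b 3))))) (.b 3))))) (.n (.n (.b 2) (.n (.n (.b 2) (.n (.b 4) (.n (.l 243 5) (.n
  (.l 243 5) (.b 3))))) (.n (.n (.b 2) (.n (.n (.b 2) (.l 263 2)) (.n (.b 6) (.l 166 7)))) (.n (.n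
  (.b 2) (.n (.l 138 7) (.n (.l 138 7) (.b 8)))) (.b 3))))) (.b 3))))) (.n (.n (.b 2) (.n (.n (.b
  2) (.n (.b 4) (.n (.n (.b 2) (.n (.n (.b 2) (.l 204 1)) (.n (.n (.b 2) (.b 6)) (.b 12)))) (.n
  (.n (.b 2) (.n (.l 81 11) (.n (.l 81 11) (.n (.n (.b 2) (.n (.l 81 11) (.n (.n (.b 2) (.n (.l
  154 11) (.n (.b 6) (.n (.n (.b 2) (.n (.l 81 13) (.n (.n (.b 2) (.n (.l 81 13) (.l 81 13))) (.l
  188 13)))) (.b 3))))) (.b 8)))) (.b 3))))) (.b 3))))) (.n (.b 6) (.n (.n (.b 2) (.n (.n (.b 2)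
  (.n (.b 4) (.n (.n (.b 2) (.n (.l 165 7) (.n (.n (.b 2) (.b 6)) (.l 165 7)))) (.l 165 7)))) (.n
  (.n (.b 2) (.n (.l 165 7) (.n (.b 6) (.n (.n (.b 2) (.n (.l 165 7) (.n (.n (.b 2) (.n (.l 198 7)
  (.n (.b 6) (.n (.n (.b 2) (.n (.l 165 7) (.n (.n (.b 2) (.n (.l 263 7) (.n (.b 6) (.l 165 7))))
  (.l 165 7)))) (.b 3))))) (.l 165 7)))) (.b 3))))) (.n (.n (.b 2) (.n (.n (.b 2) (.n (.b 4) (.n
  (.n (.b 2) (.n (.l 159 7) (.n (.l 156 7) (.n (.n (.b 2) (.n (.l 138 7) (.n (.n (.b 2) (.n (.l 77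
  11) (.l 77 11))) (.l 138 11)))) (.b 3))))) (.l 159 7)))) (.b 8))) (.b 3))))) (.b 3))))) (.n (.n
  (.b 2) (.n (.n (.b 2) (.n (.b 4) (.n (.n (.b 2) (.n (.l 165 7) (.n (.l 165 7) (.n (.n (.b 2) (.n
  (.l 165 7) (.n (.n (.b 2) (.n (.l 165 7) (.n (.b 6) (.n (.n (.b 2) (.n (.l 165 7) (.n (.l 244 7)
  (.n (.n (.b 2) (.l 165 7)) (.b 3))))) (.b 3))))) (.l 165 7)))) (.b 3))))) (.n (.n (.b 2) (.n (.n
  (.b 2) (.n (.b 4) (.n (.n (.b 2) (.n (.l 138 7) (.n (.l 138 7) (.n (.n (.b 2) (.n (.l 138 11)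
  (.n (.l 204 11) (.n (.l 77 11) (.b 3))))) (.b 3))))) (.l 138 7)))) (.l 165 7))) (.b 3))))) (.b
  8))) (.b 3))))) (.b 3)))))

/-- A subtree of the table. -/
def s7 : T :=
  (.n (.n (.b 2) (.n (.n (.b 2) (.n (.b 4) (.n (.n (.b 2) (.n (.n (.b 2) (.n (.b 4) (.n (.n (.b 2)
  (.n (.n (.b 2) (.n (.b 4) (.l 247 2))) (.n (.n (.b 2) (.b 6)) (.n (.l 247 2) (.b 3))))) (.n (.n
  (.b 2) (.b 11)) (.b 3))))) (.n (.n (.b 2) (.b 6)) (.n (.n (.b 2) (.n (.n (.b 2) (.n (.b 4) (.n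
  (.n (.b 2) (.n (.l 197 7) (.n (.l 232 7) (.n (.n (.b 2) (.n (.n (.b 2) (.n (.b 4) (.n (.n (.b 2)
  (.l 176 7)) (.l 263 2)))) (.l 253 5))) (.b 3))))) (.n (.l 232 7) (.b 3))))) (.n (.n (.b 2) (.n
  (.l 231 7) (.n (.b 6) (.n (.n (.b 2) (.n (.l 231 7) (.n (.l 231 7) (.n (.n (.b 2) (.n (.n (.b 2)
  (.n (.b 4) (.n (.n (.b 2) (.n (.l 210 7) (.n (.l 179 7) (.l 179 7)))) (.l 210 7)))) (.b 8))) (.b
  3))))) (.b 3))))) (.n (.n (.b 2) (.n (.n (.b 2) (.n (.b 4) (.n (.l 231 7) (.n (.n (.b 2) (.n (.n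
  (.b 2) (.n (.b 4) (.n (.n (.b 2) (.n (.l 175 10) (.l 175 10))) (.l 175 10)))) (.l 231 7))) (.b
  3))))) (.b 8))) (.b 3))))) (.b 3))))) (.n (.n (.b 2) (.n (.n (.b 2) (.n (.b 4) (.n (.n (.b 2)
  (.n (.n (.b 2) (.l 245 7)) (.n (.n (.b 2) (.b 6)) (.n (.n (.b 2) (.n (.l 242 7) (.n (.l 245 7)
  (.n (.n (.b 2) (.n (.n (.b 2) (.n (.b 4) (.n (.l 263 7) (.n (.n (.b 2) (.l 179 7)) (.b 3)))))
  (.b 8))) (.b 3))))) (.b 3))))) (.n (.n (.b 2) (.n (.n (.b 2) (.n (.b 4) (.n (.l 245 7) (.n (.n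
  (.b 2) (.n (.n (.b 2) (.n (.b 4) (.n (.l 263 2) (.n (.l 189 8) (.b 3))))) (.l 263 5))) (.b
  3))))) (.n (.l 245 7) (.n (.l 245 7) (.b 3))))) (.b 3))))) (.n (.n (.b 2) (.n (.n (.b 2) (.n (.b
  4) (.n (.l 263 5) (.n (.l 263 5) (.b 3))))) (.n (.b 6) (.n (.n (.b 2) (.n (.l 179 7) (.n (.l 179
  7) (.n (.n (.b 2) (.n (.l 179 7) (.b 8))) (.b 3))))) (.b 3))))) (.n (.n (.b 2) (.n (.n (.b 2)
  (.n (.b 4) (.n (.l 200 7) (.n (.n (.b 2) (.n (.l 200 7) (.n (.l 200 7) (.n (.n (.b 2) (.n (.n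
  (.b 2) (.n (.b 4) (.n (.l 190 7) (.n (.n (.b 2) (.n (.l 179 7) (.l 179 7))) (.b 3))))) (.l 200
  7))) (.b 3))))) (.b 3))))) (.n (.n (.b 2) (.n (.n (.b 2) (.n (.b 4) (.n (.l 200 7) (.n (.n (.b
  2) (.n (.n (.b 2) (.n (.b 4) (.n (.l 116 10) (.n (.n (.b 2) (.l 115 10)) (.b 3))))) (.l 200 7)))
  (.b 3))))) (.l 200 7))) (.b 8)))) (.b 3))))) (.b 3))))) (.n (.n (.b 2) (.n (.n (.b 2) (.n (.b 4)
  (.n (.n (.b 2) (.n (.n (.b 2) (.n (.b 4) (.n (.n (.b 2) (.l 263 4)) (.n (.n (.b 2) (.l 263 4))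
  (.b 3))))) (.n (.n (.b 2) (.b 6)) (.n (.n (.b 2) (.l 188 7)) (.b 3))))) (.n (.n (.b 2) (.n (.n
  (.b 2) (.n (.b 4) (.n (.n (.b 2) (.l 154 7)) (.n (.n (.b 2) (.n (.l 154 7) (.n (.l 188 7) (.n
  (.n (.b 2) (.n (.l 188 7) (.n (.n (.b 2) (.n (.n (.b 2) (.n (.b 4) (.l 188 7))) (.l 189 7))) (.b
  8)))) (.b 3))))) (.b 3))))) (.n (.n (.b 2) (.n (.n (.b 2) (.n (.b 4) (.n (.l 186 7) (.n (.n (.b
  2) (.n (.l 169 10) (.n (.n (.b 2) (.n (.n (.b 2) (.l 59 11)) (.l 186 2))) (.l 186 4)))) (.b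
  3))))) (.n (.b 6) (.n (.l 186 7) (.b 3))))) (.n (.n (.b 2) (.n (.l 186 7) (.n (.n (.b 2) (.n (.l
  188 7) (.n (.b 6) (.n (.n (.b 2) (.n (.l 186 7) (.n (.n (.b 2) (.n (.n (.b 2) (.n (.b 4) (.n (.l
  186 7) (.l 188 7)))) (.l 186 7))) (.l 190 7)))) (.b 3))))) (.b 8)))) (.b 3))))) (.b 3))))) (.n
  (.b 6) (.n (.n (.b 2) (.n (.n (.b 2) (.n (.b 4) (.n (.n (.b 2) (.n (.n (.b 2) (.l 209 4)) (.n
  (.n (.b 2) (.b 6)) (.l 209 4)))) (.n (.n (.b 2) (.n (.l 238 1) (.n (.b 13) (.n (.n (.b 2) (.n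
  (.l 111 10) (.n (.l 111 10) (.b 8)))) (.b 3))))) (.b 3))))) (.n (.n (.b 2) (.n (.n (.b 2) (.n
  (.b 4) (.n (.l 177 7) (.n (.n (.b 2) (.n (.l 177 7) (.n (.l 177 7) (.n (.n (.b 2) (.n (.l 177 7)
  (.n (.n (.b 2) (.n (.l 254 7) (.n (.b 6) (.n (.n (.b 2) (.l 156 7)) (.b 3))))) (.b 8)))) (.b
  3))))) (.b 3))))) (.n (.b 6) (.n (.n (.b 2) (.n (.l 177 7) (.n (.n (.b 2) (.n (.l 200 7) (.n (.b
  6) (.n (.n (.b 2) (.n (.l 177 7) (.n (.n (.b 2) (.n (.l 242 7) (.n (.b 6) (.n (.n (.b 2) (.n (.l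
  156 7) (.l 156 7))) (.b 3))))) (.l 177 7)))) (.b 3))))) (.l 177 7)))) (.b 3))))) (.n (.n (.b 2)
  (.n (.n (.b 2) (.n (.b 4) (.n (.n (.b 2) (.n (.l 177 7) (.n (.l 177 7) (.n (.n (.b 2) (.n (.l
  177 7) (.n (.n (.b 2) (.n (.l 156 7) (.n (.b 6) (.n (.n (.b 2) (.l 156 7)) (.b 3))))) (.l 156
  7)))) (.b 3))))) (.l 177 7)))) (.b 8))) (.b 3))))) (.b 3))))) (.n (.n (.b 2) (.n (.n (.b 2) (.n
  (.b 4) (.n (.n (.b 2) (.n (.n (.b 2) (.n (.b 4) (.n (.n (.b 2) (.l 180 7)) (.n (.n (.b 2) (.b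
  11)) (.b 3))))) (.n (.n (.b 2) (.b 6)) (.n (.n (.b 2) (.n (.l 180 7) (.n (.n (.b 2) (.n (.l 180
  7) (.n (.b 6) (.n (.n (.b 2) (.n (.l 180 7) (.n (.l 225 7) (.n (.n (.b 2) (.n (.n (.b 2) (.n (.b
  4) (.l 159 7))) (.b 8))) (.b 3))))) (.b 3))))) (.l 180 7)))) (.b 3))))) (.n (.n (.b 2) (.n (.n
  (.b 2) (.n (.b 4) (.n (.n (.b 2) (.n (.l 180 7) (.n (.l 180 7) (.n (.n (.b 2) (.n (.l 159 7) (.n
  (.l 185 7) (.n (.n (.b 2) (.n (.n (.b 2) (.l 159 7)) (.b 8))) (.b 3))))) (.b 3))))) (.l 180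
  7)))) (.n (.n (.b 2) (.n (.l 180 7) (.n (.b 6) (.n (.n (.b 2) (.n (.b 13) (.n (.l 180 7) (.n (.n
  (.b 2) (.n (.l 180 7) (.b 8))) (.b 3))))) (.b 3))))) (.n (.n (.b 2) (.n (.n (.b 2) (.n (.b 4)
  (.n (.l 180 7) (.n (.n (.b 2) (.n (.l 177 7) (.n (.l 159 7) (.n (.n (.b 2) (.n (.n (.b 2) (.n
  (.b 4) (.l 90 10))) (.l 159 10))) (.b 3))))) (.b 3))))) (.l 180 7))) (.b 3))))) (.b 3))))) (.n
  (.n (.b 2) (.n (.n (.b 2) (.n (.b 4) (.n (.n (.b 2) (.l 159 7)) (.n (.n (.b 2) (.n (.n (.b 2)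
  (.n (.b 4) (.n (.l 93 7) (.n (.n (.b 2) (.n (.l 92 7) (.n (.l 188 7) (.n (.n (.b 2) (.n (.l 213
  99) (.n (.l 263 0) (.b 8)))) (.b 3))))) (.b 3))))) (.l 159 7))) (.b 3))))) (.n (.b 6) (.n (.n
  (.b 2) (.n (.l 159 7) (.n (.n (.b 2) (.n (.n (.b 2) (.n (.b 4) (.n (.l 159 7) (.n (.n (.b 2) (.n
  (.l 159 7) (.n (.l 106 10) (.n (.n (.b 2) (.n (.l 50 99) (.n (.n (.b 2) (.l 263 0)) (.b 8))))
  (.b 3))))) (.b 3))))) (.l 159 7))) (.l 159 7)))) (.b 3))))) (.b 8)))) (.b 3))))) (.b 3))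

/-- A subtree of the table. -/
def s8 : T :=
  (.b 2)

/-- A subtree of the table. -/
def s9 : T :=
  (.n (.b 2) (.n (.b 4) (.n (.n (.b 2) (.n (.n (.b 2) (.n (.b 4) (.n (.n (.b 2) (.n (.n (.b 2) (.n
  (.b 4) (.n (.n (.b 2) (.n (.n (.b 2) (.n (.b 4) (.n (.n (.b 2) (.n (.l 172 5) (.l 172 5))) (.l
  263 4)))) (.n (.n (.b 2) (.b 6)) (.l 256 4)))) (.n (.n (.b 2) (.l 263 4)) (.b 3))))) (.n (.n (.b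
  2) (.b 6)) (.n (.n (.b 2) (.n (.n (.b 2) (.l 263 4)) (.n (.n (.b 2) (.l 263 4)) (.n (.l 263 4)
  (.b 3))))) (.b 3))))) (.n (.n (.b 2) (.n (.n (.b 2) (.n (.b 4) (.b 11))) (.n (.n (.b 2) (.n (.n
  (.b 2) (.n (.b 4) (.l 263 2))) (.n (.b 6) (.n (.l 263 2) (.b 3))))) (.n (.n (.b 2) (.n (.n (.b
  2) (.l 263 2)) (.n (.l 263 2) (.b 8)))) (.b 3))))) (.b 3))))) (.n (.n (.b 2) (.b 6)) (.n (.n (.b
  2) (.n (.n (.b 2) (.n (.b 4) (.n (.n (.b 2) (.n (.n (.b 2) (.l 234 4)) (.n (.l 241 4) (.n (.n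
  (.b 2) (.n (.n (.b 2) (.n (.b 4) (.n (.n (.b 2) (.n (.l 228 4) (.n (.l 263 2) (.n (.l 213 4) (.b
  3))))) (.l 263 4)))) (.l 262 4))) (.b 3))))) (.n (.n (.b 2) (.n (.l 241 4) (.n (.l 241 4) (.n
  (.l 241 4) (.b 3))))) (.b 3))))) (.n (.n (.b 2) (.n (.n (.b 2) (.n (.b 4) (.n (.b 12) (.n (.l
  156 10) (.b 3))))) (.n (.b 6) (.n (.n (.b 2) (.n (.l 240 4) (.n (.l 240 4) (.n (.n (.b 2) (.n
  (.n (.b 2) (.n (.b 4) (.n (.n (.b 2) (.n (.l 234 4) (.n (.l 231 4) (.n (.n (.b 2) (.n (.l 213 4)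
  (.l 213 4))) (.b 3))))) (.l 234 4)))) (.b 8))) (.b 3))))) (.b 3))))) (.n (.n (.b 2) (.n (.n (.b
  2) (.n (.b 4) (.n (.l 240 4) (.n (.n (.b 2) (.n (.n (.b 2) (.n (.b 4) (.n (.n (.b 2) (.n (.l 213
  4) (.n (.l 213 4) (.n (.n (.b 2) (.l 213 4)) (.b 3))))) (.l 213 4)))) (.l 240 4))) (.b 3)))))
  (.b 8))) (.b 3))))) (.b 3))))) (.n (.n (.b 2) (.n (.n (.b 2) (.n (.b 4) (.n (.n (.b 2) (.n (.n
  (.b 2) (.n (.b 4) (.b 11))) (.n (.n (.b 2) (.b 6)) (.n (.n (.b 2) (.n (.n (.b 2) (.l 251 4)) (.n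
  (.l 254 4) (.n (.n (.b 2) (.n (.n (.b 2) (.n (.b 4) (.n (.l 258 4) (.n (.n (.b 2) (.n (.n (.b 2)
  (.n (.b 4) (.l 131 4))) (.l 188 4))) (.b 3))))) (.b 8))) (.b 3))))) (.b 3))))) (.n (.n (.b 2)
  (.n (.n (.b 2) (.n (.b 4) (.n (.l 254 4) (.n (.n (.b 2) (.n (.n (.b 2) (.n (.b 4) (.n (.l 263 4)
  (.n (.n (.b 2) (.n (.n (.b 2) (.l 213 4)) (.l 263 2))) (.b 3))))) (.l 263 4))) (.b 3))))) (.n
  (.n (.b 2) (.n (.l 254 4) (.n (.b 6) (.n (.l 254 4) (.b 3))))) (.n (.n (.b 2) (.n (.l 254 4) (.n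
  (.n (.b 2) (.n (.n (.b 2) (.n (.b 4) (.n (.l 254 4) (.n (.n (.b 2) (.n (.n (.b 2) (.n (.b 4) (.l
  170 10))) (.l 254 4))) (.b 3))))) (.l 254 4))) (.b 8)))) (.b 3))))) (.b 3))))) (.n (.n (.b 2)
  (.n (.n (.b 2) (.n (.b 4) (.n (.n (.b 2) (.n (.n (.b 2) (.l 263 4)) (.n (.n (.b 2) (.b 6)) (.n
  (.l 263 4) (.b 3))))) (.n (.n (.b 2) (.n (.l 263 4) (.n (.n (.b 2) (.n (.n (.b 2) (.n (.b 4) (.n
  (.l 263 4) (.n (.n (.b 2) (.n (.l 244 7) (.n (.l 188 8) (.l 263 1)))) (.b 3))))) (.l 263 4)))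
  (.n (.l 263 4) (.b 3))))) (.b 3))))) (.n (.b 6) (.n (.n (.b 2) (.n (.n (.b 2) (.n (.b 4) (.n (.l
  263 1) (.l 213 4)))) (.n (.n (.b 2) (.n (.l 231 4) (.n (.b 6) (.l 231 4)))) (.n (.n (.b 2) (.n
  (.l 231 4) (.b 8))) (.b 3))))) (.b 3))))) (.n (.n (.b 2) (.n (.n (.b 2) (.n (.b 4) (.n (.n (.b
  2) (.n (.l 234 4) (.n (.n (.b 2) (.b 6)) (.n (.l 234 4) (.b 3))))) (.n (.n (.b 2) (.n (.l 234 4)
  (.n (.l 234 4) (.n (.n (.b 2) (.n (.n (.b 2) (.n (.b 4) (.n (.l 234 4) (.n (.n (.b 2) (.n (.l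
  231 4) (.n (.l 213 4) (.n (.n (.b 2) (.l 213 4)) (.b 3))))) (.b 3))))) (.l 234 4))) (.b 3)))))
  (.b 3))))) (.n (.n (.b 2) (.n (.n (.b 2) (.n (.b 4) (.n (.l 234 4) (.n (.n (.b 2) (.n (.n (.b 2)
  (.n (.b 4) (.n (.l 168 4) (.n (.n (.b 2) (.n (.l 167 4) (.n (.l 263 4) (.n (.l 213 4) (.b 3)))))
  (.b 3))))) (.l 234 4))) (.b 3))))) (.n (.b 6) (.n (.n (.b 2) (.n (.l 234 4) (.n (.n (.b 2) (.n
  (.n (.b 2) (.n (.b 4) (.n (.l 234 4) (.n (.n (.b 2) (.n (.l 234 4) (.n (.l 181 7) (.n (.n (.b 2)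
  (.l 125 10)) (.b 3))))) (.b 3))))) (.l 234 4))) (.l 234 4)))) (.b 3))))) (.b 8)))) (.b 3)))))
  (.b 3)))))

/-- A subtree of the table. -/
def s10 : T :=
  (.n (.n (.b 2) (.n (.n (.b 2) (.n (.b 4) (.n (.n (.b 2) (.n (.n (.b 2) (.n (.b 4) (.n (.n (.b 2)
  (.n (.n (.b 2) (.n (.b 4) (.n (.n (.b 2) (.n (.l 263 1) (.n (.n (.b 2) (.b 6)) (.l 263 1)))) (.l
  263 1)))) (.n (.n (.b 2) (.b 6)) (.n (.l 263 1) (.b 3))))) (.n (.n (.b 2) (.n (.n (.b 2) (.n (.b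
  4) (.b 11))) (.n (.n (.b 2) (.n (.l 263 1) (.n (.b 6) (.l 263 1)))) (.n (.l 263 1) (.b 3)))))
  (.b 3))))) (.n (.n (.b 2) (.b 6)) (.n (.n (.b 2) (.n (.n (.b 2) (.n (.b 4) (.n (.n (.b 2) (.l
  240 1)) (.n (.l 240 1) (.b 3))))) (.n (.n (.b 2) (.n (.b 12) (.n (.b 6) (.l 238 1)))) (.n (.n
  (.b 2) (.n (.l 263 1) (.b 8))) (.b 3))))) (.b 3))))) (.n (.n (.b 2) (.n (.n (.b 2) (.n (.b 4)
  (.n (.n (.b 2) (.n (.b 11) (.n (.n (.b 2) (.b 6)) (.n (.l 206 1) (.b 3))))) (.n (.n (.b 2) (.n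
  (.n (.b 2) (.l 206 1)) (.n (.l 240 1) (.n (.n (.b 2) (.n (.l 240 1) (.n (.n (.b 2) (.n (.n (.b
  2) (.n (.b 4) (.n (.l 240 1) (.n (.n (.b 2) (.l 238 1)) (.b 3))))) (.l 241 1))) (.b 8)))) (.b
  3))))) (.b 3))))) (.n (.n (.b 2) (.n (.n (.b 2) (.n (.b 4) (.n (.l 238 1) (.n (.n (.b 2) (.n (.l
  221 1) (.n (.n (.b 2) (.n (.n (.b 2) (.n (.b 4) (.n (.l 263 1) (.n (.l 238 1) (.b 3))))) (.l 238
  1))) (.l 238 1)))) (.b 3))))) (.n (.b 6) (.n (.n (.b 2) (.n (.l 238 1) (.n (.n (.b 2) (.n (.l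
  238 1) (.n (.b 6) (.l 238 1)))) (.l 238 1)))) (.b 3))))) (.n (.n (.b 2) (.n (.n (.b 2) (.n (.b
  4) (.n (.n (.b 2) (.n (.l 238 1) (.n (.n (.b 2) (.b 6)) (.l 238 1)))) (.n (.l 238 1) (.b 3)))))
  (.n (.n (.b 2) (.n (.l 240 1) (.n (.b 6) (.n (.n (.b 2) (.n (.l 238 1) (.n (.n (.b 2) (.n (.n
  (.b 2) (.n (.b 4) (.n (.l 238 1) (.n (.n (.b 2) (.n (.l 238 1) (.l 238 1))) (.b 3))))) (.l 238
  1))) (.l 242 1)))) (.b 3))))) (.b 8)))) (.b 3))))) (.b 3))))) (.n (.b 6) (.n (.n (.b 2) (.n (.n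
  (.b 2) (.n (.b 4) (.n (.n (.b 2) (.n (.n (.b 2) (.n (.b 4) (.n (.l 134 7) (.n (.l 134 7) (.b
  3))))) (.n (.n (.b 2) (.b 6)) (.n (.n (.b 2) (.n (.l 134 7) (.n (.l 134 7) (.n (.l 134 7) (.b
  3))))) (.b 3))))) (.n (.n (.b 2) (.n (.n (.b 2) (.n (.b 4) (.n (.l 163 4) (.n (.l 163 4) (.b
  3))))) (.n (.n (.b 2) (.n (.l 238 1) (.l 263 0))) (.n (.n (.b 2) (.n (.l 36 13) (.n (.l 36 13)
  (.b 8)))) (.b 3))))) (.b 3))))) (.n (.n (.b 2) (.n (.n (.b 2) (.n (.b 4) (.n (.n (.b 2) (.n (.l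
  102 10) (.n (.l 102 10) (.b 12)))) (.n (.n (.b 2) (.n (.l 102 10) (.n (.l 102 10) (.n (.n (.b 2)
  (.n (.l 102 10) (.n (.n (.b 2) (.n (.l 179 10) (.n (.b 6) (.n (.n (.b 2) (.n (.l 81 99) (.n (.n
  (.b 2) (.l 263 0)) (.l 213 99)))) (.b 3))))) (.b 8)))) (.b 3))))) (.b 3))))) (.n (.b 6) (.n (.n
  (.b 2) (.n (.l 102 10) (.n (.n (.b 2) (.n (.l 125 10) (.n (.b 6) (.n (.n (.b 2) (.n (.l 102 10)
  (.n (.n (.b 2) (.n (.l 167 10) (.n (.b 6) (.n (.n (.b 2) (.n (.l 81 10) (.n (.n (.b 2) (.n (.l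
  238 99) (.l 263 0))) (.l 81 99)))) (.b 3))))) (.l 102 10)))) (.b 3))))) (.l 102 10)))) (.b
  3))))) (.n (.n (.b 2) (.n (.n (.b 2) (.n (.b 4) (.n (.n (.b 2) (.n (.l 102 10) (.n (.l 102 10)
  (.n (.n (.b 2) (.n (.l 102 10) (.n (.n (.b 2) (.n (.l 81 10) (.n (.b 6) (.n (.n (.b 2) (.n (.l
  81 99) (.n (.l 213 99) (.n (.l 263 0) (.b 3))))) (.b 3))))) (.l 81 10)))) (.b 3))))) (.l 102
  10)))) (.b 8))) (.b 3))))) (.b 3))))) (.n (.n (.b 2) (.n (.n (.b 2) (.n (.b 4) (.n (.n (.b 2)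
  (.n (.n (.b 2) (.n (.b 4) (.n (.n (.b 2) (.n (.n (.b 2) (.n (.b 4) (.l 172 9))) (.n (.n (.b 2)
  (.b 6)) (.n (.l 172 9) (.b 3))))) (.n (.n (.b 2) (.b 11)) (.b 3))))) (.n (.n (.b 2) (.b 6)) (.n
  (.n (.b 2) (.n (.n (.b 2) (.n (.b 4) (.n (.n (.b 2) (.n (.l 166 9) (.n (.l 201 7) (.n (.n (.b 2)
  (.n (.n (.b 2) (.n (.b 4) (.n (.l 105 10) (.l 232 1)))) (.l 207 4))) (.b 3))))) (.n (.l 201 9)
  (.b 3))))) (.n (.n (.b 2) (.n (.l 200 9) (.n (.b 6) (.n (.n (.b 2) (.n (.l 200 9) (.n (.l 200 9)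
  (.n (.n (.b 2) (.n (.n (.b 2) (.n (.b 4) (.n (.n (.b 2) (.n (.l 179 9) (.l 179 9))) (.l 179
  9)))) (.b 8))) (.b 3))))) (.b 3))))) (.n (.l 200 9) (.b 3))))) (.b 3))))) (.n (.n (.b 2) (.n (.n
  (.b 2) (.n (.b 4) (.n (.n (.b 2) (.n (.n (.b 2) (.l 214 7)) (.n (.l 214 7) (.n (.n (.b 2) (.n
  (.l 211 7) (.n (.l 214 7) (.n (.n (.b 2) (.n (.n (.b 2) (.n (.b 4) (.n (.l 263 7) (.n (.l 193 7)
  (.b 3))))) (.b 8))) (.b 3))))) (.b 3))))) (.n (.n (.b 2) (.n (.l 214 7) (.n (.l 214 7) (.n (.l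
  214 7) (.b 3))))) (.b 3))))) (.n (.n (.b 2) (.n (.n (.b 2) (.n (.b 4) (.n (.l 232 4) (.n (.l 232
  4) (.b 3))))) (.n (.b 6) (.n (.n (.b 2) (.n (.b 13) (.n (.l 105 10) (.n (.n (.b 2) (.n (.l 105
  10) (.b 8))) (.b 3))))) (.b 3))))) (.n (.n (.b 2) (.n (.n (.b 2) (.n (.b 4) (.n (.l 140 9) (.n
  (.n (.b 2) (.n (.l 137 9) (.n (.l 119 9) (.n (.n (.b 2) (.n (.n (.b 2) (.n (.b 4) (.n (.l 88 9)
  (.n (.n (.b 2) (.l 88 9)) (.b 3))))) (.l 119 9))) (.b 3))))) (.b 3))))) (.n (.l 140 9) (.b 8))))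
  (.b 3))))) (.b 3))))) (.n (.n (.b 2) (.n (.n (.b 2) (.n (.b 4) (.n (.n (.b 2) (.n (.n (.b 2) (.n
  (.b 4) (.n (.n (.b 2) (.l 179 3)) (.n (.l 179 3) (.b 3))))) (.n (.n (.b 2) (.b 6)) (.n (.n (.b
  2) (.b 12)) (.b 3))))) (.n (.n (.b 2) (.n (.n (.b 2) (.n (.b 4) (.n (.l 52 10) (.n (.n (.b 2)
  (.n (.l 52 10) (.n (.l 113 10) (.n (.n (.b 2) (.n (.l 138 13) (.n (.n (.b 2) (.n (.n (.b 2) (.l
  31 13)) (.l 158 13))) (.b 8)))) (.b 3))))) (.b 3))))) (.n (.n (.b 2) (.n (.l 84 10) (.n (.b 6)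
  (.n (.l 84 10) (.b 3))))) (.n (.n (.b 2) (.n (.l 84 10) (.n (.n (.b 2) (.n (.l 125 10) (.n (.b
  6) (.n (.n (.b 2) (.n (.l 84 10) (.n (.n (.b 2) (.n (.n (.b 2) (.n (.b 4) (.l 84 10))) (.l 84
  10))) (.l 159 10)))) (.b 3))))) (.b 8)))) (.b 3))))) (.b 3))))) (.n (.b 6) (.n (.n (.b 2) (.n
  (.n (.b 2) (.n (.b 4) (.n (.n (.b 2) (.n (.l 136 9) (.n (.n (.b 2) (.b 6)) (.l 136 9)))) (.n (.n
  (.b 2) (.n (.l 136 9) (.n (.b 13) (.n (.n (.b 2) (.n (.l 136 9) (.n (.l 136 9) (.b 8)))) (.b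
  3))))) (.b 3))))) (.n (.n (.b 2) (.n (.n (.b 2) (.n (.b 4) (.n (.l 136 9) (.n (.n (.b 2) (.n (.l
  136 9) (.n (.l 115 9) (.n (.n (.b 2) (.n (.l 102 9) (.n (.n (.b 2) (.n (.l 223 9) (.n (.b 6) (.n
  (.l 115 9) (.b 3))))) (.b 8)))) (.b 3))))) (.b 3))))) (.n (.b 6) (.n (.n (.b 2) (.n (.l 136 9)
  (.n (.n (.b 2) (.n (.l 169 9) (.n (.b 6) (.n (.n (.b 2) (.n (.l 136 9) (.n (.n (.b 2) (.n (.l
  211 9) (.n (.b 6) (.n (.n (.b 2) (.l 84 10)) (.b 3))))) (.l 136 9)))) (.b 3))))) (.l 136 9))))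
  (.b 3))))) (.n (.n (.b 2) (.n (.n (.b 2) (.n (.b 4) (.n (.n (.b 2) (.n (.l 130 9) (.n (.l 127 9)
  (.n (.n (.b 2) (.n (.l 119 9) (.n (.n (.b 2) (.n (.l 84 10) (.n (.b 6) (.n (.l 84 10) (.b 3)))))
  (.l 109 10)))) (.b 3))))) (.l 130 9)))) (.b 8))) (.b 3))))) (.b 3))))) (.n (.n (.b 2) (.n (.n
  (.b 2) (.n (.b 4) (.n (.n (.b 2) (.n (.n (.b 2) (.n (.b 4) (.l 115 9))) (.n (.l 115 9) (.n (.n
  (.b 2) (.n (.l 115 9) (.n (.n (.b 2) (.n (.l 115 9) (.n (.b 6) (.n (.n (.b 2) (.n (.l 115 9) (.n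
  (.l 194 9) (.n (.n (.b 2) (.n (.n (.b 2) (.l 263 0)) (.b 8))) (.b 3))))) (.b 3))))) (.l 115
  9)))) (.b 3))))) (.n (.n (.b 2) (.n (.n (.b 2) (.n (.b 4) (.n (.n (.b 2) (.n (.l 88 9) (.n (.l
  88 9) (.n (.n (.b 2) (.n (.l 88 13) (.n (.l 154 13) (.n (.n (.b 2) (.n (.l 263 0) (.b 8))) (.b
  3))))) (.b 3))))) (.l 88 9)))) (.l 115 9))) (.b 3))))) (.b 8))) (.b 3))))) (.b 3)))

/-- A subtree of the table. -/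
def s11 : T :=
  (.n (.n (.b 2) (.n (.n (.b 2) (.n (.b 4) (.n (.n (.b 2) (.n (.n (.b 2) (.n (.b 4) (.n (.n (.b 2)
  (.n (.n (.b 2) (.n (.b 4) (.n (.n (.b 2) (.l 197 4)) (.l 197 4)))) (.n (.n (.b 2) (.b 6)) (.n
  (.n (.b 2) (.n (.n (.b 2) (.l 197 4)) (.l 197 4))) (.b 3))))) (.n (.n (.b 2) (.n (.n (.b 2) (.b
  11)) (.n (.n (.b 2) (.l 238 1)) (.n (.n (.b 2) (.n (.l 238 1) (.n (.l 238 1) (.b 8)))) (.b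
  3))))) (.b 3))))) (.n (.n (.b 2) (.b 6)) (.n (.n (.b 2) (.n (.n (.b 2) (.n (.b 4) (.n (.n (.b 2)
  (.n (.l 147 9) (.n (.l 182 9) (.n (.n (.b 2) (.n (.n (.b 2) (.n (.b 4) (.n (.n (.b 2) (.n (.l
  126 9) (.n (.l 238 1) (.l 263 0)))) (.l 213 4)))) (.l 203 7))) (.b 3))))) (.n (.l 182 9) (.b
  3))))) (.n (.n (.b 2) (.n (.n (.b 2) (.n (.b 4) (.l 181 9))) (.n (.b 6) (.n (.n (.b 2) (.n (.l
  181 9) (.n (.l 181 9) (.n (.n (.b 2) (.n (.n (.b 2) (.n (.b 4) (.n (.n (.b 2) (.n (.l 160 9) (.n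
  (.l 129 9) (.n (.n (.b 2) (.l 263 0)) (.b 3))))) (.l 160 9)))) (.b 8))) (.b 3))))) (.b 3)))))
  (.n (.n (.b 2) (.n (.n (.b 2) (.n (.b 4) (.n (.l 181 9) (.n (.n (.b 2) (.n (.n (.b 2) (.n (.b 4)
  (.n (.n (.b 2) (.n (.l 125 12) (.n (.l 125 99) (.n (.l 263 0) (.b 3))))) (.l 125 12)))) (.l 181
  9))) (.b 3))))) (.b 8))) (.b 3))))) (.b 3))))) (.n (.n (.b 2) (.n (.n (.b 2) (.n (.b 4) (.n (.n
  (.b 2) (.n (.n (.b 2) (.n (.b 4) (.b 11))) (.n (.n (.b 2) (.b 6)) (.n (.n (.b 2) (.n (.l 192 9)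
  (.n (.l 195 9) (.n (.n (.b 2) (.n (.n (.b 2) (.n (.b 4) (.n (.l 213 9) (.n (.n (.b 2) (.n (.n
  (.b 2) (.l 263 0)) (.l 129 99))) (.b 3))))) (.b 8))) (.b 3))))) (.b 3))))) (.n (.n (.b 2) (.n
  (.n (.b 2) (.n (.b 4) (.n (.l 195 9) (.n (.n (.b 2) (.n (.n (.b 2) (.n (.b 4) (.n (.l 213 4) (.n
  (.n (.b 2) (.n (.l 263 0) (.l 238 1))) (.b 3))))) (.l 213 7))) (.b 3))))) (.n (.l 195 9) (.n (.l
  195 9) (.b 3))))) (.b 3))))) (.n (.n (.b 2) (.n (.n (.b 2) (.n (.b 4) (.n (.n (.b 2) (.n (.n (.b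
  2) (.l 213 7)) (.l 213 7))) (.n (.l 213 7) (.b 3))))) (.n (.b 6) (.n (.n (.b 2) (.n (.n (.b 2)
  (.n (.b 4) (.l 263 0))) (.n (.l 129 9) (.n (.n (.b 2) (.n (.l 129 9) (.b 8))) (.b 3))))) (.b
  3))))) (.n (.n (.b 2) (.n (.n (.b 2) (.n (.b 4) (.n (.l 150 9) (.n (.n (.b 2) (.n (.l 150 9) (.n
  (.l 150 9) (.n (.n (.b 2) (.n (.n (.b 2) (.n (.b 4) (.n (.l 140 9) (.n (.n (.b 2) (.n (.l 129 9)
  (.n (.l 129 99) (.n (.l 263 0) (.b 3))))) (.b 3))))) (.l 150 9))) (.b 3))))) (.b 3))))) (.n (.n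
  (.b 2) (.n (.n (.b 2) (.n (.b 4) (.n (.l 150 9) (.n (.n (.b 2) (.n (.n (.b 2) (.n (.b 4) (.n (.l
  66 12) (.n (.n (.b 2) (.n (.l 65 99) (.n (.l 238 99) (.l 263 0)))) (.b 3))))) (.l 150 9))) (.b
  3))))) (.l 150 9))) (.b 8)))) (.b 3))))) (.b 3))))) (.n (.n (.b 2) (.n (.n (.b 2) (.n (.b 4) (.n
  (.n (.b 2) (.n (.n (.b 2) (.n (.b 4) (.n (.n (.b 2) (.n (.n (.b 2) (.l 213 6)) (.l 213 6))) (.n
  (.n (.b 2) (.l 213 6)) (.b 3))))) (.n (.n (.b 2) (.b 6)) (.n (.n (.b 2) (.n (.n (.b 2) (.n (.b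
  4) (.l 138 9))) (.n (.l 263 0) (.n (.n (.b 2) (.n (.l 238 1) (.b 8))) (.b 3))))) (.b 3))))) (.n
  (.n (.b 2) (.n (.n (.b 2) (.n (.b 4) (.n (.n (.b 2) (.l 104 9)) (.n (.n (.b 2) (.n (.l 104 9)
  (.n (.l 138 9) (.n (.n (.b 2) (.n (.l 138 9) (.n (.n (.b 2) (.n (.n (.b 2) (.n (.b 4) (.n (.l
  138 99) (.n (.l 263 0) (.b 3))))) (.l 139 9))) (.b 8)))) (.b 3))))) (.b 3))))) (.n (.n (.b 2)
  (.n (.n (.b 2) (.n (.b 4) (.n (.l 136 9) (.n (.n (.b 2) (.n (.l 119 12) (.n (.n (.b 2) (.n (.n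
  (.b 2) (.n (.b 4) (.n (.l 238 1) (.l 263 0)))) (.l 136 4))) (.l 136 6)))) (.b 3))))) (.n (.b 6)
  (.n (.l 136 9) (.b 3))))) (.n (.n (.b 2) (.n (.l 136 9) (.n (.n (.b 2) (.n (.l 138 9) (.n (.b 6)
  (.n (.n (.b 2) (.n (.l 136 9) (.n (.n (.b 2) (.n (.n (.b 2) (.n (.b 4) (.n (.l 136 9) (.n (.n
  (.b 2) (.l 263 0)) (.b 3))))) (.l 136 9))) (.l 140 9)))) (.b 3))))) (.b 8)))) (.b 3))))) (.b
  3))))) (.n (.b 6) (.n (.n (.b 2) (.n (.n (.b 2) (.n (.b 4) (.n (.n (.b 2) (.n (.n (.b 2) (.l 159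
  6)) (.n (.n (.b 2) (.b 6)) (.l 159 6)))) (.n (.n (.b 2) (.n (.l 188 3) (.n (.n (.b 2) (.l 263
  0)) (.n (.n (.b 2) (.n (.l 61 12) (.n (.l 61 12) (.b 8)))) (.b 3))))) (.b 3))))) (.n (.n (.b 2)
  (.n (.n (.b 2) (.n (.b 4) (.n (.l 127 9) (.n (.n (.b 2) (.n (.l 127 9) (.n (.l 127 9) (.n (.n
  (.b 2) (.n (.l 127 9) (.n (.n (.b 2) (.n (.l 204 9) (.n (.b 6) (.n (.n (.b 2) (.n (.l 106 99)
  (.n (.l 263 0) (.l 238 99)))) (.b 3))))) (.b 8)))) (.b 3))))) (.b 3))))) (.n (.b 6) (.n (.n (.b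
  2) (.n (.l 127 9) (.n (.n (.b 2) (.n (.l 150 9) (.n (.b 6) (.n (.n (.b 2) (.n (.l 127 9) (.n (.n
  (.b 2) (.n (.l 192 9) (.n (.b 6) (.n (.n (.b 2) (.n (.l 106 9) (.n (.n (.b 2) (.l 263 0)) (.l
  106 99)))) (.b 3))))) (.l 127 9)))) (.b 3))))) (.l 127 9)))) (.b 3))))) (.n (.n (.b 2) (.n (.n
  (.b 2) (.n (.b 4) (.n (.n (.b 2) (.n (.l 127 9) (.n (.l 127 9) (.n (.n (.b 2) (.n (.l 127 9) (.n
  (.n (.b 2) (.n (.l 106 9) (.n (.b 6) (.n (.n (.b 2) (.n (.l 106 99) (.n (.l 238 99) (.l 263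
  0)))) (.b 3))))) (.l 106 9)))) (.b 3))))) (.l 127 9)))) (.b 8))) (.b 3))))) (.b 3))))) (.n (.n
  (.b 2) (.n (.n (.b 2) (.n (.b 4) (.n (.n (.b 2) (.n (.n (.b 2) (.n (.b 4) (.n (.n (.b 2) (.l 130
  9)) (.n (.n (.b 2) (.b 11)) (.b 3))))) (.n (.n (.b 2) (.b 6)) (.n (.n (.b 2) (.n (.l 130 9) (.n
  (.n (.b 2) (.n (.l 130 9) (.n (.b 6) (.n (.n (.b 2) (.n (.l 130 9) (.n (.l 175 9) (.n (.n (.b 2)
  (.n (.n (.b 2) (.n (.b 4) (.n (.n (.b 2) (.l 263 0)) (.l 109 99)))) (.b 8))) (.b 3))))) (.b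
  3))))) (.l 130 9)))) (.b 3))))) (.n (.n (.b 2) (.n (.n (.b 2) (.n (.b 4) (.n (.n (.b 2) (.n (.l
  130 9) (.n (.l 130 9) (.n (.n (.b 2) (.n (.l 109 9) (.n (.l 135 9) (.n (.n (.b 2) (.n (.n (.b 2)
  (.n (.b 4) (.n (.l 238 99) (.l 263 0)))) (.b 8))) (.b 3))))) (.b 3))))) (.l 130 9)))) (.n (.n
  (.b 2) (.n (.l 130 9) (.n (.b 6) (.n (.n (.b 2) (.n (.b 13) (.n (.l 130 9) (.n (.n (.b 2) (.n
  (.l 130 9) (.b 8))) (.b 3))))) (.b 3))))) (.n (.n (.b 2) (.n (.n (.b 2) (.n (.b 4) (.n (.l 130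
  9) (.n (.n (.b 2) (.n (.l 127 9) (.n (.l 109 9) (.n (.n (.b 2) (.n (.n (.b 2) (.n (.b 4) (.n (.l
  40 99) (.n (.l 263 0) (.b 3))))) (.l 109 12))) (.b 3))))) (.b 3))))) (.l 130 9))) (.b 3))))) (.b
  3))))) (.n (.n (.b 2) (.n (.n (.b 2) (.n (.b 4) (.n (.n (.b 2) (.n (.n (.b 2) (.n (.b 4) (.l 109
  9))) (.n (.l 109 9) (.n (.n (.b 2) (.b 12)) (.b 3))))) (.n (.n (.b 2) (.n (.n (.b 2) (.n (.b 4)
  (.n (.l 43 9) (.n (.n (.b 2) (.n (.l 42 9) (.n (.l 138 9) (.n (.n (.b 2) (.n (.l 163 99) (.n (.n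
  (.b 2) (.n (.l 263 0) (.l 238 99))) (.b 8)))) (.b 3))))) (.b 3))))) (.l 109 9))) (.b 3))))) (.n
  (.b 6) (.n (.n (.b 2) (.n (.n (.b 2) (.n (.b 4) (.n (.l 109 9) (.n (.n (.b 2) (.n (.l 109 9) (.n
  (.b 13) (.n (.n (.b 2) (.n (.l 109 9) (.n (.l 109 9) (.b 8)))) (.b 3))))) (.b 3))))) (.n (.n (.b
  2) (.n (.n (.b 2) (.n (.b 4) (.n (.l 109 9) (.n (.n (.b 2) (.n (.l 109 9) (.n (.l 56 12) (.n (.n
  (.b 2) (.n (.l 0 99) (.n (.n (.b 2) (.n (.l 213 99) (.n (.b 6) (.l 263 0)))) (.b 8)))) (.b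
  3))))) (.b 3))))) (.l 109 9))) (.n (.l 109 9) (.b 3))))) (.b 3))))) (.n (.n (.b 2) (.b 8)) (.b
  3))))) (.b 3))))) (.b 3))

/-- A subtree of the table. -/
def u0 : T := .n s2 s3

/-- A subtree of the table. -/
def u1 : T := .n s1 u0

/-- A subtree of the table. -/
def u2 : T := .n s0 u1

/-- A subtree of the table. -/
def u3 : T := .n s6 s7

/-- A subtree of the table. -/
def u4 : T := .n s5 u3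

/-- A subtree of the table. -/
def u5 : T := .n s4 u4

/-- A subtree of the table. -/
def u6 : T := .n s9 s10

/-- A subtree of the table. -/
def u7 : T := .n s8 u6

/-- A subtree of the table. -/
def u8 : T := .n u7 s11

/-- A subtree of the table. -/
def u9 : T := .n u5 u8

/-- A subtree of the table. -/
def u10 : T := .n u2 u9

/-- The table. -/
def tb : T := u10

end Pool.Agent.Helper49.TF.B1
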