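import Pool.Agent.Helper49.TF.Defs

set_option autoImplicit false
set_option maxRecDepth 100000

/-!
# Table B2: data
-/

namespace Pool.Agent.Helper49.TF.B2

/-- Upper bounds. -/
def es : List ℕ := [0, 1, 2, 3, 4, 4, 5, 6, 7, 8, 9, 9, 10, 11, 12, 13, 14, 14, 15, 16, 17]

/-- Lower bounds. -/
def el : List ℕ := [0, 1, 2, 3, 4, 4, 5, 6, 7, 8, 9, 9, 10, 11, 12, 13, 13, 14, 15, 16, 17]

/-- Rewards. -/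
def ws : List ℕ := [127, 100, 95, 84, 77, 63, 56, 42, 35, 21]

/-- A subtree of the table. -/
def s0 : T :=
  (.b 2)

/-- A subtree of the table. -/
def s1 : T :=
  (.n (.b 2) (.n (.n (.b 2) (.b 4)) (.n (.n (.b 2) (.n (.n (.b 2) (.n (.b 4) (.n (.n (.b 2) (.n
  (.n (.b 2) (.n (.b 4) (.n (.n (.b 2) (.n (.n (.b 2) (.n (.b 4) (.n (.n (.b 2) (.n (.n (.b 2) (.n
  (.b 4) (.l 256 0))) (.l 156 3))) (.l 156 5)))) (.n (.n (.b 2) (.b 6)) (.l 156 6)))) (.n (.n (.b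
  2) (.n (.l 156 6) (.n (.n (.b 2) (.n (.n (.b 2) (.n (.b 4) (.l 156 6))) (.l 156 6))) (.l 156
  6)))) (.b 3))))) (.n (.n (.b 2) (.b 6)) (.n (.n (.b 2) (.n (.n (.b 2) (.n (.b 4) (.l 156 6)))
  (.n (.n (.b 2) (.l 156 6)) (.n (.n (.b 2) (.l 156 6)) (.b 3))))) (.b 3))))) (.n (.n (.b 2) (.n
  (.n (.b 2) (.n (.b 4) (.n (.n (.b 2) (.n (.b 11) (.l 256 0))) (.n (.n (.b 2) (.l 156 6)) (.b
  3))))) (.n (.n (.b 2) (.n (.n (.b 2) (.n (.b 4) (.l 156 6))) (.n (.b 6) (.n (.l 156 6) (.b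
  3))))) (.n (.n (.b 2) (.n (.n (.b 2) (.l 156 6)) (.n (.n (.b 2) (.l 156 6)) (.b 8)))) (.b 3)))))
  (.b 3))))) (.n (.n (.b 2) (.b 6)) (.n (.n (.b 2) (.n (.n (.b 2) (.n (.b 4) (.n (.n (.b 2) (.n
  (.n (.b 2) (.n (.b 4) (.n (.n (.b 2) (.n (.n (.b 2) (.n (.b 4) (.l 191 6))) (.l 191 6))) (.l 191
  6)))) (.n (.n (.b 2) (.b 6)) (.n (.n (.b 2) (.n (.n (.b 2) (.n (.b 4) (.n (.n (.b 2) (.n (.l 183
  6) (.n (.l 206 4) (.n (.n (.b 2) (.n (.l 256 0) (.l 231 1))) (.b 3))))) (.l 206 6)))) (.l 206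
  6))) (.b 3))))) (.n (.n (.b 2) (.n (.n (.b 2) (.n (.b 4) (.l 191 6))) (.n (.l 191 6) (.n (.l 191
  6) (.b 3))))) (.b 3))))) (.n (.n (.b 2) (.n (.n (.b 2) (.n (.b 4) (.n (.n (.b 2) (.l 256 0)) (.n
  (.n (.b 2) (.l 107 11)) (.b 3))))) (.n (.b 6) (.n (.n (.b 2) (.n (.l 191 6) (.n (.l 205 6) (.n
  (.n (.b 2) (.n (.n (.b 2) (.n (.b 4) (.n (.n (.b 2) (.n (.l 206 6) (.n (.l 191 6) (.n (.n (.b 2)
  (.n (.l 206 3) (.n (.n (.b 2) (.l 256 0)) (.l 156 6)))) (.b 3))))) (.l 191 6)))) (.b 8))) (.b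
  3))))) (.b 3))))) (.n (.n (.b 2) (.n (.n (.b 2) (.n (.b 4) (.n (.n (.b 2) (.l 191 6)) (.n (.n
  (.b 2) (.n (.n (.b 2) (.n (.b 4) (.n (.n (.b 2) (.n (.l 206 6) (.n (.l 156 6) (.n (.n (.b 2) (.n
  (.l 156 6) (.n (.l 231 1) (.l 256 0)))) (.b 3))))) (.l 191 6)))) (.l 191 6))) (.b 3))))) (.b
  8))) (.b 3))))) (.b 3))))) (.n (.n (.b 2) (.n (.n (.b 2) (.n (.b 4) (.n (.n (.b 2) (.n (.n (.b
  2) (.n (.b 4) (.n (.n (.b 2) (.n (.l 120 12) (.n (.n (.b 2) (.b 6)) (.l 120 12)))) (.n (.n (.b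
  2) (.b 11)) (.b 3))))) (.n (.n (.b 2) (.b 6)) (.n (.n (.b 2) (.n (.n (.b 2) (.l 206 5)) (.n (.n
  (.b 2) (.l 206 5)) (.n (.n (.b 2) (.n (.n (.b 2) (.n (.b 4) (.n (.l 206 5) (.n (.n (.b 2) (.n
  (.n (.b 2) (.n (.b 4) (.n (.n (.b 2) (.l 256 0)) (.l 156 5)))) (.l 177 5))) (.b 3))))) (.b 8)))
  (.b 3))))) (.b 3))))) (.n (.n (.b 2) (.n (.n (.b 2) (.n (.b 4) (.n (.n (.b 2) (.l 204 6)) (.n
  (.n (.b 2) (.n (.n (.b 2) (.n (.b 4) (.n (.l 206 6) (.n (.n (.b 2) (.n (.n (.b 2) (.n (.b 4) (.n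
  (.l 231 1) (.l 256 0)))) (.l 206 4))) (.b 3))))) (.l 206 6))) (.b 3))))) (.n (.n (.b 2) (.n (.n
  (.b 2) (.n (.b 4) (.l 204 6))) (.n (.b 6) (.n (.l 204 6) (.b 3))))) (.n (.n (.b 2) (.n (.n (.b
  2) (.l 204 6)) (.n (.n (.b 2) (.n (.n (.b 2) (.n (.b 4) (.n (.l 204 6) (.n (.n (.b 2) (.n (.n
  (.b 2) (.n (.b 4) (.n (.l 120 12) (.n (.l 256 0) (.b 3))))) (.l 204 6))) (.b 3))))) (.l 204 6)))
  (.b 8)))) (.b 3))))) (.b 3))))) (.n (.n (.b 2) (.n (.n (.b 2) (.n (.b 4) (.n (.n (.b 2) (.n (.n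
  (.b 2) (.n (.b 4) (.l 206 6))) (.n (.n (.b 2) (.b 6)) (.n (.n (.b 2) (.l 206 6)) (.b 3))))) (.n
  (.n (.b 2) (.n (.n (.b 2) (.l 206 6)) (.n (.n (.b 2) (.n (.n (.b 2) (.n (.b 4) (.n (.l 206 6)
  (.n (.n (.b 2) (.n (.l 158 10) (.n (.n (.b 2) (.n (.l 256 0) (.l 231 1))) (.l 206 3)))) (.b
  3))))) (.l 206 6))) (.n (.l 206 6) (.b 3))))) (.b 3))))) (.n (.b 6) (.n (.n (.b 2) (.n (.n (.b
  2) (.n (.b 4) (.n (.l 206 3) (.n (.n (.b 2) (.l 256 0)) (.b 3))))) (.n (.n (.b 2) (.n (.n (.b 2)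
  (.l 177 6)) (.n (.b 6) (.l 177 6)))) (.n (.n (.b 2) (.n (.l 177 6) (.b 8))) (.b 3))))) (.b
  3))))) (.n (.n (.b 2) (.n (.n (.b 2) (.n (.b 4) (.n (.n (.b 2) (.n (.n (.b 2) (.l 177 6)) (.n
  (.n (.b 2) (.b 6)) (.n (.l 177 6) (.b 3))))) (.n (.n (.b 2) (.n (.l 177 6) (.n (.l 177 6) (.n
  (.n (.b 2) (.n (.n (.b 2) (.n (.b 4) (.n (.l 177 6) (.n (.n (.b 2) (.n (.l 177 6) (.n (.l 177 6)
  (.n (.n (.b 2) (.n (.n (.b 2) (.l 256 0)) (.l 156 6))) (.b 3))))) (.b 3))))) (.l 177 6))) (.b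
  3))))) (.b 3))))) (.n (.n (.b 2) (.n (.n (.b 2) (.n (.b 4) (.n (.n (.b 2) (.l 177 6)) (.n (.n
  (.b 2) (.n (.n (.b 2) (.n (.b 4) (.n (.l 118 6) (.n (.n (.b 2) (.n (.l 110 6) (.n (.l 206 4) (.n
  (.n (.b 2) (.n (.l 231 1) (.l 256 0))) (.b 3))))) (.b 3))))) (.l 177 6))) (.b 3))))) (.n (.b 6)
  (.n (.n (.b 2) (.n (.l 177 6) (.n (.n (.b 2) (.n (.n (.b 2) (.n (.b 4) (.n (.l 177 6) (.n (.n
  (.b 2) (.n (.l 177 6) (.n (.l 177 6) (.n (.n (.b 2) (.n (.l 75 12) (.n (.l 256 0) (.b 8)))) (.b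
  3))))) (.b 3))))) (.l 177 6))) (.l 177 6)))) (.b 3))))) (.b 8)))) (.b 3))))) (.b 3)))))

/-- A subtree of the table. -/
def s2 : T :=
  (.n (.b 2) (.n (.n (.b 2) (.n (.b 4) (.n (.n (.b 2) (.n (.n (.b 2) (.n (.b 4) (.n (.n (.b 2) (.n
  (.n (.b 2) (.n (.b 4) (.n (.n (.b 2) (.n (.n (.b 2) (.n (.b 4) (.n (.n (.b 2) (.l 256 0)) (.l
  231 2)))) (.n (.n (.b 2) (.b 6)) (.l 231 3)))) (.l 231 3)))) (.n (.n (.b 2) (.b 6)) (.n (.n (.b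
  2) (.l 231 3)) (.b 3))))) (.n (.n (.b 2) (.n (.n (.b 2) (.n (.b 4) (.l 231 3))) (.n (.n (.b 2)
  (.n (.n (.b 2) (.n (.b 4) (.l 231 3))) (.n (.b 6) (.l 231 3)))) (.n (.l 231 3) (.b 3))))) (.b
  3))))) (.n (.n (.b 2) (.b 6)) (.n (.n (.b 2) (.n (.n (.b 2) (.n (.b 4) (.n (.n (.b 2) (.l 231
  3)) (.n (.n (.b 2) (.l 231 3)) (.b 3))))) (.n (.n (.b 2) (.n (.n (.b 2) (.l 256 0)) (.n (.b 6)
  (.n (.l 231 3) (.b 3))))) (.n (.n (.b 2) (.n (.l 231 3) (.b 8))) (.b 3))))) (.b 3))))) (.n (.n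
  (.b 2) (.n (.n (.b 2) (.n (.b 4) (.n (.n (.b 2) (.n (.n (.b 2) (.n (.b 4) (.b 11))) (.n (.n (.b
  2) (.b 6)) (.n (.l 231 2) (.b 3))))) (.n (.n (.b 2) (.n (.n (.b 2) (.l 213 3)) (.n (.n (.b 2)
  (.l 231 3)) (.n (.n (.b 2) (.n (.l 231 3) (.n (.n (.b 2) (.n (.n (.b 2) (.n (.b 4) (.n (.l 231
  3) (.n (.n (.b 2) (.n (.n (.b 2) (.l 256 0)) (.l 231 3))) (.b 3))))) (.l 231 3))) (.b 8)))) (.b
  3))))) (.b 3))))) (.n (.n (.b 2) (.n (.n (.b 2) (.n (.b 4) (.n (.n (.b 2) (.l 231 3)) (.n (.n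
  (.b 2) (.n (.l 206 3) (.n (.n (.b 2) (.n (.n (.b 2) (.n (.b 4) (.n (.l 231 3) (.n (.n (.b 2) (.n
  (.l 106 8) (.l 256 0))) (.b 3))))) (.l 231 3))) (.l 231 3)))) (.b 3))))) (.n (.b 6) (.n (.n (.b
  2) (.n (.n (.b 2) (.l 231 3)) (.n (.n (.b 2) (.n (.l 231 3) (.n (.b 6) (.l 231 3)))) (.l 231
  3)))) (.b 3))))) (.n (.n (.b 2) (.n (.n (.b 2) (.n (.b 4) (.n (.n (.b 2) (.n (.l 231 3) (.n (.n
  (.b 2) (.b 6)) (.l 231 3)))) (.n (.l 231 3) (.b 3))))) (.n (.n (.b 2) (.n (.l 231 3) (.n (.b 6)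
  (.n (.n (.b 2) (.n (.l 231 3) (.n (.n (.b 2) (.n (.n (.b 2) (.n (.b 4) (.n (.l 231 3) (.n (.n
  (.b 2) (.n (.l 231 3) (.n (.l 231 3) (.n (.l 256 0) (.b 3))))) (.b 3))))) (.l 231 3))) (.l 231
  3)))) (.b 3))))) (.b 8)))) (.b 3))))) (.b 3))))) (.n (.n (.b 2) (.n (.n (.b 2) (.n (.b 4) (.n
  (.n (.b 2) (.n (.n (.b 2) (.n (.b 4) (.n (.n (.b 2) (.n (.l 256 0) (.l 256 0))) (.n (.n (.b 2)
  (.l 256 0)) (.b 3))))) (.n (.n (.b 2) (.b 6)) (.n (.n (.b 2) (.n (.n (.b 2) (.l 256 0)) (.n (.l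
  256 0) (.l 256 0)))) (.b 3))))) (.n (.n (.b 2) (.n (.n (.b 2) (.n (.b 4) (.n (.n (.b 2) (.l 256
  0)) (.n (.l 256 0) (.b 3))))) (.n (.n (.b 2) (.n (.n (.b 2) (.l 256 0)) (.n (.b 6) (.l 256 0))))
  (.n (.n (.b 2) (.n (.l 256 0) (.l 256 0))) (.b 3))))) (.b 3))))) (.b 6))) (.n (.n (.b 2) (.n (.n
  (.b 2) (.n (.b 4) (.n (.n (.b 2) (.n (.n (.b 2) (.n (.b 4) (.n (.n (.b 2) (.n (.n (.b 2) (.n (.b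
  4) (.l 183 8))) (.n (.n (.b 2) (.b 6)) (.l 183 8)))) (.n (.l 183 8) (.b 3))))) (.n (.n (.b 2)
  (.b 6)) (.n (.n (.b 2) (.n (.n (.b 2) (.n (.b 4) (.n (.n (.b 2) (.n (.l 175 8) (.n (.l 198 6)
  (.n (.n (.b 2) (.n (.n (.b 2) (.n (.b 4) (.l 256 0))) (.l 204 3))) (.b 3))))) (.l 198 8)))) (.n
  (.l 198 8) (.n (.l 198 8) (.b 3))))) (.b 3))))) (.n (.n (.b 2) (.n (.n (.b 2) (.n (.b 4) (.n (.l
  218 6) (.n (.l 218 6) (.b 3))))) (.n (.n (.b 2) (.n (.n (.b 2) (.l 231 3)) (.n (.b 6) (.n (.l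
  256 0) (.b 3))))) (.n (.n (.b 2) (.n (.l 114 8) (.n (.l 114 8) (.b 8)))) (.b 3))))) (.b 3)))))
  (.n (.n (.b 2) (.n (.n (.b 2) (.n (.b 4) (.n (.n (.b 2) (.n (.n (.b 2) (.l 184 2)) (.n (.n (.b
  2) (.b 6)) (.l 256 0)))) (.n (.n (.b 2) (.n (.l 57 12) (.n (.l 57 12) (.n (.n (.b 2) (.n (.l 57
  12) (.n (.n (.b 2) (.n (.l 131 9) (.n (.b 6) (.n (.n (.b 2) (.n (.l 57 12) (.n (.n (.b 2) (.n
  (.n (.b 2) (.l 256 0)) (.l 184 2))) (.l 156 4)))) (.b 3))))) (.b 8)))) (.b 3))))) (.b 3))))) (.n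
  (.b 6) (.n (.n (.b 2) (.n (.n (.b 2) (.n (.b 4) (.n (.n (.b 2) (.n (.l 141 8) (.n (.n (.b 2) (.b
  6)) (.l 141 8)))) (.l 141 8)))) (.n (.n (.b 2) (.n (.l 155 8) (.n (.b 6) (.n (.n (.b 2) (.n (.l
  155 8) (.n (.n (.b 2) (.n (.l 190 8) (.n (.b 6) (.n (.n (.b 2) (.n (.l 154 8) (.n (.n (.b 2) (.n
  (.l 231 3) (.n (.b 6) (.n (.l 256 0) (.b 3))))) (.l 154 8)))) (.b 3))))) (.l 155 8)))) (.b
  3))))) (.n (.n (.b 2) (.n (.n (.b 2) (.n (.b 4) (.n (.n (.b 2) (.n (.l 156 8) (.n (.l 141 8) (.n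
  (.n (.b 2) (.n (.l 156 5) (.n (.n (.b 2) (.n (.l 184 2) (.n (.b 6) (.l 256 0)))) (.l 113 8))))
  (.b 3))))) (.l 141 8)))) (.b 8))) (.b 3))))) (.b 3))))) (.n (.n (.b 2) (.n (.n (.b 2) (.n (.b 4)
  (.n (.n (.b 2) (.n (.l 141 8) (.n (.l 141 8) (.n (.n (.b 2) (.n (.l 141 8) (.n (.n (.b 2) (.n
  (.l 183 8) (.n (.b 6) (.n (.n (.b 2) (.n (.l 141 8) (.n (.l 231 4) (.n (.n (.b 2) (.n (.l 256 0)
  (.b 8))) (.b 3))))) (.b 3))))) (.l 141 8)))) (.b 3))))) (.n (.n (.b 2) (.n (.n (.b 2) (.n (.b 4)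
  (.n (.n (.b 2) (.n (.l 156 8) (.n (.l 106 8) (.n (.n (.b 2) (.n (.l 106 8) (.n (.l 175 3) (.n
  (.n (.b 2) (.l 256 0)) (.b 3))))) (.b 3))))) (.l 141 8)))) (.l 141 8))) (.b 3))))) (.b 8))) (.b
  3))))) (.b 3)))))

/-- A subtree of the table. -/
def s3 : T :=
  (.n (.n (.b 2) (.n (.n (.b 2) (.n (.b 4) (.n (.n (.b 2) (.n (.n (.b 2) (.n (.b 4) (.n (.n (.b 2)
  (.n (.n (.b 2) (.n (.b 4) (.l 129 11))) (.n (.n (.b 2) (.b 6)) (.n (.l 129 11) (.b 3))))) (.n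
  (.n (.b 2) (.n (.n (.b 2) (.b 11)) (.n (.n (.b 2) (.l 129 11)) (.n (.n (.b 2) (.n (.l 129 11)
  (.n (.l 129 11) (.b 8)))) (.b 3))))) (.b 3))))) (.n (.n (.b 2) (.b 6)) (.n (.n (.b 2) (.n (.n
  (.b 2) (.n (.b 4) (.n (.n (.b 2) (.n (.l 184 7) (.n (.l 207 7) (.n (.n (.b 2) (.n (.n (.b 2) (.n
  (.b 4) (.n (.n (.b 2) (.n (.l 156 7) (.l 256 0))) (.l 231 3)))) (.l 231 6))) (.b 3))))) (.n (.l
  207 7) (.b 3))))) (.n (.n (.b 2) (.n (.l 207 7) (.n (.b 6) (.n (.n (.b 2) (.n (.l 207 7) (.n (.l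
  221 7) (.n (.n (.b 2) (.n (.n (.b 2) (.n (.b 4) (.n (.n (.b 2) (.n (.l 231 3) (.n (.l 186 7) (.n
  (.l 256 0) (.b 3))))) (.l 207 7)))) (.b 8))) (.b 3))))) (.b 3))))) (.n (.n (.b 2) (.n (.n (.b 2)
  (.n (.b 4) (.n (.l 207 7) (.n (.n (.b 2) (.n (.n (.b 2) (.n (.b 4) (.n (.n (.b 2) (.n (.l 231 2)
  (.n (.l 144 11) (.l 256 0)))) (.l 207 7)))) (.l 207 7))) (.b 3))))) (.b 8))) (.b 3))))) (.b
  3))))) (.n (.n (.b 2) (.n (.n (.b 2) (.n (.b 4) (.n (.n (.b 2) (.n (.n (.b 2) (.l 220 8)) (.n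
  (.n (.b 2) (.b 6)) (.n (.n (.b 2) (.n (.l 220 8) (.n (.l 231 8) (.n (.n (.b 2) (.n (.n (.b 2)
  (.n (.b 4) (.n (.l 231 4) (.n (.n (.b 2) (.n (.l 256 0) (.l 154 8))) (.b 3))))) (.b 8))) (.b
  3))))) (.b 3))))) (.n (.n (.b 2) (.n (.n (.b 2) (.n (.b 4) (.n (.l 220 8) (.n (.n (.b 2) (.n (.n
  (.b 2) (.n (.b 4) (.n (.l 231 3) (.n (.n (.b 2) (.l 256 0)) (.b 3))))) (.l 231 6))) (.b 3)))))
  (.n (.l 220 8) (.n (.l 220 8) (.b 3))))) (.b 3))))) (.n (.n (.b 2) (.n (.n (.b 2) (.n (.b 4) (.n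
  (.l 231 6) (.n (.l 231 6) (.b 3))))) (.n (.b 6) (.n (.n (.b 2) (.n (.n (.b 2) (.l 256 0)) (.n
  (.l 154 8) (.n (.n (.b 2) (.n (.l 154 8) (.b 8))) (.b 3))))) (.b 3))))) (.n (.n (.b 2) (.n (.n
  (.b 2) (.n (.b 4) (.n (.l 175 8) (.n (.n (.b 2) (.n (.l 175 8) (.n (.l 175 8) (.n (.n (.b 2) (.n
  (.n (.b 2) (.n (.b 4) (.n (.l 166 8) (.n (.n (.b 2) (.n (.l 166 8) (.n (.l 154 8) (.l 256 0))))
  (.b 3))))) (.l 175 8))) (.b 3))))) (.b 3))))) (.n (.n (.b 2) (.n (.n (.b 2) (.n (.b 4) (.n (.l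
  175 8) (.n (.n (.b 2) (.n (.n (.b 2) (.n (.b 4) (.n (.l 91 11) (.n (.n (.b 2) (.n (.l 83 11) (.l
  256 0))) (.b 3))))) (.l 175 8))) (.b 3))))) (.l 175 8))) (.b 8)))) (.b 3))))) (.b 3))))) (.n (.n
  (.b 2) (.n (.n (.b 2) (.n (.b 4) (.n (.n (.b 2) (.n (.n (.b 2) (.n (.b 4) (.n (.n (.b 2) (.l 231
  5)) (.n (.n (.b 2) (.l 231 5)) (.b 3))))) (.n (.n (.b 2) (.b 6)) (.n (.n (.b 2) (.n (.l 156 8)
  (.l 256 0))) (.b 3))))) (.n (.n (.b 2) (.n (.n (.b 2) (.n (.b 4) (.n (.n (.b 2) (.l 130 8)) (.n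
  (.n (.b 2) (.n (.l 130 8) (.n (.l 183 8) (.n (.n (.b 2) (.n (.l 208 7) (.n (.n (.b 2) (.n (.n
  (.b 2) (.n (.b 4) (.n (.l 156 8) (.l 256 0)))) (.l 231 4))) (.b 8)))) (.b 3))))) (.b 3))))) (.n
  (.n (.b 2) (.n (.n (.b 2) (.n (.b 4) (.n (.l 154 8) (.n (.n (.b 2) (.n (.l 108 12) (.n (.n (.b
  2) (.n (.n (.b 2) (.n (.b 4) (.l 256 0))) (.l 154 3))) (.l 154 5)))) (.b 3))))) (.n (.b 6) (.n
  (.l 154 8) (.b 3))))) (.n (.n (.b 2) (.n (.l 154 8) (.n (.n (.b 2) (.n (.l 156 8) (.n (.b 6) (.n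
  (.n (.b 2) (.n (.l 154 8) (.n (.n (.b 2) (.n (.n (.b 2) (.n (.b 4) (.n (.l 154 8) (.n (.l 256 0)
  (.b 3))))) (.l 231 5))) (.l 219 7)))) (.b 3))))) (.b 8)))) (.b 3))))) (.b 3))))) (.n (.b 6) (.n
  (.n (.b 2) (.n (.n (.b 2) (.n (.b 4) (.n (.n (.b 2) (.n (.n (.b 2) (.l 177 5)) (.n (.n (.b 2)
  (.b 6)) (.l 177 5)))) (.n (.n (.b 2) (.n (.l 214 2) (.n (.l 256 0) (.n (.n (.b 2) (.n (.l 87 11)
  (.n (.l 87 11) (.b 8)))) (.b 3))))) (.b 3))))) (.n (.n (.b 2) (.n (.n (.b 2) (.n (.b 4) (.n (.l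
  157 8) (.n (.n (.b 2) (.n (.l 157 8) (.n (.l 157 8) (.n (.n (.b 2) (.n (.l 148 8) (.n (.n (.b 2)
  (.n (.l 231 5) (.n (.b 6) (.n (.n (.b 2) (.n (.l 127 8) (.l 256 0))) (.b 3))))) (.b 8)))) (.b
  3))))) (.b 3))))) (.n (.b 6) (.n (.n (.b 2) (.n (.l 157 8) (.n (.n (.b 2) (.n (.l 192 8) (.n (.b
  6) (.n (.n (.b 2) (.n (.l 156 8) (.n (.n (.b 2) (.n (.l 210 6) (.n (.b 6) (.n (.n (.b 2) (.n (.l
  127 8) (.n (.l 256 0) (.l 127 8)))) (.b 3))))) (.l 156 8)))) (.b 3))))) (.l 157 8)))) (.b 3)))))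
  (.n (.n (.b 2) (.n (.n (.b 2) (.n (.b 4) (.n (.n (.b 2) (.n (.l 158 8) (.n (.l 148 8) (.n (.n
  (.b 2) (.n (.l 183 8) (.n (.n (.b 2) (.n (.l 211 5) (.n (.b 6) (.n (.n (.b 2) (.n (.l 127 8) (.l
  256 0))) (.b 3))))) (.l 148 8)))) (.b 3))))) (.l 148 8)))) (.b 8))) (.b 3))))) (.b 3))))) (.n
  (.n (.b 2) (.n (.n (.b 2) (.n (.b 4) (.n (.n (.b 2) (.n (.n (.b 2) (.n (.b 4) (.n (.n (.b 2) (.l
  148 8)) (.n (.n (.b 2) (.n (.b 11) (.n (.l 148 8) (.n (.n (.b 2) (.n (.l 148 8) (.n (.l 148 8)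
  (.b 8)))) (.b 3))))) (.b 3))))) (.n (.n (.b 2) (.b 6)) (.n (.n (.b 2) (.n (.l 148 8) (.n (.n (.b
  2) (.n (.l 164 8) (.n (.b 6) (.n (.n (.b 2) (.n (.l 148 8) (.n (.l 212 7) (.n (.n (.b 2) (.n (.n
  (.b 2) (.n (.b 4) (.n (.l 256 0) (.l 127 8)))) (.b 8))) (.b 3))))) (.b 3))))) (.l 148 8)))) (.b
  3))))) (.n (.n (.b 2) (.n (.n (.b 2) (.n (.b 4) (.n (.n (.b 2) (.n (.l 148 8) (.n (.l 148 8) (.n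
  (.n (.b 2) (.n (.l 148 8) (.n (.l 204 6) (.n (.n (.b 2) (.n (.n (.b 2) (.n (.b 4) (.l 256 0)))
  (.b 8))) (.b 3))))) (.b 3))))) (.l 148 8)))) (.n (.n (.b 2) (.n (.l 148 8) (.n (.b 6) (.n (.n
  (.b 2) (.n (.b 13) (.n (.l 148 8) (.n (.n (.b 2) (.n (.l 148 8) (.b 8))) (.b 3))))) (.b 3)))))
  (.n (.n (.b 2) (.n (.n (.b 2) (.n (.b 4) (.n (.l 148 8) (.n (.n (.b 2) (.n (.l 148 8) (.n (.l
  148 8) (.n (.n (.b 2) (.n (.n (.b 2) (.n (.b 4) (.n (.l 66 11) (.l 256 0)))) (.l 127 8))) (.b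
  3))))) (.b 3))))) (.l 148 8))) (.b 3))))) (.b 3))))) (.n (.n (.b 2) (.n (.n (.b 2) (.n (.b 4)
  (.n (.n (.b 2) (.n (.l 127 8) (.n (.l 127 8) (.n (.n (.b 2) (.b 12)) (.b 3))))) (.n (.n (.b 2)
  (.n (.n (.b 2) (.n (.b 4) (.n (.l 68 8) (.n (.n (.b 2) (.n (.l 60 8) (.n (.l 156 6) (.n (.n (.b
  2) (.n (.l 181 3) (.n (.n (.b 2) (.l 256 0)) (.b 8)))) (.b 3))))) (.b 3))))) (.l 127 8))) (.b
  3))))) (.n (.b 6) (.n (.n (.b 2) (.n (.n (.b 2) (.n (.b 4) (.n (.l 127 8) (.n (.n (.b 2) (.n (.l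
  127 8) (.n (.b 13) (.n (.n (.b 2) (.n (.l 127 8) (.n (.l 127 8) (.b 8)))) (.b 3))))) (.b 3)))))
  (.n (.n (.b 2) (.n (.n (.b 2) (.n (.b 4) (.n (.l 127 8) (.n (.n (.b 2) (.n (.l 127 8) (.n (.l
  127 8) (.n (.n (.b 2) (.n (.l 25 14) (.n (.n (.b 2) (.n (.l 231 1) (.l 256 0))) (.b 8)))) (.b
  3))))) (.b 3))))) (.l 127 8))) (.l 127 8)))) (.b 3))))) (.n (.b 8) (.b 3))))) (.b 3))))) (.b 3))

/-- A subtree of the table. -/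
def s4 : T :=
  (.b 2)

/-- A subtree of the table. -/
def s5 : T :=
  (.n (.b 2) (.n (.b 4) (.n (.n (.b 2) (.n (.n (.b 2) (.n (.b 4) (.n (.n (.b 2) (.n (.n (.b 2) (.n
  (.b 4) (.n (.n (.b 2) (.n (.n (.b 2) (.n (.b 4) (.n (.n (.b 2) (.n (.n (.b 2) (.l 256 0)) (.l
  181 2))) (.l 181 4)))) (.n (.n (.b 2) (.b 6)) (.l 181 5)))) (.n (.n (.b 2) (.l 181 5)) (.b
  3))))) (.n (.n (.b 2) (.b 6)) (.n (.n (.b 2) (.n (.n (.b 2) (.l 181 5)) (.n (.n (.b 2) (.l 181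
  5)) (.n (.l 181 5) (.b 3))))) (.b 3))))) (.n (.n (.b 2) (.n (.n (.b 2) (.n (.b 4) (.n (.n (.b 2)
  (.b 11)) (.n (.l 181 5) (.b 3))))) (.n (.n (.b 2) (.n (.n (.b 2) (.n (.b 4) (.l 181 5))) (.n (.b
  6) (.n (.l 181 5) (.b 3))))) (.n (.n (.b 2) (.n (.n (.b 2) (.l 181 5)) (.n (.l 181 5) (.b 8))))
  (.b 3))))) (.b 3))))) (.n (.n (.b 2) (.b 6)) (.n (.n (.b 2) (.n (.n (.b 2) (.n (.b 4) (.n (.n
  (.b 2) (.n (.n (.b 2) (.l 216 5)) (.n (.l 216 5) (.n (.n (.b 2) (.n (.n (.b 2) (.n (.b 4) (.n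
  (.n (.b 2) (.n (.l 208 5) (.n (.l 231 3) (.n (.n (.b 2) (.l 256 0)) (.b 3))))) (.l 231 5)))) (.l
  231 5))) (.b 3))))) (.n (.n (.b 2) (.n (.l 216 5) (.n (.l 216 5) (.n (.l 216 5) (.b 3))))) (.b
  3))))) (.n (.n (.b 2) (.n (.n (.b 2) (.n (.b 4) (.n (.l 256 0) (.n (.l 132 10) (.b 3))))) (.n
  (.b 6) (.n (.n (.b 2) (.n (.l 216 5) (.n (.l 230 5) (.n (.n (.b 2) (.n (.n (.b 2) (.n (.b 4) (.n
  (.n (.b 2) (.n (.l 231 5) (.n (.l 216 5) (.n (.n (.b 2) (.n (.l 231 2) (.n (.l 256 0) (.l 181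
  5)))) (.b 3))))) (.l 216 5)))) (.b 8))) (.b 3))))) (.b 3))))) (.n (.n (.b 2) (.n (.n (.b 2) (.n
  (.b 4) (.n (.l 216 5) (.n (.n (.b 2) (.n (.n (.b 2) (.n (.b 4) (.n (.n (.b 2) (.n (.l 231 5) (.n
  (.l 181 5) (.n (.n (.b 2) (.n (.l 181 5) (.l 256 0))) (.b 3))))) (.l 216 5)))) (.l 216 5))) (.b
  3))))) (.b 8))) (.b 3))))) (.b 3))))) (.n (.n (.b 2) (.n (.n (.b 2) (.n (.b 4) (.n (.n (.b 2)
  (.n (.n (.b 2) (.n (.b 4) (.n (.n (.b 2) (.l 145 11)) (.n (.b 11) (.b 3))))) (.n (.n (.b 2) (.b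
  6)) (.n (.n (.b 2) (.n (.n (.b 2) (.l 231 4)) (.n (.l 231 4) (.n (.n (.b 2) (.n (.n (.b 2) (.n
  (.b 4) (.n (.l 231 4) (.n (.n (.b 2) (.n (.n (.b 2) (.n (.b 4) (.n (.l 256 0) (.l 181 4)))) (.l
  202 4))) (.b 3))))) (.b 8))) (.b 3))))) (.b 3))))) (.n (.n (.b 2) (.n (.n (.b 2) (.n (.b 4) (.n
  (.l 229 5) (.n (.n (.b 2) (.n (.n (.b 2) (.n (.b 4) (.n (.l 231 5) (.n (.n (.b 2) (.n (.n (.b 2)
  (.n (.b 4) (.l 256 0))) (.l 231 3))) (.b 3))))) (.l 231 5))) (.b 3))))) (.n (.n (.b 2) (.n (.l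
  229 5) (.n (.b 6) (.n (.l 229 5) (.b 3))))) (.n (.n (.b 2) (.n (.l 229 5) (.n (.n (.b 2) (.n (.n
  (.b 2) (.n (.b 4) (.n (.l 229 5) (.n (.n (.b 2) (.n (.n (.b 2) (.n (.b 4) (.n (.l 145 11) (.l
  256 0)))) (.l 229 5))) (.b 3))))) (.l 229 5))) (.b 8)))) (.b 3))))) (.b 3))))) (.n (.n (.b 2)
  (.n (.n (.b 2) (.n (.b 4) (.n (.n (.b 2) (.n (.n (.b 2) (.l 231 5)) (.n (.n (.b 2) (.b 6)) (.n
  (.l 231 5) (.b 3))))) (.n (.n (.b 2) (.n (.l 231 5) (.n (.n (.b 2) (.n (.n (.b 2) (.n (.b 4) (.n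
  (.l 231 5) (.n (.n (.b 2) (.n (.l 183 9) (.n (.n (.b 2) (.l 256 0)) (.l 231 2)))) (.b 3))))) (.l
  231 5))) (.n (.l 231 5) (.b 3))))) (.b 3))))) (.n (.b 6) (.n (.n (.b 2) (.n (.n (.b 2) (.n (.b
  4) (.n (.l 231 2) (.n (.l 256 0) (.b 3))))) (.n (.n (.b 2) (.n (.l 202 5) (.n (.b 6) (.l 202
  5)))) (.n (.n (.b 2) (.n (.l 202 5) (.b 8))) (.b 3))))) (.b 3))))) (.n (.n (.b 2) (.n (.n (.b 2)
  (.n (.b 4) (.n (.n (.b 2) (.n (.l 202 5) (.n (.n (.b 2) (.b 6)) (.n (.l 202 5) (.b 3))))) (.n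
  (.n (.b 2) (.n (.l 202 5) (.n (.l 202 5) (.n (.n (.b 2) (.n (.n (.b 2) (.n (.b 4) (.n (.l 202 5)
  (.n (.n (.b 2) (.n (.l 202 5) (.n (.l 202 5) (.n (.n (.b 2) (.n (.l 256 0) (.l 181 5))) (.b
  3))))) (.b 3))))) (.l 202 5))) (.b 3))))) (.b 3))))) (.n (.n (.b 2) (.n (.n (.b 2) (.n (.b 4)
  (.n (.l 202 5) (.n (.n (.b 2) (.n (.n (.b 2) (.n (.b 4) (.n (.l 143 5) (.n (.n (.b 2) (.n (.l
  135 5) (.n (.l 231 3) (.n (.n (.b 2) (.l 256 0)) (.b 3))))) (.b 3))))) (.l 202 5))) (.b 3)))))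
  (.n (.b 6) (.n (.n (.b 2) (.n (.l 202 5) (.n (.n (.b 2) (.n (.n (.b 2) (.n (.b 4) (.n (.l 202 5)
  (.n (.n (.b 2) (.n (.l 202 5) (.n (.l 202 5) (.n (.n (.b 2) (.n (.l 100 11) (.l 256 0))) (.b
  3))))) (.b 3))))) (.l 202 5))) (.l 202 5)))) (.b 3))))) (.b 8)))) (.b 3))))) (.b 3)))))

/-- A subtree of the table. -/
def s6 : T :=
  (.n (.b 2) (.n (.n (.b 2) (.n (.b 4) (.n (.n (.b 2) (.n (.n (.b 2) (.n (.b 4) (.n (.n (.b 2) (.n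
  (.n (.b 2) (.n (.b 4) (.n (.n (.b 2) (.n (.n (.b 2) (.n (.b 4) (.n (.l 231 2) (.l 256 1)))) (.n
  (.n (.b 2) (.b 6)) (.l 256 2)))) (.l 256 2)))) (.n (.n (.b 2) (.b 6)) (.n (.n (.b 2) (.l 256 2))
  (.b 3))))) (.n (.n (.b 2) (.n (.n (.b 2) (.n (.b 4) (.l 256 2))) (.n (.n (.b 2) (.n (.n (.b 2)
  (.n (.b 4) (.l 256 2))) (.n (.b 6) (.l 256 2)))) (.n (.l 256 2) (.b 3))))) (.b 3))))) (.n (.n
  (.b 2) (.b 6)) (.n (.n (.b 2) (.n (.n (.b 2) (.n (.b 4) (.n (.n (.b 2) (.l 256 2)) (.n (.n (.b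
  2) (.l 256 2)) (.b 3))))) (.n (.n (.b 2) (.n (.n (.b 2) (.b 12)) (.n (.b 6) (.n (.l 256 2) (.b
  3))))) (.n (.n (.b 2) (.n (.l 256 2) (.b 8))) (.b 3))))) (.b 3))))) (.n (.n (.b 2) (.n (.n (.b
  2) (.n (.b 4) (.n (.n (.b 2) (.n (.n (.b 2) (.b 11)) (.n (.n (.b 2) (.b 6)) (.n (.l 256 1) (.b
  3))))) (.n (.n (.b 2) (.n (.n (.b 2) (.l 238 2)) (.n (.n (.b 2) (.l 256 2)) (.n (.n (.b 2) (.n
  (.l 256 2) (.n (.n (.b 2) (.n (.n (.b 2) (.n (.b 4) (.n (.l 256 2) (.n (.n (.b 2) (.n (.l 131 7)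
  (.l 256 2))) (.b 3))))) (.l 256 2))) (.b 8)))) (.b 3))))) (.b 3))))) (.n (.n (.b 2) (.n (.n (.b
  2) (.n (.b 4) (.n (.n (.b 2) (.l 256 2)) (.n (.n (.b 2) (.n (.l 231 2) (.n (.n (.b 2) (.n (.n
  (.b 2) (.n (.b 4) (.n (.l 256 2) (.n (.n (.b 2) (.l 131 7)) (.b 3))))) (.l 256 2))) (.l 256
  2)))) (.b 3))))) (.n (.b 6) (.n (.n (.b 2) (.n (.n (.b 2) (.l 256 2)) (.n (.n (.b 2) (.n (.l 256
  2) (.n (.b 6) (.l 256 2)))) (.l 256 2)))) (.b 3))))) (.n (.n (.b 2) (.n (.n (.b 2) (.n (.b 4)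
  (.n (.n (.b 2) (.n (.l 256 2) (.n (.n (.b 2) (.b 6)) (.l 256 2)))) (.n (.l 256 2) (.b 3))))) (.n
  (.n (.b 2) (.n (.l 256 2) (.n (.b 6) (.n (.n (.b 2) (.n (.l 256 2) (.n (.n (.b 2) (.n (.n (.b 2)
  (.n (.b 4) (.n (.l 256 2) (.n (.n (.b 2) (.n (.l 256 2) (.n (.l 256 2) (.l 131 7)))) (.b 3)))))
  (.l 256 2))) (.l 256 2)))) (.b 3))))) (.b 8)))) (.b 3))))) (.b 3))))) (.n (.n (.b 2) (.b 6)) (.n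
  (.n (.b 2) (.n (.n (.b 2) (.n (.b 4) (.n (.n (.b 2) (.n (.n (.b 2) (.n (.b 4) (.n (.n (.b 2) (.n
  (.n (.b 2) (.n (.b 4) (.l 208 7))) (.n (.n (.b 2) (.b 6)) (.l 208 7)))) (.n (.l 208 7) (.b
  3))))) (.n (.n (.b 2) (.b 6)) (.n (.n (.b 2) (.n (.n (.b 2) (.n (.b 4) (.n (.n (.b 2) (.n (.l
  200 7) (.n (.l 223 5) (.n (.n (.b 2) (.n (.n (.b 2) (.l 102 8)) (.l 229 2))) (.b 3))))) (.l 223
  7)))) (.n (.l 223 7) (.n (.l 223 7) (.b 3))))) (.b 3))))) (.n (.n (.b 2) (.n (.n (.b 2) (.n (.b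
  4) (.n (.l 243 5) (.n (.l 243 5) (.b 3))))) (.n (.n (.b 2) (.n (.n (.b 2) (.l 256 2)) (.n (.b 6)
  (.l 166 7)))) (.n (.n (.b 2) (.n (.l 139 7) (.n (.l 139 7) (.b 8)))) (.b 3))))) (.b 3))))) (.n
  (.n (.b 2) (.n (.n (.b 2) (.n (.b 4) (.n (.n (.b 2) (.n (.n (.b 2) (.l 209 1)) (.n (.n (.b 2)
  (.b 6)) (.b 12)))) (.n (.n (.b 2) (.n (.l 82 11) (.n (.l 82 11) (.n (.n (.b 2) (.n (.l 82 11)
  (.n (.n (.b 2) (.n (.l 156 8) (.n (.b 6) (.n (.n (.b 2) (.n (.l 82 11) (.n (.n (.b 2) (.n (.l 82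
  12) (.l 209 1))) (.l 181 3)))) (.b 3))))) (.b 8)))) (.b 3))))) (.b 3))))) (.n (.b 6) (.n (.n (.b
  2) (.n (.n (.b 2) (.n (.b 4) (.n (.n (.b 2) (.n (.l 166 7) (.n (.n (.b 2) (.b 6)) (.l 166 7))))
  (.l 166 7)))) (.n (.n (.b 2) (.n (.l 180 7) (.n (.b 6) (.n (.n (.b 2) (.n (.l 180 7) (.n (.n (.b
  2) (.n (.l 215 7) (.n (.b 6) (.n (.n (.b 2) (.n (.l 179 7) (.n (.n (.b 2) (.n (.l 256 2) (.n (.b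
  6) (.l 180 7)))) (.l 179 7)))) (.b 3))))) (.l 180 7)))) (.b 3))))) (.n (.n (.b 2) (.n (.n (.b 2)
  (.n (.b 4) (.n (.n (.b 2) (.n (.l 181 7) (.n (.l 166 7) (.n (.n (.b 2) (.n (.l 181 4) (.n (.n
  (.b 2) (.n (.l 209 1) (.l 82 11))) (.l 138 7)))) (.b 3))))) (.l 166 7)))) (.b 8))) (.b 3)))))
  (.b 3))))) (.n (.n (.b 2) (.n (.n (.b 2) (.n (.b 4) (.n (.n (.b 2) (.n (.l 166 7) (.n (.l 166 7)
  (.n (.n (.b 2) (.n (.l 166 7) (.n (.n (.b 2) (.n (.l 208 7) (.n (.b 6) (.n (.n (.b 2) (.n (.l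
  166 7) (.n (.l 256 3) (.n (.n (.b 2) (.l 166 7)) (.b 3))))) (.b 3))))) (.l 166 7)))) (.b 3)))))
  (.n (.n (.b 2) (.n (.n (.b 2) (.n (.b 4) (.n (.n (.b 2) (.n (.l 181 7) (.n (.l 131 7) (.n (.n
  (.b 2) (.n (.l 131 7) (.n (.l 200 2) (.n (.l 73 11) (.b 3))))) (.b 3))))) (.l 166 7)))) (.l 166
  7))) (.b 3))))) (.b 8))) (.b 3))))) (.b 3)))))

/-- A subtree of the table. -/
def s7 : T :=
  (.n (.n (.b 2) (.n (.n (.b 2) (.n (.b 4) (.n (.n (.b 2) (.n (.n (.b 2) (.n (.b 4) (.n (.n (.b 2)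
  (.n (.n (.b 2) (.n (.b 4) (.l 154 10))) (.n (.n (.b 2) (.b 6)) (.n (.l 154 10) (.b 3))))) (.n
  (.n (.b 2) (.n (.b 11) (.n (.l 154 10) (.n (.n (.b 2) (.n (.l 154 10) (.n (.l 154 10) (.b 8))))
  (.b 3))))) (.b 3))))) (.n (.n (.b 2) (.b 6)) (.n (.n (.b 2) (.n (.n (.b 2) (.n (.b 4) (.n (.n
  (.b 2) (.n (.l 209 6) (.n (.l 232 6) (.n (.n (.b 2) (.n (.n (.b 2) (.n (.b 4) (.n (.n (.b 2) (.l
  181 6)) (.l 256 2)))) (.l 256 5))) (.b 3))))) (.n (.l 232 6) (.b 3))))) (.n (.n (.b 2) (.n (.l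
  232 6) (.n (.b 6) (.n (.n (.b 2) (.n (.l 232 6) (.n (.l 246 6) (.n (.n (.b 2) (.n (.n (.b 2) (.n
  (.b 4) (.n (.n (.b 2) (.n (.l 256 2) (.n (.l 211 6) (.l 181 6)))) (.l 232 6)))) (.b 8))) (.b
  3))))) (.b 3))))) (.n (.n (.b 2) (.n (.n (.b 2) (.n (.b 4) (.n (.l 232 6) (.n (.n (.b 2) (.n (.n
  (.b 2) (.n (.b 4) (.n (.n (.b 2) (.n (.l 256 1) (.l 169 10))) (.l 232 6)))) (.l 232 6))) (.b
  3))))) (.b 8))) (.b 3))))) (.b 3))))) (.n (.n (.b 2) (.n (.n (.b 2) (.n (.b 4) (.n (.n (.b 2)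
  (.n (.n (.b 2) (.l 245 7)) (.n (.n (.b 2) (.b 6)) (.n (.n (.b 2) (.n (.l 245 7) (.n (.l 256 7)
  (.n (.n (.b 2) (.n (.n (.b 2) (.n (.b 4) (.n (.l 256 3) (.n (.n (.b 2) (.l 179 7)) (.b 3)))))
  (.b 8))) (.b 3))))) (.b 3))))) (.n (.n (.b 2) (.n (.n (.b 2) (.n (.b 4) (.n (.l 245 7) (.n (.n
  (.b 2) (.n (.n (.b 2) (.n (.b 4) (.n (.l 256 2) (.n (.l 189 8) (.b 3))))) (.l 256 5))) (.b
  3))))) (.n (.l 245 7) (.n (.l 245 7) (.b 3))))) (.b 3))))) (.n (.n (.b 2) (.n (.n (.b 2) (.n (.b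
  4) (.n (.l 256 5) (.n (.l 256 5) (.b 3))))) (.n (.b 6) (.n (.n (.b 2) (.n (.l 179 7) (.n (.l 179
  7) (.n (.n (.b 2) (.n (.l 179 7) (.b 8))) (.b 3))))) (.b 3))))) (.n (.n (.b 2) (.n (.n (.b 2)
  (.n (.b 4) (.n (.l 200 7) (.n (.n (.b 2) (.n (.l 200 7) (.n (.l 200 7) (.n (.n (.b 2) (.n (.n
  (.b 2) (.n (.b 4) (.n (.l 191 7) (.n (.n (.b 2) (.n (.l 191 7) (.l 179 7))) (.b 3))))) (.l 200
  7))) (.b 3))))) (.b 3))))) (.n (.n (.b 2) (.n (.n (.b 2) (.n (.b 4) (.n (.l 200 7) (.n (.n (.b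
  2) (.n (.n (.b 2) (.n (.b 4) (.n (.l 116 10) (.n (.n (.b 2) (.l 108 10)) (.b 3))))) (.l 200 7)))
  (.b 3))))) (.l 200 7))) (.b 8)))) (.b 3))))) (.b 3))))) (.n (.n (.b 2) (.n (.n (.b 2) (.n (.b 4)
  (.n (.n (.b 2) (.n (.n (.b 2) (.n (.b 4) (.n (.n (.b 2) (.l 256 4)) (.n (.n (.b 2) (.l 256 4))
  (.b 3))))) (.n (.n (.b 2) (.b 6)) (.n (.n (.b 2) (.l 181 7)) (.b 3))))) (.n (.n (.b 2) (.n (.n
  (.b 2) (.n (.b 4) (.n (.n (.b 2) (.l 155 7)) (.n (.n (.b 2) (.n (.l 155 7) (.n (.l 208 7) (.n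
  (.n (.b 2) (.n (.l 233 6) (.n (.n (.b 2) (.n (.n (.b 2) (.n (.b 4) (.l 181 7))) (.l 256 3))) (.b
  8)))) (.b 3))))) (.b 3))))) (.n (.n (.b 2) (.n (.n (.b 2) (.n (.b 4) (.n (.l 179 7) (.n (.n (.b
  2) (.n (.l 133 11) (.n (.n (.b 2) (.n (.n (.b 2) (.l 52 11)) (.l 179 2))) (.l 179 4)))) (.b
  3))))) (.n (.b 6) (.n (.l 179 7) (.b 3))))) (.n (.n (.b 2) (.n (.l 179 7) (.n (.n (.b 2) (.n (.l
  181 7) (.n (.b 6) (.n (.n (.b 2) (.n (.l 179 7) (.n (.n (.b 2) (.n (.n (.b 2) (.n (.b 4) (.n (.l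
  179 7) (.l 181 7)))) (.l 256 4))) (.l 244 6)))) (.b 3))))) (.b 8)))) (.b 3))))) (.b 3))))) (.n
  (.b 6) (.n (.n (.b 2) (.n (.n (.b 2) (.n (.b 4) (.n (.n (.b 2) (.n (.n (.b 2) (.l 202 4)) (.n
  (.n (.b 2) (.b 6)) (.l 202 4)))) (.n (.n (.b 2) (.n (.l 239 1) (.n (.b 13) (.n (.n (.b 2) (.n
  (.l 112 10) (.n (.l 112 10) (.b 8)))) (.b 3))))) (.b 3))))) (.n (.n (.b 2) (.n (.n (.b 2) (.n
  (.b 4) (.n (.l 182 7) (.n (.n (.b 2) (.n (.l 182 7) (.n (.l 182 7) (.n (.n (.b 2) (.n (.l 173 7)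
  (.n (.n (.b 2) (.n (.l 256 4) (.n (.b 6) (.n (.n (.b 2) (.l 152 7)) (.b 3))))) (.b 8)))) (.b
  3))))) (.b 3))))) (.n (.b 6) (.n (.n (.b 2) (.n (.l 182 7) (.n (.n (.b 2) (.n (.l 217 7) (.n (.b
  6) (.n (.n (.b 2) (.n (.l 181 7) (.n (.n (.b 2) (.n (.l 235 5) (.n (.b 6) (.n (.n (.b 2) (.n (.l
  152 7) (.l 152 7))) (.b 3))))) (.l 181 7)))) (.b 3))))) (.l 182 7)))) (.b 3))))) (.n (.n (.b 2)
  (.n (.n (.b 2) (.n (.b 4) (.n (.n (.b 2) (.n (.l 183 7) (.n (.l 173 7) (.n (.n (.b 2) (.n (.l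
  208 7) (.n (.n (.b 2) (.n (.l 236 4) (.n (.b 6) (.n (.n (.b 2) (.l 152 7)) (.b 3))))) (.l 173
  7)))) (.b 3))))) (.l 173 7)))) (.b 8))) (.b 3))))) (.b 3))))) (.n (.n (.b 2) (.n (.n (.b 2) (.n
  (.b 4) (.n (.n (.b 2) (.n (.n (.b 2) (.n (.b 4) (.n (.n (.b 2) (.l 173 7)) (.n (.n (.b 2) (.n
  (.b 11) (.n (.l 173 7) (.n (.n (.b 2) (.n (.l 173 7) (.n (.l 173 7) (.b 8)))) (.b 3))))) (.b
  3))))) (.n (.n (.b 2) (.b 6)) (.n (.n (.b 2) (.n (.l 173 7) (.n (.n (.b 2) (.n (.l 189 7) (.n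
  (.b 6) (.n (.n (.b 2) (.n (.l 173 7) (.n (.l 237 6) (.n (.n (.b 2) (.n (.n (.b 2) (.n (.b 4) (.l
  152 7))) (.b 8))) (.b 3))))) (.b 3))))) (.l 173 7)))) (.b 3))))) (.n (.n (.b 2) (.n (.n (.b 2)
  (.n (.b 4) (.n (.n (.b 2) (.n (.l 173 7) (.n (.l 173 7) (.n (.n (.b 2) (.n (.l 173 7) (.n (.l
  229 5) (.n (.n (.b 2) (.n (.n (.b 2) (.l 152 7)) (.b 8))) (.b 3))))) (.b 3))))) (.l 173 7))))
  (.n (.n (.b 2) (.n (.l 173 7) (.n (.b 6) (.n (.n (.b 2) (.n (.b 13) (.n (.l 173 7) (.n (.n (.b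
  2) (.n (.l 173 7) (.b 8))) (.b 3))))) (.b 3))))) (.n (.n (.b 2) (.n (.n (.b 2) (.n (.b 4) (.n
  (.l 173 7) (.n (.n (.b 2) (.n (.l 173 7) (.n (.l 173 7) (.n (.n (.b 2) (.n (.n (.b 2) (.n (.b 4)
  (.l 91 10))) (.l 152 7))) (.b 3))))) (.b 3))))) (.l 173 7))) (.b 3))))) (.b 3))))) (.n (.n (.b
  2) (.n (.n (.b 2) (.n (.b 4) (.n (.n (.b 2) (.l 152 7)) (.n (.n (.b 2) (.n (.n (.b 2) (.n (.b 4)
  (.n (.l 93 7) (.n (.n (.b 2) (.n (.l 85 7) (.n (.l 181 5) (.n (.n (.b 2) (.n (.l 206 2) (.n (.l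
  256 0) (.b 8)))) (.b 3))))) (.b 3))))) (.l 152 7))) (.b 3))))) (.n (.b 6) (.n (.n (.b 2) (.n (.l
  152 7) (.n (.n (.b 2) (.n (.n (.b 2) (.n (.b 4) (.n (.l 152 7) (.n (.n (.b 2) (.n (.l 152 7) (.n
  (.l 152 7) (.n (.n (.b 2) (.n (.l 50 13) (.n (.n (.b 2) (.l 256 0)) (.b 8)))) (.b 3))))) (.b
  3))))) (.l 152 7))) (.l 152 7)))) (.b 3))))) (.b 8)))) (.b 3))))) (.b 3))

/-- A subtree of the table. -/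
def s8 : T :=
  (.b 2)

/-- A subtree of the table. -/
def s9 : T :=
  (.n (.b 2) (.n (.b 4) (.n (.n (.b 2) (.n (.n (.b 2) (.n (.b 4) (.n (.n (.b 2) (.n (.n (.b 2) (.n
  (.b 4) (.n (.n (.b 2) (.n (.n (.b 2) (.n (.b 4) (.n (.n (.b 2) (.n (.l 79 13) (.l 206 1))) (.l
  206 3)))) (.n (.n (.b 2) (.b 6)) (.l 206 4)))) (.n (.n (.b 2) (.l 206 4)) (.b 3))))) (.n (.n (.b
  2) (.b 6)) (.n (.n (.b 2) (.n (.n (.b 2) (.l 206 4)) (.n (.n (.b 2) (.l 206 4)) (.n (.l 206 4)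
  (.b 3))))) (.b 3))))) (.n (.n (.b 2) (.n (.n (.b 2) (.n (.b 4) (.n (.b 11) (.l 206 4)))) (.n (.n
  (.b 2) (.n (.n (.b 2) (.n (.b 4) (.l 206 4))) (.n (.b 6) (.n (.l 206 4) (.b 3))))) (.n (.n (.b
  2) (.n (.n (.b 2) (.l 206 4)) (.n (.l 206 4) (.b 8)))) (.b 3))))) (.b 3))))) (.n (.n (.b 2) (.b
  6)) (.n (.n (.b 2) (.n (.n (.b 2) (.n (.b 4) (.n (.n (.b 2) (.n (.n (.b 2) (.l 241 4)) (.n (.l
  241 4) (.n (.n (.b 2) (.n (.n (.b 2) (.n (.b 4) (.n (.n (.b 2) (.n (.l 233 4) (.n (.l 256 2) (.n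
  (.l 206 4) (.b 3))))) (.l 256 4)))) (.l 256 4))) (.b 3))))) (.n (.n (.b 2) (.n (.l 241 4) (.n
  (.l 241 4) (.n (.l 241 4) (.b 3))))) (.b 3))))) (.n (.n (.b 2) (.n (.n (.b 2) (.n (.b 4) (.n (.b
  12) (.n (.l 157 9) (.b 3))))) (.n (.b 6) (.n (.n (.b 2) (.n (.l 241 4) (.n (.l 255 4) (.n (.n
  (.b 2) (.n (.n (.b 2) (.n (.b 4) (.n (.n (.b 2) (.n (.l 256 4) (.n (.l 241 4) (.n (.n (.b 2) (.n
  (.l 256 1) (.l 206 4))) (.b 3))))) (.l 241 4)))) (.b 8))) (.b 3))))) (.b 3))))) (.n (.n (.b 2)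
  (.n (.n (.b 2) (.n (.b 4) (.n (.l 241 4) (.n (.n (.b 2) (.n (.n (.b 2) (.n (.b 4) (.n (.n (.b 2)
  (.n (.l 256 4) (.n (.l 206 4) (.n (.n (.b 2) (.l 206 4)) (.b 3))))) (.l 241 4)))) (.l 241 4)))
  (.b 3))))) (.b 8))) (.b 3))))) (.b 3))))) (.n (.n (.b 2) (.n (.n (.b 2) (.n (.b 4) (.n (.n (.b
  2) (.n (.n (.b 2) (.n (.b 4) (.n (.l 170 10) (.b 11)))) (.n (.n (.b 2) (.b 6)) (.n (.n (.b 2)
  (.n (.n (.b 2) (.l 256 3)) (.n (.l 256 3) (.n (.n (.b 2) (.n (.n (.b 2) (.n (.b 4) (.n (.l 256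
  3) (.n (.n (.b 2) (.n (.n (.b 2) (.n (.b 4) (.l 206 3))) (.l 227 3))) (.b 3))))) (.b 8))) (.b
  3))))) (.b 3))))) (.n (.n (.b 2) (.n (.n (.b 2) (.n (.b 4) (.n (.l 254 4) (.n (.n (.b 2) (.n (.n
  (.b 2) (.n (.b 4) (.n (.l 256 4) (.n (.n (.b 2) (.n (.n (.b 2) (.l 188 4)) (.l 256 2))) (.b
  3))))) (.l 256 4))) (.b 3))))) (.n (.n (.b 2) (.n (.l 254 4) (.n (.b 6) (.n (.l 254 4) (.b
  3))))) (.n (.n (.b 2) (.n (.l 254 4) (.n (.n (.b 2) (.n (.n (.b 2) (.n (.b 4) (.n (.l 254 4) (.n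
  (.n (.b 2) (.n (.n (.b 2) (.n (.b 4) (.l 170 10))) (.l 254 4))) (.b 3))))) (.l 254 4))) (.b
  8)))) (.b 3))))) (.b 3))))) (.n (.n (.b 2) (.n (.n (.b 2) (.n (.b 4) (.n (.n (.b 2) (.n (.n (.b
  2) (.l 256 4)) (.n (.n (.b 2) (.b 6)) (.n (.l 256 4) (.b 3))))) (.n (.n (.b 2) (.n (.l 256 4)
  (.n (.n (.b 2) (.n (.n (.b 2) (.n (.b 4) (.n (.l 256 4) (.n (.n (.b 2) (.n (.l 208 8) (.n (.l
  181 8) (.l 256 1)))) (.b 3))))) (.l 256 4))) (.n (.l 256 4) (.b 3))))) (.b 3))))) (.n (.b 6) (.n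
  (.n (.b 2) (.n (.n (.b 2) (.n (.b 4) (.n (.l 256 1) (.l 206 4)))) (.n (.n (.b 2) (.n (.l 227 4)
  (.n (.b 6) (.l 227 4)))) (.n (.n (.b 2) (.n (.l 227 4) (.b 8))) (.b 3))))) (.b 3))))) (.n (.n
  (.b 2) (.n (.n (.b 2) (.n (.b 4) (.n (.n (.b 2) (.n (.l 227 4) (.n (.n (.b 2) (.b 6)) (.n (.l
  227 4) (.b 3))))) (.n (.n (.b 2) (.n (.l 227 4) (.n (.l 227 4) (.n (.n (.b 2) (.n (.n (.b 2) (.n
  (.b 4) (.n (.l 227 4) (.n (.n (.b 2) (.n (.l 227 4) (.n (.l 227 4) (.n (.n (.b 2) (.l 206 4))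
  (.b 3))))) (.b 3))))) (.l 227 4))) (.b 3))))) (.b 3))))) (.n (.n (.b 2) (.n (.n (.b 2) (.n (.b
  4) (.n (.l 227 4) (.n (.n (.b 2) (.n (.n (.b 2) (.n (.b 4) (.n (.l 168 4) (.n (.n (.b 2) (.n (.l
  160 4) (.n (.l 256 2) (.n (.l 206 4) (.b 3))))) (.b 3))))) (.l 227 4))) (.b 3))))) (.n (.b 6)
  (.n (.n (.b 2) (.n (.l 227 4) (.n (.n (.b 2) (.n (.n (.b 2) (.n (.b 4) (.n (.l 227 4) (.n (.n
  (.b 2) (.n (.l 227 4) (.n (.l 227 4) (.n (.n (.b 2) (.l 125 10)) (.b 3))))) (.b 3))))) (.l 227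
  4))) (.l 227 4)))) (.b 3))))) (.b 8)))) (.b 3))))) (.b 3)))))

/-- A subtree of the table. -/
def s10 : T :=
  (.n (.n (.b 2) (.n (.n (.b 2) (.n (.b 4) (.n (.n (.b 2) (.n (.n (.b 2) (.n (.b 4) (.n (.n (.b 2)
  (.n (.n (.b 2) (.n (.b 4) (.n (.n (.b 2) (.n (.l 256 1) (.n (.n (.b 2) (.b 6)) (.l 256 1)))) (.l
  256 1)))) (.n (.n (.b 2) (.b 6)) (.n (.l 256 1) (.b 3))))) (.n (.n (.b 2) (.n (.n (.b 2) (.n (.b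
  4) (.l 256 1))) (.n (.n (.b 2) (.n (.l 256 1) (.n (.b 6) (.l 256 1)))) (.n (.l 256 1) (.b 3)))))
  (.b 3))))) (.n (.n (.b 2) (.b 6)) (.n (.n (.b 2) (.n (.n (.b 2) (.n (.b 4) (.n (.n (.b 2) (.l
  233 1)) (.n (.l 233 1) (.b 3))))) (.n (.n (.b 2) (.n (.b 12) (.n (.b 6) (.l 231 1)))) (.n (.n
  (.b 2) (.n (.l 256 1) (.b 8))) (.b 3))))) (.b 3))))) (.n (.n (.b 2) (.n (.n (.b 2) (.n (.b 4)
  (.n (.n (.b 2) (.n (.n (.b 2) (.b 11)) (.n (.n (.b 2) (.b 6)) (.n (.l 207 1) (.b 3))))) (.n (.n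
  (.b 2) (.n (.n (.b 2) (.l 207 1)) (.n (.l 256 1) (.n (.n (.b 2) (.n (.l 256 1) (.n (.n (.b 2)
  (.n (.n (.b 2) (.n (.b 4) (.n (.l 233 1) (.n (.n (.b 2) (.l 231 1)) (.b 3))))) (.l 256 1))) (.b
  8)))) (.b 3))))) (.b 3))))) (.n (.n (.b 2) (.n (.n (.b 2) (.n (.b 4) (.n (.l 231 1) (.n (.n (.b
  2) (.n (.l 185 1) (.n (.n (.b 2) (.n (.n (.b 2) (.n (.b 4) (.n (.l 256 1) (.n (.l 231 1) (.b
  3))))) (.l 231 1))) (.l 231 1)))) (.b 3))))) (.n (.b 6) (.n (.n (.b 2) (.n (.l 231 1) (.n (.n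
  (.b 2) (.n (.l 231 1) (.n (.b 6) (.l 231 1)))) (.l 231 1)))) (.b 3))))) (.n (.n (.b 2) (.n (.n
  (.b 2) (.n (.b 4) (.n (.n (.b 2) (.n (.l 231 1) (.n (.n (.b 2) (.b 6)) (.l 231 1)))) (.n (.l 231
  1) (.b 3))))) (.n (.n (.b 2) (.n (.l 233 1) (.n (.b 6) (.n (.n (.b 2) (.n (.l 231 1) (.n (.n (.b
  2) (.n (.n (.b 2) (.n (.b 4) (.n (.l 231 1) (.n (.n (.b 2) (.n (.l 256 1) (.l 231 1))) (.b
  3))))) (.l 256 1))) (.l 256 1)))) (.b 3))))) (.b 8)))) (.b 3))))) (.b 3))))) (.n (.b 6) (.n (.n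
  (.b 2) (.n (.n (.b 2) (.n (.b 4) (.n (.n (.b 2) (.n (.n (.b 2) (.n (.b 4) (.n (.l 127 7) (.n (.l
  127 7) (.b 3))))) (.n (.n (.b 2) (.b 6)) (.n (.n (.b 2) (.n (.l 127 7) (.n (.l 127 7) (.n (.l
  127 7) (.b 3))))) (.b 3))))) (.n (.n (.b 2) (.n (.n (.b 2) (.n (.b 4) (.n (.l 164 4) (.n (.l 164
  4) (.b 3))))) (.n (.n (.b 2) (.n (.l 231 1) (.l 256 0))) (.n (.n (.b 2) (.n (.l 37 13) (.n (.l
  37 13) (.b 8)))) (.b 3))))) (.b 3))))) (.n (.n (.b 2) (.n (.n (.b 2) (.n (.b 4) (.n (.n (.b 2)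
  (.n (.l 107 10) (.n (.l 107 10) (.b 12)))) (.n (.n (.b 2) (.n (.l 107 10) (.n (.l 107 10) (.n
  (.n (.b 2) (.n (.l 98 10) (.n (.n (.b 2) (.n (.l 181 7) (.n (.b 6) (.n (.n (.b 2) (.n (.l 77 10)
  (.n (.n (.b 2) (.l 256 0)) (.l 206 2)))) (.b 3))))) (.b 8)))) (.b 3))))) (.b 3))))) (.n (.b 6)
  (.n (.n (.b 2) (.n (.l 107 10) (.n (.n (.b 2) (.n (.l 142 10) (.n (.b 6) (.n (.n (.b 2) (.n (.l
  106 10) (.n (.n (.b 2) (.n (.l 160 8) (.n (.b 6) (.n (.n (.b 2) (.n (.l 77 10) (.n (.n (.b 2)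
  (.n (.l 231 1) (.l 256 0))) (.l 77 10)))) (.b 3))))) (.l 106 10)))) (.b 3))))) (.l 107 10))))
  (.b 3))))) (.n (.n (.b 2) (.n (.n (.b 2) (.n (.b 4) (.n (.n (.b 2) (.n (.l 108 10) (.n (.l 98
  10) (.n (.n (.b 2) (.n (.l 133 10) (.n (.n (.b 2) (.n (.l 161 7) (.n (.b 6) (.n (.n (.b 2) (.n
  (.l 77 10) (.n (.l 206 2) (.n (.l 256 0) (.b 3))))) (.b 3))))) (.l 98 10)))) (.b 3))))) (.l 98
  10)))) (.b 8))) (.b 3))))) (.b 3))))) (.n (.n (.b 2) (.n (.n (.b 2) (.n (.b 4) (.n (.n (.b 2)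
  (.n (.n (.b 2) (.n (.b 4) (.n (.n (.b 2) (.n (.n (.b 2) (.n (.b 4) (.l 179 9))) (.n (.n (.b 2)
  (.b 6)) (.n (.l 179 9) (.b 3))))) (.n (.n (.b 2) (.n (.b 11) (.n (.l 179 9) (.n (.n (.b 2) (.n
  (.l 179 9) (.n (.l 179 9) (.b 8)))) (.b 3))))) (.b 3))))) (.n (.n (.b 2) (.b 6)) (.n (.n (.b 2)
  (.n (.n (.b 2) (.n (.b 4) (.n (.n (.b 2) (.n (.l 171 9) (.n (.l 194 7) (.n (.n (.b 2) (.n (.n
  (.b 2) (.n (.b 4) (.n (.l 98 10) (.l 225 1)))) (.l 200 4))) (.b 3))))) (.n (.l 194 9) (.b 3)))))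
  (.n (.n (.b 2) (.n (.l 194 9) (.n (.b 6) (.n (.n (.b 2) (.n (.l 194 9) (.n (.l 208 9) (.n (.n
  (.b 2) (.n (.n (.b 2) (.n (.b 4) (.n (.n (.b 2) (.n (.l 256 1) (.l 173 9))) (.l 194 9)))) (.b
  8))) (.b 3))))) (.b 3))))) (.n (.l 194 9) (.b 3))))) (.b 3))))) (.n (.n (.b 2) (.n (.n (.b 2)
  (.n (.b 4) (.n (.n (.b 2) (.n (.n (.b 2) (.l 214 7)) (.n (.l 214 7) (.n (.n (.b 2) (.n (.l 214
  7) (.n (.l 235 7) (.n (.n (.b 2) (.n (.n (.b 2) (.n (.b 4) (.n (.l 256 2) (.n (.l 193 7) (.b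
  3))))) (.b 8))) (.b 3))))) (.b 3))))) (.n (.n (.b 2) (.n (.l 214 7) (.n (.l 214 7) (.n (.l 214
  7) (.b 3))))) (.b 3))))) (.n (.n (.b 2) (.n (.n (.b 2) (.n (.b 4) (.n (.l 225 4) (.n (.l 225 4)
  (.b 3))))) (.n (.b 6) (.n (.n (.b 2) (.n (.b 13) (.n (.l 98 10) (.n (.n (.b 2) (.n (.l 98 10)
  (.b 8))) (.b 3))))) (.b 3))))) (.n (.n (.b 2) (.n (.n (.b 2) (.n (.b 4) (.n (.l 133 9) (.n (.n
  (.b 2) (.n (.l 133 9) (.n (.l 133 9) (.n (.n (.b 2) (.n (.n (.b 2) (.n (.b 4) (.n (.l 89 9) (.n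
  (.n (.b 2) (.l 89 9)) (.b 3))))) (.l 112 9))) (.b 3))))) (.b 3))))) (.n (.l 133 9) (.b 8)))) (.b
  3))))) (.b 3))))) (.n (.n (.b 2) (.n (.n (.b 2) (.n (.b 4) (.n (.n (.b 2) (.n (.n (.b 2) (.n (.b
  4) (.n (.n (.b 2) (.l 180 3)) (.n (.l 180 3) (.b 3))))) (.n (.n (.b 2) (.b 6)) (.n (.n (.b 2)
  (.b 12)) (.b 3))))) (.n (.n (.b 2) (.n (.n (.b 2) (.n (.b 4) (.n (.l 53 10) (.n (.n (.b 2) (.n
  (.l 53 10) (.n (.l 106 8) (.n (.n (.b 2) (.n (.l 131 5) (.n (.n (.b 2) (.n (.n (.b 2) (.l 32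
  13)) (.l 159 2))) (.b 8)))) (.b 3))))) (.b 3))))) (.n (.n (.b 2) (.n (.l 77 10) (.n (.b 6) (.n
  (.l 77 10) (.b 3))))) (.n (.n (.b 2) (.n (.l 77 10) (.n (.n (.b 2) (.n (.l 127 10) (.n (.b 6)
  (.n (.n (.b 2) (.n (.l 77 10) (.n (.n (.b 2) (.n (.n (.b 2) (.n (.b 4) (.l 77 10))) (.l 180 3)))
  (.l 154 5)))) (.b 3))))) (.b 8)))) (.b 3))))) (.b 3))))) (.n (.b 6) (.n (.n (.b 2) (.n (.n (.b
  2) (.n (.b 4) (.n (.n (.b 2) (.n (.l 137 9) (.n (.n (.b 2) (.b 6)) (.l 137 9)))) (.n (.n (.b 2)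
  (.n (.l 137 9) (.n (.b 13) (.n (.n (.b 2) (.n (.l 137 9) (.n (.l 137 9) (.b 8)))) (.b 3))))) (.b
  3))))) (.n (.n (.b 2) (.n (.n (.b 2) (.n (.b 4) (.n (.l 151 9) (.n (.n (.b 2) (.n (.l 151 9) (.n
  (.l 151 9) (.n (.n (.b 2) (.n (.l 102 9) (.n (.n (.b 2) (.n (.l 225 3) (.n (.b 6) (.n (.l 130 9)
  (.b 3))))) (.b 8)))) (.b 3))))) (.b 3))))) (.n (.b 6) (.n (.n (.b 2) (.n (.l 151 9) (.n (.n (.b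
  2) (.n (.l 186 9) (.n (.b 6) (.n (.n (.b 2) (.n (.l 150 9) (.n (.n (.b 2) (.n (.l 204 4) (.n (.b
  6) (.n (.n (.b 2) (.l 77 10)) (.b 3))))) (.l 150 9)))) (.b 3))))) (.l 151 9)))) (.b 3))))) (.n
  (.n (.b 2) (.n (.n (.b 2) (.n (.b 4) (.n (.n (.b 2) (.n (.l 152 9) (.n (.l 137 9) (.n (.n (.b 2)
  (.n (.l 152 6) (.n (.n (.b 2) (.n (.l 180 3) (.n (.b 6) (.n (.l 77 10) (.b 3))))) (.l 112 9))))
  (.b 3))))) (.l 137 9)))) (.b 8))) (.b 3))))) (.b 3))))) (.n (.n (.b 2) (.n (.n (.b 2) (.n (.b 4)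
  (.n (.n (.b 2) (.n (.n (.b 2) (.n (.b 4) (.l 116 9))) (.n (.l 116 9) (.n (.n (.b 2) (.n (.l 116
  9) (.n (.n (.b 2) (.n (.l 158 9) (.n (.b 6) (.n (.n (.b 2) (.n (.l 116 9) (.n (.l 206 5) (.n (.n
  (.b 2) (.n (.n (.b 2) (.l 256 0)) (.b 8))) (.b 3))))) (.b 3))))) (.l 116 9)))) (.b 3))))) (.n
  (.n (.b 2) (.n (.n (.b 2) (.n (.b 4) (.n (.n (.b 2) (.n (.l 131 9) (.n (.l 81 9) (.n (.n (.b 2)
  (.n (.l 81 9) (.n (.l 150 4) (.n (.n (.b 2) (.n (.l 256 0) (.b 8))) (.b 3))))) (.b 3))))) (.l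
  116 9)))) (.l 116 9))) (.b 3))))) (.b 8))) (.b 3))))) (.b 3)))

/-- A subtree of the table. -/
def s11 : T :=
  (.n (.n (.b 2) (.n (.n (.b 2) (.n (.b 4) (.n (.n (.b 2) (.n (.n (.b 2) (.n (.b 4) (.n (.n (.b 2)
  (.n (.n (.b 2) (.n (.b 4) (.n (.n (.b 2) (.l 104 12)) (.l 104 12)))) (.n (.n (.b 2) (.b 6)) (.n
  (.n (.b 2) (.n (.n (.b 2) (.l 104 12)) (.l 104 12))) (.b 3))))) (.n (.n (.b 2) (.n (.n (.b 2)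
  (.n (.b 4) (.b 11))) (.n (.n (.b 2) (.l 104 12)) (.n (.n (.b 2) (.n (.l 104 12) (.n (.l 104 12)
  (.b 8)))) (.b 3))))) (.b 3))))) (.n (.n (.b 2) (.b 6)) (.n (.n (.b 2) (.n (.n (.b 2) (.n (.b 4)
  (.n (.n (.b 2) (.n (.l 159 8) (.n (.l 182 8) (.n (.n (.b 2) (.n (.n (.b 2) (.n (.b 4) (.n (.n
  (.b 2) (.n (.l 131 8) (.n (.l 231 1) (.l 256 0)))) (.l 206 4)))) (.l 206 7))) (.b 3))))) (.n (.l
  182 8) (.b 3))))) (.n (.n (.b 2) (.n (.n (.b 2) (.n (.b 4) (.l 182 8))) (.n (.b 6) (.n (.n (.b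
  2) (.n (.l 182 8) (.n (.l 196 8) (.n (.n (.b 2) (.n (.n (.b 2) (.n (.b 4) (.n (.n (.b 2) (.n (.l
  206 4) (.n (.l 161 8) (.n (.n (.b 2) (.l 256 0)) (.b 3))))) (.l 182 8)))) (.b 8))) (.b 3)))))
  (.b 3))))) (.n (.n (.b 2) (.n (.n (.b 2) (.n (.b 4) (.n (.l 182 8) (.n (.n (.b 2) (.n (.n (.b 2)
  (.n (.b 4) (.n (.n (.b 2) (.n (.l 206 3) (.n (.l 119 12) (.n (.l 256 0) (.b 3))))) (.l 182 8))))
  (.l 182 8))) (.b 3))))) (.b 8))) (.b 3))))) (.b 3))))) (.n (.n (.b 2) (.n (.n (.b 2) (.n (.b 4)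
  (.n (.n (.b 2) (.n (.n (.b 2) (.n (.b 4) (.l 195 9))) (.n (.n (.b 2) (.b 6)) (.n (.n (.b 2) (.n
  (.l 195 9) (.n (.l 206 9) (.n (.n (.b 2) (.n (.n (.b 2) (.n (.b 4) (.n (.l 206 5) (.n (.n (.b 2)
  (.n (.n (.b 2) (.l 256 0)) (.l 129 9))) (.b 3))))) (.b 8))) (.b 3))))) (.b 3))))) (.n (.n (.b 2)
  (.n (.n (.b 2) (.n (.b 4) (.n (.l 195 9) (.n (.n (.b 2) (.n (.n (.b 2) (.n (.b 4) (.n (.l 206 4)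
  (.n (.n (.b 2) (.n (.l 256 0) (.l 231 1))) (.b 3))))) (.l 206 7))) (.b 3))))) (.n (.l 195 9) (.n
  (.l 195 9) (.b 3))))) (.b 3))))) (.n (.n (.b 2) (.n (.n (.b 2) (.n (.b 4) (.n (.n (.b 2) (.n (.n
  (.b 2) (.l 206 7)) (.l 206 7))) (.n (.l 206 7) (.b 3))))) (.n (.b 6) (.n (.n (.b 2) (.n (.n (.b
  2) (.n (.b 4) (.l 256 0))) (.n (.l 129 9) (.n (.n (.b 2) (.n (.l 129 9) (.b 8))) (.b 3))))) (.b
  3))))) (.n (.n (.b 2) (.n (.n (.b 2) (.n (.b 4) (.n (.l 150 9) (.n (.n (.b 2) (.n (.l 150 9) (.n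
  (.l 150 9) (.n (.n (.b 2) (.n (.n (.b 2) (.n (.b 4) (.n (.l 141 9) (.n (.n (.b 2) (.n (.l 141 9)
  (.n (.l 129 9) (.n (.l 256 0) (.b 3))))) (.b 3))))) (.l 150 9))) (.b 3))))) (.b 3))))) (.n (.n
  (.b 2) (.n (.n (.b 2) (.n (.b 4) (.n (.l 150 9) (.n (.n (.b 2) (.n (.n (.b 2) (.n (.b 4) (.n (.l
  66 12) (.n (.n (.b 2) (.n (.l 58 12) (.n (.l 231 1) (.l 256 0)))) (.b 3))))) (.l 150 9))) (.b
  3))))) (.l 150 9))) (.b 8)))) (.b 3))))) (.b 3))))) (.n (.n (.b 2) (.n (.n (.b 2) (.n (.b 4) (.n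
  (.n (.b 2) (.n (.n (.b 2) (.n (.b 4) (.n (.n (.b 2) (.n (.n (.b 2) (.l 206 6)) (.l 206 6))) (.n
  (.n (.b 2) (.l 206 6)) (.b 3))))) (.n (.n (.b 2) (.b 6)) (.n (.n (.b 2) (.n (.n (.b 2) (.n (.b
  4) (.l 131 9))) (.n (.l 256 0) (.n (.n (.b 2) (.n (.l 231 1) (.b 8))) (.b 3))))) (.b 3))))) (.n
  (.n (.b 2) (.n (.n (.b 2) (.n (.b 4) (.n (.n (.b 2) (.l 105 9)) (.n (.n (.b 2) (.n (.l 105 9)
  (.n (.l 158 9) (.n (.n (.b 2) (.n (.l 183 8) (.n (.n (.b 2) (.n (.n (.b 2) (.n (.b 4) (.n (.l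
  131 9) (.n (.l 256 0) (.b 3))))) (.l 206 5))) (.b 8)))) (.b 3))))) (.b 3))))) (.n (.n (.b 2) (.n
  (.n (.b 2) (.n (.b 4) (.n (.l 129 9) (.n (.n (.b 2) (.n (.l 83 13) (.n (.n (.b 2) (.n (.n (.b 2)
  (.n (.b 4) (.n (.l 231 1) (.l 256 0)))) (.l 129 4))) (.l 129 6)))) (.b 3))))) (.n (.b 6) (.n (.l
  129 9) (.b 3))))) (.n (.n (.b 2) (.n (.l 129 9) (.n (.n (.b 2) (.n (.l 131 9) (.n (.b 6) (.n (.n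
  (.b 2) (.n (.l 129 9) (.n (.n (.b 2) (.n (.n (.b 2) (.n (.b 4) (.n (.l 129 9) (.n (.n (.b 2) (.l
  256 0)) (.b 3))))) (.l 206 6))) (.l 194 8)))) (.b 3))))) (.b 8)))) (.b 3))))) (.b 3))))) (.n (.b
  6) (.n (.n (.b 2) (.n (.n (.b 2) (.n (.b 4) (.n (.n (.b 2) (.n (.n (.b 2) (.l 152 6)) (.n (.n
  (.b 2) (.b 6)) (.l 152 6)))) (.n (.n (.b 2) (.n (.l 189 3) (.n (.n (.b 2) (.l 256 0)) (.n (.n
  (.b 2) (.n (.l 62 12) (.n (.l 62 12) (.b 8)))) (.b 3))))) (.b 3))))) (.n (.n (.b 2) (.n (.n (.b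
  2) (.n (.b 4) (.n (.l 132 9) (.n (.n (.b 2) (.n (.l 132 9) (.n (.l 132 9) (.n (.n (.b 2) (.n (.l
  123 9) (.n (.n (.b 2) (.n (.l 206 6) (.n (.b 6) (.n (.n (.b 2) (.n (.l 102 9) (.n (.l 256 0) (.l
  231 1)))) (.b 3))))) (.b 8)))) (.b 3))))) (.b 3))))) (.n (.b 6) (.n (.n (.b 2) (.n (.l 132 9)
  (.n (.n (.b 2) (.n (.l 167 9) (.n (.b 6) (.n (.n (.b 2) (.n (.l 131 9) (.n (.n (.b 2) (.n (.l
  185 7) (.n (.b 6) (.n (.n (.b 2) (.n (.l 102 9) (.n (.n (.b 2) (.l 256 0)) (.l 102 9)))) (.b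
  3))))) (.l 131 9)))) (.b 3))))) (.l 132 9)))) (.b 3))))) (.n (.n (.b 2) (.n (.n (.b 2) (.n (.b
  4) (.n (.n (.b 2) (.n (.l 133 9) (.n (.l 123 9) (.n (.n (.b 2) (.n (.l 158 9) (.n (.n (.b 2) (.n
  (.l 186 6) (.n (.b 6) (.n (.n (.b 2) (.n (.l 102 9) (.n (.l 231 1) (.l 256 0)))) (.b 3))))) (.l
  123 9)))) (.b 3))))) (.l 123 9)))) (.b 8))) (.b 3))))) (.b 3))))) (.n (.n (.b 2) (.n (.n (.b 2)
  (.n (.b 4) (.n (.n (.b 2) (.n (.n (.b 2) (.n (.b 4) (.n (.n (.b 2) (.l 123 9)) (.n (.n (.b 2)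
  (.n (.b 11) (.n (.l 123 9) (.n (.n (.b 2) (.n (.l 123 9) (.n (.l 123 9) (.b 8)))) (.b 3))))) (.b
  3))))) (.n (.n (.b 2) (.b 6)) (.n (.n (.b 2) (.n (.l 123 9) (.n (.n (.b 2) (.n (.l 139 9) (.n
  (.b 6) (.n (.n (.b 2) (.n (.l 123 9) (.n (.l 187 8) (.n (.n (.b 2) (.n (.n (.b 2) (.n (.b 4) (.n
  (.n (.b 2) (.l 256 0)) (.l 102 9)))) (.b 8))) (.b 3))))) (.b 3))))) (.l 123 9)))) (.b 3))))) (.n
  (.n (.b 2) (.n (.n (.b 2) (.n (.b 4) (.n (.n (.b 2) (.n (.l 123 9) (.n (.l 123 9) (.n (.n (.b 2)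
  (.n (.l 123 9) (.n (.l 179 7) (.n (.n (.b 2) (.n (.n (.b 2) (.n (.b 4) (.n (.l 231 1) (.l 256
  0)))) (.b 8))) (.b 3))))) (.b 3))))) (.l 123 9)))) (.n (.n (.b 2) (.n (.l 123 9) (.n (.b 6) (.n
  (.n (.b 2) (.n (.b 13) (.n (.l 123 9) (.n (.n (.b 2) (.n (.l 123 9) (.b 8))) (.b 3))))) (.b
  3))))) (.n (.n (.b 2) (.n (.n (.b 2) (.n (.b 4) (.n (.l 123 9) (.n (.n (.b 2) (.n (.l 123 9) (.n
  (.l 123 9) (.n (.n (.b 2) (.n (.n (.b 2) (.n (.b 4) (.n (.l 41 12) (.n (.l 256 0) (.b 3))))) (.l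
  102 9))) (.b 3))))) (.b 3))))) (.l 123 9))) (.b 3))))) (.b 3))))) (.n (.n (.b 2) (.n (.n (.b 2)
  (.n (.b 4) (.n (.n (.b 2) (.n (.n (.b 2) (.n (.b 4) (.l 102 9))) (.n (.l 102 9) (.n (.n (.b 2)
  (.b 12)) (.b 3))))) (.n (.n (.b 2) (.n (.n (.b 2) (.n (.b 4) (.n (.l 43 9) (.n (.n (.b 2) (.n
  (.l 35 9) (.n (.l 131 7) (.n (.n (.b 2) (.n (.l 156 4) (.n (.n (.b 2) (.n (.l 256 0) (.l 231
  1))) (.b 8)))) (.b 3))))) (.b 3))))) (.l 102 9))) (.b 3))))) (.n (.b 6) (.n (.n (.b 2) (.n (.n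
  (.b 2) (.n (.b 4) (.n (.l 102 9) (.n (.n (.b 2) (.n (.l 102 9) (.n (.b 13) (.n (.n (.b 2) (.n
  (.l 102 9) (.n (.l 102 9) (.b 8)))) (.b 3))))) (.b 3))))) (.n (.n (.b 2) (.n (.n (.b 2) (.n (.b
  4) (.n (.l 102 9) (.n (.n (.b 2) (.n (.l 102 9) (.n (.l 102 9) (.n (.n (.b 2) (.n (.l 0 15) (.n
  (.n (.b 2) (.n (.l 206 2) (.n (.b 6) (.l 256 0)))) (.b 8)))) (.b 3))))) (.b 3))))) (.l 102 9)))
  (.n (.l 102 9) (.b 3))))) (.b 3))))) (.n (.n (.b 2) (.b 8)) (.b 3))))) (.b 3))))) (.b 3))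

/-- A subtree of the table. -/
def u0 : T := .n s2 s3

/-- A subtree of the table. -/
def u1 : T := .n s1 u0

/-- A subtree of the table. -/
def u2 : T := .n s0 u1

/-- A subtree of the table. -/
def u3 : T := .n s6 s7

/-- A subtree of the table. -/
def u4 : T := .n s5 u3

/-- A subtree of the table. -/
def u5 : T := .n s4 u4

/-- A subtree of the table. -/
def u6 : T := .n s9 s10

/-- A subtree of the table. -/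
def u7 : T := .n s8 u6

/-- A subtree of the table. -/
def u8 : T := .n u7 s11

/-- A subtree of the table. -/
def u9 : T := .n u5 u8

/-- A subtree of the table. -/
def u10 : T := .n u2 u9

/-- The table. -/
def tb : T := u10

end Pool.Agent.Helper49.TF.B2
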