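import Pool.Agent.Helper49.TF.Defs

set_option autoImplicit false
set_option maxRecDepth 100000

/-!
# Table B3: data
-/

namespace Pool.Agent.Helper49.TF.B3

/-- Upper bounds. -/
def es : List ℕ := [0, 1, 2, 3, 4, 5, 6, 7, 8, 9, 10, 10, 11, 12, 13, 14, 15, 16, 17, 18, 19]

/-- Lower bounds. -/
def el : List ℕ := [0, 1, 2, 3, 4, 5, 5, 6, 7, 8, 9, 10, 10, 11, 12, 13, 14, 15, 15, 16, 17]

/-- Rewards. -/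
def ws : List ℕ := [98, 90, 88, 80, 76, 68, 64, 54, 48, 36, 30]

/-- A subtree of the table. -/
def s0 : T :=
  (.b 2)

/-- A subtree of the table. -/
def s1 : T :=
  (.n (.b 2) (.n (.n (.b 2) (.b 4)) (.n (.n (.b 2) (.n (.n (.b 2) (.n (.b 4) (.n (.n (.b 2) (.n
  (.n (.b 2) (.n (.b 4) (.n (.n (.b 2) (.n (.n (.b 2) (.n (.b 4) (.n (.n (.b 2) (.n (.n (.b 2) (.n
  (.b 4) (.n (.l 214 0) (.l 193 99)))) (.l 85 10))) (.l 126 10)))) (.n (.n (.b 2) (.n (.l 115 10)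
  (.b 6))) (.l 115 10)))) (.n (.n (.b 2) (.n (.l 123 10) (.n (.n (.b 2) (.n (.n (.b 2) (.n (.b 4)
  (.l 123 10))) (.l 123 10))) (.l 123 10)))) (.b 3))))) (.n (.n (.b 2) (.n (.n (.b 2) (.n (.b 4)
  (.n (.n (.b 2) (.n (.n (.b 2) (.n (.b 4) (.l 115 10))) (.l 115 10))) (.l 115 10)))) (.b 6))) (.n
  (.n (.b 2) (.n (.n (.b 2) (.n (.b 4) (.l 115 10))) (.n (.n (.b 2) (.l 115 10)) (.n (.n (.b 2)
  (.l 115 10)) (.b 3))))) (.b 3))))) (.n (.n (.b 2) (.n (.n (.b 2) (.n (.b 4) (.n (.n (.b 2) (.n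
  (.l 214 0) (.n (.n (.b 2) (.n (.n (.b 2) (.n (.b 4) (.l 193 99))) (.b 6))) (.l 193 99)))) (.n
  (.n (.b 2) (.l 66 13)) (.b 3))))) (.n (.n (.b 2) (.n (.n (.b 2) (.n (.b 4) (.l 120 10))) (.n (.n
  (.b 2) (.b 6)) (.n (.l 120 10) (.b 3))))) (.n (.n (.b 2) (.n (.n (.b 2) (.l 120 10)) (.n (.n (.b
  2) (.l 120 10)) (.n (.b 8) (.b 3))))) (.b 3))))) (.b 3))))) (.n (.n (.b 2) (.n (.n (.b 2) (.n
  (.b 4) (.n (.n (.b 2) (.n (.n (.b 2) (.n (.b 4) (.n (.l 145 10) (.n (.n (.b 2) (.n (.n (.b 2)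
  (.n (.b 4) (.l 145 10))) (.l 145 10))) (.b 3))))) (.n (.n (.b 2) (.n (.n (.b 2) (.n (.b 4) (.n
  (.n (.b 2) (.n (.l 108 10) (.n (.n (.b 2) (.n (.n (.b 2) (.l 214 0)) (.b 6))) (.l 108 10)))) (.l
  162 10)))) (.b 6))) (.n (.n (.b 2) (.l 145 10)) (.b 3))))) (.n (.n (.b 2) (.n (.n (.b 2) (.n (.b
  4) (.n (.n (.b 2) (.n (.n (.b 2) (.n (.b 4) (.b 11))) (.l 142 10))) (.l 142 10)))) (.n (.n (.b
  2) (.l 142 10)) (.n (.n (.b 2) (.n (.n (.b 2) (.n (.b 4) (.n (.n (.b 2) (.n (.l 142 10) (.n (.n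
  (.b 2) (.n (.n (.b 2) (.n (.b 4) (.n (.l 193 99) (.l 214 0)))) (.b 6))) (.l 88 12)))) (.l 142
  10)))) (.l 142 10))) (.b 3))))) (.b 3))))) (.b 6))) (.n (.n (.b 2) (.n (.n (.b 2) (.n (.b 4) (.n
  (.n (.b 2) (.n (.n (.b 2) (.n (.b 4) (.n (.n (.b 2) (.n (.n (.b 2) (.n (.b 4) (.l 104 10))) (.l
  104 10))) (.l 104 10)))) (.n (.n (.b 2) (.l 104 10)) (.n (.n (.b 2) (.n (.n (.b 2) (.n (.b 4)
  (.n (.n (.b 2) (.n (.l 76 14) (.n (.l 28 15) (.n (.n (.b 2) (.n (.n (.b 2) (.n (.b 4) (.l 214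
  0))) (.l 10 15))) (.b 3))))) (.l 108 10)))) (.l 104 10))) (.b 3))))) (.n (.n (.b 2) (.n (.n (.b
  2) (.n (.b 4) (.l 104 10))) (.n (.l 104 10) (.n (.l 104 10) (.b 3))))) (.b 3))))) (.n (.n (.b 2)
  (.n (.n (.b 2) (.n (.b 4) (.n (.n (.b 2) (.n (.l 193 1) (.l 214 0))) (.n (.n (.b 2) (.l 172 3))
  (.b 3))))) (.n (.n (.b 2) (.b 6)) (.n (.n (.b 2) (.n (.l 172 6) (.n (.l 172 6) (.n (.n (.b 2)
  (.n (.n (.b 2) (.n (.b 4) (.n (.n (.b 2) (.n (.l 172 6) (.n (.l 172 6) (.n (.n (.b 2) (.n (.l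
  108 6) (.n (.n (.b 2) (.n (.l 105 99) (.n (.l 193 99) (.l 214 0)))) (.l 105 6)))) (.b 3))))) (.l
  172 6)))) (.l 172 6))) (.b 3))))) (.b 3))))) (.n (.n (.b 2) (.n (.n (.b 2) (.n (.b 4) (.n (.n
  (.b 2) (.l 97 10)) (.n (.n (.b 2) (.n (.n (.b 2) (.n (.b 4) (.n (.n (.b 2) (.n (.l 76 10) (.n
  (.l 67 10) (.n (.n (.b 2) (.n (.l 10 15) (.n (.l 10 99) (.n (.n (.b 2) (.l 214 0)) (.b 3)))))
  (.b 3))))) (.l 76 10)))) (.l 64 10))) (.b 3))))) (.n (.n (.b 2) (.n (.n (.b 2) (.n (.b 4) (.l 97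
  10))) (.n (.l 97 10) (.n (.l 97 10) (.b 3))))) (.b 8)))) (.b 3))))) (.b 3))))) (.n (.n (.b 2)
  (.n (.n (.b 2) (.n (.b 4) (.n (.n (.b 2) (.n (.n (.b 2) (.n (.b 4) (.n (.n (.b 2) (.n (.l 56 10)
  (.n (.n (.b 2) (.n (.n (.b 2) (.n (.b 4) (.l 56 10))) (.b 6))) (.l 56 10)))) (.n (.n (.b 2) (.l
  214 0)) (.b 3))))) (.n (.n (.b 2) (.n (.n (.b 2) (.n (.b 4) (.l 154 10))) (.b 6))) (.n (.n (.b
  2) (.n (.n (.b 2) (.l 154 10)) (.n (.n (.b 2) (.l 154 10)) (.n (.n (.b 2) (.n (.n (.b 2) (.n (.b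
  4) (.n (.l 133 10) (.n (.n (.b 2) (.n (.n (.b 2) (.n (.b 4) (.n (.n (.b 2) (.n (.l 126 99) (.n
  (.l 193 99) (.l 214 0)))) (.l 126 13)))) (.l 56 13))) (.b 3))))) (.l 136 10))) (.b 3))))) (.b
  3))))) (.n (.n (.b 2) (.n (.n (.b 2) (.n (.b 4) (.n (.n (.b 2) (.l 84 10)) (.n (.n (.b 2) (.n
  (.n (.b 2) (.n (.b 4) (.n (.l 82 10) (.n (.n (.b 2) (.n (.n (.b 2) (.n (.b 4) (.n (.l 28 13) (.n
  (.n (.b 2) (.l 214 0)) (.b 3))))) (.l 97 10))) (.b 3))))) (.l 99 10))) (.b 3))))) (.n (.n (.b 2)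
  (.n (.n (.b 2) (.n (.b 4) (.l 101 10))) (.n (.l 101 10) (.n (.l 101 10) (.b 3))))) (.n (.n (.b
  2) (.n (.n (.b 2) (.l 101 10)) (.n (.n (.b 2) (.n (.n (.b 2) (.n (.b 4) (.n (.l 71 10) (.n (.n
  (.b 2) (.n (.n (.b 2) (.n (.b 4) (.n (.l 59 10) (.n (.n (.b 2) (.n (.l 193 99) (.l 214 0))) (.b
  3))))) (.l 71 10))) (.b 3))))) (.l 101 10))) (.l 101 10)))) (.b 3))))) (.b 3))))) (.n (.n (.b 2)
  (.n (.n (.b 2) (.n (.b 4) (.n (.n (.b 2) (.n (.n (.b 2) (.n (.b 4) (.l 117 10))) (.n (.n (.b 2)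
  (.l 117 10)) (.n (.n (.b 2) (.l 117 10)) (.b 3))))) (.n (.n (.b 2) (.n (.n (.b 2) (.l 117 10))
  (.n (.n (.b 2) (.n (.n (.b 2) (.n (.b 4) (.n (.l 117 10) (.n (.n (.b 2) (.n (.l 73 10) (.n (.n
  (.b 2) (.n (.n (.b 2) (.n (.b 4) (.l 214 0))) (.l 73 10))) (.l 73 10)))) (.b 3))))) (.l 117
  10))) (.n (.l 117 10) (.b 3))))) (.b 3))))) (.n (.n (.b 2) (.b 6)) (.n (.n (.b 2) (.n (.n (.b 2)
  (.n (.b 4) (.n (.l 160 13) (.n (.n (.b 2) (.n (.l 193 99) (.l 214 0))) (.b 3))))) (.n (.n (.b 2)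
  (.n (.n (.b 2) (.l 63 13)) (.n (.n (.b 2) (.b 6)) (.l 63 13)))) (.n (.n (.b 2) (.n (.l 63 13)
  (.n (.l 63 13) (.b 8)))) (.b 3))))) (.b 3))))) (.n (.n (.b 2) (.n (.n (.b 2) (.n (.b 4) (.n (.n
  (.b 2) (.n (.n (.b 2) (.l 117 10)) (.n (.n (.b 2) (.n (.n (.b 2) (.n (.b 4) (.n (.l 163 10) (.n
  (.n (.b 2) (.n (.l 117 10) (.n (.l 73 10) (.n (.n (.b 2) (.n (.n (.b 2) (.l 214 0)) (.l 73 99)))
  (.b 3))))) (.b 3))))) (.b 6))) (.n (.l 117 10) (.b 3))))) (.n (.n (.b 2) (.n (.l 117 10) (.n (.l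
  117 10) (.n (.n (.b 2) (.n (.n (.b 2) (.n (.b 4) (.n (.l 117 10) (.n (.n (.b 2) (.n (.l 117 10)
  (.n (.l 63 13) (.n (.n (.b 2) (.n (.n (.b 2) (.n (.b 4) (.n (.l 193 99) (.l 214 0)))) (.l 63
  13))) (.b 3))))) (.b 3))))) (.l 117 10))) (.b 3))))) (.b 3))))) (.n (.n (.b 2) (.n (.n (.b 2)
  (.n (.b 4) (.n (.n (.b 2) (.l 117 10)) (.n (.n (.b 2) (.n (.n (.b 2) (.n (.b 4) (.n (.l 117 10)
  (.n (.n (.b 2) (.n (.l 117 10) (.n (.l 93 13) (.n (.n (.b 2) (.n (.l 63 99) (.n (.n (.b 2) (.l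
  214 0)) (.l 63 99)))) (.b 3))))) (.b 3))))) (.l 117 10))) (.b 3))))) (.n (.n (.b 2) (.b 6)) (.n
  (.n (.b 2) (.n (.l 117 10) (.n (.n (.b 2) (.n (.n (.b 2) (.n (.b 4) (.n (.l 73 10) (.n (.n (.b
  2) (.n (.l 73 10) (.n (.l 73 10) (.n (.n (.b 2) (.n (.l 73 10) (.n (.n (.b 2) (.n (.l 193 99)
  (.l 214 0))) (.l 73 99)))) (.b 3))))) (.b 3))))) (.l 117 10))) (.l 117 10)))) (.b 3))))) (.n (.b
  8) (.b 3))))) (.b 3))))) (.b 3)))))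

/-- A subtree of the table. -/
def s2 : T :=
  (.n (.b 2) (.n (.n (.b 2) (.n (.b 4) (.n (.n (.b 2) (.n (.n (.b 2) (.n (.b 4) (.n (.n (.b 2) (.n
  (.n (.b 2) (.n (.b 4) (.n (.n (.b 2) (.n (.n (.b 2) (.n (.b 4) (.n (.n (.b 2) (.n (.l 214 0) (.l
  94 99))) (.l 192 10)))) (.n (.n (.b 2) (.n (.l 124 10) (.b 6))) (.l 124 10)))) (.l 132 10))))
  (.n (.n (.b 2) (.n (.l 124 10) (.b 6))) (.n (.n (.b 2) (.l 124 10)) (.b 3))))) (.n (.n (.b 2)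
  (.n (.n (.b 2) (.n (.b 4) (.l 129 10))) (.n (.n (.b 2) (.n (.n (.b 2) (.n (.b 4) (.l 129 10)))
  (.n (.n (.b 2) (.b 6)) (.l 129 10)))) (.n (.l 129 10) (.b 3))))) (.b 3))))) (.n (.n (.b 2) (.n
  (.n (.b 2) (.n (.b 4) (.n (.n (.b 2) (.n (.n (.b 2) (.n (.b 4) (.l 127 9))) (.n (.n (.b 2) (.n
  (.n (.b 2) (.n (.b 4) (.n (.n (.b 2) (.n (.l 73 12) (.n (.l 214 0) (.l 73 99)))) (.l 171 9))))
  (.b 6))) (.l 127 9)))) (.n (.n (.b 2) (.l 151 9)) (.b 3))))) (.b 6))) (.n (.n (.b 2) (.n (.n (.b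
  2) (.n (.b 4) (.n (.n (.b 2) (.l 73 12)) (.n (.n (.b 2) (.l 73 12)) (.b 3))))) (.n (.n (.b 2)
  (.n (.n (.b 2) (.n (.b 4) (.l 214 0))) (.n (.n (.b 2) (.b 6)) (.n (.l 168 3) (.b 3))))) (.n (.n
  (.b 2) (.n (.l 73 12) (.n (.l 73 12) (.b 8)))) (.b 3))))) (.b 3))))) (.n (.n (.b 2) (.n (.n (.b
  2) (.n (.b 4) (.n (.n (.b 2) (.n (.n (.b 2) (.n (.b 4) (.l 214 0))) (.n (.n (.b 2) (.n (.n (.b
  2) (.n (.b 4) (.l 189 10))) (.b 6))) (.n (.l 189 10) (.b 3))))) (.n (.n (.b 2) (.n (.n (.b 2)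
  (.l 91 10)) (.n (.n (.b 2) (.l 91 10)) (.n (.n (.b 2) (.n (.l 91 10) (.n (.n (.b 2) (.n (.n (.b
  2) (.n (.b 4) (.n (.l 37 15) (.n (.n (.b 2) (.n (.n (.b 2) (.n (.b 4) (.n (.l 24 99) (.l 214
  0)))) (.l 37 15))) (.b 3))))) (.l 91 10))) (.l 91 10)))) (.b 3))))) (.b 3))))) (.n (.n (.b 2)
  (.n (.n (.b 2) (.n (.b 4) (.n (.n (.b 2) (.l 126 10)) (.n (.n (.b 2) (.n (.l 126 10) (.n (.n (.b
  2) (.n (.n (.b 2) (.n (.b 4) (.n (.l 126 10) (.n (.n (.b 2) (.n (.l 78 12) (.n (.n (.b 2) (.l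
  214 0)) (.l 78 12)))) (.b 3))))) (.l 126 10))) (.l 126 10)))) (.b 3))))) (.n (.n (.b 2) (.b 6))
  (.n (.n (.b 2) (.n (.n (.b 2) (.l 126 10)) (.n (.n (.b 2) (.n (.l 126 10) (.n (.n (.b 2) (.b 6))
  (.l 126 10)))) (.l 126 10)))) (.b 3))))) (.n (.n (.b 2) (.n (.n (.b 2) (.n (.b 4) (.n (.n (.b 2)
  (.n (.l 126 10) (.n (.n (.b 2) (.n (.n (.b 2) (.n (.b 4) (.n (.l 172 10) (.n (.n (.b 2) (.n (.l
  126 10) (.n (.l 78 12) (.n (.l 214 0) (.b 3))))) (.b 3))))) (.b 6))) (.l 126 10)))) (.n (.l 126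
  10) (.b 3))))) (.n (.n (.b 2) (.n (.l 126 10) (.n (.l 126 10) (.n (.n (.b 2) (.n (.l 126 10) (.n
  (.n (.b 2) (.n (.n (.b 2) (.n (.b 4) (.n (.l 78 12) (.n (.n (.b 2) (.n (.l 78 12) (.n (.l 78 12)
  (.n (.n (.b 2) (.n (.l 78 99) (.l 214 0))) (.b 3))))) (.b 3))))) (.l 126 10))) (.l 126 10))))
  (.b 3))))) (.n (.b 8) (.b 3))))) (.b 3))))) (.b 3))))) (.n (.n (.b 2) (.n (.n (.b 2) (.n (.b 4)
  (.n (.n (.b 2) (.n (.n (.b 2) (.n (.b 4) (.n (.n (.b 2) (.n (.n (.b 2) (.n (.b 4) (.n (.n (.b 2)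
  (.n (.l 103 12) (.n (.n (.b 2) (.n (.l 103 12) (.b 6))) (.l 103 12)))) (.l 103 12)))) (.l 103
  12))) (.n (.n (.b 2) (.n (.n (.b 2) (.n (.b 4) (.l 103 12))) (.n (.n (.b 2) (.n (.l 103 12) (.n
  (.n (.b 2) (.b 6)) (.l 103 12)))) (.l 103 12)))) (.b 3))))) (.n (.n (.b 2) (.n (.n (.b 2) (.n
  (.b 4) (.n (.n (.b 2) (.n (.l 66 12) (.n (.n (.b 2) (.n (.n (.b 2) (.n (.b 4) (.n (.l 214 0) (.l
  193 99)))) (.b 6))) (.l 66 12)))) (.l 120 12)))) (.b 6))) (.n (.n (.b 2) (.n (.n (.b 2) (.l 103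
  12)) (.n (.n (.b 2) (.n (.l 103 12) (.n (.n (.b 2) (.b 6)) (.l 103 12)))) (.n (.l 103 12) (.b
  3))))) (.b 3))))) (.n (.n (.b 2) (.n (.n (.b 2) (.n (.b 4) (.n (.n (.b 2) (.n (.n (.b 2) (.n (.b
  4) (.b 11))) (.n (.n (.b 2) (.n (.l 100 12) (.b 6))) (.l 100 12)))) (.n (.l 100 12) (.b 3)))))
  (.n (.n (.b 2) (.n (.n (.b 2) (.l 100 12)) (.n (.n (.b 2) (.b 6)) (.n (.n (.b 2) (.n (.l 100 12)
  (.n (.n (.b 2) (.n (.l 100 12) (.n (.n (.b 2) (.b 6)) (.l 100 12)))) (.l 100 12)))) (.b 3)))))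
  (.n (.n (.b 2) (.n (.n (.b 2) (.n (.b 4) (.n (.n (.b 2) (.n (.l 100 12) (.n (.n (.b 2) (.n (.n
  (.b 2) (.n (.b 4) (.n (.l 151 99) (.n (.n (.b 2) (.l 214 0)) (.b 3))))) (.b 6))) (.l 46 14))))
  (.l 100 12)))) (.n (.l 100 12) (.n (.b 8) (.b 3))))) (.b 3))))) (.b 3))))) (.n (.b 6) (.n (.n
  (.b 2) (.n (.n (.b 2) (.n (.b 4) (.n (.n (.b 2) (.n (.n (.b 2) (.l 214 0)) (.n (.l 214 0) (.l
  214 0)))) (.n (.n (.b 2) (.n (.l 214 0) (.l 214 0))) (.b 3))))) (.n (.n (.b 2) (.n (.n (.b 2)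
  (.n (.b 4) (.n (.l 214 0) (.l 214 0)))) (.n (.n (.b 2) (.b 6)) (.n (.n (.b 2) (.l 214 0)) (.b
  3))))) (.n (.n (.b 2) (.n (.n (.b 2) (.n (.b 4) (.l 214 0))) (.n (.n (.b 2) (.l 214 0)) (.b
  8)))) (.b 3))))) (.b 3))))) (.n (.n (.b 2) (.n (.n (.b 2) (.n (.b 4) (.n (.n (.b 2) (.n (.n (.b
  2) (.n (.b 4) (.n (.n (.b 2) (.n (.n (.b 2) (.n (.b 4) (.l 160 3))) (.n (.n (.b 2) (.n (.l 160
  3) (.b 6))) (.l 160 3)))) (.n (.l 160 3) (.b 3))))) (.n (.n (.b 2) (.n (.n (.b 2) (.l 160 3))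
  (.b 6))) (.n (.n (.b 2) (.n (.n (.b 2) (.n (.b 4) (.n (.n (.b 2) (.n (.l 132 3) (.n (.l 84 3)
  (.n (.n (.b 2) (.n (.n (.b 2) (.n (.b 4) (.n (.n (.b 2) (.l 214 0)) (.l 172 3)))) (.l 66 3)))
  (.b 3))))) (.l 164 3)))) (.n (.l 160 3) (.n (.l 160 3) (.b 3))))) (.b 3))))) (.n (.n (.b 2) (.n
  (.n (.b 2) (.n (.b 4) (.n (.l 160 3) (.n (.l 160 3) (.b 3))))) (.n (.n (.b 2) (.n (.n (.b 2) (.l
  160 3)) (.n (.n (.b 2) (.b 6)) (.n (.n (.b 2) (.l 214 0)) (.b 3))))) (.n (.n (.b 2) (.n (.l 152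
  3) (.n (.l 152 3) (.n (.b 8) (.b 3))))) (.b 3))))) (.b 3))))) (.n (.n (.b 2) (.n (.n (.b 2) (.n
  (.b 4) (.n (.n (.b 2) (.n (.n (.b 2) (.l 193 3)) (.n (.n (.b 2) (.n (.l 193 2) (.b 6))) (.n (.l
  214 0) (.b 3))))) (.n (.n (.b 2) (.n (.l 193 3) (.n (.l 193 3) (.n (.n (.b 2) (.n (.l 193 3) (.n
  (.n (.b 2) (.n (.l 193 3) (.n (.l 193 3) (.n (.n (.b 2) (.n (.l 133 3) (.n (.n (.b 2) (.n (.n
  (.b 2) (.n (.b 4) (.n (.l 130 99) (.l 214 0)))) (.l 193 3))) (.l 133 3)))) (.b 3))))) (.l 193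
  3)))) (.b 3))))) (.b 3))))) (.n (.n (.b 2) (.b 6)) (.n (.n (.b 2) (.n (.n (.b 2) (.n (.b 4) (.n
  (.n (.b 2) (.n (.l 193 3) (.n (.n (.b 2) (.n (.l 193 3) (.b 6))) (.l 193 3)))) (.l 193 3)))) (.n
  (.n (.b 2) (.n (.l 193 3) (.n (.l 193 3) (.n (.n (.b 2) (.n (.l 193 3) (.n (.n (.b 2) (.n (.l
  193 3) (.n (.l 193 3) (.n (.n (.b 2) (.n (.l 133 3) (.n (.n (.b 2) (.n (.l 133 3) (.n (.l 193 3)
  (.n (.n (.b 2) (.n (.l 130 99) (.l 214 0))) (.b 3))))) (.l 133 3)))) (.b 3))))) (.l 193 3))))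
  (.b 3))))) (.n (.n (.b 2) (.n (.n (.b 2) (.n (.b 4) (.n (.n (.b 2) (.n (.l 193 3) (.n (.l 193 3)
  (.n (.n (.b 2) (.n (.l 164 3) (.n (.n (.b 2) (.n (.l 153 3) (.n (.l 111 3) (.n (.n (.b 2) (.l
  214 0)) (.b 3))))) (.l 161 3)))) (.b 3))))) (.l 193 3)))) (.l 193 3))) (.b 3))))) (.b 3))))) (.n
  (.n (.b 2) (.n (.n (.b 2) (.n (.b 4) (.n (.n (.b 2) (.n (.l 145 3) (.n (.l 145 3) (.n (.n (.b 2)
  (.n (.l 145 3) (.n (.n (.b 2) (.n (.l 145 3) (.n (.l 145 3) (.n (.n (.b 2) (.n (.l 133 3) (.n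
  (.l 133 3) (.n (.n (.b 2) (.n (.n (.b 2) (.n (.b 4) (.l 214 0))) (.l 55 12))) (.b 3))))) (.b
  3))))) (.l 145 3)))) (.b 3))))) (.n (.n (.b 2) (.n (.n (.b 2) (.n (.b 4) (.n (.n (.b 2) (.n (.l
  132 3) (.n (.l 123 3) (.n (.n (.b 2) (.n (.l 66 3) (.n (.l 66 3) (.n (.n (.b 2) (.n (.n (.b 2)
  (.l 214 0)) (.l 111 99))) (.b 3))))) (.b 3))))) (.l 132 3)))) (.l 120 3))) (.b 3))))) (.n (.n
  (.b 2) (.n (.n (.b 2) (.n (.b 4) (.n (.l 145 3) (.n (.l 145 3) (.b 3))))) (.n (.n (.b 2) (.b 6))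
  (.n (.l 145 3) (.b 3))))) (.b 8)))) (.b 3))))) (.b 3)))))

/-- A subtree of the table. -/
def s3 : T :=
  (.b 2)

/-- A subtree of the table. -/
def s4 : T :=
  (.n (.b 2) (.n (.b 4) (.n (.n (.b 2) (.n (.n (.b 2) (.n (.b 4) (.n (.n (.b 2) (.n (.n (.b 2) (.n
  (.b 4) (.l 112 6))) (.n (.n (.b 2) (.n (.n (.b 2) (.n (.b 4) (.l 112 6))) (.b 6))) (.n (.l 112
  6) (.b 3))))) (.n (.n (.b 2) (.n (.n (.b 2) (.l 214 0)) (.n (.n (.b 2) (.l 151 6)) (.n (.n (.b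
  2) (.n (.l 151 6) (.n (.l 151 6) (.n (.b 8) (.b 3))))) (.b 3))))) (.b 3))))) (.n (.n (.b 2) (.n
  (.n (.b 2) (.n (.b 4) (.n (.n (.b 2) (.l 193 6)) (.n (.n (.b 2) (.n (.l 188 6) (.n (.l 188 6)
  (.n (.n (.b 2) (.n (.n (.b 2) (.n (.b 4) (.n (.n (.b 2) (.n (.l 188 6) (.n (.n (.b 2) (.l 214
  0)) (.l 112 12)))) (.l 188 6)))) (.l 188 6))) (.b 3))))) (.b 3))))) (.b 6))) (.n (.n (.b 2) (.n
  (.n (.b 2) (.n (.b 4) (.n (.n (.b 2) (.n (.l 188 6) (.n (.l 188 6) (.n (.n (.b 2) (.n (.n (.b 2)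
  (.n (.b 4) (.n (.n (.b 2) (.n (.l 160 10) (.n (.l 112 12) (.n (.l 214 0) (.b 3))))) (.l 193
  6)))) (.l 188 6))) (.b 3))))) (.n (.l 188 6) (.b 3))))) (.n (.n (.b 2) (.n (.l 188 6) (.n (.l
  188 6) (.n (.n (.b 2) (.n (.l 188 6) (.n (.l 188 6) (.n (.n (.b 2) (.n (.n (.b 2) (.n (.b 4) (.n
  (.n (.b 2) (.n (.l 187 6) (.n (.l 188 6) (.n (.n (.b 2) (.n (.l 112 99) (.l 214 0))) (.b 3)))))
  (.l 187 6)))) (.l 187 6))) (.b 3))))) (.b 3))))) (.n (.n (.b 2) (.n (.n (.b 2) (.n (.b 4) (.n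
  (.l 181 6) (.n (.n (.b 2) (.n (.n (.b 2) (.n (.b 4) (.n (.n (.b 2) (.n (.l 160 6) (.n (.l 151 6)
  (.n (.n (.b 2) (.l 214 0)) (.b 3))))) (.l 160 6)))) (.l 112 6))) (.b 3))))) (.l 181 6))) (.b
  3))))) (.b 3))))) (.n (.n (.b 2) (.n (.n (.b 2) (.n (.b 4) (.n (.n (.b 2) (.n (.n (.b 2) (.l 140
  6)) (.n (.n (.b 2) (.l 140 6)) (.n (.n (.b 2) (.n (.l 140 6) (.n (.l 140 6) (.n (.n (.b 2) (.n
  (.n (.b 2) (.n (.b 4) (.n (.l 119 6) (.n (.n (.b 2) (.n (.n (.b 2) (.n (.b 4) (.l 214 0))) (.l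
  42 12))) (.b 3))))) (.l 122 6))) (.b 3))))) (.b 3))))) (.n (.n (.b 2) (.n (.n (.b 2) (.n (.b 4)
  (.n (.l 138 6) (.n (.n (.b 2) (.n (.n (.b 2) (.n (.b 4) (.n (.l 84 6) (.n (.n (.b 2) (.n (.n (.b
  2) (.l 214 0)) (.l 151 6))) (.b 3))))) (.l 153 6))) (.b 3))))) (.n (.l 155 6) (.n (.l 155 6) (.b
  3))))) (.b 3))))) (.n (.n (.b 2) (.n (.n (.b 2) (.n (.b 4) (.n (.l 157 6) (.n (.l 157 6) (.b
  3))))) (.n (.n (.b 2) (.b 6)) (.n (.n (.b 2) (.n (.n (.b 2) (.n (.b 4) (.l 214 0))) (.n (.l 107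
  10) (.n (.n (.b 2) (.n (.l 107 10) (.n (.l 107 10) (.b 8)))) (.b 3))))) (.b 3))))) (.n (.n (.b
  2) (.n (.n (.b 2) (.n (.b 4) (.n (.l 157 6) (.n (.n (.b 2) (.n (.l 157 6) (.n (.l 141 6) (.n (.n
  (.b 2) (.n (.n (.b 2) (.n (.b 4) (.n (.l 135 6) (.n (.n (.b 2) (.n (.l 135 6) (.n (.l 59 12) (.n
  (.n (.b 2) (.l 214 0)) (.b 3))))) (.b 3))))) (.l 141 6))) (.b 3))))) (.b 3))))) (.n (.n (.b 2)
  (.n (.n (.b 2) (.n (.b 4) (.n (.l 127 6) (.n (.n (.b 2) (.n (.n (.b 2) (.n (.b 4) (.n (.l 115 6)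
  (.n (.n (.b 2) (.n (.l 147 6) (.n (.l 147 99) (.n (.l 214 0) (.b 3))))) (.b 3))))) (.l 127 6)))
  (.b 3))))) (.l 157 6))) (.n (.b 8) (.b 3))))) (.b 3))))) (.b 3)))))

/-- A subtree of the table. -/
def s5 : T :=
  (.n (.n (.b 2) (.n (.n (.b 2) (.n (.b 4) (.n (.n (.b 2) (.n (.n (.b 2) (.n (.b 4) (.n (.n (.b 2)
  (.l 151 6)) (.n (.n (.b 2) (.l 151 6)) (.b 3))))) (.n (.n (.b 2) (.n (.n (.b 2) (.l 155 5)) (.b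
  6))) (.n (.n (.b 2) (.n (.l 75 12) (.n (.l 214 0) (.n (.n (.b 2) (.n (.l 75 12) (.n (.l 75 12)
  (.b 8)))) (.b 3))))) (.b 3))))) (.n (.n (.b 2) (.n (.n (.b 2) (.n (.b 4) (.n (.n (.b 2) (.l 151
  6)) (.n (.n (.b 2) (.n (.l 151 6) (.n (.l 151 6) (.n (.n (.b 2) (.n (.l 133 6) (.n (.n (.b 2)
  (.n (.n (.b 2) (.n (.b 4) (.n (.l 75 12) (.n (.n (.b 2) (.l 214 0)) (.b 3))))) (.l 151 6))) (.l
  133 6)))) (.b 3))))) (.b 3))))) (.n (.n (.b 2) (.n (.n (.b 2) (.n (.b 4) (.n (.l 151 6) (.n (.n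
  (.b 2) (.n (.l 119 6) (.n (.n (.b 2) (.n (.n (.b 2) (.n (.b 4) (.n (.l 89 6) (.n (.l 214 0) (.b
  3))))) (.l 119 6))) (.l 119 6)))) (.b 3))))) (.n (.l 151 6) (.n (.l 151 6) (.b 3))))) (.n (.n
  (.b 2) (.n (.l 151 6) (.n (.n (.b 2) (.n (.l 151 6) (.n (.l 151 6) (.n (.n (.b 2) (.n (.l 151 6)
  (.n (.n (.b 2) (.n (.n (.b 2) (.n (.b 4) (.n (.l 75 12) (.n (.n (.b 2) (.n (.l 75 99) (.l 214
  0))) (.b 3))))) (.l 151 6))) (.l 151 6)))) (.b 3))))) (.l 151 6)))) (.b 3))))) (.b 3))))) (.n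
  (.n (.b 2) (.b 6)) (.n (.n (.b 2) (.n (.n (.b 2) (.n (.b 4) (.n (.n (.b 2) (.n (.n (.b 2) (.l
  187 6)) (.n (.n (.b 2) (.n (.l 187 6) (.b 6))) (.l 187 6)))) (.n (.n (.b 2) (.n (.l 187 6) (.n
  (.n (.b 2) (.l 214 0)) (.n (.n (.b 2) (.n (.l 89 6) (.n (.l 89 6) (.n (.b 8) (.b 3))))) (.b
  3))))) (.b 3))))) (.n (.n (.b 2) (.n (.n (.b 2) (.n (.b 4) (.n (.l 97 6) (.n (.n (.b 2) (.n (.l
  97 6) (.n (.l 97 6) (.n (.n (.b 2) (.n (.l 97 6) (.n (.n (.b 2) (.n (.l 97 6) (.n (.l 97 6) (.n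
  (.n (.b 2) (.n (.l 21 15) (.n (.n (.b 2) (.l 214 0)) (.l 21 99)))) (.b 3))))) (.l 97 6)))) (.b
  3))))) (.b 3))))) (.n (.n (.b 2) (.b 6)) (.n (.n (.b 2) (.n (.l 97 6) (.n (.n (.b 2) (.n (.l 97
  6) (.n (.l 97 6) (.n (.n (.b 2) (.n (.l 97 6) (.n (.n (.b 2) (.n (.l 97 6) (.n (.l 97 6) (.n (.n
  (.b 2) (.n (.l 21 15) (.n (.n (.b 2) (.n (.l 21 99) (.l 214 0))) (.l 21 15)))) (.b 3))))) (.l 97
  6)))) (.b 3))))) (.l 97 6)))) (.b 3))))) (.n (.n (.b 2) (.n (.n (.b 2) (.n (.b 4) (.n (.n (.b 2)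
  (.n (.l 97 6) (.n (.l 97 6) (.n (.n (.b 2) (.n (.l 97 6) (.n (.n (.b 2) (.n (.l 97 6) (.n (.l 97
  6) (.n (.n (.b 2) (.n (.l 21 15) (.n (.l 21 99) (.n (.l 214 0) (.b 3))))) (.b 3))))) (.l 97
  6)))) (.b 3))))) (.l 97 6)))) (.n (.l 97 6) (.b 8)))) (.b 3))))) (.b 3))))) (.n (.n (.b 2) (.n
  (.n (.b 2) (.n (.b 4) (.n (.n (.b 2) (.n (.n (.b 2) (.n (.b 4) (.n (.n (.b 2) (.l 151 6)) (.n
  (.n (.b 2) (.n (.l 151 6) (.n (.l 151 6) (.n (.n (.b 2) (.n (.l 151 6) (.n (.l 151 6) (.n (.b 8)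
  (.b 3))))) (.b 3))))) (.b 3))))) (.n (.n (.b 2) (.n (.n (.b 2) (.n (.b 4) (.n (.l 180 6) (.n (.n
  (.b 2) (.n (.l 151 6) (.n (.l 112 6) (.n (.n (.b 2) (.n (.n (.b 2) (.n (.b 4) (.n (.l 214 0) (.l
  82 99)))) (.l 107 6))) (.b 3))))) (.b 3))))) (.b 6))) (.n (.n (.b 2) (.n (.l 151 6) (.n (.n (.b
  2) (.n (.l 151 6) (.n (.l 151 6) (.n (.n (.b 2) (.n (.l 151 6) (.n (.l 151 6) (.n (.n (.b 2) (.n
  (.n (.b 2) (.n (.b 4) (.n (.n (.b 2) (.n (.l 75 99) (.l 214 0))) (.l 75 12)))) (.l 75 12))) (.b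
  3))))) (.b 3))))) (.l 151 6)))) (.b 3))))) (.n (.n (.b 2) (.n (.n (.b 2) (.n (.b 4) (.n (.n (.b
  2) (.n (.l 151 6) (.n (.l 151 6) (.n (.n (.b 2) (.n (.l 101 6) (.n (.l 101 6) (.n (.n (.b 2) (.n
  (.n (.b 2) (.n (.b 4) (.n (.l 75 99) (.n (.l 214 0) (.b 3))))) (.l 78 12))) (.b 3))))) (.b
  3))))) (.l 151 6)))) (.n (.n (.b 2) (.n (.l 151 6) (.n (.l 151 6) (.n (.n (.b 2) (.n (.l 151 6)
  (.n (.l 151 6) (.n (.n (.b 2) (.n (.l 151 6) (.n (.l 151 6) (.b 8)))) (.b 3))))) (.b 3))))) (.n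
  (.n (.b 2) (.n (.n (.b 2) (.n (.b 4) (.n (.l 151 6) (.n (.n (.b 2) (.n (.l 151 6) (.n (.l 97 6)
  (.n (.n (.b 2) (.n (.n (.b 2) (.n (.b 4) (.n (.l 57 6) (.n (.n (.b 2) (.l 214 0)) (.b 3))))) (.l
  97 6))) (.b 3))))) (.b 3))))) (.l 151 6))) (.b 3))))) (.b 3))))) (.n (.n (.b 2) (.n (.n (.b 2)
  (.n (.b 4) (.n (.n (.b 2) (.n (.l 75 12) (.n (.l 75 12) (.n (.n (.b 2) (.n (.l 75 12) (.b 12)))
  (.b 3))))) (.n (.n (.b 2) (.n (.n (.b 2) (.n (.b 4) (.n (.l 75 12) (.n (.n (.b 2) (.n (.l 75 12)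
  (.n (.l 51 15) (.n (.n (.b 2) (.n (.l 21 99) (.n (.n (.b 2) (.n (.n (.b 2) (.l 214 0)) (.l 82
  99))) (.l 21 99)))) (.b 3))))) (.b 3))))) (.l 75 12))) (.b 3))))) (.n (.n (.b 2) (.b 6)) (.n (.n
  (.b 2) (.n (.n (.b 2) (.n (.b 4) (.n (.l 75 12) (.n (.n (.b 2) (.n (.l 75 12) (.n (.l 75 12) (.n
  (.n (.b 2) (.n (.l 75 12) (.n (.l 75 12) (.n (.b 8) (.b 3))))) (.b 3))))) (.b 3))))) (.n (.n (.b
  2) (.n (.n (.b 2) (.n (.b 4) (.n (.l 31 12) (.n (.n (.b 2) (.n (.l 31 12) (.n (.l 31 12) (.n (.n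
  (.b 2) (.n (.l 31 12) (.n (.n (.b 2) (.n (.l 82 99) (.n (.l 82 99) (.n (.l 214 0) (.b 3))))) (.l
  31 99)))) (.b 3))))) (.b 3))))) (.l 75 12))) (.l 75 12)))) (.b 3))))) (.n (.n (.b 2) (.b 8)) (.b
  3))))) (.b 3)))

/-- A subtree of the table. -/
def s6 : T :=
  (.b 3)

/-- A subtree of the table. -/
def s7 : T :=
  (.b 2)

/-- A subtree of the table. -/
def s8 : T :=
  (.n (.b 2) (.n (.b 4) (.n (.n (.b 2) (.n (.n (.b 2) (.n (.b 4) (.n (.n (.b 2) (.n (.n (.b 2) (.n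
  (.b 4) (.n (.n (.b 2) (.n (.n (.b 2) (.n (.b 4) (.n (.n (.b 2) (.n (.n (.b 2) (.n (.b 4) (.l 214
  0))) (.l 106 9))) (.l 147 9)))) (.n (.n (.b 2) (.n (.l 136 9) (.b 6))) (.l 136 9)))) (.n (.n (.b
  2) (.l 144 9)) (.b 3))))) (.n (.n (.b 2) (.n (.n (.b 2) (.n (.b 4) (.l 136 9))) (.b 6))) (.n (.n
  (.b 2) (.n (.n (.b 2) (.l 136 9)) (.n (.n (.b 2) (.l 136 9)) (.n (.l 136 9) (.b 3))))) (.b
  3))))) (.n (.n (.b 2) (.n (.n (.b 2) (.n (.b 4) (.n (.n (.b 2) (.l 214 0)) (.n (.l 87 12) (.b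
  3))))) (.n (.n (.b 2) (.n (.n (.b 2) (.n (.b 4) (.l 141 9))) (.n (.n (.b 2) (.b 6)) (.n (.l 141
  9) (.b 3))))) (.n (.n (.b 2) (.n (.n (.b 2) (.l 141 9)) (.n (.l 141 9) (.n (.b 8) (.b 3))))) (.b
  3))))) (.b 3))))) (.n (.n (.b 2) (.n (.n (.b 2) (.n (.b 4) (.n (.n (.b 2) (.n (.n (.b 2) (.n (.b
  4) (.l 166 9))) (.n (.n (.b 2) (.n (.n (.b 2) (.n (.b 4) (.n (.n (.b 2) (.n (.l 129 9) (.n (.n
  (.b 2) (.n (.l 214 0) (.b 6))) (.l 129 9)))) (.l 183 9)))) (.b 6))) (.n (.n (.b 2) (.l 166 9))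
  (.b 3))))) (.n (.n (.b 2) (.n (.n (.b 2) (.l 163 9)) (.n (.l 163 9) (.n (.n (.b 2) (.n (.n (.b
  2) (.n (.b 4) (.n (.n (.b 2) (.n (.l 163 9) (.n (.n (.b 2) (.n (.n (.b 2) (.n (.b 4) (.l 214
  0))) (.b 6))) (.l 109 11)))) (.l 163 9)))) (.l 163 9))) (.b 3))))) (.b 3))))) (.b 6))) (.n (.n
  (.b 2) (.n (.n (.b 2) (.n (.b 4) (.n (.n (.b 2) (.n (.n (.b 2) (.l 125 9)) (.n (.l 125 9) (.n
  (.n (.b 2) (.n (.n (.b 2) (.n (.b 4) (.n (.n (.b 2) (.n (.l 97 13) (.n (.l 49 14) (.n (.n (.b 2)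
  (.n (.n (.b 2) (.l 214 0)) (.l 31 14))) (.b 3))))) (.l 129 9)))) (.l 125 9))) (.b 3))))) (.n (.n
  (.b 2) (.n (.l 125 9) (.n (.l 125 9) (.n (.l 125 9) (.b 3))))) (.b 3))))) (.n (.n (.b 2) (.n (.n
  (.b 2) (.n (.b 4) (.n (.n (.b 2) (.l 214 0)) (.n (.l 193 2) (.b 3))))) (.n (.n (.b 2) (.b 6))
  (.n (.n (.b 2) (.n (.l 193 5) (.n (.l 193 5) (.n (.n (.b 2) (.n (.n (.b 2) (.n (.b 4) (.n (.n
  (.b 2) (.n (.l 193 5) (.n (.l 193 5) (.n (.n (.b 2) (.n (.l 129 5) (.n (.n (.b 2) (.n (.l 126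
  99) (.l 214 0))) (.l 126 5)))) (.b 3))))) (.l 193 5)))) (.l 193 5))) (.b 3))))) (.b 3))))) (.n
  (.n (.b 2) (.n (.n (.b 2) (.n (.b 4) (.n (.l 118 9) (.n (.n (.b 2) (.n (.n (.b 2) (.n (.b 4) (.n
  (.n (.b 2) (.n (.l 97 9) (.n (.l 88 9) (.n (.n (.b 2) (.n (.l 31 14) (.n (.l 31 99) (.n (.l 214
  0) (.b 3))))) (.b 3))))) (.l 97 9)))) (.l 85 9))) (.b 3))))) (.n (.n (.b 2) (.n (.l 118 9) (.n
  (.l 118 9) (.n (.l 118 9) (.b 3))))) (.b 8)))) (.b 3))))) (.b 3))))) (.n (.n (.b 2) (.n (.n (.b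
  2) (.n (.b 4) (.n (.n (.b 2) (.n (.n (.b 2) (.n (.b 4) (.n (.n (.b 2) (.l 77 9)) (.n (.l 214 0)
  (.b 3))))) (.n (.n (.b 2) (.n (.n (.b 2) (.n (.b 4) (.l 175 9))) (.b 6))) (.n (.n (.b 2) (.n (.n
  (.b 2) (.l 175 9)) (.n (.l 175 9) (.n (.n (.b 2) (.n (.n (.b 2) (.n (.b 4) (.n (.l 154 9) (.n
  (.n (.b 2) (.n (.n (.b 2) (.n (.b 4) (.n (.n (.b 2) (.n (.l 147 99) (.l 214 0))) (.l 147 12))))
  (.l 77 12))) (.b 3))))) (.l 157 9))) (.b 3))))) (.b 3))))) (.n (.n (.b 2) (.n (.n (.b 2) (.n (.b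
  4) (.n (.l 105 9) (.n (.n (.b 2) (.n (.n (.b 2) (.n (.b 4) (.n (.l 103 9) (.n (.n (.b 2) (.n (.n
  (.b 2) (.n (.b 4) (.n (.l 49 12) (.n (.l 214 0) (.b 3))))) (.l 118 9))) (.b 3))))) (.l 120 9)))
  (.b 3))))) (.n (.n (.b 2) (.n (.l 122 9) (.n (.l 122 9) (.n (.l 122 9) (.b 3))))) (.n (.n (.b 2)
  (.n (.l 122 9) (.n (.n (.b 2) (.n (.n (.b 2) (.n (.b 4) (.n (.l 92 9) (.n (.n (.b 2) (.n (.n (.b
  2) (.n (.b 4) (.n (.l 80 9) (.n (.n (.b 2) (.l 214 0)) (.b 3))))) (.l 92 9))) (.b 3))))) (.l 122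
  9))) (.l 122 9)))) (.b 3))))) (.b 3))))) (.n (.n (.b 2) (.n (.n (.b 2) (.n (.b 4) (.n (.n (.b 2)
  (.n (.n (.b 2) (.l 138 9)) (.n (.n (.b 2) (.l 138 9)) (.n (.l 138 9) (.b 3))))) (.n (.n (.b 2)
  (.n (.l 138 9) (.n (.n (.b 2) (.n (.n (.b 2) (.n (.b 4) (.n (.l 138 9) (.n (.n (.b 2) (.n (.l 94
  9) (.n (.n (.b 2) (.n (.n (.b 2) (.l 214 0)) (.l 94 9))) (.l 94 9)))) (.b 3))))) (.l 138 9)))
  (.n (.l 138 9) (.b 3))))) (.b 3))))) (.n (.n (.b 2) (.b 6)) (.n (.n (.b 2) (.n (.n (.b 2) (.n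
  (.b 4) (.n (.l 181 12) (.n (.n (.b 2) (.l 214 0)) (.b 3))))) (.n (.n (.b 2) (.n (.l 84 12) (.n
  (.n (.b 2) (.b 6)) (.l 84 12)))) (.n (.n (.b 2) (.n (.l 84 12) (.n (.l 84 12) (.b 8)))) (.b
  3))))) (.b 3))))) (.n (.n (.b 2) (.n (.n (.b 2) (.n (.b 4) (.n (.n (.b 2) (.n (.l 138 9) (.n (.n
  (.b 2) (.n (.n (.b 2) (.n (.b 4) (.n (.l 184 9) (.n (.n (.b 2) (.n (.l 138 9) (.n (.l 94 9) (.n
  (.n (.b 2) (.n (.l 214 0) (.l 94 99))) (.b 3))))) (.b 3))))) (.b 6))) (.n (.l 138 9) (.b 3)))))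
  (.n (.n (.b 2) (.n (.l 138 9) (.n (.l 138 9) (.n (.n (.b 2) (.n (.n (.b 2) (.n (.b 4) (.n (.l
  138 9) (.n (.n (.b 2) (.n (.l 138 9) (.n (.l 84 12) (.n (.n (.b 2) (.n (.n (.b 2) (.n (.b 4) (.l
  214 0))) (.l 84 12))) (.b 3))))) (.b 3))))) (.l 138 9))) (.b 3))))) (.b 3))))) (.n (.n (.b 2)
  (.n (.n (.b 2) (.n (.b 4) (.n (.l 138 9) (.n (.n (.b 2) (.n (.n (.b 2) (.n (.b 4) (.n (.l 138 9)
  (.n (.n (.b 2) (.n (.l 138 9) (.n (.l 114 12) (.n (.n (.b 2) (.n (.l 84 99) (.n (.l 214 0) (.l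
  84 99)))) (.b 3))))) (.b 3))))) (.l 138 9))) (.b 3))))) (.n (.n (.b 2) (.b 6)) (.n (.n (.b 2)
  (.n (.l 138 9) (.n (.n (.b 2) (.n (.n (.b 2) (.n (.b 4) (.n (.l 94 9) (.n (.n (.b 2) (.n (.l 94
  9) (.n (.l 94 9) (.n (.n (.b 2) (.n (.l 94 9) (.n (.n (.b 2) (.l 214 0)) (.l 94 99)))) (.b
  3))))) (.b 3))))) (.l 138 9))) (.l 138 9)))) (.b 3))))) (.n (.b 8) (.b 3))))) (.b 3))))) (.b
  3)))))

/-- A subtree of the table. -/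
def s9 : T :=
  (.n (.b 2) (.n (.n (.b 2) (.n (.b 4) (.n (.n (.b 2) (.n (.n (.b 2) (.n (.b 4) (.n (.n (.b 2) (.n
  (.n (.b 2) (.n (.b 4) (.n (.n (.b 2) (.n (.n (.b 2) (.n (.b 4) (.n (.n (.b 2) (.l 115 9)) (.l
  213 9)))) (.n (.n (.b 2) (.n (.l 145 9) (.b 6))) (.l 145 9)))) (.l 153 9)))) (.n (.n (.b 2) (.n
  (.l 145 9) (.b 6))) (.n (.n (.b 2) (.l 145 9)) (.b 3))))) (.n (.n (.b 2) (.n (.n (.b 2) (.n (.b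
  4) (.l 150 9))) (.n (.n (.b 2) (.n (.n (.b 2) (.n (.b 4) (.l 150 9))) (.n (.n (.b 2) (.b 6)) (.l
  150 9)))) (.n (.l 150 9) (.b 3))))) (.b 3))))) (.n (.n (.b 2) (.n (.n (.b 2) (.n (.b 4) (.n (.n
  (.b 2) (.n (.n (.b 2) (.n (.b 4) (.l 148 8))) (.n (.n (.b 2) (.n (.n (.b 2) (.n (.b 4) (.n (.n
  (.b 2) (.n (.l 94 11) (.l 94 11))) (.l 192 8)))) (.b 6))) (.l 148 8)))) (.n (.n (.b 2) (.l 172
  8)) (.b 3))))) (.b 6))) (.n (.n (.b 2) (.n (.n (.b 2) (.n (.b 4) (.n (.n (.b 2) (.l 94 11)) (.n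
  (.n (.b 2) (.l 94 11)) (.b 3))))) (.n (.n (.b 2) (.n (.n (.b 2) (.l 94 11)) (.n (.n (.b 2) (.b
  6)) (.n (.l 189 2) (.b 3))))) (.n (.n (.b 2) (.n (.l 94 11) (.n (.l 94 11) (.b 8)))) (.b 3)))))
  (.b 3))))) (.n (.n (.b 2) (.n (.n (.b 2) (.n (.b 4) (.n (.n (.b 2) (.n (.n (.b 2) (.n (.b 4) (.b
  11))) (.n (.n (.b 2) (.n (.n (.b 2) (.n (.b 4) (.l 210 9))) (.b 6))) (.n (.l 210 9) (.b 3)))))
  (.n (.n (.b 2) (.n (.n (.b 2) (.l 112 9)) (.n (.n (.b 2) (.l 112 9)) (.n (.n (.b 2) (.n (.l 112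
  9) (.n (.n (.b 2) (.n (.n (.b 2) (.n (.b 4) (.n (.l 58 14) (.n (.n (.b 2) (.n (.n (.b 2) (.n (.b
  4) (.l 45 14))) (.l 58 14))) (.b 3))))) (.l 112 9))) (.l 112 9)))) (.b 3))))) (.b 3))))) (.n (.n
  (.b 2) (.n (.n (.b 2) (.n (.b 4) (.n (.n (.b 2) (.l 147 9)) (.n (.n (.b 2) (.n (.l 147 9) (.n
  (.n (.b 2) (.n (.n (.b 2) (.n (.b 4) (.n (.l 147 9) (.n (.n (.b 2) (.n (.l 99 11) (.n (.l 99 11)
  (.l 99 11)))) (.b 3))))) (.l 147 9))) (.l 147 9)))) (.b 3))))) (.n (.n (.b 2) (.b 6)) (.n (.n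
  (.b 2) (.n (.n (.b 2) (.l 147 9)) (.n (.n (.b 2) (.n (.l 147 9) (.n (.n (.b 2) (.b 6)) (.l 147
  9)))) (.l 147 9)))) (.b 3))))) (.n (.n (.b 2) (.n (.n (.b 2) (.n (.b 4) (.n (.n (.b 2) (.n (.l
  147 9) (.n (.n (.b 2) (.n (.n (.b 2) (.n (.b 4) (.n (.l 193 9) (.n (.n (.b 2) (.n (.l 147 9) (.n
  (.l 99 11) (.l 99 11)))) (.b 3))))) (.b 6))) (.l 147 9)))) (.n (.l 147 9) (.b 3))))) (.n (.n (.b
  2) (.n (.l 147 9) (.n (.l 147 9) (.n (.n (.b 2) (.n (.l 147 9) (.n (.n (.b 2) (.n (.n (.b 2) (.n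
  (.b 4) (.n (.l 99 11) (.n (.n (.b 2) (.n (.l 99 11) (.n (.l 99 11) (.n (.n (.b 2) (.l 99 11))
  (.b 3))))) (.b 3))))) (.l 147 9))) (.l 147 9)))) (.b 3))))) (.n (.b 8) (.b 3))))) (.b 3))))) (.b
  3))))) (.n (.n (.b 2) (.n (.n (.b 2) (.n (.b 4) (.n (.n (.b 2) (.n (.n (.b 2) (.n (.b 4) (.n (.n
  (.b 2) (.l 124 11)) (.n (.n (.b 2) (.n (.n (.b 2) (.n (.b 4) (.l 124 11))) (.l 124 11))) (.b
  3))))) (.n (.n (.b 2) (.n (.n (.b 2) (.n (.b 4) (.n (.n (.b 2) (.n (.l 87 11) (.n (.n (.b 2) (.n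
  (.n (.b 2) (.n (.b 4) (.l 214 0))) (.b 6))) (.l 87 11)))) (.l 141 11)))) (.b 6))) (.n (.n (.b 2)
  (.n (.n (.b 2) (.l 124 11)) (.l 124 11))) (.b 3))))) (.n (.n (.b 2) (.n (.n (.b 2) (.n (.b 4)
  (.n (.n (.b 2) (.n (.n (.b 2) (.n (.b 4) (.b 11))) (.l 121 11))) (.l 121 11)))) (.n (.n (.b 2)
  (.n (.l 121 11) (.n (.n (.b 2) (.b 6)) (.l 121 11)))) (.n (.n (.b 2) (.n (.n (.b 2) (.n (.b 4)
  (.n (.n (.b 2) (.n (.l 121 11) (.n (.n (.b 2) (.n (.n (.b 2) (.n (.b 4) (.n (.l 172 99) (.n (.l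
  214 0) (.b 3))))) (.b 6))) (.l 67 13)))) (.l 121 11)))) (.l 121 11))) (.b 3))))) (.b 3))))) (.b
  6))) (.n (.n (.b 2) (.n (.n (.b 2) (.n (.b 4) (.n (.n (.b 2) (.n (.n (.b 2) (.n (.b 4) (.n (.n
  (.b 2) (.n (.n (.b 2) (.n (.b 4) (.l 181 2))) (.n (.n (.b 2) (.n (.l 181 2) (.b 6))) (.l 181
  2)))) (.n (.l 181 2) (.b 3))))) (.n (.n (.b 2) (.n (.n (.b 2) (.l 181 2)) (.b 6))) (.n (.n (.b
  2) (.n (.n (.b 2) (.n (.b 4) (.n (.n (.b 2) (.n (.l 153 2) (.n (.l 105 2) (.n (.n (.b 2) (.n (.n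
  (.b 2) (.n (.b 4) (.n (.l 193 2) (.l 193 2)))) (.l 87 2))) (.b 3))))) (.l 185 2)))) (.n (.l 181
  2) (.n (.l 181 2) (.b 3))))) (.b 3))))) (.n (.n (.b 2) (.n (.n (.b 2) (.n (.b 4) (.n (.l 181 2)
  (.n (.l 181 2) (.b 3))))) (.n (.n (.b 2) (.n (.n (.b 2) (.l 181 2)) (.n (.n (.b 2) (.b 6)) (.n
  (.l 83 11) (.b 3))))) (.n (.n (.b 2) (.n (.l 173 2) (.n (.l 173 2) (.n (.b 8) (.b 3))))) (.b
  3))))) (.b 3))))) (.n (.n (.b 2) (.n (.n (.b 2) (.n (.b 4) (.n (.n (.b 2) (.n (.n (.b 2) (.l 214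
  2)) (.n (.n (.b 2) (.n (.l 214 1) (.b 6))) (.n (.b 12) (.b 3))))) (.n (.n (.b 2) (.n (.l 214 2)
  (.n (.l 214 2) (.n (.n (.b 2) (.n (.l 214 2) (.n (.n (.b 2) (.n (.l 214 2) (.n (.l 214 2) (.n
  (.n (.b 2) (.n (.l 154 2) (.n (.n (.b 2) (.n (.n (.b 2) (.n (.b 4) (.l 151 4))) (.l 214 2))) (.l
  154 2)))) (.b 3))))) (.l 214 2)))) (.b 3))))) (.b 3))))) (.n (.n (.b 2) (.b 6)) (.n (.n (.b 2)
  (.n (.n (.b 2) (.n (.b 4) (.n (.n (.b 2) (.n (.l 214 2) (.n (.n (.b 2) (.n (.l 214 2) (.b 6)))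
  (.l 214 2)))) (.l 214 2)))) (.n (.n (.b 2) (.n (.l 214 2) (.n (.l 214 2) (.n (.n (.b 2) (.n (.l
  214 2) (.n (.n (.b 2) (.n (.l 214 2) (.n (.l 214 2) (.n (.n (.b 2) (.n (.l 154 2) (.n (.n (.b 2)
  (.n (.l 154 2) (.n (.l 214 2) (.n (.n (.b 2) (.l 151 7)) (.b 3))))) (.l 154 2)))) (.b 3))))) (.l
  214 2)))) (.b 3))))) (.n (.n (.b 2) (.n (.n (.b 2) (.n (.b 4) (.n (.n (.b 2) (.n (.l 214 2) (.n
  (.l 214 2) (.n (.n (.b 2) (.n (.l 185 2) (.n (.n (.b 2) (.n (.l 174 2) (.n (.l 132 2) (.n (.l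
  132 2) (.b 3))))) (.l 182 2)))) (.b 3))))) (.l 214 2)))) (.l 214 2))) (.b 3))))) (.b 3))))) (.n
  (.n (.b 2) (.n (.n (.b 2) (.n (.b 4) (.n (.n (.b 2) (.n (.l 166 2) (.n (.l 166 2) (.n (.n (.b 2)
  (.n (.l 166 2) (.n (.n (.b 2) (.n (.l 166 2) (.n (.l 166 2) (.n (.n (.b 2) (.n (.l 154 2) (.n
  (.l 154 2) (.n (.n (.b 2) (.n (.n (.b 2) (.l 76 11)) (.l 76 11))) (.b 3))))) (.b 3))))) (.l 166
  2)))) (.b 3))))) (.n (.n (.b 2) (.n (.n (.b 2) (.n (.b 4) (.n (.n (.b 2) (.n (.l 153 2) (.n (.l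
  144 2) (.n (.n (.b 2) (.n (.l 87 2) (.n (.l 87 2) (.n (.n (.b 2) (.n (.l 132 2) (.l 132 2))) (.b
  3))))) (.b 3))))) (.l 153 2)))) (.l 141 2))) (.b 3))))) (.n (.n (.b 2) (.n (.n (.b 2) (.n (.b 4)
  (.n (.l 166 2) (.n (.l 166 2) (.b 3))))) (.n (.n (.b 2) (.b 6)) (.n (.l 166 2) (.b 3))))) (.b
  8)))) (.b 3))))) (.b 3)))))

/-- A subtree of the table. -/
def s10 : T :=
  (.n (.n (.b 2) (.n (.n (.b 2) (.n (.b 4) (.n (.n (.b 2) (.n (.n (.b 2) (.n (.b 4) (.n (.n (.b 2)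
  (.n (.n (.b 2) (.n (.b 4) (.l 133 5))) (.n (.n (.b 2) (.n (.n (.b 2) (.n (.b 4) (.l 133 5))) (.b
  6))) (.n (.l 133 5) (.b 3))))) (.n (.n (.b 2) (.n (.n (.b 2) (.b 11)) (.n (.n (.b 2) (.l 172 5))
  (.n (.n (.b 2) (.n (.l 172 5) (.n (.l 172 5) (.n (.b 8) (.b 3))))) (.b 3))))) (.b 3))))) (.n (.n
  (.b 2) (.n (.n (.b 2) (.n (.b 4) (.n (.n (.b 2) (.l 214 5)) (.n (.n (.b 2) (.n (.l 209 5) (.n
  (.l 209 5) (.n (.n (.b 2) (.n (.n (.b 2) (.n (.b 4) (.n (.n (.b 2) (.n (.l 209 5) (.n (.l 133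
  11) (.l 133 11)))) (.l 209 5)))) (.l 209 5))) (.b 3))))) (.b 3))))) (.b 6))) (.n (.n (.b 2) (.n
  (.n (.b 2) (.n (.b 4) (.n (.n (.b 2) (.n (.l 209 5) (.n (.l 209 5) (.n (.n (.b 2) (.n (.n (.b 2)
  (.n (.b 4) (.n (.n (.b 2) (.n (.l 181 9) (.n (.l 133 11) (.l 133 11)))) (.l 214 5)))) (.l 209
  5))) (.b 3))))) (.n (.l 209 5) (.b 3))))) (.n (.n (.b 2) (.n (.l 209 5) (.n (.l 209 5) (.n (.n
  (.b 2) (.n (.l 209 5) (.n (.l 209 5) (.n (.n (.b 2) (.n (.n (.b 2) (.n (.b 4) (.n (.n (.b 2) (.n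
  (.l 208 5) (.n (.l 209 5) (.n (.n (.b 2) (.l 133 11)) (.b 3))))) (.l 208 5)))) (.l 208 5))) (.b
  3))))) (.b 3))))) (.n (.n (.b 2) (.n (.n (.b 2) (.n (.b 4) (.n (.l 202 5) (.n (.n (.b 2) (.n (.n
  (.b 2) (.n (.b 4) (.n (.n (.b 2) (.n (.l 181 5) (.n (.l 172 5) (.n (.l 172 5) (.b 3))))) (.l 181
  5)))) (.l 133 5))) (.b 3))))) (.l 202 5))) (.b 3))))) (.b 3))))) (.n (.n (.b 2) (.n (.n (.b 2)
  (.n (.b 4) (.n (.n (.b 2) (.n (.n (.b 2) (.l 161 5)) (.n (.n (.b 2) (.l 161 5)) (.n (.n (.b 2)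
  (.n (.l 161 5) (.n (.l 161 5) (.n (.n (.b 2) (.n (.n (.b 2) (.n (.b 4) (.n (.l 140 5) (.n (.n
  (.b 2) (.n (.n (.b 2) (.l 63 11)) (.l 63 11))) (.b 3))))) (.l 143 5))) (.b 3))))) (.b 3))))) (.n
  (.n (.b 2) (.n (.n (.b 2) (.n (.b 4) (.n (.l 159 5) (.n (.n (.b 2) (.n (.n (.b 2) (.n (.b 4) (.n
  (.l 105 5) (.n (.n (.b 2) (.n (.l 172 5) (.l 172 5))) (.b 3))))) (.l 174 5))) (.b 3))))) (.n (.l
  176 5) (.n (.l 176 5) (.b 3))))) (.b 3))))) (.n (.n (.b 2) (.n (.n (.b 2) (.n (.b 4) (.n (.l 178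
  5) (.n (.l 178 5) (.b 3))))) (.n (.n (.b 2) (.b 6)) (.n (.n (.b 2) (.n (.n (.b 2) (.l 80 11))
  (.n (.l 128 9) (.n (.n (.b 2) (.n (.l 128 9) (.n (.l 128 9) (.b 8)))) (.b 3))))) (.b 3))))) (.n
  (.n (.b 2) (.n (.n (.b 2) (.n (.b 4) (.n (.l 178 5) (.n (.n (.b 2) (.n (.l 178 5) (.n (.l 162 5)
  (.n (.n (.b 2) (.n (.n (.b 2) (.n (.b 4) (.n (.l 156 5) (.n (.n (.b 2) (.n (.l 156 5) (.n (.l 80
  11) (.n (.l 80 11) (.b 3))))) (.b 3))))) (.l 162 5))) (.b 3))))) (.b 3))))) (.n (.n (.b 2) (.n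
  (.n (.b 2) (.n (.b 4) (.n (.l 148 5) (.n (.n (.b 2) (.n (.n (.b 2) (.n (.b 4) (.n (.l 136 5) (.n
  (.n (.b 2) (.n (.l 168 5) (.n (.l 168 5) (.l 168 5)))) (.b 3))))) (.l 148 5))) (.b 3))))) (.l
  178 5))) (.n (.b 8) (.b 3))))) (.b 3))))) (.b 3))))) (.n (.n (.b 2) (.n (.n (.b 2) (.n (.b 4)
  (.n (.n (.b 2) (.n (.n (.b 2) (.n (.b 4) (.n (.n (.b 2) (.l 172 5)) (.n (.n (.b 2) (.l 172 5))
  (.b 3))))) (.n (.n (.b 2) (.n (.n (.b 2) (.l 176 4)) (.b 6))) (.n (.n (.b 2) (.n (.l 96 11) (.l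
  96 11))) (.b 3))))) (.n (.n (.b 2) (.n (.n (.b 2) (.n (.b 4) (.n (.n (.b 2) (.l 172 5)) (.n (.n
  (.b 2) (.n (.l 172 5) (.n (.l 172 5) (.n (.n (.b 2) (.n (.l 154 5) (.n (.n (.b 2) (.n (.n (.b 2)
  (.n (.b 4) (.n (.l 96 11) (.n (.l 96 11) (.b 3))))) (.l 172 5))) (.l 154 5)))) (.b 3))))) (.b
  3))))) (.n (.n (.b 2) (.n (.n (.b 2) (.n (.b 4) (.n (.l 172 5) (.n (.n (.b 2) (.n (.l 140 5) (.n
  (.n (.b 2) (.n (.n (.b 2) (.n (.b 4) (.n (.l 110 5) (.l 110 5)))) (.l 140 5))) (.l 140 5)))) (.b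
  3))))) (.n (.l 172 5) (.n (.l 172 5) (.b 3))))) (.n (.n (.b 2) (.n (.l 172 5) (.n (.n (.b 2) (.n
  (.l 172 5) (.n (.l 172 5) (.n (.n (.b 2) (.n (.l 172 5) (.n (.n (.b 2) (.n (.n (.b 2) (.n (.b 4)
  (.n (.l 96 11) (.n (.n (.b 2) (.l 96 11)) (.b 3))))) (.l 172 5))) (.l 172 5)))) (.b 3))))) (.l
  172 5)))) (.b 3))))) (.b 3))))) (.n (.n (.b 2) (.b 6)) (.n (.n (.b 2) (.n (.n (.b 2) (.n (.b 4)
  (.n (.n (.b 2) (.n (.n (.b 2) (.l 208 5)) (.n (.n (.b 2) (.n (.l 208 5) (.b 6))) (.l 208 5))))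
  (.n (.n (.b 2) (.n (.l 208 5) (.n (.l 110 5) (.n (.n (.b 2) (.n (.l 110 5) (.n (.l 110 5) (.n
  (.b 8) (.b 3))))) (.b 3))))) (.b 3))))) (.n (.n (.b 2) (.n (.n (.b 2) (.n (.b 4) (.n (.l 118 5)
  (.n (.n (.b 2) (.n (.l 118 5) (.n (.l 118 5) (.n (.n (.b 2) (.n (.l 118 5) (.n (.n (.b 2) (.n
  (.l 118 5) (.n (.l 118 5) (.n (.n (.b 2) (.n (.l 42 14) (.n (.l 42 14) (.l 42 14)))) (.b 3)))))
  (.l 118 5)))) (.b 3))))) (.b 3))))) (.n (.n (.b 2) (.b 6)) (.n (.n (.b 2) (.n (.l 118 5) (.n (.n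
  (.b 2) (.n (.l 118 5) (.n (.l 118 5) (.n (.n (.b 2) (.n (.l 118 5) (.n (.n (.b 2) (.n (.l 118 5)
  (.n (.l 118 5) (.n (.n (.b 2) (.n (.l 42 14) (.n (.n (.b 2) (.l 42 14)) (.l 42 14)))) (.b 3)))))
  (.l 118 5)))) (.b 3))))) (.l 118 5)))) (.b 3))))) (.n (.n (.b 2) (.n (.n (.b 2) (.n (.b 4) (.n
  (.n (.b 2) (.n (.l 118 5) (.n (.l 118 5) (.n (.n (.b 2) (.n (.l 118 5) (.n (.n (.b 2) (.n (.l
  118 5) (.n (.l 118 5) (.n (.n (.b 2) (.n (.l 42 14) (.n (.l 42 14) (.l 42 14)))) (.b 3))))) (.l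
  118 5)))) (.b 3))))) (.l 118 5)))) (.n (.l 118 5) (.b 8)))) (.b 3))))) (.b 3))))) (.n (.n (.b 2)
  (.n (.n (.b 2) (.n (.b 4) (.n (.n (.b 2) (.n (.n (.b 2) (.n (.b 4) (.n (.n (.b 2) (.l 172 5))
  (.n (.n (.b 2) (.n (.l 172 5) (.n (.l 172 5) (.n (.n (.b 2) (.n (.l 172 5) (.n (.l 172 5) (.n
  (.b 8) (.b 3))))) (.b 3))))) (.b 3))))) (.n (.n (.b 2) (.n (.n (.b 2) (.n (.b 4) (.n (.l 201 5)
  (.n (.n (.b 2) (.n (.l 172 5) (.n (.l 133 5) (.n (.n (.b 2) (.n (.n (.b 2) (.n (.b 4) (.l 103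
  5))) (.l 128 5))) (.b 3))))) (.b 3))))) (.b 6))) (.n (.n (.b 2) (.n (.l 172 5) (.n (.n (.b 2)
  (.n (.l 172 5) (.n (.l 172 5) (.n (.n (.b 2) (.n (.l 172 5) (.n (.l 172 5) (.n (.n (.b 2) (.n
  (.n (.b 2) (.n (.b 4) (.n (.n (.b 2) (.l 96 11)) (.l 96 11)))) (.l 96 11))) (.b 3))))) (.b
  3))))) (.l 172 5)))) (.b 3))))) (.n (.n (.b 2) (.n (.n (.b 2) (.n (.b 4) (.n (.n (.b 2) (.n (.l
  172 5) (.n (.l 172 5) (.n (.n (.b 2) (.n (.l 122 5) (.n (.l 122 5) (.n (.n (.b 2) (.n (.n (.b 2)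
  (.n (.b 4) (.n (.l 96 11) (.l 96 11)))) (.l 99 11))) (.b 3))))) (.b 3))))) (.l 172 5)))) (.n (.n
  (.b 2) (.n (.l 172 5) (.n (.l 172 5) (.n (.n (.b 2) (.n (.l 172 5) (.n (.l 172 5) (.n (.n (.b 2)
  (.n (.l 172 5) (.n (.l 172 5) (.b 8)))) (.b 3))))) (.b 3))))) (.n (.n (.b 2) (.n (.n (.b 2) (.n
  (.b 4) (.n (.l 172 5) (.n (.n (.b 2) (.n (.l 172 5) (.n (.l 118 5) (.n (.n (.b 2) (.n (.n (.b 2)
  (.n (.b 4) (.n (.l 78 5) (.n (.l 78 5) (.b 3))))) (.l 118 5))) (.b 3))))) (.b 3))))) (.l 172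
  5))) (.b 3))))) (.b 3))))) (.n (.n (.b 2) (.n (.n (.b 2) (.n (.b 4) (.n (.n (.b 2) (.n (.l 96
  11) (.n (.l 96 11) (.n (.n (.b 2) (.n (.l 96 11) (.b 12))) (.b 3))))) (.n (.n (.b 2) (.n (.n (.b
  2) (.n (.b 4) (.n (.l 96 11) (.n (.n (.b 2) (.n (.l 96 11) (.n (.l 72 14) (.n (.n (.b 2) (.n (.l
  42 99) (.n (.n (.b 2) (.n (.l 103 99) (.l 103 99))) (.l 42 99)))) (.b 3))))) (.b 3))))) (.l 96
  11))) (.b 3))))) (.n (.n (.b 2) (.b 6)) (.n (.n (.b 2) (.n (.n (.b 2) (.n (.b 4) (.n (.l 96 11)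
  (.n (.n (.b 2) (.n (.l 96 11) (.n (.l 96 11) (.n (.n (.b 2) (.n (.l 96 11) (.n (.l 96 11) (.n
  (.b 8) (.b 3))))) (.b 3))))) (.b 3))))) (.n (.n (.b 2) (.n (.n (.b 2) (.n (.b 4) (.n (.l 52 11)
  (.n (.n (.b 2) (.n (.l 52 11) (.n (.l 52 11) (.n (.n (.b 2) (.n (.l 52 11) (.n (.n (.b 2) (.n
  (.l 103 99) (.n (.l 103 99) (.l 103 99)))) (.l 52 99)))) (.b 3))))) (.b 3))))) (.l 96 11))) (.l
  96 11)))) (.b 3))))) (.n (.b 8) (.b 3))))) (.b 3))))) (.b 3))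

/-- A subtree of the table. -/
def s11 : T :=
  (.b 2)

/-- A subtree of the table. -/
def s12 : T :=
  (.n (.b 2) (.n (.b 4) (.n (.n (.b 2) (.n (.n (.b 2) (.n (.b 4) (.n (.n (.b 2) (.n (.n (.b 2) (.n
  (.b 4) (.n (.n (.b 2) (.n (.n (.b 2) (.n (.b 4) (.n (.n (.b 2) (.n (.n (.b 2) (.l 70 8)) (.l 127
  8))) (.l 168 8)))) (.n (.n (.b 2) (.n (.l 157 8) (.b 6))) (.l 157 8)))) (.n (.n (.b 2) (.l 165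
  8)) (.b 3))))) (.n (.n (.b 2) (.n (.n (.b 2) (.n (.b 4) (.l 157 8))) (.b 6))) (.n (.n (.b 2) (.n
  (.n (.b 2) (.l 157 8)) (.n (.n (.b 2) (.l 157 8)) (.n (.l 157 8) (.b 3))))) (.b 3))))) (.n (.n
  (.b 2) (.n (.n (.b 2) (.n (.b 4) (.n (.n (.b 2) (.b 11)) (.n (.l 108 11) (.b 3))))) (.n (.n (.b
  2) (.n (.n (.b 2) (.n (.b 4) (.l 162 8))) (.n (.n (.b 2) (.b 6)) (.n (.l 162 8) (.b 3))))) (.n
  (.n (.b 2) (.n (.n (.b 2) (.l 162 8)) (.n (.l 162 8) (.n (.b 8) (.b 3))))) (.b 3))))) (.b 3)))))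
  (.n (.n (.b 2) (.n (.n (.b 2) (.n (.b 4) (.n (.n (.b 2) (.n (.n (.b 2) (.n (.b 4) (.l 187 8)))
  (.n (.n (.b 2) (.n (.n (.b 2) (.n (.b 4) (.n (.n (.b 2) (.n (.l 150 8) (.n (.n (.b 2) (.l 151
  8)) (.l 150 8)))) (.l 204 8)))) (.b 6))) (.n (.n (.b 2) (.l 187 8)) (.b 3))))) (.n (.n (.b 2)
  (.n (.n (.b 2) (.l 184 8)) (.n (.l 184 8) (.n (.n (.b 2) (.n (.n (.b 2) (.n (.b 4) (.n (.n (.b
  2) (.n (.l 184 8) (.n (.n (.b 2) (.n (.n (.b 2) (.l 130 10)) (.b 6))) (.l 130 10)))) (.l 184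
  8)))) (.l 184 8))) (.b 3))))) (.b 3))))) (.b 6))) (.n (.n (.b 2) (.n (.n (.b 2) (.n (.b 4) (.n
  (.n (.b 2) (.n (.n (.b 2) (.l 146 8)) (.n (.l 146 8) (.n (.n (.b 2) (.n (.n (.b 2) (.n (.b 4)
  (.n (.n (.b 2) (.n (.l 118 12) (.n (.l 70 13) (.n (.n (.b 2) (.n (.l 52 13) (.l 52 13))) (.b
  3))))) (.l 150 8)))) (.l 146 8))) (.b 3))))) (.n (.n (.b 2) (.n (.l 146 8) (.n (.l 146 8) (.n
  (.l 146 8) (.b 3))))) (.b 3))))) (.n (.n (.b 2) (.n (.n (.b 2) (.n (.b 4) (.n (.l 146 8) (.n (.l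
  214 1) (.b 3))))) (.n (.n (.b 2) (.b 6)) (.n (.n (.b 2) (.n (.l 214 4) (.n (.l 214 4) (.n (.n
  (.b 2) (.n (.n (.b 2) (.n (.b 4) (.n (.n (.b 2) (.n (.l 214 4) (.n (.l 214 4) (.n (.n (.b 2) (.n
  (.l 150 4) (.n (.n (.b 2) (.l 147 4)) (.l 147 4)))) (.b 3))))) (.l 214 4)))) (.l 214 4))) (.b
  3))))) (.b 3))))) (.n (.n (.b 2) (.n (.n (.b 2) (.n (.b 4) (.n (.l 139 8) (.n (.n (.b 2) (.n (.n
  (.b 2) (.n (.b 4) (.n (.n (.b 2) (.n (.l 118 8) (.n (.l 109 8) (.n (.n (.b 2) (.n (.l 52 13) (.n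
  (.l 52 13) (.l 52 13)))) (.b 3))))) (.l 118 8)))) (.l 106 8))) (.b 3))))) (.n (.n (.b 2) (.n (.l
  139 8) (.n (.l 139 8) (.n (.l 139 8) (.b 3))))) (.b 8)))) (.b 3))))) (.b 3))))) (.n (.n (.b 2)
  (.n (.n (.b 2) (.n (.b 4) (.n (.n (.b 2) (.n (.n (.b 2) (.n (.b 4) (.n (.n (.b 2) (.l 98 8)) (.n
  (.b 11) (.b 3))))) (.n (.n (.b 2) (.n (.n (.b 2) (.n (.b 4) (.l 196 8))) (.b 6))) (.n (.n (.b 2)
  (.n (.n (.b 2) (.l 196 8)) (.n (.l 196 8) (.n (.n (.b 2) (.n (.n (.b 2) (.n (.b 4) (.n (.l 175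
  8) (.n (.n (.b 2) (.n (.n (.b 2) (.n (.b 4) (.n (.n (.b 2) (.l 168 11)) (.l 168 11)))) (.l 98
  11))) (.b 3))))) (.l 178 8))) (.b 3))))) (.b 3))))) (.n (.n (.b 2) (.n (.n (.b 2) (.n (.b 4) (.n
  (.l 126 8) (.n (.n (.b 2) (.n (.n (.b 2) (.n (.b 4) (.n (.l 124 8) (.n (.n (.b 2) (.n (.n (.b 2)
  (.n (.b 4) (.n (.l 70 11) (.l 70 11)))) (.l 139 8))) (.b 3))))) (.l 141 8))) (.b 3))))) (.n (.n
  (.b 2) (.n (.l 143 8) (.n (.l 143 8) (.n (.l 143 8) (.b 3))))) (.n (.n (.b 2) (.n (.l 143 8) (.n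
  (.n (.b 2) (.n (.n (.b 2) (.n (.b 4) (.n (.l 113 8) (.n (.n (.b 2) (.n (.n (.b 2) (.n (.b 4) (.n
  (.l 101 8) (.n (.l 113 8) (.b 3))))) (.l 113 8))) (.b 3))))) (.l 143 8))) (.l 143 8)))) (.b
  3))))) (.b 3))))) (.n (.n (.b 2) (.n (.n (.b 2) (.n (.b 4) (.n (.n (.b 2) (.n (.n (.b 2) (.l 159
  8)) (.n (.n (.b 2) (.l 159 8)) (.n (.l 159 8) (.b 3))))) (.n (.n (.b 2) (.n (.l 159 8) (.n (.n
  (.b 2) (.n (.n (.b 2) (.n (.b 4) (.n (.l 159 8) (.n (.n (.b 2) (.n (.l 115 8) (.n (.n (.b 2) (.n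
  (.l 115 8) (.l 115 8))) (.l 115 8)))) (.b 3))))) (.l 159 8))) (.n (.l 159 8) (.b 3))))) (.b
  3))))) (.n (.n (.b 2) (.b 6)) (.n (.n (.b 2) (.n (.n (.b 2) (.n (.b 4) (.n (.l 202 11) (.n (.l
  105 11) (.b 3))))) (.n (.n (.b 2) (.n (.l 105 11) (.n (.n (.b 2) (.b 6)) (.l 105 11)))) (.n (.n
  (.b 2) (.n (.l 105 11) (.n (.l 105 11) (.b 8)))) (.b 3))))) (.b 3))))) (.n (.n (.b 2) (.n (.n
  (.b 2) (.n (.b 4) (.n (.n (.b 2) (.n (.l 159 8) (.n (.n (.b 2) (.n (.n (.b 2) (.n (.b 4) (.n (.l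
  205 8) (.n (.n (.b 2) (.n (.l 159 8) (.n (.l 115 8) (.n (.n (.b 2) (.l 115 8)) (.b 3))))) (.b
  3))))) (.b 6))) (.n (.l 159 8) (.b 3))))) (.n (.n (.b 2) (.n (.l 159 8) (.n (.l 159 8) (.n (.n
  (.b 2) (.n (.n (.b 2) (.n (.b 4) (.n (.l 159 8) (.n (.n (.b 2) (.n (.l 159 8) (.n (.l 105 11)
  (.n (.n (.b 2) (.n (.n (.b 2) (.l 105 11)) (.l 105 11))) (.b 3))))) (.b 3))))) (.l 159 8))) (.b
  3))))) (.b 3))))) (.n (.n (.b 2) (.n (.n (.b 2) (.n (.b 4) (.n (.l 159 8) (.n (.n (.b 2) (.n (.n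
  (.b 2) (.n (.b 4) (.n (.l 159 8) (.n (.n (.b 2) (.n (.l 159 8) (.n (.l 135 11) (.n (.n (.b 2)
  (.n (.l 105 11) (.l 105 11))) (.b 3))))) (.b 3))))) (.l 159 8))) (.b 3))))) (.n (.n (.b 2) (.b
  6)) (.n (.n (.b 2) (.n (.l 159 8) (.n (.n (.b 2) (.n (.n (.b 2) (.n (.b 4) (.n (.l 115 8) (.n
  (.n (.b 2) (.n (.l 115 8) (.n (.l 115 8) (.n (.n (.b 2) (.n (.l 115 8) (.n (.l 115 8) (.l 115
  8)))) (.b 3))))) (.b 3))))) (.l 159 8))) (.l 159 8)))) (.b 3))))) (.n (.b 8) (.b 3))))) (.b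
  3))))) (.b 3)))))

/-- A subtree of the table. -/
def s13 : T :=
  (.n (.b 2) (.n (.n (.b 2) (.n (.b 4) (.n (.n (.b 2) (.n (.n (.b 2) (.n (.b 4) (.n (.n (.b 2) (.n
  (.n (.b 2) (.n (.b 4) (.n (.n (.b 2) (.n (.l 136 8) (.n (.n (.b 2) (.n (.l 136 8) (.b 6))) (.l
  136 8)))) (.l 136 8)))) (.n (.n (.b 2) (.l 136 8)) (.n (.l 136 8) (.b 3))))) (.n (.n (.b 2) (.n
  (.n (.b 2) (.n (.b 4) (.l 136 8))) (.n (.n (.b 2) (.n (.l 136 8) (.n (.n (.b 2) (.b 6)) (.l 136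
  8)))) (.n (.l 136 8) (.b 3))))) (.b 3))))) (.n (.n (.b 2) (.n (.n (.b 2) (.n (.b 4) (.n (.n (.b
  2) (.n (.l 113 7) (.n (.n (.b 2) (.n (.n (.b 2) (.n (.b 4) (.n (.n (.b 2) (.l 113 7)) (.l 211
  7)))) (.b 6))) (.l 113 7)))) (.n (.n (.b 2) (.l 163 7)) (.b 3))))) (.b 6))) (.n (.n (.b 2) (.n
  (.n (.b 2) (.n (.b 4) (.n (.n (.b 2) (.l 82 13)) (.n (.l 82 13) (.b 3))))) (.n (.n (.b 2) (.n
  (.l 82 13) (.n (.n (.b 2) (.b 6)) (.n (.l 180 1) (.b 3))))) (.n (.n (.b 2) (.n (.l 82 13) (.n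
  (.l 82 13) (.b 8)))) (.b 3))))) (.b 3))))) (.n (.n (.b 2) (.n (.n (.b 2) (.n (.b 4) (.n (.n (.b
  2) (.n (.n (.b 2) (.n (.b 4) (.b 11))) (.n (.n (.b 2) (.n (.l 133 8) (.b 6))) (.n (.l 133 8) (.b
  3))))) (.n (.n (.b 2) (.n (.n (.b 2) (.l 133 8)) (.n (.l 133 8) (.n (.n (.b 2) (.n (.l 133 8)
  (.n (.n (.b 2) (.n (.n (.b 2) (.n (.b 4) (.n (.l 79 13) (.n (.n (.b 2) (.n (.n (.b 2) (.l 79
  13)) (.l 79 13))) (.b 3))))) (.l 133 8))) (.l 133 8)))) (.b 3))))) (.b 3))))) (.n (.n (.b 2) (.n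
  (.n (.b 2) (.n (.b 4) (.n (.l 133 8) (.n (.n (.b 2) (.n (.l 133 8) (.n (.n (.b 2) (.n (.n (.b 2)
  (.n (.b 4) (.n (.l 133 8) (.n (.n (.b 2) (.n (.l 79 13) (.l 79 13))) (.b 3))))) (.l 133 8))) (.l
  133 8)))) (.b 3))))) (.n (.n (.b 2) (.b 6)) (.n (.n (.b 2) (.n (.l 133 8) (.n (.n (.b 2) (.n (.l
  133 8) (.n (.n (.b 2) (.b 6)) (.l 133 8)))) (.l 133 8)))) (.b 3))))) (.n (.n (.b 2) (.n (.n (.b
  2) (.n (.b 4) (.n (.n (.b 2) (.n (.l 133 8) (.n (.n (.b 2) (.n (.n (.b 2) (.n (.b 4) (.n (.l 184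
  8) (.n (.n (.b 2) (.n (.l 109 8) (.l 109 8))) (.b 3))))) (.b 6))) (.l 109 8)))) (.n (.l 133 8)
  (.b 3))))) (.n (.n (.b 2) (.n (.l 133 8) (.n (.l 133 8) (.n (.n (.b 2) (.n (.l 133 8) (.n (.n
  (.b 2) (.n (.n (.b 2) (.n (.b 4) (.n (.l 79 13) (.n (.n (.b 2) (.n (.l 79 13) (.n (.l 79 13) (.n
  (.l 79 13) (.b 3))))) (.b 3))))) (.l 133 8))) (.l 133 8)))) (.b 3))))) (.n (.b 8) (.b 3))))) (.b
  3))))) (.b 3))))) (.n (.n (.b 2) (.b 6)) (.n (.n (.b 2) (.n (.n (.b 2) (.n (.b 4) (.n (.n (.b 2)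
  (.n (.n (.b 2) (.n (.b 4) (.n (.n (.b 2) (.n (.l 214 1) (.n (.n (.b 2) (.n (.l 214 1) (.b 6)))
  (.l 214 1)))) (.n (.l 214 1) (.b 3))))) (.n (.n (.b 2) (.n (.n (.b 2) (.l 214 1)) (.b 6))) (.n
  (.n (.b 2) (.n (.l 214 1) (.n (.l 214 1) (.n (.l 214 1) (.b 3))))) (.b 3))))) (.n (.n (.b 2) (.n
  (.n (.b 2) (.n (.b 4) (.n (.l 214 1) (.n (.l 214 1) (.b 3))))) (.n (.n (.b 2) (.n (.l 214 1) (.n
  (.n (.b 2) (.b 6)) (.l 193 1)))) (.n (.n (.b 2) (.n (.l 145 1) (.n (.l 145 1) (.n (.b 8) (.b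
  3))))) (.b 3))))) (.b 3))))) (.n (.n (.b 2) (.n (.n (.b 2) (.n (.b 4) (.n (.n (.b 2) (.n (.l 153
  1) (.n (.n (.b 2) (.n (.l 153 1) (.b 6))) (.n (.b 12) (.b 3))))) (.n (.n (.b 2) (.n (.l 153 1)
  (.n (.l 153 1) (.n (.n (.b 2) (.n (.l 153 1) (.n (.n (.b 2) (.n (.l 153 1) (.n (.l 153 1) (.n
  (.n (.b 2) (.n (.l 77 1) (.n (.n (.b 2) (.n (.n (.b 2) (.l 193 1)) (.l 193 1))) (.l 77 1)))) (.b
  3))))) (.l 153 1)))) (.b 3))))) (.b 3))))) (.n (.n (.b 2) (.b 6)) (.n (.n (.b 2) (.n (.n (.b 2)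
  (.n (.b 4) (.n (.n (.b 2) (.n (.l 153 1) (.n (.n (.b 2) (.n (.l 153 1) (.b 6))) (.l 153 1))))
  (.l 153 1)))) (.n (.n (.b 2) (.n (.l 153 1) (.n (.l 153 1) (.n (.n (.b 2) (.n (.l 153 1) (.n (.n
  (.b 2) (.n (.l 153 1) (.n (.l 153 1) (.n (.n (.b 2) (.n (.l 77 1) (.n (.n (.b 2) (.n (.l 77 1)
  (.n (.l 193 1) (.n (.l 193 1) (.b 3))))) (.l 77 1)))) (.b 3))))) (.l 153 1)))) (.b 3))))) (.l
  153 1)))) (.b 3))))) (.n (.n (.b 2) (.n (.n (.b 2) (.n (.b 4) (.n (.n (.b 2) (.n (.l 153 1) (.n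
  (.l 153 1) (.n (.n (.b 2) (.n (.l 153 1) (.n (.n (.b 2) (.n (.l 153 1) (.n (.l 153 1) (.n (.n
  (.b 2) (.n (.l 77 1) (.n (.l 77 1) (.n (.n (.b 2) (.n (.l 193 1) (.l 193 1))) (.b 3))))) (.b
  3))))) (.l 153 1)))) (.b 3))))) (.n (.l 153 1) (.b 3))))) (.n (.n (.b 2) (.n (.n (.b 2) (.n (.b
  4) (.n (.l 153 1) (.n (.l 153 1) (.b 3))))) (.n (.n (.b 2) (.b 6)) (.l 153 1)))) (.b 8)))) (.b
  3))))) (.b 3)))))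

/-- A subtree of the table. -/
def s14 : T :=
  (.n (.n (.b 2) (.n (.n (.b 2) (.n (.b 4) (.n (.n (.b 2) (.n (.n (.b 2) (.n (.b 4) (.n (.n (.b 2)
  (.n (.n (.b 2) (.n (.b 4) (.l 193 4))) (.n (.n (.b 2) (.n (.l 193 4) (.b 6))) (.n (.l 193 4) (.b
  3))))) (.n (.n (.b 2) (.n (.n (.b 2) (.b 11)) (.n (.l 193 4) (.n (.n (.b 2) (.n (.l 193 4) (.n
  (.l 193 4) (.n (.b 8) (.b 3))))) (.b 3))))) (.b 3))))) (.n (.n (.b 2) (.n (.n (.b 2) (.n (.b 4)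
  (.n (.l 214 4) (.n (.n (.b 2) (.n (.l 193 4) (.n (.l 168 4) (.n (.n (.b 2) (.n (.n (.b 2) (.n
  (.b 4) (.n (.n (.b 2) (.n (.l 139 4) (.l 139 4))) (.l 138 4)))) (.l 163 4))) (.b 3))))) (.b
  3))))) (.b 6))) (.n (.n (.b 2) (.n (.n (.b 2) (.n (.b 4) (.n (.n (.b 2) (.n (.l 189 4) (.n (.l
  161 4) (.n (.n (.b 2) (.n (.n (.b 2) (.n (.b 4) (.n (.n (.b 2) (.n (.l 109 8) (.l 109 8))) (.l
  205 4)))) (.l 143 4))) (.b 3))))) (.n (.l 197 4) (.b 3))))) (.n (.n (.b 2) (.n (.l 193 4) (.n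
  (.l 193 4) (.n (.n (.b 2) (.n (.l 193 4) (.n (.l 193 4) (.n (.n (.b 2) (.n (.n (.b 2) (.n (.b 4)
  (.n (.n (.b 2) (.n (.l 131 4) (.n (.l 139 4) (.n (.l 139 4) (.b 3))))) (.l 131 4)))) (.l 131
  4))) (.b 3))))) (.b 3))))) (.n (.l 193 4) (.b 3))))) (.b 3))))) (.n (.n (.b 2) (.n (.n (.b 2)
  (.n (.b 4) (.n (.n (.b 2) (.n (.n (.b 2) (.l 193 4)) (.n (.l 193 4) (.n (.n (.b 2) (.n (.l 157
  4) (.n (.l 157 4) (.n (.n (.b 2) (.n (.n (.b 2) (.n (.b 4) (.n (.l 131 4) (.n (.n (.b 2) (.n (.l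
  139 4) (.l 139 4))) (.b 3))))) (.l 134 4))) (.b 3))))) (.b 3))))) (.n (.n (.b 2) (.n (.l 193 4)
  (.n (.l 193 4) (.n (.l 193 4) (.b 3))))) (.b 3))))) (.n (.n (.b 2) (.n (.n (.b 2) (.n (.b 4) (.n
  (.l 193 4) (.n (.l 193 4) (.b 3))))) (.n (.n (.b 2) (.b 6)) (.n (.n (.b 2) (.n (.l 109 8) (.n
  (.l 109 8) (.n (.n (.b 2) (.n (.l 109 8) (.n (.l 109 8) (.b 8)))) (.b 3))))) (.b 3))))) (.n (.n
  (.b 2) (.n (.n (.b 2) (.n (.b 4) (.n (.l 189 4) (.n (.n (.b 2) (.n (.l 189 4) (.n (.l 153 4) (.n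
  (.n (.b 2) (.n (.n (.b 2) (.n (.b 4) (.n (.l 113 4) (.n (.n (.b 2) (.n (.l 131 4) (.n (.l 131 4)
  (.l 131 4)))) (.b 3))))) (.l 153 4))) (.b 3))))) (.b 3))))) (.n (.l 189 4) (.n (.b 8) (.b 3)))))
  (.b 3))))) (.b 3))))) (.n (.n (.b 2) (.n (.n (.b 2) (.n (.b 4) (.n (.n (.b 2) (.n (.n (.b 2) (.n
  (.b 4) (.n (.n (.b 2) (.l 131 4)) (.n (.l 131 4) (.b 3))))) (.n (.n (.b 2) (.n (.l 131 3) (.b
  6))) (.n (.n (.b 2) (.n (.l 33 14) (.b 12))) (.b 3))))) (.n (.n (.b 2) (.n (.n (.b 2) (.n (.b 4)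
  (.n (.l 131 4) (.n (.n (.b 2) (.n (.l 131 4) (.n (.l 107 4) (.n (.n (.b 2) (.n (.l 77 4) (.n (.n
  (.b 2) (.n (.n (.b 2) (.n (.b 4) (.n (.l 172 4) (.l 172 4)))) (.l 138 4))) (.l 77 4)))) (.b
  3))))) (.b 3))))) (.n (.n (.b 2) (.n (.l 131 4) (.n (.l 131 4) (.n (.l 131 4) (.b 3))))) (.n (.n
  (.b 2) (.n (.l 131 4) (.n (.n (.b 2) (.n (.l 131 4) (.n (.l 131 4) (.n (.n (.b 2) (.n (.l 113 4)
  (.n (.n (.b 2) (.n (.n (.b 2) (.n (.b 4) (.n (.l 33 14) (.n (.l 33 14) (.b 3))))) (.l 131 4)))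
  (.l 113 4)))) (.b 3))))) (.l 131 4)))) (.b 3))))) (.b 3))))) (.n (.n (.b 2) (.b 6)) (.n (.n (.b
  2) (.n (.n (.b 2) (.n (.b 4) (.n (.n (.b 2) (.n (.l 131 4) (.n (.n (.b 2) (.n (.l 131 4) (.b
  6))) (.l 131 4)))) (.n (.n (.b 2) (.n (.l 131 4) (.n (.l 131 4) (.n (.n (.b 2) (.n (.l 131 4)
  (.n (.l 131 4) (.n (.b 8) (.b 3))))) (.b 3))))) (.b 3))))) (.n (.n (.b 2) (.n (.n (.b 2) (.n (.b
  4) (.n (.l 87 4) (.n (.n (.b 2) (.n (.l 87 4) (.n (.l 87 4) (.n (.n (.b 2) (.n (.l 87 4) (.n (.n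
  (.b 2) (.n (.l 138 4) (.n (.l 138 4) (.n (.n (.b 2) (.n (.l 172 4) (.l 172 4))) (.b 3))))) (.l
  87 4)))) (.b 3))))) (.b 3))))) (.n (.l 131 4) (.n (.n (.b 2) (.n (.l 131 4) (.n (.n (.b 2) (.n
  (.l 131 4) (.n (.l 131 4) (.n (.n (.b 2) (.n (.l 113 4) (.n (.n (.b 2) (.n (.l 113 4) (.n (.l
  131 4) (.n (.n (.b 2) (.n (.l 33 14) (.n (.l 33 14) (.l 33 14)))) (.b 3))))) (.l 113 4)))) (.b
  3))))) (.l 131 4)))) (.b 3))))) (.n (.n (.b 2) (.n (.n (.b 2) (.n (.b 4) (.n (.n (.b 2) (.n (.l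
  131 4) (.n (.l 131 4) (.n (.n (.b 2) (.n (.l 131 4) (.n (.n (.b 2) (.n (.l 131 4) (.n (.l 113 4)
  (.n (.n (.b 2) (.n (.l 33 14) (.l 33 14))) (.b 3))))) (.l 131 4)))) (.b 3))))) (.l 131 4)))) (.l
  131 4))) (.b 3))))) (.b 3))))) (.n (.n (.b 2) (.n (.n (.b 2) (.n (.b 4) (.n (.n (.b 2) (.n (.n
  (.b 2) (.n (.b 4) (.n (.l 124 4) (.n (.n (.b 2) (.n (.l 124 4) (.n (.l 124 4) (.n (.n (.b 2) (.n
  (.l 124 4) (.n (.l 124 4) (.n (.b 8) (.b 3))))) (.b 3))))) (.b 3))))) (.n (.n (.b 2) (.n (.l 124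
  4) (.b 6))) (.n (.n (.b 2) (.n (.l 124 4) (.n (.n (.b 2) (.n (.l 124 4) (.n (.l 124 4) (.n (.n
  (.b 2) (.n (.l 112 4) (.n (.l 112 4) (.n (.n (.b 2) (.n (.n (.b 2) (.n (.b 4) (.n (.l 193 99)
  (.l 193 99)))) (.l 34 13))) (.b 3))))) (.b 3))))) (.l 124 4)))) (.b 3))))) (.n (.n (.b 2) (.n
  (.n (.b 2) (.n (.b 4) (.n (.n (.b 2) (.n (.l 111 4) (.n (.l 102 4) (.n (.n (.b 2) (.n (.l 45 4)
  (.n (.l 45 4) (.n (.n (.b 2) (.n (.n (.b 2) (.n (.b 4) (.l 193 99))) (.l 90 99))) (.b 3))))) (.b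
  3))))) (.l 111 4)))) (.n (.n (.b 2) (.n (.l 99 4) (.n (.l 99 4) (.n (.n (.b 2) (.n (.l 99 4) (.n
  (.l 99 4) (.n (.n (.b 2) (.n (.l 99 4) (.n (.l 99 4) (.b 8)))) (.b 3))))) (.b 3))))) (.l 99
  4)))) (.b 3))))) (.n (.n (.b 2) (.n (.n (.b 2) (.n (.b 4) (.n (.l 124 4) (.n (.l 124 4) (.b
  3))))) (.n (.n (.b 2) (.b 6)) (.n (.n (.b 2) (.l 124 4)) (.b 3))))) (.b 8)))) (.b 3))))) (.b 3))

/-- A subtree of the table. -/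
def s15 : T :=
  (.b 2)

/-- A subtree of the table. -/
def s16 : T :=
  (.n (.b 2) (.n (.b 4) (.n (.n (.b 2) (.n (.n (.b 2) (.n (.b 4) (.n (.n (.b 2) (.n (.n (.b 2) (.n
  (.b 4) (.n (.n (.b 2) (.l 91 7)) (.l 91 7)))) (.n (.n (.b 2) (.n (.n (.b 2) (.n (.b 4) (.l 91
  7))) (.b 6))) (.n (.n (.b 2) (.n (.n (.b 2) (.l 91 7)) (.l 91 7))) (.b 3))))) (.n (.n (.b 2) (.n
  (.n (.b 2) (.n (.b 4) (.l 214 0))) (.n (.n (.b 2) (.l 130 7)) (.n (.n (.b 2) (.n (.l 130 7) (.n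
  (.l 130 7) (.n (.b 8) (.b 3))))) (.b 3))))) (.b 3))))) (.n (.n (.b 2) (.n (.n (.b 2) (.n (.b 4)
  (.n (.n (.b 2) (.n (.l 172 7) (.n (.n (.b 2) (.l 172 7)) (.l 172 7)))) (.n (.n (.b 2) (.n (.l
  167 7) (.n (.l 167 7) (.n (.n (.b 2) (.n (.n (.b 2) (.n (.b 4) (.n (.n (.b 2) (.n (.l 167 7) (.n
  (.n (.b 2) (.n (.l 214 0) (.b 6))) (.l 91 13)))) (.l 167 7)))) (.l 167 7))) (.b 3))))) (.b
  3))))) (.b 6))) (.n (.n (.b 2) (.n (.n (.b 2) (.n (.b 4) (.n (.n (.b 2) (.n (.l 167 7) (.n (.l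
  167 7) (.n (.n (.b 2) (.n (.n (.b 2) (.n (.b 4) (.n (.n (.b 2) (.n (.l 139 11) (.n (.l 91 13)
  (.n (.n (.b 2) (.l 214 0)) (.b 3))))) (.l 172 7)))) (.l 167 7))) (.b 3))))) (.n (.l 167 7) (.b
  3))))) (.n (.n (.b 2) (.n (.n (.b 2) (.n (.b 4) (.l 167 7))) (.n (.l 167 7) (.n (.n (.b 2) (.n
  (.l 167 7) (.n (.l 167 7) (.n (.n (.b 2) (.n (.n (.b 2) (.n (.b 4) (.n (.n (.b 2) (.n (.l 166 7)
  (.n (.l 167 7) (.n (.n (.b 2) (.n (.l 91 99) (.n (.l 214 0) (.l 193 99)))) (.b 3))))) (.l 166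
  7)))) (.l 166 7))) (.b 3))))) (.b 3))))) (.n (.n (.b 2) (.n (.n (.b 2) (.n (.b 4) (.n (.l 160 7)
  (.n (.n (.b 2) (.n (.n (.b 2) (.n (.b 4) (.n (.n (.b 2) (.n (.l 139 7) (.n (.l 130 7) (.n (.n
  (.b 2) (.n (.l 193 99) (.l 214 0))) (.b 3))))) (.l 139 7)))) (.l 91 7))) (.b 3))))) (.l 160 7)))
  (.b 3))))) (.b 3))))) (.n (.n (.b 2) (.n (.n (.b 2) (.n (.b 4) (.n (.n (.b 2) (.n (.n (.b 2) (.n
  (.b 4) (.l 119 7))) (.n (.n (.b 2) (.l 119 7)) (.n (.n (.b 2) (.n (.l 119 7) (.n (.l 119 7) (.n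
  (.n (.b 2) (.n (.n (.b 2) (.n (.b 4) (.n (.l 98 7) (.n (.n (.b 2) (.n (.n (.b 2) (.n (.b 4) (.n
  (.l 214 0) (.l 193 99)))) (.l 21 13))) (.b 3))))) (.l 101 7))) (.b 3))))) (.b 3))))) (.n (.n (.b
  2) (.n (.n (.b 2) (.n (.b 4) (.n (.l 117 7) (.n (.n (.b 2) (.n (.n (.b 2) (.n (.b 4) (.n (.l 63
  7) (.n (.n (.b 2) (.n (.n (.b 2) (.n (.b 4) (.l 214 0))) (.l 130 7))) (.b 3))))) (.l 132 7)))
  (.b 3))))) (.n (.l 134 7) (.n (.l 134 7) (.b 3))))) (.b 3))))) (.n (.n (.b 2) (.n (.n (.b 2) (.n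
  (.b 4) (.n (.n (.b 2) (.n (.n (.b 2) (.l 136 7)) (.l 136 7))) (.n (.l 136 7) (.b 3))))) (.n (.n
  (.b 2) (.b 6)) (.n (.n (.b 2) (.n (.n (.b 2) (.n (.b 4) (.n (.l 193 99) (.l 214 0)))) (.n (.l 86
  11) (.n (.n (.b 2) (.n (.l 86 11) (.n (.l 86 11) (.b 8)))) (.b 3))))) (.b 3))))) (.n (.n (.b 2)
  (.n (.n (.b 2) (.n (.b 4) (.n (.l 136 7) (.n (.n (.b 2) (.n (.l 136 7) (.n (.l 120 7) (.n (.n
  (.b 2) (.n (.n (.b 2) (.n (.b 4) (.n (.l 114 7) (.n (.n (.b 2) (.n (.l 114 7) (.n (.l 38 13) (.n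
  (.n (.b 2) (.n (.l 214 0) (.l 193 99))) (.b 3))))) (.b 3))))) (.l 120 7))) (.b 3))))) (.b 3)))))
  (.n (.n (.b 2) (.n (.n (.b 2) (.n (.b 4) (.n (.l 106 7) (.n (.n (.b 2) (.n (.n (.b 2) (.n (.b 4)
  (.n (.l 94 7) (.n (.n (.b 2) (.n (.l 126 7) (.n (.l 126 99) (.n (.n (.b 2) (.l 214 0)) (.b
  3))))) (.b 3))))) (.l 106 7))) (.b 3))))) (.l 136 7))) (.n (.b 8) (.b 3))))) (.b 3))))) (.b
  3)))))

/-- A subtree of the table. -/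
def s17 : T :=
  (.n (.n (.b 2) (.n (.n (.b 2) (.n (.b 4) (.n (.n (.b 2) (.n (.n (.b 2) (.n (.b 4) (.n (.n (.b 2)
  (.n (.n (.b 2) (.l 130 7)) (.l 130 7))) (.n (.n (.b 2) (.l 130 7)) (.b 3))))) (.n (.n (.b 2) (.n
  (.n (.b 2) (.n (.b 4) (.n (.n (.b 2) (.l 134 6)) (.l 134 6)))) (.b 6))) (.n (.n (.b 2) (.n (.n
  (.b 2) (.n (.b 4) (.l 54 13))) (.n (.n (.b 2) (.l 214 0)) (.n (.n (.b 2) (.n (.l 54 13) (.n (.l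
  54 13) (.b 8)))) (.b 3))))) (.b 3))))) (.n (.n (.b 2) (.n (.n (.b 2) (.n (.b 4) (.n (.n (.b 2)
  (.l 130 7)) (.n (.n (.b 2) (.n (.l 130 7) (.n (.l 130 7) (.n (.n (.b 2) (.n (.l 112 7) (.n (.n
  (.b 2) (.n (.n (.b 2) (.n (.b 4) (.n (.l 54 13) (.n (.n (.b 2) (.n (.l 214 0) (.l 193 99))) (.b
  3))))) (.l 130 7))) (.l 112 7)))) (.b 3))))) (.b 3))))) (.n (.n (.b 2) (.n (.n (.b 2) (.n (.b 4)
  (.n (.l 130 7) (.n (.n (.b 2) (.n (.l 98 7) (.n (.n (.b 2) (.n (.n (.b 2) (.n (.b 4) (.n (.l 68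
  7) (.n (.n (.b 2) (.l 214 0)) (.b 3))))) (.l 98 7))) (.l 98 7)))) (.b 3))))) (.n (.l 130 7) (.n
  (.l 130 7) (.b 3))))) (.n (.n (.b 2) (.n (.l 130 7) (.n (.n (.b 2) (.n (.l 130 7) (.n (.l 130 7)
  (.n (.n (.b 2) (.n (.l 130 7) (.n (.n (.b 2) (.n (.n (.b 2) (.n (.b 4) (.n (.l 54 13) (.n (.n
  (.b 2) (.n (.l 54 99) (.n (.l 193 99) (.l 214 0)))) (.b 3))))) (.l 130 7))) (.l 130 7)))) (.b
  3))))) (.l 130 7)))) (.b 3))))) (.b 3))))) (.n (.n (.b 2) (.b 6)) (.n (.n (.b 2) (.n (.n (.b 2)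
  (.n (.b 4) (.n (.n (.b 2) (.n (.n (.b 2) (.l 166 7)) (.n (.n (.b 2) (.n (.l 166 7) (.b 6))) (.l
  166 7)))) (.n (.n (.b 2) (.n (.l 166 7) (.n (.n (.b 2) (.n (.l 193 99) (.l 214 0))) (.n (.n (.b
  2) (.n (.l 68 7) (.n (.l 68 7) (.n (.b 8) (.b 3))))) (.b 3))))) (.b 3))))) (.n (.n (.b 2) (.n
  (.n (.b 2) (.n (.b 4) (.n (.l 76 7) (.n (.n (.b 2) (.n (.l 76 7) (.n (.l 76 7) (.n (.n (.b 2)
  (.n (.l 76 7) (.n (.n (.b 2) (.n (.l 76 7) (.n (.l 76 7) (.n (.n (.b 2) (.n (.l 0 16) (.n (.n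
  (.b 2) (.n (.l 214 0) (.l 193 99))) (.l 0 99)))) (.b 3))))) (.l 76 7)))) (.b 3))))) (.b 3)))))
  (.n (.n (.b 2) (.b 6)) (.n (.n (.b 2) (.n (.l 76 7) (.n (.n (.b 2) (.n (.l 76 7) (.n (.l 76 7)
  (.n (.n (.b 2) (.n (.l 76 7) (.n (.n (.b 2) (.n (.l 76 7) (.n (.l 76 7) (.n (.n (.b 2) (.n (.l 0
  16) (.n (.n (.b 2) (.n (.l 0 99) (.n (.l 193 99) (.l 214 0)))) (.l 0 16)))) (.b 3))))) (.l 76
  7)))) (.b 3))))) (.l 76 7)))) (.b 3))))) (.n (.n (.b 2) (.n (.n (.b 2) (.n (.b 4) (.n (.n (.b 2)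
  (.n (.l 76 7) (.n (.l 76 7) (.n (.n (.b 2) (.n (.l 76 7) (.n (.n (.b 2) (.n (.l 76 7) (.n (.l 76
  7) (.n (.n (.b 2) (.n (.l 0 16) (.n (.l 0 99) (.n (.n (.b 2) (.l 214 0)) (.b 3))))) (.b 3)))))
  (.l 76 7)))) (.b 3))))) (.l 76 7)))) (.n (.n (.b 2) (.l 76 7)) (.b 8)))) (.b 3))))) (.b 3)))))
  (.n (.n (.b 2) (.n (.n (.b 2) (.n (.b 4) (.n (.n (.b 2) (.n (.n (.b 2) (.n (.b 4) (.n (.n (.b 2)
  (.l 130 7)) (.n (.n (.b 2) (.n (.l 130 7) (.n (.l 130 7) (.n (.n (.b 2) (.n (.l 130 7) (.n (.l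
  130 7) (.n (.b 8) (.b 3))))) (.b 3))))) (.b 3))))) (.n (.n (.b 2) (.n (.n (.b 2) (.n (.b 4) (.n
  (.l 159 7) (.n (.n (.b 2) (.n (.l 130 7) (.n (.l 91 7) (.n (.n (.b 2) (.n (.n (.b 2) (.n (.b 4)
  (.n (.n (.b 2) (.l 214 0)) (.l 61 99)))) (.l 86 7))) (.b 3))))) (.b 3))))) (.b 6))) (.n (.n (.b
  2) (.n (.l 130 7) (.n (.n (.b 2) (.n (.l 130 7) (.n (.l 130 7) (.n (.n (.b 2) (.n (.l 130 7) (.n
  (.l 130 7) (.n (.n (.b 2) (.n (.n (.b 2) (.n (.b 4) (.n (.n (.b 2) (.n (.l 54 99) (.n (.l 193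
  99) (.l 214 0)))) (.l 54 13)))) (.l 54 13))) (.b 3))))) (.b 3))))) (.l 130 7)))) (.b 3))))) (.n
  (.n (.b 2) (.n (.n (.b 2) (.n (.b 4) (.n (.n (.b 2) (.n (.l 130 7) (.n (.l 130 7) (.n (.n (.b 2)
  (.n (.l 80 7) (.n (.l 80 7) (.n (.n (.b 2) (.n (.n (.b 2) (.n (.b 4) (.n (.l 54 99) (.n (.n (.b
  2) (.l 214 0)) (.b 3))))) (.l 57 13))) (.b 3))))) (.b 3))))) (.l 130 7)))) (.n (.n (.b 2) (.n
  (.l 130 7) (.n (.l 130 7) (.n (.n (.b 2) (.n (.l 130 7) (.n (.l 130 7) (.n (.n (.b 2) (.n (.l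
  130 7) (.n (.l 130 7) (.b 8)))) (.b 3))))) (.b 3))))) (.n (.n (.b 2) (.n (.n (.b 2) (.n (.b 4)
  (.n (.l 130 7) (.n (.n (.b 2) (.n (.l 130 7) (.n (.l 76 7) (.n (.n (.b 2) (.n (.n (.b 2) (.n (.b
  4) (.n (.l 36 7) (.n (.n (.b 2) (.n (.l 193 99) (.l 214 0))) (.b 3))))) (.l 76 7))) (.b 3)))))
  (.b 3))))) (.l 130 7))) (.b 3))))) (.b 3))))) (.n (.n (.b 2) (.n (.n (.b 2) (.n (.b 4) (.n (.n
  (.b 2) (.n (.n (.b 2) (.n (.b 4) (.l 54 13))) (.n (.l 54 13) (.n (.n (.b 2) (.n (.l 54 13) (.b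
  12))) (.b 3))))) (.n (.n (.b 2) (.n (.n (.b 2) (.n (.b 4) (.n (.l 54 13) (.n (.n (.b 2) (.n (.l
  54 13) (.n (.l 30 16) (.n (.n (.b 2) (.n (.l 0 99) (.n (.n (.b 2) (.n (.n (.b 2) (.n (.b 4) (.l
  214 0))) (.l 61 99))) (.l 0 99)))) (.b 3))))) (.b 3))))) (.l 54 13))) (.b 3))))) (.n (.n (.b 2)
  (.b 6)) (.n (.n (.b 2) (.n (.n (.b 2) (.n (.b 4) (.n (.l 54 13) (.n (.n (.b 2) (.n (.l 54 13)
  (.n (.l 54 13) (.n (.n (.b 2) (.n (.l 54 13) (.n (.l 54 13) (.n (.b 8) (.b 3))))) (.b 3))))) (.b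
  3))))) (.n (.n (.b 2) (.n (.n (.b 2) (.n (.b 4) (.n (.l 10 13) (.n (.n (.b 2) (.n (.l 10 13) (.n
  (.l 10 13) (.n (.n (.b 2) (.n (.l 10 13) (.n (.n (.b 2) (.n (.l 61 99) (.n (.l 61 99) (.n (.n
  (.b 2) (.l 214 0)) (.b 3))))) (.l 10 99)))) (.b 3))))) (.b 3))))) (.l 54 13))) (.n (.l 54 13)
  (.b 3))))) (.b 3))))) (.n (.n (.b 2) (.n (.n (.b 2) (.n (.b 4) (.n (.n (.b 2) (.n (.l 214 0) (.l
  214 0))) (.n (.n (.b 2) (.l 214 0)) (.b 3))))) (.b 8))) (.b 3))))) (.b 3)))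

/-- A subtree of the table. -/
def s18 : T :=
  (.b 3)

/-- A subtree of the table. -/
def u0 : T := .n s4 s5

/-- A subtree of the table. -/
def u1 : T := .n s3 u0

/-- A subtree of the table. -/
def u2 : T := .n u1 s6

/-- A subtree of the table. -/
def u3 : T := .n s2 u2

/-- A subtree of the table. -/
def u4 : T := .n s1 u3

/-- A subtree of the table. -/
def u5 : T := .n s0 u4

/-- A subtree of the table. -/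
def u6 : T := .n s9 s10

/-- A subtree of the table. -/
def u7 : T := .n s8 u6

/-- A subtree of the table. -/
def u8 : T := .n s7 u7

/-- A subtree of the table. -/
def u9 : T := .n s13 s14

/-- A subtree of the table. -/
def u10 : T := .n s12 u9

/-- A subtree of the table. -/
def u11 : T := .n s11 u10

/-- A subtree of the table. -/
def u12 : T := .n s16 s17

/-- A subtree of the table. -/
def u13 : T := .n s15 u12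

/-- A subtree of the table. -/
def u14 : T := .n u13 s18

/-- A subtree of the table. -/
def u15 : T := .n u11 u14

/-- A subtree of the table. -/
def u16 : T := .n u8 u15

/-- A subtree of the table. -/
def u17 : T := .n u5 u16

/-- The table. -/
def tb : T := u17

end Pool.Agent.Helper49.TF.B3
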