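import Pool.Agent.Helper49.TF.TabB4D

/-!
# Table B4: kernel check, part 1
-/

set_option autoImplicit false
set_option maxRecDepth 100000

namespace Pool.Agent.Helper49.TF.B4

theorem hs4 : chk 1 es el ws 21 tb s4
  [1, 2, 1, 0, 1, 2, 0, 1, 0] = true := by decide +kernel

theorem hs5 : chk 1 es el ws 21 tb s5
  [0, 2, 1, 0, 1, 2, 0, 1, 0] = true := by decide +kernel

theorem hs6 : chk 1 es el ws 21 tb s6
  [2, 0, 1, 2, 0, 1, 0] = true := by decide +kernel

theorem hs7 : chk 1 es el ws 21 tb s7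
  [2, 1, 2, 1, 0] = true := by decide +kernel

theorem hs8 : chk 1 es el ws 21 tb s8
  [1, 0, 1, 2, 1, 0] = true := by decide +kernel

end Pool.Agent.Helper49.TF.B4
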