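import Pool.Agent.Helper49.TF.TabB4D

/-!
# Table B4: kernel check, part 3
-/

set_option autoImplicit false
set_option maxRecDepth 100000

namespace Pool.Agent.Helper49.TF.B4

theorem hs12 : chk 1 es el ws 21 tb s12
  [2, 1, 2, 0, 2, 1, 0] = true := by decide +kernel

theorem hs13 : chk 1 es el ws 21 tb s13
  [1, 0, 1, 2, 0, 2, 1, 0] = true := by decide +kernel

theorem hs14 : chk 1 es el ws 21 tb s14
  [2, 0, 1, 2, 0, 2, 1, 0] = true := by decide +kernel

theorem hs15 : chk 1 es el ws 21 tb s15
  [1, 0, 1, 0, 2, 1, 0] = true := by decide +kernel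

end Pool.Agent.Helper49.TF.B4
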