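import Pool.Agent.Helper49.TF.Glue
import Pool.Agent.Helper49.TF.TabB4P0
import Pool.Agent.Helper49.TF.TabB4P1
import Pool.Agent.Helper49.TF.TabB4P2
import Pool.Agent.Helper49.TF.TabB4P3
import Pool.Agent.Helper49.TF.TabB4P4

/-!
# Table B4: assembly of the kernel checks
-/

set_option autoImplicit false
set_option maxRecDepth 100000

namespace Pool.Agent.Helper49.TF.B4

theorem hu0 : chk 1 es el ws 21 tb u0
  [2, 1, 0, 1, 2, 0, 1, 0] = true :=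
  gn _ _ _ _ _ _ s4 s5 _ 1 0 rfl rfl (by decide) (by decide) hs4 hs5

theorem hu1 : chk 1 es el ws 21 tb u1
  [1, 0, 1, 2, 0, 1, 0] = true :=
  gn _ _ _ _ _ _ s3 u0 _ 0 2 rfl rfl (by decide) (by decide) hs3 hu0

theorem hu2 : chk 1 es el ws 21 tb u2
  [0, 1, 2, 0, 1, 0] = true :=
  gn _ _ _ _ _ _ u1 s6 _ 1 2 rfl rfl (by decide) (by decide) hu1 hs6

theorem hu3 : chk 1 es el ws 21 tb u3
  [1, 2, 0, 1, 0] = true :=
  gn _ _ _ _ _ _ s2 u2 _ 2 0 rfl rfl (by decide) (by decide) hs2 hu2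

theorem hu4 : chk 1 es el ws 21 tb u4
  [2, 0, 1, 0] = true :=
  gn _ _ _ _ _ _ s1 u3 _ 0 1 rfl rfl (by decide) (by decide) hs1 hu3

theorem hu5 : chk 1 es el ws 21 tb u5
  [0, 1, 0] = true :=
  gn _ _ _ _ _ _ s0 u4 _ 1 2 rfl rfl (by decide) (by decide) hs0 hu4

theorem hu6 : chk 1 es el ws 21 tb u6
  [2, 0, 1, 2, 1, 0] = true :=
  gn _ _ _ _ _ _ s9 s10 _ 0 1 rfl rfl (by decide) (by decide) hs9 hs10

theorem hu7 : chk 1 es el ws 21 tb u7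
  [0, 1, 2, 1, 0] = true :=
  gn _ _ _ _ _ _ s8 u6 _ 1 2 rfl rfl (by decide) (by decide) hs8 hu6

theorem hu8 : chk 1 es el ws 21 tb u8
  [1, 2, 1, 0] = true :=
  gn _ _ _ _ _ _ s7 u7 _ 2 0 rfl rfl (by decide) (by decide) hs7 hu7

theorem hu9 : chk 1 es el ws 21 tb u9
  [0, 1, 2, 0, 2, 1, 0] = true :=
  gn _ _ _ _ _ _ s13 s14 _ 1 2 rfl rfl (by decide) (by decide) hs13 hs14

theorem hu10 : chk 1 es el ws 21 tb u10
  [1, 2, 0, 2, 1, 0] = true :=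
  gn _ _ _ _ _ _ s12 u9 _ 2 0 rfl rfl (by decide) (by decide) hs12 hu9

theorem hu11 : chk 1 es el ws 21 tb u11
  [2, 0, 2, 1, 0] = true :=
  gn _ _ _ _ _ _ s11 u10 _ 0 1 rfl rfl (by decide) (by decide) hs11 hu10

theorem hu12 : chk 1 es el ws 21 tb u12
  [2, 0, 1, 0, 2, 1, 0] = true :=
  gn _ _ _ _ _ _ s16 s17 _ 0 1 rfl rfl (by decide) (by decide) hs16 hs17

theorem hu13 : chk 1 es el ws 21 tb u13
  [0, 1, 0, 2, 1, 0] = true :=
  gn _ _ _ _ _ _ s15 u12 _ 1 2 rfl rfl (by decide) (by decide) hs15 hu12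

theorem hu14 : chk 1 es el ws 21 tb u14
  [1, 0, 2, 1, 0] = true :=
  gn _ _ _ _ _ _ u13 s18 _ 0 2 rfl rfl (by decide) (by decide) hu13 hs18

theorem hu15 : chk 1 es el ws 21 tb u15
  [0, 2, 1, 0] = true :=
  gn _ _ _ _ _ _ u11 u14 _ 2 1 rfl rfl (by decide) (by decide) hu11 hu14

theorem hu16 : chk 1 es el ws 21 tb u16
  [2, 1, 0] = true :=
  gn _ _ _ _ _ _ u8 u15 _ 1 0 rfl rfl (by decide) (by decide) hu8 hu15

theorem hu17 : chk 1 es el ws 21 tb u17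
  [1, 0] = true :=
  gn _ _ _ _ _ _ u5 u16 _ 0 2 rfl rfl (by decide) (by decide) hu5 hu16

theorem ok : chk 1 es el ws 21 tb tb (st 1) = true := hu17

end Pool.Agent.Helper49.TF.B4
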