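import Pool.Agent.Helper49.TF.Defs

set_option autoImplicit false
set_option maxRecDepth 100000

/-!
# Table B4: data
-/

namespace Pool.Agent.Helper49.TF.B4

/-- Upper bounds. -/
def es : List ℕ := [0, 1, 2, 3, 4, 5, 6, 7, 8, 9, 10, 11, 12, 13, 14, 15, 16, 17, 18, 19, 20]

/-- Lower bounds. -/
def el : List ℕ := [0, 1, 2, 3, 4, 5, 6, 7, 8, 9, 10, 11, 11, 12, 13, 14, 15, 16, 17, 18, 19]

/-- Rewards. -/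
def ws : List ℕ := [98, 90, 88, 80, 76, 68, 64, 54, 48, 36, 30]

/-- A subtree of the table. -/
def s0 : T :=
  (.b 2)

/-- A subtree of the table. -/
def s1 : T :=
  (.n (.b 2) (.n (.n (.b 2) (.b 4)) (.n (.n (.b 2) (.n (.n (.b 2) (.n (.b 4) (.n (.n (.b 2) (.n
  (.n (.b 2) (.n (.b 4) (.n (.n (.b 2) (.n (.n (.b 2) (.n (.b 4) (.n (.n (.b 2) (.n (.n (.b 2) (.n
  (.b 4) (.n (.n (.b 2) (.l 160 0)) (.l 55 99)))) (.l 85 9))) (.l 85 9)))) (.n (.n (.b 2) (.n (.l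
  92 9) (.b 6))) (.l 92 9)))) (.n (.n (.b 2) (.n (.l 92 9) (.n (.n (.b 2) (.n (.n (.b 2) (.n (.b
  4) (.l 92 9))) (.l 92 9))) (.l 92 9)))) (.b 3))))) (.n (.n (.b 2) (.n (.n (.b 2) (.n (.b 4) (.n
  (.n (.b 2) (.n (.n (.b 2) (.n (.b 4) (.l 99 9))) (.l 99 9))) (.l 99 9)))) (.b 6))) (.n (.n (.b
  2) (.n (.n (.b 2) (.n (.b 4) (.l 99 9))) (.n (.n (.b 2) (.l 99 9)) (.n (.n (.b 2) (.l 99 9)) (.b
  3))))) (.b 3))))) (.n (.n (.b 2) (.n (.n (.b 2) (.n (.b 4) (.n (.n (.b 2) (.n (.l 160 0) (.n (.n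
  (.b 2) (.n (.n (.b 2) (.n (.b 4) (.l 139 1))) (.b 6))) (.l 139 1)))) (.n (.n (.b 2) (.l 118 3))
  (.b 3))))) (.n (.n (.b 2) (.n (.n (.b 2) (.n (.b 4) (.l 115 6))) (.n (.n (.b 2) (.b 6)) (.n (.l
  115 6) (.b 3))))) (.n (.n (.b 2) (.n (.n (.b 2) (.l 115 6)) (.n (.n (.b 2) (.l 115 6)) (.n (.b
  8) (.b 3))))) (.b 3))))) (.b 3))))) (.n (.n (.b 2) (.n (.n (.b 2) (.n (.b 4) (.n (.n (.b 2) (.n
  (.n (.b 2) (.n (.b 4) (.n (.l 96 10) (.n (.n (.b 2) (.n (.n (.b 2) (.n (.b 4) (.l 96 10))) (.l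
  96 10))) (.b 3))))) (.n (.n (.b 2) (.n (.n (.b 2) (.n (.b 4) (.n (.n (.b 2) (.n (.l 96 10) (.n
  (.n (.b 2) (.n (.n (.b 2) (.n (.b 4) (.l 160 0))) (.b 6))) (.l 55 10)))) (.l 118 10)))) (.b 6)))
  (.n (.n (.b 2) (.l 96 10)) (.b 3))))) (.n (.n (.b 2) (.n (.n (.b 2) (.n (.b 4) (.n (.n (.b 2)
  (.n (.n (.b 2) (.n (.b 4) (.b 11))) (.l 96 10))) (.l 96 10)))) (.n (.n (.b 2) (.l 96 10)) (.n
  (.n (.b 2) (.n (.n (.b 2) (.n (.b 4) (.n (.n (.b 2) (.n (.l 96 10) (.n (.n (.b 2) (.n (.n (.b 2)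
  (.n (.b 4) (.n (.l 42 99) (.n (.l 160 0) (.b 3))))) (.b 6))) (.l 96 10)))) (.l 96 10)))) (.l 96
  10))) (.b 3))))) (.b 3))))) (.b 6))) (.n (.n (.b 2) (.n (.n (.b 2) (.n (.b 4) (.n (.n (.b 2) (.n
  (.n (.b 2) (.n (.b 4) (.n (.n (.b 2) (.n (.n (.b 2) (.n (.b 4) (.l 116 10))) (.l 116 10))) (.l
  116 10)))) (.n (.n (.b 2) (.l 116 10)) (.n (.n (.b 2) (.n (.n (.b 2) (.n (.b 4) (.n (.n (.b 2)
  (.n (.l 110 10) (.n (.l 110 10) (.n (.n (.b 2) (.n (.n (.b 2) (.n (.b 4) (.n (.l 160 0) (.l 139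
  99)))) (.l 118 10))) (.b 3))))) (.l 116 10)))) (.l 116 10))) (.b 3))))) (.n (.n (.b 2) (.n (.n
  (.b 2) (.n (.b 4) (.l 116 10))) (.n (.l 116 10) (.n (.l 116 10) (.b 3))))) (.b 3))))) (.n (.n
  (.b 2) (.n (.n (.b 2) (.n (.b 4) (.n (.n (.b 2) (.n (.l 55 10) (.n (.l 139 1) (.l 160 0)))) (.n
  (.n (.b 2) (.l 55 10)) (.b 3))))) (.n (.n (.b 2) (.b 6)) (.n (.n (.b 2) (.n (.l 118 7) (.n (.l
  118 7) (.n (.n (.b 2) (.n (.n (.b 2) (.n (.b 4) (.n (.n (.b 2) (.n (.l 118 7) (.n (.l 118 7) (.n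
  (.n (.b 2) (.n (.l 90 7) (.n (.n (.b 2) (.n (.l 76 7) (.n (.l 76 99) (.n (.l 160 0) (.b 3)))))
  (.l 76 7)))) (.b 3))))) (.l 118 7)))) (.l 118 7))) (.b 3))))) (.b 3))))) (.n (.n (.b 2) (.n (.n
  (.b 2) (.n (.b 4) (.n (.n (.b 2) (.l 61 10)) (.n (.n (.b 2) (.n (.n (.b 2) (.n (.b 4) (.n (.n
  (.b 2) (.n (.l 61 10) (.n (.l 61 10) (.n (.n (.b 2) (.n (.l 34 14) (.n (.l 76 14) (.n (.n (.b 2)
  (.n (.l 160 0) (.l 139 99))) (.b 3))))) (.b 3))))) (.l 61 10)))) (.l 61 10))) (.b 3))))) (.n (.n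
  (.b 2) (.n (.n (.b 2) (.n (.b 4) (.l 61 10))) (.n (.l 61 10) (.n (.l 61 10) (.b 3))))) (.b 8))))
  (.b 3))))) (.b 3))))) (.n (.n (.b 2) (.n (.n (.b 2) (.n (.b 4) (.n (.n (.b 2) (.n (.n (.b 2) (.n
  (.b 4) (.n (.n (.b 2) (.n (.l 118 3) (.n (.n (.b 2) (.n (.n (.b 2) (.n (.b 4) (.l 118 3))) (.b
  6))) (.l 118 3)))) (.n (.n (.b 2) (.l 160 0)) (.b 3))))) (.n (.n (.b 2) (.n (.n (.b 2) (.n (.b
  4) (.l 118 6))) (.b 6))) (.n (.n (.b 2) (.n (.n (.b 2) (.l 118 6)) (.n (.n (.b 2) (.l 118 6))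
  (.n (.n (.b 2) (.n (.n (.b 2) (.n (.b 4) (.n (.l 118 6) (.n (.n (.b 2) (.n (.n (.b 2) (.n (.b 4)
  (.n (.n (.b 2) (.n (.l 76 6) (.n (.l 76 99) (.n (.l 160 0) (.b 3))))) (.l 76 6)))) (.l 118 6)))
  (.b 3))))) (.l 118 6))) (.b 3))))) (.b 3))))) (.n (.n (.b 2) (.n (.n (.b 2) (.n (.b 4) (.n (.n
  (.b 2) (.l 118 8)) (.n (.n (.b 2) (.n (.n (.b 2) (.n (.b 4) (.n (.l 118 8) (.n (.n (.b 2) (.n
  (.n (.b 2) (.n (.b 4) (.n (.l 118 8) (.n (.n (.b 2) (.n (.l 160 0) (.l 139 99))) (.b 3))))) (.l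
  118 8))) (.b 3))))) (.l 118 8))) (.b 3))))) (.n (.n (.b 2) (.n (.n (.b 2) (.n (.b 4) (.l 118
  8))) (.n (.l 118 8) (.n (.l 118 8) (.b 3))))) (.n (.n (.b 2) (.n (.n (.b 2) (.l 118 8)) (.n (.n
  (.b 2) (.n (.n (.b 2) (.n (.b 4) (.n (.l 118 8) (.n (.n (.b 2) (.n (.n (.b 2) (.n (.b 4) (.n (.l
  111 8) (.n (.n (.b 2) (.n (.l 55 99) (.n (.l 139 99) (.l 160 0)))) (.b 3))))) (.l 111 8))) (.b
  3))))) (.l 118 8))) (.l 118 8)))) (.b 3))))) (.b 3))))) (.n (.n (.b 2) (.n (.n (.b 2) (.n (.b 4)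
  (.n (.n (.b 2) (.n (.n (.b 2) (.n (.b 4) (.l 112 10))) (.n (.n (.b 2) (.l 112 10)) (.n (.n (.b
  2) (.l 112 10)) (.b 3))))) (.n (.n (.b 2) (.n (.n (.b 2) (.l 112 10)) (.n (.n (.b 2) (.n (.n (.b
  2) (.n (.b 4) (.n (.l 112 10) (.n (.n (.b 2) (.n (.l 118 10) (.n (.n (.b 2) (.n (.n (.b 2) (.n
  (.b 4) (.n (.l 139 99) (.l 160 0)))) (.l 64 10))) (.l 103 10)))) (.b 3))))) (.l 112 10))) (.n
  (.l 112 10) (.b 3))))) (.b 3))))) (.n (.n (.b 2) (.b 6)) (.n (.n (.b 2) (.n (.n (.b 2) (.n (.b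
  4) (.n (.l 58 11) (.n (.n (.b 2) (.n (.l 58 99) (.n (.l 160 0) (.l 139 99)))) (.b 3))))) (.n (.n
  (.b 2) (.n (.n (.b 2) (.l 106 11)) (.n (.n (.b 2) (.b 6)) (.l 106 11)))) (.n (.n (.b 2) (.n (.l
  106 11) (.n (.l 106 11) (.b 8)))) (.b 3))))) (.b 3))))) (.n (.n (.b 2) (.n (.n (.b 2) (.n (.b 4)
  (.n (.n (.b 2) (.n (.n (.b 2) (.l 112 10)) (.n (.n (.b 2) (.n (.n (.b 2) (.n (.b 4) (.n (.l 112
  10) (.n (.n (.b 2) (.n (.l 118 10) (.n (.l 112 10) (.n (.n (.b 2) (.n (.n (.b 2) (.n (.b 4) (.l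
  160 0))) (.l 55 10))) (.b 3))))) (.b 3))))) (.b 6))) (.n (.l 112 10) (.b 3))))) (.n (.n (.b 2)
  (.n (.l 112 10) (.n (.l 112 10) (.n (.n (.b 2) (.n (.n (.b 2) (.n (.b 4) (.n (.l 112 10) (.n (.n
  (.b 2) (.n (.l 112 10) (.n (.l 112 10) (.n (.n (.b 2) (.n (.n (.b 2) (.n (.b 4) (.n (.l 58 99)
  (.n (.l 160 0) (.b 3))))) (.l 58 11))) (.b 3))))) (.b 3))))) (.l 112 10))) (.b 3))))) (.b 3)))))
  (.n (.n (.b 2) (.n (.n (.b 2) (.n (.b 4) (.n (.n (.b 2) (.l 112 10)) (.n (.n (.b 2) (.n (.n (.b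
  2) (.n (.b 4) (.n (.l 112 10) (.n (.n (.b 2) (.n (.l 112 10) (.n (.l 112 10) (.n (.n (.b 2) (.n
  (.l 118 11) (.n (.n (.b 2) (.n (.l 160 0) (.l 139 99))) (.l 58 11)))) (.b 3))))) (.b 3))))) (.l
  112 10))) (.b 3))))) (.n (.n (.b 2) (.b 6)) (.n (.n (.b 2) (.n (.l 112 10) (.n (.n (.b 2) (.n
  (.n (.b 2) (.n (.b 4) (.n (.l 103 10) (.n (.n (.b 2) (.n (.l 103 10) (.n (.l 103 10) (.n (.n (.b
  2) (.n (.l 103 10) (.n (.n (.b 2) (.n (.l 55 99) (.n (.l 139 99) (.l 160 0)))) (.l 64 10)))) (.b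
  3))))) (.b 3))))) (.l 112 10))) (.l 112 10)))) (.b 3))))) (.n (.b 8) (.b 3))))) (.b 3))))) (.b
  3)))))

/-- A subtree of the table. -/
def s2 : T :=
  (.n (.b 2) (.n (.n (.b 2) (.n (.b 4) (.n (.n (.b 2) (.n (.n (.b 2) (.n (.b 4) (.n (.n (.b 2) (.n
  (.n (.b 2) (.n (.b 4) (.n (.n (.b 2) (.n (.n (.b 2) (.n (.b 4) (.n (.n (.b 2) (.n (.n (.b 2) (.l
  160 0)) (.l 55 10))) (.l 61 10)))) (.n (.n (.b 2) (.n (.l 91 10) (.b 6))) (.l 91 10)))) (.l 91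
  10)))) (.n (.n (.b 2) (.n (.l 98 10) (.b 6))) (.n (.n (.b 2) (.l 98 10)) (.b 3))))) (.n (.n (.b
  2) (.n (.n (.b 2) (.n (.b 4) (.l 98 10))) (.n (.n (.b 2) (.n (.n (.b 2) (.n (.b 4) (.l 98 10)))
  (.n (.n (.b 2) (.b 6)) (.l 98 10)))) (.n (.l 98 10) (.b 3))))) (.b 3))))) (.n (.n (.b 2) (.n (.n
  (.b 2) (.n (.b 4) (.n (.n (.b 2) (.n (.n (.b 2) (.n (.b 4) (.l 105 10))) (.n (.n (.b 2) (.n (.n
  (.b 2) (.n (.b 4) (.n (.n (.b 2) (.n (.l 105 10) (.n (.n (.b 2) (.l 160 0)) (.l 57 11)))) (.l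
  139 10)))) (.b 6))) (.l 105 10)))) (.n (.n (.b 2) (.l 105 10)) (.b 3))))) (.b 6))) (.n (.n (.b
  2) (.n (.n (.b 2) (.n (.b 4) (.n (.n (.b 2) (.l 125 7)) (.n (.n (.b 2) (.l 125 7)) (.b 3)))))
  (.n (.n (.b 2) (.n (.n (.b 2) (.n (.b 4) (.n (.l 160 0) (.l 57 11)))) (.n (.n (.b 2) (.b 6)) (.n
  (.l 139 4) (.b 3))))) (.n (.n (.b 2) (.n (.l 70 11) (.n (.l 70 11) (.b 8)))) (.b 3))))) (.b
  3))))) (.n (.n (.b 2) (.n (.n (.b 2) (.n (.b 4) (.n (.n (.b 2) (.n (.n (.b 2) (.n (.b 4) (.l 160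
  0))) (.n (.n (.b 2) (.n (.n (.b 2) (.n (.b 4) (.l 139 3))) (.b 6))) (.n (.l 139 3) (.b 3)))))
  (.n (.n (.b 2) (.n (.n (.b 2) (.l 135 5)) (.n (.n (.b 2) (.l 135 5)) (.n (.n (.b 2) (.n (.l 135
  5) (.n (.n (.b 2) (.n (.n (.b 2) (.n (.b 4) (.n (.l 135 5) (.n (.n (.b 2) (.n (.n (.b 2) (.n (.b
  4) (.n (.l 76 5) (.n (.l 160 0) (.b 3))))) (.l 76 5))) (.b 3))))) (.l 135 5))) (.l 135 5)))) (.b
  3))))) (.b 3))))) (.n (.n (.b 2) (.n (.n (.b 2) (.n (.b 4) (.n (.n (.b 2) (.l 121 8)) (.n (.n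
  (.b 2) (.n (.l 121 8) (.n (.n (.b 2) (.n (.n (.b 2) (.n (.b 4) (.n (.l 121 8) (.n (.n (.b 2) (.n
  (.l 139 8) (.n (.n (.b 2) (.n (.l 160 0) (.l 73 99))) (.l 73 8)))) (.b 3))))) (.l 121 8))) (.l
  121 8)))) (.b 3))))) (.n (.n (.b 2) (.b 6)) (.n (.n (.b 2) (.n (.n (.b 2) (.l 121 8)) (.n (.n
  (.b 2) (.n (.l 121 8) (.n (.n (.b 2) (.b 6)) (.l 121 8)))) (.l 121 8)))) (.b 3))))) (.n (.n (.b
  2) (.n (.n (.b 2) (.n (.b 4) (.n (.n (.b 2) (.n (.l 121 8) (.n (.n (.b 2) (.n (.n (.b 2) (.n (.b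
  4) (.n (.l 121 8) (.n (.n (.b 2) (.n (.l 139 8) (.n (.l 121 8) (.n (.n (.b 2) (.l 160 0)) (.b
  3))))) (.b 3))))) (.b 6))) (.l 121 8)))) (.n (.l 121 8) (.b 3))))) (.n (.n (.b 2) (.n (.l 121 8)
  (.n (.l 121 8) (.n (.n (.b 2) (.n (.l 121 8) (.n (.n (.b 2) (.n (.n (.b 2) (.n (.b 4) (.n (.l 98
  8) (.n (.n (.b 2) (.n (.l 73 8) (.n (.l 73 8) (.n (.n (.b 2) (.n (.l 73 8) (.n (.l 160 0) (.l 73
  99)))) (.b 3))))) (.b 3))))) (.l 121 8))) (.l 121 8)))) (.b 3))))) (.n (.b 8) (.b 3))))) (.b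
  3))))) (.b 3))))) (.n (.n (.b 2) (.n (.n (.b 2) (.n (.b 4) (.n (.n (.b 2) (.n (.n (.b 2) (.n (.b
  4) (.n (.n (.b 2) (.n (.n (.b 2) (.n (.b 4) (.n (.n (.b 2) (.n (.l 54 12) (.n (.n (.b 2) (.n (.l
  54 12) (.b 6))) (.l 54 12)))) (.l 54 12)))) (.l 54 12))) (.n (.n (.b 2) (.n (.n (.b 2) (.n (.b
  4) (.l 54 12))) (.n (.n (.b 2) (.n (.l 54 12) (.n (.n (.b 2) (.b 6)) (.l 54 12)))) (.l 54 12))))
  (.b 3))))) (.n (.n (.b 2) (.n (.n (.b 2) (.n (.b 4) (.n (.n (.b 2) (.n (.l 54 12) (.n (.n (.b 2)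
  (.n (.n (.b 2) (.n (.b 4) (.n (.n (.b 2) (.l 160 0)) (.l 118 99)))) (.b 6))) (.l 13 12)))) (.l
  76 12)))) (.b 6))) (.n (.n (.b 2) (.n (.n (.b 2) (.l 54 12)) (.n (.n (.b 2) (.n (.l 54 12) (.n
  (.n (.b 2) (.b 6)) (.l 54 12)))) (.n (.l 54 12) (.b 3))))) (.b 3))))) (.n (.n (.b 2) (.n (.n (.b
  2) (.n (.b 4) (.n (.n (.b 2) (.n (.n (.b 2) (.n (.b 4) (.b 11))) (.n (.n (.b 2) (.n (.l 54 12)
  (.b 6))) (.l 54 12)))) (.n (.l 54 12) (.b 3))))) (.n (.n (.b 2) (.n (.n (.b 2) (.l 54 12)) (.n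
  (.n (.b 2) (.b 6)) (.n (.n (.b 2) (.n (.l 54 12) (.n (.n (.b 2) (.n (.l 54 12) (.n (.n (.b 2)
  (.b 6)) (.l 54 12)))) (.l 54 12)))) (.b 3))))) (.n (.n (.b 2) (.n (.n (.b 2) (.n (.b 4) (.n (.n
  (.b 2) (.n (.l 54 12) (.n (.n (.b 2) (.n (.n (.b 2) (.n (.b 4) (.n (.l 0 99) (.n (.n (.b 2) (.n
  (.l 139 99) (.l 160 0))) (.b 3))))) (.b 6))) (.l 54 12)))) (.l 54 12)))) (.n (.l 54 12) (.n (.b
  8) (.b 3))))) (.b 3))))) (.b 3))))) (.n (.b 6) (.n (.n (.b 2) (.n (.n (.b 2) (.n (.b 4) (.n (.n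
  (.b 2) (.n (.n (.b 2) (.l 160 0)) (.n (.l 160 0) (.l 160 0)))) (.n (.n (.b 2) (.n (.l 160 0) (.l
  160 0))) (.b 3))))) (.n (.n (.b 2) (.n (.n (.b 2) (.n (.b 4) (.n (.l 160 0) (.l 160 0)))) (.n
  (.n (.b 2) (.b 6)) (.n (.n (.b 2) (.l 160 0)) (.b 3))))) (.n (.n (.b 2) (.n (.n (.b 2) (.n (.b
  4) (.l 160 0))) (.n (.n (.b 2) (.l 160 0)) (.b 8)))) (.b 3))))) (.b 3))))) (.n (.n (.b 2) (.n
  (.n (.b 2) (.n (.b 4) (.n (.n (.b 2) (.n (.n (.b 2) (.n (.b 4) (.n (.n (.b 2) (.n (.n (.b 2) (.n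
  (.b 4) (.l 139 3))) (.n (.n (.b 2) (.n (.l 139 3) (.b 6))) (.l 139 3)))) (.n (.l 139 3) (.b
  3))))) (.n (.n (.b 2) (.n (.n (.b 2) (.l 139 3)) (.b 6))) (.n (.n (.b 2) (.n (.n (.b 2) (.n (.b
  4) (.n (.n (.b 2) (.n (.l 139 3) (.n (.l 139 3) (.n (.n (.b 2) (.n (.n (.b 2) (.n (.b 4) (.n (.n
  (.b 2) (.n (.l 118 99) (.l 160 0))) (.l 139 3)))) (.l 139 3))) (.b 3))))) (.l 139 3)))) (.n (.l
  139 3) (.n (.l 139 3) (.b 3))))) (.b 3))))) (.n (.n (.b 2) (.n (.n (.b 2) (.n (.b 4) (.n (.l 139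
  3) (.n (.l 139 3) (.b 3))))) (.n (.n (.b 2) (.n (.n (.b 2) (.l 139 3)) (.n (.n (.b 2) (.b 6))
  (.n (.n (.b 2) (.n (.l 160 0) (.l 74 99))) (.b 3))))) (.n (.n (.b 2) (.n (.l 139 3) (.n (.l 139
  3) (.n (.b 8) (.b 3))))) (.b 3))))) (.b 3))))) (.n (.n (.b 2) (.n (.n (.b 2) (.n (.b 4) (.n (.n
  (.b 2) (.n (.n (.b 2) (.l 111 3)) (.n (.n (.b 2) (.n (.l 139 3) (.b 6))) (.n (.n (.b 2) (.l 160
  0)) (.b 3))))) (.n (.n (.b 2) (.n (.l 111 3) (.n (.l 111 3) (.n (.n (.b 2) (.n (.l 111 3) (.n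
  (.n (.b 2) (.n (.l 111 3) (.n (.l 111 3) (.n (.n (.b 2) (.n (.l 111 3) (.n (.n (.b 2) (.n (.n
  (.b 2) (.n (.b 4) (.n (.l 13 12) (.n (.l 160 0) (.b 3))))) (.l 108 3))) (.l 111 3)))) (.b 3)))))
  (.l 111 3)))) (.b 3))))) (.b 3))))) (.n (.n (.b 2) (.b 6)) (.n (.n (.b 2) (.n (.n (.b 2) (.n (.b
  4) (.n (.n (.b 2) (.n (.l 139 3) (.n (.n (.b 2) (.n (.l 139 3) (.b 6))) (.l 139 3)))) (.l 139
  3)))) (.n (.n (.b 2) (.n (.l 139 3) (.n (.l 139 3) (.n (.n (.b 2) (.n (.l 139 3) (.n (.n (.b 2)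
  (.n (.l 139 3) (.n (.l 139 3) (.n (.n (.b 2) (.n (.l 139 3) (.n (.n (.b 2) (.n (.l 139 3) (.n
  (.l 139 3) (.n (.n (.b 2) (.n (.l 76 9) (.n (.l 160 0) (.l 76 99)))) (.b 3))))) (.l 139 3))))
  (.b 3))))) (.l 139 3)))) (.b 3))))) (.n (.n (.b 2) (.n (.n (.b 2) (.n (.b 4) (.n (.n (.b 2) (.n
  (.l 139 3) (.n (.l 139 3) (.n (.n (.b 2) (.n (.l 139 3) (.n (.n (.b 2) (.n (.l 132 3) (.n (.l
  124 3) (.n (.n (.b 2) (.n (.l 118 99) (.l 160 0))) (.b 3))))) (.l 132 3)))) (.b 3))))) (.l 139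
  3)))) (.l 139 3))) (.b 3))))) (.b 3))))) (.n (.n (.b 2) (.n (.n (.b 2) (.n (.b 4) (.n (.n (.b 2)
  (.n (.l 117 3) (.n (.l 117 3) (.n (.n (.b 2) (.n (.l 117 3) (.n (.n (.b 2) (.n (.l 117 3) (.n
  (.l 117 3) (.n (.n (.b 2) (.n (.l 117 3) (.n (.l 117 3) (.n (.n (.b 2) (.n (.n (.b 2) (.n (.b 4)
  (.n (.l 160 0) (.l 19 99)))) (.l 117 3))) (.b 3))))) (.b 3))))) (.l 117 3)))) (.b 3))))) (.n (.n
  (.b 2) (.n (.n (.b 2) (.n (.b 4) (.n (.n (.b 2) (.n (.l 117 3) (.n (.l 117 3) (.n (.n (.b 2) (.n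
  (.l 90 3) (.n (.l 124 3) (.n (.n (.b 2) (.n (.n (.b 2) (.n (.b 4) (.l 160 0))) (.l 139 3))) (.b
  3))))) (.b 3))))) (.l 117 3)))) (.l 117 3))) (.b 3))))) (.n (.n (.b 2) (.n (.n (.b 2) (.n (.b 4)
  (.n (.l 117 3) (.n (.l 117 3) (.b 3))))) (.n (.n (.b 2) (.b 6)) (.n (.l 117 3) (.b 3))))) (.b
  8)))) (.b 3))))) (.b 3)))))

/-- A subtree of the table. -/
def s3 : T :=
  (.b 2)

/-- A subtree of the table. -/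
def s4 : T :=
  (.n (.b 2) (.n (.b 4) (.n (.n (.b 2) (.n (.n (.b 2) (.n (.b 4) (.n (.n (.b 2) (.n (.n (.b 2) (.n
  (.b 4) (.l 139 5))) (.n (.n (.b 2) (.n (.n (.b 2) (.n (.b 4) (.l 139 5))) (.b 6))) (.n (.l 139
  5) (.b 3))))) (.n (.n (.b 2) (.n (.n (.b 2) (.l 160 0)) (.n (.n (.b 2) (.l 139 2)) (.n (.n (.b
  2) (.n (.l 139 2) (.n (.l 139 2) (.n (.b 8) (.b 3))))) (.b 3))))) (.b 3))))) (.n (.n (.b 2) (.n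
  (.n (.b 2) (.n (.b 4) (.n (.n (.b 2) (.l 139 6)) (.n (.n (.b 2) (.n (.l 139 6) (.n (.l 139 6)
  (.n (.n (.b 2) (.n (.n (.b 2) (.n (.b 4) (.n (.n (.b 2) (.n (.l 139 6) (.n (.n (.b 2) (.n (.l
  160 0) (.b 6))) (.l 139 6)))) (.l 139 6)))) (.l 139 6))) (.b 3))))) (.b 3))))) (.b 6))) (.n (.n
  (.b 2) (.n (.n (.b 2) (.n (.b 4) (.n (.n (.b 2) (.n (.l 139 6) (.n (.l 139 6) (.n (.n (.b 2) (.n
  (.n (.b 2) (.n (.b 4) (.n (.n (.b 2) (.n (.l 139 7) (.n (.l 139 7) (.n (.n (.b 2) (.l 160 0))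
  (.b 3))))) (.l 139 6)))) (.l 139 6))) (.b 3))))) (.n (.l 139 6) (.b 3))))) (.n (.n (.b 2) (.n
  (.l 139 6) (.n (.l 139 6) (.n (.n (.b 2) (.n (.l 139 6) (.n (.l 139 6) (.n (.n (.b 2) (.n (.n
  (.b 2) (.n (.b 4) (.n (.n (.b 2) (.n (.l 139 6) (.n (.l 139 6) (.n (.n (.b 2) (.n (.l 76 8) (.n
  (.l 160 0) (.l 76 99)))) (.b 3))))) (.l 139 6)))) (.l 139 6))) (.b 3))))) (.b 3))))) (.n (.n (.b
  2) (.n (.n (.b 2) (.n (.b 4) (.n (.l 139 6) (.n (.n (.b 2) (.n (.n (.b 2) (.n (.b 4) (.n (.n (.b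
  2) (.n (.l 132 6) (.n (.l 118 6) (.n (.n (.b 2) (.n (.l 118 99) (.l 160 0))) (.b 3))))) (.l 132
  6)))) (.l 139 6))) (.b 3))))) (.l 139 6))) (.b 3))))) (.b 3))))) (.n (.n (.b 2) (.n (.n (.b 2)
  (.n (.b 4) (.n (.n (.b 2) (.n (.n (.b 2) (.l 139 6)) (.n (.n (.b 2) (.l 139 6)) (.n (.n (.b 2)
  (.n (.l 139 6) (.n (.l 139 6) (.n (.n (.b 2) (.n (.n (.b 2) (.n (.b 4) (.n (.l 139 6) (.n (.n
  (.b 2) (.n (.n (.b 2) (.n (.b 4) (.n (.l 160 0) (.l 76 99)))) (.l 139 6))) (.b 3))))) (.l 139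
  6))) (.b 3))))) (.b 3))))) (.n (.n (.b 2) (.n (.n (.b 2) (.n (.b 4) (.n (.l 139 6) (.n (.n (.b
  2) (.n (.n (.b 2) (.n (.b 4) (.n (.l 139 6) (.n (.n (.b 2) (.n (.n (.b 2) (.n (.b 4) (.l 160
  0))) (.l 139 6))) (.b 3))))) (.l 139 6))) (.b 3))))) (.n (.l 139 6) (.n (.l 139 6) (.b 3)))))
  (.b 3))))) (.n (.n (.b 2) (.n (.n (.b 2) (.n (.b 4) (.n (.l 139 6) (.n (.l 139 6) (.b 3))))) (.n
  (.n (.b 2) (.b 6)) (.n (.n (.b 2) (.n (.n (.b 2) (.n (.b 4) (.n (.l 76 99) (.l 160 0)))) (.n (.l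
  139 7) (.n (.n (.b 2) (.n (.l 139 7) (.n (.l 139 7) (.b 8)))) (.b 3))))) (.b 3))))) (.n (.n (.b
  2) (.n (.n (.b 2) (.n (.b 4) (.n (.l 139 6) (.n (.n (.b 2) (.n (.l 139 6) (.n (.l 139 6) (.n (.n
  (.b 2) (.n (.n (.b 2) (.n (.b 4) (.n (.l 139 6) (.n (.n (.b 2) (.n (.l 139 6) (.n (.l 139 6) (.n
  (.n (.b 2) (.n (.l 160 0) (.l 76 99))) (.b 3))))) (.b 3))))) (.l 139 6))) (.b 3))))) (.b 3)))))
  (.n (.n (.b 2) (.n (.n (.b 2) (.n (.b 4) (.n (.l 139 6) (.n (.n (.b 2) (.n (.n (.b 2) (.n (.b 4)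
  (.n (.l 139 6) (.n (.n (.b 2) (.n (.l 111 6) (.n (.l 139 6) (.n (.n (.b 2) (.l 160 0)) (.b
  3))))) (.b 3))))) (.l 139 6))) (.b 3))))) (.l 139 6))) (.n (.b 8) (.b 3))))) (.b 3))))) (.b
  3)))))

/-- A subtree of the table. -/
def s5 : T :=
  (.n (.n (.b 2) (.n (.n (.b 2) (.n (.b 4) (.n (.n (.b 2) (.n (.n (.b 2) (.n (.b 4) (.n (.n (.b 2)
  (.l 139 6)) (.n (.n (.b 2) (.l 139 6)) (.b 3))))) (.n (.n (.b 2) (.n (.n (.b 2) (.l 139 6)) (.b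
  6))) (.n (.n (.b 2) (.n (.l 139 3) (.n (.n (.b 2) (.l 160 0)) (.n (.n (.b 2) (.n (.l 118 10) (.n
  (.l 118 10) (.b 8)))) (.b 3))))) (.b 3))))) (.n (.n (.b 2) (.n (.n (.b 2) (.n (.b 4) (.n (.n (.b
  2) (.l 139 6)) (.n (.n (.b 2) (.n (.l 139 6) (.n (.l 139 6) (.n (.n (.b 2) (.n (.l 139 6) (.n
  (.n (.b 2) (.n (.n (.b 2) (.n (.b 4) (.n (.l 139 6) (.n (.n (.b 2) (.n (.l 160 0) (.l 70 99)))
  (.b 3))))) (.l 139 6))) (.l 139 6)))) (.b 3))))) (.b 3))))) (.n (.n (.b 2) (.n (.n (.b 2) (.n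
  (.b 4) (.n (.l 139 6) (.n (.n (.b 2) (.n (.l 139 6) (.n (.n (.b 2) (.n (.n (.b 2) (.n (.b 4) (.n
  (.l 139 6) (.n (.n (.b 2) (.l 160 0)) (.b 3))))) (.l 120 6))) (.l 139 6)))) (.b 3))))) (.n (.l
  139 6) (.n (.l 139 6) (.b 3))))) (.n (.n (.b 2) (.n (.l 139 6) (.n (.n (.b 2) (.n (.l 139 6) (.n
  (.l 139 6) (.n (.n (.b 2) (.n (.l 139 6) (.n (.n (.b 2) (.n (.n (.b 2) (.n (.b 4) (.n (.l 118
  10) (.n (.n (.b 2) (.n (.l 70 12) (.n (.l 70 99) (.l 160 0)))) (.b 3))))) (.l 139 6))) (.l 139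
  6)))) (.b 3))))) (.l 139 6)))) (.b 3))))) (.b 3))))) (.n (.n (.b 2) (.b 6)) (.n (.n (.b 2) (.n
  (.n (.b 2) (.n (.b 4) (.n (.n (.b 2) (.n (.n (.b 2) (.l 114 6)) (.n (.n (.b 2) (.n (.l 114 6)
  (.b 6))) (.l 114 6)))) (.n (.n (.b 2) (.n (.l 114 6) (.n (.n (.b 2) (.n (.l 118 99) (.l 160 0)))
  (.n (.n (.b 2) (.n (.l 139 6) (.n (.l 139 6) (.n (.b 8) (.b 3))))) (.b 3))))) (.b 3))))) (.n (.n
  (.b 2) (.n (.n (.b 2) (.n (.b 4) (.n (.l 139 6) (.n (.n (.b 2) (.n (.l 139 6) (.n (.l 139 6) (.n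
  (.n (.b 2) (.n (.l 139 6) (.n (.n (.b 2) (.n (.l 139 6) (.n (.l 139 6) (.n (.n (.b 2) (.n (.l
  139 6) (.n (.n (.b 2) (.n (.l 160 0) (.l 64 99))) (.l 139 6)))) (.b 3))))) (.l 139 6)))) (.b
  3))))) (.b 3))))) (.n (.n (.b 2) (.b 6)) (.n (.n (.b 2) (.n (.l 139 6) (.n (.n (.b 2) (.n (.l
  139 6) (.n (.l 139 6) (.n (.n (.b 2) (.n (.l 139 6) (.n (.n (.b 2) (.n (.l 139 6) (.n (.l 139 6)
  (.n (.n (.b 2) (.n (.l 112 10) (.n (.n (.b 2) (.n (.l 64 13) (.n (.l 64 99) (.l 160 0)))) (.l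
  112 10)))) (.b 3))))) (.l 139 6)))) (.b 3))))) (.l 139 6)))) (.b 3))))) (.n (.n (.b 2) (.n (.n
  (.b 2) (.n (.b 4) (.n (.n (.b 2) (.n (.l 139 6) (.n (.l 139 6) (.n (.n (.b 2) (.n (.l 139 6) (.n
  (.n (.b 2) (.n (.l 139 6) (.n (.l 139 6) (.n (.n (.b 2) (.n (.l 112 10) (.n (.l 112 10) (.n (.n
  (.b 2) (.l 160 0)) (.b 3))))) (.b 3))))) (.l 139 6)))) (.b 3))))) (.l 139 6)))) (.n (.l 139 6)
  (.b 8)))) (.b 3))))) (.b 3))))) (.n (.n (.b 2) (.n (.n (.b 2) (.n (.b 4) (.n (.n (.b 2) (.n (.n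
  (.b 2) (.n (.b 4) (.n (.n (.b 2) (.l 139 3)) (.n (.n (.b 2) (.n (.l 139 3) (.n (.l 139 3) (.n
  (.n (.b 2) (.n (.l 139 3) (.n (.l 139 3) (.n (.b 8) (.b 3))))) (.b 3))))) (.b 3))))) (.n (.n (.b
  2) (.n (.n (.b 2) (.n (.b 4) (.n (.l 139 3) (.n (.n (.b 2) (.n (.l 139 3) (.n (.l 139 3) (.n (.n
  (.b 2) (.n (.n (.b 2) (.n (.b 4) (.n (.n (.b 2) (.l 160 0)) (.l 118 3)))) (.l 111 3))) (.b
  3))))) (.b 3))))) (.b 6))) (.n (.n (.b 2) (.n (.l 139 3) (.n (.n (.b 2) (.n (.l 139 3) (.n (.l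
  139 3) (.n (.n (.b 2) (.n (.l 139 3) (.n (.l 139 3) (.n (.n (.b 2) (.n (.n (.b 2) (.n (.b 4) (.n
  (.n (.b 2) (.n (.l 70 12) (.n (.l 70 99) (.l 160 0)))) (.l 139 3)))) (.l 139 3))) (.b 3))))) (.b
  3))))) (.l 139 3)))) (.b 3))))) (.n (.n (.b 2) (.n (.n (.b 2) (.n (.b 4) (.n (.n (.b 2) (.n (.l
  139 3) (.n (.l 139 3) (.n (.n (.b 2) (.n (.l 139 3) (.n (.l 139 3) (.n (.n (.b 2) (.n (.n (.b 2)
  (.n (.b 4) (.n (.l 139 3) (.n (.n (.b 2) (.l 160 0)) (.b 3))))) (.l 139 3))) (.b 3))))) (.b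
  3))))) (.l 139 3)))) (.n (.n (.b 2) (.n (.l 139 3) (.n (.l 139 3) (.n (.n (.b 2) (.n (.l 139 3)
  (.n (.l 139 3) (.n (.n (.b 2) (.n (.l 139 3) (.n (.l 139 3) (.b 8)))) (.b 3))))) (.b 3))))) (.n
  (.n (.b 2) (.n (.n (.b 2) (.n (.b 4) (.n (.l 139 3) (.n (.n (.b 2) (.n (.l 139 3) (.n (.l 139 3)
  (.n (.n (.b 2) (.n (.n (.b 2) (.n (.b 4) (.n (.l 114 3) (.n (.n (.b 2) (.n (.l 118 99) (.l 160
  0))) (.b 3))))) (.l 114 3))) (.b 3))))) (.b 3))))) (.l 139 3))) (.b 3))))) (.b 3))))) (.n (.n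
  (.b 2) (.n (.n (.b 2) (.n (.b 4) (.n (.n (.b 2) (.n (.l 139 6) (.n (.l 139 6) (.n (.n (.b 2) (.n
  (.l 139 6) (.n (.b 12) (.n (.n (.b 2) (.n (.l 139 6) (.n (.l 139 6) (.b 8)))) (.b 3))))) (.b
  3))))) (.n (.n (.b 2) (.n (.n (.b 2) (.n (.b 4) (.n (.l 139 6) (.n (.n (.b 2) (.n (.l 139 6) (.n
  (.l 139 6) (.n (.n (.b 2) (.n (.l 139 6) (.n (.n (.b 2) (.n (.n (.b 2) (.n (.b 4) (.l 160 0)))
  (.l 139 6))) (.l 92 6)))) (.b 3))))) (.b 3))))) (.l 139 6))) (.b 3))))) (.n (.n (.b 2) (.b 6))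
  (.n (.n (.b 2) (.n (.n (.b 2) (.n (.b 4) (.n (.l 139 6) (.n (.n (.b 2) (.n (.l 139 6) (.n (.l
  139 6) (.n (.n (.b 2) (.n (.l 139 6) (.n (.l 139 6) (.n (.b 8) (.b 3))))) (.b 3))))) (.b 3)))))
  (.n (.n (.b 2) (.n (.n (.b 2) (.n (.b 4) (.n (.l 137 6) (.n (.n (.b 2) (.n (.l 137 6) (.n (.l
  137 6) (.n (.n (.b 2) (.n (.l 137 6) (.n (.n (.b 2) (.n (.l 89 6) (.n (.l 139 6) (.n (.n (.b 2)
  (.l 160 0)) (.b 3))))) (.l 98 6)))) (.b 3))))) (.b 3))))) (.l 139 6))) (.l 139 6)))) (.b 3)))))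
  (.n (.n (.b 2) (.b 8)) (.b 3))))) (.b 3)))

/-- A subtree of the table. -/
def s6 : T :=
  (.b 3)

/-- A subtree of the table. -/
def s7 : T :=
  (.b 2)

/-- A subtree of the table. -/
def s8 : T :=
  (.n (.b 2) (.n (.b 4) (.n (.n (.b 2) (.n (.n (.b 2) (.n (.b 4) (.n (.n (.b 2) (.n (.n (.b 2) (.n
  (.b 4) (.n (.n (.b 2) (.n (.n (.b 2) (.n (.b 4) (.n (.n (.b 2) (.n (.n (.b 2) (.n (.b 4) (.n (.l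
  160 0) (.l 76 99)))) (.l 106 8))) (.l 106 8)))) (.n (.n (.b 2) (.n (.l 113 8) (.b 6))) (.l 113
  8)))) (.n (.n (.b 2) (.l 113 8)) (.b 3))))) (.n (.n (.b 2) (.n (.n (.b 2) (.n (.b 4) (.l 120
  8))) (.b 6))) (.n (.n (.b 2) (.n (.n (.b 2) (.l 120 8)) (.n (.n (.b 2) (.l 120 8)) (.n (.l 120
  8) (.b 3))))) (.b 3))))) (.n (.n (.b 2) (.n (.n (.b 2) (.n (.b 4) (.n (.n (.b 2) (.l 160 0)) (.n
  (.l 139 2) (.b 3))))) (.n (.n (.b 2) (.n (.n (.b 2) (.n (.b 4) (.l 136 5))) (.n (.n (.b 2) (.b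
  6)) (.n (.l 136 5) (.b 3))))) (.n (.n (.b 2) (.n (.n (.b 2) (.l 136 5)) (.n (.l 136 5) (.n (.b
  8) (.b 3))))) (.b 3))))) (.b 3))))) (.n (.n (.b 2) (.n (.n (.b 2) (.n (.b 4) (.n (.n (.b 2) (.n
  (.n (.b 2) (.n (.b 4) (.l 117 9))) (.n (.n (.b 2) (.n (.n (.b 2) (.n (.b 4) (.n (.n (.b 2) (.n
  (.l 117 9) (.n (.n (.b 2) (.n (.n (.b 2) (.l 160 0)) (.b 6))) (.l 76 9)))) (.l 139 9)))) (.b
  6))) (.n (.n (.b 2) (.l 117 9)) (.b 3))))) (.n (.n (.b 2) (.n (.n (.b 2) (.l 117 9)) (.n (.l 117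
  9) (.n (.n (.b 2) (.n (.n (.b 2) (.n (.b 4) (.n (.n (.b 2) (.n (.l 117 9) (.n (.n (.b 2) (.n (.n
  (.b 2) (.n (.b 4) (.n (.l 63 99) (.l 160 0)))) (.b 6))) (.l 117 9)))) (.l 117 9)))) (.l 117 9)))
  (.b 3))))) (.b 3))))) (.b 6))) (.n (.n (.b 2) (.n (.n (.b 2) (.n (.b 4) (.n (.n (.b 2) (.n (.n
  (.b 2) (.l 137 9)) (.n (.l 137 9) (.n (.n (.b 2) (.n (.n (.b 2) (.n (.b 4) (.n (.n (.b 2) (.n
  (.l 131 9) (.n (.l 131 9) (.n (.n (.b 2) (.n (.n (.b 2) (.n (.b 4) (.l 160 0))) (.l 139 9))) (.b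
  3))))) (.l 137 9)))) (.l 137 9))) (.b 3))))) (.n (.n (.b 2) (.n (.l 137 9) (.n (.l 137 9) (.n
  (.l 137 9) (.b 3))))) (.b 3))))) (.n (.n (.b 2) (.n (.n (.b 2) (.n (.b 4) (.n (.n (.b 2) (.n (.l
  76 9) (.l 160 0))) (.n (.l 76 9) (.b 3))))) (.n (.n (.b 2) (.b 6)) (.n (.n (.b 2) (.n (.l 139 6)
  (.n (.l 139 6) (.n (.n (.b 2) (.n (.n (.b 2) (.n (.b 4) (.n (.n (.b 2) (.n (.l 139 6) (.n (.l
  139 6) (.n (.n (.b 2) (.n (.l 111 6) (.n (.n (.b 2) (.n (.l 97 6) (.n (.l 97 99) (.l 160 0))))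
  (.l 97 6)))) (.b 3))))) (.l 139 6)))) (.l 139 6))) (.b 3))))) (.b 3))))) (.n (.n (.b 2) (.n (.n
  (.b 2) (.n (.b 4) (.n (.l 82 9) (.n (.n (.b 2) (.n (.n (.b 2) (.n (.b 4) (.n (.n (.b 2) (.n (.l
  82 9) (.n (.l 82 9) (.n (.n (.b 2) (.n (.l 55 13) (.n (.l 97 13) (.n (.n (.b 2) (.l 160 0)) (.b
  3))))) (.b 3))))) (.l 82 9)))) (.l 82 9))) (.b 3))))) (.n (.n (.b 2) (.n (.l 82 9) (.n (.l 82 9)
  (.n (.l 82 9) (.b 3))))) (.b 8)))) (.b 3))))) (.b 3))))) (.n (.n (.b 2) (.n (.n (.b 2) (.n (.b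
  4) (.n (.n (.b 2) (.n (.n (.b 2) (.n (.b 4) (.n (.n (.b 2) (.l 139 2)) (.n (.l 160 0) (.b 3)))))
  (.n (.n (.b 2) (.n (.n (.b 2) (.n (.b 4) (.l 139 5))) (.b 6))) (.n (.n (.b 2) (.n (.n (.b 2) (.l
  139 5)) (.n (.l 139 5) (.n (.n (.b 2) (.n (.n (.b 2) (.n (.b 4) (.n (.l 139 5) (.n (.n (.b 2)
  (.n (.n (.b 2) (.n (.b 4) (.n (.n (.b 2) (.n (.l 97 5) (.n (.l 97 99) (.l 160 0)))) (.l 97 5))))
  (.l 139 5))) (.b 3))))) (.l 139 5))) (.b 3))))) (.b 3))))) (.n (.n (.b 2) (.n (.n (.b 2) (.n (.b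
  4) (.n (.l 139 7) (.n (.n (.b 2) (.n (.n (.b 2) (.n (.b 4) (.n (.l 139 7) (.n (.n (.b 2) (.n (.n
  (.b 2) (.n (.b 4) (.n (.l 139 7) (.n (.n (.b 2) (.l 160 0)) (.b 3))))) (.l 139 7))) (.b 3)))))
  (.l 139 7))) (.b 3))))) (.n (.n (.b 2) (.n (.l 139 7) (.n (.l 139 7) (.n (.l 139 7) (.b 3)))))
  (.n (.n (.b 2) (.n (.l 139 7) (.n (.n (.b 2) (.n (.n (.b 2) (.n (.b 4) (.n (.l 139 7) (.n (.n
  (.b 2) (.n (.n (.b 2) (.n (.b 4) (.n (.l 132 7) (.n (.n (.b 2) (.n (.l 76 99) (.l 160 0))) (.b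
  3))))) (.l 132 7))) (.b 3))))) (.l 139 7))) (.l 139 7)))) (.b 3))))) (.b 3))))) (.n (.n (.b 2)
  (.n (.n (.b 2) (.n (.b 4) (.n (.n (.b 2) (.n (.n (.b 2) (.l 133 9)) (.n (.n (.b 2) (.l 133 9))
  (.n (.l 133 9) (.b 3))))) (.n (.n (.b 2) (.n (.l 133 9) (.n (.n (.b 2) (.n (.n (.b 2) (.n (.b 4)
  (.n (.l 133 9) (.n (.n (.b 2) (.n (.l 139 9) (.n (.n (.b 2) (.n (.n (.b 2) (.n (.b 4) (.l 160
  0))) (.l 85 9))) (.l 124 9)))) (.b 3))))) (.l 133 9))) (.n (.l 133 9) (.b 3))))) (.b 3))))) (.n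
  (.n (.b 2) (.b 6)) (.n (.n (.b 2) (.n (.n (.b 2) (.n (.b 4) (.n (.l 79 10) (.n (.n (.b 2) (.n
  (.l 79 99) (.l 160 0))) (.b 3))))) (.n (.n (.b 2) (.n (.l 127 10) (.n (.n (.b 2) (.b 6)) (.l 127
  10)))) (.n (.n (.b 2) (.n (.l 127 10) (.n (.l 127 10) (.b 8)))) (.b 3))))) (.b 3))))) (.n (.n
  (.b 2) (.n (.n (.b 2) (.n (.b 4) (.n (.n (.b 2) (.n (.l 133 9) (.n (.n (.b 2) (.n (.n (.b 2) (.n
  (.b 4) (.n (.l 133 9) (.n (.n (.b 2) (.n (.l 139 9) (.n (.l 133 9) (.n (.n (.b 2) (.n (.n (.b 2)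
  (.l 160 0)) (.l 76 9))) (.b 3))))) (.b 3))))) (.b 6))) (.n (.l 133 9) (.b 3))))) (.n (.n (.b 2)
  (.n (.l 133 9) (.n (.l 133 9) (.n (.n (.b 2) (.n (.n (.b 2) (.n (.b 4) (.n (.l 133 9) (.n (.n
  (.b 2) (.n (.l 133 9) (.n (.l 133 9) (.n (.n (.b 2) (.n (.n (.b 2) (.n (.b 4) (.n (.l 79 99) (.l
  160 0)))) (.l 79 10))) (.b 3))))) (.b 3))))) (.l 133 9))) (.b 3))))) (.b 3))))) (.n (.n (.b 2)
  (.n (.n (.b 2) (.n (.b 4) (.n (.l 133 9) (.n (.n (.b 2) (.n (.n (.b 2) (.n (.b 4) (.n (.l 133 9)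
  (.n (.n (.b 2) (.n (.l 133 9) (.n (.l 133 9) (.n (.n (.b 2) (.n (.l 139 10) (.n (.n (.b 2) (.l
  160 0)) (.l 79 10)))) (.b 3))))) (.b 3))))) (.l 133 9))) (.b 3))))) (.n (.n (.b 2) (.b 6)) (.n
  (.n (.b 2) (.n (.l 133 9) (.n (.n (.b 2) (.n (.n (.b 2) (.n (.b 4) (.n (.l 124 9) (.n (.n (.b 2)
  (.n (.l 124 9) (.n (.l 124 9) (.n (.n (.b 2) (.n (.l 124 9) (.n (.n (.b 2) (.n (.l 76 99) (.l
  160 0))) (.l 85 9)))) (.b 3))))) (.b 3))))) (.l 133 9))) (.l 133 9)))) (.b 3))))) (.n (.b 8) (.b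
  3))))) (.b 3))))) (.b 3)))))

/-- A subtree of the table. -/
def s9 : T :=
  (.n (.b 2) (.n (.n (.b 2) (.n (.b 4) (.n (.n (.b 2) (.n (.n (.b 2) (.n (.b 4) (.n (.n (.b 2) (.n
  (.n (.b 2) (.n (.b 4) (.n (.n (.b 2) (.n (.n (.b 2) (.n (.b 4) (.n (.n (.b 2) (.n (.l 76 9) (.l
  76 9))) (.l 82 9)))) (.n (.n (.b 2) (.n (.l 112 9) (.b 6))) (.l 112 9)))) (.l 112 9)))) (.n (.n
  (.b 2) (.n (.l 119 9) (.b 6))) (.n (.n (.b 2) (.l 119 9)) (.b 3))))) (.n (.n (.b 2) (.n (.n (.b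
  2) (.n (.b 4) (.l 119 9))) (.n (.n (.b 2) (.n (.n (.b 2) (.n (.b 4) (.l 119 9))) (.n (.n (.b 2)
  (.b 6)) (.l 119 9)))) (.n (.l 119 9) (.b 3))))) (.b 3))))) (.n (.n (.b 2) (.n (.n (.b 2) (.n (.b
  4) (.n (.n (.b 2) (.n (.n (.b 2) (.n (.b 4) (.l 126 9))) (.n (.n (.b 2) (.n (.n (.b 2) (.n (.b
  4) (.n (.n (.b 2) (.n (.l 126 9) (.n (.l 78 10) (.l 78 10)))) (.l 160 9)))) (.b 6))) (.l 126
  9)))) (.n (.n (.b 2) (.l 126 9)) (.b 3))))) (.b 6))) (.n (.n (.b 2) (.n (.n (.b 2) (.n (.b 4)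
  (.n (.n (.b 2) (.l 146 6)) (.n (.n (.b 2) (.l 146 6)) (.b 3))))) (.n (.n (.b 2) (.n (.n (.b 2)
  (.n (.b 4) (.l 78 10))) (.n (.n (.b 2) (.b 6)) (.n (.l 160 3) (.b 3))))) (.n (.n (.b 2) (.n (.l
  91 10) (.n (.l 91 10) (.b 8)))) (.b 3))))) (.b 3))))) (.n (.n (.b 2) (.n (.n (.b 2) (.n (.b 4)
  (.n (.n (.b 2) (.n (.n (.b 2) (.n (.b 4) (.b 11))) (.n (.n (.b 2) (.n (.n (.b 2) (.n (.b 4) (.l
  160 2))) (.b 6))) (.n (.l 160 2) (.b 3))))) (.n (.n (.b 2) (.n (.n (.b 2) (.l 156 4)) (.n (.n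
  (.b 2) (.l 156 4)) (.n (.n (.b 2) (.n (.l 156 4) (.n (.n (.b 2) (.n (.n (.b 2) (.n (.b 4) (.n
  (.l 156 4) (.n (.n (.b 2) (.n (.n (.b 2) (.n (.b 4) (.n (.l 97 4) (.l 97 4)))) (.l 97 4))) (.b
  3))))) (.l 156 4))) (.l 156 4)))) (.b 3))))) (.b 3))))) (.n (.n (.b 2) (.n (.n (.b 2) (.n (.b 4)
  (.n (.n (.b 2) (.l 142 7)) (.n (.n (.b 2) (.n (.l 142 7) (.n (.n (.b 2) (.n (.n (.b 2) (.n (.b
  4) (.n (.l 142 7) (.n (.n (.b 2) (.n (.l 160 7) (.n (.n (.b 2) (.l 94 7)) (.l 94 7)))) (.b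
  3))))) (.l 142 7))) (.l 142 7)))) (.b 3))))) (.n (.n (.b 2) (.b 6)) (.n (.n (.b 2) (.n (.n (.b
  2) (.l 142 7)) (.n (.n (.b 2) (.n (.l 142 7) (.n (.n (.b 2) (.b 6)) (.l 142 7)))) (.l 142 7))))
  (.b 3))))) (.n (.n (.b 2) (.n (.n (.b 2) (.n (.b 4) (.n (.n (.b 2) (.n (.l 142 7) (.n (.n (.b 2)
  (.n (.n (.b 2) (.n (.b 4) (.n (.l 142 7) (.n (.n (.b 2) (.n (.l 160 7) (.n (.l 142 7) (.n (.l 94
  7) (.b 3))))) (.b 3))))) (.b 6))) (.l 142 7)))) (.n (.l 142 7) (.b 3))))) (.n (.n (.b 2) (.n (.l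
  142 7) (.n (.l 142 7) (.n (.n (.b 2) (.n (.l 142 7) (.n (.n (.b 2) (.n (.n (.b 2) (.n (.b 4) (.n
  (.l 119 7) (.n (.n (.b 2) (.n (.l 94 7) (.n (.l 94 7) (.n (.n (.b 2) (.n (.l 94 7) (.l 94 7)))
  (.b 3))))) (.b 3))))) (.l 142 7))) (.l 142 7)))) (.b 3))))) (.n (.b 8) (.b 3))))) (.b 3))))) (.b
  3))))) (.n (.n (.b 2) (.n (.n (.b 2) (.n (.b 4) (.n (.n (.b 2) (.n (.n (.b 2) (.n (.b 4) (.n (.n
  (.b 2) (.l 75 11)) (.n (.n (.b 2) (.n (.n (.b 2) (.n (.b 4) (.l 75 11))) (.l 75 11))) (.b 3)))))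
  (.n (.n (.b 2) (.n (.n (.b 2) (.n (.b 4) (.n (.n (.b 2) (.n (.l 75 11) (.n (.n (.b 2) (.n (.n
  (.b 2) (.n (.b 4) (.n (.l 160 0) (.l 139 99)))) (.b 6))) (.l 34 11)))) (.l 97 11)))) (.b 6)))
  (.n (.n (.b 2) (.n (.n (.b 2) (.l 75 11)) (.l 75 11))) (.b 3))))) (.n (.n (.b 2) (.n (.n (.b 2)
  (.n (.b 4) (.n (.n (.b 2) (.n (.n (.b 2) (.n (.b 4) (.b 11))) (.l 75 11))) (.l 75 11)))) (.n (.n
  (.b 2) (.n (.l 75 11) (.n (.n (.b 2) (.b 6)) (.l 75 11)))) (.n (.n (.b 2) (.n (.n (.b 2) (.n (.b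
  4) (.n (.n (.b 2) (.n (.l 75 11) (.n (.n (.b 2) (.n (.n (.b 2) (.n (.b 4) (.n (.l 21 99) (.n (.n
  (.b 2) (.l 160 0)) (.b 3))))) (.b 6))) (.l 75 11)))) (.l 75 11)))) (.l 75 11))) (.b 3))))) (.b
  3))))) (.b 6))) (.n (.n (.b 2) (.n (.n (.b 2) (.n (.b 4) (.n (.n (.b 2) (.n (.n (.b 2) (.n (.b
  4) (.n (.n (.b 2) (.n (.n (.b 2) (.n (.b 4) (.l 160 2))) (.n (.n (.b 2) (.n (.l 160 2) (.b 6)))
  (.l 160 2)))) (.n (.l 160 2) (.b 3))))) (.n (.n (.b 2) (.n (.n (.b 2) (.l 160 2)) (.b 6))) (.n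
  (.n (.b 2) (.n (.n (.b 2) (.n (.b 4) (.n (.n (.b 2) (.n (.l 160 2) (.n (.l 160 2) (.n (.n (.b 2)
  (.n (.n (.b 2) (.n (.b 4) (.n (.n (.b 2) (.l 139 2)) (.l 160 2)))) (.l 160 2))) (.b 3))))) (.l
  160 2)))) (.n (.l 160 2) (.n (.l 160 2) (.b 3))))) (.b 3))))) (.n (.n (.b 2) (.n (.n (.b 2) (.n
  (.b 4) (.n (.l 160 2) (.n (.l 160 2) (.b 3))))) (.n (.n (.b 2) (.n (.n (.b 2) (.l 160 2)) (.n
  (.n (.b 2) (.b 6)) (.n (.n (.b 2) (.l 95 11)) (.b 3))))) (.n (.n (.b 2) (.n (.l 160 2) (.n (.l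
  160 2) (.n (.b 8) (.b 3))))) (.b 3))))) (.b 3))))) (.n (.n (.b 2) (.n (.n (.b 2) (.n (.b 4) (.n
  (.n (.b 2) (.n (.n (.b 2) (.l 132 2)) (.n (.n (.b 2) (.n (.l 160 2) (.b 6))) (.n (.l 139 2) (.b
  3))))) (.n (.n (.b 2) (.n (.l 132 2) (.n (.l 132 2) (.n (.n (.b 2) (.n (.l 132 2) (.n (.n (.b 2)
  (.n (.l 132 2) (.n (.l 132 2) (.n (.n (.b 2) (.n (.l 132 2) (.n (.n (.b 2) (.n (.n (.b 2) (.n
  (.b 4) (.n (.l 34 11) (.l 34 11)))) (.l 129 2))) (.l 132 2)))) (.b 3))))) (.l 132 2)))) (.b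
  3))))) (.b 3))))) (.n (.n (.b 2) (.b 6)) (.n (.n (.b 2) (.n (.n (.b 2) (.n (.b 4) (.n (.n (.b 2)
  (.n (.l 160 2) (.n (.n (.b 2) (.n (.l 160 2) (.b 6))) (.l 160 2)))) (.l 160 2)))) (.n (.n (.b 2)
  (.n (.l 160 2) (.n (.l 160 2) (.n (.n (.b 2) (.n (.l 160 2) (.n (.n (.b 2) (.n (.l 160 2) (.n
  (.l 160 2) (.n (.n (.b 2) (.n (.l 160 2) (.n (.n (.b 2) (.n (.l 160 2) (.n (.l 160 2) (.n (.n
  (.b 2) (.n (.l 97 8) (.l 97 8))) (.b 3))))) (.l 160 2)))) (.b 3))))) (.l 160 2)))) (.b 3)))))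
  (.n (.n (.b 2) (.n (.n (.b 2) (.n (.b 4) (.n (.n (.b 2) (.n (.l 160 2) (.n (.l 160 2) (.n (.n
  (.b 2) (.n (.l 160 2) (.n (.n (.b 2) (.n (.l 153 2) (.n (.l 145 2) (.n (.n (.b 2) (.l 139 2))
  (.b 3))))) (.l 153 2)))) (.b 3))))) (.l 160 2)))) (.l 160 2))) (.b 3))))) (.b 3))))) (.n (.n (.b
  2) (.n (.n (.b 2) (.n (.b 4) (.n (.n (.b 2) (.n (.l 138 2) (.n (.l 138 2) (.n (.n (.b 2) (.n (.l
  138 2) (.n (.n (.b 2) (.n (.l 138 2) (.n (.l 138 2) (.n (.n (.b 2) (.n (.l 138 2) (.n (.l 138 2)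
  (.n (.n (.b 2) (.n (.n (.b 2) (.n (.b 4) (.l 40 11))) (.l 138 2))) (.b 3))))) (.b 3))))) (.l 138
  2)))) (.b 3))))) (.n (.n (.b 2) (.n (.n (.b 2) (.n (.b 4) (.n (.n (.b 2) (.n (.l 138 2) (.n (.l
  138 2) (.n (.n (.b 2) (.n (.l 111 2) (.n (.l 145 2) (.n (.n (.b 2) (.n (.n (.b 2) (.l 139 2))
  (.l 160 2))) (.b 3))))) (.b 3))))) (.l 138 2)))) (.l 138 2))) (.b 3))))) (.n (.n (.b 2) (.n (.n
  (.b 2) (.n (.b 4) (.n (.l 138 2) (.n (.l 138 2) (.b 3))))) (.n (.n (.b 2) (.b 6)) (.n (.l 138 2)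
  (.b 3))))) (.b 8)))) (.b 3))))) (.b 3)))))

/-- A subtree of the table. -/
def s10 : T :=
  (.n (.n (.b 2) (.n (.n (.b 2) (.n (.b 4) (.n (.n (.b 2) (.n (.n (.b 2) (.n (.b 4) (.n (.n (.b 2)
  (.n (.n (.b 2) (.n (.b 4) (.l 160 4))) (.n (.n (.b 2) (.n (.n (.b 2) (.n (.b 4) (.l 160 4))) (.b
  6))) (.n (.l 160 4) (.b 3))))) (.n (.n (.b 2) (.n (.n (.b 2) (.b 11)) (.n (.n (.b 2) (.l 160 1))
  (.n (.n (.b 2) (.n (.l 160 1) (.n (.l 160 1) (.n (.b 8) (.b 3))))) (.b 3))))) (.b 3))))) (.n (.n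
  (.b 2) (.n (.n (.b 2) (.n (.b 4) (.n (.n (.b 2) (.l 160 5)) (.n (.n (.b 2) (.n (.l 160 5) (.n
  (.l 160 5) (.n (.n (.b 2) (.n (.n (.b 2) (.n (.b 4) (.n (.n (.b 2) (.n (.l 160 5) (.n (.n (.b 2)
  (.l 97 7)) (.l 160 5)))) (.l 160 5)))) (.l 160 5))) (.b 3))))) (.b 3))))) (.b 6))) (.n (.n (.b
  2) (.n (.n (.b 2) (.n (.b 4) (.n (.n (.b 2) (.n (.l 160 5) (.n (.l 160 5) (.n (.n (.b 2) (.n (.n
  (.b 2) (.n (.b 4) (.n (.n (.b 2) (.n (.l 160 6) (.n (.l 160 6) (.n (.l 97 7) (.b 3))))) (.l 160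
  5)))) (.l 160 5))) (.b 3))))) (.n (.l 160 5) (.b 3))))) (.n (.n (.b 2) (.n (.l 160 5) (.n (.l
  160 5) (.n (.n (.b 2) (.n (.l 160 5) (.n (.l 160 5) (.n (.n (.b 2) (.n (.n (.b 2) (.n (.b 4) (.n
  (.n (.b 2) (.n (.l 160 5) (.n (.l 160 5) (.n (.n (.b 2) (.n (.l 97 7) (.l 97 7))) (.b 3))))) (.l
  160 5)))) (.l 160 5))) (.b 3))))) (.b 3))))) (.n (.n (.b 2) (.n (.n (.b 2) (.n (.b 4) (.n (.l
  160 5) (.n (.n (.b 2) (.n (.n (.b 2) (.n (.b 4) (.n (.n (.b 2) (.n (.l 153 5) (.n (.l 139 5) (.n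
  (.n (.b 2) (.l 139 5)) (.b 3))))) (.l 153 5)))) (.l 160 5))) (.b 3))))) (.l 160 5))) (.b 3)))))
  (.b 3))))) (.n (.n (.b 2) (.n (.n (.b 2) (.n (.b 4) (.n (.n (.b 2) (.n (.n (.b 2) (.l 160 5))
  (.n (.n (.b 2) (.l 160 5)) (.n (.n (.b 2) (.n (.l 160 5) (.n (.l 160 5) (.n (.n (.b 2) (.n (.n
  (.b 2) (.n (.b 4) (.n (.l 160 5) (.n (.n (.b 2) (.n (.n (.b 2) (.n (.b 4) (.l 97 9))) (.l 160
  5))) (.b 3))))) (.l 160 5))) (.b 3))))) (.b 3))))) (.n (.n (.b 2) (.n (.n (.b 2) (.n (.b 4) (.n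
  (.l 160 5) (.n (.n (.b 2) (.n (.n (.b 2) (.n (.b 4) (.n (.l 160 5) (.n (.n (.b 2) (.n (.n (.b 2)
  (.l 139 5)) (.l 160 5))) (.b 3))))) (.l 160 5))) (.b 3))))) (.n (.l 160 5) (.n (.l 160 5) (.b
  3))))) (.b 3))))) (.n (.n (.b 2) (.n (.n (.b 2) (.n (.b 4) (.n (.l 160 5) (.n (.l 160 5) (.b
  3))))) (.n (.n (.b 2) (.b 6)) (.n (.n (.b 2) (.n (.n (.b 2) (.n (.b 4) (.l 97 9))) (.n (.l 160
  6) (.n (.n (.b 2) (.n (.l 160 6) (.n (.l 160 6) (.b 8)))) (.b 3))))) (.b 3))))) (.n (.n (.b 2)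
  (.n (.n (.b 2) (.n (.b 4) (.n (.l 160 5) (.n (.n (.b 2) (.n (.l 160 5) (.n (.l 160 5) (.n (.n
  (.b 2) (.n (.n (.b 2) (.n (.b 4) (.n (.l 160 5) (.n (.n (.b 2) (.n (.l 160 5) (.n (.l 160 5) (.n
  (.n (.b 2) (.l 97 9)) (.b 3))))) (.b 3))))) (.l 160 5))) (.b 3))))) (.b 3))))) (.n (.n (.b 2)
  (.n (.n (.b 2) (.n (.b 4) (.n (.l 160 5) (.n (.n (.b 2) (.n (.n (.b 2) (.n (.b 4) (.n (.l 160 5)
  (.n (.n (.b 2) (.n (.l 132 5) (.n (.l 160 5) (.n (.l 139 5) (.b 3))))) (.b 3))))) (.l 160 5)))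
  (.b 3))))) (.l 160 5))) (.n (.b 8) (.b 3))))) (.b 3))))) (.b 3))))) (.n (.n (.b 2) (.n (.n (.b
  2) (.n (.b 4) (.n (.n (.b 2) (.n (.n (.b 2) (.n (.b 4) (.n (.n (.b 2) (.l 160 5)) (.n (.n (.b 2)
  (.l 160 5)) (.b 3))))) (.n (.n (.b 2) (.n (.n (.b 2) (.l 160 5)) (.b 6))) (.n (.n (.b 2) (.n (.l
  160 2) (.n (.l 91 11) (.n (.n (.b 2) (.n (.l 139 9) (.n (.l 139 9) (.b 8)))) (.b 3))))) (.b
  3))))) (.n (.n (.b 2) (.n (.n (.b 2) (.n (.b 4) (.n (.n (.b 2) (.l 160 5)) (.n (.n (.b 2) (.n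
  (.l 160 5) (.n (.l 160 5) (.n (.n (.b 2) (.n (.l 160 5) (.n (.n (.b 2) (.n (.n (.b 2) (.n (.b 4)
  (.n (.l 160 5) (.n (.n (.b 2) (.l 91 11)) (.b 3))))) (.l 160 5))) (.l 160 5)))) (.b 3))))) (.b
  3))))) (.n (.n (.b 2) (.n (.n (.b 2) (.n (.b 4) (.n (.l 160 5) (.n (.n (.b 2) (.n (.l 160 5) (.n
  (.n (.b 2) (.n (.n (.b 2) (.n (.b 4) (.n (.l 160 5) (.n (.l 139 5) (.b 3))))) (.l 141 5))) (.l
  160 5)))) (.b 3))))) (.n (.l 160 5) (.n (.l 160 5) (.b 3))))) (.n (.n (.b 2) (.n (.l 160 5) (.n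
  (.n (.b 2) (.n (.l 160 5) (.n (.l 160 5) (.n (.n (.b 2) (.n (.l 160 5) (.n (.n (.b 2) (.n (.n
  (.b 2) (.n (.b 4) (.n (.l 139 9) (.n (.n (.b 2) (.n (.l 91 11) (.l 91 11))) (.b 3))))) (.l 160
  5))) (.l 160 5)))) (.b 3))))) (.l 160 5)))) (.b 3))))) (.b 3))))) (.n (.n (.b 2) (.b 6)) (.n (.n
  (.b 2) (.n (.n (.b 2) (.n (.b 4) (.n (.n (.b 2) (.n (.n (.b 2) (.l 135 5)) (.n (.n (.b 2) (.n
  (.l 135 5) (.b 6))) (.l 135 5)))) (.n (.n (.b 2) (.n (.l 135 5) (.n (.n (.b 2) (.l 139 5)) (.n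
  (.n (.b 2) (.n (.l 160 5) (.n (.l 160 5) (.n (.b 8) (.b 3))))) (.b 3))))) (.b 3))))) (.n (.n (.b
  2) (.n (.n (.b 2) (.n (.b 4) (.n (.l 160 5) (.n (.n (.b 2) (.n (.l 160 5) (.n (.l 160 5) (.n (.n
  (.b 2) (.n (.l 160 5) (.n (.n (.b 2) (.n (.l 160 5) (.n (.l 160 5) (.n (.n (.b 2) (.n (.l 160 5)
  (.n (.n (.b 2) (.l 85 12)) (.l 160 5)))) (.b 3))))) (.l 160 5)))) (.b 3))))) (.b 3))))) (.n (.n
  (.b 2) (.b 6)) (.n (.n (.b 2) (.n (.l 160 5) (.n (.n (.b 2) (.n (.l 160 5) (.n (.l 160 5) (.n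
  (.n (.b 2) (.n (.l 160 5) (.n (.n (.b 2) (.n (.l 160 5) (.n (.l 160 5) (.n (.n (.b 2) (.n (.l
  133 9) (.n (.n (.b 2) (.n (.l 85 12) (.l 85 12))) (.l 133 9)))) (.b 3))))) (.l 160 5)))) (.b
  3))))) (.l 160 5)))) (.b 3))))) (.n (.n (.b 2) (.n (.n (.b 2) (.n (.b 4) (.n (.n (.b 2) (.n (.l
  160 5) (.n (.l 160 5) (.n (.n (.b 2) (.n (.l 160 5) (.n (.n (.b 2) (.n (.l 160 5) (.n (.l 160 5)
  (.n (.n (.b 2) (.n (.l 133 9) (.n (.l 133 9) (.n (.l 85 12) (.b 3))))) (.b 3))))) (.l 160 5))))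
  (.b 3))))) (.l 160 5)))) (.n (.l 160 5) (.b 8)))) (.b 3))))) (.b 3))))) (.n (.n (.b 2) (.n (.n
  (.b 2) (.n (.b 4) (.n (.n (.b 2) (.n (.n (.b 2) (.n (.b 4) (.n (.n (.b 2) (.l 160 2)) (.n (.n
  (.b 2) (.n (.l 160 2) (.n (.l 160 2) (.n (.n (.b 2) (.n (.l 160 2) (.n (.l 160 2) (.n (.b 8) (.b
  3))))) (.b 3))))) (.b 3))))) (.n (.n (.b 2) (.n (.n (.b 2) (.n (.b 4) (.n (.l 160 2) (.n (.n (.b
  2) (.n (.l 160 2) (.n (.l 160 2) (.n (.n (.b 2) (.n (.n (.b 2) (.n (.b 4) (.n (.l 139 2) (.l 139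
  2)))) (.l 132 2))) (.b 3))))) (.b 3))))) (.b 6))) (.n (.n (.b 2) (.n (.l 160 2) (.n (.n (.b 2)
  (.n (.l 160 2) (.n (.l 160 2) (.n (.n (.b 2) (.n (.l 160 2) (.n (.l 160 2) (.n (.n (.b 2) (.n
  (.n (.b 2) (.n (.b 4) (.n (.n (.b 2) (.n (.l 91 11) (.l 91 11))) (.l 160 2)))) (.l 160 2))) (.b
  3))))) (.b 3))))) (.l 160 2)))) (.b 3))))) (.n (.n (.b 2) (.n (.n (.b 2) (.n (.b 4) (.n (.n (.b
  2) (.n (.l 160 2) (.n (.l 160 2) (.n (.n (.b 2) (.n (.l 160 2) (.n (.l 160 2) (.n (.n (.b 2) (.n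
  (.n (.b 2) (.n (.b 4) (.n (.l 160 2) (.n (.l 91 11) (.b 3))))) (.l 160 2))) (.b 3))))) (.b
  3))))) (.l 160 2)))) (.n (.n (.b 2) (.n (.l 160 2) (.n (.l 160 2) (.n (.n (.b 2) (.n (.l 160 2)
  (.n (.l 160 2) (.n (.n (.b 2) (.n (.l 160 2) (.n (.l 160 2) (.b 8)))) (.b 3))))) (.b 3))))) (.n
  (.n (.b 2) (.n (.n (.b 2) (.n (.b 4) (.n (.l 160 2) (.n (.n (.b 2) (.n (.l 160 2) (.n (.l 160 2)
  (.n (.n (.b 2) (.n (.n (.b 2) (.n (.b 4) (.n (.l 135 2) (.n (.n (.b 2) (.l 139 2)) (.b 3)))))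
  (.l 135 2))) (.b 3))))) (.b 3))))) (.l 160 2))) (.b 3))))) (.b 3))))) (.n (.n (.b 2) (.n (.n (.b
  2) (.n (.b 4) (.n (.n (.b 2) (.n (.l 160 5) (.n (.l 160 5) (.n (.n (.b 2) (.n (.l 160 5) (.n (.b
  12) (.n (.n (.b 2) (.n (.l 160 5) (.n (.l 160 5) (.b 8)))) (.b 3))))) (.b 3))))) (.n (.n (.b 2)
  (.n (.n (.b 2) (.n (.b 4) (.n (.l 160 5) (.n (.n (.b 2) (.n (.l 160 5) (.n (.l 160 5) (.n (.n
  (.b 2) (.n (.l 160 5) (.n (.n (.b 2) (.n (.n (.b 2) (.l 75 5)) (.l 160 5))) (.l 113 5)))) (.b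
  3))))) (.b 3))))) (.l 160 5))) (.b 3))))) (.n (.n (.b 2) (.b 6)) (.n (.n (.b 2) (.n (.n (.b 2)
  (.n (.b 4) (.n (.l 160 5) (.n (.n (.b 2) (.n (.l 160 5) (.n (.l 160 5) (.n (.n (.b 2) (.n (.l
  160 5) (.n (.l 160 5) (.n (.b 8) (.b 3))))) (.b 3))))) (.b 3))))) (.n (.n (.b 2) (.n (.n (.b 2)
  (.n (.b 4) (.n (.l 158 5) (.n (.n (.b 2) (.n (.l 158 5) (.n (.l 158 5) (.n (.n (.b 2) (.n (.l
  158 5) (.n (.n (.b 2) (.n (.l 110 5) (.n (.l 160 5) (.n (.l 75 5) (.b 3))))) (.l 119 5)))) (.b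
  3))))) (.b 3))))) (.l 160 5))) (.l 160 5)))) (.b 3))))) (.n (.b 8) (.b 3))))) (.b 3))))) (.b 3))

/-- A subtree of the table. -/
def s11 : T :=
  (.b 2)

/-- A subtree of the table. -/
def s12 : T :=
  (.n (.b 2) (.n (.b 4) (.n (.n (.b 2) (.n (.n (.b 2) (.n (.b 4) (.n (.n (.b 2) (.n (.n (.b 2) (.n
  (.b 4) (.n (.n (.b 2) (.n (.n (.b 2) (.n (.b 4) (.n (.n (.b 2) (.n (.n (.b 2) (.n (.b 4) (.l 97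
  7))) (.l 127 7))) (.l 127 7)))) (.n (.n (.b 2) (.n (.l 134 7) (.b 6))) (.l 134 7)))) (.n (.n (.b
  2) (.l 134 7)) (.b 3))))) (.n (.n (.b 2) (.n (.n (.b 2) (.n (.b 4) (.l 141 7))) (.b 6))) (.n (.n
  (.b 2) (.n (.n (.b 2) (.l 141 7)) (.n (.n (.b 2) (.l 141 7)) (.n (.l 141 7) (.b 3))))) (.b
  3))))) (.n (.n (.b 2) (.n (.n (.b 2) (.n (.b 4) (.n (.n (.b 2) (.b 11)) (.n (.l 160 1) (.b
  3))))) (.n (.n (.b 2) (.n (.n (.b 2) (.n (.b 4) (.l 157 4))) (.n (.n (.b 2) (.b 6)) (.n (.l 157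
  4) (.b 3))))) (.n (.n (.b 2) (.n (.n (.b 2) (.l 157 4)) (.n (.l 157 4) (.n (.b 8) (.b 3))))) (.b
  3))))) (.b 3))))) (.n (.n (.b 2) (.n (.n (.b 2) (.n (.b 4) (.n (.n (.b 2) (.n (.n (.b 2) (.n (.b
  4) (.l 138 8))) (.n (.n (.b 2) (.n (.n (.b 2) (.n (.b 4) (.n (.n (.b 2) (.n (.l 138 8) (.n (.n
  (.b 2) (.n (.l 97 8) (.b 6))) (.l 97 8)))) (.l 160 8)))) (.b 6))) (.n (.n (.b 2) (.l 138 8)) (.b
  3))))) (.n (.n (.b 2) (.n (.n (.b 2) (.l 138 8)) (.n (.l 138 8) (.n (.n (.b 2) (.n (.n (.b 2)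
  (.n (.b 4) (.n (.n (.b 2) (.n (.l 138 8) (.n (.n (.b 2) (.n (.n (.b 2) (.n (.b 4) (.l 84 11)))
  (.b 6))) (.l 138 8)))) (.l 138 8)))) (.l 138 8))) (.b 3))))) (.b 3))))) (.b 6))) (.n (.n (.b 2)
  (.n (.n (.b 2) (.n (.b 4) (.n (.n (.b 2) (.n (.n (.b 2) (.l 158 8)) (.n (.l 158 8) (.n (.n (.b
  2) (.n (.n (.b 2) (.n (.b 4) (.n (.n (.b 2) (.n (.l 152 8) (.n (.l 152 8) (.n (.n (.b 2) (.n (.n
  (.b 2) (.l 104 8)) (.l 160 8))) (.b 3))))) (.l 158 8)))) (.l 158 8))) (.b 3))))) (.n (.n (.b 2)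
  (.n (.l 158 8) (.n (.l 158 8) (.n (.l 158 8) (.b 3))))) (.b 3))))) (.n (.n (.b 2) (.n (.n (.b 2)
  (.n (.b 4) (.n (.n (.b 2) (.l 97 8)) (.n (.l 97 8) (.b 3))))) (.n (.n (.b 2) (.b 6)) (.n (.n (.b
  2) (.n (.l 160 5) (.n (.l 160 5) (.n (.n (.b 2) (.n (.n (.b 2) (.n (.b 4) (.n (.n (.b 2) (.n (.l
  160 5) (.n (.l 160 5) (.n (.n (.b 2) (.n (.l 132 5) (.n (.n (.b 2) (.n (.l 118 5) (.l 118 5)))
  (.l 118 5)))) (.b 3))))) (.l 160 5)))) (.l 160 5))) (.b 3))))) (.b 3))))) (.n (.n (.b 2) (.n (.n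
  (.b 2) (.n (.b 4) (.n (.l 103 8) (.n (.n (.b 2) (.n (.n (.b 2) (.n (.b 4) (.n (.n (.b 2) (.n (.l
  103 8) (.n (.l 103 8) (.n (.n (.b 2) (.n (.l 76 12) (.n (.l 118 12) (.n (.l 49 12) (.b 3)))))
  (.b 3))))) (.l 103 8)))) (.l 103 8))) (.b 3))))) (.n (.n (.b 2) (.n (.l 103 8) (.n (.l 103 8)
  (.n (.l 103 8) (.b 3))))) (.b 8)))) (.b 3))))) (.b 3))))) (.n (.n (.b 2) (.n (.n (.b 2) (.n (.b
  4) (.n (.n (.b 2) (.n (.n (.b 2) (.n (.b 4) (.n (.n (.b 2) (.l 160 1)) (.n (.b 11) (.b 3)))))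
  (.n (.n (.b 2) (.n (.n (.b 2) (.n (.b 4) (.l 160 4))) (.b 6))) (.n (.n (.b 2) (.n (.n (.b 2) (.l
  160 4)) (.n (.l 160 4) (.n (.n (.b 2) (.n (.n (.b 2) (.n (.b 4) (.n (.l 160 4) (.n (.n (.b 2)
  (.n (.n (.b 2) (.n (.b 4) (.n (.n (.b 2) (.n (.l 118 4) (.l 118 4))) (.l 118 4)))) (.l 160 4)))
  (.b 3))))) (.l 160 4))) (.b 3))))) (.b 3))))) (.n (.n (.b 2) (.n (.n (.b 2) (.n (.b 4) (.n (.l
  160 6) (.n (.n (.b 2) (.n (.n (.b 2) (.n (.b 4) (.n (.l 160 6) (.n (.n (.b 2) (.n (.n (.b 2) (.n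
  (.b 4) (.n (.l 160 6) (.n (.l 114 6) (.b 3))))) (.l 160 6))) (.b 3))))) (.l 160 6))) (.b 3)))))
  (.n (.n (.b 2) (.n (.l 160 6) (.n (.l 160 6) (.n (.l 160 6) (.b 3))))) (.n (.n (.b 2) (.n (.l
  160 6) (.n (.n (.b 2) (.n (.n (.b 2) (.n (.b 4) (.n (.l 160 6) (.n (.n (.b 2) (.n (.n (.b 2) (.n
  (.b 4) (.n (.l 153 6) (.n (.n (.b 2) (.l 97 8)) (.b 3))))) (.l 153 6))) (.b 3))))) (.l 160 6)))
  (.l 160 6)))) (.b 3))))) (.b 3))))) (.n (.n (.b 2) (.n (.n (.b 2) (.n (.b 4) (.n (.n (.b 2) (.n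
  (.n (.b 2) (.l 154 8)) (.n (.n (.b 2) (.l 154 8)) (.n (.l 154 8) (.b 3))))) (.n (.n (.b 2) (.n
  (.l 154 8) (.n (.n (.b 2) (.n (.n (.b 2) (.n (.b 4) (.n (.l 154 8) (.n (.n (.b 2) (.n (.l 160 8)
  (.n (.n (.b 2) (.n (.n (.b 2) (.l 97 8)) (.l 106 8))) (.l 145 8)))) (.b 3))))) (.l 154 8))) (.n
  (.l 154 8) (.b 3))))) (.b 3))))) (.n (.n (.b 2) (.b 6)) (.n (.n (.b 2) (.n (.n (.b 2) (.n (.b 4)
  (.n (.l 100 9) (.n (.n (.b 2) (.l 100 9)) (.b 3))))) (.n (.n (.b 2) (.n (.l 148 9) (.n (.n (.b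
  2) (.b 6)) (.l 148 9)))) (.n (.n (.b 2) (.n (.l 148 9) (.n (.l 148 9) (.b 8)))) (.b 3))))) (.b
  3))))) (.n (.n (.b 2) (.n (.n (.b 2) (.n (.b 4) (.n (.n (.b 2) (.n (.l 154 8) (.n (.n (.b 2) (.n
  (.n (.b 2) (.n (.b 4) (.n (.l 154 8) (.n (.n (.b 2) (.n (.l 160 8) (.n (.l 154 8) (.n (.n (.b 2)
  (.n (.l 97 8) (.l 97 8))) (.b 3))))) (.b 3))))) (.b 6))) (.n (.l 154 8) (.b 3))))) (.n (.n (.b
  2) (.n (.l 154 8) (.n (.l 154 8) (.n (.n (.b 2) (.n (.n (.b 2) (.n (.b 4) (.n (.l 154 8) (.n (.n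
  (.b 2) (.n (.l 154 8) (.n (.l 154 8) (.n (.n (.b 2) (.n (.n (.b 2) (.n (.b 4) (.l 100 9))) (.l
  100 9))) (.b 3))))) (.b 3))))) (.l 154 8))) (.b 3))))) (.b 3))))) (.n (.n (.b 2) (.n (.n (.b 2)
  (.n (.b 4) (.n (.l 154 8) (.n (.n (.b 2) (.n (.n (.b 2) (.n (.b 4) (.n (.l 154 8) (.n (.n (.b 2)
  (.n (.l 154 8) (.n (.l 154 8) (.n (.n (.b 2) (.n (.l 160 9) (.n (.l 100 9) (.l 100 9)))) (.b
  3))))) (.b 3))))) (.l 154 8))) (.b 3))))) (.n (.n (.b 2) (.b 6)) (.n (.n (.b 2) (.n (.l 154 8)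
  (.n (.n (.b 2) (.n (.n (.b 2) (.n (.b 4) (.n (.l 145 8) (.n (.n (.b 2) (.n (.l 145 8) (.n (.l
  145 8) (.n (.n (.b 2) (.n (.l 145 8) (.n (.n (.b 2) (.l 97 8)) (.l 106 8)))) (.b 3))))) (.b
  3))))) (.l 154 8))) (.l 154 8)))) (.b 3))))) (.n (.b 8) (.b 3))))) (.b 3))))) (.b 3)))))

/-- A subtree of the table. -/
def s13 : T :=
  (.n (.b 2) (.n (.n (.b 2) (.n (.b 4) (.n (.n (.b 2) (.n (.n (.b 2) (.n (.b 4) (.n (.n (.b 2) (.n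
  (.n (.b 2) (.n (.b 4) (.n (.n (.b 2) (.n (.l 97 8) (.n (.n (.b 2) (.n (.l 97 8) (.b 6))) (.l 97
  8)))) (.l 97 8)))) (.n (.n (.b 2) (.l 97 8)) (.n (.l 97 8) (.b 3))))) (.n (.n (.b 2) (.n (.n (.b
  2) (.n (.b 4) (.l 97 8))) (.n (.n (.b 2) (.n (.l 97 8) (.n (.n (.b 2) (.b 6)) (.l 97 8)))) (.n
  (.l 97 8) (.b 3))))) (.b 3))))) (.n (.n (.b 2) (.n (.n (.b 2) (.n (.b 4) (.n (.n (.b 2) (.n (.l
  97 8) (.n (.n (.b 2) (.n (.n (.b 2) (.n (.b 4) (.n (.n (.b 2) (.n (.l 97 8) (.l 97 8))) (.l 151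
  8)))) (.b 6))) (.l 90 8)))) (.n (.n (.b 2) (.l 109 8)) (.b 3))))) (.b 6))) (.n (.n (.b 2) (.n
  (.n (.b 2) (.n (.b 4) (.n (.n (.b 2) (.l 109 5)) (.n (.l 109 5) (.b 3))))) (.n (.n (.b 2) (.n
  (.n (.b 2) (.l 33 13)) (.n (.n (.b 2) (.b 6)) (.n (.l 123 2) (.b 3))))) (.n (.n (.b 2) (.n (.l
  76 12) (.n (.l 76 12) (.b 8)))) (.b 3))))) (.b 3))))) (.n (.n (.b 2) (.n (.n (.b 2) (.n (.b 4)
  (.n (.n (.b 2) (.n (.n (.b 2) (.n (.b 4) (.b 11))) (.n (.n (.b 2) (.n (.l 97 8) (.b 6))) (.n (.l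
  97 8) (.b 3))))) (.n (.n (.b 2) (.n (.n (.b 2) (.l 97 8)) (.n (.l 97 8) (.n (.n (.b 2) (.n (.l
  97 8) (.n (.n (.b 2) (.n (.n (.b 2) (.n (.b 4) (.n (.l 97 8) (.n (.n (.b 2) (.n (.n (.b 2) (.n
  (.b 4) (.l 33 13))) (.l 33 13))) (.b 3))))) (.l 97 8))) (.l 97 8)))) (.b 3))))) (.b 3))))) (.n
  (.n (.b 2) (.n (.n (.b 2) (.n (.b 4) (.n (.l 97 8) (.n (.n (.b 2) (.n (.l 97 8) (.n (.n (.b 2)
  (.n (.n (.b 2) (.n (.b 4) (.n (.l 97 8) (.n (.n (.b 2) (.n (.l 118 13) (.n (.l 33 13) (.l 33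
  13)))) (.b 3))))) (.l 87 8))) (.l 97 8)))) (.b 3))))) (.n (.n (.b 2) (.b 6)) (.n (.n (.b 2) (.n
  (.l 97 8) (.n (.n (.b 2) (.n (.l 97 8) (.n (.n (.b 2) (.b 6)) (.l 97 8)))) (.l 97 8)))) (.b
  3))))) (.n (.n (.b 2) (.n (.n (.b 2) (.n (.b 4) (.n (.n (.b 2) (.n (.l 97 8) (.n (.n (.b 2) (.n
  (.n (.b 2) (.n (.b 4) (.n (.l 77 8) (.n (.n (.b 2) (.n (.l 160 8) (.n (.l 97 8) (.l 97 8)))) (.b
  3))))) (.b 6))) (.l 97 8)))) (.n (.l 97 8) (.b 3))))) (.n (.n (.b 2) (.n (.l 97 8) (.n (.l 97 8)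
  (.n (.n (.b 2) (.n (.l 97 8) (.n (.n (.b 2) (.n (.n (.b 2) (.n (.b 4) (.n (.l 76 12) (.n (.n (.b
  2) (.n (.l 33 13) (.n (.l 33 13) (.n (.n (.b 2) (.l 33 13)) (.b 3))))) (.b 3))))) (.l 97 8)))
  (.l 97 8)))) (.b 3))))) (.n (.b 8) (.b 3))))) (.b 3))))) (.b 3))))) (.n (.n (.b 2) (.b 6)) (.n
  (.n (.b 2) (.n (.n (.b 2) (.n (.b 4) (.n (.n (.b 2) (.n (.n (.b 2) (.n (.b 4) (.n (.n (.b 2) (.n
  (.l 160 1) (.n (.n (.b 2) (.n (.l 160 1) (.b 6))) (.l 160 1)))) (.n (.l 160 1) (.b 3))))) (.n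
  (.n (.b 2) (.n (.n (.b 2) (.l 160 1)) (.b 6))) (.n (.n (.b 2) (.n (.l 160 1) (.n (.l 160 1) (.n
  (.l 160 1) (.b 3))))) (.b 3))))) (.n (.n (.b 2) (.n (.n (.b 2) (.n (.b 4) (.n (.l 160 1) (.n (.l
  160 1) (.b 3))))) (.n (.n (.b 2) (.n (.l 160 1) (.n (.n (.b 2) (.b 6)) (.n (.l 139 1) (.b 3)))))
  (.n (.n (.b 2) (.n (.l 160 1) (.n (.l 160 1) (.n (.b 8) (.b 3))))) (.b 3))))) (.b 3))))) (.n (.n
  (.b 2) (.n (.n (.b 2) (.n (.b 4) (.n (.n (.b 2) (.n (.l 160 1) (.n (.n (.b 2) (.n (.l 160 1) (.b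
  6))) (.n (.l 160 1) (.b 3))))) (.n (.n (.b 2) (.n (.l 160 1) (.n (.l 160 1) (.n (.n (.b 2) (.n
  (.l 160 1) (.n (.n (.b 2) (.n (.l 160 1) (.n (.l 160 1) (.n (.n (.b 2) (.n (.l 160 1) (.n (.n
  (.b 2) (.n (.n (.b 2) (.n (.b 4) (.l 139 1))) (.l 120 1))) (.l 160 1)))) (.b 3))))) (.l 160
  1)))) (.b 3))))) (.b 3))))) (.n (.n (.b 2) (.b 6)) (.n (.n (.b 2) (.n (.n (.b 2) (.n (.b 4) (.n
  (.n (.b 2) (.n (.l 160 1) (.n (.n (.b 2) (.n (.l 160 1) (.b 6))) (.l 160 1)))) (.l 160 1)))) (.n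
  (.n (.b 2) (.n (.l 160 1) (.n (.l 160 1) (.n (.n (.b 2) (.n (.l 160 1) (.n (.n (.b 2) (.n (.l
  160 1) (.n (.l 160 1) (.n (.n (.b 2) (.n (.l 160 1) (.n (.n (.b 2) (.n (.l 120 1) (.n (.l 120 1)
  (.n (.n (.b 2) (.l 139 1)) (.b 3))))) (.l 160 1)))) (.b 3))))) (.l 160 1)))) (.b 3))))) (.l 160
  1)))) (.b 3))))) (.n (.n (.b 2) (.n (.n (.b 2) (.n (.b 4) (.n (.n (.b 2) (.n (.l 160 1) (.n (.l
  160 1) (.n (.n (.b 2) (.n (.l 160 1) (.n (.n (.b 2) (.n (.l 160 1) (.n (.l 160 1) (.n (.n (.b 2)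
  (.n (.l 160 1) (.n (.l 160 1) (.n (.n (.b 2) (.n (.n (.b 2) (.l 139 1)) (.l 160 1))) (.b 3)))))
  (.b 3))))) (.l 160 1)))) (.b 3))))) (.n (.l 160 1) (.b 3))))) (.n (.n (.b 2) (.n (.n (.b 2) (.n
  (.b 4) (.n (.l 160 1) (.n (.l 160 1) (.b 3))))) (.n (.n (.b 2) (.b 6)) (.l 160 1)))) (.b 8))))
  (.b 3))))) (.b 3)))))

/-- A subtree of the table. -/
def s14 : T :=
  (.n (.n (.b 2) (.n (.n (.b 2) (.n (.b 4) (.n (.n (.b 2) (.n (.n (.b 2) (.n (.b 4) (.n (.n (.b 2)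
  (.n (.n (.b 2) (.n (.b 4) (.l 160 4))) (.n (.n (.b 2) (.n (.l 160 4) (.b 6))) (.n (.l 160 4) (.b
  3))))) (.n (.n (.b 2) (.n (.n (.b 2) (.b 11)) (.n (.l 160 4) (.n (.n (.b 2) (.n (.l 160 4) (.n
  (.l 160 4) (.n (.b 8) (.b 3))))) (.b 3))))) (.b 3))))) (.n (.n (.b 2) (.n (.n (.b 2) (.n (.b 4)
  (.n (.l 160 4) (.n (.n (.b 2) (.n (.l 160 4) (.n (.l 160 4) (.n (.n (.b 2) (.n (.n (.b 2) (.n
  (.b 4) (.n (.n (.b 2) (.n (.l 160 4) (.n (.l 118 4) (.l 118 4)))) (.l 160 4)))) (.l 160 4))) (.b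
  3))))) (.b 3))))) (.b 6))) (.n (.n (.b 2) (.n (.n (.b 2) (.n (.b 4) (.n (.n (.b 2) (.n (.l 160
  4) (.n (.l 160 4) (.n (.n (.b 2) (.n (.n (.b 2) (.n (.b 4) (.n (.n (.b 2) (.n (.l 160 5) (.n (.l
  97 5) (.l 97 5)))) (.l 160 4)))) (.l 160 4))) (.b 3))))) (.n (.l 160 4) (.b 3))))) (.n (.n (.b
  2) (.n (.l 160 4) (.n (.l 160 4) (.n (.n (.b 2) (.n (.l 160 4) (.n (.l 160 4) (.n (.n (.b 2) (.n
  (.n (.b 2) (.n (.b 4) (.n (.n (.b 2) (.n (.l 118 4) (.n (.l 118 4) (.n (.n (.b 2) (.l 118 4))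
  (.b 3))))) (.l 160 4)))) (.l 160 4))) (.b 3))))) (.b 3))))) (.n (.l 160 4) (.b 3))))) (.b 3)))))
  (.n (.n (.b 2) (.n (.n (.b 2) (.n (.b 4) (.n (.n (.b 2) (.n (.n (.b 2) (.l 160 4)) (.n (.l 160
  4) (.n (.n (.b 2) (.n (.l 160 4) (.n (.l 160 4) (.n (.n (.b 2) (.n (.n (.b 2) (.n (.b 4) (.n (.l
  160 4) (.n (.n (.b 2) (.n (.n (.b 2) (.l 118 4)) (.l 160 4))) (.b 3))))) (.l 160 4))) (.b 3)))))
  (.b 3))))) (.n (.n (.b 2) (.n (.l 160 4) (.n (.l 160 4) (.n (.l 160 4) (.b 3))))) (.b 3))))) (.n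
  (.n (.b 2) (.n (.n (.b 2) (.n (.b 4) (.n (.l 160 4) (.n (.l 160 4) (.b 3))))) (.n (.n (.b 2) (.b
  6)) (.n (.n (.b 2) (.n (.n (.b 2) (.l 97 5)) (.n (.l 129 5) (.n (.n (.b 2) (.n (.l 129 5) (.n
  (.l 129 5) (.b 8)))) (.b 3))))) (.b 3))))) (.n (.n (.b 2) (.n (.n (.b 2) (.n (.b 4) (.n (.l 160
  4) (.n (.n (.b 2) (.n (.l 160 4) (.n (.l 160 4) (.n (.n (.b 2) (.n (.n (.b 2) (.n (.b 4) (.n (.l
  160 4) (.n (.n (.b 2) (.n (.l 156 4) (.n (.l 160 4) (.n (.l 118 4) (.b 3))))) (.b 3))))) (.l 160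
  4))) (.b 3))))) (.b 3))))) (.n (.l 160 4) (.n (.b 8) (.b 3))))) (.b 3))))) (.b 3))))) (.n (.n
  (.b 2) (.n (.n (.b 2) (.n (.b 4) (.n (.n (.b 2) (.n (.n (.b 2) (.n (.b 4) (.n (.n (.b 2) (.l 160
  4)) (.n (.l 160 4) (.b 3))))) (.n (.n (.b 2) (.n (.l 160 4) (.b 6))) (.n (.n (.b 2) (.n (.l 160
  1) (.n (.b 12) (.n (.n (.b 2) (.n (.l 97 8) (.n (.l 97 8) (.b 8)))) (.b 3))))) (.b 3))))) (.n
  (.n (.b 2) (.n (.n (.b 2) (.n (.b 4) (.n (.l 160 4) (.n (.n (.b 2) (.n (.l 160 4) (.n (.l 160 4)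
  (.n (.n (.b 2) (.n (.l 160 4) (.n (.n (.b 2) (.n (.n (.b 2) (.n (.b 4) (.n (.l 160 4) (.n (.l 90
  4) (.b 3))))) (.l 160 4))) (.l 144 4)))) (.b 3))))) (.b 3))))) (.n (.n (.b 2) (.n (.l 160 4) (.n
  (.l 160 4) (.n (.l 160 4) (.b 3))))) (.n (.n (.b 2) (.n (.l 160 4) (.n (.n (.b 2) (.n (.l 160 4)
  (.n (.l 160 4) (.n (.n (.b 2) (.n (.l 160 4) (.n (.n (.b 2) (.n (.n (.b 2) (.n (.b 4) (.n (.l 90
  8) (.n (.n (.b 2) (.l 97 8)) (.b 3))))) (.l 160 4))) (.l 160 4)))) (.b 3))))) (.l 160 4)))) (.b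
  3))))) (.b 3))))) (.n (.n (.b 2) (.b 6)) (.n (.n (.b 2) (.n (.n (.b 2) (.n (.b 4) (.n (.n (.b 2)
  (.n (.l 160 4) (.n (.n (.b 2) (.n (.l 160 4) (.b 6))) (.l 160 4)))) (.n (.n (.b 2) (.n (.l 160
  4) (.n (.l 160 4) (.n (.n (.b 2) (.n (.l 160 4) (.n (.l 160 4) (.n (.b 8) (.b 3))))) (.b 3)))))
  (.b 3))))) (.n (.n (.b 2) (.n (.n (.b 2) (.n (.b 4) (.n (.l 160 4) (.n (.n (.b 2) (.n (.l 160 4)
  (.n (.l 160 4) (.n (.n (.b 2) (.n (.l 160 4) (.n (.n (.b 2) (.n (.l 145 4) (.n (.l 160 4) (.n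
  (.n (.b 2) (.n (.l 160 4) (.n (.l 118 4) (.l 118 4)))) (.b 3))))) (.l 154 4)))) (.b 3))))) (.b
  3))))) (.n (.l 160 4) (.n (.n (.b 2) (.n (.l 160 4) (.n (.n (.b 2) (.n (.l 160 4) (.n (.l 160 4)
  (.n (.n (.b 2) (.n (.l 160 4) (.n (.n (.b 2) (.n (.l 160 4) (.n (.l 160 4) (.n (.n (.b 2) (.n
  (.l 133 8) (.n (.n (.b 2) (.l 97 8)) (.l 109 8)))) (.b 3))))) (.l 160 4)))) (.b 3))))) (.l 160
  4)))) (.b 3))))) (.n (.n (.b 2) (.n (.n (.b 2) (.n (.b 4) (.n (.n (.b 2) (.n (.l 160 4) (.n (.l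
  160 4) (.n (.n (.b 2) (.n (.l 160 4) (.n (.n (.b 2) (.n (.l 160 4) (.n (.l 160 4) (.n (.n (.b 2)
  (.n (.l 151 8) (.n (.l 97 8) (.l 97 8)))) (.b 3))))) (.l 160 4)))) (.b 3))))) (.l 160 4)))) (.l
  160 4))) (.b 3))))) (.b 3))))) (.n (.n (.b 2) (.n (.n (.b 2) (.n (.b 4) (.n (.n (.b 2) (.n (.n
  (.b 2) (.n (.b 4) (.n (.l 160 1) (.n (.n (.b 2) (.n (.l 160 1) (.n (.l 160 1) (.n (.n (.b 2) (.n
  (.l 160 1) (.n (.l 160 1) (.n (.b 8) (.b 3))))) (.b 3))))) (.b 3))))) (.n (.n (.b 2) (.n (.l 160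
  1) (.b 6))) (.n (.n (.b 2) (.n (.l 160 1) (.n (.n (.b 2) (.n (.l 160 1) (.n (.l 160 1) (.n (.n
  (.b 2) (.n (.l 160 1) (.n (.l 160 1) (.n (.n (.b 2) (.n (.n (.b 2) (.n (.b 4) (.n (.n (.b 2) (.l
  139 1)) (.l 96 1)))) (.l 160 1))) (.b 3))))) (.b 3))))) (.l 160 1)))) (.b 3))))) (.n (.n (.b 2)
  (.n (.n (.b 2) (.n (.b 4) (.n (.n (.b 2) (.n (.l 160 1) (.n (.l 160 1) (.n (.n (.b 2) (.n (.l
  160 1) (.n (.l 160 1) (.n (.n (.b 2) (.n (.n (.b 2) (.n (.b 4) (.n (.l 139 1) (.l 139 1)))) (.l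
  160 1))) (.b 3))))) (.b 3))))) (.l 160 1)))) (.n (.n (.b 2) (.n (.l 160 1) (.n (.l 160 1) (.n
  (.n (.b 2) (.n (.l 160 1) (.n (.l 160 1) (.n (.n (.b 2) (.n (.l 160 1) (.n (.l 160 1) (.b 8))))
  (.b 3))))) (.b 3))))) (.l 160 1)))) (.b 3))))) (.n (.n (.b 2) (.n (.n (.b 2) (.n (.b 4) (.n (.l
  96 4) (.n (.l 96 4) (.b 3))))) (.n (.n (.b 2) (.b 6)) (.n (.n (.b 2) (.l 96 4)) (.b 3))))) (.b
  8)))) (.b 3))))) (.b 3))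

/-- A subtree of the table. -/
def s15 : T :=
  (.b 2)

/-- A subtree of the table. -/
def s16 : T :=
  (.n (.b 2) (.n (.b 4) (.n (.n (.b 2) (.n (.n (.b 2) (.n (.b 4) (.n (.n (.b 2) (.n (.n (.b 2) (.n
  (.b 4) (.n (.n (.b 2) (.l 118 6)) (.l 118 6)))) (.n (.n (.b 2) (.n (.n (.b 2) (.n (.b 4) (.l 118
  6))) (.b 6))) (.n (.n (.b 2) (.n (.n (.b 2) (.l 118 6)) (.l 118 6))) (.b 3))))) (.n (.n (.b 2)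
  (.n (.n (.b 2) (.n (.b 4) (.l 160 0))) (.n (.n (.b 2) (.l 118 3)) (.n (.n (.b 2) (.n (.l 118 3)
  (.n (.l 118 3) (.n (.b 8) (.b 3))))) (.b 3))))) (.b 3))))) (.n (.n (.b 2) (.n (.n (.b 2) (.n (.b
  4) (.n (.n (.b 2) (.n (.l 118 7) (.n (.n (.b 2) (.l 118 7)) (.l 118 7)))) (.n (.n (.b 2) (.n (.l
  118 7) (.n (.l 118 7) (.n (.n (.b 2) (.n (.n (.b 2) (.n (.b 4) (.n (.n (.b 2) (.n (.l 118 7) (.n
  (.n (.b 2) (.n (.n (.b 2) (.l 160 0)) (.b 6))) (.l 118 7)))) (.l 118 7)))) (.l 118 7))) (.b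
  3))))) (.b 3))))) (.b 6))) (.n (.n (.b 2) (.n (.n (.b 2) (.n (.b 4) (.n (.n (.b 2) (.n (.l 118
  7) (.n (.l 118 7) (.n (.n (.b 2) (.n (.n (.b 2) (.n (.b 4) (.n (.n (.b 2) (.n (.l 118 8) (.n (.l
  118 8) (.n (.n (.b 2) (.n (.l 160 0) (.l 139 99))) (.b 3))))) (.l 118 7)))) (.l 118 7))) (.b
  3))))) (.n (.l 118 7) (.b 3))))) (.n (.n (.b 2) (.n (.n (.b 2) (.n (.b 4) (.l 118 7))) (.n (.l
  118 7) (.n (.n (.b 2) (.n (.l 118 7) (.n (.l 118 7) (.n (.n (.b 2) (.n (.n (.b 2) (.n (.b 4) (.n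
  (.n (.b 2) (.n (.l 118 7) (.n (.l 118 7) (.n (.n (.b 2) (.n (.l 55 9) (.n (.n (.b 2) (.l 160 0))
  (.l 55 99)))) (.b 3))))) (.l 118 7)))) (.l 118 7))) (.b 3))))) (.b 3))))) (.n (.n (.b 2) (.n (.n
  (.b 2) (.n (.b 4) (.n (.l 118 7) (.n (.n (.b 2) (.n (.n (.b 2) (.n (.b 4) (.n (.n (.b 2) (.n (.l
  111 7) (.n (.l 97 7) (.n (.n (.b 2) (.n (.l 97 99) (.n (.l 139 99) (.l 160 0)))) (.b 3))))) (.l
  111 7)))) (.l 118 7))) (.b 3))))) (.l 118 7))) (.b 3))))) (.b 3))))) (.n (.n (.b 2) (.n (.n (.b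
  2) (.n (.b 4) (.n (.n (.b 2) (.n (.n (.b 2) (.n (.b 4) (.l 118 7))) (.n (.n (.b 2) (.l 118 7))
  (.n (.n (.b 2) (.n (.l 118 7) (.n (.l 118 7) (.n (.n (.b 2) (.n (.n (.b 2) (.n (.b 4) (.n (.l
  118 7) (.n (.n (.b 2) (.n (.n (.b 2) (.n (.b 4) (.n (.n (.b 2) (.l 160 0)) (.l 55 99)))) (.l 118
  7))) (.b 3))))) (.l 118 7))) (.b 3))))) (.b 3))))) (.n (.n (.b 2) (.n (.n (.b 2) (.n (.b 4) (.n
  (.l 118 7) (.n (.n (.b 2) (.n (.n (.b 2) (.n (.b 4) (.n (.l 118 7) (.n (.n (.b 2) (.n (.n (.b 2)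
  (.n (.b 4) (.n (.l 139 99) (.l 160 0)))) (.l 118 7))) (.b 3))))) (.l 118 7))) (.b 3))))) (.n (.l
  118 7) (.n (.l 118 7) (.b 3))))) (.b 3))))) (.n (.n (.b 2) (.n (.n (.b 2) (.n (.b 4) (.n (.n (.b
  2) (.n (.n (.b 2) (.l 118 7)) (.l 118 7))) (.n (.l 118 7) (.b 3))))) (.n (.n (.b 2) (.b 6)) (.n
  (.n (.b 2) (.n (.n (.b 2) (.n (.b 4) (.n (.l 55 99) (.n (.l 160 0) (.b 3))))) (.n (.l 118 8) (.n
  (.n (.b 2) (.n (.l 118 8) (.n (.l 118 8) (.b 8)))) (.b 3))))) (.b 3))))) (.n (.n (.b 2) (.n (.n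
  (.b 2) (.n (.b 4) (.n (.l 118 7) (.n (.n (.b 2) (.n (.l 118 7) (.n (.l 118 7) (.n (.n (.b 2) (.n
  (.n (.b 2) (.n (.b 4) (.n (.l 118 7) (.n (.n (.b 2) (.n (.l 118 7) (.n (.l 118 7) (.n (.n (.b 2)
  (.n (.n (.b 2) (.l 160 0)) (.l 55 99))) (.b 3))))) (.b 3))))) (.l 118 7))) (.b 3))))) (.b 3)))))
  (.n (.n (.b 2) (.n (.n (.b 2) (.n (.b 4) (.n (.l 118 7) (.n (.n (.b 2) (.n (.n (.b 2) (.n (.b 4)
  (.n (.l 118 7) (.n (.n (.b 2) (.n (.l 90 7) (.n (.l 118 7) (.n (.n (.b 2) (.n (.l 139 99) (.l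
  160 0))) (.b 3))))) (.b 3))))) (.l 118 7))) (.b 3))))) (.l 118 7))) (.n (.b 8) (.b 3))))) (.b
  3))))) (.b 3)))))

/-- A subtree of the table. -/
def s17 : T :=
  (.n (.n (.b 2) (.n (.n (.b 2) (.n (.b 4) (.n (.n (.b 2) (.n (.n (.b 2) (.n (.b 4) (.n (.n (.b 2)
  (.n (.n (.b 2) (.l 118 7)) (.l 118 7))) (.n (.n (.b 2) (.l 118 7)) (.b 3))))) (.n (.n (.b 2) (.n
  (.n (.b 2) (.n (.b 4) (.n (.n (.b 2) (.l 118 7)) (.l 118 7)))) (.b 6))) (.n (.n (.b 2) (.n (.n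
  (.b 2) (.n (.b 4) (.l 118 4))) (.n (.n (.b 2) (.n (.l 160 0) (.l 139 1))) (.n (.n (.b 2) (.n (.l
  97 11) (.n (.l 97 11) (.b 8)))) (.b 3))))) (.b 3))))) (.n (.n (.b 2) (.n (.n (.b 2) (.n (.b 4)
  (.n (.n (.b 2) (.l 118 7)) (.n (.n (.b 2) (.n (.l 118 7) (.n (.l 118 7) (.n (.n (.b 2) (.n (.l
  118 7) (.n (.n (.b 2) (.n (.n (.b 2) (.n (.b 4) (.n (.l 118 7) (.n (.n (.b 2) (.n (.n (.b 2) (.l
  160 0)) (.l 49 99))) (.b 3))))) (.l 118 7))) (.l 118 7)))) (.b 3))))) (.b 3))))) (.n (.n (.b 2)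
  (.n (.n (.b 2) (.n (.b 4) (.n (.l 118 7) (.n (.n (.b 2) (.n (.l 118 7) (.n (.n (.b 2) (.n (.n
  (.b 2) (.n (.b 4) (.n (.l 118 7) (.n (.n (.b 2) (.n (.l 139 99) (.l 160 0))) (.b 3))))) (.l 99
  7))) (.l 118 7)))) (.b 3))))) (.n (.l 118 7) (.n (.l 118 7) (.b 3))))) (.n (.n (.b 2) (.n (.l
  118 7) (.n (.n (.b 2) (.n (.l 118 7) (.n (.l 118 7) (.n (.n (.b 2) (.n (.l 118 7) (.n (.n (.b 2)
  (.n (.n (.b 2) (.n (.b 4) (.n (.l 97 11) (.n (.n (.b 2) (.n (.l 49 13) (.n (.l 49 99) (.n (.l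
  160 0) (.b 3))))) (.b 3))))) (.l 118 7))) (.l 118 7)))) (.b 3))))) (.l 118 7)))) (.b 3))))) (.b
  3))))) (.n (.n (.b 2) (.b 6)) (.n (.n (.b 2) (.n (.n (.b 2) (.n (.b 4) (.n (.n (.b 2) (.n (.n
  (.b 2) (.l 93 7)) (.n (.n (.b 2) (.n (.l 93 7) (.b 6))) (.l 93 7)))) (.n (.n (.b 2) (.n (.l 93
  7) (.n (.n (.b 2) (.n (.l 97 99) (.n (.l 139 99) (.l 160 0)))) (.n (.n (.b 2) (.n (.l 118 7) (.n
  (.l 118 7) (.n (.b 8) (.b 3))))) (.b 3))))) (.b 3))))) (.n (.n (.b 2) (.n (.n (.b 2) (.n (.b 4)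
  (.n (.l 118 7) (.n (.n (.b 2) (.n (.l 118 7) (.n (.l 118 7) (.n (.n (.b 2) (.n (.l 118 7) (.n
  (.n (.b 2) (.n (.l 118 7) (.n (.l 118 7) (.n (.n (.b 2) (.n (.l 118 7) (.n (.n (.b 2) (.n (.n
  (.b 2) (.l 160 0)) (.l 43 99))) (.l 118 7)))) (.b 3))))) (.l 118 7)))) (.b 3))))) (.b 3))))) (.n
  (.n (.b 2) (.b 6)) (.n (.n (.b 2) (.n (.l 118 7) (.n (.n (.b 2) (.n (.l 118 7) (.n (.l 118 7)
  (.n (.n (.b 2) (.n (.l 118 7) (.n (.n (.b 2) (.n (.l 118 7) (.n (.l 118 7) (.n (.n (.b 2) (.n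
  (.l 91 11) (.n (.n (.b 2) (.n (.l 43 14) (.n (.l 43 99) (.n (.l 160 0) (.b 3))))) (.l 91 11))))
  (.b 3))))) (.l 118 7)))) (.b 3))))) (.l 118 7)))) (.b 3))))) (.n (.n (.b 2) (.n (.n (.b 2) (.n
  (.b 4) (.n (.n (.b 2) (.n (.l 118 7) (.n (.l 118 7) (.n (.n (.b 2) (.n (.l 118 7) (.n (.n (.b 2)
  (.n (.l 118 7) (.n (.l 118 7) (.n (.n (.b 2) (.n (.l 91 11) (.n (.l 91 11) (.n (.n (.b 2) (.n
  (.l 160 0) (.l 139 99))) (.b 3))))) (.b 3))))) (.l 118 7)))) (.b 3))))) (.l 118 7)))) (.n (.n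
  (.b 2) (.l 118 7)) (.b 8)))) (.b 3))))) (.b 3))))) (.n (.n (.b 2) (.n (.n (.b 2) (.n (.b 4) (.n
  (.n (.b 2) (.n (.n (.b 2) (.n (.b 4) (.n (.n (.b 2) (.l 118 4)) (.n (.n (.b 2) (.n (.l 118 4)
  (.n (.l 118 4) (.n (.n (.b 2) (.n (.l 118 4) (.n (.l 118 4) (.n (.b 8) (.b 3))))) (.b 3))))) (.b
  3))))) (.n (.n (.b 2) (.n (.n (.b 2) (.n (.b 4) (.n (.l 118 4) (.n (.n (.b 2) (.n (.l 118 4) (.n
  (.l 118 4) (.n (.n (.b 2) (.n (.n (.b 2) (.n (.b 4) (.n (.n (.b 2) (.n (.l 139 99) (.l 160 0)))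
  (.l 97 4)))) (.l 90 4))) (.b 3))))) (.b 3))))) (.b 6))) (.n (.n (.b 2) (.n (.l 118 4) (.n (.n
  (.b 2) (.n (.l 118 4) (.n (.l 118 4) (.n (.n (.b 2) (.n (.l 118 4) (.n (.l 118 4) (.n (.n (.b 2)
  (.n (.n (.b 2) (.n (.b 4) (.n (.n (.b 2) (.n (.l 49 13) (.n (.l 49 99) (.n (.l 160 0) (.b 3)))))
  (.l 118 4)))) (.l 118 4))) (.b 3))))) (.b 3))))) (.l 118 4)))) (.b 3))))) (.n (.n (.b 2) (.n (.n
  (.b 2) (.n (.b 4) (.n (.n (.b 2) (.n (.l 118 4) (.n (.l 118 4) (.n (.n (.b 2) (.n (.l 118 4) (.n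
  (.l 118 4) (.n (.n (.b 2) (.n (.n (.b 2) (.n (.b 4) (.n (.l 118 4) (.n (.n (.b 2) (.n (.l 160 0)
  (.l 139 99))) (.b 3))))) (.l 118 4))) (.b 3))))) (.b 3))))) (.l 118 4)))) (.n (.n (.b 2) (.n (.l
  118 4) (.n (.l 118 4) (.n (.n (.b 2) (.n (.l 118 4) (.n (.l 118 4) (.n (.n (.b 2) (.n (.l 118 4)
  (.n (.l 118 4) (.b 8)))) (.b 3))))) (.b 3))))) (.n (.n (.b 2) (.n (.n (.b 2) (.n (.b 4) (.n (.l
  118 4) (.n (.n (.b 2) (.n (.l 118 4) (.n (.l 118 4) (.n (.n (.b 2) (.n (.n (.b 2) (.n (.b 4) (.n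
  (.l 93 4) (.n (.n (.b 2) (.n (.l 97 99) (.n (.l 139 99) (.l 160 0)))) (.b 3))))) (.l 93 4))) (.b
  3))))) (.b 3))))) (.l 118 4))) (.b 3))))) (.b 3))))) (.n (.n (.b 2) (.n (.n (.b 2) (.n (.b 4)
  (.n (.n (.b 2) (.n (.n (.b 2) (.n (.b 4) (.l 118 7))) (.n (.l 118 7) (.n (.n (.b 2) (.n (.l 118
  7) (.n (.b 12) (.n (.n (.b 2) (.n (.l 118 7) (.n (.l 118 7) (.b 8)))) (.b 3))))) (.b 3))))) (.n
  (.n (.b 2) (.n (.n (.b 2) (.n (.b 4) (.n (.l 118 7) (.n (.n (.b 2) (.n (.l 118 7) (.n (.l 118 7)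
  (.n (.n (.b 2) (.n (.l 118 7) (.n (.n (.b 2) (.n (.n (.b 2) (.n (.b 4) (.n (.l 139 99) (.l 160
  0)))) (.l 118 7))) (.l 71 7)))) (.b 3))))) (.b 3))))) (.l 118 7))) (.b 3))))) (.n (.n (.b 2) (.b
  6)) (.n (.n (.b 2) (.n (.n (.b 2) (.n (.b 4) (.n (.l 118 7) (.n (.n (.b 2) (.n (.l 118 7) (.n
  (.l 118 7) (.n (.n (.b 2) (.n (.l 118 7) (.n (.l 118 7) (.n (.b 8) (.b 3))))) (.b 3))))) (.b
  3))))) (.n (.n (.b 2) (.n (.n (.b 2) (.n (.b 4) (.n (.l 116 7) (.n (.n (.b 2) (.n (.l 116 7) (.n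
  (.l 116 7) (.n (.n (.b 2) (.n (.l 116 7) (.n (.n (.b 2) (.n (.l 68 7) (.n (.l 118 7) (.n (.n (.b
  2) (.n (.l 139 99) (.l 160 0))) (.b 3))))) (.l 77 7)))) (.b 3))))) (.b 3))))) (.l 118 7))) (.n
  (.l 118 7) (.b 3))))) (.b 3))))) (.n (.n (.b 2) (.n (.n (.b 2) (.n (.b 4) (.n (.n (.b 2) (.n (.l
  160 0) (.l 160 0))) (.n (.n (.b 2) (.l 160 0)) (.b 3))))) (.b 8))) (.b 3))))) (.b 3)))

/-- A subtree of the table. -/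
def s18 : T :=
  (.b 3)

/-- A subtree of the table. -/
def u0 : T := .n s4 s5

/-- A subtree of the table. -/
def u1 : T := .n s3 u0

/-- A subtree of the table. -/
def u2 : T := .n u1 s6

/-- A subtree of the table. -/
def u3 : T := .n s2 u2

/-- A subtree of the table. -/
def u4 : T := .n s1 u3

/-- A subtree of the table. -/
def u5 : T := .n s0 u4

/-- A subtree of the table. -/
def u6 : T := .n s9 s10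

/-- A subtree of the table. -/
def u7 : T := .n s8 u6

/-- A subtree of the table. -/
def u8 : T := .n s7 u7

/-- A subtree of the table. -/
def u9 : T := .n s13 s14

/-- A subtree of the table. -/
def u10 : T := .n s12 u9

/-- A subtree of the table. -/
def u11 : T := .n s11 u10

/-- A subtree of the table. -/
def u12 : T := .n s16 s17

/-- A subtree of the table. -/
def u13 : T := .n s15 u12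

/-- A subtree of the table. -/
def u14 : T := .n u13 s18

/-- A subtree of the table. -/
def u15 : T := .n u11 u14

/-- A subtree of the table. -/
def u16 : T := .n u8 u15

/-- A subtree of the table. -/
def u17 : T := .n u5 u16

/-- The table. -/
def tb : T := u17

end Pool.Agent.Helper49.TF.B4
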