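import Pool.Agent.Helper49.TF.Defs

set_option autoImplicit false
set_option maxRecDepth 100000

/-!
# Table C0: data
-/

namespace Pool.Agent.Helper49.TF.C0

/-- Upper bounds. -/
def es : List ℕ := [0, 0, 1, 1, 2, 2, 3, 3, 4, 4, 5, 5, 6, 6, 7, 7, 8, 8, 9, 9, 10, 10, 11, 11, 12, 12, 13, 13,
  14, 14, 15, 15, 16, 16, 17, 17, 18, 18, 19, 19, 20, 20, 21, 21, 22, 22, 23, 23, 24, 24, 25,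
  25, 26, 26, 27]

/-- Lower bounds. -/
def el : List ℕ := [0, 0, 1, 1, 2, 2, 2, 3, 3, 4, 4, 4, 5, 5, 6, 6, 6, 7, 7, 8, 8, 8, 9, 9, 10, 10, 10, 11, 11,
  12, 12, 12, 13, 13, 14, 14, 14, 15, 15, 16, 16, 16, 17, 17, 18, 18, 18, 19, 19, 20, 20, 20,
  21, 21, 22]

/-- Rewards. -/
def ws : List ℕ := [104, 69, 66, 60, 57, 51, 48, 40, 36, 28, 24]

/-- A subtree of the table. -/
def s0 : T :=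
  (.b 3)

/-- A subtree of the table. -/
def s1 : T :=
  (.b 3)

/-- A subtree of the table. -/
def s2 : T :=
  (.b 3)

/-- A subtree of the table. -/
def s3 : T :=
  (.n (.b 3) (.n (.b 8) (.n (.n (.b 3) (.n (.n (.b 3) (.n (.n (.b 3) (.n (.n (.b 3) (.b 8)) (.n
  (.n (.b 3) (.n (.n (.b 3) (.n (.n (.b 3) (.n (.n (.b 3) (.b 8)) (.n (.n (.b 3) (.n (.n (.b 3)
  (.n (.n (.b 3) (.n (.n (.b 3) (.b 8)) (.b 21))) (.n (.b 10) (.b 4)))) (.n (.n (.b 3) (.n (.n (.b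
  3) (.n (.n (.b 3) (.n (.n (.b 3) (.b 8)) (.n (.n (.b 3) (.n (.n (.b 3) (.n (.n (.b 3) (.n (.n
  (.b 3) (.b 8)) (.n (.n (.b 3) (.n (.n (.b 3) (.n (.n (.b 3) (.n (.n (.b 3) (.b 8)) (.n (.n (.b
  3) (.n (.n (.b 3) (.b 21)) (.n (.n (.b 3) (.l 346 0)) (.b 4)))) (.b 4)))) (.n (.b 10) (.b 4))))
  (.n (.n (.b 3) (.n (.n (.b 3) (.n (.n (.b 3) (.n (.n (.b 3) (.b 8)) (.n (.n (.b 3) (.l 346 0))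
  (.b 4)))) (.n (.n (.b 3) (.n (.b 10) (.n (.l 346 0) (.b 4)))) (.b 4)))) (.n (.b 9) (.b 4)))) (.b
  4)))) (.b 4)))) (.n (.b 10) (.b 4)))) (.n (.n (.b 3) (.n (.n (.b 3) (.n (.n (.b 3) (.n (.n (.b
  3) (.b 8)) (.n (.n (.b 3) (.n (.n (.b 3) (.n (.n (.b 3) (.n (.n (.b 3) (.b 8)) (.n (.n (.b 3)
  (.l 346 0)) (.b 4)))) (.n (.b 10) (.b 4)))) (.n (.n (.b 3) (.n (.n (.b 3) (.n (.n (.b 3) (.l 346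
  0)) (.n (.l 346 0) (.b 4)))) (.n (.b 9) (.b 4)))) (.b 4)))) (.b 4)))) (.n (.n (.b 3) (.n (.b 10)
  (.n (.n (.b 3) (.n (.n (.b 3) (.n (.n (.b 3) (.n (.n (.b 3) (.b 8)) (.n (.l 346 0) (.b 4)))) (.n
  (.n (.b 3) (.n (.b 10) (.l 346 0))) (.b 4)))) (.n (.b 9) (.b 4)))) (.b 4)))) (.b 4)))) (.n (.b
  9) (.b 4)))) (.b 4)))) (.b 4)))) (.n (.n (.b 3) (.n (.b 10) (.n (.n (.b 3) (.n (.n (.b 3) (.n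
  (.n (.b 3) (.n (.n (.b 3) (.b 8)) (.n (.n (.b 3) (.n (.n (.b 3) (.n (.n (.b 3) (.n (.n (.b 3)
  (.b 8)) (.n (.n (.b 3) (.n (.n (.b 3) (.l 346 0)) (.n (.l 346 0) (.b 4)))) (.b 4)))) (.n (.b 10)
  (.b 4)))) (.n (.n (.b 3) (.n (.n (.b 3) (.n (.n (.b 3) (.n (.n (.b 3) (.b 8)) (.n (.l 346 0) (.b
  4)))) (.n (.n (.b 3) (.n (.b 10) (.l 346 0))) (.b 4)))) (.n (.b 9) (.b 4)))) (.b 4)))) (.b 4))))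
  (.n (.n (.b 3) (.n (.b 10) (.n (.n (.b 3) (.n (.n (.b 3) (.n (.n (.b 3) (.n (.n (.b 3) (.b 8))
  (.n (.n (.b 3) (.n (.b 33) (.l 346 0))) (.b 4)))) (.n (.n (.b 3) (.n (.b 10) (.n (.n (.b 3) (.l
  346 0)) (.b 4)))) (.b 4)))) (.n (.b 9) (.b 4)))) (.b 4)))) (.b 4)))) (.n (.b 9) (.b 4)))) (.b
  4)))) (.b 4)))) (.n (.b 9) (.b 4)))) (.b 4)))) (.b 4)))) (.n (.b 10) (.b 4)))) (.n (.n (.b 3)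
  (.n (.n (.b 3) (.n (.n (.b 3) (.n (.n (.b 3) (.b 8)) (.n (.n (.b 3) (.n (.n (.b 3) (.n (.n (.b
  3) (.n (.n (.b 3) (.b 8)) (.n (.n (.b 3) (.n (.n (.b 3) (.n (.n (.b 3) (.n (.n (.b 3) (.b 8))
  (.n (.n (.b 3) (.n (.n (.b 3) (.b 21)) (.n (.n (.b 3) (.n (.n (.b 3) (.n (.n (.b 3) (.n (.n (.b
  3) (.b 8)) (.n (.n (.b 3) (.l 346 0)) (.b 4)))) (.n (.n (.b 3) (.n (.b 10) (.n (.l 346 0) (.b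
  4)))) (.b 4)))) (.n (.b 9) (.b 4)))) (.b 4)))) (.b 4)))) (.n (.b 10) (.b 4)))) (.n (.n (.b 3)
  (.n (.n (.b 3) (.n (.n (.b 3) (.n (.n (.b 3) (.b 8)) (.n (.n (.b 3) (.n (.n (.b 3) (.n (.n (.b
  3) (.b 34)) (.n (.b 10) (.b 4)))) (.n (.n (.b 3) (.n (.n (.b 3) (.n (.n (.b 3) (.l 346 0)) (.n
  (.l 346 0) (.b 4)))) (.n (.b 9) (.b 4)))) (.b 4)))) (.b 4)))) (.n (.n (.b 3) (.n (.b 10) (.n (.n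
  (.b 3) (.n (.n (.b 3) (.n (.n (.b 3) (.n (.n (.b 3) (.b 8)) (.n (.l 346 0) (.b 4)))) (.n (.n (.b
  3) (.n (.b 10) (.l 346 0))) (.b 4)))) (.n (.b 9) (.b 4)))) (.b 4)))) (.b 4)))) (.n (.b 9) (.b
  4)))) (.b 4)))) (.b 4)))) (.n (.b 10) (.b 4)))) (.n (.n (.b 3) (.n (.n (.b 3) (.n (.n (.b 3) (.n
  (.n (.b 3) (.b 8)) (.n (.n (.b 3) (.n (.n (.b 3) (.n (.n (.b 3) (.n (.n (.b 3) (.b 8)) (.n (.n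
  (.b 3) (.n (.n (.b 3) (.n (.n (.b 3) (.n (.n (.b 3) (.b 8)) (.n (.n (.b 3) (.l 346 0)) (.b 4))))
  (.n (.b 10) (.b 4)))) (.n (.n (.b 3) (.n (.n (.b 3) (.n (.n (.b 3) (.l 346 0)) (.n (.l 346 0)
  (.b 4)))) (.n (.b 9) (.b 4)))) (.b 4)))) (.b 4)))) (.n (.b 10) (.b 4)))) (.n (.n (.b 3) (.n (.n
  (.b 3) (.n (.n (.b 3) (.n (.n (.b 3) (.b 8)) (.n (.b 30) (.b 4)))) (.n (.n (.b 3) (.n (.b 10)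
  (.n (.n (.b 3) (.n (.n (.b 3) (.n (.l 346 0) (.l 346 0))) (.n (.b 9) (.b 4)))) (.b 4)))) (.b
  4)))) (.n (.b 9) (.b 4)))) (.b 4)))) (.b 4)))) (.n (.n (.b 3) (.n (.b 10) (.n (.n (.b 3) (.n (.n
  (.b 3) (.n (.n (.b 3) (.n (.n (.b 3) (.b 8)) (.n (.n (.b 3) (.n (.n (.b 3) (.n (.n (.b 3) (.n
  (.n (.b 3) (.b 8)) (.n (.l 346 0) (.b 4)))) (.n (.b 10) (.b 4)))) (.n (.n (.b 3) (.n (.n (.b 3)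
  (.n (.l 346 0) (.l 346 0))) (.n (.b 9) (.b 4)))) (.b 4)))) (.b 4)))) (.n (.n (.b 3) (.n (.b 10)
  (.n (.n (.b 3) (.n (.n (.b 3) (.n (.n (.b 3) (.n (.l 346 0) (.l 346 0))) (.n (.n (.b 3) (.l 346
  0)) (.b 4)))) (.n (.b 9) (.b 4)))) (.b 4)))) (.b 4)))) (.n (.b 9) (.b 4)))) (.b 4)))) (.b 4))))
  (.n (.b 9) (.b 4)))) (.b 4)))) (.b 4)))) (.n (.n (.b 3) (.n (.b 10) (.n (.n (.b 3) (.n (.n (.b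
  3) (.n (.n (.b 3) (.n (.n (.b 3) (.b 8)) (.n (.n (.b 3) (.n (.n (.b 3) (.n (.n (.b 3) (.n (.n
  (.b 3) (.b 8)) (.n (.n (.b 3) (.n (.n (.b 3) (.n (.n (.b 3) (.n (.n (.b 3) (.b 8)) (.n (.n (.b
  3) (.n (.n (.b 3) (.b 21)) (.n (.l 346 0) (.b 4)))) (.b 4)))) (.n (.b 10) (.b 4)))) (.n (.n (.b
  3) (.n (.n (.b 3) (.n (.n (.b 3) (.n (.n (.b 3) (.b 8)) (.n (.l 346 0) (.b 4)))) (.n (.n (.b 3)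
  (.n (.b 10) (.l 346 0))) (.b 4)))) (.n (.b 9) (.b 4)))) (.b 4)))) (.b 4)))) (.n (.b 10) (.b
  4)))) (.n (.n (.b 3) (.n (.n (.b 3) (.n (.n (.b 3) (.n (.n (.b 3) (.b 8)) (.n (.n (.b 3) (.n (.n
  (.b 3) (.n (.n (.b 3) (.n (.n (.b 3) (.b 8)) (.n (.l 346 0) (.b 4)))) (.n (.b 10) (.b 4)))) (.n
  (.n (.b 3) (.n (.n (.b 3) (.n (.l 346 0) (.l 346 0))) (.n (.b 9) (.b 4)))) (.b 4)))) (.b 4))))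
  (.n (.n (.b 3) (.n (.b 10) (.n (.n (.b 3) (.n (.n (.b 3) (.n (.n (.b 3) (.n (.l 346 0) (.l 346
  0))) (.n (.n (.b 3) (.l 346 0)) (.b 4)))) (.n (.b 9) (.b 4)))) (.b 4)))) (.b 4)))) (.n (.b 9)
  (.b 4)))) (.b 4)))) (.b 4)))) (.n (.n (.b 3) (.n (.b 10) (.n (.n (.b 3) (.n (.n (.b 3) (.n (.n
  (.b 3) (.n (.n (.b 3) (.b 8)) (.n (.n (.b 3) (.n (.n (.b 3) (.n (.n (.b 3) (.b 33)) (.n (.b 10)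
  (.b 4)))) (.n (.n (.b 3) (.n (.n (.b 3) (.n (.n (.b 3) (.n (.l 346 0) (.l 346 0))) (.n (.n (.b
  3) (.l 346 0)) (.b 4)))) (.n (.b 9) (.b 4)))) (.b 4)))) (.b 4)))) (.n (.n (.b 3) (.n (.b 10) (.n
  (.n (.b 3) (.n (.n (.b 3) (.n (.n (.b 3) (.n (.n (.b 3) (.b 8)) (.n (.n (.b 3) (.l 346 0)) (.b
  4)))) (.n (.n (.b 3) (.n (.b 10) (.n (.l 346 0) (.b 4)))) (.b 4)))) (.n (.b 9) (.b 4)))) (.b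
  4)))) (.b 4)))) (.n (.b 9) (.b 4)))) (.b 4)))) (.b 4)))) (.n (.b 9) (.b 4)))) (.b 4)))) (.b
  4)))) (.n (.b 9) (.b 4)))) (.b 4)))) (.b 4)))) (.n (.b 10) (.b 4)))) (.n (.n (.b 3) (.n (.n (.b
  3) (.n (.n (.b 3) (.n (.n (.b 3) (.b 8)) (.n (.n (.b 3) (.n (.n (.b 3) (.n (.n (.b 3) (.n (.n
  (.b 3) (.b 8)) (.n (.n (.b 3) (.n (.n (.b 3) (.n (.n (.b 3) (.n (.n (.b 3) (.b 8)) (.n (.n (.b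
  3) (.n (.n (.b 3) (.b 21)) (.n (.n (.b 3) (.n (.n (.b 3) (.n (.n (.b 3) (.n (.n (.b 3) (.b 8))
  (.n (.n (.b 3) (.n (.n (.b 3) (.n (.n (.b 3) (.n (.n (.b 3) (.b 8)) (.n (.n (.b 3) (.l 346 0))
  (.b 4)))) (.n (.b 10) (.b 4)))) (.n (.n (.b 3) (.n (.n (.b 3) (.n (.n (.b 3) (.l 346 0)) (.n (.l
  346 0) (.b 4)))) (.n (.b 9) (.b 4)))) (.b 4)))) (.b 4)))) (.n (.n (.b 3) (.n (.b 10) (.n (.n (.b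
  3) (.n (.n (.b 3) (.n (.n (.b 3) (.n (.n (.b 3) (.b 8)) (.n (.l 346 0) (.b 4)))) (.n (.n (.b 3)
  (.n (.b 10) (.l 346 0))) (.b 4)))) (.n (.b 9) (.b 4)))) (.b 4)))) (.b 4)))) (.n (.b 9) (.b 4))))
  (.b 4)))) (.b 4)))) (.n (.b 10) (.b 4)))) (.n (.n (.b 3) (.n (.n (.b 3) (.n (.n (.b 3) (.n (.n
  (.b 3) (.b 8)) (.n (.n (.b 3) (.n (.n (.b 3) (.n (.n (.b 3) (.n (.n (.b 3) (.b 8)) (.n (.n (.b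
  3) (.n (.n (.b 3) (.n (.n (.b 3) (.n (.n (.b 3) (.b 8)) (.n (.n (.b 3) (.l 346 0)) (.b 4)))) (.n
  (.b 10) (.b 4)))) (.n (.n (.b 3) (.n (.b 34) (.n (.b 9) (.b 4)))) (.b 4)))) (.b 4)))) (.n (.b
  10) (.b 4)))) (.n (.n (.b 3) (.n (.n (.b 3) (.n (.n (.b 3) (.n (.n (.b 3) (.b 8)) (.n (.n (.b 3)
  (.n (.n (.b 3) (.n (.n (.b 3) (.l 346 0)) (.n (.b 10) (.b 4)))) (.n (.n (.b 3) (.n (.l 346 0)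
  (.l 346 0))) (.b 4)))) (.b 4)))) (.n (.n (.b 3) (.n (.b 10) (.n (.n (.b 3) (.n (.n (.b 3) (.n
  (.l 346 0) (.l 346 0))) (.n (.b 9) (.b 4)))) (.b 4)))) (.b 4)))) (.n (.b 9) (.b 4)))) (.b 4))))
  (.b 4)))) (.n (.n (.b 3) (.n (.b 10) (.n (.n (.b 3) (.n (.n (.b 3) (.n (.n (.b 3) (.n (.n (.b 3)
  (.b 8)) (.n (.n (.b 3) (.n (.n (.b 3) (.n (.n (.b 3) (.n (.n (.b 3) (.b 8)) (.n (.l 346 0) (.b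
  4)))) (.n (.b 10) (.b 4)))) (.n (.n (.b 3) (.n (.n (.b 3) (.n (.l 346 0) (.l 346 0))) (.n (.b 9)
  (.b 4)))) (.b 4)))) (.b 4)))) (.n (.n (.b 3) (.n (.b 10) (.n (.n (.b 3) (.n (.n (.b 3) (.n (.b
  33) (.n (.n (.b 3) (.l 346 0)) (.b 4)))) (.n (.b 9) (.b 4)))) (.b 4)))) (.b 4)))) (.n (.b 9) (.b
  4)))) (.b 4)))) (.b 4)))) (.n (.b 9) (.b 4)))) (.b 4)))) (.b 4)))) (.n (.b 10) (.b 4)))) (.n (.n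
  (.b 3) (.n (.n (.b 3) (.n (.n (.b 3) (.n (.n (.b 3) (.b 8)) (.n (.n (.b 3) (.n (.n (.b 3) (.n
  (.n (.b 3) (.n (.n (.b 3) (.b 8)) (.n (.n (.b 3) (.n (.n (.b 3) (.n (.n (.b 3) (.n (.n (.b 3)
  (.b 8)) (.n (.n (.b 3) (.n (.n (.b 3) (.b 21)) (.n (.n (.b 3) (.n (.n (.b 3) (.n (.n (.b 3) (.l
  346 0)) (.n (.l 346 0) (.b 4)))) (.n (.b 9) (.b 4)))) (.b 4)))) (.b 4)))) (.n (.b 10) (.b 4))))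
  (.n (.n (.b 3) (.n (.n (.b 3) (.n (.n (.b 3) (.n (.n (.b 3) (.b 8)) (.n (.n (.b 3) (.n (.n (.b
  3) (.n (.n (.b 3) (.l 346 0)) (.n (.b 10) (.b 4)))) (.n (.n (.b 3) (.n (.l 346 0) (.l 346 0)))
  (.b 4)))) (.b 4)))) (.n (.n (.b 3) (.n (.b 10) (.n (.n (.b 3) (.n (.n (.b 3) (.n (.l 346 0) (.l
  346 0))) (.n (.b 9) (.b 4)))) (.b 4)))) (.b 4)))) (.n (.b 9) (.b 4)))) (.b 4)))) (.b 4)))) (.n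
  (.b 10) (.b 4)))) (.n (.n (.b 3) (.n (.n (.b 3) (.n (.n (.b 3) (.n (.n (.b 3) (.b 8)) (.n (.n
  (.b 3) (.n (.n (.b 3) (.n (.n (.b 3) (.n (.n (.b 3) (.b 8)) (.n (.n (.b 3) (.n (.n (.b 3) (.n
  (.n (.b 3) (.l 346 0)) (.n (.b 10) (.b 4)))) (.n (.n (.b 3) (.n (.l 346 0) (.l 346 0))) (.b
  4)))) (.b 4)))) (.n (.b 10) (.b 4)))) (.n (.b 30) (.b 4)))) (.b 4)))) (.n (.n (.b 3) (.n (.b 10)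
  (.n (.n (.b 3) (.n (.n (.b 3) (.n (.n (.b 3) (.n (.n (.b 3) (.b 8)) (.n (.n (.b 3) (.n (.n (.b
  3) (.n (.l 346 0) (.l 346 0))) (.n (.n (.b 3) (.l 346 0)) (.b 4)))) (.b 4)))) (.n (.n (.b 3) (.n
  (.b 10) (.n (.n (.b 3) (.n (.n (.b 3) (.l 346 0)) (.n (.b 9) (.b 4)))) (.b 4)))) (.b 4)))) (.n
  (.b 9) (.b 4)))) (.b 4)))) (.b 4)))) (.n (.b 9) (.b 4)))) (.b 4)))) (.b 4)))) (.n (.n (.b 3) (.n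
  (.b 10) (.n (.n (.b 3) (.n (.n (.b 3) (.n (.n (.b 3) (.n (.n (.b 3) (.b 8)) (.n (.n (.b 3) (.n
  (.n (.b 3) (.n (.n (.b 3) (.n (.n (.b 3) (.b 8)) (.n (.n (.b 3) (.n (.n (.b 3) (.n (.n (.b 3)
  (.n (.n (.b 3) (.b 8)) (.n (.l 346 0) (.b 4)))) (.n (.b 10) (.b 4)))) (.n (.n (.b 3) (.n (.n (.b
  3) (.n (.l 346 0) (.l 346 0))) (.n (.b 9) (.b 4)))) (.b 4)))) (.b 4)))) (.n (.b 10) (.b 4))))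
  (.n (.n (.b 3) (.n (.n (.b 3) (.n (.n (.b 3) (.n (.n (.b 3) (.b 8)) (.n (.n (.b 3) (.n (.n (.b
  3) (.n (.l 346 0) (.l 346 0))) (.n (.n (.b 3) (.l 346 0)) (.b 4)))) (.b 4)))) (.n (.n (.b 3) (.n
  (.b 10) (.n (.n (.b 3) (.n (.n (.b 3) (.l 346 0)) (.n (.b 9) (.b 4)))) (.b 4)))) (.b 4)))) (.n
  (.b 9) (.b 4)))) (.b 4)))) (.b 4)))) (.n (.n (.b 3) (.n (.b 10) (.n (.n (.b 3) (.n (.n (.b 3)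
  (.n (.n (.b 3) (.n (.n (.b 3) (.b 8)) (.n (.n (.b 3) (.n (.n (.b 3) (.n (.n (.b 3) (.n (.l 346
  0) (.l 346 0))) (.n (.b 10) (.b 4)))) (.n (.n (.b 3) (.n (.n (.b 3) (.l 346 0)) (.n (.b 9) (.b
  4)))) (.b 4)))) (.b 4)))) (.n (.n (.b 3) (.n (.b 10) (.n (.n (.b 3) (.n (.n (.b 3) (.n (.n (.b
  3) (.l 346 0)) (.n (.l 346 0) (.b 4)))) (.n (.b 9) (.b 4)))) (.b 4)))) (.b 4)))) (.n (.b 9) (.b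
  4)))) (.b 4)))) (.b 4)))) (.n (.b 9) (.b 4)))) (.b 4)))) (.b 4)))) (.n (.b 9) (.b 4)))) (.b
  4)))) (.b 4)))) (.n (.n (.b 3) (.n (.b 10) (.n (.n (.b 3) (.n (.n (.b 3) (.n (.n (.b 3) (.n (.n
  (.b 3) (.b 8)) (.n (.n (.b 3) (.n (.n (.b 3) (.n (.n (.b 3) (.n (.n (.b 3) (.b 8)) (.n (.n (.b
  3) (.n (.n (.b 3) (.n (.n (.b 3) (.n (.n (.b 3) (.b 8)) (.n (.n (.b 3) (.n (.n (.b 3) (.b 21))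
  (.n (.n (.b 3) (.n (.n (.b 3) (.n (.n (.b 3) (.n (.n (.b 3) (.b 8)) (.n (.l 346 0) (.b 4)))) (.n
  (.n (.b 3) (.n (.b 10) (.l 346 0))) (.b 4)))) (.n (.b 9) (.b 4)))) (.b 4)))) (.b 4)))) (.n (.b
  10) (.b 4)))) (.n (.n (.b 3) (.n (.n (.b 3) (.n (.n (.b 3) (.n (.n (.b 3) (.b 8)) (.n (.n (.b 3)
  (.n (.n (.b 3) (.n (.n (.b 3) (.n (.n (.b 3) (.b 8)) (.n (.l 346 0) (.b 4)))) (.n (.b 10) (.b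
  4)))) (.n (.n (.b 3) (.n (.n (.b 3) (.n (.l 346 0) (.l 346 0))) (.n (.b 9) (.b 4)))) (.b 4))))
  (.b 4)))) (.n (.n (.b 3) (.n (.b 10) (.n (.n (.b 3) (.n (.n (.b 3) (.n (.n (.b 3) (.n (.l 346 0)
  (.l 346 0))) (.b 33))) (.n (.b 9) (.b 4)))) (.b 4)))) (.b 4)))) (.n (.b 9) (.b 4)))) (.b 4))))
  (.b 4)))) (.n (.b 10) (.b 4)))) (.n (.n (.b 3) (.n (.n (.b 3) (.n (.n (.b 3) (.n (.n (.b 3) (.b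
  8)) (.n (.n (.b 3) (.n (.n (.b 3) (.n (.n (.b 3) (.n (.n (.b 3) (.b 8)) (.n (.n (.b 3) (.n (.n
  (.b 3) (.n (.n (.b 3) (.n (.n (.b 3) (.b 8)) (.n (.l 346 0) (.b 4)))) (.n (.b 10) (.b 4)))) (.n
  (.n (.b 3) (.n (.n (.b 3) (.n (.l 346 0) (.l 346 0))) (.n (.b 9) (.b 4)))) (.b 4)))) (.b 4))))
  (.n (.b 10) (.b 4)))) (.n (.n (.b 3) (.n (.n (.b 3) (.n (.n (.b 3) (.n (.n (.b 3) (.b 8)) (.n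
  (.n (.b 3) (.n (.n (.b 3) (.n (.l 346 0) (.l 346 0))) (.n (.n (.b 3) (.l 346 0)) (.b 4)))) (.b
  4)))) (.n (.n (.b 3) (.n (.b 10) (.n (.n (.b 3) (.n (.n (.b 3) (.l 346 0)) (.n (.b 9) (.b 4))))
  (.b 4)))) (.b 4)))) (.n (.b 9) (.b 4)))) (.b 4)))) (.b 4)))) (.n (.n (.b 3) (.n (.b 10) (.n (.n
  (.b 3) (.n (.n (.b 3) (.n (.n (.b 3) (.n (.n (.b 3) (.b 8)) (.n (.n (.b 3) (.n (.n (.b 3) (.n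
  (.n (.b 3) (.n (.l 346 0) (.l 346 0))) (.n (.b 10) (.b 4)))) (.n (.n (.b 3) (.n (.n (.b 3) (.b
  36)) (.n (.b 9) (.b 4)))) (.b 4)))) (.b 4)))) (.n (.n (.b 3) (.n (.b 10) (.n (.n (.b 3) (.n (.n
  (.b 3) (.n (.n (.b 3) (.l 346 0)) (.n (.l 346 0) (.b 4)))) (.n (.b 9) (.b 4)))) (.b 4)))) (.b
  4)))) (.n (.b 9) (.b 4)))) (.b 4)))) (.b 4)))) (.n (.b 9) (.b 4)))) (.b 4)))) (.b 4)))) (.n (.n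
  (.b 3) (.n (.b 10) (.n (.n (.b 3) (.n (.n (.b 3) (.n (.n (.b 3) (.n (.n (.b 3) (.b 8)) (.n (.n
  (.b 3) (.n (.n (.b 3) (.n (.n (.b 3) (.n (.n (.b 3) (.b 8)) (.n (.n (.b 3) (.n (.n (.b 3) (.n
  (.n (.b 3) (.n (.n (.b 3) (.b 8)) (.n (.n (.b 3) (.n (.l 346 0) (.l 346 0))) (.b 4)))) (.n (.b
  10) (.b 4)))) (.n (.n (.b 3) (.n (.b 33) (.n (.b 9) (.b 4)))) (.b 4)))) (.b 4)))) (.n (.b 10)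
  (.b 4)))) (.n (.n (.b 3) (.n (.n (.b 3) (.n (.n (.b 3) (.n (.n (.b 3) (.b 8)) (.n (.n (.b 3) (.n
  (.n (.b 3) (.n (.n (.b 3) (.n (.l 346 0) (.l 346 0))) (.n (.b 10) (.b 4)))) (.n (.n (.b 3) (.n
  (.n (.b 3) (.l 346 0)) (.n (.b 9) (.b 4)))) (.b 4)))) (.b 4)))) (.n (.n (.b 3) (.n (.b 10) (.n
  (.n (.b 3) (.n (.n (.b 3) (.n (.n (.b 3) (.l 346 0)) (.n (.l 346 0) (.b 4)))) (.n (.b 9) (.b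
  4)))) (.b 4)))) (.b 4)))) (.n (.b 9) (.b 4)))) (.b 4)))) (.b 4)))) (.n (.n (.b 3) (.n (.b 10)
  (.n (.n (.b 3) (.n (.n (.b 3) (.n (.n (.b 3) (.n (.n (.b 3) (.b 8)) (.n (.n (.b 3) (.n (.n (.b
  3) (.n (.n (.b 3) (.n (.n (.b 3) (.b 8)) (.n (.n (.b 3) (.l 346 0)) (.b 4)))) (.n (.b 10) (.b
  4)))) (.n (.n (.b 3) (.n (.n (.b 3) (.n (.n (.b 3) (.l 346 0)) (.n (.l 346 0) (.b 4)))) (.n (.b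
  9) (.b 4)))) (.b 4)))) (.b 4)))) (.n (.n (.b 3) (.n (.b 10) (.n (.n (.b 3) (.n (.n (.b 3) (.b
  32)) (.n (.b 9) (.b 4)))) (.b 4)))) (.b 4)))) (.n (.b 9) (.b 4)))) (.b 4)))) (.b 4)))) (.n (.b
  9) (.b 4)))) (.b 4)))) (.b 4)))) (.n (.b 9) (.b 4)))) (.b 4)))) (.b 4)))) (.n (.b 9) (.b 4))))
  (.b 4)))) (.b 4))))

/-- A subtree of the table. -/
def s4 : T :=
  (.b 3)

/-- A subtree of the table. -/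
def s5 : T :=
  (.n (.b 3) (.n (.n (.b 3) (.n (.n (.b 3) (.b 8)) (.n (.n (.b 3) (.n (.n (.b 3) (.n (.n (.b 3)
  (.n (.n (.b 3) (.b 8)) (.n (.n (.b 3) (.n (.n (.b 3) (.n (.n (.b 3) (.n (.n (.b 3) (.b 8)) (.n
  (.b 21) (.b 4)))) (.n (.b 10) (.b 4)))) (.n (.n (.b 3) (.n (.n (.b 3) (.n (.n (.b 3) (.n (.n (.b
  3) (.b 8)) (.n (.n (.b 3) (.n (.n (.b 3) (.n (.n (.b 3) (.n (.n (.b 3) (.b 8)) (.n (.n (.b 3)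
  (.n (.n (.b 3) (.n (.n (.b 3) (.n (.n (.b 3) (.b 8)) (.n (.n (.b 3) (.n (.n (.b 3) (.b 21)) (.n
  (.n (.b 3) (.n (.n (.b 3) (.l 199 2)) (.n (.b 9) (.b 4)))) (.b 4)))) (.b 4)))) (.n (.b 10) (.b
  4)))) (.n (.n (.b 3) (.n (.n (.b 3) (.n (.n (.b 3) (.n (.n (.b 3) (.b 8)) (.n (.n (.b 3) (.n (.b
  34) (.n (.l 199 2) (.b 4)))) (.b 4)))) (.n (.n (.b 3) (.n (.b 10) (.n (.n (.b 3) (.n (.n (.b 3)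
  (.n (.l 199 2) (.n (.n (.b 3) (.n (.b 10) (.l 199 2))) (.b 4)))) (.l 199 2))) (.b 4)))) (.b
  4)))) (.n (.b 9) (.b 4)))) (.b 4)))) (.b 4)))) (.n (.b 10) (.b 4)))) (.n (.n (.b 3) (.n (.n (.b
  3) (.n (.n (.b 3) (.n (.n (.b 3) (.b 8)) (.n (.n (.b 3) (.n (.n (.b 3) (.n (.n (.b 3) (.n (.n
  (.b 3) (.b 8)) (.n (.n (.b 3) (.n (.n (.b 3) (.l 199 2)) (.n (.n (.b 3) (.n (.n (.b 3) (.n (.n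
  (.b 3) (.n (.n (.b 3) (.b 8)) (.l 199 2))) (.l 199 2))) (.l 199 2))) (.b 4)))) (.b 4)))) (.n (.b
  10) (.b 4)))) (.n (.n (.b 3) (.n (.n (.b 3) (.n (.n (.b 3) (.n (.n (.b 3) (.b 8)) (.n (.b 30)
  (.b 4)))) (.n (.n (.b 3) (.n (.b 10) (.n (.l 199 2) (.b 4)))) (.b 4)))) (.n (.b 9) (.b 4)))) (.b
  4)))) (.b 4)))) (.n (.n (.b 3) (.n (.b 10) (.n (.n (.b 3) (.n (.n (.b 3) (.n (.n (.b 3) (.n (.n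
  (.b 3) (.b 8)) (.n (.n (.b 3) (.n (.n (.b 3) (.n (.n (.b 3) (.n (.n (.b 3) (.b 8)) (.l 199 2)))
  (.l 199 2))) (.l 199 2))) (.b 4)))) (.n (.n (.b 3) (.n (.b 10) (.n (.n (.b 3) (.n (.n (.b 3) (.n
  (.n (.b 3) (.n (.n (.b 3) (.b 8)) (.l 199 2))) (.l 199 2))) (.l 199 2))) (.b 4)))) (.b 4)))) (.n
  (.b 9) (.b 4)))) (.b 4)))) (.b 4)))) (.n (.b 9) (.b 4)))) (.b 4)))) (.b 4)))) (.n (.n (.b 3) (.n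
  (.b 10) (.n (.n (.b 3) (.n (.n (.b 3) (.n (.n (.b 3) (.n (.n (.b 3) (.b 8)) (.n (.n (.b 3) (.n
  (.n (.b 3) (.n (.n (.b 3) (.n (.n (.b 3) (.b 8)) (.n (.n (.b 3) (.n (.n (.b 3) (.n (.n (.b 3)
  (.n (.n (.b 3) (.b 8)) (.l 199 2))) (.n (.b 10) (.b 4)))) (.n (.n (.b 3) (.n (.n (.b 3) (.n (.l
  199 2) (.n (.n (.b 3) (.n (.b 10) (.l 199 2))) (.b 4)))) (.l 199 2))) (.b 4)))) (.b 4)))) (.n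
  (.b 10) (.b 4)))) (.n (.n (.b 3) (.n (.n (.b 3) (.n (.n (.b 3) (.n (.n (.b 3) (.b 8)) (.n (.n
  (.b 3) (.n (.l 199 2) (.l 199 2))) (.b 4)))) (.n (.n (.b 3) (.n (.b 10) (.n (.n (.b 3) (.l 199
  2)) (.b 4)))) (.b 4)))) (.n (.b 9) (.b 4)))) (.b 4)))) (.b 4)))) (.n (.n (.b 3) (.n (.b 10) (.n
  (.n (.b 3) (.n (.n (.b 3) (.n (.n (.b 3) (.n (.n (.b 3) (.b 8)) (.n (.n (.b 3) (.n (.b 33) (.n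
  (.n (.b 3) (.l 199 2)) (.b 4)))) (.b 4)))) (.n (.n (.b 3) (.n (.b 10) (.n (.n (.b 3) (.n (.n (.b
  3) (.n (.l 199 2) (.n (.n (.b 3) (.n (.b 10) (.l 199 2))) (.b 4)))) (.n (.b 9) (.b 4)))) (.b
  4)))) (.b 4)))) (.n (.b 9) (.b 4)))) (.b 4)))) (.b 4)))) (.n (.b 9) (.b 4)))) (.b 4)))) (.b
  4)))) (.n (.b 9) (.b 4)))) (.b 4)))) (.b 4)))) (.n (.b 10) (.b 4)))) (.n (.n (.b 3) (.n (.n (.b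
  3) (.n (.n (.b 3) (.n (.n (.b 3) (.b 8)) (.n (.n (.b 3) (.n (.n (.b 3) (.n (.n (.b 3) (.n (.n
  (.b 3) (.b 8)) (.n (.n (.b 3) (.n (.n (.b 3) (.n (.n (.b 3) (.n (.n (.b 3) (.b 8)) (.n (.n (.b
  3) (.n (.n (.b 3) (.b 21)) (.n (.n (.b 3) (.n (.n (.b 3) (.n (.n (.b 3) (.n (.n (.b 3) (.b 8))
  (.n (.n (.b 3) (.n (.n (.b 3) (.l 237 2)) (.n (.n (.b 3) (.n (.n (.b 3) (.n (.n (.b 3) (.n (.n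
  (.b 3) (.b 8)) (.l 237 2))) (.l 237 2))) (.l 237 2))) (.b 4)))) (.b 4)))) (.n (.n (.b 3) (.n (.b
  10) (.n (.n (.b 3) (.n (.l 237 2) (.n (.b 9) (.b 4)))) (.b 4)))) (.b 4)))) (.n (.b 9) (.b 4))))
  (.b 4)))) (.b 4)))) (.n (.b 10) (.b 4)))) (.n (.n (.b 3) (.n (.n (.b 3) (.n (.n (.b 3) (.n (.n
  (.b 3) (.b 8)) (.n (.n (.b 3) (.n (.n (.b 3) (.n (.n (.b 3) (.n (.n (.b 3) (.b 8)) (.b 34))) (.n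
  (.b 10) (.b 4)))) (.n (.n (.b 3) (.n (.n (.b 3) (.n (.n (.b 3) (.n (.n (.b 3) (.b 8)) (.n (.l
  302 2) (.b 4)))) (.n (.n (.b 3) (.n (.b 10) (.l 302 2))) (.b 4)))) (.n (.b 9) (.b 4)))) (.b
  4)))) (.b 4)))) (.n (.n (.b 3) (.n (.b 10) (.n (.n (.b 3) (.n (.n (.b 3) (.n (.n (.b 3) (.n (.n
  (.b 3) (.b 8)) (.n (.n (.b 3) (.n (.l 133 2) (.l 133 2))) (.b 4)))) (.n (.n (.b 3) (.n (.b 10)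
  (.n (.n (.b 3) (.l 133 2)) (.b 4)))) (.b 4)))) (.n (.b 9) (.b 4)))) (.b 4)))) (.b 4)))) (.n (.b
  9) (.b 4)))) (.b 4)))) (.b 4)))) (.n (.b 10) (.b 4)))) (.n (.n (.b 3) (.n (.n (.b 3) (.n (.n (.b
  3) (.n (.n (.b 3) (.b 8)) (.n (.n (.b 3) (.n (.n (.b 3) (.n (.n (.b 3) (.n (.n (.b 3) (.b 8))
  (.n (.n (.b 3) (.n (.n (.b 3) (.n (.n (.b 3) (.n (.n (.b 3) (.b 8)) (.n (.n (.b 3) (.n (.n (.b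
  3) (.b 21)) (.n (.l 237 2) (.b 4)))) (.b 4)))) (.n (.b 10) (.b 4)))) (.n (.n (.b 3) (.n (.n (.b
  3) (.n (.n (.b 3) (.n (.n (.b 3) (.b 8)) (.n (.l 237 2) (.b 4)))) (.n (.n (.b 3) (.n (.b 10) (.l
  237 2))) (.b 4)))) (.n (.b 9) (.b 4)))) (.b 4)))) (.b 4)))) (.n (.b 10) (.b 4)))) (.n (.n (.b 3)
  (.n (.n (.b 3) (.n (.n (.b 3) (.n (.n (.b 3) (.b 8)) (.n (.b 30) (.b 4)))) (.n (.n (.b 3) (.n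
  (.b 10) (.n (.n (.b 3) (.n (.n (.b 3) (.n (.n (.b 3) (.n (.l 237 2) (.l 237 2))) (.n (.n (.b 3)
  (.n (.b 10) (.l 237 2))) (.b 4)))) (.n (.b 9) (.b 4)))) (.b 4)))) (.b 4)))) (.n (.b 9) (.b 4))))
  (.b 4)))) (.b 4)))) (.n (.n (.b 3) (.n (.b 10) (.n (.n (.b 3) (.n (.n (.b 3) (.n (.n (.b 3) (.n
  (.n (.b 3) (.b 8)) (.n (.n (.b 3) (.n (.n (.b 3) (.n (.n (.b 3) (.n (.n (.b 3) (.b 8)) (.n (.n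
  (.b 3) (.n (.l 237 2) (.l 237 2))) (.b 4)))) (.n (.b 10) (.b 4)))) (.n (.n (.b 3) (.n (.n (.b 3)
  (.n (.n (.b 3) (.n (.n (.b 3) (.b 8)) (.l 237 2))) (.n (.n (.b 3) (.l 237 2)) (.b 4)))) (.n (.b
  9) (.b 4)))) (.b 4)))) (.b 4)))) (.n (.n (.b 3) (.n (.b 10) (.n (.n (.b 3) (.n (.n (.b 3) (.n
  (.n (.b 3) (.n (.n (.b 3) (.b 8)) (.n (.n (.b 3) (.l 237 2)) (.b 4)))) (.n (.n (.b 3) (.n (.b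
  10) (.n (.n (.b 3) (.n (.l 237 2) (.n (.b 9) (.b 4)))) (.b 4)))) (.b 4)))) (.n (.b 9) (.b 4))))
  (.b 4)))) (.b 4)))) (.n (.b 9) (.b 4)))) (.b 4)))) (.b 4)))) (.n (.b 9) (.b 4)))) (.b 4)))) (.b
  4)))) (.n (.n (.b 3) (.n (.b 10) (.n (.n (.b 3) (.n (.n (.b 3) (.n (.n (.b 3) (.n (.n (.b 3) (.b
  8)) (.n (.n (.b 3) (.n (.n (.b 3) (.n (.n (.b 3) (.n (.n (.b 3) (.b 8)) (.n (.n (.b 3) (.n (.n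
  (.b 3) (.n (.n (.b 3) (.n (.n (.b 3) (.b 8)) (.n (.n (.b 3) (.n (.n (.b 3) (.b 21)) (.n (.n (.b
  3) (.n (.l 331 2) (.n (.b 9) (.b 4)))) (.b 4)))) (.b 4)))) (.n (.b 10) (.b 4)))) (.n (.n (.b 3)
  (.n (.n (.b 3) (.n (.n (.b 3) (.n (.n (.b 3) (.b 8)) (.n (.n (.b 3) (.n (.l 331 2) (.l 331 2)))
  (.b 4)))) (.n (.n (.b 3) (.n (.b 10) (.n (.n (.b 3) (.l 331 2)) (.b 4)))) (.b 4)))) (.n (.b 9)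
  (.b 4)))) (.b 4)))) (.b 4)))) (.n (.b 10) (.b 4)))) (.n (.n (.b 3) (.n (.n (.b 3) (.n (.n (.b 3)
  (.n (.n (.b 3) (.b 8)) (.n (.n (.b 3) (.n (.n (.b 3) (.n (.n (.b 3) (.n (.n (.b 3) (.b 8)) (.n
  (.n (.b 3) (.n (.n (.b 3) (.n (.n (.b 3) (.n (.n (.b 3) (.b 8)) (.l 331 2))) (.l 331 2))) (.l
  331 2))) (.b 4)))) (.n (.b 10) (.b 4)))) (.n (.n (.b 3) (.n (.n (.b 3) (.n (.n (.b 3) (.n (.l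
  331 2) (.n (.l 331 2) (.b 4)))) (.n (.n (.b 3) (.n (.b 10) (.l 331 2))) (.b 4)))) (.n (.b 9) (.b
  4)))) (.b 4)))) (.b 4)))) (.n (.n (.b 3) (.n (.b 10) (.n (.n (.b 3) (.n (.n (.b 3) (.n (.n (.b
  3) (.n (.n (.b 3) (.b 8)) (.n (.n (.b 3) (.l 331 2)) (.b 4)))) (.n (.n (.b 3) (.n (.b 10) (.n
  (.l 331 2) (.b 4)))) (.b 4)))) (.n (.b 9) (.b 4)))) (.b 4)))) (.b 4)))) (.n (.b 9) (.b 4)))) (.b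
  4)))) (.b 4)))) (.n (.n (.b 3) (.n (.b 10) (.n (.n (.b 3) (.n (.n (.b 3) (.n (.n (.b 3) (.n (.n
  (.b 3) (.b 8)) (.n (.n (.b 3) (.n (.n (.b 3) (.n (.n (.b 3) (.n (.n (.b 3) (.b 8)) (.b 33))) (.n
  (.b 10) (.b 4)))) (.n (.n (.b 3) (.n (.n (.b 3) (.n (.n (.b 3) (.n (.n (.b 3) (.b 8)) (.n (.n
  (.b 3) (.l 302 2)) (.b 4)))) (.n (.n (.b 3) (.n (.b 10) (.n (.l 302 2) (.b 4)))) (.b 4)))) (.n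
  (.b 9) (.b 4)))) (.b 4)))) (.b 4)))) (.n (.n (.b 3) (.n (.b 10) (.n (.n (.b 3) (.n (.n (.b 3)
  (.n (.n (.b 3) (.n (.n (.b 3) (.b 8)) (.n (.n (.b 3) (.n (.n (.b 3) (.l 302 2)) (.n (.l 302 2)
  (.b 4)))) (.b 4)))) (.n (.n (.b 3) (.n (.b 10) (.n (.n (.b 3) (.n (.n (.b 3) (.b 32)) (.l 302
  2))) (.b 4)))) (.b 4)))) (.n (.b 9) (.b 4)))) (.b 4)))) (.b 4)))) (.n (.b 9) (.b 4)))) (.b 4))))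
  (.b 4)))) (.n (.b 9) (.b 4)))) (.b 4)))) (.b 4)))) (.n (.b 9) (.b 4)))) (.b 4)))) (.b 4)))) (.n
  (.b 10) (.b 4))))

/-- A subtree of the table. -/
def s6 : T :=
  (.n (.n (.b 3) (.n (.n (.b 3) (.n (.n (.b 3) (.n (.n (.b 3) (.b 8)) (.n (.n (.b 3) (.n (.n (.b
  3) (.n (.n (.b 3) (.n (.n (.b 3) (.b 8)) (.n (.n (.b 3) (.n (.n (.b 3) (.n (.n (.b 3) (.n (.n
  (.b 3) (.b 8)) (.n (.n (.b 3) (.n (.n (.b 3) (.b 21)) (.n (.n (.b 3) (.n (.n (.b 3) (.n (.n (.b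
  3) (.n (.n (.b 3) (.b 8)) (.n (.n (.b 3) (.n (.n (.b 3) (.n (.n (.b 3) (.n (.n (.b 3) (.b 8))
  (.n (.n (.b 3) (.n (.n (.b 3) (.l 303 2)) (.n (.l 303 2) (.b 4)))) (.b 4)))) (.n (.b 10) (.b
  4)))) (.n (.n (.b 3) (.n (.n (.b 3) (.n (.n (.b 3) (.n (.n (.b 3) (.b 8)) (.n (.l 303 2) (.b
  4)))) (.n (.n (.b 3) (.n (.b 10) (.l 303 2))) (.b 4)))) (.n (.b 9) (.b 4)))) (.b 4)))) (.b 4))))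
  (.n (.n (.b 3) (.n (.b 10) (.n (.n (.b 3) (.n (.n (.b 3) (.n (.n (.b 3) (.n (.n (.b 3) (.b 8))
  (.n (.n (.b 3) (.n (.l 303 2) (.n (.l 303 2) (.b 4)))) (.b 4)))) (.n (.n (.b 3) (.n (.b 10) (.n
  (.n (.b 3) (.l 303 2)) (.b 4)))) (.b 4)))) (.n (.b 9) (.b 4)))) (.b 4)))) (.b 4)))) (.n (.b 9)
  (.b 4)))) (.b 4)))) (.b 4)))) (.n (.b 10) (.b 4)))) (.n (.n (.b 3) (.n (.n (.b 3) (.n (.n (.b 3)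
  (.n (.n (.b 3) (.b 8)) (.n (.n (.b 3) (.n (.n (.b 3) (.n (.n (.b 3) (.n (.n (.b 3) (.b 8)) (.n
  (.n (.b 3) (.n (.n (.b 3) (.n (.n (.b 3) (.n (.n (.b 3) (.b 8)) (.n (.n (.b 3) (.n (.n (.b 3)
  (.b 21)) (.n (.l 199 2) (.b 4)))) (.b 4)))) (.n (.b 10) (.b 4)))) (.n (.n (.b 3) (.n (.n (.b 3)
  (.b 34)) (.n (.b 9) (.b 4)))) (.b 4)))) (.b 4)))) (.n (.b 10) (.b 4)))) (.n (.n (.b 3) (.n (.n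
  (.b 3) (.n (.n (.b 3) (.n (.n (.b 3) (.b 8)) (.n (.n (.b 3) (.n (.n (.b 3) (.n (.n (.b 3) (.n
  (.n (.b 3) (.b 8)) (.n (.n (.b 3) (.n (.n (.b 3) (.n (.n (.b 3) (.n (.n (.b 3) (.b 8)) (.l 303
  2))) (.l 303 2))) (.l 303 2))) (.b 4)))) (.n (.b 10) (.b 4)))) (.n (.n (.b 3) (.n (.n (.b 3) (.n
  (.l 303 2) (.l 303 2))) (.n (.b 9) (.b 4)))) (.b 4)))) (.b 4)))) (.n (.n (.b 3) (.n (.b 10) (.n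
  (.n (.b 3) (.n (.n (.b 3) (.n (.n (.b 3) (.n (.l 303 2) (.n (.n (.b 3) (.l 303 2)) (.b 4)))) (.n
  (.n (.b 3) (.n (.b 10) (.l 303 2))) (.b 4)))) (.n (.b 9) (.b 4)))) (.b 4)))) (.b 4)))) (.n (.b
  9) (.b 4)))) (.b 4)))) (.b 4)))) (.n (.n (.b 3) (.n (.b 10) (.n (.n (.b 3) (.n (.n (.b 3) (.n
  (.n (.b 3) (.n (.n (.b 3) (.b 8)) (.n (.n (.b 3) (.n (.n (.b 3) (.n (.n (.b 3) (.n (.n (.b 3)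
  (.b 8)) (.n (.n (.b 3) (.n (.n (.b 3) (.l 276 2)) (.l 276 2))) (.b 4)))) (.n (.b 10) (.b 4))))
  (.n (.n (.b 3) (.n (.n (.b 3) (.n (.n (.b 3) (.n (.l 276 2) (.l 276 2))) (.n (.n (.b 3) (.n (.b
  10) (.n (.l 276 2) (.b 4)))) (.b 4)))) (.n (.b 9) (.b 4)))) (.b 4)))) (.b 4)))) (.n (.n (.b 3)
  (.n (.b 10) (.n (.n (.b 3) (.n (.n (.b 3) (.n (.b 33) (.n (.n (.b 3) (.n (.b 10) (.n (.l 276 2)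
  (.b 4)))) (.b 4)))) (.n (.b 9) (.b 4)))) (.b 4)))) (.b 4)))) (.n (.b 9) (.b 4)))) (.b 4)))) (.b
  4)))) (.n (.b 9) (.b 4)))) (.b 4)))) (.b 4)))) (.n (.b 10) (.b 4)))) (.n (.n (.b 3) (.n (.n (.b
  3) (.n (.n (.b 3) (.n (.n (.b 3) (.b 8)) (.n (.n (.b 3) (.n (.n (.b 3) (.n (.n (.b 3) (.n (.n
  (.b 3) (.b 8)) (.n (.n (.b 3) (.n (.n (.b 3) (.n (.n (.b 3) (.n (.n (.b 3) (.b 8)) (.n (.n (.b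
  3) (.n (.n (.b 3) (.b 21)) (.n (.n (.b 3) (.n (.n (.b 3) (.n (.n (.b 3) (.n (.n (.b 3) (.b 8))
  (.n (.n (.b 3) (.n (.n (.b 3) (.n (.n (.b 3) (.n (.n (.b 3) (.b 8)) (.l 303 2))) (.l 303 2)))
  (.l 303 2))) (.b 4)))) (.n (.n (.b 3) (.n (.b 10) (.n (.n (.b 3) (.n (.n (.b 3) (.n (.n (.b 3)
  (.n (.n (.b 3) (.b 8)) (.l 303 2))) (.l 303 2))) (.l 303 2))) (.b 4)))) (.b 4)))) (.n (.b 9) (.b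
  4)))) (.b 4)))) (.b 4)))) (.n (.b 10) (.b 4)))) (.n (.n (.b 3) (.n (.n (.b 3) (.n (.n (.b 3) (.n
  (.n (.b 3) (.b 8)) (.n (.n (.b 3) (.n (.n (.b 3) (.n (.n (.b 3) (.n (.n (.b 3) (.b 8)) (.n (.l
  303 2) (.b 4)))) (.n (.b 10) (.b 4)))) (.n (.n (.b 3) (.n (.n (.b 3) (.n (.n (.b 3) (.n (.n (.b
  3) (.b 8)) (.l 303 2))) (.n (.l 303 2) (.b 4)))) (.n (.b 9) (.b 4)))) (.b 4)))) (.b 4)))) (.n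
  (.n (.b 3) (.n (.b 10) (.n (.n (.b 3) (.n (.n (.b 3) (.n (.n (.b 3) (.n (.n (.b 3) (.b 8)) (.l
  303 2))) (.n (.n (.b 3) (.l 303 2)) (.b 4)))) (.n (.b 9) (.b 4)))) (.b 4)))) (.b 4)))) (.n (.b
  9) (.b 4)))) (.b 4)))) (.b 4)))) (.n (.b 10) (.b 4)))) (.n (.n (.b 3) (.n (.n (.b 3) (.n (.n (.b
  3) (.n (.n (.b 3) (.b 8)) (.n (.n (.b 3) (.n (.n (.b 3) (.n (.n (.b 3) (.n (.n (.b 3) (.b 8))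
  (.n (.n (.b 3) (.n (.n (.b 3) (.n (.n (.b 3) (.n (.n (.b 3) (.b 8)) (.n (.n (.b 3) (.n (.n (.b
  3) (.b 21)) (.l 316 99))) (.b 4)))) (.n (.b 10) (.b 4)))) (.n (.n (.b 3) (.n (.n (.b 3) (.n (.l
  316 99) (.n (.l 316 99) (.b 4)))) (.n (.b 9) (.b 4)))) (.b 4)))) (.b 4)))) (.n (.b 10) (.b 4))))
  (.n (.n (.b 3) (.b 30)) (.b 4)))) (.b 4)))) (.n (.n (.b 3) (.n (.b 10) (.n (.n (.b 3) (.n (.n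
  (.b 3) (.n (.n (.b 3) (.n (.n (.b 3) (.b 8)) (.n (.n (.b 3) (.n (.n (.b 3) (.n (.n (.b 3) (.n
  (.l 331 2) (.n (.l 331 2) (.b 4)))) (.n (.b 10) (.b 4)))) (.n (.n (.b 3) (.n (.n (.b 3) (.n (.l
  331 2) (.n (.l 331 2) (.b 4)))) (.n (.b 9) (.b 4)))) (.b 4)))) (.b 4)))) (.n (.n (.b 3) (.n (.b
  10) (.n (.n (.b 3) (.n (.n (.b 3) (.n (.n (.b 3) (.l 331 2)) (.n (.n (.b 3) (.l 331 2)) (.b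
  4)))) (.n (.b 9) (.b 4)))) (.b 4)))) (.b 4)))) (.n (.b 9) (.b 4)))) (.b 4)))) (.b 4)))) (.n (.b
  9) (.b 4)))) (.b 4)))) (.b 4)))) (.n (.n (.b 3) (.n (.b 10) (.n (.n (.b 3) (.n (.n (.b 3) (.n
  (.n (.b 3) (.n (.n (.b 3) (.b 8)) (.n (.n (.b 3) (.n (.n (.b 3) (.n (.n (.b 3) (.n (.n (.b 3)
  (.b 8)) (.n (.n (.b 3) (.n (.n (.b 3) (.n (.n (.b 3) (.n (.n (.b 3) (.b 8)) (.n (.n (.b 3) (.n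
  (.l 303 2) (.l 303 2))) (.b 4)))) (.n (.b 10) (.b 4)))) (.n (.n (.b 3) (.n (.n (.b 3) (.n (.n
  (.b 3) (.n (.n (.b 3) (.b 8)) (.l 303 2))) (.n (.n (.b 3) (.l 303 2)) (.b 4)))) (.n (.b 9) (.b
  4)))) (.b 4)))) (.b 4)))) (.n (.b 10) (.b 4)))) (.n (.n (.b 3) (.n (.n (.b 3) (.n (.n (.b 3) (.n
  (.n (.b 3) (.b 8)) (.n (.n (.b 3) (.n (.n (.b 3) (.n (.n (.b 3) (.n (.l 303 2) (.n (.n (.b 3)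
  (.l 303 2)) (.b 4)))) (.n (.b 10) (.b 4)))) (.n (.n (.b 3) (.n (.n (.b 3) (.l 303 2)) (.n (.b 9)
  (.b 4)))) (.b 4)))) (.b 4)))) (.n (.n (.b 3) (.n (.b 10) (.n (.n (.b 3) (.n (.n (.b 3) (.n (.n
  (.b 3) (.b 36)) (.n (.n (.b 3) (.l 303 2)) (.b 4)))) (.n (.b 9) (.b 4)))) (.b 4)))) (.b 4))))
  (.n (.b 9) (.b 4)))) (.b 4)))) (.b 4)))) (.n (.n (.b 3) (.n (.b 10) (.n (.n (.b 3) (.n (.n (.b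
  3) (.n (.n (.b 3) (.n (.n (.b 3) (.b 8)) (.n (.n (.b 3) (.n (.n (.b 3) (.n (.n (.b 3) (.n (.n
  (.b 3) (.b 8)) (.n (.n (.b 3) (.l 303 2)) (.b 4)))) (.n (.b 10) (.b 4)))) (.n (.n (.b 3) (.n (.n
  (.b 3) (.n (.n (.b 3) (.n (.n (.b 3) (.b 8)) (.l 303 2))) (.n (.l 303 2) (.b 4)))) (.n (.b 9)
  (.b 4)))) (.b 4)))) (.b 4)))) (.n (.n (.b 3) (.n (.b 10) (.n (.n (.b 3) (.n (.n (.b 3) (.n (.n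
  (.b 3) (.n (.n (.b 3) (.b 8)) (.n (.l 303 2) (.b 4)))) (.n (.n (.b 3) (.n (.b 10) (.n (.l 303 2)
  (.b 4)))) (.b 4)))) (.n (.b 9) (.b 4)))) (.b 4)))) (.b 4)))) (.n (.b 9) (.b 4)))) (.b 4)))) (.b
  4)))) (.n (.b 9) (.b 4)))) (.b 4)))) (.b 4)))) (.n (.b 9) (.b 4)))) (.b 4)))) (.b 4)))) (.n (.n
  (.b 3) (.n (.b 10) (.n (.n (.b 3) (.n (.n (.b 3) (.n (.n (.b 3) (.n (.n (.b 3) (.b 8)) (.n (.n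
  (.b 3) (.n (.n (.b 3) (.n (.n (.b 3) (.n (.n (.b 3) (.b 8)) (.n (.n (.b 3) (.n (.n (.b 3) (.n
  (.n (.b 3) (.n (.n (.b 3) (.b 8)) (.n (.n (.b 3) (.n (.n (.b 3) (.b 21)) (.n (.n (.b 3) (.n (.n
  (.b 3) (.n (.n (.b 3) (.n (.n (.b 3) (.b 8)) (.n (.n (.b 3) (.n (.l 331 2) (.n (.n (.b 3) (.n
  (.n (.b 3) (.n (.n (.b 3) (.n (.n (.b 3) (.b 8)) (.l 331 2))) (.l 331 2))) (.l 331 2))) (.b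
  4)))) (.b 4)))) (.n (.n (.b 3) (.n (.b 10) (.n (.n (.b 3) (.l 331 2)) (.b 4)))) (.b 4)))) (.n
  (.b 9) (.b 4)))) (.b 4)))) (.b 4)))) (.n (.b 10) (.b 4)))) (.n (.n (.b 3) (.n (.n (.b 3) (.n (.n
  (.b 3) (.n (.n (.b 3) (.b 8)) (.n (.n (.b 3) (.n (.n (.b 3) (.n (.n (.b 3) (.n (.n (.b 3) (.b
  8)) (.n (.n (.b 3) (.n (.n (.b 3) (.l 331 2)) (.l 331 2))) (.b 4)))) (.n (.b 10) (.b 4)))) (.n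
  (.n (.b 3) (.n (.n (.b 3) (.n (.n (.b 3) (.n (.l 331 2) (.l 331 2))) (.n (.n (.b 3) (.n (.b 10)
  (.n (.l 331 2) (.b 4)))) (.b 4)))) (.n (.b 9) (.b 4)))) (.b 4)))) (.b 4)))) (.n (.n (.b 3) (.n
  (.b 10) (.n (.n (.b 3) (.n (.n (.b 3) (.n (.n (.b 3) (.n (.n (.b 3) (.b 8)) (.n (.n (.b 3) (.l
  331 2)) (.b 4)))) (.b 33))) (.n (.b 9) (.b 4)))) (.b 4)))) (.b 4)))) (.n (.b 9) (.b 4)))) (.b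
  4)))) (.b 4)))) (.n (.b 10) (.b 4)))) (.n (.n (.b 3) (.n (.n (.b 3) (.n (.n (.b 3) (.n (.n (.b
  3) (.b 8)) (.n (.n (.b 3) (.n (.n (.b 3) (.n (.n (.b 3) (.n (.n (.b 3) (.b 8)) (.n (.n (.b 3)
  (.n (.n (.b 3) (.n (.n (.b 3) (.n (.n (.b 3) (.b 8)) (.n (.n (.b 3) (.n (.l 237 2) (.l 237 2)))
  (.b 4)))) (.n (.b 10) (.b 4)))) (.n (.n (.b 3) (.n (.n (.b 3) (.n (.n (.b 3) (.n (.n (.b 3) (.b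
  8)) (.l 237 2))) (.n (.n (.b 3) (.l 237 2)) (.b 4)))) (.n (.b 9) (.b 4)))) (.b 4)))) (.b 4))))
  (.n (.b 10) (.b 4)))) (.n (.n (.b 3) (.n (.n (.b 3) (.n (.n (.b 3) (.n (.n (.b 3) (.b 8)) (.n
  (.n (.b 3) (.n (.n (.b 3) (.n (.n (.b 3) (.n (.l 237 2) (.n (.l 237 2) (.b 4)))) (.n (.b 10) (.b
  4)))) (.n (.n (.b 3) (.n (.b 30) (.n (.b 9) (.b 4)))) (.b 4)))) (.b 4)))) (.n (.n (.b 3) (.n (.b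
  10) (.n (.n (.b 3) (.n (.n (.b 3) (.n (.n (.b 3) (.n (.n (.b 3) (.b 8)) (.l 237 2))) (.n (.l 237
  2) (.b 4)))) (.n (.b 9) (.b 4)))) (.b 4)))) (.b 4)))) (.n (.b 9) (.b 4)))) (.b 4)))) (.b 4))))
  (.n (.n (.b 3) (.n (.b 10) (.n (.n (.b 3) (.n (.n (.b 3) (.n (.n (.b 3) (.n (.n (.b 3) (.b 8))
  (.n (.n (.b 3) (.n (.n (.b 3) (.n (.n (.b 3) (.n (.n (.b 3) (.b 8)) (.n (.n (.b 3) (.l 331 2))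
  (.b 4)))) (.n (.b 10) (.b 4)))) (.n (.n (.b 3) (.n (.n (.b 3) (.n (.n (.b 3) (.l 346 0)) (.b
  36))) (.n (.b 9) (.b 4)))) (.b 4)))) (.b 4)))) (.n (.n (.b 3) (.n (.b 10) (.n (.n (.b 3) (.n (.n
  (.b 3) (.n (.n (.b 3) (.n (.n (.b 3) (.b 8)) (.n (.l 331 2) (.b 4)))) (.n (.n (.b 3) (.n (.b 10)
  (.n (.l 331 2) (.b 4)))) (.b 4)))) (.n (.b 9) (.b 4)))) (.b 4)))) (.b 4)))) (.n (.b 9) (.b 4))))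
  (.b 4)))) (.b 4)))) (.n (.b 9) (.b 4)))) (.b 4)))) (.b 4)))) (.n (.n (.b 3) (.n (.b 10) (.n (.n
  (.b 3) (.n (.n (.b 3) (.n (.n (.b 3) (.n (.n (.b 3) (.b 8)) (.n (.n (.b 3) (.n (.n (.b 3) (.n
  (.n (.b 3) (.n (.n (.b 3) (.b 8)) (.n (.n (.b 3) (.n (.n (.b 3) (.n (.n (.b 3) (.n (.n (.b 3)
  (.b 8)) (.n (.n (.b 3) (.n (.n (.b 3) (.b 21)) (.n (.n (.b 3) (.l 237 2)) (.b 4)))) (.b 4))))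
  (.n (.b 10) (.b 4)))) (.n (.n (.b 3) (.n (.n (.b 3) (.b 33)) (.n (.b 9) (.b 4)))) (.b 4)))) (.b
  4)))) (.n (.b 10) (.b 4)))) (.n (.n (.b 3) (.n (.n (.b 3) (.n (.n (.b 3) (.n (.n (.b 3) (.b 8))
  (.n (.n (.b 3) (.n (.n (.b 3) (.n (.n (.b 3) (.n (.n (.b 3) (.b 8)) (.n (.n (.b 3) (.n (.n (.b
  3) (.n (.n (.b 3) (.n (.n (.b 3) (.b 8)) (.l 331 2))) (.l 331 2))) (.l 331 2))) (.b 4)))) (.n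
  (.b 10) (.b 4)))) (.n (.n (.b 3) (.n (.n (.b 3) (.n (.n (.b 3) (.l 331 2)) (.n (.l 331 2) (.b
  4)))) (.n (.b 9) (.b 4)))) (.b 4)))) (.b 4)))) (.n (.n (.b 3) (.n (.b 10) (.n (.n (.b 3) (.n (.n
  (.b 3) (.n (.n (.b 3) (.n (.n (.b 3) (.b 8)) (.n (.n (.b 3) (.l 331 2)) (.b 4)))) (.n (.n (.b 3)
  (.n (.b 10) (.l 331 2))) (.b 4)))) (.n (.b 9) (.b 4)))) (.b 4)))) (.b 4)))) (.n (.b 9) (.b 4))))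
  (.b 4)))) (.b 4)))) (.n (.n (.b 3) (.n (.b 10) (.n (.n (.b 3) (.n (.n (.b 3) (.n (.n (.b 3) (.n
  (.n (.b 3) (.b 8)) (.n (.n (.b 3) (.n (.n (.b 3) (.n (.n (.b 3) (.n (.n (.b 3) (.b 8)) (.n (.n
  (.b 3) (.n (.n (.b 3) (.l 331 2)) (.n (.l 331 2) (.b 4)))) (.b 4)))) (.n (.b 10) (.b 4)))) (.n
  (.n (.b 3) (.n (.n (.b 3) (.n (.n (.b 3) (.n (.n (.b 3) (.b 8)) (.n (.n (.b 3) (.n (.l 331 2)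
  (.n (.l 331 2) (.b 4)))) (.b 4)))) (.n (.n (.b 3) (.n (.b 10) (.n (.l 331 2) (.b 4)))) (.b 4))))
  (.n (.b 9) (.b 4)))) (.b 4)))) (.b 4)))) (.n (.n (.b 3) (.n (.b 10) (.n (.n (.b 3) (.n (.n (.b
  3) (.b 32)) (.n (.b 9) (.b 4)))) (.b 4)))) (.b 4)))) (.n (.b 9) (.b 4)))) (.b 4)))) (.b 4))))
  (.n (.b 9) (.b 4)))) (.b 4)))) (.b 4)))) (.n (.b 9) (.b 4)))) (.b 4)))) (.b 4)))) (.n (.b 9) (.b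
  4)))) (.b 4))

/-- A subtree of the table. -/
def s7 : T :=
  (.b 4)

/-- A subtree of the table. -/
def s8 : T :=
  (.b 3)

/-- A subtree of the table. -/
def s9 : T :=
  (.n (.b 3) (.n (.n (.b 3) (.n (.n (.b 3) (.b 8)) (.n (.n (.b 3) (.n (.n (.b 3) (.n (.n (.b 3)
  (.n (.n (.b 3) (.b 8)) (.n (.n (.b 3) (.n (.n (.b 3) (.n (.n (.b 3) (.n (.n (.b 3) (.b 8)) (.n
  (.n (.b 3) (.n (.b 21) (.n (.n (.b 3) (.n (.n (.b 3) (.n (.n (.b 3) (.n (.n (.b 3) (.b 8)) (.n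
  (.n (.b 3) (.n (.n (.b 3) (.n (.n (.b 3) (.n (.n (.b 3) (.b 8)) (.n (.n (.b 3) (.n (.n (.b 3)
  (.n (.n (.b 3) (.n (.n (.b 3) (.b 8)) (.n (.n (.b 3) (.l 346 0)) (.b 4)))) (.n (.b 10) (.b 4))))
  (.n (.n (.b 3) (.n (.n (.b 3) (.n (.n (.b 3) (.l 346 0)) (.n (.l 346 0) (.b 4)))) (.n (.b 9) (.b
  4)))) (.b 4)))) (.b 4)))) (.n (.b 10) (.b 4)))) (.n (.n (.b 3) (.n (.n (.b 3) (.n (.n (.b 3) (.n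
  (.n (.b 3) (.b 8)) (.n (.n (.b 3) (.n (.n (.b 3) (.n (.n (.b 3) (.l 346 0)) (.n (.b 10) (.b
  4)))) (.n (.n (.b 3) (.n (.l 346 0) (.l 346 0))) (.b 4)))) (.b 4)))) (.n (.n (.b 3) (.n (.b 10)
  (.n (.n (.b 3) (.n (.n (.b 3) (.n (.l 346 0) (.l 346 0))) (.n (.b 9) (.b 4)))) (.b 4)))) (.b
  4)))) (.n (.b 9) (.b 4)))) (.b 4)))) (.b 4)))) (.n (.n (.b 3) (.n (.b 10) (.n (.n (.b 3) (.n (.n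
  (.b 3) (.n (.n (.b 3) (.n (.n (.b 3) (.b 8)) (.n (.n (.b 3) (.n (.n (.b 3) (.n (.n (.b 3) (.n
  (.n (.b 3) (.b 8)) (.n (.l 346 0) (.b 4)))) (.n (.b 10) (.b 4)))) (.n (.n (.b 3) (.n (.n (.b 3)
  (.n (.l 346 0) (.l 346 0))) (.n (.b 9) (.b 4)))) (.b 4)))) (.b 4)))) (.n (.n (.b 3) (.n (.b 10)
  (.n (.n (.b 3) (.n (.n (.b 3) (.n (.n (.b 3) (.n (.l 346 0) (.l 346 0))) (.n (.n (.b 3) (.l 346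
  0)) (.b 4)))) (.n (.b 9) (.b 4)))) (.b 4)))) (.b 4)))) (.n (.b 9) (.b 4)))) (.b 4)))) (.b 4))))
  (.n (.b 9) (.b 4)))) (.b 4)))) (.b 4)))) (.n (.b 10) (.b 4)))) (.n (.n (.b 3) (.n (.n (.b 3) (.n
  (.n (.b 3) (.n (.n (.b 3) (.b 8)) (.n (.n (.b 3) (.n (.n (.b 3) (.n (.n (.b 3) (.n (.n (.b 3)
  (.b 8)) (.n (.n (.b 3) (.n (.n (.b 3) (.n (.n (.b 3) (.n (.n (.b 3) (.b 8)) (.n (.n (.b 3) (.n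
  (.n (.b 3) (.b 21)) (.n (.n (.b 3) (.n (.n (.b 3) (.n (.n (.b 3) (.l 273 2)) (.n (.l 273 2) (.b
  4)))) (.n (.b 9) (.b 4)))) (.b 4)))) (.b 4)))) (.n (.b 10) (.b 4)))) (.n (.n (.b 3) (.n (.n (.b
  3) (.n (.n (.b 3) (.n (.n (.b 3) (.b 8)) (.n (.n (.b 3) (.n (.b 34) (.n (.n (.b 3) (.n (.l 273
  2) (.n (.b 9) (.b 4)))) (.b 4)))) (.b 4)))) (.n (.n (.b 3) (.n (.b 10) (.n (.n (.b 3) (.n (.n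
  (.b 3) (.n (.l 273 2) (.n (.n (.b 3) (.n (.b 10) (.l 273 2))) (.b 4)))) (.n (.b 9) (.b 4)))) (.b
  4)))) (.b 4)))) (.n (.b 9) (.b 4)))) (.b 4)))) (.b 4)))) (.n (.b 10) (.b 4)))) (.n (.n (.b 3)
  (.n (.n (.b 3) (.n (.n (.b 3) (.n (.n (.b 3) (.b 8)) (.n (.n (.b 3) (.n (.n (.b 3) (.n (.n (.b
  3) (.n (.n (.b 3) (.b 8)) (.n (.n (.b 3) (.n (.n (.b 3) (.n (.n (.b 3) (.l 273 2)) (.n (.b 10)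
  (.b 4)))) (.n (.n (.b 3) (.n (.n (.b 3) (.n (.n (.b 3) (.n (.n (.b 3) (.b 8)) (.l 273 2))) (.l
  273 2))) (.l 273 2))) (.b 4)))) (.b 4)))) (.n (.b 10) (.b 4)))) (.n (.n (.b 3) (.n (.n (.b 3)
  (.n (.n (.b 3) (.n (.n (.b 3) (.b 8)) (.n (.b 30) (.b 4)))) (.n (.n (.b 3) (.n (.b 10) (.n (.n
  (.b 3) (.n (.n (.b 3) (.n (.l 273 2) (.n (.n (.b 3) (.n (.b 10) (.l 273 2))) (.b 4)))) (.l 273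
  2))) (.b 4)))) (.b 4)))) (.n (.b 9) (.b 4)))) (.b 4)))) (.b 4)))) (.n (.n (.b 3) (.n (.b 10) (.n
  (.n (.b 3) (.n (.n (.b 3) (.n (.n (.b 3) (.n (.n (.b 3) (.b 8)) (.n (.n (.b 3) (.n (.n (.b 3)
  (.n (.n (.b 3) (.n (.n (.b 3) (.b 8)) (.l 273 2))) (.n (.b 10) (.b 4)))) (.n (.n (.b 3) (.l 273
  2)) (.b 4)))) (.b 4)))) (.n (.n (.b 3) (.n (.b 10) (.n (.n (.b 3) (.n (.n (.b 3) (.n (.n (.b 3)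
  (.n (.n (.b 3) (.b 8)) (.l 273 2))) (.l 273 2))) (.n (.b 9) (.b 4)))) (.b 4)))) (.b 4)))) (.n
  (.b 9) (.b 4)))) (.b 4)))) (.b 4)))) (.n (.b 9) (.b 4)))) (.b 4)))) (.b 4)))) (.n (.n (.b 3) (.n
  (.b 10) (.n (.n (.b 3) (.n (.n (.b 3) (.n (.n (.b 3) (.n (.n (.b 3) (.b 8)) (.n (.n (.b 3) (.n
  (.n (.b 3) (.n (.n (.b 3) (.n (.n (.b 3) (.b 8)) (.n (.n (.b 3) (.n (.n (.b 3) (.n (.n (.b 3)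
  (.n (.n (.b 3) (.b 8)) (.n (.n (.b 3) (.l 273 2)) (.b 4)))) (.n (.b 10) (.b 4)))) (.n (.n (.b 3)
  (.n (.n (.b 3) (.n (.l 273 2) (.n (.n (.b 3) (.n (.b 10) (.l 273 2))) (.b 4)))) (.n (.b 9) (.b
  4)))) (.b 4)))) (.b 4)))) (.n (.b 10) (.b 4)))) (.n (.n (.b 3) (.n (.n (.b 3) (.n (.n (.b 3) (.n
  (.n (.b 3) (.b 8)) (.n (.n (.b 3) (.n (.n (.b 3) (.n (.l 273 2) (.l 273 2))) (.n (.n (.b 3) (.n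
  (.l 273 2) (.n (.b 9) (.b 4)))) (.b 4)))) (.b 4)))) (.n (.n (.b 3) (.n (.b 10) (.n (.n (.b 3)
  (.n (.n (.b 3) (.l 273 2)) (.n (.b 9) (.b 4)))) (.b 4)))) (.b 4)))) (.n (.b 9) (.b 4)))) (.b
  4)))) (.b 4)))) (.n (.n (.b 3) (.n (.b 10) (.n (.n (.b 3) (.n (.n (.b 3) (.n (.n (.b 3) (.n (.n
  (.b 3) (.b 8)) (.n (.n (.b 3) (.n (.b 33) (.n (.n (.b 3) (.n (.n (.b 3) (.l 273 2)) (.n (.b 9)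
  (.b 4)))) (.b 4)))) (.b 4)))) (.n (.n (.b 3) (.n (.b 10) (.n (.n (.b 3) (.n (.n (.b 3) (.n (.n
  (.b 3) (.l 273 2)) (.n (.n (.b 3) (.n (.b 10) (.l 273 2))) (.b 4)))) (.n (.b 9) (.b 4)))) (.b
  4)))) (.b 4)))) (.n (.b 9) (.b 4)))) (.b 4)))) (.b 4)))) (.n (.b 9) (.b 4)))) (.b 4)))) (.b
  4)))) (.n (.b 9) (.b 4)))) (.b 4)))) (.b 4)))) (.n (.b 10) (.b 4)))) (.n (.n (.b 3) (.n (.n (.b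
  3) (.n (.n (.b 3) (.n (.n (.b 3) (.b 8)) (.n (.n (.b 3) (.n (.n (.b 3) (.n (.n (.b 3) (.n (.n
  (.b 3) (.b 8)) (.n (.n (.b 3) (.n (.n (.b 3) (.n (.n (.b 3) (.n (.n (.b 3) (.b 8)) (.n (.n (.b
  3) (.n (.n (.b 3) (.b 21)) (.n (.n (.b 3) (.n (.n (.b 3) (.n (.n (.b 3) (.n (.n (.b 3) (.b 8))
  (.n (.n (.b 3) (.n (.n (.b 3) (.n (.n (.b 3) (.l 311 2)) (.n (.b 10) (.b 4)))) (.n (.n (.b 3)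
  (.n (.n (.b 3) (.n (.n (.b 3) (.n (.n (.b 3) (.b 8)) (.l 311 2))) (.l 311 2))) (.l 311 2))) (.b
  4)))) (.b 4)))) (.n (.n (.b 3) (.n (.b 10) (.n (.n (.b 3) (.n (.n (.b 3) (.n (.n (.b 3) (.l 311
  2)) (.l 311 2))) (.n (.b 9) (.b 4)))) (.b 4)))) (.b 4)))) (.n (.b 9) (.b 4)))) (.b 4)))) (.b
  4)))) (.n (.b 10) (.b 4)))) (.n (.n (.b 3) (.n (.n (.b 3) (.n (.n (.b 3) (.n (.n (.b 3) (.b 8))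
  (.n (.n (.b 3) (.n (.n (.b 3) (.n (.n (.b 3) (.n (.n (.b 3) (.b 8)) (.n (.n (.b 3) (.b 34)) (.b
  4)))) (.n (.b 10) (.b 4)))) (.n (.n (.b 3) (.n (.n (.b 3) (.n (.n (.b 3) (.n (.n (.b 3) (.b 8))
  (.n (.n (.b 3) (.n (.l 331 2) (.l 331 2))) (.b 4)))) (.n (.n (.b 3) (.n (.b 10) (.n (.n (.b 3)
  (.l 331 2)) (.b 4)))) (.b 4)))) (.n (.b 9) (.b 4)))) (.b 4)))) (.b 4)))) (.n (.n (.b 3) (.n (.b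
  10) (.n (.n (.b 3) (.n (.n (.b 3) (.n (.n (.b 3) (.n (.n (.b 3) (.b 8)) (.n (.n (.b 3) (.n (.n
  (.b 3) (.n (.l 207 2) (.n (.b 10) (.b 4)))) (.n (.n (.b 3) (.n (.n (.b 3) (.l 207 2)) (.l 207
  2))) (.b 4)))) (.b 4)))) (.n (.n (.b 3) (.n (.b 10) (.n (.n (.b 3) (.n (.n (.b 3) (.l 207 2))
  (.n (.b 9) (.b 4)))) (.b 4)))) (.b 4)))) (.n (.b 9) (.b 4)))) (.b 4)))) (.b 4)))) (.n (.b 9) (.b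
  4)))) (.b 4)))) (.b 4)))) (.n (.b 10) (.b 4)))) (.n (.n (.b 3) (.n (.n (.b 3) (.n (.n (.b 3) (.n
  (.n (.b 3) (.b 8)) (.n (.n (.b 3) (.n (.n (.b 3) (.n (.n (.b 3) (.n (.n (.b 3) (.b 8)) (.n (.n
  (.b 3) (.n (.n (.b 3) (.n (.n (.b 3) (.n (.n (.b 3) (.b 8)) (.n (.n (.b 3) (.n (.n (.b 3) (.b
  21)) (.n (.n (.b 3) (.n (.l 311 2) (.l 311 2))) (.b 4)))) (.b 4)))) (.n (.b 10) (.b 4)))) (.n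
  (.n (.b 3) (.n (.n (.b 3) (.n (.n (.b 3) (.n (.n (.b 3) (.b 8)) (.n (.n (.b 3) (.n (.l 311 2)
  (.n (.l 311 2) (.b 4)))) (.b 4)))) (.n (.n (.b 3) (.n (.b 10) (.n (.n (.b 3) (.l 311 2)) (.b
  4)))) (.b 4)))) (.n (.b 9) (.b 4)))) (.b 4)))) (.b 4)))) (.n (.b 10) (.b 4)))) (.n (.n (.b 3)
  (.n (.n (.b 3) (.n (.n (.b 3) (.n (.n (.b 3) (.b 8)) (.n (.b 30) (.b 4)))) (.n (.n (.b 3) (.n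
  (.b 10) (.n (.n (.b 3) (.n (.n (.b 3) (.n (.n (.b 3) (.n (.n (.b 3) (.b 8)) (.n (.n (.b 3) (.n
  (.l 311 2) (.n (.l 311 2) (.b 4)))) (.b 4)))) (.n (.n (.b 3) (.n (.b 10) (.n (.l 311 2) (.b
  4)))) (.b 4)))) (.n (.b 9) (.b 4)))) (.b 4)))) (.b 4)))) (.n (.b 9) (.b 4)))) (.b 4)))) (.b
  4)))) (.n (.n (.b 3) (.n (.b 10) (.n (.n (.b 3) (.n (.n (.b 3) (.n (.n (.b 3) (.n (.n (.b 3) (.b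
  8)) (.n (.n (.b 3) (.n (.n (.b 3) (.n (.n (.b 3) (.n (.n (.b 3) (.b 8)) (.n (.n (.b 3) (.n (.n
  (.b 3) (.n (.n (.b 3) (.l 311 2)) (.l 311 2))) (.n (.n (.b 3) (.l 311 2)) (.b 4)))) (.b 4))))
  (.n (.b 10) (.b 4)))) (.n (.n (.b 3) (.n (.n (.b 3) (.n (.n (.b 3) (.n (.n (.b 3) (.b 8)) (.n
  (.n (.b 3) (.l 311 2)) (.b 4)))) (.n (.n (.b 3) (.n (.b 10) (.n (.n (.b 3) (.n (.l 311 2) (.n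
  (.b 9) (.b 4)))) (.b 4)))) (.b 4)))) (.n (.b 9) (.b 4)))) (.b 4)))) (.b 4)))) (.n (.n (.b 3) (.n
  (.b 10) (.n (.n (.b 3) (.n (.n (.b 3) (.n (.n (.b 3) (.n (.n (.b 3) (.b 8)) (.n (.n (.b 3) (.n
  (.n (.b 3) (.l 311 2)) (.n (.n (.b 3) (.l 311 2)) (.b 4)))) (.b 4)))) (.n (.n (.b 3) (.n (.b 10)
  (.n (.n (.b 3) (.n (.l 311 2) (.n (.b 9) (.b 4)))) (.b 4)))) (.b 4)))) (.n (.b 9) (.b 4)))) (.b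
  4)))) (.b 4)))) (.n (.b 9) (.b 4)))) (.b 4)))) (.b 4)))) (.n (.b 9) (.b 4)))) (.b 4)))) (.b
  4)))) (.n (.n (.b 3) (.n (.b 10) (.n (.n (.b 3) (.n (.n (.b 3) (.n (.n (.b 3) (.n (.n (.b 3) (.b
  8)) (.n (.n (.b 3) (.n (.n (.b 3) (.n (.n (.b 3) (.n (.n (.b 3) (.b 8)) (.n (.n (.b 3) (.n (.n
  (.b 3) (.n (.n (.b 3) (.n (.n (.b 3) (.b 8)) (.n (.n (.b 3) (.n (.n (.b 3) (.b 21)) (.n (.n (.b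
  3) (.n (.n (.b 3) (.n (.l 331 2) (.l 331 2))) (.n (.b 9) (.b 4)))) (.b 4)))) (.b 4)))) (.n (.b
  10) (.b 4)))) (.n (.n (.b 3) (.n (.n (.b 3) (.n (.n (.b 3) (.n (.n (.b 3) (.b 8)) (.n (.n (.b 3)
  (.n (.n (.b 3) (.n (.l 331 2) (.n (.b 10) (.b 4)))) (.n (.n (.b 3) (.n (.n (.b 3) (.l 331 2))
  (.l 331 2))) (.b 4)))) (.b 4)))) (.n (.n (.b 3) (.n (.b 10) (.n (.n (.b 3) (.n (.n (.b 3) (.l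
  331 2)) (.n (.b 9) (.b 4)))) (.b 4)))) (.b 4)))) (.n (.b 9) (.b 4)))) (.b 4)))) (.b 4)))) (.n
  (.b 10) (.b 4)))) (.n (.n (.b 3) (.n (.n (.b 3) (.n (.n (.b 3) (.n (.n (.b 3) (.b 8)) (.n (.n
  (.b 3) (.n (.n (.b 3) (.n (.n (.b 3) (.n (.n (.b 3) (.b 8)) (.n (.n (.b 3) (.n (.n (.b 3) (.n
  (.n (.b 3) (.n (.n (.b 3) (.b 8)) (.l 331 2))) (.n (.b 10) (.b 4)))) (.n (.n (.b 3) (.l 331 2))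
  (.b 4)))) (.b 4)))) (.n (.b 10) (.b 4)))) (.n (.n (.b 3) (.n (.n (.b 3) (.n (.n (.b 3) (.n (.n
  (.b 3) (.b 8)) (.n (.n (.b 3) (.l 331 2)) (.b 4)))) (.n (.n (.b 3) (.n (.b 10) (.n (.n (.b 3)
  (.l 331 2)) (.b 4)))) (.b 4)))) (.n (.b 9) (.b 4)))) (.b 4)))) (.b 4)))) (.n (.n (.b 3) (.n (.b
  10) (.n (.n (.b 3) (.n (.n (.b 3) (.n (.n (.b 3) (.n (.n (.b 3) (.b 8)) (.n (.n (.b 3) (.n (.n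
  (.b 3) (.l 331 2)) (.n (.b 36) (.b 4)))) (.b 4)))) (.n (.n (.b 3) (.n (.b 10) (.n (.n (.b 3) (.n
  (.l 331 2) (.n (.b 9) (.b 4)))) (.b 4)))) (.b 4)))) (.n (.b 9) (.b 4)))) (.b 4)))) (.b 4)))) (.n
  (.b 9) (.b 4)))) (.b 4)))) (.b 4)))) (.n (.n (.b 3) (.n (.b 10) (.n (.n (.b 3) (.n (.n (.b 3)
  (.n (.n (.b 3) (.n (.n (.b 3) (.b 8)) (.n (.n (.b 3) (.n (.n (.b 3) (.n (.n (.b 3) (.n (.n (.b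
  3) (.b 8)) (.n (.n (.b 3) (.b 33)) (.b 4)))) (.n (.b 10) (.b 4)))) (.n (.n (.b 3) (.n (.n (.b 3)
  (.n (.n (.b 3) (.n (.n (.b 3) (.b 8)) (.n (.n (.b 3) (.n (.n (.b 3) (.l 331 2)) (.n (.l 331 2)
  (.b 4)))) (.b 4)))) (.n (.n (.b 3) (.n (.b 10) (.n (.n (.b 3) (.n (.n (.b 3) (.n (.l 331 2) (.n
  (.l 331 2) (.b 4)))) (.l 331 2))) (.b 4)))) (.b 4)))) (.n (.b 9) (.b 4)))) (.b 4)))) (.b 4))))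
  (.n (.n (.b 3) (.n (.b 10) (.n (.n (.b 3) (.n (.n (.b 3) (.n (.n (.b 3) (.n (.n (.b 3) (.b 8))
  (.n (.n (.b 3) (.n (.n (.b 3) (.n (.n (.b 3) (.l 331 2)) (.n (.b 10) (.b 4)))) (.n (.n (.b 3)
  (.n (.n (.b 3) (.l 331 2)) (.l 331 2))) (.b 4)))) (.b 4)))) (.n (.n (.b 3) (.n (.b 10) (.n (.n
  (.b 3) (.n (.n (.b 3) (.b 32)) (.n (.b 9) (.b 4)))) (.b 4)))) (.b 4)))) (.n (.b 9) (.b 4)))) (.b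
  4)))) (.b 4)))) (.n (.b 9) (.b 4)))) (.b 4)))) (.b 4)))) (.n (.b 9) (.b 4)))) (.b 4)))) (.b
  4)))) (.n (.b 9) (.b 4)))) (.b 4)))) (.b 4)))) (.n (.n (.b 3) (.b 10)) (.b 4))))

/-- A subtree of the table. -/
def s10 : T :=
  (.n (.n (.b 3) (.n (.n (.b 3) (.n (.n (.b 3) (.n (.n (.b 3) (.b 8)) (.n (.n (.b 3) (.n (.n (.b
  3) (.n (.n (.b 3) (.n (.n (.b 3) (.b 8)) (.n (.n (.b 3) (.n (.n (.b 3) (.n (.n (.b 3) (.n (.n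
  (.b 3) (.b 8)) (.n (.n (.b 3) (.n (.n (.b 3) (.b 21)) (.n (.n (.b 3) (.n (.n (.b 3) (.n (.n (.b
  3) (.n (.n (.b 3) (.b 8)) (.n (.n (.b 3) (.n (.n (.b 3) (.n (.n (.b 3) (.n (.n (.b 3) (.b 8))
  (.n (.n (.b 3) (.n (.n (.b 3) (.n (.n (.b 3) (.l 215 4)) (.n (.b 10) (.b 4)))) (.n (.n (.b 3)
  (.n (.l 215 4) (.l 215 4))) (.b 4)))) (.b 4)))) (.n (.b 10) (.b 4)))) (.n (.n (.b 3) (.n (.n (.b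
  3) (.n (.n (.b 3) (.n (.n (.b 3) (.b 8)) (.n (.n (.b 3) (.n (.l 215 4) (.n (.l 215 4) (.b 4))))
  (.b 4)))) (.n (.n (.b 3) (.n (.b 10) (.n (.n (.b 3) (.l 215 4)) (.b 4)))) (.b 4)))) (.n (.b 9)
  (.b 4)))) (.b 4)))) (.b 4)))) (.n (.n (.b 3) (.n (.b 10) (.n (.n (.b 3) (.n (.n (.b 3) (.n (.n
  (.b 3) (.n (.n (.b 3) (.b 8)) (.n (.n (.b 3) (.n (.n (.b 3) (.n (.l 215 4) (.l 215 4))) (.n (.n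
  (.b 3) (.l 215 4)) (.b 4)))) (.b 4)))) (.n (.n (.b 3) (.n (.b 10) (.n (.n (.b 3) (.n (.n (.b 3)
  (.l 215 4)) (.n (.b 9) (.b 4)))) (.b 4)))) (.b 4)))) (.n (.b 9) (.b 4)))) (.b 4)))) (.b 4))))
  (.n (.b 9) (.b 4)))) (.b 4)))) (.b 4)))) (.n (.b 10) (.b 4)))) (.n (.n (.b 3) (.n (.n (.b 3) (.n
  (.n (.b 3) (.n (.n (.b 3) (.b 8)) (.n (.n (.b 3) (.n (.n (.b 3) (.n (.n (.b 3) (.n (.n (.b 3)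
  (.b 8)) (.n (.n (.b 3) (.n (.n (.b 3) (.n (.n (.b 3) (.n (.n (.b 3) (.b 8)) (.n (.n (.b 3) (.n
  (.n (.b 3) (.b 21)) (.n (.n (.b 3) (.n (.l 149 4) (.n (.b 9) (.b 4)))) (.b 4)))) (.b 4)))) (.n
  (.b 10) (.b 4)))) (.n (.n (.b 3) (.n (.n (.b 3) (.n (.n (.b 3) (.b 34)) (.n (.n (.b 3) (.n (.b
  10) (.n (.n (.b 3) (.l 45 99)) (.b 4)))) (.b 4)))) (.n (.b 9) (.b 4)))) (.b 4)))) (.b 4)))) (.n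
  (.b 10) (.b 4)))) (.n (.n (.b 3) (.n (.n (.b 3) (.n (.n (.b 3) (.n (.n (.b 3) (.b 8)) (.n (.n
  (.b 3) (.n (.n (.b 3) (.n (.n (.b 3) (.n (.n (.b 3) (.b 8)) (.n (.n (.b 3) (.n (.n (.b 3) (.n
  (.n (.b 3) (.n (.n (.b 3) (.b 8)) (.l 149 4))) (.l 149 4))) (.l 149 4))) (.b 4)))) (.n (.b 10)
  (.b 4)))) (.n (.n (.b 3) (.n (.n (.b 3) (.n (.n (.b 3) (.n (.l 149 4) (.n (.b 30) (.b 4)))) (.n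
  (.n (.b 3) (.n (.b 10) (.l 149 4))) (.b 4)))) (.n (.b 9) (.b 4)))) (.b 4)))) (.b 4)))) (.n (.n
  (.b 3) (.n (.b 10) (.n (.n (.b 3) (.n (.n (.b 3) (.n (.n (.b 3) (.n (.n (.b 3) (.b 8)) (.n (.n
  (.b 3) (.l 149 4)) (.b 4)))) (.n (.n (.b 3) (.n (.b 10) (.n (.l 149 4) (.b 4)))) (.b 4)))) (.n
  (.b 9) (.b 4)))) (.b 4)))) (.b 4)))) (.n (.b 9) (.b 4)))) (.b 4)))) (.b 4)))) (.n (.n (.b 3) (.n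
  (.b 10) (.n (.n (.b 3) (.n (.n (.b 3) (.n (.n (.b 3) (.n (.n (.b 3) (.b 8)) (.n (.n (.b 3) (.n
  (.n (.b 3) (.n (.n (.b 3) (.n (.n (.b 3) (.b 8)) (.n (.n (.b 3) (.n (.n (.b 3) (.n (.n (.b 3)
  (.n (.l 247 4) (.n (.n (.b 3) (.n (.n (.b 3) (.b 21)) (.l 247 4))) (.b 4)))) (.l 247 4))) (.n
  (.n (.b 3) (.l 247 4)) (.b 4)))) (.b 4)))) (.n (.b 10) (.b 4)))) (.n (.n (.b 3) (.n (.n (.b 3)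
  (.n (.n (.b 3) (.n (.n (.b 3) (.b 8)) (.n (.n (.b 3) (.l 247 4)) (.b 4)))) (.n (.n (.b 3) (.n
  (.b 10) (.n (.l 247 4) (.b 4)))) (.b 4)))) (.n (.b 9) (.b 4)))) (.b 4)))) (.b 4)))) (.n (.n (.b
  3) (.n (.b 10) (.n (.n (.b 3) (.n (.n (.b 3) (.n (.n (.b 3) (.b 33)) (.n (.n (.b 3) (.n (.b 10)
  (.n (.n (.b 3) (.n (.n (.b 3) (.n (.l 246 99) (.n (.l 246 99) (.b 4)))) (.l 246 99))) (.b 4))))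
  (.b 4)))) (.n (.b 9) (.b 4)))) (.b 4)))) (.b 4)))) (.n (.b 9) (.b 4)))) (.b 4)))) (.b 4)))) (.n
  (.b 9) (.b 4)))) (.b 4)))) (.b 4)))) (.n (.b 10) (.b 4)))) (.n (.n (.b 3) (.n (.n (.b 3) (.n (.n
  (.b 3) (.n (.n (.b 3) (.b 8)) (.n (.n (.b 3) (.n (.n (.b 3) (.n (.n (.b 3) (.n (.n (.b 3) (.b
  8)) (.n (.n (.b 3) (.n (.n (.b 3) (.n (.n (.b 3) (.n (.n (.b 3) (.b 8)) (.n (.n (.b 3) (.n (.n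
  (.b 3) (.b 21)) (.n (.n (.b 3) (.n (.n (.b 3) (.n (.n (.b 3) (.n (.n (.b 3) (.b 8)) (.n (.n (.b
  3) (.n (.n (.b 3) (.n (.n (.b 3) (.n (.n (.b 3) (.b 8)) (.l 215 4))) (.l 215 4))) (.l 215 4)))
  (.b 4)))) (.n (.n (.b 3) (.n (.b 10) (.n (.n (.b 3) (.n (.n (.b 3) (.n (.n (.b 3) (.n (.n (.b 3)
  (.b 8)) (.l 215 4))) (.l 215 4))) (.l 215 4))) (.b 4)))) (.b 4)))) (.n (.b 9) (.b 4)))) (.b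
  4)))) (.b 4)))) (.n (.b 10) (.b 4)))) (.n (.n (.b 3) (.n (.n (.b 3) (.n (.n (.b 3) (.n (.n (.b
  3) (.b 8)) (.n (.n (.b 3) (.n (.n (.b 3) (.n (.n (.b 3) (.n (.n (.b 3) (.b 8)) (.n (.n (.b 3)
  (.n (.l 215 4) (.b 34))) (.b 4)))) (.n (.b 10) (.b 4)))) (.n (.n (.b 3) (.n (.n (.b 3) (.n (.n
  (.b 3) (.n (.n (.b 3) (.b 8)) (.n (.l 215 4) (.b 4)))) (.n (.n (.b 3) (.l 215 4)) (.b 4)))) (.n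
  (.b 9) (.b 4)))) (.b 4)))) (.b 4)))) (.n (.n (.b 3) (.n (.b 10) (.n (.n (.b 3) (.n (.n (.b 3)
  (.n (.n (.b 3) (.n (.n (.b 3) (.b 8)) (.n (.n (.b 3) (.l 215 4)) (.b 4)))) (.n (.n (.b 3) (.n
  (.b 10) (.n (.l 215 4) (.b 4)))) (.b 4)))) (.n (.b 9) (.b 4)))) (.b 4)))) (.b 4)))) (.n (.b 9)
  (.b 4)))) (.b 4)))) (.b 4)))) (.n (.b 10) (.b 4)))) (.n (.n (.b 3) (.n (.n (.b 3) (.n (.n (.b 3)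
  (.n (.n (.b 3) (.b 8)) (.n (.n (.b 3) (.n (.n (.b 3) (.n (.n (.b 3) (.n (.n (.b 3) (.b 8)) (.n
  (.n (.b 3) (.n (.n (.b 3) (.n (.n (.b 3) (.n (.n (.b 3) (.b 8)) (.n (.n (.b 3) (.n (.n (.b 3)
  (.b 21)) (.n (.l 215 12) (.b 4)))) (.b 4)))) (.n (.b 10) (.b 4)))) (.n (.n (.b 3) (.n (.n (.b 3)
  (.n (.n (.b 3) (.n (.l 215 12) (.l 215 12))) (.n (.n (.b 3) (.l 215 12)) (.b 4)))) (.n (.b 9)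
  (.b 4)))) (.b 4)))) (.b 4)))) (.n (.b 10) (.b 4)))) (.n (.n (.b 3) (.n (.n (.b 3) (.b 30)) (.n
  (.b 9) (.b 4)))) (.b 4)))) (.b 4)))) (.n (.n (.b 3) (.n (.b 10) (.n (.n (.b 3) (.n (.n (.b 3)
  (.n (.n (.b 3) (.n (.n (.b 3) (.b 8)) (.n (.n (.b 3) (.n (.n (.b 3) (.n (.n (.b 3) (.n (.n (.b
  3) (.b 8)) (.n (.n (.b 3) (.l 215 4)) (.b 4)))) (.n (.b 10) (.b 4)))) (.n (.n (.b 3) (.n (.n (.b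
  3) (.n (.n (.b 3) (.l 215 4)) (.n (.l 215 4) (.b 4)))) (.n (.b 9) (.b 4)))) (.b 4)))) (.b 4))))
  (.n (.n (.b 3) (.n (.b 10) (.n (.n (.b 3) (.n (.n (.b 3) (.n (.n (.b 3) (.n (.n (.b 3) (.b 8))
  (.n (.l 215 4) (.b 4)))) (.n (.n (.b 3) (.n (.b 10) (.l 215 4))) (.b 4)))) (.n (.b 9) (.b 4))))
  (.b 4)))) (.b 4)))) (.n (.b 9) (.b 4)))) (.b 4)))) (.b 4)))) (.n (.b 9) (.b 4)))) (.b 4)))) (.b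
  4)))) (.n (.n (.b 3) (.n (.b 10) (.n (.n (.b 3) (.n (.n (.b 3) (.n (.n (.b 3) (.n (.n (.b 3) (.b
  8)) (.n (.n (.b 3) (.n (.n (.b 3) (.n (.n (.b 3) (.n (.n (.b 3) (.b 8)) (.n (.n (.b 3) (.n (.n
  (.b 3) (.n (.n (.b 3) (.n (.n (.b 3) (.b 8)) (.n (.n (.b 3) (.n (.n (.b 3) (.b 21)) (.n (.n (.b
  3) (.n (.l 253 4) (.n (.b 9) (.b 4)))) (.b 4)))) (.b 4)))) (.n (.b 10) (.b 4)))) (.n (.n (.b 3)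
  (.n (.n (.b 3) (.n (.n (.b 3) (.n (.n (.b 3) (.b 8)) (.n (.n (.b 3) (.l 253 4)) (.b 4)))) (.n
  (.n (.b 3) (.n (.b 10) (.n (.l 253 4) (.b 4)))) (.b 4)))) (.n (.b 9) (.b 4)))) (.b 4)))) (.b
  4)))) (.n (.b 10) (.b 4)))) (.n (.n (.b 3) (.n (.n (.b 3) (.n (.n (.b 3) (.n (.n (.b 3) (.b 8))
  (.n (.n (.b 3) (.n (.n (.b 3) (.n (.n (.b 3) (.n (.n (.b 3) (.b 8)) (.n (.n (.b 3) (.l 149 4))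
  (.b 4)))) (.n (.b 10) (.b 4)))) (.n (.n (.b 3) (.n (.n (.b 3) (.n (.n (.b 3) (.n (.l 149 4) (.n
  (.l 149 4) (.b 4)))) (.n (.n (.b 3) (.l 149 4)) (.b 4)))) (.n (.b 9) (.b 4)))) (.b 4)))) (.b
  4)))) (.n (.n (.b 3) (.n (.b 10) (.n (.n (.b 3) (.n (.n (.b 3) (.n (.n (.b 3) (.n (.n (.b 3) (.b
  8)) (.b 36))) (.n (.n (.b 3) (.n (.b 10) (.n (.l 273 99) (.b 4)))) (.b 4)))) (.n (.b 9) (.b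
  4)))) (.b 4)))) (.b 4)))) (.n (.b 9) (.b 4)))) (.b 4)))) (.b 4)))) (.n (.n (.b 3) (.n (.b 10)
  (.n (.n (.b 3) (.n (.n (.b 3) (.n (.n (.b 3) (.n (.n (.b 3) (.b 8)) (.n (.n (.b 3) (.n (.n (.b
  3) (.n (.n (.b 3) (.n (.n (.b 3) (.b 8)) (.n (.n (.b 3) (.n (.n (.b 3) (.l 253 4)) (.b 33))) (.b
  4)))) (.n (.b 10) (.b 4)))) (.n (.n (.b 3) (.n (.n (.b 3) (.n (.n (.b 3) (.n (.n (.b 3) (.b 8))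
  (.n (.l 253 4) (.b 4)))) (.n (.n (.b 3) (.n (.b 10) (.l 253 4))) (.b 4)))) (.n (.b 9) (.b 4))))
  (.b 4)))) (.b 4)))) (.n (.n (.b 3) (.n (.b 10) (.n (.n (.b 3) (.n (.n (.b 3) (.n (.n (.b 3) (.n
  (.n (.b 3) (.b 8)) (.n (.n (.b 3) (.n (.l 253 4) (.l 253 4))) (.b 4)))) (.n (.n (.b 3) (.n (.b
  10) (.n (.n (.b 3) (.l 253 4)) (.b 4)))) (.b 4)))) (.n (.b 9) (.b 4)))) (.b 4)))) (.b 4)))) (.n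
  (.b 9) (.b 4)))) (.b 4)))) (.b 4)))) (.n (.b 9) (.b 4)))) (.b 4)))) (.b 4)))) (.n (.b 9) (.b
  4)))) (.b 4)))) (.b 4)))) (.n (.n (.b 3) (.n (.b 10) (.n (.n (.b 3) (.n (.n (.b 3) (.n (.n (.b
  3) (.n (.n (.b 3) (.b 8)) (.n (.n (.b 3) (.n (.n (.b 3) (.n (.n (.b 3) (.n (.n (.b 3) (.b 8))
  (.n (.n (.b 3) (.n (.n (.b 3) (.n (.n (.b 3) (.n (.n (.b 3) (.b 8)) (.n (.n (.b 3) (.n (.n (.b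
  3) (.b 21)) (.n (.n (.b 3) (.n (.n (.b 3) (.n (.n (.b 3) (.n (.n (.b 3) (.b 8)) (.n (.n (.b 3)
  (.n (.n (.b 3) (.n (.l 231 4) (.n (.b 10) (.b 4)))) (.n (.n (.b 3) (.n (.n (.b 3) (.n (.n (.b 3)
  (.n (.n (.b 3) (.b 8)) (.l 231 4))) (.l 231 4))) (.l 231 4))) (.b 4)))) (.b 4)))) (.n (.n (.b 3)
  (.n (.b 10) (.n (.n (.b 3) (.n (.n (.b 3) (.n (.l 231 4) (.n (.l 231 4) (.b 4)))) (.n (.b 9) (.b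
  4)))) (.b 4)))) (.b 4)))) (.n (.b 9) (.b 4)))) (.b 4)))) (.b 4)))) (.n (.b 10) (.b 4)))) (.n (.n
  (.b 3) (.n (.n (.b 3) (.n (.n (.b 3) (.n (.n (.b 3) (.b 8)) (.n (.n (.b 3) (.n (.n (.b 3) (.n
  (.n (.b 3) (.n (.n (.b 3) (.b 8)) (.n (.n (.b 3) (.n (.n (.b 3) (.n (.n (.b 3) (.n (.l 165 4)
  (.n (.n (.b 3) (.n (.n (.b 3) (.b 21)) (.l 165 4))) (.b 4)))) (.l 165 4))) (.n (.n (.b 3) (.l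
  165 4)) (.b 4)))) (.b 4)))) (.n (.b 10) (.b 4)))) (.n (.n (.b 3) (.n (.n (.b 3) (.n (.n (.b 3)
  (.n (.n (.b 3) (.b 8)) (.n (.n (.b 3) (.l 165 4)) (.b 4)))) (.n (.n (.b 3) (.n (.b 10) (.n (.l
  165 4) (.b 4)))) (.b 4)))) (.n (.b 9) (.b 4)))) (.b 4)))) (.b 4)))) (.n (.n (.b 3) (.n (.b 10)
  (.n (.n (.b 3) (.n (.n (.b 3) (.n (.n (.b 3) (.n (.n (.b 3) (.b 8)) (.n (.n (.b 3) (.n (.n (.b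
  3) (.l 301 99)) (.n (.l 301 99) (.b 4)))) (.b 4)))) (.n (.b 33) (.b 4)))) (.n (.b 9) (.b 4))))
  (.b 4)))) (.b 4)))) (.n (.b 9) (.b 4)))) (.b 4)))) (.b 4)))) (.n (.b 10) (.b 4)))) (.n (.n (.b
  3) (.n (.n (.b 3) (.n (.n (.b 3) (.n (.n (.b 3) (.b 8)) (.n (.n (.b 3) (.n (.n (.b 3) (.n (.n
  (.b 3) (.n (.n (.b 3) (.b 8)) (.n (.n (.b 3) (.n (.n (.b 3) (.n (.n (.b 3) (.n (.n (.b 3) (.b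
  8)) (.n (.n (.b 3) (.n (.n (.b 3) (.b 21)) (.n (.n (.b 3) (.l 231 4)) (.b 4)))) (.b 4)))) (.n
  (.b 10) (.b 4)))) (.n (.n (.b 3) (.n (.n (.b 3) (.n (.n (.b 3) (.n (.n (.b 3) (.b 8)) (.n (.n
  (.b 3) (.l 231 4)) (.b 4)))) (.n (.n (.b 3) (.n (.b 10) (.n (.n (.b 3) (.n (.l 231 4) (.n (.b 9)
  (.b 4)))) (.b 4)))) (.b 4)))) (.n (.b 9) (.b 4)))) (.b 4)))) (.b 4)))) (.n (.b 10) (.b 4)))) (.n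
  (.n (.b 3) (.n (.n (.b 3) (.n (.n (.b 3) (.n (.n (.b 3) (.b 8)) (.n (.n (.b 3) (.n (.n (.b 3)
  (.n (.n (.b 3) (.n (.n (.b 3) (.b 8)) (.n (.n (.b 3) (.n (.n (.b 3) (.n (.l 231 4) (.n (.b 10)
  (.b 4)))) (.l 231 4))) (.b 4)))) (.n (.b 10) (.b 4)))) (.n (.n (.b 3) (.n (.b 30) (.n (.b 9) (.b
  4)))) (.b 4)))) (.b 4)))) (.n (.n (.b 3) (.n (.b 10) (.n (.n (.b 3) (.n (.n (.b 3) (.n (.n (.b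
  3) (.n (.n (.b 3) (.b 8)) (.n (.n (.b 3) (.l 231 4)) (.b 4)))) (.n (.n (.b 3) (.n (.b 10) (.l
  231 4))) (.b 4)))) (.n (.b 9) (.b 4)))) (.b 4)))) (.b 4)))) (.n (.b 9) (.b 4)))) (.b 4)))) (.b
  4)))) (.n (.n (.b 3) (.n (.b 10) (.n (.n (.b 3) (.n (.n (.b 3) (.n (.n (.b 3) (.n (.n (.b 3) (.b
  8)) (.n (.n (.b 3) (.n (.n (.b 3) (.n (.n (.b 3) (.n (.n (.b 3) (.b 8)) (.n (.n (.b 3) (.n (.n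
  (.b 3) (.l 269 4)) (.n (.n (.b 3) (.n (.l 269 4) (.n (.b 9) (.b 4)))) (.b 4)))) (.b 4)))) (.n
  (.b 10) (.b 4)))) (.n (.n (.b 3) (.n (.n (.b 3) (.n (.n (.b 3) (.n (.n (.b 3) (.b 8)) (.n (.l
  165 99) (.b 4)))) (.n (.n (.b 3) (.b 36)) (.b 4)))) (.n (.b 9) (.b 4)))) (.b 4)))) (.b 4)))) (.n
  (.n (.b 3) (.n (.b 10) (.n (.n (.b 3) (.n (.n (.b 3) (.n (.n (.b 3) (.n (.n (.b 3) (.b 8)) (.n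
  (.n (.b 3) (.n (.n (.b 3) (.n (.l 269 4) (.n (.b 10) (.b 4)))) (.l 269 4))) (.b 4)))) (.n (.n
  (.b 3) (.n (.b 10) (.n (.n (.b 3) (.n (.l 269 4) (.n (.b 9) (.b 4)))) (.b 4)))) (.b 4)))) (.n
  (.b 9) (.b 4)))) (.b 4)))) (.b 4)))) (.n (.b 9) (.b 4)))) (.b 4)))) (.b 4)))) (.n (.b 9) (.b
  4)))) (.b 4)))) (.b 4)))) (.n (.n (.b 3) (.n (.b 10) (.n (.n (.b 3) (.n (.n (.b 3) (.n (.n (.b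
  3) (.n (.n (.b 3) (.b 8)) (.n (.n (.b 3) (.n (.n (.b 3) (.n (.n (.b 3) (.n (.n (.b 3) (.b 8))
  (.n (.n (.b 3) (.n (.n (.b 3) (.n (.n (.b 3) (.n (.n (.b 3) (.b 8)) (.n (.n (.b 3) (.n (.n (.b
  3) (.b 21)) (.n (.n (.b 3) (.n (.n (.b 3) (.l 247 4)) (.n (.b 9) (.b 4)))) (.b 4)))) (.b 4))))
  (.n (.b 10) (.b 4)))) (.n (.n (.b 3) (.n (.n (.b 3) (.n (.n (.b 3) (.n (.n (.b 3) (.b 8)) (.n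
  (.n (.b 3) (.n (.n (.b 3) (.l 181 99)) (.n (.l 181 99) (.b 4)))) (.b 4)))) (.n (.b 33) (.b 4))))
  (.n (.b 9) (.b 4)))) (.b 4)))) (.b 4)))) (.n (.b 10) (.b 4)))) (.n (.n (.b 3) (.n (.n (.b 3) (.n
  (.n (.b 3) (.n (.n (.b 3) (.b 8)) (.n (.n (.b 3) (.n (.n (.b 3) (.n (.n (.b 3) (.n (.n (.b 3)
  (.b 8)) (.n (.n (.b 3) (.n (.n (.b 3) (.n (.n (.b 3) (.n (.n (.b 3) (.b 8)) (.l 285 4))) (.l 285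
  4))) (.n (.l 285 4) (.b 4)))) (.b 4)))) (.n (.b 10) (.b 4)))) (.n (.n (.b 3) (.n (.n (.b 3) (.n
  (.n (.b 3) (.n (.n (.b 3) (.b 8)) (.n (.n (.b 3) (.l 285 4)) (.b 4)))) (.n (.n (.b 3) (.n (.b
  10) (.l 285 4))) (.b 4)))) (.n (.b 9) (.b 4)))) (.b 4)))) (.b 4)))) (.n (.n (.b 3) (.n (.b 10)
  (.n (.n (.b 3) (.n (.n (.b 3) (.n (.n (.b 3) (.n (.n (.b 3) (.b 8)) (.n (.n (.b 3) (.n (.l 285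
  4) (.n (.l 285 4) (.b 4)))) (.b 4)))) (.n (.n (.b 3) (.n (.b 10) (.n (.n (.b 3) (.n (.n (.b 3)
  (.n (.l 285 4) (.n (.n (.b 3) (.n (.b 10) (.l 285 4))) (.b 4)))) (.l 285 4))) (.b 4)))) (.b
  4)))) (.n (.b 9) (.b 4)))) (.b 4)))) (.b 4)))) (.n (.b 9) (.b 4)))) (.b 4)))) (.b 4)))) (.n (.n
  (.b 3) (.n (.b 10) (.n (.n (.b 3) (.n (.n (.b 3) (.n (.n (.b 3) (.n (.n (.b 3) (.b 8)) (.n (.n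
  (.b 3) (.n (.n (.b 3) (.n (.n (.b 3) (.n (.n (.b 3) (.b 8)) (.n (.n (.b 3) (.n (.n (.b 3) (.n
  (.n (.b 3) (.n (.l 301 4) (.n (.n (.b 3) (.n (.n (.b 3) (.b 21)) (.l 301 4))) (.b 4)))) (.n (.b
  10) (.b 4)))) (.n (.n (.b 3) (.n (.n (.b 3) (.n (.l 301 4) (.b 33))) (.l 301 4))) (.b 4)))) (.b
  4)))) (.n (.b 10) (.b 4)))) (.n (.n (.b 3) (.n (.n (.b 3) (.n (.n (.b 3) (.n (.n (.b 3) (.b 8))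
  (.n (.n (.b 3) (.n (.l 301 4) (.n (.l 301 4) (.b 4)))) (.b 4)))) (.n (.n (.b 3) (.n (.b 10) (.n
  (.n (.b 3) (.n (.l 301 4) (.l 301 4))) (.b 4)))) (.b 4)))) (.n (.b 9) (.b 4)))) (.b 4)))) (.b
  4)))) (.n (.n (.b 3) (.n (.b 10) (.n (.n (.b 3) (.n (.n (.b 3) (.n (.n (.b 3) (.n (.n (.b 3) (.b
  8)) (.n (.n (.b 3) (.n (.n (.b 3) (.n (.l 346 0) (.l 346 0))) (.n (.n (.b 3) (.l 346 0)) (.b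
  4)))) (.b 4)))) (.b 32))) (.n (.b 9) (.b 4)))) (.b 4)))) (.b 4)))) (.n (.b 9) (.b 4)))) (.b
  4)))) (.b 4)))) (.n (.b 9) (.b 4)))) (.b 4)))) (.b 4)))) (.n (.b 9) (.b 4)))) (.b 4)))) (.b
  4)))) (.n (.b 9) (.b 4)))) (.b 4))

/-- A subtree of the table. -/
def s11 : T :=
  (.b 4)

/-- A subtree of the table. -/
def s12 : T :=
  (.b 3)

/-- A subtree of the table. -/
def s13 : T :=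
  (.b 3)

/-- A subtree of the table. -/
def s14 : T :=
  (.n (.b 3) (.n (.n (.b 3) (.b 8)) (.n (.n (.b 3) (.n (.n (.b 3) (.n (.n (.b 3) (.n (.n (.b 3)
  (.b 8)) (.n (.n (.b 3) (.n (.n (.b 3) (.n (.n (.b 3) (.n (.n (.b 3) (.b 8)) (.n (.n (.b 3) (.n
  (.n (.b 3) (.n (.b 21) (.n (.b 10) (.b 4)))) (.n (.n (.b 3) (.n (.n (.b 3) (.n (.n (.b 3) (.n
  (.n (.b 3) (.b 8)) (.n (.n (.b 3) (.n (.n (.b 3) (.n (.n (.b 3) (.n (.n (.b 3) (.b 8)) (.n (.n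
  (.b 3) (.n (.n (.b 3) (.n (.n (.b 3) (.n (.n (.b 3) (.b 8)) (.n (.n (.b 3) (.n (.n (.b 3) (.b
  21)) (.n (.n (.b 3) (.n (.l 140 99) (.n (.b 9) (.b 4)))) (.b 4)))) (.b 4)))) (.n (.b 10) (.b
  4)))) (.n (.n (.b 3) (.n (.n (.b 3) (.n (.n (.b 3) (.n (.n (.b 3) (.b 8)) (.n (.n (.b 3) (.n (.b
  34) (.l 140 99))) (.b 4)))) (.n (.n (.b 3) (.n (.b 10) (.n (.n (.b 3) (.n (.n (.b 3) (.n (.l 140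
  99) (.n (.n (.b 3) (.n (.b 10) (.l 140 99))) (.b 4)))) (.l 140 99))) (.b 4)))) (.b 4)))) (.n (.b
  9) (.b 4)))) (.b 4)))) (.b 4)))) (.n (.b 10) (.b 4)))) (.n (.n (.b 3) (.n (.n (.b 3) (.n (.n (.b
  3) (.n (.n (.b 3) (.b 8)) (.n (.n (.b 3) (.n (.n (.b 3) (.n (.n (.b 3) (.n (.n (.b 3) (.b 8))
  (.n (.l 140 99) (.b 4)))) (.n (.b 10) (.b 4)))) (.n (.n (.b 3) (.n (.n (.b 3) (.n (.n (.b 3) (.n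
  (.l 140 99) (.n (.b 30) (.b 4)))) (.n (.l 140 99) (.b 4)))) (.n (.b 9) (.b 4)))) (.b 4)))) (.b
  4)))) (.n (.n (.b 3) (.n (.b 10) (.n (.n (.b 3) (.n (.n (.b 3) (.n (.n (.b 3) (.n (.n (.b 3) (.b
  8)) (.l 140 99))) (.n (.n (.b 3) (.l 140 99)) (.b 4)))) (.n (.b 9) (.b 4)))) (.b 4)))) (.b 4))))
  (.n (.b 9) (.b 4)))) (.b 4)))) (.b 4)))) (.n (.n (.b 3) (.n (.b 10) (.n (.n (.b 3) (.n (.n (.b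
  3) (.n (.n (.b 3) (.n (.n (.b 3) (.b 8)) (.n (.n (.b 3) (.n (.n (.b 3) (.n (.n (.b 3) (.n (.n
  (.b 3) (.b 8)) (.n (.n (.b 3) (.n (.l 140 99) (.n (.n (.b 3) (.n (.n (.b 3) (.n (.l 140 99) (.n
  (.n (.b 3) (.n (.b 10) (.l 140 99))) (.b 4)))) (.l 140 99))) (.b 4)))) (.b 4)))) (.n (.b 10) (.b
  4)))) (.n (.n (.b 3) (.n (.n (.b 3) (.n (.n (.b 3) (.n (.l 140 99) (.n (.l 140 99) (.b 4)))) (.n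
  (.n (.b 3) (.l 140 99)) (.b 4)))) (.n (.b 9) (.b 4)))) (.b 4)))) (.b 4)))) (.n (.n (.b 3) (.n
  (.b 10) (.n (.n (.b 3) (.n (.n (.b 3) (.n (.n (.b 3) (.n (.n (.b 3) (.b 8)) (.n (.n (.b 3) (.n
  (.b 33) (.l 140 99))) (.b 4)))) (.n (.n (.b 3) (.n (.b 10) (.n (.n (.b 3) (.n (.n (.b 3) (.n (.l
  140 99) (.n (.n (.b 3) (.n (.b 10) (.l 140 99))) (.b 4)))) (.l 140 99))) (.b 4)))) (.b 4)))) (.n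
  (.b 9) (.b 4)))) (.b 4)))) (.b 4)))) (.n (.b 9) (.b 4)))) (.b 4)))) (.b 4)))) (.n (.b 9) (.b
  4)))) (.b 4)))) (.b 4)))) (.n (.b 10) (.b 4)))) (.n (.n (.b 3) (.n (.n (.b 3) (.n (.n (.b 3) (.n
  (.n (.b 3) (.b 8)) (.n (.n (.b 3) (.n (.n (.b 3) (.n (.n (.b 3) (.n (.n (.b 3) (.b 8)) (.n (.n
  (.b 3) (.n (.n (.b 3) (.n (.n (.b 3) (.n (.n (.b 3) (.b 8)) (.n (.n (.b 3) (.n (.n (.b 3) (.b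
  21)) (.n (.n (.b 3) (.n (.n (.b 3) (.n (.n (.b 3) (.n (.n (.b 3) (.b 8)) (.n (.l 178 4) (.b
  4)))) (.n (.n (.b 3) (.n (.b 10) (.l 178 4))) (.b 4)))) (.n (.b 9) (.b 4)))) (.b 4)))) (.b 4))))
  (.n (.b 10) (.b 4)))) (.n (.n (.b 3) (.n (.n (.b 3) (.n (.n (.b 3) (.n (.n (.b 3) (.b 8)) (.n
  (.n (.b 3) (.n (.n (.b 3) (.b 34)) (.n (.n (.b 3) (.n (.n (.b 3) (.n (.l 243 99) (.l 243 99)))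
  (.n (.b 9) (.b 4)))) (.b 4)))) (.b 4)))) (.n (.n (.b 3) (.n (.b 10) (.n (.n (.b 3) (.n (.n (.b
  3) (.n (.n (.b 3) (.n (.l 74 4) (.n (.n (.b 3) (.l 74 4)) (.b 4)))) (.n (.n (.b 3) (.n (.b 10)
  (.l 74 4))) (.b 4)))) (.n (.b 9) (.b 4)))) (.b 4)))) (.b 4)))) (.n (.b 9) (.b 4)))) (.b 4))))
  (.b 4)))) (.n (.b 10) (.b 4)))) (.n (.n (.b 3) (.n (.n (.b 3) (.n (.n (.b 3) (.n (.n (.b 3) (.b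
  8)) (.n (.n (.b 3) (.n (.n (.b 3) (.n (.n (.b 3) (.n (.n (.b 3) (.b 8)) (.n (.n (.b 3) (.n (.n
  (.b 3) (.n (.n (.b 3) (.n (.n (.b 3) (.b 8)) (.n (.l 178 4) (.b 4)))) (.n (.b 10) (.b 4)))) (.n
  (.n (.b 3) (.n (.n (.b 3) (.n (.n (.b 3) (.n (.n (.b 3) (.b 8)) (.l 178 4))) (.l 178 4))) (.n
  (.b 9) (.b 4)))) (.b 4)))) (.b 4)))) (.n (.b 10) (.b 4)))) (.n (.n (.b 3) (.n (.n (.b 3) (.n (.n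
  (.b 3) (.n (.n (.b 3) (.b 8)) (.n (.b 30) (.b 4)))) (.n (.n (.b 3) (.n (.b 10) (.n (.n (.b 3)
  (.n (.n (.b 3) (.n (.l 178 4) (.n (.n (.b 3) (.n (.b 10) (.l 178 4))) (.b 4)))) (.n (.b 9) (.b
  4)))) (.b 4)))) (.b 4)))) (.n (.b 9) (.b 4)))) (.b 4)))) (.b 4)))) (.n (.n (.b 3) (.n (.b 10)
  (.n (.n (.b 3) (.n (.n (.b 3) (.n (.n (.b 3) (.n (.n (.b 3) (.b 8)) (.n (.n (.b 3) (.n (.n (.b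
  3) (.n (.n (.b 3) (.n (.n (.b 3) (.b 8)) (.l 178 4))) (.n (.b 10) (.b 4)))) (.n (.n (.b 3) (.n
  (.n (.b 3) (.l 178 4)) (.n (.b 9) (.b 4)))) (.b 4)))) (.b 4)))) (.n (.n (.b 3) (.n (.b 10) (.n
  (.n (.b 3) (.n (.n (.b 3) (.n (.n (.b 3) (.n (.n (.b 3) (.b 8)) (.l 178 4))) (.n (.l 178 4) (.b
  4)))) (.n (.b 9) (.b 4)))) (.b 4)))) (.b 4)))) (.n (.b 9) (.b 4)))) (.b 4)))) (.b 4)))) (.n (.b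
  9) (.b 4)))) (.b 4)))) (.b 4)))) (.n (.n (.b 3) (.n (.b 10) (.n (.n (.b 3) (.n (.n (.b 3) (.n
  (.n (.b 3) (.n (.n (.b 3) (.b 8)) (.n (.n (.b 3) (.n (.n (.b 3) (.n (.n (.b 3) (.n (.n (.b 3)
  (.b 8)) (.n (.n (.b 3) (.n (.n (.b 3) (.n (.n (.b 3) (.n (.n (.b 3) (.b 8)) (.n (.n (.b 3) (.n
  (.n (.b 3) (.b 21)) (.l 276 4))) (.b 4)))) (.n (.b 10) (.b 4)))) (.n (.n (.b 3) (.n (.n (.b 3)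
  (.n (.n (.b 3) (.n (.l 276 4) (.n (.n (.b 3) (.l 276 4)) (.b 4)))) (.n (.n (.b 3) (.n (.b 10)
  (.l 276 4))) (.b 4)))) (.n (.b 9) (.b 4)))) (.b 4)))) (.b 4)))) (.n (.b 10) (.b 4)))) (.n (.n
  (.b 3) (.n (.n (.b 3) (.n (.n (.b 3) (.n (.n (.b 3) (.b 8)) (.n (.n (.b 3) (.n (.n (.b 3) (.n
  (.n (.b 3) (.n (.n (.b 3) (.b 8)) (.l 276 4))) (.n (.b 10) (.b 4)))) (.n (.n (.b 3) (.n (.n (.b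
  3) (.l 276 4)) (.n (.b 9) (.b 4)))) (.b 4)))) (.b 4)))) (.n (.n (.b 3) (.n (.b 10) (.n (.n (.b
  3) (.n (.n (.b 3) (.n (.n (.b 3) (.l 276 4)) (.n (.l 276 4) (.b 4)))) (.n (.b 9) (.b 4)))) (.b
  4)))) (.b 4)))) (.n (.b 9) (.b 4)))) (.b 4)))) (.b 4)))) (.n (.n (.b 3) (.n (.b 10) (.n (.n (.b
  3) (.n (.n (.b 3) (.n (.n (.b 3) (.n (.n (.b 3) (.b 8)) (.n (.n (.b 3) (.n (.n (.b 3) (.b 33))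
  (.n (.n (.b 3) (.n (.n (.b 3) (.n (.n (.b 3) (.l 243 99)) (.n (.l 243 99) (.b 4)))) (.n (.b 9)
  (.b 4)))) (.b 4)))) (.b 4)))) (.n (.n (.b 3) (.n (.b 10) (.n (.n (.b 3) (.n (.n (.b 3) (.n (.n
  (.b 3) (.n (.n (.b 3) (.b 8)) (.n (.n (.b 3) (.l 243 4)) (.b 4)))) (.n (.n (.b 3) (.n (.b 10)
  (.l 243 4))) (.b 4)))) (.n (.b 9) (.b 4)))) (.b 4)))) (.b 4)))) (.n (.b 9) (.b 4)))) (.b 4))))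
  (.b 4)))) (.n (.b 9) (.b 4)))) (.b 4)))) (.b 4)))) (.n (.b 9) (.b 4)))) (.b 4)))) (.b 4)))) (.n
  (.b 10) (.b 4)))) (.n (.n (.b 3) (.n (.n (.b 3) (.n (.n (.b 3) (.n (.n (.b 3) (.b 8)) (.n (.n
  (.b 3) (.n (.n (.b 3) (.n (.n (.b 3) (.n (.n (.b 3) (.b 8)) (.n (.n (.b 3) (.n (.n (.b 3) (.n
  (.n (.b 3) (.n (.n (.b 3) (.b 8)) (.n (.n (.b 3) (.n (.n (.b 3) (.b 21)) (.n (.n (.b 3) (.n (.n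
  (.b 3) (.n (.n (.b 3) (.n (.n (.b 3) (.b 8)) (.n (.n (.b 3) (.n (.n (.b 3) (.n (.n (.b 3) (.n
  (.n (.b 3) (.b 8)) (.n (.l 244 4) (.b 4)))) (.n (.b 10) (.b 4)))) (.n (.n (.b 3) (.n (.n (.b 3)
  (.n (.n (.b 3) (.n (.n (.b 3) (.b 8)) (.l 244 4))) (.l 244 4))) (.n (.b 9) (.b 4)))) (.b 4))))
  (.b 4)))) (.n (.n (.b 3) (.n (.b 10) (.n (.n (.b 3) (.n (.n (.b 3) (.n (.n (.b 3) (.n (.n (.b 3)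
  (.b 8)) (.l 244 4))) (.n (.n (.b 3) (.l 244 4)) (.b 4)))) (.n (.b 9) (.b 4)))) (.b 4)))) (.b
  4)))) (.n (.b 9) (.b 4)))) (.b 4)))) (.b 4)))) (.n (.b 10) (.b 4)))) (.n (.n (.b 3) (.n (.n (.b
  3) (.n (.n (.b 3) (.n (.n (.b 3) (.b 8)) (.n (.n (.b 3) (.n (.n (.b 3) (.n (.n (.b 3) (.n (.n
  (.b 3) (.b 8)) (.n (.n (.b 3) (.n (.n (.b 3) (.n (.n (.b 3) (.n (.n (.b 3) (.b 8)) (.n (.n (.b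
  3) (.n (.n (.b 3) (.b 21)) (.l 140 99))) (.b 4)))) (.n (.b 10) (.b 4)))) (.n (.b 34) (.b 4))))
  (.b 4)))) (.n (.b 10) (.b 4)))) (.n (.n (.b 3) (.n (.n (.b 3) (.n (.n (.b 3) (.n (.n (.b 3) (.b
  8)) (.n (.n (.b 3) (.n (.n (.b 3) (.n (.l 244 4) (.n (.b 10) (.b 4)))) (.n (.n (.b 3) (.n (.n
  (.b 3) (.l 244 4)) (.l 244 4))) (.b 4)))) (.b 4)))) (.n (.n (.b 3) (.n (.b 10) (.n (.n (.b 3)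
  (.n (.n (.b 3) (.l 244 4)) (.n (.b 9) (.b 4)))) (.b 4)))) (.b 4)))) (.n (.b 9) (.b 4)))) (.b
  4)))) (.b 4)))) (.n (.n (.b 3) (.n (.b 10) (.n (.n (.b 3) (.n (.n (.b 3) (.n (.n (.b 3) (.n (.n
  (.b 3) (.b 8)) (.n (.n (.b 3) (.n (.n (.b 3) (.n (.n (.b 3) (.n (.l 217 4) (.l 217 4))) (.n (.b
  10) (.b 4)))) (.n (.n (.b 3) (.n (.n (.b 3) (.l 217 4)) (.n (.b 9) (.b 4)))) (.b 4)))) (.b 4))))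
  (.n (.n (.b 3) (.n (.b 10) (.n (.n (.b 3) (.n (.n (.b 3) (.n (.b 33) (.n (.l 217 4) (.b 4))))
  (.n (.b 9) (.b 4)))) (.b 4)))) (.b 4)))) (.n (.b 9) (.b 4)))) (.b 4)))) (.b 4)))) (.n (.b 9) (.b
  4)))) (.b 4)))) (.b 4)))) (.n (.b 10) (.b 4)))) (.n (.n (.b 3) (.n (.n (.b 3) (.n (.n (.b 3) (.n
  (.n (.b 3) (.b 8)) (.n (.n (.b 3) (.n (.n (.b 3) (.n (.n (.b 3) (.n (.n (.b 3) (.b 8)) (.n (.n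
  (.b 3) (.n (.n (.b 3) (.n (.n (.b 3) (.n (.n (.b 3) (.b 8)) (.n (.n (.b 3) (.n (.n (.b 3) (.b
  21)) (.n (.n (.b 3) (.n (.n (.b 3) (.n (.l 244 4) (.n (.l 244 4) (.b 4)))) (.n (.b 9) (.b 4))))
  (.b 4)))) (.b 4)))) (.n (.b 10) (.b 4)))) (.n (.n (.b 3) (.n (.n (.b 3) (.n (.n (.b 3) (.n (.n
  (.b 3) (.b 8)) (.n (.n (.b 3) (.n (.n (.b 3) (.n (.l 244 4) (.l 244 4))) (.n (.n (.b 3) (.l 244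
  4)) (.b 4)))) (.b 4)))) (.n (.n (.b 3) (.n (.b 10) (.n (.n (.b 3) (.n (.n (.b 3) (.l 244 4)) (.n
  (.b 9) (.b 4)))) (.b 4)))) (.b 4)))) (.n (.b 9) (.b 4)))) (.b 4)))) (.b 4)))) (.n (.b 10) (.b
  4)))) (.n (.n (.b 3) (.n (.n (.b 3) (.n (.n (.b 3) (.n (.n (.b 3) (.b 8)) (.n (.n (.b 3) (.b
  30)) (.b 4)))) (.n (.n (.b 3) (.n (.b 10) (.n (.n (.b 3) (.n (.n (.b 3) (.n (.n (.b 3) (.n (.n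
  (.b 3) (.b 8)) (.n (.n (.b 3) (.n (.n (.b 3) (.l 331 4)) (.n (.l 331 4) (.b 4)))) (.b 4)))) (.n
  (.n (.b 3) (.n (.b 10) (.n (.n (.b 3) (.n (.l 331 4) (.l 331 4))) (.b 4)))) (.b 4)))) (.n (.b 9)
  (.b 4)))) (.b 4)))) (.b 4)))) (.n (.b 9) (.b 4)))) (.b 4)))) (.b 4)))) (.n (.n (.b 3) (.n (.b
  10) (.n (.n (.b 3) (.n (.n (.b 3) (.n (.n (.b 3) (.n (.n (.b 3) (.b 8)) (.n (.n (.b 3) (.n (.n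
  (.b 3) (.n (.n (.b 3) (.n (.n (.b 3) (.b 8)) (.n (.n (.b 3) (.n (.n (.b 3) (.n (.n (.b 3) (.n
  (.l 244 4) (.n (.l 244 4) (.b 4)))) (.n (.b 10) (.b 4)))) (.n (.n (.b 3) (.n (.n (.b 3) (.l 244
  4)) (.n (.b 9) (.b 4)))) (.b 4)))) (.b 4)))) (.n (.b 10) (.b 4)))) (.n (.n (.b 3) (.n (.n (.b 3)
  (.n (.n (.b 3) (.n (.n (.b 3) (.b 8)) (.n (.n (.b 3) (.n (.n (.b 3) (.l 244 4)) (.n (.n (.b 3)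
  (.l 244 4)) (.b 4)))) (.b 4)))) (.n (.n (.b 3) (.n (.b 10) (.n (.n (.b 3) (.n (.l 244 4) (.n (.b
  9) (.b 4)))) (.b 4)))) (.b 4)))) (.n (.b 9) (.b 4)))) (.b 4)))) (.b 4)))) (.n (.n (.b 3) (.n (.b
  10) (.n (.n (.b 3) (.n (.n (.b 3) (.n (.n (.b 3) (.n (.n (.b 3) (.b 8)) (.n (.n (.b 3) (.n (.n
  (.b 3) (.n (.n (.b 3) (.l 244 4)) (.n (.b 10) (.b 4)))) (.n (.n (.b 3) (.n (.n (.b 3) (.l 244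
  4)) (.l 244 4))) (.b 4)))) (.b 4)))) (.n (.n (.b 3) (.n (.b 10) (.n (.n (.b 3) (.n (.n (.b 3)
  (.n (.n (.b 3) (.n (.l 244 4) (.n (.l 244 4) (.b 4)))) (.l 244 4))) (.n (.b 9) (.b 4)))) (.b
  4)))) (.b 4)))) (.n (.b 9) (.b 4)))) (.b 4)))) (.b 4)))) (.n (.b 9) (.b 4)))) (.b 4)))) (.b
  4)))) (.n (.b 9) (.b 4)))) (.b 4)))) (.b 4)))) (.n (.n (.b 3) (.n (.b 10) (.n (.n (.b 3) (.n (.n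
  (.b 3) (.n (.n (.b 3) (.n (.n (.b 3) (.b 8)) (.n (.n (.b 3) (.n (.n (.b 3) (.n (.n (.b 3) (.n
  (.n (.b 3) (.b 8)) (.n (.n (.b 3) (.n (.n (.b 3) (.n (.n (.b 3) (.n (.n (.b 3) (.b 8)) (.n (.n
  (.b 3) (.n (.n (.b 3) (.b 21)) (.n (.n (.b 3) (.n (.n (.b 3) (.n (.n (.b 3) (.n (.l 282 4) (.n
  (.l 282 4) (.b 4)))) (.n (.n (.b 3) (.n (.b 10) (.l 282 4))) (.b 4)))) (.n (.b 9) (.b 4)))) (.b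
  4)))) (.b 4)))) (.n (.b 10) (.b 4)))) (.n (.n (.b 3) (.n (.n (.b 3) (.n (.n (.b 3) (.n (.n (.b
  3) (.b 8)) (.n (.n (.b 3) (.n (.n (.b 3) (.n (.n (.b 3) (.n (.l 282 4) (.l 282 4))) (.n (.b 10)
  (.b 4)))) (.n (.n (.b 3) (.n (.n (.b 3) (.l 282 4)) (.n (.b 9) (.b 4)))) (.b 4)))) (.b 4)))) (.n
  (.n (.b 3) (.n (.b 10) (.n (.n (.b 3) (.n (.n (.b 3) (.n (.n (.b 3) (.l 282 4)) (.b 33))) (.n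
  (.b 9) (.b 4)))) (.b 4)))) (.b 4)))) (.n (.b 9) (.b 4)))) (.b 4)))) (.b 4)))) (.n (.b 10) (.b
  4)))) (.n (.n (.b 3) (.n (.n (.b 3) (.n (.n (.b 3) (.n (.n (.b 3) (.b 8)) (.n (.n (.b 3) (.n (.n
  (.b 3) (.n (.n (.b 3) (.n (.n (.b 3) (.b 8)) (.n (.n (.b 3) (.n (.n (.b 3) (.n (.n (.b 3) (.n
  (.n (.b 3) (.b 8)) (.l 178 4))) (.n (.b 10) (.b 4)))) (.n (.n (.b 3) (.n (.n (.b 3) (.l 178 4))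
  (.n (.b 9) (.b 4)))) (.b 4)))) (.b 4)))) (.n (.b 10) (.b 4)))) (.n (.n (.b 3) (.n (.n (.b 3) (.n
  (.n (.b 3) (.n (.n (.b 3) (.b 8)) (.n (.n (.b 3) (.n (.n (.b 3) (.n (.l 178 4) (.n (.b 10) (.b
  4)))) (.n (.n (.b 3) (.l 178 4)) (.b 4)))) (.b 4)))) (.n (.n (.b 3) (.n (.b 10) (.n (.n (.b 3)
  (.n (.l 178 4) (.n (.b 9) (.b 4)))) (.b 4)))) (.b 4)))) (.n (.b 9) (.b 4)))) (.b 4)))) (.b 4))))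
  (.n (.n (.b 3) (.n (.b 10) (.n (.n (.b 3) (.n (.n (.b 3) (.n (.n (.b 3) (.n (.n (.b 3) (.b 8))
  (.n (.n (.b 3) (.n (.n (.b 3) (.n (.n (.b 3) (.l 301 99)) (.n (.b 10) (.b 4)))) (.n (.n (.b 3)
  (.b 36)) (.b 4)))) (.b 4)))) (.n (.n (.b 3) (.n (.b 10) (.n (.n (.b 3) (.n (.n (.b 3) (.n (.l
  301 4) (.l 301 4))) (.n (.b 9) (.b 4)))) (.b 4)))) (.b 4)))) (.n (.b 9) (.b 4)))) (.b 4)))) (.b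
  4)))) (.n (.b 9) (.b 4)))) (.b 4)))) (.b 4)))) (.n (.n (.b 3) (.n (.b 10) (.n (.n (.b 3) (.n (.n
  (.b 3) (.n (.n (.b 3) (.n (.n (.b 3) (.b 8)) (.n (.n (.b 3) (.n (.n (.b 3) (.n (.n (.b 3) (.n
  (.n (.b 3) (.b 8)) (.n (.n (.b 3) (.n (.n (.b 3) (.n (.n (.b 3) (.n (.n (.b 3) (.b 8)) (.n (.n
  (.b 3) (.n (.n (.b 3) (.b 21)) (.l 178 99))) (.b 4)))) (.n (.b 10) (.b 4)))) (.n (.b 33) (.b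
  4)))) (.b 4)))) (.n (.b 10) (.b 4)))) (.n (.n (.b 3) (.n (.n (.b 3) (.n (.n (.b 3) (.n (.n (.b
  3) (.b 8)) (.n (.n (.b 3) (.n (.n (.b 3) (.n (.n (.b 3) (.l 282 4)) (.n (.b 10) (.b 4)))) (.n
  (.n (.b 3) (.n (.n (.b 3) (.l 282 4)) (.l 282 4))) (.b 4)))) (.b 4)))) (.n (.n (.b 3) (.n (.b
  10) (.n (.n (.b 3) (.n (.n (.b 3) (.n (.l 282 4) (.n (.l 282 4) (.b 4)))) (.n (.b 9) (.b 4))))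
  (.b 4)))) (.b 4)))) (.n (.b 9) (.b 4)))) (.b 4)))) (.b 4)))) (.n (.n (.b 3) (.n (.b 10) (.n (.n
  (.b 3) (.n (.n (.b 3) (.n (.n (.b 3) (.n (.n (.b 3) (.b 8)) (.n (.n (.b 3) (.n (.n (.b 3) (.n
  (.n (.b 3) (.n (.n (.b 3) (.b 8)) (.n (.l 282 4) (.b 4)))) (.n (.b 10) (.b 4)))) (.n (.n (.b 3)
  (.n (.n (.b 3) (.n (.l 282 4) (.n (.l 282 4) (.b 4)))) (.n (.b 9) (.b 4)))) (.b 4)))) (.b 4))))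
  (.n (.n (.b 3) (.n (.b 10) (.n (.n (.b 3) (.n (.n (.b 3) (.b 32)) (.n (.b 9) (.b 4)))) (.b 4))))
  (.b 4)))) (.n (.b 9) (.b 4)))) (.b 4)))) (.b 4)))) (.n (.b 9) (.b 4)))) (.b 4)))) (.b 4)))) (.n
  (.b 9) (.b 4)))) (.b 4)))) (.b 4)))) (.n (.b 9) (.b 4)))) (.b 4)))) (.b 4))))

/-- A subtree of the table. -/
def s15 : T :=
  (.n (.n (.b 3) (.n (.n (.b 3) (.b 10)) (.n (.n (.b 3) (.n (.n (.b 3) (.n (.n (.b 3) (.n (.n (.b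
  3) (.b 8)) (.n (.n (.b 3) (.n (.n (.b 3) (.n (.n (.b 3) (.n (.n (.b 3) (.b 8)) (.n (.n (.b 3)
  (.n (.n (.b 3) (.n (.n (.b 3) (.n (.n (.b 3) (.b 8)) (.n (.n (.b 3) (.n (.n (.b 3) (.b 21)) (.n
  (.n (.b 3) (.n (.n (.b 3) (.n (.n (.b 3) (.n (.n (.b 3) (.b 8)) (.n (.n (.b 3) (.n (.n (.b 3)
  (.n (.n (.b 3) (.n (.n (.b 3) (.b 8)) (.n (.n (.b 3) (.n (.l 156 9) (.n (.n (.b 3) (.l 156 9))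
  (.b 4)))) (.b 4)))) (.n (.b 10) (.b 4)))) (.n (.n (.b 3) (.n (.n (.b 3) (.n (.n (.b 3) (.n (.n
  (.b 3) (.b 8)) (.l 156 9))) (.n (.n (.b 3) (.l 156 9)) (.b 4)))) (.n (.b 9) (.b 4)))) (.b 4))))
  (.b 4)))) (.n (.n (.b 3) (.n (.b 10) (.n (.n (.b 3) (.n (.n (.b 3) (.n (.n (.b 3) (.n (.n (.b 3)
  (.b 8)) (.n (.n (.b 3) (.n (.n (.b 3) (.l 156 9)) (.l 156 9))) (.b 4)))) (.n (.n (.b 3) (.n (.b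
  10) (.n (.n (.b 3) (.l 156 9)) (.b 4)))) (.b 4)))) (.n (.b 9) (.b 4)))) (.b 4)))) (.b 4)))) (.n
  (.b 9) (.b 4)))) (.b 4)))) (.b 4)))) (.n (.b 10) (.b 4)))) (.n (.n (.b 3) (.n (.n (.b 3) (.n (.n
  (.b 3) (.n (.n (.b 3) (.b 8)) (.n (.n (.b 3) (.n (.n (.b 3) (.n (.n (.b 3) (.n (.n (.b 3) (.b
  8)) (.n (.n (.b 3) (.n (.n (.b 3) (.n (.n (.b 3) (.n (.n (.b 3) (.b 8)) (.n (.n (.b 3) (.n (.n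
  (.b 3) (.b 21)) (.l 90 9))) (.b 4)))) (.n (.b 10) (.b 4)))) (.n (.n (.b 3) (.n (.n (.b 3) (.n
  (.b 34) (.n (.n (.b 3) (.n (.b 10) (.l 90 9))) (.b 4)))) (.n (.b 9) (.b 4)))) (.b 4)))) (.b
  4)))) (.n (.b 10) (.b 4)))) (.n (.n (.b 3) (.n (.n (.b 3) (.n (.n (.b 3) (.n (.n (.b 3) (.b 8))
  (.n (.n (.b 3) (.n (.n (.b 3) (.n (.n (.b 3) (.n (.n (.b 3) (.b 8)) (.l 90 9))) (.n (.b 10) (.b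
  4)))) (.n (.n (.b 3) (.n (.n (.b 3) (.l 90 9)) (.n (.b 9) (.b 4)))) (.b 4)))) (.b 4)))) (.n (.n
  (.b 3) (.n (.b 10) (.n (.n (.b 3) (.n (.n (.b 3) (.n (.n (.b 3) (.l 90 9)) (.n (.l 90 9) (.b
  4)))) (.n (.b 9) (.b 4)))) (.b 4)))) (.b 4)))) (.n (.b 9) (.b 4)))) (.b 4)))) (.b 4)))) (.n (.n
  (.b 3) (.n (.b 10) (.n (.n (.b 3) (.n (.n (.b 3) (.n (.n (.b 3) (.n (.n (.b 3) (.b 8)) (.n (.n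
  (.b 3) (.n (.n (.b 3) (.n (.n (.b 3) (.n (.n (.b 3) (.b 8)) (.n (.n (.b 3) (.n (.n (.b 3) (.n
  (.n (.b 3) (.n (.l 226 99) (.n (.n (.b 3) (.n (.n (.b 3) (.b 21)) (.l 226 99))) (.b 4)))) (.l
  226 99))) (.l 226 99))) (.b 4)))) (.n (.b 10) (.b 4)))) (.n (.n (.b 3) (.n (.n (.b 3) (.n (.n
  (.b 3) (.l 226 99)) (.n (.l 226 99) (.b 4)))) (.n (.b 9) (.b 4)))) (.b 4)))) (.b 4)))) (.n (.n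
  (.b 3) (.n (.b 10) (.n (.n (.b 3) (.n (.b 33) (.n (.b 9) (.b 4)))) (.b 4)))) (.b 4)))) (.n (.b
  9) (.b 4)))) (.b 4)))) (.b 4)))) (.n (.b 9) (.b 4)))) (.b 4)))) (.b 4)))) (.n (.b 10) (.b 4))))
  (.n (.n (.b 3) (.n (.n (.b 3) (.n (.n (.b 3) (.n (.n (.b 3) (.b 8)) (.n (.n (.b 3) (.n (.n (.b
  3) (.n (.n (.b 3) (.n (.n (.b 3) (.b 8)) (.n (.n (.b 3) (.n (.n (.b 3) (.n (.n (.b 3) (.n (.n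
  (.b 3) (.b 8)) (.n (.n (.b 3) (.n (.n (.b 3) (.b 21)) (.n (.n (.b 3) (.n (.n (.b 3) (.n (.n (.b
  3) (.n (.n (.b 3) (.b 8)) (.l 156 9))) (.n (.n (.b 3) (.l 156 9)) (.b 4)))) (.n (.b 9) (.b 4))))
  (.b 4)))) (.b 4)))) (.n (.b 10) (.b 4)))) (.n (.n (.b 3) (.n (.n (.b 3) (.n (.n (.b 3) (.n (.n
  (.b 3) (.b 8)) (.n (.n (.b 3) (.n (.n (.b 3) (.n (.n (.b 3) (.n (.l 156 9) (.n (.n (.b 3) (.l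
  156 9)) (.b 4)))) (.n (.b 10) (.b 4)))) (.n (.n (.b 3) (.n (.n (.b 3) (.l 156 9)) (.n (.b 9) (.b
  4)))) (.b 4)))) (.b 4)))) (.n (.n (.b 3) (.n (.b 10) (.n (.n (.b 3) (.n (.n (.b 3) (.n (.n (.b
  3) (.n (.l 156 9) (.n (.l 156 9) (.b 4)))) (.n (.n (.b 3) (.l 156 9)) (.b 4)))) (.n (.b 9) (.b
  4)))) (.b 4)))) (.b 4)))) (.n (.b 9) (.b 4)))) (.b 4)))) (.b 4)))) (.n (.b 10) (.b 4)))) (.n (.n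
  (.b 3) (.n (.n (.b 3) (.n (.n (.b 3) (.n (.n (.b 3) (.b 8)) (.n (.n (.b 3) (.n (.n (.b 3) (.n
  (.n (.b 3) (.n (.n (.b 3) (.b 8)) (.n (.n (.b 3) (.n (.n (.b 3) (.n (.n (.b 3) (.n (.l 156 9)
  (.l 156 9))) (.n (.b 10) (.b 4)))) (.n (.n (.b 3) (.n (.n (.b 3) (.n (.n (.b 3) (.l 156 9)) (.l
  156 9))) (.n (.b 9) (.b 4)))) (.b 4)))) (.b 4)))) (.n (.b 10) (.b 4)))) (.n (.n (.b 3) (.n (.b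
  30) (.n (.b 9) (.b 4)))) (.b 4)))) (.b 4)))) (.n (.n (.b 3) (.n (.b 10) (.n (.n (.b 3) (.n (.n
  (.b 3) (.n (.n (.b 3) (.n (.n (.b 3) (.b 8)) (.n (.n (.b 3) (.n (.n (.b 3) (.n (.n (.b 3) (.n
  (.n (.b 3) (.b 8)) (.l 156 9))) (.n (.b 10) (.b 4)))) (.n (.n (.b 3) (.n (.l 156 9) (.l 156 9)))
  (.b 4)))) (.b 4)))) (.n (.n (.b 3) (.n (.b 10) (.n (.n (.b 3) (.n (.n (.b 3) (.n (.n (.b 3) (.l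
  156 9)) (.l 156 9))) (.n (.b 9) (.b 4)))) (.b 4)))) (.b 4)))) (.n (.b 9) (.b 4)))) (.b 4)))) (.b
  4)))) (.n (.b 9) (.b 4)))) (.b 4)))) (.b 4)))) (.n (.n (.b 3) (.n (.b 10) (.n (.n (.b 3) (.n (.n
  (.b 3) (.n (.n (.b 3) (.n (.n (.b 3) (.b 8)) (.n (.n (.b 3) (.n (.n (.b 3) (.n (.n (.b 3) (.n
  (.n (.b 3) (.b 8)) (.n (.n (.b 3) (.n (.n (.b 3) (.n (.n (.b 3) (.n (.n (.b 3) (.b 8)) (.n (.n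
  (.b 3) (.l 194 9)) (.b 4)))) (.n (.b 10) (.b 4)))) (.n (.n (.b 3) (.n (.n (.b 3) (.n (.n (.b 3)
  (.n (.l 194 9) (.n (.l 194 9) (.b 4)))) (.n (.n (.b 3) (.l 194 9)) (.b 4)))) (.n (.b 9) (.b
  4)))) (.b 4)))) (.b 4)))) (.n (.b 10) (.b 4)))) (.n (.n (.b 3) (.n (.n (.b 3) (.n (.n (.b 3) (.n
  (.n (.b 3) (.b 8)) (.n (.n (.b 3) (.n (.n (.b 3) (.n (.n (.b 3) (.l 90 99)) (.n (.b 10) (.b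
  4)))) (.n (.n (.b 3) (.n (.l 90 99) (.n (.b 9) (.b 4)))) (.b 4)))) (.b 4)))) (.n (.n (.b 3) (.n
  (.b 10) (.n (.n (.b 3) (.n (.n (.b 3) (.b 36)) (.n (.b 9) (.b 4)))) (.b 4)))) (.b 4)))) (.n (.b
  9) (.b 4)))) (.b 4)))) (.b 4)))) (.n (.n (.b 3) (.n (.b 10) (.n (.n (.b 3) (.n (.n (.b 3) (.n
  (.n (.b 3) (.n (.n (.b 3) (.b 8)) (.n (.n (.b 3) (.n (.n (.b 3) (.n (.n (.b 3) (.n (.n (.b 3)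
  (.b 8)) (.n (.n (.b 3) (.l 194 9)) (.b 4)))) (.n (.b 10) (.b 4)))) (.n (.n (.b 3) (.n (.n (.b 3)
  (.n (.n (.b 3) (.l 194 9)) (.l 194 9))) (.n (.b 9) (.b 4)))) (.b 4)))) (.b 4)))) (.n (.n (.b 3)
  (.n (.b 10) (.n (.n (.b 3) (.n (.n (.b 3) (.n (.n (.b 3) (.n (.l 194 9) (.n (.l 194 9) (.b 4))))
  (.n (.n (.b 3) (.l 194 9)) (.b 4)))) (.n (.b 9) (.b 4)))) (.b 4)))) (.b 4)))) (.n (.b 9) (.b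
  4)))) (.b 4)))) (.b 4)))) (.n (.b 9) (.b 4)))) (.b 4)))) (.b 4)))) (.n (.b 9) (.b 4)))) (.b
  4)))) (.b 4)))) (.n (.n (.b 3) (.n (.b 10) (.n (.n (.b 3) (.n (.n (.b 3) (.n (.n (.b 3) (.n (.n
  (.b 3) (.b 8)) (.n (.n (.b 3) (.n (.n (.b 3) (.n (.n (.b 3) (.n (.n (.b 3) (.b 8)) (.n (.n (.b
  3) (.n (.n (.b 3) (.n (.n (.b 3) (.n (.n (.b 3) (.b 8)) (.n (.n (.b 3) (.n (.n (.b 3) (.b 21))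
  (.n (.n (.b 3) (.n (.n (.b 3) (.n (.n (.b 3) (.n (.n (.b 3) (.b 8)) (.n (.n (.b 3) (.l 172 9))
  (.b 4)))) (.n (.n (.b 3) (.n (.b 10) (.n (.l 172 9) (.b 4)))) (.b 4)))) (.n (.b 9) (.b 4)))) (.b
  4)))) (.b 4)))) (.n (.b 10) (.b 4)))) (.n (.n (.b 3) (.n (.n (.b 3) (.n (.n (.b 3) (.n (.n (.b
  3) (.b 8)) (.n (.n (.b 3) (.n (.n (.b 3) (.n (.n (.b 3) (.n (.n (.b 3) (.b 8)) (.n (.n (.b 3)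
  (.n (.n (.b 3) (.n (.n (.b 3) (.n (.l 106 99) (.n (.n (.b 3) (.n (.n (.b 3) (.b 21)) (.l 106
  99))) (.b 4)))) (.l 106 99))) (.l 106 99))) (.b 4)))) (.n (.b 10) (.b 4)))) (.n (.n (.b 3) (.n
  (.n (.b 3) (.n (.n (.b 3) (.l 106 99)) (.n (.l 106 99) (.b 4)))) (.n (.b 9) (.b 4)))) (.b 4))))
  (.b 4)))) (.n (.n (.b 3) (.n (.b 10) (.n (.n (.b 3) (.n (.b 33) (.n (.b 9) (.b 4)))) (.b 4))))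
  (.b 4)))) (.n (.b 9) (.b 4)))) (.b 4)))) (.b 4)))) (.n (.b 10) (.b 4)))) (.n (.n (.b 3) (.n (.n
  (.b 3) (.n (.n (.b 3) (.n (.n (.b 3) (.b 8)) (.n (.n (.b 3) (.n (.n (.b 3) (.n (.n (.b 3) (.n
  (.n (.b 3) (.b 8)) (.n (.n (.b 3) (.n (.n (.b 3) (.n (.n (.b 3) (.n (.n (.b 3) (.b 8)) (.n (.n
  (.b 3) (.l 210 9)) (.b 4)))) (.n (.b 10) (.b 4)))) (.n (.n (.b 3) (.n (.n (.b 3) (.n (.n (.b 3)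
  (.n (.n (.b 3) (.b 8)) (.l 210 9))) (.n (.l 210 9) (.b 4)))) (.n (.b 9) (.b 4)))) (.b 4)))) (.b
  4)))) (.n (.b 10) (.b 4)))) (.n (.n (.b 3) (.n (.n (.b 3) (.n (.n (.b 3) (.n (.n (.b 3) (.b 8))
  (.n (.n (.b 3) (.n (.n (.b 3) (.n (.n (.b 3) (.n (.l 210 9) (.n (.n (.b 3) (.n (.n (.b 3) (.n
  (.l 210 9) (.n (.b 10) (.b 4)))) (.l 210 9))) (.b 4)))) (.n (.b 10) (.b 4)))) (.n (.n (.b 3) (.n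
  (.b 30) (.l 210 9))) (.b 4)))) (.b 4)))) (.n (.n (.b 3) (.n (.b 10) (.n (.n (.b 3) (.n (.n (.b
  3) (.n (.l 210 9) (.n (.n (.b 3) (.n (.b 10) (.l 210 9))) (.b 4)))) (.n (.b 9) (.b 4)))) (.b
  4)))) (.b 4)))) (.n (.b 9) (.b 4)))) (.b 4)))) (.b 4)))) (.n (.n (.b 3) (.n (.b 10) (.n (.n (.b
  3) (.n (.n (.b 3) (.n (.n (.b 3) (.n (.n (.b 3) (.b 8)) (.n (.n (.b 3) (.n (.n (.b 3) (.n (.n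
  (.b 3) (.n (.n (.b 3) (.b 8)) (.n (.l 210 9) (.b 4)))) (.n (.b 10) (.b 4)))) (.n (.n (.b 3) (.n
  (.n (.b 3) (.n (.l 210 9) (.l 210 9))) (.n (.b 9) (.b 4)))) (.b 4)))) (.b 4)))) (.n (.n (.b 3)
  (.n (.b 10) (.n (.n (.b 3) (.n (.n (.b 3) (.n (.n (.b 3) (.n (.n (.b 3) (.b 8)) (.l 210 9))) (.n
  (.n (.b 3) (.n (.b 10) (.l 210 9))) (.b 4)))) (.n (.b 9) (.b 4)))) (.b 4)))) (.b 4)))) (.n (.b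
  9) (.b 4)))) (.b 4)))) (.b 4)))) (.n (.b 9) (.b 4)))) (.b 4)))) (.b 4)))) (.n (.n (.b 3) (.n (.b
  10) (.n (.n (.b 3) (.n (.n (.b 3) (.n (.n (.b 3) (.n (.n (.b 3) (.b 8)) (.n (.n (.b 3) (.n (.n
  (.b 3) (.n (.n (.b 3) (.n (.n (.b 3) (.b 8)) (.n (.n (.b 3) (.n (.n (.b 3) (.n (.n (.b 3) (.n
  (.n (.b 3) (.b 8)) (.n (.n (.b 3) (.n (.n (.b 3) (.b 21)) (.n (.l 226 9) (.b 4)))) (.b 4)))) (.n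
  (.b 10) (.b 4)))) (.n (.n (.b 3) (.n (.n (.b 3) (.n (.n (.b 3) (.n (.n (.b 3) (.b 8)) (.n (.n
  (.b 3) (.l 226 9)) (.b 4)))) (.b 33))) (.n (.b 9) (.b 4)))) (.b 4)))) (.b 4)))) (.n (.b 10) (.b
  4)))) (.n (.n (.b 3) (.n (.n (.b 3) (.n (.n (.b 3) (.n (.n (.b 3) (.b 8)) (.n (.n (.b 3) (.n (.n
  (.b 3) (.n (.n (.b 3) (.n (.n (.b 3) (.b 8)) (.n (.l 226 9) (.b 4)))) (.n (.b 10) (.b 4)))) (.n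
  (.n (.b 3) (.n (.n (.b 3) (.n (.l 226 9) (.l 226 9))) (.n (.b 9) (.b 4)))) (.b 4)))) (.b 4))))
  (.n (.n (.b 3) (.n (.b 10) (.n (.n (.b 3) (.n (.n (.b 3) (.n (.n (.b 3) (.n (.l 226 9) (.l 226
  9))) (.n (.n (.b 3) (.n (.b 10) (.n (.n (.b 3) (.n (.n (.b 3) (.n (.l 226 9) (.n (.n (.b 3) (.n
  (.b 10) (.l 226 9))) (.b 4)))) (.l 226 9))) (.b 4)))) (.b 4)))) (.n (.b 9) (.b 4)))) (.b 4))))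
  (.b 4)))) (.n (.b 9) (.b 4)))) (.b 4)))) (.b 4)))) (.n (.n (.b 3) (.n (.b 10) (.n (.n (.b 3) (.n
  (.n (.b 3) (.n (.n (.b 3) (.n (.n (.b 3) (.b 8)) (.n (.n (.b 3) (.n (.n (.b 3) (.n (.n (.b 3)
  (.n (.n (.b 3) (.b 8)) (.n (.n (.b 3) (.n (.n (.b 3) (.n (.n (.b 3) (.n (.l 271 99) (.n (.n (.b
  3) (.n (.n (.b 3) (.b 21)) (.l 271 99))) (.b 4)))) (.l 271 99))) (.l 271 99))) (.b 4)))) (.n (.b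
  10) (.b 4)))) (.n (.n (.b 3) (.n (.n (.b 3) (.n (.n (.b 3) (.n (.n (.b 3) (.b 8)) (.l 271 99)))
  (.n (.n (.b 3) (.l 271 99)) (.b 4)))) (.n (.b 9) (.b 4)))) (.b 4)))) (.b 4)))) (.n (.n (.b 3)
  (.n (.b 10) (.n (.n (.b 3) (.b 32)) (.b 4)))) (.b 4)))) (.n (.b 9) (.b 4)))) (.b 4)))) (.b 4))))
  (.n (.b 9) (.b 4)))) (.b 4)))) (.b 4)))) (.n (.b 9) (.b 4)))) (.b 4)))) (.b 4)))) (.n (.b 9) (.b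
  4)))) (.b 4)))) (.b 4))

/-- A subtree of the table. -/
def s16 : T :=
  (.b 3)

/-- A subtree of the table. -/
def s17 : T :=
  (.b 3)

/-- A subtree of the table. -/
def s18 : T :=
  (.n (.b 3) (.n (.n (.b 3) (.b 8)) (.n (.n (.b 3) (.n (.n (.b 3) (.n (.n (.b 3) (.n (.n (.b 3)
  (.b 8)) (.n (.n (.b 3) (.n (.n (.b 3) (.n (.n (.b 3) (.n (.n (.b 3) (.b 8)) (.n (.n (.b 3) (.n
  (.n (.b 3) (.b 21)) (.n (.n (.b 3) (.n (.n (.b 3) (.n (.n (.b 3) (.n (.n (.b 3) (.b 8)) (.n (.n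
  (.b 3) (.n (.n (.b 3) (.n (.n (.b 3) (.n (.n (.b 3) (.b 8)) (.n (.n (.b 3) (.n (.n (.b 3) (.n
  (.n (.b 3) (.n (.n (.b 3) (.b 8)) (.n (.n (.b 3) (.n (.l 185 6) (.n (.n (.b 3) (.n (.l 185 6)
  (.n (.b 9) (.b 4)))) (.b 4)))) (.b 4)))) (.n (.b 10) (.b 4)))) (.n (.n (.b 3) (.n (.n (.b 3) (.n
  (.l 185 6) (.n (.l 185 6) (.b 4)))) (.n (.b 9) (.b 4)))) (.b 4)))) (.b 4)))) (.n (.b 10) (.b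
  4)))) (.n (.n (.b 3) (.n (.n (.b 3) (.n (.n (.b 3) (.n (.n (.b 3) (.b 8)) (.n (.n (.b 3) (.n (.n
  (.b 3) (.n (.l 185 6) (.l 185 6))) (.n (.n (.b 3) (.l 185 6)) (.b 4)))) (.b 4)))) (.n (.n (.b 3)
  (.n (.b 10) (.n (.n (.b 3) (.n (.n (.b 3) (.l 185 6)) (.n (.b 9) (.b 4)))) (.b 4)))) (.b 4))))
  (.n (.b 9) (.b 4)))) (.b 4)))) (.b 4)))) (.n (.n (.b 3) (.n (.b 10) (.n (.n (.b 3) (.n (.n (.b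
  3) (.n (.n (.b 3) (.n (.n (.b 3) (.b 8)) (.n (.n (.b 3) (.n (.n (.b 3) (.n (.n (.b 3) (.n (.l
  185 6) (.n (.l 185 6) (.b 4)))) (.n (.b 10) (.b 4)))) (.n (.n (.b 3) (.n (.n (.b 3) (.n (.l 185
  6) (.n (.l 185 6) (.b 4)))) (.n (.b 9) (.b 4)))) (.b 4)))) (.b 4)))) (.n (.n (.b 3) (.n (.b 10)
  (.n (.n (.b 3) (.n (.n (.b 3) (.n (.n (.b 3) (.l 185 6)) (.n (.n (.b 3) (.l 185 6)) (.b 4))))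
  (.n (.b 9) (.b 4)))) (.b 4)))) (.b 4)))) (.n (.b 9) (.b 4)))) (.b 4)))) (.b 4)))) (.n (.b 9) (.b
  4)))) (.b 4)))) (.b 4)))) (.n (.b 10) (.b 4)))) (.n (.n (.b 3) (.n (.n (.b 3) (.n (.n (.b 3) (.n
  (.n (.b 3) (.b 8)) (.n (.n (.b 3) (.n (.n (.b 3) (.n (.n (.b 3) (.n (.n (.b 3) (.b 8)) (.n (.n
  (.b 3) (.n (.n (.b 3) (.n (.n (.b 3) (.n (.n (.b 3) (.b 8)) (.n (.n (.b 3) (.n (.n (.b 3) (.b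
  21)) (.n (.n (.b 3) (.n (.n (.b 3) (.n (.l 119 6) (.l 119 6))) (.n (.b 9) (.b 4)))) (.b 4))))
  (.b 4)))) (.n (.b 10) (.b 4)))) (.n (.n (.b 3) (.n (.n (.b 3) (.n (.n (.b 3) (.n (.n (.b 3) (.b
  8)) (.n (.b 34) (.b 4)))) (.n (.n (.b 3) (.n (.b 10) (.n (.n (.b 3) (.n (.n (.b 3) (.l 15 99))
  (.n (.b 9) (.b 4)))) (.b 4)))) (.b 4)))) (.n (.b 9) (.b 4)))) (.b 4)))) (.b 4)))) (.n (.b 10)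
  (.b 4)))) (.n (.n (.b 3) (.n (.n (.b 3) (.n (.n (.b 3) (.n (.n (.b 3) (.b 8)) (.n (.n (.b 3) (.n
  (.n (.b 3) (.n (.n (.b 3) (.n (.n (.b 3) (.b 8)) (.n (.n (.b 3) (.n (.n (.b 3) (.n (.n (.b 3)
  (.n (.n (.b 3) (.b 8)) (.l 119 6))) (.l 119 6))) (.n (.n (.b 3) (.n (.l 119 6) (.n (.b 9) (.b
  4)))) (.b 4)))) (.b 4)))) (.n (.b 10) (.b 4)))) (.n (.n (.b 3) (.n (.n (.b 3) (.n (.n (.b 3) (.n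
  (.n (.b 3) (.b 8)) (.n (.b 30) (.b 4)))) (.n (.n (.b 3) (.n (.b 10) (.n (.n (.b 3) (.l 119 6))
  (.b 4)))) (.b 4)))) (.n (.b 9) (.b 4)))) (.b 4)))) (.b 4)))) (.n (.n (.b 3) (.n (.b 10) (.n (.n
  (.b 3) (.n (.n (.b 3) (.n (.n (.b 3) (.n (.n (.b 3) (.b 8)) (.n (.n (.b 3) (.n (.n (.b 3) (.l
  119 6)) (.n (.n (.b 3) (.n (.l 119 6) (.n (.b 9) (.b 4)))) (.b 4)))) (.b 4)))) (.n (.n (.b 3)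
  (.n (.b 10) (.n (.n (.b 3) (.n (.l 119 6) (.n (.b 9) (.b 4)))) (.b 4)))) (.b 4)))) (.n (.b 9)
  (.b 4)))) (.b 4)))) (.b 4)))) (.n (.b 9) (.b 4)))) (.b 4)))) (.b 4)))) (.n (.n (.b 3) (.n (.b
  10) (.n (.n (.b 3) (.n (.n (.b 3) (.n (.n (.b 3) (.n (.n (.b 3) (.b 8)) (.n (.n (.b 3) (.n (.n
  (.b 3) (.n (.n (.b 3) (.n (.n (.b 3) (.b 8)) (.n (.n (.b 3) (.n (.n (.b 3) (.n (.n (.b 3) (.n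
  (.l 217 6) (.n (.n (.b 3) (.n (.n (.b 3) (.b 21)) (.l 217 6))) (.b 4)))) (.n (.b 10) (.b 4))))
  (.n (.n (.b 3) (.n (.n (.b 3) (.l 217 6)) (.n (.b 9) (.b 4)))) (.b 4)))) (.b 4)))) (.n (.b 10)
  (.b 4)))) (.n (.n (.b 3) (.n (.n (.b 3) (.n (.n (.b 3) (.n (.n (.b 3) (.b 8)) (.n (.n (.b 3) (.n
  (.n (.b 3) (.l 217 6)) (.n (.l 217 6) (.b 4)))) (.b 4)))) (.n (.n (.b 3) (.n (.b 10) (.n (.n (.b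
  3) (.n (.n (.b 3) (.n (.l 217 6) (.n (.l 217 6) (.b 4)))) (.l 217 6))) (.b 4)))) (.b 4)))) (.n
  (.b 9) (.b 4)))) (.b 4)))) (.b 4)))) (.n (.n (.b 3) (.n (.b 10) (.n (.n (.b 3) (.n (.n (.b 3)
  (.n (.n (.b 3) (.n (.n (.b 3) (.b 8)) (.n (.b 33) (.b 4)))) (.n (.n (.b 3) (.n (.b 10) (.n (.n
  (.b 3) (.n (.n (.b 3) (.n (.l 216 99) (.n (.l 216 99) (.b 4)))) (.n (.b 9) (.b 4)))) (.b 4))))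
  (.b 4)))) (.n (.b 9) (.b 4)))) (.b 4)))) (.b 4)))) (.n (.b 9) (.b 4)))) (.b 4)))) (.b 4)))) (.n
  (.b 9) (.b 4)))) (.b 4)))) (.b 4)))) (.n (.b 10) (.b 4)))) (.n (.n (.b 3) (.n (.n (.b 3) (.n (.n
  (.b 3) (.n (.n (.b 3) (.b 8)) (.n (.n (.b 3) (.n (.n (.b 3) (.n (.n (.b 3) (.n (.n (.b 3) (.b
  8)) (.n (.n (.b 3) (.n (.n (.b 3) (.n (.n (.b 3) (.n (.n (.b 3) (.b 8)) (.n (.n (.b 3) (.n (.n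
  (.b 3) (.b 21)) (.n (.n (.b 3) (.n (.n (.b 3) (.n (.n (.b 3) (.n (.n (.b 3) (.b 8)) (.n (.n (.b
  3) (.n (.n (.b 3) (.n (.n (.b 3) (.n (.n (.b 3) (.b 8)) (.l 185 6))) (.l 185 6))) (.n (.n (.b 3)
  (.n (.l 185 6) (.n (.b 9) (.b 4)))) (.b 4)))) (.b 4)))) (.n (.n (.b 3) (.n (.b 10) (.n (.n (.b
  3) (.n (.n (.b 3) (.n (.n (.b 3) (.n (.n (.b 3) (.b 8)) (.l 185 6))) (.l 185 6))) (.n (.b 9) (.b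
  4)))) (.b 4)))) (.b 4)))) (.n (.b 9) (.b 4)))) (.b 4)))) (.b 4)))) (.n (.b 10) (.b 4)))) (.n (.n
  (.b 3) (.n (.n (.b 3) (.n (.n (.b 3) (.n (.n (.b 3) (.b 8)) (.n (.n (.b 3) (.n (.n (.b 3) (.n
  (.n (.b 3) (.n (.n (.b 3) (.b 8)) (.n (.n (.b 3) (.n (.n (.b 3) (.n (.l 185 6) (.n (.b 10) (.b
  4)))) (.b 34))) (.b 4)))) (.n (.b 10) (.b 4)))) (.n (.n (.b 3) (.n (.n (.b 3) (.n (.n (.b 3) (.n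
  (.n (.b 3) (.b 8)) (.n (.n (.b 3) (.l 185 6)) (.b 4)))) (.n (.n (.b 3) (.n (.b 10) (.n (.l 185
  6) (.b 4)))) (.b 4)))) (.n (.b 9) (.b 4)))) (.b 4)))) (.b 4)))) (.n (.n (.b 3) (.n (.b 10) (.n
  (.n (.b 3) (.n (.n (.b 3) (.n (.n (.b 3) (.n (.n (.b 3) (.b 8)) (.n (.n (.b 3) (.n (.n (.b 3)
  (.n (.n (.b 3) (.l 185 6)) (.l 185 6))) (.n (.l 185 6) (.b 4)))) (.b 4)))) (.n (.n (.b 3) (.n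
  (.b 10) (.n (.n (.b 3) (.n (.n (.b 3) (.l 185 6)) (.l 185 6))) (.b 4)))) (.b 4)))) (.n (.b 9)
  (.b 4)))) (.b 4)))) (.b 4)))) (.n (.b 9) (.b 4)))) (.b 4)))) (.b 4)))) (.n (.b 10) (.b 4)))) (.n
  (.n (.b 3) (.n (.n (.b 3) (.n (.n (.b 3) (.n (.n (.b 3) (.b 8)) (.n (.n (.b 3) (.n (.n (.b 3)
  (.n (.n (.b 3) (.n (.n (.b 3) (.b 8)) (.n (.n (.b 3) (.n (.n (.b 3) (.n (.n (.b 3) (.n (.n (.b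
  3) (.b 8)) (.n (.n (.b 3) (.n (.n (.b 3) (.b 21)) (.n (.n (.b 3) (.l 185 14)) (.b 4)))) (.b
  4)))) (.n (.b 10) (.b 4)))) (.n (.n (.b 3) (.n (.n (.b 3) (.n (.n (.b 3) (.n (.n (.b 3) (.b 8))
  (.n (.n (.b 3) (.n (.n (.b 3) (.l 185 14)) (.l 185 14))) (.b 4)))) (.n (.n (.b 3) (.n (.b 10)
  (.n (.n (.b 3) (.l 185 14)) (.b 4)))) (.b 4)))) (.n (.b 9) (.b 4)))) (.b 4)))) (.b 4)))) (.n (.b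
  10) (.b 4)))) (.n (.n (.b 3) (.n (.n (.b 3) (.n (.n (.b 3) (.b 30)) (.n (.n (.b 3) (.n (.b 10)
  (.n (.n (.b 3) (.n (.n (.b 3) (.n (.n (.b 3) (.n (.n (.b 3) (.b 8)) (.n (.l 316 99) (.b 4))))
  (.n (.n (.b 3) (.n (.b 10) (.l 316 99))) (.b 4)))) (.n (.b 9) (.b 4)))) (.b 4)))) (.b 4)))) (.n
  (.b 9) (.b 4)))) (.b 4)))) (.b 4)))) (.n (.n (.b 3) (.n (.b 10) (.n (.n (.b 3) (.n (.n (.b 3)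
  (.n (.n (.b 3) (.n (.n (.b 3) (.b 8)) (.n (.n (.b 3) (.n (.n (.b 3) (.n (.n (.b 3) (.n (.n (.b
  3) (.b 8)) (.n (.n (.b 3) (.n (.n (.b 3) (.n (.l 185 6) (.n (.b 10) (.b 4)))) (.n (.n (.b 3) (.l
  185 6)) (.b 4)))) (.b 4)))) (.n (.b 10) (.b 4)))) (.n (.n (.b 3) (.n (.n (.b 3) (.n (.n (.b 3)
  (.n (.n (.b 3) (.b 8)) (.n (.l 185 6) (.b 4)))) (.n (.n (.b 3) (.n (.b 10) (.l 185 6))) (.b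
  4)))) (.n (.b 9) (.b 4)))) (.b 4)))) (.b 4)))) (.n (.n (.b 3) (.n (.b 10) (.n (.n (.b 3) (.n (.n
  (.b 3) (.n (.n (.b 3) (.n (.n (.b 3) (.b 8)) (.n (.n (.b 3) (.n (.n (.b 3) (.l 185 6)) (.l 185
  6))) (.b 4)))) (.n (.n (.b 3) (.n (.b 10) (.n (.n (.b 3) (.l 185 6)) (.b 4)))) (.b 4)))) (.n (.b
  9) (.b 4)))) (.b 4)))) (.b 4)))) (.n (.b 9) (.b 4)))) (.b 4)))) (.b 4)))) (.n (.b 9) (.b 4))))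
  (.b 4)))) (.b 4)))) (.n (.n (.b 3) (.n (.b 10) (.n (.n (.b 3) (.n (.n (.b 3) (.n (.n (.b 3) (.n
  (.n (.b 3) (.b 8)) (.n (.n (.b 3) (.n (.n (.b 3) (.n (.n (.b 3) (.n (.n (.b 3) (.b 8)) (.n (.n
  (.b 3) (.n (.n (.b 3) (.n (.n (.b 3) (.n (.n (.b 3) (.b 8)) (.n (.n (.b 3) (.n (.n (.b 3) (.b
  21)) (.n (.n (.b 3) (.n (.n (.b 3) (.l 223 6)) (.n (.b 9) (.b 4)))) (.b 4)))) (.b 4)))) (.n (.b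
  10) (.b 4)))) (.n (.n (.b 3) (.n (.n (.b 3) (.n (.n (.b 3) (.n (.n (.b 3) (.b 8)) (.n (.n (.b 3)
  (.n (.n (.b 3) (.n (.n (.b 3) (.l 223 6)) (.l 223 6))) (.n (.l 223 6) (.b 4)))) (.b 4)))) (.n
  (.n (.b 3) (.n (.b 10) (.n (.n (.b 3) (.n (.n (.b 3) (.l 223 6)) (.l 223 6))) (.b 4)))) (.b
  4)))) (.n (.b 9) (.b 4)))) (.b 4)))) (.b 4)))) (.n (.b 10) (.b 4)))) (.n (.n (.b 3) (.n (.n (.b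
  3) (.n (.n (.b 3) (.n (.n (.b 3) (.b 8)) (.n (.n (.b 3) (.n (.n (.b 3) (.n (.n (.b 3) (.n (.n
  (.b 3) (.b 8)) (.n (.n (.b 3) (.n (.n (.b 3) (.l 119 6)) (.n (.n (.b 3) (.n (.l 119 6) (.n (.b
  9) (.b 4)))) (.b 4)))) (.b 4)))) (.n (.b 10) (.b 4)))) (.n (.n (.b 3) (.n (.n (.b 3) (.n (.n (.b
  3) (.n (.n (.b 3) (.b 8)) (.n (.l 119 6) (.b 4)))) (.n (.n (.b 3) (.n (.b 10) (.n (.l 119 6) (.b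
  4)))) (.b 4)))) (.n (.b 9) (.b 4)))) (.b 4)))) (.b 4)))) (.n (.n (.b 3) (.n (.b 10) (.n (.n (.b
  3) (.n (.n (.b 3) (.n (.n (.b 3) (.n (.n (.b 3) (.b 8)) (.n (.n (.b 3) (.b 36)) (.b 4)))) (.n
  (.n (.b 3) (.n (.b 10) (.n (.n (.b 3) (.n (.l 243 99) (.n (.b 9) (.b 4)))) (.b 4)))) (.b 4))))
  (.n (.b 9) (.b 4)))) (.b 4)))) (.b 4)))) (.n (.b 9) (.b 4)))) (.b 4)))) (.b 4)))) (.n (.n (.b 3)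
  (.n (.b 10) (.n (.n (.b 3) (.n (.n (.b 3) (.n (.n (.b 3) (.n (.n (.b 3) (.b 8)) (.n (.n (.b 3)
  (.n (.n (.b 3) (.n (.n (.b 3) (.n (.n (.b 3) (.b 8)) (.n (.n (.b 3) (.n (.n (.b 3) (.n (.n (.b
  3) (.l 223 6)) (.n (.b 10) (.b 4)))) (.b 33))) (.b 4)))) (.n (.b 10) (.b 4)))) (.n (.n (.b 3)
  (.n (.n (.b 3) (.n (.n (.b 3) (.n (.n (.b 3) (.b 8)) (.n (.n (.b 3) (.n (.l 223 6) (.l 223 6)))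
  (.b 4)))) (.n (.n (.b 3) (.n (.b 10) (.n (.n (.b 3) (.l 223 6)) (.b 4)))) (.b 4)))) (.n (.b 9)
  (.b 4)))) (.b 4)))) (.b 4)))) (.n (.n (.b 3) (.n (.b 10) (.n (.n (.b 3) (.n (.n (.b 3) (.n (.n
  (.b 3) (.n (.n (.b 3) (.b 8)) (.n (.n (.b 3) (.n (.n (.b 3) (.n (.n (.b 3) (.l 223 6)) (.l 223
  6))) (.n (.n (.b 3) (.l 223 6)) (.b 4)))) (.b 4)))) (.n (.n (.b 3) (.n (.b 10) (.n (.n (.b 3)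
  (.n (.n (.b 3) (.b 32)) (.n (.b 9) (.b 4)))) (.b 4)))) (.b 4)))) (.n (.b 9) (.b 4)))) (.b 4))))
  (.b 4)))) (.n (.b 9) (.b 4)))) (.b 4)))) (.b 4)))) (.n (.b 9) (.b 4)))) (.b 4)))) (.b 4)))) (.n
  (.b 9) (.b 4)))) (.b 4)))) (.b 4))))

/-- A subtree of the table. -/
def s19 : T :=
  (.n (.n (.b 3) (.n (.b 10) (.n (.n (.b 3) (.n (.n (.b 3) (.n (.n (.b 3) (.n (.n (.b 3) (.b 8))
  (.n (.n (.b 3) (.n (.n (.b 3) (.n (.n (.b 3) (.n (.n (.b 3) (.b 8)) (.n (.n (.b 3) (.n (.n (.b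
  3) (.n (.n (.b 3) (.n (.n (.b 3) (.b 8)) (.n (.n (.b 3) (.n (.n (.b 3) (.b 21)) (.n (.n (.b 3)
  (.n (.n (.b 3) (.n (.n (.b 3) (.n (.n (.b 3) (.b 8)) (.n (.n (.b 3) (.n (.n (.b 3) (.n (.n (.b
  3) (.n (.n (.b 3) (.b 8)) (.l 201 6))) (.n (.b 10) (.b 4)))) (.n (.n (.b 3) (.n (.n (.b 3) (.n
  (.n (.b 3) (.n (.n (.b 3) (.b 8)) (.l 201 6))) (.l 201 6))) (.n (.b 9) (.b 4)))) (.b 4)))) (.b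
  4)))) (.n (.n (.b 3) (.n (.b 10) (.n (.n (.b 3) (.n (.n (.b 3) (.n (.n (.b 3) (.l 201 6)) (.n
  (.l 201 6) (.b 4)))) (.n (.b 9) (.b 4)))) (.b 4)))) (.b 4)))) (.n (.b 9) (.b 4)))) (.b 4)))) (.b
  4)))) (.n (.b 10) (.b 4)))) (.n (.n (.b 3) (.n (.n (.b 3) (.n (.n (.b 3) (.n (.n (.b 3) (.b 8))
  (.n (.n (.b 3) (.n (.n (.b 3) (.n (.n (.b 3) (.n (.n (.b 3) (.b 8)) (.n (.n (.b 3) (.n (.n (.b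
  3) (.n (.n (.b 3) (.n (.l 135 6) (.n (.n (.b 3) (.n (.n (.b 3) (.b 21)) (.l 135 6))) (.b 4))))
  (.n (.b 10) (.b 4)))) (.n (.n (.b 3) (.n (.n (.b 3) (.l 135 6)) (.n (.b 9) (.b 4)))) (.b 4))))
  (.b 4)))) (.n (.b 10) (.b 4)))) (.n (.n (.b 3) (.n (.n (.b 3) (.n (.n (.b 3) (.n (.n (.b 3) (.b
  8)) (.n (.n (.b 3) (.n (.n (.b 3) (.l 135 6)) (.n (.l 135 6) (.b 4)))) (.b 4)))) (.n (.n (.b 3)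
  (.n (.b 10) (.n (.n (.b 3) (.n (.n (.b 3) (.n (.l 135 6) (.n (.l 135 6) (.b 4)))) (.l 135 6)))
  (.b 4)))) (.b 4)))) (.n (.b 9) (.b 4)))) (.b 4)))) (.b 4)))) (.n (.n (.b 3) (.n (.b 10) (.n (.n
  (.b 3) (.n (.n (.b 3) (.n (.n (.b 3) (.n (.n (.b 3) (.b 8)) (.n (.n (.b 3) (.n (.n (.b 3) (.n
  (.n (.b 3) (.l 271 99)) (.n (.b 10) (.b 4)))) (.n (.n (.b 3) (.n (.n (.b 3) (.l 271 99)) (.l 271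
  99))) (.b 4)))) (.b 4)))) (.n (.n (.b 3) (.n (.b 10) (.b 33))) (.b 4)))) (.n (.b 9) (.b 4))))
  (.b 4)))) (.b 4)))) (.n (.b 9) (.b 4)))) (.b 4)))) (.b 4)))) (.n (.b 10) (.b 4)))) (.n (.n (.b
  3) (.n (.n (.b 3) (.n (.n (.b 3) (.n (.n (.b 3) (.b 8)) (.n (.n (.b 3) (.n (.n (.b 3) (.n (.n
  (.b 3) (.n (.n (.b 3) (.b 8)) (.n (.n (.b 3) (.n (.n (.b 3) (.n (.n (.b 3) (.n (.n (.b 3) (.b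
  8)) (.n (.n (.b 3) (.n (.n (.b 3) (.b 21)) (.n (.n (.b 3) (.n (.n (.b 3) (.l 201 6)) (.n (.b 9)
  (.b 4)))) (.b 4)))) (.b 4)))) (.n (.b 10) (.b 4)))) (.n (.n (.b 3) (.n (.n (.b 3) (.n (.n (.b 3)
  (.n (.n (.b 3) (.b 8)) (.n (.n (.b 3) (.n (.n (.b 3) (.l 201 6)) (.n (.n (.b 3) (.l 201 6)) (.b
  4)))) (.b 4)))) (.n (.n (.b 3) (.n (.b 10) (.n (.n (.b 3) (.n (.l 201 6) (.n (.b 9) (.b 4))))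
  (.b 4)))) (.b 4)))) (.n (.b 9) (.b 4)))) (.b 4)))) (.b 4)))) (.n (.b 10) (.b 4)))) (.n (.n (.b
  3) (.n (.n (.b 3) (.n (.n (.b 3) (.n (.n (.b 3) (.b 8)) (.n (.n (.b 3) (.n (.n (.b 3) (.n (.n
  (.b 3) (.n (.n (.b 3) (.b 8)) (.n (.n (.b 3) (.n (.n (.b 3) (.n (.l 201 6) (.n (.b 10) (.b 4))))
  (.n (.l 201 6) (.b 4)))) (.b 4)))) (.n (.b 10) (.b 4)))) (.n (.n (.b 3) (.n (.b 30) (.n (.b 9)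
  (.b 4)))) (.b 4)))) (.b 4)))) (.n (.n (.b 3) (.n (.b 10) (.n (.n (.b 3) (.n (.n (.b 3) (.n (.n
  (.b 3) (.n (.n (.b 3) (.b 8)) (.n (.n (.b 3) (.n (.l 201 6) (.n (.l 201 6) (.b 4)))) (.b 4))))
  (.n (.n (.b 3) (.n (.b 10) (.n (.n (.b 3) (.l 201 6)) (.b 4)))) (.b 4)))) (.n (.b 9) (.b 4))))
  (.b 4)))) (.b 4)))) (.n (.b 9) (.b 4)))) (.b 4)))) (.b 4)))) (.n (.n (.b 3) (.n (.b 10) (.n (.n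
  (.b 3) (.n (.n (.b 3) (.n (.n (.b 3) (.n (.n (.b 3) (.b 8)) (.n (.n (.b 3) (.n (.n (.b 3) (.n
  (.n (.b 3) (.n (.n (.b 3) (.b 8)) (.n (.n (.b 3) (.n (.n (.b 3) (.n (.n (.b 3) (.l 239 6)) (.n
  (.b 10) (.b 4)))) (.n (.n (.b 3) (.n (.l 239 6) (.n (.b 9) (.b 4)))) (.b 4)))) (.b 4)))) (.n (.b
  10) (.b 4)))) (.n (.n (.b 3) (.n (.n (.b 3) (.n (.n (.b 3) (.n (.n (.b 3) (.b 8)) (.n (.n (.b 3)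
  (.n (.n (.b 3) (.n (.l 135 99) (.n (.b 10) (.b 4)))) (.l 135 99))) (.b 4)))) (.n (.n (.b 3) (.n
  (.b 10) (.n (.b 36) (.b 4)))) (.b 4)))) (.n (.b 9) (.b 4)))) (.b 4)))) (.b 4)))) (.n (.n (.b 3)
  (.n (.b 10) (.n (.n (.b 3) (.n (.n (.b 3) (.n (.n (.b 3) (.n (.n (.b 3) (.b 8)) (.n (.n (.b 3)
  (.n (.n (.b 3) (.n (.l 239 6) (.n (.b 10) (.b 4)))) (.n (.n (.b 3) (.l 239 6)) (.b 4)))) (.b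
  4)))) (.n (.n (.b 3) (.n (.b 10) (.n (.n (.b 3) (.n (.n (.b 3) (.n (.l 239 6) (.l 239 6))) (.n
  (.b 9) (.b 4)))) (.b 4)))) (.b 4)))) (.n (.b 9) (.b 4)))) (.b 4)))) (.b 4)))) (.n (.b 9) (.b
  4)))) (.b 4)))) (.b 4)))) (.n (.b 9) (.b 4)))) (.b 4)))) (.b 4)))) (.n (.n (.b 3) (.n (.b 10)
  (.n (.n (.b 3) (.n (.n (.b 3) (.n (.n (.b 3) (.n (.n (.b 3) (.b 8)) (.n (.n (.b 3) (.n (.n (.b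
  3) (.n (.n (.b 3) (.n (.n (.b 3) (.b 8)) (.n (.n (.b 3) (.n (.n (.b 3) (.n (.n (.b 3) (.n (.n
  (.b 3) (.b 8)) (.n (.n (.b 3) (.n (.n (.b 3) (.b 21)) (.n (.n (.b 3) (.n (.n (.b 3) (.n (.n (.b
  3) (.l 217 6)) (.n (.l 217 6) (.b 4)))) (.n (.b 9) (.b 4)))) (.b 4)))) (.b 4)))) (.n (.b 10) (.b
  4)))) (.n (.n (.b 3) (.n (.n (.b 3) (.n (.n (.b 3) (.n (.n (.b 3) (.b 8)) (.n (.n (.b 3) (.n (.n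
  (.b 3) (.n (.n (.b 3) (.l 151 99)) (.n (.b 10) (.b 4)))) (.n (.n (.b 3) (.n (.n (.b 3) (.l 151
  99)) (.l 151 99))) (.b 4)))) (.b 4)))) (.n (.n (.b 3) (.n (.b 10) (.b 33))) (.b 4)))) (.n (.b 9)
  (.b 4)))) (.b 4)))) (.b 4)))) (.n (.b 10) (.b 4)))) (.n (.n (.b 3) (.n (.n (.b 3) (.n (.n (.b 3)
  (.n (.n (.b 3) (.b 8)) (.n (.n (.b 3) (.n (.n (.b 3) (.n (.n (.b 3) (.n (.n (.b 3) (.b 8)) (.n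
  (.n (.b 3) (.n (.n (.b 3) (.n (.n (.b 3) (.n (.n (.b 3) (.b 8)) (.l 255 6))) (.n (.b 10) (.b
  4)))) (.n (.n (.b 3) (.n (.l 255 6) (.n (.b 9) (.b 4)))) (.b 4)))) (.b 4)))) (.n (.b 10) (.b
  4)))) (.n (.n (.b 3) (.n (.n (.b 3) (.n (.n (.b 3) (.n (.n (.b 3) (.b 8)) (.n (.n (.b 3) (.n (.n
  (.b 3) (.l 255 6)) (.l 255 6))) (.b 4)))) (.n (.n (.b 3) (.n (.b 10) (.n (.n (.b 3) (.l 255 6))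
  (.b 4)))) (.b 4)))) (.n (.b 9) (.b 4)))) (.b 4)))) (.b 4)))) (.n (.n (.b 3) (.n (.b 10) (.n (.n
  (.b 3) (.n (.n (.b 3) (.n (.n (.b 3) (.n (.n (.b 3) (.b 8)) (.n (.n (.b 3) (.n (.n (.b 3) (.n
  (.l 255 6) (.n (.b 10) (.b 4)))) (.n (.n (.b 3) (.n (.l 255 6) (.n (.b 9) (.b 4)))) (.b 4))))
  (.b 4)))) (.n (.n (.b 3) (.n (.b 10) (.n (.n (.b 3) (.n (.n (.b 3) (.n (.l 255 6) (.n (.n (.b 3)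
  (.n (.b 10) (.l 255 6))) (.b 4)))) (.n (.b 9) (.b 4)))) (.b 4)))) (.b 4)))) (.n (.b 9) (.b 4))))
  (.b 4)))) (.b 4)))) (.n (.b 9) (.b 4)))) (.b 4)))) (.b 4)))) (.n (.n (.b 3) (.n (.b 10) (.n (.n
  (.b 3) (.n (.n (.b 3) (.n (.n (.b 3) (.n (.n (.b 3) (.b 8)) (.n (.n (.b 3) (.n (.n (.b 3) (.n
  (.n (.b 3) (.n (.n (.b 3) (.b 8)) (.n (.n (.b 3) (.n (.n (.b 3) (.n (.n (.b 3) (.n (.n (.b 3)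
  (.b 8)) (.n (.n (.b 3) (.n (.n (.b 3) (.b 21)) (.l 271 6))) (.b 4)))) (.n (.b 10) (.b 4)))) (.n
  (.n (.b 3) (.n (.n (.b 3) (.n (.l 271 6) (.b 33))) (.n (.b 9) (.b 4)))) (.b 4)))) (.b 4)))) (.n
  (.b 10) (.b 4)))) (.n (.n (.b 3) (.n (.n (.b 3) (.n (.n (.b 3) (.n (.n (.b 3) (.b 8)) (.n (.n
  (.b 3) (.n (.n (.b 3) (.n (.n (.b 3) (.n (.l 271 6) (.n (.l 271 6) (.b 4)))) (.l 271 6))) (.n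
  (.n (.b 3) (.l 271 6)) (.b 4)))) (.b 4)))) (.n (.n (.b 3) (.n (.b 10) (.n (.n (.b 3) (.n (.n (.b
  3) (.n (.l 271 6) (.n (.l 271 6) (.b 4)))) (.n (.b 9) (.b 4)))) (.b 4)))) (.b 4)))) (.n (.b 9)
  (.b 4)))) (.b 4)))) (.b 4)))) (.n (.n (.b 3) (.n (.b 10) (.n (.n (.b 3) (.n (.n (.b 3) (.n (.n
  (.b 3) (.n (.n (.b 3) (.b 8)) (.n (.n (.b 3) (.n (.n (.b 3) (.n (.n (.b 3) (.n (.l 316 99) (.n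
  (.l 316 99) (.b 4)))) (.n (.b 10) (.b 4)))) (.n (.n (.b 3) (.n (.n (.b 3) (.l 316 99)) (.n (.b
  9) (.b 4)))) (.b 4)))) (.b 4)))) (.n (.n (.b 3) (.b 32)) (.b 4)))) (.n (.b 9) (.b 4)))) (.b
  4)))) (.b 4)))) (.n (.b 9) (.b 4)))) (.b 4)))) (.b 4)))) (.n (.b 9) (.b 4)))) (.b 4)))) (.b
  4)))) (.n (.b 9) (.b 4)))) (.b 4)))) (.b 4))

/-- A subtree of the table. -/
def s20 : T :=
  (.n (.n (.b 3) (.b 9)) (.b 4))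

/-- A subtree of the table. -/
def s21 : T :=
  (.b 4)

/-- A subtree of the table. -/
def s22 : T :=
  (.b 4)

/-- A subtree of the table. -/
def s23 : T :=
  (.b 3)

/-- A subtree of the table. -/
def s24 : T :=
  (.b 3)

/-- A subtree of the table. -/
def s25 : T :=
  (.b 3)

/-- A subtree of the table. -/
def s26 : T :=
  (.n (.b 3) (.b 8))

/-- A subtree of the table. -/
def s27 : T :=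
  (.b 3)

/-- A subtree of the table. -/
def s28 : T :=
  (.n (.b 3) (.n (.n (.b 3) (.n (.n (.b 3) (.b 8)) (.n (.n (.b 3) (.n (.n (.b 3) (.n (.n (.b 3)
  (.n (.n (.b 3) (.b 8)) (.n (.n (.b 3) (.n (.n (.b 3) (.n (.n (.b 3) (.n (.n (.b 3) (.b 8)) (.b
  21))) (.n (.b 10) (.b 4)))) (.n (.n (.b 3) (.n (.n (.b 3) (.n (.n (.b 3) (.n (.n (.b 3) (.b 8))
  (.n (.n (.b 3) (.n (.n (.b 3) (.n (.n (.b 3) (.n (.n (.b 3) (.b 8)) (.n (.n (.b 3) (.n (.n (.b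
  3) (.n (.n (.b 3) (.n (.n (.b 3) (.b 8)) (.n (.n (.b 3) (.n (.n (.b 3) (.b 21)) (.n (.n (.b 3)
  (.n (.n (.b 3) (.l 214 1)) (.n (.b 9) (.b 4)))) (.b 4)))) (.b 4)))) (.n (.b 10) (.b 4)))) (.n
  (.n (.b 3) (.n (.n (.b 3) (.n (.n (.b 3) (.n (.n (.b 3) (.b 8)) (.n (.n (.b 3) (.n (.b 34) (.l
  214 1))) (.b 4)))) (.n (.n (.b 3) (.n (.b 10) (.n (.n (.b 3) (.n (.n (.b 3) (.n (.l 214 1) (.n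
  (.n (.b 3) (.n (.b 10) (.l 214 1))) (.b 4)))) (.l 214 1))) (.b 4)))) (.b 4)))) (.n (.b 9) (.b
  4)))) (.b 4)))) (.b 4)))) (.n (.b 10) (.b 4)))) (.n (.n (.b 3) (.n (.n (.b 3) (.n (.n (.b 3) (.n
  (.n (.b 3) (.b 8)) (.n (.n (.b 3) (.n (.n (.b 3) (.n (.n (.b 3) (.n (.n (.b 3) (.b 8)) (.n (.n
  (.b 3) (.n (.l 214 1) (.n (.n (.b 3) (.n (.n (.b 3) (.n (.n (.b 3) (.n (.n (.b 3) (.b 8)) (.l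
  214 1))) (.l 214 1))) (.l 214 1))) (.b 4)))) (.b 4)))) (.n (.b 10) (.b 4)))) (.n (.n (.b 3) (.n
  (.n (.b 3) (.n (.n (.b 3) (.n (.n (.b 3) (.b 8)) (.n (.b 30) (.b 4)))) (.n (.n (.b 3) (.l 214
  1)) (.b 4)))) (.n (.b 9) (.b 4)))) (.b 4)))) (.b 4)))) (.n (.n (.b 3) (.n (.b 10) (.n (.n (.b 3)
  (.n (.n (.b 3) (.n (.n (.b 3) (.n (.n (.b 3) (.b 8)) (.n (.n (.b 3) (.n (.n (.b 3) (.n (.n (.b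
  3) (.n (.n (.b 3) (.b 8)) (.l 214 1))) (.l 214 1))) (.l 214 1))) (.b 4)))) (.n (.n (.b 3) (.n
  (.b 10) (.n (.n (.b 3) (.n (.n (.b 3) (.n (.n (.b 3) (.n (.n (.b 3) (.b 8)) (.l 214 1))) (.l 214
  1))) (.l 214 1))) (.b 4)))) (.b 4)))) (.n (.b 9) (.b 4)))) (.b 4)))) (.b 4)))) (.n (.b 9) (.b
  4)))) (.b 4)))) (.b 4)))) (.n (.n (.b 3) (.n (.b 10) (.n (.n (.b 3) (.n (.n (.b 3) (.n (.n (.b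
  3) (.n (.n (.b 3) (.b 8)) (.n (.n (.b 3) (.n (.n (.b 3) (.n (.n (.b 3) (.n (.n (.b 3) (.b 8))
  (.n (.n (.b 3) (.n (.n (.b 3) (.n (.n (.b 3) (.n (.n (.b 3) (.b 8)) (.l 214 1))) (.n (.b 10) (.b
  4)))) (.n (.n (.b 3) (.n (.n (.b 3) (.n (.l 214 1) (.n (.n (.b 3) (.n (.b 10) (.l 214 1))) (.b
  4)))) (.l 214 1))) (.b 4)))) (.b 4)))) (.n (.b 10) (.b 4)))) (.n (.n (.b 3) (.n (.n (.b 3) (.n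
  (.n (.b 3) (.n (.n (.b 3) (.b 8)) (.n (.n (.b 3) (.n (.l 214 1) (.l 214 1))) (.b 4)))) (.n (.n
  (.b 3) (.n (.b 10) (.n (.n (.b 3) (.l 214 1)) (.b 4)))) (.b 4)))) (.n (.b 9) (.b 4)))) (.b 4))))
  (.b 4)))) (.n (.n (.b 3) (.n (.b 10) (.n (.n (.b 3) (.n (.n (.b 3) (.n (.n (.b 3) (.n (.n (.b 3)
  (.b 8)) (.n (.n (.b 3) (.n (.b 33) (.n (.n (.b 3) (.l 214 1)) (.b 4)))) (.b 4)))) (.n (.n (.b 3)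
  (.n (.b 10) (.n (.n (.b 3) (.n (.n (.b 3) (.n (.l 214 1) (.n (.n (.b 3) (.n (.b 10) (.l 214 1)))
  (.b 4)))) (.n (.b 9) (.b 4)))) (.b 4)))) (.b 4)))) (.n (.b 9) (.b 4)))) (.b 4)))) (.b 4)))) (.n
  (.b 9) (.b 4)))) (.b 4)))) (.b 4)))) (.n (.b 9) (.b 4)))) (.b 4)))) (.b 4)))) (.n (.b 10) (.b
  4)))) (.n (.n (.b 3) (.n (.n (.b 3) (.n (.n (.b 3) (.n (.n (.b 3) (.b 8)) (.n (.n (.b 3) (.n (.n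
  (.b 3) (.n (.n (.b 3) (.n (.n (.b 3) (.b 8)) (.n (.n (.b 3) (.n (.n (.b 3) (.n (.n (.b 3) (.n
  (.n (.b 3) (.b 8)) (.n (.n (.b 3) (.n (.n (.b 3) (.b 21)) (.n (.n (.b 3) (.n (.n (.b 3) (.n (.n
  (.b 3) (.n (.n (.b 3) (.b 8)) (.n (.n (.b 3) (.n (.l 252 1) (.n (.n (.b 3) (.n (.n (.b 3) (.n
  (.n (.b 3) (.n (.n (.b 3) (.b 8)) (.l 252 1))) (.l 252 1))) (.l 252 1))) (.b 4)))) (.b 4)))) (.n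
  (.n (.b 3) (.n (.b 10) (.n (.n (.b 3) (.n (.l 252 1) (.n (.b 9) (.b 4)))) (.b 4)))) (.b 4))))
  (.n (.b 9) (.b 4)))) (.b 4)))) (.b 4)))) (.n (.b 10) (.b 4)))) (.n (.n (.b 3) (.n (.n (.b 3) (.n
  (.n (.b 3) (.n (.n (.b 3) (.b 8)) (.n (.n (.b 3) (.n (.n (.b 3) (.n (.n (.b 3) (.b 34)) (.n (.b
  10) (.b 4)))) (.n (.n (.b 3) (.n (.n (.b 3) (.n (.n (.b 3) (.n (.n (.b 3) (.b 8)) (.n (.l 317 1)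
  (.b 4)))) (.n (.n (.b 3) (.n (.b 10) (.l 317 1))) (.b 4)))) (.n (.b 9) (.b 4)))) (.b 4)))) (.b
  4)))) (.n (.n (.b 3) (.n (.b 10) (.n (.n (.b 3) (.n (.n (.b 3) (.n (.n (.b 3) (.n (.n (.b 3) (.b
  8)) (.n (.n (.b 3) (.l 148 1)) (.b 4)))) (.n (.n (.b 3) (.n (.b 10) (.n (.n (.b 3) (.l 148 1))
  (.b 4)))) (.b 4)))) (.n (.b 9) (.b 4)))) (.b 4)))) (.b 4)))) (.n (.b 9) (.b 4)))) (.b 4)))) (.b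
  4)))) (.n (.b 10) (.b 4)))) (.n (.n (.b 3) (.n (.n (.b 3) (.n (.n (.b 3) (.n (.n (.b 3) (.b 8))
  (.n (.n (.b 3) (.n (.n (.b 3) (.n (.n (.b 3) (.n (.n (.b 3) (.b 8)) (.n (.n (.b 3) (.n (.n (.b
  3) (.n (.n (.b 3) (.n (.n (.b 3) (.b 8)) (.n (.n (.b 3) (.n (.n (.b 3) (.b 21)) (.n (.l 252 1)
  (.b 4)))) (.b 4)))) (.n (.b 10) (.b 4)))) (.n (.n (.b 3) (.n (.n (.b 3) (.n (.n (.b 3) (.n (.n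
  (.b 3) (.b 8)) (.l 252 1))) (.n (.n (.b 3) (.n (.b 10) (.l 252 1))) (.b 4)))) (.n (.b 9) (.b
  4)))) (.b 4)))) (.b 4)))) (.n (.b 10) (.b 4)))) (.n (.n (.b 3) (.n (.n (.b 3) (.n (.n (.b 3) (.n
  (.n (.b 3) (.b 8)) (.n (.b 30) (.b 4)))) (.n (.n (.b 3) (.n (.b 10) (.n (.n (.b 3) (.n (.n (.b
  3) (.n (.n (.b 3) (.n (.l 252 1) (.l 252 1))) (.n (.n (.b 3) (.n (.b 10) (.l 252 1))) (.b 4))))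
  (.n (.b 9) (.b 4)))) (.b 4)))) (.b 4)))) (.n (.b 9) (.b 4)))) (.b 4)))) (.b 4)))) (.n (.n (.b 3)
  (.n (.b 10) (.n (.n (.b 3) (.n (.n (.b 3) (.n (.n (.b 3) (.n (.n (.b 3) (.b 8)) (.n (.n (.b 3)
  (.n (.n (.b 3) (.n (.n (.b 3) (.n (.n (.b 3) (.b 8)) (.n (.n (.b 3) (.n (.l 252 1) (.l 252 1)))
  (.b 4)))) (.n (.b 10) (.b 4)))) (.n (.n (.b 3) (.n (.n (.b 3) (.n (.n (.b 3) (.n (.n (.b 3) (.b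
  8)) (.l 252 1))) (.n (.n (.b 3) (.l 252 1)) (.b 4)))) (.n (.b 9) (.b 4)))) (.b 4)))) (.b 4))))
  (.n (.n (.b 3) (.n (.b 10) (.n (.n (.b 3) (.n (.n (.b 3) (.n (.n (.b 3) (.n (.n (.b 3) (.b 8))
  (.n (.n (.b 3) (.l 252 1)) (.b 4)))) (.n (.n (.b 3) (.n (.b 10) (.n (.n (.b 3) (.n (.l 252 1)
  (.n (.b 9) (.b 4)))) (.b 4)))) (.b 4)))) (.n (.b 9) (.b 4)))) (.b 4)))) (.b 4)))) (.n (.b 9) (.b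
  4)))) (.b 4)))) (.b 4)))) (.n (.b 9) (.b 4)))) (.b 4)))) (.b 4)))) (.n (.n (.b 3) (.n (.b 10)
  (.n (.n (.b 3) (.n (.n (.b 3) (.n (.n (.b 3) (.n (.n (.b 3) (.b 8)) (.n (.n (.b 3) (.n (.n (.b
  3) (.n (.n (.b 3) (.n (.n (.b 3) (.b 8)) (.n (.n (.b 3) (.n (.n (.b 3) (.n (.n (.b 3) (.n (.n
  (.b 3) (.b 8)) (.n (.n (.b 3) (.n (.n (.b 3) (.b 21)) (.n (.n (.b 3) (.n (.l 346 1) (.n (.b 9)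
  (.b 4)))) (.b 4)))) (.b 4)))) (.n (.b 10) (.b 4)))) (.n (.n (.b 3) (.n (.n (.b 3) (.n (.n (.b 3)
  (.n (.n (.b 3) (.b 8)) (.n (.n (.b 3) (.l 346 1)) (.b 4)))) (.n (.n (.b 3) (.n (.b 10) (.n (.n
  (.b 3) (.l 346 1)) (.b 4)))) (.b 4)))) (.n (.b 9) (.b 4)))) (.b 4)))) (.b 4)))) (.n (.b 10) (.b
  4)))) (.n (.n (.b 3) (.n (.n (.b 3) (.n (.n (.b 3) (.n (.n (.b 3) (.b 8)) (.n (.n (.b 3) (.n (.n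
  (.b 3) (.n (.n (.b 3) (.n (.n (.b 3) (.b 8)) (.n (.n (.b 3) (.n (.n (.b 3) (.n (.n (.b 3) (.n
  (.n (.b 3) (.b 8)) (.l 346 1))) (.l 346 1))) (.l 346 1))) (.b 4)))) (.n (.b 10) (.b 4)))) (.n
  (.n (.b 3) (.n (.n (.b 3) (.n (.n (.b 3) (.n (.l 346 1) (.n (.l 346 1) (.b 4)))) (.n (.n (.b 3)
  (.n (.b 10) (.l 346 1))) (.b 4)))) (.n (.b 9) (.b 4)))) (.b 4)))) (.b 4)))) (.n (.n (.b 3) (.n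
  (.b 10) (.n (.n (.b 3) (.n (.n (.b 3) (.n (.n (.b 3) (.n (.n (.b 3) (.b 8)) (.n (.n (.b 3) (.l
  346 1)) (.b 4)))) (.n (.n (.b 3) (.n (.b 10) (.l 346 1))) (.b 4)))) (.n (.b 9) (.b 4)))) (.b
  4)))) (.b 4)))) (.n (.b 9) (.b 4)))) (.b 4)))) (.b 4)))) (.n (.n (.b 3) (.n (.b 10) (.n (.n (.b
  3) (.n (.n (.b 3) (.n (.n (.b 3) (.n (.n (.b 3) (.b 8)) (.n (.n (.b 3) (.n (.n (.b 3) (.n (.n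
  (.b 3) (.b 33)) (.n (.b 10) (.b 4)))) (.n (.n (.b 3) (.n (.n (.b 3) (.n (.n (.b 3) (.n (.n (.b
  3) (.b 8)) (.n (.n (.b 3) (.l 317 1)) (.b 4)))) (.n (.n (.b 3) (.n (.b 10) (.n (.l 317 1) (.b
  4)))) (.b 4)))) (.n (.b 9) (.b 4)))) (.b 4)))) (.b 4)))) (.n (.n (.b 3) (.n (.b 10) (.n (.n (.b
  3) (.n (.n (.b 3) (.n (.n (.b 3) (.n (.n (.b 3) (.b 8)) (.n (.n (.b 3) (.n (.n (.b 3) (.l 317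
  1)) (.n (.l 317 1) (.b 4)))) (.b 4)))) (.n (.n (.b 3) (.n (.b 10) (.n (.n (.b 3) (.n (.n (.b 3)
  (.b 32)) (.l 317 1))) (.b 4)))) (.b 4)))) (.n (.b 9) (.b 4)))) (.b 4)))) (.b 4)))) (.n (.b 9)
  (.b 4)))) (.b 4)))) (.b 4)))) (.n (.b 9) (.b 4)))) (.b 4)))) (.b 4)))) (.n (.b 9) (.b 4)))) (.b
  4)))) (.b 4)))) (.n (.b 10) (.b 4))))

/-- A subtree of the table. -/
def s29 : T :=
  (.n (.n (.b 3) (.n (.n (.b 3) (.n (.n (.b 3) (.n (.n (.b 3) (.b 8)) (.n (.n (.b 3) (.n (.n (.b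
  3) (.n (.n (.b 3) (.n (.n (.b 3) (.b 8)) (.n (.n (.b 3) (.n (.n (.b 3) (.n (.n (.b 3) (.n (.n
  (.b 3) (.b 8)) (.n (.n (.b 3) (.n (.n (.b 3) (.b 21)) (.n (.n (.b 3) (.n (.n (.b 3) (.n (.n (.b
  3) (.n (.n (.b 3) (.b 8)) (.n (.n (.b 3) (.n (.n (.b 3) (.n (.n (.b 3) (.n (.n (.b 3) (.b 8))
  (.n (.n (.b 3) (.n (.n (.b 3) (.l 318 1)) (.n (.l 318 1) (.b 4)))) (.b 4)))) (.n (.b 10) (.b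
  4)))) (.n (.n (.b 3) (.n (.n (.b 3) (.n (.n (.b 3) (.n (.n (.b 3) (.b 8)) (.l 318 1))) (.n (.n
  (.b 3) (.n (.b 10) (.l 318 1))) (.b 4)))) (.n (.b 9) (.b 4)))) (.b 4)))) (.b 4)))) (.n (.n (.b
  3) (.n (.b 10) (.n (.n (.b 3) (.n (.n (.b 3) (.n (.n (.b 3) (.n (.n (.b 3) (.b 8)) (.n (.n (.b
  3) (.n (.l 318 1) (.n (.l 318 1) (.b 4)))) (.b 4)))) (.n (.n (.b 3) (.n (.b 10) (.n (.n (.b 3)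
  (.l 318 1)) (.b 4)))) (.b 4)))) (.n (.b 9) (.b 4)))) (.b 4)))) (.b 4)))) (.n (.b 9) (.b 4))))
  (.b 4)))) (.b 4)))) (.n (.b 10) (.b 4)))) (.n (.n (.b 3) (.n (.n (.b 3) (.n (.n (.b 3) (.n (.n
  (.b 3) (.b 8)) (.n (.n (.b 3) (.n (.n (.b 3) (.n (.n (.b 3) (.n (.n (.b 3) (.b 8)) (.n (.n (.b
  3) (.n (.n (.b 3) (.n (.n (.b 3) (.n (.n (.b 3) (.b 8)) (.n (.n (.b 3) (.n (.n (.b 3) (.b 21))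
  (.l 214 1))) (.b 4)))) (.n (.b 10) (.b 4)))) (.n (.n (.b 3) (.n (.b 34) (.n (.b 9) (.b 4)))) (.b
  4)))) (.b 4)))) (.n (.b 10) (.b 4)))) (.n (.n (.b 3) (.n (.n (.b 3) (.n (.n (.b 3) (.n (.n (.b
  3) (.b 8)) (.n (.n (.b 3) (.n (.n (.b 3) (.n (.n (.b 3) (.n (.l 318 1) (.n (.n (.b 3) (.n (.n
  (.b 3) (.n (.n (.b 3) (.n (.n (.b 3) (.b 8)) (.l 318 1))) (.l 318 1))) (.l 318 1))) (.b 4))))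
  (.n (.b 10) (.b 4)))) (.n (.n (.b 3) (.n (.n (.b 3) (.l 318 1)) (.n (.b 9) (.b 4)))) (.b 4))))
  (.b 4)))) (.n (.n (.b 3) (.n (.b 10) (.n (.n (.b 3) (.n (.n (.b 3) (.n (.n (.b 3) (.n (.l 318 1)
  (.n (.n (.b 3) (.l 318 1)) (.b 4)))) (.n (.n (.b 3) (.n (.b 10) (.l 318 1))) (.b 4)))) (.n (.b
  9) (.b 4)))) (.b 4)))) (.b 4)))) (.n (.b 9) (.b 4)))) (.b 4)))) (.b 4)))) (.n (.n (.b 3) (.n (.b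
  10) (.n (.n (.b 3) (.n (.n (.b 3) (.n (.n (.b 3) (.n (.n (.b 3) (.b 8)) (.n (.n (.b 3) (.n (.n
  (.b 3) (.n (.n (.b 3) (.n (.n (.b 3) (.b 8)) (.n (.n (.b 3) (.n (.n (.b 3) (.l 291 1)) (.l 291
  1))) (.b 4)))) (.n (.b 10) (.b 4)))) (.n (.n (.b 3) (.n (.n (.b 3) (.n (.n (.b 3) (.n (.l 291 1)
  (.l 291 1))) (.n (.n (.b 3) (.n (.b 10) (.n (.l 291 1) (.b 4)))) (.b 4)))) (.n (.b 9) (.b 4))))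
  (.b 4)))) (.b 4)))) (.n (.n (.b 3) (.n (.b 10) (.n (.n (.b 3) (.n (.n (.b 3) (.n (.b 33) (.n (.n
  (.b 3) (.n (.b 10) (.n (.l 291 1) (.b 4)))) (.b 4)))) (.n (.b 9) (.b 4)))) (.b 4)))) (.b 4))))
  (.n (.b 9) (.b 4)))) (.b 4)))) (.b 4)))) (.n (.b 9) (.b 4)))) (.b 4)))) (.b 4)))) (.n (.b 10)
  (.b 4)))) (.n (.n (.b 3) (.n (.n (.b 3) (.n (.n (.b 3) (.n (.n (.b 3) (.b 8)) (.n (.n (.b 3) (.n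
  (.n (.b 3) (.n (.n (.b 3) (.n (.n (.b 3) (.b 8)) (.n (.n (.b 3) (.n (.n (.b 3) (.n (.n (.b 3)
  (.n (.n (.b 3) (.b 8)) (.n (.n (.b 3) (.n (.n (.b 3) (.b 21)) (.n (.n (.b 3) (.n (.n (.b 3) (.n
  (.n (.b 3) (.n (.l 318 1) (.n (.n (.b 3) (.n (.n (.b 3) (.n (.n (.b 3) (.n (.n (.b 3) (.b 8))
  (.l 318 1))) (.l 318 1))) (.l 318 1))) (.b 4)))) (.n (.n (.b 3) (.n (.b 10) (.n (.n (.b 3) (.n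
  (.n (.b 3) (.n (.n (.b 3) (.n (.n (.b 3) (.b 8)) (.l 318 1))) (.l 318 1))) (.l 318 1))) (.b
  4)))) (.b 4)))) (.n (.b 9) (.b 4)))) (.b 4)))) (.b 4)))) (.n (.b 10) (.b 4)))) (.n (.n (.b 3)
  (.n (.n (.b 3) (.n (.n (.b 3) (.n (.n (.b 3) (.b 8)) (.n (.n (.b 3) (.n (.n (.b 3) (.n (.n (.b
  3) (.n (.n (.b 3) (.b 8)) (.n (.l 318 1) (.b 4)))) (.n (.b 10) (.b 4)))) (.n (.n (.b 3) (.n (.n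
  (.b 3) (.n (.n (.b 3) (.n (.n (.b 3) (.b 8)) (.l 318 1))) (.n (.l 318 1) (.b 4)))) (.n (.b 9)
  (.b 4)))) (.b 4)))) (.b 4)))) (.n (.n (.b 3) (.n (.b 10) (.n (.n (.b 3) (.n (.n (.b 3) (.n (.n
  (.b 3) (.l 318 1)) (.n (.n (.b 3) (.l 318 1)) (.b 4)))) (.n (.b 9) (.b 4)))) (.b 4)))) (.b 4))))
  (.n (.b 9) (.b 4)))) (.b 4)))) (.b 4)))) (.n (.b 10) (.b 4)))) (.n (.n (.b 3) (.n (.n (.b 3) (.n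
  (.n (.b 3) (.n (.n (.b 3) (.b 8)) (.n (.n (.b 3) (.n (.n (.b 3) (.n (.n (.b 3) (.n (.n (.b 3)
  (.b 8)) (.n (.n (.b 3) (.n (.n (.b 3) (.n (.n (.b 3) (.n (.n (.b 3) (.b 8)) (.n (.n (.b 3) (.n
  (.n (.b 3) (.b 21)) (.l 331 1))) (.b 4)))) (.n (.b 10) (.b 4)))) (.n (.n (.b 3) (.n (.n (.b 3)
  (.n (.l 331 1) (.n (.l 331 1) (.b 4)))) (.n (.b 9) (.b 4)))) (.b 4)))) (.b 4)))) (.n (.b 10) (.b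
  4)))) (.n (.b 30) (.b 4)))) (.b 4)))) (.n (.n (.b 3) (.n (.b 10) (.n (.n (.b 3) (.n (.n (.b 3)
  (.n (.n (.b 3) (.n (.n (.b 3) (.b 8)) (.n (.n (.b 3) (.n (.n (.b 3) (.n (.n (.b 3) (.n (.l 346
  1) (.n (.l 346 1) (.b 4)))) (.n (.b 10) (.b 4)))) (.n (.n (.b 3) (.n (.n (.b 3) (.n (.l 346 1)
  (.n (.l 346 1) (.b 4)))) (.n (.b 9) (.b 4)))) (.b 4)))) (.b 4)))) (.n (.n (.b 3) (.n (.b 10) (.n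
  (.n (.b 3) (.n (.n (.b 3) (.n (.n (.b 3) (.l 346 1)) (.n (.n (.b 3) (.l 346 1)) (.b 4)))) (.n
  (.b 9) (.b 4)))) (.b 4)))) (.b 4)))) (.n (.b 9) (.b 4)))) (.b 4)))) (.b 4)))) (.n (.b 9) (.b
  4)))) (.b 4)))) (.b 4)))) (.n (.n (.b 3) (.n (.b 10) (.n (.n (.b 3) (.n (.n (.b 3) (.n (.n (.b
  3) (.n (.n (.b 3) (.b 8)) (.n (.n (.b 3) (.n (.n (.b 3) (.n (.n (.b 3) (.n (.n (.b 3) (.b 8))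
  (.n (.n (.b 3) (.n (.n (.b 3) (.n (.n (.b 3) (.n (.n (.b 3) (.b 8)) (.n (.n (.b 3) (.n (.l 318
  1) (.l 318 1))) (.b 4)))) (.n (.b 10) (.b 4)))) (.n (.n (.b 3) (.n (.n (.b 3) (.n (.n (.b 3) (.l
  318 1)) (.n (.n (.b 3) (.l 318 1)) (.b 4)))) (.n (.b 9) (.b 4)))) (.b 4)))) (.b 4)))) (.n (.b
  10) (.b 4)))) (.n (.n (.b 3) (.n (.n (.b 3) (.n (.n (.b 3) (.n (.n (.b 3) (.b 8)) (.n (.n (.b 3)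
  (.n (.n (.b 3) (.n (.n (.b 3) (.n (.l 318 1) (.n (.n (.b 3) (.l 318 1)) (.b 4)))) (.n (.b 10)
  (.b 4)))) (.n (.n (.b 3) (.n (.n (.b 3) (.l 318 1)) (.n (.b 9) (.b 4)))) (.b 4)))) (.b 4)))) (.n
  (.n (.b 3) (.n (.b 10) (.n (.n (.b 3) (.n (.n (.b 3) (.n (.n (.b 3) (.b 36)) (.n (.n (.b 3) (.l
  318 1)) (.b 4)))) (.n (.b 9) (.b 4)))) (.b 4)))) (.b 4)))) (.n (.b 9) (.b 4)))) (.b 4)))) (.b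
  4)))) (.n (.n (.b 3) (.n (.b 10) (.n (.n (.b 3) (.n (.n (.b 3) (.n (.n (.b 3) (.n (.n (.b 3) (.b
  8)) (.n (.n (.b 3) (.n (.n (.b 3) (.n (.n (.b 3) (.n (.n (.b 3) (.b 8)) (.n (.n (.b 3) (.l 318
  1)) (.b 4)))) (.n (.b 10) (.b 4)))) (.n (.n (.b 3) (.n (.n (.b 3) (.n (.n (.b 3) (.n (.n (.b 3)
  (.b 8)) (.l 318 1))) (.n (.l 318 1) (.b 4)))) (.n (.b 9) (.b 4)))) (.b 4)))) (.b 4)))) (.n (.n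
  (.b 3) (.n (.b 10) (.n (.n (.b 3) (.n (.n (.b 3) (.n (.n (.b 3) (.n (.l 318 1) (.n (.l 318 1)
  (.b 4)))) (.n (.n (.b 3) (.n (.b 10) (.n (.l 318 1) (.b 4)))) (.b 4)))) (.n (.b 9) (.b 4)))) (.b
  4)))) (.b 4)))) (.n (.b 9) (.b 4)))) (.b 4)))) (.b 4)))) (.n (.b 9) (.b 4)))) (.b 4)))) (.b
  4)))) (.n (.b 9) (.b 4)))) (.b 4)))) (.b 4)))) (.n (.n (.b 3) (.n (.b 10) (.n (.n (.b 3) (.n (.n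
  (.b 3) (.n (.n (.b 3) (.n (.n (.b 3) (.b 8)) (.n (.n (.b 3) (.n (.n (.b 3) (.n (.n (.b 3) (.n
  (.n (.b 3) (.b 8)) (.n (.n (.b 3) (.n (.n (.b 3) (.n (.n (.b 3) (.n (.n (.b 3) (.b 8)) (.n (.n
  (.b 3) (.n (.n (.b 3) (.b 21)) (.n (.n (.b 3) (.n (.n (.b 3) (.n (.n (.b 3) (.n (.n (.b 3) (.b
  8)) (.n (.n (.b 3) (.n (.l 346 1) (.n (.n (.b 3) (.n (.n (.b 3) (.n (.n (.b 3) (.n (.n (.b 3)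
  (.b 8)) (.l 346 1))) (.l 346 1))) (.l 346 1))) (.b 4)))) (.b 4)))) (.n (.n (.b 3) (.n (.b 10)
  (.n (.n (.b 3) (.l 346 1)) (.b 4)))) (.b 4)))) (.n (.b 9) (.b 4)))) (.b 4)))) (.b 4)))) (.n (.b
  10) (.b 4)))) (.n (.n (.b 3) (.n (.n (.b 3) (.n (.n (.b 3) (.n (.n (.b 3) (.b 8)) (.n (.n (.b 3)
  (.n (.n (.b 3) (.n (.n (.b 3) (.n (.n (.b 3) (.b 8)) (.n (.n (.b 3) (.n (.n (.b 3) (.l 346 1))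
  (.l 346 1))) (.b 4)))) (.n (.b 10) (.b 4)))) (.n (.n (.b 3) (.n (.n (.b 3) (.n (.n (.b 3) (.n
  (.l 346 1) (.l 346 1))) (.n (.n (.b 3) (.n (.b 10) (.n (.l 346 1) (.b 4)))) (.b 4)))) (.n (.b 9)
  (.b 4)))) (.b 4)))) (.b 4)))) (.n (.n (.b 3) (.n (.b 10) (.n (.n (.b 3) (.n (.n (.b 3) (.n (.n
  (.b 3) (.n (.n (.b 3) (.b 8)) (.n (.n (.b 3) (.l 346 1)) (.b 4)))) (.b 33))) (.n (.b 9) (.b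
  4)))) (.b 4)))) (.b 4)))) (.n (.b 9) (.b 4)))) (.b 4)))) (.b 4)))) (.n (.b 10) (.b 4)))) (.n (.n
  (.b 3) (.n (.n (.b 3) (.n (.n (.b 3) (.n (.n (.b 3) (.b 8)) (.n (.n (.b 3) (.n (.n (.b 3) (.n
  (.n (.b 3) (.n (.n (.b 3) (.b 8)) (.n (.n (.b 3) (.n (.n (.b 3) (.n (.n (.b 3) (.n (.n (.b 3)
  (.b 8)) (.n (.n (.b 3) (.n (.l 252 1) (.l 252 1))) (.b 4)))) (.n (.b 10) (.b 4)))) (.n (.n (.b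
  3) (.n (.n (.b 3) (.n (.n (.b 3) (.n (.n (.b 3) (.b 8)) (.l 252 1))) (.n (.n (.b 3) (.l 252 1))
  (.b 4)))) (.n (.b 9) (.b 4)))) (.b 4)))) (.b 4)))) (.n (.b 10) (.b 4)))) (.n (.n (.b 3) (.n (.n
  (.b 3) (.n (.n (.b 3) (.n (.n (.b 3) (.b 8)) (.n (.n (.b 3) (.n (.n (.b 3) (.n (.n (.b 3) (.l
  252 1)) (.n (.b 10) (.b 4)))) (.n (.n (.b 3) (.n (.b 30) (.n (.b 9) (.b 4)))) (.b 4)))) (.b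
  4)))) (.n (.n (.b 3) (.n (.b 10) (.n (.n (.b 3) (.n (.n (.b 3) (.n (.n (.b 3) (.n (.n (.b 3) (.b
  8)) (.l 252 1))) (.l 252 1))) (.n (.b 9) (.b 4)))) (.b 4)))) (.b 4)))) (.n (.b 9) (.b 4)))) (.b
  4)))) (.b 4)))) (.n (.n (.b 3) (.n (.b 10) (.n (.n (.b 3) (.n (.n (.b 3) (.n (.n (.b 3) (.n (.n
  (.b 3) (.b 8)) (.n (.n (.b 3) (.n (.n (.b 3) (.n (.n (.b 3) (.n (.n (.b 3) (.b 8)) (.n (.n (.b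
  3) (.l 346 1)) (.b 4)))) (.n (.b 10) (.b 4)))) (.n (.n (.b 3) (.n (.n (.b 3) (.b 36)) (.n (.b 9)
  (.b 4)))) (.b 4)))) (.b 4)))) (.n (.n (.b 3) (.n (.b 10) (.n (.n (.b 3) (.n (.n (.b 3) (.n (.n
  (.b 3) (.n (.n (.b 3) (.b 8)) (.n (.l 346 1) (.b 4)))) (.n (.n (.b 3) (.l 346 1)) (.b 4)))) (.n
  (.b 9) (.b 4)))) (.b 4)))) (.b 4)))) (.n (.b 9) (.b 4)))) (.b 4)))) (.b 4)))) (.n (.b 9) (.b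
  4)))) (.b 4)))) (.b 4)))) (.n (.n (.b 3) (.n (.b 10) (.n (.n (.b 3) (.n (.n (.b 3) (.n (.n (.b
  3) (.n (.n (.b 3) (.b 8)) (.n (.n (.b 3) (.n (.n (.b 3) (.n (.n (.b 3) (.n (.n (.b 3) (.b 8))
  (.n (.n (.b 3) (.n (.n (.b 3) (.n (.n (.b 3) (.n (.n (.b 3) (.b 8)) (.n (.n (.b 3) (.n (.n (.b
  3) (.b 21)) (.n (.n (.b 3) (.l 252 1)) (.b 4)))) (.b 4)))) (.n (.b 10) (.b 4)))) (.n (.n (.b 3)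
  (.n (.b 33) (.n (.b 9) (.b 4)))) (.b 4)))) (.b 4)))) (.n (.b 10) (.b 4)))) (.n (.n (.b 3) (.n
  (.n (.b 3) (.n (.n (.b 3) (.n (.n (.b 3) (.b 8)) (.n (.n (.b 3) (.n (.n (.b 3) (.n (.n (.b 3)
  (.n (.n (.b 3) (.b 8)) (.n (.n (.b 3) (.n (.n (.b 3) (.n (.n (.b 3) (.n (.n (.b 3) (.b 8)) (.l
  346 1))) (.l 346 1))) (.l 346 1))) (.b 4)))) (.n (.b 10) (.b 4)))) (.n (.n (.b 3) (.n (.n (.b 3)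
  (.n (.n (.b 3) (.l 346 1)) (.n (.l 346 1) (.b 4)))) (.n (.b 9) (.b 4)))) (.b 4)))) (.b 4)))) (.n
  (.n (.b 3) (.n (.b 10) (.n (.n (.b 3) (.n (.n (.b 3) (.n (.n (.b 3) (.n (.n (.b 3) (.b 8)) (.n
  (.n (.b 3) (.l 346 1)) (.b 4)))) (.n (.n (.b 3) (.n (.b 10) (.l 346 1))) (.b 4)))) (.n (.b 9)
  (.b 4)))) (.b 4)))) (.b 4)))) (.n (.b 9) (.b 4)))) (.b 4)))) (.b 4)))) (.n (.n (.b 3) (.n (.b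
  10) (.n (.n (.b 3) (.n (.n (.b 3) (.n (.n (.b 3) (.n (.n (.b 3) (.b 8)) (.n (.n (.b 3) (.n (.n
  (.b 3) (.n (.n (.b 3) (.n (.n (.b 3) (.b 8)) (.n (.n (.b 3) (.n (.n (.b 3) (.l 346 1)) (.n (.l
  346 1) (.b 4)))) (.b 4)))) (.n (.b 10) (.b 4)))) (.n (.n (.b 3) (.n (.n (.b 3) (.n (.n (.b 3)
  (.n (.l 346 1) (.n (.n (.b 3) (.n (.l 346 1) (.n (.l 346 1) (.b 4)))) (.b 4)))) (.n (.n (.b 3)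
  (.n (.b 10) (.n (.l 346 1) (.b 4)))) (.b 4)))) (.n (.b 9) (.b 4)))) (.b 4)))) (.b 4)))) (.n (.n
  (.b 3) (.n (.b 10) (.n (.n (.b 3) (.n (.n (.b 3) (.b 32)) (.n (.b 9) (.b 4)))) (.b 4)))) (.b
  4)))) (.n (.b 9) (.b 4)))) (.b 4)))) (.b 4)))) (.n (.b 9) (.b 4)))) (.b 4)))) (.b 4)))) (.n (.b
  9) (.b 4)))) (.b 4)))) (.b 4)))) (.n (.b 9) (.b 4)))) (.b 4))

/-- A subtree of the table. -/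
def s30 : T :=
  (.b 4)

/-- A subtree of the table. -/
def s31 : T :=
  (.b 3)

/-- A subtree of the table. -/
def s32 : T :=
  (.n (.b 3) (.n (.n (.b 3) (.n (.n (.b 3) (.b 8)) (.n (.n (.b 3) (.n (.n (.b 3) (.n (.n (.b 3)
  (.n (.n (.b 3) (.b 8)) (.n (.n (.b 3) (.n (.n (.b 3) (.n (.n (.b 3) (.n (.n (.b 3) (.b 8)) (.n
  (.n (.b 3) (.b 21)) (.b 4)))) (.n (.b 10) (.b 4)))) (.n (.n (.b 3) (.n (.n (.b 3) (.n (.n (.b 3)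
  (.n (.n (.b 3) (.b 8)) (.n (.n (.b 3) (.n (.n (.b 3) (.n (.n (.b 3) (.n (.n (.b 3) (.b 8)) (.n
  (.n (.b 3) (.n (.n (.b 3) (.n (.n (.b 3) (.n (.n (.b 3) (.b 8)) (.n (.n (.b 3) (.n (.n (.b 3)
  (.b 21)) (.n (.n (.b 3) (.n (.n (.b 3) (.n (.l 288 1) (.n (.l 288 1) (.b 4)))) (.n (.b 9) (.b
  4)))) (.b 4)))) (.b 4)))) (.n (.b 10) (.b 4)))) (.n (.n (.b 3) (.n (.n (.b 3) (.n (.n (.b 3) (.n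
  (.n (.b 3) (.b 8)) (.n (.n (.b 3) (.n (.b 34) (.n (.n (.b 3) (.n (.l 288 1) (.n (.b 9) (.b 4))))
  (.b 4)))) (.b 4)))) (.n (.n (.b 3) (.n (.b 10) (.n (.n (.b 3) (.n (.n (.b 3) (.n (.l 288 1) (.n
  (.n (.b 3) (.n (.b 10) (.l 288 1))) (.b 4)))) (.n (.b 9) (.b 4)))) (.b 4)))) (.b 4)))) (.n (.b
  9) (.b 4)))) (.b 4)))) (.b 4)))) (.n (.b 10) (.b 4)))) (.n (.n (.b 3) (.n (.n (.b 3) (.n (.n (.b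
  3) (.n (.n (.b 3) (.b 8)) (.n (.n (.b 3) (.n (.n (.b 3) (.n (.n (.b 3) (.n (.n (.b 3) (.b 8))
  (.n (.n (.b 3) (.n (.n (.b 3) (.n (.n (.b 3) (.l 288 1)) (.n (.b 10) (.b 4)))) (.n (.n (.b 3)
  (.n (.n (.b 3) (.n (.n (.b 3) (.n (.n (.b 3) (.b 8)) (.l 288 1))) (.l 288 1))) (.l 288 1))) (.b
  4)))) (.b 4)))) (.n (.b 10) (.b 4)))) (.n (.n (.b 3) (.n (.n (.b 3) (.n (.n (.b 3) (.n (.n (.b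
  3) (.b 8)) (.n (.b 30) (.b 4)))) (.n (.n (.b 3) (.n (.b 10) (.n (.n (.b 3) (.n (.n (.b 3) (.n
  (.l 288 1) (.n (.n (.b 3) (.n (.b 10) (.l 288 1))) (.b 4)))) (.l 288 1))) (.b 4)))) (.b 4))))
  (.n (.b 9) (.b 4)))) (.b 4)))) (.b 4)))) (.n (.n (.b 3) (.n (.b 10) (.n (.n (.b 3) (.n (.n (.b
  3) (.n (.n (.b 3) (.n (.n (.b 3) (.b 8)) (.n (.n (.b 3) (.n (.n (.b 3) (.n (.n (.b 3) (.n (.n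
  (.b 3) (.b 8)) (.l 288 1))) (.n (.b 10) (.b 4)))) (.n (.l 288 1) (.b 4)))) (.b 4)))) (.n (.n (.b
  3) (.n (.b 10) (.n (.n (.b 3) (.n (.n (.b 3) (.n (.n (.b 3) (.n (.n (.b 3) (.b 8)) (.l 288 1)))
  (.l 288 1))) (.l 288 1))) (.b 4)))) (.b 4)))) (.n (.b 9) (.b 4)))) (.b 4)))) (.b 4)))) (.n (.b
  9) (.b 4)))) (.b 4)))) (.b 4)))) (.n (.n (.b 3) (.n (.b 10) (.n (.n (.b 3) (.n (.n (.b 3) (.n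
  (.n (.b 3) (.n (.n (.b 3) (.b 8)) (.n (.n (.b 3) (.n (.n (.b 3) (.n (.n (.b 3) (.n (.n (.b 3)
  (.b 8)) (.n (.n (.b 3) (.n (.n (.b 3) (.n (.n (.b 3) (.n (.n (.b 3) (.b 8)) (.n (.n (.b 3) (.l
  288 1)) (.b 4)))) (.n (.b 10) (.b 4)))) (.n (.n (.b 3) (.n (.n (.b 3) (.n (.l 288 1) (.n (.n (.b
  3) (.n (.b 10) (.l 288 1))) (.b 4)))) (.n (.b 9) (.b 4)))) (.b 4)))) (.b 4)))) (.n (.b 10) (.b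
  4)))) (.n (.n (.b 3) (.n (.n (.b 3) (.n (.n (.b 3) (.n (.n (.b 3) (.b 8)) (.n (.n (.b 3) (.n (.n
  (.b 3) (.n (.l 288 1) (.l 288 1))) (.n (.n (.b 3) (.n (.l 288 1) (.n (.b 9) (.b 4)))) (.b 4))))
  (.b 4)))) (.n (.n (.b 3) (.n (.b 10) (.n (.n (.b 3) (.n (.l 288 1) (.n (.b 9) (.b 4)))) (.b
  4)))) (.b 4)))) (.n (.b 9) (.b 4)))) (.b 4)))) (.b 4)))) (.n (.n (.b 3) (.n (.b 10) (.n (.n (.b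
  3) (.n (.n (.b 3) (.n (.n (.b 3) (.n (.n (.b 3) (.b 8)) (.n (.n (.b 3) (.n (.b 33) (.n (.n (.b
  3) (.n (.n (.b 3) (.l 288 1)) (.n (.b 9) (.b 4)))) (.b 4)))) (.b 4)))) (.n (.n (.b 3) (.n (.b
  10) (.n (.n (.b 3) (.n (.n (.b 3) (.n (.n (.b 3) (.l 288 1)) (.n (.n (.b 3) (.n (.b 10) (.l 288
  1))) (.b 4)))) (.n (.b 9) (.b 4)))) (.b 4)))) (.b 4)))) (.n (.b 9) (.b 4)))) (.b 4)))) (.b 4))))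
  (.n (.b 9) (.b 4)))) (.b 4)))) (.b 4)))) (.n (.b 9) (.b 4)))) (.b 4)))) (.b 4)))) (.n (.b 10)
  (.b 4)))) (.n (.n (.b 3) (.n (.n (.b 3) (.n (.n (.b 3) (.n (.n (.b 3) (.b 8)) (.n (.n (.b 3) (.n
  (.n (.b 3) (.n (.n (.b 3) (.n (.n (.b 3) (.b 8)) (.n (.n (.b 3) (.n (.n (.b 3) (.n (.n (.b 3)
  (.n (.n (.b 3) (.b 8)) (.n (.n (.b 3) (.n (.n (.b 3) (.b 21)) (.n (.n (.b 3) (.n (.n (.b 3) (.n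
  (.n (.b 3) (.n (.n (.b 3) (.b 8)) (.n (.n (.b 3) (.n (.n (.b 3) (.n (.n (.b 3) (.l 326 1)) (.n
  (.b 10) (.b 4)))) (.n (.n (.b 3) (.n (.n (.b 3) (.n (.n (.b 3) (.n (.n (.b 3) (.b 8)) (.l 326
  1))) (.l 326 1))) (.l 326 1))) (.b 4)))) (.b 4)))) (.n (.n (.b 3) (.n (.b 10) (.n (.n (.b 3) (.n
  (.n (.b 3) (.n (.n (.b 3) (.l 326 1)) (.l 326 1))) (.n (.b 9) (.b 4)))) (.b 4)))) (.b 4)))) (.n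
  (.b 9) (.b 4)))) (.b 4)))) (.b 4)))) (.n (.b 10) (.b 4)))) (.n (.n (.b 3) (.n (.n (.b 3) (.n (.n
  (.b 3) (.n (.n (.b 3) (.b 8)) (.n (.n (.b 3) (.n (.n (.b 3) (.n (.n (.b 3) (.n (.n (.b 3) (.b
  8)) (.n (.b 34) (.b 4)))) (.n (.b 10) (.b 4)))) (.n (.n (.b 3) (.n (.n (.b 3) (.n (.n (.b 3) (.n
  (.n (.b 3) (.b 8)) (.n (.n (.b 3) (.l 346 1)) (.b 4)))) (.n (.n (.b 3) (.n (.b 10) (.n (.n (.b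
  3) (.l 346 1)) (.b 4)))) (.b 4)))) (.n (.b 9) (.b 4)))) (.b 4)))) (.b 4)))) (.n (.n (.b 3) (.n
  (.b 10) (.n (.n (.b 3) (.n (.n (.b 3) (.n (.n (.b 3) (.n (.n (.b 3) (.b 8)) (.n (.n (.b 3) (.n
  (.n (.b 3) (.n (.l 222 1) (.n (.b 10) (.b 4)))) (.n (.n (.b 3) (.n (.n (.b 3) (.l 222 1)) (.l
  222 1))) (.b 4)))) (.b 4)))) (.n (.n (.b 3) (.n (.b 10) (.n (.n (.b 3) (.n (.n (.b 3) (.l 222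
  1)) (.n (.b 9) (.b 4)))) (.b 4)))) (.b 4)))) (.n (.b 9) (.b 4)))) (.b 4)))) (.b 4)))) (.n (.b 9)
  (.b 4)))) (.b 4)))) (.b 4)))) (.n (.b 10) (.b 4)))) (.n (.n (.b 3) (.n (.n (.b 3) (.n (.n (.b 3)
  (.n (.n (.b 3) (.b 8)) (.n (.n (.b 3) (.n (.n (.b 3) (.n (.n (.b 3) (.n (.n (.b 3) (.b 8)) (.n
  (.n (.b 3) (.n (.n (.b 3) (.n (.n (.b 3) (.n (.n (.b 3) (.b 8)) (.n (.n (.b 3) (.n (.n (.b 3)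
  (.b 21)) (.n (.n (.b 3) (.l 326 1)) (.b 4)))) (.b 4)))) (.n (.b 10) (.b 4)))) (.n (.n (.b 3) (.n
  (.n (.b 3) (.n (.n (.b 3) (.n (.n (.b 3) (.b 8)) (.n (.n (.b 3) (.n (.l 326 1) (.n (.l 326 1)
  (.b 4)))) (.b 4)))) (.n (.n (.b 3) (.n (.b 10) (.n (.n (.b 3) (.l 326 1)) (.b 4)))) (.b 4))))
  (.n (.b 9) (.b 4)))) (.b 4)))) (.b 4)))) (.n (.b 10) (.b 4)))) (.n (.n (.b 3) (.n (.n (.b 3) (.n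
  (.n (.b 3) (.n (.n (.b 3) (.b 8)) (.n (.b 30) (.b 4)))) (.n (.n (.b 3) (.n (.b 10) (.n (.n (.b
  3) (.n (.n (.b 3) (.n (.n (.b 3) (.n (.n (.b 3) (.b 8)) (.n (.n (.b 3) (.n (.l 326 1) (.n (.l
  326 1) (.b 4)))) (.b 4)))) (.n (.n (.b 3) (.n (.b 10) (.n (.l 326 1) (.b 4)))) (.b 4)))) (.n (.b
  9) (.b 4)))) (.b 4)))) (.b 4)))) (.n (.b 9) (.b 4)))) (.b 4)))) (.b 4)))) (.n (.n (.b 3) (.n (.b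
  10) (.n (.n (.b 3) (.n (.n (.b 3) (.n (.n (.b 3) (.n (.n (.b 3) (.b 8)) (.n (.n (.b 3) (.n (.n
  (.b 3) (.n (.n (.b 3) (.n (.n (.b 3) (.b 8)) (.n (.n (.b 3) (.n (.n (.b 3) (.l 326 1)) (.n (.n
  (.b 3) (.l 326 1)) (.b 4)))) (.b 4)))) (.n (.b 10) (.b 4)))) (.n (.n (.b 3) (.n (.n (.b 3) (.n
  (.n (.b 3) (.n (.n (.b 3) (.b 8)) (.n (.n (.b 3) (.l 326 1)) (.b 4)))) (.n (.n (.b 3) (.n (.b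
  10) (.n (.n (.b 3) (.n (.l 326 1) (.n (.b 9) (.b 4)))) (.b 4)))) (.b 4)))) (.n (.b 9) (.b 4))))
  (.b 4)))) (.b 4)))) (.n (.n (.b 3) (.n (.b 10) (.n (.n (.b 3) (.n (.n (.b 3) (.n (.n (.b 3) (.n
  (.n (.b 3) (.b 8)) (.n (.n (.b 3) (.n (.n (.b 3) (.l 326 1)) (.n (.n (.b 3) (.l 326 1)) (.b
  4)))) (.b 4)))) (.n (.n (.b 3) (.n (.b 10) (.n (.n (.b 3) (.n (.l 326 1) (.n (.b 9) (.b 4))))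
  (.b 4)))) (.b 4)))) (.n (.b 9) (.b 4)))) (.b 4)))) (.b 4)))) (.n (.b 9) (.b 4)))) (.b 4)))) (.b
  4)))) (.n (.b 9) (.b 4)))) (.b 4)))) (.b 4)))) (.n (.n (.b 3) (.n (.b 10) (.n (.n (.b 3) (.n (.n
  (.b 3) (.n (.n (.b 3) (.n (.n (.b 3) (.b 8)) (.n (.n (.b 3) (.n (.n (.b 3) (.n (.n (.b 3) (.n
  (.n (.b 3) (.b 8)) (.n (.n (.b 3) (.n (.n (.b 3) (.n (.n (.b 3) (.n (.n (.b 3) (.b 8)) (.n (.n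
  (.b 3) (.n (.n (.b 3) (.b 21)) (.n (.n (.b 3) (.n (.n (.b 3) (.l 346 1)) (.n (.b 9) (.b 4))))
  (.b 4)))) (.b 4)))) (.n (.b 10) (.b 4)))) (.n (.n (.b 3) (.n (.n (.b 3) (.n (.n (.b 3) (.n (.n
  (.b 3) (.b 8)) (.n (.n (.b 3) (.n (.n (.b 3) (.n (.l 346 1) (.n (.b 10) (.b 4)))) (.n (.n (.b 3)
  (.n (.n (.b 3) (.l 346 1)) (.l 346 1))) (.b 4)))) (.b 4)))) (.n (.n (.b 3) (.n (.b 10) (.n (.n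
  (.b 3) (.n (.n (.b 3) (.l 346 1)) (.n (.b 9) (.b 4)))) (.b 4)))) (.b 4)))) (.n (.b 9) (.b 4))))
  (.b 4)))) (.b 4)))) (.n (.b 10) (.b 4)))) (.n (.n (.b 3) (.n (.n (.b 3) (.n (.n (.b 3) (.n (.n
  (.b 3) (.b 8)) (.n (.n (.b 3) (.n (.n (.b 3) (.n (.n (.b 3) (.n (.n (.b 3) (.b 8)) (.n (.n (.b
  3) (.n (.n (.b 3) (.n (.n (.b 3) (.n (.n (.b 3) (.b 8)) (.l 346 1))) (.n (.b 10) (.b 4)))) (.n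
  (.l 346 1) (.b 4)))) (.b 4)))) (.n (.b 10) (.b 4)))) (.n (.n (.b 3) (.n (.n (.b 3) (.n (.n (.b
  3) (.n (.n (.b 3) (.b 8)) (.n (.n (.b 3) (.l 346 1)) (.b 4)))) (.n (.n (.b 3) (.n (.b 10) (.l
  346 1))) (.b 4)))) (.n (.b 9) (.b 4)))) (.b 4)))) (.b 4)))) (.n (.n (.b 3) (.n (.b 10) (.n (.n
  (.b 3) (.n (.n (.b 3) (.n (.n (.b 3) (.n (.n (.b 3) (.b 8)) (.n (.n (.b 3) (.n (.l 346 1) (.n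
  (.b 36) (.b 4)))) (.b 4)))) (.n (.n (.b 3) (.n (.b 10) (.n (.n (.b 3) (.n (.l 346 1) (.n (.b 9)
  (.b 4)))) (.b 4)))) (.b 4)))) (.n (.b 9) (.b 4)))) (.b 4)))) (.b 4)))) (.n (.b 9) (.b 4)))) (.b
  4)))) (.b 4)))) (.n (.n (.b 3) (.n (.b 10) (.n (.n (.b 3) (.n (.n (.b 3) (.n (.n (.b 3) (.n (.n
  (.b 3) (.b 8)) (.n (.n (.b 3) (.n (.n (.b 3) (.n (.n (.b 3) (.n (.n (.b 3) (.b 8)) (.n (.b 33)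
  (.b 4)))) (.n (.b 10) (.b 4)))) (.n (.n (.b 3) (.n (.n (.b 3) (.n (.n (.b 3) (.n (.n (.b 3) (.b
  8)) (.n (.n (.b 3) (.n (.n (.b 3) (.l 346 1)) (.n (.l 346 1) (.b 4)))) (.b 4)))) (.n (.n (.b 3)
  (.n (.b 10) (.n (.n (.b 3) (.n (.n (.b 3) (.n (.l 346 1) (.n (.l 346 1) (.b 4)))) (.l 346 1)))
  (.b 4)))) (.b 4)))) (.n (.b 9) (.b 4)))) (.b 4)))) (.b 4)))) (.n (.n (.b 3) (.n (.b 10) (.n (.n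
  (.b 3) (.n (.n (.b 3) (.n (.n (.b 3) (.n (.n (.b 3) (.b 8)) (.n (.n (.b 3) (.n (.n (.b 3) (.n
  (.n (.b 3) (.l 346 1)) (.n (.b 10) (.b 4)))) (.n (.n (.b 3) (.n (.n (.b 3) (.l 346 1)) (.l 346
  1))) (.b 4)))) (.b 4)))) (.n (.n (.b 3) (.n (.b 10) (.n (.n (.b 3) (.n (.n (.b 3) (.b 32)) (.n
  (.b 9) (.b 4)))) (.b 4)))) (.b 4)))) (.n (.b 9) (.b 4)))) (.b 4)))) (.b 4)))) (.n (.b 9) (.b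
  4)))) (.b 4)))) (.b 4)))) (.n (.b 9) (.b 4)))) (.b 4)))) (.b 4)))) (.n (.b 9) (.b 4)))) (.b
  4)))) (.b 4)))) (.n (.b 10) (.b 4))))

/-- A subtree of the table. -/
def s33 : T :=
  (.n (.n (.b 3) (.n (.n (.b 3) (.n (.n (.b 3) (.n (.n (.b 3) (.b 8)) (.n (.n (.b 3) (.n (.n (.b
  3) (.n (.n (.b 3) (.n (.n (.b 3) (.b 8)) (.n (.n (.b 3) (.n (.n (.b 3) (.n (.n (.b 3) (.n (.n
  (.b 3) (.b 8)) (.n (.n (.b 3) (.n (.n (.b 3) (.b 21)) (.n (.n (.b 3) (.n (.n (.b 3) (.n (.n (.b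
  3) (.n (.n (.b 3) (.b 8)) (.n (.n (.b 3) (.n (.n (.b 3) (.n (.n (.b 3) (.n (.n (.b 3) (.b 8))
  (.n (.n (.b 3) (.n (.n (.b 3) (.n (.n (.b 3) (.l 230 3)) (.l 230 3))) (.n (.n (.b 3) (.l 230 3))
  (.b 4)))) (.b 4)))) (.n (.b 10) (.b 4)))) (.n (.n (.b 3) (.n (.n (.b 3) (.n (.n (.b 3) (.n (.n
  (.b 3) (.b 8)) (.n (.n (.b 3) (.n (.l 230 3) (.n (.l 230 3) (.b 4)))) (.b 4)))) (.n (.n (.b 3)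
  (.n (.b 10) (.n (.n (.b 3) (.l 230 3)) (.b 4)))) (.b 4)))) (.n (.b 9) (.b 4)))) (.b 4)))) (.b
  4)))) (.n (.n (.b 3) (.n (.b 10) (.n (.n (.b 3) (.n (.n (.b 3) (.n (.n (.b 3) (.n (.n (.b 3) (.b
  8)) (.n (.n (.b 3) (.n (.n (.b 3) (.l 230 3)) (.n (.n (.b 3) (.l 230 3)) (.b 4)))) (.b 4)))) (.n
  (.n (.b 3) (.n (.b 10) (.n (.n (.b 3) (.n (.n (.b 3) (.l 230 3)) (.n (.b 9) (.b 4)))) (.b 4))))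
  (.b 4)))) (.n (.b 9) (.b 4)))) (.b 4)))) (.b 4)))) (.n (.b 9) (.b 4)))) (.b 4)))) (.b 4)))) (.n
  (.b 10) (.b 4)))) (.n (.n (.b 3) (.n (.n (.b 3) (.n (.n (.b 3) (.n (.n (.b 3) (.b 8)) (.n (.n
  (.b 3) (.n (.n (.b 3) (.n (.n (.b 3) (.n (.n (.b 3) (.b 8)) (.n (.n (.b 3) (.n (.n (.b 3) (.n
  (.n (.b 3) (.n (.n (.b 3) (.b 8)) (.n (.n (.b 3) (.n (.n (.b 3) (.b 21)) (.n (.n (.b 3) (.n (.l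
  164 3) (.n (.b 9) (.b 4)))) (.b 4)))) (.b 4)))) (.n (.b 10) (.b 4)))) (.n (.n (.b 3) (.n (.n (.b
  3) (.n (.b 34) (.n (.n (.b 3) (.n (.b 10) (.n (.l 60 11) (.b 4)))) (.b 4)))) (.n (.b 9) (.b
  4)))) (.b 4)))) (.b 4)))) (.n (.b 10) (.b 4)))) (.n (.n (.b 3) (.n (.n (.b 3) (.n (.n (.b 3) (.n
  (.n (.b 3) (.b 8)) (.n (.n (.b 3) (.n (.n (.b 3) (.n (.n (.b 3) (.n (.n (.b 3) (.b 8)) (.n (.n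
  (.b 3) (.n (.n (.b 3) (.n (.n (.b 3) (.n (.n (.b 3) (.b 8)) (.l 164 3))) (.l 164 3))) (.l 164
  3))) (.b 4)))) (.n (.b 10) (.b 4)))) (.n (.n (.b 3) (.n (.n (.b 3) (.n (.n (.b 3) (.n (.l 164 3)
  (.n (.b 30) (.b 4)))) (.n (.n (.b 3) (.n (.b 10) (.l 164 3))) (.b 4)))) (.n (.b 9) (.b 4)))) (.b
  4)))) (.b 4)))) (.n (.n (.b 3) (.n (.b 10) (.n (.n (.b 3) (.n (.n (.b 3) (.n (.n (.b 3) (.n (.n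
  (.b 3) (.b 8)) (.n (.n (.b 3) (.l 164 3)) (.b 4)))) (.n (.n (.b 3) (.n (.b 10) (.l 164 3))) (.b
  4)))) (.n (.b 9) (.b 4)))) (.b 4)))) (.b 4)))) (.n (.b 9) (.b 4)))) (.b 4)))) (.b 4)))) (.n (.n
  (.b 3) (.n (.b 10) (.n (.n (.b 3) (.n (.n (.b 3) (.n (.n (.b 3) (.n (.n (.b 3) (.b 8)) (.n (.n
  (.b 3) (.n (.n (.b 3) (.n (.n (.b 3) (.n (.n (.b 3) (.b 8)) (.n (.n (.b 3) (.n (.n (.b 3) (.n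
  (.n (.b 3) (.n (.l 262 3) (.n (.n (.b 3) (.n (.n (.b 3) (.b 21)) (.l 262 3))) (.b 4)))) (.l 262
  3))) (.n (.n (.b 3) (.l 262 3)) (.b 4)))) (.b 4)))) (.n (.b 10) (.b 4)))) (.n (.n (.b 3) (.n (.n
  (.b 3) (.n (.n (.b 3) (.n (.n (.b 3) (.b 8)) (.n (.n (.b 3) (.l 262 3)) (.b 4)))) (.n (.n (.b 3)
  (.n (.b 10) (.n (.l 262 3) (.b 4)))) (.b 4)))) (.n (.b 9) (.b 4)))) (.b 4)))) (.b 4)))) (.n (.n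
  (.b 3) (.n (.b 10) (.n (.n (.b 3) (.n (.n (.b 3) (.n (.b 33) (.n (.n (.b 3) (.n (.b 10) (.n (.n
  (.b 3) (.l 261 3)) (.b 4)))) (.b 4)))) (.n (.b 9) (.b 4)))) (.b 4)))) (.b 4)))) (.n (.b 9) (.b
  4)))) (.b 4)))) (.b 4)))) (.n (.b 9) (.b 4)))) (.b 4)))) (.b 4)))) (.n (.b 10) (.b 4)))) (.n (.n
  (.b 3) (.n (.n (.b 3) (.n (.n (.b 3) (.n (.n (.b 3) (.b 8)) (.n (.n (.b 3) (.n (.n (.b 3) (.n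
  (.n (.b 3) (.n (.n (.b 3) (.b 8)) (.n (.n (.b 3) (.n (.n (.b 3) (.n (.n (.b 3) (.n (.n (.b 3)
  (.b 8)) (.n (.n (.b 3) (.n (.n (.b 3) (.b 21)) (.n (.n (.b 3) (.n (.n (.b 3) (.n (.n (.b 3) (.n
  (.n (.b 3) (.b 8)) (.n (.n (.b 3) (.n (.n (.b 3) (.n (.n (.b 3) (.n (.n (.b 3) (.b 8)) (.l 230
  3))) (.l 230 3))) (.l 230 3))) (.b 4)))) (.n (.n (.b 3) (.n (.b 10) (.n (.n (.b 3) (.n (.n (.b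
  3) (.n (.n (.b 3) (.n (.n (.b 3) (.b 8)) (.l 230 3))) (.l 230 3))) (.l 230 3))) (.b 4)))) (.b
  4)))) (.n (.b 9) (.b 4)))) (.b 4)))) (.b 4)))) (.n (.b 10) (.b 4)))) (.n (.n (.b 3) (.n (.n (.b
  3) (.n (.n (.b 3) (.n (.n (.b 3) (.b 8)) (.n (.n (.b 3) (.n (.n (.b 3) (.n (.n (.b 3) (.n (.n
  (.b 3) (.b 8)) (.n (.n (.b 3) (.l 230 3)) (.b 4)))) (.n (.b 10) (.b 4)))) (.n (.n (.b 3) (.n (.n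
  (.b 3) (.n (.n (.b 3) (.n (.n (.b 3) (.b 8)) (.n (.l 230 3) (.b 4)))) (.n (.n (.b 3) (.l 230 3))
  (.b 4)))) (.n (.b 9) (.b 4)))) (.b 4)))) (.b 4)))) (.n (.n (.b 3) (.n (.b 10) (.n (.n (.b 3) (.n
  (.n (.b 3) (.n (.n (.b 3) (.n (.n (.b 3) (.b 8)) (.n (.l 230 3) (.b 4)))) (.n (.n (.b 3) (.n (.b
  10) (.n (.l 230 3) (.b 4)))) (.b 4)))) (.n (.b 9) (.b 4)))) (.b 4)))) (.b 4)))) (.n (.b 9) (.b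
  4)))) (.b 4)))) (.b 4)))) (.n (.b 10) (.b 4)))) (.n (.n (.b 3) (.n (.n (.b 3) (.n (.n (.b 3) (.n
  (.n (.b 3) (.b 8)) (.n (.n (.b 3) (.n (.n (.b 3) (.n (.n (.b 3) (.n (.n (.b 3) (.b 8)) (.n (.n
  (.b 3) (.n (.n (.b 3) (.n (.n (.b 3) (.n (.n (.b 3) (.b 8)) (.n (.n (.b 3) (.n (.n (.b 3) (.b
  21)) (.n (.l 230 11) (.b 4)))) (.b 4)))) (.n (.b 10) (.b 4)))) (.n (.n (.b 3) (.n (.n (.b 3) (.n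
  (.n (.b 3) (.l 230 11)) (.n (.n (.b 3) (.l 230 11)) (.b 4)))) (.n (.b 9) (.b 4)))) (.b 4)))) (.b
  4)))) (.n (.b 10) (.b 4)))) (.n (.n (.b 3) (.n (.b 30) (.n (.b 9) (.b 4)))) (.b 4)))) (.b 4))))
  (.n (.n (.b 3) (.n (.b 10) (.n (.n (.b 3) (.n (.n (.b 3) (.n (.n (.b 3) (.n (.n (.b 3) (.b 8))
  (.n (.n (.b 3) (.n (.n (.b 3) (.n (.n (.b 3) (.n (.n (.b 3) (.b 8)) (.n (.n (.b 3) (.l 230 3))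
  (.b 4)))) (.n (.b 10) (.b 4)))) (.n (.n (.b 3) (.n (.n (.b 3) (.n (.n (.b 3) (.l 230 3)) (.n (.l
  230 3) (.b 4)))) (.n (.b 9) (.b 4)))) (.b 4)))) (.b 4)))) (.n (.n (.b 3) (.n (.b 10) (.n (.n (.b
  3) (.n (.n (.b 3) (.n (.n (.b 3) (.n (.n (.b 3) (.b 8)) (.n (.l 230 3) (.b 4)))) (.n (.n (.b 3)
  (.l 230 3)) (.b 4)))) (.n (.b 9) (.b 4)))) (.b 4)))) (.b 4)))) (.n (.b 9) (.b 4)))) (.b 4))))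
  (.b 4)))) (.n (.b 9) (.b 4)))) (.b 4)))) (.b 4)))) (.n (.n (.b 3) (.n (.b 10) (.n (.n (.b 3) (.n
  (.n (.b 3) (.n (.n (.b 3) (.n (.n (.b 3) (.b 8)) (.n (.n (.b 3) (.n (.n (.b 3) (.n (.n (.b 3)
  (.n (.n (.b 3) (.b 8)) (.n (.n (.b 3) (.n (.n (.b 3) (.n (.n (.b 3) (.n (.n (.b 3) (.b 8)) (.n
  (.n (.b 3) (.n (.n (.b 3) (.b 21)) (.n (.n (.b 3) (.n (.l 268 3) (.n (.b 9) (.b 4)))) (.b 4))))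
  (.b 4)))) (.n (.b 10) (.b 4)))) (.n (.n (.b 3) (.n (.n (.b 3) (.n (.n (.b 3) (.n (.n (.b 3) (.b
  8)) (.n (.l 268 3) (.b 4)))) (.n (.n (.b 3) (.n (.b 10) (.n (.l 268 3) (.b 4)))) (.b 4)))) (.n
  (.b 9) (.b 4)))) (.b 4)))) (.b 4)))) (.n (.b 10) (.b 4)))) (.n (.n (.b 3) (.n (.n (.b 3) (.n (.n
  (.b 3) (.n (.n (.b 3) (.b 8)) (.n (.n (.b 3) (.n (.n (.b 3) (.n (.n (.b 3) (.n (.n (.b 3) (.b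
  8)) (.n (.n (.b 3) (.l 164 3)) (.b 4)))) (.n (.b 10) (.b 4)))) (.n (.n (.b 3) (.n (.n (.b 3) (.n
  (.n (.b 3) (.n (.l 164 3) (.n (.l 164 3) (.b 4)))) (.n (.n (.b 3) (.l 164 3)) (.b 4)))) (.n (.b
  9) (.b 4)))) (.b 4)))) (.b 4)))) (.n (.n (.b 3) (.n (.b 10) (.n (.n (.b 3) (.n (.n (.b 3) (.n
  (.n (.b 3) (.b 36)) (.n (.n (.b 3) (.l 288 3)) (.b 4)))) (.n (.b 9) (.b 4)))) (.b 4)))) (.b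
  4)))) (.n (.b 9) (.b 4)))) (.b 4)))) (.b 4)))) (.n (.n (.b 3) (.n (.b 10) (.n (.n (.b 3) (.n (.n
  (.b 3) (.n (.n (.b 3) (.n (.n (.b 3) (.b 8)) (.n (.n (.b 3) (.n (.n (.b 3) (.n (.n (.b 3) (.n
  (.n (.b 3) (.b 8)) (.n (.n (.b 3) (.n (.n (.b 3) (.l 268 3)) (.b 33))) (.b 4)))) (.n (.b 10) (.b
  4)))) (.n (.n (.b 3) (.n (.n (.b 3) (.n (.n (.b 3) (.n (.n (.b 3) (.b 8)) (.n (.l 268 3) (.b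
  4)))) (.n (.n (.b 3) (.n (.b 10) (.l 268 3))) (.b 4)))) (.n (.b 9) (.b 4)))) (.b 4)))) (.b 4))))
  (.n (.n (.b 3) (.n (.b 10) (.n (.n (.b 3) (.n (.n (.b 3) (.n (.n (.b 3) (.n (.n (.b 3) (.b 8))
  (.n (.n (.b 3) (.n (.l 268 3) (.l 268 3))) (.b 4)))) (.n (.n (.b 3) (.n (.b 10) (.n (.l 268 3)
  (.b 4)))) (.b 4)))) (.n (.b 9) (.b 4)))) (.b 4)))) (.b 4)))) (.n (.b 9) (.b 4)))) (.b 4)))) (.b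
  4)))) (.n (.b 9) (.b 4)))) (.b 4)))) (.b 4)))) (.n (.b 9) (.b 4)))) (.b 4)))) (.b 4)))) (.n (.n
  (.b 3) (.n (.b 10) (.n (.n (.b 3) (.n (.n (.b 3) (.n (.n (.b 3) (.n (.n (.b 3) (.b 8)) (.n (.n
  (.b 3) (.n (.n (.b 3) (.n (.n (.b 3) (.n (.n (.b 3) (.b 8)) (.n (.n (.b 3) (.n (.n (.b 3) (.n
  (.n (.b 3) (.n (.n (.b 3) (.b 8)) (.n (.n (.b 3) (.n (.n (.b 3) (.b 21)) (.n (.n (.b 3) (.n (.n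
  (.b 3) (.n (.n (.b 3) (.n (.n (.b 3) (.b 8)) (.n (.n (.b 3) (.n (.n (.b 3) (.n (.l 246 3) (.n
  (.b 10) (.b 4)))) (.n (.n (.b 3) (.n (.n (.b 3) (.n (.n (.b 3) (.n (.n (.b 3) (.b 8)) (.l 246
  3))) (.l 246 3))) (.l 246 3))) (.b 4)))) (.b 4)))) (.n (.n (.b 3) (.n (.b 10) (.n (.n (.b 3) (.n
  (.n (.b 3) (.n (.l 246 3) (.n (.l 246 3) (.b 4)))) (.n (.b 9) (.b 4)))) (.b 4)))) (.b 4)))) (.n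
  (.b 9) (.b 4)))) (.b 4)))) (.b 4)))) (.n (.b 10) (.b 4)))) (.n (.n (.b 3) (.n (.n (.b 3) (.n (.n
  (.b 3) (.n (.n (.b 3) (.b 8)) (.n (.n (.b 3) (.n (.n (.b 3) (.n (.n (.b 3) (.n (.n (.b 3) (.b
  8)) (.n (.n (.b 3) (.n (.n (.b 3) (.n (.n (.b 3) (.n (.l 180 3) (.n (.n (.b 3) (.n (.n (.b 3)
  (.b 21)) (.l 180 3))) (.b 4)))) (.l 180 3))) (.n (.n (.b 3) (.l 180 3)) (.b 4)))) (.b 4)))) (.n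
  (.b 10) (.b 4)))) (.n (.n (.b 3) (.n (.n (.b 3) (.n (.n (.b 3) (.n (.n (.b 3) (.b 8)) (.n (.n
  (.b 3) (.l 180 3)) (.b 4)))) (.n (.n (.b 3) (.n (.b 10) (.n (.l 180 3) (.b 4)))) (.b 4)))) (.n
  (.b 9) (.b 4)))) (.b 4)))) (.b 4)))) (.n (.n (.b 3) (.n (.b 10) (.n (.n (.b 3) (.n (.n (.b 3)
  (.n (.n (.b 3) (.n (.n (.b 3) (.b 8)) (.n (.n (.b 3) (.n (.n (.b 3) (.l 316 3)) (.l 316 3))) (.b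
  4)))) (.b 33))) (.n (.b 9) (.b 4)))) (.b 4)))) (.b 4)))) (.n (.b 9) (.b 4)))) (.b 4)))) (.b
  4)))) (.n (.b 10) (.b 4)))) (.n (.n (.b 3) (.n (.n (.b 3) (.n (.n (.b 3) (.n (.n (.b 3) (.b 8))
  (.n (.n (.b 3) (.n (.n (.b 3) (.n (.n (.b 3) (.n (.n (.b 3) (.b 8)) (.n (.n (.b 3) (.n (.n (.b
  3) (.n (.n (.b 3) (.n (.n (.b 3) (.b 8)) (.n (.n (.b 3) (.n (.n (.b 3) (.b 21)) (.n (.n (.b 3)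
  (.l 246 3)) (.b 4)))) (.b 4)))) (.n (.b 10) (.b 4)))) (.n (.n (.b 3) (.n (.n (.b 3) (.n (.n (.b
  3) (.n (.n (.b 3) (.b 8)) (.n (.n (.b 3) (.l 246 3)) (.b 4)))) (.n (.n (.b 3) (.n (.b 10) (.n
  (.n (.b 3) (.n (.l 246 3) (.n (.b 9) (.b 4)))) (.b 4)))) (.b 4)))) (.n (.b 9) (.b 4)))) (.b
  4)))) (.b 4)))) (.n (.b 10) (.b 4)))) (.n (.n (.b 3) (.n (.n (.b 3) (.n (.n (.b 3) (.n (.n (.b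
  3) (.b 8)) (.n (.n (.b 3) (.n (.n (.b 3) (.n (.n (.b 3) (.n (.n (.b 3) (.b 8)) (.n (.n (.b 3)
  (.n (.n (.b 3) (.n (.l 246 3) (.n (.b 10) (.b 4)))) (.l 246 3))) (.b 4)))) (.n (.b 10) (.b 4))))
  (.n (.n (.b 3) (.n (.b 30) (.n (.b 9) (.b 4)))) (.b 4)))) (.b 4)))) (.n (.n (.b 3) (.n (.b 10)
  (.n (.n (.b 3) (.n (.n (.b 3) (.n (.n (.b 3) (.n (.n (.b 3) (.b 8)) (.l 246 3))) (.n (.n (.b 3)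
  (.n (.b 10) (.l 246 3))) (.b 4)))) (.n (.b 9) (.b 4)))) (.b 4)))) (.b 4)))) (.n (.b 9) (.b 4))))
  (.b 4)))) (.b 4)))) (.n (.n (.b 3) (.n (.b 10) (.n (.n (.b 3) (.n (.n (.b 3) (.n (.n (.b 3) (.n
  (.n (.b 3) (.b 8)) (.n (.n (.b 3) (.n (.n (.b 3) (.n (.n (.b 3) (.n (.n (.b 3) (.b 8)) (.n (.n
  (.b 3) (.n (.l 284 3) (.n (.n (.b 3) (.n (.l 284 3) (.n (.b 9) (.b 4)))) (.b 4)))) (.b 4)))) (.n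
  (.b 10) (.b 4)))) (.n (.n (.b 3) (.n (.n (.b 3) (.n (.n (.b 3) (.n (.n (.b 3) (.b 8)) (.n (.l
  180 11) (.b 4)))) (.n (.b 36) (.b 4)))) (.n (.b 9) (.b 4)))) (.b 4)))) (.b 4)))) (.n (.n (.b 3)
  (.n (.b 10) (.n (.n (.b 3) (.n (.n (.b 3) (.n (.n (.b 3) (.n (.n (.b 3) (.b 8)) (.n (.n (.b 3)
  (.n (.n (.b 3) (.n (.l 284 3) (.n (.b 10) (.b 4)))) (.l 284 3))) (.b 4)))) (.n (.n (.b 3) (.n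
  (.b 10) (.n (.n (.b 3) (.n (.l 284 3) (.n (.b 9) (.b 4)))) (.b 4)))) (.b 4)))) (.n (.b 9) (.b
  4)))) (.b 4)))) (.b 4)))) (.n (.b 9) (.b 4)))) (.b 4)))) (.b 4)))) (.n (.b 9) (.b 4)))) (.b
  4)))) (.b 4)))) (.n (.n (.b 3) (.n (.b 10) (.n (.n (.b 3) (.n (.n (.b 3) (.n (.n (.b 3) (.n (.n
  (.b 3) (.b 8)) (.n (.n (.b 3) (.n (.n (.b 3) (.n (.n (.b 3) (.n (.n (.b 3) (.b 8)) (.n (.n (.b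
  3) (.n (.n (.b 3) (.n (.n (.b 3) (.n (.n (.b 3) (.b 8)) (.n (.n (.b 3) (.n (.n (.b 3) (.b 21))
  (.n (.n (.b 3) (.n (.n (.b 3) (.l 262 3)) (.n (.b 9) (.b 4)))) (.b 4)))) (.b 4)))) (.n (.b 10)
  (.b 4)))) (.n (.n (.b 3) (.n (.n (.b 3) (.n (.n (.b 3) (.n (.n (.b 3) (.b 8)) (.n (.n (.b 3) (.n
  (.l 196 11) (.n (.l 196 11) (.b 4)))) (.b 4)))) (.b 33))) (.n (.b 9) (.b 4)))) (.b 4)))) (.b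
  4)))) (.n (.b 10) (.b 4)))) (.n (.n (.b 3) (.n (.n (.b 3) (.n (.n (.b 3) (.n (.n (.b 3) (.b 8))
  (.n (.n (.b 3) (.n (.n (.b 3) (.n (.n (.b 3) (.n (.n (.b 3) (.b 8)) (.n (.n (.b 3) (.n (.n (.b
  3) (.n (.n (.b 3) (.n (.n (.b 3) (.b 8)) (.l 300 3))) (.l 300 3))) (.l 300 3))) (.b 4)))) (.n
  (.b 10) (.b 4)))) (.n (.n (.b 3) (.n (.n (.b 3) (.n (.n (.b 3) (.n (.n (.b 3) (.b 8)) (.n (.n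
  (.b 3) (.l 300 3)) (.b 4)))) (.n (.n (.b 3) (.n (.b 10) (.l 300 3))) (.b 4)))) (.n (.b 9) (.b
  4)))) (.b 4)))) (.b 4)))) (.n (.n (.b 3) (.n (.b 10) (.n (.n (.b 3) (.n (.n (.b 3) (.n (.n (.b
  3) (.n (.n (.b 3) (.b 8)) (.n (.n (.b 3) (.l 300 3)) (.b 4)))) (.n (.n (.b 3) (.n (.b 10) (.n
  (.n (.b 3) (.n (.n (.b 3) (.n (.l 300 3) (.n (.n (.b 3) (.n (.b 10) (.l 300 3))) (.b 4)))) (.l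
  300 3))) (.b 4)))) (.b 4)))) (.n (.b 9) (.b 4)))) (.b 4)))) (.b 4)))) (.n (.b 9) (.b 4)))) (.b
  4)))) (.b 4)))) (.n (.n (.b 3) (.n (.b 10) (.n (.n (.b 3) (.n (.n (.b 3) (.n (.n (.b 3) (.n (.n
  (.b 3) (.b 8)) (.n (.n (.b 3) (.n (.n (.b 3) (.n (.n (.b 3) (.n (.n (.b 3) (.b 8)) (.n (.n (.b
  3) (.n (.n (.b 3) (.n (.n (.b 3) (.n (.l 316 3) (.n (.n (.b 3) (.n (.n (.b 3) (.b 21)) (.l 316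
  3))) (.b 4)))) (.n (.b 10) (.b 4)))) (.n (.n (.b 3) (.n (.n (.b 3) (.n (.l 316 3) (.b 33))) (.l
  316 3))) (.b 4)))) (.b 4)))) (.n (.b 10) (.b 4)))) (.n (.n (.b 3) (.n (.n (.b 3) (.n (.n (.b 3)
  (.n (.n (.b 3) (.b 8)) (.n (.n (.b 3) (.n (.l 316 3) (.n (.l 316 3) (.b 4)))) (.b 4)))) (.n (.n
  (.b 3) (.n (.b 10) (.n (.l 316 3) (.b 4)))) (.b 4)))) (.n (.b 9) (.b 4)))) (.b 4)))) (.b 4))))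
  (.n (.n (.b 3) (.n (.b 10) (.n (.n (.b 3) (.n (.n (.b 3) (.b 32)) (.n (.b 9) (.b 4)))) (.b 4))))
  (.b 4)))) (.n (.b 9) (.b 4)))) (.b 4)))) (.b 4)))) (.n (.b 9) (.b 4)))) (.b 4)))) (.b 4)))) (.n
  (.b 9) (.b 4)))) (.b 4)))) (.b 4)))) (.n (.b 9) (.b 4)))) (.b 4))

/-- A subtree of the table. -/
def s34 : T :=
  (.b 4)

/-- A subtree of the table. -/
def s35 : T :=
  (.b 3)

/-- A subtree of the table. -/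
def s36 : T :=
  (.b 3)

/-- A subtree of the table. -/
def s37 : T :=
  (.n (.b 3) (.n (.n (.b 3) (.b 8)) (.n (.n (.b 3) (.n (.n (.b 3) (.n (.n (.b 3) (.n (.n (.b 3)
  (.b 8)) (.n (.n (.b 3) (.n (.n (.b 3) (.n (.n (.b 3) (.n (.n (.b 3) (.b 8)) (.n (.n (.b 3) (.n
  (.n (.b 3) (.b 21)) (.n (.n (.b 3) (.n (.n (.b 3) (.n (.n (.b 3) (.n (.n (.b 3) (.b 8)) (.n (.n
  (.b 3) (.n (.n (.b 3) (.n (.n (.b 3) (.n (.n (.b 3) (.b 8)) (.n (.n (.b 3) (.n (.n (.b 3) (.n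
  (.n (.b 3) (.n (.n (.b 3) (.b 8)) (.n (.n (.b 3) (.n (.n (.b 3) (.b 21)) (.n (.n (.b 3) (.n (.l
  155 8) (.n (.b 9) (.b 4)))) (.b 4)))) (.b 4)))) (.n (.b 10) (.b 4)))) (.n (.n (.b 3) (.n (.n (.b
  3) (.n (.n (.b 3) (.n (.l 155 8) (.n (.n (.b 3) (.n (.b 34) (.l 155 8))) (.b 4)))) (.n (.n (.b
  3) (.n (.b 10) (.n (.n (.b 3) (.n (.n (.b 3) (.n (.l 155 8) (.n (.n (.b 3) (.n (.b 10) (.l 155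
  8))) (.b 4)))) (.l 155 8))) (.b 4)))) (.b 4)))) (.n (.b 9) (.b 4)))) (.b 4)))) (.b 4)))) (.n (.b
  10) (.b 4)))) (.n (.n (.b 3) (.n (.n (.b 3) (.n (.n (.b 3) (.n (.n (.b 3) (.b 8)) (.n (.n (.b 3)
  (.n (.n (.b 3) (.n (.n (.b 3) (.n (.n (.b 3) (.b 8)) (.n (.l 155 8) (.b 4)))) (.n (.b 10) (.b
  4)))) (.n (.n (.b 3) (.n (.n (.b 3) (.n (.n (.b 3) (.n (.l 155 8) (.n (.b 30) (.b 4)))) (.n (.l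
  155 8) (.b 4)))) (.n (.b 9) (.b 4)))) (.b 4)))) (.b 4)))) (.n (.n (.b 3) (.n (.b 10) (.n (.n (.b
  3) (.n (.n (.b 3) (.n (.n (.b 3) (.l 155 8)) (.n (.n (.b 3) (.l 155 8)) (.b 4)))) (.n (.b 9) (.b
  4)))) (.b 4)))) (.b 4)))) (.n (.b 9) (.b 4)))) (.b 4)))) (.b 4)))) (.n (.n (.b 3) (.n (.b 10)
  (.n (.n (.b 3) (.n (.n (.b 3) (.n (.n (.b 3) (.n (.n (.b 3) (.b 8)) (.n (.n (.b 3) (.n (.n (.b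
  3) (.n (.n (.b 3) (.n (.n (.b 3) (.b 8)) (.n (.n (.b 3) (.n (.l 155 8) (.n (.n (.b 3) (.n (.n
  (.b 3) (.n (.l 155 8) (.n (.n (.b 3) (.n (.b 10) (.l 155 8))) (.b 4)))) (.l 155 8))) (.b 4))))
  (.b 4)))) (.n (.b 10) (.b 4)))) (.n (.n (.b 3) (.n (.n (.b 3) (.n (.n (.b 3) (.l 155 8)) (.n (.l
  155 8) (.b 4)))) (.n (.b 9) (.b 4)))) (.b 4)))) (.b 4)))) (.n (.n (.b 3) (.n (.b 10) (.n (.n (.b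
  3) (.n (.n (.b 3) (.n (.n (.b 3) (.n (.n (.b 3) (.b 8)) (.n (.n (.b 3) (.n (.b 33) (.l 155 8)))
  (.b 4)))) (.n (.n (.b 3) (.n (.b 10) (.n (.n (.b 3) (.n (.n (.b 3) (.n (.l 155 8) (.n (.n (.b 3)
  (.n (.b 10) (.l 155 8))) (.b 4)))) (.l 155 8))) (.b 4)))) (.b 4)))) (.n (.b 9) (.b 4)))) (.b
  4)))) (.b 4)))) (.n (.b 9) (.b 4)))) (.b 4)))) (.b 4)))) (.n (.b 9) (.b 4)))) (.b 4)))) (.b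
  4)))) (.n (.b 10) (.b 4)))) (.n (.n (.b 3) (.n (.n (.b 3) (.n (.n (.b 3) (.n (.n (.b 3) (.b 8))
  (.n (.n (.b 3) (.n (.n (.b 3) (.n (.n (.b 3) (.n (.n (.b 3) (.b 8)) (.n (.n (.b 3) (.n (.n (.b
  3) (.n (.n (.b 3) (.n (.n (.b 3) (.b 8)) (.n (.n (.b 3) (.n (.n (.b 3) (.b 21)) (.n (.n (.b 3)
  (.n (.n (.b 3) (.n (.n (.b 3) (.n (.n (.b 3) (.b 8)) (.n (.l 193 3) (.b 4)))) (.n (.n (.b 3) (.n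
  (.b 10) (.l 193 3))) (.b 4)))) (.n (.b 9) (.b 4)))) (.b 4)))) (.b 4)))) (.n (.b 10) (.b 4))))
  (.n (.n (.b 3) (.n (.n (.b 3) (.n (.n (.b 3) (.n (.n (.b 3) (.b 8)) (.n (.n (.b 3) (.n (.b 34)
  (.n (.n (.b 3) (.n (.n (.b 3) (.l 258 3)) (.n (.b 9) (.b 4)))) (.b 4)))) (.b 4)))) (.n (.n (.b
  3) (.n (.b 10) (.n (.n (.b 3) (.n (.n (.b 3) (.n (.n (.b 3) (.n (.l 89 3) (.n (.n (.b 3) (.l 89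
  3)) (.b 4)))) (.n (.n (.b 3) (.n (.b 10) (.l 89 3))) (.b 4)))) (.n (.b 9) (.b 4)))) (.b 4))))
  (.b 4)))) (.n (.b 9) (.b 4)))) (.b 4)))) (.b 4)))) (.n (.b 10) (.b 4)))) (.n (.n (.b 3) (.n (.n
  (.b 3) (.n (.n (.b 3) (.n (.n (.b 3) (.b 8)) (.n (.n (.b 3) (.n (.n (.b 3) (.n (.n (.b 3) (.n
  (.n (.b 3) (.b 8)) (.n (.n (.b 3) (.n (.n (.b 3) (.n (.n (.b 3) (.n (.n (.b 3) (.b 8)) (.l 193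
  3))) (.n (.b 10) (.b 4)))) (.n (.n (.b 3) (.n (.n (.b 3) (.n (.n (.b 3) (.n (.n (.b 3) (.b 8))
  (.l 193 3))) (.l 193 3))) (.n (.b 9) (.b 4)))) (.b 4)))) (.b 4)))) (.n (.b 10) (.b 4)))) (.n (.n
  (.b 3) (.n (.n (.b 3) (.n (.n (.b 3) (.n (.n (.b 3) (.b 8)) (.n (.b 30) (.b 4)))) (.n (.n (.b 3)
  (.n (.b 10) (.n (.n (.b 3) (.n (.n (.b 3) (.n (.l 193 3) (.n (.n (.b 3) (.n (.b 10) (.l 193 3)))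
  (.b 4)))) (.n (.b 9) (.b 4)))) (.b 4)))) (.b 4)))) (.n (.b 9) (.b 4)))) (.b 4)))) (.b 4)))) (.n
  (.n (.b 3) (.n (.b 10) (.n (.n (.b 3) (.n (.n (.b 3) (.n (.n (.b 3) (.n (.n (.b 3) (.b 8)) (.n
  (.n (.b 3) (.n (.n (.b 3) (.n (.n (.b 3) (.n (.n (.b 3) (.b 8)) (.l 193 3))) (.n (.b 10) (.b
  4)))) (.n (.n (.b 3) (.n (.l 193 3) (.n (.b 9) (.b 4)))) (.b 4)))) (.b 4)))) (.n (.n (.b 3) (.n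
  (.b 10) (.n (.n (.b 3) (.n (.n (.b 3) (.n (.n (.b 3) (.n (.n (.b 3) (.b 8)) (.l 193 3))) (.l 193
  3))) (.n (.b 9) (.b 4)))) (.b 4)))) (.b 4)))) (.n (.b 9) (.b 4)))) (.b 4)))) (.b 4)))) (.n (.b
  9) (.b 4)))) (.b 4)))) (.b 4)))) (.n (.n (.b 3) (.n (.b 10) (.n (.n (.b 3) (.n (.n (.b 3) (.n
  (.n (.b 3) (.n (.n (.b 3) (.b 8)) (.n (.n (.b 3) (.n (.n (.b 3) (.n (.n (.b 3) (.n (.n (.b 3)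
  (.b 8)) (.n (.n (.b 3) (.n (.n (.b 3) (.n (.n (.b 3) (.n (.n (.b 3) (.b 8)) (.n (.n (.b 3) (.n
  (.n (.b 3) (.b 21)) (.l 291 3))) (.b 4)))) (.n (.b 10) (.b 4)))) (.n (.n (.b 3) (.n (.n (.b 3)
  (.n (.n (.b 3) (.n (.l 291 3) (.n (.n (.b 3) (.l 291 3)) (.b 4)))) (.n (.n (.b 3) (.n (.b 10)
  (.l 291 3))) (.b 4)))) (.n (.b 9) (.b 4)))) (.b 4)))) (.b 4)))) (.n (.b 10) (.b 4)))) (.n (.n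
  (.b 3) (.n (.n (.b 3) (.n (.n (.b 3) (.n (.n (.b 3) (.b 8)) (.n (.n (.b 3) (.n (.n (.b 3) (.n
  (.n (.b 3) (.l 291 3)) (.n (.b 10) (.b 4)))) (.n (.n (.b 3) (.n (.n (.b 3) (.l 291 3)) (.n (.b
  9) (.b 4)))) (.b 4)))) (.b 4)))) (.n (.n (.b 3) (.n (.b 10) (.n (.n (.b 3) (.n (.n (.b 3) (.n
  (.l 291 3) (.n (.l 291 3) (.b 4)))) (.n (.b 9) (.b 4)))) (.b 4)))) (.b 4)))) (.n (.b 9) (.b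
  4)))) (.b 4)))) (.b 4)))) (.n (.n (.b 3) (.n (.b 10) (.n (.n (.b 3) (.n (.n (.b 3) (.n (.n (.b
  3) (.n (.n (.b 3) (.b 8)) (.n (.n (.b 3) (.n (.b 33) (.n (.n (.b 3) (.n (.n (.b 3) (.n (.n (.b
  3) (.l 258 3)) (.l 258 3))) (.n (.b 9) (.b 4)))) (.b 4)))) (.b 4)))) (.n (.n (.b 3) (.n (.b 10)
  (.n (.n (.b 3) (.n (.n (.b 3) (.n (.n (.b 3) (.n (.n (.b 3) (.b 8)) (.n (.n (.b 3) (.l 258 3))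
  (.b 4)))) (.n (.n (.b 3) (.n (.b 10) (.l 258 3))) (.b 4)))) (.n (.b 9) (.b 4)))) (.b 4)))) (.b
  4)))) (.n (.b 9) (.b 4)))) (.b 4)))) (.b 4)))) (.n (.b 9) (.b 4)))) (.b 4)))) (.b 4)))) (.n (.b
  9) (.b 4)))) (.b 4)))) (.b 4)))) (.n (.b 10) (.b 4)))) (.n (.n (.b 3) (.n (.n (.b 3) (.n (.n (.b
  3) (.n (.n (.b 3) (.b 8)) (.n (.n (.b 3) (.n (.n (.b 3) (.n (.n (.b 3) (.n (.n (.b 3) (.b 8))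
  (.n (.n (.b 3) (.n (.n (.b 3) (.n (.n (.b 3) (.n (.n (.b 3) (.b 8)) (.n (.n (.b 3) (.n (.n (.b
  3) (.b 21)) (.n (.n (.b 3) (.n (.n (.b 3) (.n (.n (.b 3) (.n (.n (.b 3) (.b 8)) (.n (.n (.b 3)
  (.n (.n (.b 3) (.n (.n (.b 3) (.n (.n (.b 3) (.b 8)) (.l 259 3))) (.n (.b 10) (.b 4)))) (.n (.n
  (.b 3) (.n (.n (.b 3) (.n (.n (.b 3) (.n (.n (.b 3) (.b 8)) (.l 259 3))) (.l 259 3))) (.n (.b 9)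
  (.b 4)))) (.b 4)))) (.b 4)))) (.n (.n (.b 3) (.n (.b 10) (.n (.n (.b 3) (.n (.n (.b 3) (.n (.n
  (.b 3) (.n (.n (.b 3) (.b 8)) (.l 259 3))) (.n (.n (.b 3) (.l 259 3)) (.b 4)))) (.n (.b 9) (.b
  4)))) (.b 4)))) (.b 4)))) (.n (.b 9) (.b 4)))) (.b 4)))) (.b 4)))) (.n (.b 10) (.b 4)))) (.n (.n
  (.b 3) (.n (.n (.b 3) (.n (.n (.b 3) (.n (.n (.b 3) (.b 8)) (.n (.n (.b 3) (.n (.n (.b 3) (.n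
  (.n (.b 3) (.n (.n (.b 3) (.b 8)) (.n (.n (.b 3) (.n (.n (.b 3) (.n (.n (.b 3) (.n (.l 155 8)
  (.l 155 8))) (.n (.b 10) (.b 4)))) (.b 34))) (.b 4)))) (.n (.b 10) (.b 4)))) (.n (.n (.b 3) (.n
  (.n (.b 3) (.n (.n (.b 3) (.n (.n (.b 3) (.b 8)) (.n (.n (.b 3) (.n (.n (.b 3) (.n (.l 259 3)
  (.n (.b 10) (.b 4)))) (.n (.n (.b 3) (.n (.n (.b 3) (.l 259 3)) (.l 259 3))) (.b 4)))) (.b 4))))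
  (.n (.n (.b 3) (.n (.b 10) (.n (.n (.b 3) (.n (.n (.b 3) (.l 259 3)) (.n (.b 9) (.b 4)))) (.b
  4)))) (.b 4)))) (.n (.b 9) (.b 4)))) (.b 4)))) (.b 4)))) (.n (.n (.b 3) (.n (.b 10) (.n (.n (.b
  3) (.n (.n (.b 3) (.n (.n (.b 3) (.n (.n (.b 3) (.b 8)) (.n (.n (.b 3) (.n (.n (.b 3) (.n (.n
  (.b 3) (.l 232 3)) (.n (.b 10) (.b 4)))) (.n (.n (.b 3) (.n (.n (.b 3) (.l 232 3)) (.l 232 3)))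
  (.b 4)))) (.b 4)))) (.n (.n (.b 3) (.n (.b 10) (.n (.n (.b 3) (.n (.n (.b 3) (.n (.b 33) (.n (.l
  232 3) (.b 4)))) (.n (.b 9) (.b 4)))) (.b 4)))) (.b 4)))) (.n (.b 9) (.b 4)))) (.b 4)))) (.b
  4)))) (.n (.b 9) (.b 4)))) (.b 4)))) (.b 4)))) (.n (.b 10) (.b 4)))) (.n (.n (.b 3) (.n (.n (.b
  3) (.n (.n (.b 3) (.n (.n (.b 3) (.b 8)) (.n (.n (.b 3) (.n (.n (.b 3) (.n (.n (.b 3) (.n (.n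
  (.b 3) (.b 8)) (.n (.n (.b 3) (.n (.n (.b 3) (.n (.n (.b 3) (.n (.n (.b 3) (.b 8)) (.n (.n (.b
  3) (.n (.n (.b 3) (.b 21)) (.n (.n (.b 3) (.n (.n (.b 3) (.n (.l 259 3) (.n (.l 259 3) (.b 4))))
  (.n (.b 9) (.b 4)))) (.b 4)))) (.b 4)))) (.n (.b 10) (.b 4)))) (.n (.n (.b 3) (.n (.n (.b 3) (.n
  (.n (.b 3) (.n (.n (.b 3) (.b 8)) (.n (.n (.b 3) (.n (.n (.b 3) (.l 259 3)) (.n (.n (.b 3) (.l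
  259 3)) (.b 4)))) (.b 4)))) (.n (.n (.b 3) (.n (.b 10) (.n (.n (.b 3) (.n (.n (.b 3) (.l 259 3))
  (.n (.b 9) (.b 4)))) (.b 4)))) (.b 4)))) (.n (.b 9) (.b 4)))) (.b 4)))) (.b 4)))) (.n (.b 10)
  (.b 4)))) (.n (.n (.b 3) (.n (.n (.b 3) (.n (.n (.b 3) (.n (.n (.b 3) (.b 8)) (.n (.b 30) (.b
  4)))) (.n (.n (.b 3) (.n (.b 10) (.n (.n (.b 3) (.n (.n (.b 3) (.n (.n (.b 3) (.n (.n (.b 3) (.b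
  8)) (.n (.n (.b 3) (.n (.n (.b 3) (.l 346 3)) (.n (.l 346 3) (.b 4)))) (.b 4)))) (.n (.n (.b 3)
  (.n (.b 10) (.n (.n (.b 3) (.n (.l 346 3) (.l 346 3))) (.b 4)))) (.b 4)))) (.n (.b 9) (.b 4))))
  (.b 4)))) (.b 4)))) (.n (.b 9) (.b 4)))) (.b 4)))) (.b 4)))) (.n (.n (.b 3) (.n (.b 10) (.n (.n
  (.b 3) (.n (.n (.b 3) (.n (.n (.b 3) (.n (.n (.b 3) (.b 8)) (.n (.n (.b 3) (.n (.n (.b 3) (.n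
  (.n (.b 3) (.n (.n (.b 3) (.b 8)) (.n (.n (.b 3) (.n (.n (.b 3) (.n (.n (.b 3) (.l 259 3)) (.n
  (.b 10) (.b 4)))) (.n (.n (.b 3) (.n (.n (.b 3) (.l 259 3)) (.n (.b 9) (.b 4)))) (.b 4)))) (.b
  4)))) (.n (.b 10) (.b 4)))) (.n (.n (.b 3) (.n (.n (.b 3) (.n (.n (.b 3) (.n (.n (.b 3) (.b 8))
  (.n (.n (.b 3) (.n (.n (.b 3) (.l 259 3)) (.n (.n (.b 3) (.l 259 3)) (.b 4)))) (.b 4)))) (.n (.n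
  (.b 3) (.n (.b 10) (.n (.n (.b 3) (.n (.l 259 3) (.n (.b 9) (.b 4)))) (.b 4)))) (.b 4)))) (.n
  (.b 9) (.b 4)))) (.b 4)))) (.b 4)))) (.n (.n (.b 3) (.n (.b 10) (.n (.n (.b 3) (.n (.n (.b 3)
  (.n (.n (.b 3) (.n (.n (.b 3) (.b 8)) (.n (.n (.b 3) (.n (.n (.b 3) (.n (.n (.b 3) (.l 259 3))
  (.n (.b 10) (.b 4)))) (.n (.n (.b 3) (.l 259 3)) (.b 4)))) (.b 4)))) (.n (.n (.b 3) (.n (.b 10)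
  (.n (.n (.b 3) (.n (.n (.b 3) (.n (.n (.b 3) (.n (.l 259 3) (.n (.l 259 3) (.b 4)))) (.l 259
  3))) (.n (.b 9) (.b 4)))) (.b 4)))) (.b 4)))) (.n (.b 9) (.b 4)))) (.b 4)))) (.b 4)))) (.n (.b
  9) (.b 4)))) (.b 4)))) (.b 4)))) (.n (.b 9) (.b 4)))) (.b 4)))) (.b 4)))) (.n (.n (.b 3) (.n (.b
  10) (.n (.n (.b 3) (.n (.n (.b 3) (.n (.n (.b 3) (.n (.n (.b 3) (.b 8)) (.n (.n (.b 3) (.n (.n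
  (.b 3) (.n (.n (.b 3) (.n (.n (.b 3) (.b 8)) (.n (.n (.b 3) (.n (.n (.b 3) (.n (.n (.b 3) (.n
  (.n (.b 3) (.b 8)) (.n (.n (.b 3) (.n (.n (.b 3) (.b 21)) (.n (.n (.b 3) (.n (.n (.b 3) (.n (.n
  (.b 3) (.n (.l 297 3) (.n (.l 297 3) (.b 4)))) (.n (.n (.b 3) (.n (.b 10) (.l 297 3))) (.b 4))))
  (.n (.b 9) (.b 4)))) (.b 4)))) (.b 4)))) (.n (.b 10) (.b 4)))) (.n (.n (.b 3) (.n (.n (.b 3) (.n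
  (.n (.b 3) (.n (.n (.b 3) (.b 8)) (.n (.n (.b 3) (.n (.n (.b 3) (.n (.n (.b 3) (.l 297 3)) (.n
  (.b 10) (.b 4)))) (.n (.n (.b 3) (.n (.n (.b 3) (.l 297 3)) (.l 297 3))) (.b 4)))) (.b 4)))) (.n
  (.n (.b 3) (.n (.b 10) (.n (.n (.b 3) (.n (.n (.b 3) (.n (.n (.b 3) (.l 297 3)) (.b 33))) (.n
  (.b 9) (.b 4)))) (.b 4)))) (.b 4)))) (.n (.b 9) (.b 4)))) (.b 4)))) (.b 4)))) (.n (.b 10) (.b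
  4)))) (.n (.n (.b 3) (.n (.n (.b 3) (.n (.n (.b 3) (.n (.n (.b 3) (.b 8)) (.n (.n (.b 3) (.n (.n
  (.b 3) (.n (.n (.b 3) (.n (.n (.b 3) (.b 8)) (.n (.n (.b 3) (.n (.n (.b 3) (.n (.n (.b 3) (.n
  (.n (.b 3) (.b 8)) (.l 193 3))) (.n (.b 10) (.b 4)))) (.n (.n (.b 3) (.n (.l 193 3) (.n (.b 9)
  (.b 4)))) (.b 4)))) (.b 4)))) (.n (.b 10) (.b 4)))) (.n (.n (.b 3) (.n (.n (.b 3) (.n (.n (.b 3)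
  (.n (.n (.b 3) (.b 8)) (.n (.n (.b 3) (.n (.n (.b 3) (.n (.l 193 3) (.n (.b 10) (.b 4)))) (.n
  (.n (.b 3) (.l 193 3)) (.b 4)))) (.b 4)))) (.n (.n (.b 3) (.n (.b 10) (.n (.n (.b 3) (.n (.l 193
  3) (.n (.b 9) (.b 4)))) (.b 4)))) (.b 4)))) (.n (.b 9) (.b 4)))) (.b 4)))) (.b 4)))) (.n (.n (.b
  3) (.n (.b 10) (.n (.n (.b 3) (.n (.n (.b 3) (.n (.n (.b 3) (.n (.n (.b 3) (.b 8)) (.n (.n (.b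
  3) (.n (.n (.b 3) (.n (.l 316 3) (.n (.b 10) (.b 4)))) (.n (.b 36) (.b 4)))) (.b 4)))) (.n (.n
  (.b 3) (.n (.b 10) (.n (.n (.b 3) (.n (.n (.b 3) (.n (.l 316 3) (.l 316 3))) (.n (.b 9) (.b
  4)))) (.b 4)))) (.b 4)))) (.n (.b 9) (.b 4)))) (.b 4)))) (.b 4)))) (.n (.b 9) (.b 4)))) (.b
  4)))) (.b 4)))) (.n (.n (.b 3) (.n (.b 10) (.n (.n (.b 3) (.n (.n (.b 3) (.n (.n (.b 3) (.n (.n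
  (.b 3) (.b 8)) (.n (.n (.b 3) (.n (.n (.b 3) (.n (.n (.b 3) (.n (.n (.b 3) (.b 8)) (.n (.n (.b
  3) (.n (.n (.b 3) (.n (.n (.b 3) (.n (.n (.b 3) (.b 8)) (.n (.l 193 8) (.b 4)))) (.n (.b 10) (.b
  4)))) (.b 33))) (.b 4)))) (.n (.b 10) (.b 4)))) (.n (.n (.b 3) (.n (.n (.b 3) (.n (.n (.b 3) (.n
  (.n (.b 3) (.b 8)) (.n (.n (.b 3) (.n (.n (.b 3) (.n (.n (.b 3) (.l 297 3)) (.n (.b 10) (.b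
  4)))) (.n (.n (.b 3) (.n (.n (.b 3) (.l 297 3)) (.l 297 3))) (.b 4)))) (.b 4)))) (.n (.n (.b 3)
  (.n (.b 10) (.n (.n (.b 3) (.n (.n (.b 3) (.n (.l 297 3) (.n (.l 297 3) (.b 4)))) (.n (.b 9) (.b
  4)))) (.b 4)))) (.b 4)))) (.n (.b 9) (.b 4)))) (.b 4)))) (.b 4)))) (.n (.n (.b 3) (.n (.b 10)
  (.n (.n (.b 3) (.n (.n (.b 3) (.n (.n (.b 3) (.n (.n (.b 3) (.b 8)) (.n (.n (.b 3) (.n (.n (.b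
  3) (.n (.n (.b 3) (.n (.n (.b 3) (.b 8)) (.n (.l 297 3) (.b 4)))) (.n (.b 10) (.b 4)))) (.n (.n
  (.b 3) (.n (.n (.b 3) (.l 297 3)) (.n (.b 9) (.b 4)))) (.b 4)))) (.b 4)))) (.n (.n (.b 3) (.n
  (.b 10) (.n (.n (.b 3) (.n (.n (.b 3) (.b 32)) (.n (.b 9) (.b 4)))) (.b 4)))) (.b 4)))) (.n (.b
  9) (.b 4)))) (.b 4)))) (.b 4)))) (.n (.b 9) (.b 4)))) (.b 4)))) (.b 4)))) (.n (.b 9) (.b 4))))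
  (.b 4)))) (.b 4)))) (.n (.b 9) (.b 4)))) (.b 4)))) (.b 4))))

/-- A subtree of the table. -/
def s38 : T :=
  (.n (.n (.b 3) (.n (.b 10) (.n (.n (.b 3) (.n (.n (.b 3) (.n (.n (.b 3) (.n (.n (.b 3) (.b 8))
  (.n (.n (.b 3) (.n (.n (.b 3) (.n (.n (.b 3) (.n (.n (.b 3) (.b 8)) (.n (.n (.b 3) (.n (.n (.b
  3) (.n (.n (.b 3) (.n (.n (.b 3) (.b 8)) (.n (.n (.b 3) (.n (.n (.b 3) (.b 21)) (.n (.n (.b 3)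
  (.n (.n (.b 3) (.n (.n (.b 3) (.n (.n (.b 3) (.b 8)) (.n (.n (.b 3) (.n (.n (.b 3) (.n (.n (.b
  3) (.n (.n (.b 3) (.b 8)) (.n (.n (.b 3) (.l 171 8)) (.b 4)))) (.n (.b 10) (.b 4)))) (.n (.n (.b
  3) (.n (.n (.b 3) (.n (.n (.b 3) (.n (.n (.b 3) (.b 8)) (.l 171 8))) (.n (.l 171 8) (.b 4))))
  (.n (.b 9) (.b 4)))) (.b 4)))) (.b 4)))) (.n (.n (.b 3) (.n (.b 10) (.n (.n (.b 3) (.n (.n (.b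
  3) (.n (.n (.b 3) (.n (.n (.b 3) (.b 8)) (.n (.l 171 8) (.b 4)))) (.n (.n (.b 3) (.n (.b 10) (.l
  171 8))) (.b 4)))) (.n (.b 9) (.b 4)))) (.b 4)))) (.b 4)))) (.n (.b 9) (.b 4)))) (.b 4)))) (.b
  4)))) (.n (.b 10) (.b 4)))) (.n (.n (.b 3) (.n (.n (.b 3) (.n (.n (.b 3) (.n (.n (.b 3) (.b 8))
  (.n (.n (.b 3) (.n (.n (.b 3) (.n (.n (.b 3) (.n (.n (.b 3) (.b 8)) (.n (.n (.b 3) (.n (.n (.b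
  3) (.n (.n (.b 3) (.n (.n (.b 3) (.b 8)) (.n (.n (.b 3) (.n (.n (.b 3) (.b 21)) (.l 105 8))) (.b
  4)))) (.n (.b 10) (.b 4)))) (.n (.n (.b 3) (.n (.n (.b 3) (.n (.b 34) (.n (.l 105 8) (.b 4))))
  (.n (.b 9) (.b 4)))) (.b 4)))) (.b 4)))) (.n (.b 10) (.b 4)))) (.n (.n (.b 3) (.n (.n (.b 3) (.n
  (.n (.b 3) (.n (.n (.b 3) (.b 8)) (.n (.n (.b 3) (.n (.n (.b 3) (.n (.n (.b 3) (.l 105 8)) (.n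
  (.b 10) (.b 4)))) (.n (.n (.b 3) (.n (.n (.b 3) (.l 105 8)) (.l 105 8))) (.b 4)))) (.b 4)))) (.n
  (.n (.b 3) (.n (.b 10) (.n (.n (.b 3) (.n (.n (.b 3) (.n (.l 105 8) (.n (.l 105 8) (.b 4)))) (.n
  (.b 9) (.b 4)))) (.b 4)))) (.b 4)))) (.n (.b 9) (.b 4)))) (.b 4)))) (.b 4)))) (.n (.n (.b 3) (.n
  (.b 10) (.n (.n (.b 3) (.n (.n (.b 3) (.n (.n (.b 3) (.n (.n (.b 3) (.b 8)) (.n (.n (.b 3) (.n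
  (.n (.b 3) (.n (.n (.b 3) (.n (.n (.b 3) (.b 8)) (.n (.l 241 99) (.b 4)))) (.n (.b 10) (.b 4))))
  (.n (.n (.b 3) (.n (.n (.b 3) (.n (.l 241 99) (.n (.l 241 99) (.b 4)))) (.n (.b 9) (.b 4)))) (.b
  4)))) (.b 4)))) (.n (.n (.b 3) (.n (.b 10) (.n (.n (.b 3) (.b 33)) (.b 4)))) (.b 4)))) (.n (.b
  9) (.b 4)))) (.b 4)))) (.b 4)))) (.n (.b 9) (.b 4)))) (.b 4)))) (.b 4)))) (.n (.b 10) (.b 4))))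
  (.n (.n (.b 3) (.n (.n (.b 3) (.n (.n (.b 3) (.n (.n (.b 3) (.b 8)) (.n (.n (.b 3) (.n (.n (.b
  3) (.n (.n (.b 3) (.n (.n (.b 3) (.b 8)) (.n (.n (.b 3) (.n (.n (.b 3) (.n (.n (.b 3) (.n (.n
  (.b 3) (.b 8)) (.n (.n (.b 3) (.n (.n (.b 3) (.b 21)) (.n (.n (.b 3) (.n (.n (.b 3) (.n (.n (.b
  3) (.l 171 8)) (.n (.n (.b 3) (.l 171 8)) (.b 4)))) (.n (.b 9) (.b 4)))) (.b 4)))) (.b 4)))) (.n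
  (.b 10) (.b 4)))) (.n (.n (.b 3) (.n (.n (.b 3) (.n (.n (.b 3) (.n (.n (.b 3) (.b 8)) (.n (.n
  (.b 3) (.n (.n (.b 3) (.n (.n (.b 3) (.l 171 8)) (.n (.b 10) (.b 4)))) (.n (.n (.b 3) (.n (.n
  (.b 3) (.l 171 8)) (.l 171 8))) (.b 4)))) (.b 4)))) (.n (.n (.b 3) (.n (.b 10) (.n (.n (.b 3)
  (.n (.n (.b 3) (.n (.n (.b 3) (.n (.l 171 8) (.n (.l 171 8) (.b 4)))) (.l 171 8))) (.n (.b 9)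
  (.b 4)))) (.b 4)))) (.b 4)))) (.n (.b 9) (.b 4)))) (.b 4)))) (.b 4)))) (.n (.b 10) (.b 4)))) (.n
  (.n (.b 3) (.n (.n (.b 3) (.n (.n (.b 3) (.n (.n (.b 3) (.b 8)) (.n (.n (.b 3) (.n (.n (.b 3)
  (.n (.n (.b 3) (.n (.n (.b 3) (.b 8)) (.n (.n (.b 3) (.n (.n (.b 3) (.n (.n (.b 3) (.n (.l 171
  8) (.l 171 8))) (.n (.b 10) (.b 4)))) (.n (.n (.b 3) (.n (.l 171 8) (.l 171 8))) (.b 4)))) (.b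
  4)))) (.n (.b 10) (.b 4)))) (.n (.n (.b 3) (.n (.b 30) (.n (.b 9) (.b 4)))) (.b 4)))) (.b 4))))
  (.n (.n (.b 3) (.n (.b 10) (.n (.n (.b 3) (.n (.n (.b 3) (.n (.n (.b 3) (.n (.n (.b 3) (.b 8))
  (.n (.n (.b 3) (.n (.n (.b 3) (.n (.l 171 8) (.l 171 8))) (.n (.n (.b 3) (.n (.l 171 8) (.l 171
  8))) (.b 4)))) (.b 4)))) (.n (.n (.b 3) (.n (.b 10) (.n (.n (.b 3) (.n (.n (.b 3) (.l 171 8))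
  (.n (.b 9) (.b 4)))) (.b 4)))) (.b 4)))) (.n (.b 9) (.b 4)))) (.b 4)))) (.b 4)))) (.n (.b 9) (.b
  4)))) (.b 4)))) (.b 4)))) (.n (.n (.b 3) (.n (.b 10) (.n (.n (.b 3) (.n (.n (.b 3) (.n (.n (.b
  3) (.n (.n (.b 3) (.b 8)) (.n (.n (.b 3) (.n (.n (.b 3) (.n (.n (.b 3) (.n (.n (.b 3) (.b 8))
  (.n (.n (.b 3) (.n (.n (.b 3) (.n (.n (.b 3) (.n (.n (.b 3) (.b 8)) (.n (.l 209 8) (.b 4)))) (.n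
  (.b 10) (.b 4)))) (.n (.n (.b 3) (.n (.n (.b 3) (.n (.n (.b 3) (.n (.l 209 8) (.n (.l 209 8) (.b
  4)))) (.l 209 8))) (.n (.b 9) (.b 4)))) (.b 4)))) (.b 4)))) (.n (.b 10) (.b 4)))) (.n (.n (.b 3)
  (.n (.n (.b 3) (.n (.n (.b 3) (.n (.n (.b 3) (.b 8)) (.n (.n (.b 3) (.n (.n (.b 3) (.n (.l 105
  99) (.n (.b 10) (.b 4)))) (.n (.n (.b 3) (.l 105 99)) (.b 4)))) (.b 4)))) (.n (.n (.b 3) (.n (.b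
  10) (.n (.n (.b 3) (.n (.b 36) (.n (.b 9) (.b 4)))) (.b 4)))) (.b 4)))) (.n (.b 9) (.b 4)))) (.b
  4)))) (.b 4)))) (.n (.n (.b 3) (.n (.b 10) (.n (.n (.b 3) (.n (.n (.b 3) (.n (.n (.b 3) (.n (.n
  (.b 3) (.b 8)) (.n (.n (.b 3) (.n (.n (.b 3) (.n (.n (.b 3) (.n (.n (.b 3) (.b 8)) (.l 209 8)))
  (.n (.b 10) (.b 4)))) (.n (.n (.b 3) (.n (.n (.b 3) (.l 209 8)) (.n (.b 9) (.b 4)))) (.b 4))))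
  (.b 4)))) (.n (.n (.b 3) (.n (.b 10) (.n (.n (.b 3) (.n (.n (.b 3) (.n (.n (.b 3) (.n (.l 209 8)
  (.n (.l 209 8) (.b 4)))) (.n (.l 209 8) (.b 4)))) (.n (.b 9) (.b 4)))) (.b 4)))) (.b 4)))) (.n
  (.b 9) (.b 4)))) (.b 4)))) (.b 4)))) (.n (.b 9) (.b 4)))) (.b 4)))) (.b 4)))) (.n (.b 9) (.b
  4)))) (.b 4)))) (.b 4)))) (.n (.n (.b 3) (.n (.b 10) (.n (.n (.b 3) (.n (.n (.b 3) (.n (.n (.b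
  3) (.n (.n (.b 3) (.b 8)) (.n (.n (.b 3) (.n (.n (.b 3) (.n (.n (.b 3) (.n (.n (.b 3) (.b 8))
  (.n (.n (.b 3) (.n (.n (.b 3) (.n (.n (.b 3) (.n (.n (.b 3) (.b 8)) (.n (.n (.b 3) (.n (.n (.b
  3) (.b 21)) (.n (.n (.b 3) (.n (.n (.b 3) (.n (.n (.b 3) (.n (.n (.b 3) (.b 8)) (.n (.n (.b 3)
  (.l 187 8)) (.b 4)))) (.n (.n (.b 3) (.n (.b 10) (.l 187 8))) (.b 4)))) (.n (.b 9) (.b 4)))) (.b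
  4)))) (.b 4)))) (.n (.b 10) (.b 4)))) (.n (.n (.b 3) (.n (.n (.b 3) (.n (.n (.b 3) (.n (.n (.b
  3) (.b 8)) (.n (.n (.b 3) (.n (.n (.b 3) (.n (.n (.b 3) (.n (.n (.b 3) (.b 8)) (.n (.l 121 99)
  (.b 4)))) (.n (.b 10) (.b 4)))) (.n (.n (.b 3) (.n (.n (.b 3) (.n (.l 121 99) (.n (.l 121 99)
  (.b 4)))) (.n (.b 9) (.b 4)))) (.b 4)))) (.b 4)))) (.n (.n (.b 3) (.n (.b 10) (.n (.n (.b 3) (.b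
  33)) (.b 4)))) (.b 4)))) (.n (.b 9) (.b 4)))) (.b 4)))) (.b 4)))) (.n (.b 10) (.b 4)))) (.n (.n
  (.b 3) (.n (.n (.b 3) (.n (.n (.b 3) (.n (.n (.b 3) (.b 8)) (.n (.n (.b 3) (.n (.n (.b 3) (.n
  (.n (.b 3) (.n (.n (.b 3) (.b 8)) (.n (.n (.b 3) (.n (.n (.b 3) (.n (.n (.b 3) (.n (.n (.b 3)
  (.b 8)) (.n (.l 225 8) (.b 4)))) (.n (.b 10) (.b 4)))) (.n (.n (.b 3) (.n (.n (.b 3) (.n (.l 225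
  8) (.l 225 8))) (.n (.b 9) (.b 4)))) (.b 4)))) (.b 4)))) (.n (.b 10) (.b 4)))) (.n (.n (.b 3)
  (.n (.n (.b 3) (.n (.n (.b 3) (.n (.n (.b 3) (.b 8)) (.n (.n (.b 3) (.n (.n (.b 3) (.n (.l 225
  8) (.n (.b 10) (.b 4)))) (.n (.n (.b 3) (.l 225 8)) (.b 4)))) (.b 4)))) (.n (.n (.b 3) (.n (.b
  10) (.n (.n (.b 3) (.n (.n (.b 3) (.l 225 8)) (.n (.b 9) (.b 4)))) (.b 4)))) (.b 4)))) (.n (.b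
  9) (.b 4)))) (.b 4)))) (.b 4)))) (.n (.n (.b 3) (.n (.b 10) (.n (.n (.b 3) (.n (.n (.b 3) (.n
  (.n (.b 3) (.n (.n (.b 3) (.b 8)) (.n (.n (.b 3) (.n (.n (.b 3) (.n (.n (.b 3) (.n (.l 225 8)
  (.l 225 8))) (.n (.b 10) (.b 4)))) (.n (.n (.b 3) (.n (.n (.b 3) (.n (.l 225 8) (.l 225 8))) (.n
  (.b 9) (.b 4)))) (.b 4)))) (.b 4)))) (.n (.n (.b 3) (.n (.b 10) (.n (.n (.b 3) (.n (.n (.b 3)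
  (.n (.n (.b 3) (.l 225 8)) (.n (.n (.b 3) (.n (.b 10) (.l 225 8))) (.b 4)))) (.n (.b 9) (.b
  4)))) (.b 4)))) (.b 4)))) (.n (.b 9) (.b 4)))) (.b 4)))) (.b 4)))) (.n (.b 9) (.b 4)))) (.b
  4)))) (.b 4)))) (.n (.n (.b 3) (.n (.b 10) (.n (.n (.b 3) (.n (.n (.b 3) (.n (.n (.b 3) (.n (.n
  (.b 3) (.b 8)) (.n (.n (.b 3) (.n (.n (.b 3) (.n (.n (.b 3) (.n (.n (.b 3) (.b 8)) (.n (.n (.b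
  3) (.n (.n (.b 3) (.n (.n (.b 3) (.n (.n (.b 3) (.b 8)) (.n (.n (.b 3) (.n (.n (.b 3) (.b 21))
  (.l 241 8))) (.b 4)))) (.n (.b 10) (.b 4)))) (.n (.n (.b 3) (.n (.n (.b 3) (.n (.n (.b 3) (.n
  (.n (.b 3) (.b 8)) (.l 241 8))) (.b 33))) (.n (.b 9) (.b 4)))) (.b 4)))) (.b 4)))) (.n (.b 10)
  (.b 4)))) (.n (.n (.b 3) (.n (.n (.b 3) (.n (.n (.b 3) (.n (.n (.b 3) (.b 8)) (.n (.n (.b 3) (.n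
  (.n (.b 3) (.n (.n (.b 3) (.n (.l 241 8) (.n (.l 241 8) (.b 4)))) (.n (.b 10) (.b 4)))) (.n (.n
  (.b 3) (.n (.n (.b 3) (.l 241 8)) (.n (.b 9) (.b 4)))) (.b 4)))) (.b 4)))) (.n (.n (.b 3) (.n
  (.b 10) (.n (.n (.b 3) (.n (.n (.b 3) (.n (.n (.b 3) (.n (.l 241 8) (.l 241 8))) (.n (.l 241 8)
  (.b 4)))) (.n (.b 9) (.b 4)))) (.b 4)))) (.b 4)))) (.n (.b 9) (.b 4)))) (.b 4)))) (.b 4)))) (.n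
  (.n (.b 3) (.n (.b 10) (.n (.n (.b 3) (.n (.n (.b 3) (.n (.n (.b 3) (.n (.n (.b 3) (.b 8)) (.n
  (.n (.b 3) (.n (.n (.b 3) (.n (.n (.b 3) (.n (.n (.b 3) (.b 8)) (.n (.n (.b 3) (.l 286 99)) (.b
  4)))) (.n (.b 10) (.b 4)))) (.n (.n (.b 3) (.n (.n (.b 3) (.n (.n (.b 3) (.n (.n (.b 3) (.b 8))
  (.l 286 99))) (.n (.l 286 99) (.b 4)))) (.n (.b 9) (.b 4)))) (.b 4)))) (.b 4)))) (.n (.n (.b 3)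
  (.n (.b 10) (.n (.b 32) (.b 4)))) (.b 4)))) (.n (.b 9) (.b 4)))) (.b 4)))) (.b 4)))) (.n (.b 9)
  (.b 4)))) (.b 4)))) (.b 4)))) (.n (.b 9) (.b 4)))) (.b 4)))) (.b 4)))) (.n (.b 9) (.b 4)))) (.b
  4)))) (.b 4))

/-- A subtree of the table. -/
def s39 : T :=
  (.b 3)

/-- A subtree of the table. -/
def s40 : T :=
  (.b 3)

/-- A subtree of the table. -/
def s41 : T :=
  (.n (.b 3) (.n (.n (.b 3) (.b 8)) (.n (.n (.b 3) (.n (.n (.b 3) (.n (.n (.b 3) (.n (.n (.b 3)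
  (.b 8)) (.n (.n (.b 3) (.n (.n (.b 3) (.n (.n (.b 3) (.n (.n (.b 3) (.b 8)) (.n (.n (.b 3) (.n
  (.n (.b 3) (.b 21)) (.n (.n (.b 3) (.n (.n (.b 3) (.n (.n (.b 3) (.n (.n (.b 3) (.b 8)) (.n (.n
  (.b 3) (.n (.n (.b 3) (.n (.n (.b 3) (.n (.n (.b 3) (.b 8)) (.n (.n (.b 3) (.n (.n (.b 3) (.n
  (.n (.b 3) (.n (.n (.b 3) (.b 8)) (.n (.n (.b 3) (.n (.l 200 5) (.n (.n (.b 3) (.n (.l 200 5)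
  (.n (.b 9) (.b 4)))) (.b 4)))) (.b 4)))) (.n (.b 10) (.b 4)))) (.n (.n (.b 3) (.n (.n (.b 3) (.n
  (.l 200 5) (.n (.l 200 5) (.b 4)))) (.n (.b 9) (.b 4)))) (.b 4)))) (.b 4)))) (.n (.b 10) (.b
  4)))) (.n (.n (.b 3) (.n (.n (.b 3) (.n (.n (.b 3) (.n (.n (.b 3) (.b 8)) (.n (.n (.b 3) (.n (.n
  (.b 3) (.l 200 5)) (.n (.n (.b 3) (.l 200 5)) (.b 4)))) (.b 4)))) (.n (.n (.b 3) (.n (.b 10) (.n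
  (.n (.b 3) (.n (.n (.b 3) (.l 200 5)) (.n (.b 9) (.b 4)))) (.b 4)))) (.b 4)))) (.n (.b 9) (.b
  4)))) (.b 4)))) (.b 4)))) (.n (.n (.b 3) (.n (.b 10) (.n (.n (.b 3) (.n (.n (.b 3) (.n (.n (.b
  3) (.n (.n (.b 3) (.b 8)) (.n (.n (.b 3) (.n (.n (.b 3) (.n (.n (.b 3) (.n (.l 200 5) (.n (.l
  200 5) (.b 4)))) (.n (.b 10) (.b 4)))) (.n (.n (.b 3) (.n (.n (.b 3) (.n (.l 200 5) (.n (.l 200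
  5) (.b 4)))) (.n (.b 9) (.b 4)))) (.b 4)))) (.b 4)))) (.n (.n (.b 3) (.n (.b 10) (.n (.n (.b 3)
  (.n (.n (.b 3) (.n (.n (.b 3) (.l 200 5)) (.n (.n (.b 3) (.l 200 5)) (.b 4)))) (.n (.b 9) (.b
  4)))) (.b 4)))) (.b 4)))) (.n (.b 9) (.b 4)))) (.b 4)))) (.b 4)))) (.n (.b 9) (.b 4)))) (.b
  4)))) (.b 4)))) (.n (.b 10) (.b 4)))) (.n (.n (.b 3) (.n (.n (.b 3) (.n (.n (.b 3) (.n (.n (.b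
  3) (.b 8)) (.n (.n (.b 3) (.n (.n (.b 3) (.n (.n (.b 3) (.n (.n (.b 3) (.b 8)) (.n (.n (.b 3)
  (.n (.n (.b 3) (.n (.n (.b 3) (.n (.n (.b 3) (.b 8)) (.n (.n (.b 3) (.n (.n (.b 3) (.b 21)) (.n
  (.n (.b 3) (.n (.n (.b 3) (.l 134 5)) (.n (.b 9) (.b 4)))) (.b 4)))) (.b 4)))) (.n (.b 10) (.b
  4)))) (.n (.n (.b 3) (.n (.n (.b 3) (.n (.n (.b 3) (.n (.n (.b 3) (.b 8)) (.b 34))) (.n (.n (.b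
  3) (.n (.b 10) (.n (.n (.b 3) (.n (.n (.b 3) (.l 30 99)) (.n (.b 9) (.b 4)))) (.b 4)))) (.b
  4)))) (.n (.b 9) (.b 4)))) (.b 4)))) (.b 4)))) (.n (.b 10) (.b 4)))) (.n (.n (.b 3) (.n (.n (.b
  3) (.n (.n (.b 3) (.n (.n (.b 3) (.b 8)) (.n (.n (.b 3) (.n (.n (.b 3) (.n (.n (.b 3) (.n (.n
  (.b 3) (.b 8)) (.n (.n (.b 3) (.n (.n (.b 3) (.n (.n (.b 3) (.n (.n (.b 3) (.b 8)) (.l 134 5)))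
  (.l 134 5))) (.n (.n (.b 3) (.n (.l 134 5) (.n (.b 9) (.b 4)))) (.b 4)))) (.b 4)))) (.n (.b 10)
  (.b 4)))) (.n (.n (.b 3) (.n (.n (.b 3) (.n (.n (.b 3) (.n (.n (.b 3) (.b 8)) (.n (.b 30) (.b
  4)))) (.n (.n (.b 3) (.n (.b 10) (.l 134 5))) (.b 4)))) (.n (.b 9) (.b 4)))) (.b 4)))) (.b 4))))
  (.n (.n (.b 3) (.n (.b 10) (.n (.n (.b 3) (.n (.n (.b 3) (.n (.n (.b 3) (.n (.n (.b 3) (.b 8))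
  (.n (.n (.b 3) (.n (.l 134 5) (.n (.n (.b 3) (.n (.l 134 5) (.n (.b 9) (.b 4)))) (.b 4)))) (.b
  4)))) (.n (.n (.b 3) (.n (.b 10) (.n (.n (.b 3) (.n (.l 134 5) (.n (.b 9) (.b 4)))) (.b 4))))
  (.b 4)))) (.n (.b 9) (.b 4)))) (.b 4)))) (.b 4)))) (.n (.b 9) (.b 4)))) (.b 4)))) (.b 4)))) (.n
  (.n (.b 3) (.n (.b 10) (.n (.n (.b 3) (.n (.n (.b 3) (.n (.n (.b 3) (.n (.n (.b 3) (.b 8)) (.n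
  (.n (.b 3) (.n (.n (.b 3) (.n (.n (.b 3) (.n (.n (.b 3) (.b 8)) (.n (.n (.b 3) (.n (.n (.b 3)
  (.n (.n (.b 3) (.n (.l 232 5) (.n (.n (.b 3) (.n (.n (.b 3) (.b 21)) (.l 232 5))) (.b 4)))) (.n
  (.b 10) (.b 4)))) (.n (.n (.b 3) (.n (.n (.b 3) (.l 232 5)) (.n (.b 9) (.b 4)))) (.b 4)))) (.b
  4)))) (.n (.b 10) (.b 4)))) (.n (.n (.b 3) (.n (.n (.b 3) (.n (.n (.b 3) (.n (.n (.b 3) (.b 8))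
  (.n (.n (.b 3) (.n (.n (.b 3) (.l 232 5)) (.n (.l 232 5) (.b 4)))) (.b 4)))) (.n (.n (.b 3) (.n
  (.b 10) (.n (.n (.b 3) (.n (.n (.b 3) (.n (.l 232 5) (.n (.l 232 5) (.b 4)))) (.l 232 5))) (.b
  4)))) (.b 4)))) (.n (.b 9) (.b 4)))) (.b 4)))) (.b 4)))) (.n (.n (.b 3) (.n (.b 10) (.n (.n (.b
  3) (.n (.n (.b 3) (.n (.n (.b 3) (.n (.n (.b 3) (.b 8)) (.b 33))) (.n (.n (.b 3) (.n (.b 10) (.n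
  (.n (.b 3) (.n (.n (.b 3) (.n (.l 231 99) (.n (.l 231 99) (.b 4)))) (.n (.b 9) (.b 4)))) (.b
  4)))) (.b 4)))) (.n (.b 9) (.b 4)))) (.b 4)))) (.b 4)))) (.n (.b 9) (.b 4)))) (.b 4)))) (.b
  4)))) (.n (.b 9) (.b 4)))) (.b 4)))) (.b 4)))) (.n (.b 10) (.b 4)))) (.n (.n (.b 3) (.n (.n (.b
  3) (.n (.n (.b 3) (.n (.n (.b 3) (.b 8)) (.n (.n (.b 3) (.n (.n (.b 3) (.n (.n (.b 3) (.n (.n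
  (.b 3) (.b 8)) (.n (.n (.b 3) (.n (.n (.b 3) (.n (.n (.b 3) (.n (.n (.b 3) (.b 8)) (.n (.n (.b
  3) (.n (.n (.b 3) (.b 21)) (.n (.n (.b 3) (.n (.n (.b 3) (.n (.n (.b 3) (.n (.n (.b 3) (.b 8))
  (.n (.n (.b 3) (.n (.n (.b 3) (.n (.n (.b 3) (.n (.n (.b 3) (.b 8)) (.l 200 5))) (.l 200 5)))
  (.n (.n (.b 3) (.n (.l 200 5) (.n (.b 9) (.b 4)))) (.b 4)))) (.b 4)))) (.n (.n (.b 3) (.n (.b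
  10) (.n (.n (.b 3) (.n (.n (.b 3) (.n (.n (.b 3) (.n (.n (.b 3) (.b 8)) (.l 200 5))) (.l 200
  5))) (.l 200 5))) (.b 4)))) (.b 4)))) (.n (.b 9) (.b 4)))) (.b 4)))) (.b 4)))) (.n (.b 10) (.b
  4)))) (.n (.n (.b 3) (.n (.n (.b 3) (.n (.n (.b 3) (.n (.n (.b 3) (.b 8)) (.n (.n (.b 3) (.n (.n
  (.b 3) (.n (.n (.b 3) (.n (.n (.b 3) (.b 8)) (.n (.n (.b 3) (.n (.n (.b 3) (.n (.l 200 5) (.n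
  (.b 10) (.b 4)))) (.b 34))) (.b 4)))) (.n (.b 10) (.b 4)))) (.n (.n (.b 3) (.n (.n (.b 3) (.n
  (.n (.b 3) (.n (.n (.b 3) (.b 8)) (.n (.n (.b 3) (.l 200 5)) (.b 4)))) (.n (.n (.b 3) (.n (.b
  10) (.n (.l 200 5) (.b 4)))) (.b 4)))) (.n (.b 9) (.b 4)))) (.b 4)))) (.b 4)))) (.n (.n (.b 3)
  (.n (.b 10) (.n (.n (.b 3) (.n (.n (.b 3) (.n (.n (.b 3) (.n (.n (.b 3) (.b 8)) (.n (.n (.b 3)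
  (.n (.n (.b 3) (.n (.n (.b 3) (.l 200 5)) (.l 200 5))) (.l 200 5))) (.b 4)))) (.n (.n (.b 3) (.n
  (.b 10) (.n (.n (.b 3) (.n (.n (.b 3) (.l 200 5)) (.l 200 5))) (.b 4)))) (.b 4)))) (.n (.b 9)
  (.b 4)))) (.b 4)))) (.b 4)))) (.n (.b 9) (.b 4)))) (.b 4)))) (.b 4)))) (.n (.b 10) (.b 4)))) (.n
  (.n (.b 3) (.n (.n (.b 3) (.n (.n (.b 3) (.n (.n (.b 3) (.b 8)) (.n (.n (.b 3) (.n (.n (.b 3)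
  (.n (.n (.b 3) (.n (.n (.b 3) (.b 8)) (.n (.n (.b 3) (.n (.n (.b 3) (.n (.n (.b 3) (.n (.n (.b
  3) (.b 8)) (.n (.n (.b 3) (.n (.n (.b 3) (.b 21)) (.n (.n (.b 3) (.l 200 13)) (.b 4)))) (.b
  4)))) (.n (.b 10) (.b 4)))) (.n (.n (.b 3) (.n (.n (.b 3) (.n (.n (.b 3) (.n (.n (.b 3) (.b 8))
  (.n (.n (.b 3) (.n (.n (.b 3) (.l 200 13)) (.l 200 13))) (.b 4)))) (.n (.n (.b 3) (.n (.b 10)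
  (.n (.n (.b 3) (.l 200 13)) (.b 4)))) (.b 4)))) (.n (.b 9) (.b 4)))) (.b 4)))) (.b 4)))) (.n (.b
  10) (.b 4)))) (.n (.n (.b 3) (.n (.n (.b 3) (.n (.b 30) (.n (.n (.b 3) (.n (.b 10) (.n (.n (.b
  3) (.n (.n (.b 3) (.n (.n (.b 3) (.n (.l 331 99) (.n (.l 331 99) (.b 4)))) (.n (.n (.b 3) (.l
  331 99)) (.b 4)))) (.n (.b 9) (.b 4)))) (.b 4)))) (.b 4)))) (.n (.b 9) (.b 4)))) (.b 4)))) (.b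
  4)))) (.n (.n (.b 3) (.n (.b 10) (.n (.n (.b 3) (.n (.n (.b 3) (.n (.n (.b 3) (.n (.n (.b 3) (.b
  8)) (.n (.n (.b 3) (.n (.n (.b 3) (.n (.n (.b 3) (.n (.n (.b 3) (.b 8)) (.n (.n (.b 3) (.n (.n
  (.b 3) (.n (.l 200 5) (.n (.b 10) (.b 4)))) (.n (.n (.b 3) (.l 200 5)) (.b 4)))) (.b 4)))) (.n
  (.b 10) (.b 4)))) (.n (.n (.b 3) (.n (.n (.b 3) (.n (.n (.b 3) (.n (.n (.b 3) (.b 8)) (.n (.l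
  200 5) (.b 4)))) (.n (.n (.b 3) (.n (.b 10) (.l 200 5))) (.b 4)))) (.n (.b 9) (.b 4)))) (.b
  4)))) (.b 4)))) (.n (.n (.b 3) (.n (.b 10) (.n (.n (.b 3) (.n (.n (.b 3) (.n (.n (.b 3) (.n (.n
  (.b 3) (.b 8)) (.n (.n (.b 3) (.n (.n (.b 3) (.l 200 5)) (.l 200 5))) (.b 4)))) (.n (.n (.b 3)
  (.n (.b 10) (.n (.n (.b 3) (.l 200 5)) (.b 4)))) (.b 4)))) (.n (.b 9) (.b 4)))) (.b 4)))) (.b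
  4)))) (.n (.b 9) (.b 4)))) (.b 4)))) (.b 4)))) (.n (.b 9) (.b 4)))) (.b 4)))) (.b 4)))) (.n (.n
  (.b 3) (.n (.b 10) (.n (.n (.b 3) (.n (.n (.b 3) (.n (.n (.b 3) (.n (.n (.b 3) (.b 8)) (.n (.n
  (.b 3) (.n (.n (.b 3) (.n (.n (.b 3) (.n (.n (.b 3) (.b 8)) (.n (.n (.b 3) (.n (.n (.b 3) (.n
  (.n (.b 3) (.n (.n (.b 3) (.b 8)) (.n (.n (.b 3) (.n (.n (.b 3) (.b 21)) (.n (.n (.b 3) (.n (.n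
  (.b 3) (.l 238 5)) (.n (.b 9) (.b 4)))) (.b 4)))) (.b 4)))) (.n (.b 10) (.b 4)))) (.n (.n (.b 3)
  (.n (.n (.b 3) (.n (.n (.b 3) (.n (.n (.b 3) (.b 8)) (.n (.n (.b 3) (.n (.n (.b 3) (.n (.n (.b
  3) (.l 238 5)) (.l 238 5))) (.l 238 5))) (.b 4)))) (.n (.n (.b 3) (.n (.b 10) (.n (.n (.b 3) (.n
  (.n (.b 3) (.l 238 5)) (.l 238 5))) (.b 4)))) (.b 4)))) (.n (.b 9) (.b 4)))) (.b 4)))) (.b 4))))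
  (.n (.b 10) (.b 4)))) (.n (.n (.b 3) (.n (.n (.b 3) (.n (.n (.b 3) (.n (.n (.b 3) (.b 8)) (.n
  (.n (.b 3) (.n (.n (.b 3) (.n (.n (.b 3) (.n (.n (.b 3) (.b 8)) (.n (.n (.b 3) (.n (.l 134 5)
  (.n (.n (.b 3) (.n (.l 134 5) (.n (.b 9) (.b 4)))) (.b 4)))) (.b 4)))) (.n (.b 10) (.b 4)))) (.n
  (.n (.b 3) (.n (.n (.b 3) (.n (.n (.b 3) (.n (.n (.b 3) (.b 8)) (.n (.l 134 5) (.b 4)))) (.n (.n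
  (.b 3) (.l 134 5)) (.b 4)))) (.n (.b 9) (.b 4)))) (.b 4)))) (.b 4)))) (.n (.n (.b 3) (.n (.b 10)
  (.n (.n (.b 3) (.n (.n (.b 3) (.n (.n (.b 3) (.n (.n (.b 3) (.b 8)) (.n (.b 36) (.b 4)))) (.n
  (.n (.b 3) (.n (.b 10) (.n (.n (.b 3) (.n (.l 258 99) (.n (.b 9) (.b 4)))) (.b 4)))) (.b 4))))
  (.n (.b 9) (.b 4)))) (.b 4)))) (.b 4)))) (.n (.b 9) (.b 4)))) (.b 4)))) (.b 4)))) (.n (.n (.b 3)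
  (.n (.b 10) (.n (.n (.b 3) (.n (.n (.b 3) (.n (.n (.b 3) (.n (.n (.b 3) (.b 8)) (.n (.n (.b 3)
  (.n (.n (.b 3) (.n (.n (.b 3) (.n (.n (.b 3) (.b 8)) (.n (.n (.b 3) (.n (.n (.b 3) (.n (.n (.b
  3) (.l 238 5)) (.n (.b 10) (.b 4)))) (.b 33))) (.b 4)))) (.n (.b 10) (.b 4)))) (.n (.n (.b 3)
  (.n (.n (.b 3) (.n (.n (.b 3) (.n (.n (.b 3) (.b 8)) (.n (.n (.b 3) (.n (.l 238 5) (.l 238 5)))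
  (.b 4)))) (.n (.n (.b 3) (.n (.b 10) (.n (.n (.b 3) (.l 238 5)) (.b 4)))) (.b 4)))) (.n (.b 9)
  (.b 4)))) (.b 4)))) (.b 4)))) (.n (.n (.b 3) (.n (.b 10) (.n (.n (.b 3) (.n (.n (.b 3) (.n (.n
  (.b 3) (.n (.n (.b 3) (.b 8)) (.n (.n (.b 3) (.n (.n (.b 3) (.n (.n (.b 3) (.l 238 5)) (.l 238
  5))) (.n (.n (.b 3) (.l 238 5)) (.b 4)))) (.b 4)))) (.n (.n (.b 3) (.n (.b 10) (.n (.n (.b 3)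
  (.n (.n (.b 3) (.b 32)) (.n (.b 9) (.b 4)))) (.b 4)))) (.b 4)))) (.n (.b 9) (.b 4)))) (.b 4))))
  (.b 4)))) (.n (.b 9) (.b 4)))) (.b 4)))) (.b 4)))) (.n (.b 9) (.b 4)))) (.b 4)))) (.b 4)))) (.n
  (.b 9) (.b 4)))) (.b 4)))) (.b 4))))

/-- A subtree of the table. -/
def s42 : T :=
  (.n (.n (.b 3) (.n (.b 10) (.n (.n (.b 3) (.n (.n (.b 3) (.n (.n (.b 3) (.n (.n (.b 3) (.b 8))
  (.n (.n (.b 3) (.n (.n (.b 3) (.n (.n (.b 3) (.n (.n (.b 3) (.b 8)) (.n (.n (.b 3) (.n (.n (.b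
  3) (.n (.n (.b 3) (.n (.n (.b 3) (.b 8)) (.n (.n (.b 3) (.n (.n (.b 3) (.b 21)) (.n (.n (.b 3)
  (.n (.n (.b 3) (.n (.n (.b 3) (.n (.n (.b 3) (.b 8)) (.n (.n (.b 3) (.n (.n (.b 3) (.n (.n (.b
  3) (.n (.n (.b 3) (.b 8)) (.l 216 5))) (.n (.b 10) (.b 4)))) (.n (.n (.b 3) (.n (.n (.b 3) (.n
  (.n (.b 3) (.n (.n (.b 3) (.b 8)) (.l 216 5))) (.l 216 5))) (.l 216 5))) (.b 4)))) (.b 4)))) (.n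
  (.n (.b 3) (.n (.b 10) (.n (.n (.b 3) (.n (.n (.b 3) (.n (.n (.b 3) (.l 216 5)) (.n (.l 216 5)
  (.b 4)))) (.n (.b 9) (.b 4)))) (.b 4)))) (.b 4)))) (.n (.b 9) (.b 4)))) (.b 4)))) (.b 4)))) (.n
  (.b 10) (.b 4)))) (.n (.n (.b 3) (.n (.n (.b 3) (.n (.n (.b 3) (.n (.n (.b 3) (.b 8)) (.n (.n
  (.b 3) (.n (.n (.b 3) (.n (.n (.b 3) (.n (.n (.b 3) (.b 8)) (.n (.n (.b 3) (.n (.n (.b 3) (.n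
  (.n (.b 3) (.n (.l 150 5) (.n (.n (.b 3) (.n (.n (.b 3) (.b 21)) (.l 150 5))) (.b 4)))) (.n (.b
  10) (.b 4)))) (.n (.n (.b 3) (.n (.n (.b 3) (.l 150 5)) (.n (.b 9) (.b 4)))) (.b 4)))) (.b 4))))
  (.n (.b 10) (.b 4)))) (.n (.n (.b 3) (.n (.n (.b 3) (.n (.n (.b 3) (.n (.n (.b 3) (.b 8)) (.n
  (.n (.b 3) (.n (.n (.b 3) (.l 150 5)) (.n (.l 150 5) (.b 4)))) (.b 4)))) (.n (.n (.b 3) (.n (.b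
  10) (.n (.n (.b 3) (.n (.n (.b 3) (.n (.l 150 5) (.n (.l 150 5) (.b 4)))) (.l 150 5))) (.b 4))))
  (.b 4)))) (.n (.b 9) (.b 4)))) (.b 4)))) (.b 4)))) (.n (.n (.b 3) (.n (.b 10) (.n (.n (.b 3) (.n
  (.n (.b 3) (.n (.n (.b 3) (.n (.n (.b 3) (.b 8)) (.n (.n (.b 3) (.n (.n (.b 3) (.n (.n (.b 3)
  (.l 286 99)) (.n (.b 10) (.b 4)))) (.n (.n (.b 3) (.n (.n (.b 3) (.l 286 99)) (.l 286 99))) (.b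
  4)))) (.b 4)))) (.n (.n (.b 3) (.b 33)) (.b 4)))) (.n (.b 9) (.b 4)))) (.b 4)))) (.b 4)))) (.n
  (.b 9) (.b 4)))) (.b 4)))) (.b 4)))) (.n (.b 10) (.b 4)))) (.n (.n (.b 3) (.n (.n (.b 3) (.n (.n
  (.b 3) (.n (.n (.b 3) (.b 8)) (.n (.n (.b 3) (.n (.n (.b 3) (.n (.n (.b 3) (.n (.n (.b 3) (.b
  8)) (.n (.n (.b 3) (.n (.n (.b 3) (.n (.n (.b 3) (.n (.n (.b 3) (.b 8)) (.n (.n (.b 3) (.n (.n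
  (.b 3) (.b 21)) (.n (.n (.b 3) (.n (.n (.b 3) (.l 216 5)) (.n (.b 9) (.b 4)))) (.b 4)))) (.b
  4)))) (.n (.b 10) (.b 4)))) (.n (.n (.b 3) (.n (.n (.b 3) (.n (.n (.b 3) (.n (.n (.b 3) (.b 8))
  (.n (.n (.b 3) (.n (.n (.b 3) (.l 216 5)) (.n (.n (.b 3) (.l 216 5)) (.b 4)))) (.b 4)))) (.n (.n
  (.b 3) (.n (.b 10) (.n (.n (.b 3) (.n (.l 216 5) (.n (.b 9) (.b 4)))) (.b 4)))) (.b 4)))) (.n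
  (.b 9) (.b 4)))) (.b 4)))) (.b 4)))) (.n (.b 10) (.b 4)))) (.n (.n (.b 3) (.n (.n (.b 3) (.n (.n
  (.b 3) (.n (.n (.b 3) (.b 8)) (.n (.n (.b 3) (.n (.n (.b 3) (.n (.n (.b 3) (.n (.n (.b 3) (.b
  8)) (.n (.n (.b 3) (.n (.n (.b 3) (.n (.l 216 5) (.n (.b 10) (.b 4)))) (.n (.l 216 5) (.b 4))))
  (.b 4)))) (.n (.b 10) (.b 4)))) (.n (.n (.b 3) (.n (.b 30) (.n (.b 9) (.b 4)))) (.b 4)))) (.b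
  4)))) (.n (.n (.b 3) (.n (.b 10) (.n (.n (.b 3) (.n (.n (.b 3) (.n (.n (.b 3) (.n (.n (.b 3) (.b
  8)) (.n (.n (.b 3) (.n (.l 216 5) (.n (.l 216 5) (.b 4)))) (.b 4)))) (.n (.n (.b 3) (.n (.b 10)
  (.n (.n (.b 3) (.l 216 5)) (.b 4)))) (.b 4)))) (.n (.b 9) (.b 4)))) (.b 4)))) (.b 4)))) (.n (.b
  9) (.b 4)))) (.b 4)))) (.b 4)))) (.n (.n (.b 3) (.n (.b 10) (.n (.n (.b 3) (.n (.n (.b 3) (.n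
  (.n (.b 3) (.n (.n (.b 3) (.b 8)) (.n (.n (.b 3) (.n (.n (.b 3) (.n (.n (.b 3) (.n (.n (.b 3)
  (.b 8)) (.n (.n (.b 3) (.n (.n (.b 3) (.n (.l 254 5) (.n (.b 10) (.b 4)))) (.n (.n (.b 3) (.n
  (.l 254 5) (.n (.b 9) (.b 4)))) (.b 4)))) (.b 4)))) (.n (.b 10) (.b 4)))) (.n (.n (.b 3) (.n (.n
  (.b 3) (.n (.n (.b 3) (.n (.n (.b 3) (.b 8)) (.n (.n (.b 3) (.n (.n (.b 3) (.n (.l 150 99) (.n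
  (.b 10) (.b 4)))) (.l 150 99))) (.b 4)))) (.n (.n (.b 3) (.n (.b 10) (.b 36))) (.b 4)))) (.n (.b
  9) (.b 4)))) (.b 4)))) (.b 4)))) (.n (.n (.b 3) (.n (.b 10) (.n (.n (.b 3) (.n (.n (.b 3) (.n
  (.n (.b 3) (.n (.n (.b 3) (.b 8)) (.n (.n (.b 3) (.n (.n (.b 3) (.n (.l 254 5) (.n (.b 10) (.b
  4)))) (.n (.n (.b 3) (.l 254 5)) (.b 4)))) (.b 4)))) (.n (.n (.b 3) (.n (.b 10) (.n (.n (.b 3)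
  (.n (.l 254 5) (.n (.b 9) (.b 4)))) (.b 4)))) (.b 4)))) (.n (.b 9) (.b 4)))) (.b 4)))) (.b 4))))
  (.n (.b 9) (.b 4)))) (.b 4)))) (.b 4)))) (.n (.b 9) (.b 4)))) (.b 4)))) (.b 4)))) (.n (.n (.b 3)
  (.n (.b 10) (.n (.n (.b 3) (.n (.n (.b 3) (.n (.n (.b 3) (.n (.n (.b 3) (.b 8)) (.n (.n (.b 3)
  (.n (.n (.b 3) (.n (.n (.b 3) (.n (.n (.b 3) (.b 8)) (.n (.n (.b 3) (.n (.n (.b 3) (.n (.n (.b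
  3) (.n (.n (.b 3) (.b 8)) (.n (.n (.b 3) (.n (.n (.b 3) (.b 21)) (.n (.n (.b 3) (.n (.n (.b 3)
  (.n (.n (.b 3) (.l 232 5)) (.n (.l 232 5) (.b 4)))) (.n (.b 9) (.b 4)))) (.b 4)))) (.b 4)))) (.n
  (.b 10) (.b 4)))) (.n (.n (.b 3) (.n (.n (.b 3) (.n (.n (.b 3) (.n (.n (.b 3) (.b 8)) (.n (.n
  (.b 3) (.n (.n (.b 3) (.n (.n (.b 3) (.l 166 99)) (.n (.b 10) (.b 4)))) (.n (.n (.b 3) (.n (.n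
  (.b 3) (.l 166 99)) (.l 166 99))) (.b 4)))) (.b 4)))) (.n (.n (.b 3) (.b 33)) (.b 4)))) (.n (.b
  9) (.b 4)))) (.b 4)))) (.b 4)))) (.n (.b 10) (.b 4)))) (.n (.n (.b 3) (.n (.n (.b 3) (.n (.n (.b
  3) (.n (.n (.b 3) (.b 8)) (.n (.n (.b 3) (.n (.n (.b 3) (.n (.n (.b 3) (.n (.n (.b 3) (.b 8))
  (.n (.n (.b 3) (.n (.n (.b 3) (.n (.n (.b 3) (.n (.n (.b 3) (.b 8)) (.l 270 5))) (.l 270 5)))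
  (.n (.n (.b 3) (.n (.l 270 5) (.n (.b 9) (.b 4)))) (.b 4)))) (.b 4)))) (.n (.b 10) (.b 4)))) (.n
  (.n (.b 3) (.n (.n (.b 3) (.n (.n (.b 3) (.n (.n (.b 3) (.b 8)) (.n (.n (.b 3) (.l 270 5)) (.b
  4)))) (.n (.n (.b 3) (.n (.b 10) (.n (.l 270 5) (.b 4)))) (.b 4)))) (.n (.b 9) (.b 4)))) (.b
  4)))) (.b 4)))) (.n (.n (.b 3) (.n (.b 10) (.n (.n (.b 3) (.n (.n (.b 3) (.n (.n (.b 3) (.n (.n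
  (.b 3) (.b 8)) (.n (.n (.b 3) (.n (.n (.b 3) (.n (.l 270 5) (.n (.b 10) (.b 4)))) (.n (.n (.b 3)
  (.n (.l 270 5) (.n (.b 9) (.b 4)))) (.b 4)))) (.b 4)))) (.n (.n (.b 3) (.n (.b 10) (.n (.n (.b
  3) (.n (.n (.b 3) (.n (.l 270 5) (.n (.n (.b 3) (.n (.b 10) (.l 270 5))) (.b 4)))) (.n (.b 9)
  (.b 4)))) (.b 4)))) (.b 4)))) (.n (.b 9) (.b 4)))) (.b 4)))) (.b 4)))) (.n (.b 9) (.b 4)))) (.b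
  4)))) (.b 4)))) (.n (.n (.b 3) (.n (.b 10) (.n (.n (.b 3) (.n (.n (.b 3) (.n (.n (.b 3) (.n (.n
  (.b 3) (.b 8)) (.n (.n (.b 3) (.n (.n (.b 3) (.n (.n (.b 3) (.n (.n (.b 3) (.b 8)) (.n (.n (.b
  3) (.n (.n (.b 3) (.n (.n (.b 3) (.n (.n (.b 3) (.b 8)) (.n (.n (.b 3) (.n (.n (.b 3) (.b 21))
  (.l 286 5))) (.b 4)))) (.n (.b 10) (.b 4)))) (.n (.n (.b 3) (.n (.n (.b 3) (.n (.l 286 5) (.b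
  33))) (.n (.b 9) (.b 4)))) (.b 4)))) (.b 4)))) (.n (.b 10) (.b 4)))) (.n (.n (.b 3) (.n (.n (.b
  3) (.n (.n (.b 3) (.n (.n (.b 3) (.b 8)) (.n (.n (.b 3) (.n (.n (.b 3) (.n (.n (.b 3) (.n (.l
  286 5) (.n (.l 286 5) (.b 4)))) (.l 286 5))) (.n (.l 286 5) (.b 4)))) (.b 4)))) (.n (.n (.b 3)
  (.n (.b 10) (.n (.n (.b 3) (.n (.n (.b 3) (.n (.l 286 5) (.n (.l 286 5) (.b 4)))) (.l 286 5)))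
  (.b 4)))) (.b 4)))) (.n (.b 9) (.b 4)))) (.b 4)))) (.b 4)))) (.n (.n (.b 3) (.n (.b 10) (.n (.n
  (.b 3) (.n (.n (.b 3) (.n (.n (.b 3) (.n (.n (.b 3) (.b 8)) (.n (.n (.b 3) (.n (.n (.b 3) (.n
  (.n (.b 3) (.n (.l 331 99) (.n (.l 331 99) (.b 4)))) (.n (.b 10) (.b 4)))) (.n (.n (.b 3) (.n
  (.n (.b 3) (.l 331 99)) (.n (.b 9) (.b 4)))) (.b 4)))) (.b 4)))) (.n (.b 32) (.b 4)))) (.n (.b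
  9) (.b 4)))) (.b 4)))) (.b 4)))) (.n (.b 9) (.b 4)))) (.b 4)))) (.b 4)))) (.n (.b 9) (.b 4))))
  (.b 4)))) (.b 4)))) (.n (.b 9) (.b 4)))) (.b 4)))) (.b 4))

/-- A subtree of the table. -/
def s43 : T :=
  (.n (.b 9) (.b 4))

/-- A subtree of the table. -/
def s44 : T :=
  (.b 4)

/-- A subtree of the table. -/
def s45 : T :=
  (.b 4)

/-- A subtree of the table. -/
def s46 : T :=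
  (.b 3)

/-- A subtree of the table. -/
def s47 : T :=
  (.b 3)

/-- A subtree of the table. -/
def s48 : T :=
  (.n (.b 3) (.n (.n (.b 3) (.b 8)) (.n (.n (.b 3) (.n (.n (.b 3) (.n (.n (.b 3) (.n (.n (.b 3)
  (.b 8)) (.n (.n (.b 3) (.n (.n (.b 3) (.n (.n (.b 3) (.n (.n (.b 3) (.b 8)) (.n (.n (.b 3) (.n
  (.n (.b 3) (.n (.n (.b 3) (.b 21)) (.n (.b 10) (.b 4)))) (.n (.n (.b 3) (.n (.n (.b 3) (.n (.n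
  (.b 3) (.n (.n (.b 3) (.b 8)) (.n (.n (.b 3) (.n (.n (.b 3) (.n (.n (.b 3) (.n (.n (.b 3) (.b
  8)) (.n (.n (.b 3) (.n (.n (.b 3) (.n (.n (.b 3) (.n (.n (.b 3) (.b 8)) (.n (.n (.b 3) (.n (.n
  (.b 3) (.b 21)) (.n (.n (.b 3) (.n (.l 125 99) (.n (.b 9) (.b 4)))) (.b 4)))) (.b 4)))) (.n (.b
  10) (.b 4)))) (.n (.n (.b 3) (.n (.n (.b 3) (.n (.n (.b 3) (.n (.n (.b 3) (.b 8)) (.n (.n (.b 3)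
  (.n (.b 34) (.l 125 99))) (.b 4)))) (.n (.n (.b 3) (.n (.b 10) (.n (.n (.b 3) (.n (.n (.b 3) (.n
  (.l 125 99) (.n (.n (.b 3) (.n (.b 10) (.l 125 99))) (.b 4)))) (.l 125 99))) (.b 4)))) (.b 4))))
  (.n (.b 9) (.b 4)))) (.b 4)))) (.b 4)))) (.n (.b 10) (.b 4)))) (.n (.n (.b 3) (.n (.n (.b 3) (.n
  (.n (.b 3) (.n (.n (.b 3) (.b 8)) (.n (.n (.b 3) (.n (.n (.b 3) (.n (.n (.b 3) (.n (.n (.b 3)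
  (.b 8)) (.n (.n (.b 3) (.l 125 99)) (.b 4)))) (.n (.b 10) (.b 4)))) (.n (.n (.b 3) (.n (.n (.b
  3) (.n (.n (.b 3) (.n (.l 125 99) (.n (.b 30) (.b 4)))) (.n (.l 125 99) (.b 4)))) (.n (.b 9) (.b
  4)))) (.b 4)))) (.b 4)))) (.n (.n (.b 3) (.n (.b 10) (.n (.n (.b 3) (.n (.n (.b 3) (.n (.n (.b
  3) (.n (.n (.b 3) (.b 8)) (.n (.l 125 99) (.b 4)))) (.n (.n (.b 3) (.n (.b 10) (.l 125 99))) (.b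
  4)))) (.n (.b 9) (.b 4)))) (.b 4)))) (.b 4)))) (.n (.b 9) (.b 4)))) (.b 4)))) (.b 4)))) (.n (.n
  (.b 3) (.n (.b 10) (.n (.n (.b 3) (.n (.n (.b 3) (.n (.n (.b 3) (.n (.n (.b 3) (.b 8)) (.n (.n
  (.b 3) (.n (.n (.b 3) (.n (.n (.b 3) (.n (.n (.b 3) (.b 8)) (.n (.n (.b 3) (.n (.n (.b 3) (.n
  (.l 125 99) (.n (.b 10) (.b 4)))) (.n (.n (.b 3) (.n (.n (.b 3) (.n (.l 125 99) (.n (.n (.b 3)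
  (.n (.b 10) (.l 125 99))) (.b 4)))) (.l 125 99))) (.b 4)))) (.b 4)))) (.n (.b 10) (.b 4)))) (.n
  (.n (.b 3) (.n (.n (.b 3) (.n (.n (.b 3) (.n (.n (.b 3) (.b 8)) (.n (.l 125 99) (.b 4)))) (.n
  (.n (.b 3) (.n (.b 10) (.l 125 99))) (.b 4)))) (.n (.b 9) (.b 4)))) (.b 4)))) (.b 4)))) (.n (.n
  (.b 3) (.n (.b 10) (.n (.n (.b 3) (.n (.n (.b 3) (.n (.n (.b 3) (.n (.n (.b 3) (.b 8)) (.n (.n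
  (.b 3) (.n (.b 33) (.l 125 99))) (.b 4)))) (.n (.n (.b 3) (.n (.b 10) (.n (.n (.b 3) (.n (.n (.b
  3) (.n (.l 125 99) (.n (.n (.b 3) (.n (.b 10) (.l 125 99))) (.b 4)))) (.l 125 99))) (.b 4))))
  (.b 4)))) (.n (.b 9) (.b 4)))) (.b 4)))) (.b 4)))) (.n (.b 9) (.b 4)))) (.b 4)))) (.b 4)))) (.n
  (.b 9) (.b 4)))) (.b 4)))) (.b 4)))) (.n (.b 10) (.b 4)))) (.n (.n (.b 3) (.n (.n (.b 3) (.n (.n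
  (.b 3) (.n (.n (.b 3) (.b 8)) (.n (.n (.b 3) (.n (.n (.b 3) (.n (.n (.b 3) (.n (.n (.b 3) (.b
  8)) (.n (.n (.b 3) (.n (.n (.b 3) (.n (.n (.b 3) (.n (.n (.b 3) (.b 8)) (.n (.n (.b 3) (.n (.n
  (.b 3) (.b 21)) (.n (.n (.b 3) (.n (.n (.b 3) (.n (.n (.b 3) (.n (.n (.b 3) (.b 8)) (.n (.n (.b
  3) (.l 163 5)) (.b 4)))) (.n (.n (.b 3) (.n (.b 10) (.n (.n (.b 3) (.l 163 5)) (.b 4)))) (.b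
  4)))) (.n (.b 9) (.b 4)))) (.b 4)))) (.b 4)))) (.n (.b 10) (.b 4)))) (.n (.n (.b 3) (.n (.n (.b
  3) (.n (.n (.b 3) (.n (.n (.b 3) (.b 8)) (.n (.n (.b 3) (.n (.n (.b 3) (.n (.b 34) (.n (.b 10)
  (.b 4)))) (.n (.n (.b 3) (.n (.n (.b 3) (.n (.n (.b 3) (.l 228 99)) (.n (.n (.b 3) (.n (.b 10)
  (.l 228 99))) (.b 4)))) (.n (.b 9) (.b 4)))) (.b 4)))) (.b 4)))) (.n (.n (.b 3) (.n (.b 10) (.n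
  (.n (.b 3) (.n (.n (.b 3) (.n (.n (.b 3) (.n (.n (.b 3) (.b 8)) (.n (.n (.b 3) (.l 59 5)) (.b
  4)))) (.n (.n (.b 3) (.n (.b 10) (.l 59 5))) (.b 4)))) (.n (.b 9) (.b 4)))) (.b 4)))) (.b 4))))
  (.n (.b 9) (.b 4)))) (.b 4)))) (.b 4)))) (.n (.b 10) (.b 4)))) (.n (.n (.b 3) (.n (.n (.b 3) (.n
  (.n (.b 3) (.n (.n (.b 3) (.b 8)) (.n (.n (.b 3) (.n (.n (.b 3) (.n (.n (.b 3) (.n (.n (.b 3)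
  (.b 8)) (.n (.n (.b 3) (.n (.n (.b 3) (.n (.n (.b 3) (.n (.n (.b 3) (.b 8)) (.n (.n (.b 3) (.l
  163 5)) (.b 4)))) (.n (.b 10) (.b 4)))) (.n (.n (.b 3) (.n (.n (.b 3) (.n (.n (.b 3) (.n (.n (.b
  3) (.b 8)) (.l 163 5))) (.n (.l 163 5) (.b 4)))) (.n (.b 9) (.b 4)))) (.b 4)))) (.b 4)))) (.n
  (.b 10) (.b 4)))) (.n (.n (.b 3) (.n (.n (.b 3) (.n (.n (.b 3) (.n (.n (.b 3) (.b 8)) (.n (.b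
  30) (.b 4)))) (.n (.n (.b 3) (.n (.b 10) (.n (.n (.b 3) (.n (.n (.b 3) (.n (.l 163 5) (.n (.n
  (.b 3) (.n (.b 10) (.l 163 5))) (.b 4)))) (.n (.b 9) (.b 4)))) (.b 4)))) (.b 4)))) (.n (.b 9)
  (.b 4)))) (.b 4)))) (.b 4)))) (.n (.n (.b 3) (.n (.b 10) (.n (.n (.b 3) (.n (.n (.b 3) (.n (.n
  (.b 3) (.n (.n (.b 3) (.b 8)) (.n (.n (.b 3) (.n (.n (.b 3) (.n (.n (.b 3) (.n (.n (.b 3) (.b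
  8)) (.n (.l 163 5) (.b 4)))) (.n (.b 10) (.b 4)))) (.n (.n (.b 3) (.n (.n (.b 3) (.n (.n (.b 3)
  (.n (.n (.b 3) (.b 8)) (.l 163 5))) (.l 163 5))) (.n (.b 9) (.b 4)))) (.b 4)))) (.b 4)))) (.n
  (.n (.b 3) (.n (.b 10) (.n (.n (.b 3) (.n (.n (.b 3) (.n (.n (.b 3) (.n (.n (.b 3) (.b 8)) (.l
  163 5))) (.n (.n (.b 3) (.l 163 5)) (.b 4)))) (.n (.b 9) (.b 4)))) (.b 4)))) (.b 4)))) (.n (.b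
  9) (.b 4)))) (.b 4)))) (.b 4)))) (.n (.b 9) (.b 4)))) (.b 4)))) (.b 4)))) (.n (.n (.b 3) (.n (.b
  10) (.n (.n (.b 3) (.n (.n (.b 3) (.n (.n (.b 3) (.n (.n (.b 3) (.b 8)) (.n (.n (.b 3) (.n (.n
  (.b 3) (.n (.n (.b 3) (.n (.n (.b 3) (.b 8)) (.n (.n (.b 3) (.n (.n (.b 3) (.n (.n (.b 3) (.n
  (.n (.b 3) (.b 8)) (.n (.n (.b 3) (.n (.n (.b 3) (.b 21)) (.n (.l 261 5) (.b 4)))) (.b 4)))) (.n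
  (.b 10) (.b 4)))) (.n (.n (.b 3) (.n (.n (.b 3) (.n (.n (.b 3) (.n (.n (.b 3) (.b 8)) (.n (.n
  (.b 3) (.l 261 5)) (.b 4)))) (.n (.n (.b 3) (.n (.b 10) (.l 261 5))) (.b 4)))) (.n (.b 9) (.b
  4)))) (.b 4)))) (.b 4)))) (.n (.b 10) (.b 4)))) (.n (.n (.b 3) (.n (.n (.b 3) (.n (.n (.b 3) (.n
  (.n (.b 3) (.b 8)) (.n (.n (.b 3) (.n (.n (.b 3) (.n (.n (.b 3) (.n (.n (.b 3) (.b 8)) (.n (.l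
  261 5) (.b 4)))) (.n (.b 10) (.b 4)))) (.n (.n (.b 3) (.n (.n (.b 3) (.n (.l 261 5) (.n (.l 261
  5) (.b 4)))) (.n (.b 9) (.b 4)))) (.b 4)))) (.b 4)))) (.n (.n (.b 3) (.n (.b 10) (.n (.n (.b 3)
  (.n (.n (.b 3) (.n (.n (.b 3) (.n (.n (.b 3) (.b 8)) (.l 261 5))) (.n (.n (.b 3) (.l 261 5)) (.b
  4)))) (.n (.b 9) (.b 4)))) (.b 4)))) (.b 4)))) (.n (.b 9) (.b 4)))) (.b 4)))) (.b 4)))) (.n (.n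
  (.b 3) (.n (.b 10) (.n (.n (.b 3) (.n (.n (.b 3) (.n (.n (.b 3) (.n (.n (.b 3) (.b 8)) (.n (.n
  (.b 3) (.n (.n (.b 3) (.n (.b 33) (.n (.b 10) (.b 4)))) (.n (.n (.b 3) (.n (.n (.b 3) (.n (.n
  (.b 3) (.n (.l 228 99) (.n (.n (.b 3) (.l 228 99)) (.b 4)))) (.n (.n (.b 3) (.n (.b 10) (.l 228
  99))) (.b 4)))) (.n (.b 9) (.b 4)))) (.b 4)))) (.b 4)))) (.n (.n (.b 3) (.n (.b 10) (.n (.n (.b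
  3) (.n (.n (.b 3) (.n (.n (.b 3) (.n (.n (.b 3) (.b 8)) (.n (.n (.b 3) (.l 228 5)) (.b 4)))) (.n
  (.n (.b 3) (.n (.b 10) (.n (.l 228 5) (.b 4)))) (.b 4)))) (.n (.b 9) (.b 4)))) (.b 4)))) (.b
  4)))) (.n (.b 9) (.b 4)))) (.b 4)))) (.b 4)))) (.n (.b 9) (.b 4)))) (.b 4)))) (.b 4)))) (.n (.b
  9) (.b 4)))) (.b 4)))) (.b 4)))) (.n (.b 10) (.b 4)))) (.n (.n (.b 3) (.n (.n (.b 3) (.n (.n (.b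
  3) (.n (.n (.b 3) (.b 8)) (.n (.n (.b 3) (.n (.n (.b 3) (.n (.n (.b 3) (.n (.n (.b 3) (.b 8))
  (.n (.n (.b 3) (.n (.n (.b 3) (.n (.n (.b 3) (.n (.n (.b 3) (.b 8)) (.n (.n (.b 3) (.n (.n (.b
  3) (.b 21)) (.n (.n (.b 3) (.n (.n (.b 3) (.n (.n (.b 3) (.n (.n (.b 3) (.b 8)) (.n (.n (.b 3)
  (.n (.n (.b 3) (.n (.n (.b 3) (.n (.n (.b 3) (.b 8)) (.n (.n (.b 3) (.l 229 5)) (.b 4)))) (.n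
  (.b 10) (.b 4)))) (.n (.n (.b 3) (.n (.n (.b 3) (.n (.n (.b 3) (.n (.n (.b 3) (.b 8)) (.l 229
  5))) (.n (.l 229 5) (.b 4)))) (.n (.b 9) (.b 4)))) (.b 4)))) (.b 4)))) (.n (.n (.b 3) (.n (.b
  10) (.n (.n (.b 3) (.n (.n (.b 3) (.n (.n (.b 3) (.n (.n (.b 3) (.b 8)) (.n (.l 229 5) (.b 4))))
  (.n (.n (.b 3) (.n (.b 10) (.n (.n (.b 3) (.l 229 5)) (.b 4)))) (.b 4)))) (.n (.b 9) (.b 4))))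
  (.b 4)))) (.b 4)))) (.n (.b 9) (.b 4)))) (.b 4)))) (.b 4)))) (.n (.b 10) (.b 4)))) (.n (.n (.b
  3) (.n (.n (.b 3) (.n (.n (.b 3) (.n (.n (.b 3) (.b 8)) (.n (.n (.b 3) (.n (.n (.b 3) (.n (.n
  (.b 3) (.n (.n (.b 3) (.b 8)) (.n (.n (.b 3) (.n (.n (.b 3) (.n (.n (.b 3) (.n (.n (.b 3) (.b
  8)) (.n (.n (.b 3) (.n (.n (.b 3) (.b 21)) (.l 125 99))) (.b 4)))) (.n (.b 10) (.b 4)))) (.n (.n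
  (.b 3) (.b 34)) (.b 4)))) (.b 4)))) (.n (.b 10) (.b 4)))) (.n (.n (.b 3) (.n (.n (.b 3) (.n (.n
  (.b 3) (.n (.n (.b 3) (.b 8)) (.n (.n (.b 3) (.n (.n (.b 3) (.n (.n (.b 3) (.l 229 5)) (.n (.b
  10) (.b 4)))) (.n (.n (.b 3) (.n (.n (.b 3) (.l 229 5)) (.l 229 5))) (.b 4)))) (.b 4)))) (.n (.n
  (.b 3) (.n (.b 10) (.n (.n (.b 3) (.n (.n (.b 3) (.n (.n (.b 3) (.l 229 5)) (.l 229 5))) (.n (.b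
  9) (.b 4)))) (.b 4)))) (.b 4)))) (.n (.b 9) (.b 4)))) (.b 4)))) (.b 4)))) (.n (.n (.b 3) (.n (.b
  10) (.n (.n (.b 3) (.n (.n (.b 3) (.n (.n (.b 3) (.n (.n (.b 3) (.b 8)) (.n (.n (.b 3) (.n (.n
  (.b 3) (.n (.n (.b 3) (.n (.n (.b 3) (.b 8)) (.n (.n (.b 3) (.n (.n (.b 3) (.l 202 5)) (.l 202
  5))) (.b 4)))) (.n (.b 10) (.b 4)))) (.n (.n (.b 3) (.n (.n (.b 3) (.n (.l 202 5) (.l 202 5)))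
  (.n (.b 9) (.b 4)))) (.b 4)))) (.b 4)))) (.n (.n (.b 3) (.n (.b 10) (.n (.n (.b 3) (.n (.n (.b
  3) (.n (.b 33) (.n (.n (.b 3) (.n (.b 10) (.l 202 5))) (.b 4)))) (.n (.b 9) (.b 4)))) (.b 4))))
  (.b 4)))) (.n (.b 9) (.b 4)))) (.b 4)))) (.b 4)))) (.n (.b 9) (.b 4)))) (.b 4)))) (.b 4)))) (.n
  (.b 10) (.b 4)))) (.n (.n (.b 3) (.n (.n (.b 3) (.n (.n (.b 3) (.n (.n (.b 3) (.b 8)) (.n (.n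
  (.b 3) (.n (.n (.b 3) (.n (.n (.b 3) (.n (.n (.b 3) (.b 8)) (.n (.n (.b 3) (.n (.n (.b 3) (.n
  (.n (.b 3) (.n (.n (.b 3) (.b 8)) (.n (.n (.b 3) (.n (.n (.b 3) (.b 21)) (.n (.n (.b 3) (.n (.n
  (.b 3) (.n (.n (.b 3) (.l 229 5)) (.n (.l 229 5) (.b 4)))) (.n (.b 9) (.b 4)))) (.b 4)))) (.b
  4)))) (.n (.b 10) (.b 4)))) (.n (.n (.b 3) (.n (.n (.b 3) (.n (.n (.b 3) (.n (.n (.b 3) (.b 8))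
  (.n (.n (.b 3) (.n (.n (.b 3) (.n (.n (.b 3) (.l 229 5)) (.n (.b 10) (.b 4)))) (.n (.n (.b 3)
  (.n (.l 229 5) (.n (.b 9) (.b 4)))) (.b 4)))) (.b 4)))) (.n (.n (.b 3) (.n (.b 10) (.n (.n (.b
  3) (.n (.n (.b 3) (.n (.l 229 5) (.n (.n (.b 3) (.l 229 5)) (.b 4)))) (.n (.b 9) (.b 4)))) (.b
  4)))) (.b 4)))) (.n (.b 9) (.b 4)))) (.b 4)))) (.b 4)))) (.n (.b 10) (.b 4)))) (.n (.n (.b 3)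
  (.n (.n (.b 3) (.n (.n (.b 3) (.n (.n (.b 3) (.b 8)) (.n (.n (.b 3) (.n (.n (.b 3) (.n (.n (.b
  3) (.n (.n (.b 3) (.b 8)) (.n (.n (.b 3) (.n (.n (.b 3) (.n (.n (.b 3) (.l 346 0)) (.n (.b 10)
  (.b 4)))) (.n (.n (.b 3) (.n (.l 346 0) (.l 346 0))) (.b 4)))) (.b 4)))) (.n (.b 10) (.b 4))))
  (.b 30))) (.b 4)))) (.n (.n (.b 3) (.n (.b 10) (.n (.n (.b 3) (.n (.n (.b 3) (.n (.n (.b 3) (.n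
  (.n (.b 3) (.b 8)) (.n (.n (.b 3) (.n (.n (.b 3) (.n (.l 316 5) (.n (.b 10) (.b 4)))) (.n (.n
  (.b 3) (.l 316 5)) (.b 4)))) (.b 4)))) (.n (.n (.b 3) (.n (.b 10) (.n (.n (.b 3) (.n (.n (.b 3)
  (.n (.n (.b 3) (.l 316 5)) (.l 316 5))) (.n (.b 9) (.b 4)))) (.b 4)))) (.b 4)))) (.n (.b 9) (.b
  4)))) (.b 4)))) (.b 4)))) (.n (.b 9) (.b 4)))) (.b 4)))) (.b 4)))) (.n (.n (.b 3) (.n (.b 10)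
  (.n (.n (.b 3) (.n (.n (.b 3) (.n (.n (.b 3) (.n (.n (.b 3) (.b 8)) (.n (.n (.b 3) (.n (.n (.b
  3) (.n (.n (.b 3) (.n (.n (.b 3) (.b 8)) (.n (.n (.b 3) (.n (.n (.b 3) (.n (.n (.b 3) (.n (.n
  (.b 3) (.b 8)) (.n (.l 229 5) (.b 4)))) (.n (.b 10) (.b 4)))) (.n (.n (.b 3) (.n (.n (.b 3) (.n
  (.l 229 5) (.n (.n (.b 3) (.l 229 5)) (.b 4)))) (.n (.b 9) (.b 4)))) (.b 4)))) (.b 4)))) (.n (.b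
  10) (.b 4)))) (.n (.n (.b 3) (.n (.n (.b 3) (.n (.n (.b 3) (.n (.n (.b 3) (.b 8)) (.n (.n (.b 3)
  (.n (.n (.b 3) (.n (.n (.b 3) (.l 229 5)) (.l 229 5))) (.n (.n (.b 3) (.l 229 5)) (.b 4)))) (.b
  4)))) (.n (.n (.b 3) (.n (.b 10) (.n (.n (.b 3) (.n (.n (.b 3) (.l 229 5)) (.n (.b 9) (.b 4))))
  (.b 4)))) (.b 4)))) (.n (.b 9) (.b 4)))) (.b 4)))) (.b 4)))) (.n (.n (.b 3) (.n (.b 10) (.n (.n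
  (.b 3) (.n (.n (.b 3) (.n (.n (.b 3) (.n (.n (.b 3) (.b 8)) (.n (.n (.b 3) (.n (.n (.b 3) (.n
  (.n (.b 3) (.n (.l 229 5) (.n (.n (.b 3) (.l 229 5)) (.b 4)))) (.n (.b 10) (.b 4)))) (.n (.n (.b
  3) (.n (.n (.b 3) (.l 229 5)) (.n (.b 9) (.b 4)))) (.b 4)))) (.b 4)))) (.n (.n (.b 3) (.n (.b
  10) (.n (.n (.b 3) (.n (.n (.b 3) (.n (.n (.b 3) (.n (.l 229 5) (.n (.l 229 5) (.b 4)))) (.n (.n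
  (.b 3) (.l 229 5)) (.b 4)))) (.n (.b 9) (.b 4)))) (.b 4)))) (.b 4)))) (.n (.b 9) (.b 4)))) (.b
  4)))) (.b 4)))) (.n (.b 9) (.b 4)))) (.b 4)))) (.b 4)))) (.n (.b 9) (.b 4)))) (.b 4)))) (.b
  4)))) (.n (.n (.b 3) (.n (.b 10) (.n (.n (.b 3) (.n (.n (.b 3) (.n (.n (.b 3) (.n (.n (.b 3) (.b
  8)) (.n (.n (.b 3) (.n (.n (.b 3) (.n (.n (.b 3) (.n (.n (.b 3) (.b 8)) (.n (.n (.b 3) (.n (.n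
  (.b 3) (.n (.n (.b 3) (.n (.n (.b 3) (.b 8)) (.n (.n (.b 3) (.n (.n (.b 3) (.b 21)) (.n (.n (.b
  3) (.n (.n (.b 3) (.n (.n (.b 3) (.n (.n (.b 3) (.b 8)) (.n (.l 267 5) (.b 4)))) (.n (.n (.b 3)
  (.n (.b 10) (.l 267 5))) (.b 4)))) (.n (.b 9) (.b 4)))) (.b 4)))) (.b 4)))) (.n (.b 10) (.b
  4)))) (.n (.n (.b 3) (.n (.n (.b 3) (.n (.n (.b 3) (.n (.n (.b 3) (.b 8)) (.n (.n (.b 3) (.n (.n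
  (.b 3) (.n (.n (.b 3) (.n (.n (.b 3) (.b 8)) (.n (.n (.b 3) (.n (.n (.b 3) (.l 267 5)) (.l 267
  5))) (.b 4)))) (.n (.b 10) (.b 4)))) (.n (.n (.b 3) (.n (.n (.b 3) (.n (.l 267 5) (.l 267 5)))
  (.n (.b 9) (.b 4)))) (.b 4)))) (.b 4)))) (.n (.n (.b 3) (.n (.b 10) (.n (.n (.b 3) (.n (.n (.b
  3) (.n (.n (.b 3) (.n (.l 267 5) (.n (.n (.b 3) (.l 267 5)) (.b 4)))) (.b 33))) (.n (.b 9) (.b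
  4)))) (.b 4)))) (.b 4)))) (.n (.b 9) (.b 4)))) (.b 4)))) (.b 4)))) (.n (.b 10) (.b 4)))) (.n (.n
  (.b 3) (.n (.n (.b 3) (.n (.n (.b 3) (.n (.n (.b 3) (.b 8)) (.n (.n (.b 3) (.n (.n (.b 3) (.n
  (.n (.b 3) (.n (.n (.b 3) (.b 8)) (.n (.n (.b 3) (.n (.n (.b 3) (.n (.n (.b 3) (.n (.n (.b 3)
  (.b 8)) (.n (.l 163 5) (.b 4)))) (.n (.b 10) (.b 4)))) (.n (.n (.b 3) (.n (.n (.b 3) (.n (.n (.b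
  3) (.n (.n (.b 3) (.b 8)) (.l 163 5))) (.l 163 5))) (.n (.b 9) (.b 4)))) (.b 4)))) (.b 4)))) (.n
  (.b 10) (.b 4)))) (.n (.n (.b 3) (.n (.n (.b 3) (.n (.n (.b 3) (.n (.n (.b 3) (.b 8)) (.n (.n
  (.b 3) (.n (.n (.b 3) (.n (.l 163 5) (.n (.b 10) (.b 4)))) (.n (.n (.b 3) (.l 163 5)) (.b 4))))
  (.b 4)))) (.n (.n (.b 3) (.n (.b 10) (.n (.n (.b 3) (.n (.n (.b 3) (.n (.l 163 5) (.l 163 5)))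
  (.n (.b 9) (.b 4)))) (.b 4)))) (.b 4)))) (.n (.b 9) (.b 4)))) (.b 4)))) (.b 4)))) (.n (.n (.b 3)
  (.n (.b 10) (.n (.n (.b 3) (.n (.n (.b 3) (.n (.n (.b 3) (.n (.n (.b 3) (.b 8)) (.n (.n (.b 3)
  (.n (.n (.b 3) (.n (.n (.b 3) (.n (.n (.b 3) (.b 8)) (.l 286 99))) (.n (.b 10) (.b 4)))) (.n (.n
  (.b 3) (.n (.b 36) (.n (.b 9) (.b 4)))) (.b 4)))) (.b 4)))) (.n (.n (.b 3) (.n (.b 10) (.n (.n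
  (.b 3) (.n (.n (.b 3) (.n (.n (.b 3) (.n (.n (.b 3) (.b 8)) (.l 286 5))) (.n (.l 286 5) (.b
  4)))) (.n (.b 9) (.b 4)))) (.b 4)))) (.b 4)))) (.n (.b 9) (.b 4)))) (.b 4)))) (.b 4)))) (.n (.b
  9) (.b 4)))) (.b 4)))) (.b 4)))) (.n (.n (.b 3) (.n (.b 10) (.n (.n (.b 3) (.n (.n (.b 3) (.n
  (.n (.b 3) (.n (.n (.b 3) (.b 8)) (.n (.n (.b 3) (.n (.n (.b 3) (.n (.n (.b 3) (.n (.n (.b 3)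
  (.b 8)) (.n (.n (.b 3) (.n (.n (.b 3) (.n (.n (.b 3) (.n (.n (.b 3) (.b 8)) (.n (.n (.b 3) (.n
  (.n (.b 3) (.b 21)) (.l 163 99))) (.b 4)))) (.n (.b 10) (.b 4)))) (.n (.n (.b 3) (.b 33)) (.b
  4)))) (.b 4)))) (.n (.b 10) (.b 4)))) (.n (.n (.b 3) (.n (.n (.b 3) (.n (.n (.b 3) (.n (.n (.b
  3) (.b 8)) (.n (.n (.b 3) (.n (.n (.b 3) (.n (.n (.b 3) (.n (.n (.b 3) (.b 8)) (.l 267 5))) (.n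
  (.b 10) (.b 4)))) (.n (.n (.b 3) (.n (.n (.b 3) (.l 267 5)) (.n (.b 9) (.b 4)))) (.b 4)))) (.b
  4)))) (.n (.n (.b 3) (.n (.b 10) (.n (.n (.b 3) (.n (.n (.b 3) (.n (.n (.b 3) (.l 267 5)) (.n
  (.l 267 5) (.b 4)))) (.n (.b 9) (.b 4)))) (.b 4)))) (.b 4)))) (.n (.b 9) (.b 4)))) (.b 4)))) (.b
  4)))) (.n (.n (.b 3) (.n (.b 10) (.n (.n (.b 3) (.n (.n (.b 3) (.n (.n (.b 3) (.n (.n (.b 3) (.b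
  8)) (.n (.n (.b 3) (.n (.n (.b 3) (.n (.n (.b 3) (.n (.n (.b 3) (.b 8)) (.n (.n (.b 3) (.n (.n
  (.b 3) (.l 267 5)) (.l 267 5))) (.b 4)))) (.n (.b 10) (.b 4)))) (.n (.n (.b 3) (.n (.n (.b 3)
  (.n (.n (.b 3) (.l 267 5)) (.n (.l 267 5) (.b 4)))) (.n (.b 9) (.b 4)))) (.b 4)))) (.b 4)))) (.n
  (.n (.b 3) (.n (.b 10) (.n (.n (.b 3) (.n (.n (.b 3) (.b 32)) (.n (.b 9) (.b 4)))) (.b 4)))) (.b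
  4)))) (.n (.b 9) (.b 4)))) (.b 4)))) (.b 4)))) (.n (.b 9) (.b 4)))) (.b 4)))) (.b 4)))) (.n (.b
  9) (.b 4)))) (.b 4)))) (.b 4)))) (.n (.b 9) (.b 4)))) (.b 4)))) (.b 4))))

/-- A subtree of the table. -/
def s49 : T :=
  (.b 3)

/-- A subtree of the table. -/
def s50 : T :=
  (.n (.b 3) (.n (.n (.b 3) (.n (.n (.b 3) (.b 8)) (.n (.n (.b 3) (.n (.n (.b 3) (.n (.n (.b 3)
  (.n (.n (.b 3) (.b 8)) (.n (.n (.b 3) (.n (.n (.b 3) (.n (.n (.b 3) (.n (.n (.b 3) (.b 8)) (.n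
  (.n (.b 3) (.b 21)) (.b 4)))) (.n (.b 10) (.b 4)))) (.n (.n (.b 3) (.n (.n (.b 3) (.n (.n (.b 3)
  (.n (.n (.b 3) (.b 8)) (.n (.n (.b 3) (.n (.n (.b 3) (.n (.n (.b 3) (.n (.n (.b 3) (.b 8)) (.n
  (.n (.b 3) (.n (.n (.b 3) (.n (.n (.b 3) (.n (.n (.b 3) (.b 8)) (.n (.n (.b 3) (.n (.n (.b 3)
  (.b 21)) (.n (.n (.b 3) (.n (.n (.b 3) (.l 346 0)) (.n (.b 9) (.b 4)))) (.b 4)))) (.b 4)))) (.n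
  (.b 10) (.b 4)))) (.n (.n (.b 3) (.n (.n (.b 3) (.n (.n (.b 3) (.n (.n (.b 3) (.b 8)) (.n (.n
  (.b 3) (.n (.b 34) (.n (.l 346 0) (.b 4)))) (.b 4)))) (.n (.n (.b 3) (.n (.b 10) (.n (.n (.b 3)
  (.n (.l 346 0) (.l 346 0))) (.b 4)))) (.b 4)))) (.n (.b 9) (.b 4)))) (.b 4)))) (.b 4)))) (.n (.b
  10) (.b 4)))) (.n (.n (.b 3) (.n (.n (.b 3) (.n (.n (.b 3) (.n (.n (.b 3) (.b 8)) (.n (.n (.b 3)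
  (.n (.n (.b 3) (.n (.n (.b 3) (.n (.n (.b 3) (.b 8)) (.n (.n (.b 3) (.n (.n (.b 3) (.l 346 0))
  (.n (.l 346 0) (.b 4)))) (.b 4)))) (.n (.b 10) (.b 4)))) (.n (.n (.b 3) (.n (.n (.b 3) (.n (.n
  (.b 3) (.n (.n (.b 3) (.b 8)) (.n (.b 30) (.b 4)))) (.n (.n (.b 3) (.n (.b 10) (.l 346 0))) (.b
  4)))) (.n (.b 9) (.b 4)))) (.b 4)))) (.b 4)))) (.n (.n (.b 3) (.n (.b 10) (.n (.n (.b 3) (.n (.n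
  (.b 3) (.n (.n (.b 3) (.n (.n (.b 3) (.b 8)) (.n (.n (.b 3) (.n (.l 346 0) (.l 346 0))) (.b
  4)))) (.n (.n (.b 3) (.n (.b 10) (.n (.n (.b 3) (.l 346 0)) (.b 4)))) (.b 4)))) (.n (.b 9) (.b
  4)))) (.b 4)))) (.b 4)))) (.n (.b 9) (.b 4)))) (.b 4)))) (.b 4)))) (.n (.n (.b 3) (.n (.b 10)
  (.n (.n (.b 3) (.n (.n (.b 3) (.n (.n (.b 3) (.n (.n (.b 3) (.b 8)) (.n (.n (.b 3) (.n (.n (.b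
  3) (.n (.n (.b 3) (.n (.n (.b 3) (.b 8)) (.n (.n (.b 3) (.n (.n (.b 3) (.n (.n (.b 3) (.l 346
  0)) (.n (.b 10) (.b 4)))) (.n (.n (.b 3) (.n (.l 346 0) (.l 346 0))) (.b 4)))) (.b 4)))) (.n (.b
  10) (.b 4)))) (.n (.n (.b 3) (.n (.n (.b 3) (.n (.n (.b 3) (.n (.n (.b 3) (.b 8)) (.n (.n (.b 3)
  (.n (.l 346 0) (.l 346 0))) (.b 4)))) (.n (.n (.b 3) (.n (.b 10) (.n (.n (.b 3) (.l 346 0)) (.b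
  4)))) (.b 4)))) (.n (.b 9) (.b 4)))) (.b 4)))) (.b 4)))) (.n (.n (.b 3) (.n (.b 10) (.n (.n (.b
  3) (.n (.n (.b 3) (.n (.n (.b 3) (.n (.n (.b 3) (.b 8)) (.n (.n (.b 3) (.n (.b 33) (.n (.n (.b
  3) (.l 346 0)) (.b 4)))) (.b 4)))) (.n (.n (.b 3) (.n (.b 10) (.n (.n (.b 3) (.n (.n (.b 3) (.l
  346 0)) (.n (.b 9) (.b 4)))) (.b 4)))) (.b 4)))) (.n (.b 9) (.b 4)))) (.b 4)))) (.b 4)))) (.n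
  (.b 9) (.b 4)))) (.b 4)))) (.b 4)))) (.n (.b 9) (.b 4)))) (.b 4)))) (.b 4)))) (.n (.b 10) (.b
  4)))) (.n (.n (.b 3) (.n (.n (.b 3) (.n (.n (.b 3) (.n (.n (.b 3) (.b 8)) (.n (.n (.b 3) (.n (.n
  (.b 3) (.n (.n (.b 3) (.n (.n (.b 3) (.b 8)) (.n (.n (.b 3) (.n (.n (.b 3) (.n (.n (.b 3) (.n
  (.n (.b 3) (.b 8)) (.n (.n (.b 3) (.n (.n (.b 3) (.b 21)) (.n (.n (.b 3) (.n (.n (.b 3) (.n (.n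
  (.b 3) (.n (.n (.b 3) (.b 8)) (.n (.n (.b 3) (.n (.n (.b 3) (.l 346 0)) (.n (.l 346 0) (.b 4))))
  (.b 4)))) (.n (.n (.b 3) (.n (.b 10) (.n (.n (.b 3) (.n (.l 346 0) (.l 346 0))) (.b 4)))) (.b
  4)))) (.n (.b 9) (.b 4)))) (.b 4)))) (.b 4)))) (.n (.b 10) (.b 4)))) (.n (.n (.b 3) (.n (.n (.b
  3) (.n (.n (.b 3) (.n (.n (.b 3) (.b 8)) (.n (.n (.b 3) (.n (.n (.b 3) (.n (.n (.b 3) (.n (.n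
  (.b 3) (.b 8)) (.n (.b 34) (.b 4)))) (.n (.b 10) (.b 4)))) (.n (.n (.b 3) (.n (.n (.b 3) (.n (.n
  (.b 3) (.n (.n (.b 3) (.b 8)) (.n (.l 346 0) (.b 4)))) (.n (.n (.b 3) (.n (.b 10) (.l 346 0)))
  (.b 4)))) (.n (.b 9) (.b 4)))) (.b 4)))) (.b 4)))) (.n (.n (.b 3) (.n (.b 10) (.n (.n (.b 3) (.n
  (.n (.b 3) (.n (.n (.b 3) (.n (.n (.b 3) (.b 8)) (.n (.n (.b 3) (.n (.l 346 0) (.l 346 0))) (.b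
  4)))) (.n (.n (.b 3) (.n (.b 10) (.n (.n (.b 3) (.l 346 0)) (.b 4)))) (.b 4)))) (.n (.b 9) (.b
  4)))) (.b 4)))) (.b 4)))) (.n (.b 9) (.b 4)))) (.b 4)))) (.b 4)))) (.n (.b 10) (.b 4)))) (.n (.n
  (.b 3) (.n (.n (.b 3) (.n (.n (.b 3) (.n (.n (.b 3) (.b 8)) (.n (.n (.b 3) (.n (.n (.b 3) (.n
  (.n (.b 3) (.n (.n (.b 3) (.b 8)) (.n (.n (.b 3) (.n (.n (.b 3) (.n (.n (.b 3) (.n (.n (.b 3)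
  (.b 8)) (.n (.n (.b 3) (.n (.n (.b 3) (.b 21)) (.n (.l 346 0) (.b 4)))) (.b 4)))) (.n (.b 10)
  (.b 4)))) (.n (.n (.b 3) (.n (.n (.b 3) (.n (.n (.b 3) (.n (.n (.b 3) (.b 8)) (.n (.l 346 0) (.b
  4)))) (.n (.n (.b 3) (.n (.b 10) (.l 346 0))) (.b 4)))) (.n (.b 9) (.b 4)))) (.b 4)))) (.b 4))))
  (.n (.b 10) (.b 4)))) (.n (.n (.b 3) (.n (.n (.b 3) (.n (.n (.b 3) (.n (.n (.b 3) (.b 8)) (.n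
  (.b 30) (.b 4)))) (.n (.n (.b 3) (.n (.b 10) (.n (.n (.b 3) (.n (.n (.b 3) (.n (.n (.b 3) (.n
  (.l 346 0) (.l 346 0))) (.n (.n (.b 3) (.l 346 0)) (.b 4)))) (.n (.b 9) (.b 4)))) (.b 4)))) (.b
  4)))) (.n (.b 9) (.b 4)))) (.b 4)))) (.b 4)))) (.n (.n (.b 3) (.n (.b 10) (.n (.n (.b 3) (.n (.n
  (.b 3) (.n (.n (.b 3) (.n (.n (.b 3) (.b 8)) (.n (.n (.b 3) (.n (.n (.b 3) (.n (.n (.b 3) (.n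
  (.n (.b 3) (.b 8)) (.n (.n (.b 3) (.n (.l 346 0) (.l 346 0))) (.b 4)))) (.n (.b 10) (.b 4))))
  (.n (.n (.b 3) (.n (.n (.b 3) (.n (.n (.b 3) (.n (.l 346 0) (.l 346 0))) (.n (.n (.b 3) (.l 346
  0)) (.b 4)))) (.n (.b 9) (.b 4)))) (.b 4)))) (.b 4)))) (.n (.n (.b 3) (.n (.b 10) (.n (.n (.b 3)
  (.n (.n (.b 3) (.n (.n (.b 3) (.n (.n (.b 3) (.b 8)) (.n (.n (.b 3) (.l 346 0)) (.b 4)))) (.n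
  (.n (.b 3) (.n (.b 10) (.n (.l 346 0) (.b 4)))) (.b 4)))) (.n (.b 9) (.b 4)))) (.b 4)))) (.b
  4)))) (.n (.b 9) (.b 4)))) (.b 4)))) (.b 4)))) (.n (.b 9) (.b 4)))) (.b 4)))) (.b 4)))) (.n (.n
  (.b 3) (.n (.b 10) (.n (.n (.b 3) (.n (.n (.b 3) (.n (.n (.b 3) (.n (.n (.b 3) (.b 8)) (.n (.n
  (.b 3) (.n (.n (.b 3) (.n (.n (.b 3) (.n (.n (.b 3) (.b 8)) (.n (.n (.b 3) (.n (.n (.b 3) (.n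
  (.n (.b 3) (.n (.n (.b 3) (.b 8)) (.n (.n (.b 3) (.n (.n (.b 3) (.b 21)) (.n (.n (.b 3) (.n (.l
  346 0) (.l 346 0))) (.b 4)))) (.b 4)))) (.n (.b 10) (.b 4)))) (.n (.n (.b 3) (.n (.n (.b 3) (.n
  (.n (.b 3) (.n (.n (.b 3) (.b 8)) (.n (.n (.b 3) (.n (.l 346 0) (.l 346 0))) (.b 4)))) (.n (.n
  (.b 3) (.n (.b 10) (.n (.n (.b 3) (.l 346 0)) (.b 4)))) (.b 4)))) (.n (.b 9) (.b 4)))) (.b 4))))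
  (.b 4)))) (.n (.b 10) (.b 4)))) (.n (.n (.b 3) (.n (.n (.b 3) (.n (.n (.b 3) (.n (.n (.b 3) (.b
  8)) (.n (.n (.b 3) (.n (.n (.b 3) (.n (.n (.b 3) (.n (.n (.b 3) (.b 8)) (.n (.n (.b 3) (.n (.l
  346 0) (.l 346 0))) (.b 4)))) (.n (.b 10) (.b 4)))) (.n (.n (.b 3) (.n (.n (.b 3) (.n (.n (.b 3)
  (.n (.l 346 0) (.l 346 0))) (.n (.n (.b 3) (.l 346 0)) (.b 4)))) (.n (.b 9) (.b 4)))) (.b 4))))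
  (.b 4)))) (.n (.n (.b 3) (.n (.b 10) (.n (.n (.b 3) (.n (.n (.b 3) (.n (.n (.b 3) (.n (.n (.b 3)
  (.b 8)) (.n (.n (.b 3) (.l 346 0)) (.b 4)))) (.n (.n (.b 3) (.n (.b 10) (.n (.l 346 0) (.b 4))))
  (.b 4)))) (.n (.b 9) (.b 4)))) (.b 4)))) (.b 4)))) (.n (.b 9) (.b 4)))) (.b 4)))) (.b 4)))) (.n
  (.n (.b 3) (.n (.b 10) (.n (.n (.b 3) (.n (.n (.b 3) (.n (.n (.b 3) (.n (.n (.b 3) (.b 8)) (.n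
  (.n (.b 3) (.n (.n (.b 3) (.n (.n (.b 3) (.n (.n (.b 3) (.b 8)) (.n (.b 33) (.b 4)))) (.n (.b
  10) (.b 4)))) (.n (.n (.b 3) (.n (.n (.b 3) (.n (.n (.b 3) (.n (.n (.b 3) (.b 8)) (.n (.n (.b 3)
  (.l 346 0)) (.b 4)))) (.n (.n (.b 3) (.n (.b 10) (.n (.l 346 0) (.b 4)))) (.b 4)))) (.n (.b 9)
  (.b 4)))) (.b 4)))) (.b 4)))) (.n (.n (.b 3) (.n (.b 10) (.n (.n (.b 3) (.n (.n (.b 3) (.n (.n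
  (.b 3) (.n (.n (.b 3) (.b 8)) (.n (.n (.b 3) (.n (.n (.b 3) (.l 346 0)) (.n (.l 346 0) (.b 4))))
  (.b 4)))) (.n (.n (.b 3) (.n (.b 10) (.n (.n (.b 3) (.n (.l 346 0) (.l 346 0))) (.b 4)))) (.b
  4)))) (.n (.b 9) (.b 4)))) (.b 4)))) (.b 4)))) (.n (.b 9) (.b 4)))) (.b 4)))) (.b 4)))) (.n (.b
  9) (.b 4)))) (.b 4)))) (.b 4)))) (.n (.b 9) (.b 4)))) (.b 4)))) (.b 4)))) (.b 10)))

/-- A subtree of the table. -/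
def s51 : T :=
  (.n (.n (.b 3) (.n (.n (.b 3) (.n (.n (.b 3) (.n (.n (.b 3) (.b 8)) (.n (.n (.b 3) (.n (.n (.b
  3) (.n (.n (.b 3) (.n (.n (.b 3) (.b 8)) (.n (.n (.b 3) (.n (.n (.b 3) (.n (.n (.b 3) (.n (.n
  (.b 3) (.b 8)) (.n (.n (.b 3) (.n (.n (.b 3) (.b 21)) (.n (.n (.b 3) (.n (.n (.b 3) (.n (.n (.b
  3) (.n (.n (.b 3) (.b 8)) (.n (.n (.b 3) (.n (.n (.b 3) (.n (.n (.b 3) (.n (.n (.b 3) (.b 8))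
  (.n (.n (.b 3) (.n (.n (.b 3) (.l 141 10)) (.n (.n (.b 3) (.l 141 10)) (.b 4)))) (.b 4)))) (.n
  (.b 10) (.b 4)))) (.n (.n (.b 3) (.n (.n (.b 3) (.n (.n (.b 3) (.n (.n (.b 3) (.b 8)) (.n (.l
  141 10) (.b 4)))) (.n (.n (.b 3) (.n (.b 10) (.n (.n (.b 3) (.l 141 10)) (.b 4)))) (.b 4)))) (.n
  (.b 9) (.b 4)))) (.b 4)))) (.b 4)))) (.n (.n (.b 3) (.n (.b 10) (.n (.n (.b 3) (.n (.n (.b 3)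
  (.n (.n (.b 3) (.n (.n (.b 3) (.b 8)) (.n (.n (.b 3) (.n (.n (.b 3) (.l 141 10)) (.l 141 10)))
  (.b 4)))) (.n (.n (.b 3) (.n (.b 10) (.n (.n (.b 3) (.l 141 10)) (.b 4)))) (.b 4)))) (.n (.b 9)
  (.b 4)))) (.b 4)))) (.b 4)))) (.n (.b 9) (.b 4)))) (.b 4)))) (.b 4)))) (.n (.b 10) (.b 4)))) (.n
  (.n (.b 3) (.n (.n (.b 3) (.n (.n (.b 3) (.n (.n (.b 3) (.b 8)) (.n (.n (.b 3) (.n (.n (.b 3)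
  (.n (.n (.b 3) (.n (.n (.b 3) (.b 8)) (.n (.n (.b 3) (.n (.n (.b 3) (.n (.n (.b 3) (.n (.n (.b
  3) (.b 8)) (.n (.n (.b 3) (.n (.n (.b 3) (.b 21)) (.n (.l 75 10) (.b 4)))) (.b 4)))) (.n (.b 10)
  (.b 4)))) (.n (.n (.b 3) (.n (.n (.b 3) (.n (.b 34) (.n (.n (.b 3) (.n (.b 10) (.l 75 10))) (.b
  4)))) (.n (.b 9) (.b 4)))) (.b 4)))) (.b 4)))) (.n (.b 10) (.b 4)))) (.n (.n (.b 3) (.n (.n (.b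
  3) (.n (.n (.b 3) (.n (.n (.b 3) (.b 8)) (.n (.n (.b 3) (.n (.n (.b 3) (.n (.n (.b 3) (.n (.n
  (.b 3) (.b 8)) (.n (.l 75 10) (.b 4)))) (.n (.b 10) (.b 4)))) (.n (.n (.b 3) (.n (.n (.b 3) (.n
  (.l 75 10) (.n (.l 75 10) (.b 4)))) (.n (.b 9) (.b 4)))) (.b 4)))) (.b 4)))) (.n (.n (.b 3) (.n
  (.b 10) (.n (.n (.b 3) (.n (.n (.b 3) (.n (.n (.b 3) (.n (.n (.b 3) (.b 8)) (.l 75 10))) (.n (.n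
  (.b 3) (.l 75 10)) (.b 4)))) (.n (.b 9) (.b 4)))) (.b 4)))) (.b 4)))) (.n (.b 9) (.b 4)))) (.b
  4)))) (.b 4)))) (.n (.n (.b 3) (.n (.b 10) (.n (.n (.b 3) (.n (.n (.b 3) (.n (.n (.b 3) (.n (.n
  (.b 3) (.b 8)) (.n (.n (.b 3) (.n (.n (.b 3) (.n (.n (.b 3) (.n (.n (.b 3) (.b 8)) (.n (.n (.b
  3) (.n (.n (.b 3) (.n (.n (.b 3) (.n (.l 211 99) (.n (.n (.b 3) (.n (.n (.b 3) (.b 21)) (.l 211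
  99))) (.b 4)))) (.l 211 99))) (.l 211 99))) (.b 4)))) (.n (.b 10) (.b 4)))) (.n (.n (.b 3) (.n
  (.n (.b 3) (.n (.n (.b 3) (.n (.l 211 99) (.n (.n (.b 3) (.l 211 99)) (.b 4)))) (.n (.n (.b 3)
  (.n (.b 10) (.l 211 99))) (.b 4)))) (.n (.b 9) (.b 4)))) (.b 4)))) (.b 4)))) (.n (.n (.b 3) (.n
  (.b 10) (.n (.n (.b 3) (.n (.n (.b 3) (.b 33)) (.n (.b 9) (.b 4)))) (.b 4)))) (.b 4)))) (.n (.b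
  9) (.b 4)))) (.b 4)))) (.b 4)))) (.n (.b 9) (.b 4)))) (.b 4)))) (.b 4)))) (.n (.b 10) (.b 4))))
  (.n (.n (.b 3) (.n (.n (.b 3) (.n (.n (.b 3) (.n (.n (.b 3) (.b 8)) (.n (.n (.b 3) (.n (.n (.b
  3) (.n (.n (.b 3) (.n (.n (.b 3) (.b 8)) (.n (.n (.b 3) (.n (.n (.b 3) (.n (.n (.b 3) (.n (.n
  (.b 3) (.b 8)) (.n (.n (.b 3) (.n (.n (.b 3) (.b 21)) (.n (.n (.b 3) (.n (.n (.b 3) (.n (.n (.b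
  3) (.n (.n (.b 3) (.b 8)) (.n (.l 141 10) (.b 4)))) (.n (.n (.b 3) (.n (.b 10) (.l 141 10))) (.b
  4)))) (.n (.b 9) (.b 4)))) (.b 4)))) (.b 4)))) (.n (.b 10) (.b 4)))) (.n (.n (.b 3) (.n (.n (.b
  3) (.n (.n (.b 3) (.n (.n (.b 3) (.b 8)) (.n (.n (.b 3) (.n (.n (.b 3) (.n (.n (.b 3) (.n (.n
  (.b 3) (.b 8)) (.n (.n (.b 3) (.l 141 10)) (.b 4)))) (.n (.b 10) (.b 4)))) (.n (.n (.b 3) (.n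
  (.n (.b 3) (.n (.l 141 10) (.n (.n (.b 3) (.l 141 10)) (.b 4)))) (.n (.b 9) (.b 4)))) (.b 4))))
  (.b 4)))) (.n (.n (.b 3) (.n (.b 10) (.n (.n (.b 3) (.n (.n (.b 3) (.n (.n (.b 3) (.n (.l 141
  10) (.n (.l 141 10) (.b 4)))) (.n (.n (.b 3) (.l 141 10)) (.b 4)))) (.n (.b 9) (.b 4)))) (.b
  4)))) (.b 4)))) (.n (.b 9) (.b 4)))) (.b 4)))) (.b 4)))) (.n (.b 10) (.b 4)))) (.n (.n (.b 3)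
  (.n (.n (.b 3) (.n (.n (.b 3) (.n (.n (.b 3) (.b 8)) (.n (.n (.b 3) (.n (.n (.b 3) (.n (.n (.b
  3) (.n (.n (.b 3) (.b 8)) (.n (.n (.b 3) (.n (.n (.b 3) (.n (.n (.b 3) (.n (.n (.b 3) (.b 8))
  (.n (.l 141 10) (.b 4)))) (.n (.b 10) (.b 4)))) (.n (.n (.b 3) (.n (.n (.b 3) (.n (.n (.b 3) (.l
  141 10)) (.l 141 10))) (.n (.b 9) (.b 4)))) (.b 4)))) (.b 4)))) (.n (.b 10) (.b 4)))) (.n (.n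
  (.b 3) (.n (.b 30) (.n (.b 9) (.b 4)))) (.b 4)))) (.b 4)))) (.n (.n (.b 3) (.n (.b 10) (.n (.n
  (.b 3) (.n (.n (.b 3) (.n (.n (.b 3) (.n (.n (.b 3) (.b 8)) (.n (.n (.b 3) (.n (.n (.b 3) (.n
  (.n (.b 3) (.n (.n (.b 3) (.b 8)) (.l 141 10))) (.n (.b 10) (.b 4)))) (.n (.n (.b 3) (.n (.n (.b
  3) (.n (.n (.b 3) (.l 141 10)) (.l 141 10))) (.n (.b 9) (.b 4)))) (.b 4)))) (.b 4)))) (.n (.n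
  (.b 3) (.n (.b 10) (.n (.n (.b 3) (.n (.n (.b 3) (.n (.n (.b 3) (.l 141 10)) (.n (.l 141 10) (.b
  4)))) (.n (.b 9) (.b 4)))) (.b 4)))) (.b 4)))) (.n (.b 9) (.b 4)))) (.b 4)))) (.b 4)))) (.n (.b
  9) (.b 4)))) (.b 4)))) (.b 4)))) (.n (.n (.b 3) (.n (.b 10) (.n (.n (.b 3) (.n (.n (.b 3) (.n
  (.n (.b 3) (.n (.n (.b 3) (.b 8)) (.n (.n (.b 3) (.n (.n (.b 3) (.n (.n (.b 3) (.n (.n (.b 3)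
  (.b 8)) (.n (.n (.b 3) (.n (.n (.b 3) (.n (.n (.b 3) (.n (.n (.b 3) (.b 8)) (.n (.n (.b 3) (.n
  (.l 179 10) (.l 179 10))) (.b 4)))) (.n (.b 10) (.b 4)))) (.n (.n (.b 3) (.n (.n (.b 3) (.n (.n
  (.b 3) (.n (.l 179 10) (.n (.l 179 10) (.b 4)))) (.n (.n (.b 3) (.l 179 10)) (.b 4)))) (.n (.b
  9) (.b 4)))) (.b 4)))) (.b 4)))) (.n (.b 10) (.b 4)))) (.n (.n (.b 3) (.n (.n (.b 3) (.n (.n (.b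
  3) (.n (.n (.b 3) (.b 8)) (.n (.n (.b 3) (.n (.n (.b 3) (.n (.n (.b 3) (.n (.n (.b 3) (.b 8))
  (.l 75 99))) (.n (.b 10) (.b 4)))) (.n (.n (.b 3) (.n (.n (.b 3) (.l 75 99)) (.n (.b 9) (.b
  4)))) (.b 4)))) (.b 4)))) (.n (.n (.b 3) (.n (.b 10) (.n (.n (.b 3) (.n (.n (.b 3) (.n (.b 36)
  (.n (.l 346 0) (.b 4)))) (.n (.b 9) (.b 4)))) (.b 4)))) (.b 4)))) (.n (.b 9) (.b 4)))) (.b 4))))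
  (.b 4)))) (.n (.n (.b 3) (.n (.b 10) (.n (.n (.b 3) (.n (.n (.b 3) (.n (.n (.b 3) (.n (.n (.b 3)
  (.b 8)) (.n (.n (.b 3) (.n (.n (.b 3) (.n (.n (.b 3) (.n (.n (.b 3) (.b 8)) (.n (.n (.b 3) (.l
  179 10)) (.b 4)))) (.n (.b 10) (.b 4)))) (.n (.n (.b 3) (.n (.n (.b 3) (.n (.n (.b 3) (.l 179
  10)) (.n (.n (.b 3) (.l 179 10)) (.b 4)))) (.n (.b 9) (.b 4)))) (.b 4)))) (.b 4)))) (.n (.n (.b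
  3) (.n (.b 10) (.n (.n (.b 3) (.n (.n (.b 3) (.n (.n (.b 3) (.n (.n (.b 3) (.b 8)) (.n (.l 179
  10) (.b 4)))) (.n (.n (.b 3) (.n (.b 10) (.l 179 10))) (.b 4)))) (.n (.b 9) (.b 4)))) (.b 4))))
  (.b 4)))) (.n (.b 9) (.b 4)))) (.b 4)))) (.b 4)))) (.n (.b 9) (.b 4)))) (.b 4)))) (.b 4)))) (.n
  (.b 9) (.b 4)))) (.b 4)))) (.b 4)))) (.n (.n (.b 3) (.n (.b 10) (.n (.n (.b 3) (.n (.n (.b 3)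
  (.n (.n (.b 3) (.n (.n (.b 3) (.b 8)) (.n (.n (.b 3) (.n (.n (.b 3) (.n (.n (.b 3) (.n (.n (.b
  3) (.b 8)) (.n (.n (.b 3) (.n (.n (.b 3) (.n (.n (.b 3) (.n (.n (.b 3) (.b 8)) (.n (.n (.b 3)
  (.n (.n (.b 3) (.b 21)) (.n (.n (.b 3) (.n (.n (.b 3) (.n (.n (.b 3) (.n (.n (.b 3) (.b 8)) (.n
  (.n (.b 3) (.n (.n (.b 3) (.l 157 10)) (.l 157 10))) (.b 4)))) (.n (.n (.b 3) (.n (.b 10) (.n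
  (.n (.b 3) (.l 157 10)) (.b 4)))) (.b 4)))) (.n (.b 9) (.b 4)))) (.b 4)))) (.b 4)))) (.n (.b 10)
  (.b 4)))) (.n (.n (.b 3) (.n (.n (.b 3) (.n (.n (.b 3) (.n (.n (.b 3) (.b 8)) (.n (.n (.b 3) (.n
  (.n (.b 3) (.n (.n (.b 3) (.n (.n (.b 3) (.b 8)) (.n (.n (.b 3) (.n (.n (.b 3) (.n (.n (.b 3)
  (.n (.l 91 99) (.n (.n (.b 3) (.n (.n (.b 3) (.b 21)) (.l 91 99))) (.b 4)))) (.l 91 99))) (.l 91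
  99))) (.b 4)))) (.n (.b 10) (.b 4)))) (.n (.n (.b 3) (.n (.n (.b 3) (.n (.n (.b 3) (.n (.l 91
  99) (.n (.n (.b 3) (.l 91 99)) (.b 4)))) (.n (.n (.b 3) (.n (.b 10) (.l 91 99))) (.b 4)))) (.n
  (.b 9) (.b 4)))) (.b 4)))) (.b 4)))) (.n (.n (.b 3) (.n (.b 10) (.n (.n (.b 3) (.n (.n (.b 3)
  (.b 33)) (.n (.b 9) (.b 4)))) (.b 4)))) (.b 4)))) (.n (.b 9) (.b 4)))) (.b 4)))) (.b 4)))) (.n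
  (.b 10) (.b 4)))) (.n (.n (.b 3) (.n (.n (.b 3) (.n (.n (.b 3) (.n (.n (.b 3) (.b 8)) (.n (.n
  (.b 3) (.n (.n (.b 3) (.n (.n (.b 3) (.n (.n (.b 3) (.b 8)) (.n (.n (.b 3) (.n (.n (.b 3) (.n
  (.n (.b 3) (.n (.n (.b 3) (.b 8)) (.n (.n (.b 3) (.n (.l 195 10) (.n (.n (.b 3) (.l 195 10)) (.b
  4)))) (.b 4)))) (.n (.b 10) (.b 4)))) (.n (.n (.b 3) (.n (.n (.b 3) (.n (.n (.b 3) (.n (.n (.b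
  3) (.b 8)) (.l 195 10))) (.n (.n (.b 3) (.l 195 10)) (.b 4)))) (.n (.b 9) (.b 4)))) (.b 4))))
  (.b 4)))) (.n (.b 10) (.b 4)))) (.n (.n (.b 3) (.n (.n (.b 3) (.n (.n (.b 3) (.n (.n (.b 3) (.b
  8)) (.n (.n (.b 3) (.n (.n (.b 3) (.n (.n (.b 3) (.n (.l 195 10) (.n (.n (.b 3) (.n (.n (.b 3)
  (.n (.l 195 10) (.n (.b 10) (.b 4)))) (.l 195 10))) (.b 4)))) (.n (.b 10) (.b 4)))) (.n (.n (.b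
  3) (.n (.b 30) (.n (.b 9) (.b 4)))) (.b 4)))) (.b 4)))) (.n (.n (.b 3) (.n (.b 10) (.n (.n (.b
  3) (.n (.n (.b 3) (.n (.n (.b 3) (.l 195 10)) (.n (.n (.b 3) (.n (.b 10) (.l 195 10))) (.b 4))))
  (.n (.b 9) (.b 4)))) (.b 4)))) (.b 4)))) (.n (.b 9) (.b 4)))) (.b 4)))) (.b 4)))) (.n (.n (.b 3)
  (.n (.b 10) (.n (.n (.b 3) (.n (.n (.b 3) (.n (.n (.b 3) (.n (.n (.b 3) (.b 8)) (.n (.n (.b 3)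
  (.n (.n (.b 3) (.n (.n (.b 3) (.n (.n (.b 3) (.b 8)) (.n (.n (.b 3) (.l 195 10)) (.b 4)))) (.n
  (.b 10) (.b 4)))) (.n (.n (.b 3) (.n (.n (.b 3) (.n (.n (.b 3) (.n (.n (.b 3) (.b 8)) (.l 195
  10))) (.n (.b 36) (.b 4)))) (.n (.b 9) (.b 4)))) (.b 4)))) (.b 4)))) (.n (.n (.b 3) (.n (.b 10)
  (.n (.n (.b 3) (.n (.n (.b 3) (.n (.n (.b 3) (.n (.n (.b 3) (.b 8)) (.n (.l 195 10) (.b 4))))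
  (.n (.n (.b 3) (.n (.b 10) (.l 195 10))) (.b 4)))) (.n (.b 9) (.b 4)))) (.b 4)))) (.b 4)))) (.n
  (.b 9) (.b 4)))) (.b 4)))) (.b 4)))) (.n (.b 9) (.b 4)))) (.b 4)))) (.b 4)))) (.n (.n (.b 3) (.n
  (.b 10) (.n (.n (.b 3) (.n (.n (.b 3) (.n (.n (.b 3) (.n (.n (.b 3) (.b 8)) (.n (.n (.b 3) (.n
  (.n (.b 3) (.n (.n (.b 3) (.n (.n (.b 3) (.b 8)) (.n (.n (.b 3) (.n (.n (.b 3) (.n (.n (.b 3)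
  (.n (.n (.b 3) (.b 8)) (.n (.n (.b 3) (.n (.n (.b 3) (.b 21)) (.n (.n (.b 3) (.n (.n (.b 3) (.l
  211 10)) (.l 211 10))) (.b 4)))) (.b 4)))) (.n (.b 10) (.b 4)))) (.n (.n (.b 3) (.n (.n (.b 3)
  (.n (.n (.b 3) (.n (.n (.b 3) (.b 8)) (.n (.n (.b 3) (.l 211 10)) (.b 4)))) (.b 33))) (.n (.b 9)
  (.b 4)))) (.b 4)))) (.b 4)))) (.n (.b 10) (.b 4)))) (.n (.n (.b 3) (.n (.n (.b 3) (.n (.n (.b 3)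
  (.n (.n (.b 3) (.b 8)) (.n (.n (.b 3) (.n (.n (.b 3) (.n (.n (.b 3) (.n (.n (.b 3) (.b 8)) (.n
  (.n (.b 3) (.l 211 10)) (.b 4)))) (.n (.b 10) (.b 4)))) (.n (.n (.b 3) (.n (.n (.b 3) (.n (.n
  (.b 3) (.n (.n (.b 3) (.b 8)) (.l 211 10))) (.n (.l 211 10) (.b 4)))) (.n (.b 9) (.b 4)))) (.b
  4)))) (.b 4)))) (.n (.n (.b 3) (.n (.b 10) (.n (.n (.b 3) (.n (.n (.b 3) (.n (.n (.b 3) (.n (.n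
  (.b 3) (.b 8)) (.n (.l 211 10) (.b 4)))) (.n (.n (.b 3) (.n (.b 10) (.n (.n (.b 3) (.n (.n (.b
  3) (.n (.l 211 10) (.n (.n (.b 3) (.n (.b 10) (.l 211 10))) (.b 4)))) (.l 211 10))) (.b 4))))
  (.b 4)))) (.n (.b 9) (.b 4)))) (.b 4)))) (.b 4)))) (.n (.b 9) (.b 4)))) (.b 4)))) (.b 4)))) (.n
  (.n (.b 3) (.n (.b 10) (.n (.n (.b 3) (.n (.n (.b 3) (.n (.n (.b 3) (.n (.n (.b 3) (.b 8)) (.n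
  (.n (.b 3) (.n (.n (.b 3) (.n (.n (.b 3) (.n (.n (.b 3) (.b 8)) (.n (.n (.b 3) (.n (.n (.b 3)
  (.n (.n (.b 3) (.n (.l 256 99) (.n (.n (.b 3) (.n (.n (.b 3) (.b 21)) (.l 256 99))) (.b 4))))
  (.l 256 99))) (.n (.l 256 99) (.b 4)))) (.b 4)))) (.n (.b 10) (.b 4)))) (.n (.n (.b 3) (.n (.n
  (.b 3) (.n (.n (.b 3) (.n (.n (.b 3) (.b 8)) (.n (.n (.b 3) (.l 256 99)) (.b 4)))) (.n (.n (.b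
  3) (.n (.b 10) (.l 256 99))) (.b 4)))) (.n (.b 9) (.b 4)))) (.b 4)))) (.b 4)))) (.n (.n (.b 3)
  (.n (.b 10) (.n (.n (.b 3) (.n (.b 32) (.n (.b 9) (.b 4)))) (.b 4)))) (.b 4)))) (.n (.b 9) (.b
  4)))) (.b 4)))) (.b 4)))) (.n (.b 9) (.b 4)))) (.b 4)))) (.b 4)))) (.n (.b 9) (.b 4)))) (.b
  4)))) (.b 4)))) (.n (.b 9) (.b 4)))) (.b 4))

/-- A subtree of the table. -/
def s52 : T :=
  (.b 4)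

/-- A subtree of the table. -/
def s53 : T :=
  (.b 3)

/-- A subtree of the table. -/
def s54 : T :=
  (.b 3)

/-- A subtree of the table. -/
def s55 : T :=
  (.n (.b 3) (.n (.n (.b 3) (.b 8)) (.n (.n (.b 3) (.n (.n (.b 3) (.n (.n (.b 3) (.n (.n (.b 3)
  (.b 8)) (.n (.n (.b 3) (.n (.n (.b 3) (.n (.n (.b 3) (.n (.n (.b 3) (.b 8)) (.n (.n (.b 3) (.n
  (.n (.b 3) (.b 21)) (.n (.n (.b 3) (.n (.n (.b 3) (.n (.n (.b 3) (.n (.n (.b 3) (.b 8)) (.n (.n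
  (.b 3) (.n (.n (.b 3) (.n (.n (.b 3) (.n (.n (.b 3) (.b 8)) (.n (.n (.b 3) (.n (.n (.b 3) (.n
  (.n (.b 3) (.n (.n (.b 3) (.b 8)) (.n (.n (.b 3) (.n (.l 170 7) (.n (.n (.b 3) (.n (.l 170 7)
  (.n (.b 9) (.b 4)))) (.b 4)))) (.b 4)))) (.n (.b 10) (.b 4)))) (.n (.n (.b 3) (.n (.n (.b 3) (.n
  (.n (.b 3) (.l 170 7)) (.n (.l 170 7) (.b 4)))) (.n (.b 9) (.b 4)))) (.b 4)))) (.b 4)))) (.n (.b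
  10) (.b 4)))) (.n (.n (.b 3) (.n (.n (.b 3) (.n (.n (.b 3) (.n (.n (.b 3) (.b 8)) (.n (.n (.b 3)
  (.n (.n (.b 3) (.n (.n (.b 3) (.l 170 7)) (.n (.b 10) (.b 4)))) (.n (.n (.b 3) (.n (.l 170 7)
  (.n (.b 9) (.b 4)))) (.b 4)))) (.b 4)))) (.n (.n (.b 3) (.n (.b 10) (.n (.n (.b 3) (.n (.n (.b
  3) (.n (.l 170 7) (.n (.n (.b 3) (.l 170 7)) (.b 4)))) (.n (.b 9) (.b 4)))) (.b 4)))) (.b 4))))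
  (.n (.b 9) (.b 4)))) (.b 4)))) (.b 4)))) (.n (.n (.b 3) (.n (.b 10) (.n (.n (.b 3) (.n (.n (.b
  3) (.n (.n (.b 3) (.n (.n (.b 3) (.b 8)) (.n (.n (.b 3) (.n (.n (.b 3) (.n (.n (.b 3) (.n (.n
  (.b 3) (.b 8)) (.n (.l 170 7) (.b 4)))) (.n (.b 10) (.b 4)))) (.n (.n (.b 3) (.n (.n (.b 3) (.n
  (.l 170 7) (.n (.l 170 7) (.b 4)))) (.n (.b 9) (.b 4)))) (.b 4)))) (.b 4)))) (.n (.n (.b 3) (.n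
  (.b 10) (.n (.n (.b 3) (.n (.n (.b 3) (.n (.n (.b 3) (.n (.n (.b 3) (.b 8)) (.l 170 7))) (.n (.n
  (.b 3) (.l 170 7)) (.b 4)))) (.n (.b 9) (.b 4)))) (.b 4)))) (.b 4)))) (.n (.b 9) (.b 4)))) (.b
  4)))) (.b 4)))) (.n (.b 9) (.b 4)))) (.b 4)))) (.b 4)))) (.n (.b 10) (.b 4)))) (.n (.n (.b 3)
  (.n (.n (.b 3) (.n (.n (.b 3) (.n (.n (.b 3) (.b 8)) (.n (.n (.b 3) (.n (.n (.b 3) (.n (.n (.b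
  3) (.n (.n (.b 3) (.b 8)) (.n (.n (.b 3) (.n (.n (.b 3) (.n (.n (.b 3) (.n (.n (.b 3) (.b 8))
  (.n (.n (.b 3) (.n (.n (.b 3) (.b 21)) (.n (.n (.b 3) (.n (.n (.b 3) (.n (.n (.b 3) (.l 104 7))
  (.n (.n (.b 3) (.n (.b 10) (.l 104 7))) (.b 4)))) (.n (.b 9) (.b 4)))) (.b 4)))) (.b 4)))) (.n
  (.b 10) (.b 4)))) (.n (.n (.b 3) (.n (.n (.b 3) (.n (.n (.b 3) (.n (.n (.b 3) (.b 8)) (.n (.n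
  (.b 3) (.b 34)) (.b 4)))) (.n (.n (.b 3) (.n (.b 10) (.n (.n (.b 3) (.n (.n (.b 3) (.n (.n (.b
  3) (.l 0 99)) (.l 0 99))) (.n (.b 9) (.b 4)))) (.b 4)))) (.b 4)))) (.n (.b 9) (.b 4)))) (.b
  4)))) (.b 4)))) (.n (.b 10) (.b 4)))) (.n (.n (.b 3) (.n (.n (.b 3) (.n (.n (.b 3) (.n (.n (.b
  3) (.b 8)) (.n (.n (.b 3) (.n (.n (.b 3) (.n (.n (.b 3) (.n (.n (.b 3) (.b 8)) (.n (.n (.b 3)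
  (.n (.n (.b 3) (.n (.n (.b 3) (.n (.n (.b 3) (.b 8)) (.l 104 7))) (.n (.b 10) (.b 4)))) (.n (.n
  (.b 3) (.n (.l 104 7) (.n (.b 9) (.b 4)))) (.b 4)))) (.b 4)))) (.n (.b 10) (.b 4)))) (.n (.n (.b
  3) (.n (.n (.b 3) (.n (.n (.b 3) (.n (.n (.b 3) (.b 8)) (.n (.b 30) (.b 4)))) (.n (.n (.b 3) (.n
  (.b 10) (.n (.n (.b 3) (.l 104 7)) (.b 4)))) (.b 4)))) (.n (.b 9) (.b 4)))) (.b 4)))) (.b 4))))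
  (.n (.n (.b 3) (.n (.b 10) (.n (.n (.b 3) (.n (.n (.b 3) (.n (.n (.b 3) (.n (.n (.b 3) (.b 8))
  (.n (.n (.b 3) (.n (.n (.b 3) (.n (.l 104 7) (.l 104 7))) (.n (.n (.b 3) (.n (.l 104 7) (.n (.b
  9) (.b 4)))) (.b 4)))) (.b 4)))) (.n (.n (.b 3) (.n (.b 10) (.n (.n (.b 3) (.n (.n (.b 3) (.l
  104 7)) (.n (.b 9) (.b 4)))) (.b 4)))) (.b 4)))) (.n (.b 9) (.b 4)))) (.b 4)))) (.b 4)))) (.n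
  (.b 9) (.b 4)))) (.b 4)))) (.b 4)))) (.n (.n (.b 3) (.n (.b 10) (.n (.n (.b 3) (.n (.n (.b 3)
  (.n (.n (.b 3) (.n (.n (.b 3) (.b 8)) (.n (.n (.b 3) (.n (.n (.b 3) (.n (.n (.b 3) (.n (.n (.b
  3) (.b 8)) (.n (.n (.b 3) (.n (.n (.b 3) (.n (.n (.b 3) (.n (.n (.b 3) (.b 8)) (.n (.n (.b 3)
  (.n (.n (.b 3) (.b 21)) (.l 202 7))) (.b 4)))) (.n (.b 10) (.b 4)))) (.n (.n (.b 3) (.n (.n (.b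
  3) (.n (.n (.b 3) (.l 202 7)) (.l 202 7))) (.n (.b 9) (.b 4)))) (.b 4)))) (.b 4)))) (.n (.b 10)
  (.b 4)))) (.n (.n (.b 3) (.n (.n (.b 3) (.n (.n (.b 3) (.n (.n (.b 3) (.b 8)) (.n (.n (.b 3) (.n
  (.n (.b 3) (.n (.l 202 7) (.n (.b 10) (.b 4)))) (.n (.n (.b 3) (.n (.n (.b 3) (.l 202 7)) (.l
  202 7))) (.b 4)))) (.b 4)))) (.n (.n (.b 3) (.n (.b 10) (.n (.n (.b 3) (.n (.n (.b 3) (.n (.l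
  202 7) (.n (.l 202 7) (.b 4)))) (.n (.b 9) (.b 4)))) (.b 4)))) (.b 4)))) (.n (.b 9) (.b 4))))
  (.b 4)))) (.b 4)))) (.n (.n (.b 3) (.n (.b 10) (.n (.n (.b 3) (.n (.n (.b 3) (.n (.n (.b 3) (.n
  (.n (.b 3) (.b 8)) (.n (.n (.b 3) (.b 33)) (.b 4)))) (.n (.n (.b 3) (.n (.b 10) (.n (.n (.b 3)
  (.n (.n (.b 3) (.n (.n (.b 3) (.l 201 99)) (.n (.l 201 99) (.b 4)))) (.n (.b 9) (.b 4)))) (.b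
  4)))) (.b 4)))) (.n (.b 9) (.b 4)))) (.b 4)))) (.b 4)))) (.n (.b 9) (.b 4)))) (.b 4)))) (.b
  4)))) (.n (.b 9) (.b 4)))) (.b 4)))) (.b 4)))) (.n (.b 10) (.b 4)))) (.n (.n (.b 3) (.n (.n (.b
  3) (.n (.n (.b 3) (.n (.n (.b 3) (.b 8)) (.n (.n (.b 3) (.n (.n (.b 3) (.n (.n (.b 3) (.n (.n
  (.b 3) (.b 8)) (.n (.n (.b 3) (.n (.n (.b 3) (.n (.n (.b 3) (.n (.n (.b 3) (.b 8)) (.n (.n (.b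
  3) (.n (.n (.b 3) (.b 21)) (.n (.n (.b 3) (.n (.n (.b 3) (.n (.n (.b 3) (.n (.n (.b 3) (.b 8))
  (.n (.n (.b 3) (.n (.n (.b 3) (.n (.n (.b 3) (.n (.n (.b 3) (.b 8)) (.l 170 7))) (.n (.b 10) (.b
  4)))) (.n (.n (.b 3) (.n (.l 170 7) (.n (.b 9) (.b 4)))) (.b 4)))) (.b 4)))) (.n (.n (.b 3) (.n
  (.b 10) (.n (.n (.b 3) (.n (.n (.b 3) (.n (.n (.b 3) (.n (.n (.b 3) (.b 8)) (.l 170 7))) (.l 170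
  7))) (.n (.b 9) (.b 4)))) (.b 4)))) (.b 4)))) (.n (.b 9) (.b 4)))) (.b 4)))) (.b 4)))) (.n (.b
  10) (.b 4)))) (.n (.n (.b 3) (.n (.n (.b 3) (.n (.n (.b 3) (.n (.n (.b 3) (.b 8)) (.n (.n (.b 3)
  (.n (.n (.b 3) (.n (.n (.b 3) (.n (.n (.b 3) (.b 8)) (.n (.n (.b 3) (.n (.n (.b 3) (.n (.n (.b
  3) (.l 170 7)) (.n (.b 10) (.b 4)))) (.b 34))) (.b 4)))) (.n (.b 10) (.b 4)))) (.n (.n (.b 3)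
  (.n (.n (.b 3) (.n (.n (.b 3) (.n (.n (.b 3) (.b 8)) (.n (.n (.b 3) (.n (.l 170 7) (.n (.l 170
  7) (.b 4)))) (.b 4)))) (.n (.n (.b 3) (.n (.b 10) (.n (.n (.b 3) (.n (.n (.b 3) (.l 170 7)) (.l
  170 7))) (.b 4)))) (.b 4)))) (.n (.b 9) (.b 4)))) (.b 4)))) (.b 4)))) (.n (.n (.b 3) (.n (.b 10)
  (.n (.n (.b 3) (.n (.n (.b 3) (.n (.n (.b 3) (.n (.n (.b 3) (.b 8)) (.n (.n (.b 3) (.n (.n (.b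
  3) (.n (.n (.b 3) (.l 170 7)) (.l 170 7))) (.n (.n (.b 3) (.l 170 7)) (.b 4)))) (.b 4)))) (.n
  (.n (.b 3) (.n (.b 10) (.n (.n (.b 3) (.n (.n (.b 3) (.l 170 7)) (.n (.b 9) (.b 4)))) (.b 4))))
  (.b 4)))) (.n (.b 9) (.b 4)))) (.b 4)))) (.b 4)))) (.n (.b 9) (.b 4)))) (.b 4)))) (.b 4)))) (.n
  (.b 10) (.b 4)))) (.n (.n (.b 3) (.n (.n (.b 3) (.n (.n (.b 3) (.n (.n (.b 3) (.b 8)) (.n (.n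
  (.b 3) (.n (.n (.b 3) (.n (.n (.b 3) (.n (.n (.b 3) (.b 8)) (.n (.n (.b 3) (.n (.n (.b 3) (.n
  (.n (.b 3) (.n (.n (.b 3) (.b 8)) (.n (.n (.b 3) (.n (.n (.b 3) (.b 21)) (.n (.n (.b 3) (.n (.l
  170 15) (.n (.b 9) (.b 4)))) (.b 4)))) (.b 4)))) (.n (.b 10) (.b 4)))) (.n (.n (.b 3) (.n (.n
  (.b 3) (.n (.n (.b 3) (.n (.n (.b 3) (.b 8)) (.n (.n (.b 3) (.n (.n (.b 3) (.l 170 15)) (.l 170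
  15))) (.b 4)))) (.n (.n (.b 3) (.n (.b 10) (.n (.n (.b 3) (.l 170 15)) (.b 4)))) (.b 4)))) (.n
  (.b 9) (.b 4)))) (.b 4)))) (.b 4)))) (.n (.b 10) (.b 4)))) (.n (.n (.b 3) (.n (.n (.b 3) (.n (.n
  (.b 3) (.n (.n (.b 3) (.b 8)) (.b 30))) (.n (.n (.b 3) (.n (.b 10) (.n (.n (.b 3) (.n (.n (.b 3)
  (.n (.n (.b 3) (.n (.n (.b 3) (.b 8)) (.n (.n (.b 3) (.n (.n (.b 3) (.l 301 99)) (.l 301 99)))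
  (.b 4)))) (.n (.n (.b 3) (.n (.b 10) (.n (.n (.b 3) (.l 301 99)) (.b 4)))) (.b 4)))) (.n (.b 9)
  (.b 4)))) (.b 4)))) (.b 4)))) (.n (.b 9) (.b 4)))) (.b 4)))) (.b 4)))) (.n (.n (.b 3) (.n (.b
  10) (.n (.n (.b 3) (.n (.n (.b 3) (.n (.n (.b 3) (.n (.n (.b 3) (.b 8)) (.n (.n (.b 3) (.n (.n
  (.b 3) (.n (.n (.b 3) (.n (.n (.b 3) (.b 8)) (.n (.n (.b 3) (.n (.n (.b 3) (.n (.l 170 7) (.n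
  (.b 10) (.b 4)))) (.n (.n (.b 3) (.l 170 7)) (.b 4)))) (.b 4)))) (.n (.b 10) (.b 4)))) (.n (.n
  (.b 3) (.n (.n (.b 3) (.n (.n (.b 3) (.n (.n (.b 3) (.b 8)) (.n (.n (.b 3) (.n (.n (.b 3) (.l
  170 7)) (.l 170 7))) (.b 4)))) (.n (.n (.b 3) (.n (.b 10) (.n (.n (.b 3) (.l 170 7)) (.b 4))))
  (.b 4)))) (.n (.b 9) (.b 4)))) (.b 4)))) (.b 4)))) (.n (.n (.b 3) (.n (.b 10) (.n (.n (.b 3) (.n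
  (.n (.b 3) (.n (.n (.b 3) (.n (.n (.b 3) (.b 8)) (.n (.n (.b 3) (.n (.n (.b 3) (.l 170 7)) (.n
  (.l 170 7) (.b 4)))) (.b 4)))) (.n (.n (.b 3) (.n (.b 10) (.n (.n (.b 3) (.n (.l 170 7) (.l 170
  7))) (.b 4)))) (.b 4)))) (.n (.b 9) (.b 4)))) (.b 4)))) (.b 4)))) (.n (.b 9) (.b 4)))) (.b 4))))
  (.b 4)))) (.n (.b 9) (.b 4)))) (.b 4)))) (.b 4)))) (.n (.n (.b 3) (.n (.b 10) (.n (.n (.b 3) (.n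
  (.n (.b 3) (.n (.n (.b 3) (.n (.n (.b 3) (.b 8)) (.n (.n (.b 3) (.n (.n (.b 3) (.n (.n (.b 3)
  (.n (.n (.b 3) (.b 8)) (.n (.n (.b 3) (.n (.n (.b 3) (.n (.n (.b 3) (.n (.n (.b 3) (.b 8)) (.n
  (.n (.b 3) (.n (.n (.b 3) (.b 21)) (.n (.n (.b 3) (.n (.n (.b 3) (.n (.l 208 7) (.n (.l 208 7)
  (.b 4)))) (.n (.b 9) (.b 4)))) (.b 4)))) (.b 4)))) (.n (.b 10) (.b 4)))) (.n (.n (.b 3) (.n (.n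
  (.b 3) (.n (.n (.b 3) (.n (.n (.b 3) (.b 8)) (.n (.n (.b 3) (.n (.n (.b 3) (.n (.n (.b 3) (.l
  208 7)) (.l 208 7))) (.n (.n (.b 3) (.l 208 7)) (.b 4)))) (.b 4)))) (.n (.n (.b 3) (.n (.b 10)
  (.n (.n (.b 3) (.n (.n (.b 3) (.l 208 7)) (.n (.b 9) (.b 4)))) (.b 4)))) (.b 4)))) (.n (.b 9)
  (.b 4)))) (.b 4)))) (.b 4)))) (.n (.b 10) (.b 4)))) (.n (.n (.b 3) (.n (.n (.b 3) (.n (.n (.b 3)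
  (.n (.n (.b 3) (.b 8)) (.n (.n (.b 3) (.n (.n (.b 3) (.n (.n (.b 3) (.n (.n (.b 3) (.b 8)) (.n
  (.n (.b 3) (.n (.n (.b 3) (.n (.l 104 7) (.l 104 7))) (.n (.n (.b 3) (.n (.l 104 7) (.n (.b 9)
  (.b 4)))) (.b 4)))) (.b 4)))) (.n (.b 10) (.b 4)))) (.n (.n (.b 3) (.n (.n (.b 3) (.n (.n (.b 3)
  (.n (.n (.b 3) (.b 8)) (.n (.n (.b 3) (.l 104 7)) (.b 4)))) (.n (.n (.b 3) (.n (.b 10) (.n (.l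
  104 7) (.b 4)))) (.b 4)))) (.n (.b 9) (.b 4)))) (.b 4)))) (.b 4)))) (.n (.n (.b 3) (.n (.b 10)
  (.n (.n (.b 3) (.n (.n (.b 3) (.n (.n (.b 3) (.n (.n (.b 3) (.b 8)) (.n (.n (.b 3) (.n (.n (.b
  3) (.l 346 0)) (.b 36))) (.b 4)))) (.n (.n (.b 3) (.n (.b 10) (.n (.n (.b 3) (.n (.l 228 99) (.n
  (.b 9) (.b 4)))) (.b 4)))) (.b 4)))) (.n (.b 9) (.b 4)))) (.b 4)))) (.b 4)))) (.n (.b 9) (.b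
  4)))) (.b 4)))) (.b 4)))) (.n (.n (.b 3) (.n (.b 10) (.n (.n (.b 3) (.n (.n (.b 3) (.n (.n (.b
  3) (.n (.n (.b 3) (.b 8)) (.n (.n (.b 3) (.n (.n (.b 3) (.n (.n (.b 3) (.n (.n (.b 3) (.b 8))
  (.n (.n (.b 3) (.n (.n (.b 3) (.n (.n (.b 3) (.n (.n (.b 3) (.b 8)) (.l 208 7))) (.n (.b 10) (.b
  4)))) (.b 33))) (.b 4)))) (.n (.b 10) (.b 4)))) (.n (.n (.b 3) (.n (.n (.b 3) (.n (.n (.b 3) (.n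
  (.n (.b 3) (.b 8)) (.n (.n (.b 3) (.n (.n (.b 3) (.n (.n (.b 3) (.l 208 7)) (.l 208 7))) (.n (.l
  208 7) (.b 4)))) (.b 4)))) (.n (.n (.b 3) (.n (.b 10) (.n (.n (.b 3) (.n (.n (.b 3) (.l 208 7))
  (.l 208 7))) (.b 4)))) (.b 4)))) (.n (.b 9) (.b 4)))) (.b 4)))) (.b 4)))) (.n (.n (.b 3) (.n (.b
  10) (.n (.n (.b 3) (.n (.n (.b 3) (.n (.n (.b 3) (.n (.n (.b 3) (.b 8)) (.n (.n (.b 3) (.n (.n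
  (.b 3) (.n (.n (.b 3) (.l 208 7)) (.n (.b 10) (.b 4)))) (.n (.n (.b 3) (.n (.l 208 7) (.n (.b 9)
  (.b 4)))) (.b 4)))) (.b 4)))) (.n (.n (.b 3) (.n (.b 10) (.n (.n (.b 3) (.n (.n (.b 3) (.b 32))
  (.n (.b 9) (.b 4)))) (.b 4)))) (.b 4)))) (.n (.b 9) (.b 4)))) (.b 4)))) (.b 4)))) (.n (.b 9) (.b
  4)))) (.b 4)))) (.b 4)))) (.n (.b 9) (.b 4)))) (.b 4)))) (.b 4)))) (.n (.b 9) (.b 4)))) (.b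
  4)))) (.b 4))))

/-- A subtree of the table. -/
def s56 : T :=
  (.n (.n (.b 3) (.n (.b 10) (.n (.n (.b 3) (.n (.n (.b 3) (.n (.n (.b 3) (.n (.n (.b 3) (.b 8))
  (.n (.n (.b 3) (.n (.n (.b 3) (.n (.n (.b 3) (.n (.n (.b 3) (.b 8)) (.n (.n (.b 3) (.n (.n (.b
  3) (.n (.n (.b 3) (.n (.n (.b 3) (.b 8)) (.n (.n (.b 3) (.n (.n (.b 3) (.b 21)) (.n (.n (.b 3)
  (.n (.n (.b 3) (.n (.n (.b 3) (.n (.n (.b 3) (.b 8)) (.n (.n (.b 3) (.n (.n (.b 3) (.n (.n (.b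
  3) (.n (.n (.b 3) (.b 8)) (.n (.n (.b 3) (.l 186 7)) (.b 4)))) (.n (.b 10) (.b 4)))) (.n (.n (.b
  3) (.n (.n (.b 3) (.n (.n (.b 3) (.n (.n (.b 3) (.b 8)) (.l 186 7))) (.l 186 7))) (.n (.b 9) (.b
  4)))) (.b 4)))) (.b 4)))) (.n (.n (.b 3) (.n (.b 10) (.n (.n (.b 3) (.n (.n (.b 3) (.n (.n (.b
  3) (.n (.l 186 7) (.n (.l 186 7) (.b 4)))) (.n (.n (.b 3) (.l 186 7)) (.b 4)))) (.n (.b 9) (.b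
  4)))) (.b 4)))) (.b 4)))) (.n (.b 9) (.b 4)))) (.b 4)))) (.b 4)))) (.n (.b 10) (.b 4)))) (.n (.n
  (.b 3) (.n (.n (.b 3) (.n (.n (.b 3) (.n (.n (.b 3) (.b 8)) (.n (.n (.b 3) (.n (.n (.b 3) (.n
  (.n (.b 3) (.n (.n (.b 3) (.b 8)) (.n (.n (.b 3) (.n (.n (.b 3) (.n (.n (.b 3) (.n (.n (.b 3)
  (.b 8)) (.n (.n (.b 3) (.n (.n (.b 3) (.b 21)) (.l 120 7))) (.b 4)))) (.n (.b 10) (.b 4)))) (.n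
  (.n (.b 3) (.n (.n (.b 3) (.n (.b 34) (.l 120 7))) (.n (.b 9) (.b 4)))) (.b 4)))) (.b 4)))) (.n
  (.b 10) (.b 4)))) (.n (.n (.b 3) (.n (.n (.b 3) (.n (.n (.b 3) (.n (.n (.b 3) (.b 8)) (.n (.n
  (.b 3) (.n (.n (.b 3) (.n (.l 120 7) (.n (.b 10) (.b 4)))) (.n (.n (.b 3) (.n (.n (.b 3) (.l 120
  7)) (.l 120 7))) (.b 4)))) (.b 4)))) (.n (.n (.b 3) (.n (.b 10) (.n (.n (.b 3) (.n (.n (.b 3)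
  (.n (.l 120 7) (.n (.l 120 7) (.b 4)))) (.n (.b 9) (.b 4)))) (.b 4)))) (.b 4)))) (.n (.b 9) (.b
  4)))) (.b 4)))) (.b 4)))) (.n (.n (.b 3) (.n (.b 10) (.n (.n (.b 3) (.n (.n (.b 3) (.n (.n (.b
  3) (.n (.n (.b 3) (.b 8)) (.n (.n (.b 3) (.n (.n (.b 3) (.n (.n (.b 3) (.n (.n (.b 3) (.b 8))
  (.l 256 99))) (.n (.b 10) (.b 4)))) (.n (.n (.b 3) (.n (.n (.b 3) (.l 256 99)) (.n (.b 9) (.b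
  4)))) (.b 4)))) (.b 4)))) (.n (.n (.b 3) (.n (.b 10) (.n (.b 33) (.b 4)))) (.b 4)))) (.n (.b 9)
  (.b 4)))) (.b 4)))) (.b 4)))) (.n (.b 9) (.b 4)))) (.b 4)))) (.b 4)))) (.n (.b 10) (.b 4)))) (.n
  (.n (.b 3) (.n (.n (.b 3) (.n (.n (.b 3) (.n (.n (.b 3) (.b 8)) (.n (.n (.b 3) (.n (.n (.b 3)
  (.n (.n (.b 3) (.n (.n (.b 3) (.b 8)) (.n (.n (.b 3) (.n (.n (.b 3) (.n (.n (.b 3) (.n (.n (.b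
  3) (.b 8)) (.n (.n (.b 3) (.n (.n (.b 3) (.b 21)) (.n (.n (.b 3) (.n (.n (.b 3) (.n (.l 186 7)
  (.n (.n (.b 3) (.l 186 7)) (.b 4)))) (.n (.b 9) (.b 4)))) (.b 4)))) (.b 4)))) (.n (.b 10) (.b
  4)))) (.n (.n (.b 3) (.n (.n (.b 3) (.n (.n (.b 3) (.n (.n (.b 3) (.b 8)) (.n (.n (.b 3) (.n (.n
  (.b 3) (.n (.n (.b 3) (.l 186 7)) (.l 186 7))) (.n (.n (.b 3) (.l 186 7)) (.b 4)))) (.b 4))))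
  (.n (.n (.b 3) (.n (.b 10) (.n (.n (.b 3) (.n (.n (.b 3) (.l 186 7)) (.n (.b 9) (.b 4)))) (.b
  4)))) (.b 4)))) (.n (.b 9) (.b 4)))) (.b 4)))) (.b 4)))) (.n (.b 10) (.b 4)))) (.n (.n (.b 3)
  (.n (.n (.b 3) (.n (.n (.b 3) (.n (.n (.b 3) (.b 8)) (.n (.n (.b 3) (.n (.n (.b 3) (.n (.n (.b
  3) (.n (.n (.b 3) (.b 8)) (.n (.n (.b 3) (.n (.n (.b 3) (.n (.l 186 7) (.n (.b 10) (.b 4)))) (.n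
  (.n (.b 3) (.n (.l 186 7) (.l 186 7))) (.b 4)))) (.b 4)))) (.n (.b 10) (.b 4)))) (.n (.n (.b 3)
  (.n (.b 30) (.n (.b 9) (.b 4)))) (.b 4)))) (.b 4)))) (.n (.n (.b 3) (.n (.b 10) (.n (.n (.b 3)
  (.n (.n (.b 3) (.n (.n (.b 3) (.n (.n (.b 3) (.b 8)) (.n (.n (.b 3) (.n (.n (.b 3) (.n (.l 186
  7) (.l 186 7))) (.n (.l 186 7) (.b 4)))) (.b 4)))) (.n (.n (.b 3) (.n (.b 10) (.n (.n (.b 3) (.n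
  (.l 186 7) (.l 186 7))) (.b 4)))) (.b 4)))) (.n (.b 9) (.b 4)))) (.b 4)))) (.b 4)))) (.n (.b 9)
  (.b 4)))) (.b 4)))) (.b 4)))) (.n (.n (.b 3) (.n (.b 10) (.n (.n (.b 3) (.n (.n (.b 3) (.n (.n
  (.b 3) (.n (.n (.b 3) (.b 8)) (.n (.n (.b 3) (.n (.n (.b 3) (.n (.n (.b 3) (.n (.n (.b 3) (.b
  8)) (.n (.n (.b 3) (.n (.n (.b 3) (.n (.n (.b 3) (.n (.n (.b 3) (.b 8)) (.l 224 7))) (.n (.b 10)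
  (.b 4)))) (.n (.n (.b 3) (.n (.n (.b 3) (.l 224 7)) (.n (.b 9) (.b 4)))) (.b 4)))) (.b 4)))) (.n
  (.b 10) (.b 4)))) (.n (.n (.b 3) (.n (.n (.b 3) (.n (.n (.b 3) (.n (.n (.b 3) (.b 8)) (.n (.n
  (.b 3) (.n (.n (.b 3) (.n (.l 120 99) (.n (.b 10) (.b 4)))) (.n (.n (.b 3) (.l 120 99)) (.b
  4)))) (.b 4)))) (.n (.n (.b 3) (.n (.b 10) (.n (.n (.b 3) (.b 36)) (.b 4)))) (.b 4)))) (.n (.b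
  9) (.b 4)))) (.b 4)))) (.b 4)))) (.n (.n (.b 3) (.n (.b 10) (.n (.n (.b 3) (.n (.n (.b 3) (.n
  (.n (.b 3) (.n (.n (.b 3) (.b 8)) (.n (.n (.b 3) (.n (.n (.b 3) (.n (.n (.b 3) (.l 224 7)) (.n
  (.b 10) (.b 4)))) (.n (.n (.b 3) (.n (.l 224 7) (.n (.b 9) (.b 4)))) (.b 4)))) (.b 4)))) (.n (.n
  (.b 3) (.n (.b 10) (.n (.n (.b 3) (.n (.n (.b 3) (.n (.l 224 7) (.l 224 7))) (.n (.b 9) (.b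
  4)))) (.b 4)))) (.b 4)))) (.n (.b 9) (.b 4)))) (.b 4)))) (.b 4)))) (.n (.b 9) (.b 4)))) (.b
  4)))) (.b 4)))) (.n (.b 9) (.b 4)))) (.b 4)))) (.b 4)))) (.n (.n (.b 3) (.n (.b 10) (.n (.n (.b
  3) (.n (.n (.b 3) (.n (.n (.b 3) (.n (.n (.b 3) (.b 8)) (.n (.n (.b 3) (.n (.n (.b 3) (.n (.n
  (.b 3) (.n (.n (.b 3) (.b 8)) (.n (.n (.b 3) (.n (.n (.b 3) (.n (.n (.b 3) (.n (.n (.b 3) (.b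
  8)) (.n (.n (.b 3) (.n (.n (.b 3) (.b 21)) (.n (.n (.b 3) (.n (.n (.b 3) (.n (.n (.b 3) (.n (.l
  202 7) (.n (.n (.b 3) (.l 202 7)) (.b 4)))) (.n (.n (.b 3) (.n (.b 10) (.l 202 7))) (.b 4))))
  (.n (.b 9) (.b 4)))) (.b 4)))) (.b 4)))) (.n (.b 10) (.b 4)))) (.n (.n (.b 3) (.n (.n (.b 3) (.n
  (.n (.b 3) (.n (.n (.b 3) (.b 8)) (.n (.n (.b 3) (.n (.n (.b 3) (.n (.n (.b 3) (.n (.n (.b 3)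
  (.b 8)) (.l 136 99))) (.n (.b 10) (.b 4)))) (.n (.n (.b 3) (.n (.n (.b 3) (.l 136 99)) (.n (.b
  9) (.b 4)))) (.b 4)))) (.b 4)))) (.n (.n (.b 3) (.n (.b 10) (.n (.b 33) (.b 4)))) (.b 4)))) (.n
  (.b 9) (.b 4)))) (.b 4)))) (.b 4)))) (.n (.b 10) (.b 4)))) (.n (.n (.b 3) (.n (.n (.b 3) (.n (.n
  (.b 3) (.n (.n (.b 3) (.b 8)) (.n (.n (.b 3) (.n (.n (.b 3) (.n (.n (.b 3) (.n (.n (.b 3) (.b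
  8)) (.n (.n (.b 3) (.n (.n (.b 3) (.n (.n (.b 3) (.n (.n (.b 3) (.b 8)) (.l 240 7))) (.n (.b 10)
  (.b 4)))) (.n (.n (.b 3) (.n (.n (.b 3) (.l 240 7)) (.n (.b 9) (.b 4)))) (.b 4)))) (.b 4)))) (.n
  (.b 10) (.b 4)))) (.n (.n (.b 3) (.n (.n (.b 3) (.n (.n (.b 3) (.n (.n (.b 3) (.b 8)) (.n (.n
  (.b 3) (.n (.n (.b 3) (.l 240 7)) (.n (.n (.b 3) (.l 240 7)) (.b 4)))) (.b 4)))) (.n (.n (.b 3)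
  (.n (.b 10) (.n (.n (.b 3) (.n (.n (.b 3) (.l 240 7)) (.l 240 7))) (.b 4)))) (.b 4)))) (.n (.b
  9) (.b 4)))) (.b 4)))) (.b 4)))) (.n (.n (.b 3) (.n (.b 10) (.n (.n (.b 3) (.n (.n (.b 3) (.n
  (.n (.b 3) (.n (.n (.b 3) (.b 8)) (.n (.n (.b 3) (.n (.n (.b 3) (.n (.n (.b 3) (.l 240 7)) (.n
  (.b 10) (.b 4)))) (.n (.n (.b 3) (.n (.l 240 7) (.n (.b 9) (.b 4)))) (.b 4)))) (.b 4)))) (.n (.n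
  (.b 3) (.n (.b 10) (.n (.n (.b 3) (.n (.n (.b 3) (.n (.l 240 7) (.n (.n (.b 3) (.n (.b 10) (.l
  240 7))) (.b 4)))) (.n (.b 9) (.b 4)))) (.b 4)))) (.b 4)))) (.n (.b 9) (.b 4)))) (.b 4)))) (.b
  4)))) (.n (.b 9) (.b 4)))) (.b 4)))) (.b 4)))) (.n (.n (.b 3) (.n (.b 10) (.n (.n (.b 3) (.n (.n
  (.b 3) (.n (.n (.b 3) (.n (.n (.b 3) (.b 8)) (.n (.n (.b 3) (.n (.n (.b 3) (.n (.n (.b 3) (.n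
  (.n (.b 3) (.b 8)) (.n (.n (.b 3) (.n (.n (.b 3) (.n (.n (.b 3) (.n (.n (.b 3) (.b 8)) (.n (.n
  (.b 3) (.n (.n (.b 3) (.b 21)) (.l 256 7))) (.b 4)))) (.n (.b 10) (.b 4)))) (.n (.n (.b 3) (.n
  (.n (.b 3) (.n (.n (.b 3) (.l 256 7)) (.b 33))) (.n (.b 9) (.b 4)))) (.b 4)))) (.b 4)))) (.n (.b
  10) (.b 4)))) (.n (.n (.b 3) (.n (.n (.b 3) (.n (.n (.b 3) (.n (.n (.b 3) (.b 8)) (.n (.n (.b 3)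
  (.n (.n (.b 3) (.n (.n (.b 3) (.n (.l 256 7) (.n (.l 256 7) (.b 4)))) (.n (.b 10) (.b 4)))) (.n
  (.n (.b 3) (.n (.n (.b 3) (.l 256 7)) (.l 256 7))) (.b 4)))) (.b 4)))) (.n (.n (.b 3) (.n (.b
  10) (.n (.n (.b 3) (.n (.n (.b 3) (.n (.l 256 7) (.n (.l 256 7) (.b 4)))) (.n (.b 9) (.b 4))))
  (.b 4)))) (.b 4)))) (.n (.b 9) (.b 4)))) (.b 4)))) (.b 4)))) (.n (.n (.b 3) (.n (.b 10) (.n (.n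
  (.b 3) (.n (.n (.b 3) (.n (.n (.b 3) (.n (.n (.b 3) (.b 8)) (.n (.n (.b 3) (.n (.n (.b 3) (.n
  (.n (.b 3) (.n (.n (.b 3) (.b 8)) (.n (.l 301 99) (.b 4)))) (.n (.b 10) (.b 4)))) (.n (.n (.b 3)
  (.n (.n (.b 3) (.n (.l 301 99) (.l 301 99))) (.n (.b 9) (.b 4)))) (.b 4)))) (.b 4)))) (.n (.n
  (.b 3) (.n (.b 10) (.b 32))) (.b 4)))) (.n (.b 9) (.b 4)))) (.b 4)))) (.b 4)))) (.n (.b 9) (.b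
  4)))) (.b 4)))) (.b 4)))) (.n (.b 9) (.b 4)))) (.b 4)))) (.b 4)))) (.n (.b 9) (.b 4)))) (.b
  4)))) (.b 4))

/-- A subtree of the table. -/
def s57 : T :=
  (.n (.n (.b 3) (.n (.n (.b 3) (.n (.n (.b 3) (.n (.n (.b 3) (.b 8)) (.n (.n (.b 3) (.n (.n (.b
  3) (.n (.n (.b 3) (.n (.n (.b 3) (.b 8)) (.n (.n (.b 3) (.n (.n (.b 3) (.n (.n (.b 3) (.n (.n
  (.b 3) (.b 8)) (.n (.n (.b 3) (.n (.n (.b 3) (.b 21)) (.n (.n (.b 3) (.n (.n (.b 3) (.n (.n (.b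
  3) (.n (.n (.b 3) (.b 8)) (.n (.n (.b 3) (.n (.n (.b 3) (.n (.n (.b 3) (.n (.n (.b 3) (.b 8))
  (.n (.n (.b 3) (.n (.n (.b 3) (.n (.n (.b 3) (.l 346 0)) (.n (.b 10) (.b 4)))) (.n (.n (.b 3)
  (.n (.l 346 0) (.l 346 0))) (.b 4)))) (.b 4)))) (.n (.b 10) (.b 4)))) (.n (.n (.b 3) (.n (.n (.b
  3) (.n (.n (.b 3) (.n (.n (.b 3) (.b 8)) (.n (.n (.b 3) (.n (.l 346 0) (.l 346 0))) (.b 4))))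
  (.n (.n (.b 3) (.n (.b 10) (.n (.n (.b 3) (.l 346 0)) (.b 4)))) (.b 4)))) (.n (.b 9) (.b 4))))
  (.b 4)))) (.b 4)))) (.n (.n (.b 3) (.n (.b 10) (.n (.n (.b 3) (.n (.n (.b 3) (.n (.n (.b 3) (.n
  (.n (.b 3) (.b 8)) (.n (.n (.b 3) (.n (.n (.b 3) (.n (.l 346 0) (.l 346 0))) (.n (.n (.b 3) (.l
  346 0)) (.b 4)))) (.b 4)))) (.n (.n (.b 3) (.n (.b 10) (.n (.n (.b 3) (.n (.n (.b 3) (.l 346 0))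
  (.n (.b 9) (.b 4)))) (.b 4)))) (.b 4)))) (.n (.b 9) (.b 4)))) (.b 4)))) (.b 4)))) (.n (.b 9) (.b
  4)))) (.b 4)))) (.b 4)))) (.n (.b 10) (.b 4)))) (.n (.n (.b 3) (.n (.n (.b 3) (.n (.n (.b 3) (.n
  (.n (.b 3) (.b 8)) (.n (.n (.b 3) (.n (.n (.b 3) (.n (.n (.b 3) (.n (.n (.b 3) (.b 8)) (.n (.n
  (.b 3) (.n (.n (.b 3) (.n (.n (.b 3) (.n (.n (.b 3) (.b 8)) (.n (.n (.b 3) (.n (.n (.b 3) (.b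
  21)) (.n (.n (.b 3) (.n (.l 346 0) (.l 346 0))) (.b 4)))) (.b 4)))) (.n (.b 10) (.b 4)))) (.n
  (.n (.b 3) (.n (.n (.b 3) (.n (.n (.b 3) (.n (.n (.b 3) (.b 8)) (.b 34))) (.n (.n (.b 3) (.n (.b
  10) (.n (.n (.b 3) (.l 346 0)) (.b 4)))) (.b 4)))) (.n (.b 9) (.b 4)))) (.b 4)))) (.b 4)))) (.n
  (.b 10) (.b 4)))) (.n (.n (.b 3) (.n (.n (.b 3) (.n (.n (.b 3) (.n (.n (.b 3) (.b 8)) (.n (.n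
  (.b 3) (.n (.n (.b 3) (.n (.n (.b 3) (.n (.n (.b 3) (.b 8)) (.n (.n (.b 3) (.n (.l 346 0) (.l
  346 0))) (.b 4)))) (.n (.b 10) (.b 4)))) (.n (.n (.b 3) (.n (.n (.b 3) (.n (.n (.b 3) (.n (.l
  346 0) (.l 346 0))) (.n (.n (.b 3) (.l 346 0)) (.b 4)))) (.n (.b 9) (.b 4)))) (.b 4)))) (.b
  4)))) (.n (.n (.b 3) (.n (.b 10) (.n (.n (.b 3) (.n (.n (.b 3) (.n (.n (.b 3) (.n (.n (.b 3) (.b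
  8)) (.n (.n (.b 3) (.l 346 0)) (.b 4)))) (.n (.n (.b 3) (.n (.b 10) (.n (.l 346 0) (.b 4)))) (.b
  4)))) (.n (.b 9) (.b 4)))) (.b 4)))) (.b 4)))) (.n (.b 9) (.b 4)))) (.b 4)))) (.b 4)))) (.n (.n
  (.b 3) (.n (.b 10) (.n (.n (.b 3) (.n (.n (.b 3) (.n (.n (.b 3) (.n (.n (.b 3) (.b 8)) (.n (.n
  (.b 3) (.n (.n (.b 3) (.n (.n (.b 3) (.n (.n (.b 3) (.b 8)) (.n (.n (.b 3) (.n (.n (.b 3) (.n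
  (.l 346 0) (.l 346 0))) (.n (.n (.b 3) (.l 346 0)) (.b 4)))) (.b 4)))) (.n (.b 10) (.b 4)))) (.n
  (.n (.b 3) (.n (.n (.b 3) (.n (.n (.b 3) (.n (.n (.b 3) (.b 8)) (.n (.n (.b 3) (.l 346 0)) (.b
  4)))) (.n (.n (.b 3) (.n (.b 10) (.n (.l 346 0) (.b 4)))) (.b 4)))) (.n (.b 9) (.b 4)))) (.b
  4)))) (.b 4)))) (.n (.n (.b 3) (.n (.b 10) (.n (.n (.b 3) (.n (.n (.b 3) (.n (.n (.b 3) (.n (.n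
  (.b 3) (.b 8)) (.b 33))) (.n (.n (.b 3) (.n (.b 10) (.n (.n (.b 3) (.n (.l 346 0) (.l 346 0)))
  (.b 4)))) (.b 4)))) (.n (.b 9) (.b 4)))) (.b 4)))) (.b 4)))) (.n (.b 9) (.b 4)))) (.b 4)))) (.b
  4)))) (.n (.b 9) (.b 4)))) (.b 4)))) (.b 4)))) (.n (.b 10) (.b 4)))) (.n (.n (.b 3) (.n (.n (.b
  3) (.n (.n (.b 3) (.n (.n (.b 3) (.b 8)) (.n (.n (.b 3) (.n (.n (.b 3) (.n (.n (.b 3) (.n (.n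
  (.b 3) (.b 8)) (.n (.n (.b 3) (.n (.n (.b 3) (.n (.n (.b 3) (.n (.n (.b 3) (.b 8)) (.n (.n (.b
  3) (.n (.n (.b 3) (.b 21)) (.n (.n (.b 3) (.n (.n (.b 3) (.n (.n (.b 3) (.n (.n (.b 3) (.b 8))
  (.n (.n (.b 3) (.n (.l 346 0) (.l 346 0))) (.b 4)))) (.n (.n (.b 3) (.n (.b 10) (.n (.n (.b 3)
  (.l 346 0)) (.b 4)))) (.b 4)))) (.n (.b 9) (.b 4)))) (.b 4)))) (.b 4)))) (.n (.b 10) (.b 4))))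
  (.n (.n (.b 3) (.n (.n (.b 3) (.n (.n (.b 3) (.n (.n (.b 3) (.b 8)) (.n (.n (.b 3) (.n (.n (.b
  3) (.n (.n (.b 3) (.n (.n (.b 3) (.b 8)) (.n (.n (.b 3) (.n (.l 346 0) (.b 34))) (.b 4)))) (.n
  (.b 10) (.b 4)))) (.n (.n (.b 3) (.n (.n (.b 3) (.n (.n (.b 3) (.n (.l 346 0) (.l 346 0))) (.n
  (.n (.b 3) (.l 346 0)) (.b 4)))) (.n (.b 9) (.b 4)))) (.b 4)))) (.b 4)))) (.n (.n (.b 3) (.n (.b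
  10) (.n (.n (.b 3) (.n (.n (.b 3) (.n (.n (.b 3) (.n (.n (.b 3) (.b 8)) (.n (.n (.b 3) (.l 346
  0)) (.b 4)))) (.n (.n (.b 3) (.n (.b 10) (.n (.l 346 0) (.b 4)))) (.b 4)))) (.n (.b 9) (.b 4))))
  (.b 4)))) (.b 4)))) (.n (.b 9) (.b 4)))) (.b 4)))) (.b 4)))) (.n (.b 10) (.b 4)))) (.n (.n (.b
  3) (.n (.n (.b 3) (.n (.n (.b 3) (.n (.n (.b 3) (.b 8)) (.n (.n (.b 3) (.n (.n (.b 3) (.n (.n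
  (.b 3) (.n (.n (.b 3) (.b 8)) (.n (.n (.b 3) (.n (.n (.b 3) (.n (.n (.b 3) (.n (.n (.b 3) (.b
  8)) (.n (.n (.b 3) (.n (.l 346 0) (.l 346 0))) (.b 4)))) (.n (.b 10) (.b 4)))) (.n (.n (.b 3)
  (.n (.n (.b 3) (.n (.n (.b 3) (.n (.l 346 0) (.l 346 0))) (.n (.n (.b 3) (.l 346 0)) (.b 4))))
  (.n (.b 9) (.b 4)))) (.b 4)))) (.b 4)))) (.n (.b 10) (.b 4)))) (.n (.n (.b 3) (.n (.n (.b 3) (.n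
  (.b 30) (.n (.n (.b 3) (.n (.b 10) (.n (.n (.b 3) (.n (.n (.b 3) (.n (.n (.b 3) (.l 346 0)) (.n
  (.l 346 0) (.b 4)))) (.n (.b 9) (.b 4)))) (.b 4)))) (.b 4)))) (.n (.b 9) (.b 4)))) (.b 4)))) (.b
  4)))) (.n (.n (.b 3) (.n (.b 10) (.n (.n (.b 3) (.n (.n (.b 3) (.n (.n (.b 3) (.n (.n (.b 3) (.b
  8)) (.n (.n (.b 3) (.n (.n (.b 3) (.n (.n (.b 3) (.n (.n (.b 3) (.b 8)) (.n (.n (.b 3) (.l 346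
  0)) (.b 4)))) (.n (.b 10) (.b 4)))) (.n (.n (.b 3) (.n (.n (.b 3) (.n (.n (.b 3) (.l 346 0)) (.n
  (.l 346 0) (.b 4)))) (.n (.b 9) (.b 4)))) (.b 4)))) (.b 4)))) (.n (.n (.b 3) (.n (.b 10) (.n (.n
  (.b 3) (.n (.n (.b 3) (.n (.n (.b 3) (.n (.n (.b 3) (.b 8)) (.n (.l 346 0) (.b 4)))) (.n (.n (.b
  3) (.n (.b 10) (.l 346 0))) (.b 4)))) (.n (.b 9) (.b 4)))) (.b 4)))) (.b 4)))) (.n (.b 9) (.b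
  4)))) (.b 4)))) (.b 4)))) (.n (.b 9) (.b 4)))) (.b 4)))) (.b 4)))) (.n (.n (.b 3) (.n (.b 10)
  (.n (.n (.b 3) (.n (.n (.b 3) (.n (.n (.b 3) (.n (.n (.b 3) (.b 8)) (.n (.n (.b 3) (.n (.n (.b
  3) (.n (.n (.b 3) (.n (.n (.b 3) (.b 8)) (.n (.n (.b 3) (.n (.n (.b 3) (.n (.n (.b 3) (.n (.n
  (.b 3) (.b 8)) (.n (.n (.b 3) (.n (.n (.b 3) (.b 21)) (.n (.n (.b 3) (.l 346 0)) (.b 4)))) (.b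
  4)))) (.n (.b 10) (.b 4)))) (.n (.n (.b 3) (.n (.n (.b 3) (.n (.n (.b 3) (.n (.n (.b 3) (.b 8))
  (.n (.n (.b 3) (.l 346 0)) (.b 4)))) (.n (.n (.b 3) (.n (.b 10) (.n (.l 346 0) (.b 4)))) (.b
  4)))) (.n (.b 9) (.b 4)))) (.b 4)))) (.b 4)))) (.n (.b 10) (.b 4)))) (.n (.n (.b 3) (.n (.n (.b
  3) (.n (.n (.b 3) (.n (.n (.b 3) (.b 8)) (.n (.n (.b 3) (.n (.n (.b 3) (.n (.n (.b 3) (.n (.n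
  (.b 3) (.b 8)) (.n (.n (.b 3) (.l 346 0)) (.b 4)))) (.n (.b 10) (.b 4)))) (.n (.n (.b 3) (.n (.n
  (.b 3) (.n (.n (.b 3) (.l 346 0)) (.n (.l 346 0) (.b 4)))) (.n (.b 9) (.b 4)))) (.b 4)))) (.b
  4)))) (.n (.n (.b 3) (.n (.b 10) (.n (.n (.b 3) (.n (.n (.b 3) (.n (.n (.b 3) (.n (.n (.b 3) (.b
  8)) (.n (.b 36) (.b 4)))) (.n (.n (.b 3) (.n (.b 10) (.l 346 0))) (.b 4)))) (.n (.b 9) (.b 4))))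
  (.b 4)))) (.b 4)))) (.n (.b 9) (.b 4)))) (.b 4)))) (.b 4)))) (.n (.n (.b 3) (.n (.b 10) (.n (.n
  (.b 3) (.n (.n (.b 3) (.n (.n (.b 3) (.n (.n (.b 3) (.b 8)) (.n (.n (.b 3) (.n (.n (.b 3) (.n
  (.n (.b 3) (.n (.n (.b 3) (.b 8)) (.n (.n (.b 3) (.n (.n (.b 3) (.l 346 0)) (.b 33))) (.b 4))))
  (.n (.b 10) (.b 4)))) (.n (.n (.b 3) (.n (.n (.b 3) (.n (.n (.b 3) (.n (.n (.b 3) (.b 8)) (.n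
  (.l 346 0) (.b 4)))) (.n (.n (.b 3) (.n (.b 10) (.l 346 0))) (.b 4)))) (.n (.b 9) (.b 4)))) (.b
  4)))) (.b 4)))) (.n (.n (.b 3) (.n (.b 10) (.n (.n (.b 3) (.n (.n (.b 3) (.n (.n (.b 3) (.n (.n
  (.b 3) (.b 8)) (.n (.n (.b 3) (.n (.l 346 0) (.l 346 0))) (.b 4)))) (.n (.n (.b 3) (.n (.b 10)
  (.n (.n (.b 3) (.l 346 0)) (.b 4)))) (.b 4)))) (.n (.b 9) (.b 4)))) (.b 4)))) (.b 4)))) (.n (.b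
  9) (.b 4)))) (.b 4)))) (.b 4)))) (.n (.b 9) (.b 4)))) (.b 4)))) (.b 4)))) (.n (.b 9) (.b 4))))
  (.b 4)))) (.b 4)))) (.n (.n (.b 3) (.n (.b 10) (.n (.n (.b 3) (.n (.n (.b 3) (.n (.n (.b 3) (.n
  (.n (.b 3) (.b 8)) (.n (.n (.b 3) (.n (.n (.b 3) (.n (.n (.b 3) (.n (.n (.b 3) (.b 8)) (.n (.n
  (.b 3) (.n (.n (.b 3) (.n (.n (.b 3) (.n (.n (.b 3) (.b 8)) (.n (.n (.b 3) (.n (.n (.b 3) (.b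
  21)) (.n (.n (.b 3) (.n (.n (.b 3) (.n (.n (.b 3) (.n (.n (.b 3) (.b 8)) (.n (.n (.b 3) (.n (.n
  (.b 3) (.n (.l 346 0) (.l 346 0))) (.n (.n (.b 3) (.l 346 0)) (.b 4)))) (.b 4)))) (.n (.n (.b 3)
  (.n (.b 10) (.n (.n (.b 3) (.n (.n (.b 3) (.l 346 0)) (.n (.b 9) (.b 4)))) (.b 4)))) (.b 4))))
  (.n (.b 9) (.b 4)))) (.b 4)))) (.b 4)))) (.n (.b 10) (.b 4)))) (.n (.n (.b 3) (.n (.n (.b 3) (.n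
  (.n (.b 3) (.n (.n (.b 3) (.b 8)) (.n (.n (.b 3) (.n (.n (.b 3) (.n (.n (.b 3) (.n (.n (.b 3)
  (.b 8)) (.n (.n (.b 3) (.n (.n (.b 3) (.n (.l 346 0) (.l 346 0))) (.n (.n (.b 3) (.l 346 0)) (.b
  4)))) (.b 4)))) (.n (.b 10) (.b 4)))) (.n (.n (.b 3) (.n (.n (.b 3) (.n (.n (.b 3) (.n (.n (.b
  3) (.b 8)) (.n (.n (.b 3) (.l 346 0)) (.b 4)))) (.n (.n (.b 3) (.n (.b 10) (.n (.l 346 0) (.b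
  4)))) (.b 4)))) (.n (.b 9) (.b 4)))) (.b 4)))) (.b 4)))) (.n (.n (.b 3) (.n (.b 10) (.n (.n (.b
  3) (.n (.n (.b 3) (.n (.n (.b 3) (.n (.n (.b 3) (.b 8)) (.n (.n (.b 3) (.n (.n (.b 3) (.l 346
  0)) (.n (.l 346 0) (.b 4)))) (.b 4)))) (.n (.n (.b 3) (.b 33)) (.b 4)))) (.n (.b 9) (.b 4))))
  (.b 4)))) (.b 4)))) (.n (.b 9) (.b 4)))) (.b 4)))) (.b 4)))) (.n (.b 10) (.b 4)))) (.n (.n (.b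
  3) (.n (.n (.b 3) (.n (.n (.b 3) (.n (.n (.b 3) (.b 8)) (.n (.n (.b 3) (.n (.n (.b 3) (.n (.n
  (.b 3) (.n (.n (.b 3) (.b 8)) (.n (.n (.b 3) (.n (.n (.b 3) (.n (.n (.b 3) (.n (.n (.b 3) (.b
  8)) (.n (.n (.b 3) (.n (.n (.b 3) (.b 21)) (.n (.n (.b 3) (.l 346 0)) (.b 4)))) (.b 4)))) (.n
  (.b 10) (.b 4)))) (.n (.n (.b 3) (.n (.n (.b 3) (.n (.n (.b 3) (.n (.n (.b 3) (.b 8)) (.n (.n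
  (.b 3) (.l 346 0)) (.b 4)))) (.n (.n (.b 3) (.n (.b 10) (.n (.l 346 0) (.b 4)))) (.b 4)))) (.n
  (.b 9) (.b 4)))) (.b 4)))) (.b 4)))) (.n (.b 10) (.b 4)))) (.n (.n (.b 3) (.n (.n (.b 3) (.n (.n
  (.b 3) (.n (.n (.b 3) (.b 8)) (.n (.n (.b 3) (.n (.n (.b 3) (.n (.n (.b 3) (.n (.n (.b 3) (.b
  8)) (.n (.n (.b 3) (.l 346 0)) (.b 4)))) (.n (.b 10) (.b 4)))) (.n (.n (.b 3) (.n (.b 30) (.n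
  (.b 9) (.b 4)))) (.b 4)))) (.b 4)))) (.n (.n (.b 3) (.n (.b 10) (.n (.n (.b 3) (.n (.n (.b 3)
  (.n (.n (.b 3) (.n (.n (.b 3) (.b 8)) (.n (.l 346 0) (.b 4)))) (.n (.n (.b 3) (.n (.b 10) (.l
  346 0))) (.b 4)))) (.n (.b 9) (.b 4)))) (.b 4)))) (.b 4)))) (.n (.b 9) (.b 4)))) (.b 4)))) (.b
  4)))) (.n (.n (.b 3) (.n (.b 10) (.n (.n (.b 3) (.n (.n (.b 3) (.n (.n (.b 3) (.n (.n (.b 3) (.b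
  8)) (.n (.n (.b 3) (.n (.n (.b 3) (.n (.n (.b 3) (.n (.n (.b 3) (.b 8)) (.n (.n (.b 3) (.n (.n
  (.b 3) (.l 346 0)) (.n (.l 346 0) (.b 4)))) (.b 4)))) (.n (.b 10) (.b 4)))) (.n (.n (.b 3) (.n
  (.n (.b 3) (.n (.n (.b 3) (.n (.n (.b 3) (.b 8)) (.n (.l 346 0) (.b 4)))) (.n (.n (.b 3) (.n (.b
  10) (.b 36))) (.b 4)))) (.n (.b 9) (.b 4)))) (.b 4)))) (.b 4)))) (.n (.n (.b 3) (.n (.b 10) (.n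
  (.n (.b 3) (.n (.n (.b 3) (.n (.n (.b 3) (.n (.n (.b 3) (.b 8)) (.n (.n (.b 3) (.n (.l 346 0)
  (.l 346 0))) (.b 4)))) (.n (.n (.b 3) (.n (.b 10) (.n (.n (.b 3) (.l 346 0)) (.b 4)))) (.b 4))))
  (.n (.b 9) (.b 4)))) (.b 4)))) (.b 4)))) (.n (.b 9) (.b 4)))) (.b 4)))) (.b 4)))) (.n (.b 9) (.b
  4)))) (.b 4)))) (.b 4)))) (.n (.n (.b 3) (.n (.b 10) (.n (.n (.b 3) (.n (.n (.b 3) (.n (.n (.b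
  3) (.n (.n (.b 3) (.b 8)) (.n (.n (.b 3) (.n (.n (.b 3) (.n (.n (.b 3) (.n (.n (.b 3) (.b 8))
  (.n (.n (.b 3) (.n (.n (.b 3) (.n (.n (.b 3) (.n (.n (.b 3) (.b 8)) (.n (.n (.b 3) (.n (.n (.b
  3) (.b 21)) (.n (.n (.b 3) (.n (.n (.b 3) (.l 346 0)) (.n (.b 9) (.b 4)))) (.b 4)))) (.b 4))))
  (.n (.b 10) (.b 4)))) (.n (.n (.b 3) (.n (.n (.b 3) (.n (.n (.b 3) (.n (.n (.b 3) (.b 8)) (.n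
  (.n (.b 3) (.n (.n (.b 3) (.l 346 0)) (.n (.l 346 0) (.b 4)))) (.b 4)))) (.n (.n (.b 3) (.b 33))
  (.b 4)))) (.n (.b 9) (.b 4)))) (.b 4)))) (.b 4)))) (.n (.b 10) (.b 4)))) (.n (.n (.b 3) (.n (.n
  (.b 3) (.n (.n (.b 3) (.n (.n (.b 3) (.b 8)) (.n (.n (.b 3) (.n (.n (.b 3) (.n (.n (.b 3) (.n
  (.n (.b 3) (.b 8)) (.n (.n (.b 3) (.n (.n (.b 3) (.l 346 0)) (.n (.l 346 0) (.b 4)))) (.b 4))))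
  (.n (.b 10) (.b 4)))) (.n (.n (.b 3) (.n (.n (.b 3) (.n (.n (.b 3) (.n (.n (.b 3) (.b 8)) (.n
  (.l 346 0) (.b 4)))) (.n (.n (.b 3) (.n (.b 10) (.l 346 0))) (.b 4)))) (.n (.b 9) (.b 4)))) (.b
  4)))) (.b 4)))) (.n (.n (.b 3) (.n (.b 10) (.n (.n (.b 3) (.n (.n (.b 3) (.n (.n (.b 3) (.n (.n
  (.b 3) (.b 8)) (.n (.n (.b 3) (.n (.l 346 0) (.l 346 0))) (.b 4)))) (.n (.n (.b 3) (.n (.b 10)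
  (.n (.n (.b 3) (.l 346 0)) (.b 4)))) (.b 4)))) (.n (.b 9) (.b 4)))) (.b 4)))) (.b 4)))) (.n (.b
  9) (.b 4)))) (.b 4)))) (.b 4)))) (.n (.n (.b 3) (.n (.b 10) (.n (.n (.b 3) (.n (.n (.b 3) (.n
  (.n (.b 3) (.n (.n (.b 3) (.b 8)) (.n (.n (.b 3) (.n (.n (.b 3) (.n (.n (.b 3) (.n (.n (.b 3)
  (.b 8)) (.n (.n (.b 3) (.n (.n (.b 3) (.n (.n (.b 3) (.l 346 0)) (.n (.b 10) (.b 4)))) (.n (.n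
  (.b 3) (.n (.l 346 0) (.l 346 0))) (.b 4)))) (.b 4)))) (.n (.b 10) (.b 4)))) (.n (.n (.b 3) (.n
  (.n (.b 3) (.n (.n (.b 3) (.n (.n (.b 3) (.b 8)) (.n (.n (.b 3) (.n (.l 346 0) (.l 346 0))) (.b
  4)))) (.n (.n (.b 3) (.n (.b 10) (.n (.n (.b 3) (.l 346 0)) (.b 4)))) (.b 4)))) (.n (.b 9) (.b
  4)))) (.b 4)))) (.b 4)))) (.n (.n (.b 3) (.n (.b 10) (.n (.n (.b 3) (.n (.n (.b 3) (.n (.n (.b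
  3) (.n (.n (.b 3) (.b 8)) (.n (.n (.b 3) (.n (.n (.b 3) (.n (.l 346 0) (.l 346 0))) (.n (.n (.b
  3) (.l 346 0)) (.b 4)))) (.b 4)))) (.n (.b 32) (.b 4)))) (.n (.b 9) (.b 4)))) (.b 4)))) (.b
  4)))) (.n (.b 9) (.b 4)))) (.b 4)))) (.b 4)))) (.n (.b 9) (.b 4)))) (.b 4)))) (.b 4)))) (.n (.b
  9) (.b 4)))) (.b 4)))) (.b 4)))) (.b 9))) (.b 4))

/-- A subtree of the table. -/
def s58 : T :=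
  (.b 4)

/-- A subtree of the table. -/
def s59 : T :=
  (.b 4)

/-- A subtree of the table. -/
def u0 : T := .n s5 s6

/-- A subtree of the table. -/
def u1 : T := .n s4 u0

/-- A subtree of the table. -/
def u2 : T := .n u1 s7

/-- A subtree of the table. -/
def u3 : T := .n s3 u2

/-- A subtree of the table. -/
def u4 : T := .n s2 u3

/-- A subtree of the table. -/
def u5 : T := .n s9 s10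

/-- A subtree of the table. -/
def u6 : T := .n s8 u5

/-- A subtree of the table. -/
def u7 : T := .n u6 s11

/-- A subtree of the table. -/
def u8 : T := .n u4 u7

/-- A subtree of the table. -/
def u9 : T := .n s1 u8

/-- A subtree of the table. -/
def u10 : T := .n s14 s15

/-- A subtree of the table. -/
def u11 : T := .n s13 u10

/-- A subtree of the table. -/
def u12 : T := .n s18 s19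

/-- A subtree of the table. -/
def u13 : T := .n s17 u12

/-- A subtree of the table. -/
def u14 : T := .n u13 s20

/-- A subtree of the table. -/
def u15 : T := .n s16 u14

/-- A subtree of the table. -/
def u16 : T := .n u15 s21

/-- A subtree of the table. -/
def u17 : T := .n u11 u16

/-- A subtree of the table. -/
def u18 : T := .n s12 u17

/-- A subtree of the table. -/
def u19 : T := .n u18 s22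

/-- A subtree of the table. -/
def u20 : T := .n u9 u19

/-- A subtree of the table. -/
def u21 : T := .n s0 u20

/-- A subtree of the table. -/
def u22 : T := .n s28 s29

/-- A subtree of the table. -/
def u23 : T := .n s27 u22

/-- A subtree of the table. -/
def u24 : T := .n u23 s30

/-- A subtree of the table. -/
def u25 : T := .n s26 u24

/-- A subtree of the table. -/
def u26 : T := .n s25 u25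

/-- A subtree of the table. -/
def u27 : T := .n s32 s33

/-- A subtree of the table. -/
def u28 : T := .n s31 u27

/-- A subtree of the table. -/
def u29 : T := .n u28 s34

/-- A subtree of the table. -/
def u30 : T := .n u26 u29

/-- A subtree of the table. -/
def u31 : T := .n s24 u30

/-- A subtree of the table. -/
def u32 : T := .n s37 s38

/-- A subtree of the table. -/
def u33 : T := .n s36 u32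

/-- A subtree of the table. -/
def u34 : T := .n s41 s42

/-- A subtree of the table. -/
def u35 : T := .n s40 u34

/-- A subtree of the table. -/
def u36 : T := .n u35 s43

/-- A subtree of the table. -/
def u37 : T := .n s39 u36

/-- A subtree of the table. -/
def u38 : T := .n u37 s44

/-- A subtree of the table. -/
def u39 : T := .n u33 u38

/-- A subtree of the table. -/
def u40 : T := .n s35 u39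

/-- A subtree of the table. -/
def u41 : T := .n u40 s45

/-- A subtree of the table. -/
def u42 : T := .n u31 u41

/-- A subtree of the table. -/
def u43 : T := .n s23 u42

/-- A subtree of the table. -/
def u44 : T := .n s50 s51

/-- A subtree of the table. -/
def u45 : T := .n s49 u44

/-- A subtree of the table. -/
def u46 : T := .n u45 s52

/-- A subtree of the table. -/
def u47 : T := .n s48 u46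

/-- A subtree of the table. -/
def u48 : T := .n s47 u47

/-- A subtree of the table. -/
def u49 : T := .n s55 s56

/-- A subtree of the table. -/
def u50 : T := .n s54 u49

/-- A subtree of the table. -/
def u51 : T := .n u50 s57

/-- A subtree of the table. -/
def u52 : T := .n s53 u51

/-- A subtree of the table. -/
def u53 : T := .n u52 s58

/-- A subtree of the table. -/
def u54 : T := .n u48 u53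

/-- A subtree of the table. -/
def u55 : T := .n s46 u54

/-- A subtree of the table. -/
def u56 : T := .n u55 s59

/-- A subtree of the table. -/
def u57 : T := .n u43 u56

/-- A subtree of the table. -/
def u58 : T := .n u21 u57

/-- The table. -/
def tb : T := u58

end Pool.Agent.Helper49.TF.C0
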