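import Pool.Agent.Helper49.TF.Defs

set_option autoImplicit false
set_option maxRecDepth 100000

/-!
# Table E0: data
-/

namespace Pool.Agent.Helper49.TF.E0

/-- Upper bounds. -/
def es : List ℕ := [0, 0, 0, 1, 1, 1, 2, 2, 2, 3, 3, 3, 4, 4, 4, 5, 5, 5, 6, 6, 6, 7, 7, 7, 8, 8, 8, 9, 9, 9,
  10, 10, 10, 11, 11, 11, 12, 12, 12]

/-- Lower bounds. -/
def el : List ℕ := [0, 0, 0, 1, 1, 1, 2, 2, 2, 3, 3, 3, 3, 4, 4, 4, 5, 5, 5, 6, 6, 6, 6, 7, 7, 7, 8, 8, 8, 9,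
  9, 9, 9, 10, 10, 10, 11, 11, 11]

/-- Rewards. -/
def ws : List ℕ := [72, 60, 54, 48, 36, 30, 18]

/-- A subtree of the table. -/
def s0 : T :=
  (.b 4)

/-- A subtree of the table. -/
def s1 : T :=
  (.b 4)

/-- A subtree of the table. -/
def s2 : T :=
  (.b 4)

/-- A subtree of the table. -/
def s3 : T :=
  (.n (.b 4) (.n (.n (.b 4) (.n (.n (.b 4) (.b 12)) (.n (.n (.b 4) (.n (.n (.b 4) (.b 10)) (.n (.n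
  (.b 4) (.n (.n (.b 4) (.n (.n (.b 4) (.n (.n (.b 4) (.n (.n (.b 4) (.n (.b 12) (.n (.n (.b 4)
  (.n (.n (.b 4) (.b 10)) (.n (.n (.b 4) (.n (.n (.b 4) (.n (.n (.b 4) (.b 28)) (.n (.b 10) (.b
  5)))) (.n (.n (.b 4) (.n (.n (.b 4) (.n (.l 51 99) (.n (.b 10) (.b 5)))) (.n (.l 51 99) (.b
  5)))) (.b 5)))) (.b 5)))) (.b 5)))) (.n (.n (.b 4) (.n (.n (.b 4) (.b 10)) (.n (.n (.b 4) (.n
  (.n (.b 4) (.n (.n (.b 4) (.n (.n (.b 4) (.n (.n (.b 4) (.n (.b 12) (.l 21 5))) (.l 21 5))) (.n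
  (.n (.b 4) (.l 21 5)) (.b 5)))) (.n (.b 10) (.b 5)))) (.n (.n (.b 4) (.n (.n (.b 4) (.n (.n (.b
  4) (.l 21 5)) (.n (.b 10) (.b 5)))) (.n (.n (.b 4) (.n (.l 21 5) (.n (.l 21 5) (.b 5)))) (.b
  5)))) (.b 5)))) (.b 5)))) (.b 5)))) (.n (.n (.b 4) (.n (.n (.b 4) (.b 10)) (.n (.n (.b 4) (.n
  (.n (.b 4) (.n (.n (.b 4) (.n (.n (.b 4) (.n (.n (.b 4) (.n (.b 12) (.l 21 5))) (.n (.n (.b 4)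
  (.l 21 5)) (.b 5)))) (.n (.n (.b 4) (.n (.n (.b 4) (.b 10)) (.n (.l 21 5) (.b 5)))) (.b 5))))
  (.n (.b 10) (.b 5)))) (.n (.n (.b 4) (.n (.n (.b 4) (.n (.n (.b 4) (.n (.n (.b 4) (.l 21 5)) (.n
  (.l 21 5) (.b 5)))) (.n (.b 10) (.b 5)))) (.n (.n (.b 4) (.n (.n (.b 4) (.n (.n (.b 4) (.l 21
  5)) (.l 21 5))) (.n (.n (.b 4) (.l 21 5)) (.b 5)))) (.b 5)))) (.b 5)))) (.b 5)))) (.b 5)))) (.n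
  (.b 10) (.b 5)))) (.n (.n (.b 4) (.n (.n (.b 4) (.n (.n (.b 4) (.n (.n (.b 4) (.n (.n (.b 4) (.n
  (.b 12) (.n (.n (.b 4) (.n (.n (.b 4) (.b 10)) (.n (.n (.b 4) (.n (.n (.b 4) (.l 27 5)) (.n (.l
  27 5) (.b 5)))) (.b 5)))) (.b 5)))) (.n (.n (.b 4) (.n (.n (.b 4) (.b 10)) (.n (.n (.b 4) (.n
  (.n (.b 4) (.n (.n (.b 4) (.l 27 5)) (.n (.b 10) (.b 5)))) (.n (.n (.b 4) (.n (.l 27 5) (.l 27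
  5))) (.b 5)))) (.b 5)))) (.b 5)))) (.n (.n (.b 4) (.n (.n (.b 4) (.b 10)) (.n (.n (.b 4) (.n (.n
  (.b 4) (.n (.n (.b 4) (.n (.n (.b 4) (.n (.l 27 5) (.l 27 5))) (.n (.l 27 5) (.b 5)))) (.n (.b
  10) (.b 5)))) (.n (.n (.b 4) (.n (.n (.b 4) (.n (.l 27 5) (.l 27 5))) (.n (.n (.b 4) (.n (.l 27
  5) (.n (.l 27 5) (.b 5)))) (.b 5)))) (.b 5)))) (.b 5)))) (.b 5)))) (.n (.b 10) (.b 5)))) (.n (.n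
  (.b 4) (.n (.n (.b 4) (.n (.n (.b 4) (.n (.n (.b 4) (.n (.n (.b 4) (.n (.b 12) (.n (.n (.b 4)
  (.n (.n (.b 4) (.b 10)) (.n (.l 27 5) (.b 5)))) (.b 5)))) (.n (.n (.b 4) (.n (.n (.b 4) (.b 10))
  (.n (.n (.b 4) (.n (.n (.b 4) (.l 27 5)) (.l 27 5))) (.b 5)))) (.b 5)))) (.n (.n (.b 4) (.n (.n
  (.b 4) (.b 10)) (.n (.n (.b 4) (.n (.n (.b 4) (.n (.l 27 5) (.n (.b 10) (.b 5)))) (.n (.n (.b 4)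
  (.l 27 5)) (.b 5)))) (.b 5)))) (.b 5)))) (.n (.b 10) (.b 5)))) (.n (.n (.b 4) (.n (.n (.b 4) (.n
  (.n (.b 4) (.n (.n (.b 4) (.n (.n (.b 4) (.n (.b 12) (.n (.l 27 5) (.b 5)))) (.n (.n (.b 4) (.n
  (.l 27 5) (.l 27 5))) (.b 5)))) (.n (.n (.b 4) (.n (.n (.b 4) (.b 10)) (.n (.n (.b 4) (.l 27 5))
  (.b 5)))) (.b 5)))) (.n (.b 10) (.b 5)))) (.n (.b 18) (.b 5)))) (.b 5)))) (.b 5)))) (.b 5))))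
  (.b 5)))) (.b 5)))) (.n (.n (.b 4) (.n (.n (.b 4) (.b 10)) (.n (.n (.b 4) (.n (.n (.b 4) (.n (.n
  (.b 4) (.n (.n (.b 4) (.n (.n (.b 4) (.n (.b 12) (.n (.n (.b 4) (.n (.n (.b 4) (.b 10)) (.n (.n
  (.b 4) (.n (.n (.b 4) (.n (.n (.b 4) (.n (.n (.b 4) (.b 28)) (.n (.n (.b 4) (.n (.n (.b 4) (.b
  10)) (.l 21 99))) (.b 5)))) (.n (.b 10) (.b 5)))) (.n (.n (.b 4) (.n (.n (.b 4) (.n (.n (.b 4)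
  (.n (.l 57 5) (.n (.l 57 5) (.b 5)))) (.n (.b 10) (.b 5)))) (.n (.n (.b 4) (.n (.l 57 5) (.l 57
  5))) (.b 5)))) (.b 5)))) (.b 5)))) (.b 5)))) (.n (.n (.b 4) (.n (.n (.b 4) (.b 10)) (.n (.n (.b
  4) (.n (.n (.b 4) (.n (.n (.b 4) (.n (.n (.b 4) (.n (.n (.b 4) (.n (.b 12) (.l 51 5))) (.n (.n
  (.b 4) (.l 51 5)) (.b 5)))) (.n (.n (.b 4) (.n (.n (.b 4) (.b 10)) (.n (.n (.b 4) (.n (.n (.b 4)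
  (.n (.l 51 5) (.n (.b 10) (.b 5)))) (.l 51 5))) (.b 5)))) (.b 5)))) (.n (.b 10) (.b 5)))) (.n
  (.n (.b 4) (.n (.n (.b 4) (.n (.n (.b 4) (.n (.n (.b 4) (.l 51 5)) (.n (.l 51 5) (.b 5)))) (.n
  (.b 10) (.b 5)))) (.n (.n (.b 4) (.n (.n (.b 4) (.n (.l 51 5) (.l 51 5))) (.n (.n (.b 4) (.l 51
  5)) (.b 5)))) (.b 5)))) (.b 5)))) (.b 5)))) (.b 5)))) (.n (.n (.b 4) (.n (.n (.b 4) (.b 10)) (.n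
  (.n (.b 4) (.n (.n (.b 4) (.n (.n (.b 4) (.n (.n (.b 4) (.n (.n (.b 4) (.n (.b 12) (.n (.n (.b
  4) (.l 51 5)) (.b 5)))) (.n (.n (.b 4) (.n (.n (.b 4) (.b 10)) (.n (.l 51 5) (.b 5)))) (.b 5))))
  (.n (.n (.b 4) (.n (.n (.b 4) (.b 10)) (.n (.n (.b 4) (.n (.l 51 5) (.l 51 5))) (.b 5)))) (.b
  5)))) (.n (.b 10) (.b 5)))) (.n (.n (.b 4) (.n (.n (.b 4) (.n (.n (.b 4) (.n (.n (.b 4) (.n (.n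
  (.b 4) (.n (.b 12) (.l 51 5))) (.n (.l 51 5) (.b 5)))) (.n (.n (.b 4) (.n (.l 51 5) (.l 51 5)))
  (.b 5)))) (.n (.b 10) (.b 5)))) (.n (.n (.b 4) (.n (.n (.b 4) (.n (.n (.b 4) (.n (.n (.b 4) (.l
  51 5)) (.l 51 5))) (.n (.b 10) (.b 5)))) (.n (.n (.b 4) (.n (.n (.b 4) (.l 51 5)) (.n (.b 18)
  (.b 5)))) (.b 5)))) (.b 5)))) (.b 5)))) (.b 5)))) (.b 5)))) (.n (.b 10) (.b 5)))) (.n (.n (.b 4)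
  (.n (.n (.b 4) (.n (.n (.b 4) (.n (.n (.b 4) (.n (.n (.b 4) (.n (.b 12) (.n (.n (.b 4) (.n (.n
  (.b 4) (.b 10)) (.n (.n (.b 4) (.n (.n (.b 4) (.n (.n (.b 4) (.l 51 5)) (.n (.b 10) (.b 5))))
  (.n (.n (.b 4) (.n (.l 51 5) (.l 51 5))) (.b 5)))) (.b 5)))) (.b 5)))) (.n (.n (.b 4) (.n (.n
  (.b 4) (.b 10)) (.n (.n (.b 4) (.n (.n (.b 4) (.n (.n (.b 4) (.n (.n (.b 4) (.l 51 5)) (.n (.l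
  51 5) (.b 5)))) (.n (.b 10) (.b 5)))) (.n (.n (.b 4) (.n (.n (.b 4) (.n (.n (.b 4) (.l 51 5))
  (.l 51 5))) (.n (.n (.b 4) (.l 51 5)) (.b 5)))) (.b 5)))) (.b 5)))) (.b 5)))) (.n (.n (.b 4) (.n
  (.n (.b 4) (.b 10)) (.n (.n (.b 4) (.n (.n (.b 4) (.n (.n (.b 4) (.n (.n (.b 4) (.n (.n (.b 4)
  (.l 51 5)) (.n (.l 51 5) (.b 5)))) (.n (.n (.b 4) (.n (.l 51 5) (.n (.l 51 5) (.b 5)))) (.b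
  5)))) (.n (.b 10) (.b 5)))) (.n (.n (.b 4) (.n (.n (.b 4) (.n (.n (.b 4) (.n (.l 51 5) (.n (.n
  (.b 4) (.l 51 5)) (.b 5)))) (.n (.b 10) (.b 5)))) (.n (.n (.b 4) (.n (.n (.b 4) (.l 51 5)) (.n
  (.l 51 5) (.b 5)))) (.b 5)))) (.b 5)))) (.b 5)))) (.b 5)))) (.n (.b 10) (.b 5)))) (.n (.n (.b 4)
  (.n (.n (.b 4) (.n (.n (.b 4) (.n (.n (.b 4) (.n (.n (.b 4) (.n (.b 12) (.n (.n (.b 4) (.n (.n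
  (.b 4) (.b 10)) (.n (.n (.b 4) (.n (.l 51 5) (.n (.l 51 5) (.b 5)))) (.b 5)))) (.b 5)))) (.n (.n
  (.b 4) (.n (.n (.b 4) (.b 10)) (.n (.n (.b 4) (.n (.n (.b 4) (.n (.l 51 5) (.l 51 5))) (.n (.n
  (.b 4) (.l 51 5)) (.b 5)))) (.b 5)))) (.b 5)))) (.n (.n (.b 4) (.n (.n (.b 4) (.b 10)) (.n (.n
  (.b 4) (.n (.n (.b 4) (.n (.n (.b 4) (.n (.l 51 5) (.l 51 5))) (.n (.b 10) (.b 5)))) (.n (.n (.b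
  4) (.n (.n (.b 4) (.n (.l 51 5) (.l 51 5))) (.n (.l 51 5) (.b 5)))) (.b 5)))) (.b 5)))) (.b
  5)))) (.n (.b 10) (.b 5)))) (.n (.n (.b 4) (.n (.n (.b 4) (.n (.n (.b 4) (.n (.n (.b 4) (.n (.n
  (.b 4) (.n (.b 12) (.n (.n (.b 4) (.n (.l 51 5) (.l 51 5))) (.b 5)))) (.n (.n (.b 4) (.n (.n (.b
  4) (.b 10)) (.n (.n (.b 4) (.l 51 5)) (.b 5)))) (.b 5)))) (.n (.n (.b 4) (.n (.n (.b 4) (.b 10))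
  (.n (.n (.b 4) (.n (.n (.b 4) (.l 51 5)) (.n (.l 51 5) (.b 5)))) (.b 5)))) (.b 5)))) (.n (.b 10)
  (.b 5)))) (.n (.b 18) (.b 5)))) (.b 5)))) (.b 5)))) (.b 5)))) (.b 5)))) (.b 5))))

/-- A subtree of the table. -/
def s4 : T :=
  (.n (.n (.b 4) (.n (.n (.b 4) (.b 10)) (.n (.n (.b 4) (.n (.n (.b 4) (.n (.n (.b 4) (.n (.n (.b
  4) (.n (.n (.b 4) (.n (.b 12) (.n (.n (.b 4) (.n (.n (.b 4) (.b 10)) (.n (.n (.b 4) (.n (.n (.b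
  4) (.n (.n (.b 4) (.n (.n (.b 4) (.n (.n (.b 4) (.b 28)) (.n (.n (.b 4) (.n (.n (.b 4) (.b 10))
  (.l 21 99))) (.b 5)))) (.n (.n (.b 4) (.n (.n (.b 4) (.b 10)) (.n (.l 27 5) (.b 5)))) (.b 5))))
  (.n (.b 10) (.b 5)))) (.n (.n (.b 4) (.n (.n (.b 4) (.n (.n (.b 4) (.n (.n (.b 4) (.l 63 5)) (.n
  (.l 63 5) (.b 5)))) (.n (.b 10) (.b 5)))) (.n (.n (.b 4) (.n (.n (.b 4) (.n (.l 63 5) (.n (.b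
  10) (.b 5)))) (.n (.n (.b 4) (.l 63 5)) (.b 5)))) (.b 5)))) (.b 5)))) (.b 5)))) (.b 5)))) (.n
  (.n (.b 4) (.n (.n (.b 4) (.b 10)) (.n (.n (.b 4) (.n (.n (.b 4) (.n (.n (.b 4) (.n (.n (.b 4)
  (.n (.n (.b 4) (.n (.b 12) (.n (.n (.b 4) (.n (.n (.b 4) (.b 10)) (.l 57 5))) (.b 5)))) (.n (.n
  (.b 4) (.n (.n (.b 4) (.b 10)) (.n (.n (.b 4) (.l 57 5)) (.b 5)))) (.b 5)))) (.n (.n (.b 4) (.n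
  (.n (.b 4) (.b 10)) (.n (.n (.b 4) (.n (.n (.b 4) (.n (.l 81 7) (.n (.b 10) (.b 5)))) (.l 81
  7))) (.b 5)))) (.b 5)))) (.n (.b 10) (.b 5)))) (.n (.n (.b 4) (.n (.n (.b 4) (.n (.n (.b 4) (.n
  (.n (.b 4) (.n (.n (.b 4) (.l 57 5)) (.n (.l 57 5) (.b 5)))) (.n (.n (.b 4) (.n (.l 57 5) (.l 57
  5))) (.b 5)))) (.n (.b 10) (.b 5)))) (.n (.n (.b 4) (.n (.n (.b 4) (.n (.n (.b 4) (.n (.n (.b 4)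
  (.l 57 5)) (.l 57 5))) (.n (.b 10) (.b 5)))) (.n (.n (.b 4) (.n (.n (.b 4) (.l 57 5)) (.n (.b
  18) (.b 5)))) (.b 5)))) (.b 5)))) (.b 5)))) (.b 5)))) (.b 5)))) (.n (.n (.b 4) (.n (.n (.b 4)
  (.b 10)) (.n (.n (.b 4) (.n (.n (.b 4) (.n (.n (.b 4) (.n (.n (.b 4) (.n (.n (.b 4) (.n (.b 12)
  (.n (.n (.b 4) (.n (.n (.b 4) (.b 10)) (.n (.n (.b 4) (.l 57 5)) (.b 5)))) (.b 5)))) (.n (.n (.b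
  4) (.n (.n (.b 4) (.b 10)) (.n (.n (.b 4) (.n (.l 57 5) (.n (.l 57 5) (.b 5)))) (.b 5)))) (.b
  5)))) (.n (.n (.b 4) (.n (.n (.b 4) (.b 10)) (.n (.n (.b 4) (.n (.n (.b 4) (.n (.l 114 0) (.l 9
  7))) (.n (.n (.b 4) (.l 81 3)) (.b 5)))) (.b 5)))) (.b 5)))) (.n (.b 10) (.b 5)))) (.n (.n (.b
  4) (.n (.n (.b 4) (.n (.n (.b 4) (.n (.n (.b 4) (.n (.n (.b 4) (.n (.b 12) (.n (.l 57 5) (.b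
  5)))) (.n (.n (.b 4) (.n (.l 57 5) (.n (.l 57 5) (.b 5)))) (.b 5)))) (.n (.n (.b 4) (.n (.n (.b
  4) (.b 10)) (.n (.n (.b 4) (.l 57 5)) (.b 5)))) (.b 5)))) (.n (.b 10) (.b 5)))) (.n (.n (.b 4)
  (.n (.n (.b 4) (.n (.n (.b 4) (.n (.n (.b 4) (.n (.l 57 5) (.n (.l 57 5) (.b 5)))) (.n (.n (.b
  4) (.l 57 5)) (.b 5)))) (.n (.b 10) (.b 5)))) (.n (.n (.b 4) (.n (.n (.b 4) (.n (.n (.b 4) (.n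
  (.n (.b 4) (.l 57 5)) (.l 57 5))) (.n (.b 10) (.b 5)))) (.n (.b 18) (.b 5)))) (.b 5)))) (.b
  5)))) (.b 5)))) (.b 5)))) (.b 5)))) (.n (.b 10) (.b 5)))) (.n (.n (.b 4) (.n (.n (.b 4) (.n (.n
  (.b 4) (.n (.n (.b 4) (.n (.n (.b 4) (.n (.b 12) (.n (.n (.b 4) (.n (.n (.b 4) (.b 10)) (.n (.n
  (.b 4) (.n (.n (.b 4) (.n (.n (.b 4) (.n (.n (.b 4) (.n (.l 57 5) (.l 57 5))) (.n (.l 57 5) (.b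
  5)))) (.n (.b 10) (.b 5)))) (.n (.n (.b 4) (.n (.n (.b 4) (.n (.l 57 5) (.l 57 5))) (.n (.n (.b
  4) (.n (.l 57 5) (.n (.n (.b 4) (.l 57 5)) (.b 5)))) (.b 5)))) (.b 5)))) (.b 5)))) (.b 5)))) (.n
  (.n (.b 4) (.n (.n (.b 4) (.b 10)) (.n (.n (.b 4) (.n (.n (.b 4) (.n (.n (.b 4) (.n (.n (.b 4)
  (.n (.n (.b 4) (.l 57 5)) (.n (.l 57 5) (.b 5)))) (.n (.n (.b 4) (.n (.l 57 5) (.n (.l 57 5) (.b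
  5)))) (.b 5)))) (.n (.b 10) (.b 5)))) (.n (.n (.b 4) (.n (.n (.b 4) (.n (.n (.b 4) (.n (.l 57 5)
  (.l 57 5))) (.n (.b 10) (.b 5)))) (.n (.n (.b 4) (.n (.n (.b 4) (.l 57 5)) (.n (.n (.b 4) (.n
  (.l 57 5) (.n (.b 18) (.b 5)))) (.b 5)))) (.b 5)))) (.b 5)))) (.b 5)))) (.b 5)))) (.n (.n (.b 4)
  (.n (.n (.b 4) (.b 10)) (.n (.n (.b 4) (.n (.n (.b 4) (.n (.n (.b 4) (.n (.n (.b 4) (.n (.n (.b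
  4) (.n (.b 12) (.n (.n (.b 4) (.l 39 5)) (.b 5)))) (.n (.n (.b 4) (.n (.l 39 5) (.l 39 5))) (.b
  5)))) (.n (.n (.b 4) (.n (.n (.b 4) (.b 10)) (.n (.n (.b 4) (.l 39 5)) (.b 5)))) (.b 5)))) (.n
  (.b 10) (.b 5)))) (.n (.n (.b 4) (.n (.n (.b 4) (.n (.n (.b 4) (.n (.n (.b 4) (.n (.l 57 5) (.l
  57 5))) (.n (.n (.b 4) (.l 57 5)) (.b 5)))) (.n (.b 10) (.b 5)))) (.n (.n (.b 4) (.n (.n (.b 4)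
  (.n (.n (.b 4) (.l 57 5)) (.n (.b 10) (.b 5)))) (.n (.n (.b 4) (.n (.l 57 5) (.n (.b 18) (.b
  5)))) (.b 5)))) (.b 5)))) (.b 5)))) (.b 5)))) (.b 5)))) (.n (.b 10) (.b 5)))) (.n (.n (.b 4) (.n
  (.n (.b 4) (.n (.n (.b 4) (.n (.n (.b 4) (.n (.n (.b 4) (.n (.b 12) (.n (.n (.b 4) (.n (.n (.b
  4) (.b 10)) (.n (.n (.b 4) (.n (.n (.b 4) (.n (.n (.b 4) (.l 57 5)) (.l 57 5))) (.n (.n (.b 4)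
  (.l 57 5)) (.b 5)))) (.b 5)))) (.b 5)))) (.n (.n (.b 4) (.n (.n (.b 4) (.b 10)) (.n (.n (.b 4)
  (.n (.n (.b 4) (.n (.n (.b 4) (.n (.l 57 5) (.l 57 5))) (.n (.b 10) (.b 5)))) (.n (.n (.b 4) (.n
  (.n (.b 4) (.l 57 5)) (.n (.n (.b 4) (.l 57 5)) (.b 5)))) (.b 5)))) (.b 5)))) (.b 5)))) (.n (.n
  (.b 4) (.n (.n (.b 4) (.b 10)) (.n (.n (.b 4) (.n (.n (.b 4) (.n (.n (.b 4) (.n (.n (.b 4) (.n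
  (.l 57 5) (.n (.n (.b 4) (.l 57 5)) (.b 5)))) (.n (.n (.b 4) (.l 57 5)) (.b 5)))) (.n (.b 10)
  (.b 5)))) (.n (.n (.b 4) (.n (.n (.b 4) (.n (.n (.b 4) (.l 57 5)) (.n (.b 10) (.b 5)))) (.n (.n
  (.b 4) (.n (.n (.b 4) (.n (.n (.b 4) (.l 114 0)) (.l 9 7))) (.l 39 7))) (.b 5)))) (.b 5)))) (.b
  5)))) (.b 5)))) (.n (.b 10) (.b 5)))) (.n (.n (.b 4) (.n (.n (.b 4) (.n (.n (.b 4) (.n (.n (.b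
  4) (.n (.n (.b 4) (.n (.b 12) (.n (.n (.b 4) (.n (.n (.b 4) (.b 10)) (.n (.n (.b 4) (.n (.l 57
  5) (.n (.l 57 5) (.b 5)))) (.b 5)))) (.b 5)))) (.n (.n (.b 4) (.n (.n (.b 4) (.b 10)) (.n (.n
  (.b 4) (.n (.n (.b 4) (.n (.n (.b 4) (.l 57 5)) (.l 57 5))) (.n (.l 57 5) (.b 5)))) (.b 5))))
  (.b 5)))) (.n (.n (.b 4) (.n (.n (.b 4) (.b 10)) (.n (.n (.b 4) (.n (.n (.b 4) (.n (.n (.b 4)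
  (.n (.l 57 5) (.n (.n (.b 4) (.l 57 5)) (.b 5)))) (.n (.b 10) (.b 5)))) (.n (.n (.b 4) (.n (.l
  57 5) (.l 57 5))) (.b 5)))) (.b 5)))) (.b 5)))) (.n (.b 10) (.b 5)))) (.n (.b 18) (.b 5)))) (.b
  5)))) (.b 5)))) (.b 5)))) (.b 5)))) (.b 5))

/-- A subtree of the table. -/
def s5 : T :=
  (.b 4)

/-- A subtree of the table. -/
def s6 : T :=
  (.n (.b 4) (.n (.n (.b 4) (.n (.n (.b 4) (.n (.n (.b 4) (.n (.b 12) (.n (.n (.b 4) (.n (.n (.b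
  4) (.b 10)) (.n (.n (.b 4) (.n (.n (.b 4) (.n (.n (.b 4) (.n (.n (.b 4) (.n (.n (.b 4) (.n (.b
  12) (.n (.n (.b 4) (.n (.n (.b 4) (.b 10)) (.n (.n (.b 4) (.b 28)) (.b 5)))) (.b 5)))) (.n (.n
  (.b 4) (.n (.n (.b 4) (.b 10)) (.n (.n (.b 4) (.n (.n (.b 4) (.l 114 0)) (.n (.l 114 0) (.b
  5)))) (.b 5)))) (.b 5)))) (.n (.n (.b 4) (.n (.n (.b 4) (.b 10)) (.n (.n (.b 4) (.n (.n (.b 4)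
  (.n (.n (.b 4) (.l 114 0)) (.n (.b 10) (.b 5)))) (.n (.n (.b 4) (.n (.l 114 0) (.l 114 0))) (.b
  5)))) (.b 5)))) (.b 5)))) (.n (.b 10) (.b 5)))) (.n (.n (.b 4) (.n (.n (.b 4) (.n (.n (.b 4) (.n
  (.n (.b 4) (.n (.n (.b 4) (.n (.b 12) (.n (.n (.b 4) (.l 114 0)) (.b 5)))) (.n (.n (.b 4) (.n
  (.n (.b 4) (.b 10)) (.n (.l 114 0) (.b 5)))) (.b 5)))) (.n (.n (.b 4) (.n (.n (.b 4) (.b 10))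
  (.n (.n (.b 4) (.n (.l 114 0) (.l 114 0))) (.b 5)))) (.b 5)))) (.n (.b 10) (.b 5)))) (.n (.n (.b
  4) (.n (.n (.b 4) (.n (.n (.b 4) (.n (.n (.b 4) (.n (.n (.b 4) (.l 114 0)) (.n (.l 114 0) (.b
  5)))) (.n (.n (.b 4) (.n (.l 114 0) (.l 114 0))) (.b 5)))) (.n (.b 10) (.b 5)))) (.n (.n (.b 4)
  (.n (.n (.b 4) (.n (.n (.b 4) (.n (.l 114 0) (.l 114 0))) (.n (.b 10) (.b 5)))) (.n (.b 18) (.b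
  5)))) (.b 5)))) (.b 5)))) (.b 5)))) (.b 5)))) (.b 5)))) (.n (.n (.b 4) (.n (.n (.b 4) (.b 10))
  (.n (.n (.b 4) (.n (.n (.b 4) (.n (.n (.b 4) (.n (.n (.b 4) (.n (.n (.b 4) (.n (.b 12) (.n (.n
  (.b 4) (.n (.n (.b 4) (.b 10)) (.n (.n (.b 4) (.n (.n (.b 4) (.l 114 0)) (.n (.l 114 0) (.b
  5)))) (.b 5)))) (.b 5)))) (.n (.n (.b 4) (.n (.n (.b 4) (.b 10)) (.n (.n (.b 4) (.n (.n (.b 4)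
  (.n (.n (.b 4) (.l 114 0)) (.n (.b 10) (.b 5)))) (.n (.n (.b 4) (.n (.l 114 0) (.l 114 0))) (.b
  5)))) (.b 5)))) (.b 5)))) (.n (.n (.b 4) (.n (.n (.b 4) (.b 10)) (.n (.n (.b 4) (.n (.n (.b 4)
  (.n (.n (.b 4) (.n (.n (.b 4) (.l 114 0)) (.n (.l 114 0) (.b 5)))) (.n (.b 10) (.b 5)))) (.n (.n
  (.b 4) (.n (.n (.b 4) (.n (.l 114 0) (.l 114 0))) (.n (.n (.b 4) (.l 114 0)) (.b 5)))) (.b 5))))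
  (.b 5)))) (.b 5)))) (.n (.b 10) (.b 5)))) (.n (.n (.b 4) (.n (.n (.b 4) (.n (.n (.b 4) (.n (.n
  (.b 4) (.n (.n (.b 4) (.n (.b 12) (.n (.n (.b 4) (.n (.n (.b 4) (.b 10)) (.n (.l 114 0) (.b
  5)))) (.b 5)))) (.n (.n (.b 4) (.n (.n (.b 4) (.b 10)) (.n (.n (.b 4) (.n (.l 114 0) (.l 114
  0))) (.b 5)))) (.b 5)))) (.n (.n (.b 4) (.n (.n (.b 4) (.b 10)) (.n (.n (.b 4) (.n (.n (.b 4)
  (.n (.l 114 0) (.l 114 0))) (.n (.n (.b 4) (.l 114 0)) (.b 5)))) (.b 5)))) (.b 5)))) (.n (.b 10)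
  (.b 5)))) (.n (.n (.b 4) (.n (.n (.b 4) (.n (.n (.b 4) (.n (.n (.b 4) (.n (.n (.b 4) (.n (.b 12)
  (.n (.l 114 0) (.b 5)))) (.n (.n (.b 4) (.n (.l 114 0) (.l 114 0))) (.b 5)))) (.n (.n (.b 4) (.n
  (.n (.b 4) (.b 10)) (.n (.n (.b 4) (.l 114 0)) (.b 5)))) (.b 5)))) (.n (.b 10) (.b 5)))) (.n (.n
  (.b 4) (.n (.n (.b 4) (.n (.n (.b 4) (.n (.n (.b 4) (.n (.l 114 0) (.l 114 0))) (.n (.n (.b 4)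
  (.l 114 0)) (.b 5)))) (.n (.b 10) (.b 5)))) (.n (.b 18) (.b 5)))) (.b 5)))) (.b 5)))) (.b 5))))
  (.b 5)))) (.b 5)))) (.n (.n (.b 4) (.n (.n (.b 4) (.b 10)) (.n (.n (.b 4) (.n (.n (.b 4) (.n (.n
  (.b 4) (.n (.n (.b 4) (.n (.n (.b 4) (.n (.b 12) (.n (.n (.b 4) (.n (.n (.b 4) (.b 10)) (.n (.n
  (.b 4) (.n (.n (.b 4) (.n (.n (.b 4) (.l 114 0)) (.n (.b 10) (.b 5)))) (.n (.n (.b 4) (.n (.l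
  114 0) (.l 114 0))) (.b 5)))) (.b 5)))) (.b 5)))) (.n (.n (.b 4) (.n (.n (.b 4) (.b 10)) (.n (.n
  (.b 4) (.n (.n (.b 4) (.n (.n (.b 4) (.n (.n (.b 4) (.l 114 0)) (.n (.b 29) (.b 5)))) (.n (.b
  10) (.b 5)))) (.n (.n (.b 4) (.n (.n (.b 4) (.n (.l 114 0) (.l 114 0))) (.n (.n (.b 4) (.l 114
  0)) (.b 5)))) (.b 5)))) (.b 5)))) (.b 5)))) (.n (.n (.b 4) (.n (.n (.b 4) (.b 10)) (.n (.n (.b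
  4) (.n (.n (.b 4) (.n (.n (.b 4) (.n (.n (.b 4) (.n (.n (.b 4) (.l 114 0)) (.n (.l 114 0) (.b
  5)))) (.n (.n (.b 4) (.n (.l 114 0) (.l 114 0))) (.b 5)))) (.n (.b 10) (.b 5)))) (.n (.n (.b 4)
  (.n (.n (.b 4) (.n (.n (.b 4) (.n (.l 114 0) (.l 114 0))) (.n (.b 10) (.b 5)))) (.n (.n (.b 4)
  (.n (.n (.b 4) (.l 114 0)) (.n (.l 114 0) (.b 5)))) (.b 5)))) (.b 5)))) (.b 5)))) (.b 5)))) (.n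
  (.b 10) (.b 5)))) (.n (.n (.b 4) (.n (.n (.b 4) (.n (.n (.b 4) (.n (.n (.b 4) (.n (.n (.b 4) (.n
  (.b 12) (.n (.n (.b 4) (.n (.n (.b 4) (.b 10)) (.n (.n (.b 4) (.n (.l 114 0) (.l 114 0))) (.b
  5)))) (.b 5)))) (.n (.n (.b 4) (.n (.n (.b 4) (.b 10)) (.n (.n (.b 4) (.n (.n (.b 4) (.n (.l 114
  0) (.l 114 0))) (.n (.n (.b 4) (.l 114 0)) (.b 5)))) (.b 5)))) (.b 5)))) (.n (.n (.b 4) (.n (.n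
  (.b 4) (.b 10)) (.n (.n (.b 4) (.n (.n (.b 4) (.n (.n (.b 4) (.n (.l 114 0) (.l 114 0))) (.n (.b
  10) (.b 5)))) (.n (.n (.b 4) (.n (.n (.b 4) (.l 114 0)) (.n (.l 114 0) (.b 5)))) (.b 5)))) (.b
  5)))) (.b 5)))) (.n (.b 10) (.b 5)))) (.n (.n (.b 4) (.n (.n (.b 4) (.n (.n (.b 4) (.n (.n (.b
  4) (.n (.n (.b 4) (.n (.b 12) (.n (.n (.b 4) (.n (.l 114 0) (.l 114 0))) (.b 5)))) (.n (.n (.b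
  4) (.n (.n (.b 4) (.b 10)) (.n (.n (.b 4) (.l 114 0)) (.b 5)))) (.b 5)))) (.n (.n (.b 4) (.n (.n
  (.b 4) (.b 10)) (.n (.n (.b 4) (.n (.n (.b 4) (.l 114 0)) (.n (.l 114 0) (.b 5)))) (.b 5)))) (.b
  5)))) (.n (.b 10) (.b 5)))) (.n (.n (.b 4) (.n (.n (.b 4) (.n (.n (.b 4) (.n (.n (.b 4) (.n (.n
  (.b 4) (.n (.b 12) (.l 114 0))) (.n (.n (.b 4) (.l 114 0)) (.b 5)))) (.n (.n (.b 4) (.n (.n (.b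
  4) (.b 10)) (.n (.l 114 0) (.b 5)))) (.b 5)))) (.n (.b 10) (.b 5)))) (.n (.b 18) (.b 5)))) (.b
  5)))) (.b 5)))) (.b 5)))) (.b 5)))) (.b 5)))) (.b 10)))

/-- A subtree of the table. -/
def s7 : T :=
  (.n (.n (.b 4) (.n (.n (.b 4) (.n (.n (.b 4) (.n (.n (.b 4) (.n (.n (.b 4) (.n (.b 12) (.n (.n
  (.b 4) (.n (.n (.b 4) (.b 10)) (.n (.n (.b 4) (.n (.n (.b 4) (.n (.n (.b 4) (.n (.n (.b 4) (.n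
  (.n (.b 4) (.n (.b 12) (.n (.b 28) (.b 5)))) (.n (.n (.b 4) (.n (.n (.b 4) (.b 10)) (.n (.l 51
  2) (.b 5)))) (.b 5)))) (.n (.n (.b 4) (.n (.n (.b 4) (.b 10)) (.n (.n (.b 4) (.n (.l 57 2) (.l
  57 2))) (.b 5)))) (.b 5)))) (.n (.b 10) (.b 5)))) (.n (.n (.b 4) (.n (.n (.b 4) (.n (.n (.b 4)
  (.n (.n (.b 4) (.n (.n (.b 4) (.l 93 2)) (.n (.l 93 2) (.b 5)))) (.n (.n (.b 4) (.n (.l 93 2)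
  (.l 93 2))) (.b 5)))) (.n (.b 10) (.b 5)))) (.n (.n (.b 4) (.n (.n (.b 4) (.n (.n (.b 4) (.n (.l
  93 2) (.n (.l 93 2) (.b 5)))) (.n (.b 10) (.b 5)))) (.n (.n (.b 4) (.n (.n (.b 4) (.l 93 2)) (.n
  (.b 18) (.b 5)))) (.b 5)))) (.b 5)))) (.b 5)))) (.b 5)))) (.b 5)))) (.n (.n (.b 4) (.n (.n (.b
  4) (.b 10)) (.n (.n (.b 4) (.n (.n (.b 4) (.n (.n (.b 4) (.n (.n (.b 4) (.n (.n (.b 4) (.n (.b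
  12) (.n (.n (.b 4) (.n (.n (.b 4) (.b 10)) (.n (.n (.b 4) (.l 87 2)) (.b 5)))) (.b 5)))) (.n (.n
  (.b 4) (.n (.n (.b 4) (.b 10)) (.n (.n (.b 4) (.n (.n (.b 4) (.n (.l 87 2) (.l 87 2))) (.l 87
  2))) (.b 5)))) (.b 5)))) (.n (.n (.b 4) (.n (.n (.b 4) (.b 10)) (.n (.n (.b 4) (.n (.n (.b 4)
  (.n (.l 93 2) (.n (.b 10) (.b 5)))) (.n (.n (.b 4) (.l 93 2)) (.b 5)))) (.b 5)))) (.b 5)))) (.n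
  (.b 10) (.b 5)))) (.n (.n (.b 4) (.n (.n (.b 4) (.n (.n (.b 4) (.n (.n (.b 4) (.n (.n (.b 4) (.n
  (.b 12) (.n (.l 87 2) (.b 5)))) (.n (.n (.b 4) (.n (.l 87 2) (.l 87 2))) (.b 5)))) (.n (.n (.b
  4) (.n (.n (.b 4) (.b 10)) (.n (.n (.b 4) (.l 87 2)) (.b 5)))) (.b 5)))) (.n (.b 10) (.b 5))))
  (.n (.n (.b 4) (.n (.n (.b 4) (.n (.n (.b 4) (.n (.n (.b 4) (.n (.l 87 2) (.l 87 2))) (.n (.n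
  (.b 4) (.l 87 2)) (.b 5)))) (.n (.b 10) (.b 5)))) (.n (.n (.b 4) (.n (.n (.b 4) (.n (.n (.b 4)
  (.n (.n (.b 4) (.l 87 2)) (.l 87 2))) (.n (.b 10) (.b 5)))) (.n (.b 18) (.b 5)))) (.b 5)))) (.b
  5)))) (.b 5)))) (.b 5)))) (.b 5)))) (.n (.n (.b 4) (.n (.n (.b 4) (.b 10)) (.n (.n (.b 4) (.n
  (.n (.b 4) (.n (.n (.b 4) (.n (.n (.b 4) (.n (.n (.b 4) (.n (.b 12) (.n (.n (.b 4) (.n (.n (.b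
  4) (.b 10)) (.n (.n (.b 4) (.n (.n (.b 4) (.l 87 2)) (.l 87 2))) (.b 5)))) (.b 5)))) (.n (.n (.b
  4) (.n (.n (.b 4) (.b 10)) (.n (.n (.b 4) (.n (.n (.b 4) (.n (.n (.b 4) (.n (.n (.b 4) (.n (.l
  87 2) (.n (.n (.b 4) (.n (.n (.b 4) (.b 10)) (.l 87 2))) (.b 5)))) (.l 87 2))) (.l 87 2))) (.n
  (.n (.b 4) (.l 87 2)) (.b 5)))) (.b 5)))) (.b 5)))) (.n (.n (.b 4) (.n (.n (.b 4) (.b 10)) (.n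
  (.n (.b 4) (.n (.n (.b 4) (.n (.n (.b 4) (.n (.l 72 2) (.l 114 0))) (.n (.b 10) (.b 5)))) (.n
  (.n (.b 4) (.n (.n (.b 4) (.l 93 2)) (.n (.n (.b 4) (.l 93 2)) (.b 5)))) (.b 5)))) (.b 5)))) (.b
  5)))) (.n (.b 10) (.b 5)))) (.n (.n (.b 4) (.n (.n (.b 4) (.n (.n (.b 4) (.n (.n (.b 4) (.n (.n
  (.b 4) (.n (.b 12) (.n (.n (.b 4) (.n (.l 87 2) (.l 87 2))) (.b 5)))) (.n (.n (.b 4) (.n (.n (.b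
  4) (.b 10)) (.n (.n (.b 4) (.l 87 2)) (.b 5)))) (.b 5)))) (.n (.n (.b 4) (.n (.n (.b 4) (.b 10))
  (.n (.n (.b 4) (.n (.n (.b 4) (.n (.l 15 7) (.n (.b 10) (.b 5)))) (.n (.l 87 2) (.b 5)))) (.b
  5)))) (.b 5)))) (.n (.b 10) (.b 5)))) (.n (.n (.b 4) (.n (.n (.b 4) (.n (.n (.b 4) (.n (.n (.b
  4) (.n (.n (.b 4) (.n (.b 12) (.l 87 2))) (.n (.n (.b 4) (.n (.l 87 2) (.n (.l 87 2) (.b 5))))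
  (.b 5)))) (.n (.n (.b 4) (.n (.n (.b 4) (.b 10)) (.n (.l 87 2) (.b 5)))) (.b 5)))) (.n (.b 10)
  (.b 5)))) (.n (.n (.b 4) (.n (.n (.b 4) (.n (.n (.b 4) (.n (.n (.b 4) (.l 87 2)) (.n (.n (.b 4)
  (.l 87 2)) (.b 5)))) (.n (.b 10) (.b 5)))) (.n (.b 18) (.b 5)))) (.b 5)))) (.b 5)))) (.b 5))))
  (.b 5)))) (.b 5)))) (.n (.b 10) (.b 5)))) (.n (.n (.b 4) (.n (.n (.b 4) (.n (.n (.b 4) (.n (.n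
  (.b 4) (.n (.n (.b 4) (.n (.b 12) (.n (.n (.b 4) (.n (.n (.b 4) (.b 10)) (.n (.n (.b 4) (.n (.n
  (.b 4) (.n (.n (.b 4) (.n (.n (.b 4) (.n (.n (.b 4) (.n (.b 12) (.l 87 2))) (.n (.l 87 2) (.b
  5)))) (.n (.n (.b 4) (.n (.l 87 2) (.n (.l 87 2) (.b 5)))) (.b 5)))) (.n (.b 10) (.b 5)))) (.n
  (.n (.b 4) (.n (.n (.b 4) (.n (.n (.b 4) (.n (.l 87 2) (.l 87 2))) (.n (.b 10) (.b 5)))) (.n (.n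
  (.b 4) (.n (.n (.b 4) (.l 87 2)) (.n (.n (.b 4) (.l 87 2)) (.b 5)))) (.b 5)))) (.b 5)))) (.b
  5)))) (.b 5)))) (.n (.n (.b 4) (.n (.n (.b 4) (.b 10)) (.n (.n (.b 4) (.n (.n (.b 4) (.n (.n (.b
  4) (.n (.n (.b 4) (.n (.n (.b 4) (.n (.b 12) (.n (.l 87 2) (.b 5)))) (.n (.n (.b 4) (.n (.l 87
  2) (.l 87 2))) (.b 5)))) (.n (.n (.b 4) (.n (.n (.b 4) (.b 10)) (.n (.n (.b 4) (.l 87 2)) (.b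
  5)))) (.b 5)))) (.n (.b 10) (.b 5)))) (.n (.n (.b 4) (.n (.n (.b 4) (.n (.n (.b 4) (.n (.n (.b
  4) (.n (.l 87 2) (.l 87 2))) (.n (.n (.b 4) (.l 87 2)) (.b 5)))) (.n (.b 10) (.b 5)))) (.n (.n
  (.b 4) (.n (.n (.b 4) (.n (.n (.b 4) (.l 87 2)) (.n (.b 10) (.b 5)))) (.n (.n (.b 4) (.n (.l 87
  2) (.n (.b 18) (.b 5)))) (.b 5)))) (.b 5)))) (.b 5)))) (.b 5)))) (.b 5)))) (.n (.n (.b 4) (.n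
  (.n (.b 4) (.b 10)) (.n (.n (.b 4) (.n (.n (.b 4) (.n (.n (.b 4) (.n (.n (.b 4) (.n (.n (.b 4)
  (.n (.b 12) (.n (.n (.b 4) (.n (.l 69 2) (.l 69 2))) (.b 5)))) (.n (.n (.b 4) (.n (.n (.b 4) (.b
  10)) (.n (.n (.b 4) (.n (.n (.b 4) (.l 69 2)) (.l 69 2))) (.b 5)))) (.b 5)))) (.n (.n (.b 4) (.n
  (.n (.b 4) (.b 10)) (.n (.n (.b 4) (.n (.n (.b 4) (.l 69 2)) (.n (.l 69 2) (.b 5)))) (.b 5))))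
  (.b 5)))) (.n (.b 10) (.b 5)))) (.n (.n (.b 4) (.n (.n (.b 4) (.n (.n (.b 4) (.n (.n (.b 4) (.n
  (.n (.b 4) (.n (.b 12) (.l 87 2))) (.n (.n (.b 4) (.l 87 2)) (.b 5)))) (.n (.n (.b 4) (.n (.n
  (.b 4) (.b 10)) (.n (.l 87 2) (.b 5)))) (.b 5)))) (.n (.b 10) (.b 5)))) (.n (.n (.b 4) (.n (.n
  (.b 4) (.n (.n (.b 4) (.n (.n (.b 4) (.n (.l 87 2) (.l 87 2))) (.n (.l 87 2) (.b 5)))) (.n (.b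
  10) (.b 5)))) (.n (.n (.b 4) (.n (.n (.b 4) (.n (.l 87 2) (.l 87 2))) (.n (.b 18) (.b 5)))) (.b
  5)))) (.b 5)))) (.b 5)))) (.b 5)))) (.b 5)))) (.n (.b 10) (.b 5)))) (.n (.n (.b 4) (.n (.n (.b
  4) (.n (.n (.b 4) (.n (.n (.b 4) (.n (.n (.b 4) (.n (.b 12) (.n (.n (.b 4) (.n (.n (.b 4) (.b
  10)) (.n (.n (.b 4) (.n (.n (.b 4) (.n (.n (.b 4) (.n (.n (.b 4) (.l 87 2)) (.l 87 2))) (.n (.b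
  10) (.b 5)))) (.n (.n (.b 4) (.n (.n (.b 4) (.l 87 2)) (.n (.l 87 2) (.b 5)))) (.b 5)))) (.b
  5)))) (.b 5)))) (.n (.n (.b 4) (.n (.n (.b 4) (.b 10)) (.n (.n (.b 4) (.n (.n (.b 4) (.n (.n (.b
  4) (.n (.n (.b 4) (.n (.l 87 2) (.l 87 2))) (.n (.n (.b 4) (.n (.n (.b 4) (.b 10)) (.l 87 2)))
  (.b 5)))) (.n (.b 10) (.b 5)))) (.n (.n (.b 4) (.n (.n (.b 4) (.n (.n (.b 4) (.l 87 2)) (.n (.b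
  10) (.b 5)))) (.n (.n (.b 4) (.n (.n (.b 4) (.n (.l 87 2) (.l 87 2))) (.l 87 2))) (.b 5)))) (.b
  5)))) (.b 5)))) (.b 5)))) (.n (.n (.b 4) (.n (.n (.b 4) (.b 10)) (.n (.n (.b 4) (.n (.n (.b 4)
  (.n (.n (.b 4) (.n (.n (.b 4) (.n (.n (.b 4) (.n (.b 12) (.n (.l 87 2) (.b 5)))) (.n (.n (.b 4)
  (.l 87 2)) (.b 5)))) (.n (.n (.b 4) (.n (.n (.b 4) (.b 10)) (.n (.l 87 2) (.b 5)))) (.b 5))))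
  (.n (.b 10) (.b 5)))) (.n (.n (.b 4) (.n (.n (.b 4) (.n (.n (.b 4) (.n (.n (.b 4) (.l 87 2)) (.n
  (.l 87 2) (.b 5)))) (.n (.b 10) (.b 5)))) (.n (.n (.b 4) (.n (.n (.b 4) (.n (.n (.b 4) (.n (.l
  72 2) (.n (.l 114 0) (.b 5)))) (.l 39 2))) (.n (.n (.b 4) (.l 69 2)) (.b 5)))) (.b 5)))) (.b
  5)))) (.b 5)))) (.b 5)))) (.n (.b 10) (.b 5)))) (.n (.n (.b 4) (.n (.n (.b 4) (.n (.n (.b 4) (.n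
  (.n (.b 4) (.n (.n (.b 4) (.n (.b 12) (.n (.n (.b 4) (.n (.n (.b 4) (.b 10)) (.n (.n (.b 4) (.n
  (.n (.b 4) (.l 87 2)) (.n (.l 87 2) (.b 5)))) (.b 5)))) (.b 5)))) (.n (.n (.b 4) (.n (.n (.b 4)
  (.b 10)) (.n (.n (.b 4) (.n (.n (.b 4) (.n (.n (.b 4) (.l 87 2)) (.n (.b 10) (.b 5)))) (.n (.n
  (.b 4) (.n (.l 87 2) (.n (.l 87 2) (.b 5)))) (.b 5)))) (.b 5)))) (.b 5)))) (.n (.n (.b 4) (.n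
  (.n (.b 4) (.b 10)) (.n (.n (.b 4) (.n (.n (.b 4) (.n (.n (.b 4) (.n (.n (.b 4) (.l 87 2)) (.n
  (.n (.b 4) (.l 87 2)) (.b 5)))) (.n (.b 10) (.b 5)))) (.n (.n (.b 4) (.n (.n (.b 4) (.n (.l 87
  2) (.n (.b 10) (.b 5)))) (.n (.n (.b 4) (.l 87 2)) (.b 5)))) (.b 5)))) (.b 5)))) (.b 5)))) (.n
  (.b 10) (.b 5)))) (.n (.b 18) (.b 5)))) (.b 5)))) (.b 5)))) (.b 5)))) (.b 5))

/-- A subtree of the table. -/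
def s8 : T :=
  (.b 5)

/-- A subtree of the table. -/
def s9 : T :=
  (.b 4)

/-- A subtree of the table. -/
def s10 : T :=
  (.n (.b 4) (.n (.n (.b 4) (.n (.n (.b 4) (.n (.n (.b 4) (.n (.b 12) (.n (.n (.b 4) (.n (.n (.b
  4) (.b 10)) (.n (.n (.b 4) (.n (.n (.b 4) (.n (.n (.b 4) (.n (.n (.b 4) (.n (.n (.b 4) (.n (.b
  12) (.n (.n (.b 4) (.n (.n (.b 4) (.b 10)) (.n (.n (.b 4) (.n (.b 28) (.n (.l 114 0) (.b 5))))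
  (.b 5)))) (.b 5)))) (.n (.n (.b 4) (.n (.n (.b 4) (.b 10)) (.n (.n (.b 4) (.n (.n (.b 4) (.n (.n
  (.b 4) (.n (.l 84 2) (.n (.l 84 2) (.b 5)))) (.n (.b 10) (.b 5)))) (.n (.n (.b 4) (.n (.l 84 2)
  (.l 84 2))) (.b 5)))) (.b 5)))) (.b 5)))) (.n (.n (.b 4) (.n (.n (.b 4) (.b 10)) (.n (.n (.b 4)
  (.n (.n (.b 4) (.n (.n (.b 4) (.n (.n (.b 4) (.l 84 2)) (.n (.l 84 2) (.b 5)))) (.n (.b 10) (.b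
  5)))) (.n (.n (.b 4) (.n (.n (.b 4) (.n (.l 84 2) (.l 84 2))) (.n (.n (.b 4) (.l 84 2)) (.b
  5)))) (.b 5)))) (.b 5)))) (.b 5)))) (.n (.b 10) (.b 5)))) (.n (.n (.b 4) (.n (.n (.b 4) (.n (.n
  (.b 4) (.n (.n (.b 4) (.n (.n (.b 4) (.n (.b 12) (.n (.n (.b 4) (.n (.n (.b 4) (.b 10)) (.n (.l
  90 2) (.b 5)))) (.b 5)))) (.n (.n (.b 4) (.n (.n (.b 4) (.b 10)) (.n (.n (.b 4) (.n (.l 90 2)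
  (.l 90 2))) (.b 5)))) (.b 5)))) (.n (.n (.b 4) (.n (.n (.b 4) (.b 10)) (.n (.n (.b 4) (.n (.n
  (.b 4) (.n (.n (.b 4) (.l 90 2)) (.l 90 2))) (.n (.n (.b 4) (.l 90 2)) (.b 5)))) (.b 5)))) (.b
  5)))) (.n (.b 10) (.b 5)))) (.n (.n (.b 4) (.n (.n (.b 4) (.n (.n (.b 4) (.n (.n (.b 4) (.n (.n
  (.b 4) (.n (.b 12) (.n (.l 90 2) (.b 5)))) (.n (.n (.b 4) (.n (.l 90 2) (.n (.l 90 2) (.b 5))))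
  (.b 5)))) (.n (.n (.b 4) (.n (.n (.b 4) (.b 10)) (.n (.n (.b 4) (.l 90 2)) (.b 5)))) (.b 5))))
  (.n (.b 10) (.b 5)))) (.n (.n (.b 4) (.n (.n (.b 4) (.n (.n (.b 4) (.n (.n (.b 4) (.n (.l 90 2)
  (.l 90 2))) (.n (.n (.b 4) (.l 90 2)) (.b 5)))) (.n (.b 10) (.b 5)))) (.n (.b 18) (.b 5)))) (.b
  5)))) (.b 5)))) (.b 5)))) (.b 5)))) (.b 5)))) (.n (.n (.b 4) (.n (.n (.b 4) (.b 10)) (.n (.n (.b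
  4) (.n (.n (.b 4) (.n (.n (.b 4) (.n (.n (.b 4) (.n (.n (.b 4) (.n (.b 12) (.n (.n (.b 4) (.n
  (.n (.b 4) (.b 10)) (.n (.n (.b 4) (.n (.n (.b 4) (.n (.n (.b 4) (.n (.b 28) (.n (.n (.b 4) (.n
  (.n (.b 4) (.b 10)) (.l 84 2))) (.b 5)))) (.n (.b 10) (.b 5)))) (.n (.n (.b 4) (.n (.l 84 2) (.n
  (.l 84 2) (.b 5)))) (.b 5)))) (.b 5)))) (.b 5)))) (.n (.n (.b 4) (.n (.n (.b 4) (.b 10)) (.n (.n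
  (.b 4) (.n (.n (.b 4) (.n (.n (.b 4) (.n (.n (.b 4) (.l 84 2)) (.n (.n (.b 4) (.n (.l 84 2) (.n
  (.n (.b 4) (.n (.n (.b 4) (.n (.l 84 2) (.n (.b 10) (.b 5)))) (.l 84 2))) (.b 5)))) (.b 5))))
  (.n (.b 10) (.b 5)))) (.n (.n (.b 4) (.n (.n (.b 4) (.n (.l 84 2) (.n (.b 10) (.b 5)))) (.n (.n
  (.b 4) (.l 84 2)) (.b 5)))) (.b 5)))) (.b 5)))) (.b 5)))) (.n (.n (.b 4) (.n (.n (.b 4) (.b 10))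
  (.n (.n (.b 4) (.n (.n (.b 4) (.n (.n (.b 4) (.n (.n (.b 4) (.n (.n (.b 4) (.l 90 2)) (.n (.l 90
  2) (.b 5)))) (.n (.n (.b 4) (.n (.l 90 2) (.l 90 2))) (.b 5)))) (.n (.b 10) (.b 5)))) (.n (.n
  (.b 4) (.n (.n (.b 4) (.n (.n (.b 4) (.n (.n (.b 4) (.l 90 2)) (.l 90 2))) (.n (.b 10) (.b 5))))
  (.n (.n (.b 4) (.n (.n (.b 4) (.l 90 2)) (.n (.l 90 2) (.b 5)))) (.b 5)))) (.b 5)))) (.b 5))))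
  (.b 5)))) (.n (.b 10) (.b 5)))) (.n (.n (.b 4) (.n (.n (.b 4) (.n (.n (.b 4) (.n (.n (.b 4) (.n
  (.n (.b 4) (.n (.b 12) (.n (.n (.b 4) (.n (.n (.b 4) (.b 10)) (.n (.n (.b 4) (.n (.l 84 2) (.l
  84 2))) (.b 5)))) (.b 5)))) (.n (.n (.b 4) (.n (.n (.b 4) (.b 10)) (.n (.n (.b 4) (.n (.n (.b 4)
  (.n (.l 84 2) (.l 84 2))) (.n (.n (.b 4) (.n (.l 84 2) (.n (.n (.b 4) (.l 84 2)) (.b 5)))) (.b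
  5)))) (.b 5)))) (.b 5)))) (.n (.n (.b 4) (.n (.n (.b 4) (.b 10)) (.n (.n (.b 4) (.n (.n (.b 4)
  (.n (.n (.b 4) (.n (.l 84 2) (.l 84 2))) (.n (.b 10) (.b 5)))) (.n (.n (.b 4) (.n (.n (.b 4) (.l
  84 2)) (.n (.l 84 2) (.b 5)))) (.b 5)))) (.b 5)))) (.b 5)))) (.n (.b 10) (.b 5)))) (.n (.n (.b
  4) (.n (.n (.b 4) (.n (.n (.b 4) (.n (.n (.b 4) (.n (.n (.b 4) (.n (.b 12) (.n (.n (.b 4) (.n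
  (.n (.b 4) (.b 10)) (.l 84 2))) (.b 5)))) (.n (.n (.b 4) (.n (.n (.b 4) (.b 10)) (.n (.n (.b 4)
  (.l 84 2)) (.b 5)))) (.b 5)))) (.n (.n (.b 4) (.n (.n (.b 4) (.b 10)) (.n (.n (.b 4) (.n (.n (.b
  4) (.n (.l 84 2) (.l 84 2))) (.n (.l 84 2) (.b 5)))) (.b 5)))) (.b 5)))) (.n (.b 10) (.b 5))))
  (.n (.n (.b 4) (.n (.n (.b 4) (.n (.n (.b 4) (.n (.n (.b 4) (.n (.n (.b 4) (.n (.b 12) (.n (.l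
  84 2) (.b 5)))) (.n (.n (.b 4) (.n (.l 84 2) (.l 84 2))) (.b 5)))) (.n (.n (.b 4) (.n (.n (.b 4)
  (.b 10)) (.n (.l 84 2) (.b 5)))) (.b 5)))) (.n (.b 10) (.b 5)))) (.n (.b 18) (.b 5)))) (.b 5))))
  (.b 5)))) (.b 5)))) (.b 5)))) (.b 5)))) (.n (.n (.b 4) (.n (.n (.b 4) (.b 10)) (.n (.n (.b 4)
  (.n (.n (.b 4) (.n (.n (.b 4) (.n (.n (.b 4) (.n (.n (.b 4) (.n (.b 12) (.n (.n (.b 4) (.n (.n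
  (.b 4) (.b 10)) (.n (.n (.b 4) (.n (.n (.b 4) (.n (.n (.b 4) (.n (.n (.b 4) (.n (.b 28) (.n (.n
  (.b 4) (.n (.n (.b 4) (.b 10)) (.l 84 2))) (.b 5)))) (.n (.l 84 2) (.b 5)))) (.n (.b 10) (.b
  5)))) (.n (.n (.b 4) (.n (.n (.b 4) (.n (.l 84 2) (.l 84 2))) (.n (.n (.b 4) (.l 84 2)) (.b
  5)))) (.b 5)))) (.b 5)))) (.b 5)))) (.n (.n (.b 4) (.n (.n (.b 4) (.b 10)) (.n (.n (.b 4) (.n
  (.n (.b 4) (.n (.n (.b 4) (.n (.n (.b 4) (.n (.n (.b 4) (.l 84 2)) (.n (.n (.b 4) (.n (.n (.b 4)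
  (.b 10)) (.l 84 2))) (.b 5)))) (.n (.n (.b 4) (.n (.b 29) (.l 114 0))) (.b 5)))) (.n (.b 10) (.b
  5)))) (.n (.n (.b 4) (.n (.n (.b 4) (.n (.n (.b 4) (.n (.l 84 2) (.l 84 2))) (.n (.b 10) (.b
  5)))) (.n (.n (.b 4) (.n (.n (.b 4) (.n (.l 84 2) (.n (.b 10) (.b 5)))) (.n (.n (.b 4) (.l 84
  2)) (.b 5)))) (.b 5)))) (.b 5)))) (.b 5)))) (.b 5)))) (.n (.n (.b 4) (.n (.n (.b 4) (.b 10)) (.n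
  (.n (.b 4) (.n (.n (.b 4) (.n (.n (.b 4) (.n (.n (.b 4) (.n (.n (.b 4) (.n (.b 12) (.n (.l 84 2)
  (.b 5)))) (.n (.n (.b 4) (.n (.l 84 2) (.n (.n (.b 4) (.l 84 2)) (.b 5)))) (.b 5)))) (.n (.n (.b
  4) (.n (.n (.b 4) (.b 10)) (.n (.n (.b 4) (.l 114 0)) (.b 5)))) (.b 5)))) (.n (.b 10) (.b 5))))
  (.n (.n (.b 4) (.n (.n (.b 4) (.n (.n (.b 4) (.n (.n (.b 4) (.n (.l 90 2) (.l 90 2))) (.n (.n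
  (.b 4) (.l 90 2)) (.b 5)))) (.n (.b 10) (.b 5)))) (.n (.n (.b 4) (.n (.n (.b 4) (.n (.n (.b 4)
  (.l 90 2)) (.n (.b 10) (.b 5)))) (.n (.n (.b 4) (.n (.l 90 2) (.n (.b 18) (.b 5)))) (.b 5))))
  (.b 5)))) (.b 5)))) (.b 5)))) (.b 5)))) (.n (.b 10) (.b 5)))) (.n (.n (.b 4) (.n (.n (.b 4) (.n
  (.n (.b 4) (.n (.n (.b 4) (.n (.n (.b 4) (.n (.b 12) (.n (.n (.b 4) (.n (.n (.b 4) (.b 10)) (.n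
  (.n (.b 4) (.n (.n (.b 4) (.n (.n (.b 4) (.l 84 2)) (.l 84 2))) (.n (.n (.b 4) (.l 84 2)) (.b
  5)))) (.b 5)))) (.b 5)))) (.n (.n (.b 4) (.n (.n (.b 4) (.b 10)) (.n (.n (.b 4) (.n (.n (.b 4)
  (.n (.n (.b 4) (.n (.l 84 2) (.n (.n (.b 4) (.l 84 2)) (.b 5)))) (.n (.b 10) (.b 5)))) (.n (.n
  (.b 4) (.n (.n (.b 4) (.l 84 2)) (.n (.l 84 2) (.b 5)))) (.b 5)))) (.b 5)))) (.b 5)))) (.n (.n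
  (.b 4) (.n (.n (.b 4) (.b 10)) (.n (.n (.b 4) (.n (.n (.b 4) (.n (.n (.b 4) (.n (.n (.b 4) (.n
  (.n (.b 4) (.l 30 2)) (.l 30 2))) (.n (.n (.b 4) (.l 30 2)) (.b 5)))) (.n (.b 10) (.b 5)))) (.n
  (.n (.b 4) (.n (.n (.b 4) (.n (.n (.b 4) (.l 84 2)) (.n (.b 10) (.b 5)))) (.n (.n (.b 4) (.n (.l
  84 2) (.l 84 2))) (.b 5)))) (.b 5)))) (.b 5)))) (.b 5)))) (.n (.b 10) (.b 5)))) (.n (.n (.b 4)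
  (.n (.n (.b 4) (.n (.n (.b 4) (.n (.n (.b 4) (.n (.n (.b 4) (.n (.b 12) (.n (.n (.b 4) (.n (.n
  (.b 4) (.b 10)) (.n (.n (.b 4) (.l 84 2)) (.b 5)))) (.b 5)))) (.n (.n (.b 4) (.n (.n (.b 4) (.b
  10)) (.n (.n (.b 4) (.n (.n (.b 4) (.l 84 2)) (.n (.n (.b 4) (.n (.n (.b 4) (.l 84 2)) (.l 84
  2))) (.b 5)))) (.b 5)))) (.b 5)))) (.n (.n (.b 4) (.n (.n (.b 4) (.b 10)) (.n (.n (.b 4) (.n (.n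
  (.b 4) (.n (.n (.b 4) (.l 54 2)) (.n (.b 10) (.b 5)))) (.n (.n (.b 4) (.n (.l 54 2) (.n (.n (.b
  4) (.n (.l 114 0) (.l 72 99))) (.b 5)))) (.b 5)))) (.b 5)))) (.b 5)))) (.n (.b 10) (.b 5)))) (.n
  (.n (.b 4) (.n (.n (.b 4) (.n (.n (.b 4) (.n (.n (.b 4) (.n (.n (.b 4) (.n (.b 12) (.n (.n (.b
  4) (.l 84 2)) (.b 5)))) (.n (.n (.b 4) (.n (.n (.b 4) (.b 10)) (.n (.l 84 2) (.b 5)))) (.b 5))))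
  (.n (.n (.b 4) (.n (.n (.b 4) (.b 10)) (.n (.n (.b 4) (.n (.l 84 2) (.l 84 2))) (.b 5)))) (.b
  5)))) (.n (.b 10) (.b 5)))) (.n (.b 18) (.b 5)))) (.b 5)))) (.b 5)))) (.b 5)))) (.b 5)))) (.b
  5)))) (.n (.n (.b 4) (.b 10)) (.b 5))))

/-- A subtree of the table. -/
def s11 : T :=
  (.n (.n (.b 4) (.n (.n (.b 4) (.n (.n (.b 4) (.n (.n (.b 4) (.n (.n (.b 4) (.n (.b 12) (.n (.n
  (.b 4) (.n (.n (.b 4) (.b 10)) (.n (.n (.b 4) (.n (.n (.b 4) (.n (.n (.b 4) (.n (.n (.b 4) (.n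
  (.n (.b 4) (.n (.b 12) (.n (.n (.b 4) (.n (.n (.b 4) (.b 10)) (.b 28))) (.b 5)))) (.n (.n (.b 4)
  (.n (.n (.b 4) (.b 10)) (.n (.n (.b 4) (.n (.l 75 4) (.l 75 4))) (.b 5)))) (.b 5)))) (.n (.n (.b
  4) (.n (.n (.b 4) (.b 10)) (.n (.n (.b 4) (.n (.n (.b 4) (.n (.l 75 4) (.n (.b 10) (.b 5)))) (.n
  (.n (.b 4) (.l 75 4)) (.b 5)))) (.b 5)))) (.b 5)))) (.n (.b 10) (.b 5)))) (.n (.n (.b 4) (.n (.n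
  (.b 4) (.n (.n (.b 4) (.n (.n (.b 4) (.n (.n (.b 4) (.n (.b 12) (.n (.l 81 4) (.b 5)))) (.n (.n
  (.b 4) (.n (.l 81 4) (.l 81 4))) (.b 5)))) (.n (.n (.b 4) (.n (.n (.b 4) (.b 10)) (.n (.n (.b 4)
  (.n (.l 81 4) (.n (.n (.b 4) (.l 81 4)) (.b 5)))) (.b 5)))) (.b 5)))) (.n (.b 10) (.b 5)))) (.n
  (.n (.b 4) (.n (.n (.b 4) (.n (.n (.b 4) (.n (.n (.b 4) (.n (.n (.b 4) (.l 81 4)) (.l 81 4)))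
  (.n (.n (.b 4) (.l 81 4)) (.b 5)))) (.n (.b 10) (.b 5)))) (.n (.n (.b 4) (.n (.n (.b 4) (.n (.n
  (.b 4) (.n (.l 81 4) (.n (.l 81 4) (.b 5)))) (.n (.b 10) (.b 5)))) (.n (.b 18) (.b 5)))) (.b
  5)))) (.b 5)))) (.b 5)))) (.b 5)))) (.b 5)))) (.n (.n (.b 4) (.n (.n (.b 4) (.b 10)) (.n (.n (.b
  4) (.n (.n (.b 4) (.n (.n (.b 4) (.n (.n (.b 4) (.n (.n (.b 4) (.n (.b 12) (.n (.n (.b 4) (.n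
  (.n (.b 4) (.b 10)) (.n (.n (.b 4) (.n (.l 75 4) (.n (.l 75 4) (.b 5)))) (.b 5)))) (.b 5)))) (.n
  (.n (.b 4) (.n (.n (.b 4) (.b 10)) (.n (.n (.b 4) (.n (.n (.b 4) (.n (.l 75 4) (.l 75 4))) (.n
  (.n (.b 4) (.l 75 4)) (.b 5)))) (.b 5)))) (.b 5)))) (.n (.n (.b 4) (.n (.n (.b 4) (.b 10)) (.n
  (.n (.b 4) (.n (.n (.b 4) (.n (.n (.b 4) (.n (.l 81 4) (.l 81 4))) (.n (.b 10) (.b 5)))) (.n (.n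
  (.b 4) (.n (.n (.b 4) (.n (.l 81 4) (.n (.b 10) (.b 5)))) (.n (.n (.b 4) (.l 81 4)) (.b 5))))
  (.b 5)))) (.b 5)))) (.b 5)))) (.n (.b 10) (.b 5)))) (.n (.n (.b 4) (.n (.n (.b 4) (.n (.n (.b 4)
  (.n (.n (.b 4) (.n (.n (.b 4) (.n (.b 12) (.n (.n (.b 4) (.n (.l 75 4) (.l 75 4))) (.b 5)))) (.n
  (.n (.b 4) (.n (.n (.b 4) (.b 10)) (.n (.n (.b 4) (.l 75 4)) (.b 5)))) (.b 5)))) (.n (.n (.b 4)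
  (.n (.n (.b 4) (.b 10)) (.n (.n (.b 4) (.n (.n (.b 4) (.l 75 4)) (.n (.l 75 4) (.b 5)))) (.b
  5)))) (.b 5)))) (.n (.b 10) (.b 5)))) (.n (.n (.b 4) (.n (.n (.b 4) (.n (.n (.b 4) (.n (.n (.b
  4) (.n (.n (.b 4) (.n (.b 12) (.l 75 4))) (.n (.n (.b 4) (.l 75 4)) (.b 5)))) (.n (.n (.b 4) (.n
  (.n (.b 4) (.b 10)) (.n (.n (.b 4) (.l 75 4)) (.b 5)))) (.b 5)))) (.n (.b 10) (.b 5)))) (.n (.n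
  (.b 4) (.n (.n (.b 4) (.n (.n (.b 4) (.n (.n (.b 4) (.l 75 4)) (.n (.l 75 4) (.b 5)))) (.n (.b
  10) (.b 5)))) (.n (.b 18) (.b 5)))) (.b 5)))) (.b 5)))) (.b 5)))) (.b 5)))) (.b 5)))) (.n (.n
  (.b 4) (.n (.n (.b 4) (.b 10)) (.n (.n (.b 4) (.n (.n (.b 4) (.n (.n (.b 4) (.n (.n (.b 4) (.n
  (.n (.b 4) (.n (.b 12) (.n (.n (.b 4) (.n (.n (.b 4) (.b 10)) (.n (.n (.b 4) (.n (.n (.b 4) (.n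
  (.l 75 4) (.n (.b 10) (.b 5)))) (.n (.n (.b 4) (.l 75 4)) (.b 5)))) (.b 5)))) (.b 5)))) (.n (.n
  (.b 4) (.n (.n (.b 4) (.b 10)) (.n (.n (.b 4) (.n (.n (.b 4) (.n (.n (.b 4) (.n (.n (.b 4) (.n
  (.l 75 4) (.n (.n (.b 4) (.n (.n (.b 4) (.b 10)) (.l 75 4))) (.b 5)))) (.l 75 4))) (.n (.b 10)
  (.b 5)))) (.n (.n (.b 4) (.n (.n (.b 4) (.l 75 4)) (.n (.l 75 4) (.b 5)))) (.b 5)))) (.b 5))))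
  (.b 5)))) (.n (.n (.b 4) (.n (.n (.b 4) (.b 10)) (.n (.n (.b 4) (.n (.n (.b 4) (.n (.n (.b 4)
  (.n (.n (.b 4) (.n (.l 75 4) (.l 75 4))) (.n (.n (.b 4) (.l 114 0)) (.b 5)))) (.n (.b 10) (.b
  5)))) (.n (.n (.b 4) (.n (.n (.b 4) (.n (.n (.b 4) (.l 81 4)) (.n (.b 10) (.b 5)))) (.n (.n (.b
  4) (.n (.l 81 4) (.n (.n (.b 4) (.l 81 4)) (.b 5)))) (.b 5)))) (.b 5)))) (.b 5)))) (.b 5)))) (.n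
  (.b 10) (.b 5)))) (.n (.n (.b 4) (.n (.n (.b 4) (.n (.n (.b 4) (.n (.n (.b 4) (.n (.n (.b 4) (.n
  (.b 12) (.n (.n (.b 4) (.n (.n (.b 4) (.b 10)) (.n (.n (.b 4) (.n (.n (.b 4) (.l 75 4)) (.l 75
  4))) (.b 5)))) (.b 5)))) (.n (.n (.b 4) (.n (.n (.b 4) (.b 10)) (.n (.n (.b 4) (.n (.n (.b 4)
  (.l 75 4)) (.n (.l 75 4) (.b 5)))) (.b 5)))) (.b 5)))) (.n (.n (.b 4) (.n (.n (.b 4) (.b 10))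
  (.n (.n (.b 4) (.n (.n (.b 4) (.n (.n (.b 4) (.l 21 7)) (.n (.b 10) (.b 5)))) (.n (.n (.b 4) (.n
  (.l 75 4) (.l 75 4))) (.b 5)))) (.b 5)))) (.b 5)))) (.n (.b 10) (.b 5)))) (.n (.n (.b 4) (.n (.n
  (.b 4) (.n (.n (.b 4) (.n (.n (.b 4) (.n (.n (.b 4) (.n (.b 12) (.n (.n (.b 4) (.l 75 4)) (.b
  5)))) (.n (.n (.b 4) (.n (.n (.b 4) (.b 10)) (.n (.l 75 4) (.b 5)))) (.b 5)))) (.n (.n (.b 4)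
  (.n (.n (.b 4) (.b 10)) (.n (.n (.b 4) (.n (.l 45 4) (.n (.n (.b 4) (.n (.l 45 99) (.l 114 0)))
  (.b 5)))) (.b 5)))) (.b 5)))) (.n (.b 10) (.b 5)))) (.n (.n (.b 4) (.n (.n (.b 4) (.n (.n (.b 4)
  (.n (.n (.b 4) (.n (.n (.b 4) (.l 75 4)) (.n (.l 75 4) (.b 5)))) (.n (.n (.b 4) (.n (.l 75 4)
  (.n (.l 75 4) (.b 5)))) (.b 5)))) (.n (.b 10) (.b 5)))) (.n (.b 18) (.b 5)))) (.b 5)))) (.b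
  5)))) (.b 5)))) (.b 5)))) (.b 5)))) (.n (.b 10) (.b 5)))) (.n (.n (.b 4) (.n (.n (.b 4) (.n (.n
  (.b 4) (.n (.n (.b 4) (.n (.n (.b 4) (.n (.b 12) (.n (.n (.b 4) (.n (.n (.b 4) (.b 10)) (.n (.n
  (.b 4) (.n (.n (.b 4) (.n (.n (.b 4) (.n (.n (.b 4) (.n (.n (.b 4) (.n (.b 12) (.n (.l 84 4) (.b
  5)))) (.n (.n (.b 4) (.n (.l 84 4) (.n (.l 84 4) (.b 5)))) (.b 5)))) (.n (.n (.b 4) (.n (.n (.b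
  4) (.b 10)) (.n (.n (.b 4) (.l 84 4)) (.b 5)))) (.b 5)))) (.n (.b 10) (.b 5)))) (.n (.n (.b 4)
  (.n (.n (.b 4) (.n (.n (.b 4) (.n (.n (.b 4) (.n (.n (.b 4) (.l 84 4)) (.l 84 4))) (.n (.n (.b
  4) (.l 84 4)) (.b 5)))) (.n (.b 10) (.b 5)))) (.n (.n (.b 4) (.n (.n (.b 4) (.n (.n (.b 4) (.l
  84 4)) (.n (.b 10) (.b 5)))) (.n (.n (.b 4) (.n (.l 84 4) (.l 84 4))) (.b 5)))) (.b 5)))) (.b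
  5)))) (.b 5)))) (.b 5)))) (.n (.n (.b 4) (.n (.n (.b 4) (.b 10)) (.n (.n (.b 4) (.n (.n (.b 4)
  (.n (.n (.b 4) (.n (.n (.b 4) (.n (.n (.b 4) (.n (.b 12) (.n (.n (.b 4) (.n (.l 84 4) (.l 84
  4))) (.b 5)))) (.n (.n (.b 4) (.n (.n (.b 4) (.b 10)) (.n (.n (.b 4) (.l 84 4)) (.b 5)))) (.b
  5)))) (.n (.n (.b 4) (.n (.n (.b 4) (.b 10)) (.n (.n (.b 4) (.n (.n (.b 4) (.l 84 4)) (.n (.l 84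
  4) (.b 5)))) (.b 5)))) (.b 5)))) (.n (.b 10) (.b 5)))) (.n (.n (.b 4) (.n (.n (.b 4) (.n (.n (.b
  4) (.n (.n (.b 4) (.n (.n (.b 4) (.n (.b 12) (.l 84 4))) (.n (.n (.b 4) (.n (.n (.b 4) (.b 10))
  (.l 84 4))) (.b 5)))) (.n (.n (.b 4) (.n (.n (.b 4) (.b 10)) (.n (.n (.b 4) (.l 84 4)) (.b 5))))
  (.b 5)))) (.n (.b 10) (.b 5)))) (.n (.n (.b 4) (.n (.n (.b 4) (.n (.n (.b 4) (.n (.n (.b 4) (.l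
  84 4)) (.n (.n (.b 4) (.n (.n (.b 4) (.b 10)) (.l 84 4))) (.b 5)))) (.n (.b 10) (.b 5)))) (.n
  (.n (.b 4) (.n (.n (.b 4) (.n (.l 84 4) (.n (.b 10) (.b 5)))) (.n (.b 18) (.b 5)))) (.b 5))))
  (.b 5)))) (.b 5)))) (.b 5)))) (.b 5)))) (.n (.n (.b 4) (.n (.n (.b 4) (.b 10)) (.n (.n (.b 4)
  (.n (.n (.b 4) (.n (.n (.b 4) (.n (.n (.b 4) (.n (.n (.b 4) (.n (.b 12) (.n (.n (.b 4) (.n (.n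
  (.b 4) (.b 10)) (.n (.n (.b 4) (.l 84 4)) (.b 5)))) (.b 5)))) (.n (.n (.b 4) (.n (.n (.b 4) (.b
  10)) (.n (.n (.b 4) (.n (.n (.b 4) (.l 84 4)) (.n (.n (.b 4) (.l 84 4)) (.b 5)))) (.b 5)))) (.b
  5)))) (.n (.n (.b 4) (.n (.n (.b 4) (.b 10)) (.n (.n (.b 4) (.n (.n (.b 4) (.n (.n (.b 4) (.l 84
  4)) (.n (.b 10) (.b 5)))) (.n (.n (.b 4) (.n (.n (.b 4) (.l 84 4)) (.l 84 4))) (.b 5)))) (.b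
  5)))) (.b 5)))) (.n (.b 10) (.b 5)))) (.n (.n (.b 4) (.n (.n (.b 4) (.n (.n (.b 4) (.n (.n (.b
  4) (.n (.n (.b 4) (.n (.b 12) (.n (.n (.b 4) (.l 84 4)) (.b 5)))) (.n (.n (.b 4) (.n (.n (.b 4)
  (.b 10)) (.n (.l 84 4) (.b 5)))) (.b 5)))) (.n (.n (.b 4) (.n (.n (.b 4) (.b 10)) (.n (.n (.b 4)
  (.n (.l 84 4) (.l 84 4))) (.b 5)))) (.b 5)))) (.n (.b 10) (.b 5)))) (.n (.n (.b 4) (.n (.n (.b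
  4) (.n (.n (.b 4) (.n (.n (.b 4) (.n (.n (.b 4) (.l 75 4)) (.n (.l 75 4) (.b 5)))) (.n (.n (.b
  4) (.n (.l 39 4) (.n (.n (.b 4) (.n (.l 45 99) (.l 114 0))) (.b 5)))) (.b 5)))) (.n (.b 10) (.b
  5)))) (.n (.n (.b 4) (.n (.n (.b 4) (.n (.n (.b 4) (.n (.l 75 4) (.n (.l 75 4) (.b 5)))) (.n (.b
  10) (.b 5)))) (.n (.b 18) (.b 5)))) (.b 5)))) (.b 5)))) (.b 5)))) (.b 5)))) (.b 5)))) (.n (.b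
  10) (.b 5)))) (.n (.n (.b 4) (.n (.n (.b 4) (.n (.n (.b 4) (.n (.n (.b 4) (.n (.n (.b 4) (.n (.b
  12) (.n (.n (.b 4) (.n (.n (.b 4) (.b 10)) (.n (.n (.b 4) (.n (.n (.b 4) (.n (.n (.b 4) (.n (.n
  (.b 4) (.n (.l 93 4) (.n (.l 93 4) (.b 5)))) (.n (.n (.b 4) (.l 93 4)) (.b 5)))) (.n (.b 10) (.b
  5)))) (.n (.n (.b 4) (.n (.n (.b 4) (.n (.n (.b 4) (.n (.n (.b 4) (.l 93 4)) (.l 93 4))) (.n (.b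
  10) (.b 5)))) (.n (.n (.b 4) (.n (.l 93 4) (.l 93 4))) (.b 5)))) (.b 5)))) (.b 5)))) (.b 5))))
  (.n (.n (.b 4) (.n (.n (.b 4) (.b 10)) (.n (.n (.b 4) (.n (.n (.b 4) (.n (.n (.b 4) (.n (.n (.b
  4) (.n (.n (.b 4) (.n (.b 12) (.n (.l 93 4) (.b 5)))) (.n (.n (.b 4) (.l 93 4)) (.b 5)))) (.n
  (.n (.b 4) (.n (.n (.b 4) (.b 10)) (.n (.n (.b 4) (.l 93 4)) (.b 5)))) (.b 5)))) (.n (.b 10) (.b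
  5)))) (.n (.n (.b 4) (.n (.n (.b 4) (.n (.n (.b 4) (.n (.n (.b 4) (.l 93 4)) (.n (.l 93 4) (.b
  5)))) (.n (.b 10) (.b 5)))) (.n (.n (.b 4) (.n (.n (.b 4) (.n (.l 93 4) (.l 93 4))) (.n (.n (.b
  4) (.l 93 4)) (.b 5)))) (.b 5)))) (.b 5)))) (.b 5)))) (.b 5)))) (.n (.n (.b 4) (.n (.n (.b 4)
  (.b 10)) (.n (.n (.b 4) (.n (.n (.b 4) (.n (.n (.b 4) (.n (.n (.b 4) (.n (.n (.b 4) (.n (.b 12)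
  (.n (.n (.b 4) (.l 93 4)) (.b 5)))) (.n (.n (.b 4) (.n (.n (.b 4) (.b 10)) (.n (.l 93 4) (.b
  5)))) (.b 5)))) (.n (.n (.b 4) (.n (.n (.b 4) (.b 10)) (.n (.n (.b 4) (.n (.l 93 4) (.l 93 4)))
  (.b 5)))) (.b 5)))) (.n (.b 10) (.b 5)))) (.n (.n (.b 4) (.n (.n (.b 4) (.n (.n (.b 4) (.n (.n
  (.b 4) (.n (.n (.b 4) (.n (.b 12) (.n (.l 93 4) (.b 5)))) (.n (.n (.b 4) (.l 93 4)) (.b 5))))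
  (.n (.n (.b 4) (.n (.l 93 4) (.l 93 4))) (.b 5)))) (.n (.b 10) (.b 5)))) (.n (.n (.b 4) (.n (.n
  (.b 4) (.n (.n (.b 4) (.n (.l 84 4) (.n (.n (.b 4) (.n (.l 30 99) (.l 114 0))) (.b 5)))) (.n (.b
  10) (.b 5)))) (.n (.n (.b 4) (.n (.n (.b 4) (.l 84 4)) (.n (.b 18) (.b 5)))) (.b 5)))) (.b 5))))
  (.b 5)))) (.b 5)))) (.b 5)))) (.n (.b 10) (.b 5)))) (.n (.n (.b 4) (.n (.n (.b 4) (.n (.n (.b 4)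
  (.n (.n (.b 4) (.n (.n (.b 4) (.n (.b 12) (.n (.n (.b 4) (.n (.n (.b 4) (.b 10)) (.n (.n (.b 4)
  (.n (.n (.b 4) (.n (.n (.b 4) (.l 93 2)) (.n (.b 10) (.b 5)))) (.n (.n (.b 4) (.n (.l 93 2) (.n
  (.l 93 2) (.b 5)))) (.b 5)))) (.b 5)))) (.b 5)))) (.n (.n (.b 4) (.n (.n (.b 4) (.b 10)) (.n (.n
  (.b 4) (.n (.n (.b 4) (.n (.n (.b 4) (.n (.n (.b 4) (.l 93 2)) (.n (.l 93 2) (.b 5)))) (.n (.b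
  10) (.b 5)))) (.n (.n (.b 4) (.n (.n (.b 4) (.n (.n (.b 4) (.n (.l 93 2) (.n (.l 93 2) (.b 5))))
  (.l 93 2))) (.n (.n (.b 4) (.l 93 2)) (.b 5)))) (.b 5)))) (.b 5)))) (.b 5)))) (.n (.n (.b 4) (.n
  (.n (.b 4) (.b 10)) (.n (.n (.b 4) (.n (.n (.b 4) (.n (.n (.b 4) (.n (.n (.b 4) (.n (.n (.b 4)
  (.l 93 2)) (.n (.l 93 2) (.b 5)))) (.n (.n (.b 4) (.n (.l 93 2) (.l 93 2))) (.b 5)))) (.n (.b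
  10) (.b 5)))) (.n (.n (.b 4) (.n (.n (.b 4) (.n (.n (.b 4) (.n (.l 93 2) (.n (.l 93 2) (.b 5))))
  (.n (.b 10) (.b 5)))) (.n (.n (.b 4) (.n (.n (.b 4) (.l 93 2)) (.n (.l 93 2) (.b 5)))) (.b 5))))
  (.b 5)))) (.b 5)))) (.b 5)))) (.n (.b 10) (.b 5)))) (.n (.n (.b 4) (.b 18)) (.b 5)))) (.b 5))))
  (.b 5)))) (.b 5)))) (.b 5))

/-- A subtree of the table. -/
def s12 : T :=
  (.b 5)

/-- A subtree of the table. -/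
def s13 : T :=
  (.b 4)

/-- A subtree of the table. -/
def s14 : T :=
  (.b 4)

/-- A subtree of the table. -/
def s15 : T :=
  (.b 4)

/-- A subtree of the table. -/
def s16 : T :=
  (.n (.b 4) (.n (.n (.b 4) (.n (.b 12) (.n (.n (.b 4) (.n (.n (.b 4) (.b 10)) (.n (.n (.b 4) (.n
  (.n (.b 4) (.n (.n (.b 4) (.n (.n (.b 4) (.n (.n (.b 4) (.n (.b 12) (.n (.n (.b 4) (.n (.n (.b
  4) (.b 10)) (.n (.n (.b 4) (.n (.n (.b 4) (.n (.b 28) (.n (.b 10) (.b 5)))) (.n (.n (.b 4) (.n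
  (.l 72 99) (.l 72 99))) (.b 5)))) (.b 5)))) (.b 5)))) (.n (.n (.b 4) (.n (.n (.b 4) (.b 10)) (.n
  (.n (.b 4) (.n (.n (.b 4) (.n (.n (.b 4) (.n (.n (.b 4) (.l 42 4)) (.n (.l 42 4) (.b 5)))) (.n
  (.b 10) (.b 5)))) (.n (.n (.b 4) (.n (.n (.b 4) (.n (.l 42 4) (.l 42 4))) (.n (.n (.b 4) (.n (.l
  42 4) (.n (.l 42 4) (.b 5)))) (.b 5)))) (.b 5)))) (.b 5)))) (.b 5)))) (.n (.n (.b 4) (.n (.n (.b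
  4) (.b 10)) (.n (.n (.b 4) (.n (.n (.b 4) (.n (.n (.b 4) (.n (.n (.b 4) (.n (.n (.b 4) (.l 42
  4)) (.n (.n (.b 4) (.l 42 4)) (.b 5)))) (.n (.n (.b 4) (.n (.n (.b 4) (.b 10)) (.l 42 4))) (.b
  5)))) (.n (.b 10) (.b 5)))) (.n (.n (.b 4) (.n (.n (.b 4) (.n (.n (.b 4) (.n (.n (.b 4) (.l 42
  4)) (.l 42 4))) (.n (.b 10) (.b 5)))) (.n (.n (.b 4) (.n (.n (.b 4) (.n (.n (.b 4) (.l 42 4))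
  (.l 42 4))) (.n (.l 42 4) (.b 5)))) (.b 5)))) (.b 5)))) (.b 5)))) (.b 5)))) (.n (.b 10) (.b
  5)))) (.n (.n (.b 4) (.n (.n (.b 4) (.n (.n (.b 4) (.n (.n (.b 4) (.n (.n (.b 4) (.n (.b 12) (.n
  (.n (.b 4) (.n (.n (.b 4) (.b 10)) (.n (.n (.b 4) (.n (.l 48 4) (.l 48 4))) (.b 5)))) (.b 5))))
  (.n (.n (.b 4) (.n (.n (.b 4) (.b 10)) (.n (.n (.b 4) (.n (.n (.b 4) (.n (.n (.b 4) (.l 48 4))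
  (.l 48 4))) (.n (.n (.b 4) (.l 48 4)) (.b 5)))) (.b 5)))) (.b 5)))) (.n (.n (.b 4) (.n (.n (.b
  4) (.b 10)) (.n (.n (.b 4) (.n (.n (.b 4) (.n (.n (.b 4) (.n (.l 48 4) (.l 48 4))) (.n (.b 10)
  (.b 5)))) (.n (.n (.b 4) (.n (.n (.b 4) (.l 48 4)) (.n (.n (.b 4) (.n (.l 48 4) (.n (.l 48 4)
  (.b 5)))) (.b 5)))) (.b 5)))) (.b 5)))) (.b 5)))) (.n (.b 10) (.b 5)))) (.n (.n (.b 4) (.n (.n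
  (.b 4) (.n (.n (.b 4) (.n (.n (.b 4) (.n (.n (.b 4) (.n (.b 12) (.n (.n (.b 4) (.n (.l 48 4) (.l
  48 4))) (.b 5)))) (.n (.n (.b 4) (.n (.n (.b 4) (.b 10)) (.n (.n (.b 4) (.l 48 4)) (.b 5)))) (.b
  5)))) (.n (.n (.b 4) (.n (.n (.b 4) (.b 10)) (.n (.n (.b 4) (.n (.n (.b 4) (.l 48 4)) (.n (.l 48
  4) (.b 5)))) (.b 5)))) (.b 5)))) (.n (.b 10) (.b 5)))) (.n (.n (.b 4) (.n (.n (.b 4) (.n (.n (.b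
  4) (.n (.n (.b 4) (.n (.n (.b 4) (.n (.b 12) (.n (.l 48 4) (.b 5)))) (.n (.n (.b 4) (.n (.l 48
  4) (.l 48 4))) (.b 5)))) (.n (.n (.b 4) (.n (.n (.b 4) (.b 10)) (.n (.l 48 4) (.b 5)))) (.b
  5)))) (.n (.b 10) (.b 5)))) (.n (.b 18) (.b 5)))) (.b 5)))) (.b 5)))) (.b 5)))) (.b 5)))) (.b
  5)))) (.n (.n (.b 4) (.n (.n (.b 4) (.b 10)) (.n (.n (.b 4) (.n (.n (.b 4) (.n (.n (.b 4) (.n
  (.n (.b 4) (.n (.n (.b 4) (.n (.b 12) (.n (.n (.b 4) (.n (.n (.b 4) (.b 10)) (.n (.n (.b 4) (.n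
  (.n (.b 4) (.n (.n (.b 4) (.n (.b 28) (.n (.n (.b 4) (.n (.n (.b 4) (.b 10)) (.l 42 4))) (.b
  5)))) (.n (.b 10) (.b 5)))) (.n (.n (.b 4) (.n (.n (.b 4) (.n (.l 78 4) (.n (.b 10) (.b 5))))
  (.n (.n (.b 4) (.n (.l 78 4) (.l 78 4))) (.b 5)))) (.b 5)))) (.b 5)))) (.b 5)))) (.n (.n (.b 4)
  (.n (.n (.b 4) (.b 10)) (.n (.n (.b 4) (.n (.n (.b 4) (.n (.n (.b 4) (.n (.n (.b 4) (.n (.n (.b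
  4) (.n (.b 12) (.l 72 4))) (.n (.l 72 4) (.b 5)))) (.n (.n (.b 4) (.n (.l 72 4) (.n (.n (.b 4)
  (.n (.n (.b 4) (.n (.l 72 4) (.n (.b 10) (.b 5)))) (.l 72 4))) (.b 5)))) (.b 5)))) (.n (.b 10)
  (.b 5)))) (.n (.n (.b 4) (.n (.n (.b 4) (.n (.n (.b 4) (.n (.n (.b 4) (.l 72 4)) (.l 72 4))) (.n
  (.b 10) (.b 5)))) (.n (.n (.b 4) (.n (.n (.b 4) (.l 72 4)) (.n (.n (.b 4) (.l 72 4)) (.b 5))))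
  (.b 5)))) (.b 5)))) (.b 5)))) (.b 5)))) (.n (.n (.b 4) (.n (.n (.b 4) (.b 10)) (.n (.n (.b 4)
  (.n (.n (.b 4) (.n (.n (.b 4) (.n (.n (.b 4) (.n (.n (.b 4) (.n (.b 12) (.n (.n (.b 4) (.l 72
  4)) (.b 5)))) (.n (.n (.b 4) (.n (.n (.b 4) (.b 10)) (.l 72 4))) (.b 5)))) (.n (.n (.b 4) (.n
  (.n (.b 4) (.b 10)) (.n (.n (.b 4) (.l 72 4)) (.b 5)))) (.b 5)))) (.n (.b 10) (.b 5)))) (.n (.n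
  (.b 4) (.n (.n (.b 4) (.n (.n (.b 4) (.n (.n (.b 4) (.n (.l 72 4) (.l 72 4))) (.n (.n (.b 4) (.n
  (.l 72 4) (.l 72 4))) (.b 5)))) (.n (.b 10) (.b 5)))) (.n (.n (.b 4) (.n (.n (.b 4) (.n (.n (.b
  4) (.n (.n (.b 4) (.l 72 4)) (.l 72 4))) (.n (.b 10) (.b 5)))) (.n (.n (.b 4) (.n (.n (.b 4) (.l
  72 4)) (.n (.b 18) (.b 5)))) (.b 5)))) (.b 5)))) (.b 5)))) (.b 5)))) (.b 5)))) (.n (.b 10) (.b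
  5)))) (.n (.n (.b 4) (.n (.n (.b 4) (.n (.n (.b 4) (.n (.n (.b 4) (.n (.n (.b 4) (.n (.b 12) (.n
  (.n (.b 4) (.n (.n (.b 4) (.b 10)) (.n (.n (.b 4) (.n (.n (.b 4) (.n (.n (.b 4) (.l 72 4)) (.n
  (.b 10) (.b 5)))) (.n (.n (.b 4) (.n (.l 72 4) (.l 72 4))) (.b 5)))) (.b 5)))) (.b 5)))) (.n (.n
  (.b 4) (.n (.n (.b 4) (.b 10)) (.n (.n (.b 4) (.n (.n (.b 4) (.n (.n (.b 4) (.n (.n (.b 4) (.l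
  72 4)) (.l 72 4))) (.n (.b 10) (.b 5)))) (.n (.n (.b 4) (.n (.n (.b 4) (.l 72 4)) (.n (.n (.b 4)
  (.l 72 4)) (.b 5)))) (.b 5)))) (.b 5)))) (.b 5)))) (.n (.n (.b 4) (.n (.n (.b 4) (.b 10)) (.n
  (.n (.b 4) (.n (.n (.b 4) (.n (.n (.b 4) (.n (.n (.b 4) (.n (.l 72 4) (.l 72 4))) (.n (.n (.b 4)
  (.l 72 4)) (.b 5)))) (.n (.b 10) (.b 5)))) (.n (.n (.b 4) (.n (.n (.b 4) (.n (.n (.b 4) (.l 72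
  4)) (.n (.b 10) (.b 5)))) (.n (.n (.b 4) (.n (.n (.b 4) (.l 72 4)) (.n (.l 72 4) (.b 5)))) (.b
  5)))) (.b 5)))) (.b 5)))) (.b 5)))) (.n (.b 10) (.b 5)))) (.n (.n (.b 4) (.n (.n (.b 4) (.n (.n
  (.b 4) (.n (.n (.b 4) (.n (.n (.b 4) (.n (.b 12) (.n (.n (.b 4) (.n (.n (.b 4) (.b 10)) (.n (.n
  (.b 4) (.n (.l 72 4) (.n (.l 72 4) (.b 5)))) (.b 5)))) (.b 5)))) (.n (.n (.b 4) (.n (.n (.b 4)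
  (.b 10)) (.n (.n (.b 4) (.n (.n (.b 4) (.l 72 4)) (.n (.l 72 4) (.b 5)))) (.b 5)))) (.b 5))))
  (.n (.n (.b 4) (.n (.n (.b 4) (.b 10)) (.n (.n (.b 4) (.n (.n (.b 4) (.n (.n (.b 4) (.n (.l 72
  4) (.l 72 4))) (.n (.b 10) (.b 5)))) (.n (.n (.b 4) (.n (.l 72 4) (.l 72 4))) (.b 5)))) (.b
  5)))) (.b 5)))) (.n (.b 10) (.b 5)))) (.n (.n (.b 4) (.n (.n (.b 4) (.n (.n (.b 4) (.n (.n (.b
  4) (.n (.n (.b 4) (.n (.b 12) (.n (.n (.b 4) (.l 72 4)) (.b 5)))) (.n (.n (.b 4) (.n (.n (.b 4)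
  (.b 10)) (.n (.n (.b 4) (.l 72 4)) (.b 5)))) (.b 5)))) (.n (.n (.b 4) (.n (.n (.b 4) (.b 10))
  (.n (.n (.b 4) (.n (.n (.b 4) (.l 72 4)) (.n (.l 72 4) (.b 5)))) (.b 5)))) (.b 5)))) (.n (.b 10)
  (.b 5)))) (.n (.b 18) (.b 5)))) (.b 5)))) (.b 5)))) (.b 5)))) (.b 5)))) (.b 5))))

/-- A subtree of the table. -/
def s17 : T :=
  (.n (.n (.b 4) (.n (.n (.b 4) (.b 10)) (.n (.n (.b 4) (.n (.n (.b 4) (.n (.n (.b 4) (.n (.n (.b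
  4) (.n (.n (.b 4) (.n (.b 12) (.n (.n (.b 4) (.n (.n (.b 4) (.b 10)) (.n (.n (.b 4) (.n (.n (.b
  4) (.n (.n (.b 4) (.n (.n (.b 4) (.n (.b 28) (.n (.n (.b 4) (.n (.n (.b 4) (.b 10)) (.l 42 4)))
  (.b 5)))) (.n (.n (.b 4) (.n (.n (.b 4) (.b 10)) (.l 48 4))) (.b 5)))) (.n (.b 10) (.b 5)))) (.n
  (.n (.b 4) (.n (.n (.b 4) (.n (.n (.b 4) (.n (.l 84 4) (.n (.l 84 4) (.b 5)))) (.n (.b 10) (.b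
  5)))) (.n (.n (.b 4) (.n (.n (.b 4) (.n (.l 84 4) (.n (.b 10) (.b 5)))) (.n (.l 84 4) (.b 5))))
  (.b 5)))) (.b 5)))) (.b 5)))) (.b 5)))) (.n (.n (.b 4) (.n (.n (.b 4) (.b 10)) (.n (.n (.b 4)
  (.n (.n (.b 4) (.n (.n (.b 4) (.n (.n (.b 4) (.n (.n (.b 4) (.n (.b 12) (.n (.n (.b 4) (.n (.n
  (.b 4) (.b 10)) (.l 78 4))) (.b 5)))) (.n (.n (.b 4) (.n (.n (.b 4) (.b 10)) (.l 78 4))) (.b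
  5)))) (.n (.n (.b 4) (.n (.n (.b 4) (.b 10)) (.n (.n (.b 4) (.n (.n (.b 4) (.n (.l 102 6) (.n
  (.b 10) (.b 5)))) (.l 102 6))) (.b 5)))) (.b 5)))) (.n (.b 10) (.b 5)))) (.n (.n (.b 4) (.n (.n
  (.b 4) (.n (.n (.b 4) (.n (.n (.b 4) (.n (.n (.b 4) (.l 78 4)) (.l 78 4))) (.n (.n (.b 4) (.n
  (.l 78 4) (.l 78 4))) (.b 5)))) (.n (.b 10) (.b 5)))) (.n (.n (.b 4) (.n (.n (.b 4) (.n (.n (.b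
  4) (.l 78 4)) (.n (.b 10) (.b 5)))) (.n (.n (.b 4) (.n (.n (.b 4) (.l 78 4)) (.l 78 4))) (.b
  5)))) (.b 5)))) (.b 5)))) (.b 5)))) (.b 5)))) (.n (.n (.b 4) (.n (.n (.b 4) (.b 10)) (.n (.n (.b
  4) (.n (.n (.b 4) (.n (.n (.b 4) (.n (.n (.b 4) (.n (.n (.b 4) (.n (.b 12) (.n (.n (.b 4) (.n
  (.l 78 4) (.n (.n (.b 4) (.l 78 4)) (.b 5)))) (.b 5)))) (.n (.n (.b 4) (.n (.n (.b 4) (.b 10))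
  (.n (.n (.b 4) (.l 78 4)) (.b 5)))) (.b 5)))) (.n (.n (.b 4) (.n (.n (.b 4) (.b 10)) (.n (.n (.b
  4) (.n (.n (.b 4) (.l 30 6)) (.n (.n (.b 4) (.l 102 2)) (.b 5)))) (.b 5)))) (.b 5)))) (.n (.b
  10) (.b 5)))) (.n (.n (.b 4) (.n (.n (.b 4) (.n (.n (.b 4) (.n (.n (.b 4) (.n (.n (.b 4) (.n (.b
  12) (.l 78 4))) (.n (.n (.b 4) (.l 78 4)) (.b 5)))) (.n (.n (.b 4) (.n (.n (.b 4) (.b 10)) (.n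
  (.n (.b 4) (.l 78 4)) (.b 5)))) (.b 5)))) (.n (.b 10) (.b 5)))) (.n (.n (.b 4) (.n (.n (.b 4)
  (.n (.n (.b 4) (.n (.n (.b 4) (.l 78 4)) (.n (.l 78 4) (.b 5)))) (.n (.b 10) (.b 5)))) (.n (.n
  (.b 4) (.n (.n (.b 4) (.n (.n (.b 4) (.n (.n (.b 4) (.l 78 4)) (.l 78 4))) (.l 78 4))) (.n (.b
  18) (.b 5)))) (.b 5)))) (.b 5)))) (.b 5)))) (.b 5)))) (.b 5)))) (.n (.b 10) (.b 5)))) (.n (.n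
  (.b 4) (.n (.n (.b 4) (.n (.n (.b 4) (.n (.n (.b 4) (.n (.n (.b 4) (.n (.b 12) (.n (.n (.b 4)
  (.n (.n (.b 4) (.b 10)) (.n (.n (.b 4) (.n (.n (.b 4) (.n (.n (.b 4) (.n (.n (.b 4) (.n (.l 78
  4) (.l 78 4))) (.l 78 4))) (.n (.b 10) (.b 5)))) (.n (.n (.b 4) (.n (.n (.b 4) (.l 78 4)) (.n
  (.n (.b 4) (.n (.l 78 4) (.n (.n (.b 4) (.l 78 4)) (.b 5)))) (.b 5)))) (.b 5)))) (.b 5)))) (.b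
  5)))) (.n (.n (.b 4) (.n (.n (.b 4) (.b 10)) (.n (.n (.b 4) (.n (.n (.b 4) (.n (.n (.b 4) (.n
  (.n (.b 4) (.n (.n (.b 4) (.l 78 4)) (.l 78 4))) (.n (.n (.b 4) (.l 78 4)) (.b 5)))) (.n (.b 10)
  (.b 5)))) (.n (.n (.b 4) (.n (.n (.b 4) (.n (.n (.b 4) (.l 78 4)) (.n (.b 10) (.b 5)))) (.n (.n
  (.b 4) (.n (.l 78 4) (.n (.n (.b 4) (.n (.l 78 4) (.n (.b 18) (.b 5)))) (.b 5)))) (.b 5)))) (.b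
  5)))) (.b 5)))) (.b 5)))) (.n (.n (.b 4) (.n (.n (.b 4) (.b 10)) (.n (.n (.b 4) (.n (.n (.b 4)
  (.n (.n (.b 4) (.n (.n (.b 4) (.n (.n (.b 4) (.n (.b 12) (.n (.n (.b 4) (.l 60 4)) (.b 5)))) (.n
  (.n (.b 4) (.n (.l 60 4) (.l 60 4))) (.b 5)))) (.n (.n (.b 4) (.n (.n (.b 4) (.b 10)) (.n (.l 60
  4) (.b 5)))) (.b 5)))) (.n (.b 10) (.b 5)))) (.n (.n (.b 4) (.n (.n (.b 4) (.n (.n (.b 4) (.n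
  (.n (.b 4) (.n (.l 78 4) (.l 78 4))) (.n (.n (.b 4) (.l 78 4)) (.b 5)))) (.n (.b 10) (.b 5))))
  (.n (.n (.b 4) (.n (.n (.b 4) (.n (.l 78 4) (.n (.b 10) (.b 5)))) (.n (.n (.b 4) (.n (.l 78 4)
  (.n (.b 18) (.b 5)))) (.b 5)))) (.b 5)))) (.b 5)))) (.b 5)))) (.b 5)))) (.n (.b 10) (.b 5))))
  (.n (.n (.b 4) (.n (.n (.b 4) (.n (.n (.b 4) (.n (.n (.b 4) (.n (.n (.b 4) (.n (.b 12) (.n (.n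
  (.b 4) (.n (.n (.b 4) (.b 10)) (.n (.n (.b 4) (.n (.n (.b 4) (.n (.n (.b 4) (.l 78 4)) (.l 78
  4))) (.n (.l 78 4) (.b 5)))) (.b 5)))) (.b 5)))) (.n (.n (.b 4) (.n (.n (.b 4) (.b 10)) (.n (.n
  (.b 4) (.n (.n (.b 4) (.n (.n (.b 4) (.n (.l 78 4) (.l 78 4))) (.n (.b 10) (.b 5)))) (.n (.n (.b
  4) (.n (.n (.b 4) (.l 78 4)) (.l 78 4))) (.b 5)))) (.b 5)))) (.b 5)))) (.n (.n (.b 4) (.n (.n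
  (.b 4) (.b 10)) (.n (.n (.b 4) (.n (.n (.b 4) (.n (.n (.b 4) (.n (.n (.b 4) (.n (.l 78 4) (.n
  (.n (.b 4) (.l 78 4)) (.b 5)))) (.n (.l 78 4) (.b 5)))) (.n (.b 10) (.b 5)))) (.n (.n (.b 4) (.n
  (.n (.b 4) (.n (.l 78 4) (.l 78 4))) (.n (.n (.b 4) (.n (.n (.b 4) (.n (.l 30 6) (.l 30 6))) (.l
  60 6))) (.b 5)))) (.b 5)))) (.b 5)))) (.b 5)))) (.n (.b 10) (.b 5)))) (.n (.n (.b 4) (.n (.n (.b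
  4) (.n (.n (.b 4) (.n (.n (.b 4) (.n (.n (.b 4) (.n (.b 12) (.n (.n (.b 4) (.n (.n (.b 4) (.b
  10)) (.n (.n (.b 4) (.n (.l 78 4) (.n (.l 78 4) (.b 5)))) (.b 5)))) (.b 5)))) (.n (.n (.b 4) (.n
  (.n (.b 4) (.b 10)) (.n (.n (.b 4) (.n (.n (.b 4) (.n (.n (.b 4) (.l 78 4)) (.l 78 4))) (.l 78
  4))) (.b 5)))) (.b 5)))) (.n (.n (.b 4) (.n (.n (.b 4) (.b 10)) (.n (.n (.b 4) (.n (.n (.b 4)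
  (.n (.n (.b 4) (.n (.l 78 4) (.n (.n (.b 4) (.l 78 4)) (.b 5)))) (.l 78 4))) (.n (.n (.b 4) (.n
  (.l 78 4) (.l 78 4))) (.b 5)))) (.b 5)))) (.b 5)))) (.n (.b 10) (.b 5)))) (.n (.b 18) (.b 5))))
  (.b 5)))) (.b 5)))) (.b 5)))) (.b 5)))) (.b 5))

/-- A subtree of the table. -/
def s18 : T :=
  (.n (.n (.b 4) (.n (.n (.b 4) (.b 10)) (.n (.n (.b 4) (.n (.n (.b 4) (.n (.n (.b 4) (.n (.n (.b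
  4) (.n (.n (.b 4) (.n (.b 12) (.n (.n (.b 4) (.n (.n (.b 4) (.b 10)) (.n (.n (.b 4) (.n (.n (.b
  4) (.n (.n (.b 4) (.n (.n (.b 4) (.n (.n (.b 4) (.n (.b 12) (.b 28))) (.n (.n (.b 4) (.n (.n (.b
  4) (.b 10)) (.l 72 1))) (.b 5)))) (.n (.n (.b 4) (.n (.n (.b 4) (.b 10)) (.n (.n (.b 4) (.n (.l
  78 1) (.l 78 1))) (.b 5)))) (.b 5)))) (.n (.b 10) (.b 5)))) (.n (.n (.b 4) (.n (.n (.b 4) (.n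
  (.n (.b 4) (.n (.n (.b 4) (.n (.n (.b 4) (.l 114 1)) (.n (.l 114 1) (.b 5)))) (.n (.n (.b 4) (.n
  (.l 114 1) (.l 114 1))) (.b 5)))) (.n (.b 10) (.b 5)))) (.n (.n (.b 4) (.n (.n (.b 4) (.n (.n
  (.b 4) (.n (.l 114 1) (.n (.l 114 1) (.b 5)))) (.n (.b 10) (.b 5)))) (.n (.n (.b 4) (.n (.l 114
  1) (.l 114 1))) (.b 5)))) (.b 5)))) (.b 5)))) (.b 5)))) (.b 5)))) (.n (.n (.b 4) (.n (.n (.b 4)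
  (.b 10)) (.n (.n (.b 4) (.n (.n (.b 4) (.n (.n (.b 4) (.n (.n (.b 4) (.n (.n (.b 4) (.n (.b 12)
  (.n (.n (.b 4) (.n (.n (.b 4) (.b 10)) (.n (.n (.b 4) (.l 108 1)) (.b 5)))) (.b 5)))) (.n (.n
  (.b 4) (.n (.n (.b 4) (.b 10)) (.n (.n (.b 4) (.l 108 1)) (.b 5)))) (.b 5)))) (.n (.n (.b 4) (.n
  (.n (.b 4) (.b 10)) (.n (.n (.b 4) (.n (.n (.b 4) (.n (.l 114 1) (.n (.b 10) (.b 5)))) (.n (.n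
  (.b 4) (.l 114 1)) (.b 5)))) (.b 5)))) (.b 5)))) (.n (.b 10) (.b 5)))) (.n (.n (.b 4) (.n (.n
  (.b 4) (.n (.n (.b 4) (.n (.n (.b 4) (.n (.n (.b 4) (.n (.b 12) (.n (.l 108 1) (.b 5)))) (.n (.n
  (.b 4) (.l 108 1)) (.b 5)))) (.n (.n (.b 4) (.n (.n (.b 4) (.b 10)) (.n (.n (.b 4) (.l 108 1))
  (.b 5)))) (.b 5)))) (.n (.b 10) (.b 5)))) (.n (.n (.b 4) (.n (.n (.b 4) (.n (.n (.b 4) (.n (.n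
  (.b 4) (.l 108 1)) (.n (.l 108 1) (.b 5)))) (.n (.b 10) (.b 5)))) (.n (.n (.b 4) (.n (.n (.b 4)
  (.n (.n (.b 4) (.n (.n (.b 4) (.l 108 1)) (.l 108 1))) (.l 108 1))) (.n (.b 18) (.b 5)))) (.b
  5)))) (.b 5)))) (.b 5)))) (.b 5)))) (.b 5)))) (.n (.n (.b 4) (.n (.n (.b 4) (.b 10)) (.n (.n (.b
  4) (.n (.n (.b 4) (.n (.n (.b 4) (.n (.n (.b 4) (.n (.n (.b 4) (.n (.b 12) (.n (.n (.b 4) (.n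
  (.n (.b 4) (.b 10)) (.n (.n (.b 4) (.n (.n (.b 4) (.l 108 1)) (.l 108 1))) (.b 5)))) (.b 5))))
  (.n (.n (.b 4) (.n (.n (.b 4) (.b 10)) (.n (.n (.b 4) (.n (.n (.b 4) (.n (.n (.b 4) (.n (.n (.b
  4) (.n (.l 108 1) (.n (.n (.b 4) (.n (.n (.b 4) (.b 10)) (.l 108 1))) (.b 5)))) (.l 108 1))) (.l
  108 1))) (.n (.l 108 1) (.b 5)))) (.b 5)))) (.b 5)))) (.n (.n (.b 4) (.n (.n (.b 4) (.b 10)) (.n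
  (.n (.b 4) (.n (.n (.b 4) (.n (.n (.b 4) (.l 93 1)) (.n (.b 10) (.b 5)))) (.n (.n (.b 4) (.n (.n
  (.b 4) (.l 114 1)) (.n (.n (.b 4) (.l 114 1)) (.b 5)))) (.b 5)))) (.b 5)))) (.b 5)))) (.n (.b
  10) (.b 5)))) (.n (.n (.b 4) (.n (.n (.b 4) (.n (.n (.b 4) (.n (.n (.b 4) (.n (.n (.b 4) (.n (.b
  12) (.n (.n (.b 4) (.n (.l 108 1) (.l 108 1))) (.b 5)))) (.n (.n (.b 4) (.n (.n (.b 4) (.b 10))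
  (.n (.l 108 1) (.b 5)))) (.b 5)))) (.n (.n (.b 4) (.n (.n (.b 4) (.b 10)) (.n (.n (.b 4) (.n (.n
  (.b 4) (.n (.l 36 6) (.l 36 6))) (.l 108 1))) (.b 5)))) (.b 5)))) (.n (.b 10) (.b 5)))) (.n (.n
  (.b 4) (.n (.n (.b 4) (.n (.n (.b 4) (.n (.n (.b 4) (.n (.n (.b 4) (.n (.b 12) (.l 108 1))) (.n
  (.l 108 1) (.b 5)))) (.n (.n (.b 4) (.n (.l 108 1) (.l 108 1))) (.b 5)))) (.n (.b 10) (.b 5))))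
  (.n (.n (.b 4) (.n (.n (.b 4) (.n (.n (.b 4) (.n (.n (.b 4) (.l 108 1)) (.l 108 1))) (.n (.b 10)
  (.b 5)))) (.n (.b 18) (.b 5)))) (.b 5)))) (.b 5)))) (.b 5)))) (.b 5)))) (.b 5)))) (.n (.b 10)
  (.b 5)))) (.n (.n (.b 4) (.n (.n (.b 4) (.n (.n (.b 4) (.n (.n (.b 4) (.n (.n (.b 4) (.n (.b 12)
  (.n (.n (.b 4) (.n (.n (.b 4) (.b 10)) (.n (.n (.b 4) (.n (.n (.b 4) (.n (.n (.b 4) (.n (.n (.b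
  4) (.n (.n (.b 4) (.n (.b 12) (.l 108 1))) (.l 108 1))) (.n (.n (.b 4) (.l 108 1)) (.b 5)))) (.n
  (.b 10) (.b 5)))) (.n (.n (.b 4) (.n (.n (.b 4) (.n (.n (.b 4) (.l 108 1)) (.n (.b 10) (.b 5))))
  (.n (.n (.b 4) (.n (.l 108 1) (.n (.n (.b 4) (.l 108 1)) (.b 5)))) (.b 5)))) (.b 5)))) (.b 5))))
  (.b 5)))) (.n (.n (.b 4) (.n (.n (.b 4) (.b 10)) (.n (.n (.b 4) (.n (.n (.b 4) (.n (.n (.b 4)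
  (.n (.n (.b 4) (.n (.n (.b 4) (.n (.b 12) (.l 108 1))) (.n (.n (.b 4) (.n (.l 108 1) (.l 108
  1))) (.b 5)))) (.n (.n (.b 4) (.n (.n (.b 4) (.b 10)) (.n (.l 108 1) (.b 5)))) (.b 5)))) (.n (.b
  10) (.b 5)))) (.n (.n (.b 4) (.n (.n (.b 4) (.n (.n (.b 4) (.n (.n (.b 4) (.n (.l 108 1) (.l 108
  1))) (.n (.n (.b 4) (.l 108 1)) (.b 5)))) (.n (.b 10) (.b 5)))) (.n (.n (.b 4) (.n (.n (.b 4)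
  (.n (.l 108 1) (.n (.b 10) (.b 5)))) (.n (.n (.b 4) (.n (.l 108 1) (.n (.b 18) (.b 5)))) (.b
  5)))) (.b 5)))) (.b 5)))) (.b 5)))) (.b 5)))) (.n (.n (.b 4) (.n (.n (.b 4) (.b 10)) (.n (.n (.b
  4) (.n (.n (.b 4) (.n (.n (.b 4) (.n (.n (.b 4) (.n (.n (.b 4) (.n (.b 12) (.n (.n (.b 4) (.l 90
  1)) (.b 5)))) (.n (.n (.b 4) (.n (.n (.b 4) (.b 10)) (.n (.n (.b 4) (.n (.n (.b 4) (.l 90 1))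
  (.l 90 1))) (.b 5)))) (.b 5)))) (.n (.n (.b 4) (.n (.n (.b 4) (.b 10)) (.n (.n (.b 4) (.n (.l 90
  1) (.n (.l 90 1) (.b 5)))) (.b 5)))) (.b 5)))) (.n (.b 10) (.b 5)))) (.n (.n (.b 4) (.n (.n (.b
  4) (.n (.n (.b 4) (.n (.n (.b 4) (.n (.n (.b 4) (.l 108 1)) (.n (.n (.b 4) (.l 108 1)) (.b 5))))
  (.n (.n (.b 4) (.n (.n (.b 4) (.b 10)) (.n (.l 108 1) (.b 5)))) (.b 5)))) (.n (.b 10) (.b 5))))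
  (.n (.n (.b 4) (.n (.n (.b 4) (.n (.n (.b 4) (.n (.l 108 1) (.l 108 1))) (.n (.b 10) (.b 5))))
  (.n (.n (.b 4) (.n (.n (.b 4) (.n (.l 108 1) (.l 108 1))) (.n (.b 18) (.b 5)))) (.b 5)))) (.b
  5)))) (.b 5)))) (.b 5)))) (.b 5)))) (.n (.b 10) (.b 5)))) (.n (.n (.b 4) (.n (.n (.b 4) (.n (.n
  (.b 4) (.n (.n (.b 4) (.n (.n (.b 4) (.n (.b 12) (.n (.n (.b 4) (.n (.n (.b 4) (.b 10)) (.n (.n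
  (.b 4) (.n (.n (.b 4) (.n (.n (.b 4) (.n (.n (.b 4) (.l 108 1)) (.l 108 1))) (.n (.b 10) (.b
  5)))) (.n (.n (.b 4) (.n (.n (.b 4) (.l 108 1)) (.n (.l 108 1) (.b 5)))) (.b 5)))) (.b 5)))) (.b
  5)))) (.n (.n (.b 4) (.n (.n (.b 4) (.b 10)) (.n (.n (.b 4) (.n (.n (.b 4) (.n (.n (.b 4) (.n
  (.n (.b 4) (.l 108 1)) (.n (.n (.b 4) (.n (.n (.b 4) (.b 10)) (.l 108 1))) (.b 5)))) (.n (.b 10)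
  (.b 5)))) (.n (.n (.b 4) (.n (.n (.b 4) (.n (.l 108 1) (.n (.b 10) (.b 5)))) (.n (.n (.b 4) (.l
  108 1)) (.b 5)))) (.b 5)))) (.b 5)))) (.b 5)))) (.n (.n (.b 4) (.n (.n (.b 4) (.b 10)) (.n (.n
  (.b 4) (.n (.n (.b 4) (.n (.n (.b 4) (.n (.n (.b 4) (.n (.n (.b 4) (.n (.b 12) (.n (.l 108 1)
  (.b 5)))) (.n (.n (.b 4) (.l 108 1)) (.b 5)))) (.n (.n (.b 4) (.n (.l 108 1) (.l 108 1))) (.b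
  5)))) (.n (.b 10) (.b 5)))) (.n (.n (.b 4) (.n (.n (.b 4) (.n (.n (.b 4) (.n (.n (.b 4) (.l 108
  1)) (.l 108 1))) (.n (.b 10) (.b 5)))) (.n (.n (.b 4) (.n (.n (.b 4) (.n (.n (.b 4) (.n (.l 93
  1) (.l 93 1))) (.l 60 1))) (.n (.l 90 1) (.b 5)))) (.b 5)))) (.b 5)))) (.b 5)))) (.b 5)))) (.n
  (.b 10) (.b 5)))) (.n (.n (.b 4) (.n (.n (.b 4) (.n (.n (.b 4) (.n (.n (.b 4) (.n (.n (.b 4) (.n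
  (.b 12) (.n (.n (.b 4) (.n (.n (.b 4) (.b 10)) (.n (.n (.b 4) (.n (.l 108 1) (.n (.l 108 1) (.b
  5)))) (.b 5)))) (.b 5)))) (.n (.n (.b 4) (.n (.n (.b 4) (.b 10)) (.n (.n (.b 4) (.n (.n (.b 4)
  (.n (.n (.b 4) (.l 108 1)) (.l 108 1))) (.n (.n (.b 4) (.n (.l 108 1) (.n (.l 108 1) (.b 5))))
  (.b 5)))) (.b 5)))) (.b 5)))) (.n (.n (.b 4) (.n (.n (.b 4) (.b 10)) (.n (.n (.b 4) (.n (.n (.b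
  4) (.n (.n (.b 4) (.n (.l 108 1) (.n (.n (.b 4) (.l 108 1)) (.b 5)))) (.n (.b 10) (.b 5)))) (.n
  (.n (.b 4) (.n (.n (.b 4) (.l 108 1)) (.n (.l 108 1) (.b 5)))) (.b 5)))) (.b 5)))) (.b 5)))) (.n
  (.b 10) (.b 5)))) (.n (.b 18) (.b 5)))) (.b 5)))) (.b 5)))) (.b 5)))) (.b 5)))) (.b 5))

/-- A subtree of the table. -/
def s19 : T :=
  (.b 4)

/-- A subtree of the table. -/
def s20 : T :=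
  (.n (.b 4) (.n (.n (.b 4) (.n (.n (.b 4) (.n (.n (.b 4) (.n (.b 12) (.n (.n (.b 4) (.n (.n (.b
  4) (.b 10)) (.n (.n (.b 4) (.n (.n (.b 4) (.n (.n (.b 4) (.n (.n (.b 4) (.n (.n (.b 4) (.n (.b
  12) (.n (.n (.b 4) (.n (.n (.b 4) (.b 10)) (.n (.n (.b 4) (.b 28)) (.b 5)))) (.b 5)))) (.n (.n
  (.b 4) (.n (.n (.b 4) (.b 10)) (.n (.n (.b 4) (.n (.n (.b 4) (.n (.n (.b 4) (.n (.l 105 1) (.n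
  (.l 105 1) (.b 5)))) (.n (.b 10) (.b 5)))) (.n (.n (.b 4) (.l 105 1)) (.b 5)))) (.b 5)))) (.b
  5)))) (.n (.n (.b 4) (.n (.n (.b 4) (.b 10)) (.n (.n (.b 4) (.n (.n (.b 4) (.n (.n (.b 4) (.n
  (.l 105 1) (.n (.l 105 1) (.b 5)))) (.n (.b 10) (.b 5)))) (.n (.n (.b 4) (.n (.n (.b 4) (.l 105
  1)) (.n (.n (.b 4) (.l 105 1)) (.b 5)))) (.b 5)))) (.b 5)))) (.b 5)))) (.n (.b 10) (.b 5)))) (.n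
  (.n (.b 4) (.n (.n (.b 4) (.n (.n (.b 4) (.n (.n (.b 4) (.n (.n (.b 4) (.n (.b 12) (.n (.n (.b
  4) (.n (.n (.b 4) (.b 10)) (.n (.l 111 1) (.b 5)))) (.b 5)))) (.n (.n (.b 4) (.n (.n (.b 4) (.b
  10)) (.n (.n (.b 4) (.l 111 1)) (.b 5)))) (.b 5)))) (.n (.n (.b 4) (.n (.n (.b 4) (.b 10)) (.n
  (.n (.b 4) (.n (.n (.b 4) (.l 111 1)) (.n (.n (.b 4) (.l 111 1)) (.b 5)))) (.b 5)))) (.b 5))))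
  (.n (.b 10) (.b 5)))) (.n (.n (.b 4) (.n (.n (.b 4) (.n (.n (.b 4) (.n (.n (.b 4) (.n (.n (.b 4)
  (.n (.b 12) (.l 111 1))) (.n (.n (.b 4) (.n (.l 111 1) (.n (.l 111 1) (.b 5)))) (.b 5)))) (.n
  (.n (.b 4) (.n (.n (.b 4) (.b 10)) (.n (.l 111 1) (.b 5)))) (.b 5)))) (.n (.b 10) (.b 5)))) (.n
  (.n (.b 4) (.n (.n (.b 4) (.n (.n (.b 4) (.n (.n (.b 4) (.l 111 1)) (.n (.n (.b 4) (.l 111 1))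
  (.b 5)))) (.n (.b 10) (.b 5)))) (.n (.b 18) (.b 5)))) (.b 5)))) (.b 5)))) (.b 5)))) (.b 5))))
  (.b 5)))) (.n (.n (.b 4) (.n (.n (.b 4) (.b 10)) (.n (.n (.b 4) (.n (.n (.b 4) (.n (.n (.b 4)
  (.n (.n (.b 4) (.n (.n (.b 4) (.n (.b 12) (.n (.n (.b 4) (.n (.n (.b 4) (.b 10)) (.n (.n (.b 4)
  (.n (.n (.b 4) (.n (.n (.b 4) (.n (.b 28) (.n (.n (.b 4) (.n (.n (.b 4) (.b 10)) (.l 105 1)))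
  (.b 5)))) (.l 105 1))) (.n (.n (.b 4) (.n (.l 105 1) (.n (.l 105 1) (.b 5)))) (.b 5)))) (.b
  5)))) (.b 5)))) (.n (.n (.b 4) (.n (.n (.b 4) (.b 10)) (.n (.n (.b 4) (.n (.n (.b 4) (.n (.n (.b
  4) (.n (.l 105 1) (.n (.n (.b 4) (.n (.l 105 1) (.n (.n (.b 4) (.n (.n (.b 4) (.n (.l 105 1) (.n
  (.b 10) (.b 5)))) (.l 105 1))) (.b 5)))) (.b 5)))) (.n (.b 10) (.b 5)))) (.n (.n (.b 4) (.n (.n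
  (.b 4) (.l 105 1)) (.n (.l 105 1) (.b 5)))) (.b 5)))) (.b 5)))) (.b 5)))) (.n (.n (.b 4) (.n (.n
  (.b 4) (.b 10)) (.n (.n (.b 4) (.n (.n (.b 4) (.n (.n (.b 4) (.n (.n (.b 4) (.n (.n (.b 4) (.l
  111 1)) (.l 111 1))) (.n (.n (.b 4) (.n (.l 111 1) (.l 111 1))) (.b 5)))) (.n (.b 10) (.b 5))))
  (.n (.n (.b 4) (.n (.n (.b 4) (.n (.n (.b 4) (.l 111 1)) (.n (.b 10) (.b 5)))) (.n (.n (.b 4)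
  (.n (.n (.b 4) (.l 111 1)) (.l 111 1))) (.b 5)))) (.b 5)))) (.b 5)))) (.b 5)))) (.n (.b 10) (.b
  5)))) (.n (.n (.b 4) (.n (.n (.b 4) (.n (.n (.b 4) (.n (.n (.b 4) (.n (.n (.b 4) (.n (.b 12) (.n
  (.n (.b 4) (.n (.n (.b 4) (.b 10)) (.n (.n (.b 4) (.l 105 1)) (.b 5)))) (.b 5)))) (.n (.n (.b 4)
  (.n (.n (.b 4) (.b 10)) (.n (.n (.b 4) (.n (.n (.b 4) (.l 105 1)) (.n (.n (.b 4) (.n (.l 105 1)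
  (.n (.n (.b 4) (.l 105 1)) (.b 5)))) (.b 5)))) (.b 5)))) (.b 5)))) (.n (.n (.b 4) (.n (.n (.b 4)
  (.b 10)) (.n (.n (.b 4) (.n (.n (.b 4) (.n (.n (.b 4) (.n (.l 105 1) (.l 105 1))) (.n (.b 10)
  (.b 5)))) (.n (.n (.b 4) (.n (.l 105 1) (.n (.l 105 1) (.b 5)))) (.b 5)))) (.b 5)))) (.b 5))))
  (.n (.b 10) (.b 5)))) (.n (.n (.b 4) (.n (.n (.b 4) (.n (.n (.b 4) (.n (.n (.b 4) (.n (.n (.b 4)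
  (.n (.b 12) (.n (.n (.b 4) (.n (.n (.b 4) (.b 10)) (.l 105 1))) (.b 5)))) (.n (.n (.b 4) (.n (.n
  (.b 4) (.b 10)) (.n (.n (.b 4) (.l 105 1)) (.b 5)))) (.b 5)))) (.n (.n (.b 4) (.n (.n (.b 4) (.b
  10)) (.n (.n (.b 4) (.n (.n (.b 4) (.n (.l 105 1) (.l 105 1))) (.l 105 1))) (.b 5)))) (.b 5))))
  (.n (.b 10) (.b 5)))) (.n (.n (.b 4) (.n (.n (.b 4) (.n (.n (.b 4) (.n (.n (.b 4) (.n (.n (.b 4)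
  (.l 105 1)) (.n (.l 105 1) (.b 5)))) (.n (.n (.b 4) (.n (.n (.b 4) (.b 10)) (.l 105 1))) (.b
  5)))) (.n (.b 10) (.b 5)))) (.n (.b 18) (.b 5)))) (.b 5)))) (.b 5)))) (.b 5)))) (.b 5)))) (.b
  5)))) (.n (.n (.b 4) (.n (.n (.b 4) (.b 10)) (.n (.n (.b 4) (.n (.n (.b 4) (.n (.n (.b 4) (.n
  (.n (.b 4) (.n (.n (.b 4) (.n (.b 12) (.n (.n (.b 4) (.n (.n (.b 4) (.b 10)) (.n (.n (.b 4) (.n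
  (.n (.b 4) (.n (.n (.b 4) (.n (.n (.b 4) (.n (.b 28) (.n (.n (.b 4) (.n (.n (.b 4) (.b 10)) (.l
  105 1))) (.b 5)))) (.l 105 1))) (.n (.b 10) (.b 5)))) (.n (.n (.b 4) (.n (.n (.b 4) (.n (.l 105
  1) (.l 105 1))) (.n (.l 105 1) (.b 5)))) (.b 5)))) (.b 5)))) (.b 5)))) (.n (.n (.b 4) (.n (.n
  (.b 4) (.b 10)) (.n (.n (.b 4) (.n (.n (.b 4) (.n (.n (.b 4) (.n (.n (.b 4) (.n (.l 105 1) (.n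
  (.n (.b 4) (.n (.n (.b 4) (.b 10)) (.l 105 1))) (.b 5)))) (.n (.n (.b 4) (.b 29)) (.b 5)))) (.n
  (.b 10) (.b 5)))) (.n (.n (.b 4) (.n (.n (.b 4) (.n (.n (.b 4) (.n (.l 105 1) (.l 105 1))) (.n
  (.b 10) (.b 5)))) (.n (.n (.b 4) (.n (.n (.b 4) (.n (.l 105 1) (.n (.b 10) (.b 5)))) (.l 105
  1))) (.b 5)))) (.b 5)))) (.b 5)))) (.b 5)))) (.n (.n (.b 4) (.n (.n (.b 4) (.b 10)) (.n (.n (.b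
  4) (.n (.n (.b 4) (.n (.n (.b 4) (.n (.n (.b 4) (.n (.n (.b 4) (.n (.b 12) (.n (.l 105 1) (.b
  5)))) (.n (.n (.b 4) (.l 105 1)) (.b 5)))) (.n (.n (.b 4) (.n (.n (.b 4) (.b 10)) (.n (.l 93 1)
  (.b 5)))) (.b 5)))) (.n (.b 10) (.b 5)))) (.n (.n (.b 4) (.n (.n (.b 4) (.n (.n (.b 4) (.n (.n
  (.b 4) (.n (.l 111 1) (.l 111 1))) (.n (.l 111 1) (.b 5)))) (.n (.b 10) (.b 5)))) (.n (.n (.b 4)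
  (.n (.n (.b 4) (.n (.l 111 1) (.l 111 1))) (.n (.n (.b 4) (.l 111 1)) (.b 5)))) (.b 5)))) (.b
  5)))) (.b 5)))) (.b 5)))) (.n (.b 10) (.b 5)))) (.n (.n (.b 4) (.n (.n (.b 4) (.n (.n (.b 4) (.n
  (.n (.b 4) (.n (.n (.b 4) (.n (.b 12) (.n (.n (.b 4) (.n (.n (.b 4) (.b 10)) (.n (.n (.b 4) (.n
  (.n (.b 4) (.l 105 1)) (.n (.n (.b 4) (.l 105 1)) (.b 5)))) (.b 5)))) (.b 5)))) (.n (.n (.b 4)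
  (.n (.n (.b 4) (.b 10)) (.n (.n (.b 4) (.n (.n (.b 4) (.n (.n (.b 4) (.l 105 1)) (.n (.b 10) (.b
  5)))) (.n (.n (.b 4) (.n (.n (.b 4) (.l 105 1)) (.n (.l 105 1) (.b 5)))) (.b 5)))) (.b 5)))) (.b
  5)))) (.n (.n (.b 4) (.n (.n (.b 4) (.b 10)) (.n (.n (.b 4) (.n (.n (.b 4) (.n (.n (.b 4) (.n
  (.n (.b 4) (.l 51 1)) (.n (.n (.b 4) (.l 51 1)) (.b 5)))) (.n (.b 10) (.b 5)))) (.n (.n (.b 4)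
  (.n (.n (.b 4) (.n (.n (.b 4) (.l 105 1)) (.n (.b 10) (.b 5)))) (.n (.n (.b 4) (.l 105 1)) (.b
  5)))) (.b 5)))) (.b 5)))) (.b 5)))) (.n (.b 10) (.b 5)))) (.n (.n (.b 4) (.n (.n (.b 4) (.n (.n
  (.b 4) (.n (.n (.b 4) (.n (.n (.b 4) (.n (.b 12) (.n (.n (.b 4) (.n (.n (.b 4) (.b 10)) (.n (.n
  (.b 4) (.l 105 1)) (.b 5)))) (.b 5)))) (.n (.n (.b 4) (.n (.n (.b 4) (.b 10)) (.n (.n (.b 4) (.n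
  (.l 105 1) (.n (.n (.b 4) (.n (.n (.b 4) (.l 105 1)) (.l 105 1))) (.b 5)))) (.b 5)))) (.b 5))))
  (.n (.n (.b 4) (.n (.n (.b 4) (.b 10)) (.n (.n (.b 4) (.n (.n (.b 4) (.n (.l 75 1) (.l 75 1)))
  (.n (.n (.b 4) (.n (.l 75 1) (.n (.n (.b 4) (.l 93 1)) (.b 5)))) (.b 5)))) (.b 5)))) (.b 5))))
  (.n (.b 10) (.b 5)))) (.n (.n (.b 4) (.n (.n (.b 4) (.n (.n (.b 4) (.n (.n (.b 4) (.n (.n (.b 4)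
  (.n (.b 12) (.n (.n (.b 4) (.l 105 1)) (.b 5)))) (.n (.n (.b 4) (.n (.n (.b 4) (.b 10)) (.l 105
  1))) (.b 5)))) (.n (.n (.b 4) (.n (.n (.b 4) (.b 10)) (.n (.n (.b 4) (.n (.l 105 1) (.l 105 1)))
  (.b 5)))) (.b 5)))) (.n (.b 10) (.b 5)))) (.n (.b 18) (.b 5)))) (.b 5)))) (.b 5)))) (.b 5))))
  (.b 5)))) (.b 5)))) (.n (.b 10) (.b 5))))

/-- A subtree of the table. -/
def s21 : T :=
  (.n (.n (.b 4) (.n (.n (.b 4) (.n (.n (.b 4) (.n (.n (.b 4) (.n (.n (.b 4) (.n (.b 12) (.n (.n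
  (.b 4) (.n (.n (.b 4) (.b 10)) (.n (.n (.b 4) (.n (.n (.b 4) (.n (.n (.b 4) (.n (.n (.b 4) (.n
  (.n (.b 4) (.n (.b 12) (.n (.n (.b 4) (.b 28)) (.b 5)))) (.n (.n (.b 4) (.n (.n (.b 4) (.b 10))
  (.n (.n (.b 4) (.n (.l 96 3) (.l 96 3))) (.b 5)))) (.b 5)))) (.n (.n (.b 4) (.n (.n (.b 4) (.b
  10)) (.n (.n (.b 4) (.n (.n (.b 4) (.n (.l 96 3) (.n (.b 10) (.b 5)))) (.n (.l 96 3) (.b 5))))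
  (.b 5)))) (.b 5)))) (.n (.b 10) (.b 5)))) (.n (.n (.b 4) (.n (.n (.b 4) (.n (.n (.b 4) (.n (.n
  (.b 4) (.n (.n (.b 4) (.n (.b 12) (.l 102 3))) (.n (.n (.b 4) (.l 102 3)) (.b 5)))) (.n (.n (.b
  4) (.n (.n (.b 4) (.b 10)) (.n (.n (.b 4) (.n (.l 102 3) (.n (.n (.b 4) (.l 102 3)) (.b 5))))
  (.b 5)))) (.b 5)))) (.n (.b 10) (.b 5)))) (.n (.n (.b 4) (.n (.n (.b 4) (.n (.n (.b 4) (.n (.n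
  (.b 4) (.n (.n (.b 4) (.l 102 3)) (.l 102 3))) (.n (.l 102 3) (.b 5)))) (.n (.b 10) (.b 5))))
  (.n (.n (.b 4) (.n (.n (.b 4) (.n (.n (.b 4) (.n (.l 102 3) (.n (.l 102 3) (.b 5)))) (.l 102
  3))) (.n (.b 18) (.b 5)))) (.b 5)))) (.b 5)))) (.b 5)))) (.b 5)))) (.b 5)))) (.n (.n (.b 4) (.n
  (.n (.b 4) (.b 10)) (.n (.n (.b 4) (.n (.n (.b 4) (.n (.n (.b 4) (.n (.n (.b 4) (.n (.n (.b 4)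
  (.n (.b 12) (.n (.n (.b 4) (.n (.n (.b 4) (.b 10)) (.n (.n (.b 4) (.l 96 3)) (.b 5)))) (.b 5))))
  (.n (.n (.b 4) (.n (.n (.b 4) (.b 10)) (.n (.n (.b 4) (.n (.n (.b 4) (.n (.l 96 3) (.l 96 3)))
  (.n (.l 96 3) (.b 5)))) (.b 5)))) (.b 5)))) (.n (.n (.b 4) (.n (.n (.b 4) (.b 10)) (.n (.n (.b
  4) (.n (.n (.b 4) (.n (.n (.b 4) (.n (.l 102 3) (.l 102 3))) (.n (.b 10) (.b 5)))) (.n (.n (.b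
  4) (.n (.n (.b 4) (.n (.l 102 3) (.n (.b 10) (.b 5)))) (.l 102 3))) (.b 5)))) (.b 5)))) (.b
  5)))) (.n (.b 10) (.b 5)))) (.n (.n (.b 4) (.n (.n (.b 4) (.n (.n (.b 4) (.n (.n (.b 4) (.n (.n
  (.b 4) (.n (.b 12) (.n (.n (.b 4) (.l 96 3)) (.b 5)))) (.n (.n (.b 4) (.n (.n (.b 4) (.b 10))
  (.n (.n (.b 4) (.l 96 3)) (.b 5)))) (.b 5)))) (.n (.n (.b 4) (.n (.n (.b 4) (.b 10)) (.n (.n (.b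
  4) (.n (.l 96 3) (.n (.l 96 3) (.b 5)))) (.b 5)))) (.b 5)))) (.n (.b 10) (.b 5)))) (.n (.n (.b
  4) (.n (.n (.b 4) (.n (.n (.b 4) (.n (.n (.b 4) (.n (.n (.b 4) (.n (.b 12) (.l 96 3))) (.n (.n
  (.b 4) (.l 96 3)) (.b 5)))) (.n (.n (.b 4) (.n (.n (.b 4) (.b 10)) (.l 96 3))) (.b 5)))) (.n (.b
  10) (.b 5)))) (.n (.n (.b 4) (.n (.n (.b 4) (.n (.n (.b 4) (.n (.n (.b 4) (.l 96 3)) (.l 96 3)))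
  (.n (.b 10) (.b 5)))) (.n (.b 18) (.b 5)))) (.b 5)))) (.b 5)))) (.b 5)))) (.b 5)))) (.b 5))))
  (.n (.n (.b 4) (.n (.n (.b 4) (.b 10)) (.n (.n (.b 4) (.n (.n (.b 4) (.n (.n (.b 4) (.n (.n (.b
  4) (.n (.n (.b 4) (.n (.b 12) (.n (.n (.b 4) (.n (.n (.b 4) (.b 10)) (.n (.n (.b 4) (.n (.n (.b
  4) (.l 96 3)) (.n (.l 96 3) (.b 5)))) (.b 5)))) (.b 5)))) (.n (.n (.b 4) (.n (.n (.b 4) (.b 10))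
  (.n (.n (.b 4) (.n (.n (.b 4) (.n (.n (.b 4) (.n (.n (.b 4) (.n (.l 96 3) (.n (.n (.b 4) (.n (.n
  (.b 4) (.b 10)) (.l 96 3))) (.b 5)))) (.l 96 3))) (.n (.b 10) (.b 5)))) (.n (.n (.b 4) (.n (.n
  (.b 4) (.l 96 3)) (.n (.l 96 3) (.b 5)))) (.b 5)))) (.b 5)))) (.b 5)))) (.n (.n (.b 4) (.n (.n
  (.b 4) (.b 10)) (.n (.n (.b 4) (.n (.n (.b 4) (.n (.n (.b 4) (.n (.n (.b 4) (.l 96 3)) (.n (.n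
  (.b 4) (.b 30)) (.b 5)))) (.n (.b 10) (.b 5)))) (.n (.n (.b 4) (.n (.n (.b 4) (.n (.l 102 3) (.n
  (.b 10) (.b 5)))) (.n (.n (.b 4) (.l 102 3)) (.b 5)))) (.b 5)))) (.b 5)))) (.b 5)))) (.n (.b 10)
  (.b 5)))) (.n (.n (.b 4) (.n (.n (.b 4) (.n (.n (.b 4) (.n (.n (.b 4) (.n (.n (.b 4) (.n (.b 12)
  (.n (.n (.b 4) (.n (.n (.b 4) (.b 10)) (.n (.n (.b 4) (.n (.n (.b 4) (.l 96 3)) (.l 96 3))) (.b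
  5)))) (.b 5)))) (.n (.n (.b 4) (.n (.n (.b 4) (.b 10)) (.n (.n (.b 4) (.n (.l 96 3) (.n (.l 96
  3) (.b 5)))) (.b 5)))) (.b 5)))) (.n (.n (.b 4) (.n (.n (.b 4) (.b 10)) (.n (.n (.b 4) (.n (.n
  (.b 4) (.n (.n (.b 4) (.l 42 6)) (.n (.b 10) (.b 5)))) (.n (.n (.b 4) (.l 96 3)) (.b 5)))) (.b
  5)))) (.b 5)))) (.n (.b 10) (.b 5)))) (.n (.n (.b 4) (.n (.n (.b 4) (.n (.n (.b 4) (.n (.n (.b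
  4) (.n (.n (.b 4) (.n (.b 12) (.n (.l 96 3) (.b 5)))) (.n (.n (.b 4) (.n (.l 96 3) (.n (.l 96 3)
  (.b 5)))) (.b 5)))) (.n (.n (.b 4) (.n (.n (.b 4) (.b 10)) (.n (.n (.b 4) (.n (.l 66 3) (.n (.n
  (.b 4) (.l 66 3)) (.b 5)))) (.b 5)))) (.b 5)))) (.n (.b 10) (.b 5)))) (.n (.n (.b 4) (.n (.n (.b
  4) (.n (.n (.b 4) (.n (.n (.b 4) (.n (.n (.b 4) (.l 96 3)) (.n (.l 96 3) (.b 5)))) (.n (.n (.b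
  4) (.l 96 3)) (.b 5)))) (.n (.b 10) (.b 5)))) (.n (.b 18) (.b 5)))) (.b 5)))) (.b 5)))) (.b
  5)))) (.b 5)))) (.b 5)))) (.n (.b 10) (.b 5)))) (.n (.n (.b 4) (.n (.n (.b 4) (.n (.n (.b 4) (.n
  (.n (.b 4) (.n (.n (.b 4) (.n (.b 12) (.n (.n (.b 4) (.n (.n (.b 4) (.b 10)) (.n (.n (.b 4) (.n
  (.n (.b 4) (.n (.n (.b 4) (.n (.n (.b 4) (.n (.n (.b 4) (.n (.b 12) (.l 105 3))) (.n (.n (.b 4)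
  (.n (.l 105 3) (.n (.l 105 3) (.b 5)))) (.b 5)))) (.n (.n (.b 4) (.n (.n (.b 4) (.b 10)) (.n (.l
  105 3) (.b 5)))) (.b 5)))) (.n (.b 10) (.b 5)))) (.n (.n (.b 4) (.n (.n (.b 4) (.n (.n (.b 4)
  (.n (.n (.b 4) (.l 105 3)) (.n (.n (.b 4) (.l 105 3)) (.b 5)))) (.n (.b 10) (.b 5)))) (.n (.n
  (.b 4) (.n (.n (.b 4) (.n (.n (.b 4) (.l 105 3)) (.n (.b 10) (.b 5)))) (.n (.n (.b 4) (.n (.l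
  105 3) (.l 105 3))) (.b 5)))) (.b 5)))) (.b 5)))) (.b 5)))) (.b 5)))) (.n (.n (.b 4) (.n (.n (.b
  4) (.b 10)) (.n (.n (.b 4) (.n (.n (.b 4) (.n (.n (.b 4) (.n (.n (.b 4) (.n (.n (.b 4) (.n (.b
  12) (.n (.n (.b 4) (.l 105 3)) (.b 5)))) (.n (.n (.b 4) (.n (.n (.b 4) (.b 10)) (.n (.n (.b 4)
  (.l 105 3)) (.b 5)))) (.b 5)))) (.n (.n (.b 4) (.n (.n (.b 4) (.b 10)) (.n (.n (.b 4) (.n (.n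
  (.b 4) (.l 105 3)) (.n (.l 105 3) (.b 5)))) (.b 5)))) (.b 5)))) (.n (.b 10) (.b 5)))) (.n (.n
  (.b 4) (.n (.n (.b 4) (.n (.n (.b 4) (.n (.n (.b 4) (.n (.n (.b 4) (.l 105 3)) (.n (.n (.b 4)
  (.n (.n (.b 4) (.b 10)) (.l 105 3))) (.b 5)))) (.n (.n (.b 4) (.n (.n (.b 4) (.b 10)) (.n (.n
  (.b 4) (.l 105 3)) (.b 5)))) (.b 5)))) (.n (.b 10) (.b 5)))) (.n (.n (.b 4) (.n (.n (.b 4) (.n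
  (.n (.b 4) (.n (.l 105 3) (.n (.n (.b 4) (.n (.n (.b 4) (.b 10)) (.l 105 3))) (.b 5)))) (.n (.b
  10) (.b 5)))) (.n (.n (.b 4) (.n (.n (.b 4) (.n (.l 105 3) (.n (.b 10) (.b 5)))) (.n (.b 18) (.b
  5)))) (.b 5)))) (.b 5)))) (.b 5)))) (.b 5)))) (.b 5)))) (.n (.n (.b 4) (.n (.n (.b 4) (.b 10))
  (.n (.n (.b 4) (.n (.n (.b 4) (.n (.n (.b 4) (.n (.n (.b 4) (.n (.n (.b 4) (.n (.b 12) (.n (.n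
  (.b 4) (.n (.n (.b 4) (.b 10)) (.n (.l 105 3) (.b 5)))) (.b 5)))) (.n (.n (.b 4) (.n (.n (.b 4)
  (.b 10)) (.n (.n (.b 4) (.n (.n (.b 4) (.l 105 3)) (.l 105 3))) (.b 5)))) (.b 5)))) (.n (.n (.b
  4) (.n (.n (.b 4) (.b 10)) (.n (.n (.b 4) (.n (.n (.b 4) (.n (.n (.b 4) (.l 105 3)) (.n (.b 10)
  (.b 5)))) (.n (.n (.b 4) (.n (.n (.b 4) (.l 105 3)) (.l 105 3))) (.b 5)))) (.b 5)))) (.b 5))))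
  (.n (.b 10) (.b 5)))) (.n (.n (.b 4) (.n (.n (.b 4) (.n (.n (.b 4) (.n (.n (.b 4) (.n (.n (.b 4)
  (.n (.b 12) (.n (.l 105 3) (.b 5)))) (.n (.n (.b 4) (.n (.l 105 3) (.n (.l 105 3) (.b 5)))) (.b
  5)))) (.n (.n (.b 4) (.n (.n (.b 4) (.b 10)) (.n (.n (.b 4) (.l 105 3)) (.b 5)))) (.b 5)))) (.n
  (.b 10) (.b 5)))) (.n (.n (.b 4) (.n (.n (.b 4) (.n (.n (.b 4) (.n (.n (.b 4) (.n (.l 96 3) (.l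
  96 3))) (.n (.n (.b 4) (.n (.l 60 3) (.n (.n (.b 4) (.l 66 3)) (.b 5)))) (.b 5)))) (.n (.b 10)
  (.b 5)))) (.n (.n (.b 4) (.n (.n (.b 4) (.n (.n (.b 4) (.l 96 3)) (.n (.b 10) (.b 5)))) (.n (.b
  18) (.b 5)))) (.b 5)))) (.b 5)))) (.b 5)))) (.b 5)))) (.b 5)))) (.n (.b 10) (.b 5)))) (.n (.n
  (.b 4) (.n (.n (.b 4) (.n (.n (.b 4) (.n (.n (.b 4) (.n (.n (.b 4) (.n (.b 12) (.n (.n (.b 4)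
  (.n (.n (.b 4) (.b 10)) (.n (.n (.b 4) (.n (.n (.b 4) (.n (.n (.b 4) (.n (.n (.b 4) (.l 114 3))
  (.n (.l 114 3) (.b 5)))) (.n (.b 10) (.b 5)))) (.n (.n (.b 4) (.n (.n (.b 4) (.n (.n (.b 4) (.n
  (.n (.b 4) (.l 114 3)) (.l 114 3))) (.l 114 3))) (.n (.n (.b 4) (.l 114 3)) (.b 5)))) (.b 5))))
  (.b 5)))) (.b 5)))) (.n (.n (.b 4) (.n (.n (.b 4) (.b 10)) (.n (.n (.b 4) (.n (.n (.b 4) (.n (.n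
  (.b 4) (.n (.n (.b 4) (.n (.n (.b 4) (.n (.b 12) (.n (.l 114 3) (.b 5)))) (.n (.n (.b 4) (.l 114
  3)) (.b 5)))) (.n (.n (.b 4) (.n (.n (.b 4) (.b 10)) (.l 114 3))) (.b 5)))) (.n (.b 10) (.b
  5)))) (.n (.n (.b 4) (.n (.n (.b 4) (.n (.n (.b 4) (.n (.l 114 3) (.n (.l 114 3) (.b 5)))) (.n
  (.b 10) (.b 5)))) (.n (.n (.b 4) (.n (.n (.b 4) (.n (.l 114 3) (.l 114 3))) (.n (.l 114 3) (.b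
  5)))) (.b 5)))) (.b 5)))) (.b 5)))) (.b 5)))) (.n (.n (.b 4) (.n (.n (.b 4) (.b 10)) (.n (.n (.b
  4) (.n (.n (.b 4) (.n (.n (.b 4) (.n (.n (.b 4) (.n (.n (.b 4) (.n (.b 12) (.n (.l 114 3) (.b
  5)))) (.n (.n (.b 4) (.n (.l 114 3) (.n (.l 114 3) (.b 5)))) (.b 5)))) (.n (.n (.b 4) (.n (.n
  (.b 4) (.b 10)) (.n (.n (.b 4) (.n (.l 114 3) (.l 114 3))) (.b 5)))) (.b 5)))) (.n (.b 10) (.b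
  5)))) (.n (.n (.b 4) (.n (.n (.b 4) (.n (.n (.b 4) (.n (.n (.b 4) (.n (.n (.b 4) (.n (.b 12) (.n
  (.l 114 3) (.b 5)))) (.n (.n (.b 4) (.l 114 3)) (.b 5)))) (.n (.n (.b 4) (.l 114 3)) (.b 5))))
  (.n (.b 10) (.b 5)))) (.n (.n (.b 4) (.n (.n (.b 4) (.n (.n (.b 4) (.n (.l 105 3) (.n (.n (.b 4)
  (.l 51 4)) (.b 5)))) (.n (.b 10) (.b 5)))) (.n (.n (.b 4) (.n (.l 105 3) (.l 105 3))) (.b 5))))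
  (.b 5)))) (.b 5)))) (.b 5)))) (.b 5)))) (.n (.b 10) (.b 5)))) (.n (.n (.b 4) (.n (.n (.b 4) (.n
  (.n (.b 4) (.n (.n (.b 4) (.n (.n (.b 4) (.n (.b 12) (.n (.n (.b 4) (.n (.n (.b 4) (.b 10)) (.n
  (.n (.b 4) (.n (.n (.b 4) (.n (.l 114 1) (.l 114 1))) (.n (.n (.b 4) (.l 114 1)) (.b 5)))) (.b
  5)))) (.b 5)))) (.n (.n (.b 4) (.n (.n (.b 4) (.b 10)) (.n (.n (.b 4) (.n (.n (.b 4) (.n (.n (.b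
  4) (.n (.l 114 1) (.n (.l 114 1) (.b 5)))) (.n (.b 10) (.b 5)))) (.n (.n (.b 4) (.n (.n (.b 4)
  (.n (.n (.b 4) (.n (.l 114 1) (.n (.l 114 1) (.b 5)))) (.l 114 1))) (.n (.l 114 1) (.b 5)))) (.b
  5)))) (.b 5)))) (.b 5)))) (.n (.n (.b 4) (.n (.n (.b 4) (.b 10)) (.n (.n (.b 4) (.n (.n (.b 4)
  (.n (.n (.b 4) (.n (.n (.b 4) (.n (.n (.b 4) (.l 114 1)) (.n (.l 114 1) (.b 5)))) (.n (.n (.b 4)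
  (.n (.l 114 1) (.l 114 1))) (.b 5)))) (.n (.b 10) (.b 5)))) (.n (.n (.b 4) (.n (.n (.b 4) (.n
  (.n (.b 4) (.n (.l 114 1) (.n (.l 114 1) (.b 5)))) (.n (.b 10) (.b 5)))) (.n (.n (.b 4) (.n (.l
  114 1) (.l 114 1))) (.b 5)))) (.b 5)))) (.b 5)))) (.b 5)))) (.n (.b 10) (.b 5)))) (.n (.b 18)
  (.b 5)))) (.b 5)))) (.b 5)))) (.b 5)))) (.b 5))

/-- A subtree of the table. -/
def s22 : T :=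
  (.b 5)

/-- A subtree of the table. -/
def s23 : T :=
  (.b 4)

/-- A subtree of the table. -/
def s24 : T :=
  (.b 4)

/-- A subtree of the table. -/
def s25 : T :=
  (.n (.b 4) (.n (.n (.b 4) (.n (.n (.b 4) (.n (.b 12) (.n (.n (.b 4) (.n (.n (.b 4) (.b 10)) (.n
  (.n (.b 4) (.n (.n (.b 4) (.n (.n (.b 4) (.n (.n (.b 4) (.n (.n (.b 4) (.n (.b 12) (.n (.n (.b
  4) (.n (.n (.b 4) (.b 10)) (.n (.n (.b 4) (.n (.n (.b 4) (.b 28)) (.n (.n (.b 4) (.l 93 99)) (.b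
  5)))) (.b 5)))) (.b 5)))) (.n (.n (.b 4) (.n (.n (.b 4) (.b 10)) (.n (.n (.b 4) (.n (.n (.b 4)
  (.n (.n (.b 4) (.n (.l 63 3) (.n (.l 63 3) (.b 5)))) (.n (.b 10) (.b 5)))) (.n (.n (.b 4) (.n
  (.n (.b 4) (.l 63 3)) (.n (.l 63 3) (.b 5)))) (.b 5)))) (.b 5)))) (.b 5)))) (.n (.n (.b 4) (.n
  (.n (.b 4) (.b 10)) (.n (.n (.b 4) (.n (.n (.b 4) (.n (.n (.b 4) (.n (.n (.b 4) (.n (.n (.b 4)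
  (.l 63 3)) (.l 63 3))) (.n (.n (.b 4) (.l 63 3)) (.b 5)))) (.n (.b 10) (.b 5)))) (.n (.n (.b 4)
  (.n (.n (.b 4) (.n (.n (.b 4) (.n (.n (.b 4) (.l 63 3)) (.l 63 3))) (.n (.b 10) (.b 5)))) (.n
  (.n (.b 4) (.n (.l 63 3) (.l 63 3))) (.b 5)))) (.b 5)))) (.b 5)))) (.b 5)))) (.n (.b 10) (.b
  5)))) (.n (.n (.b 4) (.n (.n (.b 4) (.n (.n (.b 4) (.n (.n (.b 4) (.n (.n (.b 4) (.n (.b 12) (.n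
  (.n (.b 4) (.n (.n (.b 4) (.b 10)) (.n (.n (.b 4) (.l 69 3)) (.b 5)))) (.b 5)))) (.n (.n (.b 4)
  (.n (.n (.b 4) (.b 10)) (.n (.n (.b 4) (.n (.n (.b 4) (.l 69 3)) (.n (.n (.b 4) (.l 69 3)) (.b
  5)))) (.b 5)))) (.b 5)))) (.n (.n (.b 4) (.n (.n (.b 4) (.b 10)) (.n (.n (.b 4) (.n (.n (.b 4)
  (.n (.n (.b 4) (.l 69 3)) (.n (.b 10) (.b 5)))) (.n (.n (.b 4) (.n (.l 69 3) (.l 69 3))) (.b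
  5)))) (.b 5)))) (.b 5)))) (.n (.b 10) (.b 5)))) (.n (.n (.b 4) (.n (.n (.b 4) (.n (.n (.b 4) (.n
  (.n (.b 4) (.n (.n (.b 4) (.n (.b 12) (.n (.n (.b 4) (.l 69 3)) (.b 5)))) (.n (.n (.b 4) (.n (.n
  (.b 4) (.b 10)) (.n (.l 69 3) (.b 5)))) (.b 5)))) (.n (.n (.b 4) (.n (.n (.b 4) (.b 10)) (.n (.n
  (.b 4) (.n (.l 69 3) (.l 69 3))) (.b 5)))) (.b 5)))) (.n (.b 10) (.b 5)))) (.n (.n (.b 4) (.n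
  (.n (.b 4) (.n (.n (.b 4) (.n (.n (.b 4) (.n (.n (.b 4) (.l 69 3)) (.n (.l 69 3) (.b 5)))) (.n
  (.n (.b 4) (.n (.l 69 3) (.n (.l 69 3) (.b 5)))) (.b 5)))) (.n (.b 10) (.b 5)))) (.n (.b 18) (.b
  5)))) (.b 5)))) (.b 5)))) (.b 5)))) (.b 5)))) (.b 5)))) (.n (.n (.b 4) (.n (.n (.b 4) (.b 10))
  (.n (.n (.b 4) (.n (.n (.b 4) (.n (.n (.b 4) (.n (.n (.b 4) (.n (.n (.b 4) (.n (.b 12) (.n (.n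
  (.b 4) (.n (.n (.b 4) (.b 10)) (.n (.n (.b 4) (.n (.n (.b 4) (.n (.n (.b 4) (.n (.b 28) (.n (.n
  (.b 4) (.n (.n (.b 4) (.b 10)) (.l 63 3))) (.b 5)))) (.n (.b 10) (.b 5)))) (.n (.n (.b 4) (.n
  (.n (.b 4) (.l 63 3)) (.n (.l 63 3) (.b 5)))) (.b 5)))) (.b 5)))) (.b 5)))) (.n (.n (.b 4) (.n
  (.n (.b 4) (.b 10)) (.n (.n (.b 4) (.n (.n (.b 4) (.n (.n (.b 4) (.n (.n (.b 4) (.n (.l 63 3)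
  (.l 63 3))) (.n (.n (.b 4) (.n (.l 63 3) (.n (.n (.b 4) (.n (.n (.b 4) (.n (.l 63 3) (.n (.b 10)
  (.b 5)))) (.l 63 3))) (.b 5)))) (.b 5)))) (.n (.b 10) (.b 5)))) (.n (.n (.b 4) (.n (.n (.b 4)
  (.n (.n (.b 4) (.l 63 3)) (.n (.b 10) (.b 5)))) (.n (.n (.b 4) (.n (.n (.b 4) (.l 63 3)) (.l 63
  3))) (.b 5)))) (.b 5)))) (.b 5)))) (.b 5)))) (.n (.n (.b 4) (.n (.n (.b 4) (.b 10)) (.n (.n (.b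
  4) (.n (.n (.b 4) (.n (.n (.b 4) (.n (.n (.b 4) (.n (.n (.b 4) (.n (.b 12) (.n (.l 69 3) (.b
  5)))) (.n (.n (.b 4) (.l 69 3)) (.b 5)))) (.n (.n (.b 4) (.n (.n (.b 4) (.b 10)) (.n (.l 69 3)
  (.b 5)))) (.b 5)))) (.n (.b 10) (.b 5)))) (.n (.n (.b 4) (.n (.n (.b 4) (.n (.n (.b 4) (.n (.n
  (.b 4) (.l 69 3)) (.n (.l 69 3) (.b 5)))) (.n (.b 10) (.b 5)))) (.n (.n (.b 4) (.n (.n (.b 4)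
  (.n (.n (.b 4) (.n (.n (.b 4) (.l 69 3)) (.l 69 3))) (.l 69 3))) (.n (.n (.b 4) (.l 69 3)) (.b
  5)))) (.b 5)))) (.b 5)))) (.b 5)))) (.b 5)))) (.n (.b 10) (.b 5)))) (.n (.n (.b 4) (.n (.n (.b
  4) (.n (.n (.b 4) (.n (.n (.b 4) (.n (.n (.b 4) (.n (.b 12) (.n (.n (.b 4) (.n (.n (.b 4) (.b
  10)) (.n (.n (.b 4) (.n (.n (.b 4) (.l 63 3)) (.n (.l 63 3) (.b 5)))) (.b 5)))) (.b 5)))) (.n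
  (.n (.b 4) (.n (.n (.b 4) (.b 10)) (.n (.n (.b 4) (.n (.n (.b 4) (.n (.n (.b 4) (.l 63 3)) (.n
  (.b 10) (.b 5)))) (.n (.n (.b 4) (.n (.l 63 3) (.n (.n (.b 4) (.l 63 3)) (.b 5)))) (.b 5)))) (.b
  5)))) (.b 5)))) (.n (.n (.b 4) (.n (.n (.b 4) (.b 10)) (.n (.n (.b 4) (.n (.n (.b 4) (.n (.n (.b
  4) (.n (.n (.b 4) (.l 63 3)) (.n (.n (.b 4) (.l 63 3)) (.b 5)))) (.n (.b 10) (.b 5)))) (.n (.n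
  (.b 4) (.n (.n (.b 4) (.n (.l 63 3) (.n (.b 10) (.b 5)))) (.n (.n (.b 4) (.n (.n (.b 4) (.l 63
  3)) (.l 63 3))) (.b 5)))) (.b 5)))) (.b 5)))) (.b 5)))) (.n (.b 10) (.b 5)))) (.n (.n (.b 4) (.n
  (.n (.b 4) (.n (.n (.b 4) (.n (.n (.b 4) (.n (.n (.b 4) (.n (.b 12) (.n (.n (.b 4) (.n (.n (.b
  4) (.b 10)) (.n (.n (.b 4) (.l 63 3)) (.b 5)))) (.b 5)))) (.n (.n (.b 4) (.n (.n (.b 4) (.b 10))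
  (.n (.n (.b 4) (.n (.l 63 3) (.n (.l 63 3) (.b 5)))) (.b 5)))) (.b 5)))) (.n (.n (.b 4) (.n (.n
  (.b 4) (.b 10)) (.n (.n (.b 4) (.n (.n (.b 4) (.n (.l 63 3) (.l 63 3))) (.n (.n (.b 4) (.l 63
  3)) (.b 5)))) (.b 5)))) (.b 5)))) (.n (.b 10) (.b 5)))) (.n (.n (.b 4) (.n (.n (.b 4) (.n (.n
  (.b 4) (.n (.n (.b 4) (.n (.n (.b 4) (.n (.b 12) (.n (.l 63 3) (.b 5)))) (.n (.n (.b 4) (.n (.l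
  63 3) (.l 63 3))) (.b 5)))) (.n (.n (.b 4) (.n (.n (.b 4) (.b 10)) (.n (.n (.b 4) (.l 63 3)) (.b
  5)))) (.b 5)))) (.n (.b 10) (.b 5)))) (.n (.b 18) (.b 5)))) (.b 5)))) (.b 5)))) (.b 5)))) (.b
  5)))) (.b 5)))) (.n (.n (.b 4) (.n (.n (.b 4) (.b 10)) (.n (.n (.b 4) (.n (.n (.b 4) (.n (.n (.b
  4) (.n (.n (.b 4) (.n (.n (.b 4) (.n (.b 12) (.n (.n (.b 4) (.n (.n (.b 4) (.b 10)) (.n (.n (.b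
  4) (.n (.n (.b 4) (.n (.n (.b 4) (.n (.n (.b 4) (.n (.b 28) (.n (.n (.b 4) (.n (.n (.b 4) (.b
  10)) (.l 63 3))) (.b 5)))) (.n (.n (.b 4) (.l 63 3)) (.b 5)))) (.n (.b 10) (.b 5)))) (.n (.n (.b
  4) (.n (.n (.b 4) (.n (.n (.b 4) (.l 63 3)) (.n (.b 10) (.b 5)))) (.n (.n (.b 4) (.n (.l 63 3)
  (.l 63 3))) (.b 5)))) (.b 5)))) (.b 5)))) (.b 5)))) (.n (.n (.b 4) (.n (.n (.b 4) (.b 10)) (.n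
  (.n (.b 4) (.n (.n (.b 4) (.n (.n (.b 4) (.n (.n (.b 4) (.n (.n (.b 4) (.n (.b 12) (.l 63 3)))
  (.n (.n (.b 4) (.n (.n (.b 4) (.b 10)) (.l 63 3))) (.b 5)))) (.n (.n (.b 4) (.n (.n (.b 4) (.b
  10)) (.n (.n (.b 4) (.l 93 99)) (.b 5)))) (.b 5)))) (.n (.b 10) (.b 5)))) (.n (.n (.b 4) (.n (.n
  (.b 4) (.n (.n (.b 4) (.n (.n (.b 4) (.l 63 3)) (.n (.n (.b 4) (.n (.l 63 3) (.l 63 3))) (.b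
  5)))) (.n (.b 10) (.b 5)))) (.n (.n (.b 4) (.n (.n (.b 4) (.n (.l 63 3) (.n (.b 10) (.b 5))))
  (.n (.n (.b 4) (.l 63 3)) (.b 5)))) (.b 5)))) (.b 5)))) (.b 5)))) (.b 5)))) (.n (.n (.b 4) (.n
  (.n (.b 4) (.b 10)) (.n (.n (.b 4) (.n (.n (.b 4) (.n (.n (.b 4) (.n (.n (.b 4) (.n (.n (.b 4)
  (.n (.b 12) (.n (.n (.b 4) (.l 63 3)) (.b 5)))) (.n (.n (.b 4) (.n (.n (.b 4) (.b 10)) (.n (.n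
  (.b 4) (.l 63 3)) (.b 5)))) (.b 5)))) (.n (.n (.b 4) (.n (.n (.b 4) (.b 10)) (.n (.n (.b 4) (.n
  (.l 114 0) (.n (.n (.b 4) (.l 93 1)) (.b 5)))) (.b 5)))) (.b 5)))) (.n (.b 10) (.b 5)))) (.n (.n
  (.b 4) (.n (.n (.b 4) (.n (.n (.b 4) (.n (.n (.b 4) (.n (.n (.b 4) (.l 69 3)) (.n (.n (.b 4) (.l
  69 3)) (.b 5)))) (.n (.n (.b 4) (.n (.n (.b 4) (.b 10)) (.l 69 3))) (.b 5)))) (.n (.b 10) (.b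
  5)))) (.n (.n (.b 4) (.n (.n (.b 4) (.n (.n (.b 4) (.n (.l 69 3) (.l 69 3))) (.n (.b 10) (.b
  5)))) (.n (.n (.b 4) (.n (.n (.b 4) (.n (.n (.b 4) (.n (.n (.b 4) (.l 69 3)) (.l 69 3))) (.l 69
  3))) (.n (.b 18) (.b 5)))) (.b 5)))) (.b 5)))) (.b 5)))) (.b 5)))) (.b 5)))) (.n (.b 10) (.b
  5)))) (.n (.n (.b 4) (.n (.n (.b 4) (.n (.n (.b 4) (.n (.n (.b 4) (.n (.n (.b 4) (.n (.b 12) (.n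
  (.n (.b 4) (.n (.n (.b 4) (.b 10)) (.n (.n (.b 4) (.n (.n (.b 4) (.n (.n (.b 4) (.l 63 3)) (.n
  (.b 10) (.b 5)))) (.n (.n (.b 4) (.n (.l 63 3) (.n (.l 63 3) (.b 5)))) (.b 5)))) (.b 5)))) (.b
  5)))) (.n (.n (.b 4) (.n (.n (.b 4) (.b 10)) (.n (.n (.b 4) (.n (.n (.b 4) (.n (.n (.b 4) (.n
  (.n (.b 4) (.l 63 3)) (.n (.n (.b 4) (.l 63 3)) (.b 5)))) (.n (.b 10) (.b 5)))) (.n (.n (.b 4)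
  (.n (.n (.b 4) (.n (.l 63 3) (.n (.b 10) (.b 5)))) (.n (.n (.b 4) (.l 63 3)) (.b 5)))) (.b 5))))
  (.b 5)))) (.b 5)))) (.n (.n (.b 4) (.n (.n (.b 4) (.b 10)) (.n (.n (.b 4) (.n (.n (.b 4) (.n (.n
  (.b 4) (.n (.n (.b 4) (.n (.n (.b 4) (.l 9 3)) (.n (.l 9 3) (.b 5)))) (.n (.n (.b 4) (.n (.l 9
  3) (.l 9 3))) (.b 5)))) (.n (.b 10) (.b 5)))) (.n (.n (.b 4) (.n (.n (.b 4) (.n (.n (.b 4) (.n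
  (.n (.b 4) (.n (.l 63 3) (.l 63 3))) (.l 63 3))) (.n (.b 10) (.b 5)))) (.n (.n (.b 4) (.n (.n
  (.b 4) (.l 63 3)) (.n (.l 63 3) (.b 5)))) (.b 5)))) (.b 5)))) (.b 5)))) (.b 5)))) (.n (.b 10)
  (.b 5)))) (.n (.n (.b 4) (.n (.n (.b 4) (.n (.n (.b 4) (.n (.n (.b 4) (.n (.n (.b 4) (.n (.b 12)
  (.n (.n (.b 4) (.n (.n (.b 4) (.b 10)) (.n (.n (.b 4) (.n (.l 63 3) (.l 63 3))) (.b 5)))) (.b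
  5)))) (.n (.n (.b 4) (.n (.n (.b 4) (.b 10)) (.n (.n (.b 4) (.n (.n (.b 4) (.n (.l 63 3) (.l 63
  3))) (.n (.n (.b 4) (.n (.n (.b 4) (.l 63 3)) (.l 63 3))) (.b 5)))) (.b 5)))) (.b 5)))) (.n (.n
  (.b 4) (.n (.n (.b 4) (.b 10)) (.n (.n (.b 4) (.n (.n (.b 4) (.n (.n (.b 4) (.n (.l 33 3) (.l 33
  3))) (.n (.b 10) (.b 5)))) (.n (.n (.b 4) (.n (.n (.b 4) (.l 33 3)) (.n (.n (.b 4) (.n (.n (.b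
  4) (.l 114 0)) (.l 51 99))) (.b 5)))) (.b 5)))) (.b 5)))) (.b 5)))) (.n (.b 10) (.b 5)))) (.n
  (.n (.b 4) (.n (.n (.b 4) (.n (.n (.b 4) (.n (.n (.b 4) (.n (.n (.b 4) (.n (.b 12) (.n (.n (.b
  4) (.n (.n (.b 4) (.b 10)) (.l 63 3))) (.b 5)))) (.n (.n (.b 4) (.n (.n (.b 4) (.b 10)) (.n (.n
  (.b 4) (.l 63 3)) (.b 5)))) (.b 5)))) (.n (.n (.b 4) (.n (.n (.b 4) (.b 10)) (.n (.n (.b 4) (.n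
  (.n (.b 4) (.n (.l 63 3) (.l 63 3))) (.n (.l 63 3) (.b 5)))) (.b 5)))) (.b 5)))) (.n (.b 10) (.b
  5)))) (.n (.b 18) (.b 5)))) (.b 5)))) (.b 5)))) (.b 5)))) (.b 5)))) (.b 5))))

/-- A subtree of the table. -/
def s26 : T :=
  (.n (.n (.b 4) (.n (.b 10) (.n (.n (.b 4) (.n (.n (.b 4) (.n (.n (.b 4) (.n (.n (.b 4) (.n (.n
  (.b 4) (.n (.b 12) (.n (.n (.b 4) (.n (.n (.b 4) (.b 10)) (.n (.n (.b 4) (.n (.n (.b 4) (.n (.n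
  (.b 4) (.n (.n (.b 4) (.n (.n (.b 4) (.n (.b 12) (.b 28))) (.n (.n (.b 4) (.l 114 0)) (.b 5))))
  (.n (.n (.b 4) (.n (.n (.b 4) (.b 10)) (.n (.l 114 0) (.b 5)))) (.b 5)))) (.n (.b 10) (.b 5))))
  (.n (.n (.b 4) (.n (.n (.b 4) (.n (.n (.b 4) (.n (.n (.b 4) (.l 114 0)) (.n (.l 114 0) (.b 5))))
  (.n (.b 10) (.b 5)))) (.n (.n (.b 4) (.n (.n (.b 4) (.n (.l 114 0) (.l 114 0))) (.n (.n (.b 4)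
  (.l 114 0)) (.b 5)))) (.b 5)))) (.b 5)))) (.b 5)))) (.b 5)))) (.n (.n (.b 4) (.n (.n (.b 4) (.b
  10)) (.n (.n (.b 4) (.n (.n (.b 4) (.n (.n (.b 4) (.n (.n (.b 4) (.n (.n (.b 4) (.n (.b 12) (.n
  (.n (.b 4) (.l 114 0)) (.b 5)))) (.n (.n (.b 4) (.n (.n (.b 4) (.b 10)) (.n (.l 114 0) (.b 5))))
  (.b 5)))) (.n (.n (.b 4) (.n (.n (.b 4) (.b 10)) (.n (.n (.b 4) (.n (.l 114 0) (.l 114 0))) (.b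
  5)))) (.b 5)))) (.n (.b 10) (.b 5)))) (.n (.n (.b 4) (.n (.n (.b 4) (.n (.n (.b 4) (.n (.n (.b
  4) (.n (.n (.b 4) (.l 114 0)) (.n (.l 114 0) (.b 5)))) (.n (.n (.b 4) (.n (.l 114 0) (.l 114
  0))) (.b 5)))) (.n (.b 10) (.b 5)))) (.n (.n (.b 4) (.n (.n (.b 4) (.n (.n (.b 4) (.n (.l 114 0)
  (.l 114 0))) (.n (.b 10) (.b 5)))) (.n (.n (.b 4) (.n (.n (.b 4) (.l 114 0)) (.n (.b 18) (.b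
  5)))) (.b 5)))) (.b 5)))) (.b 5)))) (.b 5)))) (.b 5)))) (.n (.n (.b 4) (.n (.n (.b 4) (.b 10))
  (.n (.n (.b 4) (.n (.n (.b 4) (.n (.n (.b 4) (.n (.n (.b 4) (.n (.n (.b 4) (.n (.b 12) (.n (.n
  (.b 4) (.n (.n (.b 4) (.b 10)) (.n (.l 114 0) (.b 5)))) (.b 5)))) (.n (.n (.b 4) (.n (.n (.b 4)
  (.b 10)) (.n (.n (.b 4) (.n (.l 114 0) (.l 114 0))) (.b 5)))) (.b 5)))) (.n (.n (.b 4) (.n (.n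
  (.b 4) (.b 10)) (.n (.n (.b 4) (.n (.n (.b 4) (.n (.l 114 0) (.l 114 0))) (.n (.n (.b 4) (.l 114
  0)) (.b 5)))) (.b 5)))) (.b 5)))) (.n (.b 10) (.b 5)))) (.n (.n (.b 4) (.n (.n (.b 4) (.n (.n
  (.b 4) (.n (.n (.b 4) (.n (.n (.b 4) (.n (.b 12) (.n (.l 114 0) (.b 5)))) (.n (.n (.b 4) (.n (.l
  114 0) (.l 114 0))) (.b 5)))) (.n (.n (.b 4) (.n (.n (.b 4) (.b 10)) (.n (.n (.b 4) (.l 114 0))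
  (.b 5)))) (.b 5)))) (.n (.b 10) (.b 5)))) (.n (.n (.b 4) (.n (.n (.b 4) (.n (.n (.b 4) (.n (.n
  (.b 4) (.n (.l 114 0) (.l 114 0))) (.n (.n (.b 4) (.l 114 0)) (.b 5)))) (.n (.b 10) (.b 5))))
  (.n (.n (.b 4) (.n (.n (.b 4) (.n (.n (.b 4) (.l 114 0)) (.n (.b 10) (.b 5)))) (.n (.b 18) (.b
  5)))) (.b 5)))) (.b 5)))) (.b 5)))) (.b 5)))) (.b 5)))) (.n (.b 10) (.b 5)))) (.n (.n (.b 4) (.n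
  (.n (.b 4) (.n (.n (.b 4) (.n (.n (.b 4) (.n (.n (.b 4) (.n (.b 12) (.n (.n (.b 4) (.n (.n (.b
  4) (.b 10)) (.n (.n (.b 4) (.n (.n (.b 4) (.n (.n (.b 4) (.n (.n (.b 4) (.l 114 0)) (.n (.l 114
  0) (.b 5)))) (.n (.b 10) (.b 5)))) (.n (.n (.b 4) (.n (.n (.b 4) (.n (.l 114 0) (.l 114 0))) (.n
  (.n (.b 4) (.l 114 0)) (.b 5)))) (.b 5)))) (.b 5)))) (.b 5)))) (.n (.n (.b 4) (.n (.n (.b 4) (.b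
  10)) (.n (.n (.b 4) (.n (.n (.b 4) (.n (.n (.b 4) (.n (.n (.b 4) (.n (.n (.b 4) (.l 114 0)) (.n
  (.l 114 0) (.b 5)))) (.n (.n (.b 4) (.n (.l 114 0) (.l 114 0))) (.b 5)))) (.n (.b 10) (.b 5))))
  (.n (.n (.b 4) (.n (.n (.b 4) (.n (.n (.b 4) (.n (.l 114 0) (.l 114 0))) (.n (.b 10) (.b 5))))
  (.n (.n (.b 4) (.n (.n (.b 4) (.l 114 0)) (.n (.l 114 0) (.b 5)))) (.b 5)))) (.b 5)))) (.b 5))))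
  (.b 5)))) (.n (.n (.b 4) (.n (.n (.b 4) (.b 10)) (.n (.n (.b 4) (.n (.n (.b 4) (.n (.n (.b 4)
  (.n (.n (.b 4) (.n (.n (.b 4) (.n (.b 12) (.n (.l 114 0) (.b 5)))) (.n (.n (.b 4) (.n (.l 114 0)
  (.l 114 0))) (.b 5)))) (.n (.n (.b 4) (.n (.n (.b 4) (.b 10)) (.n (.n (.b 4) (.l 114 0)) (.b
  5)))) (.b 5)))) (.n (.b 10) (.b 5)))) (.n (.n (.b 4) (.n (.n (.b 4) (.n (.n (.b 4) (.n (.n (.b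
  4) (.n (.l 114 0) (.l 114 0))) (.n (.n (.b 4) (.l 114 0)) (.b 5)))) (.n (.b 10) (.b 5)))) (.n
  (.n (.b 4) (.n (.n (.b 4) (.n (.n (.b 4) (.l 114 0)) (.n (.b 10) (.b 5)))) (.n (.n (.b 4) (.n
  (.l 114 0) (.l 114 0))) (.b 5)))) (.b 5)))) (.b 5)))) (.b 5)))) (.b 5)))) (.n (.b 10) (.b 5))))
  (.n (.n (.b 4) (.n (.n (.b 4) (.n (.n (.b 4) (.n (.n (.b 4) (.n (.n (.b 4) (.n (.b 12) (.n (.n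
  (.b 4) (.n (.n (.b 4) (.b 10)) (.n (.n (.b 4) (.n (.n (.b 4) (.n (.l 114 0) (.l 114 0))) (.n (.n
  (.b 4) (.l 114 0)) (.b 5)))) (.b 5)))) (.b 5)))) (.n (.n (.b 4) (.n (.n (.b 4) (.b 10)) (.n (.n
  (.b 4) (.n (.n (.b 4) (.n (.n (.b 4) (.n (.l 114 0) (.l 114 0))) (.n (.b 10) (.b 5)))) (.n (.n
  (.b 4) (.n (.n (.b 4) (.l 114 0)) (.n (.l 114 0) (.b 5)))) (.b 5)))) (.b 5)))) (.b 5)))) (.n (.n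
  (.b 4) (.n (.n (.b 4) (.b 10)) (.n (.n (.b 4) (.n (.n (.b 4) (.n (.n (.b 4) (.n (.n (.b 4) (.n
  (.l 114 0) (.l 114 0))) (.n (.n (.b 4) (.l 114 0)) (.b 5)))) (.n (.b 10) (.b 5)))) (.n (.n (.b
  4) (.n (.n (.b 4) (.n (.n (.b 4) (.l 114 0)) (.n (.b 10) (.b 5)))) (.n (.n (.b 4) (.n (.l 114 0)
  (.l 114 0))) (.b 5)))) (.b 5)))) (.b 5)))) (.b 5)))) (.n (.b 10) (.b 5)))) (.n (.n (.b 4) (.n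
  (.n (.b 4) (.n (.n (.b 4) (.n (.n (.b 4) (.n (.n (.b 4) (.n (.b 12) (.n (.n (.b 4) (.n (.n (.b
  4) (.b 10)) (.n (.n (.b 4) (.l 114 0)) (.b 5)))) (.b 5)))) (.n (.n (.b 4) (.n (.n (.b 4) (.b
  10)) (.n (.n (.b 4) (.n (.n (.b 4) (.l 114 0)) (.n (.l 114 0) (.b 5)))) (.b 5)))) (.b 5)))) (.n
  (.n (.b 4) (.n (.n (.b 4) (.b 10)) (.n (.n (.b 4) (.n (.n (.b 4) (.n (.n (.b 4) (.l 114 0)) (.n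
  (.b 10) (.b 5)))) (.n (.n (.b 4) (.n (.l 114 0) (.l 114 0))) (.b 5)))) (.b 5)))) (.b 5)))) (.n
  (.b 10) (.b 5)))) (.n (.b 18) (.b 5)))) (.b 5)))) (.b 5)))) (.b 5)))) (.b 5)))) (.b 5))

/-- A subtree of the table. -/
def s27 : T :=
  (.b 4)

/-- A subtree of the table. -/
def s28 : T :=
  (.n (.b 4) (.n (.n (.b 4) (.n (.n (.b 4) (.n (.n (.b 4) (.n (.b 12) (.n (.n (.b 4) (.n (.n (.b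
  4) (.b 10)) (.n (.n (.b 4) (.n (.n (.b 4) (.n (.n (.b 4) (.n (.n (.b 4) (.n (.n (.b 4) (.n (.b
  12) (.n (.n (.b 4) (.n (.n (.b 4) (.b 10)) (.n (.b 28) (.b 5)))) (.b 5)))) (.n (.n (.b 4) (.n
  (.n (.b 4) (.b 10)) (.n (.n (.b 4) (.n (.n (.b 4) (.n (.l 54 5) (.n (.b 10) (.b 5)))) (.n (.l 54
  5) (.b 5)))) (.b 5)))) (.b 5)))) (.n (.n (.b 4) (.n (.n (.b 4) (.b 10)) (.n (.n (.b 4) (.n (.n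
  (.b 4) (.n (.n (.b 4) (.n (.l 54 5) (.n (.l 54 5) (.b 5)))) (.n (.b 10) (.b 5)))) (.n (.n (.b 4)
  (.n (.l 54 5) (.l 54 5))) (.b 5)))) (.b 5)))) (.b 5)))) (.n (.b 10) (.b 5)))) (.n (.n (.b 4) (.n
  (.n (.b 4) (.n (.n (.b 4) (.n (.n (.b 4) (.n (.n (.b 4) (.n (.b 12) (.n (.n (.b 4) (.l 60 5))
  (.b 5)))) (.n (.n (.b 4) (.n (.n (.b 4) (.b 10)) (.n (.n (.b 4) (.l 60 5)) (.b 5)))) (.b 5))))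
  (.n (.n (.b 4) (.n (.n (.b 4) (.b 10)) (.n (.n (.b 4) (.n (.l 60 5) (.n (.n (.b 4) (.l 60 5))
  (.b 5)))) (.b 5)))) (.b 5)))) (.n (.b 10) (.b 5)))) (.n (.n (.b 4) (.n (.n (.b 4) (.n (.n (.b 4)
  (.n (.n (.b 4) (.n (.n (.b 4) (.l 60 5)) (.n (.n (.b 4) (.l 60 5)) (.b 5)))) (.n (.n (.b 4) (.n
  (.n (.b 4) (.b 10)) (.l 60 5))) (.b 5)))) (.n (.b 10) (.b 5)))) (.n (.n (.b 4) (.n (.n (.b 4)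
  (.n (.n (.b 4) (.n (.l 60 5) (.n (.l 60 5) (.b 5)))) (.n (.b 10) (.b 5)))) (.n (.b 18) (.b 5))))
  (.b 5)))) (.b 5)))) (.b 5)))) (.b 5)))) (.b 5)))) (.n (.n (.b 4) (.n (.n (.b 4) (.b 10)) (.n (.n
  (.b 4) (.n (.n (.b 4) (.n (.n (.b 4) (.n (.n (.b 4) (.n (.n (.b 4) (.n (.b 12) (.n (.n (.b 4)
  (.n (.n (.b 4) (.b 10)) (.n (.n (.b 4) (.n (.n (.b 4) (.l 54 5)) (.n (.l 54 5) (.b 5)))) (.b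
  5)))) (.b 5)))) (.n (.n (.b 4) (.n (.n (.b 4) (.b 10)) (.n (.n (.b 4) (.n (.n (.b 4) (.n (.n (.b
  4) (.n (.l 54 5) (.l 54 5))) (.n (.b 10) (.b 5)))) (.n (.n (.b 4) (.n (.l 54 5) (.n (.l 54 5)
  (.b 5)))) (.b 5)))) (.b 5)))) (.b 5)))) (.n (.n (.b 4) (.n (.n (.b 4) (.b 10)) (.n (.n (.b 4)
  (.n (.n (.b 4) (.n (.n (.b 4) (.n (.n (.b 4) (.l 60 5)) (.n (.n (.b 4) (.n (.l 60 5) (.l 60 5)))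
  (.b 5)))) (.n (.b 10) (.b 5)))) (.n (.n (.b 4) (.n (.n (.b 4) (.n (.l 60 5) (.n (.b 10) (.b
  5)))) (.n (.n (.b 4) (.l 60 5)) (.b 5)))) (.b 5)))) (.b 5)))) (.b 5)))) (.n (.b 10) (.b 5))))
  (.n (.n (.b 4) (.n (.n (.b 4) (.n (.n (.b 4) (.n (.n (.b 4) (.n (.n (.b 4) (.n (.b 12) (.n (.n
  (.b 4) (.n (.n (.b 4) (.b 10)) (.n (.n (.b 4) (.l 54 5)) (.b 5)))) (.b 5)))) (.n (.n (.b 4) (.n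
  (.n (.b 4) (.b 10)) (.n (.n (.b 4) (.n (.l 54 5) (.n (.l 54 5) (.b 5)))) (.b 5)))) (.b 5)))) (.n
  (.n (.b 4) (.n (.n (.b 4) (.b 10)) (.n (.n (.b 4) (.n (.n (.b 4) (.n (.l 54 5) (.l 54 5))) (.n
  (.n (.b 4) (.l 54 5)) (.b 5)))) (.b 5)))) (.b 5)))) (.n (.b 10) (.b 5)))) (.n (.n (.b 4) (.n (.n
  (.b 4) (.n (.n (.b 4) (.n (.n (.b 4) (.n (.n (.b 4) (.n (.b 12) (.n (.l 54 5) (.b 5)))) (.n (.n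
  (.b 4) (.n (.l 54 5) (.n (.n (.b 4) (.l 54 5)) (.b 5)))) (.b 5)))) (.n (.n (.b 4) (.n (.n (.b 4)
  (.b 10)) (.n (.n (.b 4) (.l 54 5)) (.b 5)))) (.b 5)))) (.n (.b 10) (.b 5)))) (.n (.n (.b 4) (.n
  (.n (.b 4) (.n (.n (.b 4) (.n (.n (.b 4) (.n (.l 54 5) (.n (.l 54 5) (.b 5)))) (.n (.n (.b 4)
  (.l 54 5)) (.b 5)))) (.n (.b 10) (.b 5)))) (.n (.b 18) (.b 5)))) (.b 5)))) (.b 5)))) (.b 5))))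
  (.b 5)))) (.b 5)))) (.n (.n (.b 4) (.n (.n (.b 4) (.b 10)) (.n (.n (.b 4) (.n (.n (.b 4) (.n (.n
  (.b 4) (.n (.n (.b 4) (.n (.n (.b 4) (.n (.b 12) (.n (.n (.b 4) (.n (.n (.b 4) (.b 10)) (.n (.n
  (.b 4) (.n (.n (.b 4) (.n (.n (.b 4) (.l 54 5)) (.n (.b 10) (.b 5)))) (.n (.n (.b 4) (.n (.l 54
  5) (.l 54 5))) (.b 5)))) (.b 5)))) (.b 5)))) (.n (.n (.b 4) (.n (.n (.b 4) (.b 10)) (.n (.n (.b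
  4) (.n (.n (.b 4) (.n (.n (.b 4) (.n (.n (.b 4) (.n (.l 54 5) (.n (.n (.b 4) (.n (.n (.b 4) (.b
  10)) (.l 54 5))) (.b 5)))) (.n (.n (.b 4) (.b 29)) (.b 5)))) (.n (.b 10) (.b 5)))) (.n (.n (.b
  4) (.n (.n (.b 4) (.n (.l 54 5) (.l 54 5))) (.n (.n (.b 4) (.n (.l 54 5) (.l 54 5))) (.b 5))))
  (.b 5)))) (.b 5)))) (.b 5)))) (.n (.n (.b 4) (.n (.n (.b 4) (.b 10)) (.n (.n (.b 4) (.n (.n (.b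
  4) (.n (.n (.b 4) (.n (.n (.b 4) (.n (.n (.b 4) (.l 54 5)) (.n (.l 54 5) (.b 5)))) (.n (.n (.b
  4) (.n (.l 93 1) (.l 114 0))) (.b 5)))) (.n (.b 10) (.b 5)))) (.n (.n (.b 4) (.n (.n (.b 4) (.n
  (.n (.b 4) (.n (.l 60 5) (.l 60 5))) (.n (.b 10) (.b 5)))) (.n (.n (.b 4) (.n (.n (.b 4) (.l 60
  5)) (.n (.n (.b 4) (.l 60 5)) (.b 5)))) (.b 5)))) (.b 5)))) (.b 5)))) (.b 5)))) (.n (.b 10) (.b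
  5)))) (.n (.n (.b 4) (.n (.n (.b 4) (.n (.n (.b 4) (.n (.n (.b 4) (.n (.n (.b 4) (.n (.b 12) (.n
  (.n (.b 4) (.n (.n (.b 4) (.b 10)) (.n (.n (.b 4) (.n (.n (.b 4) (.l 54 5)) (.l 54 5))) (.b
  5)))) (.b 5)))) (.n (.n (.b 4) (.n (.n (.b 4) (.b 10)) (.n (.n (.b 4) (.n (.n (.b 4) (.n (.l 54
  5) (.n (.b 10) (.b 5)))) (.n (.n (.b 4) (.n (.n (.b 4) (.l 54 5)) (.l 54 5))) (.b 5)))) (.b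
  5)))) (.b 5)))) (.n (.n (.b 4) (.n (.n (.b 4) (.b 10)) (.n (.n (.b 4) (.n (.n (.b 4) (.n (.n (.b
  4) (.n (.n (.b 4) (.l 0 8)) (.l 0 8))) (.n (.b 10) (.b 5)))) (.n (.n (.b 4) (.n (.n (.b 4) (.l
  54 5)) (.n (.l 54 5) (.b 5)))) (.b 5)))) (.b 5)))) (.b 5)))) (.n (.b 10) (.b 5)))) (.n (.n (.b
  4) (.n (.n (.b 4) (.n (.n (.b 4) (.n (.n (.b 4) (.n (.n (.b 4) (.n (.b 12) (.n (.n (.b 4) (.n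
  (.l 54 5) (.l 54 5))) (.b 5)))) (.n (.n (.b 4) (.n (.n (.b 4) (.b 10)) (.n (.n (.b 4) (.n (.l 54
  5) (.l 54 5))) (.b 5)))) (.b 5)))) (.n (.n (.b 4) (.n (.n (.b 4) (.b 10)) (.n (.n (.b 4) (.n (.n
  (.b 4) (.l 24 5)) (.n (.n (.b 4) (.n (.l 24 99) (.n (.l 114 0) (.b 5)))) (.b 5)))) (.b 5)))) (.b
  5)))) (.n (.b 10) (.b 5)))) (.n (.n (.b 4) (.n (.n (.b 4) (.n (.n (.b 4) (.n (.n (.b 4) (.n (.n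
  (.b 4) (.n (.b 12) (.l 54 5))) (.n (.n (.b 4) (.l 54 5)) (.b 5)))) (.n (.n (.b 4) (.n (.n (.b 4)
  (.b 10)) (.n (.l 54 5) (.b 5)))) (.b 5)))) (.n (.b 10) (.b 5)))) (.n (.b 18) (.b 5)))) (.b 5))))
  (.b 5)))) (.b 5)))) (.b 5)))) (.b 5)))) (.n (.b 10) (.b 5))))

/-- A subtree of the table. -/
def s29 : T :=
  (.n (.n (.b 4) (.n (.n (.b 4) (.n (.n (.b 4) (.n (.n (.b 4) (.n (.n (.b 4) (.n (.b 12) (.n (.n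
  (.b 4) (.n (.n (.b 4) (.b 10)) (.n (.n (.b 4) (.n (.n (.b 4) (.n (.n (.b 4) (.n (.n (.b 4) (.n
  (.n (.b 4) (.n (.b 12) (.n (.n (.b 4) (.b 28)) (.b 5)))) (.n (.n (.b 4) (.n (.n (.b 4) (.b 10))
  (.n (.l 63 5) (.b 5)))) (.b 5)))) (.n (.n (.b 4) (.n (.n (.b 4) (.b 10)) (.n (.n (.b 4) (.n (.l
  63 5) (.l 63 5))) (.b 5)))) (.b 5)))) (.n (.b 10) (.b 5)))) (.n (.n (.b 4) (.n (.n (.b 4) (.n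
  (.n (.b 4) (.n (.n (.b 4) (.n (.n (.b 4) (.l 63 5)) (.n (.l 63 5) (.b 5)))) (.n (.n (.b 4) (.n
  (.l 63 5) (.n (.l 63 5) (.b 5)))) (.b 5)))) (.n (.b 10) (.b 5)))) (.n (.n (.b 4) (.n (.n (.b 4)
  (.n (.n (.b 4) (.n (.l 63 5) (.l 63 5))) (.n (.b 10) (.b 5)))) (.n (.n (.b 4) (.n (.n (.b 4) (.l
  63 5)) (.n (.b 18) (.b 5)))) (.b 5)))) (.b 5)))) (.b 5)))) (.b 5)))) (.b 5)))) (.n (.n (.b 4)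
  (.n (.n (.b 4) (.b 10)) (.n (.n (.b 4) (.n (.n (.b 4) (.n (.n (.b 4) (.n (.n (.b 4) (.n (.n (.b
  4) (.n (.b 12) (.n (.n (.b 4) (.n (.n (.b 4) (.b 10)) (.n (.l 63 5) (.b 5)))) (.b 5)))) (.n (.n
  (.b 4) (.n (.n (.b 4) (.b 10)) (.n (.n (.b 4) (.n (.l 63 5) (.l 63 5))) (.b 5)))) (.b 5)))) (.n
  (.n (.b 4) (.n (.n (.b 4) (.b 10)) (.n (.n (.b 4) (.n (.n (.b 4) (.n (.l 63 5) (.l 63 5))) (.n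
  (.n (.b 4) (.n (.l 63 5) (.l 63 5))) (.b 5)))) (.b 5)))) (.b 5)))) (.n (.b 10) (.b 5)))) (.n (.n
  (.b 4) (.n (.n (.b 4) (.n (.n (.b 4) (.n (.n (.b 4) (.n (.n (.b 4) (.n (.b 12) (.n (.n (.b 4)
  (.l 63 5)) (.b 5)))) (.n (.n (.b 4) (.n (.n (.b 4) (.b 10)) (.l 63 5))) (.b 5)))) (.n (.n (.b 4)
  (.n (.n (.b 4) (.b 10)) (.n (.n (.b 4) (.l 63 5)) (.b 5)))) (.b 5)))) (.n (.b 10) (.b 5)))) (.n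
  (.n (.b 4) (.n (.n (.b 4) (.n (.n (.b 4) (.n (.n (.b 4) (.n (.l 63 5) (.l 63 5))) (.n (.n (.b 4)
  (.n (.n (.b 4) (.b 10)) (.l 63 5))) (.b 5)))) (.n (.b 10) (.b 5)))) (.n (.n (.b 4) (.n (.n (.b
  4) (.n (.n (.b 4) (.l 63 5)) (.n (.b 10) (.b 5)))) (.n (.b 18) (.b 5)))) (.b 5)))) (.b 5)))) (.b
  5)))) (.b 5)))) (.b 5)))) (.n (.n (.b 4) (.n (.n (.b 4) (.b 10)) (.n (.n (.b 4) (.n (.n (.b 4)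
  (.n (.n (.b 4) (.n (.n (.b 4) (.n (.n (.b 4) (.n (.b 12) (.n (.n (.b 4) (.n (.n (.b 4) (.b 10))
  (.n (.n (.b 4) (.n (.l 63 5) (.l 63 5))) (.b 5)))) (.b 5)))) (.n (.n (.b 4) (.n (.n (.b 4) (.b
  10)) (.n (.n (.b 4) (.n (.n (.b 4) (.n (.n (.b 4) (.l 63 5)) (.l 63 5))) (.n (.n (.b 4) (.l 63
  5)) (.b 5)))) (.b 5)))) (.b 5)))) (.n (.n (.b 4) (.n (.n (.b 4) (.b 10)) (.n (.n (.b 4) (.n (.n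
  (.b 4) (.n (.n (.b 4) (.n (.l 63 5) (.n (.n (.b 4) (.b 30)) (.b 5)))) (.n (.b 10) (.b 5)))) (.n
  (.n (.b 4) (.n (.n (.b 4) (.l 63 5)) (.n (.l 63 5) (.b 5)))) (.b 5)))) (.b 5)))) (.b 5)))) (.n
  (.b 10) (.b 5)))) (.n (.n (.b 4) (.n (.n (.b 4) (.n (.n (.b 4) (.n (.n (.b 4) (.n (.n (.b 4) (.n
  (.b 12) (.n (.n (.b 4) (.n (.l 63 5) (.n (.n (.b 4) (.n (.n (.b 4) (.l 63 5)) (.l 63 5))) (.b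
  5)))) (.b 5)))) (.n (.n (.b 4) (.n (.n (.b 4) (.b 10)) (.n (.n (.b 4) (.l 63 5)) (.b 5)))) (.b
  5)))) (.n (.n (.b 4) (.n (.n (.b 4) (.b 10)) (.n (.n (.b 4) (.n (.n (.b 4) (.l 63 5)) (.n (.n
  (.b 4) (.l 63 5)) (.b 5)))) (.b 5)))) (.b 5)))) (.n (.b 10) (.b 5)))) (.n (.n (.b 4) (.n (.n (.b
  4) (.n (.n (.b 4) (.n (.n (.b 4) (.n (.n (.b 4) (.n (.b 12) (.l 54 5))) (.n (.n (.b 4) (.l 54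
  5)) (.b 5)))) (.n (.n (.b 4) (.n (.n (.b 4) (.b 10)) (.n (.n (.b 4) (.n (.l 24 99) (.n (.l 114
  0) (.b 5)))) (.b 5)))) (.b 5)))) (.n (.b 10) (.b 5)))) (.n (.n (.b 4) (.n (.n (.b 4) (.n (.n (.b
  4) (.n (.n (.b 4) (.l 54 5)) (.n (.l 54 5) (.b 5)))) (.n (.b 10) (.b 5)))) (.n (.b 18) (.b 5))))
  (.b 5)))) (.b 5)))) (.b 5)))) (.b 5)))) (.b 5)))) (.n (.b 10) (.b 5)))) (.n (.n (.b 4) (.n (.n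
  (.b 4) (.n (.n (.b 4) (.n (.n (.b 4) (.n (.n (.b 4) (.n (.b 12) (.n (.n (.b 4) (.n (.n (.b 4)
  (.b 10)) (.n (.n (.b 4) (.n (.n (.b 4) (.n (.n (.b 4) (.n (.n (.b 4) (.n (.n (.b 4) (.l 72 5))
  (.n (.l 72 5) (.b 5)))) (.n (.n (.b 4) (.n (.l 72 5) (.l 72 5))) (.b 5)))) (.n (.b 10) (.b 5))))
  (.n (.n (.b 4) (.n (.n (.b 4) (.n (.n (.b 4) (.n (.n (.b 4) (.l 72 5)) (.l 72 5))) (.n (.b 10)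
  (.b 5)))) (.n (.n (.b 4) (.n (.n (.b 4) (.l 72 5)) (.n (.l 72 5) (.b 5)))) (.b 5)))) (.b 5))))
  (.b 5)))) (.b 5)))) (.n (.n (.b 4) (.n (.n (.b 4) (.b 10)) (.n (.n (.b 4) (.n (.n (.b 4) (.n (.n
  (.b 4) (.n (.n (.b 4) (.n (.n (.b 4) (.n (.b 12) (.n (.l 72 5) (.b 5)))) (.n (.n (.b 4) (.n (.l
  72 5) (.l 72 5))) (.b 5)))) (.n (.n (.b 4) (.n (.n (.b 4) (.b 10)) (.n (.n (.b 4) (.l 72 5)) (.b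
  5)))) (.b 5)))) (.n (.b 10) (.b 5)))) (.n (.n (.b 4) (.n (.n (.b 4) (.n (.n (.b 4) (.n (.n (.b
  4) (.n (.l 72 5) (.n (.n (.b 4) (.n (.n (.b 4) (.b 10)) (.l 72 5))) (.b 5)))) (.n (.n (.b 4) (.l
  72 5)) (.b 5)))) (.n (.b 10) (.b 5)))) (.n (.n (.b 4) (.n (.n (.b 4) (.n (.n (.b 4) (.n (.l 72
  5) (.l 72 5))) (.n (.b 10) (.b 5)))) (.n (.n (.b 4) (.n (.l 72 5) (.l 72 5))) (.b 5)))) (.b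
  5)))) (.b 5)))) (.b 5)))) (.b 5)))) (.n (.n (.b 4) (.n (.n (.b 4) (.b 10)) (.n (.n (.b 4) (.n
  (.n (.b 4) (.n (.n (.b 4) (.n (.n (.b 4) (.n (.n (.b 4) (.n (.b 12) (.n (.n (.b 4) (.n (.n (.b
  4) (.b 10)) (.l 72 5))) (.b 5)))) (.n (.n (.b 4) (.n (.n (.b 4) (.b 10)) (.n (.n (.b 4) (.n (.l
  72 5) (.l 72 5))) (.b 5)))) (.b 5)))) (.n (.n (.b 4) (.n (.n (.b 4) (.b 10)) (.n (.n (.b 4) (.n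
  (.n (.b 4) (.n (.n (.b 4) (.l 72 5)) (.l 72 5))) (.n (.l 72 5) (.b 5)))) (.b 5)))) (.b 5)))) (.n
  (.b 10) (.b 5)))) (.n (.n (.b 4) (.n (.n (.b 4) (.n (.n (.b 4) (.n (.n (.b 4) (.n (.n (.b 4) (.n
  (.b 12) (.n (.l 72 5) (.b 5)))) (.n (.n (.b 4) (.l 72 5)) (.b 5)))) (.n (.n (.b 4) (.n (.n (.b
  4) (.b 10)) (.n (.l 72 5) (.b 5)))) (.b 5)))) (.n (.b 10) (.b 5)))) (.n (.n (.b 4) (.n (.n (.b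
  4) (.n (.n (.b 4) (.n (.n (.b 4) (.l 63 5)) (.n (.n (.b 4) (.n (.l 9 99) (.n (.l 114 0) (.b
  5)))) (.b 5)))) (.n (.b 10) (.b 5)))) (.n (.n (.b 4) (.n (.n (.b 4) (.n (.l 63 5) (.l 63 5)))
  (.n (.b 18) (.b 5)))) (.b 5)))) (.b 5)))) (.b 5)))) (.b 5)))) (.b 5)))) (.n (.b 10) (.b 5))))
  (.n (.n (.b 4) (.n (.n (.b 4) (.n (.n (.b 4) (.n (.n (.b 4) (.n (.n (.b 4) (.n (.b 12) (.n (.n
  (.b 4) (.n (.n (.b 4) (.b 10)) (.n (.n (.b 4) (.n (.n (.b 4) (.n (.n (.b 4) (.n (.l 72 3) (.l 72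
  3))) (.n (.b 10) (.b 5)))) (.n (.n (.b 4) (.n (.n (.b 4) (.n (.n (.b 4) (.n (.n (.b 4) (.l 72
  3)) (.l 72 3))) (.l 72 3))) (.n (.l 72 3) (.b 5)))) (.b 5)))) (.b 5)))) (.b 5)))) (.n (.n (.b 4)
  (.n (.n (.b 4) (.b 10)) (.n (.n (.b 4) (.n (.n (.b 4) (.n (.n (.b 4) (.n (.n (.b 4) (.n (.l 72
  3) (.n (.l 72 3) (.b 5)))) (.n (.n (.b 4) (.n (.l 72 3) (.l 72 3))) (.b 5)))) (.n (.b 10) (.b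
  5)))) (.n (.n (.b 4) (.n (.n (.b 4) (.n (.n (.b 4) (.n (.l 72 3) (.n (.l 72 3) (.b 5)))) (.n (.b
  10) (.b 5)))) (.n (.n (.b 4) (.n (.l 72 3) (.l 72 3))) (.b 5)))) (.b 5)))) (.b 5)))) (.b 5))))
  (.n (.n (.b 4) (.n (.n (.b 4) (.b 10)) (.n (.n (.b 4) (.n (.n (.b 4) (.n (.n (.b 4) (.n (.n (.b
  4) (.n (.n (.b 4) (.n (.b 12) (.l 72 3))) (.n (.n (.b 4) (.l 72 3)) (.b 5)))) (.n (.n (.b 4) (.n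
  (.n (.b 4) (.b 10)) (.n (.n (.b 4) (.n (.l 72 3) (.l 72 3))) (.b 5)))) (.b 5)))) (.n (.b 10) (.b
  5)))) (.n (.n (.b 4) (.n (.n (.b 4) (.n (.n (.b 4) (.n (.n (.b 4) (.l 72 3)) (.n (.l 72 3) (.b
  5)))) (.n (.b 10) (.b 5)))) (.n (.n (.b 4) (.n (.n (.b 4) (.n (.l 72 3) (.l 72 3))) (.n (.n (.b
  4) (.l 72 3)) (.b 5)))) (.b 5)))) (.b 5)))) (.b 5)))) (.b 5)))) (.n (.b 10) (.b 5)))) (.n (.n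
  (.b 4) (.n (.n (.b 4) (.n (.n (.b 4) (.n (.n (.b 4) (.n (.n (.b 4) (.n (.b 12) (.n (.n (.b 4)
  (.n (.n (.b 4) (.b 10)) (.n (.n (.b 4) (.n (.n (.b 4) (.l 114 0)) (.n (.l 114 0) (.b 5)))) (.b
  5)))) (.b 5)))) (.n (.n (.b 4) (.n (.n (.b 4) (.b 10)) (.n (.n (.b 4) (.n (.n (.b 4) (.n (.n (.b
  4) (.l 114 0)) (.n (.b 10) (.b 5)))) (.n (.n (.b 4) (.n (.l 114 0) (.l 114 0))) (.b 5)))) (.b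
  5)))) (.b 5)))) (.n (.n (.b 4) (.n (.n (.b 4) (.b 10)) (.n (.n (.b 4) (.n (.n (.b 4) (.n (.n (.b
  4) (.n (.n (.b 4) (.l 114 0)) (.n (.l 114 0) (.b 5)))) (.n (.b 10) (.b 5)))) (.n (.n (.b 4) (.n
  (.n (.b 4) (.n (.l 114 0) (.l 114 0))) (.n (.n (.b 4) (.l 114 0)) (.b 5)))) (.b 5)))) (.b 5))))
  (.b 5)))) (.n (.b 10) (.b 5)))) (.b 18))) (.b 5)))) (.b 5)))) (.b 5)))) (.b 5))

/-- A subtree of the table. -/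
def s30 : T :=
  (.b 5)

/-- A subtree of the table. -/
def s31 : T :=
  (.b 5)

/-- A subtree of the table. -/
def u0 : T := .n s3 s4

/-- A subtree of the table. -/
def u1 : T := .n s2 u0

/-- A subtree of the table. -/
def u2 : T := .n s6 s7

/-- A subtree of the table. -/
def u3 : T := .n s5 u2

/-- A subtree of the table. -/
def u4 : T := .n u3 s8

/-- A subtree of the table. -/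
def u5 : T := .n u1 u4

/-- A subtree of the table. -/
def u6 : T := .n s1 u5

/-- A subtree of the table. -/
def u7 : T := .n s10 s11

/-- A subtree of the table. -/
def u8 : T := .n s9 u7

/-- A subtree of the table. -/
def u9 : T := .n u8 s12

/-- A subtree of the table. -/
def u10 : T := .n u6 u9

/-- A subtree of the table. -/
def u11 : T := .n s0 u10

/-- A subtree of the table. -/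
def u12 : T := .n s16 s17

/-- A subtree of the table. -/
def u13 : T := .n s15 u12

/-- A subtree of the table. -/
def u14 : T := .n u13 s18

/-- A subtree of the table. -/
def u15 : T := .n s14 u14

/-- A subtree of the table. -/
def u16 : T := .n s20 s21

/-- A subtree of the table. -/
def u17 : T := .n s19 u16

/-- A subtree of the table. -/
def u18 : T := .n u17 s22

/-- A subtree of the table. -/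
def u19 : T := .n u15 u18

/-- A subtree of the table. -/
def u20 : T := .n s13 u19

/-- A subtree of the table. -/
def u21 : T := .n s25 s26

/-- A subtree of the table. -/
def u22 : T := .n s24 u21

/-- A subtree of the table. -/
def u23 : T := .n s28 s29

/-- A subtree of the table. -/
def u24 : T := .n s27 u23

/-- A subtree of the table. -/
def u25 : T := .n u24 s30

/-- A subtree of the table. -/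
def u26 : T := .n u22 u25

/-- A subtree of the table. -/
def u27 : T := .n s23 u26

/-- A subtree of the table. -/
def u28 : T := .n u27 s31

/-- A subtree of the table. -/
def u29 : T := .n u20 u28

/-- A subtree of the table. -/
def u30 : T := .n u11 u29

/-- The table. -/
def tb : T := u30

end Pool.Agent.Helper49.TF.E0
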