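import Pool.Agent.Helper49.TF.Defs

set_option autoImplicit false
set_option maxRecDepth 100000

/-!
# Table F4: data
-/

namespace Pool.Agent.Helper49.TF.F4

/-- Upper bounds. -/
def es : List ℕ := [0, 0, 1, 1, 1, 2, 2, 3, 3, 3, 4, 4, 5, 5, 5, 6, 6, 7, 7, 7, 8, 8, 9, 9, 9, 10, 10, 11, 11,
  11, 12, 12, 13, 13, 13, 14, 14, 15, 15, 15, 16, 16, 17, 17, 17, 18, 18, 19, 19, 19, 20, 20,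
  21, 21, 21, 22, 22, 23, 23, 23, 24, 24, 25, 25, 25, 26, 26, 27, 27, 27, 28, 28, 29, 29, 29,
  30, 30, 31, 31, 31, 32]

/-- Lower bounds. -/
def el : List ℕ := [0, 0, 0, 0, 0, 0, 0, 0, 0, 0, 0, 0, 0, 0, 0, 0, 0, 0, 0, 0, 0, 0, 0, 0, 0, 0, 0, 0, 0, 0,
  0, 0, 0, 0, 0, 0, 0, 0, 0, 0, 0, 0, 0, 0, 0, 0, 0, 0, 0, 0, 0, 0, 0, 0, 0, 0, 0, 0, 0, 0, 0,
  0, 0, 0, 0, 0, 0, 0, 0, 0, 0, 0, 0, 0, 0, 0, 0, 0, 0, 0, 0]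

/-- Rewards. -/
def ws : List ℕ := []

/-- A subtree of the table. -/
def s0 : T :=
  (.b 3)

/-- A subtree of the table. -/
def s1 : T :=
  (.b 3)

/-- A subtree of the table. -/
def s2 : T :=
  (.b 3)

/-- A subtree of the table. -/
def s3 : T :=
  (.n (.b 3) (.n (.b 8) (.n (.n (.b 3) (.n (.n (.b 3) (.n (.n (.b 3) (.n (.n (.b 3) (.b 8)) (.n
  (.n (.b 3) (.n (.n (.b 3) (.n (.n (.b 3) (.n (.n (.b 3) (.b 8)) (.n (.n (.b 3) (.n (.n (.b 3)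
  (.n (.b 21) (.b 10))) (.n (.n (.b 3) (.n (.n (.b 3) (.n (.n (.b 3) (.n (.n (.b 3) (.b 8)) (.n
  (.n (.b 3) (.n (.n (.b 3) (.n (.n (.b 3) (.n (.n (.b 3) (.b 8)) (.n (.n (.b 3) (.n (.n (.b 3)
  (.n (.n (.b 3) (.n (.n (.b 3) (.b 8)) (.n (.n (.b 3) (.b 21)) (.b 4)))) (.b 10))) (.n (.n (.b 3)
  (.n (.n (.b 3) (.n (.n (.b 3) (.n (.n (.b 3) (.b 8)) (.b 34))) (.n (.n (.b 3) (.b 10)) (.b 4))))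
  (.b 9))) (.b 4)))) (.b 4)))) (.b 10))) (.n (.n (.b 3) (.n (.n (.b 3) (.n (.n (.b 3) (.n (.n (.b
  3) (.b 8)) (.n (.n (.b 3) (.n (.n (.b 3) (.n (.n (.b 3) (.n (.n (.b 3) (.b 8)) (.n (.n (.b 3)
  (.n (.n (.b 3) (.n (.n (.b 3) (.n (.n (.b 3) (.b 8)) (.n (.n (.b 3) (.b 21)) (.b 4)))) (.b 10)))
  (.n (.n (.b 3) (.n (.n (.b 3) (.n (.n (.b 3) (.n (.n (.b 3) (.b 8)) (.n (.n (.b 3) (.n (.n (.b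
  3) (.n (.n (.b 3) (.n (.n (.b 3) (.b 8)) (.b 34))) (.b 10))) (.n (.n (.b 3) (.n (.n (.b 3) (.n
  (.n (.b 3) (.n (.n (.b 3) (.b 8)) (.n (.n (.b 3) (.n (.n (.b 3) (.n (.n (.b 3) (.n (.n (.b 3)
  (.b 8)) (.n (.n (.b 3) (.n (.n (.b 3) (.n (.n (.b 3) (.n (.n (.b 3) (.b 8)) (.n (.n (.b 3) (.b
  21)) (.b 4)))) (.b 10))) (.n (.n (.b 3) (.n (.n (.b 3) (.n (.n (.b 3) (.n (.n (.b 3) (.b 8)) (.n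
  (.n (.b 3) (.n (.n (.b 3) (.n (.n (.b 3) (.n (.n (.b 3) (.b 8)) (.b 34))) (.b 10))) (.n (.n (.b
  3) (.n (.n (.b 3) (.n (.n (.b 3) (.n (.n (.b 3) (.b 8)) (.n (.n (.b 3) (.n (.n (.b 3) (.n (.n
  (.b 3) (.n (.n (.b 3) (.b 8)) (.n (.n (.b 3) (.n (.n (.b 3) (.n (.n (.b 3) (.n (.n (.b 3) (.b
  8)) (.n (.n (.b 3) (.b 21)) (.b 4)))) (.b 10))) (.n (.n (.b 3) (.n (.n (.b 3) (.n (.n (.b 3) (.n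
  (.n (.b 3) (.b 8)) (.n (.n (.b 3) (.b 81)) (.b 4)))) (.n (.n (.b 3) (.b 10)) (.b 4)))) (.b 9)))
  (.b 4)))) (.b 4)))) (.b 10))) (.n (.n (.b 3) (.n (.n (.b 3) (.n (.b 30) (.n (.n (.b 3) (.b 10))
  (.b 4)))) (.b 9))) (.b 4)))) (.b 4)))) (.n (.n (.b 3) (.b 10)) (.b 4)))) (.b 9))) (.b 4)))) (.b
  4)))) (.n (.n (.b 3) (.b 10)) (.b 4)))) (.b 9))) (.b 4)))) (.b 4)))) (.b 10))) (.n (.n (.b 3)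
  (.n (.n (.b 3) (.n (.b 30) (.n (.n (.b 3) (.b 10)) (.b 4)))) (.b 9))) (.b 4)))) (.b 4)))) (.n
  (.n (.b 3) (.b 10)) (.b 4)))) (.b 9))) (.b 4)))) (.b 4)))) (.n (.n (.b 3) (.b 10)) (.b 4)))) (.b
  9))) (.b 4)))) (.b 4)))) (.b 10))) (.n (.n (.b 3) (.n (.n (.b 3) (.n (.b 30) (.n (.n (.b 3) (.b
  10)) (.b 4)))) (.b 9))) (.b 4)))) (.b 4)))) (.n (.n (.b 3) (.b 10)) (.b 4)))) (.b 9))) (.b 4))))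
  (.b 4)))) (.n (.n (.b 3) (.b 10)) (.b 4)))) (.b 9))) (.b 4)))) (.b 4)))) (.b 10))) (.n (.n (.b
  3) (.n (.n (.b 3) (.n (.n (.b 3) (.n (.n (.b 3) (.b 8)) (.n (.n (.b 3) (.n (.n (.b 3) (.n (.n
  (.b 3) (.n (.n (.b 3) (.b 8)) (.n (.n (.b 3) (.n (.n (.b 3) (.n (.n (.b 3) (.n (.n (.b 3) (.b
  8)) (.n (.n (.b 3) (.b 21)) (.b 4)))) (.b 10))) (.n (.n (.b 3) (.n (.n (.b 3) (.n (.n (.b 3) (.n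
  (.n (.b 3) (.b 8)) (.n (.n (.b 3) (.n (.b 34) (.n (.n (.b 3) (.n (.n (.b 3) (.n (.n (.b 3) (.n
  (.n (.b 3) (.b 8)) (.n (.n (.b 3) (.n (.n (.b 3) (.n (.n (.b 3) (.n (.n (.b 3) (.b 8)) (.n (.n
  (.b 3) (.n (.n (.b 3) (.n (.n (.b 3) (.n (.n (.b 3) (.b 8)) (.n (.n (.b 3) (.b 21)) (.b 4))))
  (.b 10))) (.n (.n (.b 3) (.n (.n (.b 3) (.n (.n (.b 3) (.n (.n (.b 3) (.b 8)) (.n (.n (.b 3) (.n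
  (.n (.b 3) (.n (.n (.b 3) (.n (.n (.b 3) (.b 8)) (.b 34))) (.b 10))) (.n (.n (.b 3) (.n (.n (.b
  3) (.n (.n (.b 3) (.n (.n (.b 3) (.b 8)) (.n (.n (.b 3) (.n (.n (.b 3) (.n (.n (.b 3) (.n (.n
  (.b 3) (.b 8)) (.n (.n (.b 3) (.n (.n (.b 3) (.n (.n (.b 3) (.n (.n (.b 3) (.b 8)) (.n (.n (.b
  3) (.b 21)) (.b 4)))) (.b 10))) (.n (.n (.b 3) (.n (.n (.b 3) (.n (.n (.b 3) (.n (.n (.b 3) (.b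
  8)) (.n (.n (.b 3) (.n (.n (.b 3) (.n (.n (.b 3) (.n (.n (.b 3) (.b 8)) (.b 34))) (.b 10))) (.n
  (.n (.b 3) (.n (.n (.b 3) (.n (.n (.b 3) (.n (.n (.b 3) (.b 8)) (.n (.n (.b 3) (.n (.n (.b 3)
  (.n (.n (.b 3) (.n (.n (.b 3) (.b 8)) (.n (.n (.b 3) (.b 81)) (.b 4)))) (.b 10))) (.n (.n (.b 3)
  (.n (.n (.b 3) (.n (.b 30) (.n (.n (.b 3) (.b 10)) (.b 4)))) (.b 9))) (.b 4)))) (.b 4)))) (.n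
  (.n (.b 3) (.b 10)) (.b 4)))) (.b 9))) (.b 4)))) (.b 4)))) (.n (.n (.b 3) (.b 10)) (.b 4)))) (.b
  9))) (.b 4)))) (.b 4)))) (.b 10))) (.n (.n (.b 3) (.n (.n (.b 3) (.n (.b 30) (.n (.n (.b 3) (.b
  10)) (.b 4)))) (.b 9))) (.b 4)))) (.b 4)))) (.n (.n (.b 3) (.b 10)) (.b 4)))) (.b 9))) (.b 4))))
  (.b 4)))) (.n (.n (.b 3) (.b 10)) (.b 4)))) (.b 9))) (.b 4)))) (.b 4)))) (.b 10))) (.n (.n (.b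
  3) (.n (.n (.b 3) (.n (.b 30) (.n (.n (.b 3) (.b 10)) (.b 4)))) (.b 9))) (.b 4)))) (.b 4)))) (.n
  (.n (.b 3) (.b 10)) (.b 4)))) (.b 9))) (.b 4)))) (.b 4)))) (.n (.n (.b 3) (.b 10)) (.b 4)))) (.b
  9))) (.b 4)))) (.b 4)))) (.b 10))) (.n (.n (.b 3) (.n (.n (.b 3) (.n (.n (.b 3) (.n (.n (.b 3)
  (.b 8)) (.n (.n (.b 3) (.n (.n (.b 3) (.n (.n (.b 3) (.n (.n (.b 3) (.b 8)) (.n (.n (.b 3) (.n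
  (.n (.b 3) (.n (.n (.b 3) (.n (.n (.b 3) (.b 8)) (.n (.n (.b 3) (.b 21)) (.b 4)))) (.b 10))) (.n
  (.n (.b 3) (.n (.n (.b 3) (.n (.n (.b 3) (.n (.n (.b 3) (.b 8)) (.n (.n (.b 3) (.n (.n (.b 3)
  (.n (.n (.b 3) (.n (.n (.b 3) (.b 8)) (.b 34))) (.b 10))) (.n (.n (.b 3) (.n (.n (.b 3) (.n (.n
  (.b 3) (.n (.n (.b 3) (.b 8)) (.n (.n (.b 3) (.n (.n (.b 3) (.n (.n (.b 3) (.n (.n (.b 3) (.b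
  8)) (.n (.n (.b 3) (.n (.n (.b 3) (.n (.n (.b 3) (.n (.n (.b 3) (.b 8)) (.n (.n (.b 3) (.b 21))
  (.b 4)))) (.b 10))) (.n (.n (.b 3) (.n (.n (.b 3) (.n (.n (.b 3) (.n (.n (.b 3) (.b 8)) (.n (.n
  (.b 3) (.n (.n (.b 3) (.n (.n (.b 3) (.n (.n (.b 3) (.b 8)) (.b 34))) (.b 10))) (.n (.n (.b 3)
  (.n (.n (.b 3) (.n (.n (.b 3) (.n (.n (.b 3) (.b 8)) (.n (.n (.b 3) (.n (.n (.b 3) (.n (.n (.b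
  3) (.n (.n (.b 3) (.b 8)) (.n (.n (.b 3) (.n (.n (.b 3) (.n (.n (.b 3) (.n (.n (.b 3) (.b 8))
  (.n (.n (.b 3) (.b 21)) (.b 4)))) (.b 10))) (.n (.n (.b 3) (.n (.n (.b 3) (.n (.n (.b 3) (.n (.n
  (.b 3) (.b 8)) (.n (.n (.b 3) (.n (.n (.b 3) (.n (.n (.b 3) (.n (.n (.b 3) (.b 8)) (.b 34))) (.b
  10))) (.n (.n (.b 3) (.b 81)) (.b 4)))) (.b 4)))) (.n (.n (.b 3) (.b 10)) (.b 4)))) (.b 9))) (.b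
  4)))) (.b 4)))) (.b 10))) (.n (.n (.b 3) (.n (.n (.b 3) (.n (.b 30) (.n (.n (.b 3) (.b 10)) (.b
  4)))) (.b 9))) (.b 4)))) (.b 4)))) (.n (.n (.b 3) (.b 10)) (.b 4)))) (.b 9))) (.b 4)))) (.b
  4)))) (.n (.n (.b 3) (.b 10)) (.b 4)))) (.b 9))) (.b 4)))) (.b 4)))) (.b 10))) (.n (.n (.b 3)
  (.n (.n (.b 3) (.n (.b 30) (.n (.n (.b 3) (.b 10)) (.b 4)))) (.b 9))) (.b 4)))) (.b 4)))) (.n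
  (.n (.b 3) (.b 10)) (.b 4)))) (.b 9))) (.b 4)))) (.b 4)))) (.n (.n (.b 3) (.b 10)) (.b 4)))) (.b
  9))) (.b 4)))) (.b 4)))) (.b 10))) (.n (.n (.b 3) (.n (.n (.b 3) (.n (.b 30) (.n (.n (.b 3) (.b
  10)) (.b 4)))) (.b 9))) (.b 4)))) (.b 4)))) (.n (.n (.b 3) (.b 10)) (.b 4)))) (.b 9))) (.b 4))))
  (.b 4)))) (.n (.n (.b 3) (.b 10)) (.b 4)))) (.b 9))) (.b 4)))) (.b 4)))) (.b 10))) (.n (.n (.b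
  3) (.n (.n (.b 3) (.n (.n (.b 3) (.n (.n (.b 3) (.b 8)) (.n (.n (.b 3) (.n (.n (.b 3) (.n (.n
  (.b 3) (.n (.n (.b 3) (.b 8)) (.n (.n (.b 3) (.n (.n (.b 3) (.n (.n (.b 3) (.n (.n (.b 3) (.b
  8)) (.n (.n (.b 3) (.b 21)) (.b 4)))) (.b 10))) (.n (.n (.b 3) (.n (.n (.b 3) (.n (.n (.b 3) (.n
  (.n (.b 3) (.b 8)) (.n (.n (.b 3) (.n (.n (.b 3) (.n (.n (.b 3) (.n (.n (.b 3) (.b 8)) (.n (.n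
  (.b 3) (.n (.n (.b 3) (.n (.n (.b 3) (.n (.n (.b 3) (.b 8)) (.n (.n (.b 3) (.b 21)) (.b 4))))
  (.b 10))) (.b 34))) (.b 4)))) (.b 10))) (.n (.n (.b 3) (.n (.n (.b 3) (.n (.n (.b 3) (.n (.n (.b
  3) (.b 8)) (.n (.n (.b 3) (.n (.n (.b 3) (.n (.n (.b 3) (.n (.n (.b 3) (.b 8)) (.n (.n (.b 3)
  (.n (.n (.b 3) (.n (.n (.b 3) (.n (.n (.b 3) (.b 8)) (.n (.n (.b 3) (.b 21)) (.b 4)))) (.b 10)))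
  (.n (.n (.b 3) (.n (.n (.b 3) (.n (.n (.b 3) (.n (.n (.b 3) (.b 8)) (.n (.n (.b 3) (.n (.n (.b
  3) (.n (.n (.b 3) (.n (.n (.b 3) (.b 8)) (.b 34))) (.b 10))) (.n (.n (.b 3) (.n (.n (.b 3) (.n
  (.n (.b 3) (.n (.n (.b 3) (.b 8)) (.n (.n (.b 3) (.n (.n (.b 3) (.n (.n (.b 3) (.n (.n (.b 3)
  (.b 8)) (.n (.n (.b 3) (.n (.n (.b 3) (.n (.n (.b 3) (.n (.n (.b 3) (.b 8)) (.n (.n (.b 3) (.b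
  21)) (.b 4)))) (.b 10))) (.n (.n (.b 3) (.n (.n (.b 3) (.n (.n (.b 3) (.n (.n (.b 3) (.b 8)) (.n
  (.n (.b 3) (.n (.n (.b 3) (.n (.n (.b 3) (.n (.n (.b 3) (.b 8)) (.b 34))) (.b 10))) (.n (.n (.b
  3) (.n (.n (.b 3) (.n (.n (.b 3) (.n (.n (.b 3) (.b 8)) (.n (.n (.b 3) (.n (.n (.b 3) (.n (.n
  (.b 3) (.n (.n (.b 3) (.b 8)) (.n (.n (.b 3) (.n (.n (.b 3) (.n (.n (.b 3) (.n (.n (.b 3) (.b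
  8)) (.n (.n (.b 3) (.b 21)) (.b 4)))) (.b 10))) (.n (.n (.b 3) (.b 81)) (.b 4)))) (.b 4)))) (.b
  10))) (.n (.n (.b 3) (.n (.n (.b 3) (.n (.b 30) (.n (.n (.b 3) (.b 10)) (.b 4)))) (.b 9))) (.b
  4)))) (.b 4)))) (.n (.n (.b 3) (.b 10)) (.b 4)))) (.b 9))) (.b 4)))) (.b 4)))) (.n (.n (.b 3)
  (.b 10)) (.b 4)))) (.b 9))) (.b 4)))) (.b 4)))) (.b 10))) (.n (.n (.b 3) (.n (.n (.b 3) (.n (.b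
  30) (.n (.n (.b 3) (.b 10)) (.b 4)))) (.b 9))) (.b 4)))) (.b 4)))) (.n (.n (.b 3) (.b 10)) (.b
  4)))) (.b 9))) (.b 4)))) (.b 4)))) (.n (.n (.b 3) (.b 10)) (.b 4)))) (.b 9))) (.b 4)))) (.b
  4)))) (.b 10))) (.n (.n (.b 3) (.n (.n (.b 3) (.n (.b 30) (.n (.n (.b 3) (.b 10)) (.b 4)))) (.b
  9))) (.b 4)))) (.b 4)))) (.n (.n (.b 3) (.b 10)) (.b 4)))) (.b 9))) (.b 4)))) (.b 4)))) (.n (.n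
  (.b 3) (.b 10)) (.b 4)))) (.b 9))) (.b 4)))) (.b 4)))) (.b 10))) (.n (.n (.b 3) (.n (.n (.b 3)
  (.n (.n (.b 3) (.n (.n (.b 3) (.b 8)) (.n (.n (.b 3) (.n (.n (.b 3) (.n (.n (.b 3) (.n (.n (.b
  3) (.b 8)) (.n (.n (.b 3) (.n (.n (.b 3) (.n (.n (.b 3) (.n (.n (.b 3) (.b 8)) (.n (.n (.b 3)
  (.b 21)) (.b 4)))) (.b 10))) (.n (.n (.b 3) (.n (.n (.b 3) (.n (.n (.b 3) (.n (.n (.b 3) (.b 8))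
  (.n (.n (.b 3) (.n (.n (.b 3) (.n (.n (.b 3) (.n (.n (.b 3) (.b 8)) (.b 34))) (.b 10))) (.n (.n
  (.b 3) (.n (.n (.b 3) (.n (.n (.b 3) (.n (.n (.b 3) (.b 8)) (.n (.n (.b 3) (.n (.n (.b 3) (.n
  (.n (.b 3) (.n (.n (.b 3) (.b 8)) (.n (.n (.b 3) (.n (.n (.b 3) (.n (.n (.b 3) (.n (.n (.b 3)
  (.b 8)) (.n (.n (.b 3) (.b 21)) (.b 4)))) (.b 10))) (.n (.n (.b 3) (.n (.n (.b 3) (.n (.n (.b 3)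
  (.n (.n (.b 3) (.b 8)) (.n (.n (.b 3) (.n (.n (.b 3) (.n (.n (.b 3) (.n (.n (.b 3) (.b 8)) (.b
  34))) (.b 10))) (.n (.n (.b 3) (.n (.n (.b 3) (.n (.n (.b 3) (.n (.n (.b 3) (.b 8)) (.n (.n (.b
  3) (.n (.n (.b 3) (.n (.n (.b 3) (.n (.n (.b 3) (.b 8)) (.n (.n (.b 3) (.n (.n (.b 3) (.n (.n
  (.b 3) (.n (.n (.b 3) (.b 8)) (.n (.n (.b 3) (.b 21)) (.b 4)))) (.b 10))) (.n (.n (.b 3) (.n (.n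
  (.b 3) (.n (.n (.b 3) (.n (.n (.b 3) (.b 8)) (.n (.n (.b 3) (.n (.n (.b 3) (.n (.n (.b 3) (.n
  (.n (.b 3) (.b 8)) (.b 34))) (.b 10))) (.n (.n (.b 3) (.n (.n (.b 3) (.n (.n (.b 3) (.n (.n (.b
  3) (.b 8)) (.n (.n (.b 3) (.b 81)) (.b 4)))) (.n (.n (.b 3) (.b 10)) (.b 4)))) (.b 9))) (.b
  4)))) (.b 4)))) (.n (.n (.b 3) (.b 10)) (.b 4)))) (.b 9))) (.b 4)))) (.b 4)))) (.b 10))) (.n (.n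
  (.b 3) (.n (.n (.b 3) (.n (.b 30) (.n (.n (.b 3) (.b 10)) (.b 4)))) (.b 9))) (.b 4)))) (.b 4))))
  (.n (.n (.b 3) (.b 10)) (.b 4)))) (.b 9))) (.b 4)))) (.b 4)))) (.n (.n (.b 3) (.b 10)) (.b 4))))
  (.b 9))) (.b 4)))) (.b 4)))) (.b 10))) (.n (.n (.b 3) (.n (.n (.b 3) (.n (.b 30) (.n (.n (.b 3)
  (.b 10)) (.b 4)))) (.b 9))) (.b 4)))) (.b 4)))) (.n (.n (.b 3) (.b 10)) (.b 4)))) (.b 9))) (.b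
  4)))) (.b 4)))) (.n (.n (.b 3) (.b 10)) (.b 4)))) (.b 9))) (.b 4)))) (.b 4)))) (.b 10))) (.n (.n
  (.b 3) (.n (.n (.b 3) (.n (.n (.b 3) (.n (.n (.b 3) (.b 8)) (.n (.b 30) (.b 4)))) (.n (.n (.b 3)
  (.b 10)) (.b 4)))) (.b 9))) (.b 4)))) (.b 4)))) (.n (.n (.b 3) (.b 10)) (.b 4)))) (.b 9))) (.b
  4)))) (.b 4)))) (.n (.n (.b 3) (.b 10)) (.b 4)))) (.b 9))) (.b 4)))) (.b 4))))

/-- A subtree of the table. -/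
def s4 : T :=
  (.n (.n (.b 3) (.n (.n (.b 3) (.n (.n (.b 3) (.n (.n (.b 3) (.b 8)) (.n (.n (.b 3) (.n (.n (.b
  3) (.n (.n (.b 3) (.n (.n (.b 3) (.b 8)) (.n (.n (.b 3) (.n (.n (.b 3) (.n (.n (.b 3) (.b 21))
  (.b 10))) (.n (.n (.b 3) (.n (.n (.b 3) (.n (.n (.b 3) (.n (.n (.b 3) (.b 8)) (.n (.n (.b 3) (.n
  (.n (.b 3) (.n (.n (.b 3) (.n (.n (.b 3) (.b 8)) (.n (.n (.b 3) (.n (.n (.b 3) (.n (.n (.b 3)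
  (.n (.n (.b 3) (.b 8)) (.n (.n (.b 3) (.b 21)) (.b 4)))) (.b 10))) (.n (.n (.b 3) (.n (.n (.b 3)
  (.n (.n (.b 3) (.n (.n (.b 3) (.b 8)) (.b 34))) (.n (.n (.b 3) (.b 10)) (.b 4)))) (.b 9))) (.b
  4)))) (.b 4)))) (.b 10))) (.n (.n (.b 3) (.n (.n (.b 3) (.n (.n (.b 3) (.n (.n (.b 3) (.b 8))
  (.n (.n (.b 3) (.n (.n (.b 3) (.n (.n (.b 3) (.n (.n (.b 3) (.b 8)) (.n (.n (.b 3) (.n (.n (.b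
  3) (.n (.n (.b 3) (.n (.n (.b 3) (.b 8)) (.n (.n (.b 3) (.b 21)) (.b 4)))) (.b 10))) (.n (.n (.b
  3) (.n (.n (.b 3) (.n (.n (.b 3) (.n (.n (.b 3) (.b 8)) (.n (.n (.b 3) (.n (.n (.b 3) (.n (.n
  (.b 3) (.n (.n (.b 3) (.b 8)) (.b 34))) (.b 10))) (.n (.n (.b 3) (.n (.n (.b 3) (.n (.n (.b 3)
  (.n (.n (.b 3) (.b 8)) (.n (.n (.b 3) (.n (.n (.b 3) (.n (.n (.b 3) (.n (.n (.b 3) (.b 8)) (.n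
  (.n (.b 3) (.n (.n (.b 3) (.n (.n (.b 3) (.n (.n (.b 3) (.b 8)) (.n (.n (.b 3) (.b 21)) (.b
  4)))) (.b 10))) (.n (.n (.b 3) (.n (.n (.b 3) (.n (.n (.b 3) (.n (.n (.b 3) (.b 8)) (.n (.n (.b
  3) (.n (.n (.b 3) (.n (.n (.b 3) (.n (.n (.b 3) (.b 8)) (.b 34))) (.b 10))) (.n (.n (.b 3) (.n
  (.n (.b 3) (.n (.n (.b 3) (.n (.n (.b 3) (.b 8)) (.n (.n (.b 3) (.n (.n (.b 3) (.n (.n (.b 3)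
  (.n (.n (.b 3) (.b 8)) (.n (.n (.b 3) (.n (.n (.b 3) (.n (.n (.b 3) (.n (.n (.b 3) (.b 8)) (.n
  (.n (.b 3) (.b 21)) (.b 4)))) (.b 10))) (.n (.n (.b 3) (.n (.n (.b 3) (.n (.n (.b 3) (.n (.n (.b
  3) (.b 8)) (.n (.n (.b 3) (.b 81)) (.b 4)))) (.n (.n (.b 3) (.b 10)) (.b 4)))) (.b 9))) (.b
  4)))) (.b 4)))) (.b 10))) (.n (.n (.b 3) (.n (.n (.b 3) (.n (.b 30) (.n (.n (.b 3) (.b 10)) (.b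
  4)))) (.b 9))) (.b 4)))) (.b 4)))) (.n (.n (.b 3) (.b 10)) (.b 4)))) (.b 9))) (.b 4)))) (.b
  4)))) (.n (.n (.b 3) (.b 10)) (.b 4)))) (.b 9))) (.b 4)))) (.b 4)))) (.b 10))) (.n (.n (.b 3)
  (.n (.n (.b 3) (.n (.b 30) (.n (.n (.b 3) (.b 10)) (.b 4)))) (.b 9))) (.b 4)))) (.b 4)))) (.n
  (.n (.b 3) (.b 10)) (.b 4)))) (.b 9))) (.b 4)))) (.b 4)))) (.n (.n (.b 3) (.b 10)) (.b 4)))) (.b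
  9))) (.b 4)))) (.b 4)))) (.b 10))) (.n (.n (.b 3) (.n (.n (.b 3) (.n (.b 30) (.n (.n (.b 3) (.b
  10)) (.b 4)))) (.b 9))) (.b 4)))) (.b 4)))) (.n (.n (.b 3) (.b 10)) (.b 4)))) (.b 9))) (.b 4))))
  (.b 4)))) (.n (.n (.b 3) (.b 10)) (.b 4)))) (.b 9))) (.b 4)))) (.b 4)))) (.b 10))) (.n (.n (.b
  3) (.n (.n (.b 3) (.n (.n (.b 3) (.n (.n (.b 3) (.b 8)) (.n (.n (.b 3) (.n (.n (.b 3) (.n (.n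
  (.b 3) (.n (.n (.b 3) (.b 8)) (.n (.n (.b 3) (.n (.n (.b 3) (.n (.n (.b 3) (.n (.n (.b 3) (.b
  8)) (.n (.n (.b 3) (.b 21)) (.b 4)))) (.b 10))) (.n (.n (.b 3) (.n (.n (.b 3) (.n (.n (.b 3) (.n
  (.n (.b 3) (.b 8)) (.n (.n (.b 3) (.n (.n (.b 3) (.b 34)) (.n (.n (.b 3) (.n (.n (.b 3) (.n (.n
  (.b 3) (.n (.n (.b 3) (.b 8)) (.n (.n (.b 3) (.n (.n (.b 3) (.n (.n (.b 3) (.n (.n (.b 3) (.b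
  8)) (.n (.n (.b 3) (.n (.n (.b 3) (.n (.n (.b 3) (.n (.n (.b 3) (.b 8)) (.n (.n (.b 3) (.b 21))
  (.b 4)))) (.b 10))) (.n (.n (.b 3) (.n (.n (.b 3) (.n (.n (.b 3) (.n (.n (.b 3) (.b 8)) (.n (.n
  (.b 3) (.n (.n (.b 3) (.n (.n (.b 3) (.n (.n (.b 3) (.b 8)) (.b 34))) (.b 10))) (.n (.n (.b 3)
  (.n (.n (.b 3) (.n (.n (.b 3) (.n (.n (.b 3) (.b 8)) (.n (.n (.b 3) (.n (.n (.b 3) (.n (.n (.b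
  3) (.n (.n (.b 3) (.b 8)) (.n (.n (.b 3) (.n (.n (.b 3) (.n (.n (.b 3) (.n (.n (.b 3) (.b 8))
  (.n (.n (.b 3) (.b 21)) (.b 4)))) (.b 10))) (.n (.n (.b 3) (.n (.n (.b 3) (.n (.n (.b 3) (.n (.n
  (.b 3) (.b 8)) (.n (.n (.b 3) (.n (.n (.b 3) (.n (.n (.b 3) (.n (.n (.b 3) (.b 8)) (.b 34))) (.b
  10))) (.n (.n (.b 3) (.n (.n (.b 3) (.n (.n (.b 3) (.n (.n (.b 3) (.b 8)) (.n (.n (.b 3) (.n (.n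
  (.b 3) (.n (.n (.b 3) (.n (.n (.b 3) (.b 8)) (.n (.n (.b 3) (.b 81)) (.b 4)))) (.b 10))) (.n (.n
  (.b 3) (.n (.n (.b 3) (.n (.b 30) (.n (.n (.b 3) (.b 10)) (.b 4)))) (.b 9))) (.b 4)))) (.b 4))))
  (.n (.n (.b 3) (.b 10)) (.b 4)))) (.b 9))) (.b 4)))) (.b 4)))) (.n (.n (.b 3) (.b 10)) (.b 4))))
  (.b 9))) (.b 4)))) (.b 4)))) (.b 10))) (.n (.n (.b 3) (.n (.n (.b 3) (.n (.b 30) (.n (.n (.b 3)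
  (.b 10)) (.b 4)))) (.b 9))) (.b 4)))) (.b 4)))) (.n (.n (.b 3) (.b 10)) (.b 4)))) (.b 9))) (.b
  4)))) (.b 4)))) (.n (.n (.b 3) (.b 10)) (.b 4)))) (.b 9))) (.b 4)))) (.b 4)))) (.b 10))) (.n (.n
  (.b 3) (.n (.n (.b 3) (.n (.b 30) (.n (.n (.b 3) (.b 10)) (.b 4)))) (.b 9))) (.b 4)))) (.b 4))))
  (.n (.n (.b 3) (.b 10)) (.b 4)))) (.b 9))) (.b 4)))) (.b 4)))) (.n (.n (.b 3) (.b 10)) (.b 4))))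
  (.b 9))) (.b 4)))) (.b 4)))) (.b 10))) (.n (.n (.b 3) (.n (.n (.b 3) (.n (.n (.b 3) (.n (.n (.b
  3) (.b 8)) (.n (.n (.b 3) (.n (.n (.b 3) (.n (.n (.b 3) (.n (.n (.b 3) (.b 8)) (.n (.n (.b 3)
  (.n (.n (.b 3) (.n (.n (.b 3) (.n (.n (.b 3) (.b 8)) (.n (.n (.b 3) (.b 21)) (.b 4)))) (.b 10)))
  (.n (.n (.b 3) (.n (.n (.b 3) (.n (.n (.b 3) (.n (.n (.b 3) (.b 8)) (.n (.n (.b 3) (.n (.n (.b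
  3) (.n (.n (.b 3) (.n (.n (.b 3) (.b 8)) (.b 34))) (.b 10))) (.n (.n (.b 3) (.n (.n (.b 3) (.n
  (.n (.b 3) (.n (.n (.b 3) (.b 8)) (.n (.n (.b 3) (.n (.n (.b 3) (.n (.n (.b 3) (.n (.n (.b 3)
  (.b 8)) (.n (.n (.b 3) (.n (.n (.b 3) (.n (.n (.b 3) (.n (.n (.b 3) (.b 8)) (.n (.n (.b 3) (.b
  21)) (.b 4)))) (.b 10))) (.n (.n (.b 3) (.n (.n (.b 3) (.n (.n (.b 3) (.n (.n (.b 3) (.b 8)) (.n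
  (.n (.b 3) (.n (.n (.b 3) (.n (.n (.b 3) (.n (.n (.b 3) (.b 8)) (.b 34))) (.b 10))) (.n (.n (.b
  3) (.n (.n (.b 3) (.n (.n (.b 3) (.n (.n (.b 3) (.b 8)) (.n (.n (.b 3) (.n (.n (.b 3) (.n (.n
  (.b 3) (.n (.n (.b 3) (.b 8)) (.n (.n (.b 3) (.n (.n (.b 3) (.n (.n (.b 3) (.n (.n (.b 3) (.b
  8)) (.n (.n (.b 3) (.b 21)) (.b 4)))) (.b 10))) (.n (.n (.b 3) (.n (.n (.b 3) (.n (.n (.b 3) (.n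
  (.n (.b 3) (.b 8)) (.n (.n (.b 3) (.n (.n (.b 3) (.n (.n (.b 3) (.n (.n (.b 3) (.b 8)) (.b 34)))
  (.b 10))) (.n (.n (.b 3) (.n (.b 81) (.b 9))) (.b 4)))) (.b 4)))) (.n (.n (.b 3) (.b 10)) (.b
  4)))) (.b 9))) (.b 4)))) (.b 4)))) (.b 10))) (.n (.n (.b 3) (.n (.n (.b 3) (.n (.b 30) (.n (.n
  (.b 3) (.b 10)) (.b 4)))) (.b 9))) (.b 4)))) (.b 4)))) (.n (.n (.b 3) (.b 10)) (.b 4)))) (.b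
  9))) (.b 4)))) (.b 4)))) (.n (.n (.b 3) (.b 10)) (.b 4)))) (.b 9))) (.b 4)))) (.b 4)))) (.b
  10))) (.n (.n (.b 3) (.n (.n (.b 3) (.n (.b 30) (.n (.n (.b 3) (.b 10)) (.b 4)))) (.b 9))) (.b
  4)))) (.b 4)))) (.n (.n (.b 3) (.b 10)) (.b 4)))) (.b 9))) (.b 4)))) (.b 4)))) (.n (.n (.b 3)
  (.b 10)) (.b 4)))) (.b 9))) (.b 4)))) (.b 4)))) (.b 10))) (.n (.n (.b 3) (.n (.n (.b 3) (.n (.b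
  30) (.n (.n (.b 3) (.b 10)) (.b 4)))) (.b 9))) (.b 4)))) (.b 4)))) (.n (.n (.b 3) (.b 10)) (.b
  4)))) (.b 9))) (.b 4)))) (.b 4)))) (.n (.n (.b 3) (.b 10)) (.b 4)))) (.b 9))) (.b 4)))) (.b
  4)))) (.b 10))) (.n (.n (.b 3) (.n (.n (.b 3) (.n (.n (.b 3) (.n (.n (.b 3) (.b 8)) (.n (.n (.b
  3) (.n (.n (.b 3) (.n (.n (.b 3) (.n (.n (.b 3) (.b 8)) (.n (.n (.b 3) (.n (.n (.b 3) (.n (.n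
  (.b 3) (.n (.n (.b 3) (.b 8)) (.n (.n (.b 3) (.b 21)) (.b 4)))) (.b 10))) (.n (.n (.b 3) (.n (.n
  (.b 3) (.n (.n (.b 3) (.n (.n (.b 3) (.b 8)) (.n (.n (.b 3) (.n (.n (.b 3) (.n (.n (.b 3) (.n
  (.n (.b 3) (.b 8)) (.n (.n (.b 3) (.n (.n (.b 3) (.n (.n (.b 3) (.n (.n (.b 3) (.b 8)) (.n (.n
  (.b 3) (.b 21)) (.b 4)))) (.b 10))) (.n (.b 34) (.b 4)))) (.b 4)))) (.b 10))) (.n (.n (.b 3) (.n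
  (.n (.b 3) (.n (.n (.b 3) (.n (.n (.b 3) (.b 8)) (.n (.n (.b 3) (.n (.n (.b 3) (.n (.n (.b 3)
  (.n (.n (.b 3) (.b 8)) (.n (.n (.b 3) (.n (.n (.b 3) (.n (.n (.b 3) (.n (.n (.b 3) (.b 8)) (.n
  (.n (.b 3) (.b 21)) (.b 4)))) (.b 10))) (.n (.n (.b 3) (.n (.n (.b 3) (.n (.n (.b 3) (.n (.n (.b
  3) (.b 8)) (.n (.n (.b 3) (.n (.n (.b 3) (.n (.n (.b 3) (.n (.n (.b 3) (.b 8)) (.b 34))) (.b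
  10))) (.n (.n (.b 3) (.n (.n (.b 3) (.n (.n (.b 3) (.n (.n (.b 3) (.b 8)) (.n (.n (.b 3) (.n (.n
  (.b 3) (.n (.n (.b 3) (.n (.n (.b 3) (.b 8)) (.n (.n (.b 3) (.n (.n (.b 3) (.n (.n (.b 3) (.n
  (.n (.b 3) (.b 8)) (.n (.n (.b 3) (.b 21)) (.b 4)))) (.b 10))) (.n (.n (.b 3) (.n (.n (.b 3) (.n
  (.n (.b 3) (.n (.n (.b 3) (.b 8)) (.n (.n (.b 3) (.n (.n (.b 3) (.n (.n (.b 3) (.n (.n (.b 3)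
  (.b 8)) (.b 34))) (.b 10))) (.n (.n (.b 3) (.n (.n (.b 3) (.n (.n (.b 3) (.n (.n (.b 3) (.b 8))
  (.n (.n (.b 3) (.n (.n (.b 3) (.n (.n (.b 3) (.n (.n (.b 3) (.b 8)) (.n (.n (.b 3) (.n (.n (.b
  3) (.n (.n (.b 3) (.n (.n (.b 3) (.b 8)) (.n (.n (.b 3) (.b 21)) (.b 4)))) (.b 10))) (.n (.n (.b
  3) (.n (.b 81) (.b 9))) (.b 4)))) (.b 4)))) (.b 10))) (.n (.n (.b 3) (.n (.n (.b 3) (.n (.b 30)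
  (.n (.n (.b 3) (.b 10)) (.b 4)))) (.b 9))) (.b 4)))) (.b 4)))) (.n (.n (.b 3) (.b 10)) (.b 4))))
  (.b 9))) (.b 4)))) (.b 4)))) (.n (.n (.b 3) (.b 10)) (.b 4)))) (.b 9))) (.b 4)))) (.b 4)))) (.b
  10))) (.n (.n (.b 3) (.n (.n (.b 3) (.n (.b 30) (.n (.n (.b 3) (.b 10)) (.b 4)))) (.b 9))) (.b
  4)))) (.b 4)))) (.n (.n (.b 3) (.b 10)) (.b 4)))) (.b 9))) (.b 4)))) (.b 4)))) (.n (.n (.b 3)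
  (.b 10)) (.b 4)))) (.b 9))) (.b 4)))) (.b 4)))) (.b 10))) (.n (.n (.b 3) (.n (.n (.b 3) (.n (.b
  30) (.n (.n (.b 3) (.b 10)) (.b 4)))) (.b 9))) (.b 4)))) (.b 4)))) (.n (.n (.b 3) (.b 10)) (.b
  4)))) (.b 9))) (.b 4)))) (.b 4)))) (.n (.n (.b 3) (.b 10)) (.b 4)))) (.b 9))) (.b 4)))) (.b
  4)))) (.b 10))) (.n (.n (.b 3) (.n (.n (.b 3) (.n (.n (.b 3) (.n (.n (.b 3) (.b 8)) (.n (.n (.b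
  3) (.n (.n (.b 3) (.n (.n (.b 3) (.n (.n (.b 3) (.b 8)) (.n (.n (.b 3) (.n (.n (.b 3) (.n (.n
  (.b 3) (.n (.n (.b 3) (.b 8)) (.n (.n (.b 3) (.b 21)) (.b 4)))) (.b 10))) (.n (.n (.b 3) (.n (.n
  (.b 3) (.n (.n (.b 3) (.n (.n (.b 3) (.b 8)) (.n (.n (.b 3) (.n (.n (.b 3) (.n (.n (.b 3) (.n
  (.n (.b 3) (.b 8)) (.b 34))) (.b 10))) (.n (.n (.b 3) (.n (.n (.b 3) (.n (.n (.b 3) (.n (.n (.b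
  3) (.b 8)) (.n (.n (.b 3) (.n (.n (.b 3) (.n (.n (.b 3) (.n (.n (.b 3) (.b 8)) (.n (.n (.b 3)
  (.n (.n (.b 3) (.n (.n (.b 3) (.n (.n (.b 3) (.b 8)) (.n (.n (.b 3) (.b 21)) (.b 4)))) (.b 10)))
  (.n (.n (.b 3) (.n (.n (.b 3) (.n (.n (.b 3) (.n (.n (.b 3) (.b 8)) (.n (.n (.b 3) (.n (.n (.b
  3) (.n (.n (.b 3) (.n (.n (.b 3) (.b 8)) (.b 34))) (.b 10))) (.n (.n (.b 3) (.n (.n (.b 3) (.n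
  (.n (.b 3) (.n (.n (.b 3) (.b 8)) (.n (.n (.b 3) (.n (.n (.b 3) (.n (.n (.b 3) (.n (.n (.b 3)
  (.b 8)) (.n (.n (.b 3) (.n (.n (.b 3) (.n (.n (.b 3) (.n (.n (.b 3) (.b 8)) (.n (.n (.b 3) (.b
  21)) (.b 4)))) (.b 10))) (.n (.n (.b 3) (.n (.n (.b 3) (.n (.n (.b 3) (.n (.n (.b 3) (.b 8)) (.n
  (.n (.b 3) (.n (.n (.b 3) (.n (.n (.b 3) (.n (.n (.b 3) (.b 8)) (.b 34))) (.b 10))) (.n (.n (.b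
  3) (.n (.n (.b 3) (.n (.n (.b 3) (.n (.n (.b 3) (.b 8)) (.n (.n (.b 3) (.n (.b 81) (.n (.n (.b
  3) (.n (.n (.b 3) (.n (.b 30) (.n (.n (.b 3) (.b 10)) (.b 4)))) (.b 9))) (.b 4)))) (.b 4)))) (.n
  (.n (.b 3) (.b 10)) (.b 4)))) (.b 9))) (.b 4)))) (.b 4)))) (.n (.n (.b 3) (.b 10)) (.b 4)))) (.b
  9))) (.b 4)))) (.b 4)))) (.b 10))) (.n (.n (.b 3) (.n (.n (.b 3) (.n (.b 30) (.n (.n (.b 3) (.b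
  10)) (.b 4)))) (.b 9))) (.b 4)))) (.b 4)))) (.n (.n (.b 3) (.b 10)) (.b 4)))) (.b 9))) (.b 4))))
  (.b 4)))) (.n (.n (.b 3) (.b 10)) (.b 4)))) (.b 9))) (.b 4)))) (.b 4)))) (.b 10))) (.n (.n (.b
  3) (.n (.n (.b 3) (.n (.b 30) (.n (.n (.b 3) (.b 10)) (.b 4)))) (.b 9))) (.b 4)))) (.b 4)))) (.n
  (.n (.b 3) (.b 10)) (.b 4)))) (.b 9))) (.b 4)))) (.b 4)))) (.n (.n (.b 3) (.b 10)) (.b 4)))) (.b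
  9))) (.b 4)))) (.b 4)))) (.b 10))) (.n (.n (.b 3) (.n (.n (.b 3) (.n (.n (.b 3) (.n (.n (.b 3)
  (.b 8)) (.n (.n (.b 3) (.b 30)) (.b 4)))) (.n (.n (.b 3) (.b 10)) (.b 4)))) (.b 9))) (.b 4))))
  (.b 4)))) (.n (.n (.b 3) (.b 10)) (.b 4)))) (.b 9))) (.b 4)))) (.b 4)))) (.n (.n (.b 3) (.b 10))
  (.b 4)))) (.b 9))) (.b 4)))) (.b 4))

/-- A subtree of the table. -/
def s5 : T :=
  (.n (.n (.b 3) (.n (.n (.b 3) (.n (.n (.b 3) (.n (.n (.b 3) (.b 8)) (.n (.n (.b 3) (.n (.n (.b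
  3) (.n (.n (.b 3) (.n (.n (.b 3) (.b 8)) (.n (.n (.b 3) (.n (.n (.b 3) (.n (.n (.b 3) (.n (.n
  (.b 3) (.b 8)) (.n (.b 21) (.b 4)))) (.b 10))) (.n (.n (.b 3) (.n (.n (.b 3) (.n (.n (.b 3) (.n
  (.n (.b 3) (.b 8)) (.n (.n (.b 3) (.n (.n (.b 3) (.n (.n (.b 3) (.n (.n (.b 3) (.b 8)) (.n (.n
  (.b 3) (.n (.n (.b 3) (.n (.n (.b 3) (.n (.n (.b 3) (.b 8)) (.n (.n (.b 3) (.b 21)) (.b 4))))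
  (.b 10))) (.n (.n (.b 3) (.n (.n (.b 3) (.n (.n (.b 3) (.n (.n (.b 3) (.b 8)) (.b 34))) (.n (.n
  (.b 3) (.b 10)) (.b 4)))) (.b 9))) (.b 4)))) (.b 4)))) (.b 10))) (.n (.n (.b 3) (.n (.n (.b 3)
  (.n (.n (.b 3) (.n (.n (.b 3) (.b 8)) (.n (.n (.b 3) (.n (.n (.b 3) (.n (.n (.b 3) (.n (.n (.b
  3) (.b 8)) (.n (.n (.b 3) (.n (.n (.b 3) (.n (.n (.b 3) (.n (.n (.b 3) (.b 8)) (.n (.n (.b 3)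
  (.b 21)) (.b 4)))) (.b 10))) (.n (.n (.b 3) (.n (.n (.b 3) (.n (.n (.b 3) (.n (.n (.b 3) (.b 8))
  (.n (.n (.b 3) (.n (.n (.b 3) (.n (.n (.b 3) (.n (.n (.b 3) (.b 8)) (.b 34))) (.b 10))) (.n (.n
  (.b 3) (.n (.n (.b 3) (.n (.n (.b 3) (.n (.n (.b 3) (.b 8)) (.n (.n (.b 3) (.n (.n (.b 3) (.n
  (.n (.b 3) (.n (.n (.b 3) (.b 8)) (.n (.n (.b 3) (.n (.n (.b 3) (.n (.n (.b 3) (.n (.n (.b 3)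
  (.b 8)) (.n (.n (.b 3) (.b 21)) (.b 4)))) (.b 10))) (.n (.n (.b 3) (.n (.n (.b 3) (.n (.n (.b 3)
  (.n (.n (.b 3) (.b 8)) (.n (.n (.b 3) (.n (.n (.b 3) (.n (.n (.b 3) (.n (.n (.b 3) (.b 8)) (.b
  34))) (.b 10))) (.n (.n (.b 3) (.n (.n (.b 3) (.n (.n (.b 3) (.n (.n (.b 3) (.b 8)) (.n (.n (.b
  3) (.n (.n (.b 3) (.n (.n (.b 3) (.n (.n (.b 3) (.b 8)) (.n (.n (.b 3) (.n (.n (.b 3) (.n (.n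
  (.b 3) (.n (.n (.b 3) (.b 8)) (.n (.n (.b 3) (.b 21)) (.b 4)))) (.b 10))) (.n (.n (.b 3) (.n (.n
  (.b 3) (.n (.n (.b 3) (.n (.n (.b 3) (.b 8)) (.n (.n (.b 3) (.b 81)) (.b 4)))) (.n (.n (.b 3)
  (.b 10)) (.b 4)))) (.b 9))) (.b 4)))) (.b 4)))) (.b 10))) (.n (.n (.b 3) (.n (.n (.b 3) (.n (.b
  30) (.n (.n (.b 3) (.b 10)) (.b 4)))) (.b 9))) (.b 4)))) (.b 4)))) (.n (.n (.b 3) (.b 10)) (.b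
  4)))) (.b 9))) (.b 4)))) (.b 4)))) (.n (.n (.b 3) (.b 10)) (.b 4)))) (.b 9))) (.b 4)))) (.b
  4)))) (.b 10))) (.n (.n (.b 3) (.n (.n (.b 3) (.n (.b 30) (.n (.n (.b 3) (.b 10)) (.b 4)))) (.b
  9))) (.b 4)))) (.b 4)))) (.n (.n (.b 3) (.b 10)) (.b 4)))) (.b 9))) (.b 4)))) (.b 4)))) (.n (.n
  (.b 3) (.b 10)) (.b 4)))) (.b 9))) (.b 4)))) (.b 4)))) (.b 10))) (.n (.n (.b 3) (.n (.n (.b 3)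
  (.n (.b 30) (.n (.n (.b 3) (.b 10)) (.b 4)))) (.b 9))) (.b 4)))) (.b 4)))) (.n (.n (.b 3) (.b
  10)) (.b 4)))) (.b 9))) (.b 4)))) (.b 4)))) (.n (.n (.b 3) (.b 10)) (.b 4)))) (.b 9))) (.b 4))))
  (.b 4)))) (.b 10))) (.n (.n (.b 3) (.n (.n (.b 3) (.n (.n (.b 3) (.n (.n (.b 3) (.b 8)) (.n (.n
  (.b 3) (.n (.n (.b 3) (.n (.n (.b 3) (.n (.n (.b 3) (.b 8)) (.n (.n (.b 3) (.n (.n (.b 3) (.n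
  (.n (.b 3) (.n (.n (.b 3) (.b 8)) (.n (.n (.b 3) (.b 21)) (.b 4)))) (.b 10))) (.n (.n (.b 3) (.n
  (.n (.b 3) (.n (.n (.b 3) (.n (.n (.b 3) (.b 8)) (.n (.n (.b 3) (.n (.n (.b 3) (.n (.n (.b 3)
  (.b 34)) (.b 10))) (.n (.n (.b 3) (.n (.n (.b 3) (.n (.n (.b 3) (.n (.n (.b 3) (.b 8)) (.n (.n
  (.b 3) (.n (.n (.b 3) (.n (.n (.b 3) (.n (.n (.b 3) (.b 8)) (.n (.n (.b 3) (.n (.n (.b 3) (.n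
  (.n (.b 3) (.n (.n (.b 3) (.b 8)) (.n (.n (.b 3) (.b 21)) (.b 4)))) (.b 10))) (.n (.n (.b 3) (.n
  (.n (.b 3) (.n (.n (.b 3) (.n (.n (.b 3) (.b 8)) (.n (.n (.b 3) (.n (.n (.b 3) (.n (.n (.b 3)
  (.n (.n (.b 3) (.b 8)) (.b 34))) (.b 10))) (.n (.n (.b 3) (.n (.n (.b 3) (.n (.n (.b 3) (.n (.n
  (.b 3) (.b 8)) (.n (.n (.b 3) (.n (.n (.b 3) (.n (.n (.b 3) (.n (.n (.b 3) (.b 8)) (.n (.n (.b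
  3) (.n (.n (.b 3) (.n (.n (.b 3) (.n (.n (.b 3) (.b 8)) (.n (.n (.b 3) (.b 21)) (.b 4)))) (.b
  10))) (.n (.n (.b 3) (.n (.n (.b 3) (.n (.n (.b 3) (.n (.n (.b 3) (.b 8)) (.n (.n (.b 3) (.n (.n
  (.b 3) (.n (.n (.b 3) (.n (.n (.b 3) (.b 8)) (.b 34))) (.b 10))) (.n (.n (.b 3) (.n (.n (.b 3)
  (.n (.n (.b 3) (.n (.n (.b 3) (.b 8)) (.n (.n (.b 3) (.n (.n (.b 3) (.n (.n (.b 3) (.n (.n (.b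
  3) (.b 8)) (.n (.n (.b 3) (.b 81)) (.b 4)))) (.b 10))) (.n (.n (.b 3) (.n (.n (.b 3) (.n (.b 30)
  (.n (.n (.b 3) (.b 10)) (.b 4)))) (.b 9))) (.b 4)))) (.b 4)))) (.n (.n (.b 3) (.b 10)) (.b 4))))
  (.b 9))) (.b 4)))) (.b 4)))) (.n (.n (.b 3) (.b 10)) (.b 4)))) (.b 9))) (.b 4)))) (.b 4)))) (.b
  10))) (.n (.n (.b 3) (.n (.n (.b 3) (.n (.b 30) (.n (.n (.b 3) (.b 10)) (.b 4)))) (.b 9))) (.b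
  4)))) (.b 4)))) (.n (.n (.b 3) (.b 10)) (.b 4)))) (.b 9))) (.b 4)))) (.b 4)))) (.n (.n (.b 3)
  (.b 10)) (.b 4)))) (.b 9))) (.b 4)))) (.b 4)))) (.b 10))) (.n (.n (.b 3) (.n (.n (.b 3) (.n (.b
  30) (.n (.n (.b 3) (.b 10)) (.b 4)))) (.b 9))) (.b 4)))) (.b 4)))) (.n (.n (.b 3) (.b 10)) (.b
  4)))) (.b 9))) (.b 4)))) (.b 4)))) (.n (.n (.b 3) (.b 10)) (.b 4)))) (.b 9))) (.b 4)))) (.b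
  4)))) (.b 10))) (.n (.n (.b 3) (.n (.n (.b 3) (.n (.n (.b 3) (.n (.n (.b 3) (.b 8)) (.n (.n (.b
  3) (.n (.n (.b 3) (.n (.n (.b 3) (.n (.n (.b 3) (.b 8)) (.n (.n (.b 3) (.n (.n (.b 3) (.n (.n
  (.b 3) (.n (.n (.b 3) (.b 8)) (.n (.n (.b 3) (.b 21)) (.b 4)))) (.b 10))) (.n (.n (.b 3) (.n (.n
  (.b 3) (.n (.n (.b 3) (.n (.n (.b 3) (.b 8)) (.n (.n (.b 3) (.n (.n (.b 3) (.n (.n (.b 3) (.n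
  (.n (.b 3) (.b 8)) (.b 34))) (.b 10))) (.n (.n (.b 3) (.n (.n (.b 3) (.n (.n (.b 3) (.n (.n (.b
  3) (.b 8)) (.n (.n (.b 3) (.n (.n (.b 3) (.n (.n (.b 3) (.n (.n (.b 3) (.b 8)) (.n (.n (.b 3)
  (.n (.n (.b 3) (.n (.n (.b 3) (.n (.n (.b 3) (.b 8)) (.n (.n (.b 3) (.b 21)) (.b 4)))) (.b 10)))
  (.n (.n (.b 3) (.n (.n (.b 3) (.n (.n (.b 3) (.n (.n (.b 3) (.b 8)) (.n (.n (.b 3) (.n (.n (.b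
  3) (.n (.n (.b 3) (.n (.n (.b 3) (.b 8)) (.b 34))) (.b 10))) (.n (.n (.b 3) (.n (.n (.b 3) (.n
  (.n (.b 3) (.n (.n (.b 3) (.b 8)) (.n (.n (.b 3) (.n (.n (.b 3) (.n (.n (.b 3) (.n (.n (.b 3)
  (.b 8)) (.n (.n (.b 3) (.n (.n (.b 3) (.n (.n (.b 3) (.n (.n (.b 3) (.b 8)) (.n (.n (.b 3) (.b
  21)) (.b 4)))) (.b 10))) (.n (.n (.b 3) (.n (.n (.b 3) (.n (.n (.b 3) (.n (.n (.b 3) (.b 8)) (.n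
  (.n (.b 3) (.n (.n (.b 3) (.n (.n (.b 3) (.n (.n (.b 3) (.b 8)) (.b 34))) (.b 10))) (.n (.n (.b
  3) (.n (.n (.b 3) (.n (.b 81) (.n (.n (.b 3) (.b 10)) (.b 4)))) (.b 9))) (.b 4)))) (.b 4)))) (.n
  (.n (.b 3) (.b 10)) (.b 4)))) (.b 9))) (.b 4)))) (.b 4)))) (.b 10))) (.n (.n (.b 3) (.n (.n (.b
  3) (.n (.b 30) (.n (.n (.b 3) (.b 10)) (.b 4)))) (.b 9))) (.b 4)))) (.b 4)))) (.n (.n (.b 3) (.b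
  10)) (.b 4)))) (.b 9))) (.b 4)))) (.b 4)))) (.n (.n (.b 3) (.b 10)) (.b 4)))) (.b 9))) (.b 4))))
  (.b 4)))) (.b 10))) (.n (.n (.b 3) (.n (.n (.b 3) (.n (.b 30) (.n (.n (.b 3) (.b 10)) (.b 4))))
  (.b 9))) (.b 4)))) (.b 4)))) (.n (.n (.b 3) (.b 10)) (.b 4)))) (.b 9))) (.b 4)))) (.b 4)))) (.n
  (.n (.b 3) (.b 10)) (.b 4)))) (.b 9))) (.b 4)))) (.b 4)))) (.b 10))) (.n (.n (.b 3) (.n (.n (.b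
  3) (.n (.b 30) (.n (.n (.b 3) (.b 10)) (.b 4)))) (.b 9))) (.b 4)))) (.b 4)))) (.n (.n (.b 3) (.b
  10)) (.b 4)))) (.b 9))) (.b 4)))) (.b 4)))) (.n (.n (.b 3) (.b 10)) (.b 4)))) (.b 9))) (.b 4))))
  (.b 4)))) (.n (.b 10) (.b 4)))) (.n (.n (.b 3) (.n (.n (.b 3) (.n (.n (.b 3) (.n (.n (.b 3) (.b
  8)) (.n (.n (.b 3) (.n (.n (.b 3) (.n (.n (.b 3) (.n (.n (.b 3) (.b 8)) (.n (.n (.b 3) (.n (.n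
  (.b 3) (.n (.n (.b 3) (.n (.n (.b 3) (.b 8)) (.n (.n (.b 3) (.b 21)) (.b 4)))) (.b 10))) (.n (.n
  (.b 3) (.n (.n (.b 3) (.n (.n (.b 3) (.n (.n (.b 3) (.b 8)) (.n (.n (.b 3) (.n (.n (.b 3) (.n
  (.n (.b 3) (.n (.n (.b 3) (.b 8)) (.n (.n (.b 3) (.n (.n (.b 3) (.n (.n (.b 3) (.n (.n (.b 3)
  (.b 8)) (.n (.n (.b 3) (.b 21)) (.b 4)))) (.b 10))) (.n (.n (.b 3) (.n (.b 34) (.b 9))) (.b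
  4)))) (.b 4)))) (.b 10))) (.n (.n (.b 3) (.n (.n (.b 3) (.n (.n (.b 3) (.n (.n (.b 3) (.b 8))
  (.n (.n (.b 3) (.n (.n (.b 3) (.n (.n (.b 3) (.n (.n (.b 3) (.b 8)) (.n (.n (.b 3) (.n (.n (.b
  3) (.n (.n (.b 3) (.n (.n (.b 3) (.b 8)) (.n (.n (.b 3) (.b 21)) (.b 4)))) (.b 10))) (.n (.n (.b
  3) (.n (.n (.b 3) (.n (.n (.b 3) (.n (.n (.b 3) (.b 8)) (.n (.n (.b 3) (.n (.n (.b 3) (.n (.n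
  (.b 3) (.n (.n (.b 3) (.b 8)) (.b 34))) (.b 10))) (.n (.n (.b 3) (.n (.n (.b 3) (.n (.n (.b 3)
  (.n (.n (.b 3) (.b 8)) (.n (.n (.b 3) (.n (.n (.b 3) (.n (.n (.b 3) (.n (.n (.b 3) (.b 8)) (.n
  (.n (.b 3) (.n (.n (.b 3) (.n (.n (.b 3) (.n (.n (.b 3) (.b 8)) (.n (.n (.b 3) (.b 21)) (.b
  4)))) (.b 10))) (.n (.n (.b 3) (.n (.n (.b 3) (.n (.n (.b 3) (.n (.n (.b 3) (.b 8)) (.n (.n (.b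
  3) (.n (.n (.b 3) (.n (.n (.b 3) (.n (.n (.b 3) (.b 8)) (.b 34))) (.b 10))) (.n (.n (.b 3) (.n
  (.n (.b 3) (.n (.n (.b 3) (.n (.n (.b 3) (.b 8)) (.n (.n (.b 3) (.n (.n (.b 3) (.n (.n (.b 3)
  (.n (.n (.b 3) (.b 8)) (.n (.n (.b 3) (.n (.n (.b 3) (.n (.n (.b 3) (.n (.n (.b 3) (.b 8)) (.n
  (.n (.b 3) (.b 21)) (.b 4)))) (.b 10))) (.n (.n (.b 3) (.n (.n (.b 3) (.n (.b 81) (.n (.n (.b 3)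
  (.b 10)) (.b 4)))) (.b 9))) (.b 4)))) (.b 4)))) (.b 10))) (.n (.n (.b 3) (.n (.n (.b 3) (.n (.b
  30) (.n (.n (.b 3) (.b 10)) (.b 4)))) (.b 9))) (.b 4)))) (.b 4)))) (.n (.n (.b 3) (.b 10)) (.b
  4)))) (.b 9))) (.b 4)))) (.b 4)))) (.n (.n (.b 3) (.b 10)) (.b 4)))) (.b 9))) (.b 4)))) (.b
  4)))) (.b 10))) (.n (.n (.b 3) (.n (.n (.b 3) (.n (.b 30) (.n (.n (.b 3) (.b 10)) (.b 4)))) (.b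
  9))) (.b 4)))) (.b 4)))) (.n (.n (.b 3) (.b 10)) (.b 4)))) (.b 9))) (.b 4)))) (.b 4)))) (.n (.n
  (.b 3) (.b 10)) (.b 4)))) (.b 9))) (.b 4)))) (.b 4)))) (.b 10))) (.n (.n (.b 3) (.n (.n (.b 3)
  (.n (.b 30) (.n (.n (.b 3) (.b 10)) (.b 4)))) (.b 9))) (.b 4)))) (.b 4)))) (.n (.n (.b 3) (.b
  10)) (.b 4)))) (.b 9))) (.b 4)))) (.b 4)))) (.n (.n (.b 3) (.b 10)) (.b 4)))) (.b 9))) (.b 4))))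
  (.b 4)))) (.b 10))) (.n (.n (.b 3) (.n (.n (.b 3) (.n (.n (.b 3) (.n (.n (.b 3) (.b 8)) (.n (.n
  (.b 3) (.n (.n (.b 3) (.n (.n (.b 3) (.n (.n (.b 3) (.b 8)) (.n (.n (.b 3) (.n (.n (.b 3) (.n
  (.n (.b 3) (.n (.n (.b 3) (.b 8)) (.n (.n (.b 3) (.b 21)) (.b 4)))) (.b 10))) (.n (.n (.b 3) (.n
  (.n (.b 3) (.n (.n (.b 3) (.n (.n (.b 3) (.b 8)) (.n (.n (.b 3) (.n (.n (.b 3) (.n (.n (.b 3)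
  (.n (.n (.b 3) (.b 8)) (.b 34))) (.b 10))) (.n (.n (.b 3) (.n (.n (.b 3) (.n (.n (.b 3) (.n (.n
  (.b 3) (.b 8)) (.n (.n (.b 3) (.n (.n (.b 3) (.n (.n (.b 3) (.n (.n (.b 3) (.b 8)) (.n (.n (.b
  3) (.n (.n (.b 3) (.n (.n (.b 3) (.n (.n (.b 3) (.b 8)) (.n (.n (.b 3) (.b 21)) (.b 4)))) (.b
  10))) (.n (.n (.b 3) (.n (.n (.b 3) (.n (.n (.b 3) (.n (.n (.b 3) (.b 8)) (.n (.n (.b 3) (.n (.n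
  (.b 3) (.n (.n (.b 3) (.n (.n (.b 3) (.b 8)) (.b 34))) (.b 10))) (.n (.n (.b 3) (.n (.n (.b 3)
  (.n (.n (.b 3) (.n (.n (.b 3) (.b 8)) (.n (.n (.b 3) (.n (.n (.b 3) (.n (.n (.b 3) (.n (.n (.b
  3) (.b 8)) (.n (.n (.b 3) (.n (.n (.b 3) (.n (.n (.b 3) (.n (.n (.b 3) (.b 8)) (.n (.n (.b 3)
  (.b 21)) (.b 4)))) (.b 10))) (.n (.n (.b 3) (.n (.n (.b 3) (.n (.n (.b 3) (.n (.n (.b 3) (.b 8))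
  (.n (.n (.b 3) (.n (.n (.b 3) (.n (.n (.b 3) (.n (.n (.b 3) (.b 8)) (.b 34))) (.b 10))) (.n (.n
  (.b 3) (.n (.n (.b 3) (.n (.n (.b 3) (.n (.n (.b 3) (.b 8)) (.n (.n (.b 3) (.n (.n (.b 3) (.n
  (.b 81) (.b 10))) (.n (.n (.b 3) (.n (.n (.b 3) (.n (.b 30) (.n (.n (.b 3) (.b 10)) (.b 4))))
  (.b 9))) (.b 4)))) (.b 4)))) (.n (.n (.b 3) (.b 10)) (.b 4)))) (.b 9))) (.b 4)))) (.b 4)))) (.n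
  (.n (.b 3) (.b 10)) (.b 4)))) (.b 9))) (.b 4)))) (.b 4)))) (.b 10))) (.n (.n (.b 3) (.n (.n (.b
  3) (.n (.b 30) (.n (.n (.b 3) (.b 10)) (.b 4)))) (.b 9))) (.b 4)))) (.b 4)))) (.n (.n (.b 3) (.b
  10)) (.b 4)))) (.b 9))) (.b 4)))) (.b 4)))) (.n (.n (.b 3) (.b 10)) (.b 4)))) (.b 9))) (.b 4))))
  (.b 4)))) (.b 10))) (.n (.n (.b 3) (.n (.n (.b 3) (.n (.b 30) (.n (.n (.b 3) (.b 10)) (.b 4))))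
  (.b 9))) (.b 4)))) (.b 4)))) (.n (.n (.b 3) (.b 10)) (.b 4)))) (.b 9))) (.b 4)))) (.b 4)))) (.n
  (.n (.b 3) (.b 10)) (.b 4)))) (.b 9))) (.b 4)))) (.b 4)))) (.b 10))) (.n (.n (.b 3) (.n (.n (.b
  3) (.n (.n (.b 3) (.n (.n (.b 3) (.b 8)) (.n (.n (.b 3) (.n (.n (.b 3) (.n (.n (.b 3) (.n (.n
  (.b 3) (.b 8)) (.n (.n (.b 3) (.n (.n (.b 3) (.n (.n (.b 3) (.n (.n (.b 3) (.b 8)) (.n (.n (.b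
  3) (.b 21)) (.b 4)))) (.b 10))) (.n (.n (.b 3) (.n (.n (.b 3) (.n (.n (.b 3) (.n (.n (.b 3) (.b
  8)) (.n (.n (.b 3) (.n (.n (.b 3) (.n (.n (.b 3) (.n (.n (.b 3) (.b 8)) (.b 34))) (.b 10))) (.n
  (.n (.b 3) (.n (.n (.b 3) (.n (.n (.b 3) (.n (.n (.b 3) (.b 8)) (.n (.n (.b 3) (.n (.n (.b 3)
  (.n (.n (.b 3) (.n (.n (.b 3) (.b 8)) (.n (.n (.b 3) (.n (.n (.b 3) (.n (.n (.b 3) (.n (.n (.b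
  3) (.b 8)) (.n (.n (.b 3) (.b 21)) (.b 4)))) (.b 10))) (.n (.n (.b 3) (.n (.n (.b 3) (.n (.n (.b
  3) (.n (.n (.b 3) (.b 8)) (.n (.n (.b 3) (.n (.n (.b 3) (.n (.n (.b 3) (.n (.n (.b 3) (.b 8))
  (.b 34))) (.b 10))) (.n (.n (.b 3) (.n (.n (.b 3) (.n (.n (.b 3) (.n (.n (.b 3) (.b 8)) (.n (.n
  (.b 3) (.n (.n (.b 3) (.n (.n (.b 3) (.n (.n (.b 3) (.b 8)) (.n (.n (.b 3) (.n (.n (.b 3) (.n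
  (.n (.b 3) (.n (.n (.b 3) (.b 8)) (.n (.n (.b 3) (.b 21)) (.b 4)))) (.b 10))) (.n (.n (.b 3) (.n
  (.n (.b 3) (.n (.n (.b 3) (.n (.n (.b 3) (.b 8)) (.n (.n (.b 3) (.n (.n (.b 3) (.n (.n (.b 3)
  (.n (.n (.b 3) (.b 8)) (.b 34))) (.b 10))) (.n (.n (.b 3) (.n (.n (.b 3) (.n (.n (.b 3) (.b 81))
  (.n (.n (.b 3) (.b 10)) (.b 4)))) (.b 9))) (.b 4)))) (.b 4)))) (.n (.n (.b 3) (.b 10)) (.b 4))))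
  (.b 9))) (.b 4)))) (.b 4)))) (.b 10))) (.n (.n (.b 3) (.n (.n (.b 3) (.n (.b 30) (.n (.n (.b 3)
  (.b 10)) (.b 4)))) (.b 9))) (.b 4)))) (.b 4)))) (.n (.n (.b 3) (.b 10)) (.b 4)))) (.b 9))) (.b
  4)))) (.b 4)))) (.n (.n (.b 3) (.b 10)) (.b 4)))) (.b 9))) (.b 4)))) (.b 4)))) (.b 10))) (.n (.n
  (.b 3) (.n (.n (.b 3) (.n (.b 30) (.n (.n (.b 3) (.b 10)) (.b 4)))) (.b 9))) (.b 4)))) (.b 4))))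
  (.n (.n (.b 3) (.b 10)) (.b 4)))) (.b 9))) (.b 4)))) (.b 4)))) (.n (.n (.b 3) (.b 10)) (.b 4))))
  (.b 9))) (.b 4)))) (.b 4)))) (.b 10))) (.n (.b 30) (.b 4)))) (.b 4)))) (.n (.n (.b 3) (.b 10))
  (.b 4)))) (.b 9))) (.b 4)))) (.b 4)))) (.n (.n (.b 3) (.b 10)) (.b 4)))) (.b 9))) (.b 4)))) (.b
  4)))) (.n (.n (.b 3) (.b 10)) (.b 4)))) (.b 9))) (.b 4)))) (.b 4))

/-- A subtree of the table. -/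
def s6 : T :=
  (.b 3)

/-- A subtree of the table. -/
def s7 : T :=
  (.n (.b 3) (.n (.n (.b 3) (.n (.n (.b 3) (.b 8)) (.n (.n (.b 3) (.n (.n (.b 3) (.n (.n (.b 3)
  (.n (.n (.b 3) (.b 8)) (.n (.n (.b 3) (.n (.n (.b 3) (.n (.n (.b 3) (.n (.n (.b 3) (.b 8)) (.n
  (.n (.b 3) (.n (.b 21) (.n (.n (.b 3) (.n (.n (.b 3) (.n (.n (.b 3) (.n (.n (.b 3) (.b 8)) (.n
  (.n (.b 3) (.n (.n (.b 3) (.n (.n (.b 3) (.n (.n (.b 3) (.b 8)) (.n (.n (.b 3) (.n (.n (.b 3)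
  (.n (.n (.b 3) (.n (.n (.b 3) (.b 8)) (.n (.n (.b 3) (.b 21)) (.b 4)))) (.b 10))) (.n (.n (.b 3)
  (.n (.n (.b 3) (.n (.n (.b 3) (.n (.n (.b 3) (.b 8)) (.b 34))) (.n (.n (.b 3) (.b 10)) (.b 4))))
  (.b 9))) (.b 4)))) (.b 4)))) (.b 10))) (.n (.n (.b 3) (.n (.n (.b 3) (.n (.n (.b 3) (.n (.n (.b
  3) (.b 8)) (.n (.n (.b 3) (.n (.n (.b 3) (.n (.n (.b 3) (.n (.n (.b 3) (.b 8)) (.n (.n (.b 3)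
  (.n (.n (.b 3) (.n (.n (.b 3) (.n (.n (.b 3) (.b 8)) (.n (.n (.b 3) (.b 21)) (.b 4)))) (.b 10)))
  (.n (.n (.b 3) (.n (.n (.b 3) (.n (.n (.b 3) (.n (.n (.b 3) (.b 8)) (.n (.n (.b 3) (.n (.n (.b
  3) (.n (.n (.b 3) (.n (.n (.b 3) (.b 8)) (.b 34))) (.b 10))) (.n (.n (.b 3) (.n (.n (.b 3) (.n
  (.n (.b 3) (.n (.n (.b 3) (.b 8)) (.n (.n (.b 3) (.n (.n (.b 3) (.n (.n (.b 3) (.n (.n (.b 3)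
  (.b 8)) (.n (.n (.b 3) (.n (.n (.b 3) (.n (.n (.b 3) (.n (.n (.b 3) (.b 8)) (.n (.n (.b 3) (.b
  21)) (.b 4)))) (.b 10))) (.n (.n (.b 3) (.n (.n (.b 3) (.n (.n (.b 3) (.n (.n (.b 3) (.b 8)) (.n
  (.n (.b 3) (.n (.n (.b 3) (.n (.n (.b 3) (.n (.n (.b 3) (.b 8)) (.b 34))) (.b 10))) (.n (.n (.b
  3) (.n (.n (.b 3) (.n (.n (.b 3) (.n (.n (.b 3) (.b 8)) (.n (.n (.b 3) (.n (.n (.b 3) (.n (.n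
  (.b 3) (.n (.n (.b 3) (.b 8)) (.n (.n (.b 3) (.n (.n (.b 3) (.n (.n (.b 3) (.n (.n (.b 3) (.b
  8)) (.n (.n (.b 3) (.b 21)) (.b 4)))) (.b 10))) (.n (.n (.b 3) (.n (.n (.b 3) (.n (.n (.b 3) (.n
  (.n (.b 3) (.b 8)) (.n (.n (.b 3) (.b 81)) (.b 4)))) (.n (.n (.b 3) (.b 10)) (.b 4)))) (.b 9)))
  (.b 4)))) (.b 4)))) (.b 10))) (.n (.n (.b 3) (.n (.n (.b 3) (.n (.b 30) (.n (.n (.b 3) (.b 10))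
  (.b 4)))) (.b 9))) (.b 4)))) (.b 4)))) (.n (.n (.b 3) (.b 10)) (.b 4)))) (.b 9))) (.b 4)))) (.b
  4)))) (.n (.n (.b 3) (.b 10)) (.b 4)))) (.b 9))) (.b 4)))) (.b 4)))) (.b 10))) (.n (.n (.b 3)
  (.n (.n (.b 3) (.n (.b 30) (.n (.n (.b 3) (.b 10)) (.b 4)))) (.b 9))) (.b 4)))) (.b 4)))) (.n
  (.n (.b 3) (.b 10)) (.b 4)))) (.b 9))) (.b 4)))) (.b 4)))) (.n (.n (.b 3) (.b 10)) (.b 4)))) (.b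
  9))) (.b 4)))) (.b 4)))) (.b 10))) (.n (.n (.b 3) (.n (.n (.b 3) (.n (.b 30) (.n (.n (.b 3) (.b
  10)) (.b 4)))) (.b 9))) (.b 4)))) (.b 4)))) (.n (.n (.b 3) (.b 10)) (.b 4)))) (.b 9))) (.b 4))))
  (.b 4)))) (.n (.n (.b 3) (.b 10)) (.b 4)))) (.b 9))) (.b 4)))) (.b 4)))) (.b 10))) (.n (.n (.b
  3) (.n (.n (.b 3) (.n (.n (.b 3) (.n (.n (.b 3) (.b 8)) (.n (.n (.b 3) (.n (.n (.b 3) (.n (.n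
  (.b 3) (.n (.n (.b 3) (.b 8)) (.n (.n (.b 3) (.n (.n (.b 3) (.n (.n (.b 3) (.n (.n (.b 3) (.b
  8)) (.n (.n (.b 3) (.b 21)) (.b 4)))) (.b 10))) (.n (.n (.b 3) (.n (.n (.b 3) (.n (.n (.b 3) (.n
  (.n (.b 3) (.b 8)) (.n (.b 34) (.b 4)))) (.n (.n (.b 3) (.b 10)) (.b 4)))) (.b 9))) (.b 4))))
  (.b 4)))) (.b 10))) (.n (.n (.b 3) (.n (.n (.b 3) (.n (.n (.b 3) (.n (.n (.b 3) (.b 8)) (.n (.n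
  (.b 3) (.n (.n (.b 3) (.n (.n (.b 3) (.n (.n (.b 3) (.b 8)) (.n (.n (.b 3) (.n (.n (.b 3) (.n
  (.n (.b 3) (.n (.n (.b 3) (.b 8)) (.n (.n (.b 3) (.b 21)) (.b 4)))) (.b 10))) (.n (.n (.b 3) (.n
  (.n (.b 3) (.n (.n (.b 3) (.n (.n (.b 3) (.b 8)) (.n (.n (.b 3) (.n (.n (.b 3) (.n (.n (.b 3)
  (.n (.n (.b 3) (.b 8)) (.b 34))) (.b 10))) (.n (.n (.b 3) (.n (.n (.b 3) (.n (.n (.b 3) (.n (.n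
  (.b 3) (.b 8)) (.n (.n (.b 3) (.n (.n (.b 3) (.n (.n (.b 3) (.n (.n (.b 3) (.b 8)) (.n (.n (.b
  3) (.n (.n (.b 3) (.n (.n (.b 3) (.n (.n (.b 3) (.b 8)) (.n (.n (.b 3) (.b 21)) (.b 4)))) (.b
  10))) (.n (.n (.b 3) (.n (.n (.b 3) (.n (.n (.b 3) (.n (.n (.b 3) (.b 8)) (.n (.n (.b 3) (.n (.n
  (.b 3) (.n (.n (.b 3) (.n (.n (.b 3) (.b 8)) (.b 34))) (.b 10))) (.n (.n (.b 3) (.n (.n (.b 3)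
  (.n (.n (.b 3) (.n (.n (.b 3) (.b 8)) (.n (.n (.b 3) (.n (.n (.b 3) (.n (.n (.b 3) (.n (.n (.b
  3) (.b 8)) (.n (.n (.b 3) (.n (.n (.b 3) (.n (.n (.b 3) (.n (.n (.b 3) (.b 8)) (.n (.n (.b 3)
  (.b 21)) (.b 4)))) (.b 10))) (.n (.n (.b 3) (.n (.n (.b 3) (.n (.n (.b 3) (.n (.n (.b 3) (.b 8))
  (.n (.n (.b 3) (.n (.n (.b 3) (.n (.n (.b 3) (.n (.n (.b 3) (.b 8)) (.b 34))) (.b 10))) (.b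
  81))) (.b 4)))) (.n (.n (.b 3) (.b 10)) (.b 4)))) (.b 9))) (.b 4)))) (.b 4)))) (.b 10))) (.n (.n
  (.b 3) (.n (.n (.b 3) (.n (.b 30) (.n (.n (.b 3) (.b 10)) (.b 4)))) (.b 9))) (.b 4)))) (.b 4))))
  (.n (.n (.b 3) (.b 10)) (.b 4)))) (.b 9))) (.b 4)))) (.b 4)))) (.n (.n (.b 3) (.b 10)) (.b 4))))
  (.b 9))) (.b 4)))) (.b 4)))) (.b 10))) (.n (.n (.b 3) (.n (.n (.b 3) (.n (.b 30) (.n (.n (.b 3)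
  (.b 10)) (.b 4)))) (.b 9))) (.b 4)))) (.b 4)))) (.n (.n (.b 3) (.b 10)) (.b 4)))) (.b 9))) (.b
  4)))) (.b 4)))) (.n (.n (.b 3) (.b 10)) (.b 4)))) (.b 9))) (.b 4)))) (.b 4)))) (.b 10))) (.n (.n
  (.b 3) (.n (.n (.b 3) (.n (.b 30) (.n (.n (.b 3) (.b 10)) (.b 4)))) (.b 9))) (.b 4)))) (.b 4))))
  (.n (.n (.b 3) (.b 10)) (.b 4)))) (.b 9))) (.b 4)))) (.b 4)))) (.n (.n (.b 3) (.b 10)) (.b 4))))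
  (.b 9))) (.b 4)))) (.b 4)))) (.b 10))) (.n (.n (.b 3) (.n (.n (.b 3) (.n (.n (.b 3) (.n (.n (.b
  3) (.b 8)) (.n (.n (.b 3) (.n (.n (.b 3) (.n (.n (.b 3) (.n (.n (.b 3) (.b 8)) (.n (.n (.b 3)
  (.n (.n (.b 3) (.n (.n (.b 3) (.n (.n (.b 3) (.b 8)) (.n (.n (.b 3) (.b 21)) (.b 4)))) (.b 10)))
  (.n (.n (.b 3) (.n (.n (.b 3) (.n (.n (.b 3) (.n (.n (.b 3) (.b 8)) (.n (.n (.b 3) (.n (.n (.b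
  3) (.n (.n (.b 3) (.n (.n (.b 3) (.b 8)) (.n (.b 34) (.b 4)))) (.b 10))) (.n (.n (.b 3) (.n (.n
  (.b 3) (.n (.n (.b 3) (.n (.n (.b 3) (.b 8)) (.n (.n (.b 3) (.n (.n (.b 3) (.n (.n (.b 3) (.n
  (.n (.b 3) (.b 8)) (.n (.n (.b 3) (.n (.n (.b 3) (.n (.n (.b 3) (.n (.n (.b 3) (.b 8)) (.n (.n
  (.b 3) (.b 21)) (.b 4)))) (.b 10))) (.n (.n (.b 3) (.n (.n (.b 3) (.n (.n (.b 3) (.n (.n (.b 3)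
  (.b 8)) (.n (.n (.b 3) (.n (.n (.b 3) (.n (.n (.b 3) (.n (.n (.b 3) (.b 8)) (.b 34))) (.b 10)))
  (.n (.n (.b 3) (.n (.n (.b 3) (.n (.n (.b 3) (.n (.n (.b 3) (.b 8)) (.n (.n (.b 3) (.n (.n (.b
  3) (.n (.n (.b 3) (.n (.n (.b 3) (.b 8)) (.n (.n (.b 3) (.n (.n (.b 3) (.n (.n (.b 3) (.n (.n
  (.b 3) (.b 8)) (.n (.n (.b 3) (.b 21)) (.b 4)))) (.b 10))) (.n (.n (.b 3) (.n (.n (.b 3) (.n (.n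
  (.b 3) (.n (.n (.b 3) (.b 8)) (.n (.n (.b 3) (.n (.n (.b 3) (.n (.n (.b 3) (.n (.n (.b 3) (.b
  8)) (.b 34))) (.b 10))) (.n (.n (.b 3) (.n (.n (.b 3) (.n (.n (.b 3) (.n (.n (.b 3) (.b 8)) (.n
  (.n (.b 3) (.n (.n (.b 3) (.n (.n (.b 3) (.n (.n (.b 3) (.b 8)) (.n (.n (.b 3) (.n (.n (.b 3)
  (.n (.n (.b 3) (.n (.n (.b 3) (.b 8)) (.n (.n (.b 3) (.b 21)) (.b 4)))) (.b 10))) (.b 81))) (.b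
  4)))) (.b 10))) (.n (.n (.b 3) (.n (.n (.b 3) (.n (.b 30) (.n (.n (.b 3) (.b 10)) (.b 4)))) (.b
  9))) (.b 4)))) (.b 4)))) (.n (.n (.b 3) (.b 10)) (.b 4)))) (.b 9))) (.b 4)))) (.b 4)))) (.n (.n
  (.b 3) (.b 10)) (.b 4)))) (.b 9))) (.b 4)))) (.b 4)))) (.b 10))) (.n (.n (.b 3) (.n (.n (.b 3)
  (.n (.b 30) (.n (.n (.b 3) (.b 10)) (.b 4)))) (.b 9))) (.b 4)))) (.b 4)))) (.n (.n (.b 3) (.b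
  10)) (.b 4)))) (.b 9))) (.b 4)))) (.b 4)))) (.n (.n (.b 3) (.b 10)) (.b 4)))) (.b 9))) (.b 4))))
  (.b 4)))) (.b 10))) (.n (.n (.b 3) (.n (.n (.b 3) (.n (.b 30) (.n (.n (.b 3) (.b 10)) (.b 4))))
  (.b 9))) (.b 4)))) (.b 4)))) (.n (.n (.b 3) (.b 10)) (.b 4)))) (.b 9))) (.b 4)))) (.b 4)))) (.n
  (.n (.b 3) (.b 10)) (.b 4)))) (.b 9))) (.b 4)))) (.b 4)))) (.b 10))) (.n (.n (.b 3) (.n (.n (.b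
  3) (.n (.n (.b 3) (.n (.n (.b 3) (.b 8)) (.n (.n (.b 3) (.n (.n (.b 3) (.n (.n (.b 3) (.n (.n
  (.b 3) (.b 8)) (.n (.n (.b 3) (.n (.n (.b 3) (.n (.n (.b 3) (.n (.n (.b 3) (.b 8)) (.n (.n (.b
  3) (.b 21)) (.b 4)))) (.b 10))) (.n (.n (.b 3) (.n (.n (.b 3) (.n (.n (.b 3) (.n (.n (.b 3) (.b
  8)) (.n (.n (.b 3) (.n (.n (.b 3) (.n (.n (.b 3) (.n (.n (.b 3) (.b 8)) (.b 34))) (.b 10))) (.n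
  (.n (.b 3) (.n (.n (.b 3) (.n (.n (.b 3) (.n (.n (.b 3) (.b 8)) (.n (.n (.b 3) (.n (.n (.b 3)
  (.n (.n (.b 3) (.n (.n (.b 3) (.b 8)) (.n (.n (.b 3) (.n (.n (.b 3) (.n (.n (.b 3) (.n (.n (.b
  3) (.b 8)) (.n (.n (.b 3) (.b 21)) (.b 4)))) (.b 10))) (.n (.n (.b 3) (.n (.n (.b 3) (.n (.n (.b
  3) (.n (.n (.b 3) (.b 8)) (.n (.n (.b 3) (.n (.n (.b 3) (.n (.n (.b 3) (.n (.n (.b 3) (.b 8))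
  (.b 34))) (.b 10))) (.n (.n (.b 3) (.n (.n (.b 3) (.n (.n (.b 3) (.n (.n (.b 3) (.b 8)) (.n (.n
  (.b 3) (.n (.n (.b 3) (.n (.n (.b 3) (.n (.n (.b 3) (.b 8)) (.n (.n (.b 3) (.n (.n (.b 3) (.n
  (.n (.b 3) (.n (.n (.b 3) (.b 8)) (.n (.n (.b 3) (.b 21)) (.b 4)))) (.b 10))) (.n (.n (.b 3) (.n
  (.n (.b 3) (.n (.n (.b 3) (.n (.n (.b 3) (.b 8)) (.n (.n (.b 3) (.n (.n (.b 3) (.n (.n (.b 3)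
  (.n (.n (.b 3) (.b 8)) (.b 34))) (.b 10))) (.n (.n (.b 3) (.n (.n (.b 3) (.n (.n (.b 3) (.n (.n
  (.b 3) (.b 8)) (.b 81))) (.n (.n (.b 3) (.b 10)) (.b 4)))) (.b 9))) (.b 4)))) (.b 4)))) (.n (.n
  (.b 3) (.b 10)) (.b 4)))) (.b 9))) (.b 4)))) (.b 4)))) (.b 10))) (.n (.n (.b 3) (.n (.n (.b 3)
  (.n (.b 30) (.n (.n (.b 3) (.b 10)) (.b 4)))) (.b 9))) (.b 4)))) (.b 4)))) (.n (.n (.b 3) (.b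
  10)) (.b 4)))) (.b 9))) (.b 4)))) (.b 4)))) (.n (.n (.b 3) (.b 10)) (.b 4)))) (.b 9))) (.b 4))))
  (.b 4)))) (.b 10))) (.n (.n (.b 3) (.n (.n (.b 3) (.n (.b 30) (.n (.n (.b 3) (.b 10)) (.b 4))))
  (.b 9))) (.b 4)))) (.b 4)))) (.n (.n (.b 3) (.b 10)) (.b 4)))) (.b 9))) (.b 4)))) (.b 4)))) (.n
  (.n (.b 3) (.b 10)) (.b 4)))) (.b 9))) (.b 4)))) (.b 4)))) (.b 10))) (.n (.n (.b 3) (.n (.n (.b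
  3) (.n (.n (.b 3) (.b 30)) (.n (.n (.b 3) (.b 10)) (.b 4)))) (.b 9))) (.b 4)))) (.b 4)))) (.n
  (.n (.b 3) (.b 10)) (.b 4)))) (.b 9))) (.b 4)))) (.b 4)))) (.n (.n (.b 3) (.b 10)) (.b 4)))) (.b
  9))) (.b 4)))) (.b 4)))) (.n (.n (.b 3) (.n (.b 10) (.n (.n (.b 3) (.n (.n (.b 3) (.n (.n (.b 3)
  (.n (.n (.b 3) (.b 8)) (.n (.n (.b 3) (.n (.n (.b 3) (.n (.n (.b 3) (.n (.n (.b 3) (.b 8)) (.n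
  (.n (.b 3) (.n (.n (.b 3) (.n (.n (.b 3) (.n (.n (.b 3) (.b 8)) (.n (.n (.b 3) (.b 21)) (.b
  4)))) (.b 10))) (.n (.n (.b 3) (.n (.n (.b 3) (.n (.n (.b 3) (.n (.n (.b 3) (.b 8)) (.n (.n (.b
  3) (.n (.n (.b 3) (.n (.n (.b 3) (.n (.n (.b 3) (.b 8)) (.n (.n (.b 3) (.n (.n (.b 3) (.n (.n
  (.b 3) (.n (.n (.b 3) (.b 8)) (.n (.n (.b 3) (.b 21)) (.b 4)))) (.b 10))) (.n (.n (.b 3) (.b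
  34)) (.b 4)))) (.b 4)))) (.b 10))) (.n (.n (.b 3) (.n (.n (.b 3) (.n (.n (.b 3) (.n (.n (.b 3)
  (.b 8)) (.n (.n (.b 3) (.n (.n (.b 3) (.n (.n (.b 3) (.n (.n (.b 3) (.b 8)) (.n (.n (.b 3) (.n
  (.n (.b 3) (.n (.n (.b 3) (.n (.n (.b 3) (.b 8)) (.n (.n (.b 3) (.b 21)) (.b 4)))) (.b 10))) (.n
  (.n (.b 3) (.n (.n (.b 3) (.n (.n (.b 3) (.n (.n (.b 3) (.b 8)) (.n (.n (.b 3) (.n (.n (.b 3)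
  (.n (.n (.b 3) (.n (.n (.b 3) (.b 8)) (.b 34))) (.b 10))) (.n (.n (.b 3) (.n (.n (.b 3) (.n (.n
  (.b 3) (.n (.n (.b 3) (.b 8)) (.n (.n (.b 3) (.n (.n (.b 3) (.n (.n (.b 3) (.n (.n (.b 3) (.b
  8)) (.n (.n (.b 3) (.n (.n (.b 3) (.n (.n (.b 3) (.n (.n (.b 3) (.b 8)) (.n (.n (.b 3) (.b 21))
  (.b 4)))) (.b 10))) (.n (.n (.b 3) (.n (.n (.b 3) (.n (.n (.b 3) (.n (.n (.b 3) (.b 8)) (.n (.n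
  (.b 3) (.n (.n (.b 3) (.n (.n (.b 3) (.n (.n (.b 3) (.b 8)) (.b 34))) (.b 10))) (.n (.n (.b 3)
  (.n (.n (.b 3) (.n (.n (.b 3) (.n (.n (.b 3) (.b 8)) (.n (.n (.b 3) (.n (.n (.b 3) (.n (.n (.b
  3) (.n (.n (.b 3) (.b 8)) (.n (.n (.b 3) (.n (.n (.b 3) (.n (.n (.b 3) (.n (.n (.b 3) (.b 8))
  (.n (.n (.b 3) (.b 21)) (.b 4)))) (.b 10))) (.n (.n (.b 3) (.n (.n (.b 3) (.b 81)) (.b 9))) (.b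
  4)))) (.b 4)))) (.b 10))) (.n (.n (.b 3) (.n (.n (.b 3) (.n (.b 30) (.n (.n (.b 3) (.b 10)) (.b
  4)))) (.b 9))) (.b 4)))) (.b 4)))) (.n (.n (.b 3) (.b 10)) (.b 4)))) (.b 9))) (.b 4)))) (.b
  4)))) (.n (.n (.b 3) (.b 10)) (.b 4)))) (.b 9))) (.b 4)))) (.b 4)))) (.b 10))) (.n (.n (.b 3)
  (.n (.n (.b 3) (.n (.b 30) (.n (.n (.b 3) (.b 10)) (.b 4)))) (.b 9))) (.b 4)))) (.b 4)))) (.n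
  (.n (.b 3) (.b 10)) (.b 4)))) (.b 9))) (.b 4)))) (.b 4)))) (.n (.n (.b 3) (.b 10)) (.b 4)))) (.b
  9))) (.b 4)))) (.b 4)))) (.b 10))) (.n (.n (.b 3) (.n (.n (.b 3) (.n (.b 30) (.n (.n (.b 3) (.b
  10)) (.b 4)))) (.b 9))) (.b 4)))) (.b 4)))) (.n (.n (.b 3) (.b 10)) (.b 4)))) (.b 9))) (.b 4))))
  (.b 4)))) (.n (.n (.b 3) (.b 10)) (.b 4)))) (.b 9))) (.b 4)))) (.b 4)))) (.b 10))) (.n (.n (.b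
  3) (.n (.n (.b 3) (.n (.n (.b 3) (.n (.n (.b 3) (.b 8)) (.n (.n (.b 3) (.n (.n (.b 3) (.n (.n
  (.b 3) (.n (.n (.b 3) (.b 8)) (.n (.n (.b 3) (.n (.n (.b 3) (.n (.n (.b 3) (.n (.n (.b 3) (.b
  8)) (.n (.n (.b 3) (.b 21)) (.b 4)))) (.b 10))) (.n (.n (.b 3) (.n (.n (.b 3) (.n (.n (.b 3) (.n
  (.n (.b 3) (.b 8)) (.n (.n (.b 3) (.n (.n (.b 3) (.n (.n (.b 3) (.n (.n (.b 3) (.b 8)) (.b 34)))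
  (.b 10))) (.n (.n (.b 3) (.n (.n (.b 3) (.n (.n (.b 3) (.n (.n (.b 3) (.b 8)) (.n (.n (.b 3) (.n
  (.n (.b 3) (.n (.n (.b 3) (.n (.n (.b 3) (.b 8)) (.n (.n (.b 3) (.n (.n (.b 3) (.n (.n (.b 3)
  (.n (.n (.b 3) (.b 8)) (.n (.n (.b 3) (.b 21)) (.b 4)))) (.b 10))) (.n (.n (.b 3) (.n (.n (.b 3)
  (.n (.n (.b 3) (.n (.n (.b 3) (.b 8)) (.n (.n (.b 3) (.n (.n (.b 3) (.n (.n (.b 3) (.n (.n (.b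
  3) (.b 8)) (.b 34))) (.b 10))) (.n (.n (.b 3) (.n (.n (.b 3) (.n (.n (.b 3) (.n (.n (.b 3) (.b
  8)) (.n (.n (.b 3) (.n (.n (.b 3) (.n (.n (.b 3) (.n (.n (.b 3) (.b 8)) (.n (.n (.b 3) (.n (.n
  (.b 3) (.n (.n (.b 3) (.n (.n (.b 3) (.b 8)) (.n (.n (.b 3) (.b 21)) (.b 4)))) (.b 10))) (.n (.n
  (.b 3) (.n (.n (.b 3) (.n (.n (.b 3) (.n (.n (.b 3) (.b 8)) (.n (.n (.b 3) (.n (.n (.b 3) (.n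
  (.n (.b 3) (.n (.n (.b 3) (.b 8)) (.b 34))) (.b 10))) (.n (.n (.b 3) (.n (.n (.b 3) (.n (.n (.b
  3) (.n (.n (.b 3) (.b 8)) (.n (.n (.b 3) (.n (.n (.b 3) (.b 81)) (.n (.n (.b 3) (.n (.n (.b 3)
  (.n (.b 30) (.n (.n (.b 3) (.b 10)) (.b 4)))) (.b 9))) (.b 4)))) (.b 4)))) (.n (.n (.b 3) (.b
  10)) (.b 4)))) (.b 9))) (.b 4)))) (.b 4)))) (.n (.n (.b 3) (.b 10)) (.b 4)))) (.b 9))) (.b 4))))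
  (.b 4)))) (.b 10))) (.n (.n (.b 3) (.n (.n (.b 3) (.n (.b 30) (.n (.n (.b 3) (.b 10)) (.b 4))))
  (.b 9))) (.b 4)))) (.b 4)))) (.n (.n (.b 3) (.b 10)) (.b 4)))) (.b 9))) (.b 4)))) (.b 4)))) (.n
  (.n (.b 3) (.b 10)) (.b 4)))) (.b 9))) (.b 4)))) (.b 4)))) (.b 10))) (.n (.n (.b 3) (.n (.n (.b
  3) (.n (.b 30) (.n (.n (.b 3) (.b 10)) (.b 4)))) (.b 9))) (.b 4)))) (.b 4)))) (.n (.n (.b 3) (.b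
  10)) (.b 4)))) (.b 9))) (.b 4)))) (.b 4)))) (.n (.n (.b 3) (.b 10)) (.b 4)))) (.b 9))) (.b 4))))
  (.b 4)))) (.b 10))) (.n (.n (.b 3) (.n (.n (.b 3) (.n (.n (.b 3) (.n (.n (.b 3) (.b 8)) (.n (.n
  (.b 3) (.n (.n (.b 3) (.n (.n (.b 3) (.n (.n (.b 3) (.b 8)) (.n (.n (.b 3) (.n (.n (.b 3) (.n
  (.n (.b 3) (.n (.n (.b 3) (.b 8)) (.n (.n (.b 3) (.b 21)) (.b 4)))) (.b 10))) (.n (.n (.b 3) (.n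
  (.n (.b 3) (.n (.n (.b 3) (.n (.n (.b 3) (.b 8)) (.n (.n (.b 3) (.n (.n (.b 3) (.n (.n (.b 3)
  (.n (.n (.b 3) (.b 8)) (.b 34))) (.b 10))) (.n (.n (.b 3) (.n (.n (.b 3) (.n (.n (.b 3) (.n (.n
  (.b 3) (.b 8)) (.n (.n (.b 3) (.n (.n (.b 3) (.n (.n (.b 3) (.n (.n (.b 3) (.b 8)) (.n (.n (.b
  3) (.n (.n (.b 3) (.n (.n (.b 3) (.n (.n (.b 3) (.b 8)) (.n (.n (.b 3) (.b 21)) (.b 4)))) (.b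
  10))) (.n (.n (.b 3) (.n (.n (.b 3) (.n (.n (.b 3) (.n (.n (.b 3) (.b 8)) (.n (.n (.b 3) (.n (.n
  (.b 3) (.n (.n (.b 3) (.n (.n (.b 3) (.b 8)) (.b 34))) (.b 10))) (.n (.n (.b 3) (.n (.n (.b 3)
  (.n (.n (.b 3) (.n (.n (.b 3) (.b 8)) (.n (.n (.b 3) (.n (.n (.b 3) (.n (.n (.b 3) (.n (.n (.b
  3) (.b 8)) (.n (.n (.b 3) (.n (.n (.b 3) (.n (.n (.b 3) (.n (.n (.b 3) (.b 8)) (.n (.n (.b 3)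
  (.b 21)) (.b 4)))) (.b 10))) (.n (.n (.b 3) (.n (.n (.b 3) (.n (.n (.b 3) (.n (.n (.b 3) (.b 8))
  (.n (.n (.b 3) (.n (.n (.b 3) (.n (.n (.b 3) (.n (.n (.b 3) (.b 8)) (.b 34))) (.b 10))) (.n (.n
  (.b 3) (.n (.n (.b 3) (.n (.n (.b 3) (.b 81)) (.n (.n (.b 3) (.b 10)) (.b 4)))) (.b 9))) (.b
  4)))) (.b 4)))) (.n (.n (.b 3) (.b 10)) (.b 4)))) (.b 9))) (.b 4)))) (.b 4)))) (.b 10))) (.n (.n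
  (.b 3) (.n (.n (.b 3) (.n (.b 30) (.n (.n (.b 3) (.b 10)) (.b 4)))) (.b 9))) (.b 4)))) (.b 4))))
  (.n (.n (.b 3) (.b 10)) (.b 4)))) (.b 9))) (.b 4)))) (.b 4)))) (.n (.n (.b 3) (.b 10)) (.b 4))))
  (.b 9))) (.b 4)))) (.b 4)))) (.b 10))) (.n (.n (.b 3) (.n (.n (.b 3) (.n (.b 30) (.n (.n (.b 3)
  (.b 10)) (.b 4)))) (.b 9))) (.b 4)))) (.b 4)))) (.n (.n (.b 3) (.b 10)) (.b 4)))) (.b 9))) (.b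
  4)))) (.b 4)))) (.n (.n (.b 3) (.b 10)) (.b 4)))) (.b 9))) (.b 4)))) (.b 4)))) (.b 10))) (.b
  30))) (.b 4)))) (.n (.n (.b 3) (.b 10)) (.b 4)))) (.b 9))) (.b 4)))) (.b 4)))) (.n (.n (.b 3)
  (.b 10)) (.b 4)))) (.b 9))) (.b 4)))) (.b 4)))) (.n (.n (.b 3) (.b 10)) (.b 4)))) (.b 9))) (.b
  4)))) (.b 4))))

/-- A subtree of the table. -/
def s8 : T :=
  (.n (.n (.b 3) (.n (.n (.b 3) (.n (.n (.b 3) (.n (.n (.b 3) (.b 8)) (.n (.n (.b 3) (.n (.n (.b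
  3) (.n (.n (.b 3) (.n (.n (.b 3) (.b 8)) (.n (.n (.b 3) (.n (.n (.b 3) (.n (.n (.b 3) (.n (.n
  (.b 3) (.b 8)) (.n (.n (.b 3) (.b 21)) (.b 4)))) (.b 10))) (.n (.n (.b 3) (.n (.n (.b 3) (.n (.n
  (.b 3) (.n (.n (.b 3) (.b 8)) (.n (.n (.b 3) (.n (.n (.b 3) (.n (.n (.b 3) (.n (.n (.b 3) (.b
  8)) (.n (.n (.b 3) (.n (.n (.b 3) (.n (.n (.b 3) (.n (.n (.b 3) (.b 8)) (.n (.n (.b 3) (.b 21))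
  (.b 4)))) (.b 10))) (.n (.n (.b 3) (.n (.n (.b 3) (.n (.b 34) (.n (.n (.b 3) (.b 10)) (.b 4))))
  (.b 9))) (.b 4)))) (.b 4)))) (.b 10))) (.n (.n (.b 3) (.n (.n (.b 3) (.n (.n (.b 3) (.n (.n (.b
  3) (.b 8)) (.n (.n (.b 3) (.n (.n (.b 3) (.n (.n (.b 3) (.n (.n (.b 3) (.b 8)) (.n (.n (.b 3)
  (.n (.n (.b 3) (.n (.n (.b 3) (.n (.n (.b 3) (.b 8)) (.n (.n (.b 3) (.b 21)) (.b 4)))) (.b 10)))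
  (.n (.n (.b 3) (.n (.n (.b 3) (.n (.n (.b 3) (.n (.n (.b 3) (.b 8)) (.n (.n (.b 3) (.n (.n (.b
  3) (.n (.n (.b 3) (.n (.n (.b 3) (.b 8)) (.b 34))) (.b 10))) (.n (.n (.b 3) (.n (.n (.b 3) (.n
  (.n (.b 3) (.n (.n (.b 3) (.b 8)) (.n (.n (.b 3) (.n (.n (.b 3) (.n (.n (.b 3) (.n (.n (.b 3)
  (.b 8)) (.n (.n (.b 3) (.n (.n (.b 3) (.n (.n (.b 3) (.n (.n (.b 3) (.b 8)) (.n (.n (.b 3) (.b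
  21)) (.b 4)))) (.b 10))) (.n (.n (.b 3) (.n (.n (.b 3) (.n (.n (.b 3) (.n (.n (.b 3) (.b 8)) (.n
  (.n (.b 3) (.n (.n (.b 3) (.n (.n (.b 3) (.n (.n (.b 3) (.b 8)) (.b 34))) (.b 10))) (.n (.n (.b
  3) (.n (.n (.b 3) (.n (.n (.b 3) (.n (.n (.b 3) (.b 8)) (.n (.n (.b 3) (.n (.n (.b 3) (.n (.n
  (.b 3) (.n (.n (.b 3) (.b 8)) (.n (.n (.b 3) (.n (.n (.b 3) (.n (.n (.b 3) (.n (.n (.b 3) (.b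
  8)) (.n (.n (.b 3) (.b 21)) (.b 4)))) (.b 10))) (.n (.n (.b 3) (.n (.n (.b 3) (.n (.n (.b 3) (.n
  (.n (.b 3) (.b 8)) (.b 81))) (.n (.n (.b 3) (.b 10)) (.b 4)))) (.b 9))) (.b 4)))) (.b 4)))) (.b
  10))) (.n (.n (.b 3) (.n (.n (.b 3) (.n (.b 30) (.n (.n (.b 3) (.b 10)) (.b 4)))) (.b 9))) (.b
  4)))) (.b 4)))) (.n (.n (.b 3) (.b 10)) (.b 4)))) (.b 9))) (.b 4)))) (.b 4)))) (.n (.n (.b 3)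
  (.b 10)) (.b 4)))) (.b 9))) (.b 4)))) (.b 4)))) (.b 10))) (.n (.n (.b 3) (.n (.n (.b 3) (.n (.b
  30) (.n (.n (.b 3) (.b 10)) (.b 4)))) (.b 9))) (.b 4)))) (.b 4)))) (.n (.n (.b 3) (.b 10)) (.b
  4)))) (.b 9))) (.b 4)))) (.b 4)))) (.n (.n (.b 3) (.b 10)) (.b 4)))) (.b 9))) (.b 4)))) (.b
  4)))) (.b 10))) (.n (.n (.b 3) (.n (.n (.b 3) (.n (.b 30) (.n (.n (.b 3) (.b 10)) (.b 4)))) (.b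
  9))) (.b 4)))) (.b 4)))) (.n (.n (.b 3) (.b 10)) (.b 4)))) (.b 9))) (.b 4)))) (.b 4)))) (.n (.n
  (.b 3) (.b 10)) (.b 4)))) (.b 9))) (.b 4)))) (.b 4)))) (.b 10))) (.n (.n (.b 3) (.n (.n (.b 3)
  (.n (.n (.b 3) (.n (.n (.b 3) (.b 8)) (.n (.n (.b 3) (.n (.n (.b 3) (.n (.n (.b 3) (.n (.n (.b
  3) (.b 8)) (.n (.n (.b 3) (.n (.n (.b 3) (.n (.n (.b 3) (.n (.n (.b 3) (.b 8)) (.n (.n (.b 3)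
  (.b 21)) (.b 4)))) (.b 10))) (.n (.n (.b 3) (.n (.n (.b 3) (.n (.n (.b 3) (.n (.n (.b 3) (.b 8))
  (.n (.n (.b 3) (.n (.n (.b 3) (.n (.n (.b 3) (.n (.n (.b 3) (.b 8)) (.b 34))) (.b 10))) (.n (.n
  (.b 3) (.n (.n (.b 3) (.n (.n (.b 3) (.n (.n (.b 3) (.b 8)) (.n (.n (.b 3) (.n (.n (.b 3) (.n
  (.n (.b 3) (.n (.n (.b 3) (.b 8)) (.n (.n (.b 3) (.n (.n (.b 3) (.n (.n (.b 3) (.n (.n (.b 3)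
  (.b 8)) (.n (.n (.b 3) (.b 21)) (.b 4)))) (.b 10))) (.n (.n (.b 3) (.n (.n (.b 3) (.n (.n (.b 3)
  (.n (.n (.b 3) (.b 8)) (.n (.n (.b 3) (.n (.n (.b 3) (.n (.n (.b 3) (.n (.n (.b 3) (.b 8)) (.b
  34))) (.b 10))) (.n (.n (.b 3) (.n (.n (.b 3) (.n (.n (.b 3) (.n (.n (.b 3) (.b 8)) (.n (.n (.b
  3) (.n (.n (.b 3) (.n (.n (.b 3) (.n (.n (.b 3) (.b 8)) (.n (.n (.b 3) (.n (.n (.b 3) (.n (.n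
  (.b 3) (.n (.n (.b 3) (.b 8)) (.n (.n (.b 3) (.b 21)) (.b 4)))) (.b 10))) (.n (.n (.b 3) (.n (.n
  (.b 3) (.n (.n (.b 3) (.n (.n (.b 3) (.b 8)) (.n (.n (.b 3) (.n (.n (.b 3) (.n (.n (.b 3) (.n
  (.n (.b 3) (.b 8)) (.b 34))) (.b 10))) (.n (.n (.b 3) (.n (.n (.b 3) (.n (.n (.b 3) (.n (.n (.b
  3) (.b 8)) (.n (.n (.b 3) (.n (.n (.b 3) (.n (.n (.b 3) (.n (.n (.b 3) (.b 8)) (.b 81))) (.b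
  10))) (.n (.n (.b 3) (.n (.n (.b 3) (.n (.b 30) (.n (.n (.b 3) (.b 10)) (.b 4)))) (.b 9))) (.b
  4)))) (.b 4)))) (.n (.n (.b 3) (.b 10)) (.b 4)))) (.b 9))) (.b 4)))) (.b 4)))) (.n (.n (.b 3)
  (.b 10)) (.b 4)))) (.b 9))) (.b 4)))) (.b 4)))) (.b 10))) (.n (.n (.b 3) (.n (.n (.b 3) (.n (.b
  30) (.n (.n (.b 3) (.b 10)) (.b 4)))) (.b 9))) (.b 4)))) (.b 4)))) (.n (.n (.b 3) (.b 10)) (.b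
  4)))) (.b 9))) (.b 4)))) (.b 4)))) (.n (.n (.b 3) (.b 10)) (.b 4)))) (.b 9))) (.b 4)))) (.b
  4)))) (.b 10))) (.n (.n (.b 3) (.n (.n (.b 3) (.n (.b 30) (.n (.n (.b 3) (.b 10)) (.b 4)))) (.b
  9))) (.b 4)))) (.b 4)))) (.n (.n (.b 3) (.b 10)) (.b 4)))) (.b 9))) (.b 4)))) (.b 4)))) (.n (.n
  (.b 3) (.b 10)) (.b 4)))) (.b 9))) (.b 4)))) (.b 4)))) (.b 10))) (.n (.n (.b 3) (.n (.n (.b 3)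
  (.n (.n (.b 3) (.n (.n (.b 3) (.b 8)) (.n (.n (.b 3) (.n (.n (.b 3) (.n (.n (.b 3) (.n (.n (.b
  3) (.b 8)) (.n (.n (.b 3) (.n (.n (.b 3) (.n (.n (.b 3) (.n (.n (.b 3) (.b 8)) (.n (.n (.b 3)
  (.b 21)) (.b 4)))) (.b 10))) (.n (.n (.b 3) (.n (.n (.b 3) (.n (.n (.b 3) (.n (.n (.b 3) (.b 8))
  (.n (.n (.b 3) (.n (.n (.b 3) (.n (.n (.b 3) (.n (.n (.b 3) (.b 8)) (.b 34))) (.b 10))) (.n (.n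
  (.b 3) (.n (.n (.b 3) (.n (.n (.b 3) (.n (.n (.b 3) (.b 8)) (.n (.n (.b 3) (.n (.n (.b 3) (.n
  (.n (.b 3) (.n (.n (.b 3) (.b 8)) (.n (.n (.b 3) (.n (.n (.b 3) (.n (.n (.b 3) (.n (.n (.b 3)
  (.b 8)) (.n (.n (.b 3) (.b 21)) (.b 4)))) (.b 10))) (.n (.n (.b 3) (.n (.n (.b 3) (.n (.n (.b 3)
  (.n (.n (.b 3) (.b 8)) (.n (.n (.b 3) (.n (.n (.b 3) (.n (.n (.b 3) (.n (.n (.b 3) (.b 8)) (.b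
  34))) (.b 10))) (.n (.n (.b 3) (.n (.n (.b 3) (.n (.n (.b 3) (.n (.n (.b 3) (.b 8)) (.n (.n (.b
  3) (.n (.n (.b 3) (.n (.n (.b 3) (.n (.n (.b 3) (.b 8)) (.n (.n (.b 3) (.n (.n (.b 3) (.n (.n
  (.b 3) (.n (.n (.b 3) (.b 8)) (.n (.n (.b 3) (.b 21)) (.b 4)))) (.b 10))) (.n (.n (.b 3) (.n (.n
  (.b 3) (.n (.n (.b 3) (.n (.n (.b 3) (.b 8)) (.n (.n (.b 3) (.n (.n (.b 3) (.n (.n (.b 3) (.n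
  (.n (.b 3) (.b 8)) (.b 34))) (.b 10))) (.n (.n (.b 3) (.n (.n (.b 3) (.n (.n (.b 3) (.b 81)) (.n
  (.n (.b 3) (.b 10)) (.b 4)))) (.b 9))) (.b 4)))) (.b 4)))) (.n (.n (.b 3) (.b 10)) (.b 4)))) (.b
  9))) (.b 4)))) (.b 4)))) (.b 10))) (.n (.n (.b 3) (.n (.n (.b 3) (.n (.b 30) (.n (.n (.b 3) (.b
  10)) (.b 4)))) (.b 9))) (.b 4)))) (.b 4)))) (.n (.n (.b 3) (.b 10)) (.b 4)))) (.b 9))) (.b 4))))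
  (.b 4)))) (.n (.n (.b 3) (.b 10)) (.b 4)))) (.b 9))) (.b 4)))) (.b 4)))) (.b 10))) (.n (.n (.b
  3) (.n (.n (.b 3) (.n (.b 30) (.n (.n (.b 3) (.b 10)) (.b 4)))) (.b 9))) (.b 4)))) (.b 4)))) (.n
  (.n (.b 3) (.b 10)) (.b 4)))) (.b 9))) (.b 4)))) (.b 4)))) (.n (.n (.b 3) (.b 10)) (.b 4)))) (.b
  9))) (.b 4)))) (.b 4)))) (.b 10))) (.n (.n (.b 3) (.n (.b 30) (.b 9))) (.b 4)))) (.b 4)))) (.n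
  (.n (.b 3) (.b 10)) (.b 4)))) (.b 9))) (.b 4)))) (.b 4)))) (.n (.n (.b 3) (.b 10)) (.b 4)))) (.b
  9))) (.b 4)))) (.b 4)))) (.n (.n (.b 3) (.b 10)) (.b 4)))) (.n (.b 9) (.b 4)))) (.b 4))

/-- A subtree of the table. -/
def s9 : T :=
  (.b 4)

/-- A subtree of the table. -/
def s10 : T :=
  (.b 3)

/-- A subtree of the table. -/
def s11 : T :=
  (.b 3)

/-- A subtree of the table. -/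
def s12 : T :=
  (.n (.b 3) (.n (.n (.b 3) (.b 8)) (.n (.n (.b 3) (.n (.n (.b 3) (.n (.n (.b 3) (.n (.n (.b 3)
  (.b 8)) (.n (.n (.b 3) (.n (.n (.b 3) (.n (.n (.b 3) (.n (.n (.b 3) (.b 8)) (.n (.n (.b 3) (.n
  (.n (.b 3) (.n (.b 21) (.b 10))) (.n (.n (.b 3) (.n (.n (.b 3) (.n (.n (.b 3) (.n (.n (.b 3) (.b
  8)) (.n (.n (.b 3) (.n (.n (.b 3) (.n (.n (.b 3) (.n (.n (.b 3) (.b 8)) (.n (.n (.b 3) (.n (.n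
  (.b 3) (.n (.n (.b 3) (.n (.n (.b 3) (.b 8)) (.n (.n (.b 3) (.b 21)) (.b 4)))) (.b 10))) (.n (.n
  (.b 3) (.n (.n (.b 3) (.n (.n (.b 3) (.n (.n (.b 3) (.b 8)) (.b 34))) (.n (.n (.b 3) (.b 10))
  (.b 4)))) (.b 9))) (.b 4)))) (.b 4)))) (.b 10))) (.n (.n (.b 3) (.n (.n (.b 3) (.n (.n (.b 3)
  (.n (.n (.b 3) (.b 8)) (.n (.n (.b 3) (.n (.n (.b 3) (.n (.n (.b 3) (.n (.n (.b 3) (.b 8)) (.n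
  (.n (.b 3) (.n (.n (.b 3) (.n (.n (.b 3) (.n (.n (.b 3) (.b 8)) (.n (.n (.b 3) (.b 21)) (.b
  4)))) (.b 10))) (.n (.n (.b 3) (.n (.n (.b 3) (.n (.n (.b 3) (.n (.n (.b 3) (.b 8)) (.n (.n (.b
  3) (.n (.n (.b 3) (.n (.n (.b 3) (.n (.n (.b 3) (.b 8)) (.b 34))) (.b 10))) (.n (.n (.b 3) (.n
  (.n (.b 3) (.n (.n (.b 3) (.n (.n (.b 3) (.b 8)) (.n (.n (.b 3) (.n (.n (.b 3) (.n (.n (.b 3)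
  (.n (.n (.b 3) (.b 8)) (.n (.n (.b 3) (.n (.n (.b 3) (.n (.n (.b 3) (.n (.n (.b 3) (.b 8)) (.n
  (.n (.b 3) (.b 21)) (.b 4)))) (.b 10))) (.n (.n (.b 3) (.n (.n (.b 3) (.n (.n (.b 3) (.n (.n (.b
  3) (.b 8)) (.n (.n (.b 3) (.n (.n (.b 3) (.n (.n (.b 3) (.n (.n (.b 3) (.b 8)) (.b 34))) (.b
  10))) (.n (.n (.b 3) (.n (.n (.b 3) (.n (.n (.b 3) (.n (.n (.b 3) (.b 8)) (.n (.n (.b 3) (.n (.n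
  (.b 3) (.n (.n (.b 3) (.n (.n (.b 3) (.b 8)) (.n (.n (.b 3) (.n (.n (.b 3) (.n (.n (.b 3) (.n
  (.n (.b 3) (.b 8)) (.n (.n (.b 3) (.b 21)) (.b 4)))) (.b 10))) (.n (.n (.b 3) (.n (.n (.b 3) (.n
  (.n (.b 3) (.n (.n (.b 3) (.b 8)) (.n (.n (.b 3) (.b 81)) (.b 4)))) (.n (.n (.b 3) (.b 10)) (.b
  4)))) (.b 9))) (.b 4)))) (.b 4)))) (.b 10))) (.n (.n (.b 3) (.n (.n (.b 3) (.n (.b 30) (.n (.n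
  (.b 3) (.b 10)) (.b 4)))) (.b 9))) (.b 4)))) (.b 4)))) (.n (.n (.b 3) (.b 10)) (.b 4)))) (.b
  9))) (.b 4)))) (.b 4)))) (.n (.n (.b 3) (.b 10)) (.b 4)))) (.b 9))) (.b 4)))) (.b 4)))) (.b
  10))) (.n (.n (.b 3) (.n (.n (.b 3) (.n (.b 30) (.n (.n (.b 3) (.b 10)) (.b 4)))) (.b 9))) (.b
  4)))) (.b 4)))) (.n (.n (.b 3) (.b 10)) (.b 4)))) (.b 9))) (.b 4)))) (.b 4)))) (.n (.n (.b 3)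
  (.b 10)) (.b 4)))) (.b 9))) (.b 4)))) (.b 4)))) (.b 10))) (.n (.n (.b 3) (.n (.n (.b 3) (.n (.b
  30) (.n (.n (.b 3) (.b 10)) (.b 4)))) (.b 9))) (.b 4)))) (.b 4)))) (.n (.n (.b 3) (.b 10)) (.b
  4)))) (.b 9))) (.b 4)))) (.b 4)))) (.n (.n (.b 3) (.b 10)) (.b 4)))) (.b 9))) (.b 4)))) (.b
  4)))) (.b 10))) (.n (.n (.b 3) (.n (.n (.b 3) (.n (.n (.b 3) (.n (.n (.b 3) (.b 8)) (.n (.n (.b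
  3) (.n (.n (.b 3) (.n (.n (.b 3) (.n (.n (.b 3) (.b 8)) (.n (.n (.b 3) (.n (.n (.b 3) (.n (.n
  (.b 3) (.n (.n (.b 3) (.b 8)) (.n (.n (.b 3) (.b 21)) (.b 4)))) (.b 10))) (.n (.n (.b 3) (.n (.n
  (.b 3) (.n (.n (.b 3) (.n (.n (.b 3) (.b 8)) (.n (.n (.b 3) (.n (.b 34) (.n (.n (.b 3) (.n (.n
  (.b 3) (.n (.n (.b 3) (.n (.n (.b 3) (.b 8)) (.n (.n (.b 3) (.n (.n (.b 3) (.n (.n (.b 3) (.n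
  (.n (.b 3) (.b 8)) (.n (.n (.b 3) (.n (.n (.b 3) (.n (.n (.b 3) (.n (.n (.b 3) (.b 8)) (.n (.n
  (.b 3) (.b 21)) (.b 4)))) (.b 10))) (.n (.n (.b 3) (.n (.n (.b 3) (.n (.n (.b 3) (.n (.n (.b 3)
  (.b 8)) (.n (.n (.b 3) (.n (.n (.b 3) (.n (.n (.b 3) (.n (.n (.b 3) (.b 8)) (.b 34))) (.b 10)))
  (.n (.n (.b 3) (.n (.n (.b 3) (.n (.n (.b 3) (.n (.n (.b 3) (.b 8)) (.n (.n (.b 3) (.n (.n (.b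
  3) (.n (.n (.b 3) (.n (.n (.b 3) (.b 8)) (.n (.n (.b 3) (.n (.n (.b 3) (.n (.n (.b 3) (.n (.n
  (.b 3) (.b 8)) (.n (.n (.b 3) (.b 21)) (.b 4)))) (.b 10))) (.n (.n (.b 3) (.n (.n (.b 3) (.n (.n
  (.b 3) (.n (.n (.b 3) (.b 8)) (.n (.n (.b 3) (.n (.n (.b 3) (.n (.n (.b 3) (.n (.n (.b 3) (.b
  8)) (.b 34))) (.b 10))) (.n (.n (.b 3) (.n (.n (.b 3) (.n (.n (.b 3) (.n (.n (.b 3) (.b 8)) (.n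
  (.n (.b 3) (.n (.n (.b 3) (.n (.n (.b 3) (.n (.n (.b 3) (.b 8)) (.n (.n (.b 3) (.b 81)) (.b
  4)))) (.b 10))) (.n (.n (.b 3) (.n (.n (.b 3) (.n (.b 30) (.n (.n (.b 3) (.b 10)) (.b 4)))) (.b
  9))) (.b 4)))) (.b 4)))) (.n (.n (.b 3) (.b 10)) (.b 4)))) (.b 9))) (.b 4)))) (.b 4)))) (.n (.n
  (.b 3) (.b 10)) (.b 4)))) (.b 9))) (.b 4)))) (.b 4)))) (.b 10))) (.n (.n (.b 3) (.n (.n (.b 3)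
  (.n (.b 30) (.n (.n (.b 3) (.b 10)) (.b 4)))) (.b 9))) (.b 4)))) (.b 4)))) (.n (.n (.b 3) (.b
  10)) (.b 4)))) (.b 9))) (.b 4)))) (.b 4)))) (.n (.n (.b 3) (.b 10)) (.b 4)))) (.b 9))) (.b 4))))
  (.b 4)))) (.b 10))) (.n (.n (.b 3) (.n (.n (.b 3) (.n (.b 30) (.n (.n (.b 3) (.b 10)) (.b 4))))
  (.b 9))) (.b 4)))) (.b 4)))) (.n (.n (.b 3) (.b 10)) (.b 4)))) (.b 9))) (.b 4)))) (.b 4)))) (.n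
  (.n (.b 3) (.b 10)) (.b 4)))) (.b 9))) (.b 4)))) (.b 4)))) (.b 10))) (.n (.n (.b 3) (.n (.n (.b
  3) (.n (.n (.b 3) (.n (.n (.b 3) (.b 8)) (.n (.n (.b 3) (.n (.n (.b 3) (.n (.n (.b 3) (.n (.n
  (.b 3) (.b 8)) (.n (.n (.b 3) (.n (.n (.b 3) (.n (.n (.b 3) (.n (.n (.b 3) (.b 8)) (.n (.n (.b
  3) (.b 21)) (.b 4)))) (.b 10))) (.n (.n (.b 3) (.n (.n (.b 3) (.n (.n (.b 3) (.n (.n (.b 3) (.b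
  8)) (.n (.n (.b 3) (.n (.n (.b 3) (.n (.n (.b 3) (.n (.n (.b 3) (.b 8)) (.b 34))) (.b 10))) (.n
  (.n (.b 3) (.n (.n (.b 3) (.n (.n (.b 3) (.n (.n (.b 3) (.b 8)) (.n (.n (.b 3) (.n (.n (.b 3)
  (.n (.n (.b 3) (.n (.n (.b 3) (.b 8)) (.n (.n (.b 3) (.n (.n (.b 3) (.n (.n (.b 3) (.n (.n (.b
  3) (.b 8)) (.n (.n (.b 3) (.b 21)) (.b 4)))) (.b 10))) (.n (.n (.b 3) (.n (.n (.b 3) (.n (.n (.b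
  3) (.n (.n (.b 3) (.b 8)) (.n (.n (.b 3) (.n (.n (.b 3) (.n (.n (.b 3) (.n (.n (.b 3) (.b 8))
  (.b 34))) (.b 10))) (.n (.n (.b 3) (.n (.n (.b 3) (.n (.n (.b 3) (.n (.n (.b 3) (.b 8)) (.n (.n
  (.b 3) (.n (.n (.b 3) (.n (.n (.b 3) (.n (.n (.b 3) (.b 8)) (.n (.n (.b 3) (.n (.n (.b 3) (.n
  (.n (.b 3) (.n (.n (.b 3) (.b 8)) (.n (.n (.b 3) (.b 21)) (.b 4)))) (.b 10))) (.n (.n (.b 3) (.n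
  (.n (.b 3) (.n (.n (.b 3) (.n (.n (.b 3) (.b 8)) (.n (.n (.b 3) (.n (.n (.b 3) (.n (.n (.b 3)
  (.n (.n (.b 3) (.b 8)) (.b 34))) (.b 10))) (.n (.n (.b 3) (.b 81)) (.b 4)))) (.b 4)))) (.n (.n
  (.b 3) (.b 10)) (.b 4)))) (.b 9))) (.b 4)))) (.b 4)))) (.b 10))) (.n (.n (.b 3) (.n (.n (.b 3)
  (.n (.b 30) (.n (.n (.b 3) (.b 10)) (.b 4)))) (.b 9))) (.b 4)))) (.b 4)))) (.n (.n (.b 3) (.b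
  10)) (.b 4)))) (.b 9))) (.b 4)))) (.b 4)))) (.n (.n (.b 3) (.b 10)) (.b 4)))) (.b 9))) (.b 4))))
  (.b 4)))) (.b 10))) (.n (.n (.b 3) (.n (.n (.b 3) (.n (.b 30) (.n (.n (.b 3) (.b 10)) (.b 4))))
  (.b 9))) (.b 4)))) (.b 4)))) (.n (.n (.b 3) (.b 10)) (.b 4)))) (.b 9))) (.b 4)))) (.b 4)))) (.n
  (.n (.b 3) (.b 10)) (.b 4)))) (.b 9))) (.b 4)))) (.b 4)))) (.b 10))) (.n (.n (.b 3) (.n (.n (.b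
  3) (.n (.b 30) (.n (.n (.b 3) (.b 10)) (.b 4)))) (.b 9))) (.b 4)))) (.b 4)))) (.n (.n (.b 3) (.b
  10)) (.b 4)))) (.b 9))) (.b 4)))) (.b 4)))) (.n (.n (.b 3) (.b 10)) (.b 4)))) (.b 9))) (.b 4))))
  (.b 4)))) (.b 10))) (.n (.n (.b 3) (.n (.n (.b 3) (.n (.n (.b 3) (.n (.n (.b 3) (.b 8)) (.n (.n
  (.b 3) (.n (.n (.b 3) (.n (.n (.b 3) (.n (.n (.b 3) (.b 8)) (.n (.n (.b 3) (.n (.n (.b 3) (.n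
  (.n (.b 3) (.n (.n (.b 3) (.b 8)) (.n (.n (.b 3) (.b 21)) (.b 4)))) (.b 10))) (.n (.n (.b 3) (.n
  (.n (.b 3) (.n (.n (.b 3) (.n (.n (.b 3) (.b 8)) (.n (.n (.b 3) (.n (.n (.b 3) (.n (.n (.b 3)
  (.n (.n (.b 3) (.b 8)) (.n (.n (.b 3) (.n (.n (.b 3) (.n (.n (.b 3) (.n (.n (.b 3) (.b 8)) (.n
  (.n (.b 3) (.b 21)) (.b 4)))) (.b 10))) (.b 34))) (.b 4)))) (.b 10))) (.n (.n (.b 3) (.n (.n (.b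
  3) (.n (.n (.b 3) (.n (.n (.b 3) (.b 8)) (.n (.n (.b 3) (.n (.n (.b 3) (.n (.n (.b 3) (.n (.n
  (.b 3) (.b 8)) (.n (.n (.b 3) (.n (.n (.b 3) (.n (.n (.b 3) (.n (.n (.b 3) (.b 8)) (.n (.n (.b
  3) (.b 21)) (.b 4)))) (.b 10))) (.n (.n (.b 3) (.n (.n (.b 3) (.n (.n (.b 3) (.n (.n (.b 3) (.b
  8)) (.n (.n (.b 3) (.n (.n (.b 3) (.n (.n (.b 3) (.n (.n (.b 3) (.b 8)) (.b 34))) (.b 10))) (.n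
  (.n (.b 3) (.n (.n (.b 3) (.n (.n (.b 3) (.n (.n (.b 3) (.b 8)) (.n (.n (.b 3) (.n (.n (.b 3)
  (.n (.n (.b 3) (.n (.n (.b 3) (.b 8)) (.n (.n (.b 3) (.n (.n (.b 3) (.n (.n (.b 3) (.n (.n (.b
  3) (.b 8)) (.n (.n (.b 3) (.b 21)) (.b 4)))) (.b 10))) (.n (.n (.b 3) (.n (.n (.b 3) (.n (.n (.b
  3) (.n (.n (.b 3) (.b 8)) (.n (.n (.b 3) (.n (.n (.b 3) (.n (.n (.b 3) (.n (.n (.b 3) (.b 8))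
  (.b 34))) (.b 10))) (.n (.n (.b 3) (.n (.n (.b 3) (.n (.n (.b 3) (.n (.n (.b 3) (.b 8)) (.n (.n
  (.b 3) (.n (.n (.b 3) (.n (.n (.b 3) (.n (.n (.b 3) (.b 8)) (.n (.n (.b 3) (.n (.n (.b 3) (.n
  (.n (.b 3) (.n (.n (.b 3) (.b 8)) (.n (.n (.b 3) (.b 21)) (.b 4)))) (.b 10))) (.n (.n (.b 3) (.b
  81)) (.b 4)))) (.b 4)))) (.b 10))) (.n (.n (.b 3) (.n (.n (.b 3) (.n (.b 30) (.n (.n (.b 3) (.b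
  10)) (.b 4)))) (.b 9))) (.b 4)))) (.b 4)))) (.n (.n (.b 3) (.b 10)) (.b 4)))) (.b 9))) (.b 4))))
  (.b 4)))) (.n (.n (.b 3) (.b 10)) (.b 4)))) (.b 9))) (.b 4)))) (.b 4)))) (.b 10))) (.n (.n (.b
  3) (.n (.n (.b 3) (.n (.b 30) (.n (.n (.b 3) (.b 10)) (.b 4)))) (.b 9))) (.b 4)))) (.b 4)))) (.n
  (.n (.b 3) (.b 10)) (.b 4)))) (.b 9))) (.b 4)))) (.b 4)))) (.n (.n (.b 3) (.b 10)) (.b 4)))) (.b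
  9))) (.b 4)))) (.b 4)))) (.b 10))) (.n (.n (.b 3) (.n (.n (.b 3) (.n (.b 30) (.n (.n (.b 3) (.b
  10)) (.b 4)))) (.b 9))) (.b 4)))) (.b 4)))) (.n (.n (.b 3) (.b 10)) (.b 4)))) (.b 9))) (.b 4))))
  (.b 4)))) (.n (.n (.b 3) (.b 10)) (.b 4)))) (.b 9))) (.b 4)))) (.b 4)))) (.b 10))) (.n (.n (.b
  3) (.n (.n (.b 3) (.n (.n (.b 3) (.n (.n (.b 3) (.b 8)) (.n (.n (.b 3) (.n (.n (.b 3) (.n (.n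
  (.b 3) (.n (.n (.b 3) (.b 8)) (.n (.n (.b 3) (.n (.n (.b 3) (.n (.n (.b 3) (.n (.n (.b 3) (.b
  8)) (.n (.n (.b 3) (.b 21)) (.b 4)))) (.b 10))) (.n (.n (.b 3) (.n (.n (.b 3) (.n (.n (.b 3) (.n
  (.n (.b 3) (.b 8)) (.n (.n (.b 3) (.n (.n (.b 3) (.n (.n (.b 3) (.n (.n (.b 3) (.b 8)) (.b 34)))
  (.b 10))) (.n (.n (.b 3) (.n (.n (.b 3) (.n (.n (.b 3) (.n (.n (.b 3) (.b 8)) (.n (.n (.b 3) (.n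
  (.n (.b 3) (.n (.n (.b 3) (.n (.n (.b 3) (.b 8)) (.n (.n (.b 3) (.n (.n (.b 3) (.n (.n (.b 3)
  (.n (.n (.b 3) (.b 8)) (.n (.n (.b 3) (.b 21)) (.b 4)))) (.b 10))) (.n (.n (.b 3) (.n (.n (.b 3)
  (.n (.n (.b 3) (.n (.n (.b 3) (.b 8)) (.n (.n (.b 3) (.n (.n (.b 3) (.n (.n (.b 3) (.n (.n (.b
  3) (.b 8)) (.b 34))) (.b 10))) (.n (.n (.b 3) (.n (.n (.b 3) (.n (.n (.b 3) (.n (.n (.b 3) (.b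
  8)) (.n (.n (.b 3) (.n (.n (.b 3) (.n (.n (.b 3) (.n (.n (.b 3) (.b 8)) (.n (.n (.b 3) (.n (.n
  (.b 3) (.n (.n (.b 3) (.n (.n (.b 3) (.b 8)) (.n (.n (.b 3) (.b 21)) (.b 4)))) (.b 10))) (.n (.n
  (.b 3) (.n (.n (.b 3) (.n (.n (.b 3) (.n (.n (.b 3) (.b 8)) (.n (.n (.b 3) (.n (.n (.b 3) (.n
  (.n (.b 3) (.n (.n (.b 3) (.b 8)) (.b 34))) (.b 10))) (.n (.n (.b 3) (.n (.n (.b 3) (.n (.n (.b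
  3) (.n (.n (.b 3) (.b 8)) (.n (.n (.b 3) (.b 81)) (.b 4)))) (.n (.n (.b 3) (.b 10)) (.b 4))))
  (.b 9))) (.b 4)))) (.b 4)))) (.n (.n (.b 3) (.b 10)) (.b 4)))) (.b 9))) (.b 4)))) (.b 4)))) (.b
  10))) (.n (.n (.b 3) (.n (.n (.b 3) (.n (.b 30) (.n (.n (.b 3) (.b 10)) (.b 4)))) (.b 9))) (.b
  4)))) (.b 4)))) (.n (.n (.b 3) (.b 10)) (.b 4)))) (.b 9))) (.b 4)))) (.b 4)))) (.n (.n (.b 3)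
  (.b 10)) (.b 4)))) (.b 9))) (.b 4)))) (.b 4)))) (.b 10))) (.n (.n (.b 3) (.n (.n (.b 3) (.n (.b
  30) (.n (.n (.b 3) (.b 10)) (.b 4)))) (.b 9))) (.b 4)))) (.b 4)))) (.n (.n (.b 3) (.b 10)) (.b
  4)))) (.b 9))) (.b 4)))) (.b 4)))) (.n (.n (.b 3) (.b 10)) (.b 4)))) (.b 9))) (.b 4)))) (.b
  4)))) (.b 10))) (.n (.n (.b 3) (.n (.n (.b 3) (.n (.n (.b 3) (.n (.n (.b 3) (.b 8)) (.n (.b 30)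
  (.b 4)))) (.n (.n (.b 3) (.b 10)) (.b 4)))) (.b 9))) (.b 4)))) (.b 4)))) (.n (.n (.b 3) (.b 10))
  (.b 4)))) (.b 9))) (.b 4)))) (.b 4)))) (.n (.n (.b 3) (.b 10)) (.b 4)))) (.b 9))) (.b 4)))) (.b
  4))))

/-- A subtree of the table. -/
def s13 : T :=
  (.n (.n (.b 3) (.n (.n (.b 3) (.n (.n (.b 3) (.n (.n (.b 3) (.b 8)) (.n (.n (.b 3) (.n (.n (.b
  3) (.n (.n (.b 3) (.n (.n (.b 3) (.b 8)) (.n (.n (.b 3) (.n (.n (.b 3) (.n (.n (.b 3) (.n (.n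
  (.b 3) (.b 8)) (.b 21))) (.b 10))) (.n (.n (.b 3) (.n (.n (.b 3) (.n (.n (.b 3) (.n (.n (.b 3)
  (.b 8)) (.n (.n (.b 3) (.n (.n (.b 3) (.n (.n (.b 3) (.n (.n (.b 3) (.b 8)) (.n (.n (.b 3) (.n
  (.n (.b 3) (.n (.n (.b 3) (.n (.n (.b 3) (.b 8)) (.n (.n (.b 3) (.b 21)) (.b 4)))) (.b 10))) (.n
  (.n (.b 3) (.n (.n (.b 3) (.n (.n (.b 3) (.n (.n (.b 3) (.b 8)) (.b 34))) (.n (.n (.b 3) (.b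
  10)) (.b 4)))) (.b 9))) (.b 4)))) (.b 4)))) (.b 10))) (.n (.n (.b 3) (.n (.n (.b 3) (.n (.n (.b
  3) (.n (.n (.b 3) (.b 8)) (.n (.n (.b 3) (.n (.n (.b 3) (.n (.n (.b 3) (.n (.n (.b 3) (.b 8))
  (.n (.n (.b 3) (.n (.n (.b 3) (.n (.n (.b 3) (.n (.n (.b 3) (.b 8)) (.n (.n (.b 3) (.b 21)) (.b
  4)))) (.b 10))) (.n (.n (.b 3) (.n (.n (.b 3) (.n (.n (.b 3) (.n (.n (.b 3) (.b 8)) (.n (.n (.b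
  3) (.n (.n (.b 3) (.n (.n (.b 3) (.n (.n (.b 3) (.b 8)) (.b 34))) (.b 10))) (.n (.n (.b 3) (.n
  (.n (.b 3) (.n (.n (.b 3) (.n (.n (.b 3) (.b 8)) (.n (.n (.b 3) (.n (.n (.b 3) (.n (.n (.b 3)
  (.n (.n (.b 3) (.b 8)) (.n (.n (.b 3) (.n (.n (.b 3) (.n (.n (.b 3) (.n (.n (.b 3) (.b 8)) (.n
  (.n (.b 3) (.b 21)) (.b 4)))) (.b 10))) (.n (.n (.b 3) (.n (.n (.b 3) (.n (.n (.b 3) (.n (.n (.b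
  3) (.b 8)) (.n (.n (.b 3) (.n (.n (.b 3) (.n (.n (.b 3) (.n (.n (.b 3) (.b 8)) (.b 34))) (.b
  10))) (.n (.n (.b 3) (.n (.n (.b 3) (.n (.n (.b 3) (.n (.n (.b 3) (.b 8)) (.n (.n (.b 3) (.n (.n
  (.b 3) (.n (.n (.b 3) (.n (.n (.b 3) (.b 8)) (.n (.n (.b 3) (.n (.n (.b 3) (.n (.n (.b 3) (.n
  (.n (.b 3) (.b 8)) (.n (.n (.b 3) (.b 21)) (.b 4)))) (.b 10))) (.n (.n (.b 3) (.n (.n (.b 3) (.n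
  (.n (.b 3) (.n (.n (.b 3) (.b 8)) (.n (.n (.b 3) (.b 81)) (.b 4)))) (.n (.n (.b 3) (.b 10)) (.b
  4)))) (.b 9))) (.b 4)))) (.b 4)))) (.b 10))) (.n (.n (.b 3) (.n (.n (.b 3) (.n (.b 30) (.n (.n
  (.b 3) (.b 10)) (.b 4)))) (.b 9))) (.b 4)))) (.b 4)))) (.n (.n (.b 3) (.b 10)) (.b 4)))) (.b
  9))) (.b 4)))) (.b 4)))) (.n (.n (.b 3) (.b 10)) (.b 4)))) (.b 9))) (.b 4)))) (.b 4)))) (.b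
  10))) (.n (.n (.b 3) (.n (.n (.b 3) (.n (.b 30) (.n (.n (.b 3) (.b 10)) (.b 4)))) (.b 9))) (.b
  4)))) (.b 4)))) (.n (.n (.b 3) (.b 10)) (.b 4)))) (.b 9))) (.b 4)))) (.b 4)))) (.n (.n (.b 3)
  (.b 10)) (.b 4)))) (.b 9))) (.b 4)))) (.b 4)))) (.b 10))) (.n (.n (.b 3) (.n (.n (.b 3) (.n (.b
  30) (.n (.n (.b 3) (.b 10)) (.b 4)))) (.b 9))) (.b 4)))) (.b 4)))) (.n (.n (.b 3) (.b 10)) (.b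
  4)))) (.b 9))) (.b 4)))) (.b 4)))) (.n (.n (.b 3) (.b 10)) (.b 4)))) (.b 9))) (.b 4)))) (.b
  4)))) (.b 10))) (.n (.n (.b 3) (.n (.n (.b 3) (.n (.n (.b 3) (.n (.n (.b 3) (.b 8)) (.n (.n (.b
  3) (.n (.n (.b 3) (.n (.n (.b 3) (.n (.n (.b 3) (.b 8)) (.n (.n (.b 3) (.n (.n (.b 3) (.n (.n
  (.b 3) (.n (.n (.b 3) (.b 8)) (.n (.n (.b 3) (.b 21)) (.b 4)))) (.b 10))) (.n (.n (.b 3) (.n (.n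
  (.b 3) (.n (.n (.b 3) (.n (.n (.b 3) (.b 8)) (.n (.n (.b 3) (.n (.n (.b 3) (.n (.b 34) (.b 10)))
  (.n (.n (.b 3) (.n (.n (.b 3) (.n (.n (.b 3) (.n (.n (.b 3) (.b 8)) (.n (.n (.b 3) (.n (.n (.b
  3) (.n (.n (.b 3) (.n (.n (.b 3) (.b 8)) (.n (.n (.b 3) (.n (.n (.b 3) (.n (.n (.b 3) (.n (.n
  (.b 3) (.b 8)) (.n (.n (.b 3) (.b 21)) (.b 4)))) (.b 10))) (.n (.n (.b 3) (.n (.n (.b 3) (.n (.n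
  (.b 3) (.n (.n (.b 3) (.b 8)) (.n (.n (.b 3) (.n (.n (.b 3) (.n (.n (.b 3) (.n (.n (.b 3) (.b
  8)) (.b 34))) (.b 10))) (.n (.n (.b 3) (.n (.n (.b 3) (.n (.n (.b 3) (.n (.n (.b 3) (.b 8)) (.n
  (.n (.b 3) (.n (.n (.b 3) (.n (.n (.b 3) (.n (.n (.b 3) (.b 8)) (.n (.n (.b 3) (.n (.n (.b 3)
  (.n (.n (.b 3) (.n (.n (.b 3) (.b 8)) (.n (.n (.b 3) (.b 21)) (.b 4)))) (.b 10))) (.n (.n (.b 3)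
  (.n (.n (.b 3) (.n (.n (.b 3) (.n (.n (.b 3) (.b 8)) (.n (.n (.b 3) (.n (.n (.b 3) (.n (.n (.b
  3) (.n (.n (.b 3) (.b 8)) (.b 34))) (.b 10))) (.n (.n (.b 3) (.n (.n (.b 3) (.n (.n (.b 3) (.n
  (.n (.b 3) (.b 8)) (.n (.n (.b 3) (.n (.n (.b 3) (.n (.n (.b 3) (.n (.n (.b 3) (.b 8)) (.n (.n
  (.b 3) (.b 81)) (.b 4)))) (.b 10))) (.n (.n (.b 3) (.n (.n (.b 3) (.n (.b 30) (.n (.n (.b 3) (.b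
  10)) (.b 4)))) (.b 9))) (.b 4)))) (.b 4)))) (.n (.n (.b 3) (.b 10)) (.b 4)))) (.b 9))) (.b 4))))
  (.b 4)))) (.n (.n (.b 3) (.b 10)) (.b 4)))) (.b 9))) (.b 4)))) (.b 4)))) (.b 10))) (.n (.n (.b
  3) (.n (.n (.b 3) (.n (.b 30) (.n (.n (.b 3) (.b 10)) (.b 4)))) (.b 9))) (.b 4)))) (.b 4)))) (.n
  (.n (.b 3) (.b 10)) (.b 4)))) (.b 9))) (.b 4)))) (.b 4)))) (.n (.n (.b 3) (.b 10)) (.b 4)))) (.b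
  9))) (.b 4)))) (.b 4)))) (.b 10))) (.n (.n (.b 3) (.n (.n (.b 3) (.n (.b 30) (.n (.n (.b 3) (.b
  10)) (.b 4)))) (.b 9))) (.b 4)))) (.b 4)))) (.n (.n (.b 3) (.b 10)) (.b 4)))) (.b 9))) (.b 4))))
  (.b 4)))) (.n (.n (.b 3) (.b 10)) (.b 4)))) (.b 9))) (.b 4)))) (.b 4)))) (.b 10))) (.n (.n (.b
  3) (.n (.n (.b 3) (.n (.n (.b 3) (.n (.n (.b 3) (.b 8)) (.n (.n (.b 3) (.n (.n (.b 3) (.n (.n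
  (.b 3) (.n (.n (.b 3) (.b 8)) (.n (.n (.b 3) (.n (.n (.b 3) (.n (.n (.b 3) (.n (.n (.b 3) (.b
  8)) (.n (.n (.b 3) (.b 21)) (.b 4)))) (.b 10))) (.n (.n (.b 3) (.n (.n (.b 3) (.n (.n (.b 3) (.n
  (.n (.b 3) (.b 8)) (.n (.n (.b 3) (.n (.n (.b 3) (.n (.n (.b 3) (.n (.n (.b 3) (.b 8)) (.b 34)))
  (.b 10))) (.n (.n (.b 3) (.n (.n (.b 3) (.n (.n (.b 3) (.n (.n (.b 3) (.b 8)) (.n (.n (.b 3) (.n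
  (.n (.b 3) (.n (.n (.b 3) (.n (.n (.b 3) (.b 8)) (.n (.n (.b 3) (.n (.n (.b 3) (.n (.n (.b 3)
  (.n (.n (.b 3) (.b 8)) (.n (.n (.b 3) (.b 21)) (.b 4)))) (.b 10))) (.n (.n (.b 3) (.n (.n (.b 3)
  (.n (.n (.b 3) (.n (.n (.b 3) (.b 8)) (.n (.n (.b 3) (.n (.n (.b 3) (.n (.n (.b 3) (.n (.n (.b
  3) (.b 8)) (.b 34))) (.b 10))) (.n (.n (.b 3) (.n (.n (.b 3) (.n (.n (.b 3) (.n (.n (.b 3) (.b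
  8)) (.n (.n (.b 3) (.n (.n (.b 3) (.n (.n (.b 3) (.n (.n (.b 3) (.b 8)) (.n (.n (.b 3) (.n (.n
  (.b 3) (.n (.n (.b 3) (.n (.n (.b 3) (.b 8)) (.n (.n (.b 3) (.b 21)) (.b 4)))) (.b 10))) (.n (.n
  (.b 3) (.n (.n (.b 3) (.n (.n (.b 3) (.n (.n (.b 3) (.b 8)) (.n (.n (.b 3) (.n (.n (.b 3) (.n
  (.n (.b 3) (.n (.n (.b 3) (.b 8)) (.b 34))) (.b 10))) (.n (.n (.b 3) (.n (.n (.b 3) (.b 81)) (.b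
  9))) (.b 4)))) (.b 4)))) (.n (.n (.b 3) (.b 10)) (.b 4)))) (.b 9))) (.b 4)))) (.b 4)))) (.b
  10))) (.n (.n (.b 3) (.n (.n (.b 3) (.n (.b 30) (.n (.n (.b 3) (.b 10)) (.b 4)))) (.b 9))) (.b
  4)))) (.b 4)))) (.n (.n (.b 3) (.b 10)) (.b 4)))) (.b 9))) (.b 4)))) (.b 4)))) (.n (.n (.b 3)
  (.b 10)) (.b 4)))) (.b 9))) (.b 4)))) (.b 4)))) (.b 10))) (.n (.n (.b 3) (.n (.n (.b 3) (.n (.b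
  30) (.n (.n (.b 3) (.b 10)) (.b 4)))) (.b 9))) (.b 4)))) (.b 4)))) (.n (.n (.b 3) (.b 10)) (.b
  4)))) (.b 9))) (.b 4)))) (.b 4)))) (.n (.n (.b 3) (.b 10)) (.b 4)))) (.b 9))) (.b 4)))) (.b
  4)))) (.b 10))) (.n (.n (.b 3) (.n (.n (.b 3) (.n (.b 30) (.n (.n (.b 3) (.b 10)) (.b 4)))) (.b
  9))) (.b 4)))) (.b 4)))) (.n (.n (.b 3) (.b 10)) (.b 4)))) (.b 9))) (.b 4)))) (.b 4)))) (.n (.n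
  (.b 3) (.b 10)) (.b 4)))) (.b 9))) (.b 4)))) (.b 4)))) (.b 10))) (.n (.n (.b 3) (.n (.n (.b 3)
  (.n (.n (.b 3) (.n (.n (.b 3) (.b 8)) (.n (.n (.b 3) (.n (.n (.b 3) (.n (.n (.b 3) (.n (.n (.b
  3) (.b 8)) (.n (.n (.b 3) (.n (.n (.b 3) (.n (.n (.b 3) (.n (.n (.b 3) (.b 8)) (.n (.n (.b 3)
  (.b 21)) (.b 4)))) (.b 10))) (.n (.n (.b 3) (.n (.n (.b 3) (.n (.n (.b 3) (.n (.n (.b 3) (.b 8))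
  (.n (.n (.b 3) (.n (.n (.b 3) (.n (.n (.b 3) (.n (.n (.b 3) (.b 8)) (.n (.n (.b 3) (.n (.n (.b
  3) (.n (.n (.b 3) (.n (.n (.b 3) (.b 8)) (.n (.n (.b 3) (.b 21)) (.b 4)))) (.b 10))) (.n (.n (.b
  3) (.b 34)) (.b 4)))) (.b 4)))) (.b 10))) (.n (.n (.b 3) (.n (.n (.b 3) (.n (.n (.b 3) (.n (.n
  (.b 3) (.b 8)) (.n (.n (.b 3) (.n (.n (.b 3) (.n (.n (.b 3) (.n (.n (.b 3) (.b 8)) (.n (.n (.b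
  3) (.n (.n (.b 3) (.n (.n (.b 3) (.n (.n (.b 3) (.b 8)) (.n (.n (.b 3) (.b 21)) (.b 4)))) (.b
  10))) (.n (.n (.b 3) (.n (.n (.b 3) (.n (.n (.b 3) (.n (.n (.b 3) (.b 8)) (.n (.n (.b 3) (.n (.n
  (.b 3) (.n (.n (.b 3) (.n (.n (.b 3) (.b 8)) (.b 34))) (.b 10))) (.n (.n (.b 3) (.n (.n (.b 3)
  (.n (.n (.b 3) (.n (.n (.b 3) (.b 8)) (.n (.n (.b 3) (.n (.n (.b 3) (.n (.n (.b 3) (.n (.n (.b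
  3) (.b 8)) (.n (.n (.b 3) (.n (.n (.b 3) (.n (.n (.b 3) (.n (.n (.b 3) (.b 8)) (.n (.n (.b 3)
  (.b 21)) (.b 4)))) (.b 10))) (.n (.n (.b 3) (.n (.n (.b 3) (.n (.n (.b 3) (.n (.n (.b 3) (.b 8))
  (.n (.n (.b 3) (.n (.n (.b 3) (.n (.n (.b 3) (.n (.n (.b 3) (.b 8)) (.b 34))) (.b 10))) (.n (.n
  (.b 3) (.n (.n (.b 3) (.n (.n (.b 3) (.n (.n (.b 3) (.b 8)) (.n (.n (.b 3) (.n (.n (.b 3) (.n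
  (.n (.b 3) (.n (.n (.b 3) (.b 8)) (.n (.n (.b 3) (.n (.n (.b 3) (.n (.n (.b 3) (.n (.n (.b 3)
  (.b 8)) (.n (.n (.b 3) (.b 21)) (.b 4)))) (.b 10))) (.n (.n (.b 3) (.n (.n (.b 3) (.b 81)) (.b
  9))) (.b 4)))) (.b 4)))) (.b 10))) (.n (.n (.b 3) (.n (.n (.b 3) (.n (.b 30) (.n (.n (.b 3) (.b
  10)) (.b 4)))) (.b 9))) (.b 4)))) (.b 4)))) (.n (.n (.b 3) (.b 10)) (.b 4)))) (.b 9))) (.b 4))))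
  (.b 4)))) (.n (.n (.b 3) (.b 10)) (.b 4)))) (.b 9))) (.b 4)))) (.b 4)))) (.b 10))) (.n (.n (.b
  3) (.n (.n (.b 3) (.n (.b 30) (.n (.n (.b 3) (.b 10)) (.b 4)))) (.b 9))) (.b 4)))) (.b 4)))) (.n
  (.n (.b 3) (.b 10)) (.b 4)))) (.b 9))) (.b 4)))) (.b 4)))) (.n (.n (.b 3) (.b 10)) (.b 4)))) (.b
  9))) (.b 4)))) (.b 4)))) (.b 10))) (.n (.n (.b 3) (.n (.n (.b 3) (.n (.b 30) (.n (.n (.b 3) (.b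
  10)) (.b 4)))) (.b 9))) (.b 4)))) (.b 4)))) (.n (.n (.b 3) (.b 10)) (.b 4)))) (.b 9))) (.b 4))))
  (.b 4)))) (.n (.n (.b 3) (.b 10)) (.b 4)))) (.b 9))) (.b 4)))) (.b 4)))) (.b 10))) (.n (.n (.b
  3) (.n (.n (.b 3) (.n (.n (.b 3) (.n (.n (.b 3) (.b 8)) (.n (.n (.b 3) (.n (.n (.b 3) (.n (.n
  (.b 3) (.n (.n (.b 3) (.b 8)) (.n (.n (.b 3) (.n (.n (.b 3) (.n (.n (.b 3) (.n (.n (.b 3) (.b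
  8)) (.n (.n (.b 3) (.b 21)) (.b 4)))) (.b 10))) (.n (.n (.b 3) (.n (.n (.b 3) (.n (.n (.b 3) (.n
  (.n (.b 3) (.b 8)) (.n (.n (.b 3) (.n (.n (.b 3) (.n (.n (.b 3) (.n (.n (.b 3) (.b 8)) (.b 34)))
  (.b 10))) (.n (.n (.b 3) (.n (.n (.b 3) (.n (.n (.b 3) (.n (.n (.b 3) (.b 8)) (.n (.n (.b 3) (.n
  (.n (.b 3) (.n (.n (.b 3) (.n (.n (.b 3) (.b 8)) (.n (.n (.b 3) (.n (.n (.b 3) (.n (.n (.b 3)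
  (.n (.n (.b 3) (.b 8)) (.n (.n (.b 3) (.b 21)) (.b 4)))) (.b 10))) (.n (.n (.b 3) (.n (.n (.b 3)
  (.n (.n (.b 3) (.n (.n (.b 3) (.b 8)) (.n (.n (.b 3) (.n (.n (.b 3) (.n (.n (.b 3) (.n (.n (.b
  3) (.b 8)) (.b 34))) (.b 10))) (.n (.n (.b 3) (.n (.n (.b 3) (.n (.n (.b 3) (.n (.n (.b 3) (.b
  8)) (.n (.n (.b 3) (.n (.n (.b 3) (.n (.n (.b 3) (.n (.n (.b 3) (.b 8)) (.n (.n (.b 3) (.n (.n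
  (.b 3) (.n (.n (.b 3) (.n (.n (.b 3) (.b 8)) (.n (.n (.b 3) (.b 21)) (.b 4)))) (.b 10))) (.n (.n
  (.b 3) (.n (.n (.b 3) (.n (.n (.b 3) (.n (.n (.b 3) (.b 8)) (.n (.n (.b 3) (.n (.n (.b 3) (.n
  (.n (.b 3) (.n (.n (.b 3) (.b 8)) (.b 34))) (.b 10))) (.n (.n (.b 3) (.n (.n (.b 3) (.n (.n (.b
  3) (.n (.n (.b 3) (.b 8)) (.n (.n (.b 3) (.n (.n (.b 3) (.b 81)) (.n (.n (.b 3) (.n (.n (.b 3)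
  (.n (.b 30) (.n (.n (.b 3) (.b 10)) (.b 4)))) (.b 9))) (.b 4)))) (.b 4)))) (.n (.n (.b 3) (.b
  10)) (.b 4)))) (.b 9))) (.b 4)))) (.b 4)))) (.n (.n (.b 3) (.b 10)) (.b 4)))) (.b 9))) (.b 4))))
  (.b 4)))) (.b 10))) (.n (.n (.b 3) (.n (.n (.b 3) (.n (.b 30) (.n (.n (.b 3) (.b 10)) (.b 4))))
  (.b 9))) (.b 4)))) (.b 4)))) (.n (.n (.b 3) (.b 10)) (.b 4)))) (.b 9))) (.b 4)))) (.b 4)))) (.n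
  (.n (.b 3) (.b 10)) (.b 4)))) (.b 9))) (.b 4)))) (.b 4)))) (.b 10))) (.n (.n (.b 3) (.n (.n (.b
  3) (.n (.b 30) (.n (.n (.b 3) (.b 10)) (.b 4)))) (.b 9))) (.b 4)))) (.b 4)))) (.n (.n (.b 3) (.b
  10)) (.b 4)))) (.b 9))) (.b 4)))) (.b 4)))) (.n (.n (.b 3) (.b 10)) (.b 4)))) (.b 9))) (.b 4))))
  (.b 4)))) (.b 10))) (.n (.n (.b 3) (.n (.n (.b 3) (.n (.n (.b 3) (.n (.n (.b 3) (.b 8)) (.n (.n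
  (.b 3) (.n (.n (.b 3) (.n (.n (.b 3) (.n (.n (.b 3) (.b 8)) (.n (.n (.b 3) (.n (.n (.b 3) (.n
  (.n (.b 3) (.n (.n (.b 3) (.b 8)) (.n (.n (.b 3) (.b 21)) (.b 4)))) (.b 10))) (.n (.n (.b 3) (.n
  (.n (.b 3) (.n (.n (.b 3) (.n (.n (.b 3) (.b 8)) (.n (.n (.b 3) (.n (.n (.b 3) (.n (.n (.b 3)
  (.n (.n (.b 3) (.b 8)) (.b 34))) (.b 10))) (.n (.n (.b 3) (.n (.n (.b 3) (.n (.n (.b 3) (.n (.n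
  (.b 3) (.b 8)) (.n (.n (.b 3) (.n (.n (.b 3) (.n (.n (.b 3) (.n (.n (.b 3) (.b 8)) (.n (.n (.b
  3) (.n (.n (.b 3) (.n (.n (.b 3) (.n (.n (.b 3) (.b 8)) (.n (.n (.b 3) (.b 21)) (.b 4)))) (.b
  10))) (.n (.n (.b 3) (.n (.n (.b 3) (.n (.n (.b 3) (.n (.n (.b 3) (.b 8)) (.n (.n (.b 3) (.n (.n
  (.b 3) (.n (.n (.b 3) (.n (.n (.b 3) (.b 8)) (.b 34))) (.b 10))) (.n (.n (.b 3) (.n (.n (.b 3)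
  (.n (.n (.b 3) (.n (.n (.b 3) (.b 8)) (.n (.n (.b 3) (.n (.n (.b 3) (.n (.n (.b 3) (.n (.n (.b
  3) (.b 8)) (.n (.n (.b 3) (.n (.n (.b 3) (.n (.n (.b 3) (.n (.n (.b 3) (.b 8)) (.n (.n (.b 3)
  (.b 21)) (.b 4)))) (.b 10))) (.n (.n (.b 3) (.n (.n (.b 3) (.n (.n (.b 3) (.n (.n (.b 3) (.b 8))
  (.n (.n (.b 3) (.n (.n (.b 3) (.n (.n (.b 3) (.n (.n (.b 3) (.b 8)) (.b 34))) (.b 10))) (.n (.n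
  (.b 3) (.n (.n (.b 3) (.n (.n (.b 3) (.b 81)) (.n (.n (.b 3) (.b 10)) (.b 4)))) (.b 9))) (.b
  4)))) (.b 4)))) (.n (.n (.b 3) (.b 10)) (.b 4)))) (.b 9))) (.b 4)))) (.b 4)))) (.b 10))) (.n (.n
  (.b 3) (.n (.n (.b 3) (.n (.b 30) (.n (.n (.b 3) (.b 10)) (.b 4)))) (.b 9))) (.b 4)))) (.b 4))))
  (.n (.n (.b 3) (.b 10)) (.b 4)))) (.b 9))) (.b 4)))) (.b 4)))) (.n (.n (.b 3) (.b 10)) (.b 4))))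
  (.b 9))) (.b 4)))) (.b 4)))) (.b 10))) (.n (.n (.b 3) (.n (.n (.b 3) (.n (.b 30) (.n (.n (.b 3)
  (.b 10)) (.b 4)))) (.b 9))) (.b 4)))) (.b 4)))) (.n (.n (.b 3) (.b 10)) (.b 4)))) (.b 9))) (.b
  4)))) (.b 4)))) (.n (.n (.b 3) (.b 10)) (.b 4)))) (.b 9))) (.b 4)))) (.b 4)))) (.b 10))) (.b
  30))) (.b 4)))) (.n (.n (.b 3) (.b 10)) (.b 4)))) (.b 9))) (.b 4)))) (.b 4)))) (.n (.n (.b 3)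
  (.b 10)) (.b 4)))) (.b 9))) (.b 4)))) (.b 4)))) (.n (.n (.b 3) (.b 10)) (.b 4)))) (.b 9))) (.b
  4)))) (.b 4))

/-- A subtree of the table. -/
def s14 : T :=
  (.n (.n (.b 3) (.n (.n (.b 3) (.n (.n (.b 3) (.n (.n (.b 3) (.b 8)) (.n (.n (.b 3) (.n (.n (.b
  3) (.n (.n (.b 3) (.n (.n (.b 3) (.b 8)) (.n (.n (.b 3) (.n (.n (.b 3) (.n (.n (.b 3) (.n (.n
  (.b 3) (.b 8)) (.n (.n (.b 3) (.b 21)) (.b 4)))) (.b 10))) (.n (.n (.b 3) (.n (.n (.b 3) (.n (.n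
  (.b 3) (.n (.n (.b 3) (.b 8)) (.n (.n (.b 3) (.n (.n (.b 3) (.n (.n (.b 3) (.n (.n (.b 3) (.b
  8)) (.n (.n (.b 3) (.n (.n (.b 3) (.n (.n (.b 3) (.n (.n (.b 3) (.b 8)) (.n (.n (.b 3) (.b 21))
  (.b 4)))) (.b 10))) (.n (.n (.b 3) (.n (.n (.b 3) (.n (.n (.b 3) (.n (.n (.b 3) (.b 8)) (.b
  34))) (.n (.n (.b 3) (.b 10)) (.b 4)))) (.b 9))) (.b 4)))) (.b 4)))) (.b 10))) (.n (.n (.b 3)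
  (.n (.n (.b 3) (.n (.n (.b 3) (.n (.n (.b 3) (.b 8)) (.n (.n (.b 3) (.n (.n (.b 3) (.n (.n (.b
  3) (.n (.n (.b 3) (.b 8)) (.n (.n (.b 3) (.n (.n (.b 3) (.n (.n (.b 3) (.n (.n (.b 3) (.b 8))
  (.n (.n (.b 3) (.b 21)) (.b 4)))) (.b 10))) (.n (.n (.b 3) (.n (.n (.b 3) (.n (.n (.b 3) (.n (.n
  (.b 3) (.b 8)) (.n (.n (.b 3) (.n (.n (.b 3) (.n (.n (.b 3) (.n (.n (.b 3) (.b 8)) (.b 34))) (.b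
  10))) (.n (.n (.b 3) (.n (.n (.b 3) (.n (.n (.b 3) (.n (.n (.b 3) (.b 8)) (.n (.n (.b 3) (.n (.n
  (.b 3) (.n (.n (.b 3) (.n (.n (.b 3) (.b 8)) (.n (.n (.b 3) (.n (.n (.b 3) (.n (.n (.b 3) (.n
  (.n (.b 3) (.b 8)) (.n (.n (.b 3) (.b 21)) (.b 4)))) (.b 10))) (.n (.n (.b 3) (.n (.n (.b 3) (.n
  (.n (.b 3) (.n (.n (.b 3) (.b 8)) (.n (.n (.b 3) (.n (.n (.b 3) (.n (.n (.b 3) (.n (.n (.b 3)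
  (.b 8)) (.b 34))) (.b 10))) (.n (.n (.b 3) (.n (.n (.b 3) (.n (.n (.b 3) (.n (.n (.b 3) (.b 8))
  (.n (.n (.b 3) (.n (.n (.b 3) (.n (.n (.b 3) (.n (.n (.b 3) (.b 8)) (.n (.n (.b 3) (.n (.n (.b
  3) (.n (.n (.b 3) (.n (.n (.b 3) (.b 8)) (.n (.n (.b 3) (.b 21)) (.b 4)))) (.b 10))) (.n (.n (.b
  3) (.n (.n (.b 3) (.n (.n (.b 3) (.n (.n (.b 3) (.b 8)) (.n (.n (.b 3) (.b 81)) (.b 4)))) (.n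
  (.n (.b 3) (.b 10)) (.b 4)))) (.b 9))) (.b 4)))) (.b 4)))) (.b 10))) (.n (.n (.b 3) (.n (.n (.b
  3) (.n (.b 30) (.n (.n (.b 3) (.b 10)) (.b 4)))) (.b 9))) (.b 4)))) (.b 4)))) (.n (.n (.b 3) (.b
  10)) (.b 4)))) (.b 9))) (.b 4)))) (.b 4)))) (.n (.n (.b 3) (.b 10)) (.b 4)))) (.b 9))) (.b 4))))
  (.b 4)))) (.b 10))) (.n (.n (.b 3) (.n (.n (.b 3) (.n (.b 30) (.n (.n (.b 3) (.b 10)) (.b 4))))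
  (.b 9))) (.b 4)))) (.b 4)))) (.n (.n (.b 3) (.b 10)) (.b 4)))) (.b 9))) (.b 4)))) (.b 4)))) (.n
  (.n (.b 3) (.b 10)) (.b 4)))) (.b 9))) (.b 4)))) (.b 4)))) (.b 10))) (.n (.n (.b 3) (.n (.n (.b
  3) (.n (.b 30) (.n (.n (.b 3) (.b 10)) (.b 4)))) (.b 9))) (.b 4)))) (.b 4)))) (.n (.n (.b 3) (.b
  10)) (.b 4)))) (.b 9))) (.b 4)))) (.b 4)))) (.n (.n (.b 3) (.b 10)) (.b 4)))) (.b 9))) (.b 4))))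
  (.b 4)))) (.b 10))) (.n (.n (.b 3) (.n (.n (.b 3) (.n (.n (.b 3) (.n (.n (.b 3) (.b 8)) (.n (.n
  (.b 3) (.n (.n (.b 3) (.n (.n (.b 3) (.n (.n (.b 3) (.b 8)) (.n (.n (.b 3) (.n (.n (.b 3) (.n
  (.n (.b 3) (.n (.n (.b 3) (.b 8)) (.n (.n (.b 3) (.b 21)) (.b 4)))) (.b 10))) (.n (.n (.b 3) (.n
  (.n (.b 3) (.n (.n (.b 3) (.n (.n (.b 3) (.b 8)) (.n (.n (.b 3) (.n (.n (.b 3) (.n (.n (.b 3)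
  (.n (.n (.b 3) (.b 8)) (.b 34))) (.b 10))) (.n (.n (.b 3) (.n (.n (.b 3) (.n (.n (.b 3) (.n (.n
  (.b 3) (.b 8)) (.n (.n (.b 3) (.n (.n (.b 3) (.n (.n (.b 3) (.n (.n (.b 3) (.b 8)) (.n (.n (.b
  3) (.n (.n (.b 3) (.n (.n (.b 3) (.n (.n (.b 3) (.b 8)) (.n (.n (.b 3) (.b 21)) (.b 4)))) (.b
  10))) (.n (.n (.b 3) (.n (.n (.b 3) (.n (.n (.b 3) (.n (.n (.b 3) (.b 8)) (.n (.n (.b 3) (.n (.n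
  (.b 3) (.n (.n (.b 3) (.n (.n (.b 3) (.b 8)) (.b 34))) (.b 10))) (.n (.n (.b 3) (.n (.n (.b 3)
  (.n (.n (.b 3) (.n (.n (.b 3) (.b 8)) (.n (.n (.b 3) (.n (.n (.b 3) (.n (.n (.b 3) (.n (.n (.b
  3) (.b 8)) (.n (.n (.b 3) (.n (.n (.b 3) (.n (.n (.b 3) (.n (.n (.b 3) (.b 8)) (.n (.n (.b 3)
  (.b 21)) (.b 4)))) (.b 10))) (.n (.n (.b 3) (.n (.n (.b 3) (.n (.n (.b 3) (.n (.n (.b 3) (.b 8))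
  (.n (.n (.b 3) (.n (.n (.b 3) (.n (.n (.b 3) (.n (.n (.b 3) (.b 8)) (.b 34))) (.b 10))) (.n (.n
  (.b 3) (.n (.n (.b 3) (.n (.n (.b 3) (.n (.n (.b 3) (.b 8)) (.n (.n (.b 3) (.n (.n (.b 3) (.n
  (.n (.b 3) (.n (.n (.b 3) (.b 8)) (.n (.n (.b 3) (.b 81)) (.b 4)))) (.b 10))) (.n (.n (.b 3) (.n
  (.n (.b 3) (.n (.b 30) (.n (.n (.b 3) (.b 10)) (.b 4)))) (.b 9))) (.b 4)))) (.b 4)))) (.n (.n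
  (.b 3) (.b 10)) (.b 4)))) (.b 9))) (.b 4)))) (.b 4)))) (.n (.n (.b 3) (.b 10)) (.b 4)))) (.b
  9))) (.b 4)))) (.b 4)))) (.b 10))) (.n (.n (.b 3) (.n (.n (.b 3) (.n (.b 30) (.n (.n (.b 3) (.b
  10)) (.b 4)))) (.b 9))) (.b 4)))) (.b 4)))) (.n (.n (.b 3) (.b 10)) (.b 4)))) (.b 9))) (.b 4))))
  (.b 4)))) (.n (.n (.b 3) (.b 10)) (.b 4)))) (.b 9))) (.b 4)))) (.b 4)))) (.b 10))) (.n (.n (.b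
  3) (.n (.n (.b 3) (.n (.b 30) (.n (.n (.b 3) (.b 10)) (.b 4)))) (.b 9))) (.b 4)))) (.b 4)))) (.n
  (.n (.b 3) (.b 10)) (.b 4)))) (.b 9))) (.b 4)))) (.b 4)))) (.n (.n (.b 3) (.b 10)) (.b 4)))) (.b
  9))) (.b 4)))) (.b 4)))) (.b 10))) (.n (.n (.b 3) (.n (.n (.b 3) (.n (.n (.b 3) (.n (.n (.b 3)
  (.b 8)) (.n (.n (.b 3) (.n (.n (.b 3) (.n (.n (.b 3) (.n (.n (.b 3) (.b 8)) (.n (.n (.b 3) (.n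
  (.n (.b 3) (.n (.n (.b 3) (.n (.n (.b 3) (.b 8)) (.n (.n (.b 3) (.b 21)) (.b 4)))) (.b 10))) (.n
  (.n (.b 3) (.n (.n (.b 3) (.n (.n (.b 3) (.n (.n (.b 3) (.b 8)) (.n (.n (.b 3) (.n (.n (.b 3)
  (.n (.n (.b 3) (.n (.n (.b 3) (.b 8)) (.b 34))) (.b 10))) (.n (.n (.b 3) (.n (.n (.b 3) (.n (.n
  (.b 3) (.n (.n (.b 3) (.b 8)) (.n (.n (.b 3) (.n (.n (.b 3) (.n (.n (.b 3) (.n (.n (.b 3) (.b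
  8)) (.n (.n (.b 3) (.n (.n (.b 3) (.n (.n (.b 3) (.n (.n (.b 3) (.b 8)) (.n (.n (.b 3) (.b 21))
  (.b 4)))) (.b 10))) (.n (.n (.b 3) (.n (.n (.b 3) (.n (.n (.b 3) (.n (.n (.b 3) (.b 8)) (.n (.n
  (.b 3) (.n (.n (.b 3) (.n (.n (.b 3) (.n (.n (.b 3) (.b 8)) (.b 34))) (.b 10))) (.n (.n (.b 3)
  (.n (.n (.b 3) (.n (.n (.b 3) (.n (.n (.b 3) (.b 8)) (.n (.n (.b 3) (.n (.n (.b 3) (.n (.n (.b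
  3) (.n (.n (.b 3) (.b 8)) (.n (.n (.b 3) (.n (.n (.b 3) (.n (.n (.b 3) (.n (.n (.b 3) (.b 8))
  (.n (.n (.b 3) (.b 21)) (.b 4)))) (.b 10))) (.n (.n (.b 3) (.n (.n (.b 3) (.n (.n (.b 3) (.n (.n
  (.b 3) (.b 8)) (.n (.n (.b 3) (.n (.n (.b 3) (.n (.n (.b 3) (.n (.n (.b 3) (.b 8)) (.b 34))) (.b
  10))) (.n (.n (.b 3) (.n (.n (.b 3) (.n (.n (.b 3) (.b 81)) (.n (.n (.b 3) (.b 10)) (.b 4))))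
  (.b 9))) (.b 4)))) (.b 4)))) (.n (.n (.b 3) (.b 10)) (.b 4)))) (.b 9))) (.b 4)))) (.b 4)))) (.b
  10))) (.n (.n (.b 3) (.n (.n (.b 3) (.n (.b 30) (.n (.n (.b 3) (.b 10)) (.b 4)))) (.b 9))) (.b
  4)))) (.b 4)))) (.n (.n (.b 3) (.b 10)) (.b 4)))) (.b 9))) (.b 4)))) (.b 4)))) (.n (.n (.b 3)
  (.b 10)) (.b 4)))) (.b 9))) (.b 4)))) (.b 4)))) (.b 10))) (.n (.n (.b 3) (.n (.n (.b 3) (.n (.b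
  30) (.n (.n (.b 3) (.b 10)) (.b 4)))) (.b 9))) (.b 4)))) (.b 4)))) (.n (.n (.b 3) (.b 10)) (.b
  4)))) (.b 9))) (.b 4)))) (.b 4)))) (.n (.n (.b 3) (.b 10)) (.b 4)))) (.b 9))) (.b 4)))) (.b
  4)))) (.b 10))) (.n (.n (.b 3) (.n (.n (.b 3) (.n (.b 30) (.n (.n (.b 3) (.b 10)) (.b 4)))) (.b
  9))) (.b 4)))) (.b 4)))) (.n (.n (.b 3) (.b 10)) (.b 4)))) (.b 9))) (.b 4)))) (.b 4)))) (.n (.n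
  (.b 3) (.b 10)) (.b 4)))) (.b 9))) (.b 4)))) (.b 4)))) (.n (.n (.b 3) (.b 10)) (.b 4)))) (.n (.n
  (.b 3) (.n (.n (.b 3) (.n (.n (.b 3) (.n (.n (.b 3) (.b 8)) (.n (.n (.b 3) (.n (.n (.b 3) (.n
  (.n (.b 3) (.n (.n (.b 3) (.b 8)) (.n (.n (.b 3) (.n (.n (.b 3) (.n (.n (.b 3) (.n (.n (.b 3)
  (.b 8)) (.n (.n (.b 3) (.b 21)) (.b 4)))) (.b 10))) (.n (.n (.b 3) (.n (.n (.b 3) (.n (.n (.b 3)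
  (.n (.n (.b 3) (.b 8)) (.n (.n (.b 3) (.n (.n (.b 3) (.n (.n (.b 3) (.n (.n (.b 3) (.b 8)) (.n
  (.n (.b 3) (.n (.n (.b 3) (.n (.n (.b 3) (.n (.n (.b 3) (.b 8)) (.n (.n (.b 3) (.b 21)) (.b
  4)))) (.b 10))) (.n (.n (.b 3) (.n (.n (.b 3) (.b 34)) (.b 9))) (.b 4)))) (.b 4)))) (.b 10)))
  (.n (.n (.b 3) (.n (.n (.b 3) (.n (.n (.b 3) (.n (.n (.b 3) (.b 8)) (.n (.n (.b 3) (.n (.n (.b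
  3) (.n (.n (.b 3) (.n (.n (.b 3) (.b 8)) (.n (.n (.b 3) (.n (.n (.b 3) (.n (.n (.b 3) (.n (.n
  (.b 3) (.b 8)) (.n (.n (.b 3) (.b 21)) (.b 4)))) (.b 10))) (.n (.n (.b 3) (.n (.n (.b 3) (.n (.n
  (.b 3) (.n (.n (.b 3) (.b 8)) (.n (.n (.b 3) (.n (.n (.b 3) (.n (.n (.b 3) (.n (.n (.b 3) (.b
  8)) (.b 34))) (.b 10))) (.n (.n (.b 3) (.n (.n (.b 3) (.n (.n (.b 3) (.n (.n (.b 3) (.b 8)) (.n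
  (.n (.b 3) (.n (.n (.b 3) (.n (.n (.b 3) (.n (.n (.b 3) (.b 8)) (.n (.n (.b 3) (.n (.n (.b 3)
  (.n (.n (.b 3) (.n (.n (.b 3) (.b 8)) (.n (.n (.b 3) (.b 21)) (.b 4)))) (.b 10))) (.n (.n (.b 3)
  (.n (.n (.b 3) (.n (.n (.b 3) (.n (.n (.b 3) (.b 8)) (.n (.n (.b 3) (.n (.n (.b 3) (.n (.n (.b
  3) (.n (.n (.b 3) (.b 8)) (.b 34))) (.b 10))) (.n (.n (.b 3) (.n (.n (.b 3) (.n (.n (.b 3) (.n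
  (.n (.b 3) (.b 8)) (.n (.n (.b 3) (.n (.n (.b 3) (.n (.n (.b 3) (.n (.n (.b 3) (.b 8)) (.n (.n
  (.b 3) (.n (.n (.b 3) (.n (.n (.b 3) (.n (.n (.b 3) (.b 8)) (.n (.n (.b 3) (.b 21)) (.b 4))))
  (.b 10))) (.n (.n (.b 3) (.n (.n (.b 3) (.n (.n (.b 3) (.b 81)) (.n (.n (.b 3) (.b 10)) (.b
  4)))) (.b 9))) (.b 4)))) (.b 4)))) (.b 10))) (.n (.n (.b 3) (.n (.n (.b 3) (.n (.b 30) (.n (.n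
  (.b 3) (.b 10)) (.b 4)))) (.b 9))) (.b 4)))) (.b 4)))) (.n (.n (.b 3) (.b 10)) (.b 4)))) (.b
  9))) (.b 4)))) (.b 4)))) (.n (.n (.b 3) (.b 10)) (.b 4)))) (.b 9))) (.b 4)))) (.b 4)))) (.b
  10))) (.n (.n (.b 3) (.n (.n (.b 3) (.n (.b 30) (.n (.n (.b 3) (.b 10)) (.b 4)))) (.b 9))) (.b
  4)))) (.b 4)))) (.n (.n (.b 3) (.b 10)) (.b 4)))) (.b 9))) (.b 4)))) (.b 4)))) (.n (.n (.b 3)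
  (.b 10)) (.b 4)))) (.b 9))) (.b 4)))) (.b 4)))) (.b 10))) (.n (.n (.b 3) (.n (.n (.b 3) (.n (.b
  30) (.n (.n (.b 3) (.b 10)) (.b 4)))) (.b 9))) (.b 4)))) (.b 4)))) (.n (.n (.b 3) (.b 10)) (.b
  4)))) (.b 9))) (.b 4)))) (.b 4)))) (.n (.n (.b 3) (.b 10)) (.b 4)))) (.b 9))) (.b 4)))) (.b
  4)))) (.b 10))) (.n (.n (.b 3) (.n (.n (.b 3) (.n (.n (.b 3) (.n (.n (.b 3) (.b 8)) (.n (.n (.b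
  3) (.n (.n (.b 3) (.n (.n (.b 3) (.n (.n (.b 3) (.b 8)) (.n (.n (.b 3) (.n (.n (.b 3) (.n (.n
  (.b 3) (.n (.n (.b 3) (.b 8)) (.n (.n (.b 3) (.b 21)) (.b 4)))) (.b 10))) (.n (.n (.b 3) (.n (.n
  (.b 3) (.n (.n (.b 3) (.n (.n (.b 3) (.b 8)) (.n (.n (.b 3) (.n (.n (.b 3) (.n (.n (.b 3) (.n
  (.n (.b 3) (.b 8)) (.b 34))) (.b 10))) (.n (.n (.b 3) (.n (.n (.b 3) (.n (.n (.b 3) (.n (.n (.b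
  3) (.b 8)) (.n (.n (.b 3) (.n (.n (.b 3) (.n (.n (.b 3) (.n (.n (.b 3) (.b 8)) (.n (.n (.b 3)
  (.n (.n (.b 3) (.n (.n (.b 3) (.n (.n (.b 3) (.b 8)) (.n (.n (.b 3) (.b 21)) (.b 4)))) (.b 10)))
  (.n (.n (.b 3) (.n (.n (.b 3) (.n (.n (.b 3) (.n (.n (.b 3) (.b 8)) (.n (.n (.b 3) (.n (.n (.b
  3) (.n (.n (.b 3) (.n (.n (.b 3) (.b 8)) (.b 34))) (.b 10))) (.n (.n (.b 3) (.n (.n (.b 3) (.n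
  (.n (.b 3) (.n (.n (.b 3) (.b 8)) (.n (.n (.b 3) (.n (.n (.b 3) (.n (.n (.b 3) (.n (.n (.b 3)
  (.b 8)) (.n (.n (.b 3) (.n (.n (.b 3) (.n (.n (.b 3) (.n (.n (.b 3) (.b 8)) (.n (.n (.b 3) (.b
  21)) (.b 4)))) (.b 10))) (.n (.n (.b 3) (.n (.n (.b 3) (.n (.n (.b 3) (.n (.n (.b 3) (.b 8)) (.n
  (.n (.b 3) (.n (.n (.b 3) (.n (.n (.b 3) (.n (.n (.b 3) (.b 8)) (.b 34))) (.b 10))) (.n (.n (.b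
  3) (.n (.n (.b 3) (.n (.n (.b 3) (.n (.n (.b 3) (.b 8)) (.n (.n (.b 3) (.n (.n (.b 3) (.n (.n
  (.b 3) (.b 81)) (.b 10))) (.n (.n (.b 3) (.n (.n (.b 3) (.n (.b 30) (.n (.n (.b 3) (.b 10)) (.b
  4)))) (.b 9))) (.b 4)))) (.b 4)))) (.n (.n (.b 3) (.b 10)) (.b 4)))) (.b 9))) (.b 4)))) (.b
  4)))) (.n (.n (.b 3) (.b 10)) (.b 4)))) (.b 9))) (.b 4)))) (.b 4)))) (.b 10))) (.n (.n (.b 3)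
  (.n (.n (.b 3) (.n (.b 30) (.n (.n (.b 3) (.b 10)) (.b 4)))) (.b 9))) (.b 4)))) (.b 4)))) (.n
  (.n (.b 3) (.b 10)) (.b 4)))) (.b 9))) (.b 4)))) (.b 4)))) (.n (.n (.b 3) (.b 10)) (.b 4)))) (.b
  9))) (.b 4)))) (.b 4)))) (.b 10))) (.n (.n (.b 3) (.n (.n (.b 3) (.n (.b 30) (.n (.n (.b 3) (.b
  10)) (.b 4)))) (.b 9))) (.b 4)))) (.b 4)))) (.n (.n (.b 3) (.b 10)) (.b 4)))) (.b 9))) (.b 4))))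
  (.b 4)))) (.n (.n (.b 3) (.b 10)) (.b 4)))) (.b 9))) (.b 4)))) (.b 4)))) (.b 10))) (.n (.n (.b
  3) (.n (.n (.b 3) (.n (.n (.b 3) (.n (.n (.b 3) (.b 8)) (.n (.n (.b 3) (.n (.n (.b 3) (.n (.n
  (.b 3) (.n (.n (.b 3) (.b 8)) (.n (.n (.b 3) (.n (.n (.b 3) (.n (.n (.b 3) (.n (.n (.b 3) (.b
  8)) (.n (.n (.b 3) (.b 21)) (.b 4)))) (.b 10))) (.n (.n (.b 3) (.n (.n (.b 3) (.n (.n (.b 3) (.n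
  (.n (.b 3) (.b 8)) (.n (.n (.b 3) (.n (.n (.b 3) (.n (.n (.b 3) (.n (.n (.b 3) (.b 8)) (.b 34)))
  (.b 10))) (.n (.n (.b 3) (.n (.n (.b 3) (.n (.n (.b 3) (.n (.n (.b 3) (.b 8)) (.n (.n (.b 3) (.n
  (.n (.b 3) (.n (.n (.b 3) (.n (.n (.b 3) (.b 8)) (.n (.n (.b 3) (.n (.n (.b 3) (.n (.n (.b 3)
  (.n (.n (.b 3) (.b 8)) (.n (.n (.b 3) (.b 21)) (.b 4)))) (.b 10))) (.n (.n (.b 3) (.n (.n (.b 3)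
  (.n (.n (.b 3) (.n (.n (.b 3) (.b 8)) (.n (.n (.b 3) (.n (.n (.b 3) (.n (.n (.b 3) (.n (.n (.b
  3) (.b 8)) (.b 34))) (.b 10))) (.n (.n (.b 3) (.n (.n (.b 3) (.n (.n (.b 3) (.n (.n (.b 3) (.b
  8)) (.n (.n (.b 3) (.n (.n (.b 3) (.n (.n (.b 3) (.n (.n (.b 3) (.b 8)) (.n (.n (.b 3) (.n (.n
  (.b 3) (.n (.n (.b 3) (.n (.n (.b 3) (.b 8)) (.n (.n (.b 3) (.b 21)) (.b 4)))) (.b 10))) (.n (.n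
  (.b 3) (.n (.n (.b 3) (.n (.n (.b 3) (.n (.n (.b 3) (.b 8)) (.n (.n (.b 3) (.n (.n (.b 3) (.n
  (.n (.b 3) (.n (.n (.b 3) (.b 8)) (.b 34))) (.b 10))) (.n (.n (.b 3) (.n (.n (.b 3) (.n (.n (.b
  3) (.b 81)) (.n (.n (.b 3) (.b 10)) (.b 4)))) (.b 9))) (.b 4)))) (.b 4)))) (.n (.n (.b 3) (.b
  10)) (.b 4)))) (.b 9))) (.b 4)))) (.b 4)))) (.b 10))) (.n (.n (.b 3) (.n (.n (.b 3) (.n (.b 30)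
  (.n (.n (.b 3) (.b 10)) (.b 4)))) (.b 9))) (.b 4)))) (.b 4)))) (.n (.n (.b 3) (.b 10)) (.b 4))))
  (.b 9))) (.b 4)))) (.b 4)))) (.n (.n (.b 3) (.b 10)) (.b 4)))) (.b 9))) (.b 4)))) (.b 4)))) (.b
  10))) (.n (.n (.b 3) (.n (.n (.b 3) (.n (.b 30) (.n (.n (.b 3) (.b 10)) (.b 4)))) (.b 9))) (.b
  4)))) (.b 4)))) (.n (.n (.b 3) (.b 10)) (.b 4)))) (.b 9))) (.b 4)))) (.b 4)))) (.n (.n (.b 3)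
  (.b 10)) (.b 4)))) (.b 9))) (.b 4)))) (.b 4)))) (.b 10))) (.n (.n (.b 3) (.b 30)) (.b 4)))) (.b
  4)))) (.n (.n (.b 3) (.b 10)) (.b 4)))) (.b 9))) (.b 4)))) (.b 4)))) (.n (.n (.b 3) (.b 10)) (.b
  4)))) (.b 9))) (.b 4)))) (.b 4)))) (.n (.n (.b 3) (.b 10)) (.b 4)))) (.b 9))) (.b 4)))) (.b 4))

/-- A subtree of the table. -/
def s15 : T :=
  (.b 3)

/-- A subtree of the table. -/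
def s16 : T :=
  (.n (.b 3) (.n (.n (.b 3) (.n (.n (.b 3) (.b 8)) (.n (.n (.b 3) (.n (.n (.b 3) (.n (.n (.b 3)
  (.n (.n (.b 3) (.b 8)) (.n (.n (.b 3) (.n (.n (.b 3) (.n (.n (.b 3) (.n (.n (.b 3) (.b 8)) (.n
  (.n (.b 3) (.n (.n (.b 3) (.b 21)) (.n (.n (.b 3) (.n (.n (.b 3) (.n (.n (.b 3) (.n (.n (.b 3)
  (.b 8)) (.n (.n (.b 3) (.n (.n (.b 3) (.n (.n (.b 3) (.n (.n (.b 3) (.b 8)) (.n (.n (.b 3) (.n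
  (.n (.b 3) (.n (.n (.b 3) (.n (.n (.b 3) (.b 8)) (.n (.n (.b 3) (.b 21)) (.b 4)))) (.b 10))) (.n
  (.n (.b 3) (.n (.n (.b 3) (.n (.n (.b 3) (.n (.n (.b 3) (.b 8)) (.b 34))) (.n (.n (.b 3) (.b
  10)) (.b 4)))) (.b 9))) (.b 4)))) (.b 4)))) (.b 10))) (.n (.n (.b 3) (.n (.n (.b 3) (.n (.n (.b
  3) (.n (.n (.b 3) (.b 8)) (.n (.n (.b 3) (.n (.n (.b 3) (.n (.n (.b 3) (.n (.n (.b 3) (.b 8))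
  (.n (.n (.b 3) (.n (.n (.b 3) (.n (.n (.b 3) (.n (.n (.b 3) (.b 8)) (.n (.n (.b 3) (.b 21)) (.b
  4)))) (.b 10))) (.n (.n (.b 3) (.n (.n (.b 3) (.n (.n (.b 3) (.n (.n (.b 3) (.b 8)) (.n (.n (.b
  3) (.n (.n (.b 3) (.n (.n (.b 3) (.n (.n (.b 3) (.b 8)) (.b 34))) (.b 10))) (.n (.n (.b 3) (.n
  (.n (.b 3) (.n (.n (.b 3) (.n (.n (.b 3) (.b 8)) (.n (.n (.b 3) (.n (.n (.b 3) (.n (.n (.b 3)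
  (.n (.n (.b 3) (.b 8)) (.n (.n (.b 3) (.n (.n (.b 3) (.n (.n (.b 3) (.n (.n (.b 3) (.b 8)) (.n
  (.n (.b 3) (.b 21)) (.b 4)))) (.b 10))) (.n (.n (.b 3) (.n (.n (.b 3) (.n (.n (.b 3) (.n (.n (.b
  3) (.b 8)) (.n (.n (.b 3) (.n (.n (.b 3) (.n (.n (.b 3) (.n (.n (.b 3) (.b 8)) (.b 34))) (.b
  10))) (.n (.n (.b 3) (.n (.n (.b 3) (.n (.n (.b 3) (.n (.n (.b 3) (.b 8)) (.n (.n (.b 3) (.n (.n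
  (.b 3) (.n (.n (.b 3) (.n (.n (.b 3) (.b 8)) (.n (.n (.b 3) (.n (.n (.b 3) (.n (.n (.b 3) (.n
  (.n (.b 3) (.b 8)) (.n (.n (.b 3) (.b 21)) (.b 4)))) (.b 10))) (.n (.n (.b 3) (.n (.n (.b 3) (.n
  (.n (.b 3) (.n (.n (.b 3) (.b 8)) (.n (.n (.b 3) (.b 81)) (.b 4)))) (.n (.n (.b 3) (.b 10)) (.b
  4)))) (.b 9))) (.b 4)))) (.b 4)))) (.b 10))) (.n (.n (.b 3) (.n (.n (.b 3) (.n (.b 30) (.n (.n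
  (.b 3) (.b 10)) (.b 4)))) (.b 9))) (.b 4)))) (.b 4)))) (.n (.n (.b 3) (.b 10)) (.b 4)))) (.b
  9))) (.b 4)))) (.b 4)))) (.n (.n (.b 3) (.b 10)) (.b 4)))) (.b 9))) (.b 4)))) (.b 4)))) (.b
  10))) (.n (.n (.b 3) (.n (.n (.b 3) (.n (.b 30) (.n (.n (.b 3) (.b 10)) (.b 4)))) (.b 9))) (.b
  4)))) (.b 4)))) (.n (.n (.b 3) (.b 10)) (.b 4)))) (.b 9))) (.b 4)))) (.b 4)))) (.n (.n (.b 3)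
  (.b 10)) (.b 4)))) (.b 9))) (.b 4)))) (.b 4)))) (.b 10))) (.n (.n (.b 3) (.n (.n (.b 3) (.n (.b
  30) (.n (.n (.b 3) (.b 10)) (.b 4)))) (.b 9))) (.b 4)))) (.b 4)))) (.n (.n (.b 3) (.b 10)) (.b
  4)))) (.b 9))) (.b 4)))) (.b 4)))) (.n (.n (.b 3) (.b 10)) (.b 4)))) (.b 9))) (.b 4)))) (.b
  4)))) (.b 10))) (.n (.n (.b 3) (.n (.n (.b 3) (.n (.n (.b 3) (.n (.n (.b 3) (.b 8)) (.n (.n (.b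
  3) (.n (.n (.b 3) (.n (.n (.b 3) (.n (.n (.b 3) (.b 8)) (.n (.n (.b 3) (.n (.n (.b 3) (.n (.n
  (.b 3) (.n (.n (.b 3) (.b 8)) (.n (.n (.b 3) (.b 21)) (.b 4)))) (.b 10))) (.n (.n (.b 3) (.n (.n
  (.b 3) (.n (.n (.b 3) (.n (.n (.b 3) (.b 8)) (.n (.n (.b 3) (.b 34)) (.b 4)))) (.n (.n (.b 3)
  (.b 10)) (.b 4)))) (.b 9))) (.b 4)))) (.b 4)))) (.b 10))) (.n (.n (.b 3) (.n (.n (.b 3) (.n (.n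
  (.b 3) (.n (.n (.b 3) (.b 8)) (.n (.n (.b 3) (.n (.n (.b 3) (.n (.n (.b 3) (.n (.n (.b 3) (.b
  8)) (.n (.n (.b 3) (.n (.n (.b 3) (.n (.n (.b 3) (.n (.n (.b 3) (.b 8)) (.n (.n (.b 3) (.b 21))
  (.b 4)))) (.b 10))) (.n (.n (.b 3) (.n (.n (.b 3) (.n (.n (.b 3) (.n (.n (.b 3) (.b 8)) (.n (.n
  (.b 3) (.n (.n (.b 3) (.n (.n (.b 3) (.n (.n (.b 3) (.b 8)) (.b 34))) (.b 10))) (.n (.n (.b 3)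
  (.n (.n (.b 3) (.n (.n (.b 3) (.n (.n (.b 3) (.b 8)) (.n (.n (.b 3) (.n (.n (.b 3) (.n (.n (.b
  3) (.n (.n (.b 3) (.b 8)) (.n (.n (.b 3) (.n (.n (.b 3) (.n (.n (.b 3) (.n (.n (.b 3) (.b 8))
  (.n (.n (.b 3) (.b 21)) (.b 4)))) (.b 10))) (.n (.n (.b 3) (.n (.n (.b 3) (.n (.n (.b 3) (.n (.n
  (.b 3) (.b 8)) (.n (.n (.b 3) (.n (.n (.b 3) (.n (.n (.b 3) (.n (.n (.b 3) (.b 8)) (.b 34))) (.b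
  10))) (.n (.n (.b 3) (.n (.n (.b 3) (.n (.n (.b 3) (.n (.n (.b 3) (.b 8)) (.n (.n (.b 3) (.n (.n
  (.b 3) (.n (.n (.b 3) (.n (.n (.b 3) (.b 8)) (.n (.n (.b 3) (.n (.n (.b 3) (.n (.n (.b 3) (.n
  (.n (.b 3) (.b 8)) (.n (.n (.b 3) (.b 21)) (.b 4)))) (.b 10))) (.n (.n (.b 3) (.n (.n (.b 3) (.n
  (.n (.b 3) (.n (.n (.b 3) (.b 8)) (.n (.n (.b 3) (.n (.n (.b 3) (.n (.n (.b 3) (.n (.n (.b 3)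
  (.b 8)) (.b 34))) (.b 10))) (.n (.b 81) (.b 4)))) (.b 4)))) (.n (.n (.b 3) (.b 10)) (.b 4))))
  (.b 9))) (.b 4)))) (.b 4)))) (.b 10))) (.n (.n (.b 3) (.n (.n (.b 3) (.n (.b 30) (.n (.n (.b 3)
  (.b 10)) (.b 4)))) (.b 9))) (.b 4)))) (.b 4)))) (.n (.n (.b 3) (.b 10)) (.b 4)))) (.b 9))) (.b
  4)))) (.b 4)))) (.n (.n (.b 3) (.b 10)) (.b 4)))) (.b 9))) (.b 4)))) (.b 4)))) (.b 10))) (.n (.n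
  (.b 3) (.n (.n (.b 3) (.n (.b 30) (.n (.n (.b 3) (.b 10)) (.b 4)))) (.b 9))) (.b 4)))) (.b 4))))
  (.n (.n (.b 3) (.b 10)) (.b 4)))) (.b 9))) (.b 4)))) (.b 4)))) (.n (.n (.b 3) (.b 10)) (.b 4))))
  (.b 9))) (.b 4)))) (.b 4)))) (.b 10))) (.n (.n (.b 3) (.n (.n (.b 3) (.n (.b 30) (.n (.n (.b 3)
  (.b 10)) (.b 4)))) (.b 9))) (.b 4)))) (.b 4)))) (.n (.n (.b 3) (.b 10)) (.b 4)))) (.b 9))) (.b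
  4)))) (.b 4)))) (.n (.n (.b 3) (.b 10)) (.b 4)))) (.b 9))) (.b 4)))) (.b 4)))) (.b 10))) (.n (.n
  (.b 3) (.n (.n (.b 3) (.n (.n (.b 3) (.n (.n (.b 3) (.b 8)) (.n (.n (.b 3) (.n (.n (.b 3) (.n
  (.n (.b 3) (.n (.n (.b 3) (.b 8)) (.n (.n (.b 3) (.n (.n (.b 3) (.n (.n (.b 3) (.n (.n (.b 3)
  (.b 8)) (.n (.n (.b 3) (.b 21)) (.b 4)))) (.b 10))) (.n (.n (.b 3) (.n (.n (.b 3) (.n (.n (.b 3)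
  (.n (.n (.b 3) (.b 8)) (.n (.n (.b 3) (.n (.n (.b 3) (.n (.n (.b 3) (.n (.n (.b 3) (.b 8)) (.n
  (.n (.b 3) (.b 34)) (.b 4)))) (.b 10))) (.n (.n (.b 3) (.n (.n (.b 3) (.n (.n (.b 3) (.n (.n (.b
  3) (.b 8)) (.n (.n (.b 3) (.n (.n (.b 3) (.n (.n (.b 3) (.n (.n (.b 3) (.b 8)) (.n (.n (.b 3)
  (.n (.n (.b 3) (.n (.n (.b 3) (.n (.n (.b 3) (.b 8)) (.n (.n (.b 3) (.b 21)) (.b 4)))) (.b 10)))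
  (.n (.n (.b 3) (.n (.n (.b 3) (.n (.n (.b 3) (.n (.n (.b 3) (.b 8)) (.n (.n (.b 3) (.n (.n (.b
  3) (.n (.n (.b 3) (.n (.n (.b 3) (.b 8)) (.b 34))) (.b 10))) (.n (.n (.b 3) (.n (.n (.b 3) (.n
  (.n (.b 3) (.n (.n (.b 3) (.b 8)) (.n (.n (.b 3) (.n (.n (.b 3) (.n (.n (.b 3) (.n (.n (.b 3)
  (.b 8)) (.n (.n (.b 3) (.n (.n (.b 3) (.n (.n (.b 3) (.n (.n (.b 3) (.b 8)) (.n (.n (.b 3) (.b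
  21)) (.b 4)))) (.b 10))) (.n (.n (.b 3) (.n (.n (.b 3) (.n (.n (.b 3) (.n (.n (.b 3) (.b 8)) (.n
  (.n (.b 3) (.n (.n (.b 3) (.n (.n (.b 3) (.n (.n (.b 3) (.b 8)) (.b 34))) (.b 10))) (.n (.n (.b
  3) (.n (.n (.b 3) (.n (.n (.b 3) (.n (.n (.b 3) (.b 8)) (.n (.n (.b 3) (.n (.n (.b 3) (.n (.n
  (.b 3) (.n (.n (.b 3) (.b 8)) (.n (.n (.b 3) (.n (.n (.b 3) (.n (.n (.b 3) (.n (.n (.b 3) (.b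
  8)) (.n (.n (.b 3) (.b 21)) (.b 4)))) (.b 10))) (.n (.b 81) (.b 4)))) (.b 4)))) (.b 10))) (.n
  (.n (.b 3) (.n (.n (.b 3) (.n (.b 30) (.n (.n (.b 3) (.b 10)) (.b 4)))) (.b 9))) (.b 4)))) (.b
  4)))) (.n (.n (.b 3) (.b 10)) (.b 4)))) (.b 9))) (.b 4)))) (.b 4)))) (.n (.n (.b 3) (.b 10)) (.b
  4)))) (.b 9))) (.b 4)))) (.b 4)))) (.b 10))) (.n (.n (.b 3) (.n (.n (.b 3) (.n (.b 30) (.n (.n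
  (.b 3) (.b 10)) (.b 4)))) (.b 9))) (.b 4)))) (.b 4)))) (.n (.n (.b 3) (.b 10)) (.b 4)))) (.b
  9))) (.b 4)))) (.b 4)))) (.n (.n (.b 3) (.b 10)) (.b 4)))) (.b 9))) (.b 4)))) (.b 4)))) (.b
  10))) (.n (.n (.b 3) (.n (.n (.b 3) (.n (.b 30) (.n (.n (.b 3) (.b 10)) (.b 4)))) (.b 9))) (.b
  4)))) (.b 4)))) (.n (.n (.b 3) (.b 10)) (.b 4)))) (.b 9))) (.b 4)))) (.b 4)))) (.n (.n (.b 3)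
  (.b 10)) (.b 4)))) (.b 9))) (.b 4)))) (.b 4)))) (.b 10))) (.n (.n (.b 3) (.n (.n (.b 3) (.n (.n
  (.b 3) (.n (.n (.b 3) (.b 8)) (.n (.n (.b 3) (.n (.n (.b 3) (.n (.n (.b 3) (.n (.n (.b 3) (.b
  8)) (.n (.n (.b 3) (.n (.n (.b 3) (.n (.n (.b 3) (.n (.n (.b 3) (.b 8)) (.n (.n (.b 3) (.b 21))
  (.b 4)))) (.b 10))) (.n (.n (.b 3) (.n (.n (.b 3) (.n (.n (.b 3) (.n (.n (.b 3) (.b 8)) (.n (.n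
  (.b 3) (.n (.n (.b 3) (.n (.n (.b 3) (.n (.n (.b 3) (.b 8)) (.b 34))) (.b 10))) (.n (.n (.b 3)
  (.n (.n (.b 3) (.n (.n (.b 3) (.n (.n (.b 3) (.b 8)) (.n (.n (.b 3) (.n (.n (.b 3) (.n (.n (.b
  3) (.n (.n (.b 3) (.b 8)) (.n (.n (.b 3) (.n (.n (.b 3) (.n (.n (.b 3) (.n (.n (.b 3) (.b 8))
  (.n (.n (.b 3) (.b 21)) (.b 4)))) (.b 10))) (.n (.n (.b 3) (.n (.n (.b 3) (.n (.n (.b 3) (.n (.n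
  (.b 3) (.b 8)) (.n (.n (.b 3) (.n (.n (.b 3) (.n (.n (.b 3) (.n (.n (.b 3) (.b 8)) (.b 34))) (.b
  10))) (.n (.n (.b 3) (.n (.n (.b 3) (.n (.n (.b 3) (.n (.n (.b 3) (.b 8)) (.n (.n (.b 3) (.n (.n
  (.b 3) (.n (.n (.b 3) (.n (.n (.b 3) (.b 8)) (.n (.n (.b 3) (.n (.n (.b 3) (.n (.n (.b 3) (.n
  (.n (.b 3) (.b 8)) (.n (.n (.b 3) (.b 21)) (.b 4)))) (.b 10))) (.n (.n (.b 3) (.n (.n (.b 3) (.n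
  (.n (.b 3) (.n (.n (.b 3) (.b 8)) (.n (.n (.b 3) (.n (.n (.b 3) (.n (.n (.b 3) (.n (.n (.b 3)
  (.b 8)) (.b 34))) (.b 10))) (.n (.n (.b 3) (.n (.n (.b 3) (.n (.n (.b 3) (.n (.n (.b 3) (.b 8))
  (.n (.b 81) (.b 4)))) (.n (.n (.b 3) (.b 10)) (.b 4)))) (.b 9))) (.b 4)))) (.b 4)))) (.n (.n (.b
  3) (.b 10)) (.b 4)))) (.b 9))) (.b 4)))) (.b 4)))) (.b 10))) (.n (.n (.b 3) (.n (.n (.b 3) (.n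
  (.b 30) (.n (.n (.b 3) (.b 10)) (.b 4)))) (.b 9))) (.b 4)))) (.b 4)))) (.n (.n (.b 3) (.b 10))
  (.b 4)))) (.b 9))) (.b 4)))) (.b 4)))) (.n (.n (.b 3) (.b 10)) (.b 4)))) (.b 9))) (.b 4)))) (.b
  4)))) (.b 10))) (.n (.n (.b 3) (.n (.n (.b 3) (.n (.b 30) (.n (.n (.b 3) (.b 10)) (.b 4)))) (.b
  9))) (.b 4)))) (.b 4)))) (.n (.n (.b 3) (.b 10)) (.b 4)))) (.b 9))) (.b 4)))) (.b 4)))) (.n (.n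
  (.b 3) (.b 10)) (.b 4)))) (.b 9))) (.b 4)))) (.b 4)))) (.b 10))) (.n (.n (.b 3) (.n (.n (.b 3)
  (.n (.n (.b 3) (.n (.n (.b 3) (.b 8)) (.b 30))) (.n (.n (.b 3) (.b 10)) (.b 4)))) (.b 9))) (.b
  4)))) (.b 4)))) (.n (.n (.b 3) (.b 10)) (.b 4)))) (.b 9))) (.b 4)))) (.b 4)))) (.n (.n (.b 3)
  (.b 10)) (.b 4)))) (.b 9))) (.b 4)))) (.b 4)))) (.n (.n (.b 3) (.n (.n (.b 3) (.b 10)) (.n (.n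
  (.b 3) (.n (.n (.b 3) (.n (.n (.b 3) (.n (.n (.b 3) (.b 8)) (.n (.n (.b 3) (.n (.n (.b 3) (.n
  (.n (.b 3) (.n (.n (.b 3) (.b 8)) (.n (.n (.b 3) (.n (.n (.b 3) (.n (.n (.b 3) (.n (.n (.b 3)
  (.b 8)) (.n (.n (.b 3) (.b 21)) (.b 4)))) (.b 10))) (.n (.n (.b 3) (.n (.n (.b 3) (.n (.n (.b 3)
  (.n (.n (.b 3) (.b 8)) (.n (.n (.b 3) (.n (.n (.b 3) (.n (.n (.b 3) (.n (.n (.b 3) (.b 8)) (.n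
  (.n (.b 3) (.n (.n (.b 3) (.n (.n (.b 3) (.n (.n (.b 3) (.b 8)) (.n (.n (.b 3) (.b 21)) (.b
  4)))) (.b 10))) (.n (.n (.b 3) (.b 34)) (.b 4)))) (.b 4)))) (.b 10))) (.n (.n (.b 3) (.n (.n (.b
  3) (.n (.n (.b 3) (.n (.n (.b 3) (.b 8)) (.n (.n (.b 3) (.n (.n (.b 3) (.n (.n (.b 3) (.n (.n
  (.b 3) (.b 8)) (.n (.n (.b 3) (.n (.n (.b 3) (.n (.n (.b 3) (.n (.n (.b 3) (.b 8)) (.n (.n (.b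
  3) (.b 21)) (.b 4)))) (.b 10))) (.n (.n (.b 3) (.n (.n (.b 3) (.n (.n (.b 3) (.n (.n (.b 3) (.b
  8)) (.n (.n (.b 3) (.n (.n (.b 3) (.n (.n (.b 3) (.n (.n (.b 3) (.b 8)) (.b 34))) (.b 10))) (.n
  (.n (.b 3) (.n (.n (.b 3) (.n (.n (.b 3) (.n (.n (.b 3) (.b 8)) (.n (.n (.b 3) (.n (.n (.b 3)
  (.n (.n (.b 3) (.n (.n (.b 3) (.b 8)) (.n (.n (.b 3) (.n (.n (.b 3) (.n (.n (.b 3) (.n (.n (.b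
  3) (.b 8)) (.n (.n (.b 3) (.b 21)) (.b 4)))) (.b 10))) (.n (.n (.b 3) (.n (.n (.b 3) (.n (.n (.b
  3) (.n (.n (.b 3) (.b 8)) (.n (.n (.b 3) (.n (.n (.b 3) (.n (.n (.b 3) (.n (.n (.b 3) (.b 8))
  (.b 34))) (.b 10))) (.n (.n (.b 3) (.n (.n (.b 3) (.n (.n (.b 3) (.n (.n (.b 3) (.b 8)) (.n (.n
  (.b 3) (.n (.n (.b 3) (.n (.n (.b 3) (.n (.n (.b 3) (.b 8)) (.n (.n (.b 3) (.n (.n (.b 3) (.n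
  (.n (.b 3) (.n (.n (.b 3) (.b 8)) (.n (.n (.b 3) (.b 21)) (.b 4)))) (.b 10))) (.n (.n (.b 3) (.n
  (.n (.b 3) (.b 81)) (.b 9))) (.b 4)))) (.b 4)))) (.b 10))) (.n (.n (.b 3) (.n (.n (.b 3) (.n (.b
  30) (.n (.n (.b 3) (.b 10)) (.b 4)))) (.b 9))) (.b 4)))) (.b 4)))) (.n (.n (.b 3) (.b 10)) (.b
  4)))) (.b 9))) (.b 4)))) (.b 4)))) (.n (.n (.b 3) (.b 10)) (.b 4)))) (.b 9))) (.b 4)))) (.b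
  4)))) (.b 10))) (.n (.n (.b 3) (.n (.n (.b 3) (.n (.b 30) (.n (.n (.b 3) (.b 10)) (.b 4)))) (.b
  9))) (.b 4)))) (.b 4)))) (.n (.n (.b 3) (.b 10)) (.b 4)))) (.b 9))) (.b 4)))) (.b 4)))) (.n (.n
  (.b 3) (.b 10)) (.b 4)))) (.b 9))) (.b 4)))) (.b 4)))) (.b 10))) (.n (.n (.b 3) (.n (.n (.b 3)
  (.n (.b 30) (.n (.n (.b 3) (.b 10)) (.b 4)))) (.b 9))) (.b 4)))) (.b 4)))) (.n (.n (.b 3) (.b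
  10)) (.b 4)))) (.b 9))) (.b 4)))) (.b 4)))) (.n (.n (.b 3) (.b 10)) (.b 4)))) (.b 9))) (.b 4))))
  (.b 4)))) (.b 10))) (.n (.n (.b 3) (.n (.n (.b 3) (.n (.n (.b 3) (.n (.n (.b 3) (.b 8)) (.n (.n
  (.b 3) (.n (.n (.b 3) (.n (.n (.b 3) (.n (.n (.b 3) (.b 8)) (.n (.n (.b 3) (.n (.n (.b 3) (.n
  (.n (.b 3) (.n (.n (.b 3) (.b 8)) (.n (.n (.b 3) (.b 21)) (.b 4)))) (.b 10))) (.n (.n (.b 3) (.n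
  (.n (.b 3) (.n (.n (.b 3) (.n (.n (.b 3) (.b 8)) (.n (.n (.b 3) (.n (.n (.b 3) (.n (.n (.b 3)
  (.n (.n (.b 3) (.b 8)) (.b 34))) (.b 10))) (.n (.n (.b 3) (.n (.n (.b 3) (.n (.n (.b 3) (.n (.n
  (.b 3) (.b 8)) (.n (.n (.b 3) (.n (.n (.b 3) (.n (.n (.b 3) (.n (.n (.b 3) (.b 8)) (.n (.n (.b
  3) (.n (.n (.b 3) (.n (.n (.b 3) (.n (.n (.b 3) (.b 8)) (.n (.n (.b 3) (.b 21)) (.b 4)))) (.b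
  10))) (.n (.n (.b 3) (.n (.n (.b 3) (.n (.n (.b 3) (.n (.n (.b 3) (.b 8)) (.n (.n (.b 3) (.n (.n
  (.b 3) (.n (.n (.b 3) (.n (.n (.b 3) (.b 8)) (.b 34))) (.b 10))) (.n (.n (.b 3) (.n (.n (.b 3)
  (.n (.n (.b 3) (.n (.n (.b 3) (.b 8)) (.n (.n (.b 3) (.n (.n (.b 3) (.n (.n (.b 3) (.n (.n (.b
  3) (.b 8)) (.n (.n (.b 3) (.n (.n (.b 3) (.n (.n (.b 3) (.n (.n (.b 3) (.b 8)) (.n (.n (.b 3)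
  (.b 21)) (.b 4)))) (.b 10))) (.n (.n (.b 3) (.n (.n (.b 3) (.n (.n (.b 3) (.n (.n (.b 3) (.b 8))
  (.n (.n (.b 3) (.n (.n (.b 3) (.n (.n (.b 3) (.n (.n (.b 3) (.b 8)) (.b 34))) (.b 10))) (.n (.n
  (.b 3) (.n (.n (.b 3) (.n (.n (.b 3) (.n (.n (.b 3) (.b 8)) (.n (.n (.b 3) (.n (.n (.b 3) (.b
  81)) (.n (.n (.b 3) (.n (.n (.b 3) (.n (.b 30) (.n (.n (.b 3) (.b 10)) (.b 4)))) (.b 9))) (.b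
  4)))) (.b 4)))) (.n (.n (.b 3) (.b 10)) (.b 4)))) (.b 9))) (.b 4)))) (.b 4)))) (.n (.n (.b 3)
  (.b 10)) (.b 4)))) (.b 9))) (.b 4)))) (.b 4)))) (.b 10))) (.n (.n (.b 3) (.n (.n (.b 3) (.n (.b
  30) (.n (.n (.b 3) (.b 10)) (.b 4)))) (.b 9))) (.b 4)))) (.b 4)))) (.n (.n (.b 3) (.b 10)) (.b
  4)))) (.b 9))) (.b 4)))) (.b 4)))) (.n (.n (.b 3) (.b 10)) (.b 4)))) (.b 9))) (.b 4)))) (.b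
  4)))) (.b 10))) (.n (.n (.b 3) (.n (.n (.b 3) (.n (.b 30) (.n (.n (.b 3) (.b 10)) (.b 4)))) (.b
  9))) (.b 4)))) (.b 4)))) (.n (.n (.b 3) (.b 10)) (.b 4)))) (.b 9))) (.b 4)))) (.b 4)))) (.n (.n
  (.b 3) (.b 10)) (.b 4)))) (.b 9))) (.b 4)))) (.b 4)))) (.b 10))) (.n (.n (.b 3) (.n (.n (.b 3)
  (.n (.n (.b 3) (.n (.n (.b 3) (.b 8)) (.n (.n (.b 3) (.n (.n (.b 3) (.n (.n (.b 3) (.n (.n (.b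
  3) (.b 8)) (.n (.n (.b 3) (.n (.n (.b 3) (.n (.n (.b 3) (.n (.n (.b 3) (.b 8)) (.n (.n (.b 3)
  (.b 21)) (.b 4)))) (.b 10))) (.n (.n (.b 3) (.n (.n (.b 3) (.n (.n (.b 3) (.n (.n (.b 3) (.b 8))
  (.n (.n (.b 3) (.n (.n (.b 3) (.n (.n (.b 3) (.n (.n (.b 3) (.b 8)) (.b 34))) (.b 10))) (.n (.n
  (.b 3) (.n (.n (.b 3) (.n (.n (.b 3) (.n (.n (.b 3) (.b 8)) (.n (.n (.b 3) (.n (.n (.b 3) (.n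
  (.n (.b 3) (.n (.n (.b 3) (.b 8)) (.n (.n (.b 3) (.n (.n (.b 3) (.n (.n (.b 3) (.n (.n (.b 3)
  (.b 8)) (.n (.n (.b 3) (.b 21)) (.b 4)))) (.b 10))) (.n (.n (.b 3) (.n (.n (.b 3) (.n (.n (.b 3)
  (.n (.n (.b 3) (.b 8)) (.n (.n (.b 3) (.n (.n (.b 3) (.n (.n (.b 3) (.n (.n (.b 3) (.b 8)) (.b
  34))) (.b 10))) (.n (.n (.b 3) (.n (.n (.b 3) (.n (.n (.b 3) (.n (.n (.b 3) (.b 8)) (.n (.n (.b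
  3) (.n (.n (.b 3) (.n (.n (.b 3) (.n (.n (.b 3) (.b 8)) (.n (.n (.b 3) (.n (.n (.b 3) (.n (.n
  (.b 3) (.n (.n (.b 3) (.b 8)) (.n (.n (.b 3) (.b 21)) (.b 4)))) (.b 10))) (.n (.n (.b 3) (.n (.n
  (.b 3) (.n (.n (.b 3) (.n (.n (.b 3) (.b 8)) (.n (.n (.b 3) (.n (.n (.b 3) (.n (.n (.b 3) (.n
  (.n (.b 3) (.b 8)) (.b 34))) (.b 10))) (.n (.n (.b 3) (.n (.n (.b 3) (.n (.n (.b 3) (.b 81)) (.n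
  (.n (.b 3) (.b 10)) (.b 4)))) (.b 9))) (.b 4)))) (.b 4)))) (.n (.n (.b 3) (.b 10)) (.b 4)))) (.b
  9))) (.b 4)))) (.b 4)))) (.b 10))) (.n (.n (.b 3) (.n (.n (.b 3) (.n (.b 30) (.n (.n (.b 3) (.b
  10)) (.b 4)))) (.b 9))) (.b 4)))) (.b 4)))) (.n (.n (.b 3) (.b 10)) (.b 4)))) (.b 9))) (.b 4))))
  (.b 4)))) (.n (.n (.b 3) (.b 10)) (.b 4)))) (.b 9))) (.b 4)))) (.b 4)))) (.b 10))) (.n (.n (.b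
  3) (.n (.n (.b 3) (.n (.b 30) (.n (.n (.b 3) (.b 10)) (.b 4)))) (.b 9))) (.b 4)))) (.b 4)))) (.n
  (.n (.b 3) (.b 10)) (.b 4)))) (.b 9))) (.b 4)))) (.b 4)))) (.n (.n (.b 3) (.b 10)) (.b 4)))) (.b
  9))) (.b 4)))) (.b 4)))) (.b 10))) (.b 30))) (.b 4)))) (.n (.n (.b 3) (.b 10)) (.b 4)))) (.b
  9))) (.b 4)))) (.b 4)))) (.n (.n (.b 3) (.b 10)) (.b 4)))) (.b 9))) (.b 4)))) (.b 4)))) (.n (.n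
  (.b 3) (.b 10)) (.b 4)))) (.b 9))) (.b 4)))) (.b 4))))

/-- A subtree of the table. -/
def s17 : T :=
  (.n (.n (.b 3) (.n (.n (.b 3) (.n (.n (.b 3) (.n (.n (.b 3) (.b 8)) (.n (.n (.b 3) (.n (.n (.b
  3) (.n (.n (.b 3) (.n (.n (.b 3) (.b 8)) (.n (.n (.b 3) (.n (.n (.b 3) (.n (.n (.b 3) (.n (.n
  (.b 3) (.b 8)) (.n (.n (.b 3) (.b 21)) (.b 4)))) (.b 10))) (.n (.n (.b 3) (.n (.n (.b 3) (.n (.n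
  (.b 3) (.n (.n (.b 3) (.b 8)) (.n (.n (.b 3) (.n (.n (.b 3) (.n (.n (.b 3) (.n (.n (.b 3) (.b
  8)) (.n (.n (.b 3) (.n (.n (.b 3) (.n (.n (.b 3) (.n (.n (.b 3) (.b 8)) (.n (.n (.b 3) (.b 21))
  (.b 4)))) (.b 10))) (.n (.n (.b 3) (.n (.n (.b 3) (.n (.n (.b 3) (.b 34)) (.n (.n (.b 3) (.b
  10)) (.b 4)))) (.b 9))) (.b 4)))) (.b 4)))) (.b 10))) (.n (.n (.b 3) (.n (.n (.b 3) (.n (.n (.b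
  3) (.n (.n (.b 3) (.b 8)) (.n (.n (.b 3) (.n (.n (.b 3) (.n (.n (.b 3) (.n (.n (.b 3) (.b 8))
  (.n (.n (.b 3) (.n (.n (.b 3) (.n (.n (.b 3) (.n (.n (.b 3) (.b 8)) (.n (.n (.b 3) (.b 21)) (.b
  4)))) (.b 10))) (.n (.n (.b 3) (.n (.n (.b 3) (.n (.n (.b 3) (.n (.n (.b 3) (.b 8)) (.n (.n (.b
  3) (.n (.n (.b 3) (.n (.n (.b 3) (.n (.n (.b 3) (.b 8)) (.b 34))) (.b 10))) (.n (.n (.b 3) (.n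
  (.n (.b 3) (.n (.n (.b 3) (.n (.n (.b 3) (.b 8)) (.n (.n (.b 3) (.n (.n (.b 3) (.n (.n (.b 3)
  (.n (.n (.b 3) (.b 8)) (.n (.n (.b 3) (.n (.n (.b 3) (.n (.n (.b 3) (.n (.n (.b 3) (.b 8)) (.n
  (.n (.b 3) (.b 21)) (.b 4)))) (.b 10))) (.n (.n (.b 3) (.n (.n (.b 3) (.n (.n (.b 3) (.n (.n (.b
  3) (.b 8)) (.n (.n (.b 3) (.n (.n (.b 3) (.n (.n (.b 3) (.n (.n (.b 3) (.b 8)) (.b 34))) (.b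
  10))) (.n (.n (.b 3) (.n (.n (.b 3) (.n (.n (.b 3) (.n (.n (.b 3) (.b 8)) (.n (.n (.b 3) (.n (.n
  (.b 3) (.n (.n (.b 3) (.n (.n (.b 3) (.b 8)) (.n (.n (.b 3) (.n (.n (.b 3) (.n (.n (.b 3) (.n
  (.n (.b 3) (.b 8)) (.n (.n (.b 3) (.b 21)) (.b 4)))) (.b 10))) (.n (.n (.b 3) (.n (.n (.b 3) (.n
  (.n (.b 3) (.n (.n (.b 3) (.b 8)) (.n (.b 81) (.b 4)))) (.n (.n (.b 3) (.b 10)) (.b 4)))) (.b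
  9))) (.b 4)))) (.b 4)))) (.b 10))) (.n (.n (.b 3) (.n (.n (.b 3) (.n (.b 30) (.n (.n (.b 3) (.b
  10)) (.b 4)))) (.b 9))) (.b 4)))) (.b 4)))) (.n (.n (.b 3) (.b 10)) (.b 4)))) (.b 9))) (.b 4))))
  (.b 4)))) (.n (.n (.b 3) (.b 10)) (.b 4)))) (.b 9))) (.b 4)))) (.b 4)))) (.b 10))) (.n (.n (.b
  3) (.n (.n (.b 3) (.n (.b 30) (.n (.n (.b 3) (.b 10)) (.b 4)))) (.b 9))) (.b 4)))) (.b 4)))) (.n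
  (.n (.b 3) (.b 10)) (.b 4)))) (.b 9))) (.b 4)))) (.b 4)))) (.n (.n (.b 3) (.b 10)) (.b 4)))) (.b
  9))) (.b 4)))) (.b 4)))) (.b 10))) (.n (.n (.b 3) (.n (.n (.b 3) (.n (.b 30) (.n (.n (.b 3) (.b
  10)) (.b 4)))) (.b 9))) (.b 4)))) (.b 4)))) (.n (.n (.b 3) (.b 10)) (.b 4)))) (.b 9))) (.b 4))))
  (.b 4)))) (.n (.n (.b 3) (.b 10)) (.b 4)))) (.b 9))) (.b 4)))) (.b 4)))) (.b 10))) (.n (.n (.b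
  3) (.n (.n (.b 3) (.n (.n (.b 3) (.n (.n (.b 3) (.b 8)) (.n (.n (.b 3) (.n (.n (.b 3) (.n (.n
  (.b 3) (.n (.n (.b 3) (.b 8)) (.n (.n (.b 3) (.n (.n (.b 3) (.n (.n (.b 3) (.n (.n (.b 3) (.b
  8)) (.n (.n (.b 3) (.b 21)) (.b 4)))) (.b 10))) (.n (.n (.b 3) (.n (.n (.b 3) (.n (.n (.b 3) (.n
  (.n (.b 3) (.b 8)) (.n (.n (.b 3) (.n (.n (.b 3) (.n (.n (.b 3) (.n (.n (.b 3) (.b 8)) (.b 34)))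
  (.b 10))) (.n (.n (.b 3) (.n (.n (.b 3) (.n (.n (.b 3) (.n (.n (.b 3) (.b 8)) (.n (.n (.b 3) (.n
  (.n (.b 3) (.n (.n (.b 3) (.n (.n (.b 3) (.b 8)) (.n (.n (.b 3) (.n (.n (.b 3) (.n (.n (.b 3)
  (.n (.n (.b 3) (.b 8)) (.n (.n (.b 3) (.b 21)) (.b 4)))) (.b 10))) (.n (.n (.b 3) (.n (.n (.b 3)
  (.n (.n (.b 3) (.n (.n (.b 3) (.b 8)) (.n (.n (.b 3) (.n (.n (.b 3) (.n (.n (.b 3) (.n (.n (.b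
  3) (.b 8)) (.b 34))) (.b 10))) (.n (.n (.b 3) (.n (.n (.b 3) (.n (.n (.b 3) (.n (.n (.b 3) (.b
  8)) (.n (.n (.b 3) (.n (.n (.b 3) (.n (.n (.b 3) (.n (.n (.b 3) (.b 8)) (.n (.n (.b 3) (.n (.n
  (.b 3) (.n (.n (.b 3) (.n (.n (.b 3) (.b 8)) (.n (.n (.b 3) (.b 21)) (.b 4)))) (.b 10))) (.n (.n
  (.b 3) (.n (.n (.b 3) (.n (.n (.b 3) (.n (.n (.b 3) (.b 8)) (.n (.n (.b 3) (.n (.n (.b 3) (.n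
  (.n (.b 3) (.n (.n (.b 3) (.b 8)) (.b 34))) (.b 10))) (.n (.n (.b 3) (.n (.n (.b 3) (.n (.n (.b
  3) (.n (.n (.b 3) (.b 8)) (.n (.n (.b 3) (.n (.n (.b 3) (.n (.n (.b 3) (.n (.n (.b 3) (.b 8))
  (.n (.b 81) (.b 4)))) (.b 10))) (.n (.n (.b 3) (.n (.n (.b 3) (.n (.b 30) (.n (.n (.b 3) (.b
  10)) (.b 4)))) (.b 9))) (.b 4)))) (.b 4)))) (.n (.n (.b 3) (.b 10)) (.b 4)))) (.b 9))) (.b 4))))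
  (.b 4)))) (.n (.n (.b 3) (.b 10)) (.b 4)))) (.b 9))) (.b 4)))) (.b 4)))) (.b 10))) (.n (.n (.b
  3) (.n (.n (.b 3) (.n (.b 30) (.n (.n (.b 3) (.b 10)) (.b 4)))) (.b 9))) (.b 4)))) (.b 4)))) (.n
  (.n (.b 3) (.b 10)) (.b 4)))) (.b 9))) (.b 4)))) (.b 4)))) (.n (.n (.b 3) (.b 10)) (.b 4)))) (.b
  9))) (.b 4)))) (.b 4)))) (.b 10))) (.n (.n (.b 3) (.n (.n (.b 3) (.n (.b 30) (.n (.n (.b 3) (.b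
  10)) (.b 4)))) (.b 9))) (.b 4)))) (.b 4)))) (.n (.n (.b 3) (.b 10)) (.b 4)))) (.b 9))) (.b 4))))
  (.b 4)))) (.n (.n (.b 3) (.b 10)) (.b 4)))) (.b 9))) (.b 4)))) (.b 4)))) (.b 10))) (.n (.n (.b
  3) (.n (.n (.b 3) (.n (.n (.b 3) (.n (.n (.b 3) (.b 8)) (.n (.n (.b 3) (.n (.n (.b 3) (.n (.n
  (.b 3) (.n (.n (.b 3) (.b 8)) (.n (.n (.b 3) (.n (.n (.b 3) (.n (.n (.b 3) (.n (.n (.b 3) (.b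
  8)) (.n (.n (.b 3) (.b 21)) (.b 4)))) (.b 10))) (.n (.n (.b 3) (.n (.n (.b 3) (.n (.n (.b 3) (.n
  (.n (.b 3) (.b 8)) (.n (.n (.b 3) (.n (.n (.b 3) (.n (.n (.b 3) (.n (.n (.b 3) (.b 8)) (.b 34)))
  (.b 10))) (.n (.n (.b 3) (.n (.n (.b 3) (.n (.n (.b 3) (.n (.n (.b 3) (.b 8)) (.n (.n (.b 3) (.n
  (.n (.b 3) (.n (.n (.b 3) (.n (.n (.b 3) (.b 8)) (.n (.n (.b 3) (.n (.n (.b 3) (.n (.n (.b 3)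
  (.n (.n (.b 3) (.b 8)) (.n (.n (.b 3) (.b 21)) (.b 4)))) (.b 10))) (.n (.n (.b 3) (.n (.n (.b 3)
  (.n (.n (.b 3) (.n (.n (.b 3) (.b 8)) (.n (.n (.b 3) (.n (.n (.b 3) (.n (.n (.b 3) (.n (.n (.b
  3) (.b 8)) (.b 34))) (.b 10))) (.n (.n (.b 3) (.n (.n (.b 3) (.n (.n (.b 3) (.n (.n (.b 3) (.b
  8)) (.n (.n (.b 3) (.n (.n (.b 3) (.n (.n (.b 3) (.n (.n (.b 3) (.b 8)) (.n (.n (.b 3) (.n (.n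
  (.b 3) (.n (.n (.b 3) (.n (.n (.b 3) (.b 8)) (.n (.n (.b 3) (.b 21)) (.b 4)))) (.b 10))) (.n (.n
  (.b 3) (.n (.n (.b 3) (.n (.n (.b 3) (.n (.n (.b 3) (.b 8)) (.n (.n (.b 3) (.n (.n (.b 3) (.n
  (.n (.b 3) (.n (.n (.b 3) (.b 8)) (.b 34))) (.b 10))) (.n (.n (.b 3) (.n (.n (.b 3) (.n (.n (.b
  3) (.b 81)) (.n (.n (.b 3) (.b 10)) (.b 4)))) (.b 9))) (.b 4)))) (.b 4)))) (.n (.n (.b 3) (.b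
  10)) (.b 4)))) (.b 9))) (.b 4)))) (.b 4)))) (.b 10))) (.n (.n (.b 3) (.n (.n (.b 3) (.n (.b 30)
  (.n (.n (.b 3) (.b 10)) (.b 4)))) (.b 9))) (.b 4)))) (.b 4)))) (.n (.n (.b 3) (.b 10)) (.b 4))))
  (.b 9))) (.b 4)))) (.b 4)))) (.n (.n (.b 3) (.b 10)) (.b 4)))) (.b 9))) (.b 4)))) (.b 4)))) (.b
  10))) (.n (.n (.b 3) (.n (.n (.b 3) (.n (.b 30) (.n (.n (.b 3) (.b 10)) (.b 4)))) (.b 9))) (.b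
  4)))) (.b 4)))) (.n (.n (.b 3) (.b 10)) (.b 4)))) (.b 9))) (.b 4)))) (.b 4)))) (.n (.n (.b 3)
  (.b 10)) (.b 4)))) (.b 9))) (.b 4)))) (.b 4)))) (.b 10))) (.n (.n (.b 3) (.n (.n (.b 3) (.b 30))
  (.b 9))) (.b 4)))) (.b 4)))) (.n (.n (.b 3) (.b 10)) (.b 4)))) (.b 9))) (.b 4)))) (.b 4)))) (.n
  (.n (.b 3) (.b 10)) (.b 4)))) (.b 9))) (.b 4)))) (.b 4)))) (.n (.n (.b 3) (.b 10)) (.b 4)))) (.n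
  (.n (.b 3) (.b 9)) (.b 4)))) (.b 4))

/-- A subtree of the table. -/
def s18 : T :=
  (.b 4)

/-- A subtree of the table. -/
def u0 : T := .n s3 s4

/-- A subtree of the table. -/
def u1 : T := .n s2 u0

/-- A subtree of the table. -/
def u2 : T := .n u1 s5

/-- A subtree of the table. -/
def u3 : T := .n s1 u2

/-- A subtree of the table. -/
def u4 : T := .n s7 s8

/-- A subtree of the table. -/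
def u5 : T := .n s6 u4

/-- A subtree of the table. -/
def u6 : T := .n u5 s9

/-- A subtree of the table. -/
def u7 : T := .n u3 u6

/-- A subtree of the table. -/
def u8 : T := .n s0 u7

/-- A subtree of the table. -/
def u9 : T := .n s12 s13

/-- A subtree of the table. -/
def u10 : T := .n s11 u9

/-- A subtree of the table. -/
def u11 : T := .n u10 s14

/-- A subtree of the table. -/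
def u12 : T := .n s10 u11

/-- A subtree of the table. -/
def u13 : T := .n s16 s17

/-- A subtree of the table. -/
def u14 : T := .n s15 u13

/-- A subtree of the table. -/
def u15 : T := .n u14 s18

/-- A subtree of the table. -/
def u16 : T := .n u12 u15

/-- A subtree of the table. -/
def u17 : T := .n u8 u16

/-- The table. -/
def tb : T := u17

end Pool.Agent.Helper49.TF.F4
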