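import Pool.Agent.Helper49.TF.Gen
import Pool.Agent.Helper49.TF.TabB0
import Pool.Agent.Helper49.TF.TabB1
import Pool.Agent.Helper49.TF.TabB2
import Pool.Agent.Helper49.TF.TabB3
import Pool.Agent.Helper49.TF.TabB4

/-!
# Three letters, `3/4 < κ ≤ 1`: assembly of the five tables
-/

set_option autoImplicit false

namespace Pool.Agent.Helper49.TF

open Pool.Agent.Helper25.PF

theorem tern0 (hstp : S_STP) (hrng : S_RNG) (hpki : S_PKI) (κ : ℝ) (h1 : (3 : ℝ) / 4 < κ)
    (h2 : κ ≤ (7 : ℝ) / 9) : Con 3 κ := by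
  have hp : Pack 17 (fun δ => B0.ws.getD (δ - 1) 0) 15 := hpki.1
  refine con_of hstp hrng 1 22 17 15 3 4 7 9 B0.es B0.el B0.ws B0.tb hp (by norm_num)
    (by norm_num) (by norm_num) (by norm_num) (by norm_num) (by norm_num) (by decide) (by decide)
    (by norm_num) (by norm_num) (by decide) (by decide) B0.ok κ ?_ ?_
  · push_cast
    linarith [(div_lt_iff₀ (by norm_num : (0 : ℝ) < 4)).1 h1]
  · push_cast
    linarith [(le_div_iff₀ (by norm_num : (0 : ℝ) < 9)).1 h2]

theorem tern1 (hstp : S_STP) (hrng : S_RNG) (hpki : S_PKI) (κ : ℝ) (h1 : (7 : ℝ) / 9 < κ)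
    (h2 : κ ≤ (9 : ℝ) / 11) : Con 3 κ := by
  have hp : Pack 18 (fun δ => B1.ws.getD (δ - 1) 0) 25 := hpki.2.1
  refine con_of hstp hrng 1 22 18 25 7 9 9 11 B1.es B1.el B1.ws B1.tb hp (by norm_num)
    (by norm_num) (by norm_num) (by norm_num) (by norm_num) (by norm_num) (by decide) (by decide)
    (by norm_num) (by norm_num) (by decide) (by decide) B1.ok κ ?_ ?_
  · push_cast
    linarith [(div_lt_iff₀ (by norm_num : (0 : ℝ) < 9)).1 h1]
  · push_cast
    linarith [(le_div_iff₀ (by norm_num : (0 : ℝ) < 11)).1 h2]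

theorem tern2 (hstp : S_STP) (hrng : S_RNG) (hpki : S_PKI) (κ : ℝ) (h1 : (9 : ℝ) / 11 < κ)
    (h2 : κ ≤ (5 : ℝ) / 6) : Con 3 κ := by
  have hp : Pack 18 (fun δ => B2.ws.getD (δ - 1) 0) 25 := hpki.2.1
  refine con_of hstp hrng 1 22 18 25 9 11 5 6 B2.es B2.el B2.ws B2.tb hp (by norm_num)
    (by norm_num) (by norm_num) (by norm_num) (by norm_num) (by norm_num) (by decide) (by decide)
    (by norm_num) (by norm_num) (by decide) (by decide) B2.ok κ ?_ ?_
  · push_cast
    linarith [(div_lt_iff₀ (by norm_num : (0 : ℝ) < 11)).1 h1]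
  · push_cast
    linarith [(le_div_iff₀ (by norm_num : (0 : ℝ) < 6)).1 h2]

theorem tern3 (hstp : S_STP) (hrng : S_RNG) (hpki : S_PKI) (κ : ℝ) (h1 : (5 : ℝ) / 6 < κ)
    (h2 : κ ≤ (11 : ℝ) / 12) : Con 3 κ := by
  have hp : Pack 19 (fun δ => B3.ws.getD (δ - 1) 0) 21 := hpki.2.2
  refine con_of hstp hrng 1 22 19 21 5 6 11 12 B3.es B3.el B3.ws B3.tb hp (by norm_num)
    (by norm_num) (by norm_num) (by norm_num) (by norm_num) (by norm_num) (by decide) (by decide)
    (by norm_num) (by norm_num) (by decide) (by decide) B3.ok κ ?_ ?_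
  · push_cast
    linarith [(div_lt_iff₀ (by norm_num : (0 : ℝ) < 6)).1 h1]
  · push_cast
    linarith [(le_div_iff₀ (by norm_num : (0 : ℝ) < 12)).1 h2]

theorem tern4 (hstp : S_STP) (hrng : S_RNG) (hpki : S_PKI) (κ : ℝ) (h1 : (11 : ℝ) / 12 < κ)
    (h2 : κ ≤ (1 : ℝ) / 1) : Con 3 κ := by
  have hp : Pack 19 (fun δ => B4.ws.getD (δ - 1) 0) 21 := hpki.2.2
  refine con_of hstp hrng 1 22 19 21 11 12 1 1 B4.es B4.el B4.ws B4.tb hp (by norm_num)
    (by norm_num) (by norm_num) (by norm_num) (by norm_num) (by norm_num) (by decide) (by decide)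
    (by norm_num) (by norm_num) (by decide) (by decide) B4.ok κ ?_ ?_
  · push_cast
    linarith [(div_lt_iff₀ (by norm_num : (0 : ℝ) < 12)).1 h1]
  · push_cast
    linarith [(le_div_iff₀ (by norm_num : (0 : ℝ) < 1)).1 h2]

theorem tern (hstp : S_STP) (hrng : S_RNG) (hpki : S_PKI) (κ : ℝ) (h1 : 3 / 4 < κ) (h2 : κ ≤ 1) :
    Con 3 κ := by
  rcases le_or_gt κ (7 / 9) with h | h
  · exact tern0 hstp hrng hpki κ (by norm_num; linarith) (by norm_num; linarith)
  rcases le_or_gt κ (9 / 11) with h' | h'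
  · exact tern1 hstp hrng hpki κ (by norm_num; linarith) (by norm_num; linarith)
  rcases le_or_gt κ (5 / 6) with h'' | h''
  · exact tern2 hstp hrng hpki κ (by norm_num; linarith) (by norm_num; linarith)
  rcases le_or_gt κ (11 / 12) with h3 | h3
  · exact tern3 hstp hrng hpki κ (by norm_num; linarith) (by norm_num; linarith)
  · exact tern4 hstp hrng hpki κ (by norm_num; linarith) (by norm_num; linarith)

end Pool.Agent.Helper49.TF
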