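import Pool.Agent.Helper49.TF.GenFin
import Pool.Agent.Helper49.TF.Quat
import Pool.Agent.Helper49.TF.Tern
import Pool.Agent.Helper49.TF.M_SML

/-!
# Assembly for three and four letters
-/

set_option autoImplicit false

namespace Pool.Agent.Helper49.TF

open Pool.Agent.Helper25.PF

/-- At most three letters, exponents in `(1, 2]`. -/
theorem three_con (hstp : S_STP) (hrng : S_RNG) (hpki : S_PKI) (hsml : S_SML) (m : ℕ) (hm : m ≤ 3)
    (κ : ℝ) (h1 : 0 < κ) (h2 : κ ≤ 1) : Con m κ := by
  rcases Nat.lt_or_ge m 3 with h | h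
  · apply con_of_bound m κ 4
    intro v hv hv'
    have := hsml.2 κ v h1 h2 hv (fun c hc => by have := hv' c hc; omega)
    omega
  · have hm3 : m = 3 := by omega
    subst hm3
    rcases le_or_gt κ (3 / 4) with h' | h'
    · apply con_of_bound 3 κ 39
      intro v hv hv'
      have := hsml.1 κ v h1 h' hv hv'
      omega
    · exact tern hstp hrng hpki κ h' h2

end Pool.Agent.Helper49.TF
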